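import Mathlib

/-! Whitehead groups, the reduced projective class group and regular coherence, in elementary
terms. -/

namespace Pool.Agent.Work.MP_9d1ffa_al

/-- the integral group ring -/
abbrev ZG (G : Type) [Group G] : Type := MonoidAlgebra ℤ G

section

variable {G : Type} [Group G]

/-- the inclusion of the group ring of a subgroup -/
noncomputable abbrev incl (H : Subgroup G) : ZG H →+* ZG G :=
  MonoidAlgebra.mapDomainRingHom ℤ H.subtype

/-- elementary matrices, diagonal matrices with entries `± g`, and images of invertible matrices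
over the group ring of a member of the family `F` -/
def Gen (F : Set (Subgroup G)) (ι : Type) [Fintype ι] [DecidableEq ι] :
    Set (Matrix ι ι (ZG G)) :=
  {A | (∃ (i j : ι) (r : ZG G), i ≠ j ∧ A = 1 + Matrix.single i j r) ∨
    (∃ (g : ι → G) (ε : ι → ℤˣ),
      A = Matrix.diagonal fun i => MonoidAlgebra.single (g i) (ε i : ℤ)) ∨
    ∃ H ∈ F, ∃ B : Matrix ι ι (ZG H), IsUnit B ∧ A = B.map (incl H)}

/-- `A` is stably a product of matrices in `Gen F` -/
def Triv (F : Set (Subgroup G)) {ι : Type} [Fintype ι] [DecidableEq ι]
    (A : Matrix ι ι (ZG G)) : Prop :=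
  ∃ m : ℕ, Matrix.fromBlocks A 0 0 (1 : Matrix (Fin m) (Fin m) (ZG G)) ∈
    Submonoid.closure (Gen F (ι ⊕ Fin m))

/-- the Whitehead group of `G` is generated by the images of the Whitehead groups of the members
of `F` -/
def WhGen (F : Set (Subgroup G)) : Prop :=
  ∀ (n : ℕ) (A : Matrix (Fin n) (Fin n) (ZG G)), IsUnit A → Triv F A

end

/-- every finitely generated projective module over the group ring is stably free -/
def K0Zero (G : Type) [Group G] : Prop :=
  ∀ (M : Type) [AddCommGroup M] [Module (ZG G) M],
    Module.Finite (ZG G) M → Module.Projective (ZG G) M → Module.IsStablyFree (ZG G) M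

/-- `M` has a resolution of length `n` by finitely generated projective modules -/
def FPR (R : Type) [Ring R] : ℕ → ∀ (M : Type) [AddCommGroup M] [Module R M], Prop
  | 0, M, _, _ => Module.Finite R M ∧ Module.Projective R M
  | n + 1, M, _, _ => ∃ (N : Type) (_ : AddCommGroup N) (_ : Module R N) (f : N →ₗ[R] M),
      Module.Finite R N ∧ Module.Projective R N ∧ Function.Surjective f ∧
        FPR R n (LinearMap.ker f)

/-- the group ring is regular coherent -/
def RC (G : Type) [Group G] : Prop :=
  ∀ (M : Type) [AddCommGroup M] [Module (ZG G) M],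
    Module.FinitePresentation (ZG G) M → ∃ n, FPR (ZG G) n M

end Pool.Agent.Work.MP_9d1ffa_al
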