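import Pool.Agent.Work.MP_9d1ffa_al.Machine
import Pool.Agent.Work.MP_904812_al.Geom

/-! Directed segments in a simplicial tree. -/

namespace Pool.Agent.Work.MP_9d1ffa_al

open Matrix MonoidAlgebra MulAction

set_option linter.unusedSectionVars false
set_option linter.unusedVariables false

open Pool.Agent.Work.MP_904812_al

variable {G : Type} [Group G] {V : Type} [MulAction G V] {d : V → V → ℤ}

/-- consecutive directed edges without backtracking -/
def stp (d : V → V → ℤ) (σ τ : V × V) : Prop :=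
  τ.1 = σ.2 ∧ d σ.1 σ.2 = 1 ∧ d τ.1 τ.2 = 1 ∧ τ.2 ≠ σ.1

/-- the directed edge `τ` lies ahead of the directed edge `σ` and points away from it -/
def cone (d : V → V → ℤ) (σ τ : V × V) : Prop :=
  d σ.1 σ.2 = 1 ∧ d τ.1 τ.2 = 1 ∧ d τ.1 σ.2 < d τ.1 σ.1 ∧ d τ.2 σ.2 < d τ.2 σ.1 ∧
    d σ.2 τ.1 < d σ.2 τ.2

/-- the directed segment `τ` is ahead of `σ` on a common directed geodesic -/
def mvT (d : V → V → ℤ) (σ τ : V × V) : Prop :=
  σ.1 ≠ σ.2 ∧ τ.1 ≠ τ.2 ∧ σ.1 ≠ τ.1 ∧ Bt d σ.1 τ.1 τ.2 ∧ Bt d σ.1 σ.2 τ.2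

/-- the nondegenerate segment `σ` is contained in `τ` -/
def subT (d : V → V → ℤ) (σ τ : V × V) : Prop :=
  σ.1 ≠ σ.2 ∧ Bt d τ.1 σ.1 τ.2 ∧ Bt d τ.1 σ.2 τ.2

/-- a vertex is closer to exactly one endpoint of an edge -/
theorem adj_cases (h : Tr d) {x y : V} (e : d x y = 1) (z : V) :
    d z y = d z x + 1 ∨ d z x = d z y + 1 := by
  obtain ⟨m, a1, a2, a3⟩ := h.med x y z
  have n1 := h.nonneg x m
  have n2 := h.nonneg m y
  have s1 := h.symm z x
  have s2 := h.symm z y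
  have s3 := h.symm y m
  have s4 := h.symm y x
  rcases (show d x m = 0 ∨ d m y = 0 by omega) with c | c
  · obtain rfl := h.eq_of c
    omega
  · obtain rfl := h.eq_of c
    omega

/-- another edge lies on one side of an edge -/
theorem side_edge (h : Tr d) {u w a b : V} (e : d u w = 1) (e' : d a b = 1)
    (h1 : (a, b) ≠ (u, w)) (h2 : (a, b) ≠ (w, u)) : d a w < d a u ↔ d b w < d b u := by
  have key : ∀ a b : V, d a b = 1 → (a, b) ≠ (w, u) → d a w < d a u → d b w < d b u := by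
    intro a b e' h2 lt
    by_contra ge
    have c1 := adj_cases h e a
    have c2 := adj_cases h e b
    have f := h.four a u b w
    have s1 := h.symm u b
    have n1 := h.nonneg a w
    have n2 := h.nonneg b u
    rw [le_max_iff] at f
    have z1 : d a w = 0 := by omega
    have z2 : d b u = 0 := by omega
    exact h2 (Prod.ext (h.eq_of z1) (h.eq_of z2))
  refine ⟨key a b e' h2, key b a (by rw [h.symm, e']) fun c => h1 ?_⟩
  simp only [Prod.mk.injEq] at c ⊢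
  exact ⟨c.2, c.1⟩

theorem inv_stp (iso : ∀ (g : G) x y, d (g • x) (g • y) = d x y) : Inv G (stp d) := by
  rintro g σ τ ⟨a1, a2, a3, a4⟩
  refine ⟨?_, ?_, ?_, ?_⟩
  · simp [a1]
  · simpa [iso] using a2
  · simpa [iso] using a3
  · simpa using a4

theorem inv_cone (iso : ∀ (g : G) x y, d (g • x) (g • y) = d x y) : Inv G (cone d) := by
  rintro g σ τ ⟨a1, a2, a3, a4, a5⟩
  refine ⟨?_, ?_, ?_, ?_, ?_⟩
  · simpa [iso] using a1
  · simpa [iso] using a2
  · simpa [iso] using a3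
  · simpa [iso] using a4
  · simpa [iso] using a5

/-- two consecutive edges span distance two -/
theorem geo_two (h : Tr d) {σ τ : V × V} (a : stp d σ τ) : d σ.1 τ.2 = 2 := by
  obtain ⟨a1, a2, a3, a4⟩ := a
  rw [a1] at a3
  have c := adj_cases h a3 σ.1
  have p := h.pos (Ne.symm a4)
  omega

theorem stp_mvT (h : Tr d) {σ τ : V × V} (a : stp d σ τ) : mvT d σ τ := by
  have t := geo_two h a
  obtain ⟨a1, a2, a3, a4⟩ := a
  have z1 := h.self σ.1
  have z2 := h.self τ.1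
  refine ⟨fun c => ?_, fun c => ?_, fun c => ?_, ?_, ?_⟩
  · rw [← c] at a2; omega
  · rw [← c] at a3; omega
  · rw [← a1, ← c] at a2; omega
  · simp only [Bt]; rw [a1] at a3 ⊢; omega
  · simp only [Bt]; rw [a1] at a3; omega

theorem cone_irr (h : Tr d) (σ : V × V) : ¬ cone d σ σ := by
  rintro ⟨a1, a2, a3, a4, a5⟩
  have := h.self σ.1
  omega

theorem cone_n1 (h : Tr d) (σ σ₁ τ : V × V) (a : stp d σ σ₁) (b : τ = σ₁ ∨ cone d σ₁ τ) :
    (d σ.1 τ.1).toNat = (d σ₁.1 τ.1).toNat + 1 := by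
  have t := geo_two h a
  obtain ⟨a1, a2, a3, a4⟩ := a
  rcases b with rfl | ⟨b1, b2, b3, b4, b5⟩
  · rw [h.self, a1, a2]; rfl
  · rw [a1] at a3 b3 ⊢
    have c1 := adj_cases h a2 τ.1
    have c2 := adj_cases h a3 τ.1
    have f := h.four τ.1 σ.2 σ.1 σ₁.2
    have s1 := h.symm σ.2 σ.1
    have s2 := h.symm σ.1 τ.1
    have s3 := h.symm σ.2 τ.1
    have n1 := h.nonneg τ.1 σ.2
    rw [le_max_iff] at f
    omega

theorem cone_n2 (h : Tr d) (σ σ₁ σ₂ τ : V × V) (a₁ : stp d σ σ₁) (a₂ : stp d σ σ₂)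
    (b₁ : τ = σ₁ ∨ cone d σ₁ τ) (b₂ : τ = σ₂ ∨ cone d σ₂ τ) : σ₁ = σ₂ := by
  have key : ∀ ρ : V × V, stp d σ ρ → (τ = ρ ∨ cone d ρ τ) → Bt d σ.2 ρ.2 τ.2 := by
    rintro ρ ⟨a1, a2, a3, a4⟩ (rfl | ⟨b1, b2, b3, b4, b5⟩)
    · exact h.bt_right _ _
    · rw [a1] at a3 b4
      have c := adj_cases h a3 τ.2
      have s1 := h.symm σ.2 τ.2
      have s2 := h.symm ρ.2 τ.2
      simp only [Bt]; omega
  have e := h.bt_uniq (key _ a₁ b₁) (key _ a₂ b₂) (by
    have e1 := a₁.2.2.1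
    have e2 := a₂.2.2.1
    rw [a₁.1] at e1
    rw [a₂.1] at e2
    rw [e1, e2])
  exact Prod.ext (a₁.1.trans a₂.1.symm) e

theorem geo_overlap (h : Tr d) {a a' b' b'' : V} (x : Bt d a a' b') (y : Bt d a' b' b'')
    (n : a' ≠ b') : Bt d a a' b'' ∧ Bt d a b' b'' := by
  have p := h.pos n
  have f := h.four a b' a' b''
  have t1 := h.tri a a' b''
  have t2 := h.tri a b' b''
  have s1 := h.symm b' a'
  rw [le_max_iff] at f
  simp only [Bt] at *
  omega

theorem geo_ne (h : Tr d) {a b c : V} (x : Bt d a b c) (n : a ≠ b) : a ≠ c := by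
  rintro rfl
  have p := h.pos n
  have z := h.self a
  have := h.nonneg b a
  simp only [Bt] at x
  omega

theorem geo_fix (h : Tr d) (iso : ∀ (g : G) x y, d (g • x) (g • y) = d x y) {g : G} {a b c : V}
    (ea : g • a = a) (ec : g • c = c) (x : Bt d a b c) : g • b = b := by
  have e1 : d a (g • b) = d a b := by rw [← iso g a b, ea]
  have e2 : d (g • b) c = d b c := by rw [← iso g b c, ec]
  refine h.bt_uniq (x := a) (y := c) ?_ x e1
  simp only [Bt] at *
  omega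

theorem mach_tree (h : Tr d) (iso : ∀ (g : G) x y, d (g • x) (g • y) = d x y) :
    Mach G (mvT d) (fun σ τ : V × V => (σ.1, τ.2)) (subT d) := by
  refine ⟨?_, ?_, ?_, ?_, ?_, ?_, ?_⟩
  · rintro g σ τ ⟨a1, a2, a3, a4, a5⟩
    refine ⟨?_, ?_, ?_, ?_, ?_⟩
    · simpa using a1
    · simpa using a2
    · simpa using a3
    · simpa [Bt, iso] using a4
    · simpa [Bt, iso] using a5
  · rintro a b c ⟨a1, a2, a3, a4, a5⟩ ⟨b1, b2, b3, b4, b5⟩
    obtain ⟨o1, o2⟩ := geo_overlap h a4 b5 a2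
    obtain ⟨o3, o4⟩ := h.bt_trans' o1 b4
    exact ⟨a1, b2, geo_ne h o3 a3, o4, (h.bt_trans a5 o2).1⟩
  · intro g a b
    rfl
  · rintro a b ⟨a1, a2, a3, a4, a5⟩ g e
    have e1 : g • a.1 = a.1 := congrArg Prod.fst e
    have e2 : g • b.2 = b.2 := congrArg Prod.snd e
    exact ⟨Prod.ext e1 (geo_fix h iso e1 e2 a5), Prod.ext (geo_fix h iso e1 e2 a4) e2⟩
  · rintro a b c ⟨a1, a2, a3, a4, a5⟩ ⟨b1, b2, b3, b4, b5⟩
    obtain ⟨o1, o2⟩ := geo_overlap h a4 b5 a2
    exact ⟨geo_ne h a4 a3, geo_ne h b5 a2, a3, o1, o2⟩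
  · rintro a b ⟨a1, a2, a3, a4, a5⟩
    exact ⟨a1, h.bt_left _ _, a5⟩
  · rintro a b ⟨a1, a2, a3, a4, a5⟩
    exact ⟨a2, a4, h.bt_right _ _⟩

/-- an invariant orientation of the edges -/
theorem exists_orient (h : Tr d) (noinv : ∀ (g : G) x y, d x y = 1 → g • x = y → g • y ≠ x) :
    ∃ O : V × V → Prop, (∀ (g : G) e, O e → O (g • e)) ∧
      (∀ x y, d x y = 1 → O (x, y) → ¬ O (y, x)) ∧ ∀ x y, d x y = 1 → O (x, y) ∨ O (y, x) := by
  let o : V × V → Quotient (orbitRel G (V × V)) := Quotient.mk (orbitRel G (V × V))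
  have ho : ∀ (g : G) e, o (g • e) = o e := fun g e => Quotient.sound ⟨g, rfl⟩
  refine ⟨fun e => WellOrderingRel (o e) (o e.swap), fun g e a => ?_, fun x y _ a b => ?_,
    fun x y e => ?_⟩
  · have : (g • e).swap = g • e.swap := rfl
    simp only [this, ho]
    exact a
  · exact asymm a b
  · rcases trichotomous_of WellOrderingRel (o (x, y)) (o (y, x)) with c | c | c
    · exact Or.inl c
    · obtain ⟨g, hg⟩ := Quotient.exact c.symm
      exact absurd (congrArg Prod.snd hg) (noinv g x y e (congrArg Prod.fst hg))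
    · exact Or.inr c

end Pool.Agent.Work.MP_9d1ffa_al
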