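import Pool.Agent.Work.MP_9d1ffa_al.Res

/-! Induction of submodules from a subgroup. -/

namespace Pool.Agent.Work.MP_9d1ffa_al

open Matrix MonoidAlgebra MulAction

set_option linter.unusedSectionVars false
set_option linter.unusedVariables false

variable {G : Type} [Group G] {D : Subgroup G} {I J : Type}

/-- the component of an element of the group ring on the coset `c D` -/
noncomputable def cmp (D : Subgroup G) (c : G) : ZG G →+ ZG D :=
  MonoidAlgebra.comapDomainAddMonoidHom (fun d : D => c * (d : G))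
    (fun _ _ h => Subtype.ext (mul_left_cancel h))

theorem coeff_cmp (c : G) (x : ZG G) (d : D) : (cmp D c x).coeff d = x.coeff (c * d) := rfl

/-- the same for vectors -/
noncomputable def cmpV (D : Subgroup G) (c : G) (x : I → ZG G) : I → ZG D := fun i => cmp D c (x i)

/-- the inclusion on vectors -/
noncomputable def incV (D : Subgroup G) (y : I → ZG D) : I → ZG G := fun i => incl D (y i)

theorem Ind_coeff_cmpV (c : G) (x : I → ZG G) (i : I) (d : D) :
    (cmpV D c x i).coeff d = (x i).coeff (c * d) := rfl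

theorem cmpV_add (c : G) (x y : I → ZG G) : cmpV D c (x + y) = cmpV D c x + cmpV D c y := by
  funext i
  exact map_add (cmp D c) (x i) (y i)

theorem Ind_cmpV_sub (c : G) (x y : I → ZG G) : cmpV D c (x - y) = cmpV D c x - cmpV D c y := by
  funext i
  exact map_sub (cmp D c) (x i) (y i)

theorem Ind_cmpV_zero (c : G) : cmpV D c (0 : I → ZG G) = 0 := by
  funext i
  exact map_zero (cmp D c)

theorem cmpV_single_smul (c g : G) (n : ℤ) (x : I → ZG G) :
    cmpV D c ((single g n : ZG G) • x) = n • cmpV D (g⁻¹ * c) x :=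
  vec_ext fun i d => by
    rw [Ind_coeff_cmpV, coeff_single_smul]
    have : ((n • cmpV D (g⁻¹ * c) x) i).coeff d = n * (cmpV D (g⁻¹ * c) x i).coeff d := by
      rw [Pi.smul_apply, coeff_smul, Finsupp.smul_apply, smul_eq_mul]
    rw [this, Ind_coeff_cmpV, mul_assoc]

theorem cmpV_mul (c : G) (d : D) (x : I → ZG G) :
    cmpV D (c * d) x = (single d⁻¹ (1 : ℤ) : ZG D) • cmpV D c x :=
  vec_ext fun i e => by
    rw [coeff_single_smul, Ind_coeff_cmpV, Ind_coeff_cmpV, inv_inv, one_mul, Subgroup.coe_mul,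
      mul_assoc]

theorem Ind_cmp_mul (c : G) (x : ZG G) (y : ZG D) :
    cmp D c (x * incl D y) = cmp D c x * y := by
  induction y using MonoidAlgebra.induction_linear with
  | zero => simp
  | add a b ha hb => rw [map_add, mul_add, map_add, ha, hb, mul_add]
  | single d n =>
    ext e
    rw [incl_single, coeff_cmp, coeff_mul_single_apply, coeff_mul_single_apply, coeff_cmp,
      Subgroup.coe_mul, Subgroup.coe_inv, mul_assoc]

theorem cmpV_vecMul [Fintype I] (c : G) (x : I → ZG G) (M : Matrix I J (ZG D)) :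
    cmpV D c (x ᵥ* M.map (incl D)) = cmpV D c x ᵥ* M := by
  funext j
  simp only [cmpV, Matrix.vecMul, dotProduct, map_sum, Matrix.map_apply, Ind_cmp_mul]

theorem cmpV_incV (y : I → ZG D) : cmpV D 1 (incV D y) = y :=
  vec_ext fun i d => by
    rw [Ind_coeff_cmpV, one_mul]
    exact coeff_incl_coe D _ d

theorem cmpV_incV_of_not_mem {c : G} (hc : c ∉ D) (y : I → ZG D) : cmpV D c (incV D y) = 0 :=
  vec_ext fun i d => by
    rw [Ind_coeff_cmpV]
    have : c * (d : G) ∉ D := fun h => hc ((D.mul_mem_cancel_right d.2).1 h)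
    exact coeff_incl_of_not_mem D _ this

theorem incV_smul (r : ZG D) (y : I → ZG D) : incV D (r • y) = incl D r • incV D y := by
  funext i
  simp only [incV, Pi.smul_apply, smul_eq_mul, map_mul]

theorem Ind_incV_add (y z : I → ZG D) : incV D (y + z) = incV D y + incV D z := by
  funext i
  simp only [incV, Pi.add_apply, map_add]

theorem eq_zero_of_cmpV {x : I → ZG G} (h : ∀ c, cmpV D c x = 0) : x = 0 :=
  vec_ext fun i g => by
    have := Ind_coeff_cmpV (D := D) g x i 1
    rw [h g] at this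
    simpa using this.symm

/-- the component on a coset, in terms of positions -/
theorem proj_const {P : Type} [MulAction G P] (σ : P) (hD : ∀ g : G, g • σ = σ ↔ g ∈ D) (c : G)
    (x : I → ZG G) :
    proj (fun _ : I => σ) (· = c • σ) x = (single c (1 : ℤ) : ZG G) • incV D (cmpV D c x) :=
  vec_ext fun i g => by
    rw [coeff_proj, coeff_single_smul, one_mul]
    have k : g • σ = c • σ ↔ c⁻¹ * g ∈ D := by
      rw [← hD, mul_smul, inv_smul_eq_iff]
    by_cases h : c⁻¹ * g ∈ D
    · rw [if_pos (k.2 h)]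
      have := coeff_incl_coe D (cmpV D c x i) ⟨c⁻¹ * g, h⟩
      rw [Ind_coeff_cmpV] at this
      simp only [mul_inv_cancel_left] at this
      exact this.symm
    · rw [if_neg (fun e => h (k.1 e))]
      exact (coeff_incl_of_not_mem D _ h).symm

/-- the induced submodule -/
def ind (Y : Submodule (ZG D) (I → ZG D)) : Submodule (ZG G) (I → ZG G) where
  carrier := {x | ∀ c, cmpV D c x ∈ Y}
  zero_mem' := by
    intro c
    rw [Ind_cmpV_zero]
    exact Y.zero_mem
  add_mem' := by
    intro a b ha hb c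
    rw [cmpV_add]
    exact Y.add_mem (ha c) (hb c)
  smul_mem' := by
    intro r x hx
    let N : AddSubgroup (I → ZG G) :=
      { carrier := {x | ∀ c, cmpV D c x ∈ Y}
        zero_mem' := fun c => by
          rw [Ind_cmpV_zero]
          exact Y.zero_mem
        add_mem' := fun {a b} ha hb c => by
          rw [cmpV_add]
          exact Y.add_mem (ha c) (hb c)
        neg_mem' := fun {a} ha c => by
          rw [← zero_sub, Ind_cmpV_sub, Ind_cmpV_zero]
          exact Y.sub_mem Y.zero_mem (ha c) }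
    refine smul_mem_of_single (N := N) (fun g x hx c => ?_) r hx
    rw [cmpV_single_smul, one_smul]
    exact hx _

theorem mem_ind {Y : Submodule (ZG D) (I → ZG D)} {x : I → ZG G} :
    x ∈ ind Y ↔ ∀ c, cmpV D c x ∈ Y := Iff.rfl

theorem incV_mem_ind {Y : Submodule (ZG D) (I → ZG D)} {y : I → ZG D} (hy : y ∈ Y) :
    incV D y ∈ ind Y := by
  intro c
  by_cases hc : c ∈ D
  · have := cmpV_mul 1 (⟨c, hc⟩ : D) (incV D y)
    rw [one_mul, cmpV_incV] at this
    rw [this]
    exact Y.smul_mem _ hy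
  · rw [cmpV_incV_of_not_mem hc]
    exact Y.zero_mem

theorem ind_le_iff [Finite I] {Y : Submodule (ZG D) (I → ZG D)}
    {X : Submodule (ZG G) (I → ZG G)} : ind Y ≤ X ↔ ∀ y ∈ Y, incV D y ∈ X := by
  refine ⟨fun h y hy => h (incV_mem_ind hy), fun h x hx => ?_⟩
  refine mem_of_proj (fun _ : I => ((1 : G) : G ⧸ D)) fun σ => ?_
  obtain ⟨c, rfl⟩ := QuotientGroup.mk_surjective σ
  have hD : ∀ g : G, g • ((1 : G) : G ⧸ D) = ((1 : G) : G ⧸ D) ↔ g ∈ D := fun g => by
    rw [MulAction.Quotient.smul_mk, smul_eq_mul, mul_one, QuotientGroup.eq, mul_one,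
      D.inv_mem_iff]
  have e : (c : G ⧸ D) = c • ((1 : G) : G ⧸ D) := by
    rw [MulAction.Quotient.smul_mk, smul_eq_mul, mul_one]
  rw [e, proj_const _ hD]
  exact X.smul_mem _ (h _ (hx c))

theorem ind_mono {Y Y' : Submodule (ZG D) (I → ZG D)} (h : Y ≤ Y') : ind Y ≤ ind Y' :=
  fun _ hx c => h (hx c)

theorem ind_top : ind (⊤ : Submodule (ZG D) (I → ZG D)) = ⊤ :=
  eq_top_iff.2 fun _ _ _ => Submodule.mem_top

theorem ind_bot : ind (⊥ : Submodule (ZG D) (I → ZG D)) = ⊥ :=
  eq_bot_iff.2 fun _ hx => (Submodule.mem_bot _).2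
    (eq_zero_of_cmpV fun c => (Submodule.mem_bot _).1 (hx c))

theorem Ind_incV_vecMul [Fintype I] (y : I → ZG D) (M : Matrix I J (ZG D)) :
    incV D (y ᵥ* M) = incV D y ᵥ* M.map (incl D) := by
  funext j
  simp only [incV, Matrix.vecMul, dotProduct, map_sum, Matrix.map_apply, map_mul]

theorem Ind_range [Fintype I] [Finite J] (M : Matrix I J (ZG D)) :
    LinearMap.range (M.map (incl D)).vecMulLinear = ind (LinearMap.range M.vecMulLinear) := by
  refine le_antisymm ?_ (ind_le_iff.2 ?_)
  · rintro _ ⟨x, rfl⟩ c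
    rw [Matrix.vecMulLinear_apply, cmpV_vecMul]
    exact ⟨cmpV D c x, rfl⟩
  · rintro _ ⟨y, rfl⟩
    rw [Matrix.vecMulLinear_apply, Ind_incV_vecMul]
    exact ⟨incV D y, rfl⟩

theorem Ind_comap [Fintype I] (M : Matrix I J (ZG D)) (Y : Submodule (ZG D) (J → ZG D)) :
    (ind Y).comap (M.map (incl D)).vecMulLinear = ind (Y.comap M.vecMulLinear) := by
  ext x
  simp only [Submodule.mem_comap, mem_ind, Matrix.vecMulLinear_apply, cmpV_vecMul]

theorem Ind_ker [Fintype I] (M : Matrix I J (ZG D)) :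
    LinearMap.ker (M.map (incl D)).vecMulLinear = ind (LinearMap.ker M.vecMulLinear) := by
  rw [← Submodule.comap_bot, ← Submodule.comap_bot, ← Ind_comap, ind_bot]

theorem Ind_sup [Finite I] (A B : Submodule (ZG D) (I → ZG D)) : ind (A ⊔ B) = ind A ⊔ ind B := by
  refine le_antisymm (ind_le_iff.2 fun y hy => ?_)
    (sup_le (ind_mono le_sup_left) (ind_mono le_sup_right))
  obtain ⟨a, ha, b, hb, rfl⟩ := Submodule.mem_sup.1 hy
  rw [Ind_incV_add]
  exact Submodule.add_mem_sup (incV_mem_ind ha) (incV_mem_ind hb)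

theorem res_ind (n : ℕ) : ∀ (L : Type) [Fintype L] (Y : Submodule (ZG D) (L → ZG D)),
    Res (ZG D) n L Y → Res (ZG G) n L (ind Y) := by
  induction n with
  | zero =>
    rintro L _ Y ⟨E, h1, h2⟩
    refine ⟨E.map (incl D), fun x c => ?_, fun x hx => ?_⟩
    · rw [cmpV_vecMul]
      exact h1 _
    · refine sub_eq_zero.1 (eq_zero_of_cmpV (D := D) fun c => ?_)
      rw [Ind_cmpV_sub, cmpV_vecMul, h2 _ (hx c), sub_self]
  | succ n ih =>
    rintro L _ Y ⟨K, _, M, h1, h2⟩
    refine ⟨K, inferInstance, M.map (incl D), ?_, ?_⟩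
    · rw [Ind_range, h1]
    · rw [Ind_ker]
      exact ih K _ h2

theorem qres_ind [Finite I] {n : ℕ} {Y Y' : Submodule (ZG D) (I → ZG D)}
    (h : QRes (ZG D) n Y Y') : QRes (ZG G) n (ind Y) (ind Y') := by
  obtain ⟨K, _, M, h1, h2⟩ := h
  refine ⟨K, inferInstance, M.map (incl D), ?_, ?_⟩
  · rw [Ind_range, ← Ind_sup, h1]
  · rw [Ind_comap]
    exact res_ind n K _ h2

end Pool.Agent.Work.MP_9d1ffa_al
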