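import Pool.Agent.Work.MP_9d1ffa_al.Basic

/-! Finite resolutions, in terms of matrices. -/

namespace Pool.Agent.Work.MP_9d1ffa_al

open Matrix MonoidAlgebra MulAction

set_option linter.unusedSectionVars false
set_option linter.unusedVariables false

/-- the quotient of `S ^ J` by `Y` has a resolution of length `n` by finitely generated free
modules, except for the last one which is finitely generated projective -/
def Res (S : Type) [Ring S] : ℕ → ∀ (J : Type) [Fintype J], Submodule S (J → S) → Prop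
  | 0, J, _, Y => ∃ E : Matrix J J S, (∀ x, x ᵥ* E ∈ Y) ∧ ∀ x ∈ Y, x ᵥ* E = x
  | n + 1, J, _, Y => ∃ (L : Type) (_ : Fintype L) (M : Matrix L J S),
      LinearMap.range M.vecMulLinear = Y ∧ Res S n L (LinearMap.ker M.vecMulLinear)

/-- the same for the quotient of `Y` by `Y'` -/
def QRes (S : Type) [Ring S] (n : ℕ) {J : Type} (Y Y' : Submodule S (J → S)) : Prop :=
  ∃ (L : Type) (_ : Fintype L) (M : Matrix L J S),
    LinearMap.range M.vecMulLinear ⊔ Y' = Y ∧ Res S n L (Y'.comap M.vecMulLinear)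

variable {S : Type} [Ring S] {J : Type} [Fintype J]

theorem Res_mat {L K : Type} [Fintype L] (f : (L → S) →ₗ[S] (K → S)) :
    ∃ M : Matrix L K S, M.vecMulLinear = f := by
  classical
  refine ⟨fun i j => f (Pi.single i 1) j, ?_⟩
  apply LinearMap.pi_ext'
  intro i
  ext j
  simp [Matrix.vecMul, dotProduct, Pi.single_apply]

theorem Res_fg_mat {K : Type} {Y : Submodule S (K → S)} (h : Y.FG) :
    ∃ (n : ℕ) (M : Matrix (Fin n) K S), LinearMap.range M.vecMulLinear = Y := by
  obtain ⟨n, f, hf⟩ := (Submodule.fg_iff_exists_fin_linearMap S (K → S)).1 h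
  obtain ⟨M, hM⟩ := Res_mat f
  exact ⟨n, M, by rw [hM, hf]⟩

theorem res_bot (n : ℕ) : Res S n J ⊥ := by
  induction n generalizing J with
  | zero =>
    refine ⟨0, fun x => by simp, fun x hx => ?_⟩
    rw [(Submodule.mem_bot S).1 hx]
    simp
  | succ n ih =>
    refine ⟨Empty, inferInstance, 0, ?_, ?_⟩
    · rw [LinearMap.range_eq_bot]
      refine LinearMap.ext fun x => ?_
      simp
    · have h : LinearMap.ker (0 : Matrix Empty J S).vecMulLinear = ⊥ := Subsingleton.elim _ _
      rw [h]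
      exact ih

theorem Res.succ {n : ℕ} {Y : Submodule S (J → S)} (h : Res S n J Y) : Res S (n + 1) J Y := by
  induction n generalizing J with
  | zero =>
    classical
    obtain ⟨E, h1, h2⟩ := h
    refine ⟨J, inferInstance, E, ?_, 1 - E, fun x => ?_, fun x hx => ?_⟩
    · refine le_antisymm ?_ fun x hx => ⟨x, h2 x hx⟩
      rintro _ ⟨x, rfl⟩
      exact h1 x
    · rw [LinearMap.mem_ker, Matrix.vecMulLinear_apply, Matrix.vecMul_sub, Matrix.vecMul_one,
        Matrix.sub_vecMul, h2 _ (h1 x), sub_self]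
    · rw [LinearMap.mem_ker, Matrix.vecMulLinear_apply] at hx
      rw [Matrix.vecMul_sub, Matrix.vecMul_one, hx, sub_zero]
  | succ n ih =>
    obtain ⟨L, hL, M, h1, h2⟩ := h
    exact ⟨L, hL, M, h1, ih h2⟩

theorem Res_mono {n m : ℕ} {Y : Submodule S (J → S)} (h : Res S n J Y) (hm : n ≤ m) :
    Res S m J Y := by
  induction m, hm using Nat.le_induction with
  | base => exact h
  | succ m _ ih => exact ih.succ

theorem Res.fg {n : ℕ} {Y : Submodule S (J → S)} (h : Res S n J Y) : Y.FG := by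
  obtain ⟨L, hL, M, h1, -⟩ := h.succ
  rw [← h1, LinearMap.range_eq_map]
  exact Module.Finite.fg_top.map _

theorem Res_fpr_finite {n : ℕ} {M : Type} [AddCommGroup M] [Module S M] (h : FPR S n M) :
    Module.Finite S M := by
  cases n with
  | zero => exact h.1
  | succ n =>
    obtain ⟨N, _, _, f, h1, -, h3, -⟩ := h
    exact Module.Finite.of_surjective f h3

theorem Res_fpr_equiv {n : ℕ} {M M' : Type} [AddCommGroup M] [Module S M] [AddCommGroup M']
    [Module S M'] (e : M ≃ₗ[S] M') (h : FPR S n M) : FPR S n M' := by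
  cases n with
  | zero =>
    obtain ⟨h1, h2⟩ := h
    exact ⟨Module.Finite.equiv e, Module.Projective.of_equiv' e⟩
  | succ n =>
    obtain ⟨N, i1, i2, f, h1, h2, h3, h4⟩ := h
    refine ⟨N, i1, i2, e.toLinearMap ∘ₗ f, h1, h2, e.surjective.comp h3, ?_⟩
    rw [LinearEquiv.ker_comp]
    exact h4

theorem Res_fpr_prod {n : ℕ} {K N : Type} [AddCommGroup K] [Module S K] [AddCommGroup N]
    [Module S N] [Module.Finite S N] [Module.Projective S N] (h : FPR S n K) :
    FPR S n (K × N) := by
  cases n with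
  | zero =>
    obtain ⟨h1, h2⟩ := h
    exact ⟨inferInstance, inferInstance⟩
  | succ n =>
    obtain ⟨N₀, i1, i2, f, h1, h2, h3, h4⟩ := h
    refine ⟨N₀ × N, inferInstance, inferInstance, f.prodMap LinearMap.id, inferInstance,
      inferInstance, ?_, ?_⟩
    · rintro ⟨k, y⟩
      obtain ⟨x, rfl⟩ := h3 k
      exact ⟨(x, y), rfl⟩
    · have hk : ∀ y : LinearMap.ker (f.prodMap (LinearMap.id : N →ₗ[S] N)),
          f y.1.1 = 0 ∧ y.1.2 = 0 := fun y => Prod.ext_iff.1 (LinearMap.mem_ker.1 y.2)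
      let e : LinearMap.ker f ≃ₗ[S] LinearMap.ker (f.prodMap (LinearMap.id : N →ₗ[S] N)) :=
        { toFun := fun x => ⟨(x.1, 0), Prod.ext (LinearMap.mem_ker.1 x.2) rfl⟩
          invFun := fun y => ⟨y.1.1, (hk y).1⟩
          map_add' := fun x y => Subtype.ext (Prod.ext rfl (by simp))
          map_smul' := fun c x => Subtype.ext (Prod.ext rfl (by simp))
          left_inv := fun x => rfl
          right_inv := fun y => Subtype.ext (Prod.ext rfl (hk y).2.symm) }
      exact Res_fpr_equiv e h4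

/-- a retract of a module with a finite projective resolution -/
theorem res_of_fpr (n : ℕ) : ∀ (M A : Type) [AddCommGroup M] [Module S M] [AddCommGroup A]
    [Module S A] (i : A →ₗ[S] M) (r : M →ₗ[S] A), r ∘ₗ i = LinearMap.id → FPR S n M →
    ∀ (L : Type) [Fintype L] (g : (L → S) →ₗ[S] A), Function.Surjective g →
      Res S n L (LinearMap.ker g) := by
  induction n with
  | zero =>
    intro M A _ _ _ _ i r hri h L _ g hg
    obtain ⟨h1, h2⟩ := h
    have hA : Module.Projective S A := Module.Projective.of_split i r hri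
    obtain ⟨s, hs⟩ := Module.projective_lifting_property g LinearMap.id hg
    have hs' : ∀ a, g (s a) = a := fun a => LinearMap.congr_fun hs a
    obtain ⟨E, hE⟩ := Res_mat (LinearMap.id - s ∘ₗ g)
    have hE' : ∀ x, x ᵥ* E = x - s (g x) := fun x => LinearMap.congr_fun hE x
    refine ⟨E, fun x => ?_, fun x hx => ?_⟩
    · rw [LinearMap.mem_ker, hE', map_sub, hs', sub_self]
    · rw [hE', LinearMap.mem_ker.1 hx, map_zero, sub_zero]
  | succ n ih =>
    intro M A _ _ _ _ i r hri h L _ g hg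
    obtain ⟨N, i1, i2, f, h1, h2, h3, h4⟩ := h
    have hri' : ∀ a, r (i a) = a := fun a => LinearMap.congr_fun hri a
    obtain ⟨φ, hφ⟩ := Module.projective_lifting_property f (i ∘ₗ g) h3
    obtain ⟨ψ, hψ⟩ := Module.projective_lifting_property g (r ∘ₗ f) hg
    have hφ' : ∀ x, f (φ x) = i (g x) := fun x => LinearMap.congr_fun hφ x
    have hψ' : ∀ x, g (ψ x) = r (f x) := fun x => LinearMap.congr_fun hψ x
    let i' : LinearMap.ker g →ₗ[S] LinearMap.ker f × (L → S) :=
      LinearMap.prod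
        (LinearMap.codRestrict (LinearMap.ker f) (φ ∘ₗ (LinearMap.ker g).subtype) fun x => by
          have hx : g x.1 = 0 := x.2
          show f (φ x.1) = 0
          rw [hφ', hx, map_zero])
        (LinearMap.ker g).subtype
    let r' : LinearMap.ker f × (L → S) →ₗ[S] LinearMap.ker g :=
      LinearMap.codRestrict (LinearMap.ker g)
        (LinearMap.coprod (ψ ∘ₗ (LinearMap.ker f).subtype) (LinearMap.id - ψ ∘ₗ φ)) fun x => by
          have hx : f x.1.1 = 0 := x.1.2
          show g (ψ x.1.1 + (x.2 - ψ (φ x.2))) = 0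
          rw [map_add, map_sub, hψ', hψ', hφ', hri', hx, map_zero, sub_self, add_zero]
    have hri2 : r' ∘ₗ i' = LinearMap.id := by
      refine LinearMap.ext fun x => Subtype.ext ?_
      show ψ (φ x.1) + (x.1 - ψ (φ x.1)) = x.1
      abel
    have hK : FPR S n (LinearMap.ker f × (L → S)) := Res_fpr_prod h4
    have hfin := Res_fpr_finite hK
    have hfin' : Module.Finite S (LinearMap.ker g) :=
      Module.Finite.of_surjective r' fun x => ⟨i' x, LinearMap.congr_fun hri2 x⟩
    obtain ⟨m, M', hM'⟩ := Res_fg_mat (Module.Finite.iff_fg.1 hfin')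
    have hmem : ∀ x, M'.vecMulLinear x ∈ LinearMap.ker g := fun x => hM' ▸ ⟨x, rfl⟩
    refine ⟨Fin m, inferInstance, M', hM', ?_⟩
    rw [← LinearMap.ker_codRestrict (LinearMap.ker g) M'.vecMulLinear hmem]
    refine ih _ _ i' r' hri2 hK (Fin m) _ fun y => ?_
    obtain ⟨x, hx⟩ : y.1 ∈ LinearMap.range M'.vecMulLinear := hM'.ge y.2
    exact ⟨x, Subtype.ext hx⟩

theorem Res_of_rc
    (h : ∀ (M : Type) [AddCommGroup M] [Module S M], Module.FinitePresentation S M →
      ∃ n, FPR S n M)
    {Y : Submodule S (J → S)} (hY : Y.FG) : ∃ n, Res S n J Y := by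
  have hfp : Module.FinitePresentation S ((J → S) ⧸ Y) :=
    Module.finitePresentation_of_surjective Y.mkQ Y.mkQ_surjective (by rwa [Submodule.ker_mkQ])
  obtain ⟨n, hn⟩ := h _ hfp
  have h2 := res_of_fpr n _ _ LinearMap.id LinearMap.id rfl hn J Y.mkQ Y.mkQ_surjective
  rw [Submodule.ker_mkQ] at h2
  exact ⟨n, h2⟩

theorem qres_of_rc
    (h : ∀ (M : Type) [AddCommGroup M] [Module S M], Module.FinitePresentation S M →
      ∃ n, FPR S n M)
    {Y Y' : Submodule S (J → S)} (hle : Y' ≤ Y) (hY : Y.FG) (hY' : Y'.FG) :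
    ∃ n, ∀ m, n ≤ m → QRes S m Y Y' := by
  obtain ⟨N, hN⟩ := Res_of_rc h hY
  obtain ⟨L, hL, M, h1, h2⟩ := hN.succ
  have hP : (Y'.comap M.vecMulLinear).FG := by
    refine Submodule.fg_of_fg_map_of_fg_inf_ker M.vecMulLinear ?_ ?_
    · rwa [Submodule.map_comap_eq_self (h1 ▸ hle)]
    · rw [inf_eq_right.2 (LinearMap.ker_le_comap M.vecMulLinear)]
      exact h2.fg
  obtain ⟨n, hn⟩ := Res_of_rc h hP
  exact ⟨n, fun m hm => ⟨L, hL, M, by rw [h1, sup_eq_left.2 hle], Res_mono hn hm⟩⟩

end Pool.Agent.Work.MP_9d1ffa_al
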