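import Pool.Agent.Work.MP_9d1ffa_al.Triv
import Pool.Agent.Work.MP_9d1ffa_al.Res

/-! The resolution lemma. -/

namespace Pool.Agent.Work.MP_9d1ffa_al

open Matrix MonoidAlgebra MulAction

set_option linter.unusedSectionVars false
set_option linter.unusedVariables false

variable {G : Type} [Group G] {F : Set (Subgroup G)}

section Aux

variable {R : Type} [Ring R] {I J : Type}

theorem rl_rows [Fintype I] {Y : Submodule R (J → R)} {A : Matrix I J R} (x : I → R)
    (h : ∀ i, x i ≠ 0 → A i ∈ Y) : x ᵥ* A ∈ Y := by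
  rw [Matrix.vecMul_eq_sum]
  refine Submodule.sum_mem _ fun i _ => ?_
  by_cases e : x i = 0
  · rw [e, zero_smul]; exact Y.zero_mem
  · exact Y.smul_mem _ (h i e)

theorem rl_row_mem [Fintype I] {Y : Submodule R (J → R)} {A : Matrix I J R}
    (h : ∀ x, x ᵥ* A ∈ Y) (i : I) : A i ∈ Y := by
  classical
  have := h (Pi.single i 1)
  rwa [Matrix.single_one_vecMul] at this

theorem rl_row_range [Fintype I] (A : Matrix I J R) (i : I) :
    A i ∈ LinearMap.range A.vecMulLinear :=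
  rl_row_mem (Y := LinearMap.range A.vecMulLinear) (fun x => ⟨x, rfl⟩) i

/-- one step in the construction of the projections -/
theorem rl_proj_step [Fintype J] {Y Y' : Submodule R (J → R)} (hle : Y' ≤ Y) (h : QRes R 0 Y Y')
    (pr : ∃ E : Matrix J J R, (∀ x, x ᵥ* E ∈ Y) ∧ ∀ x ∈ Y, x ᵥ* E = x) :
    ∃ E : Matrix J J R, (∀ x, x ᵥ* E ∈ Y') ∧ ∀ x ∈ Y', x ᵥ* E = x := by
  obtain ⟨L, _, M, hM, E', h1, h2⟩ := h
  obtain ⟨E, h3, h4⟩ := pr
  have hrow : ∀ i, ∃ x y, y ∈ Y' ∧ x ᵥ* M + y = E i := fun i => by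
    have := rl_row_mem h3 i
    rw [← hM] at this
    obtain ⟨_, ⟨x, rfl⟩, y, hy, e⟩ := Submodule.mem_sup.1 this
    exact ⟨x, y, hy, e⟩
  choose x y hy e using hrow
  have hE : Matrix.of x * M + Matrix.of y = E := funext e
  have hyv : ∀ v, v ᵥ* Matrix.of y ∈ Y' := fun v => rl_rows v fun i _ => hy i
  refine ⟨Matrix.of x * E' * M + Matrix.of y, fun v => ?_, fun v hv => ?_⟩
  · rw [Matrix.vecMul_add, ← Matrix.vecMul_vecMul, ← Matrix.vecMul_vecMul]
    exact Y'.add_mem (h1 _) (hyv v)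
  · have h5 := h4 v (hle hv)
    rw [← hE, Matrix.vecMul_add, ← Matrix.vecMul_vecMul] at h5
    have h6 : v ᵥ* Matrix.of x ᵥ* M ∈ Y' := by
      rw [eq_sub_of_add_eq h5]
      exact Y'.sub_mem hv (hyv v)
    rw [Matrix.vecMul_add, ← Matrix.vecMul_vecMul, ← Matrix.vecMul_vecMul, h2 _ h6, h5]

variable {k : ℕ} {L : Fin k → Type}

variable (R L) in
/-- vectors vanishing on the first `m` blocks -/
def rlG (m : ℕ) : Submodule R ((Σ j, L j) → R) where
  carrier := {z | ∀ l : Σ j, L j, (l.1 : ℕ) < m → z l = 0}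
  add_mem' hx hy l hl := by rw [Pi.add_apply, hx l hl, hy l hl, add_zero]
  zero_mem' _ _ := rfl
  smul_mem' c x hx l hl := by rw [Pi.smul_apply, hx l hl, smul_zero]

theorem rlG_anti {m m' : ℕ} (h : m ≤ m') : rlG R L m' ≤ rlG R L m :=
  fun _ hz l hl => hz l (lt_of_lt_of_le hl h)

open Classical in
variable (R L) in
/-- the inclusion of a block -/
noncomputable def rlI (j : Fin k) : Matrix (L j) (Σ j, L j) R :=
  Matrix.of fun b => Pi.single ⟨j, b⟩ 1

theorem rlI_same (j : Fin k) [Fintype (L j)] (x : L j → R) (b : L j) :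
    (x ᵥ* rlI R L j) ⟨j, b⟩ = x b := by
  classical
  simp [rlI, Matrix.vecMul, dotProduct, Pi.single_apply]

theorem rlI_ne (j : Fin k) [Fintype (L j)] (x : L j → R) (l : Σ j, L j) (h : l.1 ≠ j) :
    (x ᵥ* rlI R L j) l = 0 := by
  classical
  refine Finset.sum_eq_zero fun b _ => ?_
  have : l ≠ ⟨j, b⟩ := fun e => h (congrArg Sigma.fst e)
  simp [rlI, this]

theorem rlI_mem (j : Fin k) [Fintype (L j)] (x : L j → R) : x ᵥ* rlI R L j ∈ rlG R L j :=
  fun l hl => rlI_ne j x l fun e => by rw [e] at hl; exact lt_irrefl _ hl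

theorem rlI_rest (j : Fin k) [Fintype (L j)] {z : (Σ j, L j) → R} (hz : z ∈ rlG R L j) :
    z - (fun b => z ⟨j, b⟩) ᵥ* rlI R L j ∈ rlG R L (j + 1) := by
  rintro ⟨i, b⟩ hl
  by_cases e : i = j
  · subst e
    rw [Pi.sub_apply, rlI_same, sub_self]
  · rw [Pi.sub_apply, rlI_ne j _ _ e, sub_zero]
    refine hz _ ?_
    have : (i : ℕ) ≠ j := fun e' => e (Fin.ext e')
    change (i : ℕ) < j + 1 at hl
    change (i : ℕ) < j
    omega

theorem rlI_mul [Fintype (Σ j, L j)] (j : Fin k) (g : Matrix (Σ j, L j) J R) :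
    rlI R L j * g = Matrix.of fun b => g ⟨j, b⟩ := by
  classical
  funext b
  rw [Matrix.mul_apply_eq_vecMul]
  have : rlI R L j b = Pi.single ⟨j, b⟩ 1 := by
    funext l
    simp [rlI, Pi.single_apply]
  rw [this, Matrix.single_one_vecMul]
  rfl

/-- the quotients of the filtration on the kernel -/
theorem rl_qres [Fintype (Σ j, L j)] (j : Fin k) [Fintype (L j)] (g : Matrix (Σ j, L j) J R)
    (M : Matrix (L j) J R) (hM : rlI R L j * g = M) (Y : Submodule R (J → R))
    (h1 : ∀ z ∈ rlG R L (j + 1), z ᵥ* g ∈ Y) (h2 : ∀ y ∈ Y, ∃ z ∈ rlG R L (j + 1), z ᵥ* g = y)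
    {n : ℕ} (hR : Res R (n + 1) (L j) (Y.comap M.vecMulLinear)) :
    QRes R n (LinearMap.ker g.vecMulLinear ⊓ rlG R L j)
      (LinearMap.ker g.vecMulLinear ⊓ rlG R L (j + 1)) := by
  obtain ⟨L', _, h, hh, hR⟩ := hR
  have hrow : ∀ b, h b ᵥ* M ∈ Y := fun b => by
    have : h b ∈ LinearMap.range h.vecMulLinear := rl_row_range h b
    rw [hh] at this
    exact this
  choose z hz e using fun b => h2 _ (hrow b)
  have hZ : Matrix.of z * g = h * M := funext e
  have hzv : ∀ x, x ᵥ* Matrix.of z ∈ rlG R L (j + 1) := fun x => rl_rows x fun b _ => hz b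
  have hf : ∀ x, x ᵥ* (h * rlI R L j - Matrix.of z) = x ᵥ* h ᵥ* rlI R L j - x ᵥ* Matrix.of z :=
    fun x => by rw [Matrix.vecMul_sub, Matrix.vecMul_vecMul]
  have hk : ∀ x, x ᵥ* (h * rlI R L j - Matrix.of z) ∈ LinearMap.ker g.vecMulLinear := fun x => by
    rw [LinearMap.mem_ker, Matrix.vecMulLinear_apply, Matrix.vecMul_vecMul, Matrix.sub_mul,
      Matrix.mul_assoc, hM, hZ, sub_self, Matrix.vecMul_zero]
  refine ⟨L', inferInstance, h * rlI R L j - Matrix.of z, le_antisymm (sup_le ?_ ?_) ?_, ?_⟩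
  · rintro _ ⟨x, rfl⟩
    refine ⟨hk x, ?_⟩
    rw [Matrix.vecMulLinear_apply, hf]
    exact Submodule.sub_mem _ (rlI_mem j _) (rlG_anti (Nat.le_succ _) (hzv x))
  · exact inf_le_inf_left _ (rlG_anti (Nat.le_succ _))
  · rintro y ⟨hy1, hy2⟩
    have hr := rlI_rest j hy2
    have hy1' : y ᵥ* g = 0 := hy1
    have hP : (fun b => y ⟨j, b⟩) ∈ LinearMap.range h.vecMulLinear := by
      rw [hh]
      have := Y.neg_mem (h1 _ hr)
      rwa [Matrix.sub_vecMul, hy1', Matrix.vecMul_vecMul, hM, zero_sub, neg_neg] at this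
    obtain ⟨x, hx⟩ := hP
    rw [Matrix.vecMulLinear_apply] at hx
    refine Submodule.mem_sup.2 ⟨_, ⟨x, rfl⟩, y - x ᵥ* (h * rlI R L j - Matrix.of z),
      ⟨Submodule.sub_mem _ hy1 (hk x), ?_⟩, add_sub_cancel _ _⟩
    rw [hf, hx, ← sub_add]
    exact Submodule.add_mem _ hr (hzv x)
  · have : (LinearMap.ker g.vecMulLinear ⊓ rlG R L (j + 1)).comap
        (h * rlI R L j - Matrix.of z).vecMulLinear = LinearMap.ker h.vecMulLinear := by
      ext x
      rw [Submodule.mem_comap, Matrix.vecMulLinear_apply, LinearMap.mem_ker,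
        Matrix.vecMulLinear_apply]
      constructor
      · rintro ⟨-, hx⟩
        funext b
        have h3 := hx ⟨j, b⟩ (Nat.lt_succ_self _)
        rwa [hf, Pi.sub_apply, rlI_same, hzv x ⟨j, b⟩ (Nat.lt_succ_self _), sub_zero] at h3
      · intro hx
        refine ⟨hk x, ?_⟩
        rw [hf, hx, Matrix.zero_vecMul, zero_sub]
        exact Submodule.neg_mem _ (hzv x)
    rw [this]
    exact hR

end Aux

/-- a filtration by direct summands -/
theorem tri_proj {J : Type} [Fintype J] [DecidableEq J]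
    (X : ℕ → Submodule (ZG G) (J → ZG G)) (k : ℕ) (top : X 0 = ⊤) (anti : ∀ m, X (m + 1) ≤ X m)
    (bot : X k = ⊥)
    (pr : ∀ m, m ≤ k → ∃ E : Matrix J J (ZG G), (∀ x, x ᵥ* E ∈ X m) ∧ ∀ x ∈ X m, x ᵥ* E = x)
    (a : Matrix J J (ZG G)) (ha : Low X 1 a) : Triv F (1 + a) := by
  choose! E h1 h2 using pr
  have hanti : Antitone X := antitone_nat_of_succ_le anti
  have E0 : E 0 = 1 := Matrix.ext_iff_vecMul.2 fun v => by
    rw [h2 0 (Nat.zero_le _) v (by rw [top]; trivial), Matrix.vecMul_one]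
  have Ek : E k = 0 := Matrix.ext_iff_vecMul.2 fun v => by
    have := h1 k le_rfl v
    rw [bot] at this
    rw [Matrix.vecMul_zero]
    exact this
  let r : Matrix J (Fin k × J) (ZG G) := Matrix.of fun i t => (E t.1 - E (t.1 + 1)) i t.2
  let w : Matrix (Fin k × J) J (ZG G) := Matrix.of fun t i => (E t.1 * a) t.2 i
  have hrw : r * w = a := by
    have e1 : r * w = ∑ j : Fin k, (E j - E (j + 1)) * (E j * a) := by
      funext i l
      simp only [r, w, Matrix.mul_apply (M := Matrix.of _), Matrix.of_apply, Fintype.sum_prod_type,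
        Matrix.sum_apply, Matrix.mul_apply (M := E _ - E _)]
    have e2 : ∀ j : Fin k, (E j - E (j + 1)) * (E j * a) = (E j - E (j + 1)) * a := fun j => by
      rw [← Matrix.mul_assoc]
      congr 1
      refine Matrix.ext_iff_vecMul.2 fun v => ?_
      rw [← Matrix.vecMul_vecMul]
      refine h2 j j.2.le _ ?_
      rw [Matrix.vecMul_sub]
      exact Submodule.sub_mem _ (h1 j j.2.le v) (anti j (h1 (j + 1) j.2 v))
    rw [e1, Finset.sum_congr rfl fun j _ => e2 j, ← Finset.sum_mul,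
      Fin.sum_univ_eq_sum_range (fun j => E j - E (j + 1)), Finset.sum_range_sub', E0, Ek, sub_zero,
      Matrix.one_mul]
  rw [← hrw]
  refine triv_swap r w (triv_tri (fun t => t.1) _ fun s t hst => ?_)
  by_contra hlt
  have hle : (t.1 : ℕ) ≤ s.1 := not_lt.1 hlt
  have e3 : E s.1 * a * (E t.1 - E (t.1 + 1)) = 0 := Matrix.ext_iff_vecMul.2 fun v => by
    have := hanti (Nat.succ_le_succ hle) (ha _ _ (h1 s.1 s.1.2.le v))
    rw [← Matrix.vecMul_vecMul, ← Matrix.vecMul_vecMul, Matrix.vecMul_sub,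
      h2 _ t.1.2.le _ (anti _ this), h2 _ t.1.2 _ this, sub_self, Matrix.vecMul_zero]
  exact hst (congrFun (congrFun e3 s.2) t.2)

theorem rl (n : ℕ) : ∀ (J : Type) [Fintype J] [DecidableEq J]
    (X : ℕ → Submodule (ZG G) (J → ZG G)) (k : ℕ), X 0 = ⊤ → (∀ m, X (m + 1) ≤ X m) →
    X k = ⊥ → (∀ m, m < k → QRes (ZG G) n (X m) (X (m + 1))) →
    ∀ a : Matrix J J (ZG G), Low X 1 a → Triv F (1 + a) := by
  induction n with
  | zero =>
    intro J _ _ X k top anti bot q a ha
    refine tri_proj X k top anti bot (fun m hm => ?_) a ha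
    induction m with
    | zero => exact ⟨1, fun x => by rw [top]; trivial, fun x _ => Matrix.vecMul_one x⟩
    | succ m ih => exact rl_proj_step (anti m) (q m hm) (ih (Nat.le_of_succ_le hm))
  | succ n ih =>
    intro J _ _ X k top anti bot q a ha
    classical
    have hanti : Antitone X := antitone_nat_of_succ_le anti
    choose L fL M hM hR using fun j : Fin k => q j j.2
    let g : Matrix (Σ j, L j) J (ZG G) := Matrix.of fun l => M l.1 l.2
    have hI : ∀ j, rlI (ZG G) L j * g = M j := fun j => rlI_mul j g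
    have hg : ∀ l : Σ j, L j, g l ∈ X l.1 := fun l => by
      rw [← hM l.1]
      exact Submodule.mem_sup_left (rl_row_range (M l.1) l.2)
    have h1 : ∀ m, ∀ z ∈ rlG (ZG G) L m, z ᵥ* g ∈ X m := fun m z hz =>
      rl_rows z fun l hl => hanti (not_lt.1 fun h => hl (hz l h)) (hg l)
    have h2 : ∀ m, m ≤ k → ∀ y ∈ X m, ∃ z ∈ rlG (ZG G) L m, z ᵥ* g = y := by
      intro m hm
      induction hm using Nat.decreasingInduction with
      | self =>
        intro y hy
        rw [bot] at hy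
        exact ⟨0, Submodule.zero_mem _, by rw [Matrix.zero_vecMul]; exact Eq.symm hy⟩
      | of_succ m hm ih' =>
        intro y hy
        have hy' : y ∈ LinearMap.range (M ⟨m, hm⟩).vecMulLinear ⊔ X (m + 1) := by
          rw [hM ⟨m, hm⟩]; exact hy
        obtain ⟨_, ⟨x, rfl⟩, y', hy2, rfl⟩ := Submodule.mem_sup.1 hy'
        obtain ⟨z, hz, rfl⟩ := ih' y' hy2
        refine ⟨x ᵥ* rlI (ZG G) L ⟨m, hm⟩ + z,
          Submodule.add_mem _ (rlI_mem ⟨m, hm⟩ x) (rlG_anti (Nat.le_succ _) hz), ?_⟩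
        rw [Matrix.add_vecMul, Matrix.vecMul_vecMul, hI, Matrix.vecMulLinear_apply]
    choose s' _ hs using fun i : J => h2 0 (Nat.zero_le _) ((1 : Matrix J J (ZG G)) i)
      (by rw [top]; trivial)
    choose t' ht1 ht2 using fun l : Σ j, L j => h2 (l.1 + 1) l.1.2 _ (ha _ _ (hg l))
    obtain ⟨s, hsg⟩ : ∃ s : Matrix J (Σ j, L j) (ZG G), s * g = 1 := ⟨Matrix.of s', funext hs⟩
    obtain ⟨t, ht, htg⟩ : ∃ t : Matrix (Σ j, L j) (Σ j, L j) (ZG G),
        (∀ l, t l ∈ rlG (ZG G) L (l.1 + 1)) ∧ t * g = g * a := ⟨Matrix.of t', ht1, funext ht2⟩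
    have T1 : Triv F (1 + t) := triv_tri (fun l => l.1) t fun l l' h => by
      by_contra hlt
      exact h (ht l l' (Nat.lt_succ_of_le (not_lt.1 hlt)))
    have ha' : (1 - g * s) * t * g = 0 := by
      rw [Matrix.mul_assoc, htg, ← Matrix.mul_assoc, Matrix.sub_mul, Matrix.one_mul,
        Matrix.mul_assoc g, hsg, Matrix.mul_one, sub_self, Matrix.zero_mul]
    have T2 : Triv F (1 + (1 - g * s) * t) := by
      refine ih _ (fun m => Nat.casesOn m ⊤ fun m => LinearMap.ker g.vecMulLinear ⊓ rlG (ZG G) L m)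
        (k + 1) rfl (fun m => ?_) ?_ (fun m hm => ?_) _ fun m x hx => ?_
      · cases m with
        | zero => exact le_top
        | succ m => exact inf_le_inf_left _ (rlG_anti (Nat.le_succ _))
      · exact eq_bot_iff.2 fun z hz => funext fun l => hz.2 l l.1.2
      · cases m with
        | zero =>
          refine ⟨J, inferInstance, s, eq_top_iff.2 fun z _ => Submodule.mem_sup.2
            ⟨_, ⟨z ᵥ* g, rfl⟩, z - z ᵥ* g ᵥ* s, ⟨?_, fun _ h => absurd h (Nat.not_lt_zero _)⟩,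
              add_sub_cancel _ _⟩, ?_⟩
          · change (z - z ᵥ* g ᵥ* s) ᵥ* g = 0
            rw [Matrix.sub_vecMul, Matrix.vecMul_vecMul (z ᵥ* g), hsg, Matrix.vecMul_one, sub_self]
          · have : (LinearMap.ker g.vecMulLinear ⊓ rlG (ZG G) L 0).comap s.vecMulLinear = ⊥ :=
              eq_bot_iff.2 fun x hx => by
                have h3 : x ᵥ* s ᵥ* g = 0 := hx.1
                rwa [Matrix.vecMul_vecMul, hsg, Matrix.vecMul_one] at h3
            change Res _ n J ((LinearMap.ker g.vecMulLinear ⊓ rlG (ZG G) L 0).comap s.vecMulLinear)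
            rw [this]
            exact res_bot n
        | succ m =>
          have hm' : m < k := Nat.lt_of_succ_lt_succ hm
          exact rl_qres ⟨m, hm'⟩ g (M ⟨m, hm'⟩) (hI _) (X (m + 1)) (h1 _) (h2 _ hm') (hR ⟨m, hm'⟩)
      · have hk : x ᵥ* ((1 - g * s) * t) ∈ LinearMap.ker g.vecMulLinear := by
          rw [LinearMap.mem_ker, Matrix.vecMulLinear_apply, Matrix.vecMul_vecMul, ha',
            Matrix.vecMul_zero]
        cases m with
        | zero => exact ⟨hk, fun _ h => absurd h (Nat.not_lt_zero _)⟩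
        | succ m =>
          refine ⟨hk, ?_⟩
          have h3 : x ᵥ* g = 0 := hx.1
          rw [← Matrix.vecMul_vecMul, Matrix.vecMul_sub, Matrix.vecMul_one,
            ← Matrix.vecMul_vecMul, h3, Matrix.zero_vecMul, sub_zero]
          exact rl_rows x fun l hl =>
            rlG_anti (Nat.succ_le_succ (not_lt.1 fun h => hl (hx.2 l h))) (ht l)
    have e1 : (1 + (1 - g * s) * t) * (1 + g * (s * t)) = 1 + t := by
      rw [Matrix.mul_add, Matrix.mul_one, Matrix.add_mul, Matrix.one_mul,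
        ← Matrix.mul_assoc _ g, ha', Matrix.zero_mul, add_zero, Matrix.sub_mul, Matrix.one_mul,
        Matrix.mul_assoc]
      abel
    have e2 : s * t * g = a := by
      rw [Matrix.mul_assoc, htg, ← Matrix.mul_assoc, hsg, Matrix.one_mul]
    rw [← e2]
    exact triv_swap (s * t) g (T2.of_mul_left (e1 ▸ T1))

end Pool.Agent.Work.MP_9d1ffa_al
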