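import Pool.Agent.Work.MP_9d1ffa_al.Ind
import Pool.Agent.Work.MP_9d1ffa_al.RL

/-! Vanishing over a regular coherent stabiliser. -/

namespace Pool.Agent.Work.MP_9d1ffa_al

open Matrix MonoidAlgebra MulAction

set_option linter.unusedSectionVars false
set_option linter.unusedVariables false

variable {G : Type} [Group G] {F : Set (Subgroup G)} {P : Type} [MulAction G P] {J : Type}
  [Fintype J] [DecidableEq J]

/-- the vectors over the subgroup that lie in `X` -/
def RCNilRes (D : Subgroup G) (X : Submodule (ZG G) (J → ZG G)) : Submodule (ZG D) (J → ZG D) where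
  carrier := {y | incV D y ∈ X}
  zero_mem' := by
    have : incV D (0 : J → ZG D) = 0 := funext fun i => map_zero (incl D)
    simp [this]
  add_mem' {x y} hx hy := by
    have : incV D (x + y) = incV D x + incV D y := funext fun i => map_add (incl D) _ _
    simpa [this] using X.add_mem hx hy
  smul_mem' r y hy := by
    simpa [incV_smul] using X.smul_mem (incl D r) hy

/-- the span of the components of the image -/
noncomputable def RCNilPhi (D : Subgroup G) (a : Matrix J J (ZG G)) (Y : Submodule (ZG D) (J → ZG D)) :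
    Submodule (ZG D) (J → ZG D) :=
  Submodule.span _ {v | ∃ y ∈ Y, ∃ c, v = cmpV D c (incV D y ᵥ* a)}

theorem RCNilPhi_le {D : Subgroup G} {a : Matrix J J (ZG G)} {Y Z : Submodule (ZG D) (J → ZG D)} :
    RCNilPhi D a Y ≤ Z ↔ ∀ y ∈ Y, ∀ c, cmpV D c (incV D y ᵥ* a) ∈ Z := by
  rw [RCNilPhi, Submodule.span_le]
  exact ⟨fun h y hy c => h ⟨y, hy, c, rfl⟩, fun h _ ⟨y, hy, c, e⟩ => e ▸ h y hy c⟩

theorem RCNilPhi_mono {D : Subgroup G} (a : Matrix J J (ZG G)) : Monotone (RCNilPhi D a) :=
  fun _ _ h => RCNilPhi_le.2 fun y hy c => RCNilPhi_le.1 le_rfl y (h hy) c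

theorem RCNilPhi_low {D : Subgroup G} (a : Matrix J J (ZG G)) {Y : Submodule (ZG D) (J → ZG D)}
    {x : J → ZG G} (hx : x ∈ ind Y) : x ᵥ* a ∈ ind (RCNilPhi D a Y) :=
  (ind_le_iff (X := (ind (RCNilPhi D a Y)).comap a.vecMulLinear)).2
    (fun y hy => mem_ind.2 (RCNilPhi_le.1 le_rfl y hy)) hx

theorem RCNil_cmp_fin (D : Subgroup G) (v : J → ZG G) :
    ∃ s : Finset G, ∀ c, cmpV D c v ∈ Submodule.span (ZG D) ((fun c => cmpV D c v) '' s) := by
  classical
  refine ⟨Finset.univ.biUnion fun i => (v i).coeff.support, fun c => ?_⟩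
  by_cases h : cmpV D c v = 0
  · rw [h]; exact zero_mem _
  · obtain ⟨i, d, e⟩ : ∃ (i : J) (d : D), (v i).coeff (c * d) ≠ 0 := by
      by_contra hc
      push Not at hc
      exact h (vec_ext fun i d => hc i d)
    have h1 := cmpV_mul (c * d) d⁻¹ v
    rw [show c * (d : G) * (d⁻¹ : D) = c by simp] at h1
    rw [h1]
    refine Submodule.smul_mem _ _ (Submodule.subset_span ⟨c * d, ?_, rfl⟩)
    simpa using ⟨i, e⟩

theorem RCNilPhi_fg {D : Subgroup G} (a : Matrix J J (ZG G)) {Y : Submodule (ZG D) (J → ZG D)}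
    (h : Y.FG) : (RCNilPhi D a Y).FG := by
  obtain ⟨T, hT, rfl⟩ := Submodule.fg_def.1 h
  choose s hs using fun t : J → ZG D => RCNil_cmp_fin D (incV D t ᵥ* a)
  refine Submodule.fg_def.2 ⟨⋃ t ∈ T, (fun c => cmpV D c (incV D t ᵥ* a)) '' s t,
    hT.biUnion fun t _ => (s t).finite_toSet.image _, le_antisymm ?_ ?_⟩
  · rw [Submodule.span_le]
    intro v hv
    obtain ⟨t, ht, c, -, rfl⟩ := Set.mem_iUnion₂.1 hv
    exact RCNilPhi_le.1 le_rfl t (Submodule.subset_span ht) c
  · refine RCNilPhi_le.2 fun y hy => mem_ind.1 ?_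
    refine (Submodule.span_le (p := RCNilRes D ((ind _).comap a.vecMulLinear))).2
      (fun t ht => mem_ind.2 fun c => ?_) hy
    exact Submodule.span_mono (Set.subset_biUnion_of_mem
      (u := fun t => (fun c => cmpV D c (incV D t ᵥ* a)) '' s t) ht) (hs t c)

theorem rc_nil (σ : P) (hRC : RC (stabilizer G σ)) (a : Matrix J J (ZG G))
    (hn : NilP (fun _ : J => σ) a) : Triv F (1 + a) := by
  obtain ⟨X, k, hX, ha⟩ := hn
  let Y : ℕ → Submodule (ZG (stabilizer G σ)) (J → ZG (stabilizer G σ)) :=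
    fun m => Nat.rec ⊤ (fun _ Z => RCNilPhi _ a Z) m
  have anti : ∀ m, Y (m + 1) ≤ Y m := fun m => by
    induction m with
    | zero => exact le_top
    | succ m ih => exact RCNilPhi_mono a ih
  have fg : ∀ m, (Y m).FG := fun m => by
    induction m with
    | zero => exact Module.Finite.fg_top
    | succ m ih => exact RCNilPhi_fg a ih
  have le : ∀ m, Y m ≤ RCNilRes _ (X m) := fun m => by
    induction m with
    | zero => exact fun y _ => show incV _ y ∈ X 0 from hX.top ▸ trivial
    | succ m ih =>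
      refine RCNilPhi_le.2 fun y hy c => ?_
      have h1 := hX.gr (m + 1) (c • σ) _ (ha m _ (ih hy))
      rw [proj_const (D := stabilizer G σ) σ (fun g => mem_stabilizer_iff.symm)] at h1
      have h2 := (X (m + 1)).smul_mem (single c⁻¹ (1 : ℤ)) h1
      rw [smul_smul, single_mul_single, inv_mul_cancel, mul_one, ← one_def, one_smul] at h2
      exact h2
  choose n hn using fun m => qres_of_rc hRC (anti m) (fg m) (fg (m + 1))
  refine rl ((Finset.range k).sup n) J (fun m => ind (Y m)) k ind_top (fun m => ind_mono (anti m))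
    (eq_bot_iff.2 (hX.bot ▸ ind_le_iff.2 (le k))) (fun m hm => qres_ind (hn m _
      (Finset.le_sup (f := n) (Finset.mem_range.2 hm)))) a fun m x hx => RCNilPhi_low a hx

end Pool.Agent.Work.MP_9d1ffa_al
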