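import Pool.Agent.Work.MP_9d1ffa_al.Lazard
import Pool.Agent.Work.MP_9d1ffa_al.RCNil

/-! The induction over stabilisers of longer and longer positions. -/

namespace Pool.Agent.Work.MP_9d1ffa_al

open Matrix MonoidAlgebra MulAction

set_option linter.unusedSectionVars false
set_option linter.unusedVariables false

variable {G : Type} [Group G] {F : Set (Subgroup G)} {P : Type} [MulAction G P]

/-- positions, forward moves and hulls -/
structure Mach (G : Type) [Group G] [MulAction G P] (mv : P → P → Prop) (hull : P → P → P)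
    (sub : P → P → Prop) : Prop where
  inv : Inv G mv
  tr : ∀ a b c, mv a b → mv b c → mv a c
  eqv : ∀ (g : G) a b, hull (g • a) (g • b) = g • hull a b
  stab : ∀ a b, mv a b → ∀ g : G, g • hull a b = hull a b → g • a = a ∧ g • b = b
  step : ∀ a b c, mv a b → mv b c → mv (hull a b) (hull b c)
  subl : ∀ a b, mv a b → sub a (hull a b)
  subr : ∀ a b, mv a b → sub b (hull a b)

theorem Machine_sum_single (x : ZG G) (S : Finset G) (h : ∀ g, x.coeff g ≠ 0 → g ∈ S) :
    ∑ g : S, (single (g : G) (x.coeff g) : ZG G) = x := by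
  classical
  ext g
  simp only [coeff_sum, Finsupp.finsetSum_apply, coeff_single]
  by_cases hg : g ∈ S
  · rw [Finset.sum_eq_single (⟨g, hg⟩ : S)]
    · simp
    · intro b _ hb
      have : (b : G) ≠ g := fun e => hb (Subtype.ext e)
      simp [this]
    · intro hb
      exact absurd (Finset.mem_univ _) hb
  · have h0 : x.coeff g = 0 := by
      by_contra e
      exact hg (h g e)
    rw [h0]
    refine Finset.sum_eq_zero fun b _ => ?_
    have : (b : G) ≠ g := fun e => hg (e ▸ b.2)
    simp [this]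

theorem Machine_single_ne {a g : G} {n : ℤ} (h : (single a n : ZG G).coeff g ≠ 0) :
    g = a ∧ n ≠ 0 := by
  classical
  rw [coeff_single, Finsupp.single_apply] at h
  by_cases e : a = g
  · exact ⟨e.symm, by simpa [e] using h⟩
  · simp [e] at h

theorem Machine_fix {mv : P → P → Prop} {hull : P → P → P} {sub : P → P → Prop}
    (M : Mach G mv hull sub) {a b : P} (h : mv a b) {γ γ' : G}
    (e : γ • hull a b = γ' • hull a b) : γ • a = γ' • a ∧ γ • b = γ' • b := by
  have h1 : (γ'⁻¹ * γ) • hull a b = hull a b := by rw [mul_smul, e, inv_smul_smul]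
  obtain ⟨h2, h3⟩ := M.stab a b h _ h1
  rw [mul_smul, inv_smul_eq_iff] at h2 h3
  exact ⟨h2, h3⟩

/-- one refinement step -/
theorem refine_step {mv : P → P → Prop} {hull : P → P → P} {sub : P → P → Prop}
    (M : Mach G mv hull sub) (σ : P) (s : G) (hs : mv σ (s • σ)) {J : Type} [Fintype J]
    [DecidableEq J] (b : Matrix J J (ZG G))
    (hb : MOn (fun _ : J => σ) (fun _ : J => σ) (Orb G σ (s • σ)) b)
    (hn : NilP (fun _ : J => σ) b) :
    ∃ (L : Type) (_ : Fintype L) (_ : DecidableEq L) (c : Matrix L L (ZG G)),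
      MOn (fun _ : L => hull σ (s • σ)) (fun _ : L => hull σ (s • σ)) mv c ∧
      NilP (fun _ : L => hull σ (s • σ)) c ∧ (Triv F (1 + c) → Triv F (1 + b)) := by
  classical
  set τ := hull σ (s • σ) with hτ
  let S : Finset G := Finset.univ.biUnion fun i : J => Finset.univ.biUnion fun j : J =>
    (b i j).coeff.support
  have hS : ∀ i j g, (b i j).coeff g ≠ 0 → g ∈ S := fun i j g e => by
    simp only [S, Finset.mem_biUnion, Finset.mem_univ, true_and, Finsupp.mem_support_iff]
    exact ⟨i, j, e⟩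
  have hd : ∀ g : S, ∃ d : G, d • σ = σ ∧ (g : G) • σ = d • s • σ := fun g => by
    have := g.2
    simp only [S, Finset.mem_biUnion, Finset.mem_univ, true_and, Finsupp.mem_support_iff] at this
    obtain ⟨i, j, e⟩ := this
    obtain ⟨γ, e1, e2⟩ := hb i j g e
    exact ⟨γ, e1.symm, e2⟩
  choose d hd1 hd2 using hd
  let u : Matrix J (J × S) (ZG G) := Matrix.of fun i t => single (d t.2) ((b i t.1).coeff t.2)
  let w : Matrix (J × S) J (ZG G) := Matrix.of fun t j =>
    if t.1 = j then single ((d t.2)⁻¹ * t.2) 1 else 0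
  have huw : u * w = b := by
    funext i j
    rw [Matrix.mul_apply, Fintype.sum_prod_type, Finset.sum_eq_single j]
    · rw [← Machine_sum_single (b i j) S (hS i j)]
      refine Finset.sum_congr rfl fun g _ => ?_
      simp only [u, w, Matrix.of_apply, if_true, single_mul_single, mul_inv_cancel_left, mul_one]
    · intro k _ hk
      refine Finset.sum_eq_zero fun g _ => ?_
      simp only [u, w, Matrix.of_apply, if_neg hk, mul_zero]
    · intro hb
      exact absurd (Finset.mem_univ _) hb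
  let ρ : P → P → Prop := fun a t => ∃ γ : G, a = γ • σ ∧ t = γ • τ
  let β : P → P → Prop := fun t a => ∃ γ : G, t = γ • τ ∧ a = γ • s • σ
  have hρ : Inv G ρ := inv_orb σ τ
  have hβ : Inv G β := inv_orb τ (s • σ)
  have hu : MOn (fun _ : J => σ) (fun _ : J × S => τ) ρ u := fun i t g e => by
    obtain ⟨rfl, -⟩ := Machine_single_ne e
    exact ⟨d t.2, (hd1 t.2).symm, rfl⟩
  have hw : MOn (fun _ : J × S => τ) (fun _ : J => σ) β w := fun t j g e => by
    simp only [w, Matrix.of_apply] at e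
    split_ifs at e with h
    · obtain ⟨rfl, -⟩ := Machine_single_ne e
      refine ⟨1, (one_smul _ _).symm, ?_⟩
      rw [mul_smul, hd2, inv_smul_smul, one_smul]
    · simp at e
  refine ⟨J × S, inferInstance, inferInstance, w * u, ?_, ?_, fun h => ?_⟩
  · refine (hw.mul hu hρ).mono ?_
    rintro t t' ⟨a, ⟨γ, rfl, rfl⟩, γ', e, rfl⟩
    have h1 : mv (γ • σ) (γ • s • σ) := M.inv γ _ _ hs
    have h2 : mv (γ' • σ) (γ' • s • σ) := M.inv γ' _ _ hs
    have h3 := M.step _ _ _ h1 (e ▸ h2)
    rw [hτ, ← M.eqv, ← M.eqv, ← e]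
    exact h3
  · refine nilP_transfer (fun _ : J => σ) (fun _ : J × S => τ) ρ β hρ hβ u w hu hw ?_ ?_
      (huw ▸ hn)
    · rintro t a₁ a₂ ⟨γ, rfl, rfl⟩ ⟨γ', e, rfl⟩
      exact (Machine_fix M hs e).2
    · rintro a t₁ t₂ a' ⟨γ₁, e₁, rfl⟩ ⟨γ₂, e₂, rfl⟩ ⟨δ₁, f₁, f₁'⟩ ⟨δ₂, f₂, f₂'⟩
      have g₁ := (Machine_fix M hs f₁).2
      have g₂ := (Machine_fix M hs f₂).2
      rw [hτ, ← M.eqv, ← M.eqv, ← e₁, ← e₂, g₁, g₂, ← f₁', ← f₂']
  · rw [← huw]
    exact triv_swap u w h

theorem machine {mv : P → P → Prop} {hull : P → P → P} {sub : P → P → Prop}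
    (M : Mach G mv hull sub)
    (hchain : ∀ f : ℕ → P, (∀ n, sub (f n) (f (n + 1)) ∧
      stabilizer G (f (n + 1)) < stabilizer G (f n)) → ∃ n, RC (stabilizer G (f n)))
    (haxis : ∀ (σ : P) (s : G), mv σ (s • σ) →
      s ∈ Subgroup.normalizer (stabilizer G σ : Set G) → ¬ RC (stabilizer G σ) →
      ∃ H ∈ F, stabilizer G σ ⊔ Subgroup.zpowers s ≤ H)
    {I : Type} [Fintype I] [DecidableEq I] (p : I → P) (ν : Matrix I I (ZG G))
    (hν : MOn p p mv ν) (hn : NilP p ν) : Triv F (1 + ν) := by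
  classical
  let r : P → P → Prop := fun τ σ =>
    sub σ τ ∧ stabilizer G τ < stabilizer G σ ∧ ¬ RC (stabilizer G σ)
  have hwf : WellFounded r := by
    rw [wellFounded_iff_isEmpty_descending_chain]
    refine ⟨fun f => ?_⟩
    obtain ⟨n, hn⟩ := hchain f.1 fun n => ⟨(f.2 n).1, (f.2 n).2.1⟩
    exact (f.2 n).2.2 hn
  have claim : ∀ σ : P, ∀ s : G, mv σ (s • σ) → ∀ (J : Type) [Fintype J] [DecidableEq J]
      (b : Matrix J J (ZG G)), MOn (fun _ : J => σ) (fun _ : J => σ) (Orb G σ (s • σ)) b →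
      NilP (fun _ : J => σ) b → Triv F (1 + b) := by
    intro σ
    induction σ using hwf.induction with
    | _ σ ih =>
    intro s hs J _ _ b hb hn
    by_cases hRC : RC (stabilizer G σ)
    · exact rc_nil σ hRC b hn
    by_cases hN : s ∈ Subgroup.normalizer (stabilizer G σ : Set G)
    · obtain ⟨H, hH, hle⟩ := haxis σ s hs hN hRC
      have hD : stabilizer G σ ≤ H := le_sup_left.trans hle
      have hsH : s ∈ H := hle (Subgroup.mem_sup_right (Subgroup.mem_zpowers s))
      refine triv_of_on hH hn.isNilpotent.isUnit_one_add fun i j g e => ?_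
      by_cases e1 : (b i j).coeff g = 0
      · have e2 : ((1 : Matrix J J (ZG G)) i j).coeff g ≠ 0 := by
          simpa [e1] using e
        exact hD (mOn_one (fun _ : J => σ) i j g e2).symm
      · obtain ⟨γ, f1, f2⟩ := hb i j g e1
        have h1 : γ ∈ H := hD f1.symm
        have h2 : (γ * s)⁻¹ * g ∈ H := hD (by
          rw [mem_stabilizer_iff, mul_smul, f2, ← mul_smul γ s, inv_smul_smul])
        have := H.mul_mem (H.mul_mem h1 hsH) h2
        rwa [mul_inv_cancel_left] at this
    obtain ⟨L, _, _, c, hc, hcn, himp⟩ := refine_step (F := F) M σ s hs b hb hn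
    apply himp
    obtain ⟨τ₀, γ₀, hτ₀, hr⟩ : ∃ (τ₀ : P) (γ₀ : G), hull σ (s • σ) = γ₀ • τ₀ ∧ r τ₀ σ := by
      by_cases hx : ∃ x ∈ stabilizer G σ, x • s • σ ≠ s • σ
      · obtain ⟨x, hx, hx'⟩ := hx
        refine ⟨hull σ (s • σ), 1, (one_smul _ _).symm, M.subl _ _ hs, ?_, hRC⟩
        refine lt_of_le_of_ne (fun g hg => (M.stab _ _ hs g hg).1) fun e => hx' ?_
        exact (M.stab _ _ hs x (by rw [← e] at hx; exact hx)).2
      · push Not at hx
        have hs' : mv (s⁻¹ • σ) σ := by simpa using M.inv s⁻¹ _ _ hs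
        refine ⟨hull (s⁻¹ • σ) σ, s, by rw [← M.eqv, smul_inv_smul], M.subr _ _ hs', ?_, hRC⟩
        refine lt_of_le_of_ne (fun g hg => (M.stab _ _ hs' g hg).2) fun e => hN ?_
        rw [Subgroup.mem_normalizer_iff]
        intro h
        constructor
        · intro hh
          have h1 : h ∈ stabilizer G (hull (s⁻¹ • σ) σ) := by rw [e]; exact hh
          have h2 := (M.stab _ _ hs' h h1).1
          show (s * h * s⁻¹) • σ = σ
          rw [mul_smul, mul_smul, h2, smul_inv_smul]
        · intro hh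
          have h2 := hx _ hh
          show h • σ = σ
          rw [mul_smul, mul_smul, inv_smul_smul, smul_left_cancel_iff] at h2
          exact h2
    refine lazard mv M.inv M.tr _ c hc hcn fun i j g hg a ha han => ?_
    refine loop_red _ τ₀ ((γ₀⁻¹ * g * γ₀) • τ₀) a (ha.mono ?_) han fun t ht J' _ _ b' hb' hn' => ?_
    · rintro x y ⟨γ, rfl, rfl⟩
      refine ⟨γ * γ₀, by rw [hτ₀, mul_smul], ?_⟩
      rw [hτ₀]
      simp [mul_smul]
    · rw [ht] at hb'
      refine ih τ₀ hr t ?_ J' b' hb' hn'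
      rw [← ht]
      have := M.inv γ₀⁻¹ _ _ hg
      rw [hτ₀] at this
      simpa [mul_smul] using this
  refine lazard mv M.inv M.tr p ν hν hn fun i j g hg a ha han => ?_
  refine loop_red p (p i) (g • p j) a ha han fun t ht J' _ _ b' hb' hn' => ?_
  rw [ht] at hb' hg
  exact claim (p i) t hg J' b' hb' hn'

end Pool.Agent.Work.MP_9d1ffa_al
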