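import Pool.Agent.Work.MP_9d1ffa_al.NilT

/-! Constructions of graded filtrations. -/

namespace Pool.Agent.Work.MP_9d1ffa_al

open Matrix MonoidAlgebra MulAction

set_option linter.unusedSectionVars false
set_option linter.unusedVariables false

variable {G : Type} [Group G] {P Q : Type} [MulAction G P] [MulAction G Q] {I J : Type}
  [Fintype I] [DecidableEq I] [Fintype J] [DecidableEq J]

/-- one step of the kernel filtration, as an additive subgroup -/
def nilPStepA (p : I → P) (ν : Matrix I I (ZG G)) (N : Submodule (ZG G) (I → ZG G)) :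
    AddSubgroup (I → ZG G) where
  carrier := {x | ∀ σ τ, proj p (· = τ) (proj p (· = σ) x ᵥ* ν) ∈ N}
  add_mem' {x y} hx hy σ τ := by
    rw [map_add, Matrix.add_vecMul, map_add]
    exact N.add_mem (hx σ τ) (hy σ τ)
  zero_mem' σ τ := by
    rw [map_zero, Matrix.zero_vecMul, map_zero]
    exact N.zero_mem
  neg_mem' {x} hx σ τ := by
    rw [map_neg, Matrix.neg_vecMul, map_neg]
    exact N.neg_mem (hx σ τ)

theorem nilP_shift (g : G) (τ : P) : (fun a => g • a = τ) = (· = g⁻¹ • τ) := by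
  funext a
  exact propext (smul_eq_iff_eq_inv_smul g)

/-- one step of the kernel filtration -/
def nilPStep (p : I → P) (ν : Matrix I I (ZG G)) (N : Submodule (ZG G) (I → ZG G)) :
    Submodule (ZG G) (I → ZG G) where
  toAddSubmonoid := (nilPStepA p ν N).toAddSubmonoid
  smul_mem' r x hx := by
    refine smul_mem_of_single (N := nilPStepA p ν N) (fun g x hx σ τ => ?_) r hx
    rw [proj_single_smul, Matrix.smul_vecMul, proj_single_smul, nilP_shift, nilP_shift]
    exact N.smul_mem _ (hx _ _)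

/-- the kernel filtration -/
noncomputable def nilPK (p : I → P) (ν : Matrix I I (ZG G)) : ℕ → Submodule (ZG G) (I → ZG G)
  | 0 => ⊥
  | m + 1 => nilPStep p ν (nilPK p ν m)

theorem nilPK_succ {p : I → P} {ν : Matrix I I (ZG G)} {m : ℕ} {x : I → ZG G} :
    x ∈ nilPK p ν (m + 1) ↔
      ∀ σ τ, proj p (· = τ) (proj p (· = σ) x ᵥ* ν) ∈ nilPK p ν m := Iff.rfl

theorem nilPK_mono (p : I → P) (ν : Matrix I I (ZG G)) : Monotone (nilPK p ν) := by
  refine monotone_nat_of_le_succ fun m => ?_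
  induction m with
  | zero => exact bot_le
  | succ m ih => exact fun x hx σ τ => ih (hx σ τ)

theorem nilPK_of_on {p : I → P} {ν : Matrix I I (ZG G)} {m : ℕ} {x : I → ZG G} {σ : P}
    (hx : VOn p (· = σ) x) (h : ∀ τ, proj p (· = τ) (x ᵥ* ν) ∈ nilPK p ν m) :
    x ∈ nilPK p ν (m + 1) := by
  refine nilPK_succ.2 fun σ' τ => ?_
  by_cases e : σ' = σ
  · rw [e, hx.proj_eq]
    exact h τ
  · rw [hx.proj_zero (S' := (· = σ')) fun a h1 h2 => e (h2.symm.trans h1), Matrix.zero_vecMul,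
      map_zero]
    exact zero_mem _

theorem nilP_of_K (p : I → P) (ν : Matrix I I (ZG G)) (k : ℕ)
    (h : ∀ i, (Pi.single i (1 : ZG G) : I → ZG G) ∈ nilPK p ν k) : NilP p ν := by
  refine ⟨fun m => nilPK p ν (k - m), k, ⟨?_, fun m => nilPK_mono p ν (by omega), ?_, ?_⟩, ?_⟩
  · refine eq_top_iff.2 fun x _ => ?_
    rw [pi_eq_sum_univ' x]
    exact sum_mem fun i _ => Submodule.smul_mem _ _ (h i)
  · rw [Nat.sub_self]
    rfl
  · intro m σ x
    generalize k - m = j
    intro hx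
    cases j with
    | zero =>
      rw [(Submodule.mem_bot _).1 hx, map_zero]
      exact zero_mem _
    | succ j => exact nilPK_of_on (vOn_proj p _ x) (hx σ)
  · intro m x hx
    rcases e : k - m with _ | j
    · simp only [e] at hx
      rw [(Submodule.mem_bot _).1 hx, Matrix.zero_vecMul]
      exact zero_mem _
    · simp only [e] at hx
      obtain ⟨s, hs⟩ := exists_pos_finset p x
      have e' : k - (m + 1) = j := by omega
      simp only [e']
      rw [← hs.sum_proj, Matrix.sum_vecMul]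
      exact sum_mem fun σ _ => mem_of_proj p (hx σ)

/-- a one step matrix whose inverse moves forward -/
theorem nilP_of_cone (p : I → P) (st cone : P → P → Prop) (hst : Inv G st) (hcone : Inv G cone)
    (dp : P → P → ℕ) (dp0 : ∀ σ, dp σ σ = 0) (irr : ∀ σ, ¬ cone σ σ)
    (n1 : ∀ σ σ₁ τ, st σ σ₁ → (τ = σ₁ ∨ cone σ₁ τ) → dp σ τ = dp σ₁ τ + 1)
    (n2 : ∀ σ σ₁ σ₂ τ, st σ σ₁ → st σ σ₂ → (τ = σ₁ ∨ cone σ₁ τ) → (τ = σ₂ ∨ cone σ₂ τ) →
      σ₁ = σ₂)
    (ν μ : Matrix I I (ZG G)) (hν : MOn p p st ν) (hμ : MOn p p cone μ)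
    (h : (1 + ν) * (1 + μ) = 1) : NilP p ν := by
  have hM : MOn p p (fun a b => b = a ∨ cone a b) (1 + μ) :=
    ((mOn_one p).mono fun a b e => Or.inl e.symm).add (hμ.mono fun a b e => Or.inr e)
  have hI : Inv G fun a b : P => b = a ∨ cone a b := fun g a b e =>
    e.imp (fun e => by rw [e]) (hcone g a b)
  have key : ∀ m σ (x : I → ZG G), VOn p (· = σ) x →
      VOn p (fun τ => dp σ τ < m) (x ᵥ* (1 + μ)) → x ∈ nilPK p ν m := by
    intro m
    induction m with
    | zero =>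
      intro σ x hx h0
      have h1 := congrArg (proj p (· = σ)) (h0.mono fun a e => Nat.not_lt_zero _ e).eq_zero
      rw [Matrix.vecMul_add, Matrix.vecMul_one, map_add, hx.proj_eq,
        (hx.vecMul_eq hμ hcone).proj_zero (S' := (· = σ)) fun a h1 h2 => irr σ (h2 ▸ h1),
        add_zero, map_zero] at h1
      rw [h1]
      exact zero_mem _
    | succ m ih =>
      intro σ x hx h0
      refine nilPK_of_on hx fun σ₁ => ?_
      have hy := hx.vecMul_eq hν hst
      by_cases e : st σ σ₁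
      swap
      · rw [hy.proj_zero (S' := (· = σ₁)) fun a h1 h2 => e (h2 ▸ h1)]
        exact zero_mem _
      have h1 := (vOn_proj p (· = σ₁) (x ᵥ* ν)).vecMul_eq hM hI
      have h2 := ((hy.proj fun a => ¬ a = σ₁).and (vOn_proj p _ _)).vecMul hM hI
      have h3 : x = x ᵥ* (1 + μ) + proj p (· = σ₁) (x ᵥ* ν) ᵥ* (1 + μ) +
          proj p (fun a => ¬ a = σ₁) (x ᵥ* ν) ᵥ* (1 + μ) := by
        rw [add_assoc, ← Matrix.add_vecMul, proj_add_not, ← Matrix.add_vecMul]
        conv_lhs => rw [← Matrix.vecMul_one x, ← h, ← Matrix.vecMul_vecMul,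
          Matrix.vecMul_add 1 ν, Matrix.vecMul_one]
      have h4 := congrArg (proj p fun b => b = σ₁ ∨ cone σ₁ b) h3
      rw [map_add, map_add, h1.proj_eq,
        h2.proj_zero (S' := fun b => b = σ₁ ∨ cone σ₁ b) fun b ⟨a, ⟨a1, a2⟩, a3⟩ a4 =>
          a2 (n2 σ a σ₁ b a1 e a3 a4),
        hx.proj_zero (S' := fun b => b = σ₁ ∨ cone σ₁ b) fun a a1 a2 => by
          have := n1 σ σ₁ a e a2
          rw [a1, dp0] at this
          omega, add_zero, eq_comm, add_eq_zero_iff_neg_eq] at h4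
      refine ih σ₁ _ (vOn_proj p _ _) ((h1.and (h4 ▸ (h0.proj _).neg)).mono fun a ⟨a1, a2⟩ => ?_)
      have := n1 σ σ₁ a e a1
      omega
  choose s hs using fun i => exists_pos_finset p ((1 + μ) i)
  refine nilP_of_K p ν ((Finset.univ.sup fun i => (s i).sup (dp (p i))) + 1) fun i =>
    key _ (p i) _ (vOn_single p i) ?_
  rw [single_vecMul_row]
  refine (hs i).mono fun a ha => Nat.lt_succ_of_le ((Finset.le_sup ha).trans ?_)
  exact Finset.le_sup (f := fun i => (s i).sup (dp (p i))) (Finset.mem_univ i)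

/-- passing to finer positions -/
theorem nilP_fine (p : I → P) (ν : Matrix I I (ZG G)) (h : NilP p ν) :
    ∃ Φ : Finset (I × G × I), (∀ t ∈ Φ, p t.1 = t.2.1 • p t.2.2) ∧
      ∀ (Q : Type) [MulAction G Q] (q : I → Q), (∀ t ∈ Φ, q t.1 = t.2.1 • q t.2.2) →
        NilP q ν := by
  classical
  obtain ⟨X, k, hX, hν⟩ := h
  obtain ⟨F, F1, F2⟩ : ∃ F : Finset (G × I) → Finset (G × I), (∀ s, s ⊆ F s) ∧
      ∀ s (x : I → ZG G), (∀ i g, (x i).coeff g ≠ 0 → (g, i) ∈ s) →
        ∀ i g, ((x ᵥ* ν) i).coeff g ≠ 0 → (g, i) ∈ F s := by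
    refine ⟨fun s => s ∪ s.biUnion fun t => Finset.univ.biUnion fun j =>
      (ν t.2 j).coeff.support.image fun h => (t.1 * h, j), fun s => Finset.subset_union_left,
      fun s x hx j g e => ?_⟩
    simp only [Matrix.vecMul, dotProduct, coeff_sum, Finsupp.finsetSum_apply] at e
    obtain ⟨i, -, e⟩ := Finset.exists_ne_zero_of_sum_ne_zero e
    obtain ⟨a, b, ha, hb, rfl⟩ := coeff_mul_ne e
    exact Finset.mem_union_right _ (Finset.mem_biUnion.2 ⟨_, hx i a ha, Finset.mem_biUnion.2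
      ⟨j, Finset.mem_univ _, Finset.mem_image.2 ⟨b, Finsupp.mem_support_iff.2 hb, rfl⟩⟩⟩)
  obtain ⟨S, S0, S1⟩ : ∃ S : ℕ → Finset (G × I), (∀ i, ((1 : G), i) ∈ S 0) ∧
      ∀ m, S (m + 1) = F (S m) :=
    ⟨fun m => F^[m] (Finset.univ.image fun i => (1, i)),
      fun i => Finset.mem_image_of_mem _ (Finset.mem_univ i),
      fun m => Function.iterate_succ_apply' _ _ _⟩
  have Sm : Monotone S := monotone_nat_of_le_succ fun m => by rw [S1]; exact F1 _
  refine ⟨((S k ×ˢ S k).filter fun t => t.1.1 • p t.1.2 = t.2.1 • p t.2.2).image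
    fun t => (t.1.2, t.1.1⁻¹ * t.2.1, t.2.2), fun t ht => ?_, fun Q _ q hq => ?_⟩
  · obtain ⟨u, hu, rfl⟩ := Finset.mem_image.1 ht
    simp only
    rw [mul_smul, ← (Finset.mem_filter.1 hu).2, inv_smul_smul]
  have A : ∀ m m' τ (x : I → ZG G), m ≤ k → (∀ i g, (x i).coeff g ≠ 0 → (g, i) ∈ S m) →
      x ∈ X m' → proj q (· = τ) x ∈ X m' := by
    intro m m' τ x hm hx hx'
    have : proj q (· = τ) x =
        proj p (fun σ => ∃ t ∈ S k, t.1 • p t.2 = σ ∧ t.1 • q t.2 = τ) x := by
      refine vec_ext fun i g => ?_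
      rw [coeff_proj, coeff_proj]
      by_cases e : (x i).coeff g = 0
      · simp [e]
      have h1 := Sm hm (hx i g e)
      by_cases a : g • q i = τ
      · rw [if_pos a, if_pos ⟨_, h1, rfl, a⟩]
      rw [if_neg a, if_neg]
      rintro ⟨t, a1, a2, a3⟩
      have := hq _ (Finset.mem_image_of_mem _ (Finset.mem_filter.2
        ⟨Finset.mk_mem_product h1 a1, a2.symm⟩))
      simp only at this
      exact a (by rw [this, mul_smul, smul_inv_smul, a3])
    rw [this]
    exact hX.proj_mem m' _ hx'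
  have B : ∀ (s : Finset (G × I)) τ (x : I → ZG G), (∀ i g, (x i).coeff g ≠ 0 → (g, i) ∈ s) →
      ∀ i g, (proj q (· = τ) x i).coeff g ≠ 0 → (g, i) ∈ s := by
    intro s τ x hx i g e
    rw [coeff_proj] at e
    exact hx i g fun e' => e (by simp [e'])
  have key : ∀ j m (x : I → ZG G), j + m = k → x ∈ X m →
      (∀ i g, (x i).coeff g ≠ 0 → (g, i) ∈ S m) → x ∈ nilPK q ν j := by
    intro j
    induction j with
    | zero =>
      intro m x e hx _
      rw [zero_add] at e
      rwa [e, hX.bot] at hx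
    | succ j ih =>
      intro m x e hx hs
      refine nilPK_succ.2 fun σ τ => ?_
      have h1 := F2 _ _ (B _ σ x hs)
      rw [← S1] at h1
      exact ih (m + 1) _ (by omega)
        (A (m + 1) _ τ _ (by omega) h1 (hν m _ (A m m σ x (by omega) hs hx))) (B _ τ _ h1)
  refine nilP_of_K q ν k fun i => key k 0 _ rfl (by rw [hX.top]; trivial) fun j g e => ?_
  have := vOn_single (fun _ : I => (1 : G)) i j g e
  rw [smul_eq_mul, mul_one] at this
  rw [this]
  exact S0 j

end Pool.Agent.Work.MP_9d1ffa_al
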