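import Pool.Agent.Work.MP_9d1ffa_al.Basic

/-! Transfer of graded filtrations. -/

namespace Pool.Agent.Work.MP_9d1ffa_al

open Matrix MonoidAlgebra MulAction

set_option linter.unusedSectionVars false
set_option linter.unusedVariables false

variable {G : Type} [Group G] {P Q : Type} [MulAction G P] [MulAction G Q] {I J : Type}
  [Fintype I] [DecidableEq I] [Fintype J] [DecidableEq J]

/-- vectors all of whose components are mapped into `N` -/
def NilT_pull (q : J → Q) (b : Matrix J I (ZG G)) (N : Submodule (ZG G) (I → ZG G)) :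
    Submodule (ZG G) (J → ZG G) :=
  let A : AddSubgroup (J → ZG G) :=
    { carrier := {x | ∀ τ, proj q (· = τ) x ᵥ* b ∈ N}
      add_mem' := fun {x y} hx hy τ => by
        rw [map_add, Matrix.add_vecMul]
        exact N.add_mem (hx τ) (hy τ)
      zero_mem' := fun τ => by simp
      neg_mem' := fun {x} hx τ => by
        rw [map_neg, Matrix.neg_vecMul]
        exact N.neg_mem (hx τ) }
  { A with
    smul_mem' := fun r x hx => smul_mem_of_single (N := A) (fun g x hx τ => by
      have e : (fun a : Q => g • a = τ) = (· = g⁻¹ • τ) := by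
        funext a
        exact propext eq_inv_smul_iff.symm
      rw [proj_single_smul, e, Matrix.smul_vecMul]
      exact N.smul_mem _ (hx _)) r hx }

theorem NilT_mem {q : J → Q} {b : Matrix J I (ZG G)} {N : Submodule (ZG G) (I → ZG G)}
    {x : J → ZG G} : x ∈ NilT_pull q b N ↔ ∀ τ, proj q (· = τ) x ᵥ* b ∈ N := Iff.rfl

theorem NilT_gr {q : J → Q} {b : Matrix J I (ZG G)} {N : Submodule (ZG G) (I → ZG G)}
    {x : J → ZG G} (hx : x ∈ NilT_pull q b N) (σ : Q) :
    proj q (· = σ) x ∈ NilT_pull q b N := fun τ => by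
  rw [proj_proj]
  by_cases e : τ = σ
  · simpa [e] using hx σ
  · rw [((vOn_proj q (fun a => a = τ ∧ a = σ) x).mono
      fun a e' => e (e'.1.symm.trans e'.2)).eq_zero]
    simp

/-- transfer from `u * b` to `b * u` -/
theorem nilP_transfer (p : I → P) (q : J → Q) (ρ : P → Q → Prop) (β : Q → P → Prop)
    (hρ : Inv G ρ) (hβ : Inv G β) (u : Matrix I J (ZG G)) (b : Matrix J I (ZG G))
    (hu : MOn p q ρ u) (hb : MOn q p β b)
    (hfun : ∀ τ σ₁ σ₂, β τ σ₁ → β τ σ₂ → σ₁ = σ₂)
    (hinj : ∀ σ τ₁ τ₂ σ', ρ σ τ₁ → ρ σ τ₂ → β τ₁ σ' → β τ₂ σ' → τ₁ = τ₂)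
    (h : NilP p (u * b)) : NilP q (b * u) := by
  obtain ⟨X, k, hX, hL⟩ := h
  refine ⟨fun m => if m ≤ k then NilT_pull q b (X m) else ⊥, k + 1, ⟨?_, fun m => ?_, by simp,
    fun m σ x hx => ?_⟩, fun m x hx => ?_⟩
  · rw [if_pos (Nat.zero_le k), eq_top_iff]
    exact fun x _ τ => by rw [hX.top]; trivial
  · by_cases e : m + 1 ≤ k
    · rw [if_pos e, if_pos (by omega)]
      exact fun x hx τ => hX.anti m (hx τ)
    · rw [if_neg e]
      exact bot_le
  · by_cases e : m ≤ k
    · simp only [if_pos e] at hx ⊢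
      exact NilT_gr hx σ
    · simp only [if_neg e, Submodule.mem_bot] at hx ⊢
      simp [hx]
  · by_cases e : m + 1 ≤ k
    · simp only [if_pos e, if_pos (show m ≤ k by omega)] at hx ⊢
      refine mem_of_proj q (N := (NilT_pull q b (X (m + 1))).toAddSubmonoid.comap
        (Matrix.vecMulLinear (b * u)).toAddMonoidHom) (x := x) fun τ τ' => ?_
      change proj q (· = τ') (proj q (· = τ) x ᵥ* (b * u)) ᵥ* b ∈ X (m + 1)
      have hy := hx τ
      have h1 := (vOn_proj q (· = τ) x).vecMul_eq hb hβ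
      rw [← Matrix.vecMul_vecMul]
      generalize proj q (· = τ) x ᵥ* b = y at hy h1
      by_cases e1 : ∃ σ, β τ σ
      swap
      · rw [(h1.mono fun a ha => e1 ⟨a, ha⟩).eq_zero]
        simp
      obtain ⟨σ, hσ⟩ := e1
      have h2 := (h1.mono fun a ha => hfun τ a σ ha hσ).vecMul_eq hu hρ
      have h3 := (vOn_proj q (· = τ') (y ᵥ* u)).vecMul_eq hb hβ
      by_cases e2 : ∃ σ', β τ' σ'
      swap
      · rw [(h3.mono fun a ha => e2 ⟨a, ha⟩).eq_zero]
        exact zero_mem _
      obtain ⟨σ', hσ'⟩ := e2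
      by_cases e3 : ρ σ τ'
      swap
      · rw [h2.proj_zero (S' := (· = τ')) fun a ha e => e3 (e ▸ ha)]
        simp
      have h4 := (((h2.proj fun a => ¬ a = τ').and (vOn_proj q _ _)).vecMul hb hβ).proj_zero
        (S' := (· = σ')) fun a ⟨c, hc, hc'⟩ e => hc.2 (hinj σ c τ' σ' hc.1 e3 (e ▸ hc') hσ')
      have h5 := hX.gr (m + 1) σ' _ (hL m y hy)
      rwa [← Matrix.vecMul_vecMul, ← proj_add_not q (· = τ') (y ᵥ* u), Matrix.add_vecMul, map_add,
        h4, add_zero, (h3.mono fun a ha => hfun τ' a σ' ha hσ').proj_eq] at h5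
    · simp only [if_neg e, Submodule.mem_bot]
      by_cases e' : m ≤ k
      · simp only [show m = k by omega, le_refl, if_true, hX.bot] at hx
        have : x ᵥ* b = 0 := mem_of_proj q
          (N := LinearMap.ker (Matrix.vecMulLinear b)) (x := x) fun τ => by
            simpa using hx τ
        rw [← Matrix.vecMul_vecMul, this, Matrix.zero_vecMul]
      · simp only [if_neg e', Submodule.mem_bot] at hx
        rw [hx, Matrix.zero_vecMul]

end Pool.Agent.Work.MP_9d1ffa_al
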