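import Pool.Agent.Work.MP_9d1ffa_al.Defs

/-! Vectors and matrices over a group ring whose basis elements carry positions in a `G`-set. -/

namespace Pool.Agent.Work.MP_9d1ffa_al

open Matrix MonoidAlgebra

set_option linter.unusedSectionVars false

variable {G : Type} [Group G] {P Q T : Type} [MulAction G P] [MulAction G Q] [MulAction G T]
  {I J K : Type}

open Classical in
/-- the part of an element of the group ring supported on `S` -/
noncomputable def fil (S : G → Prop) : ZG G →+ ZG G where
  toFun x := MonoidAlgebra.ofCoeff (x.coeff.filter S)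
  map_zero' := by ext; simp [Finsupp.filter_apply]
  map_add' x y := by ext g; simp [Finsupp.filter_add]

open Classical in
theorem coeff_fil (S : G → Prop) (x : ZG G) (g : G) :
    (fil S x).coeff g = if S g then x.coeff g else 0 := by
  simp [fil, Finsupp.filter_apply]

/-- the part of a vector located at positions in `S`; the element `g • e i` is located at
`g • p i` -/
noncomputable def proj (p : I → P) (S : P → Prop) : (I → ZG G) →+ (I → ZG G) where
  toFun x i := fil (fun g => S (g • p i)) (x i)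
  map_zero' := by funext i; simp
  map_add' x y := by funext i; simp

open Classical in
theorem coeff_proj (p : I → P) (S : P → Prop) (x : I → ZG G) (i : I) (g : G) :
    (proj p S x i).coeff g = if S (g • p i) then (x i).coeff g else 0 :=
  coeff_fil _ _ _

/-- the vector is located at positions in `S` -/
def VOn (p : I → P) (S : P → Prop) (x : I → ZG G) : Prop :=
  ∀ i g, (x i).coeff g ≠ 0 → S (g • p i)

/-- the matrix moves positions along `ρ` -/
def MOn (p : I → P) (q : J → Q) (ρ : P → Q → Prop) (A : Matrix I J (ZG G)) : Prop :=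
  ∀ i j g, (A i j).coeff g ≠ 0 → ρ (p i) (g • q j)

/-- the part of a matrix moving positions along `ρ` -/
noncomputable def mfil (p : I → P) (q : J → Q) (ρ : P → Q → Prop) (A : Matrix I J (ZG G)) :
    Matrix I J (ZG G) :=
  Matrix.of fun i j => fil (fun g => ρ (p i) (g • q j)) (A i j)

open Classical in
theorem coeff_mfil (p : I → P) (q : J → Q) (ρ : P → Q → Prop) (A : Matrix I J (ZG G))
    (i : I) (j : J) (g : G) :
    (mfil p q ρ A i j).coeff g = if ρ (p i) (g • q j) then (A i j).coeff g else 0 :=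
  coeff_fil _ _ _

/-- an invariant relation -/
def Inv (G : Type) [Group G] [MulAction G P] [MulAction G Q] (ρ : P → Q → Prop) : Prop :=
  ∀ (g : G) a b, ρ a b → ρ (g • a) (g • b)

/-- the orbit of a pair -/
def Orb (G : Type) [Group G] [MulAction G P] (σ τ : P) (a b : P) : Prop :=
  ∃ γ : G, a = γ • σ ∧ b = γ • τ

theorem inv_eq : Inv G (Eq : P → P → Prop) := fun _ _ _ h => h ▸ rfl

theorem inv_orb (σ τ : P) : Inv G (Orb G σ τ) := by
  rintro g a b ⟨γ, rfl, rfl⟩
  exact ⟨g * γ, (mul_smul _ _ _).symm, (mul_smul _ _ _).symm⟩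

theorem Inv.iff {ρ : P → Q → Prop} (h : Inv G ρ) (g : G) (a : P) (b : Q) :
    ρ (g • a) (g • b) ↔ ρ a b :=
  ⟨fun e => by simpa using h g⁻¹ _ _ e, h g a b⟩

theorem vec_ext {x y : I → ZG G} (h : ∀ i g, (x i).coeff g = (y i).coeff g) : x = y := by
  funext i; ext g; exact h i g

theorem mat_ext {A B : Matrix I J (ZG G)} (h : ∀ i j g, (A i j).coeff g = (B i j).coeff g) :
    A = B := by
  ext i j g; exact h i j g

/-! ### supports of vectors -/

theorem VOn.mono {p : I → P} {S S' : P → Prop} {x : I → ZG G} (h : VOn p S x)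
    (hS : ∀ a, S a → S' a) : VOn p S' x := fun i g e => hS _ (h i g e)

theorem vOn_zero (p : I → P) (S : P → Prop) : VOn p S (0 : I → ZG G) := fun i g e => by
  simp at e

theorem VOn.add {p : I → P} {S : P → Prop} {x y : I → ZG G} (hx : VOn p S x) (hy : VOn p S y) :
    VOn p S (x + y) := fun i g e => by
  by_cases h : (x i).coeff g = 0
  · exact hy i g (by simpa [h] using e)
  · exact hx i g h

theorem VOn.neg {p : I → P} {S : P → Prop} {x : I → ZG G} (hx : VOn p S x) : VOn p S (-x) :=
  fun i g e => hx i g (by simpa using e)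

theorem VOn.sub {p : I → P} {S : P → Prop} {x y : I → ZG G} (hx : VOn p S x) (hy : VOn p S y) :
    VOn p S (x - y) := by
  rw [sub_eq_add_neg]; exact hx.add hy.neg

theorem VOn.and {p : I → P} {S S' : P → Prop} {x : I → ZG G} (h : VOn p S x) (h' : VOn p S' x) :
    VOn p (fun a => S a ∧ S' a) x := fun i g e => ⟨h i g e, h' i g e⟩

theorem VOn.eq_zero {p : I → P} {x : I → ZG G} (h : VOn p (fun _ => False) x) : x = 0 :=
  vec_ext fun i g => by
    by_contra e
    exact h i g (by simpa using e)

theorem vOn_proj (p : I → P) (S : P → Prop) (x : I → ZG G) : VOn p S (proj p S x) :=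
  fun i g e => by
    rw [coeff_proj] at e
    by_contra h
    simp [h] at e

theorem VOn.proj {p : I → P} {S : P → Prop} {x : I → ZG G} (h : VOn p S x) (S' : P → Prop) :
    VOn p S (proj p S' x) := fun i g e => by
  rw [coeff_proj] at e
  refine h i g fun e' => e ?_
  simp [e']

theorem VOn.proj_eq {p : I → P} {S : P → Prop} {x : I → ZG G} (h : VOn p S x) :
    MP_9d1ffa_al.proj p S x = x :=
  vec_ext fun i g => by
    rw [coeff_proj]
    split_ifs with e
    · rfl
    · by_contra e'
      exact e (h i g (Ne.symm e'))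

theorem VOn.proj_zero {p : I → P} {S S' : P → Prop} {x : I → ZG G} (h : VOn p S x)
    (hS : ∀ a, S a → ¬ S' a) : MP_9d1ffa_al.proj p S' x = 0 :=
  ((h.proj S').and (vOn_proj p S' x)).mono (fun a e => hS a e.1 e.2) |>.eq_zero

/-- two projections agree on a vector if the two sets agree on its support -/
theorem VOn.proj_congr {p : I → P} {S S₁ S₂ : P → Prop} {x : I → ZG G} (h : VOn p S x)
    (hS : ∀ a, S a → (S₁ a ↔ S₂ a)) :
    MP_9d1ffa_al.proj p S₁ x = MP_9d1ffa_al.proj p S₂ x :=
  vec_ext fun i g => by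
    rw [coeff_proj, coeff_proj]
    by_cases e : (x i).coeff g = 0
    · simp [e]
    · have := hS _ (h i g e)
      by_cases a : S₁ (g • p i)
      · rw [if_pos a, if_pos (this.1 a)]
      · rw [if_neg a, if_neg (fun b => a (this.2 b))]

theorem proj_proj (p : I → P) (S S' : P → Prop) (x : I → ZG G) :
    proj p S (proj p S' x) = proj p (fun a => S a ∧ S' a) x :=
  vec_ext fun i g => by
    simp only [coeff_proj]
    by_cases a : S (g • p i) <;> by_cases b : S' (g • p i) <;> simp [a, b]

theorem proj_add_not (p : I → P) (S : P → Prop) (x : I → ZG G) :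
    proj p S x + proj p (fun a => ¬ S a) x = x :=
  vec_ext fun i g => by
    simp only [Pi.add_apply, coeff_add, Finsupp.add_apply, coeff_proj]
    by_cases a : S (g • p i) <;> simp [a]

theorem vOn_single [DecidableEq I] (p : I → P) (i : I) :
    VOn p (· = p i) (Pi.single i (1 : ZG G) : I → ZG G) := fun j g e => by
  by_cases h : j = i
  · subst h
    have : g = 1 := by
      by_contra hg
      apply e
      simp [MonoidAlgebra.one_def, Ne.symm hg]
    simp [this]
  · simp [h] at e

theorem coeff_single_smul (g : G) (n : ℤ) (x : I → ZG G) (i : I) (h : G) :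
    (((single g n : ZG G) • x) i).coeff h = n * (x i).coeff (g⁻¹ * h) := by
  simp

theorem proj_single_smul (p : I → P) (S : P → Prop) (g : G) (n : ℤ) (x : I → ZG G) :
    proj p S ((single g n : ZG G) • x) =
      (single g n : ZG G) • proj p (fun a => S (g • a)) x :=
  vec_ext fun i h => by
    rw [coeff_proj, coeff_single_smul, coeff_single_smul, coeff_proj]
    have : g • (g⁻¹ * h) • p i = h • p i := by rw [smul_smul]; simp
    rw [this]
    split_ifs <;> simp

theorem VOn.single_smul {p : I → P} {S : P → Prop} {x : I → ZG G} (h : VOn p S x) (g : G)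
    (n : ℤ) : VOn p (fun a => S (g⁻¹ • a)) ((single g n : ZG G) • x) := fun i k e => by
  rw [coeff_single_smul] at e
  have := h i _ (right_ne_zero_of_mul e)
  simpa [mul_smul] using this

/-- the finite set of pairs carrying a vector -/
theorem exists_pos_finset [Finite I] (p : I → P) (x : I → ZG G) :
    ∃ s : Finset P, VOn p (· ∈ s) x := by
  classical
  have := Fintype.ofFinite I
  refine ⟨Finset.univ.biUnion fun i => (x i).coeff.support.image fun g => g • p i, ?_⟩
  intro i g e
  simp only [Finset.mem_biUnion, Finset.mem_univ, true_and, Finset.mem_image,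
    Finsupp.mem_support_iff]
  exact ⟨i, g, e, rfl⟩

theorem VOn.sum_proj {p : I → P} {s : Finset P} {x : I → ZG G} (h : VOn p (· ∈ s) x) :
    ∑ σ ∈ s, MP_9d1ffa_al.proj p (· = σ) x = x :=
  vec_ext fun i g => by
    classical
    simp only [Finset.sum_apply, coeff_sum, Finsupp.finsetSum_apply, coeff_proj]
    by_cases e : (x i).coeff g = 0
    · simp [e]
    · have := h i g e
      rw [Finset.sum_eq_single (g • p i)]
      · simp
      · intro b _ hb
        simp [Ne.symm hb]
      · intro hb
        exact absurd this hb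

/-- a vector lies in an additive submonoid as soon as its components do -/
theorem mem_of_proj [Finite I] {M : Type*} [SetLike M (I → ZG G)]
    [AddSubmonoidClass M (I → ZG G)] (p : I → P) {N : M} {x : I → ZG G}
    (h : ∀ σ, proj p (· = σ) x ∈ N) : x ∈ N := by
  obtain ⟨s, hs⟩ := exists_pos_finset p x
  rw [← hs.sum_proj]
  exact sum_mem fun σ _ => h σ

/-- closure under scalars can be checked on group elements -/
theorem smul_mem_of_single {N : AddSubgroup (I → ZG G)}
    (h : ∀ (g : G), ∀ x ∈ N, (single g (1 : ℤ) : ZG G) • x ∈ N) (r : ZG G) {x : I → ZG G}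
    (hx : x ∈ N) : r • x ∈ N := by
  induction r using MonoidAlgebra.induction_linear with
  | zero => simp
  | add a b ha hb => rw [add_smul]; exact N.add_mem ha hb
  | single g n =>
    have : (single g n : ZG G) • x = n • ((single g (1 : ℤ) : ZG G) • x) := by
      rw [← smul_assoc]; simp
    rw [this]
    exact N.zsmul_mem (h g x hx) n

/-! ### supports of matrices -/

theorem MOn.mono {p : I → P} {q : J → Q} {ρ ρ' : P → Q → Prop} {A : Matrix I J (ZG G)}
    (h : MOn p q ρ A) (hρ : ∀ a b, ρ a b → ρ' a b) : MOn p q ρ' A :=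
  fun i j g e => hρ _ _ (h i j g e)

theorem mOn_iff {p : I → P} {q : J → Q} {ρ : P → Q → Prop} {A : Matrix I J (ZG G)} :
    MOn p q ρ A ↔ ∀ i, VOn q (ρ (p i)) (A i) := Iff.rfl

theorem mOn_zero (p : I → P) (q : J → Q) (ρ : P → Q → Prop) :
    MOn p q ρ (0 : Matrix I J (ZG G)) := fun i j g e => by simp at e

theorem MOn.add {p : I → P} {q : J → Q} {ρ : P → Q → Prop} {A B : Matrix I J (ZG G)}
    (hA : MOn p q ρ A) (hB : MOn p q ρ B) : MOn p q ρ (A + B) :=
  fun i => VOn.add (hA i) (hB i)

theorem MOn.neg {p : I → P} {q : J → Q} {ρ : P → Q → Prop} {A : Matrix I J (ZG G)}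
    (hA : MOn p q ρ A) : MOn p q ρ (-A) := fun i => VOn.neg (hA i)

theorem MOn.sub {p : I → P} {q : J → Q} {ρ : P → Q → Prop} {A B : Matrix I J (ZG G)}
    (hA : MOn p q ρ A) (hB : MOn p q ρ B) : MOn p q ρ (A - B) :=
  fun i => VOn.sub (hA i) (hB i)

theorem mOn_one [DecidableEq I] (p : I → P) : MOn p p Eq (1 : Matrix I I (ZG G)) :=
  fun i j g e => by
    have : (1 : Matrix I I (ZG G)) i j = (Pi.single i (1 : ZG G) : I → ZG G) j := by
      simp [Matrix.one_apply, Pi.single_apply, eq_comm]
    rw [this] at e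
    exact (vOn_single p i j g e).symm

theorem mOn_mfil (p : I → P) (q : J → Q) (ρ : P → Q → Prop) (A : Matrix I J (ZG G)) :
    MOn p q ρ (mfil p q ρ A) := fun i => vOn_proj q (ρ (p i)) (A i)

theorem mfil_row (p : I → P) (q : J → Q) (ρ : P → Q → Prop) (A : Matrix I J (ZG G)) (i : I) :
    mfil p q ρ A i = proj q (ρ (p i)) (A i) := rfl

theorem MOn.mfil {p : I → P} {q : J → Q} {ρ : P → Q → Prop} {A : Matrix I J (ZG G)}
    (h : MOn p q ρ A) (ρ' : P → Q → Prop) : MOn p q ρ (mfil p q ρ' A) :=
  fun i => VOn.proj (h i) _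

theorem MOn.mfil_eq {p : I → P} {q : J → Q} {ρ : P → Q → Prop} {A : Matrix I J (ZG G)}
    (h : MOn p q ρ A) : MP_9d1ffa_al.mfil p q ρ A = A := by
  funext i
  exact VOn.proj_eq (h i)

theorem mfil_add_not (p : I → P) (q : J → Q) (ρ : P → Q → Prop) (A : Matrix I J (ZG G)) :
    mfil p q ρ A + mfil p q (fun a b => ¬ ρ a b) A = A := by
  funext i
  exact proj_add_not q (ρ (p i)) (A i)

theorem coeff_mul_ne {x y : ZG G} {g : G} (e : (x * y).coeff g ≠ 0) :
    ∃ a b, x.coeff a ≠ 0 ∧ y.coeff b ≠ 0 ∧ a * b = g := by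
  classical
  have := support_coeff_mul_subset x y (Finsupp.mem_support_iff.2 e)
  obtain ⟨a, ha, b, hb, e⟩ := Finset.mem_mul.1 this
  exact ⟨a, b, Finsupp.mem_support_iff.1 ha, Finsupp.mem_support_iff.1 hb, e⟩

theorem VOn.vecMul [Fintype I] {p : I → P} {q : J → Q} {S : P → Prop} {ρ : P → Q → Prop}
    {x : I → ZG G} {A : Matrix I J (ZG G)} (hx : VOn p S x) (hA : MOn p q ρ A) (hρ : Inv G ρ) :
    VOn q (fun b => ∃ a, S a ∧ ρ a b) (x ᵥ* A) := fun j g e => by
  simp only [Matrix.vecMul, dotProduct, coeff_sum, Finsupp.finsetSum_apply] at e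
  obtain ⟨i, -, e⟩ := Finset.exists_ne_zero_of_sum_ne_zero e
  obtain ⟨a, b, ha, hb, rfl⟩ := coeff_mul_ne e
  exact ⟨a • p i, hx i a ha, by rw [mul_smul]; exact hρ a _ _ (hA i j b hb)⟩

theorem VOn.vecMul_eq [Fintype I] {p : I → P} {q : J → Q} {σ : P} {ρ : P → Q → Prop}
    {x : I → ZG G} {A : Matrix I J (ZG G)} (hx : VOn p (· = σ) x) (hA : MOn p q ρ A)
    (hρ : Inv G ρ) : VOn q (ρ σ) (x ᵥ* A) :=
  (hx.vecMul hA hρ).mono fun _ ⟨_, e, h⟩ => e ▸ h

theorem mul_row [Fintype J] (A : Matrix I J (ZG G)) (B : Matrix J K (ZG G)) (i : I) :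
    (A * B) i = A i ᵥ* B := rfl

theorem MOn.mul [Fintype J] {p : I → P} {q : J → Q} {r : K → T} {ρ : P → Q → Prop}
    {ρ' : Q → T → Prop} {A : Matrix I J (ZG G)} {B : Matrix J K (ZG G)} (hA : MOn p q ρ A)
    (hB : MOn q r ρ' B) (hρ : Inv G ρ') : MOn p r (fun a c => ∃ b, ρ a b ∧ ρ' b c) (A * B) :=
  fun i => VOn.vecMul (hA i) hB hρ

/-- key lemma: on a vector located at one position, filtering the matrix is projecting the
image -/
theorem VOn.vecMul_mfil [Fintype I] {p : I → P} {q : J → Q} {σ : P} {ρ : P → Q → Prop}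
    {x : I → ZG G} (hx : VOn p (· = σ) x) (hρ : Inv G ρ) (A : Matrix I J (ZG G)) :
    x ᵥ* mfil p q ρ A = MP_9d1ffa_al.proj q (ρ σ) (x ᵥ* A) := by
  have h1 := hx.vecMul_eq (mOn_mfil p q ρ A) hρ
  have h2 := hx.vecMul_eq (mOn_mfil p q (fun a b => ¬ ρ a b) A)
    (fun g a b h e => h ((hρ.iff g a b).1 e))
  conv_rhs => rw [← mfil_add_not p q ρ A, Matrix.vecMul_add, map_add, h1.proj_eq,
    h2.proj_zero (S' := ρ σ) (fun _ h => h), add_zero]

theorem single_vecMul_row [Fintype I] [DecidableEq I] (A : Matrix I J (ZG G)) (i : I) :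
    (Pi.single i (1 : ZG G) : I → ZG G) ᵥ* A = A i := Matrix.single_one_vecMul i A

/-! ### the group ring of a subgroup -/

theorem coeff_incl_coe (D : Subgroup G) (y : ZG D) (d : D) :
    (incl D y).coeff (d : G) = y.coeff d :=
  Finsupp.mapDomain_apply (f := D.subtype) D.subtype_injective _ _

theorem coeff_incl_of_not_mem (D : Subgroup G) (y : ZG D) {g : G} (hg : g ∉ D) :
    (incl D y).coeff g = 0 :=
  Finsupp.mapDomain_of_notMem_range (f := D.subtype) _ _ (by rintro ⟨d, rfl⟩; exact hg d.2)

theorem mem_of_coeff_incl {D : Subgroup G} {y : ZG D} {g : G} (h : (incl D y).coeff g ≠ 0) :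
    g ∈ D := by
  by_contra hg
  exact h (coeff_incl_of_not_mem D y hg)

theorem incl_injective (D : Subgroup G) : Function.Injective (incl D) := fun x y h => by
  ext d
  rw [← coeff_incl_coe, h, coeff_incl_coe]

theorem incl_single (D : Subgroup G) (d : D) (n : ℤ) :
    incl D (single d n) = single (d : G) n := by
  simp [incl]

theorem exists_incl {D : Subgroup G} {x : ZG G} (h : ∀ g, x.coeff g ≠ 0 → g ∈ D) :
    ∃ y, incl D y = x := by
  refine ⟨MonoidAlgebra.comapDomain D.subtype D.subtype_injective x, ?_⟩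
  ext g
  by_cases hg : g ∈ D
  · exact coeff_incl_coe D _ ⟨g, hg⟩
  · rw [coeff_incl_of_not_mem D _ hg]
    by_contra e
    exact hg (h g (Ne.symm e))

theorem exists_incl_mat {D : Subgroup G} {A : Matrix I J (ZG G)}
    (h : ∀ i j g, (A i j).coeff g ≠ 0 → g ∈ D) : ∃ B : Matrix I J (ZG D), A = B.map (incl D) := by
  choose B hB using fun i j => exists_incl (h i j)
  exact ⟨Matrix.of B, by funext i j; exact (hB i j).symm⟩

theorem map_incl_injective (D : Subgroup G) {A B : Matrix I J (ZG D)}
    (h : A.map (incl D) = B.map (incl D)) : A = B := by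
  funext i j
  exact incl_injective D (congrFun (congrFun h i) j)

theorem mOn_map_incl (σ : P) (B : Matrix I J (ZG (MulAction.stabilizer G σ))) :
    MOn (fun _ : I => σ) (fun _ : J => σ) Eq (B.map (incl _)) := fun _ _ _ e =>
  (MulAction.mem_stabilizer_iff.1 (mem_of_coeff_incl e)).symm

/-! ### graded filtrations -/

/-- a finite decreasing filtration by submodules that are sums of their components -/
structure Filt (p : I → P) (X : ℕ → Submodule (ZG G) (I → ZG G)) (k : ℕ) : Prop where
  top : X 0 = ⊤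
  anti : ∀ m, X (m + 1) ≤ X m
  bot : X k = ⊥
  gr : ∀ m σ, ∀ x ∈ X m, proj p (· = σ) x ∈ X m

/-- the matrix lowers the filtration by `w` -/
def Low [Fintype I] (X : ℕ → Submodule (ZG G) (I → ZG G)) (w : ℕ) (A : Matrix I I (ZG G)) :
    Prop :=
  ∀ m, ∀ x ∈ X m, x ᵥ* A ∈ X (m + w)

/-- nilpotent along every sequence of positions -/
def NilP [Fintype I] (p : I → P) (A : Matrix I I (ZG G)) : Prop :=
  ∃ X k, Filt p X k ∧ Low X 1 A

theorem Filt.antitone {p : I → P} {X : ℕ → Submodule (ZG G) (I → ZG G)} {k : ℕ}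
    (h : Filt p X k) : Antitone X := antitone_nat_of_succ_le h.anti

theorem Filt.proj_mem [Finite I] {p : I → P} {X : ℕ → Submodule (ZG G) (I → ZG G)} {k : ℕ}
    (h : Filt p X k) (m : ℕ) (S : P → Prop) {x : I → ZG G} (hx : x ∈ X m) : proj p S x ∈ X m := by
  refine mem_of_proj p fun σ => ?_
  rw [proj_proj]
  by_cases e : S σ
  · have : (fun a => a = σ ∧ S a) = (· = σ) := by
      funext a; exact propext ⟨fun e => e.1, fun e' => ⟨e', e' ▸ e⟩⟩
    rw [this]; exact h.gr m σ x hx
  · have : proj p (fun a => a = σ ∧ S a) x = 0 :=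
      ((vOn_proj p _ x).mono fun a (e' : a = σ ∧ S a) => e (e'.1 ▸ e'.2)).eq_zero
    rw [this]; exact zero_mem _

theorem low_pow [Fintype I] [DecidableEq I] {X : ℕ → Submodule (ZG G) (I → ZG G)}
    {A : Matrix I I (ZG G)} (h : Low X 1 A) (n : ℕ) : Low X n (A ^ n) := by
  induction n with
  | zero => intro m x hx; simpa using hx
  | succ n ih =>
    intro m x hx
    rw [pow_succ, ← Matrix.vecMul_vecMul, ← add_assoc]
    exact h _ _ (ih m x hx)

theorem NilP.isNilpotent [Fintype I] [DecidableEq I] {p : I → P} {A : Matrix I I (ZG G)}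
    (h : NilP p A) : IsNilpotent A := by
  obtain ⟨X, k, hX, hA⟩ := h
  refine ⟨k, ?_⟩
  funext i
  have := low_pow hA k 0 (Pi.single i 1) (by rw [hX.top]; trivial)
  rw [zero_add, hX.bot, single_vecMul_row] at this
  exact (Submodule.mem_bot _).1 this

end Pool.Agent.Work.MP_9d1ffa_al
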