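import Pool.Agent.Work.MP_9d1ffa_al.UDefs
import Pool.Agent.Work.MP_9d1ffa_al.Basic

-- merged part: Pool.Agent.Work.MP_9d1ffa_al.UStar
section
/-! The involution of a group ring. -/

namespace Pool.Agent.Work.MP_9d1ffa_al

open Matrix MonoidAlgebra

set_option linter.unusedSectionVars false

variable {G H : Type} [Group G] [Group H] {P Q : Type} [MulAction G P] [MulAction G Q]
  {I J : Type}

theorem coeff_bar (x : ZG G) (g : G) : (bar x).coeff g = x.coeff g⁻¹ := by
  have := Finsupp.mapDomain_apply (f := fun g : G => g⁻¹) inv_injective x.coeff g⁻¹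
  simpa [bar, MonoidAlgebra.mapDomain] using this

theorem bar_single (g : G) (n : ℤ) : bar (single g n : ZG G) = single g⁻¹ n :=
  MonoidAlgebra.mapDomain_single

theorem bar_add (x y : ZG G) : bar (x + y) = bar x + bar y := MonoidAlgebra.mapDomain_add _ _ _

theorem bar_zero : bar (0 : ZG G) = 0 := MonoidAlgebra.mapDomain_zero _

theorem bar_mul (x y : ZG G) : bar (x * y) = bar y * bar x := by
  induction x using MonoidAlgebra.induction_linear with
  | zero => simp [bar_zero]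
  | add a b ha hb => rw [add_mul, bar_add, bar_add, ha, hb, mul_add]
  | single g n =>
    induction y using MonoidAlgebra.induction_linear with
    | zero => simp [bar_zero]
    | add a b ha hb => rw [mul_add, bar_add, bar_add, ha, hb, add_mul]
    | single h m => simp [bar_single, single_mul_single, mul_comm]

noncomputable instance zgStar : StarRing (ZG G) where
  star := bar
  star_involutive x := by ext g; simp [coeff_bar]
  star_mul := bar_mul
  star_add := bar_add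

theorem ct_eq (A : Matrix I J (ZG G)) : ct A = Aᴴ := rfl

theorem coeff_star (x : ZG G) (g : G) : (star x).coeff g = x.coeff g⁻¹ := coeff_bar x g

theorem star_single (g : G) (n : ℤ) : star (single g n : ZG G) = single g⁻¹ n := bar_single g n

theorem coeff_ct (A : Matrix I J (ZG G)) (j : J) (i : I) (g : G) :
    (Aᴴ j i).coeff g = (A i j).coeff g⁻¹ := coeff_bar _ _

theorem mapDomain_star (f : G →* H) (x : ZG G) :
    mapDomainRingHom ℤ f (star x) = star (mapDomainRingHom ℤ f x) := by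
  induction x using MonoidAlgebra.induction_linear with
  | zero => simp
  | add a b ha hb => rw [star_add, map_add, map_add, ha, hb, star_add]
  | single g n => simp [star_single]

theorem MOn.ct {p : I → P} {q : J → Q} {ρ : P → Q → Prop} {A : Matrix I J (ZG G)}
    (h : MOn p q ρ A) (hρ : Inv G ρ) : MOn q p (fun b a => ρ a b) Aᴴ := fun j i g e => by
  rw [coeff_ct] at e
  simpa using hρ g _ _ (h i j _ e)

theorem mfil_ct (p : I → P) (q : J → Q) {ρ : P → Q → Prop} (hρ : Inv G ρ)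
    (A : Matrix I J (ZG G)) : (mfil p q ρ A)ᴴ = mfil q p (fun b a => ρ a b) Aᴴ :=
  mat_ext fun j i g => by
    rw [coeff_ct, coeff_mfil, coeff_mfil, coeff_ct]
    have : ρ (p i) (g⁻¹ • q j) ↔ ρ (g • p i) (q j) := by
      rw [← hρ.iff g]; simp
    by_cases e : ρ (p i) (g⁻¹ • q j)
    · rw [if_pos e, if_pos (this.1 e)]
    · rw [if_neg e, if_neg fun e' => e (this.2 e')]

theorem MOn.zsmul {p : I → P} {q : J → Q} {ρ : P → Q → Prop} {A : Matrix I J (ZG G)}
    (h : MOn p q ρ A) (n : ℤ) : MOn p q ρ (n • A) := fun i j g e =>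
  h i j g fun e' => e (by
    rw [Matrix.smul_apply, coeff_smul, Finsupp.smul_apply, e', smul_zero])

end Pool.Agent.Work.MP_9d1ffa_al
end

-- merged part: Pool.Agent.Work.MP_9d1ffa_al.UWitt
section
/-! Quadratic forms over a ring with involution: equivalence and isometry. -/

namespace Pool.Agent.Work.MP_9d1ffa_al

open Matrix MonoidAlgebra MulAction

set_option linter.unusedSectionVars false
set_option linter.unusedVariables false

variable {R : Type} [Ring R] [StarRing R] {ε : ℤˣ} {I J K L : Type}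

/-- the symmetrisation -/
def sy (ε : ℤˣ) (ψ : Matrix I I R) : Matrix I I R := ψ + (ε : ℤ) • ψᴴ

/-- the two matrices define the same quadratic form -/
def Eqv (ε : ℤˣ) (ψ ψ' : Matrix I I R) : Prop := ∃ χ : Matrix I I R, ψ' = ψ + χ - (ε : ℤ) • χᴴ

/-- isometric quadratic forms -/
def Iso (ε : ℤˣ) [Fintype I] [DecidableEq I] [Fintype J] [DecidableEq J] (ψ : Matrix I I R)
    (ψ' : Matrix J J R) : Prop :=
  ∃ (g : Matrix J I R) (g' : Matrix I J R), g * g' = 1 ∧ g' * g = 1 ∧ Eqv ε ψ' (g * ψ * gᴴ)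

/-- stably hyperbolic -/
def Z (ε : ℤˣ) [Fintype I] [DecidableEq I] (ψ : Matrix I I R) : Prop :=
  ∃ m n : ℕ, Iso ε (fromBlocks ψ 0 0 (hypF R (Fin m))) (hypF R (Fin n))

theorem z_iff {G : Type} [Group G] [Fintype I] [DecidableEq I] {ψ : Matrix I I (ZG G)} :
    StHyp ε ψ ↔ Z ε ψ :=
  ⟨fun ⟨m, n, g, g', χ, a, b, c⟩ => ⟨m, n, g, g', a, b, χ, c⟩,
    fun ⟨m, n, g, g', a, b, χ, c⟩ => ⟨m, n, g, g', χ, a, b, c⟩⟩

theorem symF_eq {G : Type} [Group G] (ψ : Matrix I I (ZG G)) : symF ε ψ = sy ε ψ := rfl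

theorem eps_eps {M : Type} [AddCommGroup M] (x : M) : (ε : ℤ) • (ε : ℤ) • x = x := by
  rw [smul_smul, ← Units.val_mul, Int.units_mul_self, Units.val_one, one_smul]

theorem ct_zsmul (n : ℤ) (A : Matrix I J R) : (n • A)ᴴ = n • Aᴴ := conjTranspose_zsmul n A

theorem sy_ct (ψ : Matrix I I R) : (sy ε ψ)ᴴ = (ε : ℤ) • sy ε ψ := by
  rw [sy, conjTranspose_add, ct_zsmul, conjTranspose_conjTranspose, smul_add, eps_eps, add_comm]

theorem sy_add (a b : Matrix I I R) : sy ε (a + b) = sy ε a + sy ε b := by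
  simp only [sy, conjTranspose_add, smul_add]; abel

theorem sy_neg (a : Matrix I I R) : sy ε (-a) = -sy ε a := by
  simp only [sy, conjTranspose_neg, smul_neg]; abel

theorem sy_zero : sy ε (0 : Matrix I I R) = 0 := by simp [sy]

theorem sy_conj [Fintype I] (g : Matrix J I R) (a : Matrix I I R) :
    sy ε (g * a * gᴴ) = g * sy ε a * gᴴ := by
  simp only [sy, conjTranspose_mul, conjTranspose_conjTranspose, Matrix.mul_add, Matrix.add_mul,
    Matrix.mul_smul, Matrix.smul_mul, Matrix.mul_assoc]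

theorem sy_blocks (a : Matrix I I R) (b : Matrix I J R) (c : Matrix J I R) (d : Matrix J J R) :
    sy ε (fromBlocks a b c d) =
      fromBlocks (sy ε a) (b + (ε : ℤ) • cᴴ) (c + (ε : ℤ) • bᴴ) (sy ε d) := by
  simp only [sy, fromBlocks_conjTranspose, fromBlocks_smul, fromBlocks_add]

theorem inv_ct [Fintype I] [DecidableEq I] {ψ μ : Matrix I I R} (h1 : sy ε ψ * μ = 1)
    (h2 : μ * sy ε ψ = 1) : μᴴ = (ε : ℤ) • μ := by
  have h3 : μᴴ * ((ε : ℤ) • sy ε ψ) = 1 := by
    rw [← sy_ct, ← conjTranspose_mul, h1, conjTranspose_one]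
  calc μᴴ = μᴴ * ((ε : ℤ) • sy ε ψ) * ((ε : ℤ) • μ) := by
        rw [Matrix.mul_assoc, Matrix.smul_mul, Matrix.mul_smul _ _ μ, eps_eps, h1, Matrix.mul_one]
    _ = (ε : ℤ) • μ := by rw [h3, Matrix.one_mul]

theorem Eqv.refl (a : Matrix I I R) : Eqv ε a a := ⟨0, by simp⟩

theorem Eqv.of_eq {a b : Matrix I I R} (h : a = b) : Eqv ε a b := h ▸ Eqv.refl a

theorem Eqv.symm {a b : Matrix I I R} (h : Eqv ε a b) : Eqv ε b a := by
  obtain ⟨χ, rfl⟩ := h
  exact ⟨-χ, by simp only [conjTranspose_neg, smul_neg]; abel⟩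

theorem Eqv.trans {a b c : Matrix I I R} (h : Eqv ε a b) (h' : Eqv ε b c) : Eqv ε a c := by
  obtain ⟨χ, rfl⟩ := h
  obtain ⟨χ', rfl⟩ := h'
  exact ⟨χ + χ', by simp only [conjTranspose_add, smul_add]; abel⟩

theorem Eqv.add {a b c d : Matrix I I R} (h : Eqv ε a b) (h' : Eqv ε c d) :
    Eqv ε (a + c) (b + d) := by
  obtain ⟨χ, rfl⟩ := h
  obtain ⟨χ', rfl⟩ := h'
  exact ⟨χ + χ', by simp only [conjTranspose_add, smul_add]; abel⟩

theorem Eqv.neg {a b : Matrix I I R} (h : Eqv ε a b) : Eqv ε (-a) (-b) := by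
  obtain ⟨χ, rfl⟩ := h
  exact ⟨-χ, by simp only [conjTranspose_neg, smul_neg]; abel⟩

theorem Eqv.conj [Fintype I] {a b : Matrix I I R} (h : Eqv ε a b) (g : Matrix J I R) :
    Eqv ε (g * a * gᴴ) (g * b * gᴴ) := by
  obtain ⟨χ, rfl⟩ := h
  exact ⟨g * χ * gᴴ, by
    simp only [conjTranspose_mul, conjTranspose_conjTranspose, Matrix.mul_add, Matrix.add_mul,
      Matrix.mul_sub, Matrix.sub_mul, Matrix.mul_smul, Matrix.smul_mul, Matrix.mul_assoc]⟩

theorem eqv_swap (a : Matrix I I R) : Eqv ε a ((ε : ℤ) • aᴴ) :=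
  ⟨-a, by simp only [conjTranspose_neg, smul_neg]; abel⟩

theorem Eqv.sy_eq {a b : Matrix I I R} (h : Eqv ε a b) : sy ε a = sy ε b := by
  obtain ⟨χ, rfl⟩ := h
  simp only [sy, conjTranspose_add, conjTranspose_sub, ct_zsmul, conjTranspose_conjTranspose,
    smul_add, smul_sub, eps_eps]
  abel

/-- the cross terms of a sum -/
theorem eqv_cross [Fintype J] (X Y : Matrix I J R) (φ : Matrix J J R) :
    Eqv ε (X * φ * Xᴴ + X * sy ε φ * Yᴴ + Y * φ * Yᴴ) ((X + Y) * φ * (X + Y)ᴴ) :=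
  ⟨Y * φ * Xᴴ, by
    simp only [sy, conjTranspose_mul, conjTranspose_add, conjTranspose_conjTranspose,
      Matrix.mul_add, Matrix.add_mul, Matrix.mul_smul, Matrix.smul_mul, Matrix.mul_assoc]
    abel⟩

theorem eqv_blocks {a a' : Matrix I I R} {b b' : Matrix I J R} {c c' : Matrix J I R}
    {d d' : Matrix J J R} (ha : Eqv ε a a') (hd : Eqv ε d d')
    (h : b + (ε : ℤ) • cᴴ = b' + (ε : ℤ) • c'ᴴ) :
    Eqv ε (fromBlocks a b c d) (fromBlocks a' b' c' d') := by
  obtain ⟨χ, rfl⟩ := ha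
  obtain ⟨χ', rfl⟩ := hd
  refine ⟨fromBlocks χ 0 (c' - c) χ', ?_⟩
  have e : b' = b + 0 - (ε : ℤ) • (c' - c)ᴴ := by
    rw [conjTranspose_sub, smul_sub, add_zero, eq_sub_of_add_eq h.symm]; abel
  rw [fromBlocks_conjTranspose, fromBlocks_smul, fromBlocks_add, sub_eq_add_neg (fromBlocks _ _ _ _),
    fromBlocks_neg, fromBlocks_add, e]
  simp only [← sub_eq_add_neg, conjTranspose_zero, smul_zero, sub_zero, add_sub_cancel]

variable [Fintype I] [DecidableEq I] [Fintype J] [DecidableEq J] [Fintype K] [DecidableEq K]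
  [Fintype L] [DecidableEq L]

theorem Iso.of_eqv {a b : Matrix I I R} (h : Eqv ε a b) : Iso ε a b :=
  ⟨1, 1, by simp, by simp, by simpa using h.symm⟩

theorem Iso.refl (a : Matrix I I R) : Iso ε a a := Iso.of_eqv (Eqv.refl a)

theorem iso_conj (a : Matrix I I R) {g : Matrix J I R} {g' : Matrix I J R} (h1 : g * g' = 1)
    (h2 : g' * g = 1) : Iso ε a (g * a * gᴴ) := ⟨g, g', h1, h2, Eqv.refl _⟩

theorem Iso.symm {a : Matrix I I R} {b : Matrix J J R} (h : Iso ε a b) : Iso ε b a := by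
  obtain ⟨g, g', h1, h2, h⟩ := h
  refine ⟨g', g, h2, h1, ?_⟩
  have := (h.conj g').symm
  rwa [← Matrix.mul_assoc, ← Matrix.mul_assoc, h2, Matrix.one_mul, Matrix.mul_assoc,
    ← conjTranspose_mul, h2, conjTranspose_one, Matrix.mul_one] at this

theorem Iso.trans {a : Matrix I I R} {b : Matrix J J R} {c : Matrix K K R} (h : Iso ε a b)
    (h' : Iso ε b c) : Iso ε a c := by
  obtain ⟨g, g', h1, h2, h⟩ := h
  obtain ⟨f, f', k1, k2, k⟩ := h'
  refine ⟨f * g, g' * f', ?_, ?_, k.trans ?_⟩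
  · rw [Matrix.mul_assoc, ← Matrix.mul_assoc g, h1, Matrix.one_mul, k1]
  · rw [Matrix.mul_assoc, ← Matrix.mul_assoc f', k2, Matrix.one_mul, h2]
  · simpa only [conjTranspose_mul, Matrix.mul_assoc] using h.conj f

theorem Iso.sum {a : Matrix I I R} {b : Matrix J J R} {c : Matrix K K R} {d : Matrix L L R}
    (h : Iso ε a b) (h' : Iso ε c d) : Iso ε (fromBlocks a 0 0 c) (fromBlocks b 0 0 d) := by
  obtain ⟨g, g', h1, h2, h⟩ := h
  obtain ⟨f, f', k1, k2, k⟩ := h'
  refine ⟨fromBlocks g 0 0 f, fromBlocks g' 0 0 f', ?_, ?_, ?_⟩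
  · simp [fromBlocks_multiply, h1, k1]
  · simp [fromBlocks_multiply, h2, k2]
  · simpa [fromBlocks_multiply, fromBlocks_conjTranspose] using eqv_blocks h k (b := 0) (c := 0) rfl

theorem iso_reindex (a : Matrix I I R) (e : J ≃ I) : Iso ε a (a.submatrix e e) := by
  refine ⟨(1 : Matrix I I R).submatrix e id, (1 : Matrix I I R).submatrix id e, ?_, ?_,
    Eqv.of_eq ?_⟩
  · rw [← submatrix_mul _ _ _ _ _ Function.bijective_id, Matrix.one_mul, submatrix_one_equiv]
  · rw [← submatrix_mul _ _ _ _ _ e.bijective, Matrix.one_mul, submatrix_id_id]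
  · rw [conjTranspose_submatrix, conjTranspose_one]
    conv_rhs => rw [← submatrix_id_id a]
    rw [← submatrix_mul _ _ _ _ _ Function.bijective_id,
      ← submatrix_mul _ _ _ _ _ Function.bijective_id, Matrix.one_mul, Matrix.mul_one]

end Pool.Agent.Work.MP_9d1ffa_al
end

-- merged part: Pool.Agent.Work.MP_9d1ffa_al.USchur
section
-- merged part: Pool.Agent.Work.MP_9d1ffa_al.UZ
section
/-! Formal properties of stably hyperbolic forms. -/

namespace Pool.Agent.Work.MP_9d1ffa_al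

open Matrix MonoidAlgebra MulAction

set_option linter.unusedSectionVars false
set_option linter.unusedVariables false

variable {R : Type} [Ring R] [StarRing R] {ε : ℤˣ} {I J : Type} [Fintype I] [DecidableEq I]
  [Fintype J] [DecidableEq J]

section Aux

variable {K L : Type} [Fintype K] [DecidableEq K] [Fintype L] [DecidableEq L]

theorem UZ_re {a : Matrix I I R} {b : Matrix J J R} (e : J ≃ I) (h : a.submatrix e e = b) :
    Iso ε a b := h ▸ iso_reindex a e

theorem UZ_comm (a : Matrix I I R) (b : Matrix J J R) :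
    Iso ε (fromBlocks a 0 0 b) (fromBlocks b 0 0 a) :=
  UZ_re (Equiv.sumComm J I) (by ext (i | i) (j | j) <;> rfl)

theorem UZ_assoc (a : Matrix I I R) (b : Matrix J J R) (c : Matrix K K R) :
    Iso ε (fromBlocks a 0 0 (fromBlocks b 0 0 c)) (fromBlocks (fromBlocks a 0 0 b) 0 0 c) :=
  UZ_re (Equiv.sumAssoc I J K) (by ext ((i | i) | i) ((j | j) | j) <;> rfl)

theorem UZ_four (a : Matrix I I R) (b : Matrix J J R) (c : Matrix K K R) (d : Matrix L L R) :
    Iso ε (fromBlocks (fromBlocks a 0 0 b) 0 0 (fromBlocks c 0 0 d))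
      (fromBlocks (fromBlocks a 0 0 c) 0 0 (fromBlocks b 0 0 d)) :=
  UZ_re (Equiv.sumSumSumComm I K J L)
    (by ext ((i | i) | (i | i)) ((j | j) | (j | j)) <;> rfl)

theorem UZ_hsum : Iso ε (fromBlocks (hypF R I) 0 0 (hypF R J)) (hypF R (I ⊕ J)) :=
  UZ_re (Equiv.sumSumSumComm I J I J) (by
    ext ((i | i) | (i | i)) ((j | j) | (j | j)) <;> simp [hypF, Matrix.one_apply])

theorem UZ_hequiv (e : J ≃ I) : Iso ε (hypF R I) (hypF R J) :=
  UZ_re (e.sumCongr e) (by ext (i | i) (j | j) <;> simp [hypF, Matrix.one_apply])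

theorem UZ_of {a : Matrix I I R} (h : Iso ε (fromBlocks a 0 0 (hypF R K)) (hypF R L)) : Z ε a :=
  ⟨Fintype.card K, Fintype.card L, (((Iso.refl a).sum (UZ_hequiv (Fintype.equivFin K))).trans h).trans
    (UZ_hequiv (Fintype.equivFin L).symm)⟩

theorem UZ_neg {a : Matrix I I R} {b : Matrix J J R} (h : Iso ε a b) : Iso ε (-a) (-b) := by
  obtain ⟨g, g', h1, h2, h⟩ := h
  exact ⟨g, g', h1, h2, by simpa using h.neg⟩

theorem UZ_hneg : Iso ε (-hypF R I) (hypF R I) := by
  have e : (fromBlocks 1 0 0 (-1) : Matrix (I ⊕ I) (I ⊕ I) R) * fromBlocks 1 0 0 (-1) = 1 := by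
    simp [fromBlocks_multiply]
  refine (iso_conj _ e e).trans (Iso.of_eqv (Eqv.of_eq ?_))
  simp [hypF, fromBlocks_multiply, fromBlocks_conjTranspose, fromBlocks_neg]

theorem UZ_hmap {S : Type} [Ring S] (f : R →+* S) : (hypF R I).map f = hypF S I := by
  simp [hypF, fromBlocks_map]

theorem UZ_map {S : Type} [Ring S] [StarRing S] (f : R →+* S) (hf : ∀ x, f (star x) = star (f x))
    {a : Matrix I I R} {b : Matrix J J R} (h : Iso ε a b) : Iso ε (a.map f) (b.map f) := by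
  obtain ⟨g, g', h1, h2, χ, h⟩ := h
  refine ⟨g.map f, g'.map f, ?_, ?_, χ.map f, ?_⟩
  · rw [← Matrix.map_mul, h1, Matrix.map_one _ f.map_zero f.map_one]
  · rw [← Matrix.map_mul, h2, Matrix.map_one _ f.map_zero f.map_one]
  · rw [← conjTranspose_map f hf, ← Matrix.map_mul, ← Matrix.map_mul, h]
    ext i j
    simp only [Matrix.map_apply, Matrix.sub_apply, Matrix.add_apply, Matrix.smul_apply,
      conjTranspose_apply, _root_.map_sub, _root_.map_add, map_zsmul, hf]

end Aux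

theorem Z.iso {a : Matrix I I R} {b : Matrix J J R} (h : Iso ε a b) (hz : Z ε a) : Z ε b := by
  obtain ⟨m, n, k⟩ := hz
  exact ⟨m, n, (h.symm.sum (Iso.refl _)).trans k⟩

theorem Z.eqv {a b : Matrix I I R} (h : Eqv ε a b) (hz : Z ε a) : Z ε b :=
  Z.iso (Iso.of_eqv h) hz

theorem z_hyp (κ : Type) [Fintype κ] [DecidableEq κ] : Z ε (hypF R κ) :=
  UZ_of (K := κ) UZ_hsum

theorem Z.sum {a : Matrix I I R} {b : Matrix J J R} (ha : Z ε a) (hb : Z ε b) :
    Z ε (fromBlocks a 0 0 b) := by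
  obtain ⟨m, n, h⟩ := ha
  obtain ⟨m', n', h'⟩ := hb
  exact UZ_of (((((Iso.refl _).sum UZ_hsum.symm).trans (UZ_four _ _ _ _)).trans (h.sum h')).trans
    UZ_hsum)

theorem Z.cancel {a : Matrix I I R} {b : Matrix J J R} (h : Z ε (fromBlocks a 0 0 b))
    (hb : Z ε b) : Z ε a := by
  obtain ⟨m, n, k⟩ := hb
  obtain ⟨m', n', k'⟩ := h
  refine UZ_of (K := Fin n ⊕ Fin m') (L := Fin n' ⊕ Fin m) ?_
  refine ((Iso.refl a).sum (UZ_hsum.symm.trans (k.symm.sum (Iso.refl _)))).trans ?_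
  refine ((Iso.refl a).sum ((UZ_assoc _ _ _).symm.trans
    ((Iso.refl b).sum (UZ_comm _ _)))).trans ?_
  exact (((UZ_assoc _ _ _).trans (UZ_assoc _ _ _)).trans (k'.sum (Iso.refl _))).trans UZ_hsum

theorem Z.neg {a : Matrix I I R} (h : Z ε a) : Z ε (-a) := by
  obtain ⟨m, n, k⟩ := h
  refine ⟨m, n, (((Iso.refl _).sum UZ_hneg.symm).trans ?_).trans UZ_hneg⟩
  simpa [fromBlocks_neg] using UZ_neg k

/-- a form with a complemented lagrangian -/
theorem z_lag (b : Matrix I J R) (c : Matrix J I R) (d : Matrix J J R) (b' : Matrix J I R)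
    (h1 : (b + (ε : ℤ) • cᴴ) * b' = 1) (h2 : b' * (b + (ε : ℤ) • cᴴ) = 1) :
    Z ε (fromBlocks 0 b c d) := by
  refine Z.iso (Iso.symm ?_) (z_hyp J)
  generalize hB : b + (ε : ℤ) • cᴴ = B at h1 h2
  have e1 : Eqv ε (fromBlocks (0 : Matrix I I R) b c d) (fromBlocks 0 B 0 d) :=
    eqv_blocks (Eqv.refl _) (Eqv.refl _) (by simp [hB])
  have e2 := iso_conj (ε := ε) (fromBlocks (0 : Matrix I I R) B 0 d)
    (g := (fromBlocks b' 0 0 1 : Matrix (J ⊕ J) (I ⊕ J) R)) (g' := fromBlocks B 0 0 1)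
    (by simp [fromBlocks_multiply, h2]) (by simp [fromBlocks_multiply, h1])
  have e3 := iso_conj (ε := ε) (fromBlocks (0 : Matrix J J R) 1 0 d)
    (g := (fromBlocks 1 0 (-d) 1 : Matrix (J ⊕ J) (J ⊕ J) R)) (g' := fromBlocks 1 0 d 1)
    (by simp [fromBlocks_multiply]) (by simp [fromBlocks_multiply])
  simp only [fromBlocks_multiply, fromBlocks_conjTranspose, conjTranspose_zero, conjTranspose_one,
    Matrix.mul_zero, Matrix.zero_mul, Matrix.mul_one, Matrix.one_mul, add_zero, zero_add, h2,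
    neg_add_cancel] at e2 e3
  exact ((Iso.of_eqv e1).trans e2).trans e3

theorem z_lag' (a : Matrix I I R) (b : Matrix I J R) (c : Matrix J I R) (b' : Matrix J I R)
    (h1 : (b + (ε : ℤ) • cᴴ) * b' = 1) (h2 : b' * (b + (ε : ℤ) • cᴴ) = 1) :
    Z ε (fromBlocks a b c 0) := by
  have e : c + (ε : ℤ) • bᴴ = (ε : ℤ) • (b + (ε : ℤ) • cᴴ)ᴴ := by
    rw [conjTranspose_add, ct_zsmul, conjTranspose_conjTranspose, smul_add, eps_eps, add_comm]
  refine Z.iso (UZ_re (Equiv.sumComm I J) (by ext (i | i) (j | j) <;> rfl))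
    (z_lag c b a ((ε : ℤ) • b'ᴴ) ?_ ?_)
  · rw [e, Matrix.smul_mul, Matrix.mul_smul, eps_eps, ← conjTranspose_mul, h2, conjTranspose_one]
  · rw [e, Matrix.smul_mul, Matrix.mul_smul, eps_eps, ← conjTranspose_mul, h1, conjTranspose_one]

/-- a nonsingular form with two complementary lagrangians -/
theorem z_lag_two (b : Matrix I J R) (c : Matrix J I R) (μ : Matrix (I ⊕ J) (I ⊕ J) R)
    (h1 : sy ε (fromBlocks 0 b c 0) * μ = 1) (h2 : μ * sy ε (fromBlocks 0 b c 0) = 1) :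
    Z ε (fromBlocks 0 b c 0) := by
  rw [sy_blocks, sy_zero, sy_zero, ← fromBlocks_toBlocks μ, fromBlocks_multiply, ← fromBlocks_one,
    fromBlocks_inj] at h1 h2
  exact z_lag b c 0 μ.toBlocks₂₁ (by simpa using h1.1) (by simpa using h2.2.2.2)

theorem Z.map {S : Type} [Ring S] [StarRing S] (f : R →+* S) (hf : ∀ x, f (star x) = star (f x))
    {a : Matrix I I R} (h : Z ε a) : Z ε (a.map f) := by
  obtain ⟨m, n, k⟩ := h
  refine ⟨m, n, ?_⟩
  simpa [fromBlocks_map, UZ_hmap] using UZ_map f hf k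

end Pool.Agent.Work.MP_9d1ffa_al
end

-- merged part: Pool.Agent.Work.MP_9d1ffa_al.USchur
section
/-! Orthogonal complements. -/

namespace Pool.Agent.Work.MP_9d1ffa_al

open Matrix MonoidAlgebra MulAction

set_option linter.unusedSectionVars false
set_option linter.unusedVariables false

variable {R : Type} [Ring R] [StarRing R] {ε : ℤˣ} {I J : Type} [Fintype I] [DecidableEq I]
  [Fintype J] [DecidableEq J]

theorem schur {ψ μ : Matrix I I R} (h1 : sy ε ψ * μ = 1) (h2 : μ * sy ε ψ = 1)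
    (φ : Matrix J J R) (X : Matrix I J R) (hu : IsUnit (1 + X * (sy ε φ * Xᴴ * μ))) :
    Iso ε (fromBlocks ψ 0 0 φ) (fromBlocks (ψ + X * φ * Xᴴ) 0 0
      (φ + (sy ε φ * Xᴴ * μ) * ψ * (sy ε φ * Xᴴ * μ)ᴴ)) := by
  obtain ⟨w, hw⟩ := hu
  have w1 : (1 + X * (sy ε φ * Xᴴ * μ)) * (↑w⁻¹ : Matrix I I R) = 1 := by
    rw [← hw, Units.mul_inv]
  have w2 : (↑w⁻¹ : Matrix I I R) * (1 + X * (sy ε φ * Xᴴ * μ)) = 1 := by
    rw [← hw, Units.inv_mul]
  have hY : (sy ε φ * Xᴴ * μ)ᴴ = μ * X * sy ε φ := by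
    rw [conjTranspose_mul, conjTranspose_mul, conjTranspose_conjTranspose, inv_ct h1 h2, sy_ct,
      Matrix.smul_mul, Matrix.mul_smul, Matrix.mul_smul, eps_eps, Matrix.mul_assoc]
  generalize sy ε φ * Xᴴ * μ = Y at w1 w2 hY ⊢
  generalize (↑w⁻¹ : Matrix I I R) = v at w1 w2
  have hg : fromBlocks (1 : Matrix I I R) X (-Y) (1 : Matrix J J R) =
      fromBlocks 1 X 0 1 * fromBlocks (1 + X * Y) 0 (-Y) 1 := by
    simp [fromBlocks_multiply]
  have p1 : fromBlocks (1 : Matrix I I R) X 0 (1 : Matrix J J R) * fromBlocks 1 (-X) 0 1 = 1 := by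
    simp [fromBlocks_multiply]
  have p2 : fromBlocks (1 : Matrix I I R) (-X) 0 (1 : Matrix J J R) * fromBlocks 1 X 0 1 = 1 := by
    simp [fromBlocks_multiply]
  have q1 : fromBlocks (1 + X * Y) 0 (-Y) (1 : Matrix J J R) *
      fromBlocks v 0 (Y * v) (1 : Matrix J J R) = 1 := by
    simp [fromBlocks_multiply, w1]
  have q2 : fromBlocks v 0 (Y * v) (1 : Matrix J J R) *
      fromBlocks (1 + X * Y) 0 (-Y) (1 : Matrix J J R) = 1 := by
    simp [fromBlocks_multiply, w2, Matrix.mul_assoc]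
  refine ⟨fromBlocks 1 X (-Y) 1, fromBlocks v 0 (Y * v) 1 * fromBlocks 1 (-X) 0 1, ?_, ?_, ?_⟩
  · rw [hg, Matrix.mul_assoc, ← Matrix.mul_assoc (fromBlocks (1 + X * Y) 0 (-Y) 1), q1,
      Matrix.one_mul, p1]
  · rw [hg, Matrix.mul_assoc, ← Matrix.mul_assoc (fromBlocks 1 (-X) 0 1), p2,
      Matrix.one_mul, q2]
  · have e : fromBlocks (1 : Matrix I I R) X (-Y) (1 : Matrix J J R) * fromBlocks ψ 0 0 φ *
        (fromBlocks (1 : Matrix I I R) X (-Y) (1 : Matrix J J R))ᴴ =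
        fromBlocks (ψ + X * φ * Xᴴ) (-(ψ * Yᴴ) + X * φ) (-(Y * ψ) + φ * Xᴴ)
          (φ + Y * ψ * Yᴴ) := by
      simp [fromBlocks_multiply, fromBlocks_conjTranspose, add_comm]
    rw [e]
    refine eqv_blocks (Eqv.refl _) (Eqv.refl _) ?_
    have e2 : -(ψ * Yᴴ) + X * φ + (ε : ℤ) • (-(Y * ψ) + φ * Xᴴ)ᴴ =
        -(sy ε ψ * Yᴴ) + X * sy ε φ := by
      simp only [sy, conjTranspose_add, conjTranspose_neg, conjTranspose_mul,
        conjTranspose_conjTranspose, smul_add, smul_neg, Matrix.add_mul, Matrix.mul_add,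
        Matrix.smul_mul, Matrix.mul_smul]
      abel
    rw [e2, hY, ← Matrix.mul_assoc, ← Matrix.mul_assoc, h1]
    simp

theorem z_schur {ψ μ : Matrix I I R} (h1 : sy ε ψ * μ = 1) (h2 : μ * sy ε ψ = 1)
    {φ : Matrix J J R} (X : Matrix I J R) (hu : IsUnit (1 + X * (sy ε φ * Xᴴ * μ)))
    (hψ : Z ε ψ) (hφ : Z ε φ)
    (h : Z ε (φ + (sy ε φ * Xᴴ * μ) * ψ * (sy ε φ * Xᴴ * μ)ᴴ)) : Z ε (ψ + X * φ * Xᴴ) :=
  Z.cancel (Z.iso (schur h1 h2 φ X hu) (hψ.sum hφ)) h

theorem z_refine {φ μ : Matrix I I R} (h1 : sy ε φ * μ = 1) (h2 : μ * sy ε φ = 1) (hφ : Z ε φ)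
    (u : Matrix I J R) (A : Matrix J J R) (hu : IsUnit (1 + u * sy ε A * uᴴ * μ))
    (h : Z ε (fromBlocks (-A) 1 0 (uᴴ * μ * φ * μᴴ * u))) : Z ε (φ + u * A * uᴴ) := by
  have z0 : Z ε (fromBlocks A (1 : Matrix J J R) (0 : Matrix J J R) 0) :=
    z_lag' A 1 0 1 (by simp) (by simp)
  have hs : sy ε (fromBlocks A (1 : Matrix J J R) (0 : Matrix J J R) 0) =
      fromBlocks (sy ε A) 1 ((ε : ℤ) • 1) 0 := by
    rw [sy_blocks, sy_zero]
    simp
  have hX : (fromCols u (0 : Matrix I J R))ᴴ = fromRows uᴴ 0 := by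
    rw [conjTranspose_fromCols_eq_fromRows_conjTranspose, conjTranspose_zero]
  have hY : sy ε (fromBlocks A (1 : Matrix J J R) (0 : Matrix J J R) 0) *
      (fromCols u (0 : Matrix I J R))ᴴ * μ =
      fromRows (sy ε A * uᴴ * μ) ((ε : ℤ) • (uᴴ * μ)) := by
    rw [hs, hX, fromBlocks_mul_fromRows, fromRows_mul]
    simp only [Matrix.mul_zero, add_zero, Matrix.smul_mul, Matrix.one_mul]
  have hA : fromCols u (0 : Matrix I J R) * fromBlocks A (1 : Matrix J J R) (0 : Matrix J J R) 0 *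
      (fromCols u (0 : Matrix I J R))ᴴ = u * A * uᴴ := by
    rw [hX, fromCols_mul_fromBlocks, fromCols_mul_fromRows]
    simp
  rw [← hA]
  refine z_schur h1 h2 (fromCols u 0) ?_ hφ z0 ?_
  · rw [hY, fromCols_mul_fromRows]
    simpa [Matrix.mul_assoc] using hu
  · rw [hY]
    have k1 : fromBlocks (1 : Matrix J J R) (-((ε : ℤ) • sy ε A)) 0 (1 : Matrix J J R) *
        fromBlocks 1 ((ε : ℤ) • sy ε A) 0 1 = 1 := by
      simp [fromBlocks_multiply]
    have k2 : fromBlocks (1 : Matrix J J R) ((ε : ℤ) • sy ε A) 0 (1 : Matrix J J R) *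
        fromBlocks 1 (-((ε : ℤ) • sy ε A)) 0 1 = 1 := by
      simp [fromBlocks_multiply]
    refine Z.iso (iso_conj _ k1 k2).symm ?_
    have k3 : fromBlocks (1 : Matrix J J R) (-((ε : ℤ) • sy ε A)) 0 (1 : Matrix J J R) *
        fromRows (sy ε A * uᴴ * μ) ((ε : ℤ) • (uᴴ * μ)) =
        fromRows 0 ((ε : ℤ) • (uᴴ * μ)) := by
      rw [fromBlocks_mul_fromRows, Matrix.neg_mul, Matrix.smul_mul, Matrix.mul_smul, eps_eps]
      simp [Matrix.mul_assoc]
    have k4 : fromBlocks (1 : Matrix J J R) (-((ε : ℤ) • sy ε A)) 0 (1 : Matrix J J R) *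
        fromBlocks A (1 : Matrix J J R) (0 : Matrix J J R) 0 *
        (fromBlocks (1 : Matrix J J R) (-((ε : ℤ) • sy ε A)) 0 (1 : Matrix J J R))ᴴ =
        fromBlocks (-((ε : ℤ) • Aᴴ)) 1 0 0 := by
      rw [fromBlocks_conjTranspose, conjTranspose_neg, ct_zsmul, sy_ct, eps_eps]
      simp [fromBlocks_multiply, sy]
    have k5 : ∀ (H : Matrix (J ⊕ J) (J ⊕ J) R) (Y : Matrix (J ⊕ J) I R),
        H * (Y * φ * Yᴴ) * Hᴴ = H * Y * φ * (H * Y)ᴴ := by
      intro H Y
      simp only [conjTranspose_mul, Matrix.mul_assoc]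
    have k6 : (ε : ℤ) • (uᴴ * μ) * φ * ((ε : ℤ) • (uᴴ * μ))ᴴ = uᴴ * μ * φ * μᴴ * u := by
      rw [ct_zsmul, Matrix.smul_mul, Matrix.smul_mul, Matrix.mul_smul, eps_eps, conjTranspose_mul,
        conjTranspose_conjTranspose, Matrix.mul_assoc (uᴴ * μ * φ)]
    rw [Matrix.mul_add, Matrix.add_mul, k4, k5, k3, fromRows_mul,
      conjTranspose_fromRows_eq_fromCols_conjTranspose, fromRows_mul_fromCols, k6, fromBlocks_add]
    refine Z.eqv (eqv_blocks ?_ ?_ ?_) h
    · simpa using (eqv_swap (ε := ε) A).neg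
    · simpa using Eqv.refl _
    · simp

/-- an idempotent matrix with free image -/
def FreeIdem (E : Matrix I I R) : Prop :=
  ∃ (b : Type) (_ : Fintype b) (_ : DecidableEq b) (U : Matrix b I R) (W : Matrix I b R),
    U * W = 1 ∧ W * U = E

theorem z_free {ψ μ E : Matrix I I R} (h1 : sy ε ψ * μ = 1) (h2 : μ * sy ε ψ = 1)
    (hE : FreeIdem E) (hE' : FreeIdem (1 - E)) (e1 : E * ψ * Eᴴ = 0)
    (e2 : (1 - E) * ψ * (1 - E)ᴴ = 0) : Z ε ψ := by
  obtain ⟨b, _, _, U, W, a1, a2⟩ := hE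
  obtain ⟨b', _, _, U', W', a1', a2'⟩ := hE'
  have u1 : U * E = U := by rw [← a2, ← Matrix.mul_assoc, a1, Matrix.one_mul]
  have u2 : E * W = W := by rw [← a2, Matrix.mul_assoc, a1, Matrix.mul_one]
  have u1' : U' * (1 - E) = U' := by rw [← a2', ← Matrix.mul_assoc, a1', Matrix.one_mul]
  have u2' : (1 - E) * W' = W' := by rw [← a2', Matrix.mul_assoc, a1', Matrix.mul_one]
  have v1 : U * W' = 0 := by
    rw [← u2', ← Matrix.mul_assoc, Matrix.mul_sub, u1, Matrix.mul_one, sub_self, Matrix.zero_mul]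
  have v2 : U' * W = 0 := by
    rw [← u1', Matrix.mul_assoc, Matrix.sub_mul, u2, Matrix.one_mul, sub_self, Matrix.mul_zero]
  have g1 : fromRows U U' * fromCols W W' = 1 := by
    rw [fromRows_mul_fromCols, a1, a1', v1, v2, fromBlocks_one]
  have g2 : fromCols W W' * fromRows U U' = 1 := by
    rw [fromCols_mul_fromRows, a2, a2', add_sub_cancel]
  have c1 : U * ψ * Uᴴ = 0 := by
    have : U * ψ * Uᴴ = U * (E * ψ * Eᴴ) * Uᴴ := by
      conv_lhs => rw [← u1]
      simp only [conjTranspose_mul, Matrix.mul_assoc]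
    rw [this, e1, Matrix.mul_zero, Matrix.zero_mul]
  have c2 : U' * ψ * U'ᴴ = 0 := by
    have : U' * ψ * U'ᴴ = U' * ((1 - E) * ψ * (1 - E)ᴴ) * U'ᴴ := by
      conv_lhs => rw [← u1']
      simp only [conjTranspose_mul, Matrix.mul_assoc]
    rw [this, e2, Matrix.mul_zero, Matrix.zero_mul]
  have e : fromRows U U' * ψ * (fromRows U U')ᴴ =
      fromBlocks 0 (U * ψ * U'ᴴ) (U' * ψ * Uᴴ) 0 := by
    rw [fromRows_mul, conjTranspose_fromRows_eq_fromCols_conjTranspose, fromRows_mul_fromCols,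
      c1, c2]
  refine Z.iso (iso_conj _ g1 g2).symm ?_
  rw [e]
  refine z_lag_two _ _ ((fromCols W W')ᴴ * μ * fromCols W W') ?_ ?_
  · rw [← e, sy_conj]
    calc fromRows U U' * sy ε ψ * (fromRows U U')ᴴ * ((fromCols W W')ᴴ * μ * fromCols W W')
        = fromRows U U' * (sy ε ψ * ((fromCols W W' * fromRows U U')ᴴ * μ)) * fromCols W W' := by
          simp only [conjTranspose_mul, Matrix.mul_assoc]
      _ = 1 := by rw [g2, conjTranspose_one, Matrix.one_mul, h1, Matrix.mul_one, g1]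
  · rw [← e, sy_conj]
    calc (fromCols W W')ᴴ * μ * fromCols W W' * (fromRows U U' * sy ε ψ * (fromRows U U')ᴴ)
        = (fromCols W W')ᴴ * (μ * ((fromCols W W' * fromRows U U') * sy ε ψ)) *
            (fromRows U U')ᴴ := by
          simp only [Matrix.mul_assoc]
      _ = 1 := by
          rw [g2, Matrix.one_mul, h2, Matrix.mul_one, ← conjTranspose_mul, g1, conjTranspose_one]

/-- an idempotent matrix with stably free image -/
def SFIdem (E : Matrix I I R) : Prop :=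
  ∃ (a : Type) (_ : Fintype a) (_ : DecidableEq a),
    FreeIdem (fromBlocks E 0 0 (1 : Matrix a a R))

theorem USchur_ret {F : Matrix I I R} (h : FreeIdem F) (S : Matrix J I R) (T : Matrix I J R)
    (hT : T * S = 1) : FreeIdem (S * F * T) := by
  obtain ⟨b, _, _, U, W, a1, a2⟩ := h
  refine ⟨b, inferInstance, inferInstance, U * T, S * W, ?_, ?_⟩
  · rw [Matrix.mul_assoc, ← Matrix.mul_assoc T, hT, Matrix.one_mul, a1]
  · rw [← a2]
    simp only [Matrix.mul_assoc]

theorem USchur_reindex {F : Matrix I I R} (h : FreeIdem F) (e : J ≃ I) :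
    FreeIdem (F.submatrix e e) := by
  obtain ⟨b, _, _, U, W, a1, a2⟩ := h
  refine ⟨b, inferInstance, inferInstance, U.submatrix id e, W.submatrix e id, ?_, ?_⟩
  · rw [submatrix_mul_equiv, a1, submatrix_id_id]
  · rw [← submatrix_mul _ _ _ _ _ Function.bijective_id, a2]

theorem USchur_one {F : Matrix I I R} (h : FreeIdem F) (a : Type) [Fintype a] [DecidableEq a] :
    FreeIdem (fromBlocks F 0 0 (1 : Matrix a a R)) := by
  obtain ⟨b, _, _, U, W, a1, a2⟩ := h
  refine ⟨b ⊕ a, inferInstance, inferInstance, fromBlocks U 0 0 1, fromBlocks W 0 0 1, ?_, ?_⟩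
  · simp [fromBlocks_multiply, a1]
  · simp [fromBlocks_multiply, a2]

theorem USchur_left {E : Matrix I I R} {a : Type} [Fintype a] [DecidableEq a]
    (h : FreeIdem (fromBlocks E 0 0 (1 : Matrix a a R))) (a' : Type) [Fintype a']
    [DecidableEq a'] : FreeIdem (fromBlocks E 0 0 (1 : Matrix (a ⊕ a') (a ⊕ a') R)) := by
  have h1 := USchur_reindex (USchur_one h a') (Equiv.sumAssoc I a a').symm
  have e : (fromBlocks (fromBlocks E 0 0 (1 : Matrix a a R)) 0 0 (1 : Matrix a' a' R)).submatrix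
      (Equiv.sumAssoc I a a').symm (Equiv.sumAssoc I a a').symm =
      fromBlocks E 0 0 (1 : Matrix (a ⊕ a') (a ⊕ a') R) := by
    ext i j
    rcases i with i | i | i <;> rcases j with j | j | j <;> simp [Matrix.one_apply]
  rwa [e] at h1

theorem USchur_right {E : Matrix I I R} {a' : Type} [Fintype a'] [DecidableEq a']
    (h : FreeIdem (fromBlocks E 0 0 (1 : Matrix a' a' R))) (a : Type) [Fintype a]
    [DecidableEq a] : FreeIdem (fromBlocks E 0 0 (1 : Matrix (a ⊕ a') (a ⊕ a') R)) := by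
  have h1 := USchur_reindex (USchur_left h a) ((Equiv.refl I).sumCongr (Equiv.sumComm a a'))
  have e : (fromBlocks E 0 0 (1 : Matrix (a' ⊕ a) (a' ⊕ a) R)).submatrix
      ((Equiv.refl I).sumCongr (Equiv.sumComm a a'))
      ((Equiv.refl I).sumCongr (Equiv.sumComm a a')) =
      fromBlocks E 0 0 (1 : Matrix (a ⊕ a') (a ⊕ a') R) := by
    ext i j
    rcases i with i | i | i <;> rcases j with j | j | j <;> simp [Matrix.one_apply]
  rwa [e] at h1

theorem USchur_pad {ψ μ E : Matrix I I R} (h1 : sy ε ψ * μ = 1) (h2 : μ * sy ε ψ = 1)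
    (hE : FreeIdem (fromBlocks E 0 0 (1 : Matrix J J R)))
    (hE' : FreeIdem (fromBlocks (1 - E) 0 0 (1 : Matrix J J R))) (e1 : E * ψ * Eᴴ = 0)
    (e2 : (1 - E) * ψ * (1 - E)ᴴ = 0) : Z ε ψ := by
  have f1 := USchur_ret hE
    (fromBlocks (1 : Matrix I I R) 0 0 (fromRows (1 : Matrix J J R) (0 : Matrix J J R)))
    (fromBlocks (1 : Matrix I I R) 0 0 (fromCols (1 : Matrix J J R) (0 : Matrix J J R)))
    (by simp [fromBlocks_multiply, fromCols_mul_fromRows])
  have f2 := USchur_ret hE'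
    (fromBlocks (1 : Matrix I I R) 0 0 (fromRows (0 : Matrix J J R) (1 : Matrix J J R)))
    (fromBlocks (1 : Matrix I I R) 0 0 (fromCols (0 : Matrix J J R) (1 : Matrix J J R)))
    (by simp [fromBlocks_multiply, fromCols_mul_fromRows])
  simp only [fromBlocks_multiply, Matrix.mul_zero, Matrix.zero_mul, add_zero, zero_add,
    Matrix.mul_one, Matrix.one_mul, fromRows_mul_fromCols] at f1 f2
  have d : (1 : Matrix (I ⊕ (J ⊕ J)) (I ⊕ (J ⊕ J)) R) -
      fromBlocks E 0 0 (fromBlocks (1 : Matrix J J R) 0 0 0) =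
      fromBlocks (1 - E) 0 0 (fromBlocks 0 0 0 (1 : Matrix J J R)) := by
    rw [sub_eq_iff_eq_add, fromBlocks_add, fromBlocks_add]
    simp
  have hs : sy ε (fromBlocks ψ 0 0 (hypF R J)) =
      fromBlocks (sy ε ψ) 0 0 (fromBlocks 0 1 ((ε : ℤ) • (1 : Matrix J J R)) 0) := by
    rw [sy_blocks, hypF, sy_blocks, sy_zero]
    simp only [conjTranspose_zero, smul_zero, add_zero, zero_add, conjTranspose_one]
  refine Z.cancel (z_free (μ := fromBlocks μ 0 0 (fromBlocks 0 ((ε : ℤ) • (1 : Matrix J J R)) 1 0))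
    ?_ ?_ f1 (d ▸ f2) ?_ ?_) (z_hyp J)
  · rw [hs]
    simp only [fromBlocks_multiply, Matrix.mul_zero, Matrix.zero_mul, add_zero, zero_add,
      Matrix.mul_one, Matrix.smul_mul, Matrix.one_mul, eps_eps, h1, fromBlocks_one]
  · rw [hs]
    simp only [fromBlocks_multiply, Matrix.mul_zero, Matrix.zero_mul, add_zero, zero_add,
      Matrix.mul_one, Matrix.smul_mul, Matrix.one_mul, eps_eps, h2, fromBlocks_one]
  · simp [fromBlocks_multiply, fromBlocks_conjTranspose, hypF, e1]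
  · rw [d]
    simp only [fromBlocks_multiply, fromBlocks_conjTranspose, hypF, e2, Matrix.mul_zero,
      Matrix.zero_mul, add_zero, zero_add, conjTranspose_zero, conjTranspose_one, fromBlocks_zero]

theorem z_split {ψ μ E : Matrix I I R} (h1 : sy ε ψ * μ = 1) (h2 : μ * sy ε ψ = 1)
    (hE : SFIdem E) (hE' : SFIdem (1 - E)) (e1 : E * ψ * Eᴴ = 0)
    (e2 : (1 - E) * ψ * (1 - E)ᴴ = 0) : Z ε ψ := by
  obtain ⟨a, _, _, hE⟩ := hE
  obtain ⟨a', _, _, hE'⟩ := hE'
  exact USchur_pad h1 h2 (USchur_left hE a') (USchur_right hE' a) e1 e2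

end Pool.Agent.Work.MP_9d1ffa_al
end
end

-- merged part: Pool.Agent.Work.MP_9d1ffa_al.ODefs
section
/-! Unitary matrices, boxes, linear systems and splittings of groups along one edge. -/

namespace Pool.Agent.Work.MP_9d1ffa_al

open Matrix MonoidAlgebra

set_option linter.unusedSectionVars false
set_option linter.unusedVariables false

section Alg

variable {R : Type} [Ring R] [StarRing R] {I J : Type}

/-- nonsingular quadratic form -/
def NS (ε : ℤˣ) [Fintype I] [DecidableEq I] (ψ : Matrix I I R) : Prop := IsUnit (sy ε ψ)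

/-- isometry of the hyperbolic quadratic form -/
def Uni (η : ℤˣ) [Fintype I] [DecidableEq I] (U : Matrix (I ⊕ I) (I ⊕ I) R) : Prop :=
  IsUnit U ∧ Eqv η (hypF R I) (U * hypF R I * Uᴴ)

/-- block sum of two matrices acting on hyperbolic modules -/
def dsum (U : Matrix (I ⊕ I) (I ⊕ I) R) (V : Matrix (J ⊕ J) (J ⊕ J) R) :
    Matrix ((I ⊕ J) ⊕ (I ⊕ J)) ((I ⊕ J) ⊕ (I ⊕ J)) R :=
  (fromBlocks U 0 0 V).submatrix (Equiv.sumSumSumComm I J I J) (Equiv.sumSumSumComm I J I J)

/-- the elementary isometries -/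
inductive GenU (η : ℤˣ) [Fintype I] [DecidableEq I] : Matrix (I ⊕ I) (I ⊕ I) R → Prop
  | gl (g g' : Matrix I I R) (h1 : g * g' = 1) (h2 : g' * g = 1) : GenU η (fromBlocks g 0 0 g'ᴴ)
  | sh (χ : Matrix I I R) : GenU η (fromBlocks 1 (χ - (η : ℤ) • χᴴ) 0 1)
  | sw (κ : Type) [Fintype κ] [DecidableEq κ] (s : Matrix κ I R) (h : s * sᴴ = 1) :
      GenU η (fromBlocks (1 - sᴴ * s) (sᴴ * s) ((η : ℤ) • (sᴴ * s)) (1 - sᴴ * s))

/-- products of elementary isometries -/
def RU (R : Type) [Ring R] [StarRing R] (η : ℤˣ) (I : Type) [Fintype I] [DecidableEq I] :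
    Submonoid (Matrix (I ⊕ I) (I ⊕ I) R) :=
  Submonoid.closure {U | GenU η U}

/-- stably a product of elementary isometries -/
def Nul (η : ℤˣ) [Fintype I] [DecidableEq I] (U : Matrix (I ⊕ I) (I ⊕ I) R) : Prop :=
  ∃ (κ : Type) (_ : Fintype κ) (_ : DecidableEq κ),
    dsum U (1 : Matrix (κ ⊕ κ) (κ ⊕ κ) R) ∈ RU R η (I ⊕ κ)

/-- the linear system of the form `ψ` with the boundary condition given by the upper rows of `W` -/
def sysM (ε : ℤˣ) [Fintype I] (W : Matrix (I ⊕ I) (I ⊕ I) R) (ψ : Matrix I I R) : Matrix I I R :=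
  W.toBlocks₁₁ * sy ε ψ - W.toBlocks₁₂

/-- the rows `(x, φ)` span the boundary values of the solutions of the form `θ` -/
def BoxD (ε : ℤˣ) [Fintype I] {M : Type} [Fintype M] [DecidableEq M] (x φ : Matrix I I R)
    (θ : Matrix (I ⊕ M) (I ⊕ M) R) (m : Matrix I M R) : Prop :=
  fromCols x m * sy ε θ = fromCols φ 0 ∧
    ∃ (C : Matrix M (I ⊕ M) R) (c : Matrix M I R), C * sy ε θ = fromCols c 1

/-- the rows `(x, φ)` are the boundary values of some form -/
def HasBox (ε : ℤˣ) [Fintype I] (x φ : Matrix I I R) : Prop :=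
  ∃ (M : Type) (_ : Fintype M) (_ : DecidableEq M) (θ : Matrix (I ⊕ M) (I ⊕ M) R)
    (m : Matrix I M R), BoxD ε x φ θ m

/-- all idempotent matrices have stably free image -/
def SFI (R : Type) [Ring R] [StarRing R] : Prop :=
  ∀ (I : Type) [Fintype I] [DecidableEq I] (E : Matrix I I R), E * E = E → SFIdem E

/-- conjugation by the matrix `diag (1, η)` -/
def fA (η : ℤˣ) (U : Matrix (I ⊕ I) (I ⊕ I) R) : Matrix (I ⊕ I) (I ⊕ I) R :=
  fromBlocks U.toBlocks₁₁ ((η : ℤ) • U.toBlocks₁₂) ((η : ℤ) • U.toBlocks₂₁) U.toBlocks₂₂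

/-- conjugation by the quarter turn -/
def fB (U : Matrix (I ⊕ I) (I ⊕ I) R) : Matrix (I ⊕ I) (I ⊕ I) R :=
  fromBlocks U.toBlocks₂₂ (-U.toBlocks₂₁) (-U.toBlocks₁₂) U.toBlocks₁₁

end Alg

section Grp

variable {G H : Type} [Group G] [Group H] {I J : Type}

/-- the map of group rings -/
noncomputable abbrev gm (f : G →* H) : ZG G →+* ZG H := mapDomainRingHom ℤ f

/-- the image of a matrix under a homomorphism of groups -/
noncomputable def mp (f : G →* H) (A : Matrix I J (ZG G)) : Matrix I J (ZG H) := A.map (gm f)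

/-- the scalar matrix of a group element -/
noncomputable def dg (J : Type) [DecidableEq J] (g : G) : Matrix J J (ZG G) :=
  diagonal fun _ => single g 1

/-- the matrix is supported on `S` -/
def Sup (S : G → Prop) (A : Matrix I J (ZG G)) : Prop := ∀ k l g, (A k l).coeff g ≠ 0 → S g

/-- the part of a matrix supported on `S` -/
noncomputable def fm (S : G → Prop) (A : Matrix I J (ZG G)) : Matrix I J (ZG G) := A.map (fil S)

/-- the part of a matrix supported on the image of an injective homomorphism -/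
noncomputable def rs (f : G →* H) (hf : Function.Injective f) (A : Matrix I J (ZG H)) :
    Matrix I J (ZG G) :=
  A.map (comapDomain f hf)

/-- free abelian of finite rank -/
def FA (K : Type) [Group K] : Prop := ∃ n : ℕ, Nonempty (K ≃* Multiplicative (Fin n → ℤ))

/-- torsion free -/
def TF (G : Type) [Group G] : Prop := ∀ g : G, IsOfFinOrder g → g = 1

/-- the intersection of `M` with a conjugate by an element outside `M` is commutative -/
def CM (M : Subgroup G) : Prop :=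
  ∀ g, g ∉ M → ∀ d ∈ M, ∀ d' ∈ M, g⁻¹ * d * g ∈ M → g⁻¹ * d' * g ∈ M → d * d' = d' * d

end Grp

/-- the relations of an HNN extension -/
structure PH (Γ V A : Type) [Group Γ] [Group V] [Group A] where
  v : V →* Γ
  i : A →* V
  j : A →* V
  t : Γ
  rel : ∀ a, v (i a) * t = t * v (j a)

/-- an HNN extension, with the set `pos` of elements moving the base vertex across the base edge -/
structure Cut (Γ V A : Type) [Group Γ] [Group V] [Group A] extends PH Γ V A where
  pos : Γ → Prop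
  vinj : Function.Injective v
  iinj : Function.Injective i
  right : ∀ g h, pos (g * v h) ↔ pos g
  one : ¬ pos 1
  tpos : pos t
  up : ∀ g, pos g → pos (g * t)
  cross : ∀ g, ¬ pos g → pos (g * t) → ∃ a, v (i a) = g
  gen : Subgroup.closure (insert t (Set.range v)) = ⊤

section Lin

variable {Γ V A : Type} [Group Γ] [Group V] [Group A] {I J L : Type} [Fintype I] [DecidableEq I]
  [Fintype J] [DecidableEq J]

/-- the edge group in the whole group -/
def PH.va (D : PH Γ V A) : A →* Γ := D.v.comp D.i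

/-- a quadratic form that is linear in the stable letter -/
noncomputable def PH.lin (D : PH Γ V A) (θ : Matrix I I (ZG V)) (P Q : Matrix I J (ZG V)) :
    Matrix I I (ZG Γ) :=
  mp D.v θ + mp D.v P * dg J D.t * (mp D.v Q)ᴴ

/-- the sources placed at the two ends of the base edge -/
noncomputable def PH.sig (D : PH Γ V A) (ε : ℤˣ) (P Q : Matrix I J (ZG V)) :
    Matrix (J ⊕ J) I (ZG Γ) :=
  fromRows (-(dg J D.t * (mp D.v Q)ᴴ)) ((ε : ℤ) • (mp D.v P)ᴴ)

/-- the boundary values at the base edge -/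
noncomputable def PH.bd (D : PH Γ V A) (W : Matrix (I ⊕ I) (I ⊕ I) (ZG V))
    (P Q : Matrix I J (ZG V)) : Matrix I (J ⊕ J) (ZG Γ) :=
  fromCols (mp D.v (W.toBlocks₁₁ * P)) (mp D.v (W.toBlocks₁₁ * Q) * dg J D.t⁻¹)

/-- the system of a linear form with a boundary condition at the base vertex -/
noncomputable def PH.sys (D : PH Γ V A) (ε : ℤˣ) (W : Matrix (I ⊕ I) (I ⊕ I) (ZG V))
    (θ : Matrix I I (ZG V)) (P Q : Matrix I J (ZG V)) : Matrix I I (ZG Γ) :=
  sysM ε (mp D.v W) (D.lin θ P Q)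

/-- the vertex form does not couple the edges, and `U` lists its boundary values -/
def Loc (i j : A →* V) (ε : ℤˣ) (W : Matrix (I ⊕ I) (I ⊕ I) (ZG V)) (θ : Matrix I I (ZG V))
    (P Q : Matrix I J (ZG V)) (U : Matrix (J ⊕ J) (J ⊕ J) (ZG A)) : Prop :=
  ∃ n₁ n₂ : Matrix J I (ZG V),
    n₁ * (W.toBlocks₁₁ * P) = 0 ∧ n₁ * (W.toBlocks₁₁ * Q) = mp j U.toBlocks₁₂ ∧
    n₁ * sysM ε W θ = -(mp j U.toBlocks₁₁ * Qᴴ) ∧
    n₂ * (W.toBlocks₁₁ * P) = -mp i U.toBlocks₂₁ ∧ n₂ * (W.toBlocks₁₁ * Q) = 0 ∧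
    n₂ * sysM ε W θ = (ε : ℤ) • (mp i U.toBlocks₂₂ * Pᴴ)

/-- the upper rows are supported on the positive side and the lower rows on the other side -/
def Cut.Side (C : Cut Γ V A) (M : Matrix (J ⊕ J) L (ZG Γ)) : Prop :=
  Sup C.pos M.toRows₁ ∧ Sup (fun g => ¬ C.pos g) M.toRows₂

/-- the rows of `U` are the boundary values of the solutions on the two sides of the base edge -/
def Cut.EF (C : Cut Γ V A) (ε : ℤˣ) (W : Matrix (I ⊕ I) (I ⊕ I) (ZG V)) (θ : Matrix I I (ZG V))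
    (P Q : Matrix I J (ZG V)) (U : Matrix (J ⊕ J) (J ⊕ J) (ZG A)) : Prop :=
  Uni (-ε) U ∧ ∃ Y : Matrix (J ⊕ J) I (ZG Γ),
    Y * C.sys ε W θ P Q = mp C.va U * C.sig ε P Q ∧ C.Side Y ∧
    C.Side ((Y * mp C.v (W.toBlocks₁₁ * P) + mp C.va U.toCols₁) * dg J C.t) ∧
    C.Side (Y * mp C.v (W.toBlocks₁₁ * Q) * dg J C.t⁻¹ - mp C.va U.toCols₂)

/-- the form `φ` is, up to a hyperbolic summand, linear in the stable letter -/
def PH.LinOK (D : PH Γ V A) (ε : ℤˣ) (φ : Matrix I I (ZG Γ)) : Prop :=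
  ∃ (N : Type) (_ : Fintype N) (_ : DecidableEq N) (κ : Matrix N N (ZG Γ)) (X : Matrix I N (ZG Γ))
    (J : Type) (_ : Fintype J) (_ : DecidableEq J) (θ : Matrix (I ⊕ N) (I ⊕ N) (ZG V))
    (P Q : Matrix (I ⊕ N) J (ZG V)), NS ε κ ∧ Z ε κ ∧
      Eqv ε (fromBlocks (φ + X * κ * Xᴴ) (X * κ) (κ * Xᴴ) κ) (D.lin θ P Q)

/-- the product with a group -/
def PH.prod (D : PH Γ V A) (K : Type) [Group K] : PH (Γ × K) (V × K) (A × K) where
  v := D.v.prodMap (MonoidHom.id K)
  i := D.i.prodMap (MonoidHom.id K)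
  j := D.j.prodMap (MonoidHom.id K)
  t := (D.t, 1)
  rel a := Prod.ext (D.rel a.1) (by simp)

/-- a morphism of HNN relations -/
structure PHom {Γ' V' A' : Type} [Group Γ'] [Group V'] [Group A'] (D : PH Γ V A)
    (D' : PH Γ' V' A') where
  f : Γ →* Γ'
  fv : V →* V'
  fa : A →* A'
  hv : ∀ h, f (D.v h) = D'.v (fv h)
  hi : ∀ a, fv (D.i a) = D'.i (fa a)
  hj : ∀ a, fv (D.j a) = D'.j (fa a)
  ht : f D.t = D'.t

/-- the coset graph -/
def Cut.T (C : Cut Γ V A) : SimpleGraph (Γ ⧸ C.v.range) :=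
  SimpleGraph.fromRel fun x y => ∃ g : Γ, x = (g : Γ ⧸ C.v.range) ∧ y = (g * C.t : Γ)

end Lin

end Pool.Agent.Work.MP_9d1ffa_al
end

-- merged part: Pool.Agent.Work.MP_9d1ffa_al.OMp
section
/-! Calculus of images, supports, filters and restrictions of matrices over group rings. -/

namespace Pool.Agent.Work.MP_9d1ffa_al

open Matrix MonoidAlgebra

set_option linter.unusedSectionVars false
set_option linter.unusedVariables false

variable {G H K : Type} [Group G] [Group H] [Group K] {I J L M : Type}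

theorem gm_star (f : G →* H) (x : ZG G) : gm f (star x) = star (gm f x) := mapDomain_star f x

theorem gm_single (f : G →* H) (g : G) (n : ℤ) : gm f (single g n) = single (f g) n := by
  simp [gm]

theorem pushM_eq (f : G →* H) (A : Matrix I I (ZG G)) : A.map (mapDomainRingHom ℤ f) = mp f A := rfl

theorem mp_apply (f : G →* H) (A : Matrix I J (ZG G)) (k : I) (l : J) :
    mp f A k l = gm f (A k l) := rfl

theorem mp_mul [Fintype J] (f : G →* H) (A : Matrix I J (ZG G)) (B : Matrix J L (ZG G)) :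
    mp f (A * B) = mp f A * mp f B := Matrix.map_mul

theorem mp_add (f : G →* H) (A B : Matrix I J (ZG G)) : mp f (A + B) = mp f A + mp f B :=
  Matrix.map_add _ (map_add _) _ _

theorem mp_sub (f : G →* H) (A B : Matrix I J (ZG G)) : mp f (A - B) = mp f A - mp f B :=
  Matrix.map_sub _ (map_sub _) _ _

theorem mp_neg (f : G →* H) (A : Matrix I J (ZG G)) : mp f (-A) = -mp f A :=
  Matrix.map_neg _ (map_neg _) _

theorem mp_zero (f : G →* H) : mp f (0 : Matrix I J (ZG G)) = 0 := Matrix.map_zero _ (map_zero _)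

theorem mp_one [DecidableEq I] (f : G →* H) : mp f (1 : Matrix I I (ZG G)) = 1 :=
  Matrix.map_one _ (map_zero _) (map_one _)

theorem mp_zsmul (f : G →* H) (n : ℤ) (A : Matrix I J (ZG G)) : mp f (n • A) = n • mp f A := by
  funext k l
  simp only [mp_apply, Matrix.smul_apply, map_zsmul]

theorem mp_ct (f : G →* H) (A : Matrix I J (ZG G)) : mp f Aᴴ = (mp f A)ᴴ := by
  funext k l
  simp only [mp_apply, conjTranspose_apply, gm_star]

theorem mp_sy (f : G →* H) (ε : ℤˣ) (A : Matrix I I (ZG G)) : mp f (sy ε A) = sy ε (mp f A) := by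
  rw [sy, sy, mp_add, mp_zsmul, mp_ct]

theorem gm_comp (f : H →* K) (f' : G →* H) (x : ZG G) : gm f (gm f' x) = gm (f.comp f') x := by
  induction x using MonoidAlgebra.induction_linear with
  | zero => simp
  | add a b ha hb => rw [map_add, map_add, ha, hb, map_add]
  | single g n => rw [gm_single, gm_single, gm_single, MonoidHom.comp_apply]

theorem mp_mp (f : H →* K) (f' : G →* H) (A : Matrix I J (ZG G)) :
    mp f (mp f' A) = mp (f.comp f') A := by
  funext k l
  exact gm_comp f f' _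

theorem gm_id (x : ZG G) : gm (MonoidHom.id G) x = x := by
  induction x using MonoidAlgebra.induction_linear with
  | zero => simp
  | add a b ha hb => rw [map_add, ha, hb]
  | single g n => rw [gm_single, MonoidHom.id_apply]

theorem mp_id (A : Matrix I J (ZG G)) : mp (MonoidHom.id G) A = A := by
  funext k l
  exact gm_id _

theorem mp_blocks (f : G →* H) (a : Matrix I L (ZG G)) (b : Matrix I M (ZG G))
    (c : Matrix J L (ZG G)) (d : Matrix J M (ZG G)) :
    mp f (fromBlocks a b c d) = fromBlocks (mp f a) (mp f b) (mp f c) (mp f d) :=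
  fromBlocks_map _ _ _ _ _

theorem mp_fromRows (f : G →* H) (a : Matrix I L (ZG G)) (b : Matrix J L (ZG G)) :
    mp f (fromRows a b) = fromRows (mp f a) (mp f b) := fromRows_map _ _ _

theorem mp_fromCols (f : G →* H) (a : Matrix I L (ZG G)) (b : Matrix I M (ZG G)) :
    mp f (fromCols a b) = fromCols (mp f a) (mp f b) := fromCols_map _ _ _

theorem mp_toBlocks₁₁ (f : G →* H) (A : Matrix (I ⊕ J) (L ⊕ M) (ZG G)) :
    (mp f A).toBlocks₁₁ = mp f A.toBlocks₁₁ := rfl

theorem mp_toBlocks₁₂ (f : G →* H) (A : Matrix (I ⊕ J) (L ⊕ M) (ZG G)) :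
    (mp f A).toBlocks₁₂ = mp f A.toBlocks₁₂ := rfl

theorem mp_toBlocks₂₁ (f : G →* H) (A : Matrix (I ⊕ J) (L ⊕ M) (ZG G)) :
    (mp f A).toBlocks₂₁ = mp f A.toBlocks₂₁ := rfl

theorem mp_toBlocks₂₂ (f : G →* H) (A : Matrix (I ⊕ J) (L ⊕ M) (ZG G)) :
    (mp f A).toBlocks₂₂ = mp f A.toBlocks₂₂ := rfl

theorem mp_submatrix (f : G →* H) (A : Matrix I J (ZG G)) (e : L → I) (e' : M → J) :
    mp f (A.submatrix e e') = (mp f A).submatrix e e' := rfl

theorem mp_hyp [DecidableEq I] (f : G →* H) : mp f (hypF (ZG G) I) = hypF (ZG H) I := by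
  rw [hypF, mp_blocks, mp_zero, mp_one]; rfl

theorem mp_dsum (f : G →* H) (U : Matrix (I ⊕ I) (I ⊕ I) (ZG G))
    (V : Matrix (J ⊕ J) (J ⊕ J) (ZG G)) : mp f (dsum U V) = dsum (mp f U) (mp f V) := by
  rw [dsum, mp_submatrix, mp_blocks, mp_zero, mp_zero]; rfl

theorem mp_sysM [Fintype I] (f : G →* H) (ε : ℤˣ) (W : Matrix (I ⊕ I) (I ⊕ I) (ZG G))
    (ψ : Matrix I I (ZG G)) : mp f (sysM ε W ψ) = sysM ε (mp f W) (mp f ψ) := by
  rw [sysM, mp_sub, mp_mul, mp_sy]; rfl

theorem IsUnit.mp [Fintype I] [DecidableEq I] (f : G →* H) {A : Matrix I I (ZG G)}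
    (h : IsUnit A) : IsUnit (mp f A) := h.map (gm f).mapMatrix

theorem mp_dg [DecidableEq J] (f : G →* H) (g : G) : mp f (dg J g) = dg J (f g) := by
  rw [mp, dg, diagonal_map (map_zero _)]
  simp only [gm_single, dg]

theorem dg_mul [Fintype J] [DecidableEq J] (g h : G) : dg J g * dg J h = dg J (g * h) := by
  simp [dg, single_mul_single]

theorem dg_one [DecidableEq J] : dg J (1 : G) = 1 := by
  simp only [dg]; exact diagonal_one

theorem dg_ct [DecidableEq J] (g : G) : (dg J g)ᴴ = dg J g⁻¹ := by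
  rw [dg, diagonal_conjTranspose]
  congr 1
  funext i
  exact star_single g 1

theorem dg_mul_inv [Fintype J] [DecidableEq J] (g : G) : dg J g * dg J g⁻¹ = 1 := by
  rw [dg_mul, mul_inv_cancel, dg_one]

theorem dg_inv_mul [Fintype J] [DecidableEq J] (g : G) : dg J g⁻¹ * dg J g = 1 := by
  rw [dg_mul, inv_mul_cancel, dg_one]

theorem coeff_mul_dg [Fintype J] [DecidableEq J] (A : Matrix I J (ZG G)) (t : G) (k : I) (l : J)
    (g : G) : ((A * dg J t) k l).coeff g = (A k l).coeff (g * t⁻¹) := by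
  rw [dg, mul_diagonal, coeff_mul_single_apply, mul_one]

theorem coeff_dg_mul [Fintype I] [DecidableEq I] (A : Matrix I J (ZG G)) (t : G) (k : I) (l : J)
    (g : G) : ((dg I t * A) k l).coeff g = (A k l).coeff (t⁻¹ * g) := by
  rw [dg, diagonal_mul, coeff_single_mul_apply, one_mul]

/-- moving a scalar matrix across the image of a matrix -/
theorem mp_mul_dg [Fintype I] [DecidableEq I] [Fintype J] [DecidableEq J] (f f' : G →* H) (t : H)
    (h : ∀ g, f g * t = t * f' g) (A : Matrix I J (ZG G)) :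
    mp f A * dg J t = dg I t * mp f' A := by
  funext k l
  rw [dg, dg, mul_diagonal, diagonal_mul, mp_apply, mp_apply]
  induction A k l using MonoidAlgebra.induction_linear with
  | zero => simp
  | add a b ha hb => rw [map_add, map_add, add_mul, mul_add, ha, hb]
  | single g n => rw [gm_single, gm_single, single_mul_single, single_mul_single, h, mul_comm n]

theorem dg_blocks [DecidableEq I] [DecidableEq J] (g : G) :
    dg (I ⊕ J) g = fromBlocks (dg I g) 0 0 (dg J g) := by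
  rw [dg, dg, dg, fromBlocks_diagonal]
  congr 1
  funext x
  cases x <;> rfl

/-! ### supports -/

variable {S S' : G → Prop} {A B : Matrix I J (ZG G)}

theorem Sup.mono (h : Sup S A) (hS : ∀ g, S g → S' g) : Sup S' A :=
  fun k l g e => hS g (h k l g e)

theorem sup_zero : Sup S (0 : Matrix I J (ZG G)) := fun k l g e => by simp at e

theorem Sup.add (hA : Sup S A) (hB : Sup S B) : Sup S (A + B) := fun k l g e => by
  by_cases h : (A k l).coeff g = 0
  · exact hB k l g (by simpa [h] using e)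
  · exact hA k l g h

theorem Sup.neg (hA : Sup S A) : Sup S (-A) := fun k l g e => hA k l g (by simpa using e)

theorem Sup.sub (hA : Sup S A) (hB : Sup S B) : Sup S (A - B) := by
  rw [sub_eq_add_neg]; exact hA.add hB.neg

theorem Sup.zsmul (hA : Sup S A) (n : ℤ) : Sup S (n • A) := fun k l g e =>
  hA k l g fun e' => e (by rw [Matrix.smul_apply, coeff_smul, Finsupp.smul_apply, e', smul_zero])

theorem Sup.mul [Fintype J] {C : Matrix J L (ZG G)} {T : G → Prop} (hA : Sup S A) (hC : Sup S' C)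
    (h : ∀ a b, S a → S' b → T (a * b)) : Sup T (A * C) := fun k l g e => by
  simp only [Matrix.mul_apply, coeff_sum, Finsupp.finsetSum_apply] at e
  obtain ⟨m, -, e⟩ := Finset.exists_ne_zero_of_sum_ne_zero e
  obtain ⟨a, b, ha, hb, rfl⟩ := coeff_mul_ne e
  exact h a b (hA _ _ _ ha) (hC _ _ _ hb)

theorem Sup.ct (hA : Sup S A) : Sup (fun g => S g⁻¹) Aᴴ := fun k l g e =>
  hA l k _ (by rwa [coeff_ct] at e)

theorem Sup.eq_zero (hA : Sup S A) (hA' : Sup S' A) (h : ∀ g, S g → ¬ S' g) : A = 0 :=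
  mat_ext fun k l g => by
    by_contra e
    have e' : (A k l).coeff g ≠ 0 := by simpa using e
    exact h g (hA k l g e') (hA' k l g e')

theorem sup_true (A : Matrix I J (ZG G)) : Sup (fun _ => True) A := fun _ _ _ _ => trivial

theorem sup_mp (f : H →* G) (A : Matrix I J (ZG H)) : Sup (fun g => ∃ h, f h = g) (mp f A) :=
  fun k l g e => by
    by_contra hg
    exact e (Finsupp.mapDomain_of_notMem_range (f := f) _ _ hg)

theorem Sup.map {T : H → Prop} (f : G →* H) (hA : Sup S A) (h : ∀ g, S g → T (f g)) :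
    Sup T (mp f A) := fun k l g e => by
  classical
  obtain ⟨x, hx, rfl⟩ := Finset.mem_image.1
    (Finsupp.mapDomain_support (Finsupp.mem_support_iff.2 e))
  exact h x (hA k l x (Finsupp.mem_support_iff.1 hx))

theorem sup_dg [DecidableEq J] (t : G) : Sup (· = t) (dg J t) := fun k l g e => by
  by_contra hg
  apply e
  rw [dg, diagonal_apply]
  split_ifs
  · simp [hg]
  · simp

theorem sup_one [DecidableEq J] : Sup (· = (1 : G)) (1 : Matrix J J (ZG G)) := by
  rw [← dg_one]; exact sup_dg 1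

theorem sup_fromRows {A : Matrix I L (ZG G)} {B : Matrix J L (ZG G)} :
    Sup S (fromRows A B) ↔ Sup S A ∧ Sup S B :=
  ⟨fun h => ⟨fun k => h (Sum.inl k), fun k => h (Sum.inr k)⟩, fun h k => by
    cases k
    · exact h.1 _
    · exact h.2 _⟩

theorem sup_fromCols {A : Matrix I L (ZG G)} {B : Matrix I M (ZG G)} :
    Sup S (fromCols A B) ↔ Sup S A ∧ Sup S B :=
  ⟨fun h => ⟨fun k l => h k (Sum.inl l), fun k l => h k (Sum.inr l)⟩, fun h k l => by
    cases l
    · exact h.1 _ _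
    · exact h.2 _ _⟩

/-- the supports of all entries lie in a finite set -/
theorem exists_sup_finset [Finite I] [Finite J] (A : Matrix I J (ZG G)) :
    ∃ s : Finset G, Sup (· ∈ s) A := by
  classical
  have := Fintype.ofFinite I
  have := Fintype.ofFinite J
  refine ⟨Finset.univ.biUnion fun x : I × J => (A x.1 x.2).coeff.support, fun k l g e => ?_⟩
  exact Finset.mem_biUnion.2 ⟨(k, l), Finset.mem_univ _, Finsupp.mem_support_iff.2 e⟩

/-- two homomorphisms that agree on the support give the same image -/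
theorem Sup.mp_congr {f f' : G →* H} (hA : Sup S A) (h : ∀ g, S g → f g = f' g) :
    mp f A = mp f' A := by
  funext k l
  apply MonoidAlgebra.ext
  exact Finsupp.mapDomain_congr fun g hg => h g (hA k l g (Finsupp.mem_support_iff.1 hg))

/-! ### filters -/

open Classical in
theorem coeff_fm (S : G → Prop) (A : Matrix I J (ZG G)) (k : I) (l : J) (g : G) :
    (fm S A k l).coeff g = if S g then (A k l).coeff g else 0 := coeff_fil _ _ _

theorem sup_fm (S : G → Prop) (A : Matrix I J (ZG G)) : Sup S (fm S A) := fun k l g e => by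
  rw [coeff_fm] at e
  by_contra h
  simp [h] at e

theorem Sup.fm (hA : Sup S A) (T : G → Prop) : Sup S (fm T A) := fun k l g e => by
  rw [coeff_fm] at e
  refine hA k l g fun e' => e ?_
  simp [e']

theorem Sup.fm_eq (hA : Sup S A) : MP_9d1ffa_al.fm S A = A :=
  mat_ext fun k l g => by
    rw [coeff_fm]
    split_ifs with e
    · rfl
    · by_contra e'
      exact e (hA k l g (Ne.symm e'))

theorem Sup.fm_zero (hA : Sup S A) (h : ∀ g, S g → ¬ S' g) : MP_9d1ffa_al.fm S' A = 0 :=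
  (hA.fm S').eq_zero (sup_fm S' A) h

theorem fm_add (S : G → Prop) (A B : Matrix I J (ZG G)) : fm S (A + B) = fm S A + fm S B :=
  Matrix.map_add _ (map_add _) _ _

theorem fm_sub (S : G → Prop) (A B : Matrix I J (ZG G)) : fm S (A - B) = fm S A - fm S B :=
  Matrix.map_sub _ (map_sub _) _ _

theorem fm_neg (S : G → Prop) (A : Matrix I J (ZG G)) : fm S (-A) = -fm S A :=
  Matrix.map_neg _ (map_neg _) _

theorem fm_zsmul (S : G → Prop) (n : ℤ) (A : Matrix I J (ZG G)) : fm S (n • A) = n • fm S A := by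
  funext k l
  simp only [fm, Matrix.map_apply, Matrix.smul_apply, map_zsmul]

theorem fm_add_not (S : G → Prop) (A : Matrix I J (ZG G)) :
    fm S A + fm (fun g => ¬ S g) A = A :=
  mat_ext fun k l g => by
    simp only [Matrix.add_apply, coeff_add, Finsupp.add_apply, coeff_fm]
    by_cases a : S g <;> simp [a]

theorem fm_ct (S : G → Prop) (A : Matrix I J (ZG G)) : (fm S A)ᴴ = fm (fun g => S g⁻¹) Aᴴ :=
  mat_ext fun k l g => by rw [coeff_ct, coeff_fm, coeff_fm, coeff_ct]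

theorem fm_fromRows (S : G → Prop) (a : Matrix I L (ZG G)) (b : Matrix J L (ZG G)) :
    fm S (fromRows a b) = fromRows (fm S a) (fm S b) := fromRows_map _ _ _

theorem fm_fromCols (S : G → Prop) (a : Matrix I L (ZG G)) (b : Matrix I M (ZG G)) :
    fm S (fromCols a b) = fromCols (fm S a) (fm S b) := fromCols_map _ _ _

/-- a filter passes through a right factor that does not change the set -/
theorem fm_mul_right [Fintype J] {C : Matrix J L (ZG G)} {T : G → Prop} (A : Matrix I J (ZG G))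
    (hC : Sup S' C) (h : ∀ a b, S' b → (T (a * b) ↔ S a)) : fm T (A * C) = fm S A * C := by
  conv_lhs => rw [← fm_add_not S A, Matrix.add_mul, fm_add]
  rw [((sup_fm S A).mul hC fun a b ha hb => (h a b hb).2 ha).fm_eq,
    ((sup_fm _ A).mul hC (T := fun g => ¬ T g) fun a b ha hb e => ha ((h a b hb).1 e)).fm_zero
      fun g e => e, add_zero]

/-- a filter passes through a left factor that does not change the set -/
theorem fm_mul_left [Fintype J] {T : G → Prop} (hA : Sup S' A) (C : Matrix J L (ZG G))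
    (h : ∀ a b, S' a → (T (a * b) ↔ S b)) : fm T (A * C) = A * fm S C := by
  conv_lhs => rw [← fm_add_not S C, Matrix.mul_add, fm_add]
  rw [(hA.mul (sup_fm S C) fun a b ha hb => (h a b ha).2 hb).fm_eq,
    (hA.mul (sup_fm _ C) (T := fun g => ¬ T g) fun a b ha hb e => hb ((h a b ha).1 e)).fm_zero
      fun g e => e, add_zero]

/-! ### restrictions -/

variable {f : H →* G} {hf : Function.Injective f}

theorem coeff_rs (A : Matrix I J (ZG G)) (k : I) (l : J) (h : H) :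
    (rs f hf A k l).coeff h = (A k l).coeff (f h) := rfl

theorem coeff_mp (hf : Function.Injective f) (A : Matrix I J (ZG H)) (k : I) (l : J) (h : H) :
    (mp f A k l).coeff (f h) = (A k l).coeff h := Finsupp.mapDomain_apply hf _ _

theorem rs_mp (A : Matrix I J (ZG H)) : rs f hf (mp f A) = A :=
  mat_ext fun k l h => by rw [coeff_rs, coeff_mp hf]

theorem mp_inj (hf : Function.Injective f) {A B : Matrix I J (ZG H)} (h : mp f A = mp f B) :
    A = B := by
  rw [← rs_mp (hf := hf) A, h, rs_mp]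

theorem mp_rs (A : Matrix I J (ZG G)) : mp f (rs f hf A) = fm (fun g => ∃ h, f h = g) A :=
  mat_ext fun k l g => by
    rw [coeff_fm]
    split_ifs with e
    · obtain ⟨h, rfl⟩ := e
      rw [coeff_mp hf, coeff_rs]
    · by_contra e'
      exact e (sup_mp f _ k l g e')

theorem rs_add (A B : Matrix I J (ZG G)) : rs f hf (A + B) = rs f hf A + rs f hf B :=
  mat_ext fun k l h => by simp [coeff_rs]

theorem rs_neg (A : Matrix I J (ZG G)) : rs f hf (-A) = -rs f hf A :=
  mat_ext fun k l h => by simp [coeff_rs]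

theorem rs_sub (A B : Matrix I J (ZG G)) : rs f hf (A - B) = rs f hf A - rs f hf B :=
  mat_ext fun k l h => by simp [coeff_rs]

theorem rs_zero : rs f hf (0 : Matrix I J (ZG G)) = 0 :=
  mat_ext fun k l h => by simp [coeff_rs]

theorem rs_zsmul (n : ℤ) (A : Matrix I J (ZG G)) : rs f hf (n • A) = n • rs f hf A :=
  mat_ext fun k l h => by
    rw [coeff_rs, Matrix.smul_apply, Matrix.smul_apply, coeff_smul, coeff_smul,
      Finsupp.smul_apply, Finsupp.smul_apply, coeff_rs]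

theorem rs_ct (A : Matrix I J (ZG G)) : rs f hf Aᴴ = (rs f hf A)ᴴ :=
  mat_ext fun k l h => by rw [coeff_rs, coeff_ct, coeff_ct, coeff_rs, map_inv f]

theorem rs_one [DecidableEq I] : rs f hf (1 : Matrix I I (ZG G)) = 1 := by
  rw [← mp_one f, rs_mp]

theorem Sup.rs_zero (hA : Sup S A) (h : ∀ x, ¬ S (f x)) : rs f hf A = 0 :=
  mat_ext fun k l x => by
    rw [coeff_rs]
    by_contra e
    exact h x (hA k l _ (by simpa using e))

theorem rs_fm (A : Matrix I J (ZG G)) (h : ∀ x, S (f x)) : rs f hf (fm S A) = rs f hf A :=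
  mat_ext fun k l x => by rw [coeff_rs, coeff_fm, if_pos (h x), coeff_rs]

theorem rs_mul_mp [Fintype J] (A : Matrix I J (ZG G)) (C : Matrix J L (ZG H)) :
    rs f hf (A * mp f C) = rs f hf A * C := by
  apply mp_inj hf
  rw [mp_rs, mp_mul, mp_rs]
  refine fm_mul_right A (sup_mp f C) ?_
  rintro a _ ⟨b, rfl⟩
  exact ⟨fun ⟨x, e⟩ => ⟨x * b⁻¹, by rw [map_mul, e, map_inv, mul_inv_cancel_right]⟩,
    fun ⟨x, e⟩ => ⟨x * b, by rw [map_mul, e]⟩⟩

theorem rs_mp_mul [Fintype J] (C : Matrix I J (ZG H)) (A : Matrix J L (ZG G)) :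
    rs f hf (mp f C * A) = C * rs f hf A := by
  apply mp_inj hf
  rw [mp_rs, mp_mul, mp_rs]
  refine fm_mul_left (sup_mp f C) A ?_
  rintro _ b ⟨a, rfl⟩
  exact ⟨fun ⟨x, e⟩ => ⟨a⁻¹ * x, by rw [map_mul, e, map_inv, inv_mul_cancel_left]⟩,
    fun ⟨x, e⟩ => ⟨a * x, by rw [map_mul, e]⟩⟩

theorem rs_fromRows (a : Matrix I L (ZG G)) (b : Matrix J L (ZG G)) :
    rs f hf (fromRows a b) = fromRows (rs f hf a) (rs f hf b) := fromRows_map _ _ _

theorem rs_fromCols (a : Matrix I L (ZG G)) (b : Matrix I M (ZG G)) :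
    rs f hf (fromCols a b) = fromCols (rs f hf a) (rs f hf b) := fromCols_map _ _ _

theorem rs_blocks (a : Matrix I L (ZG G)) (b : Matrix I M (ZG G)) (c : Matrix J L (ZG G))
    (d : Matrix J M (ZG G)) :
    rs f hf (fromBlocks a b c d) =
      fromBlocks (rs f hf a) (rs f hf b) (rs f hf c) (rs f hf d) := fromBlocks_map _ _ _ _ _

end Pool.Agent.Work.MP_9d1ffa_al
end

-- merged part: Pool.Agent.Work.MP_9d1ffa_al.OU1
section
/-! Isometries of hyperbolic forms. -/

namespace Pool.Agent.Work.MP_9d1ffa_al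

open Matrix MonoidAlgebra

set_option linter.unusedSectionVars false
set_option linter.unusedVariables false

variable {R S : Type} [Ring R] [StarRing R] [Ring S] [StarRing S] {η : ℤˣ} {I J K : Type}
  [Fintype I] [DecidableEq I] [Fintype J] [DecidableEq J] [Fintype K] [DecidableEq K]

theorem dsum_blocks (a b c d : Matrix I I R) (a' b' c' d' : Matrix J J R) :
    dsum (fromBlocks a b c d) (fromBlocks a' b' c' d') =
      fromBlocks (fromBlocks a 0 0 a') (fromBlocks b 0 0 b') (fromBlocks c 0 0 c')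
        (fromBlocks d 0 0 d') := by
  ext ((i | i) | (i | i)) ((j | j) | (j | j)) <;> rfl

theorem dsum_eq (U : Matrix (I ⊕ I) (I ⊕ I) R) (V : Matrix (J ⊕ J) (J ⊕ J) R) :
    dsum U V = fromBlocks (fromBlocks U.toBlocks₁₁ 0 0 V.toBlocks₁₁)
      (fromBlocks U.toBlocks₁₂ 0 0 V.toBlocks₁₂) (fromBlocks U.toBlocks₂₁ 0 0 V.toBlocks₂₁)
        (fromBlocks U.toBlocks₂₂ 0 0 V.toBlocks₂₂) := by
  ext ((i | i) | (i | i)) ((j | j) | (j | j)) <;> rfl

theorem dsum_mul (U U' : Matrix (I ⊕ I) (I ⊕ I) R) (V V' : Matrix (J ⊕ J) (J ⊕ J) R) :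
    dsum U V * dsum U' V' = dsum (U * U') (V * V') := by
  simp only [dsum, submatrix_mul_equiv, fromBlocks_multiply, Matrix.mul_zero, Matrix.zero_mul,
    add_zero, zero_add]

theorem dsum_one : dsum (1 : Matrix (I ⊕ I) (I ⊕ I) R) (1 : Matrix (J ⊕ J) (J ⊕ J) R) = 1 := by
  rw [dsum, fromBlocks_one, submatrix_one_equiv]

theorem dsum_ct (U : Matrix (I ⊕ I) (I ⊕ I) R) (V : Matrix (J ⊕ J) (J ⊕ J) R) :
    (dsum U V)ᴴ = dsum Uᴴ Vᴴ := by
  simp only [dsum, conjTranspose_submatrix, fromBlocks_conjTranspose, conjTranspose_zero]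

theorem dsum_map (f : R →+* S) (U : Matrix (I ⊕ I) (I ⊕ I) R) (V : Matrix (J ⊕ J) (J ⊕ J) R) :
    (dsum U V).map f = dsum (U.map f) (V.map f) := by
  ext ((i | i) | (i | i)) ((j | j) | (j | j)) <;> simp [dsum]

theorem sy_hyp : sy η (hypF R I) = fromBlocks 0 1 ((η : ℤ) • 1) 0 := by
  simp [hypF, sy_blocks, sy_zero]

theorem OU1_conj (a b c d : Matrix I I R) :
    fromBlocks a b c d * hypF R I * (fromBlocks a b c d)ᴴ =
      fromBlocks (a * bᴴ) (a * dᴴ) (c * bᴴ) (c * dᴴ) := by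
  simp [hypF, fromBlocks_multiply, fromBlocks_conjTranspose]

theorem OU1_eqv_blocks {a a' : Matrix I I R} {b b' : Matrix I J R} {c c' : Matrix J I R}
    {d d' : Matrix J J R} (h : Eqv η (fromBlocks a b c d) (fromBlocks a' b' c' d')) :
    Eqv η a a' ∧ Eqv η d d' ∧ b + (η : ℤ) • cᴴ = b' + (η : ℤ) • c'ᴴ := by
  refine ⟨?_, ?_, ?_⟩
  · obtain ⟨χ, h⟩ := h
    exact ⟨χ.toBlocks₁₁, congrArg toBlocks₁₁ h⟩
  · obtain ⟨χ, h⟩ := h
    exact ⟨χ.toBlocks₂₂, congrArg toBlocks₂₂ h⟩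
  · have := h.sy_eq
    rw [sy_blocks, sy_blocks] at this
    exact congrArg toBlocks₁₂ this

theorem OU1_unit {U V : Matrix I I R} (h1 : U * V = 1) (h2 : V * U = 1) : IsUnit U :=
  ⟨⟨U, V, h1, h2⟩, rfl⟩

theorem OU1_inv {U : Matrix I I R} (h : IsUnit U) : ∃ V, U * V = 1 ∧ V * U = 1 := by
  obtain ⟨u, rfl⟩ := h
  exact ⟨↑u⁻¹, u.mul_inv, u.inv_mul⟩

theorem OU1_zsmul {a : Matrix I I R} (h : Eqv η 0 a) (n : ℤ) : Eqv η 0 (n • a) := by
  obtain ⟨χ, rfl⟩ := h
  exact ⟨n • χ, by rw [zero_add, zero_add, smul_sub, ct_zsmul, smul_comm n (η : ℤ)]⟩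

theorem OU1_ct {a : Matrix I I R} (h : Eqv η 0 a) : Eqv η 0 aᴴ := by
  have := OU1_zsmul (h.trans (eqv_swap a)) η
  rwa [eps_eps] at this

theorem uni_iff {a b c d : Matrix I I R} :
    Uni η (fromBlocks a b c d) ↔ IsUnit (fromBlocks a b c d) ∧ Eqv η 0 (a * bᴴ) ∧
      Eqv η 0 (c * dᴴ) ∧ a * dᴴ + (η : ℤ) • (b * cᴴ) = 1 := by
  rw [Uni, OU1_conj, hypF]
  refine and_congr_right fun _ => ⟨fun h => ?_, fun ⟨h1, h2, h3⟩ => eqv_blocks h1 h2 ?_⟩
  · obtain ⟨h1, h2, h3⟩ := OU1_eqv_blocks h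
    refine ⟨h1, h2, ?_⟩
    simpa using h3.symm
  · simpa using h3.symm

theorem Uni.omega {U : Matrix (I ⊕ I) (I ⊕ I) R} (h : Uni η U) :
    U * sy η (hypF R I) * Uᴴ = sy η (hypF R I) := by
  rw [← sy_conj, ← h.2.sy_eq]

theorem uni_one : Uni η (1 : Matrix (I ⊕ I) (I ⊕ I) R) := by
  exact ⟨isUnit_one, Eqv.of_eq (by simp)⟩

theorem Uni.mul {U V : Matrix (I ⊕ I) (I ⊕ I) R} (h : Uni η U) (h' : Uni η V) :
    Uni η (U * V) := by
  refine ⟨h.1.mul h'.1, h.2.trans ?_⟩
  simpa only [conjTranspose_mul, Matrix.mul_assoc] using h'.2.conj U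

theorem Uni.of_inv {U V : Matrix (I ⊕ I) (I ⊕ I) R} (h : Uni η U) (h1 : U * V = 1) :
    Uni η V ∧ V * U = 1 := by
  obtain ⟨W, h2, h3⟩ := OU1_inv h.1
  have e : V = W := by
    rw [← Matrix.one_mul V, ← h3, Matrix.mul_assoc, h1, Matrix.mul_one]
  subst e
  refine ⟨⟨OU1_unit h3 h2, ?_⟩, h3⟩
  have := (h.2.conj V).symm
  rwa [← Matrix.mul_assoc, ← Matrix.mul_assoc, h3, Matrix.one_mul, Matrix.mul_assoc,
    ← conjTranspose_mul, h3, conjTranspose_one, Matrix.mul_one] at this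

theorem Uni.inv {U : Matrix (I ⊕ I) (I ⊕ I) R} (h : Uni η U) :
    ∃ V, Uni η V ∧ U * V = 1 ∧ V * U = 1 := by
  obtain ⟨V, h1, h2⟩ := OU1_inv h.1
  exact ⟨V, (h.of_inv h1).1, h1, h2⟩

theorem Uni.dsum {U : Matrix (I ⊕ I) (I ⊕ I) R} {V : Matrix (J ⊕ J) (J ⊕ J) R} (h : Uni η U)
    (h' : Uni η V) : Uni η (dsum U V) := by
  obtain ⟨U', u1, u2⟩ := OU1_inv h.1
  obtain ⟨V', v1, v2⟩ := OU1_inv h'.1
  have hu : IsUnit (MP_9d1ffa_al.dsum U V) :=
    OU1_unit (V := MP_9d1ffa_al.dsum U' V') (by rw [dsum_mul, u1, v1, dsum_one])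
      (by rw [dsum_mul, u2, v2, dsum_one])
  rw [← fromBlocks_toBlocks U] at h
  rw [← fromBlocks_toBlocks V] at h'
  obtain ⟨-, a1, a2, a3⟩ := uni_iff.1 h
  obtain ⟨-, b1, b2, b3⟩ := uni_iff.1 h'
  rw [dsum_eq] at hu ⊢
  refine uni_iff.2 ⟨hu, ?_, ?_, ?_⟩
  · simpa [fromBlocks_multiply, fromBlocks_conjTranspose] using
      eqv_blocks a1 b1 (b := 0) (c := 0) rfl
  · simpa [fromBlocks_multiply, fromBlocks_conjTranspose] using
      eqv_blocks a2 b2 (b := 0) (c := 0) rfl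
  · simp only [fromBlocks_multiply, fromBlocks_conjTranspose, fromBlocks_smul, fromBlocks_add,
      conjTranspose_zero, Matrix.mul_zero, Matrix.zero_mul, add_zero, zero_add, smul_zero, a3, b3,
      fromBlocks_one]

theorem Uni.reindex {U : Matrix (I ⊕ I) (I ⊕ I) R} (h : Uni η U) (e : J ≃ I) :
    Uni η (U.submatrix (e.sumCongr e) (e.sumCongr e)) := by
  obtain ⟨V, h1, h2⟩ := OU1_inv h.1
  have e0 : hypF R J = (hypF R I).submatrix (e.sumCongr e) (e.sumCongr e) := by
    ext (i | i) (j | j) <;> simp [hypF, one_apply]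
  refine ⟨OU1_unit (V := V.submatrix (e.sumCongr e) (e.sumCongr e))
    (by rw [submatrix_mul_equiv, h1, submatrix_one_equiv])
    (by rw [submatrix_mul_equiv, h2, submatrix_one_equiv]), ?_⟩
  obtain ⟨χ, hχ⟩ := h.2
  refine ⟨χ.submatrix (e.sumCongr e) (e.sumCongr e), ?_⟩
  rw [e0, conjTranspose_submatrix, submatrix_mul_equiv, submatrix_mul_equiv, hχ]
  rfl

theorem Uni.map (f : R →+* S) (hf : ∀ x, f (star x) = star (f x)) {U : Matrix (I ⊕ I) (I ⊕ I) R}
    (h : Uni η U) : Uni η (U.map f) := by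
  have e0 : hypF S I = (hypF R I).map f := by
    rw [hypF, hypF, fromBlocks_map, Matrix.map_zero _ (map_zero f),
      Matrix.map_one _ (map_zero f) (map_one f)]
  have ct : ∀ A : Matrix (I ⊕ I) (I ⊕ I) R, (A.map f)ᴴ = Aᴴ.map f := fun A => by
    ext i j
    simp [hf]
  refine ⟨h.1.map f.mapMatrix, ?_⟩
  obtain ⟨χ, hχ⟩ := h.2
  refine ⟨χ.map f, ?_⟩
  rw [e0, ct, ct, ← Matrix.map_mul, ← Matrix.map_mul, hχ]
  ext i j
  simp only [Matrix.map_apply, Matrix.sub_apply, Matrix.add_apply, Matrix.smul_apply, map_sub,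
    map_add, map_zsmul]

theorem GenU.uni {U : Matrix (I ⊕ I) (I ⊕ I) R} (h : GenU η U) : Uni η U := by
  cases h with
  | gl g g' h1 h2 =>
    refine uni_iff.2 ⟨OU1_unit (V := fromBlocks g' 0 0 gᴴ) ?_ ?_, Eqv.of_eq (by simp),
      Eqv.of_eq (by simp), by simp [h1]⟩
    · simp [fromBlocks_multiply, h1, ← conjTranspose_mul]
    · simp [fromBlocks_multiply, h2, ← conjTranspose_mul]
  | sh χ =>
    refine uni_iff.2 ⟨OU1_unit (V := fromBlocks 1 (-(χ - (η : ℤ) • χᴴ)) 0 1) ?_ ?_, ⟨χᴴ, ?_⟩,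
      Eqv.of_eq (by simp), by simp⟩
    · simp [fromBlocks_multiply]
    · simp [fromBlocks_multiply]
    · rw [Matrix.one_mul, conjTranspose_sub, ct_zsmul, zero_add]
  | sw κ s h =>
    have e1 : sᴴ * s * (sᴴ * s) = sᴴ * s := by
      rw [Matrix.mul_assoc, ← Matrix.mul_assoc s, h, Matrix.one_mul]
    have e2 : (sᴴ * s)ᴴ = sᴴ * s := by rw [conjTranspose_mul, conjTranspose_conjTranspose]
    generalize sᴴ * s = e at e1 e2
    have e3 : (1 - e)ᴴ = 1 - e := by rw [conjTranspose_sub, conjTranspose_one, e2]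
    have e4 : (1 - e) * e = 0 := by rw [Matrix.sub_mul, e1, Matrix.one_mul, sub_self]
    have e5 : e * (1 - e) = 0 := by rw [Matrix.mul_sub, e1, Matrix.mul_one, sub_self]
    have e6 : (1 - e) * (1 - e) = 1 - e := by rw [Matrix.sub_mul, e5, Matrix.one_mul, sub_zero]
    refine uni_iff.2 ⟨OU1_unit (V := fromBlocks (1 - e) ((η : ℤ) • e) e (1 - e)) ?_ ?_,
      Eqv.of_eq ?_, Eqv.of_eq ?_, ?_⟩
    · simp only [fromBlocks_multiply, Matrix.mul_smul, Matrix.smul_mul, e1, e4, e5, e6, eps_eps,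
        smul_zero, add_zero, sub_add_cancel, add_sub_cancel, fromBlocks_one]
    · simp only [fromBlocks_multiply, Matrix.mul_smul, Matrix.smul_mul, e1, e4, e5, e6, eps_eps,
        smul_zero, add_zero, sub_add_cancel, add_sub_cancel, fromBlocks_one]
    · rw [e2, e4]
    · rw [e3, Matrix.smul_mul, e5, smul_zero]
    · rw [e3, e6, ct_zsmul, e2, Matrix.mul_smul, eps_eps, e1, sub_add_cancel]

theorem Uni.of_mem {U : Matrix (I ⊕ I) (I ⊕ I) R} (h : U ∈ RU R η I) : Uni η U := by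
  induction h using Submonoid.closure_induction with
  | mem x hx => exact GenU.uni hx
  | one => exact uni_one
  | mul x y _ _ hx hy => exact hx.mul hy

/-- two Lagrangians that span are complementary -/
theorem Uni.unit₁₂ {U : Matrix (I ⊕ I) (I ⊕ I) R} (h : Uni η U) {C : Matrix I I R}
    (hC : C * U.toBlocks₁₂ = 1) : IsUnit U.toBlocks₁₂ := by
  rw [← fromBlocks_toBlocks U] at h
  obtain ⟨-, a1, -, a3⟩ := uni_iff.1 h
  generalize U.toBlocks₁₁ = a, U.toBlocks₁₂ = b, U.toBlocks₂₁ = c, U.toBlocks₂₂ = d at *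
  have s1 : a * bᴴ = -((η : ℤ) • (b * aᴴ)) := by
    have := a1.sy_eq
    rw [sy_zero, sy, conjTranspose_mul, conjTranspose_conjTranspose] at this
    exact eq_neg_of_add_eq_zero_left this.symm
  have key : ∀ k : Matrix I I R, k * b = 0 → k = 0 := by
    intro k k1
    have k2 : k * a = 0 := by
      have : bᴴ * Cᴴ = 1 := by rw [← conjTranspose_mul, hC, conjTranspose_one]
      rw [← Matrix.mul_one a, ← this, ← Matrix.mul_assoc a, s1, ← Matrix.mul_assoc, Matrix.mul_neg,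
        Matrix.mul_smul, ← Matrix.mul_assoc, k1, Matrix.zero_mul, smul_zero, neg_zero,
        Matrix.zero_mul]
    rw [← Matrix.mul_one k, ← a3, Matrix.mul_add, Matrix.mul_smul, ← Matrix.mul_assoc,
      ← Matrix.mul_assoc, k1, k2, Matrix.zero_mul, Matrix.zero_mul, smul_zero, add_zero]
  have k3 : b * C - 1 = 0 := key _ (by
    rw [Matrix.sub_mul, Matrix.mul_assoc, hC, Matrix.mul_one, Matrix.one_mul, sub_self])
  exact OU1_unit (sub_eq_zero.1 k3) hC

theorem OU1_fA (ε : ℤˣ) {U : Matrix (I ⊕ I) (I ⊕ I) R} (h : Uni η U) : Uni η (fA ε U) := by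
  have hu := h.1
  rw [← fromBlocks_toBlocks U] at h hu
  obtain ⟨-, a1, a2, a3⟩ := uni_iff.1 h
  have hδ : IsUnit (fromBlocks 1 0 0 ((ε : ℤ) • 1) : Matrix (I ⊕ I) (I ⊕ I) R) := by
    have : (fromBlocks 1 0 0 ((ε : ℤ) • 1) : Matrix (I ⊕ I) (I ⊕ I) R) *
        fromBlocks 1 0 0 ((ε : ℤ) • 1) = 1 := by
      simp only [fromBlocks_multiply, Matrix.mul_smul, eps_eps, Matrix.mul_zero,
        Matrix.mul_one, smul_zero, add_zero, zero_add, fromBlocks_one]
    exact OU1_unit this this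
  refine uni_iff.2 ⟨?_, ?_, ?_, ?_⟩
  · have := (hδ.mul hu).mul hδ
    simpa only [fromBlocks_multiply, Matrix.mul_smul, Matrix.smul_mul, eps_eps, Matrix.mul_zero,
      Matrix.zero_mul, Matrix.mul_one, Matrix.one_mul, smul_zero, add_zero, zero_add] using this
  · rw [ct_zsmul, Matrix.mul_smul]
    exact OU1_zsmul a1 _
  · rw [Matrix.smul_mul]
    exact OU1_zsmul a2 _
  · rw [ct_zsmul, Matrix.mul_smul, Matrix.smul_mul, eps_eps, a3]

theorem Uni.fA {U : Matrix (I ⊕ I) (I ⊕ I) R} (h : Uni η U) : Uni η (fA η U) := by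
  exact OU1_fA η h

theorem Uni.fA_neg {U : Matrix (I ⊕ I) (I ⊕ I) R} (h : Uni η U) : Uni η (MP_9d1ffa_al.fA (-1) U) := by
  exact OU1_fA (-1) h

theorem Uni.fB {U : Matrix (I ⊕ I) (I ⊕ I) R} (h : Uni η U) : Uni η (fB U) := by
  have hu := h.1
  rw [← fromBlocks_toBlocks U] at h hu
  obtain ⟨-, a1, a2, a3⟩ := uni_iff.1 h
  have q1 : (fromBlocks 0 1 (-1) 0 : Matrix (I ⊕ I) (I ⊕ I) R) * fromBlocks 0 (-1) 1 0 = 1 := by
    simp [fromBlocks_multiply]
  have q2 : (fromBlocks 0 (-1) 1 0 : Matrix (I ⊕ I) (I ⊕ I) R) * fromBlocks 0 1 (-1) 0 = 1 := by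
    simp [fromBlocks_multiply]
  refine uni_iff.2 ⟨?_, ?_, ?_, ?_⟩
  · have := ((OU1_unit q1 q2).mul hu).mul (OU1_unit q2 q1)
    simpa only [fromBlocks_multiply, Matrix.mul_neg, Matrix.neg_mul, Matrix.mul_zero,
      Matrix.zero_mul, Matrix.mul_one, Matrix.one_mul, add_zero, zero_add, neg_neg, neg_zero]
      using this
  · simpa using (OU1_ct a2).neg
  · simpa using (OU1_ct a1).neg
  · have := congrArg conjTranspose a3
    rw [conjTranspose_add, ct_zsmul, conjTranspose_mul, conjTranspose_mul,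
      conjTranspose_conjTranspose, conjTranspose_conjTranspose, conjTranspose_one] at this
    rw [conjTranspose_neg, Matrix.neg_mul, Matrix.mul_neg, neg_neg, this]

/-- the shear by a form -/
theorem genU_sy (ε : ℤˣ) (θ : Matrix I I R) : GenU (-ε) (fromBlocks 1 (sy ε θ) 0 1) := by
  have := GenU.sh (η := -ε) θ
  rwa [Units.val_neg, neg_smul, sub_neg_eq_add] at this

/-- the full swap -/
theorem genU_swap : GenU η (fromBlocks 0 1 ((η : ℤ) • 1) 0 : Matrix (I ⊕ I) (I ⊕ I) R) := by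
  simpa using GenU.sw (η := η) I (1 : Matrix I I R) (by simp)

/-- a system with a left inverse is invertible -/
theorem sys_unit {ε : ℤˣ} {W : Matrix (I ⊕ I) (I ⊕ I) R} (hW : Uni (-ε) W) {ψ C : Matrix I I R}
    (h : C * sysM ε W ψ = 1) : IsUnit (sysM ε W ψ) := by
  have h1 := hW.mul (genU_sy ε (-ψ)).uni
  have e : (W * fromBlocks 1 (sy ε (-ψ)) 0 1).toBlocks₁₂ = -sysM ε W ψ := by
    conv_lhs => rw [← fromBlocks_toBlocks W]
    rw [fromBlocks_multiply, toBlocks_fromBlocks₁₂, sy_neg, sysM, Matrix.mul_neg, Matrix.mul_one,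
      neg_sub, sub_eq_neg_add]
  have h2 := h1.unit₁₂ (C := -C) (by rw [e, Matrix.neg_mul, Matrix.mul_neg, neg_neg, h])
  rw [e] at h2
  exact (IsUnit.neg_iff _).1 h2

theorem sysM_one (ε : ℤˣ) (ψ : Matrix I I R) : sysM ε 1 ψ = sy ε ψ := by
  rw [sysM, ← fromBlocks_one, toBlocks_fromBlocks₁₁, toBlocks_fromBlocks₁₂, Matrix.one_mul,
    sub_zero]

theorem Uni.mp {G H : Type} [Group G] [Group H] (f : G →* H) {U : Matrix (I ⊕ I) (I ⊕ I) (ZG G)}
    (h : Uni η U) : Uni η (mp f U) := h.map (gm f) (gm_star f)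

end Pool.Agent.Work.MP_9d1ffa_al
end
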