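import Pool.Agent.Work.MP_9d1ffa_al.Basic

/-! Idempotent matrices with stably free image, compatibly with positions. -/

namespace Pool.Agent.Work.MP_9d1ffa_al

open Matrix MonoidAlgebra MulAction

set_option linter.unusedSectionVars false
set_option linter.unusedVariables false

variable {G : Type} [Group G] {P : Type} [MulAction G P] {I : Type} [Fintype I] [DecidableEq I]

/-- the image of `E` is stably free, by position preserving matrices -/
def SF (p : I → P) (E : Matrix I I (ZG G)) : Prop :=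
  ∃ (a b : Type) (_ : Fintype a) (_ : DecidableEq a) (_ : Fintype b) (_ : DecidableEq b)
    (pa : a → P) (pb : b → P) (U : Matrix b I (ZG G)) (U₂ : Matrix b a (ZG G))
    (W : Matrix I b (ZG G)) (W₂ : Matrix a b (ZG G)),
    MOn pb p Eq U ∧ MOn pb pa Eq U₂ ∧ MOn p pb Eq W ∧ MOn pa pb Eq W₂ ∧
    U * W + U₂ * W₂ = 1 ∧ W * U = E ∧ W * U₂ = 0 ∧ W₂ * U = 0 ∧ W₂ * U₂ = 1

theorem SF_mat {S m n : Type} [Ring S] [Fintype m] [DecidableEq m] (f : (m → S) →ₗ[S] n → S) :
    ∃ A : Matrix m n S, ∀ x, x ᵥ* A = f x :=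
  ⟨LinearMap.toMatrixRight' f, fun x => by
    rw [← Matrix.toLinearMapRight'_apply, LinearEquiv.symm_apply_apply]⟩

theorem SF_ext {S m n : Type} [Ring S] [Fintype m] [DecidableEq m] {A B : Matrix m n S}
    (h : ∀ x, x ᵥ* A = x ᵥ* B) : A = B :=
  Matrix.toLinearMapRight'.injective (LinearMap.ext h)

/-- an idempotent matrix with stably free image, over any ring -/
theorem idem_stablyFree {S : Type} [Ring S] (E : Matrix I I S) (hE : E * E = E)
    (h : Module.IsStablyFree S (LinearMap.range E.vecMulLinear)) :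
    ∃ (a b : Type) (_ : Fintype a) (_ : DecidableEq a) (_ : Fintype b) (_ : DecidableEq b)
      (U : Matrix b I S) (U₂ : Matrix b a S) (W : Matrix I b S) (W₂ : Matrix a b S),
      U * W + U₂ * W₂ = 1 ∧ W * U = E ∧ W * U₂ = 0 ∧ W₂ * U = 0 ∧ W₂ * U₂ = 1 := by
  classical
  obtain ⟨N, _, _, _, _, _⟩ := Module.IsStablyFree.exist_free_prod S (LinearMap.range E.vecMulLinear)
  let ψ := (Module.Free.chooseBasis S N).equivFun
  let φ := (Module.Free.chooseBasis S (LinearMap.range E.vecMulLinear × N)).equivFun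
  let π := E.vecMulLinear.rangeRestrict
  have hπ : ∀ m : LinearMap.range E.vecMulLinear, π m.1 = m := by
    rintro ⟨_, x, rfl⟩
    exact Subtype.ext (show x ᵥ* E ᵥ* E = x ᵥ* E by rw [vecMul_vecMul, hE])
  obtain ⟨U, hU⟩ := SF_mat ((LinearMap.range E.vecMulLinear).subtype ∘ₗ LinearMap.fst S _ N ∘ₗ
    φ.symm.toLinearMap)
  obtain ⟨U₂, hU₂⟩ := SF_mat (ψ.toLinearMap ∘ₗ LinearMap.snd S _ N ∘ₗ φ.symm.toLinearMap)
  obtain ⟨W, hW⟩ := SF_mat (φ.toLinearMap ∘ₗ LinearMap.inl S _ N ∘ₗ π)
  obtain ⟨W₂, hW₂⟩ := SF_mat (φ.toLinearMap ∘ₗ LinearMap.inr S _ N ∘ₗ ψ.symm.toLinearMap)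
  refine ⟨_, _, inferInstance, inferInstance, inferInstance, inferInstance, U, U₂, W, W₂,
    SF_ext fun x => ?_, SF_ext fun x => ?_, SF_ext fun x => ?_, SF_ext fun x => ?_,
    SF_ext fun x => ?_⟩
  · rw [vecMul_add, ← vecMul_vecMul, ← vecMul_vecMul, hU, hW, hU₂, hW₂, vecMul_one]
    simp [hπ, ← map_add]
  · rw [← vecMul_vecMul, hW, hU]
    simp [π]
  · rw [← vecMul_vecMul, hW, hU₂]
    simp
  · rw [← vecMul_vecMul, hW₂, hU]
    simp
  · rw [← vecMul_vecMul, hW₂, hU₂]
    simp

theorem SF_fix {S a b : Type} [Ring S] [Fintype a] [DecidableEq a] [Fintype b] [DecidableEq b]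
    {U : Matrix b I S} {U₂ : Matrix b a S} {W : Matrix I b S} {W₂ : Matrix a b S}
    (h1 : U * W + U₂ * W₂ = 1) (h3 : W * U₂ = 0) (h4 : W₂ * U = 0) :
    U * (W * U) = U ∧ W * U * W = W := by
  rw [← eq_sub_iff_add_eq] at h1
  constructor
  · rw [← Matrix.mul_assoc, h1, Matrix.sub_mul, Matrix.mul_assoc, h4, Matrix.mul_zero,
      Matrix.one_mul, sub_zero]
  · rw [Matrix.mul_assoc, h1, Matrix.mul_sub, ← Matrix.mul_assoc, h3, Matrix.zero_mul,
      Matrix.mul_one, sub_zero]

theorem SF.add {p : I → P} {E₁ E₂ : Matrix I I (ZG G)} (h₁ : SF p E₁) (h₂ : SF p E₂)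
    (h12 : E₁ * E₂ = 0) (h21 : E₂ * E₁ = 0) : SF p (E₁ + E₂) := by
  obtain ⟨a, b, _, _, _, _, pa, pb, U, U₂, W, W₂, m1, m2, m3, m4, e1, rfl, e3, e4, e5⟩ := h₁
  obtain ⟨a', b', _, _, _, _, pa', pb', U', U₂', W', W₂', n1, n2, n3, n4, f1, rfl, f3, f4, f5⟩ := h₂
  obtain ⟨k1, k2⟩ := SF_fix e1 e3 e4
  obtain ⟨l1, l2⟩ := SF_fix f1 f3 f4
  have z1 : U * W' = 0 := by
    rw [← k1, ← l2, Matrix.mul_assoc U, ← Matrix.mul_assoc (W * U), h12, Matrix.zero_mul,
      Matrix.mul_zero]
  have z2 : U' * W = 0 := by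
    rw [← l1, ← k2, Matrix.mul_assoc U', ← Matrix.mul_assoc (W' * U'), h21, Matrix.zero_mul,
      Matrix.mul_zero]
  refine ⟨a ⊕ a', b ⊕ b', inferInstance, inferInstance, inferInstance, inferInstance,
    Sum.elim pa pa', Sum.elim pb pb', fromRows U U', fromBlocks U₂ 0 0 U₂', fromCols W W',
    fromBlocks W₂ 0 0 W₂', ?_, ?_, ?_, ?_, ?_, fromCols_mul_fromRows _ _ _ _, ?_, ?_, ?_⟩
  · rintro (i | i) j
    exacts [m1 i j, n1 i j]
  · rintro (i | i) (j | j)
    exacts [m2 i j, mOn_zero pb pa' Eq i j, mOn_zero pb' pa Eq i j, n2 i j]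
  · rintro i (j | j)
    exacts [m3 i j, n3 i j]
  · rintro (i | i) (j | j)
    exacts [m4 i j, mOn_zero pa pb' Eq i j, mOn_zero pa' pb Eq i j, n4 i j]
  · simp [fromBlocks_multiply, fromBlocks_add, e1, f1, z1, z2]
  · simp [fromCols_mul_fromBlocks, e3, f3]
  · simp [fromBlocks_mul_fromRows, e4, f4]
  · simp [fromBlocks_multiply, e5, f5]

theorem sf_diag (p : I → P) (S : I → Prop) [DecidablePred S] :
    SF p (diagonal fun i => if S i then (1 : ZG G) else 0) := by
  refine ⟨Empty, {i // S i}, inferInstance, inferInstance, inferInstance, inferInstance,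
    Empty.elim, fun i => p i.1, (1 : Matrix I I (ZG G)).submatrix Subtype.val id, 0,
    (1 : Matrix I I (ZG G)).submatrix id Subtype.val, 0, fun i j => mOn_one p i.1 j,
    mOn_zero _ _ _, fun i j => mOn_one p i j.1, mOn_zero _ _ _, ?_, ?_, Matrix.mul_zero _,
    Matrix.zero_mul _, Subsingleton.elim _ _⟩
  · ext1 i j
    simp [Matrix.mul_apply, Matrix.one_apply, Subtype.ext_iff]
  · ext1 i j
    simp only [Matrix.mul_apply, submatrix_apply, id, Matrix.one_apply, diagonal_apply]
    by_cases h : S i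
    · rw [Finset.sum_eq_single ⟨i, h⟩ (fun k _ hk => by
        rw [if_neg fun e => hk (Subtype.ext e.symm), zero_mul]) (by simp)]
      simp [h]
    · rw [Finset.sum_eq_zero fun k _ => by rw [if_neg fun e : i = k.1 => h (e ▸ k.2), zero_mul]]
      simp [h]

theorem SF_mul {J K : Type} [Fintype J] {p : I → P} {q : J → P} {r : K → P}
    {A : Matrix I J (ZG G)} {B : Matrix J K (ZG G)} (hA : MOn p q Eq A) (hB : MOn q r Eq B) :
    MOn p r Eq (A * B) := (hA.mul hB inv_eq).mono fun _ _ ⟨_, h, h'⟩ => h.trans h'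

theorem SF_diag {p q : I → P} (T : I → Prop) [DecidablePred T] (c : I → G)
    (h : ∀ i, T i → p i = c i • q i) :
    MOn p q Eq (diagonal fun i => if T i then (single (c i) 1 : ZG G) else 0) := fun i j g e => by
  rw [diagonal_apply] at e
  split_ifs at e with h1 h2
  · obtain rfl : c i = g := by
      by_contra hg
      exact e (by simp [hg])
    rw [← h1, h i h2]
  · simp at e
  · simp at e

/-- the case of one orbit of positions -/
theorem SF_orbit (p : I → P) (σ : P) (hK : K0Zero (stabilizer G σ)) (T : I → Prop)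
    [DecidablePred T] (c : I → G) (hc : ∀ i, T i → p i = c i • σ) (E : Matrix I I (ZG G))
    (hE : E * E = E) (hp : MOn p p Eq E)
    (h1 : (diagonal fun i => if T i then (1 : ZG G) else 0) * E = E)
    (h2 : E * (diagonal fun i => if T i then (1 : ZG G) else 0) = E) : SF p E := by
  have mu := SF_diag (q := fun _ => σ) T c hc
  have mw := SF_diag (p := fun _ => σ) (q := p) T (fun i => (c i)⁻¹) fun i hi => by simp [hc i hi]
  have uw : ∀ c c' : I → G, (∀ i, c i * c' i = 1) →
      (diagonal fun i => if T i then (single (c i) 1 : ZG G) else 0) *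
        (diagonal fun i => if T i then (single (c' i) 1 : ZG G) else 0) =
        diagonal fun i => if T i then (1 : ZG G) else 0 := fun c c' h => by
    rw [diagonal_mul_diagonal]
    congr 1
    funext i
    split_ifs <;> simp [single_mul_single, h, MonoidAlgebra.one_def]
  have e1 := uw c (fun i => (c i)⁻¹) (by simp)
  have e2 := uw (fun i => (c i)⁻¹) c (by simp)
  have e3 : (diagonal fun i => if T i then (1 : ZG G) else 0) *
      (diagonal fun i => if T i then (single (c i)⁻¹ 1 : ZG G) else 0) =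
      diagonal fun i => if T i then (single (c i)⁻¹ 1 : ZG G) else 0 := by
    rw [diagonal_mul_diagonal]
    congr 1
    funext i
    split_ifs <;> simp
  generalize (diagonal fun i => if T i then (single (c i) 1 : ZG G) else 0) = u at *
  generalize (diagonal fun i => if T i then (single (c i)⁻¹ 1 : ZG G) else 0) = w at *
  generalize (diagonal fun i => if T i then (1 : ZG G) else 0) = D at *
  obtain ⟨F, hF⟩ := exists_incl_mat (D := stabilizer G σ) (A := w * E * u) fun i j g e =>
    mem_stabilizer_iff.2 (SF_mul (SF_mul mw hp) mu i j g e).symm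
  have hFF : F * F = F := map_incl_injective _ (by
    rw [Matrix.map_mul, ← hF]
    calc w * E * u * (w * E * u) = w * (E * (u * w) * E) * u := by simp only [Matrix.mul_assoc]
      _ = w * E * u := by rw [e1, h2, hE])
  have hproj : Module.Projective (ZG (stabilizer G σ)) (LinearMap.range F.vecMulLinear) :=
    Module.Projective.of_split (LinearMap.range F.vecMulLinear).subtype
      F.vecMulLinear.rangeRestrict (LinearMap.ext <| by
        rintro ⟨_, x, rfl⟩
        exact Subtype.ext (show x ᵥ* F ᵥ* F = x ᵥ* F by rw [vecMul_vecMul, hFF]))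
  obtain ⟨a, b, _, _, _, _, U, U₂, W, W₂, f1, f2, f3, f4, f5⟩ :=
    idem_stablyFree F hFF (hK _ inferInstance hproj)
  have hW : D * W.map (incl _) = W.map (incl _) := by
    rw [← (SF_fix f1 f3 f4).2, f2, Matrix.map_mul, ← hF]
    simp only [← Matrix.mul_assoc, e3]
  refine ⟨a, b, inferInstance, inferInstance, inferInstance, inferInstance, fun _ => σ, fun _ => σ,
    U.map (incl _) * w, U₂.map (incl _), u * W.map (incl _), W₂.map (incl _),
    SF_mul (mOn_map_incl σ U) mw, mOn_map_incl σ U₂, SF_mul mu (mOn_map_incl σ W),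
    mOn_map_incl σ W₂, ?_, ?_, ?_, ?_, ?_⟩
  · rw [Matrix.mul_assoc, ← Matrix.mul_assoc w, e2, hW, ← Matrix.map_mul, ← Matrix.map_mul,
      ← Matrix.map_add _ (map_add _), f1, Matrix.map_one _ (map_zero _) (map_one _)]
  · rw [Matrix.mul_assoc, ← Matrix.mul_assoc _ _ w, ← Matrix.map_mul, f2, ← hF]
    calc u * (w * E * u * w) = u * w * E * (u * w) := by simp only [Matrix.mul_assoc]
      _ = E := by rw [e1, h1, h2]
  · rw [Matrix.mul_assoc, ← Matrix.map_mul, f3, Matrix.map_zero _ (map_zero _), Matrix.mul_zero]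
  · rw [← Matrix.mul_assoc, ← Matrix.map_mul, f4, Matrix.map_zero _ (map_zero _), Matrix.zero_mul]
  · rw [← Matrix.map_mul, f5, Matrix.map_one _ (map_zero _) (map_one _)]

theorem sf_main (p : I → P) (E : Matrix I I (ZG G)) (hE : E * E = E) (hp : MOn p p Eq E)
    (hK : ∀ i, E i ≠ 0 → K0Zero (stabilizer G (p i))) : SF p E := by
  classical
  induction hn : (Finset.univ.filter fun i => E i ≠ 0).card using Nat.strong_induction_on
    generalizing E with
  | _ n ih =>
  by_cases h0 : ∀ i, E i = 0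
  · obtain rfl : E = 0 := funext h0
    simpa using sf_diag (G := G) p fun _ => False
  obtain ⟨i₀, hi₀⟩ := not_forall.1 h0
  let T := fun i => ∃ c : G, p i = c • p i₀
  have : ∀ i, ∃ c : G, T i → p i = c • p i₀ := fun i => by
    by_cases h : T i
    · exact h.imp fun _ e _ => e
    · exact ⟨1, fun e => absurd e h⟩
  choose c hc using this
  have hD : MOn p p Eq (diagonal fun i => if T i then (1 : ZG G) else 0) :=
    SF_diag T (fun _ => 1) fun i _ => (one_smul _ _).symm
  have row : ∀ i, (E - (diagonal fun i => if T i then (1 : ZG G) else 0) * E) i =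
      if T i then 0 else E i := fun i => by
    funext j
    rw [Matrix.sub_apply, diagonal_mul]
    split_ifs <;> simp
  have comm : E * (diagonal fun i => if T i then (1 : ZG G) else 0) =
      (diagonal fun i => if T i then (1 : ZG G) else 0) * E := by
    ext1 i j
    rw [diagonal_mul, mul_diagonal]
    by_cases e : E i j = 0
    · simp [e]
    obtain ⟨g, hg⟩ : ∃ g, (E i j).coeff g ≠ 0 := by
      by_contra! k
      exact e (by ext g; simpa using k g)
    have k := hp i j g hg
    have : T i ↔ T j := ⟨fun ⟨d, hd⟩ => ⟨g⁻¹ * d, by rw [mul_smul, ← hd, k, inv_smul_smul]⟩,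
      fun ⟨d, hd⟩ => ⟨g * d, by rw [mul_smul, ← hd, k]⟩⟩
    by_cases t : T j <;> simp [this, t]
  have DD : (diagonal fun i => if T i then (1 : ZG G) else 0) *
      (diagonal fun i => if T i then (1 : ZG G) else 0) =
      diagonal fun i => if T i then (1 : ZG G) else 0 := by
    rw [diagonal_mul_diagonal]
    congr 1
    funext i
    split_ifs <;> simp
  have orb := SF_orbit p (p i₀) (hK i₀ hi₀) T c hc
  generalize (diagonal fun i => if T i then (1 : ZG G) else 0) = D at *
  have a1 : D * E * E = D * E := by rw [Matrix.mul_assoc, hE]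
  have a2 : E * (D * E) = D * E := by rw [← Matrix.mul_assoc, comm, a1]
  have a3 : D * (D * E) = D * E := by rw [← Matrix.mul_assoc, DD]
  have a4 : D * E * (D * E) = D * E := by rw [Matrix.mul_assoc, a2, a3]
  have s1 := orb (D * E) a4 (SF_mul hD hp) a3 (by rw [Matrix.mul_assoc, comm, a3])
  have s2 : SF p (E - D * E) := by
    refine ih _ ?_ _ (by rw [sub_mul, mul_sub, mul_sub, hE, a1, a2, a4, sub_self, sub_zero])
      (hp.sub (SF_mul hD hp)) (fun i hi => hK i fun e => hi (by rw [row, e, ite_self])) rfl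
    rw [← hn]
    refine Finset.card_lt_card ⟨fun i hi => ?_, fun h => ?_⟩
    · simp only [Finset.mem_filter, Finset.mem_univ, true_and] at hi ⊢
      exact fun e => hi (by rw [row, e, ite_self])
    · have := h (Finset.mem_filter.2 ⟨Finset.mem_univ i₀, hi₀⟩)
      exact (Finset.mem_filter.1 this).2 (by rw [row, if_pos ⟨1, (one_smul _ _).symm⟩])
  simpa using s1.add s2 (by rw [mul_sub, a1, a4, sub_self]) (by rw [sub_mul, a2, a4, sub_self])

end Pool.Agent.Work.MP_9d1ffa_al
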