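import Pool.Agent.Work.MP_9d1ffa_al.Defs

/-! Quadratic forms over integral group rings, and the vanishing of the unitary nilpotent groups
of Cappell, in elementary terms. -/

namespace Pool.Agent.Work.MP_9d1ffa_al

open Matrix

section

variable {G : Type} [Group G]

/-- the involution of the group ring induced by inversion -/
noncomputable def bar (x : ZG G) : ZG G := MonoidAlgebra.mapDomain (fun g => g⁻¹) x

/-- the conjugate transpose -/
noncomputable def ct {I J : Type} (A : Matrix I J (ZG G)) : Matrix J I (ZG G) := (A.map bar)ᵀ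

/-- the `ε`-symmetrisation of a quadratic form -/
noncomputable def symF (ε : ℤˣ) {I : Type} (ψ : Matrix I I (ZG G)) : Matrix I I (ZG G) :=
  ψ + (ε : ℤ) • ct ψ

/-- the hyperbolic quadratic form -/
def hypF (R : Type) [Zero R] [One R] (κ : Type) [DecidableEq κ] : Matrix (κ ⊕ κ) (κ ⊕ κ) R :=
  fromBlocks 0 1 0 0

/-- the `ε`-quadratic form `ψ` is stably hyperbolic, so it is zero in the Wall group -/
def StHyp (ε : ℤˣ) {I : Type} [Fintype I] [DecidableEq I] (ψ : Matrix I I (ZG G)) : Prop :=
  ∃ (m n : ℕ) (g : Matrix (Fin n ⊕ Fin n) (I ⊕ (Fin m ⊕ Fin m)) (ZG G))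
    (g' : Matrix (I ⊕ (Fin m ⊕ Fin m)) (Fin n ⊕ Fin n) (ZG G))
    (χ : Matrix (Fin n ⊕ Fin n) (Fin n ⊕ Fin n) (ZG G)), g * g' = 1 ∧ g' * g = 1 ∧
      g * fromBlocks ψ 0 0 (hypF (ZG G) (Fin m)) * ct g =
        hypF (ZG G) (Fin n) + χ - (ε : ℤ) • ct χ

/-- the amalgamated free product of the two groups `E i` over `D` -/
def Am {D : Subgroup G} {E : Bool → Subgroup G} (h : ∀ i, D ≤ E i) : Type :=
  Monoid.PushoutI fun j => Subgroup.inclusion (h j)

noncomputable instance Am.group {D : Subgroup G} {E : Bool → Subgroup G} (h : ∀ i, D ≤ E i) :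
    Group (Am h) :=
  inferInstanceAs (Group (Monoid.PushoutI fun j => Subgroup.inclusion (h j)))

/-- the canonical homomorphism to the amalgamated free product -/
def ofAm {D : Subgroup G} {E : Bool → Subgroup G} (h : ∀ i, D ≤ E i) (i : Bool) : E i →* Am h :=
  Monoid.PushoutI.of (φ := fun j => Subgroup.inclusion (h j)) i

/-- the image of a matrix in the group ring of the amalgamated free product -/
noncomputable def toAm {D : Subgroup G} {E : Bool → Subgroup G} (h : ∀ i, D ≤ E i) (i : Bool)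
    {J : Type} (A : Matrix J J (ZG (E i))) : Matrix J J (ZG (Am h)) :=
  A.map (MonoidAlgebra.mapDomainRingHom ℤ (ofAm h i))

/-- every unitary nilpotent form of the amalgamated free product of the two groups `E i` over `D`
is stably hyperbolic -/
def UNilAm (ε : ℤˣ) {D : Subgroup G} {E : Bool → Subgroup G} (h : ∀ i, D ≤ E i) : Prop :=
  ∀ (J : Type) [Fintype J] [DecidableEq J] (A : ∀ i, Matrix J J (ZG (E i))),
    (∀ i j k (g : E i), (A i j k).coeff g ≠ 0 → (g : G) ∉ D) →
    IsNilpotent (symF ε (toAm h true (A true)) * symF ε (toAm h false (A false))) →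
    StHyp ε (fromBlocks (toAm h true (A true)) 1 0 (toAm h false (A false)))

end

/-- every unitary nilpotent form of the action of `G` on the graph `T` is stably hyperbolic -/
def UNilTree (G : Type) [Group G] {V : Type} [MulAction G V] (T : SimpleGraph V) (ε : ℤˣ) : Prop :=
  ∀ (I : Type) [Fintype I] [DecidableEq I] (a b : I → V) (ψ : Matrix (I ⊕ I) (I ⊕ I) (ZG G)),
    (∀ i, T.Adj (a i) (b i)) →
    (∀ k l g, (ψ k l).coeff g ≠ 0 →
      Sum.elim b a k = g • Sum.elim b a l ∧ Sum.elim a b k ≠ g • Sum.elim a b l) →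
    IsNilpotent (symF ε ψ * fromBlocks 0 ((ε : ℤ) • 1) 1 0) →
    StHyp ε (hypF (ZG G) I + ψ)

end Pool.Agent.Work.MP_9d1ffa_al
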