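import Pool.Agent.Work.MP_9d1ffa_al.Defs

/-! Finite free resolutions. -/

namespace Pool.Agent.Work.MP_9d1ffa_al

open Matrix MonoidAlgebra MulAction

set_option linter.unusedSectionVars false
set_option linter.unusedVariables false

/-- `M` has a resolution of length `n` by finitely generated free modules, except for the last one
which is finitely generated stably free -/
def FF (S : Type) [Ring S] : ℕ → ∀ (M : Type) [AddCommGroup M] [Module S M], Prop
  | 0, M, _, _ => Module.Finite S M ∧ Module.IsStablyFree S M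
  | n + 1, M, _, _ => ∃ (k : ℕ) (f : (Fin k → S) →ₗ[S] M),
      Function.Surjective f ∧ FF S n (LinearMap.ker f)

/-- every finitely generated module has a finite free resolution -/
def AllFF (S : Type) [Ring S] : Prop :=
  ∀ (M : Type) [AddCommGroup M] [Module S M], Module.Finite S M → ∃ n, FF S n M

variable {S : Type} [Ring S] {A B C : Type} [AddCommGroup A] [Module S A] [AddCommGroup B]
  [Module S B] [AddCommGroup C] [Module S C] {n m : ℕ}

theorem FF.equiv (e : A ≃ₗ[S] B) (h : FF S n A) : FF S n B := by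
  cases n with
  | zero =>
    obtain ⟨h1, h2⟩ := h
    exact ⟨Module.Finite.equiv e, Module.IsStablyFree.equiv e⟩
  | succ n =>
    obtain ⟨k, f, hf, hk⟩ := h
    refine ⟨k, (e : A →ₗ[S] B) ∘ₗ f, e.surjective.comp hf, ?_⟩
    rw [LinearEquiv.ker_comp]
    exact hk

theorem UFa_fin (M : Type) [AddCommGroup M] [Module S M] [Module.Finite S M] [Module.Free S M] :
    ∃ k : ℕ, Nonempty ((Fin k → S) ≃ₗ[S] M) :=
  ⟨_, ⟨((Module.Free.chooseBasis S M).reindex (Fintype.equivFin _)).equivFun.symm⟩⟩

theorem UFa_of_surj {F : Type} [AddCommGroup F] [Module S F] [Module.Finite S F] [Module.Free S F]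
    (f : F →ₗ[S] A) (hf : Function.Surjective f) (h : FF S n (LinearMap.ker f)) :
    FF S (n + 1) A := by
  obtain ⟨k, ⟨e⟩⟩ := UFa_fin (S := S) F
  refine ⟨k, f ∘ₗ (e : (Fin k → S) →ₗ[S] F), hf.comp e.surjective, ?_⟩
  rw [LinearMap.ker_comp]
  exact h.equiv (e.ofSubmodule' (LinearMap.ker f)).symm

theorem UFa_split (i : A →ₗ[S] B) (q : B →ₗ[S] C) (hi : Function.Injective i)
    (he : Function.Exact i q) (hq : Function.Surjective q) (hp : Module.Projective S C) :
    Nonempty (B ≃ₗ[S] A × C) := by
  obtain ⟨l, hl⟩ := Module.projective_lifting_property q LinearMap.id hq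
  exact ⟨(he.splitSurjectiveEquiv hi ⟨l, hl⟩).1⟩

theorem FF.succ (h : FF S n A) : FF S (n + 1) A := by
  induction n generalizing A with
  | zero =>
    obtain ⟨h1, h2⟩ := h
    obtain ⟨N, _, _, _, _, _⟩ := Module.IsStablyFree.exist_free_prod S A
    refine UFa_of_surj (LinearMap.fst S A N) LinearMap.fst_surjective ?_
    have hN : FF S 0 N := ⟨inferInstance, inferInstance⟩
    rw [LinearMap.ker_fst]
    exact hN.equiv (LinearEquiv.ofInjective _ LinearMap.inr_injective)
  | succ n ih =>
    obtain ⟨k, f, hf, hk⟩ := h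
    exact ⟨k, f, hf, ih hk⟩

theorem FF.mono (h : FF S n A) (hm : n ≤ m) : FF S m A := by
  induction m, hm using Nat.le_induction with
  | base => exact h
  | succ m _ ih => exact ih.succ

theorem FF.stablyFree (h : FF S n A) (hp : Module.Projective S A) : Module.IsStablyFree S A := by
  induction n generalizing A with
  | zero => exact h.2
  | succ n ih =>
    obtain ⟨k, f, hf, hk⟩ := h
    obtain ⟨e⟩ := UFa_split (LinearMap.ker f).subtype f (LinearMap.ker f).injective_subtype
      (LinearMap.exact_subtype_ker_map f) hf hp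
    have hpr : Module.Projective S (LinearMap.ker f × A) := Module.Projective.of_equiv e
    have hK : Module.Projective S (LinearMap.ker f) :=
      Module.Projective.of_split (LinearMap.inl S _ A) (LinearMap.fst S _ A)
        (LinearMap.ext fun _ => rfl)
    have hfin : Module.Finite S (LinearMap.ker f × A) := Module.Finite.equiv e
    have hKf : Module.Finite S (LinearMap.ker f) :=
      Module.Finite.of_surjective (LinearMap.fst S _ A) LinearMap.fst_surjective
    have := ih hk hK
    obtain ⟨N, _, _, _, _, _⟩ := Module.IsStablyFree.exist_free_prod S (LinearMap.ker f)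
    have hfree : Module.Free S (A × (LinearMap.ker f × N)) :=
      Module.Free.of_equiv (((e.trans (LinearEquiv.prodComm S _ _)).prodCongr
        (LinearEquiv.refl S N)).trans (LinearEquiv.prodAssoc S _ _ _))
    exact Module.IsStablyFree.of_free_prod S A (LinearMap.ker f × N)

theorem FF.ext (i : A →ₗ[S] B) (q : B →ₗ[S] C) (hi : Function.Injective i)
    (he : Function.Exact i q) (hq : Function.Surjective q) (hA : FF S n A) (hC : FF S n C) :
    FF S n B := by
  induction n generalizing A B C with
  | zero =>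
    obtain ⟨h1, h2⟩ := hA
    obtain ⟨h3, h4⟩ := hC
    obtain ⟨e⟩ := UFa_split i q hi he hq inferInstance
    obtain ⟨N, _, _, _, _, _⟩ := Module.IsStablyFree.exist_free_prod S A
    obtain ⟨N', _, _, _, _, _⟩ := Module.IsStablyFree.exist_free_prod S C
    have hfree : Module.Free S ((A × C) × (N × N')) :=
      Module.Free.of_equiv (LinearEquiv.prodProdProdComm S A N C N')
    have h5 : Module.IsStablyFree S (A × C) := Module.IsStablyFree.of_free_prod S _ (N × N')
    have h6 : FF S 0 (A × C) := ⟨inferInstance, h5⟩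
    exact h6.equiv e.symm
  | succ n ih =>
    obtain ⟨a, f, hf, hkf⟩ := hA
    obtain ⟨b, g, hg, hkg⟩ := hC
    obtain ⟨g', hg'⟩ := Module.projective_lifting_property q g hq
    have hg2 : ∀ y, q (g' y) = g y := fun y => LinearMap.congr_fun hg' y
    have hqi : ∀ x, q (i x) = 0 := fun x => (he _).2 ⟨x, rfl⟩
    let h : ((Fin a → S) × (Fin b → S)) →ₗ[S] B := (i ∘ₗ f).coprod g'
    have hh : ∀ z, h z = i (f z.1) + g' z.2 := fun z => rfl
    have hs : Function.Surjective h := fun y => by
      obtain ⟨v, hv⟩ := hg (q y)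
      obtain ⟨x, hx⟩ := (he (y - g' v)).1 (by rw [map_sub, hg2, hv, sub_self])
      obtain ⟨u, rfl⟩ := hf x
      exact ⟨(u, v), by rw [hh, hx, sub_add_cancel]⟩
    refine UFa_of_surj h hs ?_
    let ι : LinearMap.ker f →ₗ[S] LinearMap.ker h :=
      (LinearMap.inl S _ _ ∘ₗ (LinearMap.ker f).subtype).codRestrict _ fun x => by
        have hx : f x = 0 := x.2
        rw [LinearMap.mem_ker, hh]
        simp [hx]
    let π : LinearMap.ker h →ₗ[S] LinearMap.ker g :=
      (LinearMap.snd S _ _ ∘ₗ (LinearMap.ker h).subtype).codRestrict _ fun z => by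
        have hz : h z = 0 := z.2
        have h1 := congrArg q hz
        rw [hh, map_add, hqi, hg2, zero_add, map_zero] at h1
        exact h1
    refine ih ι π (fun x y hxy => ?_) (fun z => ⟨fun hz => ?_, ?_⟩) (fun y => ?_) hkf hkg
    · exact Subtype.ext (congrArg (fun z : LinearMap.ker h => z.1.1) hxy)
    · have h1 : z.1.2 = 0 := congrArg Subtype.val hz
      have h2 : h z = 0 := z.2
      rw [hh, h1, map_zero, add_zero] at h2
      refine ⟨⟨z.1.1, hi (h2.trans (map_zero i).symm)⟩, Subtype.ext (Prod.ext rfl h1.symm)⟩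
    · rintro ⟨x, rfl⟩
      exact Subtype.ext rfl
    · obtain ⟨x, hx⟩ := (he (-g' y)).1 (by
        have hy : g y = 0 := y.2
        rw [map_neg, hg2, hy, neg_zero])
      obtain ⟨u, rfl⟩ := hf x
      exact ⟨⟨(u, y), by rw [LinearMap.mem_ker, hh, hx, neg_add_cancel]⟩, Subtype.ext rfl⟩

theorem FF.coker (i : A →ₗ[S] B) (q : B →ₗ[S] C) (hi : Function.Injective i)
    (he : Function.Exact i q) (hq : Function.Surjective q) (hA : FF S n A) (hB : FF S m B) :
    ∃ r, FF S r C := by
  obtain ⟨k, f, hf, hk⟩ := hB.succ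
  refine ⟨max m n + 1, k, q ∘ₗ f, hq.comp hf, ?_⟩
  have hle : LinearMap.ker f ≤ LinearMap.ker (q ∘ₗ f) := LinearMap.ker_le_ker_comp f q
  let φ : LinearMap.ker (q ∘ₗ f) →ₗ[S] LinearMap.range i :=
    (f ∘ₗ (LinearMap.ker (q ∘ₗ f)).subtype).codRestrict _ fun x => (he _).1 x.2
  let e := LinearEquiv.ofInjective i hi
  refine FF.ext (Submodule.inclusion hle) ((e.symm : LinearMap.range i →ₗ[S] A) ∘ₗ φ)
    (Submodule.inclusion_injective hle) (fun z => ⟨fun hz => ?_, ?_⟩) (fun a => ?_)
    (hk.mono (le_max_left _ _)) (hA.mono (le_max_right _ _))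
  · have h1 : φ z = 0 := e.symm.injective (hz.trans (map_zero e.symm).symm)
    exact ⟨⟨z.1, congrArg Subtype.val h1⟩, rfl⟩
  · rintro ⟨x, rfl⟩
    have h1 : φ (Submodule.inclusion hle x) = 0 := Subtype.ext x.2
    rw [LinearMap.comp_apply, h1, map_zero]
  · obtain ⟨u, hu⟩ := hf (i a)
    refine ⟨⟨u, ?_⟩, ?_⟩
    · rw [LinearMap.mem_ker, LinearMap.comp_apply, hu]
      exact (he _).2 ⟨a, rfl⟩
    · apply e.injective
      rw [LinearMap.comp_apply, LinearEquiv.coe_coe, e.apply_symm_apply]
      exact Subtype.ext hu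

end Pool.Agent.Work.MP_9d1ffa_al
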