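import Pool.Agent.Work.MP_9d1ffa_al.OU1
import Mathlib
import Pool.Agent.Work.MP_9d1ffa_al.UDefs

-- merged part: Pool.Agent.Work.MP_9d1ffa_al.OL0
section
/-! The Witt group of nonsingular quadratic forms. -/

namespace Pool.Agent.Work.MP_9d1ffa_al

open Matrix MonoidAlgebra

set_option linter.unusedSectionVars false
set_option linter.unusedVariables false

variable {R S : Type} [Ring R] [StarRing R] [Ring S] [StarRing S] {ε : ℤˣ} {I J : Type}
  [Fintype I] [DecidableEq I] [Fintype J] [DecidableEq J]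

theorem OL0_ns {ψ μ : Matrix I I R} (h1 : sy ε ψ * μ = 1) (h2 : μ * sy ε ψ = 1) : NS ε ψ :=
  ⟨⟨sy ε ψ, μ, h1, h2⟩, rfl⟩

theorem ns_of_left {ψ C : Matrix I I R} (h : C * sy ε ψ = 1) : NS ε ψ := by
  have h1 : sy ε ψ * ((ε : ℤ) • Cᴴ) = 1 := by
    rw [Matrix.mul_smul, ← Matrix.smul_mul, ← sy_ct, ← conjTranspose_mul, h, conjTranspose_one]
  have h2 : C = (ε : ℤ) • Cᴴ := left_inv_eq_right_inv h h1
  rw [← h2] at h1
  exact OL0_ns h1 h

theorem NS.inv {ψ : Matrix I I R} (h : NS ε ψ) :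
    ∃ μ : Matrix I I R, sy ε ψ * μ = 1 ∧ μ * sy ε ψ = 1 := by
  obtain ⟨u, hu⟩ := h
  exact ⟨(↑u⁻¹ : Matrix I I R), hu ▸ u.mul_inv, hu ▸ u.inv_mul⟩

theorem NS.iso {a : Matrix I I R} {b : Matrix J J R} (h : Iso ε a b) (ha : NS ε a) : NS ε b := by
  obtain ⟨g, g', h1, h2, h⟩ := h
  obtain ⟨μ, -, k⟩ := ha.inv
  refine ns_of_left (C := g'ᴴ * μ * g') ?_
  rw [h.sy_eq, sy_conj]
  calc g'ᴴ * μ * g' * (g * sy ε a * gᴴ) = g'ᴴ * (μ * (g' * g) * sy ε a) * gᴴ := by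
        simp only [Matrix.mul_assoc]
    _ = 1 := by
        rw [h2, Matrix.mul_one, k, Matrix.mul_one, ← conjTranspose_mul, h1, conjTranspose_one]

theorem OL0_sy (a : Matrix I I R) (b : Matrix J J R) :
    sy ε (fromBlocks a 0 0 b) = fromBlocks (sy ε a) 0 0 (sy ε b) := by
  simp [sy_blocks]

theorem NS.sum {a : Matrix I I R} {b : Matrix J J R} (ha : NS ε a) (hb : NS ε b) :
    NS ε (fromBlocks a 0 0 b) := by
  obtain ⟨μ, -, k⟩ := ha.inv
  obtain ⟨μ', -, k'⟩ := hb.inv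
  refine ns_of_left (C := fromBlocks μ 0 0 μ') ?_
  simp [OL0_sy, fromBlocks_multiply, k, k']

theorem NS.left {a : Matrix I I R} {b : Matrix J J R} (h : NS ε (fromBlocks a 0 0 b)) :
    NS ε a := by
  obtain ⟨μ, -, k⟩ := h.inv
  rw [OL0_sy, ← fromBlocks_toBlocks μ, fromBlocks_multiply, ← fromBlocks_one,
    fromBlocks_inj] at k
  exact ns_of_left (C := μ.toBlocks₁₁) (by simpa using k.1)

theorem NS.right {a : Matrix I I R} {b : Matrix J J R} (h : NS ε (fromBlocks a 0 0 b)) :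
    NS ε b :=
  (h.iso (UZ_comm a b)).left

theorem NS.neg {a : Matrix I I R} (ha : NS ε a) : NS ε (-a) := by
  unfold NS
  rw [sy_neg]
  exact IsUnit.neg ha

theorem ns_hyp : NS ε (hypF R I) := by
  refine ns_of_left (C := fromBlocks 0 ((ε : ℤ) • 1) 1 0) ?_
  rw [hypF, sy_blocks, sy_zero, fromBlocks_multiply, ← fromBlocks_one]
  simp only [conjTranspose_zero, conjTranspose_one, smul_zero, add_zero, zero_add, Matrix.mul_zero,
    Matrix.zero_mul, Matrix.mul_one, Matrix.smul_mul, Matrix.one_mul, eps_eps]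

theorem Z.ns {a : Matrix I I R} (h : Z ε a) : NS ε a := by
  obtain ⟨m, n, k⟩ := h
  exact (ns_hyp.iso k.symm).left

theorem NS.map (f : R →+* S) (hf : ∀ x, f (star x) = star (f x)) {a : Matrix I I R}
    (ha : NS ε a) : NS ε (a.map f) := by
  have e : sy ε (a.map f) = f.mapMatrix (sy ε a) := by
    ext i j
    simp only [sy, RingHom.mapMatrix_apply, Matrix.map_apply, Matrix.add_apply, Matrix.smul_apply,
      conjTranspose_apply, _root_.map_add, map_zsmul, hf]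
  unfold NS
  rw [e]
  exact IsUnit.map _ ha

theorem z_sum_neg {a : Matrix I I R} (ha : NS ε a) : Z ε (fromBlocks a 0 0 (-a)) := by
  obtain ⟨μ, h1, h2⟩ := ha.inv
  have e := iso_conj (ε := ε) (fromBlocks a 0 0 (-a))
    (g := (fromBlocks 1 1 0 1 : Matrix (I ⊕ I) (I ⊕ I) R)) (g' := fromBlocks 1 (-1) 0 1)
    (by simp [fromBlocks_multiply]) (by simp [fromBlocks_multiply])
  simp only [fromBlocks_multiply, fromBlocks_conjTranspose, conjTranspose_zero, conjTranspose_one,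
    Matrix.mul_zero, Matrix.zero_mul, Matrix.mul_one, Matrix.one_mul, add_zero, zero_add,
    add_neg_cancel] at e
  have e1 : -a + (ε : ℤ) • (-a)ᴴ = -sy ε a := sy_neg a
  refine Z.iso e.symm (z_lag (-a) (-a) (-a) (-μ) ?_ ?_)
  · rw [e1, Matrix.neg_mul, Matrix.mul_neg, neg_neg, h1]
  · rw [e1, Matrix.neg_mul, Matrix.mul_neg, neg_neg, h2]

section Witt

variable {K L : Type} [Fintype K] [DecidableEq K] [Fintype L] [DecidableEq L]

/-- Witt equivalence of two forms -/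
def OL0W (ε : ℤˣ) (a : Matrix I I R) (b : Matrix J J R) : Prop := Z ε (fromBlocks a 0 0 (-b))

theorem OL0_neg_blocks (a : Matrix I I R) (b : Matrix J J R) :
    -fromBlocks a 0 0 b = fromBlocks (-a) 0 0 (-b) := by
  simp [fromBlocks_neg]

theorem OL0W.neg {a : Matrix I I R} {b : Matrix J J R} (h : OL0W ε a b) : OL0W ε (-a) (-b) := by
  have := Z.neg h
  rwa [OL0_neg_blocks] at this

theorem OL0W.symm {a : Matrix I I R} {b : Matrix J J R} (h : OL0W ε a b) : OL0W ε b a := by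
  have := Z.iso (UZ_comm _ _) h.neg
  rwa [neg_neg] at this

theorem OL0W.iso {a : Matrix I I R} {b : Matrix J J R} {c : Matrix K K R} {d : Matrix L L R}
    (h : OL0W ε a b) (h1 : Iso ε a c) (h2 : Iso ε b d) : OL0W ε c d :=
  Z.iso (h1.sum (UZ_neg h2)) h

theorem OL0W.of_iso {a : Matrix I I R} {b : Matrix J J R} (ha : NS ε a) (h : Iso ε a b) :
    OL0W ε a b :=
  OL0W.iso (z_sum_neg ha) (Iso.refl a) h

theorem OL0W.sum {a : Matrix I I R} {b : Matrix J J R} {c : Matrix K K R} {d : Matrix L L R}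
    (h : OL0W ε a b) (h' : OL0W ε c d) : OL0W ε (fromBlocks a 0 0 c) (fromBlocks b 0 0 d) := by
  unfold OL0W
  rw [OL0_neg_blocks]
  exact Z.iso (UZ_four _ _ _ _) (Z.sum h h')

theorem OL0W.trans {a : Matrix I I R} {b : Matrix J J R} {c : Matrix K K R} (h : OL0W ε a b)
    (h' : OL0W ε b c) : OL0W ε a c := by
  have h1 := Z.iso (((Iso.refl _).sum (UZ_comm _ _)).trans (UZ_four _ _ _ _)) (Z.sum h h')
  exact h1.cancel (Z.iso (UZ_comm _ _) (z_sum_neg (Z.ns h').left))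

theorem OL0W.map (f : R →+* S) (hf : ∀ x, f (star x) = star (f x)) {a : Matrix I I R}
    {b : Matrix J J R} (h : OL0W ε a b) : OL0W ε (a.map f) (b.map f) := by
  have := Z.map f hf h
  rw [fromBlocks_map, Matrix.map_zero _ f.map_zero, Matrix.map_zero _ f.map_zero,
    Matrix.map_neg _ f.map_neg] at this
  exact this

theorem OL0_empty [IsEmpty J] (a : Matrix I I R) (b : Matrix J J R) :
    Iso ε (fromBlocks a 0 0 b) a :=
  UZ_re (Equiv.sumEmpty I J).symm (by ext i j; rfl)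

end Witt

/-- a nonsingular form on a standard free module -/
structure Fm (R : Type) [Ring R] [StarRing R] (ε : ℤˣ) where
  n : ℕ
  ψ : Matrix (Fin n) (Fin n) R
  ns : NS ε ψ

/-- Witt equivalence -/
def fmSetoid (R : Type) [Ring R] [StarRing R] (ε : ℤˣ) : Setoid (Fm R ε) where
  r a b := Z ε (fromBlocks a.ψ 0 0 (-b.ψ))
  iseqv := ⟨fun a => z_sum_neg a.ns, fun h => OL0W.symm h, fun h h' => OL0W.trans h h'⟩

/-- the even Wall group -/
def L0 (R : Type) [Ring R] [StarRing R] (ε : ℤˣ) : Type := Quotient (fmSetoid R ε)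

/-- the form on a standard free module given by a nonsingular form -/
noncomputable def OL0_mk (ψ : Matrix I I R) (h : NS ε ψ) : Fm R ε :=
  ⟨Fintype.card I, ψ.submatrix (Fintype.equivFin I).symm (Fintype.equivFin I).symm,
    h.iso (iso_reindex _ _)⟩

theorem OL0_mk_iso (ψ : Matrix I I R) (h : NS ε ψ) : Iso ε ψ (OL0_mk ψ h).ψ := iso_reindex _ _

/-- the class of a nonsingular form -/
noncomputable def OL0_q (ψ : Matrix I I R) (h : NS ε ψ) : L0 R ε :=
  Quotient.mk (fmSetoid R ε) (OL0_mk ψ h)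

theorem OL0_q_eq {a : Matrix I I R} {b : Matrix J J R} {ha : NS ε a} {hb : NS ε b} :
    OL0_q a ha = OL0_q b hb ↔ OL0W ε a b :=
  Quotient.eq.trans ⟨fun h => OL0W.iso h (OL0_mk_iso a ha).symm (OL0_mk_iso b hb).symm,
    fun h => h.iso (OL0_mk_iso a ha) (OL0_mk_iso b hb)⟩

theorem OL0_q_iso {a : Matrix I I R} {b : Matrix J J R} {ha : NS ε a} {hb : NS ε b}
    (h : Iso ε a b) : OL0_q a ha = OL0_q b hb :=
  OL0_q_eq.2 (OL0W.of_iso ha h)

theorem OL0_q_self (x : Fm R ε) : Quotient.mk (fmSetoid R ε) x = OL0_q x.ψ x.ns :=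
  Quotient.sound (OL0W.of_iso x.ns (OL0_mk_iso _ _))

theorem OL0_q_surj (x : L0 R ε) :
    ∃ (n : ℕ) (ψ : Matrix (Fin n) (Fin n) R) (h : NS ε ψ), OL0_q ψ h = x := by
  obtain ⟨x, rfl⟩ := Quotient.exists_rep x
  exact ⟨x.n, x.ψ, x.ns, (OL0_q_self x).symm⟩

noncomputable instance OL0_add : Add (L0 R ε) :=
  ⟨Quotient.lift₂ (fun a b : Fm R ε => OL0_q _ (a.ns.sum b.ns))
    fun _ _ _ _ h h' => OL0_q_eq.2 (OL0W.sum h h')⟩

noncomputable instance OL0_neg : Neg (L0 R ε) :=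
  ⟨Quotient.lift (fun a : Fm R ε => OL0_q _ a.ns.neg) fun _ _ h => OL0_q_eq.2 (OL0W.neg h)⟩

theorem OL0_ns_empty [IsEmpty I] (a : Matrix I I R) : NS ε a :=
  ns_of_left (C := 1) (Subsingleton.elim _ _)

noncomputable instance OL0_zero : Zero (L0 R ε) :=
  ⟨OL0_q (0 : Matrix (Fin 0) (Fin 0) R) (OL0_ns_empty _)⟩

theorem OL0_q_add {a : Matrix I I R} {b : Matrix J J R} (ha : NS ε a) (hb : NS ε b) :
    OL0_q a ha + OL0_q b hb = OL0_q _ (ha.sum hb) :=
  OL0_q_iso ((OL0_mk_iso a ha).sum (OL0_mk_iso b hb)).symm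

theorem OL0_q_neg {a : Matrix I I R} (ha : NS ε a) : -OL0_q a ha = OL0_q _ ha.neg :=
  OL0_q_iso (UZ_neg (OL0_mk_iso a ha)).symm

theorem OL0_q_zero {a : Matrix I I R} (ha : NS ε a) : OL0_q a ha = 0 ↔ Z ε a :=
  OL0_q_eq.trans ⟨fun h => Z.iso (OL0_empty _ _) h, fun h => Z.iso (OL0_empty _ _).symm h⟩

theorem OL0_add_comm (x y : L0 R ε) : x + y = y + x := by
  obtain ⟨_, a, ha, rfl⟩ := OL0_q_surj x
  obtain ⟨_, b, hb, rfl⟩ := OL0_q_surj y
  rw [OL0_q_add, OL0_q_add]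
  exact OL0_q_iso (UZ_comm _ _)

theorem OL0_add_assoc (x y z : L0 R ε) : x + y + z = x + (y + z) := by
  obtain ⟨_, a, ha, rfl⟩ := OL0_q_surj x
  obtain ⟨_, b, hb, rfl⟩ := OL0_q_surj y
  obtain ⟨_, c, hc, rfl⟩ := OL0_q_surj z
  rw [OL0_q_add, OL0_q_add, OL0_q_add, OL0_q_add]
  exact OL0_q_iso (UZ_assoc _ _ _).symm

theorem OL0_zero_add (x : L0 R ε) : 0 + x = x := by
  obtain ⟨_, a, ha, rfl⟩ := OL0_q_surj x
  rw [OL0_add_comm]
  exact (OL0_q_add ha (OL0_ns_empty _)).trans (OL0_q_iso (OL0_empty _ _))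

theorem OL0_neg_add (x : L0 R ε) : -x + x = 0 := by
  obtain ⟨_, a, ha, rfl⟩ := OL0_q_surj x
  rw [OL0_add_comm, OL0_q_neg, OL0_q_add, OL0_q_zero]
  exact z_sum_neg ha

noncomputable instance L0.group : AddCommGroup (L0 R ε) :=
  { AddGroup.ofLeftAxioms OL0_add_assoc OL0_zero_add OL0_neg_add with
    add_comm := OL0_add_comm }

/-- the class of a form (zero if the form is singular) -/
noncomputable def cls (ε : ℤˣ) (ψ : Matrix I I R) : L0 R ε :=
  open Classical in if h : NS ε ψ then OL0_q ψ h else 0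

theorem OL0_cls {a : Matrix I I R} (ha : NS ε a) : cls ε a = OL0_q a ha := dif_pos ha

theorem OL0_cls' {a : Matrix I I R} (ha : ¬ NS ε a) : cls ε a = 0 := dif_neg ha

theorem cls_iso {a : Matrix I I R} {b : Matrix J J R} (h : Iso ε a b) : cls ε a = cls ε b := by
  by_cases ha : NS ε a
  · rw [OL0_cls ha, OL0_cls (ha.iso h)]
    exact OL0_q_iso h
  · rw [OL0_cls' ha, OL0_cls' fun hb => ha (hb.iso h.symm)]

theorem cls_sum {a : Matrix I I R} {b : Matrix J J R} (ha : NS ε a) (hb : NS ε b) :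
    cls ε (fromBlocks a 0 0 b) = cls ε a + cls ε b := by
  rw [OL0_cls ha, OL0_cls hb, OL0_cls (ha.sum hb), OL0_q_add]

theorem cls_neg (a : Matrix I I R) : cls ε (-a) = -cls ε a := by
  by_cases ha : NS ε a
  · rw [OL0_cls ha, OL0_cls ha.neg, OL0_q_neg]
  · rw [OL0_cls' ha, OL0_cls' fun hb => ha (neg_neg a ▸ hb.neg), neg_zero]

theorem cls_eq_zero {a : Matrix I I R} (ha : NS ε a) : cls ε a = 0 ↔ Z ε a := by
  rw [OL0_cls ha, OL0_q_zero]

theorem cls_surj (x : L0 R ε) :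
    ∃ (n : ℕ) (ψ : Matrix (Fin n) (Fin n) R), NS ε ψ ∧ cls ε ψ = x := by
  obtain ⟨n, ψ, h, rfl⟩ := OL0_q_surj x
  exact ⟨n, ψ, h, OL0_cls h⟩

/-- the map of sets induced by a homomorphism of rings with involution -/
noncomputable def OL0_map (f : R →+* S) (hf : ∀ x, f (star x) = star (f x)) : L0 R ε → L0 S ε :=
  Quotient.lift (fun a : Fm R ε => OL0_q _ (a.ns.map f hf))
    fun _ _ h => OL0_q_eq.2 (OL0W.map f hf h)

theorem OL0_map_q (f : R →+* S) (hf : ∀ x, f (star x) = star (f x)) {a : Matrix I I R}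
    (ha : NS ε a) : OL0_map f hf (OL0_q a ha) = OL0_q _ (ha.map f hf) :=
  OL0_q_iso (UZ_map f hf (OL0_mk_iso a ha)).symm

/-- the map induced by a homomorphism of rings with involution -/
noncomputable def L0.map (f : R →+* S) (hf : ∀ x, f (star x) = star (f x)) :
    L0 R ε →+ L0 S ε :=
  AddMonoidHom.mk' (OL0_map f hf) fun x y => by
    obtain ⟨_, a, ha, rfl⟩ := OL0_q_surj x
    obtain ⟨_, b, hb, rfl⟩ := OL0_q_surj y
    rw [OL0_q_add, OL0_map_q, OL0_map_q, OL0_map_q, OL0_q_add]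
    refine OL0_q_iso (Iso.of_eqv (Eqv.of_eq ?_))
    rw [fromBlocks_map, Matrix.map_zero _ f.map_zero, Matrix.map_zero _ f.map_zero]

theorem map_cls (f : R →+* S) (hf : ∀ x, f (star x) = star (f x)) {a : Matrix I I R}
    (ha : NS ε a) : L0.map f hf (cls ε a) = cls ε (a.map f) := by
  rw [OL0_cls ha, OL0_cls (ha.map f hf)]
  exact OL0_map_q f hf ha

variable {G H K : Type} [Group G] [Group H] [Group K]

theorem NS.mp (f : G →* H) {a : Matrix I I (ZG G)} (ha : NS ε a) : NS ε (mp f a) :=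
  ha.map (gm f) (gm_star f)

/-- the map induced by a homomorphism of groups -/
noncomputable def m0 (ε : ℤˣ) (f : G →* H) : L0 (ZG G) ε →+ L0 (ZG H) ε :=
  L0.map (gm f) (gm_star f)

theorem m0_cls (f : G →* H) {a : Matrix I I (ZG G)} (ha : NS ε a) :
    m0 ε f (cls ε a) = cls ε (mp f a) := map_cls _ _ ha

theorem m0_comp (f : H →* K) (f' : G →* H) (x : L0 (ZG G) ε) :
    m0 ε f (m0 ε f' x) = m0 ε (f.comp f') x := by
  obtain ⟨n, ψ, h, rfl⟩ := cls_surj x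
  rw [m0_cls _ h, m0_cls _ (h.mp f'), m0_cls _ h, mp_mp]

theorem m0_id (x : L0 (ZG G) ε) : m0 ε (MonoidHom.id G) x = x := by
  obtain ⟨n, ψ, h, rfl⟩ := cls_surj x
  rw [m0_cls _ h, mp_id]

end Pool.Agent.Work.MP_9d1ffa_al
end

-- merged part: Pool.Agent.Work.MP_9d1ffa_al.OWin
section
-- merged part: Pool.Agent.Work.MP_9d1ffa_al.OCut
section
/-! Filters along the base edge of an HNN extension. -/

namespace Pool.Agent.Work.MP_9d1ffa_al

open Matrix MonoidAlgebra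

set_option linter.unusedSectionVars false
set_option linter.unusedVariables false

variable {Γ V A : Type} [Group Γ] [Group V] [Group A] {ε : ℤˣ} {I J L : Type} [Fintype I]
  [DecidableEq I] [Fintype J] [DecidableEq J] [Fintype L] [DecidableEq L]

theorem PH.va_t (D : PH Γ V A) (a : A) : D.va a * D.t = D.t * D.v (D.j a) := D.rel a

theorem PH.mp_va_dg (D : PH Γ V A) (X : Matrix I J (ZG A)) :
    mp D.va X * dg J D.t = dg I D.t * mp D.v (mp D.j X) := by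
  rw [mp_mp]
  exact mp_mul_dg _ _ _ D.rel X

theorem PH.mp_va (D : PH Γ V A) (X : Matrix I J (ZG A)) : mp D.va X = mp D.v (mp D.i X) :=
  (mp_mp _ _ _).symm

theorem PH.sy_lin (D : PH Γ V A) (θ : Matrix I I (ZG V)) (P Q : Matrix I J (ZG V)) :
    sy ε (D.lin θ P Q) = mp D.v (sy ε θ) + mp D.v P * dg J D.t * (mp D.v Q)ᴴ +
      (ε : ℤ) • (mp D.v Q * dg J D.t⁻¹ * (mp D.v P)ᴴ) := by
  rw [PH.lin, mp_sy, sy, sy, conjTranspose_add, conjTranspose_mul, conjTranspose_mul,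
    conjTranspose_conjTranspose, dg_ct, smul_add, ← Matrix.mul_assoc]
  abel

theorem PH.sys_eq (D : PH Γ V A) (W : Matrix (I ⊕ I) (I ⊕ I) (ZG V)) (θ : Matrix I I (ZG V))
    (P Q : Matrix I J (ZG V)) :
    D.sys ε W θ P Q = mp D.v (sysM ε W θ) + mp D.v (W.toBlocks₁₁ * P) * dg J D.t * (mp D.v Q)ᴴ +
      (ε : ℤ) • (mp D.v (W.toBlocks₁₁ * Q) * dg J D.t⁻¹ * (mp D.v P)ᴴ) := by
  rw [PH.sys, sysM, PH.sy_lin, mp_sysM, sysM, mp_sy, mp_mul, mp_mul, mp_toBlocks₁₁,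
    Matrix.mul_add, Matrix.mul_add, Matrix.mul_smul]
  simp only [Matrix.mul_assoc]
  abel

theorem PH.sys_one (D : PH Γ V A) (θ : Matrix I I (ZG V)) (P Q : Matrix I J (ZG V)) :
    D.sys ε 1 θ P Q = sy ε (D.lin θ P Q) := by
  rw [PH.sys, mp_one, sysM_one]

namespace Cut

variable (C : Cut Γ V A)

theorem vainj : Function.Injective C.va := C.vinj.comp C.iinj

theorem jinj : Function.Injective C.j := by
  intro a b h
  apply C.vainj
  apply mul_right_cancel (b := C.t)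
  rw [PH.va_t, PH.va_t, h]

theorem npos_v (h : V) : ¬ C.pos (C.v h) := by
  have := C.right 1 h
  rw [one_mul] at this
  exact fun e => C.one (this.1 e)

theorem pos_tv (h : V) : C.pos (C.t * C.v h) := by
  exact (C.right _ h).2 C.tpos

theorem pos_vat (a : A) : C.pos (C.va a * C.t) := by
  rw [PH.va_t]
  exact C.pos_tv _

theorem OCut_pos_t (g : Γ) : C.pos (g * C.t) ↔ C.pos g ∨ ∃ a, C.va a = g := by
  refine ⟨fun h => ?_, fun h => ?_⟩
  · by_cases e : C.pos g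
    · exact Or.inl e
    · exact Or.inr (C.cross g e h)
  · rcases h with h | ⟨a, rfl⟩
    · exact C.up g h
    · exact C.pos_vat a

theorem OCut_excl {g : Γ} (h : C.pos g) : ¬ ∃ a, C.va a = g := by
  rintro ⟨a, rfl⟩
  exact C.npos_v _ h

theorem OCut_pos_tinv (g : Γ) :
    C.pos (g * C.t⁻¹) ↔ C.pos g ∧ ¬ ∃ a, C.va a = g * C.t⁻¹ := by
  have h := C.OCut_pos_t (g * C.t⁻¹)
  rw [inv_mul_cancel_right] at h
  exact ⟨fun e => ⟨h.2 (Or.inl e), C.OCut_excl e⟩, fun e => (h.1 e.1).resolve_right e.2⟩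

theorem OCut_range (a : A) (g : Γ) : (∃ b, C.va b = C.va a * g) ↔ ∃ b, C.va b = g :=
  ⟨fun ⟨b, e⟩ => ⟨a⁻¹ * b, by rw [map_mul, e, map_inv, inv_mul_cancel_left]⟩,
    fun ⟨b, e⟩ => ⟨a * b, by rw [map_mul, e]⟩⟩

theorem left (a : A) (g : Γ) : C.pos (C.va a * g) ↔ C.pos g := by
  have hg : g ∈ Subgroup.closure (insert C.t (Set.range C.v)) := C.gen ▸ Subgroup.mem_top g
  induction hg using Subgroup.closure_induction_right with
  | one => exact iff_of_false (by rw [mul_one]; exact C.npos_v _) C.one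
  | mul_right x _ y hy ih =>
    replace ih : C.pos (C.va a * x) ↔ C.pos x := ih
    rw [← mul_assoc]
    rcases hy with rfl | ⟨h, rfl⟩
    · rw [C.OCut_pos_t, C.OCut_pos_t, ih, C.OCut_range]
    · rw [C.right, C.right, ih]
  | mul_inv_cancel x _ y hy ih =>
    replace ih : C.pos (C.va a * x) ↔ C.pos x := ih
    rcases hy with rfl | ⟨h, rfl⟩
    · rw [C.OCut_pos_tinv, ← C.OCut_range a, ← mul_assoc, C.OCut_pos_tinv, ih]
    · rw [← mul_assoc, ← map_inv, C.right, C.right, ih]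

theorem npos_tinv {g : Γ} (h : ¬ C.pos g) : ¬ C.pos (g * C.t⁻¹) := by
  exact fun e => h ((C.OCut_pos_tinv g).1 e).1

theorem fm_v (X : Matrix L I (ZG Γ)) (B : Matrix I J (ZG V)) :
    fm C.pos (X * mp C.v B) = fm C.pos X * mp C.v B := by
  refine fm_mul_right X (sup_mp C.v B) ?_
  rintro a _ ⟨b, rfl⟩
  exact C.right a b

theorem fm_va (B : Matrix L I (ZG A)) (X : Matrix I J (ZG Γ)) :
    fm C.pos (mp C.va B * X) = mp C.va B * fm C.pos X := by
  refine fm_mul_left (sup_mp C.va B) X ?_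
  rintro _ b ⟨a, rfl⟩
  exact C.left a b

theorem fm_t (X : Matrix L J (ZG Γ)) :
    fm C.pos (X * dg J C.t) =
      fm C.pos X * dg J C.t + mp C.va (rs C.va C.vainj X) * dg J C.t := by
  refine mat_ext fun k l g => ?_
  have h := C.OCut_pos_t (g * C.t⁻¹)
  rw [inv_mul_cancel_right] at h
  rw [mp_rs, Matrix.add_apply, coeff_add, Finsupp.add_apply, coeff_fm, coeff_mul_dg, coeff_mul_dg,
    coeff_mul_dg, coeff_fm, coeff_fm]
  by_cases e : C.pos (g * C.t⁻¹)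
  · rw [if_pos (h.2 (Or.inl e)), if_pos e, if_neg (C.OCut_excl e), add_zero]
  · by_cases e' : ∃ a, C.va a = g * C.t⁻¹
    · rw [if_pos (h.2 (Or.inr e')), if_neg e, if_pos e', zero_add]
    · rw [if_neg fun x => (h.1 x).elim e e', if_neg e, if_neg e', add_zero]

theorem fm_tinv (X : Matrix L J (ZG Γ)) :
    fm C.pos (X * dg J C.t⁻¹) =
      fm C.pos X * dg J C.t⁻¹ - mp C.va (rs C.va C.vainj (X * dg J C.t⁻¹)) := by
  have h := C.fm_t (X * dg J C.t⁻¹)
  rw [Matrix.mul_assoc, dg_inv_mul, Matrix.mul_one] at h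
  rw [h, Matrix.add_mul, Matrix.mul_assoc, Matrix.mul_assoc, dg_mul_inv, Matrix.mul_one,
    Matrix.mul_one, add_sub_cancel_right]

theorem key_pos (W : Matrix (I ⊕ I) (I ⊕ I) (ZG V)) (θ : Matrix I I (ZG V))
    (P Q : Matrix I J (ZG V)) (y : Matrix L I (ZG Γ)) :
    fm C.pos y * C.sys ε W θ P Q = fm C.pos (y * C.sys ε W θ P Q) +
      mp C.va (rs C.va C.vainj (y * C.bd W P Q)) * C.sig ε P Q := by
  rw [PH.sys_eq, PH.bd, PH.sig, mul_fromCols, rs_fromCols, mp_fromCols, fromCols_mul_fromRows,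
    ← mp_ct, ← mp_ct]
  simp only [Matrix.mul_add, Matrix.mul_smul, fm_add, fm_zsmul, ← Matrix.mul_assoc, C.fm_v, C.fm_t,
    C.fm_tinv, Matrix.add_mul, Matrix.sub_mul, Matrix.mul_neg, smul_sub]
  abel

theorem key_neg (W : Matrix (I ⊕ I) (I ⊕ I) (ZG V)) (θ : Matrix I I (ZG V))
    (P Q : Matrix I J (ZG V)) (y : Matrix L I (ZG Γ)) :
    fm (fun g => ¬ C.pos g) y * C.sys ε W θ P Q =
      fm (fun g => ¬ C.pos g) (y * C.sys ε W θ P Q) -
        mp C.va (rs C.va C.vainj (y * C.bd W P Q)) * C.sig ε P Q := by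
  have h1 := fm_add_not C.pos y
  have h2 := fm_add_not C.pos (y * C.sys ε W θ P Q)
  rw [eq_sub_of_add_eq' h1, eq_sub_of_add_eq' h2, Matrix.sub_mul, C.key_pos]
  abel

variable {C}

theorem Side.mul_v {X : Matrix (L ⊕ L) I (ZG Γ)} (h : C.Side X) (B : Matrix I J (ZG V)) :
    C.Side (X * mp C.v B) := by
  constructor
  · refine h.1.mul (sup_mp C.v B) ?_
    rintro a _ ha ⟨b, rfl⟩
    exact (C.right a b).2 ha
  · refine h.2.mul (sup_mp C.v B) ?_
    rintro a _ ha ⟨b, rfl⟩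
    exact fun e => ha ((C.right a b).1 e)

theorem Side.add {X Y : Matrix (L ⊕ L) I (ZG Γ)} (h : C.Side X) (h' : C.Side Y) :
    C.Side (X + Y) := by
  exact ⟨h.1.add h'.1, h.2.add h'.2⟩

theorem Side.neg {X : Matrix (L ⊕ L) I (ZG Γ)} (h : C.Side X) : C.Side (-X) := by
  exact ⟨h.1.neg, h.2.neg⟩

theorem Side.zsmul {X : Matrix (L ⊕ L) I (ZG Γ)} (h : C.Side X) (n : ℤ) : C.Side (n • X) := by
  exact ⟨h.1.zsmul n, h.2.zsmul n⟩

theorem side_fromCols {X : Matrix (L ⊕ L) I (ZG Γ)} {Y : Matrix (L ⊕ L) J (ZG Γ)} :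
    C.Side (fromCols X Y) ↔ C.Side X ∧ C.Side Y := by
  refine ⟨fun h => ⟨⟨fun k l => h.1 k (Sum.inl l), fun k l => h.2 k (Sum.inl l)⟩,
    fun k l => h.1 k (Sum.inr l), fun k l => h.2 k (Sum.inr l)⟩, fun h => ⟨fun k l => ?_,
    fun k l => ?_⟩⟩
  · cases l
    · exact h.1.1 _ _
    · exact h.2.1 _ _
  · cases l
    · exact h.1.2 _ _
    · exact h.2.2 _ _

theorem side_fromRows {X Y : Matrix L I (ZG Γ)} :
    C.Side (fromRows X Y) ↔ Sup C.pos X ∧ Sup (fun g => ¬ C.pos g) Y := Iff.rfl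

end Cut

end Pool.Agent.Work.MP_9d1ffa_al
end

-- merged part: Pool.Agent.Work.MP_9d1ffa_al.OChar
section
/-! Edge frames: characterisation, naturality and local frames. -/

namespace Pool.Agent.Work.MP_9d1ffa_al

open Matrix MonoidAlgebra

set_option linter.unusedSectionVars false
set_option linter.unusedVariables false

variable {Γ V A : Type} [Group Γ] [Group V] [Group A] {ε : ℤˣ} {I J L : Type} [Fintype I]
  [DecidableEq I] [Fintype J] [DecidableEq J] [Fintype L] [DecidableEq L]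
  {W : Matrix (I ⊕ I) (I ⊕ I) (ZG V)} {θ : Matrix I I (ZG V)} {P Q : Matrix I J (ZG V)}
  {U : Matrix (J ⊕ J) (J ⊕ J) (ZG A)}

/-- the clauses of an edge frame, row by row -/
theorem OChar_ef {C : Cut Γ V A} (h : C.EF ε W θ P Q U) (hs : IsUnit (C.sys ε W θ P Q))
    (z : Matrix L (J ⊕ J) (ZG A)) (y : Matrix L I (ZG Γ))
    (e : y * C.sys ε W θ P Q = mp C.va z * C.sig ε P Q) :
    ∃ (Y₁ Y₂ : Matrix J I (ZG Γ)) (k k' : Matrix L J (ZG A)),
      z = k * U.toRows₁ + k' * U.toRows₂ ∧ y = mp C.va k * Y₁ + mp C.va k' * Y₂ ∧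
      Sup C.pos (mp C.va k * Y₁) ∧ Sup (fun g => ¬ C.pos g) (mp C.va k' * Y₂) ∧
      rs C.va C.vainj (Y₁ * (mp C.v (W.toBlocks₁₁ * Q) * dg J C.t⁻¹)) = U.toBlocks₁₂ ∧
      rs C.va C.vainj (Y₂ * mp C.v (W.toBlocks₁₁ * P)) = -U.toBlocks₂₁ := by
  obtain ⟨hU, Y, h1, h2, h3, h4⟩ := h
  obtain ⟨U', -, -, hU'⟩ := hU.inv
  have ez : z = fromCols (z * U').toCols₁ (z * U').toCols₂ * U := by
    rw [fromCols_toCols, Matrix.mul_assoc, hU', Matrix.mul_one]
  generalize (z * U').toCols₁ = k at ez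
  generalize (z * U').toCols₂ = k' at ez
  refine ⟨Y.toRows₁, Y.toRows₂, k, k', ?_, ?_, ?_, ?_, ?_, ?_⟩
  · rw [ez, ← fromCols_mul_fromRows, fromRows_toRows]
  · obtain ⟨μ, hμ⟩ := hs.exists_right_inv
    rw [← fromCols_mul_fromRows, fromRows_toRows, ← mp_fromCols, ← Matrix.mul_one y, ← hμ,
      ← Matrix.mul_assoc, e, ez, mp_mul, Matrix.mul_assoc _ (mp C.va U), ← h1, Matrix.mul_assoc,
      Matrix.mul_assoc, hμ, Matrix.mul_one]
  · refine (sup_mp C.va k).mul h2.1 ?_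
    rintro _ b ⟨a, rfl⟩ hb
    exact (C.left a b).2 hb
  · refine (sup_mp C.va k').mul h2.2 ?_
    rintro _ b ⟨a, rfl⟩ hb
    exact fun e => hb ((C.left a b).1 e)
  · have h5 : Sup C.pos (Y.toRows₁ * (mp C.v (W.toBlocks₁₁ * Q) * dg J C.t⁻¹) -
        mp C.va U.toBlocks₁₂) := by
      rw [← Matrix.mul_assoc]
      exact h4.1
    have := h5.rs_zero (f := C.va) (hf := C.vainj) fun a => C.npos_v _
    rwa [rs_sub, rs_mp, sub_eq_zero] at this
  · have h5 : Sup (fun g => ¬ C.pos g) ((Y.toRows₂ * mp C.v (W.toBlocks₁₁ * P) +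
        mp C.va U.toBlocks₂₁) * dg J C.t) := h3.2
    have h6 := h5.mul (sup_dg C.t⁻¹) (T := fun g => ¬ C.pos (g * C.t)) (by
      rintro a _ ha rfl
      simpa using ha)
    rw [Matrix.mul_assoc, dg_mul_inv, Matrix.mul_one] at h6
    have := h6.rs_zero (f := C.va) (hf := C.vainj) fun a => not_not.2 (C.pos_vat a)
    rwa [rs_add, rs_mp, add_eq_zero_iff_eq_neg] at this

theorem Cut.EF.pos_char {C : Cut Γ V A} (h : C.EF ε W θ P Q U) (hs : IsUnit (C.sys ε W θ P Q))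
    (z : Matrix L (J ⊕ J) (ZG A)) (y : Matrix L I (ZG Γ)) (hy : Sup C.pos y)
    (e : y * C.sys ε W θ P Q = mp C.va z * C.sig ε P Q)
    (e2 : (rs C.va C.vainj (y * C.bd W P Q)).toCols₂ = z.toCols₂) :
    ∃ k : Matrix L J (ZG A), z = k * U.toRows₁ := by
  obtain ⟨Y₁, Y₂, k, k', h1, h2, h3, h4, h5, h6⟩ := OChar_ef h hs z y e
  have h7 : mp C.va k' * Y₂ = 0 :=
    h4.eq_zero (S' := C.pos) (by rw [← sub_eq_iff_eq_add'.2 h2]; exact hy.sub h3) fun g a => a
  rw [h7, add_zero] at h2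
  rw [PH.bd, mul_fromCols, rs_fromCols, toCols₂_fromCols, h2, Matrix.mul_assoc, rs_mp_mul, h5,
    h1] at e2
  have h8 : k' * U.toBlocks₂₂ = 0 := left_eq_add.1 e2
  have h9 : k' * U.toBlocks₂₁ = 0 := by
    rw [← neg_eq_zero, ← Matrix.mul_neg, ← h6, ← rs_mp_mul, ← Matrix.mul_assoc, h7,
      Matrix.zero_mul, rs_zero]
  refine ⟨k, ?_⟩
  rw [h1, add_eq_left, ← fromCols_toCols U.toRows₂, mul_fromCols]
  exact (congrArg₂ fromCols h9 h8).trans fromCols_zero

theorem Cut.EF.neg_char {C : Cut Γ V A} (h : C.EF ε W θ P Q U) (hs : IsUnit (C.sys ε W θ P Q))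
    (z : Matrix L (J ⊕ J) (ZG A)) (y : Matrix L I (ZG Γ)) (hy : Sup (fun g => ¬ C.pos g) y)
    (e : y * C.sys ε W θ P Q = mp C.va z * C.sig ε P Q)
    (e1 : (rs C.va C.vainj (y * C.bd W P Q)).toCols₁ = -z.toCols₁) :
    ∃ k : Matrix L J (ZG A), z = k * U.toRows₂ := by
  obtain ⟨Y₁, Y₂, k, k', h1, h2, h3, h4, h5, h6⟩ := OChar_ef h hs z y e
  have h7 : mp C.va k * Y₁ = 0 :=
    h3.eq_zero (S' := fun g => ¬ C.pos g) (by rw [← sub_eq_iff_eq_add.2 h2]; exact hy.sub h4)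
      fun g a => not_not.2 a
  rw [h7, zero_add] at h2
  rw [PH.bd, mul_fromCols, rs_fromCols, toCols₁_fromCols, h2, Matrix.mul_assoc, rs_mp_mul, h6,
    h1, Matrix.mul_neg, neg_inj] at e1
  have h8 : k * U.toBlocks₁₁ = 0 := right_eq_add.1 e1
  have h9 : k * U.toBlocks₁₂ = 0 := by
    rw [← h5, ← rs_mp_mul, ← Matrix.mul_assoc, h7, Matrix.zero_mul, rs_zero]
  refine ⟨k', ?_⟩
  rw [h1, add_eq_right, ← fromCols_toCols U.toRows₁, mul_fromCols]
  exact (congrArg₂ fromCols h8 h9).trans fromCols_zero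

theorem Loc.ef (C : Cut Γ V A) (hU : Uni (-ε) U) (h : Loc C.i C.j ε W θ P Q U) :
    C.EF ε W θ P Q U := by
  obtain ⟨n₁, n₂, a1, a2, a3, b1, b2, b3⟩ := h
  have hU' : mp C.va U = fromBlocks (mp C.va U.toBlocks₁₁) (mp C.va U.toBlocks₁₂)
      (mp C.va U.toBlocks₂₁) (mp C.va U.toBlocks₂₂) := by rw [← mp_blocks, fromBlocks_toBlocks]
  have c1 : mp C.va U.toCols₁ = fromRows (mp C.va U.toBlocks₁₁) (mp C.va U.toBlocks₂₁) := by
    ext (i | i) j <;> rfl
  have c2 : mp C.va U.toCols₂ = fromRows (mp C.va U.toBlocks₁₂) (mp C.va U.toBlocks₂₂) := by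
    ext (i | i) j <;> rfl
  have t1 : dg J C.t * mp C.v (mp C.j U.toBlocks₁₂) * dg J C.t⁻¹ = mp C.va U.toBlocks₁₂ := by
    rw [← PH.mp_va_dg, Matrix.mul_assoc, dg_mul_inv, Matrix.mul_one]
  have sv : ∀ X : Matrix J J (ZG A), Sup (fun g => ¬ C.pos g) (mp C.va X) := fun X =>
    (sup_mp C.va X).mono (by rintro _ ⟨a, rfl⟩; exact C.npos_v _)
  refine ⟨hU, fromRows (dg J C.t * mp C.v n₁) (mp C.v n₂), ?_, ⟨?_, ?_⟩, ?_, ?_⟩
  · rw [fromRows_mul, hU', PH.sig, fromBlocks_mul_fromRows, PH.sys_eq]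
    congr 1
    · have e : ∀ {M : Type} (B : Matrix I M (ZG V)), dg J C.t * mp C.v n₁ * mp C.v B =
          dg J C.t * mp C.v (n₁ * B) := fun B => by
        ext k l : 2
        simp only [mp, Matrix.map_mul]
        rw [Matrix.mul_assoc]
      simp only [Matrix.mul_add, Matrix.mul_smul, ← Matrix.mul_assoc, e, a1, a2, a3]
      rw [mp_zero, mp_neg, mp_mul, mp_ct, Matrix.mul_zero, Matrix.zero_mul, Matrix.zero_mul,
        add_zero, t1, Matrix.mul_neg, Matrix.mul_neg, ← Matrix.mul_assoc, ← Matrix.mul_assoc,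
        PH.mp_va_dg]
    · simp only [Matrix.mul_add, Matrix.mul_smul, ← Matrix.mul_assoc, ← mp_mul, b1, b2, b3]
      rw [mp_zero, mp_neg, mp_zsmul, mp_mul, mp_ct, Matrix.zero_mul, Matrix.zero_mul, smul_zero,
        add_zero, ← PH.mp_va, ← PH.mp_va, Matrix.mul_neg, ← Matrix.mul_assoc, Matrix.neg_mul,
        Matrix.neg_mul, add_comm]
  · refine (sup_dg C.t).mul (sup_mp C.v n₁) ?_
    rintro _ _ rfl ⟨b, rfl⟩
    exact C.pos_tv b
  · exact (sup_mp C.v n₂).mono (by rintro _ ⟨a, rfl⟩; exact C.npos_v _)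
  · rw [c1, fromRows_mul, Matrix.mul_assoc, ← mp_mul, ← mp_mul, a1, b1, mp_zero, Matrix.mul_zero,
      mp_neg, ← PH.mp_va]
    refine ⟨?_, ?_⟩
    · change Sup _ ((0 + mp C.va U.toBlocks₁₁) * dg J C.t)
      rw [zero_add]
      refine (sup_mp C.va _).mul (sup_dg C.t) ?_
      rintro _ _ ⟨a, rfl⟩ rfl
      exact C.pos_vat a
    · change Sup _ ((-mp C.va U.toBlocks₂₁ + mp C.va U.toBlocks₂₁) * dg J C.t)
      rw [neg_add_cancel, Matrix.zero_mul]
      exact sup_zero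
  · rw [c2, fromRows_mul, Matrix.mul_assoc (dg J C.t), ← mp_mul, ← mp_mul, a2, b2, mp_zero,
      fromRows_mul, t1, Matrix.zero_mul]
    refine ⟨?_, ?_⟩
    · change Sup _ (mp C.va U.toBlocks₁₂ - mp C.va U.toBlocks₁₂)
      rw [sub_self]
      exact sup_zero
    · change Sup _ (0 - mp C.va U.toBlocks₂₂)
      exact sup_zero.sub (sv _)

variable {Γ' V' A' : Type} [Group Γ'] [Group V'] [Group A']

theorem PHom.OChar_v {D : PH Γ V A} {D' : PH Γ' V' A'} (f : PHom D D') {M N : Type}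
    (X : Matrix M N (ZG V)) : mp f.f (mp D.v X) = mp D'.v (mp f.fv X) := by
  rw [mp_mp, mp_mp, show f.f.comp D.v = D'.v.comp f.fv from MonoidHom.ext f.hv]

theorem PHom.OChar_i {D : PH Γ V A} {D' : PH Γ' V' A'} (f : PHom D D') {M N : Type}
    (X : Matrix M N (ZG A)) : mp f.fv (mp D.i X) = mp D'.i (mp f.fa X) := by
  rw [mp_mp, mp_mp, show f.fv.comp D.i = D'.i.comp f.fa from MonoidHom.ext f.hi]

theorem PHom.OChar_j {D : PH Γ V A} {D' : PH Γ' V' A'} (f : PHom D D') {M N : Type}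
    (X : Matrix M N (ZG A)) : mp f.fv (mp D.j X) = mp D'.j (mp f.fa X) := by
  rw [mp_mp, mp_mp, show f.fv.comp D.j = D'.j.comp f.fa from MonoidHom.ext f.hj]

theorem PHom.OChar_va {D : PH Γ V A} {D' : PH Γ' V' A'} (f : PHom D D') {M N : Type}
    (X : Matrix M N (ZG A)) : mp f.f (mp D.va X) = mp D'.va (mp f.fa X) := by
  rw [PH.va, PH.va, ← mp_mp D.v, f.OChar_v, f.OChar_i, mp_mp D'.v]

theorem PHom.lin {D : PH Γ V A} {D' : PH Γ' V' A'} (f : PHom D D') (θ : Matrix I I (ZG V))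
    (P Q : Matrix I J (ZG V)) :
    mp f.f (D.lin θ P Q) = D'.lin (mp f.fv θ) (mp f.fv P) (mp f.fv Q) := by
  rw [PH.lin, PH.lin, mp_add, mp_mul, mp_mul, mp_ct, mp_dg, f.ht, f.OChar_v, f.OChar_v,
    f.OChar_v]

theorem PHom.sys {D : PH Γ V A} {D' : PH Γ' V' A'} (f : PHom D D')
    (W : Matrix (I ⊕ I) (I ⊕ I) (ZG V)) (θ : Matrix I I (ZG V)) (P Q : Matrix I J (ZG V)) :
    mp f.f (D.sys ε W θ P Q) = D'.sys ε (mp f.fv W) (mp f.fv θ) (mp f.fv P) (mp f.fv Q) := by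
  rw [PH.sys, PH.sys, mp_sysM, f.lin, f.OChar_v]

theorem Loc.map {D : PH Γ V A} {D' : PH Γ' V' A'} (f : PHom D D')
    (h : Loc D.i D.j ε W θ P Q U) :
    Loc D'.i D'.j ε (mp f.fv W) (mp f.fv θ) (mp f.fv P) (mp f.fv Q) (mp f.fa U) := by
  obtain ⟨n₁, n₂, a1, a2, a3, b1, b2, b3⟩ := h
  refine ⟨mp f.fv n₁, mp f.fv n₂, ?_, ?_, ?_, ?_, ?_, ?_⟩
  all_goals simp only [mp_toBlocks₁₁, mp_toBlocks₁₂, mp_toBlocks₂₁, mp_toBlocks₂₂, ← mp_sysM,
    ← f.OChar_i, ← f.OChar_j, ← mp_ct, ← mp_mul, ← mp_neg, ← mp_zsmul, a1, a2, a3, b1, b2, b3,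
    mp_zero]

theorem Cut.EF.map {C : Cut Γ V A} {C' : Cut Γ' V' A'} (f : PHom C.toPH C'.toPH)
    (hp : ∀ g, C'.pos (f.f g) ↔ C.pos g) (h : C.EF ε W θ P Q U) :
    C'.EF ε (mp f.fv W) (mp f.fv θ) (mp f.fv P) (mp f.fv Q) (mp f.fa U) := by
  obtain ⟨hU, Y, h1, h2, h3, h4⟩ := h
  have sd : ∀ {M : Type} {X : Matrix (J ⊕ J) M (ZG Γ)}, C.Side X → C'.Side (mp f.f X) :=
    fun h => ⟨h.1.map f.f fun g a => (hp g).2 a, h.2.map f.f fun g a e => a ((hp g).1 e)⟩
  refine ⟨hU.mp _, mp f.f Y, ?_, sd h2, ?_, ?_⟩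
  · rw [← f.sys, ← mp_mul, h1, mp_mul, f.OChar_va, PH.sig, PH.sig, mp_fromRows, mp_neg, mp_mul,
      mp_zsmul, mp_ct, mp_ct, mp_dg, f.ht, f.OChar_v, f.OChar_v]
  · have := sd h3
    rwa [mp_mul, mp_add, mp_mul, mp_dg, f.ht, f.OChar_v, f.OChar_va, mp_mul] at this
  · have := sd h4
    rwa [mp_sub, mp_mul, mp_mul, mp_dg, map_inv, f.ht, f.OChar_v, f.OChar_va, mp_mul] at this

/-- the product of a splitting with a group -/
def Cut.prod (C : Cut Γ V A) (K : Type) [Group K] : Cut (Γ × K) (V × K) (A × K) where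
  toPH := C.toPH.prod K
  pos g := C.pos g.1
  vinj := C.vinj.prodMap Function.injective_id
  iinj := C.iinj.prodMap Function.injective_id
  right g h := C.right g.1 h.1
  one := C.one
  tpos := C.tpos
  up g := C.up g.1
  cross g h h' := by
    obtain ⟨a, ha⟩ := C.cross g.1 h h'
    exact ⟨(a, g.2), Prod.ext ha rfl⟩
  gen := by
    refine eq_top_iff.2 fun g _ => ?_
    have h1 : g.1 ∈ Subgroup.closure (insert C.t (Set.range C.v)) := C.gen ▸ Subgroup.mem_top _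
    have h2 := (Subgroup.closure_le ((Subgroup.closure (insert (C.toPH.prod K).t
      (Set.range (C.toPH.prod K).v))).comap (MonoidHom.inl Γ K))).2 (by
        rintro _ (rfl | ⟨h, rfl⟩)
        · exact Subgroup.subset_closure (Or.inl rfl)
        · exact Subgroup.subset_closure (Or.inr ⟨(h, 1), rfl⟩)) h1
    have h3 : g = MonoidHom.inl Γ K g.1 * (C.toPH.prod K).v (1, g.2) := by
      simp [PH.prod]
    rw [h3]
    exact mul_mem h2 (Subgroup.subset_closure (Or.inr ⟨_, rfl⟩))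

/-- the product of a morphism with a group -/
def PHom.prod {D : PH Γ V A} {D' : PH Γ' V' A'} (f : PHom D D') (K : Type) [Group K] :
    PHom (D.prod K) (D'.prod K) where
  f := f.f.prodMap (MonoidHom.id K)
  fv := f.fv.prodMap (MonoidHom.id K)
  fa := f.fa.prodMap (MonoidHom.id K)
  hv h := Prod.ext (f.hv h.1) rfl
  hi a := Prod.ext (f.hi a.1) rfl
  hj a := Prod.ext (f.hj a.1) rfl
  ht := Prod.ext f.ht rfl

/-- the splitting of the product with the infinite cyclic group -/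
def Cut.line (V : Type) [Group V] : Cut (V × Multiplicative ℤ) V V where
  v := MonoidHom.inl _ _
  i := MonoidHom.id V
  j := MonoidHom.id V
  t := (1, Multiplicative.ofAdd 1)
  rel a := by simp
  pos g := 1 ≤ g.2.toAdd
  vinj := fun a b h => congrArg Prod.fst h
  iinj := Function.injective_id
  right g h := by simp
  one := by simp
  tpos := by simp
  up g h := by
    simp only [Prod.snd_mul, toAdd_mul, toAdd_ofAdd]
    omega
  cross g h h' := by
    simp only [Prod.snd_mul, toAdd_mul, toAdd_ofAdd] at h'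
    refine ⟨g.1, Prod.ext rfl ?_⟩
    have : g.2.toAdd = 0 := by omega
    exact Multiplicative.toAdd.injective this.symm
  gen := by
    refine eq_top_iff.2 fun g _ => ?_
    have h3 : g = MonoidHom.inl V _ g.1 * (1, Multiplicative.ofAdd 1) ^ g.2.toAdd := by
      ext
      · simp
      · simp [← ofAdd_zsmul]
    rw [h3]
    exact mul_mem (Subgroup.subset_closure (Or.inr ⟨_, rfl⟩))
      (Subgroup.zpow_mem _ (Subgroup.subset_closure (Set.mem_insert _ _)) _)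

/-- naturality of the splitting of the product with the infinite cyclic group -/
def PHom.line (f : V →* V') : PHom (Cut.line V).toPH (Cut.line V').toPH where
  f := f.prodMap (MonoidHom.id _)
  fv := f
  fa := f
  hv h := rfl
  hi a := rfl
  hj a := rfl
  ht := Prod.ext (map_one f) rfl

end Pool.Agent.Work.MP_9d1ffa_al
end

-- merged part: Pool.Agent.Work.MP_9d1ffa_al.OLin
section
/-! Linearisation of quadratic forms over an HNN extension. -/

namespace Pool.Agent.Work.MP_9d1ffa_al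

open Matrix MonoidAlgebra

set_option linter.unusedSectionVars false
set_option linter.unusedVariables false

section Alg

variable {R : Type} [Ring R] [StarRing R] {ε : ℤˣ} {I J N : Type} [Fintype I] [DecidableEq I]
  [Fintype J] [DecidableEq J] [Fintype N] [DecidableEq N]

/-- the extended form -/
def OLin_ext (φ : Matrix I I R) (X : Matrix I J R) (κ : Matrix J J R) : Matrix (I ⊕ J) (I ⊕ J) R :=
  fromBlocks (φ + X * κ * Xᴴ) (X * κ) (κ * Xᴴ) κ

theorem OLin_z {φ : Matrix I I R} {κ : Matrix J J R} (h : Z ε φ) (h' : Z ε κ) (X : Matrix I J R) :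
    Z ε (OLin_ext φ X κ) := by
  refine Z.iso ⟨fromBlocks 1 X 0 1, fromBlocks 1 (-X) 0 1, ?_, ?_, Eqv.of_eq ?_⟩ (h.sum h')
  · simp [fromBlocks_multiply]
  · simp [fromBlocks_multiply]
  · simp [fromBlocks_multiply, fromBlocks_conjTranspose, OLin_ext]

theorem OLin_ext_ext (φ : Matrix I I R) (X : Matrix I J R) (κ : Matrix J J R) (X₁ : Matrix I N R)
    (X₂ : Matrix J N R) (κ' : Matrix N N R) :
    OLin_ext φ (fromCols X (X₁ - X * X₂)) (OLin_ext κ X₂ κ') =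
      (OLin_ext (OLin_ext φ X κ) (fromRows X₁ X₂) κ').submatrix (Equiv.sumAssoc I J N).symm
        (Equiv.sumAssoc I J N).symm := by
  have h1 : fromCols X (X₁ - X * X₂) * OLin_ext κ X₂ κ' =
      fromCols (X * κ + X₁ * κ' * X₂ᴴ) (X₁ * κ') := by
    rw [OLin_ext, fromCols_mul_fromBlocks]
    congr 1 <;> simp only [Matrix.mul_add, Matrix.sub_mul, Matrix.mul_assoc] <;> abel
  have h2 : OLin_ext κ X₂ κ' * (fromCols X (X₁ - X * X₂))ᴴ =
      fromRows (κ * Xᴴ + X₂ * κ' * X₁ᴴ) (κ' * X₁ᴴ) := by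
    rw [OLin_ext, conjTranspose_fromCols_eq_fromRows_conjTranspose, fromBlocks_mul_fromRows]
    congr 1 <;> simp only [Matrix.add_mul, Matrix.mul_sub, Matrix.mul_assoc, conjTranspose_sub,
      conjTranspose_mul] <;> abel
  have h3 : fromCols (X * κ + X₁ * κ' * X₂ᴴ) (X₁ * κ') * (fromCols X (X₁ - X * X₂))ᴴ =
      X * κ * Xᴴ + X₁ * κ' * X₁ᴴ := by
    rw [conjTranspose_fromCols_eq_fromRows_conjTranspose, fromCols_mul_fromRows]
    simp only [Matrix.add_mul, Matrix.mul_sub, Matrix.mul_assoc, conjTranspose_sub,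
      conjTranspose_mul]
    abel
  rw [OLin_ext, h2, h1, h3]
  simp only [OLin_ext, conjTranspose_fromRows_eq_fromCols_conjTranspose, fromRows_mul,
    mul_fromCols]
  ext (i | i | i) (j | j | j) <;> simp [add_assoc]

theorem OLin_ext_add (φ φ' : Matrix I I R) (X : Matrix I J R) (κ : Matrix J J R)
    (X' : Matrix I N R) (κ' : Matrix N N R) :
    OLin_ext (φ + φ') (fromCols X X') (fromBlocks κ 0 0 κ') =
      (fromBlocks (OLin_ext φ X κ) 0 0 (0 : Matrix N N R)).submatrix (Equiv.sumAssoc I J N).symm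
        (Equiv.sumAssoc I J N).symm +
      (fromBlocks (OLin_ext φ' X' κ') 0 0 (0 : Matrix J J R)).submatrix
        (Sum.elim (Sum.inl ∘ Sum.inl) (Sum.elim Sum.inr (Sum.inl ∘ Sum.inr)))
        (Sum.elim (Sum.inl ∘ Sum.inl) (Sum.elim Sum.inr (Sum.inl ∘ Sum.inr))) := by
  simp only [OLin_ext, conjTranspose_fromCols_eq_fromRows_conjTranspose, fromCols_mul_fromBlocks,
    fromBlocks_mul_fromRows, fromCols_mul_fromRows, Matrix.mul_zero, Matrix.zero_mul, add_zero,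
    zero_add]
  ext (i | i | i) (j | j | j) <;> simp [add_add_add_comm]

theorem OLin_ext_mul (a b : Matrix I J R) (u w : Matrix J J R) :
    OLin_ext (a * (u * w) * bᴴ) (fromCols (-(b * wᴴ)) (-(a * u))) (fromBlocks 0 0 (-1) 0) =
      fromRows a 0 * u * (fromRows (0 : Matrix I J R) (fromRows 1 0))ᴴ +
        fromRows (0 : Matrix I J R) (fromRows 0 1) * w * (fromRows b 0)ᴴ +
        fromBlocks 0 0 0 (fromBlocks 0 0 (-1) 0) := by
  simp only [OLin_ext, conjTranspose_fromCols_eq_fromRows_conjTranspose, fromCols_mul_fromBlocks,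
    fromBlocks_mul_fromRows, fromCols_mul_fromRows, Matrix.mul_zero, Matrix.zero_mul, add_zero,
    zero_add, conjTranspose_fromRows_eq_fromCols_conjTranspose, fromRows_mul, mul_fromCols,
    conjTranspose_neg, conjTranspose_mul, conjTranspose_conjTranspose, Matrix.mul_neg,
    Matrix.neg_mul, Matrix.mul_one, Matrix.one_mul, neg_neg, conjTranspose_zero,
    conjTranspose_one, Matrix.mul_assoc, add_neg_cancel]
  ext (i | i | i) (j | j | j) <;> simp

theorem OLin_zk : Z ε (fromBlocks 0 0 (-1) 0 : Matrix (J ⊕ J) (J ⊕ J) R) := by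
  refine z_lag 0 (-1) 0 (-((ε : ℤ) • 1)) ?_ ?_ <;>
    simp only [zero_add, conjTranspose_neg, conjTranspose_one, smul_neg, Matrix.mul_neg,
      Matrix.neg_mul, neg_neg, Matrix.mul_smul, Matrix.smul_mul, Matrix.mul_one, eps_eps]

end Alg

variable {Γ V A : Type} [Group Γ] [Group V] [Group A] {ε : ℤˣ} {I J : Type} [Fintype I]
  [DecidableEq I] [Fintype J] [DecidableEq J] {D : PH Γ V A}

/-- the form is linear in the stable letter -/
def OLin_L (D : PH Γ V A) (ε : ℤˣ) (F : Matrix I I (ZG Γ)) : Prop :=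
  ∃ (J : Type) (_ : Fintype J) (_ : DecidableEq J) (θ : Matrix I I (ZG V))
    (P Q : Matrix I J (ZG V)), Eqv ε F (D.lin θ P Q)

theorem OLin_mk {φ : Matrix I I (ZG Γ)} {κ : Matrix J J (ZG Γ)} (hz : Z ε κ)
    (X : Matrix I J (ZG Γ)) (h : OLin_L D ε (OLin_ext φ X κ)) : D.LinOK ε φ := by
  obtain ⟨K, _, _, θ, P, Q, h⟩ := h
  exact ⟨J, inferInstance, inferInstance, κ, X, K, inferInstance, inferInstance, θ, P, Q, hz.ns,
    hz, h⟩

theorem OLin_sub {F : Matrix I I (ZG Γ)} (h : OLin_L D ε F) (e : J → I) :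
    OLin_L D ε (F.submatrix e e) := by
  obtain ⟨K, _, _, θ, P, Q, χ, h⟩ := h
  exact ⟨K, inferInstance, inferInstance, θ.submatrix e e, P.submatrix e id, Q.submatrix e id,
    χ.submatrix e e, congrArg (fun M : Matrix I I (ZG Γ) => M.submatrix e e) h⟩

theorem OLin_pad {F : Matrix I I (ZG Γ)} (h : OLin_L D ε F) :
    OLin_L D ε (fromBlocks F 0 0 (0 : Matrix J J (ZG Γ))) := by
  obtain ⟨K, _, _, θ, P, Q, h⟩ := h
  refine ⟨K, inferInstance, inferInstance, fromBlocks θ 0 0 0, fromRows P 0, fromRows Q 0,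
    (eqv_blocks h (Eqv.refl _) rfl).trans (Eqv.of_eq ?_)⟩
  simp only [PH.lin, mp_blocks, mp_fromRows, mp_zero, fromRows_mul,
    conjTranspose_fromRows_eq_fromCols_conjTranspose, mul_fromCols, conjTranspose_zero,
    Matrix.mul_zero, Matrix.zero_mul]
  ext (i | i) (j | j) <;> simp

theorem OLin_add {F F' : Matrix I I (ZG Γ)} (h : OLin_L D ε F) (h' : OLin_L D ε F') :
    OLin_L D ε (F + F') := by
  obtain ⟨K, _, _, θ, P, Q, h⟩ := h
  obtain ⟨K', _, _, θ', P', Q', h'⟩ := h'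
  refine ⟨K ⊕ K', inferInstance, inferInstance, θ + θ', fromCols P P', fromCols Q Q',
    (h.add h').trans (Eqv.of_eq ?_)⟩
  simp only [PH.lin, mp_add, mp_fromCols, dg_blocks, fromCols_mul_fromBlocks,
    conjTranspose_fromCols_eq_fromRows_conjTranspose, fromCols_mul_fromRows, Matrix.mul_zero,
    add_zero, zero_add]
  abel

theorem OLin_ok {F : Matrix I I (ZG Γ)} (h : OLin_L D ε F) : D.LinOK ε F := by
  refine OLin_mk (z_hyp Empty) 0 ?_
  have h1 := OLin_sub h (Sum.elim id (Sum.elim Empty.elim Empty.elim) : I ⊕ Empty ⊕ Empty → I)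
  convert h1 using 1
  rw [OLin_ext, Matrix.zero_mul, Matrix.zero_mul, add_zero]
  ext (i | i | i) (j | j | j) <;> first | rfl | exact i.elim | exact j.elim

theorem OLin_out {φ : Matrix I I (ZG Γ)} (h : D.LinOK ε φ) :
    ∃ (N : Type) (_ : Fintype N) (_ : DecidableEq N) (κ : Matrix N N (ZG Γ))
      (X : Matrix I N (ZG Γ)), Z ε κ ∧ OLin_L D ε (OLin_ext φ X κ) := by
  obtain ⟨N, _, _, κ, X, K, _, _, θ, P, Q, -, hz, h⟩ := h
  exact ⟨N, inferInstance, inferInstance, κ, X, hz, K, inferInstance, inferInstance, θ, P, Q, h⟩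

theorem PH.LinOK.eqv {φ φ' : Matrix I I (ZG Γ)} (h : D.LinOK ε φ) (e : Eqv ε φ φ') :
    D.LinOK ε φ' := by
  obtain ⟨N, _, _, κ, X, K, _, _, θ, P, Q, h1, hz, h⟩ := h
  exact ⟨N, inferInstance, inferInstance, κ, X, K, inferInstance, inferInstance, θ, P, Q, h1, hz,
    (eqv_blocks (e.symm.add (Eqv.refl _)) (Eqv.refl _) rfl).trans h⟩

theorem PH.linOK_lin (θ : Matrix I I (ZG V)) (P Q : Matrix I J (ZG V)) :
    D.LinOK ε (D.lin θ P Q) :=
  OLin_ok ⟨J, inferInstance, inferInstance, θ, P, Q, Eqv.refl _⟩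

theorem OLin_mp (θ : Matrix I I (ZG V)) : D.LinOK ε (mp D.v θ) := by
  have h := D.linOK_lin (ε := ε) θ (0 : Matrix I I (ZG V)) 0
  rwa [PH.lin, mp_zero, Matrix.zero_mul, Matrix.zero_mul, add_zero] at h

theorem PH.LinOK.add {φ φ' : Matrix I I (ZG Γ)} (h : D.LinOK ε φ) (h' : D.LinOK ε φ') :
    D.LinOK ε (φ + φ') := by
  obtain ⟨N, _, _, κ, X, hz, h⟩ := OLin_out h
  obtain ⟨N', _, _, κ', X', hz', h'⟩ := OLin_out h'
  refine OLin_mk (hz.sum hz') (fromCols X X') ?_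
  rw [OLin_ext_add]
  exact OLin_add (OLin_sub (OLin_pad h) _) (OLin_sub (OLin_pad h') _)

theorem PH.LinOK.of_ext {φ : Matrix I I (ZG Γ)} {κ : Matrix J J (ZG Γ)} (hκ : NS ε κ)
    (hz : Z ε κ) (X : Matrix I J (ZG Γ))
    (h : D.LinOK ε (fromBlocks (φ + X * κ * Xᴴ) (X * κ) (κ * Xᴴ) κ)) : D.LinOK ε φ := by
  obtain ⟨N, _, _, κ', X', hz', h⟩ := OLin_out h
  rw [← fromRows_toRows X'] at h
  refine OLin_mk (OLin_z hz hz' X'.toRows₂) (fromCols X (X'.toRows₁ - X * X'.toRows₂)) ?_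
  rw [OLin_ext_ext]
  exact OLin_sub h _

theorem PH.linOK_mono (gen : Subgroup.closure (insert D.t (Set.range D.v)) = ⊤) (g : Γ) :
    ∀ (I S : Type) [Fintype I] [DecidableEq I] [Fintype S] [DecidableEq S]
      (Y Z : Matrix I S (ZG V)), D.LinOK ε (mp D.v Y * dg S g * (mp D.v Z)ᴴ) := by
  have hv : ∀ (h : V) (I S : Type) [Fintype I] [DecidableEq I] [Fintype S] [DecidableEq S]
      (Y Z : Matrix I S (ZG V)), D.LinOK ε (mp D.v Y * dg S (D.v h) * (mp D.v Z)ᴴ) := by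
    intro h I S _ _ _ _ Y Z
    rw [← mp_dg, ← mp_ct, ← mp_mul, ← mp_mul]
    exact OLin_mp _
  have hg : g ∈ Subgroup.closure (insert D.t (Set.range D.v)) := gen ▸ Subgroup.mem_top g
  induction hg using Subgroup.closure_induction with
  | mem x hx =>
    obtain rfl | ⟨h, rfl⟩ := hx
    · intro I S _ _ _ _ Y Z
      have h := D.linOK_lin (ε := ε) 0 Y Z
      rwa [PH.lin, mp_zero, zero_add] at h
    · exact hv h
  | one => exact map_one D.v ▸ hv 1
  | mul x y _ _ hx hy =>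
    intro I S _ _ _ _ Y Z
    refine PH.LinOK.of_ext (OLin_zk (J := S)).ns OLin_zk
      (fromCols (-(mp D.v Z * (dg S y)ᴴ)) (-(mp D.v Y * dg S x))) ?_
    have h1 := hx _ S (fromRows Y 0) (fromRows (0 : Matrix I S (ZG V))
      (fromRows (1 : Matrix S S (ZG V)) (0 : Matrix S S (ZG V))))
    have h2 := hy _ S (fromRows (0 : Matrix I S (ZG V))
      (fromRows (0 : Matrix S S (ZG V)) (1 : Matrix S S (ZG V)))) (fromRows Z 0)
    have h3 := (h1.add h2).add (OLin_mp (fromBlocks 0 0 0 (fromBlocks 0 0 (-1) 0)))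
    simp only [mp_fromRows, mp_blocks, mp_zero, mp_one, mp_neg] at h3
    rwa [← OLin_ext_mul, dg_mul] at h3
  | inv x _ hx =>
    intro I S _ _ _ _ Y Z
    have h := (hx I S ((ε : ℤ) • Z) Y).eqv (eqv_swap _)
    rwa [mp_zsmul, Matrix.smul_mul, Matrix.smul_mul, ct_zsmul, eps_eps, conjTranspose_mul,
      conjTranspose_mul, conjTranspose_conjTranspose, dg_ct, ← Matrix.mul_assoc] at h

theorem PH.linOK_all (gen : Subgroup.closure (insert D.t (Set.range D.v)) = ⊤)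
    (φ : Matrix I I (ZG Γ)) : D.LinOK ε φ := by
  classical
  obtain ⟨s, hs⟩ := exists_sup_finset φ
  have h1 : ∀ s : Finset Γ, D.LinOK ε (∑ g ∈ s, mp D.v (Matrix.of fun k l =>
      single 1 ((φ k l).coeff g)) * dg I g * (mp D.v (1 : Matrix I I (ZG V)))ᴴ) := fun s => by
    induction s using Finset.induction_on with
    | empty =>
      rw [Finset.sum_empty, ← mp_zero D.v]
      exact OLin_mp _
    | insert g s hg ih =>
      rw [Finset.sum_insert hg]
      exact (PH.linOK_mono gen g I I _ _).add ih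
  convert h1 s using 1
  refine mat_ext fun k l h => ?_
  simp only [mp_one, conjTranspose_one, Matrix.mul_one, Matrix.sum_apply, coeff_sum,
    Finsupp.finsetSum_apply, coeff_mul_dg, mp_apply, Matrix.of_apply, gm_single, map_one,
    coeff_single, Finsupp.single_apply, eq_mul_inv_iff_mul_eq, one_mul, Finset.sum_ite_eq']
  split_ifs with e
  · rfl
  · by_contra e'
    exact e (hs k l h e')

end Pool.Agent.Work.MP_9d1ffa_al
end

-- merged part: Pool.Agent.Work.MP_9d1ffa_al.OFrame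
section
/-! Frames from complementary isotropic idempotents. -/

namespace Pool.Agent.Work.MP_9d1ffa_al

open Matrix MonoidAlgebra

set_option linter.unusedSectionVars false
set_option linter.unusedVariables false

variable {G : Type} [Group G] {η : ℤˣ} {I J : Type} [Fintype I] [DecidableEq I] [Fintype J]
  [DecidableEq J]

theorem card_eq_of_inv {a : Matrix I J (ZG G)} {b : Matrix J I (ZG G)} (h1 : a * b = 1)
    (h2 : b * a = 1) : Fintype.card I = Fintype.card J := by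
  let f : ZG G →+* ℤ := (MonoidAlgebra.lift ℤ ℤ G 1).toRingHom
  have k1 : a.map f * b.map f = 1 := by
    rw [← Matrix.map_mul, h1, Matrix.map_one _ (map_zero f) (map_one f)]
  have k2 : b.map f * a.map f = 1 := by
    rw [← Matrix.map_mul, h2, Matrix.map_one _ (map_zero f) (map_one f)]
  have k3 := Matrix.trace_mul_comm (a.map f) (b.map f)
  rw [k1, k2, trace_one, trace_one] at k3
  exact_mod_cast k3

section

variable {R : Type} [Ring R] [StarRing R] {b b' : Type} [Fintype b] [DecidableEq b] [Fintype b']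
  [DecidableEq b']

theorem OFrame_iso {E ψ : Matrix I I R} {A : Matrix b I R} {W : Matrix I b R} (a1 : A * W = 1)
    (a2 : W * A = E) (e : Eqv η 0 (E * ψ * Eᴴ)) : Eqv η 0 (A * ψ * Aᴴ) := by
  have u1 : A * E = A := by rw [← a2, ← Matrix.mul_assoc, a1, Matrix.one_mul]
  have h1 : A * (E * ψ * Eᴴ) * Aᴴ = A * ψ * Aᴴ := by
    conv_rhs => rw [← u1]
    simp only [conjTranspose_mul, Matrix.mul_assoc]
  have h2 := e.conj A
  rwa [h1, Matrix.mul_zero, Matrix.zero_mul] at h2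

theorem OFrame_sy {ψ : Matrix I I R} {A : Matrix b I R} (e : Eqv η 0 (A * ψ * Aᴴ)) :
    A * sy η ψ * Aᴴ = 0 := by
  rw [← sy_conj, ← e.sy_eq, sy_zero]

theorem OFrame_perp {E : Matrix I I R} {A : Matrix b I R} {W : Matrix I b R} {A' : Matrix b' I R}
    {W' : Matrix I b' R} (a1 : A * W = 1) (a2 : W * A = E) (a1' : A' * W' = 1)
    (a2' : W' * A' = 1 - E) : A * E = A ∧ A' * E = 0 ∧ A * W' = 0 ∧ A' * W = 0 := by
  have u1 : A * E = A := by rw [← a2, ← Matrix.mul_assoc, a1, Matrix.one_mul]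
  have u2 : E * W = W := by rw [← a2, Matrix.mul_assoc, a1, Matrix.mul_one]
  have u1' : A' * (1 - E) = A' := by rw [← a2', ← Matrix.mul_assoc, a1', Matrix.one_mul]
  have u2' : (1 - E) * W' = W' := by rw [← a2', Matrix.mul_assoc, a1', Matrix.mul_one]
  have u3 : A' * E = 0 := by
    rwa [Matrix.mul_sub, Matrix.mul_one, sub_eq_self] at u1'
  refine ⟨u1, u3, ?_, ?_⟩
  · rw [← u2', ← Matrix.mul_assoc, Matrix.mul_sub, u1, Matrix.mul_one, sub_self, Matrix.zero_mul]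
  · rw [← u2, ← Matrix.mul_assoc, u3, Matrix.zero_mul]

theorem OFrame_T {E Ω μ : Matrix I I R} {A : Matrix b I R} {W : Matrix I b R}
    {A' : Matrix b' I R} {W' : Matrix I b' R} (h1 : Ω * μ = 1) (h2 : μ * Ω = 1) (a1 : A * W = 1)
    (a2 : W * A = E) (a1' : A' * W' = 1) (a2' : W' * A' = 1 - E) (c1 : A * Ω * Aᴴ = 0)
    (c2 : A' * Ω * A'ᴴ = 0) :
    ∃ T' : Matrix b' b R, (A * Ω * A'ᴴ) * T' = 1 ∧ T' * (A * Ω * A'ᴴ) = 1 := by
  have a3 : W * A = 1 - W' * A' := by rw [a2, a2', sub_sub_cancel]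
  refine ⟨W'ᴴ * μ * W, ?_, ?_⟩
  · calc (A * Ω * A'ᴴ) * (W'ᴴ * μ * W) = A * Ω * (W' * A')ᴴ * (μ * W) := by
          simp only [conjTranspose_mul, Matrix.mul_assoc]
      _ = A * (Ω * μ) * W - A * Ω * Aᴴ * (Wᴴ * μ * W) := by
          rw [a2', ← a2]
          simp only [conjTranspose_sub, conjTranspose_one, conjTranspose_mul, Matrix.mul_sub,
            Matrix.sub_mul, Matrix.mul_one, Matrix.mul_assoc]
      _ = 1 := by rw [h1, c1, Matrix.mul_one, a1, Matrix.zero_mul, sub_zero]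
  · calc (W'ᴴ * μ * W) * (A * Ω * A'ᴴ) = W'ᴴ * μ * (W * A) * (Ω * A'ᴴ) := by
          simp only [Matrix.mul_assoc]
      _ = W'ᴴ * (μ * Ω) * A'ᴴ - W'ᴴ * μ * W' * (A' * Ω * A'ᴴ) := by
          rw [a3]
          simp only [Matrix.mul_sub, Matrix.sub_mul, Matrix.mul_one, Matrix.mul_assoc]
      _ = 1 := by
          rw [h2, c2, Matrix.mul_one, Matrix.mul_zero, sub_zero, ← conjTranspose_mul, a1',
            conjTranspose_one]

theorem OFrame_mu : sy η (hypF R J) * fromBlocks 0 ((η : ℤ) • (1 : Matrix J J R)) 1 0 = 1 ∧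
    fromBlocks 0 ((η : ℤ) • (1 : Matrix J J R)) 1 0 * sy η (hypF R J) = 1 := by
  rw [sy_hyp]
  constructor <;>
    simp only [fromBlocks_multiply, Matrix.mul_zero, Matrix.zero_mul, add_zero, zero_add,
      Matrix.mul_one, Matrix.smul_mul, Matrix.one_mul, eps_eps, fromBlocks_one]

theorem OFrame_J {E : Matrix (J ⊕ J) (J ⊕ J) R} {A : Matrix J (J ⊕ J) R} {W : Matrix (J ⊕ J) J R}
    {A' : Matrix b' (J ⊕ J) R} {W' : Matrix (J ⊕ J) b' R} (a1 : A * W = 1)
    (a2 : W * A = E) (a1' : A' * W' = 1) (a2' : W' * A' = 1 - E)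
    (e1 : Eqv η 0 (E * hypF R J * Eᴴ)) (e2 : Eqv η 0 ((1 - E) * hypF R J * (1 - E)ᴴ)) :
    ∃ U : Matrix (J ⊕ J) (J ⊕ J) R, Uni η U ∧ U.toRows₁ * E = U.toRows₁ ∧ U.toRows₂ * E = 0 := by
  have c1 := OFrame_iso a1 a2 e1
  have c2 := OFrame_iso a1' a2' e2
  obtain ⟨T', t1, t2⟩ :=
    OFrame_T OFrame_mu.1 OFrame_mu.2 a1 a2 a1' a2' (OFrame_sy c1) (OFrame_sy c2)
  obtain ⟨u1, u2, v1, v2⟩ := OFrame_perp a1 a2 a1' a2'
  obtain ⟨B, hB⟩ : ∃ B : Matrix J (J ⊕ J) R, B = T'ᴴ * A' := ⟨_, rfl⟩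
  obtain ⟨T, hT⟩ : ∃ T : Matrix J b' R, T = A * sy η (hypF R J) * A'ᴴ := ⟨_, rfl⟩
  obtain ⟨C, hC⟩ : ∃ C : Matrix (J ⊕ J) J R, C = W' * Tᴴ := ⟨_, rfl⟩
  have g1 : fromRows A B * fromCols W C = 1 := by
    rw [← hT] at t1
    rw [fromRows_mul_fromCols, hB, hC, a1, ← Matrix.mul_assoc A, v1, Matrix.zero_mul,
      Matrix.mul_assoc, v2, Matrix.mul_zero, Matrix.mul_assoc, ← Matrix.mul_assoc A', a1',
      Matrix.one_mul, ← conjTranspose_mul, t1, conjTranspose_one, fromBlocks_one]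
  have g2 : fromCols W C * fromRows A B = 1 := by
    rw [← hT] at t2
    rw [fromCols_mul_fromRows, hB, hC, a2, Matrix.mul_assoc, ← Matrix.mul_assoc Tᴴ,
      ← conjTranspose_mul, t2, conjTranspose_one, Matrix.one_mul, a2', add_sub_cancel]
  refine ⟨fromRows A B, ⟨⟨⟨fromRows A B, fromCols W C, g1, g2⟩, rfl⟩, ?_⟩, ?_, ?_⟩
  · rw [fromRows_mul, conjTranspose_fromRows_eq_fromCols_conjTranspose, fromRows_mul_fromCols, hB]
    refine eqv_blocks c1 ?_ ?_
    · have h := c2.conj T'ᴴ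
      rw [Matrix.mul_zero, Matrix.zero_mul] at h
      simpa only [conjTranspose_mul, Matrix.mul_assoc] using h
    · rw [conjTranspose_zero, smul_zero, add_zero, ← t1]
      simp only [sy, conjTranspose_mul, conjTranspose_conjTranspose, Matrix.mul_add,
        Matrix.add_mul, Matrix.mul_smul, Matrix.smul_mul, Matrix.mul_assoc]
  · rw [toRows₁_fromRows, u1]
  · rw [toRows₂_fromRows, hB, Matrix.mul_assoc, u2, Matrix.mul_zero]

end

theorem exists_frame {E : Matrix (J ⊕ J) (J ⊕ J) (ZG G)} (hE : FreeIdem E)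
    (hE' : FreeIdem (1 - E)) (e1 : Eqv η 0 (E * hypF (ZG G) J * Eᴴ))
    (e2 : Eqv η 0 ((1 - E) * hypF (ZG G) J * (1 - E)ᴴ)) :
    ∃ U : Matrix (J ⊕ J) (J ⊕ J) (ZG G), Uni η U ∧ U.toRows₁ * E = U.toRows₁ ∧
      U.toRows₂ * E = 0 := by
  obtain ⟨b, _, _, A, W, a1, a2⟩ := hE
  obtain ⟨b', _, _, A', W', a1', a2'⟩ := hE'
  obtain ⟨T', t1, t2⟩ := OFrame_T OFrame_mu.1 OFrame_mu.2 a1 a2 a1' a2'
    (OFrame_sy (OFrame_iso a1 a2 e1)) (OFrame_sy (OFrame_iso a1' a2' e2))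
  obtain ⟨u1, u2, v1, v2⟩ := OFrame_perp a1 a2 a1' a2'
  have g1 : fromRows A A' * fromCols W W' = 1 := by
    rw [fromRows_mul_fromCols, a1, a1', v1, v2, fromBlocks_one]
  have g2 : fromCols W W' * fromRows A A' = 1 := by
    rw [fromCols_mul_fromRows, a2, a2', add_sub_cancel]
  have n1 := card_eq_of_inv t1 t2
  have n2 := card_eq_of_inv g1 g2
  rw [Fintype.card_sum, Fintype.card_sum] at n2
  have e : J ≃ b := Fintype.equivOfCardEq (by omega)
  refine OFrame_J (A := A.submatrix e id) (W := W.submatrix id e) ?_ ?_ a1' a2' e1 e2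
  · rw [← submatrix_mul _ _ _ _ _ Function.bijective_id, a1, submatrix_one_equiv]
  · rw [submatrix_mul_equiv, a2, submatrix_id_id]

theorem OFrame_pad {R : Type} [Ring R] [StarRing R] {E : Matrix (J ⊕ J) (J ⊕ J) R}
    (hE : FreeIdem (fromBlocks E 0 0 (1 : Matrix I I R)))
    (hE' : FreeIdem (fromBlocks (1 - E) 0 0 (1 : Matrix I I R))) :
    FreeIdem (dsum E (fromBlocks 1 0 0 0 : Matrix (I ⊕ I) (I ⊕ I) R)) ∧
      FreeIdem (1 - dsum E (fromBlocks 1 0 0 0 : Matrix (I ⊕ I) (I ⊕ I) R)) := by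
  have f1 := USchur_ret hE
    (fromBlocks (1 : Matrix (J ⊕ J) (J ⊕ J) R) 0 0
      (fromRows (1 : Matrix I I R) (0 : Matrix I I R)))
    (fromBlocks (1 : Matrix (J ⊕ J) (J ⊕ J) R) 0 0
      (fromCols (1 : Matrix I I R) (0 : Matrix I I R)))
    (by simp [fromBlocks_multiply, fromCols_mul_fromRows])
  have f2 := USchur_ret hE'
    (fromBlocks (1 : Matrix (J ⊕ J) (J ⊕ J) R) 0 0
      (fromRows (0 : Matrix I I R) (1 : Matrix I I R)))
    (fromBlocks (1 : Matrix (J ⊕ J) (J ⊕ J) R) 0 0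
      (fromCols (0 : Matrix I I R) (1 : Matrix I I R)))
    (by simp [fromBlocks_multiply, fromCols_mul_fromRows])
  simp only [fromBlocks_multiply, Matrix.mul_zero, Matrix.zero_mul, add_zero, zero_add,
    Matrix.mul_one, Matrix.one_mul, fromRows_mul_fromCols] at f1 f2
  have d : (1 : Matrix ((J ⊕ J) ⊕ (I ⊕ I)) ((J ⊕ J) ⊕ (I ⊕ I)) R) -
      fromBlocks E 0 0 (fromBlocks (1 : Matrix I I R) 0 0 0) =
      fromBlocks (1 - E) 0 0 (fromBlocks 0 0 0 (1 : Matrix I I R)) := by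
    rw [sub_eq_iff_eq_add, fromBlocks_add, fromBlocks_add]
    simp
  rw [← d] at f2
  refine ⟨USchur_reindex f1 _, ?_⟩
  have f3 := USchur_reindex f2 (Equiv.sumSumSumComm J I J I)
  rwa [submatrix_sub, Pi.sub_apply, Pi.sub_apply, submatrix_one_equiv] at f3

theorem exists_pad {R : Type} [Ring R] [StarRing R] {E : Matrix (J ⊕ J) (J ⊕ J) R}
    (hE : SFIdem E) (hE' : SFIdem (1 - E)) :
    ∃ (κ : Type) (_ : Fintype κ) (_ : DecidableEq κ),
      FreeIdem (dsum E (fromBlocks 1 0 0 0 : Matrix (κ ⊕ κ) (κ ⊕ κ) R)) ∧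
      FreeIdem (1 - dsum E (fromBlocks 1 0 0 0 : Matrix (κ ⊕ κ) (κ ⊕ κ) R)) := by
  obtain ⟨a, _, _, hE⟩ := hE
  obtain ⟨a', _, _, hE'⟩ := hE'
  exact ⟨a ⊕ a', inferInstance, inferInstance,
    OFrame_pad (USchur_left hE a') (USchur_right hE' a)⟩

end Pool.Agent.Work.MP_9d1ffa_al
end

-- merged part: Pool.Agent.Work.MP_9d1ffa_al.OEx
section
/-! Existence of edge frames. -/

namespace Pool.Agent.Work.MP_9d1ffa_al

open Matrix MonoidAlgebra

set_option linter.unusedSectionVars false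
set_option linter.unusedVariables false

section Pad

variable {R : Type} [Ring R] {I J κ L M : Type}

variable (κ) in
/-- zero rows inserted -/
def OEx_pd (Y : Matrix (J ⊕ J) L R) : Matrix ((J ⊕ κ) ⊕ (J ⊕ κ)) L R :=
  fromRows (fromRows Y.toRows₁ 0) (fromRows Y.toRows₂ 0)

theorem OEx_pd_mul [Fintype L] (Y : Matrix (J ⊕ J) L R) (B : Matrix L M R) :
    OEx_pd κ Y * B = OEx_pd κ (Y * B) := by
  ext ((i | i) | (i | i)) j <;> simp [OEx_pd, Matrix.mul_apply]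

theorem OEx_pd_add (Y Y' : Matrix (J ⊕ J) L R) :
    OEx_pd κ (Y + Y') = OEx_pd κ Y + OEx_pd κ Y' := by
  ext ((i | i) | (i | i)) j <;> simp [OEx_pd]

theorem OEx_pd_sub (Y Y' : Matrix (J ⊕ J) L R) :
    OEx_pd κ (Y - Y') = OEx_pd κ Y - OEx_pd κ Y' := by
  ext ((i | i) | (i | i)) j <;> simp [OEx_pd]

theorem OEx_fromCols_add (a a' : Matrix I J R) (b b' : Matrix I L R) :
    fromCols a b + fromCols a' b' = fromCols (a + a') (b + b') := by
  ext i (j | j) <;> rfl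

theorem OEx_fromCols_sub (a a' : Matrix I J R) (b b' : Matrix I L R) :
    fromCols a b - fromCols a' b' = fromCols (a - a') (b - b') := by
  ext i (j | j) <;> rfl

theorem OEx_toCols₁_mul [Fintype J] (a : Matrix I J R) (b : Matrix J (L ⊕ M) R) :
    (a * b).toCols₁ = a * b.toCols₁ := rfl

theorem OEx_toCols₂_mul [Fintype J] (a : Matrix I J R) (b : Matrix J (L ⊕ M) R) :
    (a * b).toCols₂ = a * b.toCols₂ := rfl

theorem OEx_toRows₁_mul [Fintype J] (a : Matrix (L ⊕ M) J R) (b : Matrix J I R) :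
    (a * b).toRows₁ = a.toRows₁ * b := rfl

theorem OEx_toRows₂_mul [Fintype J] (a : Matrix (L ⊕ M) J R) (b : Matrix J I R) :
    (a * b).toRows₂ = a.toRows₂ * b := rfl

variable [StarRing R]

theorem OEx_dsum_pd [Fintype J] [Fintype κ] (U : Matrix (J ⊕ J) (J ⊕ J) R)
    (N : Matrix (κ ⊕ κ) (κ ⊕ κ) R) (Y : Matrix (J ⊕ J) L R) :
    dsum U N * OEx_pd κ Y = OEx_pd κ (U * Y) := by
  ext ((i | i) | (i | i)) j <;> simp [OEx_pd, dsum, Matrix.mul_apply]

theorem OEx_col₁ [DecidableEq κ] (U : Matrix (J ⊕ J) (J ⊕ J) R) :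
    (dsum U (1 : Matrix (κ ⊕ κ) (κ ⊕ κ) R)).toCols₁ =
      fromCols (OEx_pd κ U.toCols₁) (fromRows (fromRows 0 1) 0) := by
  ext ((i | i) | (i | i)) (j | j) <;> simp [OEx_pd, dsum, Matrix.one_apply]

theorem OEx_col₂ [DecidableEq κ] (U : Matrix (J ⊕ J) (J ⊕ J) R) :
    (dsum U (1 : Matrix (κ ⊕ κ) (κ ⊕ κ) R)).toCols₂ =
      fromCols (OEx_pd κ U.toCols₂) (fromRows 0 (fromRows 0 1)) := by
  ext ((i | i) | (i | i)) (j | j) <;> simp [OEx_pd, dsum, Matrix.one_apply]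

theorem OEx_hyp [Fintype I] [Fintype J] [DecidableEq J] (E : Matrix I (J ⊕ J) R) :
    E * hypF R J * Eᴴ = E.toCols₁ * E.toCols₂ᴴ := by
  conv_lhs => rw [← fromCols_toCols E]
  rw [hypF, fromCols_mul_fromBlocks, conjTranspose_fromCols_eq_fromRows_conjTranspose,
    fromCols_mul_fromRows]
  simp

theorem OEx_eqv_smul {η : ℤˣ} {a : Matrix I I R} (h : Eqv η 0 a) (n : ℤ) : Eqv η 0 (n • a) := by
  obtain ⟨χ, rfl⟩ := h
  exact ⟨n • χ, by rw [zero_add, zero_add, smul_sub, ct_zsmul, smul_comm n]⟩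

theorem OEx_eqv_ct {η : ℤˣ} {a : Matrix I I R} (h : Eqv η 0 a) : Eqv η 0 aᴴ := by
  have := OEx_eqv_smul (h.trans (eqv_swap a)) η
  rwa [eps_eps] at this

end Pad

variable {Γ V A : Type} [Group Γ] [Group V] [Group A] {ε : ℤˣ} {I J κ : Type} [Fintype I]
  [DecidableEq I] [Fintype J] [DecidableEq J] [Fintype κ] [DecidableEq κ]
  {W : Matrix (I ⊕ I) (I ⊕ I) (ZG V)} {θ : Matrix I I (ZG V)} {P Q : Matrix I J (ZG V)}
  {U : Matrix (J ⊕ J) (J ⊕ J) (ZG A)}

theorem OEx_eqv_mp {η : ℤˣ} (f : V →* Γ) {a : Matrix I I (ZG V)} (h : Eqv η 0 a) :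
    Eqv η 0 (mp f a) := by
  obtain ⟨χ, rfl⟩ := h
  exact ⟨mp f χ, by rw [zero_add, zero_add, mp_sub, mp_zsmul, mp_ct]⟩

theorem OEx_eqv_rs {η : ℤˣ} {L : Type} (f : V →* Γ) (hf : Function.Injective f)
    {a : Matrix L L (ZG Γ)} (h : Eqv η 0 a) : Eqv η 0 (rs f hf a) := by
  obtain ⟨χ, rfl⟩ := h
  exact ⟨rs f hf χ, by rw [zero_add, zero_add, rs_sub, rs_zsmul, rs_ct]⟩

theorem OEx_mp_pd {L : Type} (f : V →* Γ) (Y : Matrix (J ⊕ J) L (ZG V)) :
    mp f (OEx_pd κ Y) = OEx_pd κ (mp f Y) := by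
  rw [OEx_pd, mp_fromRows, mp_fromRows, mp_fromRows, mp_zero]
  rfl

theorem OEx_side_pd {L : Type} {C : Cut Γ V A} {Y : Matrix (J ⊕ J) L (ZG Γ)} (h : C.Side Y) :
    C.Side (OEx_pd κ Y) :=
  ⟨sup_fromRows.2 ⟨h.1, sup_zero⟩, sup_fromRows.2 ⟨h.2, sup_zero⟩⟩

theorem OEx_cols_dg {L : Type} (a : Matrix L J (ZG Γ)) (b : Matrix L κ (ZG Γ)) (g : Γ) :
    fromCols a b * dg (J ⊕ κ) g = fromCols (a * dg J g) (b * dg κ g) := by
  rw [dg_blocks, fromCols_mul_fromBlocks]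
  simp

theorem OEx_mp_cols {L : Type} (f : V →* Γ) (B : Matrix L I (ZG V)) (P : Matrix I J (ZG V)) :
    mp f (B * fromCols P (0 : Matrix I κ (ZG V))) = fromCols (mp f (B * P)) 0 := by
  rw [mul_fromCols, Matrix.mul_zero, mp_fromCols, mp_zero]

theorem PH.lin_pad (D : PH Γ V A) (θ : Matrix I I (ZG V)) (P Q : Matrix I J (ZG V)) :
    D.lin θ (fromCols P (0 : Matrix I κ (ZG V))) (fromCols Q 0) = D.lin θ P Q := by
  rw [PH.lin, PH.lin, mp_fromCols, mp_fromCols, mp_zero, OEx_cols_dg,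
    conjTranspose_fromCols_eq_fromRows_conjTranspose, fromCols_mul_fromRows]
  simp

theorem OEx_sys_pad (D : PH Γ V A) :
    D.sys ε W θ (fromCols P (0 : Matrix I κ (ZG V))) (fromCols Q 0) = D.sys ε W θ P Q := by
  rw [PH.sys, PH.lin_pad, PH.sys]

theorem OEx_sig_pad (D : PH Γ V A) :
    D.sig ε (fromCols P (0 : Matrix I κ (ZG V))) (fromCols Q 0) = OEx_pd κ (D.sig ε P Q) := by
  rw [PH.sig, PH.sig, mp_fromCols, mp_fromCols, mp_zero,
    conjTranspose_fromCols_eq_fromRows_conjTranspose,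
    conjTranspose_fromCols_eq_fromRows_conjTranspose, dg_blocks, fromBlocks_mul_fromRows, OEx_pd,
    toRows₁_fromRows, toRows₂_fromRows]
  congr 1
  · simp [fromRows_neg]
  · ext (i | i) j <;> simp

theorem Cut.EF.pad {C : Cut Γ V A} (h : C.EF ε W θ P Q U) :
    C.EF ε W θ (fromCols P (0 : Matrix I κ (ZG V))) (fromCols Q 0)
      (dsum U (1 : Matrix (κ ⊕ κ) (κ ⊕ κ) (ZG A))) := by
  obtain ⟨hU, Y, h1, h2, h3, h4⟩ := h
  refine ⟨hU.dsum uni_one, OEx_pd κ Y, ?_, OEx_side_pd h2, ?_, ?_⟩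
  · rw [OEx_sys_pad, OEx_sig_pad, OEx_pd_mul, h1, mp_dsum, OEx_dsum_pd]
  · rw [OEx_mp_cols, mul_fromCols, Matrix.mul_zero, OEx_col₁, mp_fromCols, OEx_fromCols_add,
      OEx_cols_dg, OEx_pd_mul, OEx_mp_pd, ← OEx_pd_add, OEx_pd_mul, zero_add, mp_fromRows,
      mp_fromRows, mp_zero, mp_zero, mp_one, fromRows_mul, fromRows_mul, Matrix.zero_mul,
      Matrix.zero_mul, Matrix.one_mul]
    refine Cut.side_fromCols.2 ⟨OEx_side_pd h3, Cut.side_fromRows.2 ⟨?_, sup_zero⟩⟩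
    exact sup_fromRows.2 ⟨sup_zero, (sup_dg _).mono fun g e => e ▸ C.tpos⟩
  · rw [OEx_mp_cols, mul_fromCols, Matrix.mul_zero, OEx_cols_dg, OEx_col₂, mp_fromCols,
      OEx_fromCols_sub, OEx_pd_mul, OEx_pd_mul, OEx_mp_pd, ← OEx_pd_sub, Matrix.zero_mul, zero_sub,
      mp_fromRows, mp_fromRows, mp_zero, mp_zero, mp_one]
    refine Cut.side_fromCols.2 ⟨OEx_side_pd h4, Cut.Side.neg (Cut.side_fromRows.2 ⟨sup_zero, ?_⟩)⟩
    exact sup_fromRows.2 ⟨sup_zero, sup_one.mono fun g e => e ▸ C.one⟩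

section Cuts

variable {L : Type} [Fintype L] [DecidableEq L] (C : Cut Γ V A)

theorem OEx_sup_v {M N : Type} [Fintype M] {y : Matrix L M (ZG Γ)} (hy : Sup C.pos y)
    (B : Matrix M N (ZG V)) : Sup C.pos (y * mp C.v B) :=
  hy.mul (sup_mp _ B) (by
    rintro a _ ha ⟨b, rfl⟩
    exact (C.right a b).2 ha)

theorem OEx_sup_v' {M N : Type} [Fintype M] {y : Matrix L M (ZG Γ)}
    (hy : Sup (fun g => ¬ C.pos g) y) (B : Matrix M N (ZG V)) :
    Sup (fun g => ¬ C.pos g) (y * mp C.v B) :=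
  hy.mul (sup_mp _ B) (by
    rintro a _ ha ⟨b, rfl⟩ e
    exact ha ((C.right a b).1 e))

theorem OEx_sup_va {M N : Type} (B : Matrix M L (ZG A)) {y : Matrix L N (ZG Γ)}
    (hy : Sup C.pos y) : Sup C.pos (mp C.va B * y) :=
  (sup_mp _ B).mul hy (by
    rintro _ b ⟨a, rfl⟩ hb
    exact (C.left a b).2 hb)

theorem OEx_sup_va' {M N : Type} (B : Matrix M L (ZG A)) {y : Matrix L N (ZG Γ)}
    (hy : Sup (fun g => ¬ C.pos g) y) : Sup (fun g => ¬ C.pos g) (mp C.va B * y) :=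
  (sup_mp _ B).mul hy (by
    rintro _ b ⟨a, rfl⟩ hb e
    exact hb ((C.left a b).1 e))

theorem OEx_sup_mp {M N : Type} (B : Matrix M N (ZG A)) :
    Sup (fun g => ¬ C.pos g) (mp C.va B) :=
  (sup_mp _ B).mono (by
    rintro _ ⟨a, rfl⟩
    exact C.npos_v _)

theorem OEx_rs_pos {M : Type} {y : Matrix L M (ZG Γ)} (hy : Sup C.pos y) :
    rs C.va C.vainj y = 0 :=
  hy.rs_zero fun x => C.npos_v _

theorem OEx_rs_neg {y : Matrix L J (ZG Γ)} (hy : Sup (fun g => ¬ C.pos g) y) :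
    rs C.va C.vainj (y * dg J C.t⁻¹) = 0 :=
  (hy.mul (sup_dg _) (T := fun g => ¬ C.pos (g * C.t)) (by
    rintro a _ ha rfl
    rwa [inv_mul_cancel_right])).rs_zero fun x e => e (C.pos_vat x)

theorem OEx_bd (y : Matrix L I (ZG Γ)) : rs C.va C.vainj (y * C.bd W P Q) =
    fromCols (rs C.va C.vainj (y * mp C.v (W.toBlocks₁₁ * P)))
      (rs C.va C.vainj (y * mp C.v (W.toBlocks₁₁ * Q) * dg J C.t⁻¹)) := by
  rw [PH.bd, mul_fromCols, rs_fromCols, Matrix.mul_assoc]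

theorem OEx_iso (hW : Uni (-ε) W) (z : Matrix L (J ⊕ J) (ZG A)) (y : Matrix L I (ZG Γ))
    (e : y * C.sys ε W θ P Q = mp C.va z * C.sig ε P Q) :
    Eqv (-ε) 0
      (-(z.toCols₁ * (rs C.va C.vainj (y * mp C.v (W.toBlocks₁₁ * Q) * dg J C.t⁻¹))ᴴ) +
        (ε : ℤ) • (z.toCols₂ * (rs C.va C.vainj (y * mp C.v (W.toBlocks₁₁ * P)))ᴴ)) := by
  have h1 : Eqv (-ε) 0 (W.toBlocks₁₁ * W.toBlocks₁₂ᴴ) := by
    rw [← fromBlocks_toBlocks W] at hW
    exact (uni_iff.1 hW).2.1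
  have h2 := (OEx_eqv_mp C.v (OEx_eqv_ct h1)).conj y
  have h3 : Eqv (-ε) 0 (sy ε (y * mp C.v W.toBlocks₁₁ * C.lin θ P Q *
      (y * mp C.v W.toBlocks₁₁)ᴴ)) :=
    ⟨_, by rw [zero_add, Units.val_neg, neg_smul, sub_neg_eq_add, sy]⟩
  have h4 := h3.add h2.neg
  rw [Matrix.mul_zero, Matrix.zero_mul, neg_zero, add_zero] at h4
  have h5 : sy ε (y * mp C.v W.toBlocks₁₁ * C.lin θ P Q * (y * mp C.v W.toBlocks₁₁)ᴴ) +
      -(y * mp C.v (W.toBlocks₁₁ * W.toBlocks₁₂ᴴ)ᴴ * yᴴ) =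
      y * C.sys ε W θ P Q * (y * mp C.v W.toBlocks₁₁)ᴴ := by
    rw [sy_conj, PH.sys, sysM, mp_toBlocks₁₁, mp_toBlocks₁₂, conjTranspose_mul W.toBlocks₁₁,
      conjTranspose_conjTranspose, mp_mul, mp_ct, conjTranspose_mul y, ← sub_eq_add_neg]
    simp only [Matrix.mul_sub, Matrix.sub_mul, Matrix.mul_assoc]
  rw [h5, e, Matrix.mul_assoc] at h4
  have h6 := OEx_eqv_rs C.va C.vainj h4
  have h7 : C.sig ε P Q * (y * mp C.v W.toBlocks₁₁)ᴴ =
      fromRows (-(y * mp C.v (W.toBlocks₁₁ * Q) * dg J C.t⁻¹)ᴴ)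
        ((ε : ℤ) • (y * mp C.v (W.toBlocks₁₁ * P))ᴴ) := by
    rw [PH.sig, fromRows_mul]
    simp only [mp_mul, conjTranspose_mul, dg_ct, inv_inv, Matrix.neg_mul, Matrix.smul_mul,
      Matrix.mul_assoc]
  rw [rs_mp_mul, h7, rs_fromRows, rs_neg, rs_zsmul, rs_ct, rs_ct, ← fromCols_toCols z,
    fromCols_mul_fromRows, Matrix.mul_neg, Matrix.mul_smul] at h6
  exact h6

theorem OEx_fm_sig : fm C.pos (C.sig ε P Q) =
    mp C.va (fromBlocks 1 0 0 0 : Matrix (J ⊕ J) (J ⊕ J) (ZG A)) * C.sig ε P Q := by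
  have h1 : Sup C.pos (dg J C.t * (mp C.v Q)ᴴ) := by
    rw [← mp_ct]
    exact OEx_sup_v C ((sup_dg _).mono fun g e => e ▸ C.tpos) _
  have h2 : Sup (fun g => ¬ C.pos g) (mp C.v P)ᴴ := by
    rw [← mp_ct]
    refine (sup_mp _ _).mono ?_
    rintro _ ⟨a, rfl⟩
    exact C.npos_v a
  rw [PH.sig, fm_fromRows, h1.neg.fm_eq, (h2.zsmul _).fm_zero fun g e => e, mp_blocks, mp_one,
    mp_zero, fromBlocks_mul_fromRows]
  simp

theorem OEx_e₁ : (fromBlocks 1 0 0 0 : Matrix (J ⊕ J) (J ⊕ J) (ZG A)) =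
    fromCols (fromRows 1 0) 0 := by
  ext (i | i) (j | j) <;> simp

theorem OEx_mul_e (z : Matrix L (J ⊕ J) (ZG A)) :
    z * (fromRows 1 0 : Matrix (J ⊕ J) J (ZG A)) = z.toCols₁ := by
  conv_lhs => rw [← fromCols_toCols z]
  rw [fromCols_mul_fromRows, Matrix.mul_one, Matrix.mul_zero, add_zero]

theorem OEx_frame {E : Matrix (J ⊕ J) (J ⊕ J) (ZG A)} {Y : Matrix (J ⊕ J) I (ZG Γ)}
    (h1 : Y * C.sys ε W θ P Q = C.sig ε P Q)
    (h2 : E = fromBlocks 1 0 0 0 + rs C.va C.vainj (Y * C.bd W P Q))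
    (h3 : mp C.va E * Y = fm C.pos Y) (hU : Uni (-ε) U) (u1 : U.toRows₁ * E = U.toRows₁)
    (u2 : U.toRows₂ * E = 0) : C.EF ε W θ P Q U := by
  have s1 : Sup C.pos (mp C.va U.toRows₁ * Y) := by
    rw [← u1, mp_mul, Matrix.mul_assoc, h3]
    exact OEx_sup_va C _ (sup_fm _ _)
  have s2 : Sup (fun g => ¬ C.pos g) (mp C.va U.toRows₂ * Y) := by
    rw [← fm_add_not C.pos Y, Matrix.mul_add, ← h3, ← Matrix.mul_assoc, ← mp_mul, u2, mp_zero,
      Matrix.zero_mul, zero_add]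
    exact OEx_sup_va' C _ (sup_fm _ _)
  rw [OEx_bd, OEx_e₁, OEx_fromCols_add, zero_add] at h2
  refine ⟨hU, mp C.va U * Y, by rw [Matrix.mul_assoc, h1], ⟨s1, s2⟩, ⟨?_, ?_⟩, ⟨?_, ?_⟩⟩
  · change Sup C.pos ((mp C.va U.toRows₁ * Y * mp C.v (W.toBlocks₁₁ * P) +
      mp C.va U.toRows₁.toCols₁) * dg J C.t)
    rw [Matrix.add_mul]
    refine ((OEx_sup_v C s1 _).mul (sup_dg _) ?_).add ((sup_mp _ _).mul (sup_dg _) ?_)
    · rintro a _ ha rfl
      exact C.up a ha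
    · rintro _ _ ⟨a, rfl⟩ rfl
      exact C.pos_vat a
  · change Sup (fun g => ¬ C.pos g) ((mp C.va U.toRows₂ * Y * mp C.v (W.toBlocks₁₁ * P) +
      mp C.va U.toRows₂.toCols₁) * dg J C.t)
    have a1 := (OEx_sup_v' C s2 (W.toBlocks₁₁ * P)).add (OEx_sup_mp C U.toRows₂.toCols₁)
    have a2 : rs C.va C.vainj (mp C.va U.toRows₂ * Y * mp C.v (W.toBlocks₁₁ * P) +
        mp C.va U.toRows₂.toCols₁) = 0 := by
      have := congrArg toCols₁ u2
      rw [OEx_toCols₁_mul, h2, toCols₁_fromCols, Matrix.mul_add, OEx_mul_e] at this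
      rw [rs_add, rs_mp, Matrix.mul_assoc, rs_mp_mul, add_comm]
      exact this
    have a3 := C.fm_t (mp C.va U.toRows₂ * Y * mp C.v (W.toBlocks₁₁ * P) +
      mp C.va U.toRows₂.toCols₁)
    rw [a2, a1.fm_zero fun g e => e, mp_zero, Matrix.zero_mul, add_zero] at a3
    rw [← fm_add_not C.pos (_ * dg J C.t), a3, zero_add]
    exact sup_fm _ _
  · change Sup C.pos (mp C.va U.toRows₁ * Y * mp C.v (W.toBlocks₁₁ * Q) * dg J C.t⁻¹ -
      mp C.va U.toRows₁.toCols₂)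
    have a1 := OEx_sup_v C s1 (W.toBlocks₁₁ * Q)
    have a2 : rs C.va C.vainj (mp C.va U.toRows₁ * Y * mp C.v (W.toBlocks₁₁ * Q) * dg J C.t⁻¹) =
        U.toRows₁.toCols₂ := by
      have := congrArg toCols₂ u1
      rw [OEx_toCols₂_mul, h2, toCols₂_fromCols] at this
      rw [Matrix.mul_assoc, Matrix.mul_assoc, rs_mp_mul, ← Matrix.mul_assoc]
      exact this
    have a3 := C.fm_tinv (mp C.va U.toRows₁ * Y * mp C.v (W.toBlocks₁₁ * Q))
    rw [a2, a1.fm_eq] at a3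
    rw [← a3]
    exact sup_fm _ _
  · change Sup (fun g => ¬ C.pos g)
      (mp C.va U.toRows₂ * Y * mp C.v (W.toBlocks₁₁ * Q) * dg J C.t⁻¹ - mp C.va U.toRows₂.toCols₂)
    refine ((OEx_sup_v' C s2 _).mul (sup_dg _) ?_).sub (OEx_sup_mp C _)
    rintro a _ ha rfl
    exact C.npos_tinv ha

end Cuts

/-- an idempotent whose image and kernel are the two edge Lagrangians -/
theorem Cut.exists_idem (C : Cut Γ V A) (hW : Uni (-ε) W) (hs : IsUnit (C.sys ε W θ P Q)) :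
    ∃ (E : Matrix (J ⊕ J) (J ⊕ J) (ZG A)) (Y : Matrix (J ⊕ J) I (ZG Γ)), E * E = E ∧
      Y * C.sys ε W θ P Q = C.sig ε P Q ∧
      E = fromBlocks 1 0 0 0 + rs C.va C.vainj (Y * C.bd W P Q) ∧
      mp C.va E * Y = fm C.pos Y ∧
      Eqv (-ε) 0 (E * hypF (ZG A) J * Eᴴ) ∧
      Eqv (-ε) 0 ((1 - E) * hypF (ZG A) J * (1 - E)ᴴ) := by
  obtain ⟨u, hu⟩ := hs
  have m1 : C.sys ε W θ P Q * u.inv = 1 := hu ▸ u.val_inv
  have m2 : u.inv * C.sys ε W θ P Q = 1 := hu ▸ u.inv_val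
  obtain ⟨Y, hY⟩ : ∃ Y : Matrix (J ⊕ J) I (ZG Γ), Y * C.sys ε W θ P Q = C.sig ε P Q :=
    ⟨C.sig ε P Q * u.inv, by rw [Matrix.mul_assoc, m2, Matrix.mul_one]⟩
  obtain ⟨E, hE⟩ : ∃ E : Matrix (J ⊕ J) (J ⊕ J) (ZG A),
      E = fromBlocks 1 0 0 0 + rs C.va C.vainj (Y * C.bd W P Q) := ⟨_, rfl⟩
  have k1 : fm C.pos Y * C.sys ε W θ P Q = mp C.va E * C.sig ε P Q := by
    rw [C.key_pos, hY, OEx_fm_sig, hE, mp_add, Matrix.add_mul]
  have k2 : mp C.va E * Y = fm C.pos Y := by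
    rw [← Matrix.mul_one (fm C.pos Y), ← m1, ← Matrix.mul_assoc, k1, ← hY, Matrix.mul_assoc,
      Matrix.mul_assoc, m1, Matrix.mul_one]
  have k3 : fm (fun g => ¬ C.pos g) Y * C.sys ε W θ P Q = mp C.va (1 - E) * C.sig ε P Q := by
    rw [mp_sub, mp_one, Matrix.sub_mul, Matrix.one_mul, ← k1, eq_sub_iff_add_eq', ← Matrix.add_mul,
      fm_add_not, hY]
  have r1 := OEx_rs_pos C (OEx_sup_v C (sup_fm C.pos Y) (W.toBlocks₁₁ * P))
  have r2 := OEx_rs_neg C (OEx_sup_v' C (sup_fm (fun g => ¬ C.pos g) Y) (W.toBlocks₁₁ * Q))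
  have hE' := hE
  rw [OEx_bd, OEx_e₁, OEx_fromCols_add, zero_add] at hE'
  have r3 : rs C.va C.vainj (fm C.pos Y * mp C.v (W.toBlocks₁₁ * Q) * dg J C.t⁻¹) = E.toCols₂ := by
    rw [hE', toCols₂_fromCols]
    conv_rhs => rw [← fm_add_not C.pos Y, Matrix.add_mul, Matrix.add_mul, rs_add, r2, add_zero]
  have r4 : rs C.va C.vainj (fm (fun g => ¬ C.pos g) Y * mp C.v (W.toBlocks₁₁ * P)) =
      -(1 - E).toCols₁ := by
    have : (1 - E).toCols₁ = fromRows 1 0 - E.toCols₁ := by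
      ext (i | i) j <;> simp [Matrix.one_apply]
    rw [this, hE', toCols₁_fromCols, sub_add_cancel_left, neg_neg]
    conv_rhs => rw [← fm_add_not C.pos Y, Matrix.add_mul, rs_add, r1, zero_add]
  refine ⟨E, Y, ?_, hY, hE, k2, ?_, ?_⟩
  · have a1 := OEx_bd C (W := W) (P := P) (Q := Q) (fm C.pos Y)
    rw [r1, r3, ← k2, Matrix.mul_assoc, rs_mp_mul] at a1
    conv_lhs => rw [show E * E = E * fromBlocks 1 0 0 0 + E * rs C.va C.vainj (Y * C.bd W P Q) by
      rw [← Matrix.mul_add, ← hE]]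
    rw [a1, OEx_e₁, mul_fromCols, OEx_mul_e, Matrix.mul_zero, OEx_fromCols_add, add_zero, zero_add,
      fromCols_toCols]
  · have a1 := (OEx_iso C hW E _ k1).neg
    rw [r1, r3, conjTranspose_zero, Matrix.mul_zero, smul_zero, add_zero, neg_neg, neg_zero] at a1
    rwa [OEx_hyp]
  · have a1 := OEx_eqv_ct (OEx_eqv_smul (OEx_iso C hW (1 - E) _ k3) (-ε))
    rw [r2, r4, conjTranspose_zero, Matrix.mul_zero, neg_zero, zero_add, neg_smul, eps_eps,
      conjTranspose_neg (1 - E).toCols₁, Matrix.mul_neg, neg_neg, conjTranspose_mul,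
      conjTranspose_conjTranspose] at a1
    rwa [OEx_hyp]

theorem OEx_bd_pad (D : PH Γ V A) (Y : Matrix (J ⊕ J) I (ZG Γ)) :
    OEx_pd κ Y * D.bd W (fromCols P (0 : Matrix I κ (ZG V))) (fromCols Q 0) =
      dsum (Y * D.bd W P Q) 0 := by
  rw [PH.bd, PH.bd, OEx_mp_cols, OEx_mp_cols, OEx_cols_dg, Matrix.zero_mul, OEx_pd_mul]
  ext ((i | i) | (i | i)) ((j | j) | (j | j)) <;> simp [OEx_pd, dsum, Matrix.mul_apply]

theorem OEx_E_pad (f : A →* Γ) (hf : Function.Injective f) (M : Matrix (J ⊕ J) (J ⊕ J) (ZG Γ)) :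
    fromBlocks 1 0 0 0 + rs f hf (dsum M (0 : Matrix (κ ⊕ κ) (κ ⊕ κ) (ZG Γ))) =
      dsum (fromBlocks 1 0 0 0 + rs f hf M) (fromBlocks 1 0 0 0) := by
  have : rs f hf (dsum M (0 : Matrix (κ ⊕ κ) (κ ⊕ κ) (ZG Γ))) = dsum (rs f hf M) 0 := by
    refine mat_ext ?_
    rintro ((i | i) | (i | i)) ((j | j) | (j | j)) g <;> rfl
  rw [this]
  ext ((i | i) | (i | i)) ((j | j) | (j | j)) <;> simp [dsum, Matrix.one_apply]

theorem Cut.exists_ef (C : Cut Γ V A) (hA : SFI (ZG A)) (hW : Uni (-ε) W)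
    (hs : IsUnit (C.sys ε W θ P Q)) :
    ∃ (κ : Type) (_ : Fintype κ) (_ : DecidableEq κ)
      (U : Matrix ((J ⊕ κ) ⊕ (J ⊕ κ)) ((J ⊕ κ) ⊕ (J ⊕ κ)) (ZG A)),
      C.EF ε W θ (fromCols P (0 : Matrix I κ (ZG V))) (fromCols Q 0) U := by
  obtain ⟨E, Y, h0, h1, h2, -⟩ := C.exists_idem hW hs
  have h0' : (1 - E) * (1 - E) = 1 - E := by
    rw [Matrix.mul_sub, Matrix.mul_one, Matrix.sub_mul, Matrix.one_mul, h0, sub_self, sub_zero]
  obtain ⟨κ, _, _, f1, f2⟩ := exists_pad (hA _ E h0) (hA _ _ h0')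
  have hs' : IsUnit (C.sys ε W θ (fromCols P (0 : Matrix I κ (ZG V))) (fromCols Q 0)) := by
    rwa [OEx_sys_pad]
  obtain ⟨E', Y', -, k1, k2, k3, k4, k5⟩ := C.exists_idem hW hs'
  have e1 : Y' = OEx_pd κ Y := by
    obtain ⟨u, hu⟩ := hs
    have m1 : C.sys ε W θ P Q * u.inv = 1 := hu ▸ u.val_inv
    rw [OEx_sys_pad, OEx_sig_pad, ← h1, ← OEx_pd_mul] at k1
    rw [← Matrix.mul_one Y', ← m1, ← Matrix.mul_assoc, k1, Matrix.mul_assoc, m1, Matrix.mul_one]
  have e2 : E' = dsum E (fromBlocks 1 0 0 0) := by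
    rw [k2, e1, OEx_bd_pad, OEx_E_pad, ← h2]
  rw [← e2] at f1 f2
  obtain ⟨U, u0, u1, u2⟩ := exists_frame f1 f2 k4 k5
  exact ⟨κ, inferInstance, inferInstance, U, OEx_frame C k1 k2 k3 u0 u1 u2⟩

end Pool.Agent.Work.MP_9d1ffa_al
end

-- merged part: Pool.Agent.Work.MP_9d1ffa_al.OWin
section
/-! Finite windows over a Laurent extension. -/

namespace Pool.Agent.Work.MP_9d1ffa_al

open Matrix MonoidAlgebra

set_option linter.unusedSectionVars false
set_option linter.unusedVariables false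

variable {V : Type} [Group V] {ε : ℤˣ} {I J K : Type} [Fintype I] [DecidableEq I] [Fintype J]
  [DecidableEq J] [Fintype K] [DecidableEq K]

theorem OWin_range {γ : V × Multiplicative ℤ} :
    (∃ h, (Cut.line V).v h = γ) ↔ γ.2.toAdd = 0 :=
  ⟨fun ⟨h, e⟩ => e ▸ rfl, fun e => ⟨γ.1, Prod.ext rfl (Multiplicative.toAdd.injective e.symm)⟩⟩

theorem OWin_sup_mp {M M' : Type} (A : Matrix M M' (ZG V)) :
    Sup (fun γ => γ.2.toAdd = 0) (mp (Cut.line V).v A) :=
  (sup_mp _ A).mono fun _ h => OWin_range.1 h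

theorem OWin_mul {M M' M'' : Type} [Fintype M'] {P Q T : ℤ → Prop}
    {A : Matrix M M' (ZG (V × Multiplicative ℤ))} {B : Matrix M' M'' (ZG (V × Multiplicative ℤ))}
    (hA : Sup (fun γ => P γ.2.toAdd) A) (hB : Sup (fun γ => Q γ.2.toAdd) B)
    (h : ∀ a b, P a → Q b → T (a + b)) : Sup (fun γ => T γ.2.toAdd) (A * B) :=
  hA.mul hB fun _ _ ha hb => h _ _ ha hb

theorem OWin_ct {M M' : Type} {P : ℤ → Prop} {A : Matrix M M' (ZG (V × Multiplicative ℤ))}
    (hA : Sup (fun γ => P γ.2.toAdd) A) : Sup (fun γ => P (-γ.2.toAdd)) Aᴴ := hA.ct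

theorem OWin_adj {M M' M'' : Type} [Fintype M'] (P : ℤ → Prop)
    (A : Matrix M M' (ZG (V × Multiplicative ℤ))) (B : Matrix M'' M' (ZG (V × Multiplicative ℤ))) :
    rs (Cut.line V).v (Cut.line V).vinj (fm (fun γ => P γ.2.toAdd) A * Bᴴ) =
      rs (Cut.line V).v (Cut.line V).vinj (A * (fm (fun γ => P γ.2.toAdd) B)ᴴ) := by
  have z1 : rs (Cut.line V).v (Cut.line V).vinj
      (fm (fun γ => P γ.2.toAdd) A * (fm (fun γ => ¬ P γ.2.toAdd) B)ᴴ) = 0 :=
    (OWin_mul (P := P) (Q := fun b => ¬ P (-b)) (T := fun c => c ≠ 0) (sup_fm _ A)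
      (OWin_ct (P := fun b => ¬ P b) (sup_fm _ B)) fun a b ha hb e =>
        hb (by rwa [← eq_neg_of_add_eq_zero_left e])).rs_zero fun x hx => hx rfl
  have z2 : rs (Cut.line V).v (Cut.line V).vinj
      (fm (fun γ => ¬ P γ.2.toAdd) A * (fm (fun γ => P γ.2.toAdd) B)ᴴ) = 0 :=
    (OWin_mul (P := fun a => ¬ P a) (Q := fun b => P (-b)) (T := fun c => c ≠ 0) (sup_fm _ A)
      (OWin_ct (P := P) (sup_fm _ B)) fun a b ha hb e =>
        ha (by rwa [eq_neg_of_add_eq_zero_left e])).rs_zero fun x hx => hx rfl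
  calc _ = rs (Cut.line V).v (Cut.line V).vinj (fm (fun γ => P γ.2.toAdd) A *
        (fm (fun γ => P γ.2.toAdd) B + fm (fun γ => ¬ P γ.2.toAdd) B)ᴴ) := by rw [fm_add_not]
    _ = rs (Cut.line V).v (Cut.line V).vinj ((fm (fun γ => P γ.2.toAdd) A +
        fm (fun γ => ¬ P γ.2.toAdd) A) * (fm (fun γ => P γ.2.toAdd) B)ᴴ) := by
      rw [conjTranspose_add, Matrix.mul_add, Matrix.add_mul, rs_add, rs_add, z1, z2]
    _ = _ := by rw [fm_add_not]

/-- the powers of the stable letter -/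
def OWin_s (V : Type) [Group V] (k : ℕ) : V × Multiplicative ℤ :=
  (1, Multiplicative.ofAdd ((k : ℤ) + 1))

/-- the basis of the window -/
noncomputable def OWin_i (V I : Type) [Group V] [DecidableEq I] (n : ℕ) :
    Matrix (Fin n × I) I (ZG (V × Multiplicative ℤ)) :=
  Matrix.of fun p j => dg I (OWin_s V p.1) p.2 j

theorem OWin_sup_i (n : ℕ) : Sup (fun γ => 1 ≤ γ.2.toAdd) (OWin_i V I n) := fun p j γ e => by
  have h : γ = OWin_s V p.1 := sup_dg _ p.2 j γ e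
  rw [h]
  change (1 : ℤ) ≤ (p.1 : ℕ) + 1
  omega

theorem OWin_repr {M : Type} (n : ℕ) {x : Matrix M I (ZG (V × Multiplicative ℤ))}
    (h1 : Sup (fun γ => 1 ≤ γ.2.toAdd) x) (h2 : Sup (fun γ => γ.2.toAdd ≤ (n : ℤ)) x) :
    mp (Cut.line V).v (rs (Cut.line V).v (Cut.line V).vinj (x * (OWin_i V I n)ᴴ)) *
      OWin_i V I n = x := by
  have e1 : ∀ k : ℕ, fm (fun γ => ∃ h, (Cut.line V).v h = γ) (x * (dg I (OWin_s V k))ᴴ) *
      dg I (OWin_s V k) = fm (fun γ => γ.2.toAdd = (k : ℤ) + 1) x := fun k => by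
    rw [dg_ct, fm_mul_right (S := fun γ => γ.2.toAdd = (k : ℤ) + 1) x (sup_dg _), Matrix.mul_assoc,
      dg_inv_mul, Matrix.mul_one]
    rintro a _ rfl
    rw [OWin_range]
    change a.2.toAdd + -((k : ℤ) + 1) = 0 ↔ _
    omega
  rw [mp_rs]
  refine mat_ext fun m j γ => ?_
  have e2 : (fm (fun γ => ∃ h, (Cut.line V).v h = γ) (x * (OWin_i V I n)ᴴ) * OWin_i V I n) m j =
      ∑ k : Fin n, fm (fun γ => γ.2.toAdd = ((k : ℕ) : ℤ) + 1) x m j := by
    rw [Matrix.mul_apply, Fintype.sum_prod_type]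
    refine Finset.sum_congr rfl fun k _ => ?_
    rw [← e1, Matrix.mul_apply]
    rfl
  rw [e2]
  simp only [coeff_sum, Finsupp.finsetSum_apply, coeff_fm]
  by_cases h0 : (x m j).coeff γ = 0
  · simp [h0]
  · have a1 : 1 ≤ γ.2.toAdd := h1 m j γ h0
    have a2 : γ.2.toAdd ≤ n := h2 m j γ h0
    rw [Finset.sum_eq_single (⟨(γ.2.toAdd - 1).toNat, by omega⟩ : Fin n), if_pos (by
      change γ.2.toAdd = ((γ.2.toAdd - 1).toNat : ℤ) + 1
      omega)]
    · intro k _ hk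
      refine if_neg fun e => hk (Fin.ext ?_)
      change (k : ℕ) = (γ.2.toAdd - 1).toNat
      omega
    · intro h
      exact absurd (Finset.mem_univ _) h

/-- the projection -/
noncomputable def OWin_p {M : Type} (N : ℤ) (g : Matrix K I (ZG (V × Multiplicative ℤ)))
    (g' : Matrix I K (ZG (V × Multiplicative ℤ))) (x : Matrix M I (ZG (V × Multiplicative ℤ))) :
    Matrix M I (ZG (V × Multiplicative ℤ)) :=
  fm (fun γ => γ.2.toAdd < N) (x * g') * g

section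

variable {M M' : Type} {N : ℤ} {g : Matrix K I (ZG (V × Multiplicative ℤ))}
  {g' : Matrix I K (ZG (V × Multiplicative ℤ))}

theorem OWin_p_mp [Fintype M] (A : Matrix M' M (ZG V))
    (x : Matrix M I (ZG (V × Multiplicative ℤ))) :
    OWin_p N g g' (mp (Cut.line V).v A * x) = mp (Cut.line V).v A * OWin_p N g g' x := by
  rw [OWin_p, OWin_p, Matrix.mul_assoc, fm_mul_left (S := fun γ => γ.2.toAdd < N) (OWin_sup_mp A),
    Matrix.mul_assoc]
  intro a b ha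
  change a.2.toAdd + b.2.toAdd < N ↔ _
  rw [ha, zero_add]

theorem OWin_p_p (h1 : g * g' = 1) (x : Matrix M I (ZG (V × Multiplicative ℤ))) :
    OWin_p N g g' (OWin_p N g g' x) = OWin_p N g g' x := by
  rw [OWin_p, OWin_p, Matrix.mul_assoc, h1, Matrix.mul_one, (sup_fm _ _).fm_eq]

theorem OWin_p_adj (c : Matrix M' I (ZG (V × Multiplicative ℤ)))
    (x : Matrix M I (ZG (V × Multiplicative ℤ))) :
    rs (Cut.line V).v (Cut.line V).vinj (OWin_p N g'ᴴ gᴴ c * xᴴ) =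
      rs (Cut.line V).v (Cut.line V).vinj (c * (OWin_p N g g' x)ᴴ) := by
  rw [OWin_p, OWin_p, Matrix.mul_assoc, ← conjTranspose_mul, OWin_adj (fun a => a < N),
    conjTranspose_mul, Matrix.mul_assoc]

theorem OWin_p_pos (h2 : g' * g = 1) {N₀ : ℕ} (hg : Sup (fun γ => |γ.2.toAdd| ≤ (N₀ : ℤ)) g)
    {x : Matrix M I (ZG (V × Multiplicative ℤ))} (hx : Sup (fun γ => 1 ≤ γ.2.toAdd) x) :
    Sup (fun γ => 1 ≤ γ.2.toAdd) (OWin_p (N₀ + 2) g g' x) := by
  have e : OWin_p (N₀ + 2) g g' x = x - fm (fun γ => ¬ γ.2.toAdd < (N₀ : ℤ) + 2) (x * g') * g := by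
    rw [eq_sub_iff_add_eq, OWin_p, ← Matrix.add_mul, fm_add_not, Matrix.mul_assoc, h2,
      Matrix.mul_one]
  rw [e]
  exact hx.sub (OWin_mul (P := fun a => ¬ a < (N₀ : ℤ) + 2) (Q := fun b => |b| ≤ (N₀ : ℤ))
    (T := fun c => 1 ≤ c) (sup_fm _ _) hg fun a b ha hb => by
      have := abs_le.1 hb
      omega)

theorem OWin_p_le {N₀ : ℕ} (hg : Sup (fun γ => |γ.2.toAdd| ≤ (N₀ : ℤ)) g)
    (x : Matrix M I (ZG (V × Multiplicative ℤ))) :
    Sup (fun γ => γ.2.toAdd ≤ ((2 * N₀ + 2 : ℕ) : ℤ)) (OWin_p (N₀ + 2) g g' x) :=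
  OWin_mul (P := fun a => a < (N₀ : ℤ) + 2) (Q := fun b => |b| ≤ (N₀ : ℤ))
    (T := fun c => c ≤ ((2 * N₀ + 2 : ℕ) : ℤ)) (sup_fm _ _) hg fun a b ha hb => by
      have := abs_le.1 hb
      omega

end

/-- a finite window: the part of the positive half orthogonal to the far part of a hyperbolic
basis is the image of an idempotent `E`, and `G` extends covectors from it -/
theorem exists_window {l : Matrix I I (ZG (V × Multiplicative ℤ))}
    {g : Matrix K I (ZG (V × Multiplicative ℤ))} {g' : Matrix I K (ZG (V × Multiplicative ℤ))}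
    (h1 : g * g' = 1) (h2 : g' * g = 1) {ω ω' : Matrix K K (ZG V)} (w1 : ω * ω' = 1)
    (hl : l = g' * mp (Cut.line V).v ω * g'ᴴ) :
    ∃ (L : Type) (_ : Fintype L) (_ : DecidableEq L) (ι G : Matrix L I (ZG (V × Multiplicative ℤ)))
      (E : Matrix L L (ZG V)), E * E = E ∧ Sup (Cut.line V).pos ι ∧ Sup (Cut.line V).pos G ∧
      rs (Cut.line V).v (Cut.line V).vinj (G * (mp (Cut.line V).v E * ι)ᴴ) = Eᴴ ∧
      ∀ (M : Type) [Fintype M] [DecidableEq M] (x w : Matrix M I (ZG (V × Multiplicative ℤ)))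
        (f : Matrix M L (ZG V)), Sup (Cut.line V).pos x → Sup (fun g => g.2.toAdd ≤ 1) w →
        x * l = mp (Cut.line V).v f * G + w →
        ∃ k : Matrix M L (ZG V), x = mp (Cut.line V).v (k * E) * ι := by
  obtain ⟨N₀, hg⟩ : ∃ N₀ : ℕ, Sup (fun γ => |γ.2.toAdd| ≤ (N₀ : ℤ)) g := by
    obtain ⟨s, hs⟩ := exists_sup_finset g
    refine ⟨s.sup fun γ => γ.2.toAdd.natAbs, hs.mono fun γ hγ => ?_⟩
    rw [Int.abs_eq_natAbs]
    exact_mod_cast Finset.le_sup (f := fun γ : V × Multiplicative ℤ => γ.2.toAdd.natAbs) hγ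
  have hι := OWin_sup_i (V := V) (I := I) (2 * N₀ + 2)
  have hrep := fun (M : Type) (x : Matrix M I (ZG (V × Multiplicative ℤ))) =>
    OWin_repr (x := x) (2 * N₀ + 2)
  generalize OWin_i V I (2 * N₀ + 2) = ι at hι hrep
  have hpos := OWin_p_pos h2 hg hι
  have hE := hrep _ _ hpos (OWin_p_le hg ι)
  have hgg : g'ᴴ * gᴴ = 1 := by rw [← conjTranspose_mul, h1, conjTranspose_one]
  refine ⟨Fin (2 * N₀ + 2) × I, inferInstance, inferInstance, ι,
    fm (fun γ => 1 ≤ γ.2.toAdd) (OWin_p (N₀ + 2) g'ᴴ gᴴ ι),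
    rs (Cut.line V).v (Cut.line V).vinj (OWin_p (N₀ + 2) g g' ι * ιᴴ), ?_, hι, sup_fm _ _, ?_,
    fun M _ _ x w f hx hw e => ?_⟩
  · rw [← rs_mp_mul, ← Matrix.mul_assoc, ← OWin_p_mp, hE, OWin_p_p h1]
  · rw [hE, OWin_adj (fun a => 1 ≤ a), hpos.fm_eq, OWin_p_adj, OWin_p_p h1, ← rs_ct,
      conjTranspose_mul, conjTranspose_conjTranspose]
  · have hgc : Sup (fun γ => |-γ.2.toAdd| ≤ (N₀ : ℤ)) gᴴ := OWin_ct (P := fun b => |b| ≤ (N₀ : ℤ)) hg
    have hlow : ∀ {M' : Type} {y : Matrix M' I (ZG (V × Multiplicative ℤ))},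
        Sup (fun γ => γ.2.toAdd ≤ 1) y → Sup (fun γ => γ.2.toAdd < (N₀ : ℤ) + 2) (y * gᴴ) := fun hy =>
      OWin_mul (P := fun a => a ≤ 1) (Q := fun b => |-b| ≤ (N₀ : ℤ)) (T := fun c => c < (N₀ : ℤ) + 2) hy hgc
        fun a b ha hb => by
          have := abs_le.1 hb
          omega
    have hG : Sup (fun γ => γ.2.toAdd < (N₀ : ℤ) + 2)
        (fm (fun γ => 1 ≤ γ.2.toAdd) (OWin_p (N₀ + 2) g'ᴴ gᴴ ι) * gᴴ) := by
      rw [eq_sub_of_add_eq (fm_add_not (fun γ => 1 ≤ γ.2.toAdd) (OWin_p (N₀ + 2) g'ᴴ gᴴ ι)),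
        Matrix.sub_mul]
      refine Sup.sub ?_ (hlow ((sup_fm _ _).mono fun γ hγ => by omega))
      rw [OWin_p, Matrix.mul_assoc, hgg, Matrix.mul_one]
      exact sup_fm _ _
    have e1 : x * g' = (mp (Cut.line V).v f *
        (fm (fun γ => 1 ≤ γ.2.toAdd) (OWin_p (N₀ + 2) g'ᴴ gᴴ ι) * gᴴ) + w * gᴴ) *
          mp (Cut.line V).v ω' := by
      rw [← Matrix.mul_assoc, ← Matrix.add_mul, ← e, hl, Matrix.mul_assoc x, Matrix.mul_assoc _ g'ᴴ,
        hgg, Matrix.mul_one, Matrix.mul_assoc x, Matrix.mul_assoc g', ← mp_mul, w1, mp_one,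
        Matrix.mul_one]
    have hxg : Sup (fun γ => γ.2.toAdd < (N₀ : ℤ) + 2) (x * g') := by
      rw [e1]
      exact OWin_mul (P := fun a => a < (N₀ : ℤ) + 2) (Q := fun b => b = 0) (T := fun c => c < (N₀ : ℤ) + 2)
        ((OWin_mul (P := fun a => a = 0) (Q := fun b => b < (N₀ : ℤ) + 2) (T := fun c => c < (N₀ : ℤ) + 2)
          (OWin_sup_mp f) hG fun a b ha hb => by omega).add (hlow hw)) (OWin_sup_mp ω')
        fun a b ha hb => by omega
    have hpx : OWin_p (N₀ + 2) g g' x = x := by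
      rw [OWin_p, hxg.fm_eq, Matrix.mul_assoc, h2, Matrix.mul_one]
    have hx' := hrep _ x hx (hpx ▸ OWin_p_le hg x)
    refine ⟨rs (Cut.line V).v (Cut.line V).vinj (x * ιᴴ), ?_⟩
    rw [mp_mul, Matrix.mul_assoc, hE, ← OWin_p_mp, hx', hpx]

end Pool.Agent.Work.MP_9d1ffa_al
end
end

-- merged part: Pool.Agent.Work.MP_9d1ffa_al.OSurf
section
/-! Surface relators. -/

namespace Pool.Agent.Work.MP_9d1ffa_al

open FreeGroup

/-- the relator `c ^ e * [a₁, b₁] ⋯ [a_g, b_g]` -/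
def surfRel (e g : ℕ) : FreeGroup (Option (Fin g × Bool)) :=
  of none ^ e * (List.ofFn fun i : Fin g => of (some (i, false)) * of (some (i, true)) *
    (of (some (i, false)))⁻¹ * (of (some (i, true)))⁻¹).prod

/-- the group with the single relator `c ^ e * [a₁, b₁] ⋯ [a_g, b_g]` -/
abbrev Surf (e g : ℕ) : Type := PresentedGroup {surfRel e g}

end Pool.Agent.Work.MP_9d1ffa_al
end

-- merged part: Pool.Agent.Work.MP_9d1ffa_al.UDefsL
section
/-! The unitary nilpotent forms of an amalgamated free product, stated over a homomorphism. -/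

namespace Pool.Agent.Work.MP_9d1ffa_al

open Matrix

/-- the image of a matrix under a homomorphism of groups -/
noncomputable def pushM {E Γ : Type} [Group E] [Group Γ] (f : E →* Γ) {J : Type}
    (A : Matrix J J (ZG E)) : Matrix J J (ZG Γ) :=
  A.map (MonoidAlgebra.mapDomainRingHom ℤ f)

/-- if the product of the symmetrisations is nilpotent, the form `(B 1; 0 A)` is stably
hyperbolic -/
def NilHyp (ε : ℤˣ) {Γ : Type} [Group Γ] {J : Type} [Fintype J] [DecidableEq J]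
    (A B : Matrix J J (ZG Γ)) : Prop :=
  IsNilpotent (symF ε B * symF ε A) → StHyp ε (fromBlocks B 1 0 A)

variable {G : Type} [Group G]

/-- every unitary nilpotent form of the two groups `E i` over `D` is stably hyperbolic in `Γ` -/
def UNilHom (ε : ℤˣ) (D : Subgroup G) {E : Bool → Subgroup G} {Γ : Type} [Group Γ]
    (f : ∀ i, E i →* Γ) : Prop :=
  ∀ (J : Type) [Fintype J] [DecidableEq J] (A : ∀ i, Matrix J J (ZG (E i))),
    (∀ i j k (g : E i), (A i j k).coeff g ≠ 0 → (g : G) ∉ D) →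
    NilHyp ε (pushM (f false) (A false)) (pushM (f true) (A true))

/-- every unitary nilpotent form of the amalgamated free product of the two groups `E i` over `D`
is stably hyperbolic -/
def UNilAmalg (ε : ℤˣ) {D : Subgroup G} {E : Bool → Subgroup G} (h : ∀ i, D ≤ E i) : Prop :=
  UNilHom ε D fun i => Monoid.PushoutI.of (φ := fun j => Subgroup.inclusion (h j)) i

theorem unilAm_of_amalg {ε : ℤˣ} {D : Subgroup G} {E : Bool → Subgroup G} {h : ∀ i, D ≤ E i}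
    (H : UNilAmalg ε h) : UNilAm ε h := fun J _ _ A hA hn => H J A hA hn

end Pool.Agent.Work.MP_9d1ffa_al
end

-- merged part: Pool.Agent.Work.MP_9d1ffa_al.WDefs
section
/-! Hierarchies of groups along locally free subgroups, and forms induced from a family of groups. -/

namespace Pool.Agent.Work.MP_9d1ffa_al

open Matrix

/-- all finitely generated subgroups are free -/
def LocFree (A : Type) [Group A] : Prop := ∀ D : Subgroup A, D.FG → IsFreeGroup D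

/-- the smallest class of groups that contains the class `B` and the torsion free one relator
groups and is closed under HNN extensions and amalgamated free products along locally free
groups, under retracts and under directed unions -/
inductive Hier (B : ∀ (G : Type) [Group G], Prop) : ∀ (G : Type) [Group G], Prop
  | base (G : Type) [Group G] (h : B G) : Hier B G
  | oneRel (X : Type) (r : FreeGroup X)
      (h : ∀ g : PresentedGroup ({r} : Set (FreeGroup X)), IsOfFinOrder g → g = 1) :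
      Hier B (PresentedGroup ({r} : Set (FreeGroup X)))
  | hnn (V : Type) [Group V] (A A' : Subgroup V) (φ : A ≃* A') (hA : LocFree A)
      (h : Hier B V) : Hier B (HNNExtension V A A' φ)
  | amalg (A : Type) [Group A] (V : Bool → Type) [∀ i, Group (V i)] (φ : ∀ i, A →* V i)
      (hA : LocFree A) (hφ : ∀ i, Function.Injective (φ i)) (h : ∀ i, Hier B (V i)) :
      Hier B (Monoid.PushoutI φ)
  | retract (G H : Type) [Group G] [Group H] (s : G →* H) (r : H →* G) (e : ∀ g, r (s g) = g)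
      (h : Hier B H) : Hier B G
  | union (G : Type) [Group G] (N : Finset G → Subgroup G) (e : ∀ T, ∀ g ∈ T, g ∈ N T)
      (h : ∀ T, Hier B (N T)) : Hier B G

/-- the form over the group ring of `G × K` becomes stably hyperbolic after subtracting finitely
many forms induced from groups `S × K` with `S` in the family `F` -/
inductive Induced (ε : ℤˣ) (F : ∀ (S : Type) [Group S], Prop) {G K : Type} [Group G] [Group K] :
    ∀ {I : Type} [Fintype I] [DecidableEq I], Matrix I I (ZG (G × K)) → Prop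
  | hyp {I : Type} [Fintype I] [DecidableEq I] (ψ : Matrix I I (ZG (G × K))) (h : StHyp ε ψ) :
      Induced ε F ψ
  | step {I : Type} [Fintype I] [DecidableEq I] (ψ : Matrix I I (ZG (G × K))) (S : Type) [Group S]
      (hS : F S) (f : S →* G) (m : ℕ) (φ : Matrix (Fin m) (Fin m) (ZG (S × K)))
      (hφ : IsUnit (symF ε φ))
      (h : Induced ε F (fromBlocks ψ 0 0 (-pushM (f.prodMap (MonoidHom.id K)) φ))) :
      Induced ε F ψ

end Pool.Agent.Work.MP_9d1ffa_al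
end
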