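import Pool.Agent.Work.MP_9d1ffa_al.OL1
import Pool.Agent.Work.MP_9d1ffa_al.WDefs
import Pool.Agent.Work.MP_9d1ffa_al.OU1
import Pool.Agent.Work.MP_9d1ffa_al.NilT
import Pool.Agent.Work.MP_9d1ffa_al.Machine
import Pool.Agent.Work.MP_9d1ffa_al.Geo
import Pool.Agent.Work.MP_9d1ffa_al.NilP
import Pool.Agent.Work.MP_9d1ffa_al.Ind
import Pool.Agent.Work.MP_9d1ffa_al.SF
import Pool.Agent.Work.MP_9d1ffa_al.UDefs
import Pool.Agent.Work.MP_9d1ffa_al.UFa
import Pool.Agent.Work.MP_9d1ffa_al.Walls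

-- merged part: Pool.Agent.Work.MP_9d1ffa_al.OW
section
-- merged part: Pool.Agent.Work.MP_9d1ffa_al.OL2
section
/-! Computations in the odd Wall group. -/

namespace Pool.Agent.Work.MP_9d1ffa_al

open Matrix MonoidAlgebra

set_option linter.unusedSectionVars false
set_option linter.unusedVariables false

variable {R S : Type} [Ring R] [StarRing R] [Ring S] [StarRing S] {η ε : ℤˣ} {I J : Type}
  [Fintype I] [DecidableEq I] [Fintype J] [DecidableEq J]

theorem ucl_mem {U : Matrix (I ⊕ I) (I ⊕ I) R} (h : U ∈ RU R η I) : ucl η U = 0 :=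
  (ucl_eq_zero (Uni.of_mem h)).2 (Nul.of_mem h)

theorem ucl_one : ucl η (1 : Matrix (I ⊕ I) (I ⊕ I) R) = 0 := ucl_mem (one_mem _)

theorem ucl_gen {U : Matrix (I ⊕ I) (I ⊕ I) R} (h : GenU η U) : ucl η U = 0 := ucl_mem h.mem

theorem ucl_inv {U V : Matrix (I ⊕ I) (I ⊕ I) R} (hU : Uni η U) (h : U * V = 1) :
    ucl η V = -ucl η U := by
  rw [eq_neg_iff_add_eq_zero, add_comm, ← ucl_mul hU (hU.of_inv h).1, h, ucl_one]

theorem ucl_fA_neg {U : Matrix (I ⊕ I) (I ⊕ I) R} (hU : Uni η U) :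
    ucl η (fA (-1) U) = -ucl η U := by
  rw [eq_neg_iff_add_eq_zero, add_comm, ← ucl_dsum hU hU.fA_neg, ucl_mem (ru_white hU)]

theorem OL2_fA_one (U : Matrix (I ⊕ I) (I ⊕ I) R) : fA 1 U = U := by
  simp [fA, fromBlocks_toBlocks]

theorem ucl_fA {U : Matrix (I ⊕ I) (I ⊕ I) R} (hU : Uni η U) :
    ucl η (fA η U) = (η : ℤ) • ucl η U := by
  rcases Int.units_eq_one_or η with rfl | rfl
  · rw [OL2_fA_one]
    simp
  · rw [ucl_fA_neg hU]
    simp

theorem ucl_fB {U : Matrix (I ⊕ I) (I ⊕ I) R} (hU : Uni η U) :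
    ucl η (fB U) = -((η : ℤ) • ucl η U) := by
  have hs : Uni η (fromBlocks 0 1 ((η : ℤ) • 1) 0 : Matrix (I ⊕ I) (I ⊕ I) R) := genU_swap.uni
  have hs0 : ucl η (fromBlocks 0 1 ((η : ℤ) • 1) 0 : Matrix (I ⊕ I) (I ⊕ I) R) = 0 :=
    ucl_gen genU_swap
  have key : (fromBlocks 0 1 ((η : ℤ) • 1) 0 : Matrix (I ⊕ I) (I ⊕ I) R) * U =
      fA (-η) (fB U) * fromBlocks 0 1 ((η : ℤ) • 1) 0 := by
    conv_lhs => rw [← fromBlocks_toBlocks U]
    rcases Int.units_eq_one_or η with rfl | rfl <;>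
      simp [fA, fB, fromBlocks_multiply]
  have h1 := congrArg (ucl η) key
  rcases Int.units_eq_one_or η with rfl | rfl
  · rw [ucl_mul hs hU, ucl_mul hU.fB.fA_neg hs, hs0, ucl_fA_neg hU.fB] at h1
    simp only [zero_add, add_zero] at h1
    rw [h1]
    simp
  · rw [neg_neg, OL2_fA_one, ucl_mul hs hU, ucl_mul hU.fB hs, hs0] at h1
    simp only [zero_add, add_zero] at h1
    rw [← h1]
    simp

theorem uni_neg {U : Matrix (I ⊕ I) (I ⊕ I) R} (hU : Uni η U) :
    Uni η (-U) ∧ ucl η (-U) = ucl η U := by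
  have hg : GenU η (fromBlocks (-1) 0 0 (-1 : Matrix I I R)ᴴ) :=
    GenU.gl (-1) (-1) (by simp) (by simp)
  have key : -U = U * fromBlocks (-1) 0 0 (-1 : Matrix I I R)ᴴ := by
    have : (fromBlocks (-1) 0 0 (-1 : Matrix I I R)ᴴ : Matrix (I ⊕ I) (I ⊕ I) R) = -1 := by
      rw [← fromBlocks_one, fromBlocks_neg]
      simp
    rw [this]
    simp
  rw [key]
  exact ⟨hU.mul hg.uni, by rw [ucl_mul hU hg.uni, ucl_gen hg, add_zero]⟩

/-- a boundary condition of a form is trivial -/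
theorem ucl_sys {W : Matrix (I ⊕ I) (I ⊕ I) R} (hW : Uni (-ε) W) {ψ C : Matrix I I R}
    (h : C * sysM ε W ψ = 1) : ucl (-ε) W = 0 := by
  have hg := genU_sy ε (-ψ)
  have hW' := hW.mul hg.uni
  have hb : (W * fromBlocks 1 (sy ε (-ψ)) 0 1).toBlocks₁₂ = -sysM ε W ψ := by
    conv_lhs => rw [← fromBlocks_toBlocks W]
    rw [fromBlocks_multiply, toBlocks_fromBlocks₁₂]
    simp only [sysM, sy, conjTranspose_neg, smul_neg, Matrix.mul_add, Matrix.mul_neg,
      Matrix.mul_one]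
    abel
  have hu : IsUnit (W * fromBlocks 1 (sy ε (-ψ)) 0 1).toBlocks₁₂ :=
    hW'.unit₁₂ (C := -C) (by rw [hb]; simpa using h)
  have h0 := ucl_mem (ru_compl hW' hu)
  rwa [ucl_mul hW hg.uni, ucl_gen hg, add_zero] at h0

variable {G H K : Type} [Group G] [Group H] [Group K]

/-- the map induced by a homomorphism of groups -/
noncomputable def m1 (η : ℤˣ) (f : G →* H) : L1 (ZG G) η →+ L1 (ZG H) η :=
  L1.map (gm f) (gm_star f)

theorem m1_ucl (f : G →* H) {U : Matrix (I ⊕ I) (I ⊕ I) (ZG G)} (hU : Uni η U) :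
    m1 η f (ucl η U) = ucl η (mp f U) := map_ucl _ _ hU

theorem m1_comp (f : H →* K) (f' : G →* H) (x : L1 (ZG G) η) :
    m1 η f (m1 η f' x) = m1 η (f.comp f') x := by
  obtain ⟨n, U, h, rfl⟩ := ucl_surj x
  rw [m1_ucl _ h, m1_ucl _ (h.mp f'), m1_ucl _ h, mp_mp]

theorem m1_id (x : L1 (ZG G) η) : m1 η (MonoidHom.id G) x = x := by
  obtain ⟨n, U, h, rfl⟩ := ucl_surj x
  rw [m1_ucl _ h, mp_id]

/-- conjugate homomorphisms induce the same map -/
theorem m1_conj (f f' : G →* H) (t : H) (h : ∀ g, f g * t = t * f' g) (x : L1 (ZG G) η) :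
    m1 η f x = m1 η f' x := by
  obtain ⟨n, U, hU, rfl⟩ := ucl_surj x
  have hg : GenU η (dg (Fin n ⊕ Fin n) t) := by
    have := GenU.gl (η := η) (dg (Fin n) t) (dg (Fin n) t⁻¹) (dg_mul_inv t) (dg_inv_mul t)
    rwa [dg_ct, inv_inv, ← dg_blocks] at this
  have h1 := congrArg (ucl η) (mp_mul_dg f f' t h U)
  rw [ucl_mul (hU.mp f) hg.uni, ucl_mul hg.uni (hU.mp f'), ucl_gen hg, add_zero, zero_add] at h1
  rw [m1_ucl _ hU, m1_ucl _ hU, h1]

/-- a class killed by an idempotent endomorphism has a representative that is killed exactly -/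
theorem exists_red (f : G →* G) (hf : ∀ g, f (f g) = f g) (u : L1 (ZG G) η)
    (h : m1 η f u = 0) :
    ∃ (n : ℕ) (U : Matrix (Fin n ⊕ Fin n) (Fin n ⊕ Fin n) (ZG G)), Uni η U ∧ mp f U = 1 ∧
      ucl η U = u := by
  obtain ⟨n, U, hU, rfl⟩ := ucl_surj u
  obtain ⟨V, hV, h1, -⟩ := hU.inv
  have hff : f.comp f = f := MonoidHom.ext hf
  refine ⟨n, U * mp f V, hU.mul (hV.mp f), ?_, ?_⟩
  · rw [mp_mul, mp_mp, hff, ← mp_mul, h1, mp_one]
  · rw [ucl_mul hU (hV.mp f), ← m1_ucl f hV, ucl_inv hU h1, map_neg, h, neg_zero, add_zero]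

end Pool.Agent.Work.MP_9d1ffa_al
end

-- merged part: Pool.Agent.Work.MP_9d1ffa_al.OBox
section
/-! Realisation of elementary isometries by forms. -/

namespace Pool.Agent.Work.MP_9d1ffa_al

open Matrix MonoidAlgebra

set_option linter.unusedSectionVars false
set_option linter.unusedVariables false

variable {R : Type} [Ring R] [StarRing R] {ε : ℤˣ} {I J M : Type}
  [Fintype I] [DecidableEq I] [Fintype J] [DecidableEq J] [Fintype M] [DecidableEq M]

theorem OBox_add {L A B : Type} (a a' : Matrix L A R) (b b' : Matrix L B R) :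
    fromCols a b + fromCols a' b' = fromCols (a + a') (b + b') := by
  ext i (j | j) <;> simp

theorem OBox_smul {L A B : Type} (n : ℤ) (a : Matrix A L R) (b : Matrix B L R) :
    n • fromRows a b = fromRows (n • a) (n • b) := by
  ext (i | i) j <;> simp

theorem OBox_T {L A B : Type} [Fintype A] [Fintype B] (Y : Matrix L B R) (T : Matrix B A R)
    (θ : Matrix A A R) (γ : Matrix B B R) :
    Y * sy ε (T * θ * Tᴴ + γ) = Y * T * sy ε θ * Tᴴ + Y * sy ε γ := by
  rw [sy_add, sy_conj, Matrix.mul_add]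
  simp only [Matrix.mul_assoc]

theorem OBox_T0 {L A B : Type} [Fintype A] [Fintype B] (Y : Matrix L B R) (T : Matrix B A R)
    (θ : Matrix A A R) : Y * sy ε (T * θ * Tᴴ) = Y * T * sy ε θ * Tᴴ := by
  rw [sy_conj]
  simp only [Matrix.mul_assoc]

theorem OBox_gl {x φ g g' : Matrix I I R} (h : HasBox ε x φ) (h1 : g * g' = 1) :
    HasBox ε (x * g) (φ * g'ᴴ) := by
  obtain ⟨M, _, _, θ, m, h2, C, c, h3⟩ := h
  refine ⟨M, inferInstance, inferInstance,
    fromBlocks g' 0 0 1 * θ * (fromBlocks g' 0 0 1)ᴴ, m, ?_, 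
    C * (fromBlocks g 0 0 1 : Matrix (I ⊕ M) (I ⊕ M) R), c * g'ᴴ, ?_⟩
  · rw [OBox_T0, fromCols_mul_fromBlocks]
    simp only [Matrix.mul_zero, add_zero, zero_add, Matrix.mul_one, Matrix.mul_assoc x, h1]
    rw [h2, fromBlocks_conjTranspose, fromCols_mul_fromBlocks]
    simp
  · rw [OBox_T0, Matrix.mul_assoc C, fromBlocks_multiply]
    simp only [Matrix.mul_zero, Matrix.zero_mul, add_zero, zero_add, Matrix.mul_one, h1,
      fromBlocks_one]
    rw [h3, fromBlocks_conjTranspose, fromCols_mul_fromBlocks]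
    simp

theorem OBox_sh {x φ : Matrix I I R} (h : HasBox ε x φ) (χ : Matrix I I R) :
    HasBox ε x (x * sy ε χ + φ) := by
  obtain ⟨M, _, _, θ, m, h2, C, c, h3⟩ := h
  refine ⟨M, inferInstance, inferInstance, fromBlocks χ 0 0 0 + θ, m, ?_, C,
    C.toCols₁ * sy ε χ + c, ?_⟩
  · rw [sy_add, Matrix.mul_add, h2, sy_blocks, fromCols_mul_fromBlocks, OBox_add]
    simp [sy_zero]
  · rw [sy_add, Matrix.mul_add, h3, sy_blocks]
    conv_lhs => rw [← fromCols_toCols C]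
    rw [fromCols_mul_fromBlocks, OBox_add]
    simp [sy_zero]

theorem OBox_sw {x φ : Matrix I I R} (h : HasBox ε x φ) {κ : Type} [Fintype κ] [DecidableEq κ]
    {s : Matrix κ I R} (hs : s * sᴴ = 1) :
    HasBox ε (x * (1 - sᴴ * s) - (ε : ℤ) • (φ * (sᴴ * s))) (x * (sᴴ * s) + φ * (1 - sᴴ * s)) := by
  obtain ⟨M, _, _, θ, m, h2, C, c, h3⟩ := h
  have e1 : s * (1 - sᴴ * s) = 0 := by
    rw [Matrix.mul_sub, ← Matrix.mul_assoc, hs, Matrix.mul_one, Matrix.one_mul, sub_self]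
  have e2 : (1 - sᴴ * s) * sᴴ = 0 := by
    rw [Matrix.sub_mul, Matrix.mul_assoc, hs, Matrix.mul_one, Matrix.one_mul, sub_self]
  have e3 : (1 - sᴴ * s) * (1 - sᴴ * s) = 1 - sᴴ * s := by
    rw [Matrix.mul_sub (1 - sᴴ * s), ← Matrix.mul_assoc, e2, Matrix.mul_one, Matrix.zero_mul,
      sub_zero]
  have e4 : (1 - sᴴ * s)ᴴ = 1 - sᴴ * s := by simp
  have e5 : 1 - sᴴ * s + sᴴ * s = 1 := sub_add_cancel _ _
  generalize 1 - sᴴ * s = p at *
  let T : Matrix (I ⊕ (M ⊕ κ)) (I ⊕ M) R := fromBlocks p 0 (fromRows 0 s) (fromRows 1 0)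
  let γ : Matrix (I ⊕ (M ⊕ κ)) (I ⊕ (M ⊕ κ)) R := fromBlocks 0 (fromCols 0 ((ε : ℤ) • sᴴ)) 0 0
  have hT : Tᴴ = fromBlocks p (fromCols 0 sᴴ) 0 (fromCols 1 0) := by
    simp only [T, fromBlocks_conjTranspose, conjTranspose_fromRows_eq_fromCols_conjTranspose, e4,
      conjTranspose_zero, conjTranspose_one]
  have hγ : sy ε γ = fromBlocks 0 (fromCols 0 ((ε : ℤ) • sᴴ)) (fromRows 0 s) 0 := by
    simp only [γ, sy_blocks, sy_zero, conjTranspose_zero, smul_zero, add_zero, zero_add,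
      conjTranspose_fromCols_eq_fromRows_conjTranspose, OBox_smul, ct_zsmul, eps_eps,
      conjTranspose_conjTranspose]
  have key : ∀ {L : Type} (a : Matrix L I R) (b : Matrix L M R) (d : Matrix L κ R),
      fromCols a (fromCols b d) * T = fromCols (a * p + d * s) b := by
    intro L a b d
    simp [T, fromCols_mul_fromBlocks, fromCols_mul_fromRows]
  have key2 : ∀ {L : Type} (a : Matrix L I R) (b : Matrix L M R) (d : Matrix L κ R),
      fromCols a (fromCols b d) * sy ε γ = fromCols (d * s) (fromCols 0 ((ε : ℤ) • (a * sᴴ))) := by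
    intro L a b d
    simp [hγ, fromCols_mul_fromBlocks, fromCols_mul_fromRows, mul_fromCols]
  have key3 : ∀ {L : Type} (a : Matrix L I R) (b : Matrix L M R),
      fromCols a b * Tᴴ = fromCols (a * p) (fromCols b (a * sᴴ)) := by
    intro L a b
    simp [hT, fromCols_mul_fromBlocks, mul_fromCols, OBox_add]
  have r1 : fromCols (C.toCols₁ * p) (fromCols C.toCols₂ (C.toCols₁ * sᴴ)) *
      sy ε (T * θ * Tᴴ + γ) = fromCols (c * p + C.toCols₁ * sᴴ * s) (fromCols 1 (c * sᴴ)) := by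
    rw [OBox_T, key, key2, Matrix.mul_assoc _ p p, e3, Matrix.mul_assoc _ sᴴ s, ← Matrix.mul_add,
      e5, Matrix.mul_one, fromCols_toCols, h3, key3, OBox_add, OBox_add, Matrix.mul_assoc _ p sᴴ,
      e2]
    simp
  have r2 : fromCols ((ε : ℤ) • s) (fromCols (0 : Matrix κ M R) (0 : Matrix κ κ R)) *
      sy ε (T * θ * Tᴴ + γ) =
      fromCols 0 (fromCols 0 1) := by
    rw [OBox_T, key, key2]
    simp only [Matrix.smul_mul, e1, hs, eps_eps, smul_zero, Matrix.zero_mul, add_zero,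
      fromCols_zero, zero_add]
  refine ⟨M ⊕ κ, inferInstance, inferInstance, T * θ * Tᴴ + γ, fromCols m (x * sᴴ), ?_,
    fromRows (fromCols (C.toCols₁ * p) (fromCols C.toCols₂ (C.toCols₁ * sᴴ)) +
      -(c * sᴴ) * fromCols ((ε : ℤ) • s) (fromCols (0 : Matrix κ M R) (0 : Matrix κ κ R)))
      (fromCols ((ε : ℤ) • s) (fromCols 0 0)),
    fromRows (c * p + C.toCols₁ * sᴴ * s) 0, ?_⟩
  · have e6 : (x * p - (ε : ℤ) • (φ * (sᴴ * s))) * p + x * sᴴ * s = x := by
      rw [Matrix.sub_mul, Matrix.smul_mul, Matrix.mul_assoc x p p, e3, Matrix.mul_assoc φ,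
        Matrix.mul_assoc sᴴ, e1, Matrix.mul_zero, Matrix.mul_zero, smul_zero, sub_zero,
        Matrix.mul_assoc, ← Matrix.mul_add, e5, Matrix.mul_one]
    have e7 : φ * sᴴ + (ε : ℤ) • ((x * p - (ε : ℤ) • (φ * (sᴴ * s))) * sᴴ) = 0 := by
      rw [Matrix.sub_mul, Matrix.smul_mul, Matrix.mul_assoc x, e2, Matrix.mul_zero, zero_sub,
        smul_neg, eps_eps, Matrix.mul_assoc φ, Matrix.mul_assoc sᴴ, hs, Matrix.mul_one,
        add_neg_cancel]
    rw [OBox_T, key, key2, e6, h2, key3, OBox_add, OBox_add, e7, add_zero, fromCols_zero,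
      add_comm, Matrix.mul_assoc]
  · rw [fromRows_mul, Matrix.add_mul, Matrix.mul_assoc (-(c * sᴴ)), r1, r2, mul_fromCols,
      mul_fromCols, OBox_add, OBox_add, ← fromBlocks_one, ← fromRows_fromCols_eq_fromBlocks,
      fromRows_fromCols_eq_fromBlocks, fromCols_fromRows_eq_fromBlocks]
    simp

theorem HasBox.gen {x φ : Matrix I I R} (h : HasBox ε x φ) {g : Matrix (I ⊕ I) (I ⊕ I) R}
    (hg : GenU (-ε) g) : HasBox ε (fromCols x φ * g).toCols₁ (fromCols x φ * g).toCols₂ := by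
  cases hg with
  | gl g g' h1 h2 =>
    rw [fromCols_mul_fromBlocks, toCols₁_fromCols, toCols₂_fromCols]
    simpa using OBox_gl h h1
  | sh χ =>
    rw [fromCols_mul_fromBlocks, toCols₁_fromCols, toCols₂_fromCols]
    simpa [sy] using OBox_sh h χ
  | sw κ s hs =>
    rw [fromCols_mul_fromBlocks, toCols₁_fromCols, toCols₂_fromCols, Units.val_neg, neg_smul,
      Matrix.mul_neg, Matrix.mul_smul, ← sub_eq_add_neg]
    exact OBox_sw h hs

theorem hasBox_of_mem {W : Matrix (I ⊕ I) (I ⊕ I) R} (h : W ∈ RU R (-ε) I) :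
    HasBox ε W.toBlocks₁₁ W.toBlocks₁₂ := by
  induction h using Submonoid.closure_induction_right with
  | one =>
    rw [← fromBlocks_one, toBlocks_fromBlocks₁₁, toBlocks_fromBlocks₁₂]
    refine ⟨Empty, inferInstance, inferInstance, 0, 0, ?_, 0, 0, ?_⟩
    · simp [sy_zero]
    · ext i
      exact i.elim
  | mul_right W _ g hg ih =>
    have e : fromCols W.toBlocks₁₁ W.toBlocks₁₂ = W.toRows₁ := by
      ext i (j | j) <;> rfl
    have := ih.gen hg
    rw [e] at this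
    exact this

theorem HasBox.destab {x φ : Matrix I I R}
    (h : HasBox ε (fromBlocks x 0 0 (1 : Matrix J J R)) (fromBlocks φ 0 0 (0 : Matrix J J R))) :
    HasBox ε x φ := by
  obtain ⟨M, _, _, θ, m, h2, C, c, h3⟩ := h
  have e1 : fromCols (fromBlocks x 0 0 (1 : Matrix J J R)) m =
      fromRows (fromCols (fromCols x 0) m.toRows₁) (fromCols (fromCols 0 1) m.toRows₂) := by
    ext (i | i) ((j | j) | j) <;> rfl
  have e2 : fromCols (fromBlocks φ 0 0 (0 : Matrix J J R)) (0 : Matrix (I ⊕ J) M R) =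
      fromRows (fromCols (fromCols φ 0) 0) 0 := by
    ext (i | i) ((j | j) | j) <;> rfl
  rw [e1, e2, fromRows_mul, fromRows_ext_iff] at h2
  let T : Matrix (I ⊕ M) ((I ⊕ J) ⊕ M) R := fromBlocks (fromCols 1 0) 0 0 1
  have key : ∀ {L : Type} (a : Matrix L I R) (b : Matrix L M R),
      fromCols a b * T = fromCols (fromCols a 0) b := by
    intro L a b
    simp [T, fromCols_mul_fromBlocks, mul_fromCols]
  have key2 : ∀ {L : Type} (a : Matrix L (I ⊕ J) R) (b : Matrix L M R),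
      fromCols a b * Tᴴ = fromCols a.toCols₁ b := by
    intro L a b
    conv_lhs => rw [← fromCols_toCols a]
    simp [T, fromBlocks_conjTranspose, conjTranspose_fromCols_eq_fromRows_conjTranspose,
      fromCols_mul_fromBlocks, fromCols_mul_fromRows, -fromCols_toCols]
  refine ⟨M, inferInstance, inferInstance, T * θ * Tᴴ, m.toRows₁, ?_,
    fromCols C.toCols₁.toCols₁ (C.toCols₂ - C.toCols₁.toCols₂ * m.toRows₂), c.toCols₁, ?_⟩
  · rw [OBox_T0, key, h2.1, key2, toCols₁_fromCols]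
  · have e3 : fromCols (fromCols C.toCols₁.toCols₁ 0)
        (C.toCols₂ - C.toCols₁.toCols₂ * m.toRows₂) =
        C - C.toCols₁.toCols₂ * fromCols (fromCols 0 1) m.toRows₂ := by
      rw [mul_fromCols, mul_fromCols, Matrix.mul_zero, Matrix.mul_one]
      ext i ((j | j) | j) <;> simp
    rw [OBox_T0, key, e3, Matrix.sub_mul, Matrix.mul_assoc _ _ (sy ε θ), h2.2, Matrix.mul_zero,
      sub_zero, h3, key2]

theorem hasBox_upper {W : Matrix (I ⊕ I) (I ⊕ I) R} (hW : Uni (-ε) W) (h : ucl (-ε) W = 0) :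
    HasBox ε W.toBlocks₁₁ W.toBlocks₁₂ := by
  obtain ⟨κ, _, _, h1⟩ := (ucl_eq_zero hW).1 h
  have h2 := hasBox_of_mem h1
  rw [dsum_eq, toBlocks_fromBlocks₁₁, toBlocks_fromBlocks₁₂, ← fromBlocks_one,
    toBlocks_fromBlocks₁₁, toBlocks_fromBlocks₁₂] at h2
  exact h2.destab

theorem hasBox_lower {W : Matrix (I ⊕ I) (I ⊕ I) R} (hW : Uni (-ε) W) (h : ucl (-ε) W = 0) :
    HasBox ε W.toBlocks₂₁ W.toBlocks₂₂ := by
  have hg : GenU (-ε) _ := GenU.sw I (1 : Matrix I I R) (by simp)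
  have h1 := hasBox_upper (hg.uni.mul hW) (by rw [ucl_mul hg.uni hW, ucl_gen hg, h, add_zero])
  rw [← fromBlocks_toBlocks W, fromBlocks_multiply, toBlocks_fromBlocks₁₁,
    toBlocks_fromBlocks₁₂] at h1
  simpa using h1

theorem BoxD.mp {G H : Type} [Group G] [Group H] (f : G →* H) {x φ : Matrix I I (ZG G)}
    {θ : Matrix (I ⊕ M) (I ⊕ M) (ZG G)} {m : Matrix I M (ZG G)} (h : BoxD ε x φ θ m) :
    BoxD ε (mp f x) (mp f φ) (mp f θ) (mp f m) := by
  obtain ⟨h1, C, c, h2⟩ := h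
  refine ⟨?_, MP_9d1ffa_al.mp f C, MP_9d1ffa_al.mp f c, ?_⟩
  · rw [← mp_fromCols, ← mp_sy, ← mp_mul, h1, mp_fromCols, mp_zero]
  · rw [← mp_sy, ← mp_mul, h2, mp_fromCols, mp_one]

end Pool.Agent.Work.MP_9d1ffa_al
end

-- merged part: Pool.Agent.Work.MP_9d1ffa_al.OGlue
section
/-! Closing up boxes. -/

namespace Pool.Agent.Work.MP_9d1ffa_al

open Matrix MonoidAlgebra

set_option linter.unusedSectionVars false
set_option linter.unusedVariables false

variable {R : Type} [Ring R] [StarRing R] {ε : ℤˣ} {I J M : Type}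
  [Fintype I] [DecidableEq I] [Fintype J] [DecidableEq J] [Fintype M] [DecidableEq M]

theorem OGlue_unit {A B : Matrix I I R} (h1 : A * B = 1) (h2 : B * A = 1) : IsUnit A :=
  ⟨⟨A, B, h1, h2⟩, rfl⟩

theorem OGlue_box {x φ : Matrix I I R} {θ : Matrix (I ⊕ M) (I ⊕ M) R} {m : Matrix I M R}
    (h : BoxD ε x φ θ m) :
    ∃ (a : Matrix I I R) (b : Matrix I M R) (c : Matrix M I R) (d : Matrix M M R)
      (C₁ : Matrix M I R) (C₂ : Matrix M M R), sy ε θ = fromBlocks a b c d ∧ x * a + m * c = φ ∧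
        x * b + m * d = 0 ∧ C₁ * b + C₂ * d = 1 := by
  obtain ⟨h1, C, c, h2⟩ := h
  rw [← fromBlocks_toBlocks (sy ε θ), fromCols_mul_fromBlocks, fromCols_ext_iff] at h1
  rw [← fromBlocks_toBlocks (sy ε θ), ← fromCols_toCols C, fromCols_mul_fromBlocks,
    fromCols_ext_iff] at h2
  exact ⟨_, _, _, _, _, _, (fromBlocks_toBlocks _).symm, h1.1, h1.2, h2.2⟩

theorem OGlue_left {s₁ y₁ u u' : Matrix I I R} {s₂ y₂ : Matrix I M R} {s₃ y₃ : Matrix M I R}
    {s₄ y₄ : Matrix M M R} (h1 : y₁ * s₁ + y₂ * s₃ = u) (h2 : y₁ * s₂ + y₂ * s₄ = 0)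
    (h3 : y₃ * s₂ + y₄ * s₄ = 1) (hu : u' * u = 1) :
    ∃ C : Matrix (I ⊕ M) (I ⊕ M) R, C * fromBlocks s₁ s₂ s₃ s₄ = 1 := by
  refine ⟨fromBlocks u' 0 (-((y₃ * s₁ + y₄ * s₃) * u')) 1 * fromBlocks y₁ y₂ y₃ y₄, ?_⟩
  rw [Matrix.mul_assoc, fromBlocks_multiply y₁, h1, h2, h3, fromBlocks_multiply]
  simp only [Matrix.mul_zero, Matrix.zero_mul, add_zero, zero_add, Matrix.one_mul, hu,
    Matrix.neg_mul, Matrix.mul_assoc, Matrix.mul_one, neg_add_cancel, fromBlocks_one]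

theorem OGlue_sys (W : Matrix (I ⊕ I) (I ⊕ I) R) {θ : Matrix (I ⊕ M) (I ⊕ M) R}
    {a : Matrix I I R} {b : Matrix I M R} {c : Matrix M I R} {d : Matrix M M R}
    (h : sy ε θ = fromBlocks a b c d) :
    sysM ε (dsum W (1 : Matrix (M ⊕ M) (M ⊕ M) R)) θ =
      fromBlocks (W.toBlocks₁₁ * a - W.toBlocks₁₂) (W.toBlocks₁₁ * b) c d := by
  rw [sysM, dsum_eq, ← fromBlocks_one, h]
  simp only [toBlocks_fromBlocks₁₁, toBlocks_fromBlocks₁₂, fromBlocks_multiply, Matrix.zero_mul,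
    add_zero, zero_add, Matrix.one_mul, sub_eq_add_neg, fromBlocks_neg, fromBlocks_add, neg_zero]

theorem OGlue_up (X : Matrix I M R) :
    fromBlocks (1 : Matrix I I R) X 0 (1 : Matrix M M R) * fromBlocks 1 (-X) 0 1 = 1 ∧
      fromBlocks (1 : Matrix I I R) (-X) 0 (1 : Matrix M M R) * fromBlocks 1 X 0 1 = 1 := by
  constructor <;> simp [fromBlocks_multiply]

theorem OGlue_low (X : Matrix M I R) :
    fromBlocks (1 : Matrix I I R) 0 X (1 : Matrix M M R) * fromBlocks 1 0 (-X) 1 = 1 ∧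
      fromBlocks (1 : Matrix I I R) 0 (-X) (1 : Matrix M M R) * fromBlocks 1 0 X 1 = 1 := by
  constructor <;> simp [fromBlocks_multiply]

theorem OGlue_conj (X : Matrix I M R) (a : Matrix I I R) (b : Matrix I M R) (c : Matrix M I R)
    (d : Matrix M M R) :
    fromBlocks (1 : Matrix I I R) X 0 (1 : Matrix M M R) * fromBlocks a b c d *
      (fromBlocks (1 : Matrix I I R) X 0 (1 : Matrix M M R))ᴴ =
      fromBlocks (a + X * c + (b + X * d) * Xᴴ) (b + X * d) (c + d * Xᴴ) d := by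
  simp only [fromBlocks_conjTranspose, fromBlocks_multiply, conjTranspose_one, conjTranspose_zero,
    Matrix.mul_zero, Matrix.zero_mul, zero_add, Matrix.one_mul, Matrix.mul_one]

theorem BoxD.sys {W : Matrix (I ⊕ I) (I ⊕ I) R} (hW : Uni (-ε) W)
    {θ : Matrix (I ⊕ M) (I ⊕ M) R} {m : Matrix I M R}
    (h : BoxD ε W.toBlocks₂₁ W.toBlocks₂₂ θ m) :
    IsUnit (sysM ε (dsum W (1 : Matrix (M ⊕ M) (M ⊕ M) R)) θ) := by
  obtain ⟨a, b, c, d, C₁, C₂, e, h1, h2, h3⟩ := OGlue_box h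
  obtain ⟨V, _, _, hV⟩ := hW.inv
  rw [← fromBlocks_toBlocks V, ← fromBlocks_toBlocks W, fromBlocks_multiply, ← fromBlocks_one,
    fromBlocks_inj] at hV
  obtain ⟨v1, v2, v3, v4⟩ := hV
  have w1 : V.toBlocks₁₁ * W.toBlocks₁₁ = 1 - V.toBlocks₁₂ * W.toBlocks₂₁ := eq_sub_of_add_eq v1
  have w3 : V.toBlocks₂₁ * W.toBlocks₁₁ = -(V.toBlocks₂₂ * W.toBlocks₂₁) :=
    eq_neg_of_add_eq_zero_left v3
  have k1 : m * c = W.toBlocks₂₂ - W.toBlocks₂₁ * a := eq_sub_of_add_eq' h1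
  have k2 : m * d = -(W.toBlocks₂₁ * b) := eq_neg_of_add_eq_zero_right h2
  obtain ⟨C, hC⟩ := OGlue_left (s₁ := W.toBlocks₁₁ * a - W.toBlocks₁₂) (s₂ := W.toBlocks₁₁ * b)
    (s₃ := c) (s₄ := d) (y₁ := V.toBlocks₂₁) (y₂ := -(V.toBlocks₂₂ * m))
    (y₃ := C₁ * V.toBlocks₁₁) (y₄ := C₂ - C₁ * V.toBlocks₁₂ * m) (u := -1) (u' := -1)
    (by
      rw [← v4, Matrix.mul_sub, ← Matrix.mul_assoc, w3, Matrix.neg_mul, Matrix.neg_mul,
        Matrix.mul_assoc _ m, k1, Matrix.mul_sub, Matrix.mul_assoc]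
      abel)
    (by
      rw [← Matrix.mul_assoc, w3, Matrix.neg_mul, Matrix.neg_mul, Matrix.mul_assoc _ m, k2,
        Matrix.mul_neg, Matrix.mul_assoc]
      abel)
    (by
      rw [← h3, Matrix.mul_assoc C₁, ← Matrix.mul_assoc V.toBlocks₁₁, w1, Matrix.sub_mul,
        Matrix.sub_mul, Matrix.mul_assoc _ m, k2, Matrix.one_mul, Matrix.mul_sub, Matrix.mul_neg,
        Matrix.mul_assoc, Matrix.mul_assoc]
      abel)
    (by simp)
  refine sys_unit (hW.dsum uni_one) (C := C) ?_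
  rw [OGlue_sys W e, hC]

theorem exists_sys {W : Matrix (I ⊕ I) (I ⊕ I) R} (hW : Uni (-ε) W) (h : ucl (-ε) W = 0) :
    ∃ (M : Type) (_ : Fintype M) (_ : DecidableEq M) (θ : Matrix (I ⊕ M) (I ⊕ M) R),
      IsUnit (sysM ε (dsum W (1 : Matrix (M ⊕ M) (M ⊕ M) R)) θ) := by
  obtain ⟨M, _, _, θ, m, hb⟩ := hasBox_lower hW h
  exact ⟨M, inferInstance, inferInstance, θ, hb.sys hW⟩

theorem BoxD.glue {W : Matrix (I ⊕ I) (I ⊕ I) R} {ψ : Matrix I I R} (hψ : IsUnit (sysM ε W ψ))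
    {β : Matrix (I ⊕ M) (I ⊕ M) R} {m : Matrix I M R}
    (h : BoxD ε W.toBlocks₁₁ W.toBlocks₁₂ β m) : NS ε (fromBlocks ψ 0 0 0 - β) := by
  obtain ⟨a, b, c, d, C₁, C₂, e, h1, h2, h3⟩ := OGlue_box h
  obtain ⟨u, hu⟩ := hψ.exists_left_inv
  obtain ⟨C, hC⟩ := OGlue_left (s₁ := sy ε ψ - a) (s₂ := -b) (s₃ := -c) (s₄ := -d)
    (y₁ := W.toBlocks₁₁) (y₂ := m) (y₃ := -C₁) (y₄ := -C₂) (u := sysM ε W ψ) (u' := u)
    (by
      rw [sysM, ← h1, Matrix.mul_sub, Matrix.mul_neg]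
      abel)
    (by rw [Matrix.mul_neg, Matrix.mul_neg, ← neg_add, h2, neg_zero])
    (by rw [Matrix.neg_mul, Matrix.neg_mul, Matrix.mul_neg, Matrix.mul_neg, neg_neg, neg_neg, h3])
    hu
  refine ns_of_left (C := C) ?_
  rw [sub_eq_add_neg, sy_add, sy_neg, e, sy_blocks, sy_zero, fromBlocks_neg, fromBlocks_add, ← hC]
  simp only [conjTranspose_zero, smul_zero, add_zero, zero_add, sub_eq_add_neg]

theorem BoxD.triv {β : Matrix (I ⊕ M) (I ⊕ M) R} {m : Matrix I M R} (h : BoxD ε 1 0 β m) :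
    NS ε β.toBlocks₂₂ ∧ ∃ D : Matrix I I R, sy ε D = 0 ∧ ∀ ψ : Matrix I I R,
      Iso ε (fromBlocks ψ 0 0 0 - β) (fromBlocks (ψ - D) 0 0 (-β.toBlocks₂₂)) := by
  obtain ⟨a, b, c, d, C₁, C₂, e, h1, h2, h3⟩ := OGlue_box h
  rw [Matrix.one_mul] at h1 h2
  have e1 := sy_conj (ε := ε) (fromBlocks (1 : Matrix I I R) m 0 (1 : Matrix M M R)) β
  rw [e, OGlue_conj, h1, h2, ← fromBlocks_toBlocks β, OGlue_conj, sy_blocks, fromBlocks_inj] at e1
  obtain ⟨f1, f2, _, f4⟩ := e1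
  rw [Matrix.zero_mul, add_zero] at f1
  refine ⟨ns_of_left (C := C₂ - C₁ * m) ?_, _, f1, fun ψ => ?_⟩
  · rw [f4, ← h3, eq_neg_of_add_eq_zero_left h2, Matrix.sub_mul, Matrix.mul_neg, Matrix.mul_assoc]
    abel
  · refine (iso_conj _ (OGlue_up m).1 (OGlue_up m).2).trans (Iso.of_eqv ?_)
    rw [Matrix.mul_sub, Matrix.sub_mul, OGlue_conj]
    conv_lhs => rw [← fromBlocks_toBlocks β, OGlue_conj]
    rw [sub_eq_add_neg, fromBlocks_neg, fromBlocks_add]
    refine eqv_blocks (Eqv.of_eq ?_) (Eqv.of_eq ?_) ?_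
    · simp only [Matrix.mul_zero, Matrix.zero_mul, add_zero, sub_eq_add_neg]
    · rw [zero_add]
    · simp only [Matrix.mul_zero, Matrix.zero_mul, add_zero, zero_add, conjTranspose_zero,
        smul_zero, conjTranspose_neg, smul_neg]
      rw [← neg_add, f2, neg_zero]

/-- block sums of systems -/
theorem sysM_dsum (W : Matrix (I ⊕ I) (I ⊕ I) R) (W' : Matrix (J ⊕ J) (J ⊕ J) R)
    (ψ : Matrix I I R) (ψ' : Matrix J J R) :
    sysM ε (dsum W W') (fromBlocks ψ 0 0 ψ') = fromBlocks (sysM ε W ψ) 0 0 (sysM ε W' ψ') := by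
  rw [sysM, dsum_eq, sy_blocks]
  simp only [sysM, toBlocks_fromBlocks₁₁, toBlocks_fromBlocks₁₂, fromBlocks_multiply,
    Matrix.zero_mul, Matrix.mul_zero, add_zero, zero_add, sub_eq_add_neg, fromBlocks_neg,
    fromBlocks_add, neg_zero, conjTranspose_zero, smul_zero]

theorem sysM_eqv (W : Matrix (I ⊕ I) (I ⊕ I) R) {ψ ψ' : Matrix I I R} (h : Eqv ε ψ ψ') :
    sysM ε W ψ = sysM ε W ψ' := by
  rw [sysM, sysM, h.sy_eq]

/-- adding new variables does not change the solvability of a system -/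
theorem sys_ext {W : Matrix (I ⊕ I) (I ⊕ I) R} {ψ : Matrix I I R} (h : IsUnit (sysM ε W ψ))
    {κ : Matrix M M R} (hκ : NS ε κ) (X : Matrix I M R) :
    IsUnit (sysM ε (dsum W (1 : Matrix (M ⊕ M) (M ⊕ M) R))
      (fromBlocks (ψ + X * κ * Xᴴ) (X * κ) (κ * Xᴴ) κ)) := by
  have e1 := sy_conj (ε := ε) (fromBlocks (1 : Matrix I I R) X 0 (1 : Matrix M M R))
    (fromBlocks ψ 0 0 κ)
  rw [OGlue_conj, sy_blocks ψ, OGlue_conj] at e1
  simp only [Matrix.mul_zero, add_zero, zero_add, conjTranspose_zero, smul_zero] at e1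
  obtain ⟨u, hu⟩ := h
  obtain ⟨k, hk⟩ := hκ
  have hd : IsUnit (fromBlocks (sysM ε W ψ) 0 0 (sy ε κ)) := by
    rw [← hu, ← hk]
    refine OGlue_unit (B := fromBlocks (↑u⁻¹ : Matrix I I R) 0 0 (↑k⁻¹ : Matrix M M R)) ?_ ?_ <;>
      simp only [fromBlocks_multiply, Matrix.mul_zero, Matrix.zero_mul, add_zero, zero_add,
        Units.mul_inv, Units.inv_mul, fromBlocks_one]
  have hp := ((OGlue_unit (OGlue_up (W.toBlocks₁₁ * X)).1 (OGlue_up _).2).mul hd).mul
    (OGlue_unit (OGlue_low Xᴴ).1 (OGlue_low _).2)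
  rw [OGlue_sys W e1]
  convert hp using 1
  simp only [sysM, fromBlocks_multiply, Matrix.mul_zero, Matrix.zero_mul, add_zero, zero_add,
    Matrix.one_mul, Matrix.mul_one, Matrix.mul_add, Matrix.mul_assoc]
  congr 1
  abel

theorem iso_ext (ψ : Matrix I I R) (κ : Matrix M M R) (X : Matrix I M R) :
    Iso ε (fromBlocks ψ 0 0 κ) (fromBlocks (ψ + X * κ * Xᴴ) (X * κ) (κ * Xᴴ) κ) := by
  have h := iso_conj (ε := ε) (fromBlocks ψ 0 0 κ) (OGlue_up X).1 (OGlue_up X).2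
  rw [OGlue_conj] at h
  simpa only [Matrix.mul_zero, add_zero, zero_add] using h

end Pool.Agent.Work.MP_9d1ffa_al
end

-- merged part: Pool.Agent.Work.MP_9d1ffa_al.OIn0
section
/-! Linear representatives of Witt classes. -/

namespace Pool.Agent.Work.MP_9d1ffa_al

open Matrix MonoidAlgebra

set_option linter.unusedSectionVars false
set_option linter.unusedVariables false

section Alg

variable {R : Type} [Ring R] [StarRing R] {ε : ℤˣ} {I J L : Type} [Fintype I] [DecidableEq I]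
  [Fintype J] [DecidableEq J]

theorem OIn0_cols_add {M N : Type} (a a' : Matrix L M R) (b b' : Matrix L N R) :
    fromCols a b + fromCols a' b' = fromCols (a + a') (b + b') := by
  ext i (j | j) <;> rfl

theorem OIn0_cols_smul {M N : Type} (n : ℤ) (a : Matrix L M R) (b : Matrix L N R) :
    n • fromCols a b = fromCols (n • a) (n • b) := by
  ext i (j | j) <;> rfl

theorem OIn0_rows_smul {M N : Type} (n : ℤ) (a : Matrix M L R) (b : Matrix N L R) :
    n • fromRows a b = fromRows (n • a) (n • b) := by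
  ext (i | i) j <;> rfl

/-- the auxiliary form on the new variables -/
def OIn0k (ε : ℤˣ) (d : Matrix J J R) : Matrix (J ⊕ J) (J ⊕ J) R :=
  fromBlocks 0 (-1) 0 ((ε : ℤ) • d)

theorem OIn0_sy_smul (d : Matrix J J R) : sy ε ((ε : ℤ) • d) = (ε : ℤ) • sy ε d := by
  rw [sy, sy, ct_zsmul, smul_add]

theorem OIn0_syk (d : Matrix J J R) :
    sy ε (OIn0k ε d) = fromBlocks 0 (-1) (-((ε : ℤ) • 1)) ((ε : ℤ) • sy ε d) := by
  rw [OIn0k, sy_blocks, OIn0_sy_smul, sy_zero]
  simp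

theorem OIn0_zk (d : Matrix J J R) : Z ε (OIn0k ε d) :=
  z_lag _ _ _ (-1) (by simp) (by simp)

/-- the extended form -/
def OIn0f (ε : ℤˣ) (θ : Matrix I I R) (p q : Matrix I J R) (T c d : Matrix J J R) :
    Matrix (I ⊕ (J ⊕ J)) (I ⊕ (J ⊕ J)) R :=
  fromBlocks (θ - (ε : ℤ) • (p * c * pᴴ)) (fromCols (p * T) q) 0 (OIn0k ε d)

theorem OIn0_iso (θ : Matrix I I R) (p q : Matrix I J R) {T c d : Matrix J J R}
    (hT : T * Tᴴ = 1) (hc : c * T = T * d) (hc' : cᴴ * T = T * dᴴ) :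
    Iso ε (fromBlocks (θ + p * T * qᴴ) 0 0 (OIn0k ε d)) (OIn0f ε θ p q T c d) := by
  refine (iso_ext _ _ (fromCols (-q - p * T * sy ε d) (-((ε : ℤ) • (p * T))))).trans
    (Iso.of_eqv (eqv_blocks ?_ (Eqv.refl _) ?_))
  · have e : T * (dᴴ * (Tᴴ * pᴴ)) = cᴴ * pᴴ := by
      rw [← Matrix.mul_assoc, ← hc', Matrix.mul_assoc, ← Matrix.mul_assoc T, hT, Matrix.one_mul]
    refine ⟨p * cᴴ * pᴴ - p * T * qᴴ, ?_⟩
    rw [OIn0k, fromCols_mul_fromBlocks, conjTranspose_fromCols_eq_fromRows_conjTranspose,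
      fromCols_mul_fromRows]
    simp only [sy, Matrix.mul_zero, Matrix.zero_mul, add_zero, zero_add, Matrix.mul_neg,
      Matrix.neg_mul, Matrix.mul_one, Matrix.mul_smul, Matrix.smul_mul, eps_eps, neg_neg,
      conjTranspose_neg, ct_zsmul, conjTranspose_mul, conjTranspose_sub,
      conjTranspose_conjTranspose, Matrix.mul_add, Matrix.add_mul, Matrix.sub_mul, Matrix.mul_sub,
      Matrix.mul_assoc, smul_add, smul_sub, smul_neg, e]
    abel
  · have : ∀ X : Matrix I (J ⊕ J) R, X * OIn0k ε d + (ε : ℤ) • (OIn0k ε d * Xᴴ)ᴴ =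
        X * sy ε (OIn0k ε d) := fun X => by
      rw [sy, Matrix.mul_add, Matrix.mul_smul, conjTranspose_mul, conjTranspose_conjTranspose]
    rw [this, OIn0_syk, fromCols_mul_fromBlocks, conjTranspose_zero, smul_zero, add_zero]
    congr 1
    · simp only [Matrix.mul_zero, zero_add, Matrix.mul_neg, Matrix.neg_mul, Matrix.mul_smul,
        Matrix.smul_mul, eps_eps, neg_neg, Matrix.mul_one, smul_neg]
    · simp only [Matrix.mul_neg, Matrix.neg_mul, Matrix.mul_smul,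
        Matrix.smul_mul, eps_eps, neg_neg, Matrix.mul_one, smul_neg]
      abel

theorem OIn0_eq [Fintype L] (θ : Matrix I I R) (p q : Matrix I J R) {T c d : Matrix J J R}
    (hT : T * Tᴴ = 1) (hc : c * T = T * d) (hc' : cᴴ * T = T * dᴴ) {Y : Matrix L I R}
    {u w : Matrix L J R}
    (hY : Y * sy ε (θ + p * T * qᴴ) = -(u * T * qᴴ) + (ε : ℤ) • (w * pᴴ)) :
    fromCols Y (fromCols (Y * q + (Y * p + u) * T * sy ε d) ((ε : ℤ) • ((Y * p + u) * T))) *
        sy ε (OIn0f ε θ p q T c d) =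
      fromCols ((ε : ℤ) • ((u * sy ε c + w) * pᴴ)) (fromCols (-(u * T)) 0) := by
  have e : T * (dᴴ * (Tᴴ * pᴴ)) = cᴴ * pᴴ := by
    rw [← Matrix.mul_assoc, ← hc', Matrix.mul_assoc, ← Matrix.mul_assoc T, hT, Matrix.one_mul]
  have e' : T * (d * (Tᴴ * pᴴ)) = c * pᴴ := by
    rw [← Matrix.mul_assoc, ← hc, Matrix.mul_assoc, ← Matrix.mul_assoc T, hT, Matrix.one_mul]
  rw [OIn0f, sy_blocks, OIn0_syk, fromCols_mul_fromBlocks, conjTranspose_zero, smul_zero, add_zero,
    zero_add, conjTranspose_fromCols_eq_fromRows_conjTranspose, OIn0_rows_smul,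
    fromCols_mul_fromRows, mul_fromCols, fromCols_mul_fromBlocks, OIn0_cols_add]
  congr 1
  · have hY' : Y * θ = -(u * T * qᴴ) + (ε : ℤ) • (w * pᴴ) -
        Y * (p * T * qᴴ + (ε : ℤ) • (θ + p * T * qᴴ)ᴴ) := by
      rw [← hY, sy, add_assoc, Matrix.mul_add, add_sub_cancel_right]
    simp only [sy, Matrix.mul_neg,
      Matrix.neg_mul, Matrix.mul_smul, Matrix.smul_mul, eps_eps, neg_neg,
      conjTranspose_neg, ct_zsmul, conjTranspose_mul, conjTranspose_sub, conjTranspose_add,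
      conjTranspose_conjTranspose, Matrix.mul_add, Matrix.add_mul, Matrix.sub_mul, Matrix.mul_sub,
      Matrix.mul_assoc, smul_add, smul_sub, smul_neg, e, e', hY']
    abel
  · congr 1
    · simp only [Matrix.mul_zero, zero_add, Matrix.mul_neg, Matrix.neg_mul, Matrix.mul_smul,
        Matrix.smul_mul, eps_eps, neg_neg, Matrix.mul_one, smul_neg, Matrix.add_mul,
        Matrix.mul_assoc, smul_add]
      abel
    · simp only [Matrix.mul_neg, Matrix.neg_mul, Matrix.mul_smul,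
        Matrix.smul_mul, eps_eps, neg_neg, Matrix.mul_one, smul_neg]
      abel

end Alg

variable {Γ V A : Type} [Group Γ] [Group V] [Group A] {ε : ℤˣ} {J : Type} [Fintype J]
  [DecidableEq J]

/-- the class `x` is represented by a linear form with edge frame `U` -/
def Cut.Rep (C : Cut Γ V A) (ε : ℤˣ) (x : L0 (ZG Γ) ε) (U : Matrix (J ⊕ J) (J ⊕ J) (ZG A)) :
    Prop :=
  ∃ (I : Type) (_ : Fintype I) (_ : DecidableEq I) (θ : Matrix I I (ZG V))
    (P Q : Matrix I J (ZG V)), NS ε (C.lin θ P Q) ∧ C.EF ε 1 θ P Q U ∧ cls ε (C.lin θ P Q) = x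

variable {C : Cut Γ V A} {x : L0 (ZG Γ) ε} {U : Matrix (J ⊕ J) (J ⊕ J) (ZG A)}

theorem OIn0_ef {I : Type} [Fintype I] [DecidableEq I] {θ : Matrix I I (ZG V)}
    {P Q : Matrix I J (ZG V)} : C.EF ε 1 θ P Q U ↔ Uni (-ε) U ∧ ∃ Y : Matrix (J ⊕ J) I (ZG Γ),
      Y * sy ε (C.lin θ P Q) = -(mp C.va U.toCols₁ * dg J C.t * (mp C.v Q)ᴴ) +
        (ε : ℤ) • (mp C.va U.toCols₂ * (mp C.v P)ᴴ) ∧ C.Side Y ∧
      C.Side ((Y * mp C.v P + mp C.va U.toCols₁) * dg J C.t) ∧
      C.Side (Y * mp C.v Q * dg J C.t⁻¹ - mp C.va U.toCols₂) := by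
  have e1 : (1 : Matrix (I ⊕ I) (I ⊕ I) (ZG V)).toBlocks₁₁ = 1 := by
    rw [← fromBlocks_one, toBlocks_fromBlocks₁₁]
  have e2 : mp C.va U * C.sig ε P Q = -(mp C.va U.toCols₁ * dg J C.t * (mp C.v Q)ᴴ) +
      (ε : ℤ) • (mp C.va U.toCols₂ * (mp C.v P)ᴴ) := by
    conv_lhs => rw [← fromCols_toCols U, mp_fromCols, PH.sig, fromCols_mul_fromRows]
    rw [Matrix.mul_neg, Matrix.mul_smul, Matrix.mul_assoc]
  rw [Cut.EF, PH.sys_one, e1, Matrix.one_mul, Matrix.one_mul, e2]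

theorem OIn0_col (U : Matrix (J ⊕ J) (J ⊕ J) (ZG A)) (a b c d : Matrix J J (ZG A)) :
    U * fromBlocks a b c d =
      fromCols (U.toCols₁ * a + U.toCols₂ * c) (U.toCols₁ * b + U.toCols₂ * d) := by
  conv_lhs => rw [← fromCols_toCols U, fromCols_mul_fromBlocks]

theorem Cut.Rep.gl (h : C.Rep ε x U) (g g' : Matrix J J (ZG A)) (h1 : g * g' = 1)
    (h2 : g' * g = 1) : C.Rep ε x (U * fromBlocks g 0 0 g'ᴴ) := by
  obtain ⟨I, _, _, θ, P, Q, hns, hef, hx⟩ := h
  obtain ⟨hU, Y, hY, s1, s2, s3⟩ := OIn0_ef.1 hef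
  have a1 : mp C.va g * (dg J C.t * mp C.v (mp C.j g')) = dg J C.t := by
    rw [← Matrix.mul_assoc, PH.mp_va_dg, Matrix.mul_assoc, ← mp_mul, ← mp_mul, h1, mp_one, mp_one,
      Matrix.mul_one]
  have a2 : (mp C.v (Q * (mp C.j g')ᴴ))ᴴ = mp C.v (mp C.j g') * (mp C.v Q)ᴴ := by
    rw [mp_mul, mp_ct, conjTranspose_mul, conjTranspose_conjTranspose]
  have a3 : mp C.v (P * mp C.i g) = mp C.v P * mp C.va g := by rw [mp_mul, PH.mp_va]
  have e : C.lin θ (P * mp C.i g) (Q * (mp C.j g')ᴴ) = C.lin θ P Q := by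
    rw [PH.lin, PH.lin, a2, a3, Matrix.mul_assoc, Matrix.mul_assoc, ← Matrix.mul_assoc (dg J C.t),
      ← Matrix.mul_assoc (mp C.va g), a1, Matrix.mul_assoc]
  refine ⟨I, inferInstance, inferInstance, θ, P * mp C.i g, Q * (mp C.j g')ᴴ, e ▸ hns,
    OIn0_ef.2 ⟨hU.mul (GenU.gl g g' h1 h2).uni, Y, ?_, s1, ?_, ?_⟩, e ▸ hx⟩
  all_goals rw [OIn0_col]
  all_goals simp only [toCols₁_fromCols, toCols₂_fromCols, Matrix.mul_zero, add_zero, zero_add]
  · have b : (mp C.va g')ᴴ * ((mp C.va g)ᴴ * (mp C.v P)ᴴ) = (mp C.v P)ᴴ := by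
      rw [← Matrix.mul_assoc, ← conjTranspose_mul, ← mp_mul, h1, mp_one, conjTranspose_one,
        Matrix.one_mul]
    have b' : mp C.va g * (dg J C.t * (mp C.v (mp C.j g') * (mp C.v Q)ᴴ)) =
        dg J C.t * (mp C.v Q)ᴴ := by
      rw [← Matrix.mul_assoc (dg J C.t), ← Matrix.mul_assoc, a1]
    rw [e, hY, a2, a3]
    simp only [mp_mul, mp_ct, conjTranspose_mul, Matrix.mul_assoc, b, b']
  · have := s2.mul_v (mp C.j g)
    rwa [Matrix.mul_assoc, ← PH.mp_va_dg, ← Matrix.mul_assoc, Matrix.add_mul, ← mp_mul,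
      Matrix.mul_assoc Y, ← a3] at this
  · have := s3.mul_v (mp C.i g'ᴴ)
    have b : dg J C.t⁻¹ * mp C.va g'ᴴ = mp C.v (mp C.j g')ᴴ * dg J C.t⁻¹ := by
      rw [mp_ct, mp_ct, ← dg_ct, ← conjTranspose_mul, ← conjTranspose_mul, PH.mp_va_dg]
    rwa [← PH.mp_va, Matrix.sub_mul, ← mp_mul, Matrix.mul_assoc _ (dg J C.t⁻¹), b,
      ← Matrix.mul_assoc, Matrix.mul_assoc Y, ← mp_mul] at this

theorem Cut.Rep.sh (h : C.Rep ε x U) (χ : Matrix J J (ZG A)) :
    C.Rep ε x (U * fromBlocks 1 (sy ε χ) 0 1) := by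
  obtain ⟨I, _, _, θ, P, Q, hns, hef, hx⟩ := h
  obtain ⟨hU, Y, hY, s1, s2, s3⟩ := OIn0_ef.1 hef
  have hT : dg J C.t * (dg J C.t)ᴴ = 1 := by rw [dg_ct, dg_mul_inv]
  have hc := C.mp_va_dg χ
  have hc' : (mp C.va χ)ᴴ * dg J C.t = dg J C.t * (mp C.v (mp C.j χ))ᴴ := by
    rw [← mp_ct, ← mp_ct, ← mp_ct, PH.mp_va_dg]
  have p1 : mp C.v (fromRows P (0 : Matrix (J ⊕ J) J (ZG V))) = fromRows (mp C.v P) 0 := by
    rw [mp_fromRows, mp_zero]
  have q1 : mp C.v (fromRows (0 : Matrix I J (ZG V)) (fromRows (1 : Matrix J J (ZG V))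
      (0 : Matrix J J (ZG V)))) = fromRows 0 (fromRows 1 0) := by
    rw [mp_fromRows, mp_fromRows, mp_zero, mp_zero, mp_one]
  have e : C.lin (fromBlocks (θ - (ε : ℤ) • (P * mp C.i χ * Pᴴ)) (fromCols 0 Q) 0
      (OIn0k ε (mp C.j χ))) (fromRows P 0) (fromRows 0 (fromRows 1 0)) =
      OIn0f ε (mp C.v θ) (mp C.v P) (mp C.v Q) (dg J C.t) (mp C.va χ) (mp C.v (mp C.j χ)) := by
    rw [PH.lin, p1, q1, fromRows_mul, conjTranspose_fromRows_eq_fromCols_conjTranspose,
      conjTranspose_fromRows_eq_fromCols_conjTranspose, fromRows_mul_fromCols, mp_blocks,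
      fromBlocks_add, OIn0f, OIn0k, OIn0k]
    simp only [mp_sub, mp_zsmul, mp_mul, mp_ct, mp_fromCols, mp_zero, mp_blocks, mp_neg, mp_one,
      conjTranspose_zero, conjTranspose_one, Matrix.mul_zero, Matrix.zero_mul, add_zero,
      mul_fromCols, Matrix.mul_one, OIn0_cols_add, zero_add, ← PH.mp_va]
  have iso : Iso ε (fromBlocks (C.lin θ P Q) 0 0 _) _ :=
    OIn0_iso (ε := ε) (mp C.v θ) (mp C.v P) (mp C.v Q) hT hc hc'
  have zk := OIn0_zk (ε := ε) (mp C.v (mp C.j χ))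
  refine ⟨I ⊕ (J ⊕ J), inferInstance, inferInstance, _, _, _, e ▸ NS.iso iso (hns.sum zk.ns),
    OIn0_ef.2 ⟨hU.mul (genU_sy ε χ).uni, fromCols Y (fromCols (Y * mp C.v Q +
      (Y * mp C.v P + mp C.va U.toCols₁) * dg J C.t * sy ε (mp C.v (mp C.j χ)))
      ((ε : ℤ) • ((Y * mp C.v P + mp C.va U.toCols₁) * dg J C.t))), ?_, ?_, ?_, ?_⟩, ?_⟩
  · rw [e, OIn0_eq _ _ _ hT hc hc' hY, OIn0_col, p1, q1,
      conjTranspose_fromRows_eq_fromCols_conjTranspose,
      conjTranspose_fromRows_eq_fromCols_conjTranspose,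
      conjTranspose_fromRows_eq_fromCols_conjTranspose]
    simp only [toCols₁_fromCols, toCols₂_fromCols, Matrix.mul_zero, add_zero, zero_add,
      Matrix.mul_one, conjTranspose_zero, conjTranspose_one, mul_fromCols, fromCols_neg, neg_zero,
      OIn0_cols_smul, smul_zero, OIn0_cols_add, mp_add, mp_mul, mp_sy]
  · refine Cut.side_fromCols.2 ⟨s1, Cut.side_fromCols.2 ⟨(s1.mul_v Q).add ?_, s2.zsmul _⟩⟩
    rw [← mp_sy]
    exact s2.mul_v _
  · rw [OIn0_col, p1, fromCols_mul_fromRows]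
    simpa only [toCols₁_fromCols, Matrix.mul_zero, add_zero, Matrix.mul_one] using s2
  · have hs : dg J C.t * (sy ε (mp C.v (mp C.j χ)) * dg J C.t⁻¹) = sy ε (mp C.va χ) := by
      rw [← Matrix.mul_assoc, ← mp_sy, ← mp_sy, ← PH.mp_va_dg, Matrix.mul_assoc, dg_mul_inv,
        Matrix.mul_one, mp_sy]
    have := s3.add (s1.mul_v (P * mp C.i (sy ε χ)))
    rw [OIn0_col, q1, fromCols_mul_fromRows, fromCols_mul_fromRows]
    convert this using 1
    simp only [toCols₂_fromCols, Matrix.mul_zero, add_zero, zero_add, Matrix.mul_one, mp_add,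
      mp_mul, ← PH.mp_va, mp_sy, Matrix.add_mul, Matrix.mul_assoc, hs]
    abel
  · rw [e, ← cls_iso iso, cls_sum hns zk.ns, (cls_eq_zero zk.ns).2 zk, add_zero, hx]

end Pool.Agent.Work.MP_9d1ffa_al
end

-- merged part: Pool.Agent.Work.MP_9d1ffa_al.OIns
section
/-! Changing the edge frame by elementary isometries. -/

namespace Pool.Agent.Work.MP_9d1ffa_al

open Matrix MonoidAlgebra

set_option linter.unusedSectionVars false
set_option linter.unusedVariables false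
set_option linter.unusedSimpArgs false

section Alg

variable {R : Type} [Ring R] [StarRing R] {ε : ℤˣ} {I J κ L : Type} [Fintype I] [DecidableEq I]
  [Fintype J] [DecidableEq J] [Fintype κ] [DecidableEq κ] [Fintype L] [DecidableEq L]

/-- the relations between the stable letter and the two images of an isometric projection -/
structure OIns_Rel (t ti : Matrix J J R) (τ τi : Matrix κ κ R) (a b : Matrix κ J R) : Prop where
  t1 : t * ti = 1
  t2 : ti * t = 1
  s1 : τ * τi = 1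
  s2 : τi * τ = 1
  tc : tᴴ = ti
  sc : τᴴ = τi
  ab : a * t = τ * b
  bb : b * bᴴ = 1

variable {t ti : Matrix J J R} {τ τi : Matrix κ κ R} {a b : Matrix κ J R}

theorem OIns_Rel.ea (h : OIns_Rel t ti τ τi a b) : a = τ * (b * ti) := by
  rw [← Matrix.mul_assoc, ← h.ab, Matrix.mul_assoc, h.t1, Matrix.mul_one]

theorem OIns_Rel.tic (h : OIns_Rel t ti τ τi a b) : tiᴴ = t := by
  rw [← h.tc, conjTranspose_conjTranspose]

theorem OIns_Rel.sic (h : OIns_Rel t ti τ τi a b) : τiᴴ = τ := by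
  rw [← h.sc, conjTranspose_conjTranspose]

theorem OIns_can {M N K : Type} [Fintype M] [DecidableEq M] [Fintype N] {x : Matrix M N R}
    {y : Matrix N M R} (h : x * y = 1) (z : Matrix M K R) : x * (y * z) = z := by
  rw [← Matrix.mul_assoc, h, Matrix.one_mul]

theorem OIns_lin (h : OIns_Rel t ti τ τi a b) (θ : Matrix I I R) (p q : Matrix I J R)
    (c : Matrix I (κ ⊕ κ) R) :
    fromBlocks θ c 0 0 + fromRows (p * (1 - aᴴ * a)) (fromRows a (0 : Matrix κ J R)) * t *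
      (fromRows (q * (1 - bᴴ * b)) (fromRows (0 : Matrix κ J R) b))ᴴ =
      fromBlocks (θ + p * t * (1 - bᴴ * b) * qᴴ) c 0 (fromBlocks 0 τ 0 0) := by
  have e1 : p * (1 - aᴴ * a) * t * (q * (1 - bᴴ * b))ᴴ = p * t * (1 - bᴴ * b) * qᴴ := by
    rw [h.ea]
    simp only [conjTranspose_mul, conjTranspose_sub, conjTranspose_one, conjTranspose_conjTranspose,
      h.tic, h.sc, Matrix.mul_sub, Matrix.sub_mul, Matrix.mul_assoc, Matrix.one_mul,
      Matrix.mul_one, OIns_can h.t2, OIns_can h.s2, OIns_can h.bb, h.t2]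
    abel
  have e2 : p * (1 - aᴴ * a) * t * bᴴ = 0 := by
    rw [h.ea]
    simp only [conjTranspose_mul, h.tic, h.sc, Matrix.mul_sub, Matrix.sub_mul, Matrix.mul_assoc,
      Matrix.one_mul, Matrix.mul_one, OIns_can h.t2, OIns_can h.s2, h.bb, sub_self]
  have e3 : a * t * (q * (1 - bᴴ * b))ᴴ = 0 := by
    rw [h.ab]
    simp only [conjTranspose_mul, conjTranspose_sub, conjTranspose_one, conjTranspose_conjTranspose,
      Matrix.mul_sub, Matrix.sub_mul, Matrix.mul_assoc, Matrix.one_mul, OIns_can h.bb, sub_self]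
  have e4 : a * t * bᴴ = τ := by rw [h.ab, Matrix.mul_assoc, h.bb, Matrix.mul_one]
  rw [fromRows_mul _ _ t, fromRows_mul _ _ t, conjTranspose_fromRows_eq_fromCols_conjTranspose,
    conjTranspose_fromRows_eq_fromCols_conjTranspose, fromRows_mul_fromCols, mul_fromCols,
    fromRows_mul, fromRows_mul_fromCols, e1, e2, e3, e4, fromBlocks_add]
  simp

theorem OIns_z (h : OIns_Rel t ti τ τi a b) :
    Z ε (fromBlocks (0 : Matrix κ κ R) τ (0 : Matrix κ κ R) (0 : Matrix κ κ R)) :=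
  z_lag τ 0 0 τi (by simpa using h.s1) (by simpa using h.s2)

theorem OIns_iso (h : OIns_Rel t ti τ τi a b) (θ : Matrix I I R) (p q : Matrix I J R) :
    Iso ε (fromBlocks (θ + p * t * qᴴ) 0 0 (fromBlocks (0 : Matrix κ κ R) τ 0 (0 : Matrix κ κ R)))
      (fromBlocks (θ + p * t * (1 - bᴴ * b) * qᴴ)
        (fromCols (-((ε : ℤ) • (p * aᴴ))) ((ε : ℤ) • (q * bᴴ))) 0 (fromBlocks 0 τ 0 0)) := by
  refine (iso_ext _ _ (fromCols ((ε : ℤ) • (q * bᴴ * τi)) (-(p * aᴴ * τ)))).trans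
    (Iso.of_eqv (eqv_blocks ?_ (Eqv.refl _) ?_))
  · have e : θ + p * t * (1 - bᴴ * b) * qᴴ = θ + p * t * qᴴ + (ε : ℤ) •
        (fromCols ((ε : ℤ) • (q * bᴴ * τi)) (-(p * aᴴ * τ)) *
          fromBlocks (0 : Matrix κ κ R) τ 0 (0 : Matrix κ κ R) *
          (fromCols ((ε : ℤ) • (q * bᴴ * τi)) (-(p * aᴴ * τ)))ᴴ)ᴴ := by
      rw [fromCols_mul_fromBlocks, conjTranspose_fromCols_eq_fromRows_conjTranspose,
        fromCols_mul_fromRows, h.ea]
      simp only [conjTranspose_mul, conjTranspose_neg, ct_zsmul, conjTranspose_conjTranspose,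
        h.tic, h.sc, h.sic, Matrix.mul_sub, Matrix.sub_mul, Matrix.mul_assoc, Matrix.one_mul,
        Matrix.mul_one, OIns_can h.s2, OIns_can h.s1, Matrix.mul_zero, Matrix.zero_mul, add_zero,
        zero_add, Matrix.smul_mul, Matrix.mul_smul, Matrix.mul_neg, Matrix.neg_mul, smul_neg,
        eps_eps, h.s2, h.tc, conjTranspose_add, conjTranspose_zero, neg_zero, smul_add,
        smul_zero]
      abel
    rw [e]
    exact (Eqv.refl _).add (eqv_swap _)
  · rw [conjTranspose_mul, conjTranspose_conjTranspose, fromBlocks_conjTranspose,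
      fromCols_mul_fromBlocks, fromCols_mul_fromBlocks, h.sc]
    simp only [Matrix.mul_assoc, Matrix.mul_one, h.s1, h.s2, Matrix.mul_zero, add_zero,
      zero_add, Matrix.smul_mul, Matrix.neg_mul, conjTranspose_zero, smul_zero]
    ext i (j | j) <;> simp

theorem OIns_cols {M N K : Type} {x x' : Matrix M N R} {y y' : Matrix M K R} (h : x = x')
    (h' : y = y') : fromCols x y = fromCols x' y' := by rw [h, h']

theorem OIns_cols_add {M N K : Type} (x x' : Matrix M N R) (y y' : Matrix M K R) :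
    fromCols x y + fromCols x' y' = fromCols (x + x') (y + y') := by
  ext i (j | j) <;> rfl

theorem OIns_cols_neg {M N K : Type} (x : Matrix M N R) (y : Matrix M K R) :
    -fromCols x y = fromCols (-x) (-y) := by
  ext i (j | j) <;> rfl

theorem OIns_cols_smul {M N K : Type} (n : ℤ) (x : Matrix M N R) (y : Matrix M K R) :
    n • fromCols x y = fromCols (n • x) (n • y) := by
  ext i (j | j) <;> rfl

theorem OIns_rows_smul {M N K : Type} (n : ℤ) (x : Matrix M N R) (y : Matrix K N R) :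
    n • fromRows x y = fromRows (n • x) (n • y) := by
  ext (i | i) j <;> rfl

theorem OIns_sys (h : OIns_Rel t ti τ τi a b) (θ : Matrix I I R) (p q : Matrix I J R)
    (Y : Matrix L I R) (U₁ U₂ : Matrix L J R)
    (hY : Y * sy ε (θ + p * t * qᴴ) = fromCols U₁ U₂ * fromRows (-(t * qᴴ)) ((ε : ℤ) • pᴴ)) :
    fromCols Y (fromCols (-((ε : ℤ) • ((Y * q * ti - U₂) * aᴴ))) ((Y * p + U₁) * t * bᴴ)) *
      sy ε (fromBlocks (θ + p * t * (1 - bᴴ * b) * qᴴ)
        (fromCols (-((ε : ℤ) • (p * aᴴ))) ((ε : ℤ) • (q * bᴴ))) 0 (fromBlocks 0 τ 0 0)) =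
      fromCols (U₁ * (1 - aᴴ * a) - (ε : ℤ) • (U₂ * (aᴴ * a))) (U₁ * (aᴴ * a) + U₂ * (1 - aᴴ * a)) *
        fromRows (-(t * (fromRows (q * (1 - bᴴ * b)) (fromRows (0 : Matrix κ J R) b))ᴴ))
          ((ε : ℤ) • (fromRows (p * (1 - aᴴ * a)) (fromRows a (0 : Matrix κ J R)))ᴴ) := by
  have hY' : Y * sy ε θ = -(U₁ * (t * qᴴ)) + (ε : ℤ) • (U₂ * pᴴ) - Y * (p * (t * qᴴ)) -
      (ε : ℤ) • (Y * (q * (ti * pᴴ))) := by
    rw [fromCols_mul_fromRows, sy_add, Matrix.mul_add] at hY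
    simp only [sy, conjTranspose_mul, conjTranspose_conjTranspose, h.tc, Matrix.mul_assoc,
      Matrix.mul_add, Matrix.mul_smul, Matrix.mul_neg] at hY ⊢
    rw [← hY]
    abel
  rw [sy_blocks, sy_blocks, sy_add, sy_zero, fromCols_mul_fromBlocks, fromCols_mul_fromRows,
    Matrix.mul_add Y, hY', sy, h.ea]
  simp only [conjTranspose_fromRows_eq_fromCols_conjTranspose,
    conjTranspose_fromCols_eq_fromRows_conjTranspose, conjTranspose_zero, smul_zero, add_zero,
    zero_add, OIns_rows_smul, OIns_cols_smul, OIns_cols_neg, mul_fromCols, fromCols_mul_fromRows,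
    fromCols_mul_fromBlocks, OIns_cols_add]
  refine OIns_cols ?_ (OIns_cols ?_ ?_) <;>
  · simp only [conjTranspose_mul, conjTranspose_neg, ct_zsmul, conjTranspose_conjTranspose,
      conjTranspose_sub, conjTranspose_one, h.tic, h.sc, h.sic, h.tc, Matrix.mul_sub,
      Matrix.sub_mul, Matrix.mul_add, Matrix.add_mul, Matrix.mul_assoc, Matrix.one_mul,
      Matrix.mul_one, OIns_can h.s2, OIns_can h.s1, OIns_can h.t1, OIns_can h.t2, OIns_can h.bb,
      Matrix.mul_zero, Matrix.zero_mul, add_zero, zero_add, Matrix.smul_mul, Matrix.mul_smul,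
      Matrix.mul_neg, Matrix.neg_mul, smul_neg, smul_add, smul_sub, eps_eps, h.s1, h.s2, h.t1,
      h.t2, h.bb, neg_zero, smul_zero, neg_neg]
    abel

theorem OIns_third (h : OIns_Rel t ti τ τi a b) (p q : Matrix I J R)
    (Y : Matrix L I R) (U₁ U₂ : Matrix L J R) :
    (fromCols Y (fromCols (-((ε : ℤ) • ((Y * q * ti - U₂) * aᴴ))) ((Y * p + U₁) * t * bᴴ)) *
      fromRows (p * (1 - aᴴ * a)) (fromRows a (0 : Matrix κ J R)) +
      (U₁ * (1 - aᴴ * a) - (ε : ℤ) • (U₂ * (aᴴ * a)))) * t =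
      (Y * p + U₁) * t * (1 - bᴴ * b) + -((ε : ℤ) • (Y * (q * (bᴴ * b)))) := by
  rw [fromCols_mul_fromRows, fromCols_mul_fromRows, h.ea]
  simp only [conjTranspose_mul, h.tic, h.sc, Matrix.mul_sub,
    Matrix.sub_mul, Matrix.mul_add, Matrix.add_mul, Matrix.mul_assoc, Matrix.one_mul,
    Matrix.mul_one, OIns_can h.s2, OIns_can h.s1, OIns_can h.t1, OIns_can h.t2, OIns_can h.bb,
    Matrix.mul_zero, add_zero, Matrix.smul_mul, Matrix.neg_mul, smul_sub, h.t2]
  abel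

theorem OIns_fourth (h : OIns_Rel t ti τ τi a b) (p q : Matrix I J R)
    (Y : Matrix L I R) (U₁ U₂ : Matrix L J R) :
    fromCols Y (fromCols (-((ε : ℤ) • ((Y * q * ti - U₂) * aᴴ))) ((Y * p + U₁) * t * bᴴ)) *
      fromRows (q * (1 - bᴴ * b)) (fromRows (0 : Matrix κ J R) b) * ti -
      (U₁ * (aᴴ * a) + U₂ * (1 - aᴴ * a)) =
      (Y * q * ti - U₂) * (1 - aᴴ * a) + Y * (p * (aᴴ * a)) := by
  rw [fromCols_mul_fromRows, fromCols_mul_fromRows, h.ea]
  simp only [conjTranspose_mul, h.tic, h.sc, Matrix.mul_sub,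
    Matrix.sub_mul, Matrix.mul_add, Matrix.add_mul, Matrix.mul_assoc, Matrix.one_mul,
    Matrix.mul_one, OIns_can h.s2, OIns_can h.s1, OIns_can h.t1, OIns_can h.t2, OIns_can h.bb,
    Matrix.mul_zero, zero_add, Matrix.zero_mul]
  abel

theorem OIns_frame (U₁ U₂ : Matrix L J R) (e : Matrix J J R) :
    fromCols U₁ U₂ * fromBlocks (1 - e) e (((-ε : ℤˣ) : ℤ) • e) (1 - e) =
      fromCols (U₁ * (1 - e) - (ε : ℤ) • (U₂ * e)) (U₁ * e + U₂ * (1 - e)) := by
  rw [fromCols_mul_fromBlocks, Units.val_neg, neg_smul, Matrix.mul_neg, Matrix.mul_smul,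
    ← sub_eq_add_neg]

end Alg

variable {Γ V A : Type} [Group Γ] [Group V] [Group A] {ε : ℤˣ} {J : Type} [Fintype J]
  [DecidableEq J]

variable {C : Cut Γ V A} {x : L0 (ZG Γ) ε} {U : Matrix (J ⊕ J) (J ⊕ J) (ZG A)}

theorem OIns_rel (D : PH Γ V A) {κ : Type} [Fintype κ] [DecidableEq κ]
    (s : Matrix κ J (ZG A)) (hs : s * sᴴ = 1) :
    OIns_Rel (dg J D.t) (dg J D.t⁻¹) (dg κ D.t) (dg κ D.t⁻¹) (mp D.va s) (mp D.v (mp D.j s)) where
  t1 := dg_mul_inv _
  t2 := dg_inv_mul _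
  s1 := dg_mul_inv _
  s2 := dg_inv_mul _
  tc := dg_ct _
  sc := dg_ct _
  ab := D.mp_va_dg s
  bb := by rw [← mp_ct, ← mp_ct, ← mp_mul, ← mp_mul, hs, mp_one, mp_one]

theorem OIns_one {R I : Type} [Ring R] [DecidableEq I] :
    (1 : Matrix (I ⊕ I) (I ⊕ I) R).toBlocks₁₁ = 1 := by
  rw [← fromBlocks_one, toBlocks_fromBlocks₁₁]

theorem Cut.Rep.sw (h : C.Rep ε x U) {κ : Type} [Fintype κ] [DecidableEq κ]
    (s : Matrix κ J (ZG A)) (hs : s * sᴴ = 1) :
    C.Rep ε x (U * fromBlocks (1 - sᴴ * s) (sᴴ * s) (((-ε : ℤˣ) : ℤ) • (sᴴ * s))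
      (1 - sᴴ * s)) := by
  obtain ⟨I, _, _, θ, P, Q, h1, ⟨h2, Y, y1, y2, y3, y4⟩, h3⟩ := h
  have r := OIns_rel C.toPH s hs
  obtain ⟨U₁, U₂, rfl⟩ : ∃ U₁ U₂, U = fromCols U₁ U₂ := ⟨_, _, (fromCols_toCols U).symm⟩
  rw [OIns_one, Matrix.one_mul, toCols₁_fromCols] at y3
  rw [OIns_one, Matrix.one_mul, toCols₂_fromCols] at y4
  rw [PH.sys_one, PH.lin, PH.sig, mp_fromCols] at y1
  have eP : mp C.v (fromRows (P * mp C.i (1 - sᴴ * s)) (fromRows (mp C.i s) 0)) =
      fromRows (mp C.v P * (1 - (mp C.va s)ᴴ * mp C.va s))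
        (fromRows (mp C.va s) (0 : Matrix κ J (ZG Γ))) := by
    rw [mp_fromRows, mp_fromRows, mp_mul, mp_zero, ← PH.mp_va, ← PH.mp_va, mp_sub, mp_one, mp_mul,
      mp_ct]
  have eQ : mp C.v (fromRows (Q * mp C.j (1 - sᴴ * s)) (fromRows 0 (mp C.j s))) =
      fromRows (mp C.v Q * (1 - (mp C.v (mp C.j s))ᴴ * mp C.v (mp C.j s)))
        (fromRows (0 : Matrix κ J (ZG Γ)) (mp C.v (mp C.j s))) := by
    simp only [mp_fromRows, mp_mul, mp_zero, mp_sub, mp_one, mp_ct]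
  have eL : C.lin (fromBlocks θ (fromCols (-((ε : ℤ) • (P * (mp C.i s)ᴴ)))
      ((ε : ℤ) • (Q * (mp C.j s)ᴴ))) 0 0)
      (fromRows (P * mp C.i (1 - sᴴ * s)) (fromRows (mp C.i s) 0))
      (fromRows (Q * mp C.j (1 - sᴴ * s)) (fromRows 0 (mp C.j s))) =
      fromBlocks (mp C.v θ + mp C.v P * dg J C.t *
          (1 - (mp C.v (mp C.j s))ᴴ * mp C.v (mp C.j s)) * (mp C.v Q)ᴴ)
        (fromCols (-((ε : ℤ) • (mp C.v P * (mp C.va s)ᴴ)))
          ((ε : ℤ) • (mp C.v Q * (mp C.v (mp C.j s))ᴴ))) 0 (fromBlocks 0 (dg κ C.t) 0 0) := by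
    rw [PH.lin, eP, eQ, mp_blocks, mp_zero, mp_zero, OIns_lin r, mp_fromCols, mp_neg, mp_zsmul,
      mp_zsmul, mp_mul, mp_mul, mp_ct, mp_ct, ← PH.mp_va]
  have hi := OIns_iso (ε := ε) r (mp C.v θ) (mp C.v P) (mp C.v Q)
  have hz := OIns_z (ε := ε) r
  have eU : mp C.va (U₁ * (1 - sᴴ * s) - (ε : ℤ) • (U₂ * (sᴴ * s))) =
      mp C.va U₁ * (1 - (mp C.va s)ᴴ * mp C.va s) -
        (ε : ℤ) • (mp C.va U₂ * ((mp C.va s)ᴴ * mp C.va s)) := by
    simp only [mp_mul, mp_sub, mp_one, mp_ct, mp_zsmul]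
  have eU' : mp C.va (U₁ * (sᴴ * s) + U₂ * (1 - sᴴ * s)) =
      mp C.va U₁ * ((mp C.va s)ᴴ * mp C.va s) + mp C.va U₂ * (1 - (mp C.va s)ᴴ * mp C.va s) := by
    simp only [mp_mul, mp_sub, mp_add, mp_one, mp_ct]
  have sa : ∀ {K : Type} [Fintype K] [DecidableEq K] {X : Matrix (J ⊕ J) J (ZG Γ)},
      C.Side X → ∀ B : Matrix J K (ZG A), C.Side (X * mp C.va B) := fun hX B => by
    rw [PH.mp_va]
    exact hX.mul_v _
  refine ⟨I ⊕ (κ ⊕ κ), inferInstance, inferInstance,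
    fromBlocks θ (fromCols (-((ε : ℤ) • (P * (mp C.i s)ᴴ))) ((ε : ℤ) • (Q * (mp C.j s)ᴴ))) 0 0,
    fromRows (P * mp C.i (1 - sᴴ * s)) (fromRows (mp C.i s) 0),
    fromRows (Q * mp C.j (1 - sᴴ * s)) (fromRows 0 (mp C.j s)), ?_,
    ⟨h2.mul (GenU.sw κ s hs).uni,
      fromCols Y (fromCols
        (-((ε : ℤ) • ((Y * mp C.v Q * dg J C.t⁻¹ - mp C.va U₂) * (mp C.va s)ᴴ)))
        ((Y * mp C.v P + mp C.va U₁) * dg J C.t * (mp C.v (mp C.j s))ᴴ)), ?_, ?_, ?_, ?_⟩, ?_⟩
  · rw [eL]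
    exact NS.iso hi (h1.sum hz.ns)
  · rw [PH.sys_one, eL, PH.sig, eP, eQ, OIns_frame, mp_fromCols, eU, eU']
    exact OIns_sys r _ _ _ _ _ _ y1
  · refine Cut.side_fromCols.2 ⟨y2, Cut.side_fromCols.2 ⟨?_, ?_⟩⟩
    · rw [← mp_ct]
      exact ((sa y4 _).zsmul _).neg
    · rw [← mp_ct]
      exact y3.mul_v _
  · rw [OIns_one, Matrix.one_mul, eP, OIns_frame, toCols₁_fromCols, eU, OIns_third r]
    refine Cut.Side.add ?_ (Cut.Side.zsmul ?_ _).neg
    · have := y3.mul_v (1 - (mp C.j s)ᴴ * mp C.j s)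
      rwa [mp_sub, mp_one, mp_mul, mp_ct] at this
    · have := y2.mul_v (Q * ((mp C.j s)ᴴ * mp C.j s))
      rwa [mp_mul, mp_mul, mp_ct] at this
  · rw [OIns_one, Matrix.one_mul, eQ, OIns_frame, toCols₂_fromCols, eU', OIns_fourth r]
    refine Cut.Side.add ?_ ?_
    · have := sa y4 (1 - sᴴ * s)
      rwa [mp_sub, mp_one, mp_mul, mp_ct] at this
    · have := y2.mul_v (P * ((mp C.i s)ᴴ * mp C.i s))
      rwa [mp_mul, mp_mul, mp_ct, ← PH.mp_va] at this
  · rw [eL, ← cls_iso hi, ← h3]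
    exact (cls_sum h1 hz.ns).trans (by rw [(cls_eq_zero hz.ns).2 hz, add_zero])

theorem Cut.Rep.mem (h : C.Rep ε x U) {ρ : Matrix (J ⊕ J) (J ⊕ J) (ZG A)}
    (hρ : ρ ∈ RU (ZG A) (-ε) J) : C.Rep ε x (U * ρ) := by
  induction hρ using Submonoid.closure_induction_right with
  | one => rwa [Matrix.mul_one]
  | mul_right a ha b hb ih =>
    rw [← Matrix.mul_assoc]
    cases hb with
    | gl g g' h1 h2 => exact ih.gl g g' h1 h2
    | sh χ =>
      have := ih.sh χ
      rwa [sy, ← sub_neg_eq_add, ← neg_smul, ← Units.val_neg] at this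
    | sw κ s hs => exact ih.sw s hs

theorem Cut.Rep.pad (h : C.Rep ε x U) (κ : Type) [Fintype κ] [DecidableEq κ] :
    C.Rep ε x (dsum U (1 : Matrix (κ ⊕ κ) (κ ⊕ κ) (ZG A))) := by
  obtain ⟨I, _, _, θ, P, Q, h1, h2, h3⟩ := h
  exact ⟨I, inferInstance, inferInstance, θ, fromCols P 0, fromCols Q 0,
    by rwa [PH.lin_pad], h2.pad, by rwa [PH.lin_pad]⟩

theorem Cut.Rep.uni (h : C.Rep ε x U) : Uni (-ε) U := by
  obtain ⟨I, _, _, θ, P, Q, h1, h2, h3⟩ := h
  exact h2.1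

theorem Cut.Rep.norm (h : C.Rep ε x U) (h0 : ucl (-ε) U = 0) :
    ∃ (J' : Type) (_ : Fintype J') (_ : DecidableEq J'),
      C.Rep ε x (1 : Matrix (J' ⊕ J') (J' ⊕ J') (ZG A)) := by
  obtain ⟨κ, _, _, hm⟩ := (ucl_eq_zero h.uni).1 h0
  obtain ⟨V, -, h1, -⟩ := (Uni.of_mem hm).inv
  exact ⟨J ⊕ κ, inferInstance, inferInstance, h1 ▸ (h.pad κ).mem (ru_inv hm h1)⟩

end Pool.Agent.Work.MP_9d1ffa_al
end

-- merged part: Pool.Agent.Work.MP_9d1ffa_al.ORep
section
/-! Sums and negatives of linear forms. -/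

namespace Pool.Agent.Work.MP_9d1ffa_al

open Matrix MonoidAlgebra

set_option linter.unusedSectionVars false
set_option linter.unusedVariables false

variable {Γ V A : Type} [Group Γ] [Group V] [Group A] {ε : ℤˣ} {J J' : Type} [Fintype J]
  [DecidableEq J] [Fintype J'] [DecidableEq J'] {C : Cut Γ V A} {x y : L0 (ZG Γ) ε}
  {U : Matrix (J ⊕ J) (J ⊕ J) (ZG A)} {U' : Matrix (J' ⊕ J') (J' ⊕ J') (ZG A)}

theorem ORep_sup_blocks {G K L M N : Type} [Group G] {S : G → Prop} {a : Matrix K M (ZG G)}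
    {d : Matrix L N (ZG G)} (ha : Sup S a) (hd : Sup S d) : Sup S (fromBlocks a 0 0 d) := by
  rintro (k | k) (l | l)
  exacts [ha k l, sup_zero (I := K) (J := N) k l, sup_zero (I := L) (J := M) k l, hd k l]

theorem ORep_sub {R K L M N : Type} [Ring R] (a a' : Matrix K M R) (b b' : Matrix K N R)
    (c c' : Matrix L M R) (d d' : Matrix L N R) :
    fromBlocks a b c d - fromBlocks a' b' c' d' =
      fromBlocks (a - a') (b - b') (c - c') (d - d') := by
  ext (k | k) (l | l) <;> rfl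

/-- edge frames with trivial boundary condition, row by row -/
theorem ORep_ef {I : Type} [Fintype I] [DecidableEq I] {θ : Matrix I I (ZG V)}
    {P Q : Matrix I J (ZG V)} {a b c d : Matrix J J (ZG A)} :
    C.EF ε 1 θ P Q (fromBlocks a b c d) ↔ Uni (-ε) (fromBlocks a b c d) ∧
      ∃ Y₁ Y₂ : Matrix J I (ZG Γ),
        Y₁ * sy ε (C.lin θ P Q) =
          mp C.va a * -(dg J C.t * (mp C.v Q)ᴴ) + mp C.va b * (ε : ℤ) • (mp C.v P)ᴴ ∧
        Y₂ * sy ε (C.lin θ P Q) =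
          mp C.va c * -(dg J C.t * (mp C.v Q)ᴴ) + mp C.va d * (ε : ℤ) • (mp C.v P)ᴴ ∧
        Sup C.pos Y₁ ∧ Sup (fun g => ¬ C.pos g) Y₂ ∧
        Sup C.pos ((Y₁ * mp C.v P + mp C.va a) * dg J C.t) ∧
        Sup (fun g => ¬ C.pos g) ((Y₂ * mp C.v P + mp C.va c) * dg J C.t) ∧
        Sup C.pos (Y₁ * mp C.v Q * dg J C.t⁻¹ - mp C.va b) ∧
        Sup (fun g => ¬ C.pos g) (Y₂ * mp C.v Q * dg J C.t⁻¹ - mp C.va d) := by
  have e1 : (1 : Matrix (I ⊕ I) (I ⊕ I) (ZG V)).toBlocks₁₁ = 1 := by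
    rw [← fromBlocks_one, toBlocks_fromBlocks₁₁]
  rw [Cut.EF, PH.sys_one, e1, Matrix.one_mul, Matrix.one_mul, mp_blocks, PH.sig,
    fromBlocks_mul_fromRows]
  refine and_congr_right fun _ => ⟨?_, ?_⟩
  · rintro ⟨Y, h1, h2, h3, h4⟩
    rw [← fromRows_toRows Y, fromRows_mul, fromRows_ext_iff] at h1
    exact ⟨Y.toRows₁, Y.toRows₂, h1.1, h1.2, h2.1, h2.2, h3.1, h3.2, h4.1, h4.2⟩
  · rintro ⟨Y₁, Y₂, h1, h2, h3, h4, h5, h6, h7, h8⟩
    exact ⟨fromRows Y₁ Y₂, by rw [fromRows_mul, h1, h2], ⟨h3, h4⟩, ⟨h5, h6⟩, h7, h8⟩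

theorem PH.lin_sum (D : PH Γ V A) {I I' : Type} [Fintype I] [DecidableEq I] [Fintype I']
    [DecidableEq I'] (θ : Matrix I I (ZG V)) (P Q : Matrix I J (ZG V))
    (θ' : Matrix I' I' (ZG V)) (P' Q' : Matrix I' J' (ZG V)) :
    D.lin (fromBlocks θ 0 0 θ') (fromBlocks P 0 0 P') (fromBlocks Q 0 0 Q') =
      fromBlocks (D.lin θ P Q) 0 0 (D.lin θ' P' Q') := by
  simp only [PH.lin, mp_blocks, mp_zero, dg_blocks, fromBlocks_conjTranspose, conjTranspose_zero,
    fromBlocks_multiply, fromBlocks_add, Matrix.mul_zero, Matrix.zero_mul, add_zero, zero_add]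

theorem Cut.Rep.add (h : C.Rep ε x U) (h' : C.Rep ε y U') : C.Rep ε (x + y) (dsum U U') := by
  obtain ⟨I, _, _, θ, P, Q, h1, h2, rfl⟩ := h
  obtain ⟨I', _, _, θ', P', Q', k1, k2, rfl⟩ := h'
  refine ⟨I ⊕ I', inferInstance, inferInstance, fromBlocks θ 0 0 θ', fromBlocks P 0 0 P',
    fromBlocks Q 0 0 Q', ?_, ?_, ?_⟩
  · rw [PH.lin_sum]
    exact h1.sum k1
  · have hu := h2.1.dsum k2.1
    rw [← fromBlocks_toBlocks U, ORep_ef] at h2
    rw [← fromBlocks_toBlocks U', ORep_ef] at k2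
    obtain ⟨-, Y₁, Y₂, a1, a2, a3, a4, a5, a6, a7, a8⟩ := h2
    obtain ⟨-, Y₁', Y₂', b1, b2, b3, b4, b5, b6, b7, b8⟩ := k2
    rw [dsum_eq] at hu ⊢
    rw [ORep_ef, PH.lin_sum, sy_blocks]
    refine ⟨hu, fromBlocks Y₁ 0 0 Y₁', fromBlocks Y₂ 0 0 Y₂', ?_⟩
    simp only [mp_blocks, mp_zero, dg_blocks, fromBlocks_conjTranspose, conjTranspose_zero,
      fromBlocks_multiply, fromBlocks_add, Matrix.mul_zero, Matrix.zero_mul, add_zero, zero_add,
      fromBlocks_neg, fromBlocks_smul, smul_zero, neg_zero, ORep_sub, sub_zero, a1, a2, b1, b2,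
      true_and]
    exact ⟨ORep_sup_blocks a3 b3, ORep_sup_blocks a4 b4, ORep_sup_blocks a5 b5,
      ORep_sup_blocks a6 b6, ORep_sup_blocks a7 b7, ORep_sup_blocks a8 b8⟩
  · rw [PH.lin_sum, cls_sum h1 k1]

theorem Cut.Rep.neg (h : C.Rep ε x U) : C.Rep ε (-x) (-fA (-1) U) := by
  obtain ⟨I, _, _, θ, P, Q, h1, h2, rfl⟩ := h
  have e : C.lin (-θ) (-P) Q = -C.lin θ P Q := by
    simp only [PH.lin, mp_neg, Matrix.neg_mul, neg_add]
  have e' : -fA (-1) U =
      fromBlocks (-U.toBlocks₁₁) U.toBlocks₁₂ U.toBlocks₂₁ (-U.toBlocks₂₂) := by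
    simp only [fA, fromBlocks_neg, Units.val_neg, Units.val_one, neg_smul, one_smul, neg_neg]
  refine ⟨I, inferInstance, inferInstance, -θ, -P, Q, ?_, ?_, ?_⟩
  · rw [e]
    exact h1.neg
  · have hu := (uni_neg h2.1.fA_neg).1
    rw [← fromBlocks_toBlocks U, ORep_ef] at h2
    obtain ⟨-, Y₁, Y₂, a1, a2, a3, a4, a5, a6, a7, a8⟩ := h2
    rw [e'] at hu ⊢
    rw [ORep_ef, e, sy_neg]
    refine ⟨hu, Y₁, -Y₂, ?_, ?_, a3, a4.neg, ?_, ?_, a7, ?_⟩
    · rw [Matrix.mul_neg, a1]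
      simp only [mp_neg, Matrix.neg_mul, Matrix.mul_neg, conjTranspose_neg, smul_neg, neg_add]
    · rw [Matrix.mul_neg, Matrix.neg_mul, neg_neg, a2]
      simp only [mp_neg, Matrix.neg_mul, Matrix.mul_neg, conjTranspose_neg, smul_neg, neg_neg]
    · rw [mp_neg, mp_neg, Matrix.mul_neg, ← neg_add, Matrix.neg_mul]
      exact a5.neg
    · rwa [mp_neg, Matrix.mul_neg, Matrix.neg_mul, neg_neg]
    · rw [mp_neg, Matrix.neg_mul, Matrix.neg_mul, ← neg_sub']
      exact a8.neg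
  · rw [e, cls_neg]

/-- adding a form over the vertex group -/
theorem Cut.EF.addV {I M : Type} [Fintype I] [DecidableEq I] [Fintype M] [DecidableEq M]
    {θ : Matrix I I (ZG V)} {P Q : Matrix I J (ZG V)} (h : C.EF ε 1 θ P Q U)
    (θ' : Matrix M M (ZG V)) :
    C.EF ε 1 (fromBlocks θ 0 0 θ') (fromRows P 0) (fromRows Q 0) U ∧
      C.lin (fromBlocks θ 0 0 θ') (fromRows P 0) (fromRows Q 0) =
        fromBlocks (C.lin θ P Q) 0 0 (mp C.v θ') := by
  have e : C.lin (fromBlocks θ 0 0 θ') (fromRows P 0) (fromRows Q 0) =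
      fromBlocks (C.lin θ P Q) 0 0 (mp C.v θ') := by
    simp only [PH.lin, mp_blocks, mp_zero, mp_fromRows, fromRows_mul,
      conjTranspose_fromRows_eq_fromCols_conjTranspose, conjTranspose_zero, mul_fromCols,
      Matrix.mul_zero, Matrix.zero_mul]
    ext (k | k) (l | l) <;> simp
  refine ⟨?_, e⟩
  rw [← fromBlocks_toBlocks U, ORep_ef] at h ⊢
  obtain ⟨hu, Y₁, Y₂, a1, a2, a3, a4, a5, a6, a7, a8⟩ := h
  rw [e, sy_blocks]
  refine ⟨hu, fromCols Y₁ 0, fromCols Y₂ 0, ?_⟩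
  have k : ∀ (Y : Matrix J I (ZG Γ)) (a b : Matrix J J (ZG Γ)),
      Y * sy ε (C.lin θ P Q) = a * -(dg J C.t * (mp C.v Q)ᴴ) + b * (ε : ℤ) • (mp C.v P)ᴴ →
      fromCols Y (0 : Matrix J M (ZG Γ)) *
        fromBlocks (sy ε (C.lin θ P Q)) (0 + (ε : ℤ) • (0 : Matrix M I (ZG Γ))ᴴ)
        (0 + (ε : ℤ) • (0 : Matrix I M (ZG Γ))ᴴ) (sy ε (mp C.v θ')) =
        a * -(dg J C.t * (mp C.v (fromRows Q (0 : Matrix M J (ZG V))))ᴴ) +
          b * (ε : ℤ) • (mp C.v (fromRows P (0 : Matrix M J (ZG V))))ᴴ := by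
    intro Y a b h
    rw [fromCols_mul_fromBlocks]
    simp only [mp_fromRows, mp_zero, conjTranspose_zero, smul_zero,
      conjTranspose_fromRows_eq_fromCols_conjTranspose, mul_fromCols, Matrix.mul_zero,
      Matrix.zero_mul, add_zero, h, Matrix.mul_neg, Matrix.mul_smul]
    ext k (l | l) <;> simp
  refine ⟨k _ _ _ a1, k _ _ _ a2, ?_⟩
  simp only [mp_fromRows, mp_zero, fromCols_mul_fromRows, Matrix.mul_zero, add_zero]
  exact ⟨sup_fromCols.2 ⟨a3, sup_zero⟩, sup_fromCols.2 ⟨a4, sup_zero⟩, a5, a6, a7, a8⟩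

end Pool.Agent.Work.MP_9d1ffa_al
end

-- merged part: Pool.Agent.Work.MP_9d1ffa_al.OW
section
/-! The edge class of a hyperbolic form over a Laurent extension vanishes. -/

namespace Pool.Agent.Work.MP_9d1ffa_al

open Matrix MonoidAlgebra

set_option linter.unusedSectionVars false
set_option linter.unusedVariables false

variable {V : Type} [Group V] {ε : ℤˣ} {I J K : Type} [Fintype I] [DecidableEq I] [Fintype J]
  [DecidableEq J] [Fintype K] [DecidableEq K]

theorem OW_va (X : Matrix I J (ZG V)) : mp (Cut.line V).va X = mp (Cut.line V).v X := rfl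

theorem OW_rs (X : Matrix I J (ZG (V × Multiplicative ℤ))) :
    rs (Cut.line V).va (Cut.line V).vainj X = rs (Cut.line V).v (Cut.line V).vinj X := rfl

theorem OW_deg {g : V × Multiplicative ℤ} (h : ∃ a, (Cut.line V).v a = g) : g.2.toAdd = 0 := by
  obtain ⟨a, rfl⟩ := h
  rfl

theorem OW_sup (X : Matrix I J (ZG V)) :
    Sup (fun g => g.2.toAdd = 0) (mp (Cut.line V).v X) :=
  (sup_mp _ X).mono fun _ => OW_deg

theorem OW_pos {g : V × Multiplicative ℤ} : (Cut.line V).pos g ↔ 1 ≤ g.2.toAdd := Iff.rfl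

theorem OW_bd (P Q : Matrix I J (ZG V)) : (Cut.line V).bd 1 P Q =
    fromCols (mp (Cut.line V).v P) (mp (Cut.line V).v Q * dg J (Cut.line V).t⁻¹) := by
  rw [PH.bd, ← fromBlocks_one, toBlocks_fromBlocks₁₁, Matrix.one_mul, Matrix.one_mul]

theorem OW_sig (z₁ z₂ : Matrix K J (ZG V)) (P Q : Matrix I J (ZG V)) :
    mp (Cut.line V).va (fromCols z₁ z₂) * (Cut.line V).sig ε P Q =
      -(mp (Cut.line V).v z₁ * (dg J (Cut.line V).t * (mp (Cut.line V).v Q)ᴴ)) +
        (ε : ℤ) • mp (Cut.line V).v (z₂ * Pᴴ) := by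
  rw [OW_va, mp_fromCols, PH.sig, fromCols_mul_fromRows, Matrix.mul_neg, Matrix.mul_smul, mp_mul,
    mp_ct]

theorem OW_rs_sy {G H : Type} [Group G] [Group H] {f : H →* G} {hf : Function.Injective f}
    (X : Matrix I I (ZG G)) : sy ε (rs f hf X) = rs f hf (sy ε X) := by
  rw [sy, sy, rs_add, rs_zsmul, rs_ct]

/-- solving the linear system inside a window -/
theorem OW_core {θ : Matrix I I (ZG V)} {P Q : Matrix I J (ZG V)}
    {U : Matrix (J ⊕ J) (J ⊕ J) (ZG V)} (h : (Cut.line V).EF ε 1 θ P Q U)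
    (hs : IsUnit ((Cut.line V).sys ε 1 θ P Q)) {L : Type} [Fintype L] [DecidableEq L]
    {ι G : Matrix L I (ZG (V × Multiplicative ℤ))} {E : Matrix L L (ZG V)}
    (hι : Sup (Cut.line V).pos ι) (hG : Sup (Cut.line V).pos G)
    (hE : rs (Cut.line V).v (Cut.line V).vinj (G * (mp (Cut.line V).v E * ι)ᴴ) = Eᴴ)
    (f : Matrix K L (ZG V)) (s : Matrix K J (ZG V))
    (hw : ∀ x w : Matrix K I (ZG (V × Multiplicative ℤ)), Sup (Cut.line V).pos x →
      Sup (fun g => g.2.toAdd ≤ 1) w →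
      x * (Cut.line V).sys ε 1 θ P Q = mp (Cut.line V).v f * G + w →
      ∃ k : Matrix K L (ZG V), x = mp (Cut.line V).v (k * E) * ι) :
    ∃ (k₀ : Matrix K L (ZG V)) (k : Matrix K J (ZG V)),
      k₀ * E * rs (Cut.line V).v (Cut.line V).vinj
        (ι * (mp (Cut.line V).v Q * dg J (Cut.line V).t⁻¹)) - k * U.toBlocks₂₂ = s ∧
      (k₀ * E * rs (Cut.line V).v (Cut.line V).vinj (ι * (Cut.line V).sys ε 1 θ P Q * ιᴴ) +
        k * U.toBlocks₂₁ * (rs (Cut.line V).v (Cut.line V).vinj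
          (ι * (mp (Cut.line V).v Q * dg J (Cut.line V).t⁻¹)))ᴴ) * Eᴴ = f * Eᴴ := by
  have hF : Sup (Cut.line V).pos (mp (Cut.line V).v f * G) :=
    (OW_sup f).mul hG fun a b ha hb => by
      rw [OW_pos] at hb ⊢
      rw [Prod.snd_mul, toAdd_mul]
      omega
  have hS : Sup (fun g => ¬ (Cut.line V).pos g) ((ε : ℤ) • mp (Cut.line V).v (s * Pᴴ)) :=
    ((OW_sup _).zsmul _).mono fun g hg => by rw [OW_pos]; omega
  obtain ⟨y, hy⟩ : ∃ y : Matrix K I (ZG (V × Multiplicative ℤ)), y * (Cut.line V).sys ε 1 θ P Q =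
      mp (Cut.line V).v f * G + (ε : ℤ) • mp (Cut.line V).v (s * Pᴴ) := by
    obtain ⟨μ, hμ⟩ := hs.exists_left_inv
    exact ⟨(mp (Cut.line V).v f * G + (ε : ℤ) • mp (Cut.line V).v (s * Pᴴ)) * μ, by
      rw [Matrix.mul_assoc, hμ, Matrix.mul_one]⟩
  have k1 := (Cut.line V).key_pos (ε := ε) 1 θ P Q y
  have k2 := (Cut.line V).key_neg (ε := ε) 1 θ P Q y
  have e0 := fm_add_not (Cut.line V).pos y
  have hx := sup_fm (Cut.line V).pos y
  have hx' := sup_fm (fun g => ¬ (Cut.line V).pos g) y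
  rw [hy, fm_add, hF.fm_eq, hS.fm_zero fun g hg => hg, add_zero] at k1
  rw [hy, fm_add, hS.fm_eq, hF.fm_zero fun g hg => not_not.2 hg, zero_add] at k2
  generalize fm (Cut.line V).pos y = x at *
  generalize fm (fun g => ¬ (Cut.line V).pos g) y = x' at *
  subst e0
  have z1 : rs (Cut.line V).v (Cut.line V).vinj ((x + x') * mp (Cut.line V).v P) =
      rs (Cut.line V).v (Cut.line V).vinj (x' * mp (Cut.line V).v P) := by
    rw [Matrix.add_mul, rs_add, rs_mul_mp, hx.rs_zero (Cut.line V).npos_v, Matrix.zero_mul,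
      zero_add]
  have z2 : rs (Cut.line V).v (Cut.line V).vinj
      ((x + x') * (mp (Cut.line V).v Q * dg J (Cut.line V).t⁻¹)) =
      rs (Cut.line V).v (Cut.line V).vinj
        (x * (mp (Cut.line V).v Q * dg J (Cut.line V).t⁻¹)) := by
    have : Sup (fun g => g.2.toAdd ≤ -1) (x' * (mp (Cut.line V).v Q * dg J (Cut.line V).t⁻¹)) :=
      hx'.mul ((OW_sup Q).mul (sup_dg _) (T := fun g => g.2.toAdd = -1) fun a b ha hb => by
        rw [hb, Prod.snd_mul, toAdd_mul, ha]; rfl) fun a b ha hb => by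
        rw [OW_pos] at ha
        rw [Prod.snd_mul, toAdd_mul]
        omega
    rw [Matrix.add_mul, rs_add, this.rs_zero fun a ha => by
      rw [OW_deg ⟨a, rfl⟩] at ha; omega, add_zero]
  rw [OW_bd, mul_fromCols, OW_rs, rs_fromCols, z1, z2] at k1 k2
  have hz₁ : (rs (Cut.line V).va (Cut.line V).vainj (x' * (Cut.line V).bd 1 P Q)).toCols₁ =
      rs (Cut.line V).v (Cut.line V).vinj (x' * mp (Cut.line V).v P) := by
    rw [OW_bd, mul_fromCols, OW_rs, rs_fromCols, toCols₁_fromCols]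
  generalize rs (Cut.line V).v (Cut.line V).vinj (x' * mp (Cut.line V).v P) = z₁ at *
  generalize hz₂ : rs (Cut.line V).v (Cut.line V).vinj
    (x * (mp (Cut.line V).v Q * dg J (Cut.line V).t⁻¹)) = z₂ at k1 k2
  obtain ⟨k', hk'⟩ := h.neg_char hs (fromCols (-z₁) (s - z₂)) x' hx' (by
    rw [k2, OW_sig, OW_sig, mp_neg, Matrix.neg_mul, Matrix.sub_mul, mp_sub, smul_sub]
    abel) (by rw [hz₁, toCols₁_fromCols, neg_neg])
  have hU : U.toRows₂ = fromCols U.toBlocks₂₁ U.toBlocks₂₂ := by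
    ext i (j | j) <;> rfl
  rw [hU, mul_fromCols] at hk'
  obtain ⟨c1, c2⟩ := fromCols_inj hk'
  rw [OW_sig] at k1
  obtain ⟨k₀, hk₀⟩ := hw x _ hx (by
    refine Sup.add (Sup.neg ?_) (((OW_sup _).zsmul _).mono fun g hg => by omega)
    rw [← mp_ct]
    refine (OW_sup z₁).mul ((sup_dg _).mul (OW_sup Qᴴ) (T := fun g => g.2.toAdd = 1)
      fun a b ha hb => by rw [ha, Prod.snd_mul, toAdd_mul, hb]; rfl) fun a b ha hb => ?_
    rw [Prod.snd_mul, toAdd_mul]
    omega) k1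
  refine ⟨k₀, -k', ?_, ?_⟩
  · rw [← rs_mp_mul, ← Matrix.mul_assoc, ← hk₀, hz₂, Matrix.neg_mul, ← c2]
    abel
  · have e1 : rs (Cut.line V).v (Cut.line V).vinj (mp (Cut.line V).v (z₂ * Pᴴ) * ιᴴ) = 0 := by
      rw [rs_mp_mul, rs_ct, hι.rs_zero (Cut.line V).npos_v, conjTranspose_zero, Matrix.mul_zero]
    have e2 : rs (Cut.line V).v (Cut.line V).vinj (mp (Cut.line V).v f * G * ιᴴ) * Eᴴ =
        f * Eᴴ := by
      rw [Matrix.mul_assoc, rs_mp_mul, Matrix.mul_assoc, ← rs_mul_mp, mp_ct, Matrix.mul_assoc,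
        ← conjTranspose_mul, hE]
    rw [← rs_mp_mul, ← Matrix.mul_assoc, ← Matrix.mul_assoc, ← hk₀, k1, Matrix.neg_mul k', ← c1,
      neg_neg, ← rs_ct, ← rs_mp_mul, conjTranspose_mul, conjTranspose_mul, dg_ct, inv_inv,
      Matrix.add_mul _ _ ιᴴ, Matrix.add_mul _ _ ιᴴ, Matrix.neg_mul, Matrix.smul_mul, rs_add, rs_add,
      rs_neg, rs_zsmul, e1, smul_zero, add_zero, Matrix.mul_assoc (mp _ z₁), neg_add_cancel_right,
      e2]

/-- the algebraic part: a free module with a form whose system is solvable -/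
theorem OW_alg {R : Type} [Ring R] [StarRing R] {L : Type} [Fintype L] [DecidableEq L]
    {U : Matrix (J ⊕ J) (J ⊕ J) R} (hU : Uni (-ε) U) {E ψ : Matrix L L R} (hE : SFIdem E)
    (hEE : E * E = E) (Y : Matrix L J R)
    (h : ∀ (M : Type) [Fintype M] [DecidableEq M] (f : Matrix M L R) (s : Matrix M J R),
      ∃ (k₀ : Matrix M L R) (k : Matrix M J R), k₀ * E * Y - k * U.toBlocks₂₂ = s ∧
        (k₀ * E * sy ε ψ + k * U.toBlocks₂₁ * Yᴴ) * Eᴴ = f * Eᴴ) : ucl (-ε) U = 0 := by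
  obtain ⟨a, _, _, ha⟩ := hE
  obtain ⟨b, _, _, B, W, h1, h2⟩ := USchur_left ha a
  obtain ⟨B₁, B₂, rfl⟩ : ∃ B₁ B₂, B = fromCols B₁ B₂ := ⟨_, _, (fromCols_toCols B).symm⟩
  obtain ⟨W₁, W₂, rfl⟩ : ∃ W₁ W₂, W = fromRows W₁ W₂ := ⟨_, _, (fromRows_toRows W).symm⟩
  rw [fromCols_mul_fromRows] at h1
  rw [fromRows_mul_fromCols, fromBlocks_inj] at h2
  obtain ⟨e11, e12, e21, e22⟩ := h2
  have hB : B₁ * E = B₁ := by
    rw [← e11, ← Matrix.mul_assoc, eq_sub_of_add_eq h1, Matrix.sub_mul, Matrix.one_mul,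
      Matrix.mul_assoc, e21, Matrix.mul_zero, sub_zero]
  have hB' : Eᴴ * B₁ᴴ = B₁ᴴ := by rw [← conjTranspose_mul, hB]
  obtain ⟨Ω, -, hΩ⟩ := (ns_hyp (ε := ε) (R := R) (I := a)).inv
  have hσ := genU_swap (η := -ε) (R := R) (I := J)
  have hW := hU.fB.mul hσ.uni
  have hW' := (uni_one (η := -ε) (R := R) (I := b)).dsum hW
  have hsys : sysM ε (dsum (1 : Matrix (b ⊕ b) (b ⊕ b) R)
      (fB U * fromBlocks 0 1 (((-ε : ℤˣ) : ℤ) • 1) 0))
      (fromBlocks (B₁ * ψ * B₁ᴴ + B₂ * hypF R a * B₂ᴴ) (B₁ * Y) 0 0) =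
      fromBlocks (B₁ * sy ε ψ * B₁ᴴ + B₂ * sy ε (hypF R a) * B₂ᴴ) (B₁ * Y)
        (U.toBlocks₂₁ * (B₁ * Y)ᴴ) (-U.toBlocks₂₂) := by
    rw [sysM, fB, fromBlocks_multiply, ← fromBlocks_one, dsum_blocks, toBlocks_fromBlocks₁₁,
      toBlocks_fromBlocks₁₂, sy_blocks, sy_add, sy_conj, sy_conj, sy_zero, fromBlocks_multiply,
      sub_eq_add_neg, fromBlocks_neg, fromBlocks_add]
    simp only [Matrix.mul_zero, Matrix.zero_mul, Matrix.mul_one, Matrix.one_mul, add_zero,
      zero_add, neg_zero, conjTranspose_zero, smul_zero, Matrix.mul_smul, Matrix.smul_mul,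
      Matrix.mul_neg, smul_neg, Units.val_neg, neg_smul, neg_neg, eps_eps]
  obtain ⟨k₀, k, c1, c2⟩ := h (b ⊕ J) ((fromRows 1 0 : Matrix (b ⊕ J) b R) * W₁ᴴ) (fromRows 0 1)
  have n1 : (k₀ * E * W₁ + (fromRows 1 0 : Matrix (b ⊕ J) b R) * W₂ᴴ * Ω * W₂) * B₁ = k₀ * E := by
    rw [Matrix.add_mul, Matrix.mul_assoc _ W₁, e11, Matrix.mul_assoc _ W₂, e21, Matrix.mul_zero,
      add_zero, Matrix.mul_assoc, hEE]
  have n2 : (k₀ * E * W₁ + (fromRows 1 0 : Matrix (b ⊕ J) b R) * W₂ᴴ * Ω * W₂) * B₂ =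
      (fromRows 1 0 : Matrix (b ⊕ J) b R) * W₂ᴴ * Ω := by
    rw [Matrix.add_mul, Matrix.mul_assoc _ W₁, e12, Matrix.mul_assoc _ W₂, e22, Matrix.mul_zero,
      zero_add, Matrix.mul_one]
  generalize k₀ * E * W₁ + (fromRows 1 0 : Matrix (b ⊕ J) b R) * W₂ᴴ * Ω * W₂ = n at n1 n2
  have hC : fromCols n k * fromBlocks (B₁ * sy ε ψ * B₁ᴴ + B₂ * sy ε (hypF R a) * B₂ᴴ) (B₁ * Y)
      (U.toBlocks₂₁ * (B₁ * Y)ᴴ) (-U.toBlocks₂₂) = 1 := by
    rw [fromCols_mul_fromBlocks, ← fromBlocks_one, ← fromCols_fromRows_eq_fromBlocks]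
    congr 1
    · have c3 := congrArg (· * B₁ᴴ) c2
      simp only [Matrix.mul_assoc _ Eᴴ, hB'] at c3
      have c4 := congrArg conjTranspose h1
      rw [conjTranspose_add, conjTranspose_mul, conjTranspose_mul, conjTranspose_one] at c4
      rw [Matrix.mul_add, ← Matrix.mul_assoc, ← Matrix.mul_assoc, n1, ← Matrix.mul_assoc n,
        ← Matrix.mul_assoc n, n2, Matrix.mul_assoc _ Ω, hΩ, Matrix.mul_one, conjTranspose_mul,
        ← Matrix.mul_assoc k, ← Matrix.mul_assoc _ Yᴴ, add_right_comm, ← Matrix.add_mul, c3,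
        Matrix.mul_assoc, Matrix.mul_assoc, ← Matrix.mul_add, c4, Matrix.mul_one]
    · rw [← Matrix.mul_assoc, n1, Matrix.mul_neg, ← sub_eq_add_neg, c1]
  rw [← hsys] at hC
  have k1 := ucl_sys hW' hC
  rw [ucl_dsum uni_one hW, ucl_one, zero_add, ucl_mul hU.fB hσ.uni, ucl_gen hσ, add_zero,
    ucl_fB hU, neg_eq_zero] at k1
  rw [← eps_eps (ε := -ε) (ucl (-ε) U), k1, smul_zero]

theorem line_hyp (hV : SFI (ZG V)) {θ : Matrix I I (ZG V)} {P Q : Matrix I J (ZG V)}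
    {U : Matrix (J ⊕ J) (J ⊕ J) (ZG V)} (h : (Cut.line V).EF ε 1 θ P Q U)
    (hz : Iso ε ((Cut.line V).lin θ P Q) (hypF (ZG (V × Multiplicative ℤ)) K)) :
    ucl (-ε) U = 0 := by
  have hs : IsUnit ((Cut.line V).sys ε 1 θ P Q) := by
    rw [PH.sys_one]
    exact NS.iso hz.symm ns_hyp
  obtain ⟨g, g', h1, h2, h3⟩ := hz
  obtain ⟨ω', w1, -⟩ := (ns_hyp (ε := ε) (R := ZG V) (I := K)).inv
  have hl : (Cut.line V).sys ε 1 θ P Q =
      g' * mp (Cut.line V).v (sy ε (hypF (ZG V) K)) * g'ᴴ := by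
    rw [mp_sy, mp_hyp, h3.sy_eq, sy_conj, PH.sys_one, ← Matrix.mul_assoc, ← Matrix.mul_assoc, h2,
      Matrix.one_mul, Matrix.mul_assoc, ← conjTranspose_mul, h2, conjTranspose_one,
      Matrix.mul_one]
  obtain ⟨L, _, _, ι, G, E, e1, e2, e3, e4, e5⟩ := exists_window h1 h2 w1 hl
  refine OW_alg h.1 (hV L E e1) e1
    (ψ := rs (Cut.line V).v (Cut.line V).vinj (ι * (Cut.line V).lin θ P Q * ιᴴ))
    (rs (Cut.line V).v (Cut.line V).vinj (ι * (mp (Cut.line V).v Q * dg J (Cut.line V).t⁻¹)))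
    fun M _ _ f s => ?_
  rw [OW_rs_sy, sy_conj, ← PH.sys_one]
  exact OW_core h hs e2 e3 e4 f s fun x w => e5 M x w f

theorem Cut.Rep.line_zero (hV : SFI (ZG V)) {U : Matrix (J ⊕ J) (J ⊕ J) (ZG V)}
    (h : (Cut.line V).Rep ε 0 U) : ucl (-ε) U = 0 := by
  obtain ⟨I, _, _, θ, P, Q, h1, h2, h3⟩ := h
  obtain ⟨m, n, hz⟩ := (cls_eq_zero h1).1 h3
  obtain ⟨k1, k2⟩ := h2.addV (hypF (ZG V) (Fin m))
  refine line_hyp (K := Fin n) hV k1 ?_
  rwa [k2, mp_hyp]

end Pool.Agent.Work.MP_9d1ffa_al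
end
end

-- merged part: Pool.Agent.Work.MP_9d1ffa_al.OK1
section
-- merged part: Pool.Agent.Work.MP_9d1ffa_al.UObj
section
/-! Filtered forms with positions, and the maps between them. -/

namespace Pool.Agent.Work.MP_9d1ffa_al

open Matrix MonoidAlgebra MulAction

set_option linter.unusedSectionVars false
set_option linter.unusedVariables false

/-- positions, reversal, forward moves and hulls -/
structure Geo2 (G : Type) [Group G] {P : Type} [MulAction G P] (rev : P → P)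
    (mv : P → P → Prop) (hull : P → P → P) : Prop where
  rr : ∀ a, rev (rev a) = a
  re : ∀ (g : G) a, rev (g • a) = g • rev a
  inv : Inv G mv
  tr : ∀ a b c, mv a b → mv b c → mv a c
  sym : ∀ a b, mv a b → mv (rev b) (rev a)
  eqv : ∀ (g : G) a b, hull (g • a) (g • b) = g • hull a b
  stab : ∀ a b, mv a b → ∀ g : G, g • hull a b = hull a b → g • a = a ∧ g • b = b
  hl : ∀ a b, mv a b → mv a (hull a b)
  rh : ∀ a b, rev (hull a b) = hull (rev b) (rev a)

/-- a stably hyperbolic form which reverses positions, with a graded filtration of length `k` -/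
structure Obj (G : Type) [Group G] {P : Type} [MulAction G P] (rev : P → P) (ε : ℤˣ) (k : ℕ) :
    Type 1 where
  I : Type
  [fin : Fintype I]
  [dec : DecidableEq I]
  p : I → P
  φ : Matrix I I (ZG G)
  μ : Matrix I I (ZG G)
  F : ℕ → Submodule (ZG G) (I → ZG G)
  hF : Filt p F k
  onφ : MOn p p (fun a b => b = rev a) φ
  onμ : MOn p p (fun a b => b = rev a) μ
  e1 : sy ε φ * μ = 1
  e2 : μ * sy ε φ = 1
  z : Z ε φ

attribute [instance] Obj.fin Obj.dec

variable {G : Type} [Group G] {P : Type} [MulAction G P] {rev : P → P} {mv : P → P → Prop}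
  {hull : P → P → P} {ε : ℤˣ} {k : ℕ}

/-- the matrix lowers the filtrations by `w` -/
def Low2 {I J : Type} [Fintype I] (F : ℕ → Submodule (ZG G) (I → ZG G))
    (F' : ℕ → Submodule (ZG G) (J → ZG G)) (w : ℕ) (X : Matrix I J (ZG G)) : Prop :=
  ∀ m, ∀ x ∈ F m, x ᵥ* X ∈ F' (m + w)

/-- the adjoint -/
noncomputable def adj (M N : Obj G rev ε k) (X : Matrix M.I N.I (ZG G)) :
    Matrix N.I M.I (ZG G) :=
  sy ε N.φ * Xᴴ * M.μ

/-- the matrix moves forward, and it and its adjoint lower the filtrations by `w` -/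
def JJ (mv : P → P → Prop) (M N : Obj G rev ε k) (w : ℕ) (X : Matrix M.I N.I (ZG G)) : Prop :=
  MOn M.p N.p mv X ∧ Low2 M.F N.F w X ∧ Low2 N.F M.F w (adj M N X)

section

variable {I J K : Type} [Fintype I] [Fintype J] {F : ℕ → Submodule (ZG G) (I → ZG G)}
  {F' : ℕ → Submodule (ZG G) (J → ZG G)} {F'' : ℕ → Submodule (ZG G) (K → ZG G)} {w w' : ℕ}

theorem low2_zero : Low2 F F' w (0 : Matrix I J (ZG G)) := fun m x hx => by
  rw [vecMul_zero]; exact zero_mem _

theorem Low2.add {X Y : Matrix I J (ZG G)} (hX : Low2 F F' w X) (hY : Low2 F F' w Y) :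
    Low2 F F' w (X + Y) := fun m x hx => by
  rw [vecMul_add]; exact add_mem (hX m x hx) (hY m x hx)

theorem Low2.zsmul {X : Matrix I J (ZG G)} (hX : Low2 F F' w X) (n : ℤ) :
    Low2 F F' w (n • X) := fun m x hx => by
  rw [vecMul_smul]; exact Submodule.smul_of_tower_mem _ n (hX m x hx)

theorem Low2.neg {X : Matrix I J (ZG G)} (hX : Low2 F F' w X) : Low2 F F' w (-X) :=
  fun m x hx => by rw [vecMul_neg]; exact neg_mem (hX m x hx)

theorem Low2.mul {X : Matrix I J (ZG G)} {Y : Matrix J K (ZG G)} (hX : Low2 F F' w X)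
    (hY : Low2 F' F'' w' Y) : Low2 F F'' (w + w') (X * Y) := fun m x hx => by
  rw [← vecMul_vecMul, ← add_assoc]; exact hY _ _ (hX m x hx)

theorem Low2.anti {Q : Type} [MulAction G Q] {q : J → Q} (hF' : Filt q F' k) (h : w ≤ w')
    {X : Matrix I J (ZG G)} (hX : Low2 F F' w' X) : Low2 F F' w X :=
  fun m x hx => hF'.antitone (Nat.add_le_add_left h m) (hX m x hx)

theorem Low2.eq_zero [DecidableEq I] {Q : Type} [MulAction G Q] {p : I → P} {q : J → Q} {k' : ℕ}
    (hF : Filt p F k') (hF' : Filt q F' k) (h : k ≤ w) {X : Matrix I J (ZG G)}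
    (hX : Low2 F F' w X) : X = 0 := by
  funext i
  have h1 := hX 0 (Pi.single i 1) (by rw [hF.top]; trivial)
  rw [zero_add, single_vecMul_row] at h1
  have h2 := hF'.antitone h h1
  rw [hF'.bot] at h2
  exact (Submodule.mem_bot _).1 h2

theorem Low2.mfil {Q : Type} [MulAction G Q] {p : I → P} {q : J → Q} {k' : ℕ}
    (hF : Filt p F k') (hF' : Filt q F' k) {X : Matrix I J (ZG G)} (hX : Low2 F F' w X)
    {ρ : P → Q → Prop} (hρ : Inv G ρ) : Low2 F F' w (mfil p q ρ X) := fun m x hx => by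
  obtain ⟨s, hs⟩ := exists_pos_finset p x
  rw [← hs.sum_proj, Matrix.sum_vecMul]
  refine sum_mem fun σ _ => ?_
  rw [(vOn_proj p (· = σ) x).vecMul_mfil hρ]
  exact hF'.proj_mem _ _ (hX m _ (hF.gr m σ x hx))

end

variable {M N K : Obj G rev ε k} {w w' : ℕ}

theorem Obj.mu_ct (M : Obj G rev ε k) : M.μᴴ = (ε : ℤ) • M.μ := inv_ct M.e1 M.e2

theorem adj_zero : adj M N 0 = 0 := by simp [adj]

theorem adj_add (X Y : Matrix M.I N.I (ZG G)) : adj M N (X + Y) = adj M N X + adj M N Y := by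
  simp only [adj, conjTranspose_add, Matrix.mul_add, Matrix.add_mul]

theorem adj_neg (X : Matrix M.I N.I (ZG G)) : adj M N (-X) = -adj M N X := by
  simp only [adj, conjTranspose_neg, Matrix.mul_neg, Matrix.neg_mul]

theorem adj_one : adj M M 1 = 1 := by simp [adj, M.e1]

theorem adj_mul_sy (X : Matrix M.I N.I (ZG G)) : adj M N X * sy ε M.φ = sy ε N.φ * Xᴴ := by
  rw [adj, Matrix.mul_assoc, M.e2, Matrix.mul_one]

theorem adj_mul (X : Matrix M.I N.I (ZG G)) (Y : Matrix N.I K.I (ZG G)) :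
    adj M K (X * Y) = adj N K Y * adj M N X := by
  rw [adj, adj, adj, conjTranspose_mul]
  simp only [Matrix.mul_assoc]
  rw [← Matrix.mul_assoc N.μ, N.e2, Matrix.one_mul]

theorem adj_adj (X : Matrix M.I N.I (ZG G)) : adj N M (adj M N X) = X := by
  rw [adj, adj, conjTranspose_mul, conjTranspose_mul, conjTranspose_conjTranspose, sy_ct, M.mu_ct]
  simp only [Matrix.mul_smul, Matrix.smul_mul, eps_eps, Matrix.mul_assoc, N.e1, Matrix.mul_one]
  rw [← Matrix.mul_assoc, M.e1, Matrix.one_mul]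

theorem inv_rev (Γ : Geo2 G rev mv hull) : Inv G fun a b : P => b = rev a :=
  fun g a b (h : b = rev a) => (congrArg (g • ·) h).trans (Γ.re g a).symm

theorem Geo2.rev_inj (Γ : Geo2 G rev mv hull) {a b : P} (h : rev a = rev b) : a = b := by
  rw [← Γ.rr a, h, Γ.rr]

theorem mOn_sy (Γ : Geo2 G rev mv hull) {I : Type} {p : I → P} {φ : Matrix I I (ZG G)}
    (h : MOn p p (fun a b => b = rev a) φ) : MOn p p (fun a b => b = rev a) (sy ε φ) :=
  h.add (((h.ct (inv_rev Γ)).mono fun a b e => by rw [e, Γ.rr]).zsmul _)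

theorem mOn_adj (Γ : Geo2 G rev mv hull) {ρ : P → P → Prop} (hρ : Inv G ρ)
    {X : Matrix M.I N.I (ZG G)} (h : MOn M.p N.p ρ X) :
    MOn N.p M.p (fun b a => ρ (rev a) (rev b)) (adj M N X) :=
  (((mOn_sy Γ N.onφ).mul (h.ct hρ) fun g a b => hρ g b a).mul M.onμ (inv_rev Γ)).mono (by
    rintro b a ⟨c, ⟨d, rfl, h1⟩, rfl⟩
    rwa [Γ.rr])

theorem adj_mfil (Γ : Geo2 G rev mv hull) {ρ : P → P → Prop} (hρ : Inv G ρ)
    (X : Matrix M.I N.I (ZG G)) :
    adj M N (mfil M.p N.p ρ X) = mfil N.p M.p (fun b a => ρ (rev a) (rev b)) (adj M N X) := by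
  have h1 := mOn_adj Γ hρ (mOn_mfil M.p N.p ρ X)
  have h2 := mOn_adj Γ (ρ := fun a b => ¬ ρ a b) (fun g a b h e => h ((hρ.iff g a b).1 e))
    (mOn_mfil M.p N.p (fun a b => ¬ ρ a b) X)
  conv_rhs => rw [← mfil_add_not M.p N.p ρ X, adj_add]
  funext j
  have ad : ∀ A B : Matrix N.I M.I (ZG G), (A + B) j = A j + B j := fun _ _ => rfl
  rw [mfil_row, ad, map_add, (mOn_iff.1 h1 j).proj_eq,
    (mOn_iff.1 h2 j).proj_zero (S' := fun a => ρ (rev a) (rev (N.p j))) fun _ h => h, add_zero]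

theorem JJ.zero : JJ mv M N w 0 :=
  ⟨mOn_zero _ _ _, low2_zero, by rw [adj_zero]; exact low2_zero⟩

theorem JJ.add {X Y : Matrix M.I N.I (ZG G)} (hX : JJ mv M N w X) (hY : JJ mv M N w Y) :
    JJ mv M N w (X + Y) :=
  ⟨hX.1.add hY.1, hX.2.1.add hY.2.1, by rw [adj_add]; exact hX.2.2.add hY.2.2⟩

theorem JJ.neg {X : Matrix M.I N.I (ZG G)} (hX : JJ mv M N w X) : JJ mv M N w (-X) :=
  ⟨hX.1.neg, hX.2.1.neg, by rw [adj_neg]; exact hX.2.2.neg⟩

theorem JJ.mul (Γ : Geo2 G rev mv hull) {X : Matrix M.I N.I (ZG G)} {Y : Matrix N.I K.I (ZG G)}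
    (hX : JJ mv M N w X) (hY : JJ mv N K w' Y) : JJ mv M K (w + w') (X * Y) :=
  ⟨(hX.1.mul hY.1 Γ.inv).mono fun x z ⟨y, h1, h2⟩ => Γ.tr x y z h1 h2, hX.2.1.mul hY.2.1, by
    rw [adj_mul, add_comm]; exact hY.2.2.mul hX.2.2⟩

theorem JJ.anti (h : w ≤ w') {X : Matrix M.I N.I (ZG G)} (hX : JJ mv M N w' X) :
    JJ mv M N w X :=
  ⟨hX.1, hX.2.1.anti N.hF h, hX.2.2.anti M.hF h⟩

theorem JJ.adj (Γ : Geo2 G rev mv hull) {X : Matrix M.I N.I (ZG G)} (hX : JJ mv M N w X) :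
    JJ mv N M w (adj M N X) :=
  ⟨(mOn_adj Γ Γ.inv hX.1).mono fun b a h => by simpa only [Γ.rr] using Γ.sym _ _ h, hX.2.2, by
    rw [adj_adj]; exact hX.2.1⟩

theorem JJ.mfil (Γ : Geo2 G rev mv hull) {X : Matrix M.I N.I (ZG G)} (hX : JJ mv M N w X)
    {ρ : P → P → Prop} (hρ : Inv G ρ) : JJ mv M N w (mfil M.p N.p ρ X) :=
  ⟨hX.1.mfil ρ, hX.2.1.mfil M.hF N.hF hρ, by
    rw [adj_mfil Γ hρ]
    exact hX.2.2.mfil N.hF M.hF fun g a b h => by rw [Γ.re, Γ.re]; exact hρ g _ _ h⟩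

theorem JJ.eq_zero (h : k ≤ w) {X : Matrix M.I N.I (ZG G)} (hX : JJ mv M N w X) : X = 0 :=
  hX.2.1.eq_zero M.hF N.hF h

theorem JJ.inv_aux (Γ : Geo2 G rev mv hull) (n : ℕ) : ∀ w, 1 ≤ w → k ≤ w + n →
    ∀ U : Matrix M.I M.I (ZG G), JJ mv M M w U →
      ∃ U', JJ mv M M w U' ∧ (1 + U) * (1 + U') = 1 ∧ (1 + U') * (1 + U) = 1 := by
  induction n with
  | zero =>
    intro w hw hk U hU
    exact ⟨0, JJ.zero, by simp [hU.eq_zero hk], by simp [hU.eq_zero hk]⟩
  | succ n ih =>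
    intro w hw hk U hU
    obtain ⟨V, hV, e1, e2⟩ := ih (w + 1) (by omega) (by omega) (-(U * U))
      ((hU.mul Γ hU).neg.anti (by omega))
    have c1 : (1 + U) * (1 - U) = 1 + -(U * U) := by noncomm_ring
    have c2 : (1 - U) * (1 + U) = 1 + -(U * U) := by noncomm_ring
    have r : (1 + U) * ((1 - U) * (1 + V)) = 1 := by rw [← mul_assoc, c1, e1]
    have l : (1 + V) * (1 - U) * (1 + U) = 1 := by rw [mul_assoc, c2, e2]
    have e : (1 + V) * (1 - U) = (1 - U) * (1 + V) := left_inv_eq_right_inv l r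
    have f : (1 - U) * (1 + V) = 1 + (-U + V + -U * V) := by noncomm_ring
    refine ⟨-U + V + -U * V, (hU.neg.add (hV.anti (by omega))).add
      ((hU.neg.mul Γ hV).anti (by omega)), by rw [← f, r], by rw [← f, ← e, l]⟩

theorem JJ.inv (Γ : Geo2 G rev mv hull) (hw : 1 ≤ w) {U : Matrix M.I M.I (ZG G)}
    (hU : JJ mv M M w U) :
    ∃ U', JJ mv M M w U' ∧ (1 + U) * (1 + U') = 1 ∧ (1 + U') * (1 + U) = 1 :=
  JJ.inv_aux Γ k w hw (by omega) U hU

theorem JJ.isUnit (Γ : Geo2 G rev mv hull) (hw : 1 ≤ w) {U : Matrix M.I M.I (ZG G)}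
    (hU : JJ mv M M w U) : IsUnit (1 + U) := by
  obtain ⟨U', -, e1, e2⟩ := hU.inv Γ hw
  exact ⟨⟨_, _, e1, e2⟩, rfl⟩

/-- all perturbations of level `w` are stably hyperbolic -/
def PZ (G : Type) [Group G] {P : Type} [MulAction G P] (rev : P → P) (ε : ℤˣ) (k : ℕ)
    (mv : P → P → Prop) (w : ℕ) : Prop :=
  ∀ (M N : Obj G rev ε k) (X : Matrix M.I N.I (ZG G)), JJ mv M N w X →
    Z ε (M.φ + X * N.φ * Xᴴ)

/-- two matrices that are nilpotent along every sequence of positions -/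
def Nil2 {I J Q : Type} [Fintype I] [Fintype J] [MulAction G Q] (p : I → P) (q : J → Q)
    (X : Matrix I J (ZG G)) (Y : Matrix J I (ZG G)) : Prop :=
  ∃ F F' k, Filt p F k ∧ Filt q F' k ∧ Low2 F F' 1 X ∧ Low2 F' F 1 Y

/-- the local systems attached to `σ` and `τ` are stably hyperbolic -/
def LocZ (G : Type) [Group G] {P : Type} [MulAction G P] (rev : P → P) (ε : ℤˣ) (σ τ η : P) :
    Prop :=
  ∀ (J : Type) [Fintype J] [DecidableEq J] (A B : Matrix J J (ZG G)),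
    (∀ i j g, (A i j).coeff g ≠ 0 → g • τ = rev τ) →
    (∀ i j g, (B i j).coeff g ≠ 0 → g • σ = rev σ) →
    Nil2 (fun _ : J => η) (fun _ : J => rev η) (sy ε A) (sy ε B) → Z ε (fromBlocks A 1 0 B)

end Pool.Agent.Work.MP_9d1ffa_al
end

-- merged part: Pool.Agent.Work.MP_9d1ffa_al.UNil2
section
/-! Pairs of nilpotent matrices. -/

namespace Pool.Agent.Work.MP_9d1ffa_al

open Matrix MonoidAlgebra MulAction

set_option linter.unusedSectionVars false
set_option linter.unusedVariables false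

variable {G : Type} [Group G] {P Q : Type} [MulAction G P] [MulAction G Q] {I J I' J' : Type}
  [Fintype I] [DecidableEq I] [Fintype J] [DecidableEq J] [Fintype I'] [DecidableEq I']
  [Fintype J'] [DecidableEq J']

theorem Filt.coarse {p : I → P} {F : ℕ → Submodule (ZG G) (I → ZG G)} {k : ℕ} (h : Filt p F k)
    (f : P → Q) (hf : ∀ (g : G) a, f (g • a) = g • f a) : Filt (fun i => f (p i)) F k := by
  refine ⟨h.top, h.anti, h.bot, fun m σ x hx => ?_⟩
  have e : proj (fun i => f (p i)) (· = σ) x = proj p (fun a => f a = σ) x :=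
    vec_ext fun i g => by rw [coeff_proj, coeff_proj, hf]
  rw [e]
  exact h.proj_mem m _ hx

theorem UNil2_pl (p : I → P) (q : J → Q) (S : P ⊕ Q → Prop) (x : I ⊕ J → ZG G) :
    proj (Sum.map p q) S x ∘ Sum.inl = proj p (fun a => S (Sum.inl a)) (x ∘ Sum.inl) := rfl

theorem UNil2_pr (p : I → P) (q : J → Q) (S : P ⊕ Q → Prop) (x : I ⊕ J → ZG G) :
    proj (Sum.map p q) S x ∘ Sum.inr = proj q (fun a => S (Sum.inr a)) (x ∘ Sum.inr) := rfl

theorem UNil2_ext {x y : I ⊕ J → ZG G} (h1 : x ∘ Sum.inl = y ∘ Sum.inl)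
    (h2 : x ∘ Sum.inr = y ∘ Sum.inr) : x = y := by
  funext i
  cases i with
  | inl i => exact congrFun h1 i
  | inr i => exact congrFun h2 i

theorem UNil2_mul (X : Matrix I J (ZG G)) (Y : Matrix J I (ZG G)) (x : I ⊕ J → ZG G) :
    x ᵥ* fromBlocks 0 X Y 0 = Sum.elim ((x ∘ Sum.inr) ᵥ* Y) ((x ∘ Sum.inl) ᵥ* X) := by
  rw [vecMul_fromBlocks]
  simp

/-- extension by zero on the left -/
noncomputable def UNil2_L (G : Type) [Group G] (I J : Type) : (I → ZG G) →ₗ[ZG G] (I ⊕ J → ZG G) where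
  toFun x := Sum.elim x 0
  map_add' x y := by
    funext i
    cases i <;> simp
  map_smul' r x := by
    funext i
    cases i <;> simp

/-- extension by zero on the right -/
noncomputable def UNil2_R (G : Type) [Group G] (I J : Type) : (J → ZG G) →ₗ[ZG G] (I ⊕ J → ZG G) where
  toFun x := Sum.elim 0 x
  map_add' x y := by
    funext i
    cases i <;> simp
  map_smul' r x := by
    funext i
    cases i <;> simp

theorem nil2_iff {p : I → P} {q : J → Q} {X : Matrix I J (ZG G)} {Y : Matrix J I (ZG G)} :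
    Nil2 p q X Y ↔ NilP (Sum.map p q) (fromBlocks 0 X Y 0) := by
  constructor
  · rintro ⟨F, F', k, h1, h2, h3, h4⟩
    refine ⟨fun m => (F m).comap (LinearMap.funLeft (ZG G) (ZG G) Sum.inl) ⊓
      (F' m).comap (LinearMap.funLeft (ZG G) (ZG G) Sum.inr), k, ⟨?_, fun m x hx => ?_, ?_,
      fun m σ x hx => ?_⟩, fun m x hx => ?_⟩
    · simp [h1.top, h2.top]
    · exact ⟨h1.anti m hx.1, h2.anti m hx.2⟩
    · rw [eq_bot_iff, h1.bot, h2.bot]
      exact fun x hx => UNil2_ext (y := 0) hx.1 hx.2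
    · exact ⟨h1.proj_mem m (fun a => Sum.inl a = σ) (x := x ∘ Sum.inl) hx.1,
        h2.proj_mem m (fun a => Sum.inr a = σ) (x := x ∘ Sum.inr) hx.2⟩
    · rw [UNil2_mul]
      exact ⟨h4 m (x ∘ Sum.inr) hx.2, h3 m (x ∘ Sum.inl) hx.1⟩
  · rintro ⟨Z, k, h1, h2⟩
    refine ⟨fun m => (Z m).comap (UNil2_L G I J), fun m => (Z m).comap (UNil2_R G I J), k,
      ⟨by simp [h1.top], fun m x hx => h1.anti m hx, ?_, fun m σ x hx => ?_⟩,
      ⟨by simp [h1.top], fun m x hx => h1.anti m hx, ?_, fun m σ x hx => ?_⟩,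
      fun m x hx => ?_, fun m x hx => ?_⟩
    · rw [eq_bot_iff, h1.bot]
      exact fun x hx => funext fun i => congrFun hx (Sum.inl i)
    · have e : UNil2_L G I J (proj p (· = σ) x) =
          proj (Sum.map p q) (· = Sum.inl σ) (UNil2_L G I J x) := by
        refine UNil2_ext ?_ ?_
        · rw [UNil2_pl]
          simp only [Sum.inl.injEq]
          rfl
        · rw [UNil2_pr]
          exact (map_zero _).symm
      rw [Submodule.mem_comap, e]
      exact h1.gr m _ _ hx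
    · rw [eq_bot_iff, h1.bot]
      exact fun x hx => funext fun i => congrFun hx (Sum.inr i)
    · have e : UNil2_R G I J (proj q (· = σ) x) =
          proj (Sum.map p q) (· = Sum.inr σ) (UNil2_R G I J x) := by
        refine UNil2_ext ?_ ?_
        · rw [UNil2_pl]
          exact (map_zero _).symm
        · rw [UNil2_pr]
          simp only [Sum.inr.injEq]
          rfl
      rw [Submodule.mem_comap, e]
      exact h1.gr m _ _ hx
    · have := h2 m _ hx
      rw [UNil2_mul] at this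
      have e : (UNil2_L G I J x ∘ Sum.inr) ᵥ* Y = 0 := Matrix.zero_vecMul Y
      rw [e] at this
      exact this
    · have := h2 m _ hx
      rw [UNil2_mul] at this
      have e : (UNil2_R G I J x ∘ Sum.inl) ᵥ* X = 0 := Matrix.zero_vecMul X
      rw [e] at this
      exact this

theorem Nil2.nilP {p : I → P} {q : J → P} {X : Matrix I J (ZG G)} {Y : Matrix J I (ZG G)}
    (h : Nil2 p q X Y) : NilP (Sum.elim p q) (fromBlocks 0 X Y 0) := by
  obtain ⟨Z, k, h1, h2⟩ := nil2_iff.1 h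
  have h3 := h1.coarse (Sum.elim id id : P ⊕ P → P) fun g a => by cases a <;> rfl
  have e : (fun i => (Sum.elim id id : P ⊕ P → P) (Sum.map p q i)) = Sum.elim p q := by
    funext i
    cases i <;> rfl
  rw [e] at h3
  exact ⟨Z, k, h3, h2⟩

theorem Nil2.zsmul {p : I → P} {q : J → Q} {X : Matrix I J (ZG G)} {Y : Matrix J I (ZG G)}
    (h : Nil2 p q X Y) (a b : ℤ) : Nil2 p q (a • X) (b • Y) := by
  obtain ⟨F, F', k, h1, h2, h3, h4⟩ := h
  exact ⟨F, F', k, h1, h2, h3.zsmul a, h4.zsmul b⟩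

/-- the diagonal sum of two relations -/
def UNil2_D (ρ ρ' : P → P → Prop) : P ⊕ P → P ⊕ P → Prop
  | Sum.inl a, Sum.inl b => ρ a b
  | Sum.inr a, Sum.inr b => ρ' a b
  | _, _ => False

/-- the antidiagonal sum of two relations -/
def UNil2_A (β β' : P → P → Prop) : P ⊕ P → P ⊕ P → Prop
  | Sum.inl a, Sum.inr b => β a b
  | Sum.inr a, Sum.inl b => β' a b
  | _, _ => False

theorem nil2_transfer (p : I → P) (p' : I' → P) (r : J → P) (r' : J' → P)
    (ρ β ρ' β' : P → P → Prop) (hρ : Inv G ρ) (hβ : Inv G β) (hρ' : Inv G ρ') (hβ' : Inv G β')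
    (u : Matrix I J (ZG G)) (v : Matrix J I' (ZG G)) (u' : Matrix I' J' (ZG G))
    (v' : Matrix J' I (ZG G)) (hu : MOn p r ρ u) (hv : MOn r p' β v) (hu' : MOn p' r' ρ' u')
    (hv' : MOn r' p β' v') (hf : ∀ a b c, β a b → β a c → b = c)
    (hf' : ∀ a b c, β' a b → β' a c → b = c)
    (hi : ∀ a b c e, ρ a b → ρ a c → β b e → β c e → b = c)
    (hi' : ∀ a b c e, ρ' a b → ρ' a c → β' b e → β' c e → b = c)
    (h : Nil2 p p' (u * v) (u' * v')) : Nil2 r r' (v * u') (v' * u) := by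
  rw [nil2_iff] at h ⊢
  have e1 : fromBlocks 0 (u * v) (u' * v') 0 = fromBlocks u 0 0 u' * fromBlocks 0 v v' 0 := by
    simp [fromBlocks_multiply]
  have e2 : fromBlocks 0 (v * u') (v' * u) 0 = fromBlocks 0 v v' 0 * fromBlocks u 0 0 u' := by
    simp [fromBlocks_multiply]
  rw [e1] at h
  rw [e2]
  refine nilP_transfer (Sum.map p p') (Sum.map r r') (UNil2_D ρ ρ') (UNil2_A β β') ?_ ?_ _ _ ?_ ?_
    ?_ ?_ h
  · rintro g (a | a) (b | b) k
    exacts [hρ g a b k, k, k, hρ' g a b k]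
  · rintro g (a | a) (b | b) k
    exacts [k, hβ g a b k, hβ' g a b k, k]
  · rintro (i | i) (j | j) g k
    · exact hu i j g k
    · simp at k
    · simp at k
    · exact hu' i j g k
  · rintro (i | i) (j | j) g k
    · simp at k
    · exact hv i j g k
    · exact hv' i j g k
    · simp at k
  · rintro (a | a) (b | b) (c | c) k1 k2
    exacts [k1.elim, k1.elim, k2.elim, congrArg _ (hf a b c k1 k2),
      congrArg _ (hf' a b c k1 k2), k2.elim, k1.elim, k1.elim]
  · rintro (a | a) (b | b) (c | c) (e | e) k1 k2 k3 k4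
    exacts [k3.elim, congrArg _ (hi a b c e k1 k2 k3 k4), k2.elim, k2.elim, k1.elim, k1.elim,
      k1.elim, k1.elim, k1.elim, k1.elim, k1.elim, k1.elim, k2.elim, k2.elim,
      congrArg _ (hi' a b c e k1 k2 k3 k4), k3.elim]

theorem UNil2_step (p : I → P) (q : J → Q) (ρ : P → Q → Prop) (β : Q → P → Prop)
    (hρ : Inv G ρ) (hβ : Inv G β) (u : Matrix I J (ZG G)) (b : Matrix J I (ZG G))
    (hu : MOn p q ρ u) (hb : MOn q p β b) (hf : ∀ a b c, β a b → β a c → b = c)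
    (hi : ∀ a b c e, ρ a b → ρ a c → β b e → β c e → b = c)
    {X : ℕ → Submodule (ZG G) (I → ZG G)} {k : ℕ} (hX : Filt p X k) (hL : Low X 1 (u * b))
    (m : ℕ) {x : I → ZG G} (hx : x ∈ X m) : x ᵥ* u ∈ NilT_pull q b (X (m + 1)) := by
  refine mem_of_proj p (N := (NilT_pull q b (X (m + 1))).toAddSubmonoid.comap
    (Matrix.vecMulLinear u).toAddMonoidHom) (x := x) fun σ τ' => ?_
  change proj q (· = τ') (proj p (· = σ) x ᵥ* u) ᵥ* b ∈ X (m + 1)
  have hy := hX.gr m σ x hx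
  have h1 := vOn_proj p (· = σ) x
  generalize proj p (· = σ) x = y at hy h1
  have h2 := h1.vecMul_eq hu hρ
  have h3 := (vOn_proj q (· = τ') (y ᵥ* u)).vecMul_eq hb hβ
  by_cases e2 : ∃ σ', β τ' σ'
  swap
  · rw [(h3.mono fun a ha => e2 ⟨a, ha⟩).eq_zero]
    exact zero_mem _
  obtain ⟨σ', hσ'⟩ := e2
  by_cases e3 : ρ σ τ'
  swap
  · rw [h2.proj_zero (S' := (· = τ')) fun a ha e => e3 (e ▸ ha)]
    simp
  have h4 := (((h2.proj fun a => ¬ a = τ').and (vOn_proj q _ _)).vecMul hb hβ).proj_zero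
    (S' := (· = σ')) fun a ⟨c, hc, hc'⟩ e => hc.2 (hi σ c τ' σ' hc.1 e3 (e ▸ hc') hσ')
  have h5 := hX.gr (m + 1) σ' _ (hL m y hy)
  rwa [← Matrix.vecMul_vecMul, ← proj_add_not q (· = τ') (y ᵥ* u), Matrix.add_vecMul, map_add,
    h4, add_zero, (h3.mono fun a ha => hf τ' a σ' ha hσ').proj_eq] at h5

theorem nil2_of_nilP (p : I → P) (q : J → Q) (ρ : P → Q → Prop) (β : Q → P → Prop)
    (hρ : Inv G ρ) (hβ : Inv G β) (u : Matrix I J (ZG G)) (b : Matrix J I (ZG G))
    (hu : MOn p q ρ u) (hb : MOn q p β b) (hf : ∀ a b c, β a b → β a c → b = c)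
    (hi : ∀ a b c e, ρ a b → ρ a c → β b e → β c e → b = c) (h : NilP p (u * b)) :
    Nil2 p q u b := by
  obtain ⟨X, k, hX, hL⟩ := h
  have hY : Filt q (fun m => if m ≤ k then NilT_pull q b (X m) else ⊥) (k + 1) := by
    refine ⟨?_, fun m => ?_, by simp, fun m σ x hx => ?_⟩
    · rw [if_pos (Nat.zero_le k), eq_top_iff]
      exact fun x _ τ => by rw [hX.top]; trivial
    · by_cases e : m + 1 ≤ k
      · rw [if_pos e, if_pos (by omega)]
        exact fun x hx τ => hX.anti m (hx τ)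
      · rw [if_neg e]
        exact bot_le
    · by_cases e : m ≤ k
      · simp only [if_pos e] at hx ⊢
        exact NilT_gr hx σ
      · simp only [if_neg e, Submodule.mem_bot] at hx ⊢
        simp [hx]
  have h1 : ∀ m, ∀ y ∈ (if m ≤ k then NilT_pull q b (X m) else ⊥), y ᵥ* b ∈ X m := by
    intro m y hy
    by_cases e : m ≤ k
    · rw [if_pos e] at hy
      exact mem_of_proj q (N := (X m).toAddSubmonoid.comap
        (Matrix.vecMulLinear b).toAddMonoidHom) (x := y) hy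
    · rw [if_neg e, Submodule.mem_bot] at hy
      rw [hy, Matrix.zero_vecMul]
      exact zero_mem _
  have h2 : ∀ m, ∀ x ∈ X m,
      x ᵥ* u ∈ (if m + 1 ≤ k then NilT_pull q b (X (m + 1)) else ⊥) := by
    intro m x hx
    by_cases e : m + 1 ≤ k
    · rw [if_pos e]
      exact UNil2_step p q ρ β hρ hβ u b hu hb hf hi hX hL m hx
    · have := hX.antitone (show k ≤ m by omega) hx
      rw [hX.bot, Submodule.mem_bot] at this
      rw [this, Matrix.zero_vecMul]
      exact zero_mem _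
  generalize hYd : (fun m => if m ≤ k then NilT_pull q b (X m) else ⊥) = Y at hY
  have h1' : ∀ m, ∀ y ∈ Y m, y ᵥ* b ∈ X m := hYd ▸ h1
  have h2' : ∀ m, ∀ x ∈ X m, x ᵥ* u ∈ Y (m + 1) := hYd ▸ h2
  refine ⟨fun j => X (j / 2), fun j => Y ((j + 1) / 2), 2 * k + 2,
    ⟨hX.top, fun m => hX.antitone (by omega), ?_, fun m => hX.gr _⟩,
    ⟨hY.top, fun m => hY.antitone (by omega), ?_, fun m => hY.gr _⟩,
    fun m x hx => ?_, fun m x hx => h1' _ x hx⟩
  · rw [eq_bot_iff, ← hX.bot]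
    exact hX.antitone (by omega)
  · rw [eq_bot_iff, ← hY.bot]
    exact hY.antitone (by omega)
  · have e : (m + 1 + 1) / 2 = m / 2 + 1 := by omega
    beta_reduce
    rw [e]
    exact h2' _ x hx

end Pool.Agent.Work.MP_9d1ffa_al
end

-- merged part: Pool.Agent.Work.MP_9d1ffa_al.UWit
section
/-! A nilpotent perturbation of a hyperbolic form comes from a map of filtered forms. -/

namespace Pool.Agent.Work.MP_9d1ffa_al

open Matrix MonoidAlgebra MulAction

set_option linter.unusedSectionVars false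
set_option linter.unusedVariables false

variable {G : Type} [Group G] {P : Type} [MulAction G P] {rev : P → P} {mv : P → P → Prop}
  {hull : P → P → P} {ε : ℤˣ} {k : ℕ}
  {I : Type} [Fintype I] [DecidableEq I]

theorem UWit_on {Q : Type} [MulAction G Q] (r : Q → Q) (rr : ∀ a, r (r a) = a) (p : I → Q)
    (m n : ℤ) : MOn (Sum.elim p fun i => r (p i)) (Sum.elim p fun i => r (p i))
      (fun a b => b = r a) (fromBlocks 0 (m • 1) (n • 1) 0 : Matrix (I ⊕ I) (I ⊕ I) (ZG G)) := by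
  rintro (i | i) (j | j) g e
  · simp at e
  · have h := (mOn_one (G := G) fun i => r (p i)).zsmul m i j g e
    exact h.symm
  · have h := (mOn_one (G := G) p).zsmul n i j g e
    exact h.symm.trans (rr _).symm
  · simp at e

theorem UWit_sy (ε : ℤˣ) (I : Type) [DecidableEq I] :
    sy ε (hypF (ZG G) I) = fromBlocks 0 ((1 : ℤ) • 1) ((ε : ℤ) • 1) 0 := by
  simp [hypF, sy_blocks, sy_zero]

/-- a matrix factors through the set of its terms -/
theorem UWit_fac {K : Type} [Fintype K] [DecidableEq K] (ψ : Matrix K K (ZG G)) :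
    ∃ (L : Type) (_ : Fintype L) (_ : DecidableEq L) (s t : L → K) (γ : L → G)
      (X1 X2 : Matrix K L (ZG G)), (∀ x, (ψ (s x) (t x)).coeff (γ x) ≠ 0) ∧
      (∀ k x g, (X1 k x).coeff g ≠ 0 → k = s x ∧ g = 1) ∧
      (∀ k x g, (X2 k x).coeff g ≠ 0 → k = t x ∧ g = (γ x)⁻¹) ∧ X1 * X2ᴴ = ψ := by
  classical
  refine ⟨Σ x : K × K, (ψ x.1 x.2).coeff.support, inferInstance, inferInstance,
    fun x => x.1.1, fun x => x.1.2, fun x => x.2,
    Matrix.of fun k x => if k = x.1.1 then single 1 ((ψ x.1.1 x.1.2).coeff x.2) else 0,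
    Matrix.of fun k x => if k = x.1.2 then single (x.2 : G)⁻¹ 1 else 0,
    fun x => Finsupp.mem_support_iff.1 x.2.2, fun k x g e => ?_, fun k x g e => ?_, ?_⟩
  · simp only [Matrix.of_apply] at e
    split_ifs at e with h
    · exact ⟨h, (Machine_single_ne e).1⟩
    · simp at e
  · simp only [Matrix.of_apply] at e
    split_ifs at e with h
    · exact ⟨h, (Machine_single_ne e).1⟩
    · simp at e
  · funext k l
    rw [Matrix.mul_apply, Fintype.sum_sigma, Finset.sum_eq_single (k, l)]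
    · refine Eq.trans (Finset.sum_congr rfl fun g _ => ?_)
        (Machine_sum_single (ψ k l) _ fun g e => Finsupp.mem_support_iff.2 e)
      simp only [Matrix.of_apply, conjTranspose_apply, if_true, star_single, inv_inv,
        single_mul_single, one_mul, mul_one]
    · rintro ⟨k', l'⟩ _ hk
      refine Finset.sum_eq_zero fun g _ => ?_
      simp only [Matrix.of_apply, conjTranspose_apply]
      by_cases h1 : k = k'
      · have h2 : l ≠ l' := fun h2 => hk (by rw [h1, h2])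
        rw [if_neg h2, star_zero, mul_zero]
      · rw [if_neg h1, zero_mul]
    · intro hb
      exact absurd (Finset.mem_univ _) hb

/-- the hyperbolic form as a filtered form -/
noncomputable def hypObj (Γ : Geo2 G rev mv hull) (ε : ℤˣ) (p : I → P)
    (F : ℕ → Submodule (ZG G) (I ⊕ I → ZG G)) (hF : Filt (Sum.elim p fun i => rev (p i)) F k) :
    Obj G rev ε k where
  I := I ⊕ I
  p := Sum.elim p fun i => rev (p i)
  φ := hypF (ZG G) I
  μ := fromBlocks 0 ((ε : ℤ) • 1) 1 0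
  F := F
  hF := hF
  onφ := by simpa only [one_smul, zero_smul, hypF] using UWit_on (G := G) rev Γ.rr p 1 0
  onμ := by simpa only [one_smul] using UWit_on (G := G) rev Γ.rr p ε 1
  e1 := by
    rw [UWit_sy, fromBlocks_multiply]
    simp only [one_smul, Matrix.zero_mul, Matrix.mul_zero, Matrix.mul_one, Matrix.smul_mul,
      Matrix.one_mul, eps_eps, add_zero, zero_add, fromBlocks_one]
  e2 := by
    rw [UWit_sy, fromBlocks_multiply]
    simp only [one_smul, Matrix.zero_mul, Matrix.mul_zero, Matrix.mul_one, Matrix.smul_mul,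
      Matrix.one_mul, eps_eps, add_zero, zero_add, fromBlocks_one]
  z := z_hyp I

theorem witness (Γ : Geo2 G rev mv hull) (hP : ∀ k, PZ G rev ε k mv 1) (p : I → P)
    (ψ : Matrix (I ⊕ I) (I ⊕ I) (ZG G))
    (hψ : MOn (Sum.elim p fun i => rev (p i)) (Sum.elim p fun i => rev (p i))
      (fun a b => mv a (rev b)) ψ)
    (hn : NilP (Sum.elim p fun i => rev (p i)) (sy ε ψ * fromBlocks 0 ((ε : ℤ) • 1) 1 0)) :
    Z ε (hypF (ZG G) I + ψ) := by
  obtain ⟨L, _, _, s, t, γ, X1, X2, h0, h1, h2, h3⟩ := UWit_fac ψ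
  let Pk : I ⊕ I → P := Sum.elim p fun i => rev (p i)
  let q0 : L → P × P := fun x => (Pk (s x), rev (γ x • Pk (t x)))
  let r : P × P → P × P := fun τ => (rev τ.2, rev τ.1)
  let qf : L ⊕ L → P × P := Sum.elim q0 fun x => r (q0 x)
  let q : L → P := fun x => hull (q0 x).1 (q0 x).2
  have hm : ∀ x, mv (q0 x).1 (q0 x).2 := fun x => hψ _ _ _ (h0 x)
  have hX : fromCols X1 X2 * hypF (ZG G) L * (fromCols X1 X2)ᴴ = ψ := by
    rw [hypF, fromCols_mul_fromBlocks, conjTranspose_fromCols_eq_fromRows_conjTranspose,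
      fromCols_mul_fromRows]
    simpa using h3
  have hρ : Inv G fun (σ : P) (τ : P × P) => τ.1 = σ := fun g a b e => congrArg (g • ·) e
  have hβ : Inv G fun (τ : P × P) (σ : P) => σ = τ.2 := fun g a b e => congrArg (g • ·) e
  have hu : MOn Pk qf (fun σ τ => τ.1 = σ) (fromCols X1 X2) := by
    rintro k (x | x) g e
    · obtain ⟨rfl, rfl⟩ := h1 k x g e
      rw [one_smul]
      rfl
    · obtain ⟨rfl, rfl⟩ := h2 k x g e
      show (γ x)⁻¹ • rev (rev (γ x • Pk (t x))) = Pk (t x)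
      rw [Γ.rr, inv_smul_smul]
  have hH : MOn qf qf (fun a b => b = r a) (sy ε (hypF (ZG G) L)) := by
    rw [UWit_sy]
    exact UWit_on r (fun a => Prod.ext (Γ.rr _) (Γ.rr _)) q0 _ _
  have hμ : MOn Pk Pk (fun a b => b = rev a)
      (fromBlocks 0 ((ε : ℤ) • 1) 1 0 : Matrix (I ⊕ I) (I ⊕ I) (ZG G)) := by
    simpa only [one_smul] using UWit_on (G := G) rev Γ.rr p ε 1
  have hb : MOn qf Pk (fun τ σ => σ = τ.2)
      (sy ε (hypF (ZG G) L) * (fromCols X1 X2)ᴴ * fromBlocks 0 ((ε : ℤ) • 1) 1 0) := by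
    refine ((hH.mul (hu.ct hρ) fun g a b => hρ g b a).mul hμ (inv_rev Γ)).mono ?_
    rintro a c ⟨_, ⟨_, rfl, rfl⟩, rfl⟩
    exact Γ.rr _
  have hXX : ∀ μ : Matrix (I ⊕ I) (I ⊕ I) (ZG G),
      fromCols X1 X2 * (sy ε (hypF (ZG G) L) * (fromCols X1 X2)ᴴ * μ) = sy ε ψ * μ := fun μ => by
    rw [← hX, sy_conj]
    simp only [Matrix.mul_assoc]
  obtain ⟨F, F', k, f1, f2, f3, f4⟩ := nil2_of_nilP Pk qf _ _ hρ hβ _ _ hu hb
    (fun a b c e e' => e.trans e'.symm)
    (fun a b c e k1 k2 k3 k4 => Prod.ext (k1.trans k2.symm) (k3.symm.trans k4))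
    ((hXX _).symm ▸ hn)
  have f5 : Filt (Sum.elim q fun x => rev (q x)) F' k := by
    have := f2.coarse (fun τ => hull τ.1 τ.2) fun g a => Γ.eqv g _ _
    have e : (fun i => hull (qf i).1 (qf i).2) = Sum.elim q fun x => rev (q x) := by
      funext i
      rcases i with x | x
      · rfl
      · exact (Γ.rh _ _).symm
    exact e ▸ this
  have hmv : MOn Pk (Sum.elim q fun x => rev (q x)) mv (fromCols X1 X2) := by
    rintro k (x | x) g e
    · obtain ⟨rfl, rfl⟩ := h1 k x g e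
      rw [one_smul]
      exact Γ.hl _ _ (hm x)
    · obtain ⟨rfl, rfl⟩ := h2 k x g e
      have h4 := Γ.inv (γ x)⁻¹ _ _ (Γ.hl _ _ (Γ.sym _ _ (hm x)))
      rw [← Γ.rh] at h4
      have h5 : (γ x)⁻¹ • rev (q0 x).2 = Pk (t x) := by
        show (γ x)⁻¹ • rev (rev (γ x • Pk (t x))) = Pk (t x)
        rw [Γ.rr, inv_smul_smul]
      rw [h5] at h4
      exact h4
  have := hP k (hypObj Γ ε p F f1) (hypObj Γ ε q F' f5) (fromCols X1 X2) ⟨hmv, f3, f4⟩
  rw [← hX]
  exact this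

end Pool.Agent.Work.MP_9d1ffa_al
end

-- merged part: Pool.Agent.Work.MP_9d1ffa_al.URef
section
/-! Reduction of a single orbit to a local system. -/

namespace Pool.Agent.Work.MP_9d1ffa_al

open Matrix MonoidAlgebra MulAction

set_option linter.unusedSectionVars false
set_option linter.unusedVariables false

variable {G : Type} [Group G] {P : Type} [MulAction G P] {rev : P → P} {mv : P → P → Prop}
  {hull : P → P → P} {ε : ℤˣ} {k : ℕ}

/-- a matrix supported on one orbit factors through a basis located at the pair -/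
theorem URef_factor {I J : Type} [Fintype I] [DecidableEq I] [Fintype J] [DecidableEq J]
    {p : I → P} {q : J → P} {σ τ : P} {X : Matrix I J (ZG G)} (ho : MOn p q (Orb G σ τ) X) :
    ∃ (L : Type) (_ : Fintype L) (_ : DecidableEq L) (u : Matrix I L (ZG G))
      (v : Matrix L J (ZG G)), u * v = X ∧ MOn p (fun _ : L => σ) Eq u ∧
        MOn (fun _ : L => τ) q Eq v := by
  classical
  let L := Σ x : I × J, (X x.1 x.2).coeff.support
  have hd : ∀ t : L, ∃ γ : G, p t.1.1 = γ • σ ∧ (t.2 : G) • q t.1.2 = γ • τ := fun t =>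
    ho _ _ _ (Finsupp.mem_support_iff.1 t.2.2)
  choose γ h1 h2 using hd
  let u : Matrix I L (ZG G) := Matrix.of fun i t =>
    if i = t.1.1 then single (γ t) ((X t.1.1 t.1.2).coeff t.2) else 0
  let v : Matrix L J (ZG G) := Matrix.of fun t j =>
    if j = t.1.2 then single ((γ t)⁻¹ * t.2) 1 else 0
  refine ⟨L, inferInstance, inferInstance, u, v, ?_, ?_, ?_⟩
  · funext i j
    rw [Matrix.mul_apply, Fintype.sum_sigma, Finset.sum_eq_single (i, j)]
    · conv_rhs => rw [← Machine_sum_single (X i j) (X i j).coeff.support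
        fun g e => Finsupp.mem_support_iff.2 e]
      refine Finset.sum_congr rfl fun g _ => ?_
      simp only [u, v, Matrix.of_apply, if_true, single_mul_single, mul_inv_cancel_left, mul_one]
    · rintro ⟨i', j'⟩ _ hk
      refine Finset.sum_eq_zero fun g _ => ?_
      by_cases e : i = i'
      · have e' : ¬ j = j' := fun e' => hk (by rw [e, e'])
        simp only [v, Matrix.of_apply, if_neg e', mul_zero]
      · simp only [u, Matrix.of_apply, if_neg e, zero_mul]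
    · intro hb
      exact absurd (Finset.mem_univ _) hb
  · intro i t g e
    simp only [u, Matrix.of_apply] at e
    split_ifs at e with h
    · obtain ⟨rfl, -⟩ := Machine_single_ne e
      rw [h]
      exact h1 t
    · simp at e
  · intro t j g e
    simp only [v, Matrix.of_apply] at e
    split_ifs at e with h
    · obtain ⟨rfl, -⟩ := Machine_single_ne e
      rw [h, mul_smul, h2, inv_smul_smul]
    · simp at e

theorem URef_fix (Γ : Geo2 G rev mv hull) {a b : P} (h : mv a b) {γ γ' : G}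
    (e : γ • hull a b = γ' • hull a b) : γ • a = γ' • a ∧ γ • b = γ' • b := by
  have h1 : (γ'⁻¹ * γ) • hull a b = hull a b := by rw [mul_smul, e, inv_smul_smul]
  obtain ⟨h2, h3⟩ := Γ.stab a b h _ h1
  rw [mul_smul, inv_smul_eq_iff] at h2 h3
  exact ⟨h2, h3⟩

theorem URef_hf (Γ : Geo2 G rev mv hull) {σ τ : P} (h : mv σ τ) (a b c : P)
    (h1 : Orb G (hull σ τ) τ a b) (h2 : Orb G (hull σ τ) τ a c) : b = c := by
  obtain ⟨γ, rfl, rfl⟩ := h1
  obtain ⟨γ', e, rfl⟩ := h2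
  exact (URef_fix Γ h e).2

theorem URef_hi (Γ : Geo2 G rev mv hull) {σ τ : P} (h : mv σ τ) (a b c e : P)
    (h1 : Orb G σ (hull σ τ) a b) (h2 : Orb G σ (hull σ τ) a c)
    (h3 : Orb G (hull σ τ) τ b e) (h4 : Orb G (hull σ τ) τ c e) : b = c := by
  obtain ⟨γ₁, e₁, rfl⟩ := h1
  obtain ⟨γ₂, e₂, rfl⟩ := h2
  obtain ⟨δ₁, f₁, f₁'⟩ := h3
  obtain ⟨δ₂, f₂, f₂'⟩ := h4
  have g₁ := (URef_fix Γ h f₁).2
  have g₂ := (URef_fix Γ h f₂).2
  rw [← Γ.eqv, ← Γ.eqv, ← e₁, ← e₂, g₁, g₂, ← f₁', ← f₂']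

theorem URef_left {I L : Type} {p : I → P} {σ : P} {u : Matrix I L (ZG G)}
    (h : ∀ i t g, (u i t).coeff g ≠ 0 → p i = g • σ) (η : P) :
    MOn p (fun _ : L => η) (Orb G σ η) u := fun i t g e => ⟨g, h i t g e, rfl⟩

theorem URef_right {J L : Type} {q : J → P} {τ : P} {v : Matrix L J (ZG G)}
    (h : ∀ t j g, (v t j).coeff g ≠ 0 → g • q j = τ) (η : P) :
    MOn (fun _ : L => η) q (Orb G η τ) v := fun t j g e =>
  ⟨1, (one_smul _ _).symm, by rw [one_smul]; exact h t j g e⟩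

theorem refine_orb (Γ : Geo2 G rev mv hull) {σ τ : P} (h : mv σ τ)
    (hl : LocZ G rev ε σ τ (hull σ τ)) (M N : Obj G rev ε k) (X : Matrix M.I N.I (ZG G))
    (hX : JJ mv M N 1 X) (ho : MOn M.p N.p (Orb G σ τ) X) : Z ε (M.φ + X * N.φ * Xᴴ) := by
  obtain ⟨L, _, _, u, v, huv, hu, hv⟩ := URef_factor ho
  have iE : Inv G fun b a : P => a = b := fun g a b e => by rw [show b = a from e]
  have iR : Inv G fun b a : P => b = rev a := fun g a b e => inv_rev Γ g b a e
  have huc := hu.ct inv_eq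
  have hvc := hv.ct inv_eq
  have hadj : sy ε N.φ * vᴴ * (uᴴ * M.μ) = adj M N X := by
    rw [adj, ← huv, conjTranspose_mul]
    simp only [Matrix.mul_assoc]
  have hu' : ∀ j t g, ((sy ε N.φ * vᴴ) j t).coeff g ≠ 0 → N.p j = g • rev τ := fun j t g e => by
    obtain ⟨b, e1, e2⟩ := ((mOn_sy (ε := ε) Γ N.onφ).mul hvc iE) j t g e
    rw [← Γ.re, e2, e1, Γ.rr]
  have hv' : ∀ t i g, ((uᴴ * M.μ) t i).coeff g ≠ 0 → g • M.p i = rev σ := fun t i g e => by
    obtain ⟨b, e1, e2⟩ := (huc.mul M.onμ (inv_rev Γ)) t i g e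
    rw [e2, e1]
  have hn : Nil2 (fun _ : L => hull σ τ) (fun _ : L => rev (hull σ τ))
      (v * (sy ε N.φ * vᴴ)) (uᴴ * M.μ * u) := by
    rw [Γ.rh]
    refine nil2_transfer M.p N.p _ _ (Orb G σ (hull σ τ)) (Orb G (hull σ τ) τ)
      (Orb G (rev τ) (hull (rev τ) (rev σ))) (Orb G (hull (rev τ) (rev σ)) (rev σ))
      (inv_orb _ _) (inv_orb _ _) (inv_orb _ _) (inv_orb _ _) u v _ _ (URef_left hu _)
      (URef_right (fun t j g e => (hv t j g e).symm) _) (URef_left hu' _) (URef_right hv' _)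
      (URef_hf Γ h) (URef_hf Γ (Γ.sym _ _ h)) (URef_hi Γ h) (URef_hi Γ (Γ.sym _ _ h)) ?_
    rw [huv, hadj]
    exact ⟨M.F, N.F, k, M.hF, N.hF, hX.2.1, hX.2.2⟩
  have e0 : X * N.φ * Xᴴ = u * (v * N.φ * vᴴ) * uᴴ := by
    rw [← huv, conjTranspose_mul]
    simp only [Matrix.mul_assoc]
  rw [e0]
  refine z_refine M.e1 M.e2 M.z u _ ?_ (hl L _ _ ?_ ?_ ?_)
  · have e : u * sy ε (v * N.φ * vᴴ) * uᴴ * M.μ = X * adj M N X := by
      rw [sy_conj, ← hadj, ← huv]
      simp only [Matrix.mul_assoc]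
    rw [e]
    exact (hX.mul Γ (hX.adj Γ)).isUnit Γ (by norm_num)
  · intro i j g e
    obtain ⟨b, ⟨c, e1, e2⟩, e3⟩ := (((hv.mul N.onφ (inv_rev Γ)).mul hvc iE).neg) i j g e
    rw [e3, e2, ← e1]
  · intro i j g e
    obtain ⟨b, ⟨c, ⟨d, ⟨f, e1, e2⟩, e3⟩, e4⟩, e5⟩ :=
      ((((huc.mul M.onμ (inv_rev Γ)).mul M.onφ (inv_rev Γ)).mul (M.onμ.ct (inv_rev Γ)) iR).mul hu
        inv_eq) i j g e
    rw [← e5, ← Γ.rr b, ← e4, e3, e2, e1, Γ.rr]
  · have e1 : sy ε (-(v * N.φ * vᴴ)) = (-1 : ℤ) • (v * (sy ε N.φ * vᴴ)) := by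
      rw [sy_neg, sy_conj, neg_one_zsmul, Matrix.mul_assoc]
    have e2 : sy ε (uᴴ * M.μ * M.φ * M.μᴴ * u) = (ε : ℤ) • (uᴴ * M.μ * u) := by
      have : uᴴ * M.μ * M.φ * M.μᴴ * u = uᴴ * M.μ * M.φ * (uᴴ * M.μ)ᴴ := by
        rw [conjTranspose_mul, conjTranspose_conjTranspose]
        simp only [Matrix.mul_assoc]
      rw [this, sy_conj, conjTranspose_mul, conjTranspose_conjTranspose, Matrix.mul_assoc uᴴ, M.e2,
        Matrix.mul_one, M.mu_ct, Matrix.smul_mul, Matrix.mul_smul, Matrix.mul_assoc]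
    rw [e1, e2]
    exact hn.zsmul _ _

theorem locZ_of_not {σ τ η : P}
    (h : (¬ ∃ g : G, g • σ = rev σ) ∨ ¬ ∃ g : G, g • τ = rev τ) : LocZ G rev ε σ τ η := by
  intro J _ _ A B hA hB _
  rcases h with h | h
  · have e : B = 0 := mat_ext fun i j g => by
      by_contra e
      exact h ⟨g, hB i j g (by simpa using e)⟩
    rw [e]
    exact z_lag' A 1 0 1 (by simp) (by simp)
  · have e : A = 0 := mat_ext fun i j g => by
      by_contra e
      exact h ⟨g, hA i j g (by simpa using e)⟩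
    rw [e]
    exact z_lag 1 0 B 1 (by simp) (by simp)

end Pool.Agent.Work.MP_9d1ffa_al
end

-- merged part: Pool.Agent.Work.MP_9d1ffa_al.USum
section
/-! Sums and negatives of filtered forms. -/

namespace Pool.Agent.Work.MP_9d1ffa_al

open Matrix MonoidAlgebra MulAction

set_option linter.unusedSectionVars false
set_option linter.unusedVariables false

variable {G : Type} [Group G] {P : Type} [MulAction G P] {rev : P → P} {mv : P → P → Prop}
  {hull : P → P → P} {ε : ℤˣ} {k : ℕ}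

/-- the sum of two filtrations -/
noncomputable def usumF {I J : Type} (F : ℕ → Submodule (ZG G) (I → ZG G))
    (F' : ℕ → Submodule (ZG G) (J → ZG G)) (m : ℕ) : Submodule (ZG G) (I ⊕ J → ZG G) :=
  (F m).comap (LinearMap.funLeft _ _ Sum.inl) ⊓ (F' m).comap (LinearMap.funLeft _ _ Sum.inr)

theorem usum_mem {I J : Type} {F : ℕ → Submodule (ZG G) (I → ZG G)}
    {F' : ℕ → Submodule (ZG G) (J → ZG G)} {m : ℕ} {x : I ⊕ J → ZG G} :
    x ∈ usumF F F' m ↔ x ∘ Sum.inl ∈ F m ∧ x ∘ Sum.inr ∈ F' m := Iff.rfl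

theorem usum_filt {I J : Type} {p : I → P} {q : J → P} {F : ℕ → Submodule (ZG G) (I → ZG G)}
    {F' : ℕ → Submodule (ZG G) (J → ZG G)} (h : Filt p F k) (h' : Filt q F' k) :
    Filt (Sum.elim p q) (usumF F F') k where
  top := by
    rw [eq_top_iff]
    intro x _
    rw [usum_mem, h.top, h'.top]
    exact ⟨trivial, trivial⟩
  anti m x hx := ⟨h.anti m hx.1, h'.anti m hx.2⟩
  bot := by
    rw [eq_bot_iff]
    intro x hx
    rw [usum_mem, h.bot, h'.bot, Submodule.mem_bot, Submodule.mem_bot] at hx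
    rw [Submodule.mem_bot]
    funext i
    rcases i with i | i
    · exact congrFun hx.1 i
    · exact congrFun hx.2 i
  gr m σ x hx := ⟨h.gr m σ _ hx.1, h'.gr m σ _ hx.2⟩

theorem usum_mOn {I J : Type} {p : I → P} {q : J → P} {ρ : P → P → Prop}
    {A : Matrix I I (ZG G)} {B : Matrix J J (ZG G)} (hA : MOn p p ρ A) (hB : MOn q q ρ B) :
    MOn (Sum.elim p q) (Sum.elim p q) ρ (fromBlocks A 0 0 B) := by
  rintro (i | i) (j | j) g e
  · exact hA i j g e
  · simp at e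
  · simp at e
  · exact hB i j g e

/-- the sum of two filtered forms -/
noncomputable def usumObj (N N' : Obj G rev ε k) : Obj G rev ε k where
  I := N.I ⊕ N'.I
  p := Sum.elim N.p N'.p
  φ := fromBlocks N.φ 0 0 N'.φ
  μ := fromBlocks N.μ 0 0 N'.μ
  F := usumF N.F N'.F
  hF := usum_filt N.hF N'.hF
  onφ := usum_mOn N.onφ N'.onφ
  onμ := usum_mOn N.onμ N'.onμ
  e1 := by simp [sy_blocks, fromBlocks_multiply, N.e1, N'.e1]
  e2 := by simp [sy_blocks, fromBlocks_multiply, N.e2, N'.e2]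
  z := N.z.sum N'.z

/-- the negative of a filtered form -/
noncomputable def unegObj (N : Obj G rev ε k) : Obj G rev ε k where
  I := N.I
  p := N.p
  φ := -N.φ
  μ := -N.μ
  F := N.F
  hF := N.hF
  onφ := N.onφ.neg
  onμ := N.onμ.neg
  e1 := by rw [sy_neg, neg_mul_neg, N.e1]
  e2 := by rw [sy_neg, neg_mul_neg, N.e2]
  z := N.z.neg

theorem usum_adj (M N N' : Obj G rev ε k) (X : Matrix M.I N.I (ZG G))
    (X' : Matrix M.I N'.I (ZG G)) :
    adj M (usumObj N N') (fromCols X X') = fromRows (adj M N X) (adj M N' X') := by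
  show sy ε (fromBlocks N.φ 0 0 N'.φ) * (fromCols X X')ᴴ * M.μ = _
  rw [sy_blocks, conjTranspose_fromCols_eq_fromRows_conjTranspose, fromBlocks_mul_fromRows,
    fromRows_mul]
  simp [adj]

theorem exists_sum {M N N' : Obj G rev ε k} {w : ℕ} {X : Matrix M.I N.I (ZG G)}
    {X' : Matrix M.I N'.I (ZG G)} (hX : JJ mv M N w X) (hX' : JJ mv M N' w X') :
    ∃ (K : Obj G rev ε k) (Y : Matrix M.I K.I (ZG G)), JJ mv M K w Y ∧
      Y * K.φ * Yᴴ = X * N.φ * Xᴴ + X' * N'.φ * X'ᴴ := by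
  refine ⟨usumObj N N', fromCols X X', ⟨?_, ?_, ?_⟩, ?_⟩
  · rintro i (j | j) g e
    · exact hX.1 i j g e
    · exact hX'.1 i j g e
  · intro m x hx
    exact ⟨hX.2.1 m x hx, hX'.2.1 m x hx⟩
  · intro m y hy
    rw [usum_adj]
    have e := vecMul_fromRows (adj M N X) (adj M N' X') y
    exact e ▸ add_mem (hX.2.2 m _ hy.1) (hX'.2.2 m _ hy.2)
  · show fromCols X X' * fromBlocks N.φ 0 0 N'.φ * (fromCols X X')ᴴ = _
    rw [conjTranspose_fromCols_eq_fromRows_conjTranspose, fromCols_mul_fromBlocks,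
      fromCols_mul_fromRows]
    simp

theorem exists_neg {M N : Obj G rev ε k} {w : ℕ} {X : Matrix M.I N.I (ZG G)}
    (hX : JJ mv M N w X) :
    ∃ (K : Obj G rev ε k) (Y : Matrix M.I K.I (ZG G)), JJ mv M K w Y ∧
      Y * K.φ * Yᴴ = -(X * N.φ * Xᴴ) := by
  refine ⟨unegObj N, X, ⟨hX.1, hX.2.1, ?_⟩, ?_⟩
  · have e : adj M (unegObj N) X = -adj M N X := by
      show sy ε (-N.φ) * Xᴴ * M.μ = _
      rw [sy_neg, Matrix.neg_mul, Matrix.neg_mul, adj]
    rw [e]
    exact hX.2.2.neg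
  · show X * -N.φ * Xᴴ = _
    rw [Matrix.mul_neg, Matrix.neg_mul]

end Pool.Agent.Work.MP_9d1ffa_al
end

-- merged part: Pool.Agent.Work.MP_9d1ffa_al.ULazA
section
/-! Perturbations of a filtered form. -/

namespace Pool.Agent.Work.MP_9d1ffa_al

open Matrix MonoidAlgebra MulAction

set_option linter.unusedSectionVars false
set_option linter.unusedVariables false

variable {G : Type} [Group G] {P : Type} [MulAction G P] {rev : P → P} {mv : P → P → Prop}
  {hull : P → P → P} {ε : ℤˣ} {k : ℕ}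

/-- `ψ` is a perturbation of level `j` of the form of `M` -/
def Rep (mv : P → P → Prop) (M : Obj G rev ε k) (j : ℕ) (ψ : Matrix M.I M.I (ZG G)) : Prop :=
  ∃ (N : Obj G rev ε k) (U : Matrix M.I M.I (ZG G)) (X : Matrix M.I N.I (ZG G)),
    JJ mv M M j U ∧ JJ mv M N j X ∧ Eqv ε (M.φ + U * sy ε M.φ + X * N.φ * Xᴴ) ψ

variable {M N : Obj G rev ε k} {j w : ℕ} {ψ : Matrix M.I M.I (ZG G)}

theorem rep_absorb (Γ : Geo2 G rev mv hull) (hj : 1 ≤ j) (hP : PZ G rev ε k mv j)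
    (h : Rep mv M j ψ) : Z ε ψ := by
  obtain ⟨N, U, X, hU, hX, hψ⟩ := h
  obtain ⟨U', hU', e1, e2⟩ := hU.inv Γ hj
  have hU1 : JJ mv M M j (U + U' * U) := hU.add ((hU'.mul Γ hU).anti (by omega))
  have hX1 : JJ mv M N j (X + U' * X) := hX.add ((hU'.mul Γ hX).anti (by omega))
  obtain ⟨K0, Y0, hY0, f0⟩ := exists_neg hU1
  obtain ⟨K, Y, hY, f⟩ := exists_sum hY0 hX1
  have a1 : (1 + U) * (U + U' * U) = U := by
    rw [show U + U' * U = (1 + U') * U by noncomm_ring, ← mul_assoc, e1, one_mul]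
  have a2 : (1 + U) * (X + U' * X) = X := by
    rw [show X + U' * X = (1 + U') * X by rw [Matrix.add_mul, Matrix.one_mul],
      ← Matrix.mul_assoc, e1, Matrix.one_mul]
  have a3 : ∀ (L : Obj G rev ε k) (T : Matrix M.I L.I (ZG G)),
      (1 + U) * (T * L.φ * Tᴴ) * (1 + U)ᴴ = (1 + U) * T * L.φ * ((1 + U) * T)ᴴ := by
    intro L T
    simp only [conjTranspose_mul, Matrix.mul_assoc]
  refine Z.eqv (Eqv.trans ?_ hψ) (Z.iso (iso_conj _ e1 e2) (hP M K Y hY))
  have a4 : (1 + U) * (M.φ + Y * K.φ * Yᴴ) * (1 + U)ᴴ =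
      (U + 1) * M.φ * (U + 1)ᴴ + (-(U * M.φ * Uᴴ) + X * N.φ * Xᴴ) := by
    have d : ∀ g g' a b c : Matrix M.I M.I (ZG G),
        g * (a + (-b + c)) * g' = g * a * g' + (-(g * b * g') + g * c * g') := by
      intro g g' a b c
      noncomm_ring
    rw [f, f0, d, a3 M, a3 N, a1, a2, add_comm U 1]
  rw [a4]
  refine ((eqv_cross U 1 M.φ).symm.add (Eqv.refl _)).trans (Eqv.of_eq ?_)
  simp only [conjTranspose_one, Matrix.mul_one, Matrix.one_mul]
  abel

theorem rep_sy (Γ : Geo2 G rev mv hull) (h : Rep mv M j ψ) :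
    ∃ U, JJ mv M M j U ∧ sy ε ψ = (1 + U) * sy ε M.φ := by
  obtain ⟨N, U, X, hU, hX, hψ⟩ := h
  refine ⟨U + adj M M U + X * adj M N X,
    (hU.add (hU.adj Γ)).add ((hX.mul Γ (hX.adj Γ)).anti (by omega)), ?_⟩
  have a : sy ε (U * sy ε M.φ) = U * sy ε M.φ + sy ε M.φ * Uᴴ := by
    rw [sy, conjTranspose_mul, sy_ct, Matrix.smul_mul, eps_eps]
  rw [← hψ.sy_eq, sy_add, sy_add, sy_conj, a, Matrix.mul_assoc X, ← adj_mul_sy, ← adj_mul_sy,
    ← Matrix.mul_assoc X]
  noncomm_ring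

theorem rep_schur (Γ : Geo2 G rev mv hull) (hj : 1 ≤ j) (hw : 1 ≤ w) (h : Rep mv M j ψ)
    (hz : Z ε ψ) {X : Matrix M.I N.I (ZG G)} (hX : JJ mv M N w X) :
    ∃ ψ', Rep mv N (j + w) ψ' ∧
      (Z ε (ψ' + adj M N X * M.φ * (adj M N X)ᴴ) → Z ε (ψ + X * N.φ * Xᴴ)) := by
  obtain ⟨V, hV, eV⟩ := rep_sy Γ h
  obtain ⟨V', hV', e1, e2⟩ := hV.inv Γ hj
  obtain ⟨N0, U, X0, hU, hX0, hψ⟩ := h
  have h1 : sy ε ψ * (M.μ * (1 + V')) = 1 := by
    rw [eV, mul_assoc, ← mul_assoc _ M.μ, M.e1, one_mul, e1]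
  have h2 : M.μ * (1 + V') * sy ε ψ = 1 := by
    rw [eV, mul_assoc, ← mul_assoc _ (1 + V), e2, one_mul, M.e2]
  have hA : JJ mv N M w (adj M N X) := hX.adj Γ
  generalize eA : adj M N X = A at hA ⊢
  have eY : sy ε N.φ * Xᴴ * (M.μ * (1 + V')) = A + A * V' := by
    rw [← Matrix.mul_assoc, ← eA, adj, Matrix.mul_add, Matrix.mul_one]
  have hY' : JJ mv N M (w + j) (A * V') := hA.mul Γ hV'
  generalize A * V' = Y' at hY' eY
  have hY : JJ mv N M w (A + Y') := hA.add (hY'.anti (by omega))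
  have hu : IsUnit (1 + X * (sy ε N.φ * Xᴴ * (M.μ * (1 + V')))) := by
    rw [eY]
    exact (hX.mul Γ hY).isUnit Γ (by omega)
  obtain ⟨K, X', hX', f⟩ := exists_sum hY' (hY.mul Γ hX0)
  refine ⟨_, ⟨K, (A + Y') * U * adj N M (A + Y') + A * adj N M Y', X',
    (((hY.mul Γ hU).mul Γ (hY.adj Γ)).anti (by omega)).add
      ((hA.mul Γ (hY'.adj Γ)).anti (by omega)), hX'.anti (by omega), Eqv.refl _⟩, fun hz' => ?_⟩
  refine z_schur h1 h2 X hu hz N.z (Z.eqv ?_ hz')
  rw [eY]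
  refine Eqv.trans ?_ ((Eqv.refl N.φ).add (hψ.conj (A + Y')))
  have a : (A + Y') * (M.φ + U * sy ε M.φ + X0 * N0.φ * X0ᴴ) * (A + Y')ᴴ =
      (A + Y') * M.φ * (A + Y')ᴴ + ((A + Y') * U * adj N M (A + Y') * sy ε N.φ +
        (A + Y') * X0 * N0.φ * ((A + Y') * X0)ᴴ) := by
    generalize A + Y' = Y
    rw [Matrix.mul_assoc _ (adj N M Y), adj_mul_sy]
    simp only [conjTranspose_mul, Matrix.mul_add, Matrix.add_mul, Matrix.mul_assoc, add_assoc]
  rw [a]
  refine Eqv.trans (Eqv.of_eq ?_)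
    ((Eqv.refl N.φ).add ((eqv_cross A Y' M.φ).add (Eqv.refl _)))
  rw [f, add_mul, Matrix.mul_assoc A (adj N M Y'), adj_mul_sy, ← Matrix.mul_assoc A]
  abel

end Pool.Agent.Work.MP_9d1ffa_al
end

-- merged part: Pool.Agent.Work.MP_9d1ffa_al.ULazB
section
/-! Reduction to single orbits of pairs of positions. -/

namespace Pool.Agent.Work.MP_9d1ffa_al

open Matrix MonoidAlgebra MulAction

set_option linter.unusedSectionVars false
set_option linter.unusedVariables false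

variable {G : Type} [Group G] {P : Type} [MulAction G P] {rev : P → P} {mv : P → P → Prop}
  {hull : P → P → P} {ε : ℤˣ} {k : ℕ}

/-- the number of terms of a rectangular matrix -/
def ULazB_size {I J : Type} [Fintype I] [Fintype J] (a : Matrix I J (ZG G)) : ℕ :=
  ∑ t : I × J, (a t.1 t.2).coeff.support.card

theorem ULazB_size_lt {I J : Type} [Fintype I] [Fintype J] (p : I → P) (q : J → P)
    (ρ : P → P → Prop) (a : Matrix I J (ZG G)) (i : I) (j : J) (g : G)
    (hg : (a i j).coeff g ≠ 0) (hρ : ¬ ρ (p i) (g • q j)) :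
    ULazB_size (mfil p q ρ a) < ULazB_size a := by
  classical
  have hsub : ∀ i j, (mfil p q ρ a i j).coeff.support ⊆ (a i j).coeff.support := by
    intro i j g hg
    rw [Finsupp.mem_support_iff] at hg ⊢
    rw [coeff_mfil] at hg
    intro e
    simp [e] at hg
  refine Finset.sum_lt_sum (fun t _ => Finset.card_le_card (hsub t.1 t.2)) ⟨(i, j), by simp, ?_⟩
  refine Finset.card_lt_card ⟨hsub i j, fun h => ?_⟩
  have := h (Finsupp.mem_support_iff.2 hg)
  rw [Finsupp.mem_support_iff, coeff_mfil] at this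
  simp [hρ] at this

theorem ULazB_anti {M : Obj G rev ε k} {j j' : ℕ} (h : j ≤ j') {ψ : Matrix M.I M.I (ZG G)}
    (hψ : Rep mv M j' ψ) : Rep mv M j ψ := by
  obtain ⟨N, U, X, hU, hX, e⟩ := hψ
  exact ⟨N, U, X, hU.anti h, hX.anti h, e⟩

theorem ULazB_addU {M : Obj G rev ε k} {j : ℕ} {ψ V : Matrix M.I M.I (ZG G)}
    (hψ : Rep mv M j ψ) (hV : JJ mv M M j V) : Rep mv M j (ψ + V * sy ε M.φ) := by
  obtain ⟨N, U, X, hU, hX, e⟩ := hψ
  refine ⟨N, U + V, X, hU.add hV, hX, (Eqv.of_eq ?_).trans (e.add (Eqv.refl _))⟩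
  rw [Matrix.add_mul]
  abel

theorem ULazB_addX {M N : Obj G rev ε k} {j : ℕ} {ψ : Matrix M.I M.I (ZG G)}
    {Y : Matrix M.I N.I (ZG G)} (hψ : Rep mv M j ψ) (hY : JJ mv M N j Y) :
    Rep mv M j (ψ + Y * N.φ * Yᴴ) := by
  obtain ⟨N', U, X, hU, hX, e⟩ := hψ
  obtain ⟨K, W, hW, eW⟩ := exists_sum hX hY
  refine ⟨K, U, W, hU, hW, (Eqv.of_eq ?_).trans (e.add (Eqv.refl _))⟩
  rw [eW]
  abel

theorem ULazB_adj_orb (Γ : Geo2 G rev mv hull) {M N : Obj G rev ε k} {σ τ : P}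
    {X : Matrix M.I N.I (ZG G)} (hX : MOn M.p N.p (Orb G σ τ) X) :
    MOn N.p M.p (Orb G (rev τ) (rev σ)) (adj M N X) :=
  (mOn_adj Γ (inv_orb σ τ) hX).mono fun b a ⟨γ, e1, e2⟩ =>
    ⟨γ, by rw [← Γ.re, ← e2, Γ.rr], by rw [← Γ.re, ← e1, Γ.rr]⟩

theorem ULazB_PP (Γ : Geo2 G rev mv hull)
    (hloc : ∀ σ τ, mv σ τ → ∀ (M N : Obj G rev ε k) (X : Matrix M.I N.I (ZG G)),
      JJ mv M N 1 X → MOn M.p N.p (Orb G σ τ) X → Z ε (M.φ + X * N.φ * Xᴴ))
    {w : ℕ} (hw : 1 ≤ w) (hP : PZ G rev ε k mv (w + 1)) (n : ℕ) :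
    ∀ j, w + 1 ≤ j → k ≤ j + n → ∀ (M N : Obj G rev ε k) (σ τ : P), mv σ τ →
      ∀ X : Matrix M.I N.I (ZG G), JJ mv M N w X → MOn M.p N.p (Orb G σ τ) X →
        ∀ ψ, Rep mv M j ψ → Z ε (ψ + X * N.φ * Xᴴ) := by
  induction n with
  | zero =>
    intro j hj hk M N σ τ hm X hX hO ψ hψ
    obtain ⟨N', U, Y, hU, hY, e⟩ := hψ
    rw [hU.eq_zero hk, hY.eq_zero hk] at e
    simp only [Matrix.zero_mul, add_zero] at e
    exact Z.eqv (e.add (Eqv.refl _)) (hloc σ τ hm M N X (hX.anti hw) hO)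
  | succ n ih =>
    intro j hj hk M N σ τ hm X hX hO ψ hψ
    have hz : Z ε ψ := rep_absorb Γ (by omega) hP (ULazB_anti hj hψ)
    obtain ⟨ψ', h1, h2⟩ := rep_schur Γ (by omega) hw hψ hz hX
    exact h2 (ih (j + 1) (by omega) (by omega) N M (rev τ) (rev σ) (Γ.sym σ τ hm) _ (hX.adj Γ)
      (ULazB_adj_orb Γ hO) ψ' (ULazB_anti (by omega) h1))

theorem ULazB_D (Γ : Geo2 G rev mv hull)
    (hloc : ∀ σ τ, mv σ τ → ∀ (M N : Obj G rev ε k) (X : Matrix M.I N.I (ZG G)),
      JJ mv M N 1 X → MOn M.p N.p (Orb G σ τ) X → Z ε (M.φ + X * N.φ * Xᴴ))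
    {w : ℕ} (hw : 1 ≤ w) (hP : PZ G rev ε k mv (w + 1)) (M N : Obj G rev ε k) (n : ℕ) :
    ∀ (X : Matrix M.I N.I (ZG G)) (ψ : Matrix M.I M.I (ZG G)), ULazB_size X < n →
      JJ mv M N w X → Rep mv M (w + 1) ψ → Z ε (ψ + X * N.φ * Xᴴ) := by
  induction n with
  | zero => intro X ψ h; omega
  | succ n ih =>
    intro X ψ hn hX hψ
    by_cases h0 : X = 0
    · rw [h0, Matrix.zero_mul, Matrix.zero_mul, add_zero]
      exact rep_absorb Γ (by omega) hP hψ
    obtain ⟨i, j, g, hg⟩ : ∃ i j g, (X i j).coeff g ≠ 0 := by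
      by_contra hne
      push Not at hne
      exact h0 (mat_ext fun i j g => by simpa using hne i j g)
    have hO := inv_orb (G := G) (M.p i) (g • N.p j)
    have hO' : Inv G fun x y => ¬ Orb G (M.p i) (g • N.p j) x y :=
      fun γ x y h e => h ((hO.iff γ x y).1 e)
    have ha1 := hX.mfil Γ hO
    have ha2 := hX.mfil Γ hO'
    have hs := mfil_add_not M.p N.p (Orb G (M.p i) (g • N.p j)) X
    have hlt := ULazB_size_lt M.p N.p (fun x y => ¬ Orb G (M.p i) (g • N.p j) x y) X i j g hg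
      (fun h => h ⟨1, by simp, by simp⟩)
    have hon := mOn_mfil M.p N.p (Orb G (M.p i) (g • N.p j)) X
    have hm : mv (M.p i) (g • N.p j) := hX.1 i j g hg
    generalize mfil M.p N.p (Orb G (M.p i) (g • N.p j)) X = X₀ at ha1 hs hon
    generalize mfil M.p N.p (fun x y => ¬ Orb G (M.p i) (g • N.p j) x y) X = X₁ at ha2 hs hlt
    have r0 : Rep mv M (w + 1) (ψ + X₀ * adj M N X₁ * sy ε M.φ) :=
      ULazB_addU hψ ((ha1.mul Γ (ha2.adj Γ)).anti (by omega))
    have z1 := ih X₁ _ (by omega) ha2 r0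
    have r1 := ULazB_addX (ULazB_anti (Nat.le_succ w) r0) ha2
    obtain ⟨ψ', h1, h2⟩ := rep_schur Γ hw hw r1 z1 ha1
    have z2 := h2 (ULazB_PP Γ hloc hw hP k (w + 1) le_rfl (by omega) N M _ _ (Γ.sym _ _ hm) _
      (ha1.adj Γ) (ULazB_adj_orb Γ hon) ψ' (ULazB_anti (by omega) h1))
    refine Z.eqv ((Eqv.of_eq ?_).trans ((Eqv.refl ψ).add (eqv_cross X₀ X₁ N.φ))) z2 |> (hs ▸ ·)
    rw [Matrix.mul_assoc X₀ (adj M N X₁), adj_mul_sy, ← Matrix.mul_assoc]
    abel

theorem laz_main (Γ : Geo2 G rev mv hull)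
    (hloc : ∀ σ τ, mv σ τ → ∀ (M N : Obj G rev ε k) (X : Matrix M.I N.I (ZG G)),
      JJ mv M N 1 X → MOn M.p N.p (Orb G σ τ) X → Z ε (M.φ + X * N.φ * Xᴴ)) :
    PZ G rev ε k mv 1 := by
  have key : ∀ n w : ℕ, 1 ≤ w → k ≤ w + n → PZ G rev ε k mv w := by
    intro n
    induction n with
    | zero =>
      intro w hw hk M N X hX
      rw [hX.eq_zero hk, Matrix.zero_mul, Matrix.zero_mul, add_zero]
      exact M.z
    | succ n ih =>
      intro w hw hk M N X hX
      exact ULazB_D Γ hloc hw (ih (w + 1) (by omega) (by omega)) M N _ X M.φ (Nat.lt_succ_self _)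
        hX ⟨M, 0, 0, JJ.zero, JJ.zero, Eqv.of_eq (by simp)⟩
  exact key k 1 le_rfl (by omega)

end Pool.Agent.Work.MP_9d1ffa_al
end

-- merged part: Pool.Agent.Work.MP_9d1ffa_al.UGeo
section
/-! Directed segments in a tree, for quadratic forms. -/

namespace Pool.Agent.Work.MP_9d1ffa_al

open Matrix MonoidAlgebra MulAction

set_option linter.unusedSectionVars false
set_option linter.unusedVariables false

open Pool.Agent.Work.MP_904812_al

variable {G : Type} [Group G] {V : Type} [MulAction G V] {d : V → V → ℤ}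

/-- the directed segment `τ` is weakly ahead of `σ` on a common directed geodesic -/
def mvU (d : V → V → ℤ) (σ τ : V × V) : Prop :=
  σ.1 ≠ σ.2 ∧ τ.1 ≠ τ.2 ∧ Bt d σ.1 τ.1 τ.2 ∧ Bt d σ.1 σ.2 τ.2

theorem geo2_tree (h : Tr d) (iso : ∀ (g : G) x y, d (g • x) (g • y) = d x y) :
    Geo2 G Prod.swap (mvU d) (fun σ τ : V × V => (σ.1, τ.2)) := by
  refine ⟨fun _ => rfl, fun _ _ => rfl, ?_, ?_, ?_, fun _ _ _ => rfl, ?_, ?_, fun _ _ => rfl⟩
  · rintro g σ τ ⟨a1, a2, a4, a5⟩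
    refine ⟨?_, ?_, ?_, ?_⟩
    · simpa using a1
    · simpa using a2
    · simpa [Bt, iso] using a4
    · simpa [Bt, iso] using a5
  · rintro a b c ⟨a1, a2, a4, a5⟩ ⟨b1, b2, b4, b5⟩
    obtain ⟨o1, o2⟩ := geo_overlap h a4 b5 a2
    exact ⟨a1, b2, (h.bt_trans' o1 b4).2, (h.bt_trans a5 o2).1⟩
  · rintro a b ⟨a1, a2, a4, a5⟩
    exact ⟨a2.symm, a1.symm, h.bt_symm a5, h.bt_symm a4⟩
  · rintro a b ⟨a1, a2, a4, a5⟩ g e
    have e1 : g • a.1 = a.1 := congrArg Prod.fst e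
    have e2 : g • b.2 = b.2 := congrArg Prod.snd e
    exact ⟨Prod.ext e1 (geo_fix h iso e1 e2 a5), Prod.ext (geo_fix h iso e1 e2 a4) e2⟩
  · rintro a b ⟨a1, a2, a4, a5⟩
    exact ⟨a1, geo_ne h a5 a1, h.bt_left _ _, a5⟩

theorem Geo2.eqStab {P : Type} [MulAction G P] {rev : P → P} {mv : P → P → Prop}
    {hull : P → P → P} (Γ : Geo2 G rev mv hull) :
    Geo2 G rev (fun a b => mv a b ∧ stabilizer G a = stabilizer G b) hull := by
  have hr : ∀ a, stabilizer G (rev a) = stabilizer G a := fun a => Subgroup.ext fun g => by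
    rw [mem_stabilizer_iff, mem_stabilizer_iff, ← Γ.re]
    exact ⟨Γ.rev_inj, congrArg rev⟩
  refine ⟨Γ.rr, Γ.re, fun g a b e => ⟨Γ.inv g a b e.1, ?_⟩,
    fun a b c e e' => ⟨Γ.tr a b c e.1 e'.1, e.2.trans e'.2⟩,
    fun a b e => ⟨Γ.sym a b e.1, by rw [hr, hr, e.2]⟩, Γ.eqv, fun a b e => Γ.stab a b e.1,
    fun a b e => ⟨Γ.hl a b e.1, Subgroup.ext fun g => ⟨fun k => ?_, fun k => ?_⟩⟩, Γ.rh⟩
  · rw [stabilizer_smul_eq_stabilizer_map_conj, stabilizer_smul_eq_stabilizer_map_conj, e.2]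
  · rw [mem_stabilizer_iff, ← Γ.eqv, mem_stabilizer_iff.1 k, mem_stabilizer_iff.1 (e.2 ▸ k)]
  · exact (Γ.stab a b e.1 g k).1

theorem UGeo_cone (h : Tr d) {σ ρ τ : V × V} (a : stp d σ ρ) (b : τ = ρ ∨ cone d ρ τ) :
    cone d σ τ := by
  have t := geo_two h a
  obtain ⟨a1, a2, a3, a4⟩ := a
  have s1 := h.symm σ.2 σ.1
  rcases b with rfl | ⟨b1, b2, b3, b4, b5⟩
  · have s2 := h.symm τ.2 σ.1
    have s3 := h.symm τ.2 σ.2
    have s4 := h.self σ.2
    refine ⟨a2, a3, ?_⟩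
    rw [a1] at a3 ⊢
    omega
  · rw [a1] at a3 b3 b4
    have key : ∀ z, d z ρ.2 < d z σ.2 → d z σ.2 < d z σ.1 := fun z hz => by
      have c1 := adj_cases h a2 z
      have f := h.four z σ.2 σ.1 ρ.2
      rw [le_max_iff] at f
      omega
    have c1 := adj_cases h a3 τ.1
    have c2 := adj_cases h a3 τ.2
    have s2 := h.symm σ.2 τ.1
    have s3 := h.symm σ.2 τ.2
    have s4 := h.symm ρ.2 τ.1
    have s5 := h.symm ρ.2 τ.2
    exact ⟨a2, b2, key _ b3, key _ b4, by omega⟩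

theorem tree_init (h : Tr d) (iso : ∀ (g : G) x y, d (g • x) (g • y) = d x y) {ε : ℤˣ}
    {I : Type} [Fintype I] [DecidableEq I] (a b : I → V) (hab : ∀ i, d (a i) (b i) = 1)
    (ψ : Matrix (I ⊕ I) (I ⊕ I) (ZG G))
    (hψ : ∀ k l g, (ψ k l).coeff g ≠ 0 →
      Sum.elim b a k = g • Sum.elim b a l ∧ Sum.elim a b k ≠ g • Sum.elim a b l)
    (hn : IsNilpotent (sy ε ψ * fromBlocks 0 ((ε : ℤ) • 1) 1 0)) :
    MOn (Sum.elim (fun i => (a i, b i)) fun i => Prod.swap (a i, b i))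
      (Sum.elim (fun i => (a i, b i)) fun i => Prod.swap (a i, b i))
      (fun x y => mvU d x (Prod.swap y)) ψ ∧
    NilP (Sum.elim (fun i => (a i, b i)) fun i => Prod.swap (a i, b i))
      (sy ε ψ * fromBlocks 0 ((ε : ℤ) • 1) 1 0) := by
  set p : I ⊕ I → V × V := Sum.elim (fun i => (a i, b i)) fun i => Prod.swap (a i, b i) with hp
  have e1 : ∀ k, p k = (Sum.elim a b k, Sum.elim b a k) := by rintro (i | i) <;> rfl
  have e2 : ∀ k, d (Sum.elim a b k) (Sum.elim b a k) = 1 := by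
    rintro (i | i)
    · exact hab i
    · exact (h.symm _ _).trans (hab i)
  have h1 : MOn p p (fun x y => stp d x y.swap) ψ := fun k l g e => by
    rw [e1, e1]
    exact ⟨(hψ k l g e).1.symm, e2 k, (iso g _ _).trans ((h.symm _ _).trans (e2 l)),
      (hψ k l g e).2.symm⟩
  have h2 : MOn p p (fun x y => stp d x y.swap) (sy ε ψ) :=
    h1.add (((h1.ct fun g x y e => inv_stp iso g x y.swap e).mono fun x y e =>
      ⟨e.1.symm, (h.symm _ _).trans e.2.2.1, (h.symm _ _).trans e.2.1, e.2.2.2.symm⟩).zsmul _)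
  have h3 : MOn p p (fun x y => y = x.swap)
      (fromBlocks 0 ((ε : ℤ) • 1) 1 0 : Matrix (I ⊕ I) (I ⊕ I) (ZG G)) := by
    rintro (i | i) (j | j) g e
    · simp at e
    · exact congrArg Prod.swap ((mOn_one (fun i => (a i, b i))).zsmul ε i j g e).symm
    · exact (mOn_one (fun i => (a i, b i)) i j g e).symm
    · simp at e
  have h4 := (h2.mul h3 fun g x y (e : y = x.swap) => e ▸ rfl).mono
    (ρ' := stp d) fun x z ⟨y, k1, k2⟩ => k2 ▸ k1
  refine ⟨h1.mono fun x y e => ?_, ?_⟩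
  · obtain ⟨k1, k2, -, k3, k4⟩ := stp_mvT h e
    exact ⟨k1, k2, k3, k4⟩
  generalize sy ε ψ * fromBlocks 0 ((ε : ℤ) • 1) 1 0 = ν at h4 hn
  obtain ⟨n, hn⟩ := hn
  have key : ∀ m : ℕ, ∃ μ, MOn p p (cone d) μ ∧ (1 + ν) * (1 + μ) = 1 - (-ν) ^ (m + 1) := by
    intro m
    induction m with
    | zero => exact ⟨0, mOn_zero _ _ _, by simp⟩
    | succ m ih =>
      obtain ⟨μ, k1, k2⟩ := ih
      refine ⟨-ν - ν * μ, (h4.neg.mono fun x y e => UGeo_cone h e (Or.inl rfl)).sub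
        ((h4.mul k1 (inv_cone iso)).mono fun x z ⟨y, k3, k4⟩ => UGeo_cone h k3 (Or.inr k4)), ?_⟩
      have : (1 + ν) * (1 + (-ν - ν * μ)) = 1 + ν - ν * ((1 + ν) * (1 + μ)) := by noncomm_ring
      rw [this, k2, pow_succ' _ (m + 1)]
      noncomm_ring
  obtain ⟨μ, k1, k2⟩ := key n
  rw [pow_succ, neg_pow, hn, mul_zero, zero_mul, sub_zero] at k2
  exact nilP_of_cone p (stp d) (cone d) (inv_stp iso) (inv_cone iso)
    (fun σ τ => (d σ.1 τ.1).toNat) (fun σ => by simp [h.self]) (cone_irr h) (cone_n1 h) (cone_n2 h)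
    ν μ h4 k1 k2

end Pool.Agent.Work.MP_9d1ffa_al
end

-- merged part: Pool.Agent.Work.MP_9d1ffa_al.ULev
section
/-! The reduction theorem and its second level. -/

namespace Pool.Agent.Work.MP_9d1ffa_al

open Matrix MonoidAlgebra MulAction

set_option linter.unusedSectionVars false
set_option linter.unusedVariables false

variable {G : Type} [Group G] {P : Type} [MulAction G P] {rev : P → P} {mv : P → P → Prop}
  {hull : P → P → P} {ε : ℤˣ} {k : ℕ}

theorem ll_main (Γ : Geo2 G rev mv hull)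
    (hloc : ∀ σ τ, mv σ τ → (∃ g : G, g • σ = rev σ) → (∃ g : G, g • τ = rev τ) →
      LocZ G rev ε σ τ (hull σ τ))
    {I : Type} [Fintype I] [DecidableEq I] (p : I → P) (ψ : Matrix (I ⊕ I) (I ⊕ I) (ZG G))
    (hψ : MOn (Sum.elim p fun i => rev (p i)) (Sum.elim p fun i => rev (p i))
      (fun a b => mv a (rev b)) ψ)
    (hn : NilP (Sum.elim p fun i => rev (p i)) (sy ε ψ * fromBlocks 0 ((ε : ℤ) • 1) 1 0)) :
    Z ε (hypF (ZG G) I + ψ) := by
  refine witness Γ (fun k => laz_main Γ fun σ τ h M N X hX ho => refine_orb Γ h ?_ M N X hX ho)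
    p ψ hψ hn
  by_cases a : ∃ g : G, g • σ = rev σ
  · by_cases b : ∃ g : G, g • τ = rev τ
    · exact hloc σ τ h a b
    · exact locZ_of_not (Or.inr b)
  · exact locZ_of_not (Or.inl a)

theorem locZ_level (Γ : Geo2 G rev mv hull) {σ τ : P} (h : mv σ τ)
    (hA : ∀ g : G, g • τ = rev τ → stabilizer G (g • hull σ τ) = stabilizer G (hull σ τ))
    (hB : ∀ g : G, g • σ = rev σ → stabilizer G (g • hull σ τ) = stabilizer G (hull σ τ))
    (hloc : ∀ σ' τ', mv σ' τ' → stabilizer G σ' = stabilizer G τ' →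
      (∃ g : G, g • σ' = rev σ') → (∃ g : G, g • τ' = rev τ') → LocZ G rev ε σ' τ' (hull σ' τ')) :
    LocZ G rev ε σ τ (hull σ τ) := by
  intro J _ _ A B hA' hB' hn
  have sr : ∀ x : P, stabilizer G (rev x) = stabilizer G x := fun x => by
    ext g
    simp only [mem_stabilizer_iff, ← Γ.re]
    exact ⟨Γ.rev_inj, congrArg rev⟩
  have m1 : mv σ (hull σ τ) := Γ.hl _ _ h
  have m2 : mv (hull σ τ) τ := by
    have := Γ.sym _ _ (Γ.hl _ _ (Γ.sym _ _ h))
    rwa [← Γ.rh, Γ.rr, Γ.rr] at this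
  have e1 : hypF (ZG G) J + fromBlocks A 0 0 B = fromBlocks A 1 0 B := by
    simp [hypF, fromBlocks_add]
  have e2 : sy ε (fromBlocks A 0 0 B) * fromBlocks 0 ((ε : ℤ) • 1) 1 0 =
      fromBlocks 0 ((ε : ℤ) • sy ε A) ((1 : ℤ) • sy ε B) 0 := by
    rw [sy_blocks, fromBlocks_multiply]
    simp only [conjTranspose_zero, smul_zero, add_zero, Matrix.mul_zero, Matrix.zero_mul,
      Matrix.mul_smul, Matrix.mul_one, zero_add, one_smul]
  rw [← e1]
  refine ll_main Γ.eqStab (fun σ' τ' h' => hloc σ' τ' h'.1 h'.2) (fun _ => hull σ τ) _ ?_ ?_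
  · rintro (i | i) (j | j) g e
    · have hg := hA' i j g e
      refine ⟨Γ.tr _ _ _ m2 ?_, ((sr _).trans (hA g hg)).symm⟩
      have := Γ.sym _ _ (Γ.inv g _ _ m2)
      rwa [hg, Γ.rr] at this
    · simp at e
    · simp at e
    · have hg := hB' i j g e
      simp only [Sum.elim_inr, ← Γ.re, Γ.rr]
      refine ⟨Γ.tr _ _ _ (Γ.sym _ _ m1) ?_, (sr _).trans (hB g hg).symm⟩
      have := Γ.inv g _ _ m1
      rwa [hg] at this
  · rw [e2]
    exact (hn.zsmul _ _).nilP

end Pool.Agent.Work.MP_9d1ffa_al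
end

-- merged part: Pool.Agent.Work.MP_9d1ffa_al.ULift
section
/-! Lifting a local system to the amalgamated free product. -/

namespace Pool.Agent.Work.MP_9d1ffa_al

open Matrix MonoidAlgebra MulAction

set_option linter.unusedSectionVars false
set_option linter.unusedVariables false

variable {G : Type} [Group G] {P : Type} [MulAction G P] {rev : P → P} {mv : P → P → Prop}
  {hull : P → P → P} {ε : ℤˣ} {k : ℕ}
  {J : Type} [Fintype J] [DecidableEq J]

/-- the additive map of group rings induced by a map of sets -/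
noncomputable def liftL {H : Type} [Group H] (l : G → H) : ZG G →+ ZG H where
  toFun := MonoidAlgebra.mapDomain l
  map_zero' := MonoidAlgebra.mapDomain_zero l
  map_add' := MonoidAlgebra.mapDomain_add l

theorem liftL_single {H : Type} [Group H] (l : G → H) (g : G) (n : ℤ) :
    liftL l (single g n) = single (l g) n := MonoidAlgebra.mapDomain_single

theorem zg_induction {S : G → Prop} {C : ZG G → Prop} (h0 : C 0)
    (ha : ∀ x y, C x → C y → C (x + y)) (hs : ∀ g n, S g → C (single g n)) {x : ZG G}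
    (hx : ∀ g, x.coeff g ≠ 0 → S g) : C x := by
  classical
  rw [← Machine_sum_single x x.coeff.support fun g e => Finsupp.mem_support_iff.2 e]
  exact Finset.sum_induction _ C ha h0 fun g _ => hs _ _ (hx _ (Finsupp.mem_support_iff.1 g.2))

section

variable {H : Type} [Group H] {D : Subgroup G} (κ : D →* H) {S : G → Prop} {l : G → H}

theorem liftL_left (hl : ∀ (d : D) g, S g → l (d * g) = κ d * l g) (y : ZG D) {x : ZG G}
    (hx : ∀ g, x.coeff g ≠ 0 → S g) :
    liftL l (incl D y * x) = mapDomainRingHom ℤ κ y * liftL l x := by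
  refine zg_induction (C := fun x => liftL l (incl D y * x) = mapDomainRingHom ℤ κ y * liftL l x)
    (by simp) (fun a b ha hb => by rw [mul_add, map_add, map_add, ha, hb, mul_add])
    (fun g n hg => ?_) hx
  induction y using MonoidAlgebra.induction_linear with
  | zero => simp
  | add a b ha hb => rw [map_add, add_mul, map_add, map_add, ha, hb, add_mul]
  | single d m =>
    rw [incl_single, single_mul_single, liftL_single, liftL_single, hl d g hg]
    simp [single_mul_single]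

theorem liftL_right (hr : ∀ (d : D) g, S g → l (g * d) = l g * κ d) (y : ZG D) {c : G}
    (hc : S c) : liftL l (single c 1 * incl D y) = single (l c) 1 * mapDomainRingHom ℤ κ y := by
  induction y using MonoidAlgebra.induction_linear with
  | zero => simp
  | add a b ha hb => rw [map_add, mul_add, map_add, map_add, ha, hb, mul_add]
  | single d m =>
    rw [incl_single, single_mul_single, liftL_single, hr d c hc]
    simp [single_mul_single]

/-- the lift of a submodule -/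
noncomputable def liftT {J : Type} (W : Submodule (ZG G) (J → ZG G)) : Submodule (ZG H) (J → ZG H) :=
  Submodule.span (ZG H) {x | ∃ y : J → ZG D, incV D y ∈ W ∧ x = fun j => mapDomainRingHom ℤ κ (y j)}

theorem liftT_top : liftT κ (⊤ : Submodule (ZG G) (J → ZG G)) = ⊤ := by
  refine eq_top_iff.2 fun x _ => ?_
  rw [pi_eq_sum_univ' x]
  refine sum_mem fun i _ => Submodule.smul_mem _ _ (Submodule.subset_span
    ⟨Pi.single i 1, trivial, funext fun j => ?_⟩)
  by_cases e : j = i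
  · subst e; simp
  · simp [e]

theorem liftT_bot : liftT κ (⊥ : Submodule (ZG G) (J → ZG G)) = ⊥ := by
  refine Submodule.span_eq_bot.2 ?_
  rintro _ ⟨y, hy, rfl⟩
  funext j
  have : y j = 0 := incl_injective D ((congrFun ((Submodule.mem_bot _).1 hy) j).trans
    (map_zero _).symm)
  simp [this]

theorem liftT_mono {W W' : Submodule (ZG G) (J → ZG G)} (h : W ≤ W') : liftT κ W ≤ liftT κ W' :=
  Submodule.span_mono fun _ ⟨y, hy, e⟩ => ⟨y, h hy, e⟩

theorem liftT_step (hS : ∀ (d : D) g, S g → S (d * g))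
    (hl : ∀ (d : D) g, S g → l (d * g) = κ d * l g)
    (hr : ∀ (d : D) g, S g → l (g * d) = l g * κ d) (θ : P) (hθ : ∀ g : G, g • θ = θ ↔ g ∈ D)
    {W W' : Submodule (ZG G) (J → ZG G)}
    (hW' : ∀ σ, ∀ x ∈ W', proj (fun _ : J => θ) (· = σ) x ∈ W') {A : Matrix J J (ZG G)}
    (hA : ∀ i j g, (A i j).coeff g ≠ 0 → S g) (h : ∀ x ∈ W, x ᵥ* A ∈ W') :
    ∀ x ∈ liftT κ W, x ᵥ* A.map (liftL l) ∈ liftT κ W' := by
  intro x hx
  refine (Submodule.span_le (p := (liftT κ W').comap (A.map (liftL l)).vecMulLinear)).2 ?_ hx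
  rintro _ ⟨y, hy, rfl⟩
  have e : (fun j => mapDomainRingHom ℤ κ (y j)) ᵥ* A.map (liftL l) =
      fun j => liftL l ((incV D y ᵥ* A) j) := by
    funext j
    simp only [vecMul, dotProduct, map_sum, map_apply, incV]
    exact Finset.sum_congr rfl fun i _ => (liftL_left κ hl _ (hA i j)).symm
  change (fun j => mapDomainRingHom ℤ κ (y j)) ᵥ* A.map (liftL l) ∈ liftT κ W'
  rw [e]
  have hw := h _ hy
  have hs : ∀ j g, ((incV D y ᵥ* A) j).coeff g ≠ 0 → S g := fun j g e => by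
    simp only [Matrix.vecMul, dotProduct, coeff_sum, Finsupp.finsetSum_apply] at e
    obtain ⟨i, -, e⟩ := Finset.exists_ne_zero_of_sum_ne_zero e
    obtain ⟨a, b, ha, hb, rfl⟩ := coeff_mul_ne e
    exact hS ⟨a, mem_of_coeff_incl ha⟩ b (hA i j b hb)
  generalize incV D y ᵥ* A = w at hw hs
  refine mem_of_proj (fun _ : J => θ) (x := w)
    (N := (liftT κ W').toAddSubmonoid.comap ((liftL l).compLeft J)) fun σ => ?_
  by_cases z : proj (fun _ : J => θ) (· = σ) w = 0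
  · rw [z]; exact zero_mem _
  obtain ⟨j, c, hc⟩ : ∃ j c, (proj (fun _ : J => θ) (· = σ) w j).coeff c ≠ 0 := by
    by_contra f
    push Not at f
    exact z (vec_ext fun j g => by simpa using f j g)
  have h1 : c • θ = σ := vOn_proj _ _ w j c hc
  have h2 : S c := hs j c fun f => hc (by rw [coeff_proj, f, ite_self])
  have h3 := W'.smul_mem (single c⁻¹ (1 : ℤ)) (hW' σ w hw)
  subst h1
  rw [proj_const θ hθ] at h3 ⊢
  rw [smul_smul, single_mul_single, inv_mul_cancel, mul_one, ← one_def, one_smul] at h3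
  have h4 : (liftL l).compLeft J ((single c (1 : ℤ) : ZG G) • incV D (cmpV D c w)) =
      (single (l c) (1 : ℤ) : ZG H) • fun j => mapDomainRingHom ℤ κ (cmpV D c w j) :=
    funext fun j => liftL_right κ hr _ h2
  change (liftL l).compLeft J _ ∈ liftT κ W'
  rw [h4]
  exact Submodule.smul_mem _ _ (Submodule.subset_span ⟨_, h3, rfl⟩)

end

theorem nilpotent_of_filt {R : Type} [Ring R] (X : ℕ → Submodule R (J → R)) (k : ℕ)
    (h0 : X 0 = ⊤) (hk : X k = ⊥) {A : Matrix J J R} (h : ∀ m, ∀ x ∈ X m, x ᵥ* A ∈ X (m + 1)) :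
    IsNilpotent A := by
  have key : ∀ n x, x ᵥ* A ^ n ∈ X n := fun n x => by
    induction n with
    | zero => rw [h0]; trivial
    | succ n ih => rw [pow_succ, ← vecMul_vecMul]; exact h n _ ih
  refine ⟨k, funext fun i => ?_⟩
  have := key k (Pi.single i 1)
  rwa [hk, Matrix.single_one_vecMul, Submodule.mem_bot] at this

theorem nil_lift {H : Type} [Group H] (η η' : P) {D : Subgroup G}
    (hD : ∀ g : G, g • η = η ↔ g ∈ D) (hD' : ∀ g : G, g • η' = η' ↔ g ∈ D)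
    {E : Bool → Subgroup G} (h : ∀ i, D ≤ E i) (κ : ∀ i, E i →* H)
    (hκ : ∀ d : D, κ true ⟨d, h _ d.2⟩ = κ false ⟨d, h _ d.2⟩)
    (A : ∀ i, Matrix J J (ZG (E i)))
    (hn : Nil2 (fun _ : J => η) (fun _ : J => η') ((A true).map (incl _))
      ((A false).map (incl _))) :
    IsNilpotent ((A true).map (mapDomainRingHom ℤ (κ true)) *
      (A false).map (mapDomainRingHom ℤ (κ false))) := by
  classical
  obtain ⟨F, F', k, hF, hF', h1, h2⟩ := hn
  let κ₀ : D →* H := (κ true).comp (Subgroup.inclusion (h true))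
  have hκ₀ : ∀ i (d : D), κ₀ d = κ i ⟨d, h _ d.2⟩ := fun i d => by
    cases i
    · exact hκ d
    · rfl
  let l : Bool → G → H := fun i g => if e : g ∈ E i then κ i ⟨g, e⟩ else 1
  have hl : ∀ i (g : E i), l i g = κ i g := fun i g => dif_pos g.2
  have hm : ∀ i, ((A i).map (incl _)).map (liftL (l i)) = (A i).map (mapDomainRingHom ℤ (κ i)) :=
    fun i => by
      funext a b
      simp only [map_apply]
      induction A i a b using MonoidAlgebra.induction_linear with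
      | zero => simp
      | add x y hx hy => simp only [map_add, hx, hy]
      | single g n => rw [incl_single, liftL_single, hl]; simp
  have st : ∀ i (θ : P), (∀ g : G, g • θ = θ ↔ g ∈ D) → ∀ W W' : Submodule (ZG G) (J → ZG G),
      (∀ σ, ∀ x ∈ W', proj (fun _ : J => θ) (· = σ) x ∈ W') →
      (∀ x ∈ W, x ᵥ* (A i).map (incl _) ∈ W') →
      ∀ x ∈ liftT κ₀ W, x ᵥ* (A i).map (mapDomainRingHom ℤ (κ i)) ∈ liftT κ₀ W' :=
    fun i θ hθ W W' a b => by
      rw [← hm i]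
      refine liftT_step κ₀ (S := (· ∈ E i)) (fun d g hg => mul_mem (h i d.2) hg)
        (fun d g hg => ?_) (fun d g hg => ?_) θ hθ a (fun _ _ g e => mem_of_coeff_incl e) b
      · rw [hκ₀ i, ← hl i ⟨g, hg⟩ |>.symm, ← map_mul]
        exact hl i (⟨d, h _ d.2⟩ * ⟨g, hg⟩)
      · rw [hκ₀ i, ← hl i ⟨g, hg⟩ |>.symm, ← map_mul]
        exact hl i (⟨g, hg⟩ * ⟨d, h _ d.2⟩)
  refine nilpotent_of_filt (fun m => liftT κ₀ (F m)) k (by rw [hF.top, liftT_top])
    (by rw [hF.bot, liftT_bot]) fun m x hx => ?_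
  rw [← vecMul_vecMul]
  exact liftT_mono κ₀ (hF.anti _) (st false η hD _ _ (hF.gr _) (h2 (m + 1)) _
    (st true η' hD' _ _ (hF'.gr _) (h1 m) x hx))

theorem sy_map {H : Type} [Group H] (f : G →* H) (A : Matrix J J (ZG G)) :
    (sy ε A).map (mapDomainRingHom ℤ f) = sy ε (A.map (mapDomainRingHom ℤ f)) := by
  funext i j
  simp only [sy, map_apply, Matrix.add_apply, Matrix.smul_apply, conjTranspose_apply, map_add, map_zsmul,
    mapDomain_star]

theorem locZ_of_am (Γ : Geo2 G rev mv hull) {σ τ : P} (hm : mv σ τ) (hσ : rev σ ≠ σ)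
    (hτ : rev τ ≠ τ) {D : Subgroup G} {E : Bool → Subgroup G} (h : ∀ i, D ≤ E i)
    (hD : ∀ g : G, g ∈ D ↔ g • σ = σ ∧ g • τ = τ)
    (hE : ∀ g : G, g • τ = rev τ → g ∈ E true) (hE' : ∀ g : G, g • σ = rev σ → g ∈ E false)
    (hU : UNilAm ε h) : LocZ G rev ε σ τ (hull σ τ) := by
  intro J _ _ A B hA hB hn
  obtain ⟨A₀, rfl⟩ := exists_incl_mat (D := E true) fun i j g e => hE g (hA i j g e)
  obtain ⟨B₀, rfl⟩ := exists_incl_mat (D := E false) fun i j g e => hE' g (hB i j g e)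
  have d1 : ∀ g : G, g • hull σ τ = hull σ τ ↔ g ∈ D := fun g =>
    ⟨fun e => (hD g).2 (Γ.stab _ _ hm g e), fun e => by
      rw [← Γ.eqv, ((hD g).1 e).1, ((hD g).1 e).2]⟩
  have d2 : ∀ g : G, g • rev (hull σ τ) = rev (hull σ τ) ↔ g ∈ D := fun g => by
    rw [← d1, ← Γ.re]
    exact ⟨Γ.rev_inj, congrArg rev⟩
  let C : ∀ i, Matrix J J (ZG (E i)) := fun i => Bool.rec B₀ A₀ i
  have hz := z_iff.1 (hU J C (fun i j k g e hg => ?_) ?_)
  · let π : Am h →* G :=
      Monoid.PushoutI.lift (fun i => (E i).subtype) D.subtype fun i => rfl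
    have hπ₀ : ∀ i (g : E i), π (ofAm h i g) = g := fun i g =>
      Monoid.PushoutI.lift_of (fun i => (E i).subtype) D.subtype (fun i => rfl) g
    have hπ : ∀ i, (toAm h i (C i)).map (mapDomainRingHom ℤ π) = (C i).map (incl _) :=
      fun i => by
        funext a b
        simp only [toAm, map_apply]
        induction C i a b using MonoidAlgebra.induction_linear with
        | zero => simp
        | add x y hx hy => simp only [map_add, hx, hy]
        | single g n => simp [hπ₀, incl]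
    have := hz.map (mapDomainRingHom ℤ π) (mapDomain_star π)
    rw [fromBlocks_map, Matrix.map_one _ (map_zero _) (map_one _),
      Matrix.map_zero _ (map_zero _)] at this
    exact (congrArg₂ (fun x y => Z ε (fromBlocks x 1 0 y)) (hπ true) (hπ false)).mp this
  · cases i
    · exact hσ ((hB j k g (by rwa [map_apply, coeff_incl_coe])).symm.trans ((hD g).1 hg).1)
    · exact hτ ((hA j k g (by rwa [map_apply, coeff_incl_coe])).symm.trans ((hD g).1 hg).2)
  · rw [symF_eq, symF_eq, toAm, toAm, ← sy_map, ← sy_map]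
    refine nil_lift _ _ d1 d2 h _ (fun d => ?_) (fun i => sy ε (C i)) ?_
    · exact (Monoid.PushoutI.of_apply_eq_base _ true d).trans
        (Monoid.PushoutI.of_apply_eq_base _ false d).symm
    · rw [incl, incl, sy_map, sy_map]
      exact hn

end Pool.Agent.Work.MP_9d1ffa_al
end

-- merged part: Pool.Agent.Work.MP_9d1ffa_al.UOddA
section
/-! Forms of degree one over a group mapping onto the integers. -/

namespace Pool.Agent.Work.MP_9d1ffa_al

open Matrix MonoidAlgebra MulAction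

set_option linter.unusedSectionVars false
set_option linter.unusedVariables false

variable {H : Type} [Group H] {ε : ℤˣ} {I J : Type} [Fintype I] [DecidableEq I] [Fintype J]
  [DecidableEq J]

/-- all entries are supported in degrees in `S` -/
def Deg (χ : H →* Multiplicative ℤ) (S : ℤ → Prop) {I J : Type} (A : Matrix I J (ZG H)) : Prop :=
  ∀ i j g, (A i j).coeff g ≠ 0 → S (χ g).toAdd

/-- the part of degree `n` -/
noncomputable def UOddA_dp (χ : H →* Multiplicative ℤ) (n : ℤ) (A : Matrix I I (ZG H)) :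
    Matrix I I (ZG H) :=
  Matrix.of fun i j => fil (fun g => (χ g).toAdd = n) (A i j)

theorem UOddA_coeff (χ : H →* Multiplicative ℤ) (n : ℤ) (A : Matrix I I (ZG H)) (i j : I) (g : H) :
    (UOddA_dp χ n A i j).coeff g = if (χ g).toAdd = n then (A i j).coeff g else 0 := by
  have := coeff_fil (fun g => (χ g).toAdd = n) (A i j) g
  by_cases h : (χ g).toAdd = n
  · rw [if_pos h] at this ⊢
    exact this
  · rw [if_neg h] at this ⊢
    exact this

theorem UOddA_add (χ : H →* Multiplicative ℤ) (n : ℤ) (A B : Matrix I I (ZG H)) :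
    UOddA_dp χ n (A + B) = UOddA_dp χ n A + UOddA_dp χ n B := by
  funext i j
  exact map_add (fil fun g => (χ g).toAdd = n) _ _

theorem UOddA_zsmul (χ : H →* Multiplicative ℤ) (n k : ℤ) (A : Matrix I I (ZG H)) :
    UOddA_dp χ n (k • A) = k • UOddA_dp χ n A := by
  funext i j
  exact map_zsmul (fil fun g => (χ g).toAdd = n) _ _

theorem UOddA_deg (χ : H →* Multiplicative ℤ) (n : ℤ) (A : Matrix I I (ZG H)) :
    Deg χ (· = n) (UOddA_dp χ n A) := fun i j g e => by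
  rw [UOddA_coeff] at e
  by_contra h
  exact e (if_neg h)

theorem UOddA_deg_sub (χ : H →* Multiplicative ℤ) (n : ℤ) (A : Matrix I I (ZG H)) :
    Deg χ (· ≠ n) (A - UOddA_dp χ n A) := fun i j g e h => by
  apply e
  rw [Matrix.sub_apply, coeff_sub, Finsupp.sub_apply, UOddA_coeff, if_pos h, sub_self]

theorem UOddA_eq {χ : H →* Multiplicative ℤ} {n : ℤ} {A : Matrix I I (ZG H)}
    (h : Deg χ (· = n) A) : UOddA_dp χ n A = A :=
  mat_ext fun i j g => by
    rw [UOddA_coeff]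
    split_ifs with e
    · rfl
    · by_contra e'
      exact e (h i j g (Ne.symm e'))

theorem UOddA_zero {χ : H →* Multiplicative ℤ} {n : ℤ} {A : Matrix I I (ZG H)}
    (h : Deg χ (· ≠ n) A) : UOddA_dp χ n A = 0 :=
  mat_ext fun i j g => by
    rw [UOddA_coeff]
    split_ifs with e
    · by_contra e'
      exact h i j g (by simpa using e') e
    · simp

theorem UOddA_mono {χ : H →* Multiplicative ℤ} {S S' : ℤ → Prop} {A : Matrix I I (ZG H)}
    (h : Deg χ S A) (hS : ∀ n, S n → S' n) : Deg χ S' A := fun i j g e => hS _ (h i j g e)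

theorem UOddA_mul {χ : H →* Multiplicative ℤ} {S S' : ℤ → Prop} {A B : Matrix I I (ZG H)}
    (hA : Deg χ S A) (hB : Deg χ S' B) :
    Deg χ (fun n => ∃ x y, S x ∧ S' y ∧ n = x + y) (A * B) := fun i j g e => by
  simp only [Matrix.mul_apply, coeff_sum, Finsupp.finsetSum_apply] at e
  obtain ⟨k, -, e⟩ := Finset.exists_ne_zero_of_sum_ne_zero e
  obtain ⟨x, y, hx, hy, rfl⟩ := coeff_mul_ne e
  exact ⟨_, _, hA i k x hx, hB k j y hy, by rw [map_mul, toAdd_mul]⟩

theorem UOddA_left {χ : H →* Multiplicative ℤ} {s : ℤ} {A : Matrix I I (ZG H)}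
    (hA : Deg χ (· = s) A) (n : ℤ) (B : Matrix I I (ZG H)) :
    UOddA_dp χ n (A * B) = A * UOddA_dp χ (n - s) B := by
  have e : A * B = A * UOddA_dp χ (n - s) B + A * (B - UOddA_dp χ (n - s) B) := by
    rw [← Matrix.mul_add, add_sub_cancel]
  rw [e, UOddA_add, UOddA_eq, UOddA_zero (A := A * _), add_zero]
  · refine UOddA_mono (UOddA_mul hA (UOddA_deg_sub χ _ B)) ?_
    rintro _ ⟨x, y, rfl, h, rfl⟩
    omega
  · refine UOddA_mono (UOddA_mul hA (UOddA_deg χ _ B)) ?_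
    rintro _ ⟨x, y, rfl, rfl, rfl⟩
    omega

theorem UOddA_right {χ : H →* Multiplicative ℤ} {s : ℤ} {A : Matrix I I (ZG H)}
    (hA : Deg χ (· = s) A) (n : ℤ) (B : Matrix I I (ZG H)) :
    UOddA_dp χ n (B * A) = UOddA_dp χ (n - s) B * A := by
  have e : B * A = UOddA_dp χ (n - s) B * A + (B - UOddA_dp χ (n - s) B) * A := by
    rw [← Matrix.add_mul, add_sub_cancel]
  rw [e, UOddA_add, UOddA_eq, UOddA_zero (A := _ * A), add_zero]
  · refine UOddA_mono (UOddA_mul (UOddA_deg_sub χ _ B) hA) ?_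
    rintro _ ⟨x, y, h, rfl, rfl⟩
    omega
  · refine UOddA_mono (UOddA_mul (UOddA_deg χ _ B) hA) ?_
    rintro _ ⟨x, y, rfl, rfl, rfl⟩
    omega

theorem UOddA_ct (χ : H →* Multiplicative ℤ) (n : ℤ) (A : Matrix I I (ZG H)) :
    (UOddA_dp χ n A)ᴴ = UOddA_dp χ (-n) Aᴴ :=
  mat_ext fun i j g => by
    rw [coeff_ct, UOddA_coeff, UOddA_coeff, coeff_ct, map_inv, toAdd_inv]
    by_cases h : (χ g).toAdd = -n
    · rw [if_pos h, if_pos (by omega)]
    · rw [if_neg h, if_neg (by omega)]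

theorem UOddA_one (χ : H →* Multiplicative ℤ) : Deg χ (· = 0) (1 : Matrix I I (ZG H)) :=
  fun i j g e => by
    have : g = 1 := by
      by_contra hg
      apply e
      rw [Matrix.one_apply]
      split_ifs
      · simp [MonoidAlgebra.one_def, Ne.symm hg]
      · simp
    simp [this]

theorem UOddA_bound (χ : H →* Multiplicative ℤ) (A : Matrix I I (ZG H)) :
    ∃ N : ℕ, Deg χ (· < N) A := by
  classical
  obtain ⟨M, hM⟩ := ((Finset.univ.biUnion fun q : I × I => (A q.1 q.2).coeff.support).image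
    fun g => (χ g).toAdd).bddAbove
  refine ⟨M.toNat + 1, fun i j g e => ?_⟩
  have := hM (Finset.mem_coe.2 (Finset.mem_image_of_mem _ (Finset.mem_biUnion.2
    ⟨(i, j), Finset.mem_univ _, Finsupp.mem_support_iff.2 e⟩)))
  push_cast
  omega

theorem odd_idem (χ : H →* Multiplicative ℤ) {a μ : Matrix I I (ZG H)} (ha : Deg χ (· = 1) a)
    (h1 : sy ε a * μ = 1) (h2 : μ * sy ε a = 1) :
    ∃ E : Matrix I I (ZG H), Deg χ (· = 0) E ∧ E * E = E ∧ E * a * Eᴴ = 0 ∧
      (1 - E) * a * (1 - E)ᴴ = 0 := by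
  have hct := inv_ct h1 h2
  obtain ⟨a', ha'⟩ : ∃ a', a' = (ε : ℤ) • aᴴ := ⟨_, rfl⟩
  have hd : Deg χ (· = -1) a' := fun i j g e => by
    have e' : (aᴴ i j).coeff g ≠ 0 := fun e' => e (by
      rw [ha', Matrix.smul_apply, coeff_smul, Finsupp.smul_apply, e', smul_zero])
    rw [coeff_ct] at e'
    have := ha j i _ e'
    simp only [map_inv, toAdd_inv] at this ⊢
    omega
  rw [sy, ← ha'] at h1 h2
  have k1 : ∀ n, a * UOddA_dp χ (n - 1) μ + a' * UOddA_dp χ (n + 1) μ = UOddA_dp χ n 1 :=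
    fun n => by
      rw [← h1, Matrix.add_mul, UOddA_add, UOddA_left ha, UOddA_left hd, sub_neg_eq_add]
  have k2 : ∀ n, UOddA_dp χ (n - 1) μ * a + UOddA_dp χ (n + 1) μ * a' = UOddA_dp χ n 1 :=
    fun n => by
      rw [← h2, Matrix.mul_add, UOddA_add, UOddA_right ha, UOddA_right hd, sub_neg_eq_add]
  have z : ∀ n : ℤ, n ≠ 0 → UOddA_dp χ n (1 : Matrix I I (ZG H)) = 0 := fun n hn =>
    UOddA_zero (UOddA_mono (UOddA_one χ) fun x hx => by omega)
  have e1 := k1 0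
  have e2 := k2 0
  rw [UOddA_eq (UOddA_one χ), zero_sub, zero_add] at e1 e2
  have hT : ∀ j : ℕ, a * UOddA_dp χ (-1) μ * (a' * UOddA_dp χ 1 μ) =
      a * UOddA_dp χ (-(2 * j + 1)) μ * (a' * UOddA_dp χ (2 * j + 1) μ) := by
    intro j
    induction j with
    | zero => simp
    | succ j ih =>
      have f1 := k1 (2 * j + 2)
      have f2 := k2 (-(2 * j + 2))
      rw [z _ (by omega)] at f1 f2
      rw [show 2 * (j : ℤ) + 2 - 1 = 2 * j + 1 by ring,
        show 2 * (j : ℤ) + 2 + 1 = 2 * ((j + 1 : ℕ) : ℤ) + 1 by push_cast; ring] at f1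
      rw [show -(2 * (j : ℤ) + 2) + 1 = -(2 * j + 1) by ring,
        show -(2 * (j : ℤ) + 2) - 1 = -(2 * ((j + 1 : ℕ) : ℤ) + 1) by push_cast; ring] at f2
      rw [ih, ← neg_eq_of_add_eq_zero_right f1, Matrix.mul_assoc, ← Matrix.mul_assoc _ a',
        ← neg_eq_of_add_eq_zero_right f2]
      simp only [Matrix.neg_mul, Matrix.mul_neg, Matrix.mul_assoc]
  obtain ⟨N, hN⟩ := UOddA_bound χ μ
  have h0 := hT N
  rw [UOddA_zero (n := 2 * N + 1) (UOddA_mono hN fun x hx => by omega), Matrix.mul_zero,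
    Matrix.mul_zero, eq_sub_of_add_eq' e1] at h0
  have hE : (a * UOddA_dp χ (-1) μ)ᴴ = 1 - UOddA_dp χ (-1) μ * a := by
    rw [conjTranspose_mul, UOddA_ct, hct, UOddA_zsmul, neg_neg, Matrix.smul_mul,
      ← Matrix.mul_smul, ← ha', eq_sub_of_add_eq' e2]
  have hd0 : Deg χ (· = 0) (a * UOddA_dp χ (-1) μ) := by
    refine UOddA_mono (UOddA_mul ha (UOddA_deg χ _ μ)) ?_
    rintro _ ⟨x, y, rfl, rfl, rfl⟩
    omega
  have hE' : a * (a * UOddA_dp χ (-1) μ)ᴴ = (1 - a * UOddA_dp χ (-1) μ) * a := by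
    rw [hE, Matrix.mul_sub, Matrix.sub_mul, Matrix.mul_one, Matrix.one_mul, Matrix.mul_assoc]
  generalize a * UOddA_dp χ (-1) μ = E at *
  have hEE : E * E = E := by
    rw [Matrix.mul_sub, Matrix.mul_one] at h0
    exact (sub_eq_zero.1 h0).symm
  refine ⟨E, hd0, hEE, ?_, ?_⟩
  · rw [Matrix.mul_assoc, hE', ← Matrix.mul_assoc, h0, Matrix.zero_mul]
  · rw [conjTranspose_sub, conjTranspose_one, Matrix.mul_sub, Matrix.mul_one, Matrix.mul_assoc,
      hE', ← Matrix.mul_assoc, Matrix.sub_mul 1 E (1 - E), h0, sub_zero, Matrix.one_mul, sub_self]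

theorem sfIdem_of_deg (χ : H →* Multiplicative ℤ) (hK : K0Zero χ.ker) {E : Matrix I I (ZG H)}
    (hE : Deg χ (· = 0) E) (e : E * E = E) : SFIdem E := by
  obtain ⟨F, rfl⟩ := exists_incl_mat (D := χ.ker) (A := E) fun i j g h =>
    MonoidHom.mem_ker.2 (toAdd_eq_zero.1 (hE i j g h))
  have hFF : F * F = F := map_incl_injective _ (by rw [Matrix.map_mul, e])
  have hproj : Module.Projective (ZG χ.ker) (LinearMap.range F.vecMulLinear) :=
    Module.Projective.of_split (LinearMap.range F.vecMulLinear).subtype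
      F.vecMulLinear.rangeRestrict (LinearMap.ext <| by
        rintro ⟨_, x, rfl⟩
        exact Subtype.ext (show x ᵥ* F ᵥ* F = x ᵥ* F by rw [vecMul_vecMul, hFF]))
  obtain ⟨a, b, _, _, _, _, U, U₂, W, W₂, f1, f2, f3, f4, f5⟩ :=
    idem_stablyFree F hFF (hK _ inferInstance hproj)
  refine ⟨a, inferInstance, inferInstance, b, inferInstance, inferInstance,
    fromCols (U.map (incl _)) (U₂.map (incl _)), fromRows (W.map (incl _)) (W₂.map (incl _)),
    ?_, ?_⟩
  · rw [fromCols_mul_fromRows, ← Matrix.map_mul, ← Matrix.map_mul,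
      ← Matrix.map_add _ (map_add _), f1, Matrix.map_one _ (map_zero _) (map_one _)]
  · rw [fromRows_mul_fromCols, ← Matrix.map_mul, ← Matrix.map_mul, ← Matrix.map_mul,
      ← Matrix.map_mul, f2, f3, f4, f5, Matrix.map_zero _ (map_zero _),
      Matrix.map_zero _ (map_zero _), Matrix.map_one _ (map_zero _) (map_one _)]

theorem odd_lin (χ : H →* Multiplicative ℤ) (hK : K0Zero χ.ker) {a μ : Matrix I I (ZG H)}
    (ha : Deg χ (· = 1) a) (h1 : sy ε a * μ = 1) (h2 : μ * sy ε a = 1) : Z ε a := by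
  obtain ⟨E, hd, hE, e1, e2⟩ := odd_idem χ ha h1 h2
  refine z_split h1 h2 (sfIdem_of_deg χ hK hd hE) (sfIdem_of_deg χ hK (fun i j g e => ?_) ?_) e1 e2
  · by_cases h : (E i j).coeff g = 0
    · refine UOddA_one χ i j g fun h' => e ?_
      rw [Matrix.sub_apply, coeff_sub, Finsupp.sub_apply, h, h', sub_self]
    · exact hd i j g h
  · rw [Matrix.mul_sub, Matrix.sub_mul 1 E E, hE, Matrix.one_mul, sub_self, Matrix.mul_one, sub_zero]

end Pool.Agent.Work.MP_9d1ffa_al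
end

-- merged part: Pool.Agent.Work.MP_9d1ffa_al.UOddB
section
/-! Forms of odd degree over a group mapping onto the integers. -/

namespace Pool.Agent.Work.MP_9d1ffa_al

open Matrix MonoidAlgebra MulAction

set_option linter.unusedSectionVars false
set_option linter.unusedVariables false

variable {H : Type} [Group H] {ε : ℤˣ} {I J : Type} [Fintype I] [DecidableEq I] [Fintype J]
  [DecidableEq J]

section

variable {χ : H →* Multiplicative ℤ} {S S' : ℤ → Prop} {K L : Type}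

theorem uoddB_mono {I J : Type} {A : Matrix I J (ZG H)} (h : Deg χ S A) (hS : ∀ n, S n → S' n) :
    Deg χ S' A := fun i j g e => hS _ (h i j g e)

theorem uoddB_zero {I J : Type} : Deg χ S (0 : Matrix I J (ZG H)) := fun i j g e => by
  simp at e

theorem uoddB_add {I J : Type} {A B : Matrix I J (ZG H)} (hA : Deg χ S A) (hB : Deg χ S B) :
    Deg χ S (A + B) := fun i j g e => by
  by_cases h : (A i j).coeff g = 0
  · exact hB i j g (by simpa [h] using e)
  · exact hA i j g h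

theorem uoddB_neg {I J : Type} {A : Matrix I J (ZG H)} (hA : Deg χ S A) : Deg χ S (-A) :=
  fun i j g e => hA i j g (by simpa using e)

theorem uoddB_zsmul {I J : Type} {A : Matrix I J (ZG H)} (hA : Deg χ S A) (n : ℤ) :
    Deg χ S (n • A) := fun i j g e =>
  hA i j g fun e' => e (by rw [Matrix.smul_apply, coeff_smul, Finsupp.smul_apply, e', smul_zero])

theorem uoddB_mul {I : Type} {A : Matrix I J (ZG H)} {B : Matrix J K (ZG H)} (hA : Deg χ S A)
    (hB : Deg χ S' B) : Deg χ (fun n => ∃ a b, S a ∧ S' b ∧ n = a + b) (A * B) :=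
  fun i j g e => by
    simp only [Matrix.mul_apply, coeff_sum, Finsupp.finsetSum_apply] at e
    obtain ⟨l, -, e⟩ := Finset.exists_ne_zero_of_sum_ne_zero e
    obtain ⟨a, b, ha, hb, rfl⟩ := coeff_mul_ne e
    exact ⟨_, _, hA i l a ha, hB l j b hb, by rw [map_mul, toAdd_mul]⟩

theorem uoddB_ct {I J : Type} {A : Matrix I J (ZG H)} (hA : Deg χ S A) :
    Deg χ (fun n => S (-n)) Aᴴ := fun j i g e => by
  rw [coeff_ct] at e
  have := hA i j _ e
  rwa [map_inv, toAdd_inv] at this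

theorem uoddB_blocks {I J : Type} {A : Matrix I K (ZG H)} {B : Matrix I L (ZG H)}
    {C : Matrix J K (ZG H)} {D : Matrix J L (ZG H)} (hA : Deg χ S A) (hB : Deg χ S B)
    (hC : Deg χ S C) (hD : Deg χ S D) : Deg χ S (fromBlocks A B C D) := by
  rintro (i | i) (j | j) g e
  exacts [hA i j g e, hB i j g e, hC i j g e, hD i j g e]

theorem uoddB_cols {I : Type} {A : Matrix I K (ZG H)} {B : Matrix I L (ZG H)} (hA : Deg χ S A)
    (hB : Deg χ S B) : Deg χ S (fromCols A B) := by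
  rintro i (j | j) g e
  exacts [hA i j g e, hB i j g e]

theorem uoddB_rows {I J : Type} {A : Matrix I K (ZG H)} {B : Matrix J K (ZG H)} (hA : Deg χ S A)
    (hB : Deg χ S B) : Deg χ S (fromRows A B) := by
  rintro (i | i) j g e
  exacts [hA i j g e, hB i j g e]

/-- the part of a matrix in degrees in `S` -/
noncomputable def uoddBfil (χ : H →* Multiplicative ℤ) (S : ℤ → Prop) {I J : Type}
    (A : Matrix I J (ZG H)) : Matrix I J (ZG H) :=
  Matrix.of fun i j => fil (fun g => S (χ g).toAdd) (A i j)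

theorem uoddB_fil {I J : Type} {A : Matrix I J (ZG H)} (hA : Deg χ S A) (S' : ℤ → Prop) :
    Deg χ (fun n => S n ∧ S' n) (uoddBfil χ S' A) := fun i j g e => by
  rw [uoddBfil, Matrix.of_apply, coeff_fil] at e
  by_cases h : S' (χ g).toAdd
  · rw [if_pos h] at e
    exact ⟨hA i j g e, h⟩
  · simp [h] at e

theorem uoddB_fil_add {I J : Type} (S : ℤ → Prop) (A : Matrix I J (ZG H)) :
    uoddBfil χ S A + uoddBfil χ (fun n => ¬ S n) A = A :=
  mat_ext fun i j g => by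
    simp only [uoddBfil, Matrix.add_apply, Matrix.of_apply, coeff_add, Finsupp.add_apply,
      coeff_fil]
    by_cases a : S (χ g).toAdd <;> simp [a]

/-- the scalar matrix of a group element -/
noncomputable def uoddBsc (I : Type) [DecidableEq I] (g : H) : Matrix I I (ZG H) :=
  diagonal fun _ => single g 1

theorem uoddB_sc_mul (g h : H) : uoddBsc I g * uoddBsc I h = uoddBsc I (g * h) := by
  simp [uoddBsc, diagonal_mul_diagonal, single_mul_single]

theorem uoddB_sc_one : uoddBsc I (1 : H) = 1 := by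
  rw [uoddBsc, ← diagonal_one]
  rfl

theorem uoddB_sc_ct (g : H) : (uoddBsc I g)ᴴ = uoddBsc I g⁻¹ := by
  rw [uoddBsc, uoddBsc, diagonal_conjTranspose]
  congr 1
  funext i
  exact star_single g 1

theorem uoddB_sc_deg (g : H) : Deg χ (· = (χ g).toAdd) (uoddBsc I g) := fun i j h e => by
  rw [uoddBsc, diagonal_apply] at e
  split_ifs at e with hij
  · have : h = g := by
      by_contra hg
      apply e
      simp [Ne.symm hg]
    rw [this]
  · simp at e

end

theorem uoddB_lower {R : Type} [Ring R] {a : Matrix I I R} {d : Matrix J J R} (ha : IsUnit a)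
    (c : Matrix J I R) (hd : IsUnit d) : IsUnit (fromBlocks a 0 c d) := by
  obtain ⟨⟨a, a', h1, h2⟩, rfl⟩ := ha
  obtain ⟨⟨d, d', k1, k2⟩, rfl⟩ := hd
  refine ⟨⟨fromBlocks a 0 c d, fromBlocks a' 0 (-(d' * c * a')) d', ?_, ?_⟩, rfl⟩
  · simp [fromBlocks_multiply, h1, k1, ← Matrix.mul_assoc]
  · simp [fromBlocks_multiply, h2, k2, Matrix.mul_assoc]

theorem uoddB_upper {R : Type} [Ring R] (b : Matrix I J R) :
    fromBlocks (1 : Matrix I I R) b 0 (1 : Matrix J J R) * fromBlocks 1 (-b) 0 1 = 1 := by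
  simp [fromBlocks_multiply]

theorem uoddB_upper' {R : Type} [Ring R] (b : Matrix I J R) :
    fromBlocks (1 : Matrix I I R) (-b) 0 (1 : Matrix J J R) * fromBlocks 1 b 0 1 = 1 := by
  simp [fromBlocks_multiply]

theorem uoddB_conj {R : Type} [Ring R] [StarRing R] {a g g' : Matrix I I R} (h1 : g * g' = 1)
    (h2 : g' * g = 1) (ha : IsUnit (sy ε a)) : IsUnit (sy ε (g * a * gᴴ)) := by
  have hg : IsUnit g := ⟨⟨g, g', h1, h2⟩, rfl⟩
  rw [sy_conj]
  exact (hg.mul ha).mul hg.star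

theorem uoddB_norm (χ : H →* Multiplicative ℤ) {b : ℤ} {A : Matrix I I (ZG H)}
    (hA : Deg χ (fun n => Odd n ∧ -b ≤ n ∧ n ≤ b) A) :
    ∃ A', Eqv ε A A' ∧ Deg χ (fun n => Odd n ∧ 1 ≤ n ∧ n ≤ b) A' := by
  refine ⟨uoddBfil χ (0 < ·) A + (ε : ℤ) • (uoddBfil χ (fun n => ¬ 0 < n) A)ᴴ, ?_, ?_⟩
  · conv_lhs => rw [← uoddB_fil_add (χ := χ) (0 < ·) A]
    exact (Eqv.refl _).add (eqv_swap _)
  · refine uoddB_add (uoddB_mono (uoddB_fil hA _) ?_)
      (uoddB_zsmul (uoddB_mono (uoddB_ct (uoddB_fil hA _)) ?_) _)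
    · rintro n ⟨⟨h1, h2, h3⟩, h4⟩
      exact ⟨h1, h4, h3⟩
    · rintro n ⟨⟨⟨k, h1⟩, h2, h3⟩, h4⟩
      exact ⟨⟨-k - 1, by omega⟩, by omega, by omega⟩

theorem uoddB_ind (χ : H →* Multiplicative ℤ) (hχ : Function.Surjective χ) (hK : K0Zero χ.ker)
    (m : ℕ) : ∀ (I : Type) [Fintype I] [DecidableEq I] (ψ : Matrix I I (ZG H)),
      Deg χ (fun n => Odd n ∧ -(2 * (m : ℤ) + 1) ≤ n ∧ n ≤ 2 * (m : ℤ) + 1) ψ →
      IsUnit (sy ε ψ) → Z ε ψ := by
  induction m with
  | zero =>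
    intro I _ _ ψ hψ hu
    obtain ⟨ψ', e, h⟩ := uoddB_norm (ε := ε) χ hψ
    rw [e.sy_eq] at hu
    obtain ⟨⟨u, μ, h1, h2⟩, hu⟩ := hu
    simp only at hu
    subst hu
    exact Z.eqv e.symm (odd_lin χ hK (uoddB_mono h fun n hn => by omega) h1 h2)
  | succ m ih =>
    intro I _ _ ψ₀ hψ₀ hu
    obtain ⟨ψ, e, hψ⟩ := uoddB_norm (ε := ε) χ hψ₀
    rw [e.sy_eq] at hu
    refine Z.eqv e.symm ?_
    obtain ⟨t, ht⟩ := hχ (Multiplicative.ofAdd 1)
    have d1 : Deg χ (· = 1) (uoddBsc I t) := by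
      simpa [ht] using uoddB_sc_deg (χ := χ) (I := I) t
    have d2 : Deg χ (· = -1) (uoddBsc I t⁻¹) := by
      simpa [ht] using uoddB_sc_deg (χ := χ) (I := I) t⁻¹
    set top := uoddBfil χ (· = 2 * (m : ℤ) + 3) ψ with htop
    set γ : Matrix I I (ZG H) := uoddBsc I t⁻¹ with hγ
    set φ' : Matrix (I ⊕ I) (I ⊕ I) (ZG H) := fromBlocks 0 γ 0 0 with hφ'
    set X : Matrix I (I ⊕ I) (ZG H) := fromCols (uoddBsc I (t * t)) (-(γ * top))ᴴ with hX
    have c1 : γ * uoddBsc I t = 1 := by rw [uoddB_sc_mul, inv_mul_cancel, uoddB_sc_one]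
    have c2 : uoddBsc I t * γ = 1 := by rw [uoddB_sc_mul, mul_inv_cancel, uoddB_sc_one]
    have c3 : γᴴ = uoddBsc I t := by rw [uoddB_sc_ct, inv_inv]
    have zφ : Z ε φ' := z_lag γ 0 0 (uoddBsc I t) (by simpa using c1) (by simpa using c2)
    have uφ : IsUnit (sy ε φ') := by
      refine ⟨⟨sy ε φ', fromBlocks 0 ((ε : ℤ) • γ) (uoddBsc I t) 0, ?_, ?_⟩, rfl⟩ <;>
        simp only [hφ', sy_blocks, sy_zero, fromBlocks_multiply, c1, c2, c3, eps_eps,
          conjTranspose_zero, smul_zero, add_zero, zero_add, Matrix.mul_zero, Matrix.zero_mul,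
          Matrix.smul_mul, Matrix.mul_smul, fromBlocks_one]
    have uθ : IsUnit (sy ε (fromBlocks ψ 0 0 φ')) := by
      rw [sy_blocks]
      simpa using uoddB_lower hu 0 uφ
    have x1 : X * φ' = fromCols 0 (uoddBsc I t) := by
      rw [hX, hφ', fromCols_mul_fromBlocks]
      simp [hγ, uoddB_sc_mul]
    have x2 : φ' * Xᴴ = fromRows (γ * -(γ * top)) 0 := by
      rw [hX, hφ', conjTranspose_fromCols_eq_fromRows_conjTranspose, fromBlocks_mul_fromRows]
      simp
    have x3 : X * φ' * Xᴴ = -top := by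
      rw [x1, hX, conjTranspose_fromCols_eq_fromRows_conjTranspose, fromCols_mul_fromRows]
      simp [← Matrix.mul_assoc, c2]
    have x4 : ψ + -top = uoddBfil χ (fun n => ¬ n = 2 * (m : ℤ) + 3) ψ := by
      conv_lhs => rw [← uoddB_fil_add (χ := χ) (· = 2 * (m : ℤ) + 3) ψ]
      rw [← htop]
      abel
    have x5 : fromBlocks 1 X 0 1 * fromBlocks ψ 0 0 φ' * (fromBlocks 1 X 0 1)ᴴ =
        fromBlocks (ψ + X * φ' * Xᴴ) (X * φ') (φ' * Xᴴ) φ' := by
      simp [fromBlocks_multiply, fromBlocks_conjTranspose]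
    have hz := ih (I ⊕ (I ⊕ I)) _ ?_ (uoddB_conj (uoddB_upper X) (uoddB_upper' X) uθ)
    · exact Z.cancel (Z.iso (iso_conj _ (uoddB_upper X) (uoddB_upper' X)).symm hz) zφ
    · rw [x5, x3, x4, x1, x2]
      refine uoddB_blocks (uoddB_mono (uoddB_fil hψ _) ?_)
        (uoddB_cols uoddB_zero (uoddB_mono d1 ?_))
        (uoddB_rows (uoddB_mono (uoddB_mul d2 (uoddB_neg (uoddB_mul d2 (uoddB_fil hψ _)))) ?_)
          uoddB_zero)
        (uoddB_blocks uoddB_zero (uoddB_mono d2 ?_) uoddB_zero uoddB_zero)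
      · rintro n ⟨⟨⟨k, h1⟩, h2, h3⟩, h4⟩
        push_cast at h3
        exact ⟨⟨k, h1⟩, by omega, by omega⟩
      · rintro n rfl
        exact ⟨⟨0, by omega⟩, by omega, by omega⟩
      · rintro n ⟨a, b, rfl, ⟨c, d, rfl, ⟨-, rfl⟩, rfl⟩, rfl⟩
        exact ⟨⟨m, by omega⟩, by omega, by omega⟩
      · rintro n rfl
        exact ⟨⟨-1, by omega⟩, by omega, by omega⟩

theorem odd_main (χ : H →* Multiplicative ℤ) (hχ : Function.Surjective χ) (hK : K0Zero χ.ker)
    {ψ μ : Matrix I I (ZG H)} (hψ : Deg χ Odd ψ) (h1 : sy ε ψ * μ = 1) (h2 : μ * sy ε ψ = 1) :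
    Z ε ψ := by
  let m : ℕ := Finset.univ.sup fun i => Finset.univ.sup fun j =>
    (ψ i j).coeff.support.sup fun g => (χ g).toAdd.natAbs
  refine uoddB_ind χ hχ hK m I ψ (fun i j g e => ?_) ⟨⟨_, μ, h1, h2⟩, rfl⟩
  have : (χ g).toAdd.natAbs ≤ m :=
    ((Finset.le_sup (f := fun g => (χ g).toAdd.natAbs) (Finsupp.mem_support_iff.2 e)).trans
      (Finset.le_sup (f := fun j => (ψ i j).coeff.support.sup fun g => (χ g).toAdd.natAbs)
        (Finset.mem_univ j))).trans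
      (Finset.le_sup (f := fun i => Finset.univ.sup fun j =>
        (ψ i j).coeff.support.sup fun g => (χ g).toAdd.natAbs) (Finset.mem_univ i))
  exact ⟨hψ i j g e, by omega, by omega⟩

theorem unil_odd (χ : H →* Multiplicative ℤ) (hχ : Function.Surjective χ) (hK : K0Zero χ.ker)
    {A B : Matrix J J (ZG H)} (hA : Deg χ Odd A) (hB : Deg χ Odd B)
    (hn : IsNilpotent (sy ε A * sy ε B)) : Z ε (fromBlocks A 1 0 B) := by
  obtain ⟨t, ht⟩ := hχ (Multiplicative.ofAdd 1)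
  have d1 : Deg χ (· = 1) (uoddBsc J t) := by
    simpa [ht] using uoddB_sc_deg (χ := χ) (I := J) t
  have d2 : Deg χ (· = -1) (uoddBsc J t⁻¹) := by
    simpa [ht] using uoddB_sc_deg (χ := χ) (I := J) t⁻¹
  have c1 : uoddBsc J t⁻¹ * uoddBsc J t = 1 := by
    rw [uoddB_sc_mul, inv_mul_cancel, uoddB_sc_one]
  have c2 : uoddBsc J t * uoddBsc J t⁻¹ = 1 := by
    rw [uoddB_sc_mul, mul_inv_cancel, uoddB_sc_one]
  have u1 : IsUnit (1 - (ε : ℤ) • (sy ε A * sy ε B)) := (hn.smul (ε : ℤ)).isUnit_one_sub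
  have u2 : IsUnit ((ε : ℤ) • (1 : Matrix J J (ZG H))) := by
    refine ⟨⟨_, (ε : ℤ) • (1 : Matrix J J (ZG H)), ?_, ?_⟩, rfl⟩ <;>
      rw [Matrix.smul_mul, Matrix.mul_smul, eps_eps, Matrix.mul_one]
  have u3 : IsUnit (fromBlocks (0 : Matrix J J (ZG H)) (1 : Matrix J J (ZG H))
      (1 : Matrix J J (ZG H)) (0 : Matrix J J (ZG H))) := by
    refine ⟨⟨fromBlocks 0 1 1 0, fromBlocks 0 1 1 0, ?_, ?_⟩, rfl⟩ <;> simp [fromBlocks_multiply]
  have u4 : IsUnit (fromBlocks (1 : Matrix J J (ZG H)) ((ε : ℤ) • sy ε A) 0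
      (1 : Matrix J J (ZG H))) := ⟨⟨_, _, uoddB_upper _, uoddB_upper' _⟩, rfl⟩
  have u5 : IsUnit (sy ε (fromBlocks A 1 0 B)) := by
    have e : sy ε (fromBlocks A 1 0 B) = fromBlocks 1 ((ε : ℤ) • sy ε A) 0 1 *
        (fromBlocks (1 - (ε : ℤ) • (sy ε A * sy ε B)) 0 (sy ε B) ((ε : ℤ) • 1) *
          fromBlocks 0 1 1 0) := by
      simp only [sy_blocks, fromBlocks_multiply, eps_eps, conjTranspose_zero, conjTranspose_one,
        smul_zero, add_zero, zero_add, Matrix.mul_zero, Matrix.zero_mul, Matrix.mul_one,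
        Matrix.one_mul, Matrix.smul_mul, Matrix.mul_smul, sub_add_cancel]
    rw [e]
    exact u4.mul ((uoddB_lower u1 _ u2).mul u3)
  have g1 : fromBlocks (1 : Matrix J J (ZG H)) 0 0 (uoddBsc J t) *
      fromBlocks 1 0 0 (uoddBsc J t⁻¹) = 1 := by simp [fromBlocks_multiply, c2]
  have g2 : fromBlocks (1 : Matrix J J (ZG H)) 0 0 (uoddBsc J t⁻¹) *
      fromBlocks 1 0 0 (uoddBsc J t) = 1 := by simp [fromBlocks_multiply, c1]
  obtain ⟨⟨u, μ, h1, h2⟩, hu⟩ := uoddB_conj g1 g2 u5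
  simp only at hu
  subst hu
  refine Z.iso (iso_conj _ g1 g2).symm (odd_main χ hχ hK ?_ h1 h2)
  have e : fromBlocks (1 : Matrix J J (ZG H)) 0 0 (uoddBsc J t) * fromBlocks A 1 0 B *
      (fromBlocks (1 : Matrix J J (ZG H)) 0 0 (uoddBsc J t))ᴴ =
      fromBlocks A (uoddBsc J t⁻¹) 0 (uoddBsc J t * B * uoddBsc J t⁻¹) := by
    simp [fromBlocks_multiply, fromBlocks_conjTranspose, uoddB_sc_ct]
  rw [e]
  refine uoddB_blocks hA (uoddB_mono d2 ?_) uoddB_zero
    (uoddB_mono (uoddB_mul (uoddB_mul d1 hB) d2) ?_)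
  · rintro n rfl
    exact ⟨-1, by omega⟩
  · rintro n ⟨a, b, ⟨c, d, rfl, ⟨k, rfl⟩, rfl⟩, rfl, rfl⟩
    exact ⟨k, by omega⟩

end Pool.Agent.Work.MP_9d1ffa_al
end

-- merged part: Pool.Agent.Work.MP_9d1ffa_al.UAb0
section
/-! Subgroups of free abelian groups of finite rank. -/

namespace Pool.Agent.Work.MP_9d1ffa_al

theorem free_ab_of_inj {K : Type} [Group K] {N : ℕ} (j : K →* Multiplicative (Fin N → ℤ))
    (hj : Function.Injective j) : ∃ n : ℕ, Nonempty (K ≃* Multiplicative (Fin n → ℤ)) := by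
  let S : Submodule ℤ (Fin N → ℤ) := AddSubgroup.toIntSubmodule (Subgroup.toAddSubgroup' j.range)
  obtain ⟨n, ⟨b⟩⟩ := Submodule.nonempty_basis_of_pid (Pi.basisFun ℤ (Fin N)) S
  let e : j.range ≃* Multiplicative S :=
    { toFun := fun x => Multiplicative.ofAdd ⟨x.1.toAdd, x.2⟩
      invFun := fun y => ⟨Multiplicative.ofAdd y.toAdd.1, y.toAdd.2⟩
      left_inv := fun _ => rfl
      right_inv := fun _ => rfl
      map_mul' := fun _ _ => rfl }
  exact ⟨n, ⟨(MonoidHom.ofInjective hj).trans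
    (e.trans (AddEquiv.toMultiplicative b.equivFun.toAddEquiv))⟩⟩

theorem comm_of_equiv {G : Type} [Group G] {E : Subgroup G} {n : ℕ}
    (e : E ≃* Multiplicative (Fin n → ℤ)) : ∀ x ∈ E, ∀ y ∈ E, x * y = y * x := fun x hx y hy =>
  congrArg Subtype.val (e.injective (a₁ := ⟨x, hx⟩ * ⟨y, hy⟩) (a₂ := ⟨y, hy⟩ * ⟨x, hx⟩)
    (by rw [map_mul, map_mul, mul_comm]))

end Pool.Agent.Work.MP_9d1ffa_al
end

-- merged part: Pool.Agent.Work.MP_9d1ffa_al.UAbA
section
/-! A degree function on an amalgam of free abelian groups over a subgroup of index two. -/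

namespace Pool.Agent.Work.MP_9d1ffa_al

open Matrix MonoidAlgebra MulAction

set_option linter.unusedSectionVars false
set_option linter.unusedVariables false

open Monoid

variable {G : Type} [Group G] {D : Subgroup G} {E : Bool → Subgroup G}

theorem UAbA_pick {r : ℕ} (v : Bool → Fin r → ℤ) (hv : ∀ i, ∃ a, Odd (v i a)) :
    ∃ f : (Fin r → ℤ) →+ ℤ, (∀ i, Odd (f (v i))) ∧ ∃ w, f w = 1 := by
  obtain ⟨a, ha⟩ := hv true
  obtain ⟨b, hb⟩ := hv false
  by_cases h1 : Odd (v false a)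
  · refine ⟨Pi.evalAddMonoidHom (fun _ => ℤ) a, fun i => ?_, Pi.single a 1, by simp⟩
    cases i
    · exact h1
    · exact ha
  by_cases h2 : Odd (v true b)
  · refine ⟨Pi.evalAddMonoidHom (fun _ => ℤ) b, fun i => ?_, Pi.single b 1, by simp⟩
    cases i
    · exact hb
    · exact h2
  have hab : a ≠ b := fun e => h1 (e ▸ hb)
  refine ⟨Pi.evalAddMonoidHom (fun _ => ℤ) a + Pi.evalAddMonoidHom (fun _ => ℤ) b, fun i => ?_,
    Pi.single a 1, by simp [hab.symm]⟩
  cases i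
  · exact (Int.not_odd_iff_even.1 h1).add_odd hb
  · exact ha.add_even (Int.not_odd_iff_even.1 h2)

theorem UAbA_tf {K : Type} [Group K] {n : ℕ} (e : K ≃* Multiplicative (Fin n → ℤ)) (x : K)
    (hx : x * x = 1) : x = 1 := by
  apply e.injective
  have h1 : e x * e x = 1 := by rw [← map_mul, hx, map_one]
  have h2 : (e x).toAdd + (e x).toAdd = 0 := congrArg Multiplicative.toAdd h1
  rw [map_one]
  apply Multiplicative.toAdd.injective
  funext a
  have h3 := congrFun h2 a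
  simp only [Pi.add_apply, Pi.zero_apply] at h3
  simp only [toAdd_one, Pi.zero_apply]
  omega

theorem am_chi (h : ∀ i, D ≤ E i)
    (hc : ∀ i, ∃ n : ℕ, Nonempty (E i ≃* Multiplicative (Fin n → ℤ))) (c : ∀ i, E i)
    (hc1 : ∀ i, (c i : G) ∉ D) (hc2 : ∀ i (g : E i), (g : G) ∉ D → ((c i : G)⁻¹ * g) ∈ D) :
    ∃ χ : PushoutI (fun j => Subgroup.inclusion (h j)) →* Multiplicative ℤ,
      Function.Surjective χ ∧
      (∀ d : D, Even (χ (PushoutI.base (fun j => Subgroup.inclusion (h j)) d)).toAdd) ∧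
      ∀ i (g : E i), (g : G) ∉ D →
        Odd (χ (PushoutI.of (φ := fun j => Subgroup.inclusion (h j)) i g)).toAdd := by
  have hcomm : ∀ i, ∀ x ∈ E i, ∀ y ∈ E i, x * y = y * x := fun i => by
    obtain ⟨n, ⟨e⟩⟩ := hc i
    exact comm_of_equiv e
  have hsq : ∀ i (g : E i), (g : G) * g ∈ D := by
    intro i g
    by_cases hg : (g : G) ∈ D
    · exact D.mul_mem hg hg
    · have h1 := hc2 i g hg
      have h2 := hc2 i g⁻¹ (fun h' => hg (by simpa using h'))
      have h3 := D.mul_mem (D.inv_mem h2) h1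
      simpa [mul_assoc] using h3
  obtain ⟨r, ⟨e0⟩⟩ : ∃ r : ℕ, Nonempty (D ≃* Multiplicative (Fin r → ℤ)) := by
    obtain ⟨n, ⟨e⟩⟩ := hc true
    exact free_ab_of_inj (e.toMonoidHom.comp (Subgroup.inclusion (h true)))
      (e.injective.comp (Subgroup.inclusion_injective (h true)))
  have hodd : ∀ i, ∃ a, Odd ((e0 ⟨(c i : G) * c i, hsq i (c i)⟩).toAdd a) := by
    intro i
    by_contra hn
    push Not at hn
    have hev : ∀ a, ∃ y, (e0 ⟨(c i : G) * c i, hsq i (c i)⟩).toAdd a = y + y := fun a =>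
      Int.not_odd_iff_even.1 (hn a)
    choose y hy using hev
    let x : D := e0.symm (Multiplicative.ofAdd y)
    have hx : x * x = ⟨(c i : G) * c i, hsq i (c i)⟩ := by
      apply e0.injective
      rw [map_mul, MulEquiv.apply_symm_apply]
      apply Multiplicative.toAdd.injective
      funext a
      rw [hy a]
      rfl
    have hx' : (x : G) * x = c i * c i := congrArg Subtype.val hx
    obtain ⟨n, ⟨e⟩⟩ := hc i
    have hxE : (x : G) ∈ E i := h i x.2
    have h1 : (c i * (⟨x, hxE⟩ : E i)⁻¹) * (c i * (⟨x, hxE⟩ : E i)⁻¹) = 1 := by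
      apply Subtype.ext
      have h2 := hcomm i _ ((E i).inv_mem hxE) _ (c i).2
      change ((c i : G) * (x : G)⁻¹) * (c i * (x : G)⁻¹) = 1
      calc ((c i : G) * (x : G)⁻¹) * (c i * (x : G)⁻¹)
          = c i * ((x : G)⁻¹ * c i) * (x : G)⁻¹ := by simp only [mul_assoc]
        _ = (c i * c i) * ((x : G) * x)⁻¹ := by rw [h2]; simp only [mul_assoc, _root_.mul_inv_rev]
        _ = 1 := by rw [hx', mul_inv_cancel]
    have h3 := mul_inv_eq_one.1 (UAbA_tf e _ h1)
    exact hc1 i (by rw [h3]; exact x.2)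
  obtain ⟨f0, hf0, w, hw⟩ := UAbA_pick _ hodd
  let f : D →* Multiplicative ℤ := (AddMonoidHom.toMultiplicative f0).comp e0.toMonoidHom
  have hf : ∀ x : D, (f x).toAdd = f0 (e0 x).toAdd := fun _ => rfl
  let χ : ∀ i, E i →* Multiplicative ℤ := fun i =>
    MonoidHom.mk' (fun g => f ⟨(g : G) * g, hsq i g⟩) (fun a b => by
      rw [← map_mul]
      congr 1
      apply Subtype.ext
      change ((a : G) * b) * (a * b) = (a * a) * (b * b)
      have h2 := hcomm i _ b.2 _ a.2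
      calc ((a : G) * b) * (a * b) = a * (b * a) * b := by simp only [mul_assoc]
        _ = _ := by rw [h2]; simp only [mul_assoc])
  have hχ : ∀ i (d : D), χ i (Subgroup.inclusion (h i) d) = f d * f d := fun i d => by
    rw [← map_mul]
    rfl
  have hχc : ∀ i, Odd (χ i (c i)).toAdd := fun i => hf0 i
  let k : D →* Multiplicative ℤ := f * f
  have hk : ∀ i, (χ i).comp (Subgroup.inclusion (h i)) = k := fun i =>
    MonoidHom.ext fun d => hχ i d
  refine ⟨PushoutI.lift χ k hk, fun n => ?_, fun d => ?_, fun i g hg => ?_⟩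
  · obtain ⟨m, hm⟩ := hχc true
    have h1 : (f (e0.symm (Multiplicative.ofAdd w))).toAdd = 1 := by
      rw [hf, MulEquiv.apply_symm_apply]
      exact hw
    refine ⟨(PushoutI.of (φ := fun j => Subgroup.inclusion (h j)) true (c true) *
      (PushoutI.base (fun j => Subgroup.inclusion (h j))
        (e0.symm (Multiplicative.ofAdd w))) ^ (-m)) ^ n.toAdd, ?_⟩
    rw [map_zpow, map_mul, map_zpow, PushoutI.lift_of, PushoutI.lift_base]
    apply Multiplicative.toAdd.injective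
    change Multiplicative.toAdd ((χ true (c true) * (f _ * f _) ^ (-m)) ^ n.toAdd) = _
    simp only [toAdd_zpow, toAdd_mul, h1, hm, smul_eq_mul]
    ring
  · rw [PushoutI.lift_base]
    exact ⟨(f d).toAdd, rfl⟩
  · rw [PushoutI.lift_of]
    have h1 : g = c i * Subgroup.inclusion (h i) ⟨_, hc2 i g hg⟩ := by
      apply Subtype.ext
      change (g : G) = c i * ((c i : G)⁻¹ * g)
      rw [mul_inv_cancel_left]
    rw [h1, map_mul, hχ, toAdd_mul, toAdd_mul]
    exact (hχc i).add_even ⟨_, rfl⟩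

end Pool.Agent.Work.MP_9d1ffa_al
end

-- merged part: Pool.Agent.Work.MP_9d1ffa_al.UAbB
section
/-! The kernel of the degree function is free abelian. -/

namespace Pool.Agent.Work.MP_9d1ffa_al

open Matrix MonoidAlgebra MulAction

set_option linter.unusedSectionVars false
set_option linter.unusedVariables false

open Monoid

variable {G : Type} [Group G] {D : Subgroup G} {E : Bool → Subgroup G}

theorem UAbB_core {Q A : Type} [Group Q] [Group A] {N : ℕ} (e : A →* Multiplicative (Fin N → ℤ))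
    (he : Function.Injective e) (b : A →* Q) (hb : Function.Injective b)
    (hcen : ∀ d x, b d * x = x * b d) (s s' : Q) (hs : s * s ∈ b.range) (hs' : s' * s' ∈ b.range)
    (gen : ∀ P : Q → Prop, (∀ d, P (b d)) → (∀ d, P (s * b d)) → (∀ d, P (s' * b d)) →
      (∀ x y, P x → P y → P (x * y)) → ∀ x, P x)
    (ρ : Q →* DihedralGroup 0) (ρb : ∀ d, ρ (b d) = 1) (ρs : ρ s = DihedralGroup.sr 0)
    (ρs' : ρ s' = DihedralGroup.sr 1) (χ : Q →* Multiplicative ℤ)
    (h0 : ∀ d, Even (χ (b d)).toAdd) (h1 : Odd (χ s).toAdd) (h1' : Odd (χ s').toAdd) :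
    ∃ n : ℕ, Nonempty (χ.ker ≃* Multiplicative (Fin n → ℤ)) := by
  let y := s * s'⁻¹
  let j : Multiplicative ℤ × A →* Q :=
    (zpowersHom Q y).noncommCoprod b fun n d => (hcen d _).symm
  have hj : ∀ n d, j (n, d) = y ^ n.toAdd * b d := fun _ _ => rfl
  have hbN : ∀ x ∈ b.range, x ∈ j.range := by
    rintro _ ⟨d, rfl⟩
    exact ⟨(1, d), by rw [hj, toAdd_one, zpow_zero, one_mul]⟩
  have hyN : y ∈ j.range :=
    ⟨(Multiplicative.ofAdd 1, 1), by rw [hj, toAdd_ofAdd, zpow_one, map_one, mul_one]⟩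
  have hconj : ∀ x ∈ j.range, s * x * s⁻¹ ∈ j.range := by
    rintro _ ⟨⟨n, d⟩, rfl⟩
    have e1 : s * y * s⁻¹ = s * s * (s' * s')⁻¹ * y⁻¹ := by
      simp only [y]
      group
    have e2 : s * (y ^ n.toAdd * b d) * s⁻¹ = (s * y * s⁻¹) ^ n.toAdd * b d := by
      rw [conj_zpow, mul_assoc (s * _) s⁻¹, ← hcen d s⁻¹, mul_assoc, mul_assoc, mul_assoc]
    rw [hj, e2, e1]
    exact mul_mem (zpow_mem (mul_mem (mul_mem (hbN _ hs) (inv_mem (hbN _ hs'))) (inv_mem hyN)) _)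
      (hbN _ ⟨d, rfl⟩)
  have hall : ∀ x, x ∈ j.range ∨ x * s⁻¹ ∈ j.range := by
    refine gen _ (fun d => Or.inl (hbN _ ⟨d, rfl⟩)) (fun d => Or.inr (hconj _ (hbN _ ⟨d, rfl⟩)))
      (fun d => Or.inr ?_) ?_
    · have e1 : s' * b d * s⁻¹ = y⁻¹ * (s * b d * s⁻¹) := by
        simp only [y]
        group
      rw [e1]
      exact mul_mem (inv_mem hyN) (hconj _ (hbN _ ⟨d, rfl⟩))
    · rintro x z (hx | hx) (hz | hz)
      · exact Or.inl (mul_mem hx hz)
      · exact Or.inr (by rw [mul_assoc]; exact mul_mem hx hz)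
      · refine Or.inr ?_
        rw [show x * z * s⁻¹ = x * s⁻¹ * (s * z * s⁻¹) by group]
        exact mul_mem hx (hconj _ hz)
      · refine Or.inl ?_
        rw [show x * z = x * s⁻¹ * (s * (z * s⁻¹) * s⁻¹) * (s * s) by group]
        exact mul_mem (mul_mem hx (hconj _ hz)) (hbN _ hs)
  have heven : ∀ x ∈ j.range, Even (χ x).toAdd := by
    rintro _ ⟨⟨n, d⟩, rfl⟩
    rw [hj, map_mul, map_zpow, toAdd_mul, toAdd_zpow, map_mul, map_inv, toAdd_mul, toAdd_inv,
      smul_eq_mul]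
    exact ((h1.add_odd h1'.neg).mul_left _).add (h0 d)
  have hker : χ.ker ≤ j.range := fun x hx => (hall x).resolve_right fun h => by
    have := heven _ h
    rw [map_mul, map_inv, MonoidHom.mem_ker.1 hx, one_mul, toAdd_inv] at this
    exact (Int.not_even_iff_odd.2 h1.neg) this
  have hinj : Function.Injective j := by
    rw [injective_iff_map_eq_one]
    rintro ⟨n, d⟩ h
    have h2 := congrArg ρ h
    rw [hj, map_mul, ρb, mul_one, map_zpow, map_mul, map_inv, ρs, ρs', DihedralGroup.inv_sr,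
      DihedralGroup.sr_mul_sr, sub_zero, DihedralGroup.r_one_zpow, map_one,
      DihedralGroup.one_def] at h2
    have h3 : n.toAdd = 0 := DihedralGroup.r.inj h2
    rw [hj, h3, zpow_zero, one_mul] at h
    exact Prod.ext h3 ((injective_iff_map_eq_one b).1 hb d h)
  let f : Multiplicative ℤ × A →* Multiplicative (Fin (N + 1) → ℤ) := MonoidHom.mk'
    (fun p => Multiplicative.ofAdd (Fin.cons p.1.toAdd (e p.2).toAdd)) (fun p q => by
      rw [← ofAdd_add]
      congr 1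
      funext i
      refine Fin.cases rfl (fun i => ?_) i
      simp)
  have hf : Function.Injective f := fun p q h => by
    have := Fin.cons_injective2 (Multiplicative.ofAdd.injective h)
    exact Prod.ext this.1 (he this.2)
  exact free_ab_of_inj (f.comp ((MonoidHom.ofInjective hinj).symm.toMonoidHom.comp
    (Subgroup.inclusion hker)))
    (hf.comp ((MonoidHom.ofInjective hinj).symm.injective.comp (Subgroup.inclusion_injective _)))

theorem UAbB_mul (c : ∀ i, E i) (hc2 : ∀ i (g : E i), (g : G) ∉ D → ((c i : G)⁻¹ * g) ∈ D)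
    (i : Bool) (g g' : E i) (hg : (g : G) ∉ D) (hg' : (g' : G) ∉ D) : (g : G) * g' ∈ D := by
  have h1 := inv_mem (hc2 i g⁻¹ fun h => hg (inv_mem_iff.1 h))
  have h2 := mul_mem h1 (hc2 i g' hg')
  rwa [Subgroup.coe_inv, _root_.mul_inv_rev, inv_inv, inv_inv, mul_assoc,
    mul_inv_cancel_left] at h2

open Classical in
/-- The sign map of one factor. -/
noncomputable def UAbB_sg (c : ∀ i, E i)
    (hc2 : ∀ i (g : E i), (g : G) ∉ D → ((c i : G)⁻¹ * g) ∈ D) (i : Bool) (k : ZMod 0) :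
    E i →* DihedralGroup 0 :=
  MonoidHom.mk' (fun g => if (g : G) ∈ D then 1 else DihedralGroup.sr k) (fun g g' => by
    rw [Subgroup.coe_mul]
    by_cases hg : (g : G) ∈ D <;> by_cases hg' : (g' : G) ∈ D
    · rw [if_pos hg, if_pos hg', if_pos (mul_mem hg hg'), mul_one]
    · rw [if_pos hg, if_neg hg', if_neg fun h => hg' ((D.mul_mem_cancel_left hg).1 h), one_mul]
    · rw [if_neg hg, if_pos hg', if_neg fun h => hg ((D.mul_mem_cancel_right hg').1 h), mul_one]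
    · rw [if_neg hg, if_neg hg', if_pos (UAbB_mul c hc2 i g g' hg hg'), DihedralGroup.sr_mul_self])

theorem am_ker (h : ∀ i, D ≤ E i)
    (hc : ∀ i, ∃ n : ℕ, Nonempty (E i ≃* Multiplicative (Fin n → ℤ))) (c : ∀ i, E i)
    (hc1 : ∀ i, (c i : G) ∉ D) (hc2 : ∀ i (g : E i), (g : G) ∉ D → ((c i : G)⁻¹ * g) ∈ D)
    (χ : PushoutI (fun j => Subgroup.inclusion (h j)) →* Multiplicative ℤ)
    (h0 : ∀ d : D, Even (χ (PushoutI.base (fun j => Subgroup.inclusion (h j)) d)).toAdd)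
    (h1 : ∀ i (g : E i), (g : G) ∉ D →
      Odd (χ (PushoutI.of (φ := fun j => Subgroup.inclusion (h j)) i g)).toAdd) :
    ∃ n : ℕ, Nonempty (χ.ker ≃* Multiplicative (Fin n → ℤ)) := by
  obtain ⟨N, ⟨e⟩⟩ := hc true
  have hof : ∀ i (d : D), PushoutI.of (φ := fun j => Subgroup.inclusion (h j)) i
      (Subgroup.inclusion (h i) d) = PushoutI.base (fun j => Subgroup.inclusion (h j)) d :=
    fun i d => PushoutI.of_apply_eq_base (fun j => Subgroup.inclusion (h j)) i d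
  have hcomm : ∀ i (g g' : E i), g * g' = g' * g := fun i g g' => by
    obtain ⟨_, ⟨e'⟩⟩ := hc i
    exact Subtype.ext (comm_of_equiv e' _ g.2 _ g'.2)
  have hsq : ∀ i, PushoutI.of (φ := fun j => Subgroup.inclusion (h j)) i (c i) *
      PushoutI.of (φ := fun j => Subgroup.inclusion (h j)) i (c i) ∈
        (PushoutI.base (fun j => Subgroup.inclusion (h j))).range := fun i =>
    ⟨⟨_, UAbB_mul c hc2 i (c i) (c i) (hc1 i) (hc1 i)⟩, by rw [← hof i, ← map_mul]; rfl⟩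
  have hρ : ∀ i, (UAbB_sg c hc2 i (if i then 0 else 1)).comp (Subgroup.inclusion (h i)) = 1 :=
    fun i => MonoidHom.ext fun d => if_pos d.2
  refine UAbB_core (e.toMonoidHom.comp (Subgroup.inclusion (h true)))
    (e.injective.comp (Subgroup.inclusion_injective _)) (PushoutI.base _)
    (PushoutI.base_injective fun i => Subgroup.inclusion_injective _) (fun d x => ?_) _ _
    (hsq true) (hsq false) (fun P p0 p1 p2 p3 x => ?_) (PushoutI.lift _ 1 hρ)
    (fun d => PushoutI.lift_base _ _ _ d) ?_ ?_ χ h0 (h1 _ _ (hc1 _)) (h1 _ _ (hc1 _))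
  · induction x using PushoutI.induction_on with
    | of i g => rw [← hof i, ← map_mul, ← map_mul, hcomm]
    | base d' =>
      rw [← hof true, ← hof true, ← map_mul (PushoutI.of true), ← map_mul (PushoutI.of true), hcomm]
    | mul x y hx hy => rw [← mul_assoc, hx, mul_assoc, hy, mul_assoc]
  · induction x using PushoutI.induction_on with
    | of i g =>
      by_cases hg : (g : G) ∈ D
      · exact (hof i ⟨g, hg⟩).symm ▸ p0 ⟨g, hg⟩
      · have e1 : PushoutI.of (φ := fun j => Subgroup.inclusion (h j)) i g =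
            PushoutI.of (φ := fun j => Subgroup.inclusion (h j)) i (c i) *
              PushoutI.base (fun j => Subgroup.inclusion (h j)) ⟨_, hc2 i g hg⟩ := by
          rw [← hof i, ← map_mul]
          exact congrArg _ (Subtype.ext (mul_inv_cancel_left _ _).symm)
        rw [e1]
        cases i
        exacts [p2 _, p1 _]
    | base d => exact p0 d
    | mul x y hx hy => exact p3 x y hx hy
  · rw [PushoutI.lift_of]
    exact if_neg (hc1 true)
  · rw [PushoutI.lift_of]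
    exact if_neg (hc1 false)

end Pool.Agent.Work.MP_9d1ffa_al
end

-- merged part: Pool.Agent.Work.MP_9d1ffa_al.UFb
section
/-! Finite free resolutions under flat base change and localisation. -/

namespace Pool.Agent.Work.MP_9d1ffa_al

open Matrix MonoidAlgebra MulAction

set_option linter.unusedSectionVars false
set_option linter.unusedVariables false

open TensorProduct

theorem FF.baseChange {R S : Type} [CommRing R] [CommRing S] [Algebra R S] [Module.Flat R S]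
    {n : ℕ} {M : Type} [AddCommGroup M] [Module R M] (h : FF R n M) : FF S n (S ⊗[R] M) := by
  induction n generalizing M with
  | zero =>
    obtain ⟨h1, h2⟩ := h
    obtain ⟨N, _, _, _, _, _⟩ := Module.IsStablyFree.exist_free_prod R M
    have : Module.Free S ((S ⊗[R] M) × (S ⊗[R] N)) :=
      Module.Free.of_equiv (TensorProduct.prodRight R S S M N)
    exact ⟨inferInstance, Module.IsStablyFree.of_free_prod S _ (S ⊗[R] N)⟩
  | succ n ih =>
    obtain ⟨k, f, hf, h⟩ := h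
    let e := TensorProduct.piScalarRight R S S (Fin k)
    have hs : Function.Surjective (f.baseChange S) := LinearMap.lTensor_surjective S hf
    let j := (LinearMap.ker f).subtype.baseChange S
    have hj : Function.Injective j :=
      Module.Flat.lTensor_preserves_injective_linearMap _ (LinearMap.ker f).injective_subtype
    have hex : Function.Exact j (f.baseChange S) :=
      lTensor_exact S (LinearMap.exact_subtype_ker_map f) hf
    refine ⟨k, f.baseChange S ∘ₗ e.symm.toLinearMap, hs.comp e.symm.surjective, ?_⟩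
    have hi : Function.Injective (e.toLinearMap ∘ₗ j) := e.injective.comp hj
    refine (ih h).equiv ((LinearEquiv.ofInjective _ hi).trans (LinearEquiv.ofEq _ _ ?_))
    ext x
    rw [LinearMap.mem_ker, LinearMap.comp_apply, hex, LinearMap.mem_range]
    constructor
    · rintro ⟨y, rfl⟩
      exact ⟨y, (e.symm_apply_apply _).symm⟩
    · rintro ⟨y, hy⟩
      exact ⟨y, by rw [LinearMap.comp_apply, hy]; exact e.apply_symm_apply x⟩

theorem AllFF.localization {R : Type} [CommRing R] (T : Submonoid R) (S : Type) [CommRing S]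
    [Algebra R S] [IsLocalization T S] (h : AllFF R) : AllFF S := by
  intro M _ _ hM
  let _ : Module R M := Module.compHom M (algebraMap R S)
  have : IsScalarTower R S M := IsScalarTower.of_algebraMap_smul fun _ _ => rfl
  obtain ⟨s, hs⟩ := hM.fg_top
  let M0 := Submodule.span R (s : Set M)
  have h0 : Module.Finite R M0 := Module.Finite.span_of_finite R s.finite_toSet
  have hl : IsLocalizedModule T M0.subtype := by
    refine ⟨fun x => ?_, fun y => ?_, fun h => ⟨1, by rw [M0.injective_subtype h]⟩⟩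
    · rw [← (Algebra.lsmul R (A := S) R M).commutes]
      exact (IsLocalization.map_units S x).map _
    · have hy : y ∈ Submodule.span S (s : Set M) := hs ▸ Submodule.mem_top
      have : ∃ t : T, (t : R) • y ∈ M0 := by
        induction hy using Submodule.span_induction with
        | mem x hx => exact ⟨1, by simpa using Submodule.subset_span hx⟩
        | zero => exact ⟨1, by simp⟩
        | add x y _ _ hx hy =>
          obtain ⟨t, ht⟩ := hx
          obtain ⟨u, hu⟩ := hy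
          refine ⟨t * u, ?_⟩
          rw [smul_add, Submonoid.coe_mul]
          refine add_mem ?_ ?_
          · rw [mul_comm, mul_smul]
            exact M0.smul_mem _ ht
          · rw [mul_smul]
            exact M0.smul_mem _ hu
        | smul c x _ hx =>
          obtain ⟨t, ht⟩ := hx
          obtain ⟨⟨a, u⟩, hu⟩ := IsLocalization.surj T c
          refine ⟨t * u, ?_⟩
          have e : ((t * u : T) : R) • c • x = a • (t : R) • x := by
            rw [Submonoid.coe_mul, mul_smul, smul_comm a, ← algebraMap_smul S (u : R),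
              smul_smul (algebraMap R S u), mul_comm, hu, algebraMap_smul]
          rw [e]
          exact M0.smul_mem _ ht
      obtain ⟨t, ht⟩ := this
      exact ⟨(⟨_, ht⟩, t), rfl⟩
  have := IsLocalization.flat S T
  obtain ⟨n, hn⟩ := h M0 h0
  exact ⟨n, hn.baseChange.equiv (IsLocalizedModule.isBaseChange T S M0.subtype).equiv⟩

theorem AllFF.ringEquiv {R S : Type} [CommRing R] [CommRing S] (e : R ≃+* S) (h : AllFF R) :
    AllFF S := by
  let _ := e.toRingHom.toAlgebra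
  have : IsLocalization (IsUnit.submonoid R) S :=
    IsLocalization.of_le_isUnit_of_bijective Algebra.algebraMapSubmonoid_isUnit_le_isUnit
      e.bijective
  exact h.localization (IsUnit.submonoid R) S

theorem UFb_pid (R : Type) [CommRing R] [IsDomain R] [IsPrincipalIdealRing R] : AllFF R := by
  intro M _ _ hM
  obtain ⟨k, f, hf⟩ := Module.Finite.exists_fin' R M
  exact ⟨1, k, f, hf, inferInstance, inferInstance⟩

theorem allFF_int : AllFF ℤ := UFb_pid ℤ

end Pool.Agent.Work.MP_9d1ffa_al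
end

-- merged part: Pool.Agent.Work.MP_9d1ffa_al.UFc
section
/-! Finite free resolutions over polynomial rings. -/

namespace Pool.Agent.Work.MP_9d1ffa_al

open Matrix MonoidAlgebra MulAction

set_option linter.unusedSectionVars false
set_option linter.unusedVariables false

section UFcAux

open Polynomial TensorProduct

variable {R : Type} [CommRing R]

/-- the coefficient of `X ^ d` of an element of `R[X] ⊗ N` -/
noncomputable def UFc_cf (R N : Type) [CommRing R] [AddCommGroup N] [Module R N] (d : ℕ) :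
    R[X] ⊗[R] N →ₗ[R] N :=
  TensorProduct.lift ((LinearMap.lsmul R N).comp (Polynomial.lcoeff R d))

variable {A B : Type} [AddCommGroup A] [Module R A] [AddCommGroup B] [Module R B]

theorem UFc_cf_tmul (d : ℕ) (p : R[X]) (x : A) : UFc_cf R A d (p ⊗ₜ x) = p.coeff d • x := by
  simp [UFc_cf]

theorem UFc_cf_eq (d : ℕ) (y : R[X] ⊗[R] A) :
    (PolynomialModule.polynomialTensorProductLEquivPolynomialModule R A y).coeff d
      = UFc_cf R A d y := by
  induction y using TensorProduct.induction_on with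
  | zero => simp
  | add y z hy hz => simp [map_add, hy, hz]
  | tmul p x =>
    rw [UFc_cf_tmul]
    have : PolynomialModule.polynomialTensorProductLEquivPolynomialModule R A (p ⊗ₜ x)
        = p • PolynomialModule.single R 0 x := rfl
    rw [this, PolynomialModule.smul_single_apply]
    simp

theorem UFc_cf_ext (y : R[X] ⊗[R] A) (h : ∀ d, UFc_cf R A d y = 0) : y = 0 := by
  apply (PolynomialModule.polynomialTensorProductLEquivPolynomialModule R A).injective
  rw [map_zero, ← PolynomialModule.coeff_eq_zero]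
  ext d
  rw [UFc_cf_eq, h]
  rfl

theorem UFc_cf_large (y : R[X] ⊗[R] A) : ∃ N, ∀ d, N ≤ d → UFc_cf R A d y = 0 := by
  induction y using TensorProduct.induction_on with
  | zero => exact ⟨0, fun d _ => by simp⟩
  | add y z hy hz =>
    obtain ⟨N, hN⟩ := hy
    obtain ⟨N', hN'⟩ := hz
    refine ⟨max N N', fun d hd => ?_⟩
    rw [map_add, hN d (le_trans (le_max_left _ _) hd), hN' d (le_trans (le_max_right _ _) hd),
      add_zero]
  | tmul p x =>
    refine ⟨p.natDegree + 1, fun d hd => ?_⟩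
    rw [UFc_cf_tmul, coeff_eq_zero_of_natDegree_lt (by omega), zero_smul]

theorem UFc_cf_X_smul (d : ℕ) (y : R[X] ⊗[R] A) :
    UFc_cf R A (d + 1) ((X : R[X]) • y) = UFc_cf R A d y := by
  induction y using TensorProduct.induction_on with
  | zero => simp
  | add y z hy hz => rw [smul_add, map_add, map_add, hy, hz]
  | tmul p x =>
    rw [smul_tmul', UFc_cf_tmul, UFc_cf_tmul, smul_eq_mul, coeff_X_mul]

theorem UFc_cf_baseChange (f : A →ₗ[R] B) (d : ℕ) (y : R[X] ⊗[R] A) :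
    UFc_cf R B d (f.baseChange R[X] y) = f (UFc_cf R A d y) := by
  induction y using TensorProduct.induction_on with
  | zero => simp
  | add y z hy hz => rw [map_add, map_add, map_add, map_add, hy, hz]
  | tmul p x =>
    rw [LinearMap.baseChange_tmul, UFc_cf_tmul, UFc_cf_tmul, map_smul]

/-- the characteristic map `X ι - ξ` -/
noncomputable def UFc_theta (ι ξ : A →ₗ[R] B) : R[X] ⊗[R] A →ₗ[R[X]] R[X] ⊗[R] B :=
  (X : R[X]) • ι.baseChange R[X] - ξ.baseChange R[X]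

theorem UFc_theta_apply (ι ξ : A →ₗ[R] B) (y : R[X] ⊗[R] A) :
    UFc_theta ι ξ y = (X : R[X]) • ι.baseChange R[X] y - ξ.baseChange R[X] y := rfl

theorem UFc_theta_injective (ι ξ : A →ₗ[R] B) (hι : Function.Injective ι) :
    Function.Injective (UFc_theta ι ξ) := by
  rw [injective_iff_map_eq_zero]
  intro y hy
  have step : ∀ d, UFc_cf R A (d + 1) y = 0 → UFc_cf R A d y = 0 := by
    intro d hd
    have h1 := congrArg (UFc_cf R B (d + 1)) hy
    rw [UFc_theta_apply, map_sub, UFc_cf_X_smul, UFc_cf_baseChange, UFc_cf_baseChange, hd,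
      map_zero, map_zero, sub_zero] at h1
    exact hι (by rw [h1, map_zero])
  obtain ⟨N, hN⟩ := UFc_cf_large y
  have key : ∀ j d, N ≤ d + j → UFc_cf R A d y = 0 := by
    intro j
    induction j with
    | zero => intro d hd; exact hN d (by simpa using hd)
    | succ j ih => intro d hd; exact step d (ih (d + 1) (by omega))
  exact UFc_cf_ext y fun d => key N d (by omega)

/-- tuples of polynomials of degree `< n` -/
noncomputable def UFc_D (R : Type) [CommRing R] (k n : ℕ) : Submodule R (Fin k → R[X]) :=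
  Submodule.pi Set.univ fun _ => degreeLT R n

theorem UFc_mem_D {k n : ℕ} {u : Fin k → R[X]} : u ∈ UFc_D R k n ↔ ∀ i, (u i).degree < n := by
  simp [UFc_D, Submodule.mem_pi, mem_degreeLT]

theorem UFc_D_mono {k n n' : ℕ} (h : n ≤ n') : UFc_D R k n ≤ UFc_D R k n' := by
  intro u hu
  rw [UFc_mem_D] at hu ⊢
  intro i
  exact lt_of_lt_of_le (hu i) (by exact_mod_cast h)

theorem UFc_D_X {k n : ℕ} {u : Fin k → R[X]} (hu : u ∈ UFc_D R k n) :
    (X : R[X]) • u ∈ UFc_D R k (n + 1) := by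
  rw [UFc_mem_D] at hu ⊢
  intro i
  have h := hu i
  rw [degree_lt_iff_coeff_zero] at h ⊢
  intro m hm
  obtain ⟨m, rfl⟩ : ∃ m', m = m' + 1 := ⟨m - 1, by omega⟩
  rw [Pi.smul_apply, smul_eq_mul, coeff_X_mul]
  exact h m (by omega)

theorem UFc_D_divX {k n : ℕ} {u : Fin k → R[X]} (hu : u ∈ UFc_D R k (n + 1)) :
    (fun i => divX (u i)) ∈ UFc_D R k n := by
  rw [UFc_mem_D] at hu ⊢
  intro i
  have h := hu i
  rw [degree_lt_iff_coeff_zero] at h ⊢
  intro m hm
  rw [coeff_divX]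
  exact h (m + 1) (by omega)

theorem UFc_D_fg (k n : ℕ) : (UFc_D R k n).FG := by
  refine Submodule.fg_pi fun _ => ?_
  rw [← Module.Finite.iff_fg]
  infer_instance

theorem UFc_exists_D {k : ℕ} (s : Finset (Fin k → R[X])) :
    ∃ n, ∀ u ∈ s, u ∈ UFc_D R k n := by
  classical
  refine ⟨s.sup (fun u => Finset.univ.sup fun i => (u i).natDegree) + 1, fun u hu => ?_⟩
  rw [UFc_mem_D]
  intro i
  have h1 : (u i).natDegree ≤ Finset.univ.sup fun i => (u i).natDegree :=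
    Finset.le_sup (f := fun i => (u i).natDegree) (Finset.mem_univ i)
  have h2 : (Finset.univ.sup fun i => (u i).natDegree)
      ≤ s.sup (fun u => Finset.univ.sup fun i => (u i).natDegree) :=
    Finset.le_sup (f := fun u : Fin k → R[X] => Finset.univ.sup fun i => (u i).natDegree) hu
  exact lt_of_le_of_lt degree_le_natDegree (by exact_mod_cast Nat.lt_succ_of_le (h1.trans h2))

theorem UFc_exact {M : Type} [AddCommGroup M] [Module R M] [Module R[X] M]
    [IsScalarTower R R[X] M] {k n : ℕ} (π0 : (Fin k → R[X]) →ₗ[R[X]] M)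
    (hπ0 : Function.Surjective π0) (s : Finset (Fin k → R[X]))
    (hs : Submodule.span R[X] (s : Set (Fin k → R[X])) = LinearMap.ker π0)
    (hn : ∀ u ∈ s, u ∈ UFc_D R k n) (ι ξ : A →ₗ[R] B) (J : B →ₗ[R] M)
    (hJ : Function.Injective J) (hξ : ∀ a, J (ξ a) = (X : R[X]) • J (ι a))
    (hB1 : ∀ u ∈ UFc_D R k (n + 1), ∃ b, J b = π0 u)
    (hB2 : ∀ b, ∃ u ∈ UFc_D R k (n + 1), J b = π0 u)
    (hA1 : ∀ u ∈ UFc_D R k n, ∃ a, J (ι a) = π0 u) :
    ∃ π : R[X] ⊗[R] B →ₗ[R[X]] M, Function.Exact (UFc_theta ι ξ) π ∧ Function.Surjective π := by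
  classical
  obtain ⟨π, hπ⟩ : ∃ π : R[X] ⊗[R] B →ₗ[R[X]] M, ∀ (p : R[X]) (b : B), π (p ⊗ₜ b) = p • J b :=
    ⟨LinearMap.liftBaseChange R[X] J, fun p b => by simp⟩
  obtain ⟨θ, hθ⟩ : ∃ θ, θ = UFc_theta ι ξ := ⟨_, rfl⟩
  have hθt : ∀ (p : R[X]) (a : A), θ (p ⊗ₜ a) = (X : R[X]) • (p ⊗ₜ[R] ι a) - p ⊗ₜ[R] ξ a := by
    intro p a
    rw [hθ, UFc_theta_apply, LinearMap.baseChange_tmul, LinearMap.baseChange_tmul]
  rw [← hθ]
  have hπθ : ∀ y, π (θ y) = 0 := by
    intro y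
    induction y using TensorProduct.induction_on with
    | zero => simp
    | add y z hy hz => rw [map_add, map_add, hy, hz, add_zero]
    | tmul p x => rw [hθt, map_sub, map_smul, hπ, hπ, hξ, smul_comm, sub_self]
  have hone : ∀ i : Fin k, (Pi.single i 1 : Fin k → R[X]) ∈ UFc_D R k (n + 1) := by
    intro i
    rw [UFc_mem_D]
    intro j
    by_cases hij : j = i
    · subst hij
      rw [Pi.single_eq_same]
      exact lt_of_le_of_lt degree_one_le (by exact_mod_cast Nat.succ_pos n)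
    · rw [Pi.single_eq_of_ne hij, degree_zero]
      exact WithBot.bot_lt_coe _
  choose m hm using fun i => hB1 _ (hone i)
  obtain ⟨σ, hσ⟩ : ∃ σ : (Fin k → R[X]) →ₗ[R[X]] R[X] ⊗[R] B,
      ∀ u, σ u = ∑ i, u i • ((1 : R[X]) ⊗ₜ[R] m i) :=
    ⟨Fintype.linearCombination R[X] fun i => (1 : R[X]) ⊗ₜ m i,
      fun u => Fintype.linearCombination_apply _ _ _⟩
  have hπ0sum : ∀ u : Fin k → R[X], π0 u = ∑ i, u i • J (m i) := by
    intro u
    conv_lhs => rw [pi_eq_sum_univ' u]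
    rw [map_sum]
    refine Finset.sum_congr rfl fun i _ => ?_
    rw [map_smul, hm]
  have hπσ : ∀ u, π (σ u) = π0 u := by
    intro u
    rw [hσ, map_sum, hπ0sum]
    refine Finset.sum_congr rfl fun i _ => ?_
    rw [map_smul, hπ, one_smul]
  have key : ∀ j, j ≤ n + 1 → ∀ u ∈ UFc_D R k j, ∀ b : B, J b = π0 u →
      σ u - (1 : R[X]) ⊗ₜ[R] b ∈ LinearMap.range θ := by
    intro j
    induction j with
    | zero =>
      intro _ u hu b hb
      have hu0 : u = 0 := by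
        funext i
        have := UFc_mem_D.1 hu i
        simpa using this
      subst hu0
      have hb0 : b = 0 := hJ (by simpa using hb)
      subst hb0
      simp
    | succ j ih =>
      intro hj u hu b hb
      obtain ⟨v, hvdef⟩ : ∃ v : Fin k → R[X], v = fun i => divX (u i) := ⟨_, rfl⟩
      have hv : v ∈ UFc_D R k j := hvdef ▸ UFc_D_divX hu
      obtain ⟨c, hc⟩ : ∃ c : Fin k → R[X], c = fun i => C ((u i).coeff 0) := ⟨_, rfl⟩
      have hci : ∀ i, c i = algebraMap R R[X] ((u i).coeff 0) := fun i => by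
        rw [hc, algebraMap_eq]
      have huv : u = (X : R[X]) • v + c := by
        funext i
        rw [Pi.add_apply, Pi.smul_apply, smul_eq_mul, hvdef, hc]
        exact (X_mul_divX_add (u i)).symm
      have hvn : v ∈ UFc_D R k n := UFc_D_mono (by omega) hv
      obtain ⟨a, ha⟩ := hA1 v hvn
      have h1 := ih (by omega) v hv (ι a) ha
      have h2 : (X : R[X]) • ((1 : R[X]) ⊗ₜ[R] ι a) - (1 : R[X]) ⊗ₜ[R] ξ a
          ∈ LinearMap.range θ := ⟨(1 : R[X]) ⊗ₜ[R] a, hθt _ _⟩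
      obtain ⟨b0, hb0⟩ : ∃ b0 : B, b0 = ∑ i, (u i).coeff 0 • m i := ⟨_, rfl⟩
      have h3 : σ c = (1 : R[X]) ⊗ₜ[R] b0 := by
        rw [hσ, hb0, tmul_sum]
        refine Finset.sum_congr rfl fun i _ => ?_
        rw [tmul_smul, hci, algebraMap_smul]
      have h4 : b = ξ a + b0 := by
        apply hJ
        rw [hb, map_add, hξ, ha, hb0, map_sum]
        conv_lhs => rw [huv]
        rw [map_add, map_smul, hπ0sum c]
        congr 1
        refine Finset.sum_congr rfl fun i _ => ?_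
        rw [map_smul, hci, algebraMap_smul]
      have h5 : σ u - (1 : R[X]) ⊗ₜ[R] b = (X : R[X]) • (σ v - (1 : R[X]) ⊗ₜ[R] ι a)
          + ((X : R[X]) • ((1 : R[X]) ⊗ₜ[R] ι a) - (1 : R[X]) ⊗ₜ[R] ξ a) := by
        rw [h4, tmul_add, ← h3]
        conv_lhs => rw [huv]
        rw [map_add, map_smul, smul_sub]
        abel
      rw [h5]
      exact Submodule.add_mem _ (Submodule.smul_mem _ _ h1) h2
  have hA : ∀ y : R[X] ⊗[R] B, ∃ u, σ u - y ∈ LinearMap.range θ := by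
    intro y
    induction y using TensorProduct.induction_on with
    | zero => exact ⟨0, by simp⟩
    | add y z hy hz =>
      obtain ⟨u, hu⟩ := hy
      obtain ⟨v, hv⟩ := hz
      refine ⟨u + v, ?_⟩
      have : σ (u + v) - (y + z) = (σ u - y) + (σ v - z) := by rw [map_add]; abel
      rw [this]
      exact Submodule.add_mem _ hu hv
    | tmul p b =>
      obtain ⟨u, hu, hub⟩ := hB2 b
      refine ⟨p • u, ?_⟩
      have : σ (p • u) - p ⊗ₜ[R] b = p • (σ u - (1 : R[X]) ⊗ₜ[R] b) := by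
        rw [map_smul, smul_sub, smul_tmul', smul_eq_mul, mul_one]
      rw [this]
      exact Submodule.smul_mem _ _ (key (n + 1) le_rfl u hu b hub)
  have hB : LinearMap.ker π0 ≤ (LinearMap.range θ).comap σ := by
    rw [← hs, Submodule.span_le]
    intro g hg
    have hg0 : π0 g = 0 := by
      have : g ∈ LinearMap.ker π0 := hs ▸ Submodule.subset_span hg
      exact this
    have := key n (Nat.le_succ n) g (hn g hg) 0 (by simp [hg0])
    simpa using this
  refine ⟨π, ?_, ?_⟩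
  · intro y
    constructor
    · intro hy
      obtain ⟨u, hu⟩ := hA y
      have hu0 : π0 u = 0 := by
        obtain ⟨w, hw⟩ := hu
        have := hπθ w
        rw [hw, map_sub, hπσ, hy, sub_zero] at this
        exact this
      have h1 : σ u ∈ LinearMap.range θ := hB hu0
      have h2 := Submodule.sub_mem _ h1 hu
      rw [sub_sub_cancel] at h2
      exact h2
    · rintro ⟨w, rfl⟩
      exact hπθ w
  · intro x
    obtain ⟨u, rfl⟩ := hπ0 x
    exact ⟨σ u, hπσ u⟩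

theorem UFc_main [IsNoetherianRing R] (h : AllFF R) (M : Type) [AddCommGroup M] [Module R M]
    [Module R[X] M] [IsScalarTower R R[X] M] [Module.Finite R[X] M] : ∃ n, FF R[X] n M := by
  obtain ⟨k, π0, hπ0⟩ := Module.Finite.exists_fin' R[X] M
  obtain ⟨s, hs⟩ : (LinearMap.ker π0).FG := IsNoetherian.noetherian _
  obtain ⟨n, hn⟩ := UFc_exists_D s
  obtain ⟨F, hF, hFfin⟩ : ∃ F : ℕ → Submodule R M,
      (∀ j x, x ∈ F j ↔ ∃ u ∈ UFc_D R k j, π0 u = x) ∧ ∀ j, Module.Finite R (F j) :=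
    ⟨fun j => (UFc_D R k j).map (π0.restrictScalars R), fun j x => Submodule.mem_map,
      fun j => Module.Finite.iff_fg.2 ((UFc_D_fg k j).map _)⟩
  have hFle : F n ≤ F (n + 1) := by
    intro x hx
    obtain ⟨u, hu, rfl⟩ := (hF _ _).1 hx
    exact (hF _ _).2 ⟨u, UFc_D_mono (Nat.le_succ n) hu, rfl⟩
  have hFX : ∀ x ∈ F n, (X : R[X]) • x ∈ F (n + 1) := by
    intro x hx
    obtain ⟨u, hu, rfl⟩ := (hF _ _).1 hx
    exact (hF _ _).2 ⟨(X : R[X]) • u, UFc_D_X hu, map_smul _ _ _⟩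
  obtain ⟨ξ, hξ⟩ : ∃ ξ : F n →ₗ[R] F (n + 1), ∀ x, (ξ x : M) = (X : R[X]) • (x : M) :=
    ⟨{ toFun := fun x => ⟨(X : R[X]) • (x : M), hFX x x.2⟩
       map_add' := fun x y => Subtype.ext (by simp)
       map_smul' := fun r x => Subtype.ext (by simp [smul_comm (X : R[X]) r]) }, fun x => rfl⟩
  obtain ⟨π, hex, hsurj⟩ := UFc_exact π0 hπ0 s hs hn (Submodule.inclusion hFle) ξ
    (F (n + 1)).subtype (Submodule.injective_subtype _) (fun a => hξ a)
    (fun u hu => ⟨⟨π0 u, (hF _ _).2 ⟨u, hu, rfl⟩⟩, rfl⟩)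
    (fun b => by
      obtain ⟨u, hu, hub⟩ := (hF _ _).1 b.2
      exact ⟨u, hu, hub.symm⟩)
    (fun u hu => ⟨⟨π0 u, (hF _ _).2 ⟨u, hu, rfl⟩⟩, rfl⟩)
  obtain ⟨a, ha⟩ := h (F n) (hFfin n)
  obtain ⟨b, hb⟩ := h (F (n + 1)) (hFfin (n + 1))
  exact FF.coker _ π (UFc_theta_injective _ ξ (Submodule.inclusion_injective hFle)) hex hsurj
    (ha.baseChange (S := R[X])) (hb.baseChange (S := R[X]))

end UFcAux

theorem AllFF.polynomial {R : Type} [CommRing R] [IsNoetherianRing R] (h : AllFF R) :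
    AllFF (Polynomial R) := by
  intro M _ _ hM
  let _ : Module R M := Module.compHom M (algebraMap R (Polynomial R))
  have : IsScalarTower R (Polynomial R) M :=
    IsScalarTower.of_algebraMap_smul fun _ _ => rfl
  exact UFc_main h M

end Pool.Agent.Work.MP_9d1ffa_al
end

-- merged part: Pool.Agent.Work.MP_9d1ffa_al.UFd
section
/-! Projective modules over group rings of free abelian groups are stably free. -/

namespace Pool.Agent.Work.MP_9d1ffa_al

open Matrix MonoidAlgebra MulAction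

set_option linter.unusedSectionVars false
set_option linter.unusedVariables false

theorem UFd_laurent {R : Type} [CommRing R] [IsNoetherianRing R] (h : AllFF R) :
    IsNoetherianRing (LaurentPolynomial R) ∧ AllFF (LaurentPolynomial R) :=
  ⟨IsLocalization.isNoetherianRing (Submonoid.powers (Polynomial.X : Polynomial R)) _
      inferInstance,
    h.polynomial.localization (Submonoid.powers (Polynomial.X : Polynomial R)) _⟩

theorem UFd_free (n : ℕ) : IsNoetherianRing (AddMonoidAlgebra ℤ (Fin n → ℤ)) ∧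
    AllFF (AddMonoidAlgebra ℤ (Fin n → ℤ)) := by
  induction n with
  | zero =>
    have e : AddMonoidAlgebra ℤ (Fin 0 → ℤ) ≃+* ℤ := AddMonoidAlgebra.uniqueRingEquiv _
    exact ⟨isNoetherianRing_of_ringEquiv _ e.symm, allFF_int.ringEquiv e.symm⟩
  | succ n ih =>
    obtain ⟨h1, h2⟩ := ih
    obtain ⟨h3, h4⟩ := UFd_laurent h2
    have e0 : (Fin (n + 1) → ℤ) ≃+ ℤ × (Fin n → ℤ) :=
      (Fin.consLinearEquiv ℤ fun _ : Fin (n + 1) => ℤ).symm.toAddEquiv
    have e : AddMonoidAlgebra ℤ (Fin (n + 1) → ℤ) ≃+*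
        LaurentPolynomial (AddMonoidAlgebra ℤ (Fin n → ℤ)) :=
      (AddMonoidAlgebra.mapDomainRingEquiv ℤ e0).trans AddMonoidAlgebra.curryRingEquiv
    exact ⟨isNoetherianRing_of_ringEquiv _ e.symm, h4.ringEquiv e.symm⟩

theorem UFd_comm {G : Type} [CommGroup G] {n : ℕ} (e : G ≃* Multiplicative (Fin n → ℤ)) :
    AllFF (ZG G) :=
  (UFd_free n).2.ringEquiv
    ((AddMonoidAlgebra.toMultiplicativeAlgEquiv ℤ ℤ (Fin n → ℤ)).toRingEquiv.trans
      (MonoidAlgebra.mapDomainRingEquiv ℤ e.symm))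

theorem k0Zero_free_ab {G : Type} [Group G] {n : ℕ} (e : G ≃* Multiplicative (Fin n → ℤ)) :
    K0Zero G := by
  let _ : CommGroup G :=
    { ‹Group G› with mul_comm := fun a b => e.injective (by rw [map_mul, map_mul, mul_comm]) }
  intro M _ _ hf hp
  obtain ⟨k, hk⟩ := UFd_comm e M hf
  exact hk.stablyFree hp

end Pool.Agent.Work.MP_9d1ffa_al
end

-- merged part: Pool.Agent.Work.MP_9d1ffa_al.UFin
section
/-! The two vanishing theorems. -/

namespace Pool.Agent.Work.MP_9d1ffa_al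

open Matrix MonoidAlgebra MulAction

set_option linter.unusedSectionVars false
set_option linter.unusedVariables false

open Pool.Agent.Work.MP_904812_al Monoid

variable {G : Type} [Group G] {ε : ℤˣ}

theorem unilAm_ab {D : Subgroup G} {E : Bool → Subgroup G} (h : ∀ i, D ≤ E i)
    (hc : ∀ i, ∃ n : ℕ, Nonempty (E i ≃* Multiplicative (Fin n → ℤ))) (c : ∀ i, E i)
    (hc1 : ∀ i, (c i : G) ∉ D) (hc2 : ∀ i (g : E i), (g : G) ∉ D → ((c i : G)⁻¹ * g) ∈ D) :
    UNilAm ε h := by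
  obtain ⟨χ, h1, h2, h3⟩ := am_chi h hc c hc1 hc2
  obtain ⟨n, ⟨e⟩⟩ := am_ker h hc c hc1 hc2 χ h2 h3
  intro J _ _ A hA hn
  have key : ∀ i, Deg (H := Am h) χ Odd (toAm h i (A i)) := fun i j k g hg => by
    classical
    obtain ⟨x, hx, rfl⟩ := Finset.mem_image.1
      (Finsupp.mapDomain_support (Finsupp.mem_support_iff.2 hg))
    exact h3 i x (hA i j k x (Finsupp.mem_support_iff.1 hx))
  exact z_iff.2 (unil_odd (H := Am h) χ h1 (k0Zero_free_ab e) (key true) (key false) hn)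

variable {V : Type} [MulAction G V]

open scoped Pointwise

theorem mem_stab_pair {a b : V} (hab : a ≠ b) {g : G} :
    g ∈ stabilizer G ({a, b} : Set V) ↔ g • (a, b) = (a, b) ∨ g • (a, b) = (b, a) := by
  rw [mem_stabilizer_iff, Set.smul_set_insert, Set.smul_set_singleton, Set.pair_eq_pair_iff]
  simp [Prod.ext_iff]

theorem locZ_tree {d : V → V → ℤ} (htr : Tr d) (iso : ∀ (g : G) x y, d (g • x) (g • y) = d x y)
    {σ τ : V × V} (hm : mvU d σ τ)
    (hU : ∀ h : ∀ i, (⨅ j, stabilizer G (bif j then τ else σ)) ≤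
        stabilizer G ({(bif i then τ else σ).1, (bif i then τ else σ).2} : Set V), UNilAm ε h) :
    LocZ G Prod.swap ε σ τ (σ.1, τ.2) := by
  have hne : ∀ i, (bif i then τ else σ).1 ≠ (bif i then τ else σ).2 := fun i => by
    cases i
    · exact hm.1
    · exact hm.2.1
  refine locZ_of_am (geo2_tree htr iso) hm (fun e => hm.1 (congrArg Prod.snd e))
    (fun e => hm.2.1 (congrArg Prod.snd e)) (fun i g hg => ?_) (fun g => ?_) (fun g hg => ?_)
    (fun g hg => ?_) (hU _)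
  · exact (mem_stab_pair (hne i)).2 (Or.inl (Subgroup.mem_iInf.1 hg i))
  · rw [Subgroup.mem_iInf, Bool.forall_bool]
    rfl
  · exact (mem_stab_pair (hne true)).2 (Or.inr hg)
  · exact (mem_stab_pair (hne false)).2 (Or.inr hg)

theorem unilTree_of_loc {T : SimpleGraph V} (hT : T.IsTree)
    (act : ∀ (g : G) (a b : V), T.Adj a b → T.Adj (g • a) (g • b))
    (hloc : ∀ σ τ : V × V, mvU (fun a b => (T.dist a b : ℤ)) σ τ →
      (∃ g : G, g • σ = σ.swap) → (∃ g : G, g • τ = τ.swap) →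
      LocZ G Prod.swap ε σ τ (σ.1, τ.2)) : UNilTree G T ε := by
  intro I _ _ a b ψ hab hψ hn
  have iso : ∀ (g : G) x y, (T.dist (g • x) (g • y) : ℤ) = T.dist x y := fun g x y => by
    rw [dist_smul hT act]
  obtain ⟨h1, h2⟩ := tree_init (tr_of_isTree hT) iso a b
    (fun i => by exact_mod_cast SimpleGraph.dist_eq_one_iff_adj.2 (hab i)) ψ hψ hn
  exact z_iff.2 (ll_main (geo2_tree (tr_of_isTree hT) iso) hloc (fun i => (a i, b i)) ψ h1 h2)

theorem stab_smul_of_comm {P : Type} [MulAction G P] {E : Subgroup G} {n : ℕ}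
    (e : E ≃* Multiplicative (Fin n → ℤ)) {η : P} (hη : stabilizer G η ≤ E) {g : G}
    (hg : g ∈ E) : stabilizer G (g • η) = stabilizer G η := by
  have cm : ∀ x ∈ E, ∀ y ∈ E, x * y = y * x := fun x hx y hy =>
    congrArg Subtype.val (e.injective (a₁ := ⟨x, hx⟩ * ⟨y, hy⟩) (a₂ := ⟨y, hy⟩ * ⟨x, hx⟩)
      (by rw [map_mul, map_mul, mul_comm]))
  ext x
  simp only [mem_stabilizer_iff]
  constructor
  · intro hx
    have h1 : (g⁻¹ * x * g) • η = η := by rw [mul_smul, mul_smul, hx, inv_smul_smul]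
    have h2 := cm _ (hη h1) g hg
    have h3 : g⁻¹ * x * g = x := by
      have : g * (g⁻¹ * x * g) = x * g := by group
      rw [this] at h2
      exact mul_right_cancel h2
    rwa [h3] at h1
  · intro hx
    rw [← mul_smul, cm x (hη hx) g hg, mul_smul, hx]

theorem unilTree_ab {T : SimpleGraph V} (hT : T.IsTree)
    (act : ∀ (g : G) (a b : V), T.Adj a b → T.Adj (g • a) (g • b))
    (hab : ∀ a b : V, a ≠ b → (∃ g : G, g • a = b ∧ g • b = a) →
      ∃ n : ℕ, Nonempty (stabilizer G ({a, b} : Set V) ≃* Multiplicative (Fin n → ℤ))) :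
    UNilTree G T ε := by
  have iso : ∀ (g : G) x y, (T.dist (g • x) (g • y) : ℤ) = T.dist x y := fun g x y => by
    rw [dist_smul hT act]
  have htr := tr_of_isTree hT
  have Γ := geo2_tree htr iso
  have hab' : ∀ σ : V × V, σ.1 ≠ σ.2 → (∃ g : G, g • σ = σ.swap) →
      ∃ n : ℕ, Nonempty (stabilizer G ({σ.1, σ.2} : Set V) ≃* Multiplicative (Fin n → ℤ)) :=
    fun σ h ⟨g, hg⟩ => hab _ _ h ⟨g, congrArg Prod.fst hg, congrArg Prod.snd hg⟩
  refine unilTree_of_loc hT act fun σ τ hm hσ hτ => ?_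
  obtain ⟨n, ⟨e⟩⟩ := hab' σ hm.1 hσ
  obtain ⟨n', ⟨e'⟩⟩ := hab' τ hm.2.1 hτ
  refine locZ_level Γ hm (fun g hg => ?_) (fun g hg => ?_) fun σ' τ' hm' hs hσ' hτ' => ?_
  · exact stab_smul_of_comm e' (fun x hx => (mem_stab_pair hm.2.1).2
      (Or.inl (Γ.stab _ _ hm x hx).2)) ((mem_stab_pair hm.2.1).2 (Or.inr hg))
  · exact stab_smul_of_comm e (fun x hx => (mem_stab_pair hm.1).2
      (Or.inl (Γ.stab _ _ hm x hx).1)) ((mem_stab_pair hm.1).2 (Or.inr hg))
  refine locZ_tree htr iso hm' fun h => ?_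
  have hne : ∀ i, (bif i then τ' else σ').1 ≠ (bif i then τ' else σ').2 := fun i => by
    cases i
    · exact hm'.1
    · exact hm'.2.1
  have hr : ∀ i, ∃ g : G, g • (bif i then τ' else σ') = (bif i then τ' else σ').swap := fun i => by
    cases i
    · exact hσ'
    · exact hτ'
  have hD : ∀ i (g : G), g ∈ (⨅ j, stabilizer G (bif j then τ' else σ')) ↔
      g • (bif i then τ' else σ') = (bif i then τ' else σ') := fun i g => by
    rw [Subgroup.mem_iInf, Bool.forall_bool]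
    cases i
    · exact ⟨fun e => e.1, fun e => ⟨e, hs ▸ e⟩⟩
    · exact ⟨fun e => e.2, fun e => ⟨hs ▸ e, e⟩⟩
  choose c hc using hr
  refine unilAm_ab h (fun i => hab' _ (hne i) ⟨c i, hc i⟩)
    (fun i => ⟨c i, (mem_stab_pair (hne i)).2 (Or.inr (hc i))⟩) (fun i e => ?_) fun i g hg => ?_
  · exact hne i (congrArg Prod.snd ((hc i).symm.trans ((hD i _).1 e)))
  · rw [hD i, mul_smul, inv_smul_eq_iff]
    exact (((mem_stab_pair (hne i)).1 g.2).resolve_left fun e => hg ((hD i _).2 e)).trans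
      (hc i).symm

end Pool.Agent.Work.MP_9d1ffa_al
end

-- merged part: Pool.Agent.Work.MP_9d1ffa_al.OK1
section
/-! Finite free resolutions of induced modules. -/

namespace Pool.Agent.Work.MP_9d1ffa_al

open Matrix MonoidAlgebra

set_option linter.unusedSectionVars false
set_option linter.unusedVariables false

variable {G : Type} [Group G] {J : Type} [Fintype J]

theorem OK1_base {R a b : Type} [Ring R] [Fintype a] [DecidableEq a] [Fintype b]
    (U : Matrix b J R) (V : Matrix b a R) (W : Matrix a b R)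
    (h1 : LinearMap.ker U.vecMulLinear = LinearMap.range W.vecMulLinear) (h2 : W * V = 1) :
    FF R 0 (LinearMap.range U.vecMulLinear) := by
  have h3 : ∀ y, y ᵥ* W ᵥ* V = y := fun y => by rw [vecMul_vecMul, h2, vecMul_one]
  have h4 : ∀ y, y ᵥ* W ᵥ* U = 0 := fun y => LinearMap.mem_ker.1 (h1.ge ⟨y, rfl⟩)
  have hb : Function.Bijective (U.vecMulLinear.rangeRestrict.prod V.vecMulLinear) := by
    constructor
    · refine (injective_iff_map_eq_zero _).2 fun x hx => ?_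
      obtain ⟨y, rfl⟩ := h1.le (LinearMap.mem_ker.2 (congrArg Subtype.val (congrArg Prod.fst hx)))
      have : y = 0 := (h3 y).symm.trans (congrArg Prod.snd hx)
      rw [this, map_zero]
    · rintro ⟨⟨_, x, rfl⟩, w⟩
      refine ⟨x + (w - x ᵥ* V) ᵥ* W, Prod.ext (Subtype.ext ?_) ?_⟩
      · show (x + (w - x ᵥ* V) ᵥ* W) ᵥ* U = x ᵥ* U
        rw [add_vecMul, h4, add_zero]
      · show (x + (w - x ᵥ* V) ᵥ* W) ᵥ* V = w
        rw [add_vecMul, h3, add_sub_cancel]
  have : Module.Free R (LinearMap.range U.vecMulLinear × (a → R)) :=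
    Module.Free.of_equiv (LinearEquiv.ofBijective _ hb)
  exact ⟨inferInstance, Module.IsStablyFree.of_free_prod R _ (a → R)⟩

theorem OK1_mats {S : Type} [Ring S] {Y : Submodule S (J → S)} (h : FF S 0 Y) :
    ∃ (a b : Type) (_ : Fintype a) (_ : DecidableEq a) (_ : Fintype b) (U : Matrix b J S)
      (V : Matrix b a S) (W : Matrix a b S), LinearMap.range U.vecMulLinear = Y ∧
      LinearMap.ker U.vecMulLinear = LinearMap.range W.vecMulLinear ∧ W * V = 1 := by
  classical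
  obtain ⟨h1, h2⟩ := h
  obtain ⟨N, _, _, _, _, _⟩ := Module.IsStablyFree.exist_free_prod S Y
  let ψ := (Module.Free.chooseBasis S N).equivFun
  let φ := (Module.Free.chooseBasis S (Y × N)).equivFun
  obtain ⟨U, hU⟩ := SF_mat (Y.subtype ∘ₗ LinearMap.fst S _ N ∘ₗ φ.symm.toLinearMap)
  obtain ⟨V, hV⟩ := SF_mat (ψ.toLinearMap ∘ₗ LinearMap.snd S _ N ∘ₗ φ.symm.toLinearMap)
  obtain ⟨W, hW⟩ := SF_mat (φ.toLinearMap ∘ₗ LinearMap.inr S _ N ∘ₗ ψ.symm.toLinearMap)
  refine ⟨_, _, inferInstance, inferInstance, inferInstance, U, V, W, le_antisymm ?_ ?_,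
    le_antisymm ?_ ?_, SF_ext fun x => ?_⟩
  · rintro _ ⟨x, rfl⟩
    rw [vecMulLinear_apply, hU]
    exact (φ.symm x).1.2
  · intro y hy
    exact ⟨φ (⟨y, hy⟩, 0), by rw [vecMulLinear_apply, hU]; simp⟩
  · intro x hx
    rw [LinearMap.mem_ker, vecMulLinear_apply, hU] at hx
    have e : (φ.symm x).1 = 0 := Subtype.ext hx
    refine ⟨ψ (φ.symm x).2, ?_⟩
    rw [vecMulLinear_apply, hW]
    simp only [LinearMap.comp_apply, LinearEquiv.coe_coe, LinearEquiv.symm_apply_apply,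
      LinearMap.inr_apply]
    rw [← e, Prod.mk.eta, LinearEquiv.apply_symm_apply]
  · rintro _ ⟨y, rfl⟩
    rw [LinearMap.mem_ker, vecMulLinear_apply, vecMulLinear_apply, hW, hU]
    simp
  · rw [← vecMul_vecMul, hW, hV]
    simp

theorem FF.ind {D : Subgroup G} {n : ℕ} {Y : Submodule (ZG D) (J → ZG D)}
    (h : FF (ZG D) n Y) : FF (ZG G) n (MP_9d1ffa_al.ind Y) := by
  induction n generalizing J with
  | zero =>
    obtain ⟨a, b, _, _, _, U, V, W, rfl, h1, h2⟩ := OK1_mats h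
    rw [← Ind_range]
    refine OK1_base _ (V.map (incl D)) (W.map (incl D)) ?_ ?_
    · rw [Ind_ker, Ind_range, h1]
    · rw [← Matrix.map_mul, h2, Matrix.map_one _ (map_zero _) (map_one _)]
  | succ n ih =>
    obtain ⟨k, f, hf, hk⟩ := h
    obtain ⟨M, hM⟩ := SF_mat (Y.subtype ∘ₗ f)
    have e : M.vecMulLinear = Y.subtype ∘ₗ f := LinearMap.ext hM
    have e1 : LinearMap.range M.vecMulLinear = Y := by
      rw [e, LinearMap.range_comp_of_range_eq_top _ (LinearMap.range_eq_top.2 hf),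
        Submodule.range_subtype]
    have e2 : LinearMap.ker M.vecMulLinear = LinearMap.ker f := by
      rw [e, LinearMap.ker_comp_of_ker_eq_bot _ (Submodule.ker_subtype Y)]
    rw [← e2] at hk
    rw [← e1, ← Ind_range]
    refine ⟨k, _, (M.map (incl D)).vecMulLinear.surjective_rangeRestrict, ?_⟩
    rw [LinearMap.ker_rangeRestrict, Ind_ker]
    exact ih hk

theorem ff_sub_fa (h : FA G) (Y : Submodule (ZG G) (J → ZG G)) : ∃ n, FF (ZG G) n Y := by
  obtain ⟨n, ⟨e⟩⟩ := h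
  let _ : CommGroup G :=
    { ‹Group G› with mul_comm := fun a b => e.injective (by rw [map_mul, map_mul, mul_comm]) }
  have h1 := (UFd_free n).1
  have h2 : IsNoetherianRing (ZG G) := isNoetherianRing_of_ringEquiv _
    ((AddMonoidAlgebra.toMultiplicativeAlgEquiv ℤ ℤ (Fin n → ℤ)).toRingEquiv.trans
      (MonoidAlgebra.mapDomainRingEquiv ℤ e.symm))
  exact UFd_comm e Y inferInstance

theorem FA.prod_int (h : FA G) : FA (G × Multiplicative ℤ) := by
  obtain ⟨n, ⟨e⟩⟩ := h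
  have e0 : (Fin (n + 1) → ℤ) ≃+ (Fin n → ℤ) × ℤ :=
    (Fin.consLinearEquiv ℤ fun _ : Fin (n + 1) => ℤ).symm.toAddEquiv.trans AddEquiv.prodComm
  exact ⟨n + 1, ⟨(e.prodCongr (MulEquiv.refl _)).trans
    ((MulEquiv.prodMultiplicative _ _).symm.trans (AddEquiv.toMultiplicative e0.symm))⟩⟩

theorem FA.tf (h : FA G) : TF G := by
  obtain ⟨n, ⟨e⟩⟩ := h
  intro g hg
  have := (e.toMonoidHom.isOfFinOrder hg).eq_one'
  exact e.injective (this.trans (map_one e).symm)

theorem TF.prod {H : Type} [Group H] (h : TF G) (h' : TF H) : TF (G × H) := fun g hg =>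
  Prod.ext (h _ ((MonoidHom.fst G H).isOfFinOrder hg)) (h' _ ((MonoidHom.snd G H).isOfFinOrder hg))

theorem TF.two (h : TF G) (g : G) (e : g * g = 1) : g = 1 :=
  h g (isOfFinOrder_iff_pow_eq_one.2 ⟨2, two_pos, by rw [pow_two, e]⟩)

theorem SFI.of_ret {H : Type} [Group H] (f : G →* H) (I : Type) [Fintype I] [DecidableEq I]
    {E : Matrix I I (ZG G)} (h : SFIdem E) : SFIdem (mp f E) := by
  obtain ⟨a, _, _, b, _, _, U, W, h1, h2⟩ := h
  refine ⟨a, inferInstance, inferInstance, b, inferInstance, inferInstance, U.map (gm f),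
    W.map (gm f), ?_, ?_⟩
  · rw [← Matrix.map_mul, h1, Matrix.map_one _ (map_zero _) (map_one _)]
  · rw [← Matrix.map_mul, h2, fromBlocks_map, Matrix.map_one _ (map_zero _) (map_one _),
      Matrix.map_zero _ (map_zero _), Matrix.map_zero _ (map_zero _), mp]

theorem sfIdem_of_ff {I : Type} [Fintype I] [DecidableEq I] {E : Matrix I I (ZG G)}
    (hE : E * E = E) {n : ℕ} (h : FF (ZG G) n (LinearMap.range E.vecMulLinear)) : SFIdem E := by
  have hp : Module.Projective (ZG G) (LinearMap.range E.vecMulLinear) :=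
    Module.Projective.of_split (LinearMap.range E.vecMulLinear).subtype
      E.vecMulLinear.rangeRestrict (LinearMap.ext fun ⟨_, x, rfl⟩ =>
        Subtype.ext (show x ᵥ* E ᵥ* E = x ᵥ* E by rw [vecMul_vecMul, hE]))
  obtain ⟨a, b, _, _, _, _, U, U₂, W, W₂, e1, e2, e3, e4, e5⟩ :=
    idem_stablyFree E hE (h.stablyFree hp)
  refine ⟨a, inferInstance, inferInstance, b, inferInstance, inferInstance, fromCols U U₂,
    fromRows W W₂, ?_, ?_⟩
  · rw [fromCols_mul_fromRows, e1]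
  · rw [fromRows_mul_fromCols, e2, e3, e4, e5]

end Pool.Agent.Work.MP_9d1ffa_al
end
end
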