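import Pool.Agent.Work.MP_9d1ffa_al.Triv

/-! Invertible matrices that preserve positions are stably trivial. -/

namespace Pool.Agent.Work.MP_9d1ffa_al

open Matrix MonoidAlgebra MulAction

set_option linter.unusedSectionVars false
set_option linter.unusedVariables false

variable {G : Type} [Group G] {F : Set (Subgroup G)} {P : Type} [MulAction G P] {I J : Type}
  [Fintype I] [DecidableEq I] [Fintype J] [DecidableEq J]

theorem posTriv_mul {R : Type*} [Ring R] {d e a b : R} (hc : d * a = a * d) (hc' : e * a = a * e) :
    (d * a + (1 - d)) * (e * b + (1 - e)) =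
      d * e * (a * b) + (d - d * e) * a + (e - d * e) * b + (1 - d - e + d * e) := by
  have h1 : d * a * (e * b) = d * e * (a * b) := by
    rw [mul_assoc, ← mul_assoc a, ← hc', mul_assoc, mul_assoc]
  have h2 : d * a * e = d * e * a := by rw [mul_assoc, ← hc', mul_assoc]
  rw [add_mul, mul_add, mul_add, h1, mul_sub, mul_one, h2]
  noncomm_ring

theorem posTriv_unit {R : Type*} [Ring R] {d a : R} (hd : d * d = d) (hc : d * a = a * d)
    (ha : IsUnit a) : IsUnit (d * a + (1 - d)) := by
  obtain ⟨⟨a, b, hab, hba⟩, rfl⟩ := ha
  dsimp only at hc ⊢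
  have hc' : d * b = b * d := by
    calc d * b = b * a * d * b := by rw [hba, one_mul]
      _ = b * d * (a * b) := by rw [mul_assoc b a, ← hc]; noncomm_ring
      _ = b * d := by rw [hab, mul_one]
  refine ⟨⟨_, d * b + (1 - d), ?_, ?_⟩, rfl⟩
  · rw [posTriv_mul hc hc, hd, hab]
    noncomm_ring
  · rw [posTriv_mul hc' hc', hd, hba]
    noncomm_ring

open Classical in
/-- the projection to the indices with positions in `s` -/
noncomputable def posTrivD (R : Type) {T : Type} [Ring R] (r : I → T) (s : Finset T) : Matrix I I R :=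
  diagonal fun i => if r i ∈ s then 1 else 0

theorem posTrivD_comm {R T : Type} [Ring R] (r : I → T) (r' : J → T) (s : Finset T)
    (A : Matrix I J R) (hA : ∀ i j, A i j ≠ 0 → r i = r' j) :
    posTrivD R r s * A = A * posTrivD R r' s := by
  ext i j
  rw [posTrivD, posTrivD, diagonal_mul, mul_diagonal]
  by_cases h : A i j = 0
  · simp [h]
  · rw [hA i j h]
    split_ifs <;> simp

theorem posTriv_sq (r : I → P) (hr : ∀ i j (g : G), r i = g • r j → r i = r j)
    (A : Matrix I I (ZG G)) (hU : IsUnit A) (hA : MOn r r Eq A)
    (hF : ∀ σ : P, ∃ H ∈ F, stabilizer G σ ≤ H) : Triv F A := by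
  classical
  have hc : ∀ s, posTrivD (ZG G) r s * A = A * posTrivD (ZG G) r s := fun s =>
    posTrivD_comm r r s A fun i j h => by
      obtain ⟨g, hg⟩ : ∃ g, (A i j).coeff g ≠ 0 := by
        by_contra e
        push Not at e
        exact h (by ext g; simpa using e g)
      exact hr i j g (hA i j g hg)
  have h1 : ∀ t, Triv F (posTrivD (ZG G) r {t} * A + (1 - posTrivD (ZG G) r {t})) := fun t => by
    obtain ⟨H, hH, hle⟩ := hF t
    refine triv_of_on hH (posTriv_unit ?_ (hc _) hU) fun i j g hg => ?_
    · rw [posTrivD, diagonal_mul_diagonal]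
      congr 1
      funext i
      split_ifs <;> simp
    · by_cases hi : r i = t
      · have e : (posTrivD (ZG G) r {t} * A + (1 - posTrivD (ZG G) r {t})) i j = A i j := by
          rw [Matrix.add_apply, Matrix.sub_apply, posTrivD, diagonal_mul]
          by_cases hij : i = j
          · subst hij
            simp [hi]
          · simp [hi, hij]
        rw [e] at hg
        have h2 := hA i j g hg
        have h3 := hr i j g h2
        refine hle (mem_stabilizer_iff.2 ?_)
        rw [← hi, h3, ← h2, h3]
      · have e : (posTrivD (ZG G) r {t} * A + (1 - posTrivD (ZG G) r {t})) i j =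
            (1 : Matrix I I (ZG G)) i j := by
          rw [Matrix.add_apply, Matrix.sub_apply, posTrivD, diagonal_mul]
          by_cases hij : i = j
          · subst hij
            simp [hi]
          · simp [hi, hij]
        rw [e] at hg
        have : g = 1 := by
          by_contra hg1
          apply hg
          by_cases hij : i = j
          · subst hij
            simp [MonoidAlgebra.one_def, Ne.symm hg1]
          · simp [hij]
        rw [this]
        exact H.one_mem
  have h2 : ∀ s : Finset P, Triv F (posTrivD (ZG G) r s * A + (1 - posTrivD (ZG G) r s)) := fun s => by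
    induction s using Finset.induction_on with
    | empty =>
      have : posTrivD (ZG G) r ∅ = 0 := by simp [posTrivD]
      rw [this, zero_mul, sub_zero, zero_add]
      exact triv_one
    | insert t s ht ih =>
      have e0 : posTrivD (ZG G) r {t} * posTrivD (ZG G) r s = 0 := by
        rw [posTrivD, posTrivD, diagonal_mul_diagonal, ← diagonal_zero]
        congr 1
        funext i
        by_cases hi : r i = t
        · simp [hi, ht]
        · simp [hi]
      have e1 : posTrivD (ZG G) r (insert t s) =
          posTrivD (ZG G) r {t} + posTrivD (ZG G) r s := by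
        rw [posTrivD, posTrivD, posTrivD, diagonal_add]
        congr 1
        funext i
        by_cases hi : r i = t
        · simp [hi, ht]
        · simp [hi]
      have := (h1 t).mul ih
      rw [posTriv_mul (hc _) (hc _), e0] at this
      rw [e1]
      refine cast (congrArg (Triv F) ?_) this
      noncomm_ring
  have e : posTrivD (ZG G) r (Finset.univ.image r) = 1 := by
    rw [posTrivD, ← diagonal_one]
    congr 1
    funext i
    simp
  have := h2 (Finset.univ.image r)
  rwa [e, one_mul, sub_self, add_zero] at this

theorem posTriv_equiv {T : Type} (r : I → T) (r' : J → T) (A : Matrix I J (ZG G))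
    (B : Matrix J I (ZG G)) (hAB : A * B = 1) (hBA : B * A = 1)
    (hA : ∀ i j, A i j ≠ 0 → r i = r' j) : ∃ e : I ≃ J, ∀ i, r' (e i) = r i := by
  classical
  let φ : ZG G →+* ℤ := (MonoidAlgebra.lift ℤ ℤ G 1).toRingHom
  have h1 : A.map φ * B.map φ = 1 := by
    rw [← Matrix.map_mul, hAB, Matrix.map_one _ (map_zero φ) (map_one φ)]
  have h2 : B.map φ * A.map φ = 1 := by
    rw [← Matrix.map_mul, hBA, Matrix.map_one _ (map_zero φ) (map_one φ)]
  have h3 : ∀ t, Fintype.card {i // r i = t} = Fintype.card {j // r' j = t} := fun t => by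
    have hc := posTrivD_comm r r' {t} (A.map φ) fun i j h =>
      hA i j fun e => h (by rw [Matrix.map_apply, e, map_zero])
    have e : trace (posTrivD ℤ r {t}) = trace (posTrivD ℤ r' {t}) := by
      calc trace (posTrivD ℤ r {t})
          = trace (posTrivD ℤ r {t} * A.map φ * B.map φ) := by
            rw [Matrix.mul_assoc, h1, Matrix.mul_one]
        _ = trace (B.map φ * (A.map φ * posTrivD ℤ r' {t})) := by rw [trace_mul_comm, hc]
        _ = _ := by rw [← Matrix.mul_assoc, h2, Matrix.one_mul]
    rw [posTrivD, posTrivD, trace_diagonal, trace_diagonal] at e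
    simp only [Finset.mem_singleton, Finset.sum_boole, Nat.cast_inj] at e
    rw [Fintype.card_subtype, Fintype.card_subtype]
    exact e
  exact ⟨Equiv.ofFiberEquiv fun t => Fintype.equivOfCardEq (h3 t), Equiv.ofFiberEquiv_map _⟩

theorem posTriv_diag (c : I → G) :
    (diagonal fun i => (single (c i) (1 : ℤ) : ZG G)) *
      (diagonal fun i => (single (c i)⁻¹ (1 : ℤ) : ZG G)) = 1 := by
  rw [diagonal_mul_diagonal, ← diagonal_one]
  congr 1
  funext i
  rw [single_mul_single, mul_inv_cancel, mul_one, MonoidAlgebra.one_def]

theorem posTriv_mOn_diag (c : I → G) (p r : I → P) (h : ∀ i, p i = c i • r i) :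
    MOn p r Eq (diagonal fun i => (single (c i) (1 : ℤ) : ZG G)) := fun i j g hg => by
  by_cases hij : i = j
  · subst hij
    have : c i = g := by
      by_contra e
      apply hg
      simp [e]
    rw [← this, h]
  · simp [hij] at hg

theorem posTriv (p : I → P) (q : J → P) (A : Matrix I J (ZG G)) (B : Matrix J I (ZG G))
    (hAB : A * B = 1) (hBA : B * A = 1) (hA : MOn p q Eq A)
    (hF : ∀ σ : P, ∃ H ∈ F, stabilizer G σ ≤ H) : TrivR F A := by
  let o : P → Quotient (orbitRel G P) := Quotient.mk _
  have ho : ∀ (g : G) σ, o (g • σ) = o σ := fun g σ => Quotient.sound ⟨g, rfl⟩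
  have hout : ∀ σ : P, ∃ g : G, σ = g • (o σ).out := fun σ => by
    obtain ⟨g, hg⟩ := (orbitRel G P).symm (Quotient.mk_out (s := orbitRel G P) σ)
    exact ⟨g, hg.symm⟩
  choose c hc using hout
  obtain ⟨e, he⟩ := posTriv_equiv (fun i => o (p i)) (fun j => o (q j)) A B hAB hBA
    fun i j h => by
      obtain ⟨g, hg⟩ : ∃ g, (A i j).coeff g ≠ 0 := by
        by_contra e
        push Not at e
        exact h (by ext g; simpa using e g)
      show o (p i) = o (q j)
      rw [hA i j g hg, ho]
  refine ⟨e, ?_⟩
  let r : I → P := fun i => (o (p i)).out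
  have hr : ∀ i j (g : G), r i = g • r j → r i = r j := fun i j g h => by
    have := congrArg o h
    rw [ho] at this
    simp only [r, o, Quotient.out_eq] at this
    simp only [r, o, this]
  have hU : IsUnit (A.submatrix id e) :=
    ⟨⟨A.submatrix id e, B.submatrix e id, by
      rw [submatrix_mul_equiv, hAB, submatrix_id_id], by
      rw [← submatrix_mul _ _ _ _ _ Function.bijective_id, hBA, submatrix_one_equiv]⟩, rfl⟩
  have hA0 : MOn p (fun i => q (e i)) Eq (A.submatrix id e) := fun i j g h => hA i (e j) g h
  have hD1 : MOn r p Eq (diagonal fun i => (single (c (p i))⁻¹ (1 : ℤ) : ZG G)) :=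
    posTriv_mOn_diag _ r p fun i => by
      rw [eq_inv_smul_iff]
      exact (hc (p i)).symm
  have hD2 : MOn (fun i => q (e i)) r Eq
      (diagonal fun i => (single (c (q (e i))) (1 : ℤ) : ZG G)) :=
    posTriv_mOn_diag _ _ r fun i => by
      have := hc (q (e i))
      rwa [he i] at this
  have hM := ((hD1.mul hA0 inv_eq).mul hD2 inv_eq).mono
    (ρ' := Eq) fun a b ⟨_, ⟨_, h1, h2⟩, h3⟩ => h1.trans (h2.trans h3)
  have hT := posTriv_sq r hr _
    (((triv_diag (F := F) _).isUnit.mul hU).mul (triv_diag (F := F) _).isUnit) hM hF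
  exact (triv_diag _).of_mul_left ((triv_diag _).of_mul_right hT)

end Pool.Agent.Work.MP_9d1ffa_al
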