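import Pool.Agent.Work.MP_9d1ffa_al.SF
import Pool.Agent.Work.MP_9d1ffa_al.PosTriv

/-! The vertex part of a split matrix is stably trivial. -/

namespace Pool.Agent.Work.MP_9d1ffa_al

open Matrix MonoidAlgebra MulAction

set_option linter.unusedSectionVars false
set_option linter.unusedVariables false

variable {G : Type} [Group G] {F : Set (Subgroup G)} {V : Type} [MulAction G V] {I : Type}
  [Fintype I] [DecidableEq I]

theorem Gamma_mOn {P B₁ B₂ A₁ A₂ : Type} [MulAction G P] {p₁ : B₁ → P} {p₂ : B₂ → P} {q : I → P}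
    {r₁ : A₁ → P} {r₂ : A₂ → P} {U₁ : Matrix B₁ I (ZG G)} {U₂ : Matrix B₂ I (ZG G)}
    {X₁ : Matrix B₁ A₁ (ZG G)} {X₂ : Matrix B₂ A₂ (ZG G)} (h₁ : MOn p₁ q Eq U₁)
    (h₂ : MOn p₂ q Eq U₂) (k₁ : MOn p₁ r₁ Eq X₁) (k₂ : MOn p₂ r₂ Eq X₂) :
    MOn (Sum.elim p₁ p₂) (Sum.elim q (Sum.elim r₁ r₂)) Eq
      (fromCols (fromRows U₁ U₂) (fromBlocks X₁ 0 0 X₂)) := by
  rintro (i | i) (j | j | j) g e
  · exact h₁ i j g e
  · exact k₁ i j g e
  · simp at e
  · exact h₂ i j g e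
  · simp at e
  · exact k₂ i j g e

theorem gamma_triv (z : I → V × V) (q : I → V) (π A B ζ : Matrix I I (ZG G))
    (h1 : SF z π) (h2 : SF z (1 - π)) (hA : MOn z q (fun z v => v = z.2) A)
    (hB : MOn z q (fun z v => v = z.1) B) (e1 : (π * A + (1 - π) * B) * ζ = 1)
    (e2 : ζ * (π * A + (1 - π) * B) = 1) (hF : ∀ v : V, ∃ H ∈ F, stabilizer G v ≤ H) :
    Triv F (π * A + (1 - π) * B) := by
  obtain ⟨a, b, _, _, _, _, pa, pb, U, U₂, W, W₂, m1, m2, -, -, s1, s2, s3, s4, s5⟩ := h1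
  obtain ⟨a', b', _, _, _, _, pa', pb', U', U₂', W', W₂', m1', m2', -, -, t1, t2, t3, t4, t5⟩ := h2
  have u1 : U * π = U := by
    rw [← s2, ← Matrix.mul_assoc, eq_sub_of_add_eq s1, Matrix.sub_mul, Matrix.mul_assoc, s4]
    simp
  have u2 : U' * π = 0 := by
    have : U' * (1 - π) = U' := by
      rw [← t2, ← Matrix.mul_assoc, eq_sub_of_add_eq t1, Matrix.sub_mul, Matrix.mul_assoc, t4]
      simp
    rwa [Matrix.mul_sub, Matrix.mul_one, sub_eq_self] at this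
  have w1 : π * W = W := by
    rw [← s2, Matrix.mul_assoc, eq_sub_of_add_eq s1, Matrix.mul_sub, ← Matrix.mul_assoc, s3]
    simp
  have w2 : (1 - π) * W' = W' := by
    rw [← t2, Matrix.mul_assoc, eq_sub_of_add_eq t1, Matrix.mul_sub, ← Matrix.mul_assoc, t3]
    simp
  have u3 : U * (1 - π) = 0 := by rw [Matrix.mul_sub, Matrix.mul_one, u1, sub_self]
  have u4 : U' * (1 - π) = U' := by rw [Matrix.mul_sub, Matrix.mul_one, u2, sub_zero]
  have x1 : U * W' = 0 := by rw [← w2, ← Matrix.mul_assoc, u3, Matrix.zero_mul]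
  have x2 : U' * W = 0 := by rw [← w1, ← Matrix.mul_assoc, u2, Matrix.zero_mul]
  let Θ := fromCols (fromRows U U') (fromBlocks U₂ 0 0 U₂')
  let Θ' := fromRows (fromCols W W') (fromBlocks W₂ 0 0 W₂')
  have θ1 : Θ * Θ' = 1 := by
    simp [Θ, Θ', fromCols_mul_fromRows, fromRows_mul_fromCols, fromBlocks_multiply,
      fromBlocks_add, x1, x2, s1, t1]
  have θ2 : Θ' * Θ = 1 := by
    simp [Θ, Θ', fromCols_mul_fromRows, fromRows_mul_fromCols, fromBlocks_multiply,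
      fromCols_mul_fromBlocks, fromBlocks_mul_fromRows, s2, s3, s4, s5, t2, t3, t4, t5]
  have T1 : TrivR F Θ := posTriv _ _ Θ Θ' θ1 θ2 (Gamma_mOn m1 m1' m2 m2') fun σ => by
    obtain ⟨H, hH, h⟩ := hF σ.1
    exact ⟨H, hH, fun g hg => h (congrArg Prod.fst (mem_stabilizer_iff.1 hg))⟩
  generalize hγ : π * A + (1 - π) * B = γ at e1 e2
  let Γ : Matrix (I ⊕ (a ⊕ a')) (I ⊕ (a ⊕ a')) (ZG G) := fromBlocks γ 0 0 1
  let Z : Matrix (I ⊕ (a ⊕ a')) (I ⊕ (a ⊕ a')) (ZG G) := fromBlocks ζ 0 0 1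
  have z1 : Γ * Z = 1 := by simp [Γ, Z, fromBlocks_multiply, e1]
  have z2 : Z * Γ = 1 := by simp [Γ, Z, fromBlocks_multiply, e2]
  have γ1 : Θ * Γ = fromCols (fromRows (U * A) (U' * B)) (fromBlocks U₂ 0 0 U₂') := by
    have a1 : U * γ = U * A := by simp [← hγ, Matrix.mul_add, ← Matrix.mul_assoc, u1, u3]
    have a2 : U' * γ = U' * B := by simp [← hγ, Matrix.mul_add, ← Matrix.mul_assoc, u2, u4]
    rw [fromCols_mul_fromBlocks]
    simp [fromRows_mul, a1, a2]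
  have i1 : Inv G fun (z : V × V) (v : V) => v = z.2 := fun g a b h => h ▸ rfl
  have i2 : Inv G fun (z : V × V) (v : V) => v = z.1 := fun g a b h => h ▸ rfl
  have T2 : TrivR F (Θ * Γ) := by
    refine posTriv (Sum.elim (fun x => (pb x).2) fun x => (pb' x).1)
      (Sum.elim q (Sum.elim (fun x => (pa x).2) fun x => (pa' x).1)) _ (Z * Θ') ?_ ?_ ?_ hF
    · rw [Matrix.mul_assoc, ← Matrix.mul_assoc Γ, z1, Matrix.one_mul, θ1]
    · rw [Matrix.mul_assoc, ← Matrix.mul_assoc Θ', θ2, Matrix.one_mul, z2]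
    rw [γ1]
    refine Gamma_mOn (fun i j g e => ?_) (fun i j g e => ?_) (fun i j g e => ?_) fun i j g e => ?_
    · obtain ⟨c, rfl, h⟩ := m1.mul hA i1 i j g e
      exact h.symm
    · obtain ⟨c, rfl, h⟩ := m1'.mul hB i2 i j g e
      exact h.symm
    · exact congrArg Prod.snd (m2 i j g e)
    · exact congrArg Prod.fst (m2' i j g e)
  exact triv_block_iff.1 (T1.of_mul_left T2)

end Pool.Agent.Work.MP_9d1ffa_al
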