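import Pool.Agent.Work.MP_9d1ffa_al.Triv
import Pool.Agent.Work.MP_904812_al.Geom

/-! Linearisation of an invertible matrix along a tree. -/

namespace Pool.Agent.Work.MP_9d1ffa_al

open Matrix MonoidAlgebra MulAction

set_option linter.unusedSectionVars false
set_option linter.unusedVariables false

open Pool.Agent.Work.MP_904812_al

variable {G : Type} [Group G] {F : Set (Subgroup G)} {V : Type} [MulAction G V] {ι : Type}
  [Fintype ι] [DecidableEq ι]

theorem Lin_path {d : V → V → ℤ} (htr : Tr d) (v₀ : V) (k : ℕ) : ∀ y, d v₀ y = k →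
    ∃ (x : ℕ → V) (n : ℕ), x 0 = v₀ ∧ (∀ m, x (m + 1) = x m ∨ d (x (m + 1)) (x m) = 1) ∧
      ∀ m, n ≤ m → x m = y := by
  induction k with
  | zero => exact fun y hy => ⟨fun _ => v₀, 0, rfl, fun _ => Or.inl rfl, fun _ _ => htr.eq_of hy⟩
  | succ k ih =>
    intro y hy
    obtain ⟨p, h1, h2⟩ := htr.ex_pt v₀ y k (by positivity) (by rw [hy]; push_cast; omega)
    obtain ⟨x, n, h3, h4, h5⟩ := ih p h1
    refine ⟨fun m => if m ≤ n then x m else y, n + 1, by simpa using h3, fun m => ?_,
      fun m hm => if_neg (by omega)⟩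
    rcases lt_trichotomy m n with h | rfl | h
    · simpa only [if_pos (show m + 1 ≤ n from h), if_pos h.le] using h4 m
    · right
      simp only [if_neg (Nat.not_succ_le_self m), if_pos le_rfl, h5 m le_rfl]
      rw [htr.symm]
      rw [h1, hy] at h2
      push_cast at h2
      omega
    · left
      simp only [if_neg (show ¬ m + 1 ≤ n by omega), if_neg (show ¬ m ≤ n by omega)]

theorem Lin_one {g : G} (h : (1 : ZG G).coeff g ≠ 0) : g = 1 := by
  by_contra hg
  apply h
  simp [MonoidAlgebra.one_def, Ne.symm hg]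

theorem Lin_neg_one {g : G} (h : (-1 : ZG G).coeff g ≠ 0) : g = 1 :=
  Lin_one (by simpa using h)

theorem Lin_sum (x : ZG G) (S : Finset G) (h : x.coeff.support ⊆ S) :
    ∑ s : S, (single s.1 (x.coeff s.1) : ZG G) = x := by
  classical
  rw [Finset.sum_coe_sort S fun s => (single s (x.coeff s) : ZG G)]
  ext g
  simp only [coeff_sum, Finsupp.finsetSum_apply, coeff_single, Finsupp.single_apply]
  rw [Finset.sum_ite_eq']
  split_ifs with hg
  · rfl
  · by_contra e
    exact hg (h (Finsupp.mem_support_iff.2 (Ne.symm e)))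

theorem Lin_block {T : Type} [Fintype T] [DecidableEq T] {α : Matrix ι ι (ZG G)} (hα : IsUnit α)
    (C : Matrix ι T (ZG G)) (P a : Matrix T ι (ZG G)) (Q : Matrix T T (ZG G)) (h : T → ℕ)
    (hQ : ∀ t t', Q t t' ≠ 0 → h t < h t') (h1 : C * a = α) (h2 : P + (1 + Q) * a = 0) :
    IsUnit (fromBlocks 0 C P (1 + Q)) ∧ (Triv F (fromBlocks 0 C P (1 + Q)) → Triv F α) := by
  obtain ⟨u, rfl⟩ := hα
  have tL : ∀ F : Set (Subgroup G), Triv F (fromBlocks 1 0 a 1 : Matrix (ι ⊕ T) (ι ⊕ T) (ZG G)) :=
    fun F => by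
      have := triv_tri (F := F) (Sum.elim (fun _ : ι => 1) fun _ : T => 0) (fromBlocks 0 0 a 0)
        (by rintro (i | i) (j | j) e <;> simp at e ⊢)
      rwa [← fromBlocks_one, fromBlocks_add, add_zero, add_zero, zero_add, add_zero] at this
  have tR : ∀ F : Set (Subgroup G), Triv F (fromBlocks 1 ((↑u⁻¹ : Matrix ι ι (ZG G)) * C) 0 (1 + Q)) :=
    fun F => by
      have := triv_tri (F := F) (Sum.elim (fun _ : ι => 0) fun t : T => h t + 1)
        (fromBlocks 0 ((↑u⁻¹ : Matrix ι ι (ZG G)) * C) 0 Q)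
        (by
          rintro (i | i) (j | j) e
          · simp at e
          · simp
          · simp at e
          · simpa using hQ i j e)
      rwa [← fromBlocks_one, fromBlocks_add, add_zero, zero_add, add_zero] at this
  have e : fromBlocks 0 C P (1 + Q) * fromBlocks 1 0 a 1 =
      fromBlocks (u : Matrix ι ι (ZG G)) 0 0 1 *
        fromBlocks 1 ((↑u⁻¹ : Matrix ι ι (ZG G)) * C) 0 (1 + Q) := by
    rw [fromBlocks_multiply, fromBlocks_multiply]
    simp only [Matrix.mul_one, Matrix.zero_mul, Matrix.mul_zero, Matrix.one_mul, zero_add, add_zero,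
      h1, h2, ← Matrix.mul_assoc, Units.mul_inv]
  refine ⟨?_, fun hβ => triv_block_iff.1 ((tR F).of_mul_right (e ▸ hβ.mul (tL F)))⟩
  obtain ⟨l, hl⟩ := (tL F).isUnit
  rw [← Units.isUnit_mul_units _ l, hl, e]
  refine IsUnit.mul ?_ (tR F).isUnit
  refine ⟨⟨fromBlocks (u : Matrix ι ι (ZG G)) 0 0 1, fromBlocks (↑u⁻¹ : Matrix ι ι (ZG G)) 0 0 1,
    ?_, ?_⟩, rfl⟩ <;> simp only [fromBlocks_multiply, Matrix.mul_one, Matrix.zero_mul,
      Matrix.mul_zero, zero_add, add_zero, Units.mul_inv, Units.inv_mul, fromBlocks_one]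

theorem lin {d : V → V → ℤ} (htr : Tr d) (v₀ : V) (α : Matrix ι ι (ZG G)) (hα : IsUnit α) :
    ∃ (J : Type) (_ : Fintype J) (_ : DecidableEq J) (z : J → V × V) (q : J → V)
      (β : Matrix J J (ZG G)), IsUnit β ∧ (∀ i, (z i).1 = (z i).2 ∨ d (z i).1 (z i).2 = 1) ∧
      MOn z q (fun z v => v = z.1 ∨ v = z.2) β ∧ (Triv F β → Triv F α) := by
  classical
  let S : Finset G := Finset.univ.biUnion fun p : ι × ι => (α p.1 p.2).coeff.support
  have hS : ∀ i j, (α i j).coeff.support ⊆ S := fun i j =>
    Finset.subset_biUnion_of_mem (fun p : ι × ι => (α p.1 p.2).coeff.support)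
      (Finset.mem_univ (i, j))
  choose x n hx0 hx1 hx2 using fun s : G => Lin_path htr v₀ (d v₀ (s⁻¹ • v₀)).toNat (s⁻¹ • v₀)
    (Int.toNat_of_nonneg (htr.nonneg _ _)).symm
  let N := S.sup n
  let T := ι × S × Fin (N + 1)
  let pr : T → T := fun t => (t.1, t.2.1, ⟨t.2.2.1 - 1, by have := t.2.2.2; omega⟩)
  let C : Matrix ι T (ZG G) := Matrix.of fun i t =>
    if t.2.2 = Fin.last N then single t.2.1.1 ((α i t.1).coeff t.2.1.1) else 0
  let P : Matrix T ι (ZG G) := Matrix.of fun t j => if t.2.2.1 = 0 ∧ t.1 = j then -1 else 0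
  let a : Matrix T ι (ZG G) := Matrix.of fun t j => if t.1 = j then 1 else 0
  let Q : Matrix T T (ZG G) := Matrix.of fun t t' => if t.2.2.1 ≠ 0 ∧ pr t = t' then -1 else 0
  obtain ⟨h1, h2⟩ := Lin_block (F := F) hα C P a Q (fun t => N + 1 - t.2.2.1)
    (fun t t' e => by
      simp only [Q, Matrix.of_apply, ne_eq, ite_eq_right_iff, Classical.not_imp] at e
      obtain ⟨⟨e1, rfl⟩, -⟩ := e
      have := t.2.2.2
      simp only [pr]
      omega)
    (by
      funext i j
      simp only [Matrix.mul_apply, C, a, Matrix.of_apply, T, Fintype.sum_prod_type, mul_ite, mul_one,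
        mul_zero]
      rw [Finset.sum_eq_single j (fun j' _ hj => by simp [hj]) (by simp)]
      simp only [if_true, Finset.sum_ite_eq', Finset.mem_univ]
      exact Lin_sum _ S (hS i j))
    (by
      funext t j
      rw [Matrix.add_mul, Matrix.one_mul]
      simp only [Matrix.add_apply, Matrix.mul_apply, P, a, Q, Matrix.of_apply, Matrix.zero_apply]
      by_cases h : t.2.2.1 = 0
      · simp only [h, true_and, ne_eq, not_true, false_and, if_false, zero_mul,
          Finset.sum_const_zero, add_zero]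
        split_ifs <;> simp
      · rw [Finset.sum_eq_single (pr t) (fun b _ hb => by rw [if_neg fun e => hb e.2.symm, zero_mul])
          (fun e => absurd (Finset.mem_univ _) e), if_neg fun e => h e.1,
          if_pos (show t.2.2.1 ≠ 0 ∧ pr t = pr t from ⟨h, rfl⟩)]
        simp only [pr]
        split_ifs <;> simp)
  refine ⟨ι ⊕ T, inferInstance, inferInstance,
    Sum.elim (fun _ => (v₀, v₀)) fun t => (x t.2.1.1 (t.2.2.1 + 1), x t.2.1.1 t.2.2.1),
    Sum.elim (fun _ => v₀) fun t => x t.2.1.1 (t.2.2.1 + 1), _, h1, ?_, ?_, h2⟩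
  · rintro (i | t)
    · exact Or.inl rfl
    · exact hx1 _ _
  · rintro (i | t) (j | t') g e
    · simp at e
    · simp only [fromBlocks_apply₁₂, C, Matrix.of_apply] at e
      split_ifs at e with h
      · left
        have e1 : t'.2.1.1 = g := by
          by_contra hg
          exact e (by simp [hg])
        have e2 : n t'.2.1.1 ≤ t'.2.2.1 + 1 := by
          rw [h, Fin.val_last]
          exact (Finset.le_sup (f := n) t'.2.1.2).trans (Nat.le_succ _)
        simp only [Sum.elim_inr, Sum.elim_inl]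
        rw [hx2 _ _ e2, e1, smul_inv_smul]
      · simp at e
    · simp only [fromBlocks_apply₂₁, P, Matrix.of_apply] at e
      split_ifs at e with h
      · right
        simp only [Sum.elim_inr, Sum.elim_inl]
        rw [Lin_neg_one e, one_smul, h.1, hx0]
      · simp at e
    · simp only [fromBlocks_apply₂₂, Matrix.add_apply, Q, Matrix.of_apply, Matrix.one_apply] at e
      simp only [Sum.elim_inr]
      split_ifs at e with c1 c2 c2
      · exfalso
        have := congrArg (fun t : T => t.2.2.1) (c2.2.trans c1.symm)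
        have := c2.1
        simp only [pr] at *
        omega
      · left
        rw [Lin_one (g := g) (by simpa using e), one_smul, c1]
      · right
        rw [Lin_neg_one (g := g) (by simpa using e), one_smul, ← c2.2]
        simp only [pr]
        rw [Nat.sub_add_cancel (Nat.pos_of_ne_zero c2.1)]
      · simp at e

end Pool.Agent.Work.MP_9d1ffa_al
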