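import Pool.Agent.Work.MP_9d1ffa_al.CoreB
import Pool.Agent.Work.MP_9d1ffa_al.Gamma
import Pool.Agent.Work.MP_9d1ffa_al.Lin

/-! Every invertible matrix is equivalent to a nilpotent class on the directed edges. -/

namespace Pool.Agent.Work.MP_9d1ffa_al

open Matrix MonoidAlgebra MulAction

set_option linter.unusedSectionVars false
set_option linter.unusedVariables false

open Pool.Agent.Work.MP_904812_al

variable {G : Type} [Group G] {F : Set (Subgroup G)} {V : Type} [MulAction G V] {ι : Type}
  [Fintype ι] [DecidableEq ι] {d : V → V → ℤ}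

theorem tree_nil (htr : Tr d) (v₀ : V) (iso : ∀ (g : G) x y, d (g • x) (g • y) = d x y)
    (noinv : ∀ (g : G) x y, d x y = 1 → g • x = y → g • y ≠ x)
    (hK : ∀ x y : V, d x y = 1 → K0Zero (stabilizer G (x, y)))
    (hF : ∀ v : V, ∃ H ∈ F, stabilizer G v ≤ H)
    (α : Matrix ι ι (ZG G)) (hα : IsUnit α) :
    ∃ (I : Type) (_ : Fintype I) (_ : DecidableEq I) (y : I → V × V) (ν : Matrix I I (ZG G)),
      MOn y y (stp d) ν ∧ NilP y ν ∧ (Triv F (1 + ν) → Triv F α) := by
  classical
  obtain ⟨J, _, _, z₀, q, β, hβ, hz, hon, himp⟩ := lin (F := F) htr v₀ α hα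
  obtain ⟨O, oinv, oasym, otot⟩ := exists_orient (G := G) htr noinv
  obtain ⟨β', e1, e2⟩ := isUnit_iff_exists.1 hβ
  let z : J → V × V := fun i => if O (z₀ i) then z₀ i else (z₀ i).swap
  have h : CoreH d O z q β β' := by
    refine ⟨htr, iso, oinv, oasym, fun i => ?_, fun i j g e => ?_, e1, e2⟩
    · by_cases o : O (z₀ i)
      · simp only [z, if_pos o]
        exact (hz i).imp id fun a => ⟨a, o⟩
      · simp only [z, if_neg o]
        rcases hz i with a | a
        · exact Or.inl a.symm
        · exact Or.inr ⟨(htr.symm _ _).trans a, (otot _ _ a).resolve_left o⟩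
    · have := hon i j g e
      by_cases o : O (z₀ i)
      · simpa only [z, if_pos o] using this
      · simp only [z, if_neg o]
        exact this.symm
  obtain ⟨ν, h1, h2, h3⟩ := h.nil (F := F)
  refine ⟨J ⊕ J, inferInstance, inferInstance, _, ν, h1, h2, fun t => himp ?_⟩
  have hKz : ∀ i, (z i).1 ≠ (z i).2 → K0Zero (stabilizer G (z i)) := fun i a =>
    hK _ _ ((h.hz i).resolve_left a).1
  have idem := h.pim_idem
  have dd : edgeD G z * edgeD G z = edgeD G z := by
    rw [edgeD, diagonal_mul_diagonal]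
    congr 1
    funext i
    split_ifs <;> simp
  let Dv : Matrix J J (ZG G) := diagonal fun i => if (z i).1 = (z i).2 then 1 else 0
  have d1 : Dv + edgeD G z = 1 := by
    rw [edgeD, diagonal_add, ← diagonal_one]
    congr 1
    funext i
    split_ifs <;> simp
  have d2 : Dv * pim z q β β' = Dv := by
    funext i
    by_cases a : (z i).1 = (z i).2
    · funext j
      rw [diagonal_mul, h.pim_vertex a]
      simp [Dv, diagonal_apply, a, Pi.single_apply, eq_comm]
    · funext j
      rw [diagonal_mul]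
      simp [Dv, diagonal_apply, a]
  have d3 : Dv = 1 - edgeD G z := eq_sub_of_add_eq d1
  have s1 : SF z (pim z q β β') := by
    have e : pim z q β β' = Dv + edgeD G z * pim z q β β' := by
      rw [← d2, ← add_mul, d1, one_mul]
    rw [e]
    refine (sf_diag z _).add (sf_main z _ ?_ ?_ ?_) ?_ ?_
    · rw [mul_assoc, ← mul_assoc (pim z q β β'), h.edgeD_comm, mul_assoc, idem, ← mul_assoc, dd]
    · exact (edgeD_on.mul h.pim_on inv_eq).mono fun _ _ ⟨_, a, b⟩ => a.trans b
    · intro i hi
      refine hKz i fun a => hi ?_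
      funext j
      rw [edgeD, diagonal_mul, if_pos a, zero_mul]
      rfl
    · change Dv * _ = 0
      rw [← mul_assoc, d3, sub_mul, one_mul, dd, sub_self, zero_mul]
    · change _ * Dv = 0
      rw [← h.edgeD_comm, mul_assoc, d3, mul_sub, mul_one, dd, sub_self, mul_zero]
  have s2 : SF z (1 - pim z q β β') := by
    refine sf_main z _ ?_ ((mOn_one z).sub h.pim_on) fun i hi => hKz i fun a => hi ?_
    · rw [mul_sub, mul_one, sub_mul 1, one_mul, idem, sub_self, sub_zero]
    · funext j
      rw [Matrix.sub_apply, h.pim_vertex a]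
      simp [Matrix.one_apply, Pi.single_apply, eq_comm]
  have g1 : Triv F (gam z q β β') :=
    gamma_triv z q _ _ _ (zet z q β') s1 s2 h.bp_on (h.bm_on.mono fun _ _ a => a.1) h.gam_zet
      h.zet_gam hF
  have := (h3 t).mul g1
  rwa [mul_assoc, h.zet_gam, mul_one] at this

/-- the main theorem for trees, metric form -/
theorem tree_main (htr : Tr d) (v₀ : V) (iso : ∀ (g : G) x y, d (g • x) (g • y) = d x y)
    (noinv : ∀ (g : G) x y, d x y = 1 → g • x = y → g • y ≠ x)
    (hK : ∀ x y : V, d x y = 1 → K0Zero (stabilizer G (x, y)))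
    (hF : ∀ v : V, ∃ H ∈ F, stabilizer G v ≤ H)
    (hchain : ∀ f : ℕ → V × V, (∀ n, subT d (f n) (f (n + 1)) ∧
      stabilizer G (f (n + 1)) < stabilizer G (f n)) → ∃ n, RC (stabilizer G (f n)))
    (haxis : ∀ (σ : V × V) (s : G), mvT d σ (s • σ) →
      s ∈ Subgroup.normalizer (stabilizer G σ : Set G) → ¬ RC (stabilizer G σ) →
      ∃ H ∈ F, stabilizer G σ ⊔ Subgroup.zpowers s ≤ H) :
    WhGen F := by
  intro n α hα
  obtain ⟨I, _, _, y, ν, h1, h2, h3⟩ := tree_nil (F := F) htr v₀ iso noinv hK hF α hα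
  exact h3 (machine (mach_tree htr iso) hchain haxis y ν
    (h1.mono fun _ _ a => stp_mvT htr a) h2)

end Pool.Agent.Work.MP_9d1ffa_al
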