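import Pool.Agent.Work.MP_9d1ffa_al.Triv0

/-! Examples of stably trivial matrices. -/

namespace Pool.Agent.Work.MP_9d1ffa_al

open Matrix MonoidAlgebra MulAction

set_option linter.unusedSectionVars false
set_option linter.unusedVariables false

variable {G : Type} [Group G] {F : Set (Subgroup G)} {ι κ μ : Type} [Fintype ι] [DecidableEq ι]
  [Fintype κ] [DecidableEq κ] [Fintype μ] [DecidableEq μ]

theorem triv_elem {i j : ι} (hij : i ≠ j) (r : ZG G) : Triv F (1 + Matrix.single i j r) :=
  triv_of_mem (Submonoid.subset_closure (Or.inl ⟨i, j, r, hij, rfl⟩))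

theorem triv_sgn (g : ι → G) (ε : ι → ℤˣ) :
    Triv F (diagonal fun i => (single (g i) (ε i : ℤ) : ZG G)) :=
  triv_of_mem (Submonoid.subset_closure (Or.inr (Or.inl ⟨g, ε, rfl⟩)))

/-- strictly triangular perturbations of the identity -/
theorem triv_tri (h : ι → ℕ) (a : Matrix ι ι (ZG G)) (ha : ∀ i j, a i j ≠ 0 → h i < h j) :
    Triv F (1 + a) := by
  classical
  suffices H : ∀ (n : ℕ) (a : Matrix ι ι (ZG G)), (∀ i j, a i j ≠ 0 → h i < h j) →
      (Finset.univ.filter fun x : ι × ι => a x.1 x.2 ≠ 0).card = n → Triv F (1 + a) from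
    H _ a ha rfl
  intro n
  induction n using Nat.strong_induction_on with
  | _ n ih =>
  intro a ha hn
  rcases (Finset.univ.filter fun x : ι × ι => a x.1 x.2 ≠ 0).eq_empty_or_nonempty with e | e
  · have : a = 0 := by
      funext i j
      by_contra hx
      have : (i, j) ∈ Finset.univ.filter fun x : ι × ι => a x.1 x.2 ≠ 0 := by simpa using hx
      rw [e] at this
      simp at this
    rw [this, add_zero]
    exact triv_one
  · obtain ⟨⟨i, j⟩, hm, hmax⟩ := Finset.exists_max_image _ (fun x : ι × ι => h x.2) e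
    have hm' : a i j ≠ 0 := by simpa using hm
    have hij : i ≠ j := fun e => by
      have := ha i j hm'
      rw [e] at this
      exact lt_irrefl _ this
    set b := a - Matrix.single i j (a i j) with hb
    have hbij : b i j = 0 := by simp [hb]
    have hba : ∀ k l, b k l ≠ 0 → a k l ≠ 0 := by
      intro k l hkl
      by_cases e : i = k ∧ j = l
      · obtain ⟨rfl, rfl⟩ := e
        exact absurd hbij hkl
      · simpa [hb, Matrix.single_apply, e] using hkl
    have hrow : ∀ l, b j l = 0 := by
      intro l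
      by_contra hl
      have h1 := hba j l hl
      have h2 := hmax (j, l) (by simpa using h1)
      have h3 := ha j l h1
      simp only at h2
      omega
    have hz : Matrix.single i j (a i j) * b = 0 := by
      funext k l
      by_cases e : k = i
      · subst e
        rw [Matrix.single_mul_apply_same, hrow, mul_zero]
        rfl
      · rw [Matrix.single_mul_apply_of_ne _ _ _ _ _ e]
        rfl
    have e1 : 1 + a = (1 + Matrix.single i j (a i j)) * (1 + b) := by
      rw [add_mul, one_mul, mul_add, mul_one, hz, hb]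
      abel
    rw [e1]
    refine (triv_elem hij _).mul (ih _ ?_ b (fun k l hkl => ha k l (hba k l hkl)) rfl)
    rw [← hn]
    apply Finset.card_lt_card
    refine ⟨fun x hx => ?_, fun hs => ?_⟩
    · simp only [Finset.mem_filter, Finset.mem_univ, true_and] at hx ⊢
      exact hba _ _ hx
    · have := hs hm
      simp [hbij] at this

theorem triv_upper (u : Matrix ι κ (ZG G)) :
    Triv F (fromBlocks (1 : Matrix ι ι (ZG G)) u 0 (1 : Matrix κ κ (ZG G))) := by
  have e : fromBlocks (1 : Matrix ι ι (ZG G)) u 0 (1 : Matrix κ κ (ZG G)) =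
      1 + fromBlocks 0 u 0 0 := by
    rw [← fromBlocks_one, fromBlocks_add]
    simp
  rw [e]
  refine triv_tri (Sum.elim (fun _ => 0) (fun _ => 1)) _ ?_
  rintro (i | i) (j | j) hx <;> simp at hx ⊢

theorem triv_lower (w : Matrix κ ι (ZG G)) :
    Triv F (fromBlocks (1 : Matrix ι ι (ZG G)) 0 w (1 : Matrix κ κ (ZG G))) := by
  have e : fromBlocks (1 : Matrix ι ι (ZG G)) 0 w (1 : Matrix κ κ (ZG G)) =
      1 + fromBlocks 0 0 w 0 := by
    rw [← fromBlocks_one, fromBlocks_add]
    simp
  rw [e]
  refine triv_tri (Sum.elim (fun _ => 1) (fun _ => 0)) _ ?_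
  rintro (i | i) (j | j) hx <;> simp at hx ⊢

theorem triv_swap (u : Matrix ι κ (ZG G)) (w : Matrix κ ι (ZG G)) (h : Triv F (1 + w * u)) :
    Triv F (1 + u * w) := by
  have h1 : Triv F (fromBlocks (1 : Matrix ι ι (ZG G)) 0 0 (1 + w * u)) := by
    have := ((triv_block_iff (κ := ι)).2 h).reindex (Equiv.sumComm ι κ)
    have e : (fromBlocks (1 + w * u) 0 0 (1 : Matrix ι ι (ZG G))).submatrix (Equiv.sumComm ι κ)
        (Equiv.sumComm ι κ) = fromBlocks (1 : Matrix ι ι (ZG G)) 0 0 (1 + w * u) := by
      funext a b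
      rcases a with a | a <;> rcases b with b | b <;> rfl
    rwa [e] at this
  have h2 := ((triv_lower (F := F) (-w)).mul h1).mul (triv_upper u)
  have e : fromBlocks (1 : Matrix ι ι (ZG G)) 0 (-w) (1 : Matrix κ κ (ZG G)) *
      fromBlocks (1 : Matrix ι ι (ZG G)) 0 0 (1 + w * u) *
      fromBlocks (1 : Matrix ι ι (ZG G)) u 0 (1 : Matrix κ κ (ZG G)) =
      fromBlocks (1 : Matrix ι ι (ZG G)) u 0 (1 : Matrix κ κ (ZG G)) *
      fromBlocks (1 + u * w) 0 0 (1 : Matrix κ κ (ZG G)) *
      fromBlocks (1 : Matrix ι ι (ZG G)) 0 (-w) (1 : Matrix κ κ (ZG G)) := by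
    simp [fromBlocks_multiply]
  rw [e] at h2
  exact triv_block_iff.1 ((triv_upper u).of_mul_left ((triv_lower (-w)).of_mul_right h2))

theorem triv_diag (g : ι → G) :
    Triv F (diagonal fun i => (single (g i) (1 : ℤ) : ZG G)) := by
  exact triv_sgn g 1

theorem triv_swap_perm {i j : ι} (hij : i ≠ j) :
    Triv F ((1 : Matrix ι ι (ZG G)).submatrix id (Equiv.swap i j)) := by
  have h1 := (((triv_elem (F := F) hij (1 : ZG G)).mul (triv_elem hij.symm (-1))).mul
    (triv_elem hij 1)).mul (triv_sgn (fun _ => 1) (Function.update 1 i (-1)))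
  have eD : (diagonal fun k => (single (1 : G) ((Function.update (1 : ι → ℤˣ) i (-1) k : ℤˣ) : ℤ) :
      ZG G)) = 1 - Matrix.single i i 1 - Matrix.single i i 1 := by
    funext a b
    by_cases hab : a = b
    · subst hab
      by_cases hai : a = i
      · subst hai
        simp [MonoidAlgebra.one_def, MonoidAlgebra.single_neg]
      · simp [hai, Ne.symm hai, MonoidAlgebra.one_def]
    · have : ¬ (i = a ∧ i = b) := fun e => hab (e.1.symm.trans e.2)
      simp [hab, this]
  have eP : (1 : Matrix ι ι (ZG G)).submatrix id (Equiv.swap i j) =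
      1 + Matrix.single i j 1 + Matrix.single j i 1 - Matrix.single i i 1 -
        Matrix.single j j 1 := by
    funext a b
    simp only [submatrix_apply, id, Matrix.add_apply, Matrix.sub_apply, Matrix.one_apply,
      Matrix.single_apply, Equiv.swap_apply_def]
    by_cases hai : a = i <;> by_cases haj : a = j <;> by_cases hbi : b = i <;>
      by_cases hbj : b = j <;> simp_all [eq_comm]
  have en : (Matrix.single j i (-1) : Matrix ι ι (ZG G)) = -Matrix.single j i 1 := by
    funext a b
    simp only [Matrix.neg_apply, Matrix.single_apply]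
    split_ifs <;> simp
  rw [eD, en] at h1
  rw [eP]
  have e : ((1 : Matrix ι ι (ZG G)) + Matrix.single i j 1) * (1 + -Matrix.single j i 1) *
      (1 + Matrix.single i j 1) * (1 - Matrix.single i i 1 - Matrix.single i i 1) =
      1 + Matrix.single i j 1 + Matrix.single j i 1 - Matrix.single i i 1 -
        Matrix.single j j 1 := by
    simp only [mul_add, add_mul, mul_sub, mul_neg, neg_mul, mul_one, one_mul,
      zero_mul, Matrix.single_mul_single_same,
      Matrix.single_mul_single_of_ne _ _ _ _ hij.symm]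
    abel
  rwa [e] at h1

theorem triv_perm (e : ι ≃ ι) : Triv F ((1 : Matrix ι ι (ZG G)).submatrix id e) := by
  induction e using Equiv.Perm.swap_induction_on with
  | one => exact triv_one
  | swap_mul f x y hxy ih =>
    have e : (1 : Matrix ι ι (ZG G)).submatrix id (Equiv.swap x y * f) =
        (1 : Matrix ι ι (ZG G)).submatrix id (Equiv.swap x y) *
          (1 : Matrix ι ι (ZG G)).submatrix (Equiv.refl ι) f := by
      rw [mul_submatrix_one]
      rfl
    rw [e]
    exact (triv_swap_perm hxy).mul ih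

theorem triv_of_on {H : Subgroup G} (hH : H ∈ F) {A : Matrix ι ι (ZG G)} (hA : IsUnit A)
    (h : ∀ i j g, (A i j).coeff g ≠ 0 → g ∈ H) : Triv F A := by
  obtain ⟨B, hB⟩ := exists_incl_mat h
  obtain ⟨U, rfl⟩ := hA
  set p : ι → G ⧸ H := fun _ => ((1 : G) : G ⧸ H) with hp
  have hon : MOn p p Eq (U : Matrix ι ι (ZG G)) := by
    intro i j g e
    have hg := h i j g e
    simp only [hp]
    rw [MulAction.Quotient.smul_coe, QuotientGroup.eq]
    simpa using hg
  set C : Matrix ι ι (ZG G) := mfil p p Eq ((U⁻¹ : (Matrix ι ι (ZG G))ˣ) : Matrix ι ι (ZG G))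
    with hC
  have h1 : (U : Matrix ι ι (ZG G)) * C = 1 := by
    funext i
    have hv : VOn p (· = ((1 : G) : G ⧸ H)) ((U : Matrix ι ι (ZG G)) i) :=
      fun j g e => (hon i j g e).symm
    rw [mul_row, hC, hv.vecMul_mfil inv_eq, ← mul_row, Units.mul_inv]
    exact VOn.proj_eq (mOn_one p i)
  have h2 : C = ((U⁻¹ : (Matrix ι ι (ZG G))ˣ) : Matrix ι ι (ZG G)) := by
    calc C = ((U⁻¹ : (Matrix ι ι (ZG G))ˣ) : Matrix ι ι (ZG G)) * (U * C) := by
          rw [← mul_assoc, Units.inv_mul, one_mul]
      _ = _ := by rw [h1, mul_one]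
  have h3 : C * (U : Matrix ι ι (ZG G)) = 1 := by rw [h2, Units.inv_mul]
  have hCH : ∀ i j g, (C i j).coeff g ≠ 0 → g ∈ H := by
    intro i j g e
    have := mOn_mfil p p Eq _ i j g e
    simp only [hp] at this
    rw [MulAction.Quotient.smul_coe, QuotientGroup.eq] at this
    simpa using this
  obtain ⟨B', hB'⟩ := exists_incl_mat hCH
  have u1 : B * B' = 1 := by
    apply map_incl_injective H
    rw [Matrix.map_mul, ← hB, ← hB', h1, Matrix.map_one _ (map_zero _) (map_one _)]
  have u2 : B' * B = 1 := by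
    apply map_incl_injective H
    rw [Matrix.map_mul, ← hB, ← hB', h3, Matrix.map_one _ (map_zero _) (map_one _)]
  exact triv_of_mem (Submonoid.subset_closure
    (Or.inr (Or.inr ⟨H, hH, B, ⟨⟨B, B', u1, u2⟩, rfl⟩, hB⟩)))

/-- a rectangular matrix that is stably trivial after identifying the index sets -/
def TrivR (F : Set (Subgroup G)) (A : Matrix ι κ (ZG G)) : Prop :=
  ∃ e : ι ≃ κ, Triv F (A.submatrix id e)

theorem trivR_iff {A : Matrix ι ι (ZG G)} : TrivR F A ↔ Triv F A := by
  refine ⟨fun ⟨e, he⟩ => ?_, fun h => ⟨Equiv.refl ι, h⟩⟩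
  have e1 : A.submatrix id e = A * (1 : Matrix ι ι (ZG G)).submatrix (Equiv.refl ι) e := by
    rw [mul_submatrix_one]
    rfl
  rw [e1] at he
  exact (triv_perm e).of_mul_right he

theorem TrivR.of_mul_left {A : Matrix ι κ (ZG G)} {B : Matrix κ κ (ZG G)} (hA : TrivR F A)
    (h : TrivR F (A * B)) : Triv F B := by
  obtain ⟨e, he⟩ := hA
  obtain ⟨e', he'⟩ := h
  rw [← submatrix_mul_equiv A B id e e'] at he'
  have h1 := he.of_mul_left he'
  have e1 : B.submatrix e e' = (B.submatrix e e).submatrix id (e'.trans e.symm) := by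
    funext a b
    simp
  rw [e1] at h1
  have h2 := (trivR_iff.1 ⟨_, h1⟩).reindex e.symm
  simpa using h2

end Pool.Agent.Work.MP_9d1ffa_al
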