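import Pool.Agent.Work.MP_904812_al.Geom

/-! The graph metric of a tree. -/

namespace Pool.Agent.Work.MP_9d1ffa_al

open Pool.Agent.Work.MP_904812_al

/-- the four point condition from medians -/
theorem Walls_four {Λ : Type*} [AddCommGroup Λ] [LinearOrder Λ] [IsOrderedAddMonoid Λ]
    {X : Type*} {d : X → X → Λ} (symm : ∀ x y, d x y = d y x)
    (tri : ∀ x y z, d x z ≤ d x y + d y z) (I : X → X → X → Prop)
    (add : ∀ x m y, I x m y → d x m + d m y = d x y)
    (med : ∀ x y z, ∃ m, I x m y ∧ I x m z ∧ I y m z)
    (split : ∀ x m y z, I x m y → I x m z ∨ I y m z) (x y z w : X) :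
    d x y + d z w ≤ max (d x z + d y w) (d x w + d y z) := by
  obtain ⟨m, a1, a2, a3⟩ := med x y z
  have b1 := add _ _ _ a1
  have b2 := add _ _ _ a2
  have b3 := add _ _ _ a3
  have t := tri z m w
  have s1 := symm z m
  have s2 := symm y m
  rcases split x m y w a1 with c | c
  · have := add _ _ _ c
    exact le_max_of_le_right (by grind)
  · have := add _ _ _ c
    exact le_max_of_le_left (by grind)

theorem Walls_tr {V : Type} (adj : V → V → Prop) (D : V → V → ℕ) (self : ∀ x, D x x = 0)
    (eq_of : ∀ x y, D x y = 0 → x = y) (sy : ∀ x y, D x y = D y x)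
    (tri : ∀ x y z, D x z ≤ D x y + D y z) (le1 : ∀ x y, adj x y → D x y ≤ 1)
    (irr : ∀ x y, adj x y → x ≠ y) (pred : ∀ x y n, D x y = n + 1 → ∃ z, adj z y ∧ D x z = n)
    (wall : ∀ x y, adj x y → ∃ s : V → Prop, s x ∧ ¬ s y ∧
      ∀ a b, adj a b → (s a ↔ s b) ∨ (a = x ∧ b = y) ∨ (a = y ∧ b = x)) :
    Tr fun x y => (D x y : ℤ) := by
  -- crossing a wall
  have cross : ∀ x y, adj x y → ∀ s : V → Prop, s x → ¬ s y →
      (∀ a b, adj a b → (s a ↔ s b) ∨ (a = x ∧ b = y) ∨ (a = y ∧ b = x)) →
      ∀ z w, s z → ¬ s w → D z w = D z x + 1 + D y w := by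
    intro x y e s sx sy' hs z w sz sw
    have key : ∀ n w, D z w = n → ¬ s w → D z x + 1 + D y w ≤ n := by
      intro n
      induction n with
      | zero => intro w c h; exact absurd (eq_of _ _ c ▸ sz) h
      | succ n ih =>
        intro w c h
        obtain ⟨v, e', c⟩ := pred z w n c
        by_cases sv : s v
        · rcases hs v w e' with a | ⟨rfl, rfl⟩ | ⟨rfl, rfl⟩
          · exact absurd (a.1 sv) h
          · have := self w
            omega
          · exact absurd sv sy'
        · have := ih v c sv
          have := tri y v w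
          have := le1 v w e'
          omega
    have := key _ w rfl sw
    have := tri z x w
    have := tri x y w
    have := le1 x y e
    omega
  -- walls in usable form
  have wl : ∀ x y, adj x y → ∃ s : V → Prop, s x ∧ ¬ s y ∧
      (∀ a b, adj a b → (s a ↔ s b) ∨ (a = x ∧ b = y) ∨ (a = y ∧ b = x)) ∧
      (∀ z w, s z → ¬ s w → D z w = D z x + 1 + D y w) ∧
      (∀ z, s z → D z y = D z x + 1) ∧ ∀ z, ¬ s z → D z x = D z y + 1 := by
    intro x y e
    obtain ⟨s, a, b, c⟩ := wall x y e
    have k := cross x y e s a b c
    refine ⟨s, a, b, c, k, fun z hz => ?_, fun z hz => ?_⟩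
    · have := k z y hz b
      have := self y
      omega
    · have := k x z a hz
      have := self x
      have := sy x z
      have := sy y z
      omega
  have uniq : ∀ z y y1 y2, adj y1 y → adj y2 y → D z y = D z y1 + 1 → D z y = D z y2 + 1 →
      y1 = y2 := by
    intro z y y1 y2 e1 e2 f1 f2
    obtain ⟨s, a, b, c, k, k1, k2⟩ := wl y1 y e1
    by_contra hne
    have sz : s z := by
      by_contra hz
      have := k2 z hz
      omega
    rcases c y2 y e2 with h | ⟨h, -⟩ | ⟨h, -⟩
    · have := k z y2 sz (fun h' => b (h.1 h'))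
      omega
    · exact hne h.symm
    · exact irr _ _ e2 h
  have split : ∀ x m y z, D x m + D m y = D x y → D x m + D m z = D x z ∨ D y m + D m z = D y z := by
    intro x m y z e
    rcases hx : D x m with _ | n
    · left
      rw [eq_of _ _ hx]; omega
    rcases hy : D y m with _ | n'
    · right
      rw [eq_of _ _ hy]; omega
    obtain ⟨a, a1, a2⟩ := pred x m n hx
    obtain ⟨b, b1, b2⟩ := pred y m n' hy
    have hab : a ≠ b := by
      rintro rfl
      have := tri x a y
      have := sy a y
      have := sy m y
      omega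
    obtain ⟨s, -, -, -, k, k1, k2⟩ := wl a m a1
    obtain ⟨s', -, -, -, k', k1', k2'⟩ := wl b m b1
    have sx : s x := by
      by_contra h
      have := k2 x h
      omega
    have sy' : s' y := by
      by_contra h
      have := k2' y h
      omega
    by_cases hz : s z
    · by_cases hz' : s' z
      · exact absurd (uniq z m a b a1 b1 (k1 z hz) (k1' z hz')) hab
      · right
        have := k' y z sy' hz'
        omega
    · left
      have := k x z sx hz
      omega
  have med : ∀ n x y z, D x y = n → ∃ m, D x m + D m y = D x y ∧ D x m + D m z = D x z ∧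
      D y m + D m z = D y z := by
    intro n
    induction n with
    | zero =>
      intro x y z e
      have := eq_of _ _ e
      subst this
      have := self x
      exact ⟨x, by omega, by omega, by omega⟩
    | succ n ih =>
      intro x y z e
      obtain ⟨y', a1, a2⟩ := pred x y n e
      obtain ⟨s, -, -, -, k, k1, k2⟩ := wl y' y a1
      have sx : s x := by
        by_contra h
        have := k2 x h
        omega
      by_cases hz : s z
      · obtain ⟨m, b1, b2, b3⟩ := ih x y' z a2
        have := k1 z hz
        have := tri m y' y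
        have := tri x m y
        have := tri y m z
        have := le1 y' y a1
        have := sy y m
        have := sy y' m
        have := sy y z
        have := sy y' z
        exact ⟨m, by omega, b2, by omega⟩
      · have := k x z sx hz
        have := self y
        exact ⟨y, by omega, by omega, by omega⟩
  have expt : ∀ n x y t, D x y = n → t ≤ n → ∃ p, D x p = t ∧ D x p + D p y = D x y := by
    intro n
    induction n with
    | zero =>
      intro x y t e ht
      have := self y
      exact ⟨y, by omega, by omega⟩
    | succ n ih =>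
      intro x y t e ht
      by_cases h : t = n + 1
      · have := self y
        exact ⟨y, by omega, by omega⟩
      · obtain ⟨y', a1, a2⟩ := pred x y n e
        obtain ⟨p, b1, b2⟩ := ih x y' t a2 (by omega)
        have := tri p y' y
        have := tri x p y
        have := le1 y' y a1
        exact ⟨p, b1, by omega⟩
  have sy' : ∀ x y, (D x y : ℤ) = D y x := fun x y => by rw [sy]
  have tri' : ∀ x y z, (D x z : ℤ) ≤ D x y + D y z := fun x y z => by exact_mod_cast tri x y z
  have med' : ∀ x y z, ∃ m, (D x m : ℤ) + D m y = D x y ∧ (D x m : ℤ) + D m z = D x z ∧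
      (D y m : ℤ) + D m z = D y z := fun x y z => by
    obtain ⟨m, a, b, c⟩ := med _ x y z rfl
    exact ⟨m, by omega, by omega, by omega⟩
  refine ⟨fun x y => by positivity, fun x => by simp [self],
    fun e => eq_of _ _ (by exact_mod_cast e), sy', tri', ?_, ?_, med'⟩
  · intro x y t h0 h1
    obtain ⟨p, a, b⟩ := expt _ x y t.toNat rfl (by omega)
    exact ⟨p, by omega, by omega⟩
  · refine Walls_four sy' tri' (fun x m y => (D x m : ℤ) + D m y = D x y) (fun _ _ _ h => h)
      med' ?_
    intro x m y z e
    have := split x m y z (by omega)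
    omega

theorem tr_of_isTree {V : Type} {T : SimpleGraph V} (hT : T.IsTree) :
    Tr (fun a b => (T.dist a b : ℤ)) := by
  have hc := hT.connected
  have le1 : ∀ x y, T.Adj x y → T.dist x y ≤ 1 := fun x y e =>
    (SimpleGraph.dist_eq_one_iff_adj.2 e).le
  refine Walls_tr T.Adj T.dist (fun _ => SimpleGraph.dist_self)
    (fun x y => hc.dist_eq_zero_iff.1) (fun x y => SimpleGraph.dist_comm)
    (fun x y z => hc.dist_triangle) le1 (fun x y e => e.ne) (fun x y n e => ?_) fun x y e => ?_
  · obtain ⟨p, hp⟩ := hc.exists_walk_length_eq_dist y x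
    rw [SimpleGraph.dist_comm, e] at hp
    cases p with
    | nil => simp at hp
    | @cons _ z _ a p =>
      have h1 := SimpleGraph.dist_le p
      have h2 := hc.dist_triangle (u := x) (v := z) (w := y)
      have h3 := le1 _ _ a.symm
      rw [SimpleGraph.Walk.length_cons] at hp
      rw [SimpleGraph.dist_comm] at h1
      exact ⟨z, a.symm, by omega⟩
  · refine ⟨fun v => (T.deleteEdges {s(x, y)}).Reachable x v, SimpleGraph.Reachable.refl _,
      SimpleGraph.isAcyclic_iff_forall_adj_isBridge.1 hT.isAcyclic e, fun a b e' => ?_⟩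
    by_cases h : s(a, b) = s(x, y)
    · exact Or.inr (Sym2.eq_iff.1 h)
    · have h2 : (T.deleteEdges {s(x, y)}).Adj a b := by simpa using ⟨e', by simpa using h⟩
      exact Or.inl ⟨fun r => r.trans h2.reachable, fun r => r.trans h2.symm.reachable⟩

theorem dist_smul {G V : Type} [Group G] [MulAction G V] {T : SimpleGraph V} (hT : T.IsTree)
    (act : ∀ (g : G) a b, T.Adj a b → T.Adj (g • a) (g • b)) (g : G) (a b : V) :
    T.dist (g • a) (g • b) = T.dist a b := by
  have le : ∀ (g : G) a b, T.dist (g • a) (g • b) ≤ T.dist a b := fun g a b => by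
    obtain ⟨p, hp⟩ := hT.connected.exists_walk_length_eq_dist a b
    have := SimpleGraph.dist_le (p.map (⟨fun v => g • v, fun h => act g _ _ h⟩ : T →g T))
    rwa [SimpleGraph.Walk.length_map, hp] at this
  refine le_antisymm (le g a b) ?_
  simpa using le g⁻¹ (g • a) (g • b)

end Pool.Agent.Work.MP_9d1ffa_al
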