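import Pool.Agent.Work.MP_9d1ffa_al.WDefs
import Pool.Agent.Work.MP_9d1ffa_al.Geo
import Pool.Agent.Work.MP_9d1ffa_al.Walls
import Pool.Agent.Work.MP_9d1ffa_al.NilP
import Pool.Agent.Work.MP_9d1ffa_al.UDefs
import Pool.Agent.Work.MP_9d1ffa_al.UFa

-- merged part: Pool.Agent.Work.MP_9d1ffa_al.OFr
section
-- merged part: Pool.Agent.Work.MP_9d1ffa_al.OTree
section
/-! The tree of an HNN extension. -/

namespace Pool.Agent.Work.MP_9d1ffa_al

open Matrix MonoidAlgebra

set_option linter.unusedSectionVars false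
set_option linter.unusedVariables false

open MulAction Pool.Agent.Work.MP_904812_al

variable {Γ V A : Type} [Group Γ] [Group V] [Group A]

theorem OTree_walk {W : Type} {G : SimpleGraph W} (hG : G.Connected) (s : W → Prop) {u w : W}
    (hu : s u) (hw : ¬ s w)
    (wall : ∀ a b, G.Adj a b → (s a ↔ s b) ∨ (a = u ∧ b = w) ∨ (a = w ∧ b = u))
    {x y : W} (p : G.Walk x y) (hx : s x) (hy : ¬ s y) :
    G.dist x u + 1 ≤ p.length ∧ s(u, w) ∈ p.edges := by
  induction p with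
  | nil => exact absurd hx hy
  | @cons a b c h q ih =>
    by_cases hb : s b
    · obtain ⟨h1, h2⟩ := ih hb hy
      have h3 : G.dist a u ≤ G.dist a b + G.dist b u := hG.dist_triangle
      have h4 : G.dist a b = 1 := SimpleGraph.dist_eq_one_iff_adj.2 h
      refine ⟨?_, ?_⟩
      · rw [SimpleGraph.Walk.length_cons]; omega
      · rw [SimpleGraph.Walk.edges_cons]; exact List.mem_cons_of_mem _ h2
    · rcases wall a b h with e | ⟨rfl, rfl⟩ | ⟨rfl, rfl⟩
      · exact absurd (e.1 hx) hb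
      · refine ⟨?_, ?_⟩
        · rw [SimpleGraph.Walk.length_cons, SimpleGraph.dist_self]; omega
        · rw [SimpleGraph.Walk.edges_cons]; exact List.mem_cons_self
      · exact absurd hx hw

namespace Cut

variable (C : Cut Γ V A)

theorem OTree_eq {g g' : Γ} :
    (g : Γ ⧸ C.v.range) = (g' : Γ ⧸ C.v.range) ↔ ∃ h, g' = g * C.v h := by
  rw [QuotientGroup.eq]
  constructor
  · rintro ⟨h, e⟩
    exact ⟨h, by rw [e, mul_inv_cancel_left]⟩
  · rintro ⟨h, rfl⟩
    exact ⟨h, by rw [inv_mul_cancel_left]⟩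

theorem OTree_smul (g g' : Γ) :
    g • (g' : Γ ⧸ C.v.range) = ((g * g' : Γ) : Γ ⧸ C.v.range) := rfl

theorem OTree_ne (g : Γ) : (g : Γ ⧸ C.v.range) ≠ ((g * C.t : Γ) : Γ ⧸ C.v.range) := by
  intro e
  obtain ⟨h, e⟩ := C.OTree_eq.1 e
  have := C.tpos
  rw [mul_left_cancel e] at this
  exact C.npos_v h this

theorem OTree_adj {x y : Γ ⧸ C.v.range} : C.T.Adj x y ↔
    ∃ g : Γ, (x = (g : Γ ⧸ C.v.range) ∧ y = (g * C.t : Γ)) ∨
      (y = (g : Γ ⧸ C.v.range) ∧ x = (g * C.t : Γ)) := by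
  rw [Cut.T, SimpleGraph.fromRel_adj]
  constructor
  · rintro ⟨_, ⟨g, h⟩ | ⟨g, h⟩⟩
    · exact ⟨g, Or.inl h⟩
    · exact ⟨g, Or.inr h⟩
  · rintro ⟨g, ⟨rfl, rfl⟩ | ⟨rfl, rfl⟩⟩
    · exact ⟨C.OTree_ne g, Or.inl ⟨g, rfl, rfl⟩⟩
    · exact ⟨(C.OTree_ne g).symm, Or.inr ⟨g, rfl, rfl⟩⟩

/-- the side of the edge at `g` -/
def OTree_side (g : Γ) (x : Γ ⧸ C.v.range) : Prop := C.pos (g⁻¹ * x.out)

theorem OTree_side_iff (g γ : Γ) : C.OTree_side g (γ : Γ ⧸ C.v.range) ↔ C.pos (g⁻¹ * γ) := by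
  obtain ⟨h, e⟩ := C.OTree_eq.1 (QuotientGroup.out_eq' (γ : Γ ⧸ C.v.range)).symm
  rw [OTree_side, e, ← mul_assoc, C.right]

theorem OTree_wall1 (g γ : Γ) :
    (C.OTree_side g (γ : Γ ⧸ C.v.range) ↔ C.OTree_side g ((γ * C.t : Γ) : Γ ⧸ C.v.range)) ∨
      ((γ : Γ ⧸ C.v.range) = (g : Γ) ∧
        ((γ * C.t : Γ) : Γ ⧸ C.v.range) = (g * C.t : Γ)) := by
  rw [OTree_side_iff, OTree_side_iff, ← mul_assoc]
  by_cases h1 : C.pos (g⁻¹ * γ)
  · exact Or.inl (iff_of_true h1 (C.up _ h1))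
  by_cases h2 : C.pos (g⁻¹ * γ * C.t)
  · obtain ⟨a, e⟩ := C.cross _ h1 h2
    have e' : γ = g * C.v (C.i a) := by rw [e, mul_inv_cancel_left]
    refine Or.inr ⟨(C.OTree_eq.2 ⟨_, e'⟩).symm, (C.OTree_eq.2 ⟨C.j a, ?_⟩).symm⟩
    rw [e', mul_assoc, C.rel, mul_assoc]
  · exact Or.inl (iff_of_false h1 h2)

theorem OTree_wall (g : Γ) (a b : Γ ⧸ C.v.range) (h : C.T.Adj a b) :
    (C.OTree_side g a ↔ C.OTree_side g b) ∨
      (a = (g * C.t : Γ) ∧ b = (g : Γ)) ∨ (a = (g : Γ) ∧ b = (g * C.t : Γ)) := by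
  obtain ⟨γ, ⟨rfl, rfl⟩ | ⟨rfl, rfl⟩⟩ := C.OTree_adj.1 h
  · rcases C.OTree_wall1 g γ with e | e
    · exact Or.inl e
    · exact Or.inr (Or.inr e)
  · rcases C.OTree_wall1 g γ with e | e
    · exact Or.inl e.symm
    · exact Or.inr (Or.inl ⟨e.2, e.1⟩)

theorem OTree_side_t (g : Γ) : C.OTree_side g ((g * C.t : Γ) : Γ ⧸ C.v.range) := by
  rw [OTree_side_iff, inv_mul_cancel_left]
  exact C.tpos

theorem OTree_nside (g : Γ) : ¬ C.OTree_side g (g : Γ ⧸ C.v.range) := by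
  rw [OTree_side_iff, inv_mul_cancel]
  exact C.one

theorem OTree_conn : C.T.Connected := by
  have key : ∀ g : Γ, ∀ γ : Γ, C.T.Reachable (γ : Γ ⧸ C.v.range) ((γ * g : Γ) : Γ ⧸ C.v.range) := by
    intro g
    have hg : g ∈ Subgroup.closure (insert C.t (Set.range C.v)) := by rw [C.gen]; trivial
    induction hg using Subgroup.closure_induction with
    | mem x hx =>
      intro γ
      rcases hx with rfl | ⟨h, rfl⟩
      · exact (C.OTree_adj.2 ⟨γ, Or.inl ⟨rfl, rfl⟩⟩).reachable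
      · rw [← C.OTree_eq.2 ⟨h, rfl⟩]
    | one => intro γ; rw [mul_one]
    | mul x y _ _ hx hy =>
      intro γ
      rw [← mul_assoc]
      exact (hx γ).trans (hy _)
    | inv x _ hx =>
      intro γ
      have := hx (γ * x⁻¹)
      rw [inv_mul_cancel_right] at this
      exact this.symm
  refine SimpleGraph.Connected.mk fun x y => ?_
  obtain ⟨g, rfl⟩ := QuotientGroup.mk_surjective x
  obtain ⟨g', rfl⟩ := QuotientGroup.mk_surjective y
  have := key (g⁻¹ * g') g
  rwa [mul_inv_cancel_left] at this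

/-- the base vertex -/
abbrev o : Γ ⧸ C.v.range := ((1 : Γ) : Γ ⧸ C.v.range)

theorem smul_o (g : Γ) : g • C.o = (g : Γ ⧸ C.v.range) := by
  rw [OTree_smul, mul_one]

theorem exists_o (x : Γ ⧸ C.v.range) : ∃ g : Γ, x = g • C.o := by
  obtain ⟨g, rfl⟩ := QuotientGroup.mk_surjective x
  exact ⟨g, (C.smul_o g).symm⟩

theorem stab_iff (g : Γ) : g • C.o = C.o ↔ ∃ h, C.v h = g := by
  rw [smul_o, eq_comm, OTree_eq]
  simp only [one_mul, eq_comm]

theorem act (g : Γ) (x y : Γ ⧸ C.v.range) (h : C.T.Adj x y) : C.T.Adj (g • x) (g • y) := by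
  obtain ⟨γ, ⟨rfl, rfl⟩ | ⟨rfl, rfl⟩⟩ := C.OTree_adj.1 h
  · exact C.OTree_adj.2 ⟨g * γ, Or.inl ⟨rfl, by rw [OTree_smul, mul_assoc]⟩⟩
  · exact C.OTree_adj.2 ⟨g * γ, Or.inr ⟨rfl, by rw [OTree_smul, mul_assoc]⟩⟩

theorem adj_t (g : Γ) : C.T.Adj (g • C.o) ((g * C.t) • C.o) := by
  rw [smul_o, smul_o]
  exact C.OTree_adj.2 ⟨g, Or.inl ⟨rfl, rfl⟩⟩

theorem nbr {x : Γ ⧸ C.v.range} (h : C.T.Adj C.o x) :
    ∃ h : V, x = (C.v h * C.t) • C.o ∨ x = (C.v h * C.t⁻¹) • C.o := by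
  obtain ⟨γ, ⟨e, rfl⟩ | ⟨rfl, e⟩⟩ := C.OTree_adj.1 h
  · obtain ⟨k, e⟩ := C.OTree_eq.1 e
    exact ⟨k, Or.inl (by rw [smul_o, e, one_mul])⟩
  · obtain ⟨k, e⟩ := C.OTree_eq.1 e
    exact ⟨k, Or.inr (by rw [smul_o, ← one_mul (C.v k), ← e, mul_inv_cancel_right])⟩

theorem edge_iff (h : V) : (C.v h * C.t) • C.o = C.t • C.o ↔ h ∈ C.i.range := by
  rw [smul_o, smul_o, eq_comm, OTree_eq]
  constructor
  · rintro ⟨k, e⟩
    obtain ⟨a, e'⟩ := C.cross _ (C.npos_v h) (by rw [e]; exact C.pos_tv k)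
    exact ⟨a, C.vinj e'⟩
  · rintro ⟨a, rfl⟩
    exact ⟨C.j a, C.rel a⟩

theorem edge_iff' (h : V) : (C.v h * C.t⁻¹) • C.o = C.t⁻¹ • C.o ↔ h ∈ C.j.range := by
  rw [smul_o, smul_o, eq_comm, OTree_eq]
  constructor
  · rintro ⟨k, e⟩
    have e1 : C.v k * C.t = C.t * C.v h := by
      calc C.v k * C.t = C.t * (C.t⁻¹ * C.v k) * C.t := by group
        _ = C.t * C.v h := by rw [← e]; group
    obtain ⟨a, e'⟩ := C.cross _ (C.npos_v k) (by rw [e1]; exact C.pos_tv h)
    refine ⟨a, C.vinj ?_⟩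
    have e2 := C.rel a
    rw [e', e1] at e2
    exact (mul_left_cancel e2).symm
  · rintro ⟨a, rfl⟩
    refine ⟨C.i a, ?_⟩
    calc C.v (C.j a) * C.t⁻¹ = C.t⁻¹ * (C.t * C.v (C.j a)) * C.t⁻¹ := by group
      _ = C.t⁻¹ * C.v (C.i a) := by rw [← C.rel a]; group

theorem out_ne_in (h : V) : (C.v h * C.t⁻¹) • C.o ≠ C.t • C.o := by
  rw [smul_o, smul_o]
  intro e
  obtain ⟨k, e⟩ := C.OTree_eq.1 e.symm
  exact C.npos_tinv (C.npos_v h) (by rw [e]; exact C.pos_tv k)

theorem noinv (g : Γ) {x y : Γ ⧸ C.v.range} (h : C.T.Adj x y) (e : g • x = y) : g • y ≠ x := by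
  have key : ∀ γ : Γ, g • (γ : Γ ⧸ C.v.range) = (γ * C.t : Γ) →
      g • ((γ * C.t : Γ) : Γ ⧸ C.v.range) = γ → False := by
    intro γ e1 e2
    rw [OTree_smul] at e1 e2
    obtain ⟨k, e1⟩ := C.OTree_eq.1 e1.symm
    obtain ⟨k', e2⟩ := C.OTree_eq.1 e2.symm
    rw [← mul_assoc, e1, mul_assoc, mul_assoc] at e2
    have h1 := C.up _ (C.pos_tv k)
    rw [mul_assoc, mul_left_cancel e2] at h1
    exact C.npos_v k' h1
  intro e'
  obtain ⟨γ, ⟨rfl, rfl⟩ | ⟨rfl, rfl⟩⟩ := C.OTree_adj.1 h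
  · exact key γ e e'
  · exact key γ e' e

theorem isTree : C.T.IsTree := by
  refine ⟨C.OTree_conn, SimpleGraph.isAcyclic_iff_forall_adj_isBridge.2 ?_⟩
  have key : ∀ g : Γ, C.T.IsBridge s(((g * C.t : Γ) : Γ ⧸ C.v.range), (g : Γ ⧸ C.v.range)) := by
    intro g
    rw [SimpleGraph.isBridge_iff_forall_walk_mem_edges]
    intro p
    exact (OTree_walk C.OTree_conn (C.OTree_side g) (C.OTree_side_t g) (C.OTree_nside g)
      (C.OTree_wall g) p (C.OTree_side_t g) (C.OTree_nside g)).2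
  intro x y h
  obtain ⟨γ, ⟨rfl, rfl⟩ | ⟨rfl, rfl⟩⟩ := C.OTree_adj.1 h
  · rw [Sym2.eq_swap]; exact key γ
  · exact key γ

theorem pos_iff (g : Γ) :
    C.pos g ↔ C.T.dist (g • C.o) (C.t • C.o) < C.T.dist (g • C.o) C.o := by
  rw [smul_o, smul_o]
  have hs : C.OTree_side 1 (g : Γ ⧸ C.v.range) ↔ C.pos g := by
    rw [OTree_side_iff, inv_one, one_mul]
  have h1 := C.OTree_side_t 1
  have h2 := C.OTree_nside 1
  have h3 := C.OTree_wall 1
  rw [one_mul] at h1 h3
  by_cases hg : C.pos g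
  · obtain ⟨p, hp⟩ := C.OTree_conn.exists_walk_length_eq_dist (g : Γ ⧸ C.v.range) C.o
    have := (OTree_walk C.OTree_conn (C.OTree_side 1) h1 h2 h3 p (hs.2 hg) h2).1
    exact iff_of_true hg (by omega)
  · obtain ⟨p, hp⟩ := C.OTree_conn.exists_walk_length_eq_dist (g : Γ ⧸ C.v.range)
      (C.t : Γ ⧸ C.v.range)
    have := (OTree_walk C.OTree_conn (fun x => ¬ C.OTree_side 1 x) h2 (not_not.2 h1)
      (fun a b h => by
        rcases h3 a b h with e | e | e
        · exact Or.inl (not_congr e)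
        · exact Or.inr (Or.inr e)
        · exact Or.inr (Or.inl e)) p (fun h => hg (hs.1 h)) (not_not.2 h1)).1
    refine iff_of_false hg ?_
    change ¬ C.T.dist (g : Γ ⧸ C.v.range) (C.t : Γ ⧸ C.v.range) <
      C.T.dist (g : Γ ⧸ C.v.range) ((1 : Γ) : Γ ⧸ C.v.range)
    omega

end Cut

end Pool.Agent.Work.MP_9d1ffa_al
end

-- merged part: Pool.Agent.Work.MP_9d1ffa_al.OSn
section
/-! Nilpotent forms on the tree of an HNN extension. -/

namespace Pool.Agent.Work.MP_9d1ffa_al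

open Matrix MonoidAlgebra

set_option linter.unusedSectionVars false
set_option linter.unusedVariables false

open MulAction Pool.Agent.Work.MP_904812_al

variable {Γ V A : Type} [Group Γ] [Group V] [Group A] {ε : ℤˣ} {I J : Type} [Fintype I]
  [DecidableEq I] [Fintype J] [DecidableEq J] {C : Cut Γ V A}

/-- the first vertex of `τ` lies ahead of the directed edge `σ` -/
def OSn_cone {X : Type} (d : X → X → ℤ) (σ τ : X × X) : Prop :=
  d σ.1 σ.2 = 1 ∧ d τ.1 σ.2 < d τ.1 σ.1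

theorem OSn_n1 {X : Type} {d : X → X → ℤ} (h : Tr d) (σ σ₁ τ : X × X) (a : stp d σ σ₁)
    (b : τ = σ₁ ∨ OSn_cone d σ₁ τ) : (d σ.1 τ.1).toNat = (d σ₁.1 τ.1).toNat + 1 := by
  have t := geo_two h a
  obtain ⟨a1, a2, a3, a4⟩ := a
  rcases b with rfl | ⟨b1, b3⟩
  · rw [h.self, a1, a2]; rfl
  · rw [a1] at a3 b3 ⊢
    have c1 := adj_cases h a2 τ.1
    have c2 := adj_cases h a3 τ.1
    have f := h.four τ.1 σ.2 σ.1 σ₁.2
    have s1 := h.symm σ.2 σ.1
    have s2 := h.symm σ.1 τ.1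
    have s3 := h.symm σ.2 τ.1
    have n1 := h.nonneg τ.1 σ.2
    rw [le_max_iff] at f
    omega

theorem OSn_n2 {X : Type} {d : X → X → ℤ} (h : Tr d) (σ σ₁ σ₂ τ : X × X) (a₁ : stp d σ σ₁)
    (a₂ : stp d σ σ₂) (b₁ : τ = σ₁ ∨ OSn_cone d σ₁ τ) (b₂ : τ = σ₂ ∨ OSn_cone d σ₂ τ) :
    σ₁ = σ₂ := by
  have no : ∀ ρ ρ' : X × X, stp d σ ρ → stp d σ ρ' → ¬ OSn_cone d ρ ρ' := by
    rintro ρ ρ' a a' ⟨-, b⟩
    rw [a.1, a'.1, h.self] at b
    exact absurd (h.nonneg _ _) (not_le.2 b)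
  have key : ∀ ρ : X × X, stp d σ ρ → OSn_cone d ρ τ → Bt d σ.2 ρ.2 τ.1 := by
    rintro ρ ⟨a1, a2, a3, a4⟩ ⟨b1, b2⟩
    rw [a1] at a3 b2
    have c := adj_cases h a3 τ.1
    have s1 := h.symm σ.2 τ.1
    have s2 := h.symm ρ.2 τ.1
    simp only [Bt]; omega
  rcases b₁ with b₁ | b₁
  · rcases b₂ with b₂ | b₂
    · exact b₁.symm.trans b₂
    · exact absurd (b₁ ▸ b₂) (no _ _ a₂ a₁)
  · rcases b₂ with b₂ | b₂
    · exact absurd (b₂ ▸ b₁) (no _ _ a₁ a₂)
    · have e := h.bt_uniq (key _ a₁ b₁) (key _ a₂ b₂) (by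
        have e1 := a₁.2.2.1
        have e2 := a₂.2.2.1
        rw [a₁.1] at e1
        rw [a₂.1] at e2
        rw [e1, e2])
      exact Prod.ext (a₁.1.trans a₂.1.symm) e

theorem OSn_v (C : Cut Γ V A) (h : V) : C.v h • C.o = C.o := (C.stab_iff _).2 ⟨h, rfl⟩

theorem OSn_a (C : Cut Γ V A) {g : Γ} (e : ∃ h, C.t * C.v h = g) :
    g • C.o = C.t • C.o ∧ g • C.t • C.o ≠ C.o := by
  obtain ⟨h, rfl⟩ := e
  refine ⟨by rw [mul_smul, OSn_v], fun e => C.out_ne_in h⁻¹ ?_⟩
  rw [map_inv, ← _root_.mul_inv_rev, inv_smul_eq_iff, e]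

theorem OSn_b (C : Cut Γ V A) {g : Γ} (e : ∃ h, h ∉ C.j.range ∧ C.t * C.v h * C.t⁻¹ = g) :
    g • C.t • C.o = C.t • C.o ∧ g • C.o ≠ C.o := by
  obtain ⟨h, hh, rfl⟩ := e
  refine ⟨by rw [mul_smul, inv_smul_smul, mul_smul, OSn_v], fun e => hh ((C.edge_iff' h).1 ?_)⟩
  rw [eq_inv_smul_iff, ← mul_smul, ← mul_assoc, e]

theorem OSn_c (C : Cut Γ V A) {g : Γ} (e : ∃ h, h ∉ C.i.range ∧ C.v h = g) :
    g • C.o = C.o ∧ g • C.t • C.o ≠ C.t • C.o := by
  obtain ⟨h, hh, rfl⟩ := e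
  exact ⟨OSn_v C h, fun e => hh ((C.edge_iff h).1 (by rw [mul_smul, e]))⟩

theorem OSn_d (C : Cut Γ V A) {g : Γ} (e : ∃ h, C.v h * C.t⁻¹ = g) :
    g • C.t • C.o = C.o ∧ g • C.o ≠ C.t • C.o := by
  obtain ⟨h, rfl⟩ := e
  exact ⟨by rw [mul_smul, inv_smul_smul, OSn_v], C.out_ne_in h⟩

theorem OSn_adj (C : Cut Γ V A) : C.T.Adj C.o (C.t • C.o) := by
  have := C.adj_t 1
  rwa [one_smul, one_mul] at this

/-- a matrix moving forward along the tree whose inverse stays ahead is nilpotent -/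
theorem Cut.nil (C : Cut Γ V A) (ν μ : Matrix (J ⊕ J) (J ⊕ J) (ZG Γ))
    (n11 : Sup (fun g => ∃ h, C.t * C.v h = g) ν.toBlocks₁₁)
    (n12 : Sup (fun g => ∃ h, h ∉ C.j.range ∧ C.t * C.v h * C.t⁻¹ = g) ν.toBlocks₁₂)
    (n21 : Sup (fun g => ∃ h, h ∉ C.i.range ∧ C.v h = g) ν.toBlocks₂₁)
    (n22 : Sup (fun g => ∃ h, C.v h * C.t⁻¹ = g) ν.toBlocks₂₂)
    (m1 : Sup C.pos μ.toRows₁) (m2 : Sup (fun g => ¬ C.pos (g * C.t)) μ.toRows₂)
    (h : (1 + ν) * (1 + μ) = 1) : IsNilpotent ν := by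
  have htr := tr_of_isTree C.isTree
  have iso : ∀ (g : Γ) x y, (C.T.dist (g • x) (g • y) : ℤ) = C.T.dist x y := fun g x y => by
    rw [dist_smul C.isTree C.act]
  have e1 : (C.T.dist C.o (C.t • C.o) : ℤ) = 1 := by
    exact_mod_cast SimpleGraph.dist_eq_one_iff_adj.2 (OSn_adj C)
  have e2 : (C.T.dist (C.t • C.o) C.o : ℤ) = 1 := (htr.symm _ _).trans e1
  have hp : ∀ g, C.pos g →
      (C.T.dist (g • C.o) (C.t • C.o) : ℤ) < C.T.dist (g • C.o) C.o := fun g e => by
    exact_mod_cast (C.pos_iff g).1 e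
  have hn : ∀ g, ¬ C.pos g →
      (C.T.dist (g • C.o) C.o : ℤ) < C.T.dist (g • C.o) (C.t • C.o) := fun g e => by
    have c := adj_cases htr e1 (g • C.o)
    rw [C.pos_iff] at e
    omega
  refine (nilP_of_cone (Sum.elim (fun _ => (C.o, C.t • C.o)) fun _ => (C.t • C.o, C.o))
    (stp fun x y => (C.T.dist x y : ℤ)) (OSn_cone fun x y => (C.T.dist x y : ℤ)) (inv_stp iso) ?_
    (fun σ τ => ((C.T.dist σ.1 τ.1 : ℤ)).toNat) (fun σ => by simp) ?_ (OSn_n1 htr) (OSn_n2 htr)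
    ν μ ?_ ?_ h).isNilpotent
  · rintro g σ τ ⟨a1, a2⟩
    exact ⟨by simpa [iso] using a1, by simpa [iso] using a2⟩
  · rintro σ ⟨a1, a2⟩
    have := htr.self σ.1
    simp only at a1 a2 this
    omega
  · rintro (k | k) (l | l) g e
    · have := OSn_a C (n11 k l g e)
      exact ⟨this.1, e1, (iso g _ _).trans e1, this.2⟩
    · have := OSn_b C (n12 k l g e)
      exact ⟨this.1, e1, (iso g _ _).trans e2, this.2⟩
    · have := OSn_c C (n21 k l g e)
      exact ⟨this.1, e2, (iso g _ _).trans e1, this.2⟩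
    · have := OSn_d C (n22 k l g e)
      exact ⟨this.1, e2, (iso g _ _).trans e2, this.2⟩
  · rintro (k | k) (l | l) g e
    · exact ⟨e1, hp g (m1 k _ g e)⟩
    · have := hp _ (C.up g (m1 k _ g e))
      rw [mul_smul] at this
      exact ⟨e1, this⟩
    · exact ⟨e2, hn g fun c => m2 k _ g e (C.up g c)⟩
    · have := hn _ (m2 k _ g e)
      rw [mul_smul] at this
      exact ⟨e2, this⟩

/-- the form left over after splitting off the vertex form -/
theorem Cut.z_rest (C : Cut Γ V A) (hU : UNilTree Γ C.T ε) (ξ μ : Matrix (J ⊕ J) (J ⊕ J) (ZG Γ))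
    (n11 : Sup (fun g => ∃ h, h ∉ C.j.range ∧ C.t * C.v h * C.t⁻¹ = g) ξ.toBlocks₁₁)
    (n12 : Sup (fun g => ∃ h, C.t * C.v h = g) ξ.toBlocks₁₂)
    (n21 : Sup (fun g => ∃ h, C.v h * C.t⁻¹ = g) ξ.toBlocks₂₁)
    (n22 : Sup (fun g => ∃ h, h ∉ C.i.range ∧ C.v h = g) ξ.toBlocks₂₂)
    (m1 : Sup C.pos μ.toRows₁) (m2 : Sup (fun g => ¬ C.pos (g * C.t)) μ.toRows₂)
    (h : (1 + sy ε ξ * fromBlocks 0 ((ε : ℤ) • 1) 1 0) * (1 + μ) = 1) :
    Z ε (hypF (ZG Γ) J + ξ) := by
  have key : sy ε ξ * fromBlocks 0 ((ε : ℤ) • 1) 1 0 =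
      fromBlocks (ξ.toBlocks₁₂ + (ε : ℤ) • ξ.toBlocks₂₁ᴴ)
        ((ε : ℤ) • (ξ.toBlocks₁₁ + (ε : ℤ) • ξ.toBlocks₁₁ᴴ))
        (ξ.toBlocks₂₂ + (ε : ℤ) • ξ.toBlocks₂₂ᴴ)
        ((ε : ℤ) • (ξ.toBlocks₂₁ + (ε : ℤ) • ξ.toBlocks₁₂ᴴ)) := by
    conv_lhs => rw [← fromBlocks_toBlocks ξ, sy_blocks, fromBlocks_multiply]
    simp only [Matrix.mul_zero, Matrix.mul_one, Matrix.mul_smul, zero_add, add_zero, sy]
  have hnil : IsNilpotent (sy ε ξ * fromBlocks 0 ((ε : ℤ) • 1) 1 0) := by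
    refine C.nil _ μ ?_ ?_ ?_ ?_ m1 m2 h
    · rw [key, toBlocks_fromBlocks₁₁]
      refine n12.add ((n21.ct.mono ?_).zsmul _)
      rintro g ⟨x, e⟩
      exact ⟨x⁻¹, by rw [map_inv, ← inv_inv g, ← e, _root_.mul_inv_rev, inv_inv]⟩
    · rw [key, toBlocks_fromBlocks₁₂]
      refine (n11.add ((n11.ct.mono ?_).zsmul _)).zsmul _
      rintro g ⟨x, hx, e⟩
      refine ⟨x⁻¹, fun c => hx (inv_mem_iff.1 c), ?_⟩
      rw [map_inv, ← inv_inv g, ← e, _root_.mul_inv_rev, _root_.mul_inv_rev, inv_inv, mul_assoc]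
    · rw [key, toBlocks_fromBlocks₂₁]
      refine n22.add ((n22.ct.mono ?_).zsmul _)
      rintro g ⟨x, hx, e⟩
      exact ⟨x⁻¹, fun c => hx (inv_mem_iff.1 c), by rw [map_inv, e, inv_inv]⟩
    · rw [key, toBlocks_fromBlocks₂₂]
      refine (n21.add ((n12.ct.mono ?_).zsmul _)).zsmul _
      rintro g ⟨x, e⟩
      exact ⟨x⁻¹, by rw [map_inv, ← inv_inv g, ← e, _root_.mul_inv_rev]⟩
  refine z_iff.1 (hU J (fun _ => C.o) (fun _ => C.t • C.o) ξ (fun _ => OSn_adj C) ?_
    (by rwa [symF_eq]))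
  rintro (k | k) (l | l) g e
  · have := OSn_b C (n11 k l g e)
    exact ⟨this.1.symm, this.2.symm⟩
  · have := OSn_a C (n12 k l g e)
    exact ⟨this.1.symm, this.2.symm⟩
  · have := OSn_d C (n21 k l g e)
    exact ⟨this.1.symm, this.2.symm⟩
  · have := OSn_c C (n22 k l g e)
    exact ⟨this.1.symm, this.2.symm⟩

end Pool.Agent.Work.MP_9d1ffa_al
end

-- merged part: Pool.Agent.Work.MP_9d1ffa_al.OGDefs
section
/-! One relator groups: Magnus subgroups and the rewriting of Magnus and Moldavanskii. -/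

namespace Pool.Agent.Work.MP_9d1ffa_al

set_option linter.unusedSectionVars false
set_option linter.unusedVariables false

open FreeGroup

variable {X Y : Type}

/-- the one relator group -/
abbrev OR (r : FreeGroup X) : Type := PresentedGroup ({r} : Set (FreeGroup X))

/-- the projection to the one relator group -/
abbrev pr (r : FreeGroup X) : FreeGroup X →* OR r := PresentedGroup.mk {r}

theorem pr_self (r : FreeGroup X) : pr r r = 1 :=
  PresentedGroup.one_of_mem (Set.mem_singleton r)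

/-- a homomorphism killing the relator factors through the one relator group -/
theorem exists_lift {G : Type} [Group G] {r : FreeGroup X} (f : FreeGroup X →* G) (h : f r = 1) :
    ∃ f' : OR r →* G, ∀ z, f' (pr r z) = f z :=
  ⟨QuotientGroup.lift _ f (Subgroup.normalClosure_le_normal (N := f.ker)
    (by rintro _ rfl; exact h)), fun z => rfl⟩

/-- the subgroup generated by a set of generators -/
abbrev Gn (S : Set X) : Subgroup (FreeGroup X) := Subgroup.closure (FreeGroup.of '' S)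

/-- the subgroup generated by all generators but one -/
abbrev Mg (y : X) : Subgroup (FreeGroup X) := Gn {x | x ≠ y}

/-- no conjugate of `r` avoids the generator `y` -/
def Ess (r : FreeGroup X) (y : X) : Prop := ∀ g, g * r * g⁻¹ ∉ Mg y

/-- the Freiheitssatz at `y` -/
def FrAt (r : FreeGroup X) (y : X) : Prop := ∀ z ∈ Mg y, pr r z = 1 → z = 1

/-- the theorem of Bagherzadeh at `y` -/
def BgAt (r : FreeGroup X) (y : X) : Prop := CM ((Mg y).map (pr r))

/-- the weighted exponent sum -/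
def wdeg (w : X → ℤ) (L : List (X × Bool)) : ℤ :=
  (L.map fun p => if p.2 then w p.1 else -w p.1).sum

/-- a word that is a path in the graph with the given source and target maps -/
inductive PathW (src dst : Y → ℤ) : ℤ → List (Y × Bool) → ℤ → Prop
  | nil (h : ℤ) : PathW src dst h [] h
  | pos (y : Y) (L : List (Y × Bool)) (h : ℤ) (p : PathW src dst (dst y) L h) :
      PathW src dst (src y) ((y, true) :: L) h
  | neg (y : Y) (L : List (Y × Bool)) (h : ℤ) (p : PathW src dst (src y) L h) :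
      PathW src dst (dst y) ((y, false) :: L) h

/-- the generators of the vertex group -/
abbrev Xp (b : X) (M : ℕ) : Type := {p : X × ℤ // p.1 = b → 0 ≤ p.2 ∧ p.2 ≤ M}

/-- the lowest copy of `b` -/
def bot (b : X) (M : ℕ) : Xp b M := ⟨(b, 0), fun _ => ⟨le_rfl, Int.natCast_nonneg M⟩⟩

/-- the highest copy of `b` -/
def top (b : X) (M : ℕ) : Xp b M := ⟨(b, M), fun _ => ⟨Int.natCast_nonneg M, le_rfl⟩⟩

/-- the generators of the edge group -/
abbrev XE (b : X) (M : ℕ) : Type := {y : Xp b M // y ≠ top b M}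

/-- the shift of the generators -/
def shf {b : X} {M : ℕ} (y : XE b M) : Xp b M :=
  ⟨(y.1.1.1, y.1.1.2 + 1), fun e => by
    have h := y.1.2 e
    have : y.1.1.2 ≠ M := fun e' => y.2 (Subtype.ext (Prod.ext e e'))
    constructor <;> simp only <;> omega⟩

/-- the stable letter -/
abbrev tt (X : Type) : FreeGroup (Option X) := of none

/-- the vertex group in the free group -/
def vF (b : X) (M : ℕ) : FreeGroup (Xp b M) →* FreeGroup (Option X) :=
  FreeGroup.lift fun p => tt X ^ p.1.2 * of (some p.1.1) * (tt X ^ p.1.2)⁻¹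

/-- the change of basis -/
def alpha (w : X → ℤ) (h : ℤ) : FreeGroup (Option X) ≃* FreeGroup (Option X) :=
  MonoidHom.toMulEquiv
    (FreeGroup.lift fun o => o.elim (tt X) fun x =>
      tt X ^ h * (of (some x) * tt X ^ w x) * (tt X ^ h)⁻¹)
    (FreeGroup.lift fun o => o.elim (tt X) fun x =>
      (tt X ^ h)⁻¹ * of (some x) * tt X ^ h * (tt X ^ w x)⁻¹)
    (by ext (_ | x) <;> simp <;> group) (by ext (_ | x) <;> simp <;> group)

theorem alpha_none (w : X → ℤ) (h : ℤ) : alpha w h (tt X) = tt X := by simp [alpha]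

theorem alpha_some (w : X → ℤ) (h : ℤ) (x : X) :
    alpha w h (of (some x)) = tt X ^ h * (of (some x) * tt X ^ w x) * (tt X ^ h)⁻¹ := by
  simp [alpha]

/-- the free group as an HNN extension -/
def phF (b : X) (M : ℕ) : PH (FreeGroup (Option X)) (FreeGroup (Xp b M)) (FreeGroup (XE b M)) where
  v := vF b M
  i := FreeGroup.map shf
  j := FreeGroup.map Subtype.val
  t := tt X
  rel a := by
    have : (MulAut.conj (tt X)⁻¹).toMonoidHom.comp ((vF b M).comp (FreeGroup.map shf)) =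
        (vF b M).comp (FreeGroup.map Subtype.val) := by
      ext y
      simp [vF, shf]
      group
    have e := DFunLike.congr_fun this a
    simp only [MonoidHom.comp_apply, MulEquiv.coe_toMonoidHom, MulAut.conj_apply, inv_inv] at e
    rw [← e]
    group

/-- the vertex group in the one relator group -/
def vG {b : X} {M : ℕ} (l : FreeGroup (Xp b M)) : OR l →* OR (vF b M l) :=
  QuotientGroup.lift _ ((pr (vF b M l)).comp (vF b M))
    (Subgroup.normalClosure_le_normal (N := ((pr (vF b M l)).comp (vF b M)).ker)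
      (by rintro _ rfl; exact pr_self _))

theorem vG_pr {b : X} {M : ℕ} (l z : FreeGroup (Xp b M)) :
    vG l (pr l z) = pr (vF b M l) (vF b M z) := rfl

/-- the one relator group as an HNN extension -/
def phG {b : X} {M : ℕ} (l : FreeGroup (Xp b M)) :
    PH (OR (vF b M l)) (OR l) (FreeGroup (XE b M)) where
  v := vG l
  i := (pr l).comp (phF b M).i
  j := (pr l).comp (phF b M).j
  t := pr _ (tt X)
  rel a := by
    simp only [MonoidHom.comp_apply, vG_pr, ← map_mul]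
    exact congrArg _ ((phF b M).rel a)

/-- the projection as a morphism of HNN relations -/
def phFG {b : X} {M : ℕ} (l : FreeGroup (Xp b M)) : PHom (phF b M) (phG l) where
  f := pr _
  fv := pr l
  fa := MonoidHom.id _
  hv h := rfl
  hi a := rfl
  hj a := rfl
  ht := rfl

/-- a free group as a free product with the cyclic group on one generator -/
def phX (x₀ : X) : PH (FreeGroup X) (FreeGroup {x // x ≠ x₀}) (FreeGroup Empty) where
  v := FreeGroup.map Subtype.val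
  i := 1
  j := 1
  t := of x₀
  rel a := by simp

/-- the infinite cyclic group -/
abbrev Cy : Type := FreeGroup Unit

/-- the homomorphism from the infinite cyclic group given by an element -/
def cy {G : Type} [Group G] (g : G) : Cy →* G := FreeGroup.lift fun _ => g

/-- the cyclic group as an HNN extension -/
def phZ : PH Cy (FreeGroup Empty) (FreeGroup Empty) where
  v := 1
  i := MonoidHom.id _
  j := MonoidHom.id _
  t := of ()
  rel a := by simp

/-- the cyclic factor of a free group -/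
def phZX (x₀ : X) : PHom phZ (phX x₀) where
  f := cy (of x₀)
  fv := 1
  fa := MonoidHom.id _
  hv h := by simp [phZ, phX]
  hi a := rfl
  hj a := rfl
  ht := by simp [phZ, phX, cy]

end Pool.Agent.Work.MP_9d1ffa_al
end

-- merged part: Pool.Agent.Work.MP_9d1ffa_al.OHNN
section
/-! HNN extensions given by their universal property. -/

namespace Pool.Agent.Work.MP_9d1ffa_al

set_option linter.unusedSectionVars false
set_option linter.unusedVariables false

open FreeGroup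

variable {X : Type}

section nf

open HNNExtension HNNExtension.NormalWord

variable {G : Type} [Group G] {A B : Subgroup G} (φ : A ≃* B) {d : TransversalPair G A B}

theorem OHNN_step (w : NormalWord d) :
    (∃ x, w.toList = (1, x) :: (unitsSMul φ (-1) w).toList) ∨
      ∃ x, (unitsSMul φ (-1) w).toList = (-1, x) :: w.toList ∧ (x ∈ B ↔ w.head ∈ B) := by
  by_cases h : Cancels (-1) w
  · left
    rw [unitsSMul, dif_pos h]
    induction w using consRecOn with
    | ofGroup => simp [Cancels] at h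
    | cons g u w h1 h2 _ =>
      have e : u = 1 := by simpa [Cancels] using h.2
      subst e
      exact ⟨w.head, rfl⟩
  · right
    rw [unitsSMul, dif_neg h]
    refine ⟨((d.compl (-1)).equiv w.head).2, ?_, ?_⟩
    · simp [unitsSMulGroup]
    · rw [(d.compl (-1)).equiv_snd_eq_inv_mul]
      exact Subgroup.mul_mem_cancel_left B (inv_mem ((d.compl (-1)).equiv w.head).1.2)

/-- the last letter is the inverse of the stable letter -/
def OHNN_P (w : NormalWord d) : Prop := ∃ x ∈ B, w.toList.getLast? = some (-1, x)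

theorem OHNN_up {w : NormalWord d} (h : OHNN_P w) : OHNN_P (unitsSMul φ (-1) w) := by
  obtain ⟨y, hy, h⟩ := h
  refine ⟨y, hy, ?_⟩
  rcases OHNN_step φ w with ⟨x, e⟩ | ⟨x, e, -⟩
  · rw [e] at h
    generalize (unitsSMul φ (-1) w).toList = L at h
    cases L with
    | nil => simp at h
    | cons a L => rwa [List.getLast?_cons_cons] at h
  · rw [e]
    generalize w.toList = L at h
    cases L with
    | nil => simp at h
    | cons a L => rwa [List.getLast?_cons_cons]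

theorem OHNN_t : OHNN_P (unitsSMul φ (-1) (empty : NormalWord d)) := by
  rcases OHNN_step φ (empty : NormalWord d) with ⟨x, e⟩ | ⟨x, e, h⟩
  · simp at e
  · exact ⟨x, h.2 (one_mem B), by rw [e]; rfl⟩

theorem OHNN_cross {w : NormalWord d} (h : ¬ OHNN_P w) (h' : OHNN_P (unitsSMul φ (-1) w)) :
    w.head ∈ B ∧ w.prod φ = HNNExtension.of w.head := by
  obtain ⟨y, hy, h'⟩ := h'
  rcases OHNN_step φ w with ⟨x, e⟩ | ⟨x, e, hx⟩
  · refine (h ⟨y, hy, ?_⟩).elim
    rw [e]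
    generalize (unitsSMul φ (-1) w).toList = L at h'
    cases L with
    | nil => simp at h'
    | cons a L => rwa [List.getLast?_cons_cons]
  · rw [e] at h'
    rcases e' : w.toList with _ | ⟨a, L⟩
    · rw [e'] at h'
      obtain rfl : x = y := by simpa using h'
      exact ⟨hx.1 hy, by simp [ReducedWord.prod, e']⟩
    · rw [e', List.getLast?_cons_cons, ← e'] at h'
      exact (h ⟨y, hy, h'⟩).elim

end nf

theorem OHNN_range {Y : Type} (f : Y → X) : (FreeGroup.map f).range = Gn (Set.range f) := by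
  rw [MonoidHom.range_eq_map, ← FreeGroup.closure_range_of, MonoidHom.map_closure, Gn,
    ← Set.range_comp, ← Set.range_comp]
  congr 2

theorem OHNN_top {Γ : Type} [Group Γ] (f : FreeGroup X →* Γ) (hf : Function.Surjective f)
    {S : Set Γ} (h : ∀ x, f (of x) ∈ Subgroup.closure S) : Subgroup.closure S = ⊤ := by
  rw [eq_top_iff, ← MonoidHom.range_eq_top.2 hf, MonoidHom.range_eq_map,
    ← FreeGroup.closure_range_of, MonoidHom.map_closure, Subgroup.closure_le]
  rintro _ ⟨_, ⟨x, rfl⟩, rfl⟩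
  exact h x

theorem OHNN_inj {Y : Type} {l : FreeGroup X} {y : X} (h : FrAt l y) {f : FreeGroup Y →* FreeGroup X}
    (hf : Function.Injective f) (e : f.range = Mg y) : Function.Injective ((pr l).comp f) :=
  (injective_iff_map_eq_one _).2 fun a ha => hf ((h _ (e ▸ ⟨a, rfl⟩) ha).trans f.map_one.symm)

theorem cut_of_univ {Γ V A : Type} [Group Γ] [Group V] [Group A] (D : PH Γ V A)
    (hi : Function.Injective D.i) (hj : Function.Injective D.j)
    (gen : Subgroup.closure (insert D.t (Set.range D.v)) = ⊤)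
    (univ : ∀ (Γ' : Type) [Group Γ'] (h : V →* Γ') (τ : Γ'), (∀ a, h (D.i a) * τ = τ * h (D.j a)) →
      ∃ Ψ : Γ →* Γ', (∀ x, Ψ (D.v x) = h x) ∧ Ψ D.t = τ) :
    ∃ C : Cut Γ V A, C.toPH = D := by
  let φ : D.j.range ≃* D.i.range := (MonoidHom.ofInjective hj).symm.trans (MonoidHom.ofInjective hi)
  have hφ : ∀ a, (φ ⟨D.j a, a, rfl⟩ : V) = D.i a := fun a => by
    have : (MonoidHom.ofInjective hj).symm ⟨D.j a, a, rfl⟩ = a :=
      (MulEquiv.symm_apply_eq _).2 rfl
    simp only [φ, MulEquiv.trans_apply, this]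
    rfl
  obtain ⟨Ψ, h1, h2⟩ := univ (HNNExtension V _ _ φ) HNNExtension.of HNNExtension.t fun a => by
    rw [← hφ]
    exact (HNNExtension.t_mul_of (φ := φ) ⟨D.j a, a, rfl⟩).symm
  have hΨ : Function.Injective Ψ := by
    have e : (HNNExtension.lift (φ := φ) D.v D.t (by
        rintro ⟨_, a, rfl⟩
        rw [hφ]
        exact (D.rel a).symm)).comp Ψ = MonoidHom.id Γ := by
      refine MonoidHom.eq_of_eqOn_dense gen ?_
      rintro _ (rfl | ⟨x, rfl⟩)
      · simp [h2]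
      · simp [h1]
    exact Function.LeftInverse.injective (DFunLike.congr_fun e)
  obtain ⟨d⟩ := HNNExtension.NormalWord.TransversalPair.nonempty V D.j.range D.i.range
  have ht : ∀ g, (Ψ (g * D.t))⁻¹ • (HNNExtension.NormalWord.empty : HNNExtension.NormalWord d) =
      HNNExtension.NormalWord.unitsSMul φ (-1) ((Ψ g)⁻¹ • HNNExtension.NormalWord.empty) :=
    fun g => by
      rw [← HNNExtension.NormalWord.t_pow_smul_eq_unitsSMul, Ψ.map_mul, mul_inv_rev, mul_smul, h2]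
      simp
  refine ⟨{ D with
    pos := fun g => OHNN_P ((Ψ g)⁻¹ • (HNNExtension.NormalWord.empty : HNNExtension.NormalWord d))
    vinj := fun x y e => HNNExtension.of_injective φ (by rw [← h1, ← h1, e])
    iinj := hi
    right := fun g h => ?_
    one := ?_
    tpos := ?_
    up := fun g h => ?_
    cross := fun g h h' => ?_
    gen := gen }, rfl⟩
  · rw [Ψ.map_mul, mul_inv_rev, mul_smul, h1, ← MonoidHom.map_inv,
      HNNExtension.NormalWord.of_smul_eq_smul]
    rfl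
  · simp [OHNN_P]
  · have := ht 1
    rw [one_mul, Ψ.map_one, inv_one, one_smul] at this
    rw [this]
    exact OHNN_t φ
  · rw [ht]
    exact OHNN_up φ h
  · rw [ht] at h'
    obtain ⟨⟨a, ha⟩, e⟩ := OHNN_cross φ h h'
    rw [← ha, HNNExtension.NormalWord.prod_smul, HNNExtension.NormalWord.prod_empty, mul_one] at e
    exact ⟨a⁻¹, hΨ (by rw [h1, MonoidHom.map_inv, MonoidHom.map_inv, ← e, inv_inv])⟩

theorem cut_free (x₀ : X) : ∃ C : Cut _ _ _, C.toPH = phX x₀ := by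
  classical
  refine cut_of_univ _ (fun _ _ _ => Subsingleton.elim _ _) (fun _ _ _ => Subsingleton.elim _ _)
    (OHNN_top (MonoidHom.id _) Function.surjective_id fun x => Subgroup.subset_closure ?_)
    fun Γ' _ h τ _ => ⟨FreeGroup.lift fun x => if e : x = x₀ then τ else h (of ⟨x, e⟩),
      fun z => ?_, by simp [phX]⟩
  · by_cases e : x = x₀
    · exact Or.inl (e ▸ rfl)
    · exact Or.inr ⟨of ⟨x, e⟩, by simp [phX]⟩
  · rw [← MonoidHom.comp_apply]
    refine DFunLike.congr_fun ?_ z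
    ext y
    simp [phX, y.2]

theorem range_shf (b : X) (M : ℕ) : (phF b M).i.range = Mg (bot b M) := by
  refine (OHNN_range shf).trans (congrArg Gn (Set.ext fun y => ⟨?_, fun h => ?_⟩))
  · rintro ⟨z, rfl⟩ e
    have h1 := congrArg (fun p => p.1.1) e
    have h2 := congrArg (fun p => p.1.2) e
    have h3 := z.1.2 h1
    simp only [shf, bot] at h2
    omega
  · have h1 : y.1.1 = b → 0 ≤ y.1.2 - 1 ∧ y.1.2 - 1 < M := fun e => by
      have h2 := y.2 e
      have h3 : y.1.2 ≠ 0 := fun e' => h (Subtype.ext (Prod.ext e e'))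
      omega
    refine ⟨⟨⟨(y.1.1, y.1.2 - 1), fun e => ⟨(h1 e).1, (h1 e).2.le⟩⟩, fun e => ?_⟩,
      Subtype.ext (Prod.ext rfl (sub_add_cancel _ _))⟩
    exact (h1 (congrArg (fun p => p.1.1) e)).2.ne (congrArg (fun p => p.1.2) e)

theorem range_val (b : X) (M : ℕ) : (phF b M).j.range = Mg (top b M) := by
  exact (OHNN_range Subtype.val).trans (congrArg Gn Subtype.range_coe_subtype)

theorem cut_std {b : X} {M : ℕ} {l : FreeGroup (Xp b M)} (h1 : FrAt l (bot b M))
    (h2 : FrAt l (top b M)) : ∃ C : Cut _ _ _, C.toPH = phG l := by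
  have hs : Function.Injective (shf (b := b) (M := M)) := fun y z e =>
    Subtype.ext (Subtype.ext (Prod.ext (congrArg (fun p => p.1.1) e)
      (add_right_cancel (congrArg (fun p => p.1.2) e))))
  have h0 : ∀ x : X, x = b → (0 : ℤ) ≤ 0 ∧ (0 : ℤ) ≤ M := fun _ _ => ⟨le_rfl, Int.natCast_nonneg M⟩
  refine cut_of_univ _ (OHNN_inj h1 (FreeGroup.map_injective hs) (range_shf b M))
    (OHNN_inj h2 (FreeGroup.map_injective Subtype.val_injective) (range_val b M))
    (OHNN_top (pr _) (PresentedGroup.mk_surjective _) fun o => Subgroup.subset_closure ?_)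
    fun Γ' _ h τ hr => ?_
  · rcases o with _ | x
    · exact Or.inl rfl
    · exact Or.inr ⟨pr l (of ⟨(x, 0), h0 x⟩), (vG_pr _ _).trans (congrArg _ (by simp [vF]))⟩
  have st : ∀ (x : X) (k : ℤ) (p : x = b → 0 ≤ k ∧ k ≤ M) (q : x = b → 0 ≤ k + 1 ∧ k + 1 ≤ M),
      h (pr l (of ⟨(x, k + 1), q⟩)) * τ = τ * h (pr l (of ⟨(x, k), p⟩)) := fun x k p q => by
    have := hr (of ⟨⟨(x, k), p⟩, fun e => by
      have e1 := q (congrArg (fun p => p.1.1) e)
      have e2 : k = M := congrArg (fun p => p.1.2) e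
      omega⟩)
    simpa [phG, phF, shf] using this
  have key : ∀ (x : X) (k : ℤ) (p : x = b → 0 ≤ k ∧ k ≤ M),
      τ ^ k * h (pr l (of ⟨(x, 0), h0 x⟩)) * (τ ^ k)⁻¹ = h (pr l (of ⟨(x, k), p⟩)) := by
    intro x k
    induction k using Int.induction_on with
    | zero => intro p; simp
    | succ k ih =>
      intro p
      have q : x = b → 0 ≤ (k : ℤ) ∧ (k : ℤ) ≤ M := fun e => by have := p e; omega
      rw [eq_mul_inv_of_mul_eq (st x k q p), ← ih q]
      group
    | pred k ih =>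
      intro p
      have q : x = b → 0 ≤ -(k : ℤ) - 1 + 1 ∧ -(k : ℤ) - 1 + 1 ≤ M := fun e => by
        have := p e; omega
      have e := st x _ p q
      simp only [sub_add_cancel] at e q
      rw [← ih q] at e
      rw [← inv_mul_eq_of_eq_mul e]
      group
  obtain ⟨Ψ₀, hΨ₀⟩ : ∃ Ψ₀ : FreeGroup (Option X) →* Γ', Ψ₀ = FreeGroup.lift fun o =>
      o.elim τ fun x => h (pr l (of ⟨(x, 0), h0 x⟩)) := ⟨_, rfl⟩
  have e : Ψ₀.comp (vF b M) = h.comp (pr l) := by
    ext y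
    simpa [hΨ₀, vF] using key y.1.1 y.1.2 y.2
  obtain ⟨Ψ, hΨ⟩ := exists_lift (r := vF b M l) Ψ₀
    ((DFunLike.congr_fun e l).trans (by simp [pr_self]))
  refine ⟨Ψ, fun z => ?_, (hΨ _).trans (by simp [hΨ₀])⟩
  obtain ⟨z, rfl⟩ := PresentedGroup.mk_surjective _ z
  exact (hΨ _).trans (DFunLike.congr_fun e z)

end Pool.Agent.Work.MP_9d1ffa_al
end

-- merged part: Pool.Agent.Work.MP_9d1ffa_al.OFree
section
/-! Elementary facts on free groups. -/

namespace Pool.Agent.Work.MP_9d1ffa_al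

set_option linter.unusedSectionVars false
set_option linter.unusedVariables false

open FreeGroup

variable {X : Type}

theorem tf_free : TF (FreeGroup X) := fun _ h => h.eq_one'

theorem OFree_core (G : Type) [Group G] [IsFreeGroup G]
    (h : ∀ p q : G, (p * q * p⁻¹ * q⁻¹) * (p * (p * q * p⁻¹ * q⁻¹) * p⁻¹) =
      (p * (p * q * p⁻¹ * q⁻¹) * p⁻¹) * (p * q * p⁻¹ * q⁻¹)) :
    ∃ χ : G →* Multiplicative ℤ, Function.Injective χ := by
  classical
  have h1 : ∀ p q : IsFreeGroup.Generators G, p = q := by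
    intro p q
    by_contra hn
    let f : G →* Equiv.Perm (Fin 4) := IsFreeGroup.lift fun x =>
      if x = p then finRotate 4 else Equiv.swap 0 1
    have fp : f (IsFreeGroup.of p) = finRotate 4 := by simp [f]
    have fq : f (IsFreeGroup.of q) = Equiv.swap 0 1 := by simp [f, Ne.symm hn]
    have := congrArg f (h (IsFreeGroup.of p) (IsFreeGroup.of q))
    simp only [_root_.map_mul, _root_.map_inv, fp, fq] at this
    revert this
    decide
  obtain ⟨g, hg⟩ : ∃ g : G, ∀ x : IsFreeGroup.Generators G, IsFreeGroup.of x = g := by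
    rcases isEmpty_or_nonempty (IsFreeGroup.Generators G) with k | ⟨⟨a⟩⟩
    · exact ⟨1, fun x => k.elim x⟩
    · exact ⟨IsFreeGroup.of a, fun x => by rw [h1 x a]⟩
  refine ⟨IsFreeGroup.lift fun _ => Multiplicative.ofAdd 1,
    Function.LeftInverse.injective (g := zpowersHom G g) fun x => ?_⟩
  have : (zpowersHom G g).comp (IsFreeGroup.lift fun _ => Multiplicative.ofAdd 1) =
      MonoidHom.id G := IsFreeGroup.ext_hom fun a => by
    rw [MonoidHom.comp_apply, IsFreeGroup.lift_of]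
    simp [hg]
  exact DFunLike.congr_fun this x

theorem cyc_of_comm {F : Type} [Group F] [IsFreeGroup F] (D : Subgroup F)
    (h : ∀ x ∈ D, ∀ y ∈ D, x * y = y * x) :
    ∃ χ : D →* Multiplicative ℤ, Function.Injective χ :=
  OFree_core D fun _ _ => Subtype.ext (h _ (Subtype.prop _) _ (Subtype.prop _))

theorem comm_of_ker {F : Type} [Group F] [IsFreeGroup F] (D : Subgroup F)
    (χ : F →* Multiplicative ℤ)
    (h : ∀ x ∈ D, ∀ y ∈ D, χ x = 1 → χ y = 1 → x * y = y * x) :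
    ∀ x ∈ D, ∀ y ∈ D, x * y = y * x := by
  obtain ⟨ψ, hψ⟩ := OFree_core D fun p q =>
    Subtype.ext (h _ (Subtype.prop _) _ (Subtype.prop _) (by simp) (by simp))
  intro x hx y hy
  have : (⟨x, hx⟩ * ⟨y, hy⟩ : D) = ⟨y, hy⟩ * ⟨x, hx⟩ := hψ (by
    rw [_root_.map_mul, _root_.map_mul, mul_comm])
  exact congrArg Subtype.val this

theorem exists_cred (L₀ : List (X × Bool)) : ∃ (L : List (X × Bool)) (g : FreeGroup X),
    IsCyclicallyReduced L ∧ mk L₀ = g * mk L * g⁻¹ ∧ L.length ≤ L₀.length := by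
  classical
  have e := reduceCyclically.conj_conjugator_reduceCyclically (reduce L₀)
  refine ⟨reduceCyclically (reduce L₀), mk (reduceCyclically.conjugator (reduce L₀)),
    reduceCyclically.isCyclicallyReduced (IsReduced.of_reduce_eq reduce.idem), ?_, ?_⟩
  · rw [inv_mk, mul_mk, mul_mk, e, reduce.self]
  · have h1 := congrArg List.length e
    have h2 : (reduce L₀).length ≤ L₀.length := reduce.red.length_le
    simp only [List.length_append] at h1
    omega

theorem OFree_cons (p : X × Bool) (L : List (X × Bool)) :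
    mk (p :: L) = (if p.2 then of p.1 else (of p.1)⁻¹) * mk L := by
  obtain ⟨x, _ | _⟩ := p <;> rfl

theorem mk_mem_closure {L : List (X × Bool)} {S : Set X} (h : ∀ p ∈ L, p.1 ∈ S) :
    mk L ∈ Gn S := by
  induction L with
  | nil => exact one_mem _
  | cons p L ih =>
    have h1 : of p.1 ∈ Gn S := Subgroup.subset_closure ⟨p.1, h p List.mem_cons_self, rfl⟩
    rw [OFree_cons]
    refine mul_mem ?_ (ih fun q hq => h q (List.mem_cons_of_mem _ hq))
    split_ifs
    exacts [h1, inv_mem h1]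

/-- the number of occurrences of a generator -/
def OFree_cnt [DecidableEq X] (y : X) (w : FreeGroup X) : ℕ :=
  w.toWord.countP fun p => p.1 = y

theorem OFree_cnt_mul [DecidableEq X] (y : X) (u v : FreeGroup X) :
    OFree_cnt y (u * v) ≤ OFree_cnt y u + OFree_cnt y v := by
  unfold OFree_cnt
  rw [← List.countP_append]
  exact (toWord_mul_sublist u v).countP_le

theorem OFree_cnt_inv [DecidableEq X] (y : X) (u : FreeGroup X) :
    OFree_cnt y u⁻¹ = OFree_cnt y u := by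
  unfold OFree_cnt
  rw [toWord_inv, invRev, List.countP_reverse, List.countP_map]
  rfl

theorem OFree_cnt_zero [DecidableEq X] {y : X} {u : FreeGroup X} (h : u ∈ Mg y) :
    OFree_cnt y u = 0 := by
  induction h using Subgroup.closure_induction with
  | mem x hx =>
    obtain ⟨x, hx, rfl⟩ := hx
    have : x ≠ y := hx
    simp [OFree_cnt, this]
  | one => simp [OFree_cnt]
  | mul a b _ _ ha hb =>
    have := OFree_cnt_mul y a b
    omega
  | inv a _ ha => rwa [OFree_cnt_inv]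

theorem OFree_cnt_pow [DecidableEq X] {L : List (X × Bool)} (h : IsCyclicallyReduced L) {y : X}
    (hy : ∃ s, (y, s) ∈ L) (n : ℕ) : n ≤ OFree_cnt y (mk L ^ n) := by
  obtain ⟨s, hs⟩ := hy
  have h1 : 0 < L.countP fun p => p.1 = y := List.countP_pos_iff.2 ⟨_, hs, by simp⟩
  unfold OFree_cnt
  rw [pow_mk, toWord_mk, (h.flatten_replicate n).isReduced.reduce_eq, List.countP_flatten,
    List.map_replicate, List.sum_replicate, smul_eq_mul]
  exact Nat.le_mul_of_pos_right n h1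

theorem ess_of_cred {L : List (X × Bool)} (h : IsCyclicallyReduced L) {y : X}
    (hy : ∃ s, (y, s) ∈ L) : Ess (mk L) y := by
  classical
  intro g hg
  have h1 := OFree_cnt_pow h hy (2 * OFree_cnt y g + 1)
  have h2 := OFree_cnt_zero (pow_mem hg (2 * OFree_cnt y g + 1))
  have e : mk L ^ (2 * OFree_cnt y g + 1) =
      g⁻¹ * (g * mk L * g⁻¹) ^ (2 * OFree_cnt y g + 1) * g := by
    rw [conj_pow]
    group
  have h3 := OFree_cnt_mul y (g⁻¹ * (g * mk L * g⁻¹) ^ (2 * OFree_cnt y g + 1)) g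
  have h4 := OFree_cnt_mul y g⁻¹ ((g * mk L * g⁻¹) ^ (2 * OFree_cnt y g + 1))
  rw [← e] at h3
  rw [OFree_cnt_inv] at h4
  omega

theorem mem_of_ess {L : List (X × Bool)} {y : X} (h : Ess (mk L) y) : ∃ s, (y, s) ∈ L := by
  by_contra hn
  refine h 1 ?_
  rw [one_mul, inv_one, mul_one]
  exact mk_mem_closure fun p hp e => hn ⟨p.2, e ▸ hp⟩

theorem mk_eq_zpow {L : List (X × Bool)} {y : X} (h : ∀ p ∈ L, p.1 = y) :
    ∃ k : ℤ, mk L = of y ^ k := by
  have h1 : mk L ∈ Gn {y} := mk_mem_closure h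
  rw [Gn, Set.image_singleton, Subgroup.mem_closure_singleton] at h1
  obtain ⟨k, hk⟩ := h1
  exact ⟨k, hk.symm⟩

theorem OFree_wdeg (m n : ℤ) (w w' : X → ℤ) (L : List (X × Bool)) :
    wdeg (fun x => m * w x - n * w' x) L = m * wdeg w L - n * wdeg w' L := by
  unfold wdeg
  induction L with
  | nil => simp
  | cons p L ih =>
    simp only [List.map_cons, List.sum_cons, ih]
    split_ifs <;> ring

theorem choose_w {L : List (X × Bool)} {a₀ b : X} (hab : a₀ ≠ b) (ha : ∃ s, (a₀, s) ∈ L) :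
    (∃ (a : X) (w : X → ℤ), a ≠ b ∧ (∃ s, (a, s) ∈ L) ∧ w a ≠ 0 ∧ wdeg w L = 0) ∨
      ((∀ p ∈ L, p.1 = a₀ ∨ p.1 = b) ∧
        ∃ w : X → ℤ, w b = 1 ∧ (∀ x, x ≠ b → w x = 0) ∧ wdeg w L = 0) := by
  classical
  let ind : X → X → ℤ := fun c x => if x = c then 1 else 0
  by_cases h1 : ∃ c, c ≠ a₀ ∧ wdeg (ind c) L ≠ 0
  · obtain ⟨c, hc, h1⟩ := h1
    refine Or.inl ⟨a₀, fun x => wdeg (ind c) L * ind a₀ x - wdeg (ind a₀) L * ind c x, hab, ha,
      ?_, ?_⟩
    · simpa [ind, hc.symm] using h1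
    · rw [OFree_wdeg]
      ring
  push Not at h1
  by_cases h2 : ∀ p ∈ L, p.1 = a₀ ∨ p.1 = b
  · exact Or.inr ⟨h2, ind b, by simp [ind], fun x hx => by simp [ind, hx], h1 b hab.symm⟩
  push Not at h2
  obtain ⟨p, hp, h3, h4⟩ := h2
  exact Or.inl ⟨p.1, ind p.1, h4, ⟨p.2, hp⟩, by simp [ind], h1 _ h3⟩

/-- a power of a generator defines a torsion free group only if the exponent is `0` or `± 1` -/
theorem zpow_of_tf {y : X} {k : ℤ} (h : TF (OR (of y ^ k))) : k = 0 ∨ k = 1 ∨ k = -1 := by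
  by_cases hk : k = 0
  · exact Or.inl hk
  have h1 : pr (of y ^ k) (of y) = 1 :=
    h _ (isOfFinOrder_iff_zpow_eq_one.2 ⟨k, hk, by rw [← map_zpow, pr_self]⟩)
  obtain ⟨f, hf⟩ := exists_lift (r := of y ^ k)
    (FreeGroup.lift fun _ => (Multiplicative.ofAdd 1 : Multiplicative (ZMod k.natAbs))) (by
      rw [map_zpow, lift_apply_of, ← ofAdd_zsmul, zsmul_eq_mul, mul_one,
        (ZMod.intCast_zmod_eq_zero_iff_dvd k k.natAbs).2 (Int.natAbs_dvd.2 dvd_rfl), ofAdd_zero])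
  have h2 := hf (of y)
  rw [h1, _root_.map_one, lift_apply_of] at h2
  have h3 : ((1 : ℕ) : ZMod k.natAbs) = 0 := by
    rw [Nat.cast_one]
    exact (congrArg Multiplicative.toAdd h2).symm
  rw [ZMod.natCast_eq_zero_iff, Nat.dvd_one] at h3
  omega

end Pool.Agent.Work.MP_9d1ffa_al
end

-- merged part: Pool.Agent.Work.MP_9d1ffa_al.OMS1
section
/-! Lifting a word to a closed path. -/

namespace Pool.Agent.Work.MP_9d1ffa_al

set_option linter.unusedSectionVars false
set_option linter.unusedVariables false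

open FreeGroup

variable {X : Type}

theorem OMS1_pos {Y : Type} (y : Y) (L : List (Y × Bool)) :
    mk ((y, true) :: L) = of y * mk L := rfl

theorem OMS1_neg {Y : Type} (y : Y) (L : List (Y × Bool)) :
    mk ((y, false) :: L) = (of y)⁻¹ * mk L := rfl

theorem OMS1_nil {Y : Type} : mk ([] : List (Y × Bool)) = 1 := rfl

theorem OMS1_lift (w : X → ℤ) (L : List (X × Bool)) : ∀ h : ℤ,
    ∃ L' : List ((X × ℤ) × Bool), L'.map (fun p => (p.1.1, p.2)) = L ∧
      PathW (fun y : X × ℤ => y.2) (fun y => y.2 + w y.1) h L' (h + wdeg w L) := by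
  induction L with
  | nil => exact fun h => ⟨[], rfl, by simpa [wdeg] using PathW.nil h⟩
  | cons q L ih =>
    intro h
    obtain ⟨x, _ | _⟩ := q
    · obtain ⟨L', h1, h2⟩ := ih (h - w x)
      refine ⟨((x, h - w x), false) :: L', by simp [h1], ?_⟩
      have := PathW.neg (src := fun y : X × ℤ => y.2) (dst := fun y => y.2 + w y.1)
        (x, h - w x) L' _ h2
      convert this using 1
      · simp
      · simp only [wdeg, List.map_cons, List.sum_cons]
        simp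
        ring
    · obtain ⟨L', h1, h2⟩ := ih (h + w x)
      refine ⟨((x, h), true) :: L', by simp [h1], ?_⟩
      have := PathW.pos (src := fun y : X × ℤ => y.2) (dst := fun y => y.2 + w y.1)
        (x, h) L' _ h2
      convert this using 1
      simp only [wdeg, List.map_cons, List.sum_cons]
      simp
      ring

theorem OMS1_map {Y Z : Type} {src dst : Y → ℤ} {src' dst' : Z → ℤ} (f : Y → Z) (c : ℤ)
    {h h' : ℤ} {L : List (Y × Bool)} (p : PathW src dst h L h')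
    (H : ∀ q ∈ L, src' (f q.1) = src q.1 + c ∧ dst' (f q.1) = dst q.1 + c) :
    PathW src' dst' (h + c) (L.map fun q => (f q.1, q.2)) (h' + c) := by
  induction p with
  | nil h => exact PathW.nil _
  | pos y L h p ih =>
    obtain ⟨h1, h2⟩ := H _ List.mem_cons_self
    have := ih fun q hq => H q (List.mem_cons_of_mem _ hq)
    rw [← h2] at this
    rw [← h1]
    exact PathW.pos _ _ _ this
  | neg y L h p ih =>
    obtain ⟨h1, h2⟩ := H _ List.mem_cons_self
    have := ih fun q hq => H q (List.mem_cons_of_mem _ hq)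
    rw [← h1] at this
    rw [← h2]
    exact PathW.neg _ _ _ this

theorem lift_exists {L : List (X × Bool)} {b : X} (hb : ∃ s, (b, s) ∈ L) (w : X → ℤ)
    (h0 : wdeg w L = 0) :
    ∃ (M : ℕ) (h : ℤ) (L' : List (Xp b M × Bool)), L'.map (fun p => (p.1.1.1, p.2)) = L ∧
      PathW (fun y : Xp b M => y.1.2) (fun y => y.1.2 + w y.1.1) h L' h ∧
      (∃ s, (bot b M, s) ∈ L') ∧ ∃ s, (top b M, s) ∈ L' := by
  classical
  obtain ⟨L₁, h1, h2⟩ := OMS1_lift w L 0
  have hf : {q | q ∈ L₁ ∧ q.1.1 = b}.Finite := L₁.finite_toSet.subset fun _ h => h.1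
  have hn : {q | q ∈ L₁ ∧ q.1.1 = b}.Nonempty := by
    obtain ⟨s, hs⟩ := hb
    rw [← h1] at hs
    obtain ⟨q, hq, e⟩ := List.mem_map.1 hs
    exact ⟨q, hq, congrArg Prod.fst e⟩
  obtain ⟨u, ⟨u1, u2⟩, u3⟩ := Set.exists_min_image _ (fun q => q.1.2) hf hn
  obtain ⟨v, ⟨v1, v2⟩, v3⟩ := Set.exists_max_image _ (fun q => q.1.2) hf hn
  obtain ⟨M, hM⟩ := Int.eq_ofNat_of_zero_le (sub_nonneg.2 (u3 v ⟨v1, v2⟩))
  obtain ⟨f, hf⟩ : ∃ f : X × ℤ → Xp b M, ∀ q ∈ L₁, (f q.1).1 = (q.1.1, q.1.2 - u.1.2) := by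
    refine ⟨fun y => if h : y.1 = b → 0 ≤ y.2 - u.1.2 ∧ y.2 - u.1.2 ≤ M then
      ⟨(y.1, y.2 - u.1.2), h⟩ else bot b M, fun q hq => ?_⟩
    have : q.1.1 = b → 0 ≤ q.1.2 - u.1.2 ∧ q.1.2 - u.1.2 ≤ M := fun e => by
      have h3 := u3 q ⟨hq, e⟩
      have h4 := v3 q ⟨hq, e⟩
      omega
    simp only [dif_pos this]
  refine ⟨M, 0 + -u.1.2, L₁.map fun q => (f q.1, q.2), ?_, ?_, ⟨u.2, List.mem_map.2 ⟨u, u1, ?_⟩⟩,
    v.2, List.mem_map.2 ⟨v, v1, ?_⟩⟩
  · rw [← h1, List.map_map]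
    exact List.map_congr_left fun q hq => by simp [hf q hq]
  · rw [h0, add_zero] at h2
    refine OMS1_map f _ h2 fun q hq => ?_
    rw [hf q hq]
    constructor <;> simp only <;> ring
  · refine Prod.ext (Subtype.ext ?_) rfl
    rw [hf u u1, u2, sub_self]
    rfl
  · refine Prod.ext (Subtype.ext ?_) rfl
    rw [hf v v1, v2, hM]
    rfl

theorem OMS1_alpha (w : X → ℤ) (h : ℤ) (z : FreeGroup (Option X)) :
    alpha w h z = tt X ^ h * alpha w 0 z * (tt X ^ h)⁻¹ := by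
  have : (alpha w h).toMonoidHom =
      (MulAut.conj (tt X ^ h)).toMonoidHom.comp (alpha w 0).toMonoidHom := by
    ext (_ | x)
    · simp only [MulEquiv.coe_toMonoidHom, MonoidHom.comp_apply, MulAut.conj_apply]
      rw [alpha_none, alpha_none]
      group
    · simp only [MulEquiv.coe_toMonoidHom, MonoidHom.comp_apply, MulAut.conj_apply]
      rw [alpha_some, alpha_some]
      group
  exact DFunLike.congr_fun this z

theorem OMS1_vF {b : X} {M : ℕ} (w : X → ℤ) {h h' : ℤ} {L : List (Xp b M × Bool)}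
    (p : PathW (fun y : Xp b M => y.1.2) (fun y => y.1.2 + w y.1.1) h L h') :
    vF b M (mk L) = tt X ^ h *
      alpha w 0 (FreeGroup.map some (mk (L.map fun p => (p.1.1.1, p.2)))) * (tt X ^ h')⁻¹ := by
  have e : ∀ y : Xp b M, vF b M (of y) = tt X ^ y.1.2 * of (some y.1.1) * (tt X ^ y.1.2)⁻¹ :=
    fun y => by simp [vF]
  induction p with
  | nil h => simp [OMS1_nil]
  | pos y L h p ih =>
    rw [List.map_cons, OMS1_pos, OMS1_pos, _root_.map_mul, _root_.map_mul, _root_.map_mul, ih, FreeGroup.map.of,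
      alpha_some, e]
    group
  | neg y L h p ih =>
    rw [List.map_cons, OMS1_neg, OMS1_neg, _root_.map_mul, _root_.map_mul, _root_.map_mul, ih, _root_.map_inv, _root_.map_inv,
      _root_.map_inv, FreeGroup.map.of, alpha_some, e]
    group

theorem vF_path {b : X} {M : ℕ} (w : X → ℤ) {h : ℤ} {L : List (Xp b M × Bool)}
    (p : PathW (fun y : Xp b M => y.1.2) (fun y => y.1.2 + w y.1.1) h L h) :
    vF b M (mk L) = alpha w h (FreeGroup.map some (mk (L.map fun p => (p.1.1.1, p.2)))) := by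
  rw [OMS1_vF w p, OMS1_alpha w h]

theorem cred_of_map {Y : Type} (f : Y → X) {L : List (Y × Bool)}
    (h : IsCyclicallyReduced (L.map fun p => (f p.1, p.2))) : IsCyclicallyReduced L := by
  refine ⟨List.isChain_of_isChain_map _ (fun a b h e => h (congrArg f e)) h.1,
    fun a ha b hb e => h.2 (f a.1, a.2) ?_ (f b.1, b.2) ?_ (congrArg f e)⟩
  · rw [List.getLast?_map]
    exact Option.mem_map_of_mem _ ha
  · rw [List.head?_map]
    exact Option.mem_map_of_mem _ hb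

open Classical in
/-- the endomorphism twisting all generators but `e` by powers of `e` -/
noncomputable def OMS1_th {Y : Type} (src dst : Y → ℤ) (e : Y) (n : ℤ → ℤ) :
    FreeGroup Y →* FreeGroup Y :=
  FreeGroup.lift fun y => if y = e then of e else of e ^ n (src y) * of y * (of e ^ n (dst y))⁻¹

theorem OMS1_th_e {Y : Type} (src dst : Y → ℤ) (e : Y) (n : ℤ → ℤ) :
    OMS1_th src dst e n (of e) = of e := by
  simp [OMS1_th]

theorem OMS1_th_ne {Y : Type} (src dst : Y → ℤ) {e y : Y} (n : ℤ → ℤ) (h : y ≠ e) :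
    OMS1_th src dst e n (of y) = of e ^ n (src y) * of y * (of e ^ n (dst y))⁻¹ := by
  simp [OMS1_th, h]

theorem OMS1_th_comp {Y : Type} (src dst : Y → ℤ) (e : Y) {n n' : ℤ → ℤ}
    (h : ∀ k, n' k = -n k) :
    (OMS1_th src dst e n).comp (OMS1_th src dst e n') = MonoidHom.id _ := by
  ext y
  by_cases hy : y = e
  · simp [hy, OMS1_th_e]
  · rw [MonoidHom.comp_apply, OMS1_th_ne _ _ _ hy, _root_.map_mul, _root_.map_mul, _root_.map_inv, map_zpow, map_zpow,
      OMS1_th_e, OMS1_th_ne _ _ _ hy, h, h, MonoidHom.id_apply]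
    group

theorem OMS1_th_mem {Y : Type} (src dst : Y → ℤ) {e y : Y} (n : ℤ → ℤ) (h : y ≠ e)
    {z : FreeGroup Y} (hz : z ∈ Mg y) : OMS1_th src dst e n z ∈ Mg y := by
  have he : of e ∈ Mg y := Subgroup.subset_closure ⟨e, h.symm, rfl⟩
  refine (Subgroup.closure_le ((Mg y).comap (OMS1_th src dst e n))).2 ?_ hz
  rintro _ ⟨x, hx, rfl⟩
  change OMS1_th src dst e n (of x) ∈ Mg y
  by_cases hx' : x = e
  · rwa [hx', OMS1_th_e]
  · rw [OMS1_th_ne _ _ _ hx']
    exact mul_mem (mul_mem (zpow_mem he _) (Subgroup.subset_closure ⟨x, hx, rfl⟩))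
      (inv_mem (zpow_mem he _))

theorem OMS1_tel {Y : Type} [DecidableEq Y] {src dst : Y → ℤ} {e : Y} {n : ℤ → ℤ}
    (h1 : n (src e) = 0) (h2 : n (dst e) = 1) {h h' : ℤ} {L : List (Y × Bool)}
    (p : PathW src dst h L h') :
    OMS1_th src dst e n (mk (L.filter fun q => q.1 ≠ e)) =
      of e ^ n h * mk L * (of e ^ n h')⁻¹ := by
  induction p with
  | nil h => simp [OMS1_nil]
  | pos y L h p ih =>
    by_cases hy : y = e
    · subst hy
      rw [List.filter_cons_of_neg (by simp), ih, OMS1_pos, h1, h2]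
      group
    · rw [List.filter_cons_of_pos (by simpa using hy), OMS1_pos, OMS1_pos, _root_.map_mul, ih,
        OMS1_th_ne _ _ _ hy]
      group
  | neg y L h p ih =>
    by_cases hy : y = e
    · subst hy
      rw [List.filter_cons_of_neg (by simp), ih, OMS1_neg, h1, h2]
      group
    · rw [List.filter_cons_of_pos (by simpa using hy), OMS1_neg, OMS1_neg, _root_.map_mul, ih, _root_.map_inv,
        OMS1_th_ne _ _ _ hy]
      group

/-- collapsing an edge that is not a loop -/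
theorem whitehead {Y : Type} {src dst : Y → ℤ} {h : ℤ} {L : List (Y × Bool)}
    (p : PathW src dst h L h) {e : Y} (he : src e ≠ dst e) (hm : ∃ s, (e, s) ∈ L) :
    ∃ (L' : List (Y × Bool)) (φ : FreeGroup Y ≃* FreeGroup Y), L'.length < L.length ∧
      φ (mk L') = mk L ∧ ∀ y, y ≠ e → ∀ z, φ z ∈ Mg y ↔ z ∈ Mg y := by
  classical
  let n : ℤ → ℤ := fun k => if k = dst e then 1 else 0
  let ψ : FreeGroup Y ≃* FreeGroup Y := MonoidHom.toMulEquiv (OMS1_th src dst e n)
    (OMS1_th src dst e fun k => -n k) (OMS1_th_comp _ _ _ fun k => (neg_neg _).symm)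
    (OMS1_th_comp _ _ _ fun k => rfl)
  refine ⟨L.filter fun q => q.1 ≠ e, ψ.trans (MulAut.conj (of e ^ n h)⁻¹), ?_, ?_,
    fun y hy z => ?_⟩
  · obtain ⟨s, hs⟩ := hm
    exact List.length_filter_lt_length_iff_exists.2 ⟨_, hs, by simp⟩
  · have h1 : ψ (mk (L.filter fun q => q.1 ≠ e)) = _ :=
      OMS1_tel (n := n) (if_neg he) (if_pos rfl) p
    rw [MulEquiv.trans_apply, MulAut.conj_apply, h1]
    group
  · have h0 : of e ∈ Mg y := Subgroup.subset_closure ⟨e, hy.symm, rfl⟩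
    have h1 : (of e ^ n h)⁻¹ ∈ Mg y := inv_mem (zpow_mem h0 _)
    rw [MulEquiv.trans_apply, MulAut.conj_apply, mul_mem_cancel_right (inv_mem h1), mul_mem_cancel_left h1]
    refine ⟨fun h2 => ?_, OMS1_th_mem _ _ _ hy⟩
    rw [← ψ.symm_apply_apply z]
    exact OMS1_th_mem _ _ _ hy h2

end Pool.Agent.Work.MP_9d1ffa_al
end

-- merged part: Pool.Agent.Work.MP_9d1ffa_al.OMS
section
/-! The rewriting of Magnus and Moldavanskii. -/

namespace Pool.Agent.Work.MP_9d1ffa_al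

set_option linter.unusedSectionVars false
set_option linter.unusedVariables false

open FreeGroup

variable {X : Type}

theorem ms {L : List (X × Bool)} (hL : IsCyclicallyReduced L) {a b : X} (hab : a ≠ b)
    (ha : ∃ s, (a, s) ∈ L) (hb : ∃ s, (b, s) ∈ L) (w : X → ℤ) (hw : w a ≠ 0)
    (h0 : wdeg w L = 0) :
    ∃ (M : ℕ) (h : ℤ) (l : FreeGroup (Xp b M)) (L' : List (Xp b M × Bool))
      (φ : FreeGroup (Xp b M) ≃* FreeGroup (Xp b M)), L'.length < L.length ∧ φ (mk L') = l ∧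
      (∀ z, φ z ∈ Mg (bot b M) ↔ z ∈ Mg (bot b M)) ∧
      (∀ z, φ z ∈ Mg (top b M) ↔ z ∈ Mg (top b M)) ∧ Ess l (bot b M) ∧ Ess l (top b M) ∧
      vF b M l = alpha w h (FreeGroup.map some (mk L)) ∧
      l ∈ Gn {p | ∃ s, (p.1.1, s) ∈ L} := by
  obtain ⟨M, h, L₁, rfl, p, h1, h2⟩ := lift_exists hb w h0
  obtain ⟨s, hs⟩ := ha
  obtain ⟨⟨e, s'⟩, he, e1⟩ := List.mem_map.1 hs
  have e2 : e.1.1 = a := congrArg Prod.fst e1
  obtain ⟨L', φ, k1, k2, k3⟩ := whitehead p (e := e) (by rw [e2]; omega) ⟨s', he⟩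
  have hc := cred_of_map (fun y : Xp b M => y.1.1) hL
  refine ⟨M, h, mk L₁, L', φ, by simpa using k1, k2, k3 _ ?_, k3 _ ?_, ess_of_cred hc h1,
    ess_of_cred hc h2, vF_path w p, mk_mem_closure fun q hq => ⟨q.2, List.mem_map.2 ⟨q, hq, rfl⟩⟩⟩
  · rintro rfl
    exact hab e2.symm
  · rintro rfl
    exact hab e2.symm

end Pool.Agent.Work.MP_9d1ffa_al
end

-- merged part: Pool.Agent.Work.MP_9d1ffa_al.OTh
section
/-! Free factors of one relator groups. -/

namespace Pool.Agent.Work.MP_9d1ffa_al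

set_option linter.unusedSectionVars false
set_option linter.unusedVariables false

open FreeGroup

variable {X : Type}

/-- the action of a group on the free group on copies of the generators -/
def OTh_act (G : Type) [Group G] (X : Type) : G →* MulAut (FreeGroup (G × X)) where
  toFun g := FreeGroup.freeGroupCongr (Equiv.prodCongr (Equiv.mulLeft g) (Equiv.refl X))
  map_one' := by
    apply MulEquiv.toMonoidHom_injective
    ext p
    simp
  map_mul' g h := by
    apply MulEquiv.toMonoidHom_injective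
    ext p
    simp [Prod.map, mul_assoc]

theorem OTh_act_apply {G : Type} [Group G] (g : G) (w : FreeGroup (G × X)) :
    OTh_act G X g w = FreeGroup.map (fun p => (g * p.1, p.2)) w := rfl

/-- the cocycle describing a free product with a free group -/
theorem exists_cocycle {G : Type} [Group G] (π : FreeGroup X →* G) (hπ : Function.Surjective π)
    (S : Set X)
    (hl : ∀ (H : Type) [Group H] (f : FreeGroup X →* H),
      (∀ z ∈ Gn S, π z = 1 → f z = 1) → ∃ f' : G →* H, ∀ z, f' (π z) = f z) :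
    ∃ (ρ : G →* G) (ω : G → FreeGroup (G × X)) (η : FreeGroup (G × X) →* G),
      (∀ g h, ω (g * h) = ω g * FreeGroup.map (fun p => (ρ g * p.1, p.2)) (ω h)) ∧
      (∀ g, g = η (ω g) * ρ g) ∧ (∀ g x, η (of (g, x)) = g * π (of x) * g⁻¹) ∧
      (∀ x ∈ S, ρ (π (of x)) = π (of x) ∧ ω (π (of x)) = 1) ∧
      ∀ x ∉ S, ρ (π (of x)) = 1 ∧ ω (π (of x)) = of (1, x) := by
  classical
  let f : FreeGroup X →* SemidirectProduct (FreeGroup (G × X)) G (OTh_act G X) :=
    FreeGroup.lift fun x => if x ∈ S then SemidirectProduct.inr (π (of x))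
      else SemidirectProduct.inl (of (1, x))
  have hf : ∀ z ∈ Gn S, f z = SemidirectProduct.inr (π z) := by
    intro z hz
    induction hz using Subgroup.closure_induction with
    | mem x hx =>
      obtain ⟨y, hy, rfl⟩ := hx
      simp [f, hy]
    | one => simp
    | mul x y _ _ hx hy => rw [_root_.map_mul, hx, hy, _root_.map_mul, _root_.map_mul]
    | inv x _ hx => rw [_root_.map_inv, hx, _root_.map_inv, _root_.map_inv]
  obtain ⟨θ, hθ⟩ := hl _ f (fun z hz h1 => by rw [hf z hz, h1, _root_.map_one])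
  let η : FreeGroup (G × X) →* G := FreeGroup.lift fun p => p.1 * π (of p.2) * p.1⁻¹
  have hη : ∀ g, η.comp (OTh_act G X g).toMonoidHom =
      (MulAut.conj ((MonoidHom.id G) g)).toMonoidHom.comp η := by
    intro g
    ext p
    simp [η, OTh_act_apply, mul_assoc]
  let Θ := SemidirectProduct.lift η (MonoidHom.id G) hη
  have hΘ : (Θ.comp θ).comp π = π := by
    ext x
    by_cases hx : x ∈ S <;> simp [Θ, hθ, f, hx, η]
  refine ⟨SemidirectProduct.rightHom.comp θ, fun g => (θ g).left, η, ?_, ?_, ?_, ?_, ?_⟩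
  · intro g h
    show (θ (g * h)).left = _
    rw [_root_.map_mul, SemidirectProduct.mul_left]
    rfl
  · intro g
    obtain ⟨z, rfl⟩ := hπ g
    exact (DFunLike.congr_fun hΘ z).symm
  · intro g x
    simp [η]
  · intro x hx
    simp [hθ, f, hx]
  · intro x hx
    simp [hθ, f, hx]

section OThAux

variable {G : Type} [Group G] {ρ : G →* G} {ω : G → FreeGroup (G × X)}

theorem OTh_map_one (w : FreeGroup (G × X)) :
    FreeGroup.map (fun p : G × X => ((1 : G) * p.1, p.2)) w = w := by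
  rw [← OTh_act_apply, _root_.map_one]
  rfl

theorem OTh_one
    (h : ∀ g h, ω (g * h) = ω g * FreeGroup.map (fun p => (ρ g * p.1, p.2)) (ω h)) :
    ω 1 = 1 := by
  have e := h 1 1
  rw [mul_one, _root_.map_one ρ, OTh_map_one] at e
  exact left_eq_mul.1 e

theorem OTh_inv
    (h : ∀ g h, ω (g * h) = ω g * FreeGroup.map (fun p => (ρ g * p.1, p.2)) (ω h)) (g : G) :
    ω g⁻¹ = (FreeGroup.map (fun p => (ρ g⁻¹ * p.1, p.2)) (ω g))⁻¹ := by
  have e := h g⁻¹ g
  rw [inv_mul_cancel, OTh_one h] at e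
  exact eq_inv_of_mul_eq_one_left e.symm

end OThAux

theorem OTh_fix {Y : Type} {f : Y → Y} (hf : Function.Injective f) {w : FreeGroup Y}
    (hw : w ≠ 1) (h : FreeGroup.map f w = w) : ∃ p, f p = p := by
  classical
  have h1 : IsReduced (w.toWord.map fun x => (f x.1, x.2)) :=
    List.isChain_map_of_isChain (R := fun a b : Y × Bool => a.1 = b.1 → a.2 = b.2)
      (S := fun a b : Y × Bool => a.1 = b.1 → a.2 = b.2) (fun x => (f x.1, x.2))
      (fun a b hab e => hab (hf e)) (isReduced_toWord (x := w))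
  have h2 : (FreeGroup.map f w).toWord = w.toWord.map fun x => (f x.1, x.2) := by
    conv_lhs => rw [← mk_toWord (x := w), FreeGroup.map.mk, toWord_mk, h1.reduce_eq]
  rw [h] at h2
  have h3 : w.toWord ≠ [] := fun e => hw (toWord_eq_nil_iff.1 e)
  obtain ⟨p, L, e⟩ := List.exists_cons_of_ne_nil h3
  rw [e, List.map_cons] at h2
  exact ⟨p.1, (congrArg Prod.fst (List.cons.inj h2).1).symm⟩

/-- free factors of free groups are malnormal -/
theorem mal (S : Set X) {g n : FreeGroup X} (hg : g ∉ Gn S)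
    (hn : n ∈ Gn S) (h : g⁻¹ * n * g ∈ Gn S) :
    n = 1 := by
  obtain ⟨ρ, ω, η, h1, h2, h3, h4, h5⟩ := exists_cocycle (MonoidHom.id (FreeGroup X))
    Function.surjective_id S (fun H _ f _ => ⟨f, fun _ => rfl⟩)
  have hS : ∀ z ∈ Gn S, ρ z = z ∧ ω z = 1 := by
    intro z hz
    induction hz using Subgroup.closure_induction with
    | mem x hx =>
      obtain ⟨y, hy, rfl⟩ := hx
      exact h4 y hy
    | one => exact ⟨_root_.map_one ρ, OTh_one h1⟩
    | mul x y _ _ hx hy => exact ⟨by rw [_root_.map_mul, hx.1, hy.1], by rw [h1, hx.2, hy.2]; simp⟩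
    | inv x _ hx => exact ⟨by rw [_root_.map_inv, hx.1], by rw [OTh_inv h1, hx.2]; simp⟩
  have hρ : ∀ z, ρ z ∈ Gn S := by
    intro z
    induction z using FreeGroup.induction_on with
    | C1 => rw [_root_.map_one]; exact one_mem _
    | of x =>
      by_cases hx : x ∈ S
      · have e : ρ (of x) = of x := (h4 x hx).1
        rw [e]
        exact Subgroup.subset_closure ⟨x, hx, rfl⟩
      · have e : ρ (of x) = 1 := (h5 x hx).1
        rw [e]
        exact one_mem _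
    | inv_of x hx => rw [_root_.map_inv]; exact inv_mem hx
    | mul x y hx hy => rw [_root_.map_mul]; exact mul_mem hx hy
  have e : n * g = g * (g⁻¹ * n * g) := by group
  have e1 := congrArg ω e
  rw [h1, h1 g, (hS n hn).1, (hS n hn).2, (hS _ h).2, _root_.map_one, one_mul, mul_one] at e1
  have hω : ω g ≠ 1 := by
    intro e0
    apply hg
    rw [h2 g, e0, _root_.map_one, one_mul]
    exact hρ g
  obtain ⟨p, hp⟩ := OTh_fix (f := fun p : FreeGroup X × X => (n * p.1, p.2))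
    (fun p q e => Prod.ext (mul_left_cancel (Prod.ext_iff.1 e).1) (Prod.ext_iff.1 e).2) hω e1
  exact mul_eq_right.1 (congrArg Prod.fst hp)

theorem tf_option {r : FreeGroup X} (h : TF (OR r)) : TF (OR (FreeGroup.map some r)) := by
  have hr : ∀ z : FreeGroup X, FreeGroup.map some z ∈ Gn (Set.range (some : X → Option X)) := by
    intro z
    induction z using FreeGroup.induction_on with
    | C1 => rw [_root_.map_one]; exact one_mem _
    | of x => exact Subgroup.subset_closure ⟨some x, ⟨x, rfl⟩, rfl⟩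
    | inv_of x hx => rw [_root_.map_inv]; exact inv_mem hx
    | mul x y hx hy => rw [_root_.map_mul]; exact mul_mem hx hy
  obtain ⟨ρ, ω, η, h1, h2, h3, h4, h5⟩ := exists_cocycle (pr (FreeGroup.map some r))
    (PresentedGroup.mk_surjective _) (Set.range some)
    (fun H _ f hf => exists_lift f (hf _ (hr r) (pr_self _)))
  let k : FreeGroup (Option X) →* OR r := FreeGroup.lift fun o => o.elim 1 fun x => pr r (of x)
  have hk : k.comp (FreeGroup.map some) = pr r := by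
    ext x
    simp [k]
  obtain ⟨κ, hκ⟩ := exists_lift (r := FreeGroup.map some r) k
    ((DFunLike.congr_fun hk r).trans (pr_self r))
  obtain ⟨ι, hι⟩ := exists_lift (r := r) ((pr (FreeGroup.map some r)).comp (FreeGroup.map some))
    (pr_self _)
  have hρ : ρ.comp (pr _) = (ι.comp κ).comp (pr _) := by
    refine FreeGroup.ext_hom _ _ ?_
    rintro (_ | x)
    · rw [MonoidHom.comp_apply, (h5 none (by simp)).1, MonoidHom.comp_apply,
        MonoidHom.comp_apply, hκ]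
      simp [k]
    · rw [MonoidHom.comp_apply, (h4 (some x) ⟨x, rfl⟩).1, MonoidHom.comp_apply,
        MonoidHom.comp_apply, hκ]
      have e : k (of (some x)) = pr r (of x) := by simp [k]
      rw [e, hι]
      rfl
  intro x hx
  have hρx : ρ x = 1 := by
    obtain ⟨z, rfl⟩ := PresentedGroup.mk_surjective _ x
    have e : ρ (pr _ z) = ι (κ (pr _ z)) := DFunLike.congr_fun hρ z
    rw [e, h _ (κ.isOfFinOrder hx), _root_.map_one]
  have hpow : ∀ m : ℕ, ω (x ^ m) = ω x ^ m := by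
    intro m
    induction m with
    | zero => rw [pow_zero, pow_zero, OTh_one h1]
    | succ m ih => rw [pow_succ', h1, hρx, OTh_map_one, ih, pow_succ']
  obtain ⟨m, hm, e⟩ := isOfFinOrder_iff_pow_eq_one.1 hx
  have hω : ω x = 1 := tf_free _ (isOfFinOrder_iff_pow_eq_one.2
    ⟨m, hm, by rw [← hpow, e, OTh_one h1]⟩)
  rw [h2 x, hω, hρx, _root_.map_one, one_mul]

theorem cm_special {r : FreeGroup X} {a b : X} (hab : a ≠ b)
    (hr : r ∈ Gn {x | x = a ∨ x = b}) : BgAt r b := by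
  classical
  obtain ⟨ρ, ω, η, h1, h2, h3, h4, h5⟩ := exists_cocycle (pr r)
    (PresentedGroup.mk_surjective _) {x | x = a ∨ x = b}
    (fun H _ f hf => exists_lift f (hf _ hr (pr_self _)))
  let Z : Subgroup (OR r) := Subgroup.zpowers (pr r (of a))
  let N : Subgroup (FreeGroup (OR r × X)) := Gn {p | p.1 ∈ Z ∧ p.2 ≠ b}
  have hZM : Z ≤ (Mg b).map (pr r) :=
    Subgroup.zpowers_le.2 ⟨of a, Subgroup.subset_closure ⟨a, hab, rfl⟩, rfl⟩
  have c1 : ∀ z ∈ Z, ∀ w ∈ N, FreeGroup.map (fun p => (z * p.1, p.2)) w ∈ N := by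
    intro z hz w hw
    induction hw using Subgroup.closure_induction with
    | mem x hx =>
      obtain ⟨y, hy, rfl⟩ := hx
      exact Subgroup.subset_closure ⟨(z * y.1, y.2), ⟨mul_mem hz hy.1, hy.2⟩, rfl⟩
    | one => rw [_root_.map_one]; exact one_mem _
    | mul x y _ _ hx hy => rw [_root_.map_mul]; exact mul_mem hx hy
    | inv x _ hx => rw [_root_.map_inv]; exact inv_mem hx
  have c2 : ∀ d ∈ (Mg b).map (pr r), ρ d ∈ Z ∧ ω d ∈ N := by
    rintro _ ⟨z, hz, rfl⟩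
    induction hz using Subgroup.closure_induction with
    | mem x hx =>
      obtain ⟨y, hy, rfl⟩ := hx
      by_cases hya : y = a
      · subst hya
        obtain ⟨e1, e2⟩ := h4 y (Or.inl rfl)
        rw [e1, e2]
        exact ⟨Subgroup.mem_zpowers _, one_mem _⟩
      · obtain ⟨e1, e2⟩ := h5 y (fun h => h.elim hya hy)
        rw [e1, e2]
        exact ⟨one_mem _, Subgroup.subset_closure ⟨(1, y), ⟨one_mem _, hy⟩, rfl⟩⟩
    | one =>
      rw [_root_.map_one, _root_.map_one, OTh_one h1]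
      exact ⟨one_mem _, one_mem _⟩
    | mul x y _ _ hx hy =>
      rw [_root_.map_mul, _root_.map_mul, h1]
      exact ⟨mul_mem hx.1 hy.1, mul_mem hx.2 (c1 _ hx.1 _ hy.2)⟩
    | inv x _ hx =>
      rw [_root_.map_inv, OTh_inv h1, _root_.map_inv ρ]
      exact ⟨inv_mem hx.1, inv_mem (c1 _ (inv_mem hx.1) _ hx.2)⟩
  have c3 : ∀ w ∈ N, η w ∈ (Mg b).map (pr r) := by
    intro w hw
    induction hw using Subgroup.closure_induction with
    | mem x hx =>
      obtain ⟨y, hy, rfl⟩ := hx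
      rw [show y = (y.1, y.2) from rfl, h3]
      exact mul_mem (mul_mem (hZM hy.1) ⟨of y.2, Subgroup.subset_closure ⟨y.2, hy.2, rfl⟩, rfl⟩)
        (inv_mem (hZM hy.1))
    | one => rw [_root_.map_one]; exact one_mem _
    | mul x y _ _ hx hy => rw [_root_.map_mul]; exact mul_mem hx hy
    | inv x _ hx => rw [_root_.map_inv]; exact inv_mem hx
  intro g hg d hd d' hd' hm hm'
  have hd0 : d * d' * d⁻¹ * d'⁻¹ ∈ (Mg b).map (pr r) :=
    mul_mem (mul_mem (mul_mem hd hd') (inv_mem hd)) (inv_mem hd')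
  have hm0 : g⁻¹ * (d * d' * d⁻¹ * d'⁻¹) * g ∈ (Mg b).map (pr r) := by
    have e : g⁻¹ * (d * d' * d⁻¹ * d'⁻¹) * g =
        (g⁻¹ * d * g) * (g⁻¹ * d' * g) * (g⁻¹ * d * g)⁻¹ * (g⁻¹ * d' * g)⁻¹ := by group
    rw [e]
    exact mul_mem (mul_mem (mul_mem hm hm') (inv_mem hm)) (inv_mem hm')
  have hρ0 : ρ (d * d' * d⁻¹ * d'⁻¹) = 1 := by
    obtain ⟨i, hi⟩ := Subgroup.mem_zpowers_iff.1 (c2 d hd).1
    obtain ⟨j, hj⟩ := Subgroup.mem_zpowers_iff.1 (c2 d' hd').1
    rw [_root_.map_mul, _root_.map_mul, _root_.map_mul, _root_.map_inv, _root_.map_inv, ← hi, ← hj]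
    group
  generalize hd₀ : d * d' * d⁻¹ * d'⁻¹ = d₀ at hd0 hm0 hρ0
  have e : d₀ * g = g * (g⁻¹ * d₀ * g) := by group
  have e1 := congrArg ω e
  rw [h1, h1 g, hρ0, OTh_map_one] at e1
  have e2 : (ω g)⁻¹ * ω d₀ * ω g =
      FreeGroup.map (fun p => (ρ g * p.1, p.2)) (ω (g⁻¹ * d₀ * g)) := by
    rw [mul_assoc, e1, inv_mul_cancel_left]
  have hω : ω d₀ = 1 := by
    by_cases hp : ρ g ∈ Z
    · refine mal _ (g := ω g) ?_ (c2 _ hd0).2 ?_
      · intro hγ
        apply hg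
        rw [h2 g]
        exact mul_mem (c3 _ hγ) (hZM hp)
      · rw [e2]
        exact c1 _ hp _ (c2 _ hm0).2
    · let R : FreeGroup (OR r × X) →* FreeGroup (OR r × X) :=
        FreeGroup.lift fun q => if q.1 ∈ Z then of q else 1
      have r1 : ∀ w ∈ N, R w = w ∧ R (FreeGroup.map (fun p => (ρ g * p.1, p.2)) w) = 1 := by
        intro w hw
        induction hw using Subgroup.closure_induction with
        | mem x hx =>
          obtain ⟨y, hy, rfl⟩ := hx
          have hy' : ρ g * y.1 ∉ Z := fun h => hp ((mul_mem_cancel_right hy.1).1 h)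
          constructor
          · simp only [R, FreeGroup.lift_apply_of, if_pos hy.1]
          · simp only [R, FreeGroup.map.of, FreeGroup.lift_apply_of, if_neg hy']
        | one => simp
        | mul x y _ _ hx hy =>
          exact ⟨by rw [_root_.map_mul, hx.1, hy.1], by rw [_root_.map_mul, _root_.map_mul, hx.2, hy.2, mul_one]⟩
        | inv x _ hx => exact ⟨by rw [_root_.map_inv, hx.1], by rw [_root_.map_inv, _root_.map_inv, hx.2, inv_one]⟩
      have e3 := congrArg R e2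
      rw [(r1 _ (c2 _ hm0).2).2, _root_.map_mul, _root_.map_mul, _root_.map_inv, (r1 _ (c2 _ hd0).2).1] at e3
      calc ω d₀ = R (ω g) * ((R (ω g))⁻¹ * ω d₀ * R (ω g)) * (R (ω g))⁻¹ := by group
        _ = 1 := by rw [e3]; group
  have e4 : d₀ = 1 := by rw [h2 d₀, hω, hρ0, _root_.map_one, one_mul]
  calc d * d' = (d * d' * d⁻¹ * d'⁻¹) * (d' * d) := by group
    _ = d' * d := by rw [hd₀, e4, one_mul]

end Pool.Agent.Work.MP_9d1ffa_al
end

-- merged part: Pool.Agent.Work.MP_9d1ffa_al.ORet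
section
/-! Retractions of one relator presentations. -/

namespace Pool.Agent.Work.MP_9d1ffa_al

set_option linter.unusedSectionVars false
set_option linter.unusedVariables false

open FreeGroup hiding map_one map_mul map_inv

variable {X Y : Type} {r : FreeGroup X} {r' : FreeGroup Y}

/-- the presentation with relator `r` is a retract of the presentation with relator `r'` -/
structure Ret (r : FreeGroup X) (r' : FreeGroup Y) where
  φ : FreeGroup X →* FreeGroup Y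
  ρ : FreeGroup Y →* FreeGroup X
  inv : ∀ z, ρ (φ z) = z
  hφ : pr r' (φ r) = 1
  hρ : pr r (ρ r') = 1

theorem pr_surj (r : FreeGroup X) : Function.Surjective (pr r) := QuotientGroup.mk_surjective

theorem Ret.exists_maps (R : Ret r r') : ∃ (f : OR r →* OR r') (g : OR r' →* OR r),
    (∀ z, f (pr r z) = pr r' (R.φ z)) ∧ (∀ z, g (pr r' z) = pr r (R.ρ z)) ∧ ∀ x, g (f x) = x := by
  obtain ⟨f, hf⟩ := exists_lift ((pr r').comp R.φ) R.hφ
  obtain ⟨g, hg⟩ := exists_lift ((pr r).comp R.ρ) R.hρ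
  refine ⟨f, g, hf, hg, fun x => ?_⟩
  obtain ⟨z, rfl⟩ := pr_surj r x
  rw [hf, MonoidHom.comp_apply, hg, MonoidHom.comp_apply, R.inv]

theorem TF.of_inj {G H : Type} [Group G] [Group H] (f : G →* H) (hf : Function.Injective f)
    (h : TF H) : TF G := fun g hg => hf ((h _ (f.isOfFinOrder hg)).trans (map_one f).symm)

theorem Ret.tf (R : Ret r r') (h : TF (OR r')) : TF (OR r) := by
  obtain ⟨f, g, -, -, e⟩ := R.exists_maps
  exact h.of_inj f (Function.LeftInverse.injective e)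

theorem Ret.fr (R : Ret r r') {y : X} {y' : Y} (h1 : ∀ z ∈ Mg y, R.φ z ∈ Mg y')
    (h : FrAt r' y') : FrAt r y := fun z hz e => by
  obtain ⟨f, g, hf, -, -⟩ := R.exists_maps
  rw [← R.inv z, h _ (h1 z hz) (by rw [← hf, e, map_one]), map_one]

theorem Ret.bg (R : Ret r r') {y : X} {y' : Y} (h1 : ∀ z ∈ Mg y, R.φ z ∈ Mg y')
    (h2 : ∀ z ∈ Mg y', R.ρ z ∈ Mg y) (h : BgAt r' y') : BgAt r y := by
  obtain ⟨f, g, hf, hg, e⟩ := R.exists_maps
  have k1 : ∀ x ∈ (Mg y).map (pr r), f x ∈ (Mg y').map (pr r') := by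
    rintro _ ⟨z, hz, rfl⟩
    exact ⟨_, h1 z hz, (hf z).symm⟩
  have k2 : ∀ x ∈ (Mg y').map (pr r'), g x ∈ (Mg y).map (pr r) := by
    rintro _ ⟨z, hz, rfl⟩
    exact ⟨_, h2 z hz, (hg z).symm⟩
  intro x hx d hd d' hd' a a'
  have := h (f x) (fun k => hx (e x ▸ k2 _ k)) (f d) (k1 d hd) (f d') (k1 d' hd')
    (by simpa using k1 _ a) (by simpa using k1 _ a')
  rw [← e (d * d'), ← e (d' * d), map_mul f, map_mul f, this]

theorem Ess.of_map (φ : FreeGroup X →* FreeGroup Y) (hφ : φ r = r') {y : X} {y' : Y}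
    (h1 : ∀ z ∈ Mg y, φ z ∈ Mg y') (h : Ess r' y') : Ess r y := fun g hg =>
  h (φ g) (by simpa [hφ] using h1 _ hg)

theorem Ess.conj {r₀ g : FreeGroup X} {y : X} (h : Ess (g * r₀ * g⁻¹) y) : Ess r₀ y := fun k hk =>
  h (k * g⁻¹) (by simpa [mul_assoc] using hk)

/-- exact retractions -/
def Ret.mk' (φ : FreeGroup X →* FreeGroup Y) (ρ : FreeGroup Y →* FreeGroup X)
    (inv : ∀ z, ρ (φ z) = z) (h : φ r = r') : Ret r r' where
  φ := φ
  ρ := ρ
  inv := inv
  hφ := by rw [h, pr_self]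
  hρ := by rw [← h, inv, pr_self]

/-- conjugate relators -/
def Ret.conj (r g : FreeGroup X) : Ret (g * r * g⁻¹) r where
  φ := MonoidHom.id _
  ρ := MonoidHom.id _
  inv z := rfl
  hφ := by simp [pr_self]
  hρ := by
    have := pr_self (g * r * g⁻¹)
    rw [map_mul, map_mul, map_inv, mul_inv_eq_one, mul_eq_left] at this
    exact this

/-- conjugate relators -/
def Ret.conj' (r g : FreeGroup X) : Ret r (g * r * g⁻¹) where
  φ := MonoidHom.id _
  ρ := MonoidHom.id _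
  inv z := rfl
  hφ := (Ret.conj r g).hρ
  hρ := (Ret.conj r g).hφ

/-- the retraction killing the new generator -/
def killT (X : Type) : FreeGroup (Option X) →* FreeGroup X := lift fun o => o.elim 1 of

theorem killT_map (z : FreeGroup X) : killT X (FreeGroup.map some z) = z :=
  DFunLike.congr_fun (show (killT X).comp (FreeGroup.map some) = MonoidHom.id _ by
    ext x; simp [killT]) z

/-- adding a generator and changing the basis -/
def Ret.alpha (r : FreeGroup X) (w : X → ℤ) (h : ℤ) : Ret r (alpha w h (FreeGroup.map some r)) :=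
  Ret.mk' ((MP_9d1ffa_al.alpha w h).toMonoidHom.comp (FreeGroup.map some))
    ((killT X).comp (MP_9d1ffa_al.alpha w h).symm.toMonoidHom)
    (fun z => by simp [killT_map]) rfl

theorem gn_map {S : Set X} {H : Type} [Group H] {N : Subgroup H} (f : FreeGroup X →* H)
    (h : ∀ x ∈ S, f (of x) ∈ N) : ∀ z ∈ Gn S, f z ∈ N := fun z hz =>
  (Subgroup.closure_le (N.comap f)).2 (by rintro _ ⟨x, hx, rfl⟩; exact h x hx) hz

theorem of_mem_gn {S : Set X} {x : X} (h : x ∈ S) : of x ∈ Gn S :=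
  Subgroup.subset_closure ⟨x, h, rfl⟩

theorem tt_mem (b : X) : tt X ∈ Mg (some b) := of_mem_gn (by simp)

theorem Ret.alpha_φ (r : FreeGroup X) (w : X → ℤ) (h : ℤ) (b : X) :
    ∀ z ∈ Mg b, (Ret.alpha r w h).φ z ∈ Mg (some b) := by
  refine gn_map _ fun x hx => ?_
  have : (Ret.alpha r w h).φ (of x) = _ := alpha_some w h x
  rw [this]
  have h1 := tt_mem b
  have h2 : of (some x) ∈ Mg (some b) := of_mem_gn (by simpa using hx)
  exact mul_mem (mul_mem (zpow_mem h1 _) (mul_mem h2 (zpow_mem h1 _))) (inv_mem (zpow_mem h1 _))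

theorem Ret.alpha_ρ (r : FreeGroup X) (w : X → ℤ) (h : ℤ) (b : X) :
    ∀ z ∈ Mg (some b), (Ret.alpha r w h).ρ z ∈ Mg b := by
  refine gn_map _ ?_
  rintro (_ | x) hx
  · simp [Ret.alpha, Ret.mk', MP_9d1ffa_al.alpha, killT]
  · simpa [Ret.alpha, Ret.mk', MP_9d1ffa_al.alpha, killT] using
      of_mem_gn (S := {x | x ≠ b}) (by simpa using hx)

theorem tf_alpha (h : TF (OR r)) (w : X → ℤ) (k : ℤ) :
    TF (OR (alpha w k (FreeGroup.map some r))) :=
  (Ret.mk' (alpha w k).symm.toMonoidHom (alpha w k).toMonoidHom (fun z => by simp)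
    (by simp)).tf (tf_option h)

end Pool.Agent.Work.MP_9d1ffa_al
end

-- merged part: Pool.Agent.Work.MP_9d1ffa_al.OFr0
section
/-! The Freiheitssatz for an HNN extension from the Freiheitssatz for the vertex group. -/

namespace Pool.Agent.Work.MP_9d1ffa_al

set_option linter.unusedSectionVars false
set_option linter.unusedVariables false

open FreeGroup hiding map_one map_mul map_inv

variable {X : Type}

/-- the exponent sum of the stable letter -/
def degT (X : Type) : FreeGroup (Option X) →* Multiplicative ℤ :=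
  lift fun o => o.elim (Multiplicative.ofAdd 1) fun _ => 1

theorem degT_vF {b : X} {M : ℕ} (z : FreeGroup (Xp b M)) : degT X (vF b M z) = 1 := by
  refine DFunLike.congr_fun (show (degT X).comp (vF b M) = 1 from ?_) z
  ext p
  simp [degT, vF]

theorem degT_tt : degT X (tt X) = Multiplicative.ofAdd 1 := by
  simp [degT]

/-- the subgroup of the edge group generated by the letters other than `b` -/
abbrev Nb (b : X) (M : ℕ) : Subgroup (FreeGroup (XE b M)) := Gn {y | y.1.1.1 ≠ b}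

/-- a generator of the edge group -/
def OFr0_gen {b x : X} (M : ℕ) (hx : x ≠ b) (k : ℤ) : XE b M :=
  ⟨⟨(x, k), fun e => absurd e hx⟩, fun e => hx (congrArg (fun p : Xp b M => p.1.1) e)⟩

theorem OFr0_va' {b : X} {M : ℕ} (y : XE b M) : (phF b M).va (of y) =
    tt X ^ (y.1.1.2 + 1) * of (some y.1.1.1) * (tt X ^ (y.1.1.2 + 1))⁻¹ := by
  simp [PH.va, phF, vF, shf]

theorem OFr0_va {b x : X} {M : ℕ} (hx : x ≠ b) (k : ℤ) :
    (phF b M).va (of (OFr0_gen M hx (k - 1))) = tt X ^ k * of (some x) * (tt X ^ k)⁻¹ := by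
  rw [OFr0_va']
  simp [OFr0_gen]

/-- conjugation -/
def OFr0_cj {H : Type} [Group H] (g : H) : H →* H :=
  MonoidHom.mk' (fun x => g * x * g⁻¹) fun x y => by group

theorem OFr0_eq {S : Set X} {H : Type} [Group H] (f g : FreeGroup X →* H)
    (h : ∀ x ∈ S, f (of x) = g (of x)) : ∀ z ∈ Gn S, f z = g z :=
  gn_map (MonoidHom.id _) (N := f.eqLocus g) h

theorem nb_map (b : X) (M : ℕ) : (Nb b M).map (phF b M).i = (Nb b M).map (phF b M).j := by
  refine le_antisymm ?_ ?_ <;> rintro _ ⟨z, hz, rfl⟩ <;> refine gn_map _ (fun y hy => ?_) z hz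
  · exact ⟨of (OFr0_gen M hy (y.1.1.2 + 1)), of_mem_gn hy, rfl⟩
  · refine ⟨of (OFr0_gen M hy (y.1.1.2 - 1)), of_mem_gn hy, ?_⟩
    exact congrArg of (Subtype.ext (Prod.ext rfl (sub_add_cancel _ _)))

theorem mem_mg_some {b : X} (M : ℕ) (z : FreeGroup (Option X)) :
    z ∈ Mg (some b) ↔ ∃ n ∈ Nb b M, ∃ k : ℤ, z = (phF b M).va n * tt X ^ k := by
  constructor
  · intro hz
    induction hz using Subgroup.closure_induction_right with
    | one => exact ⟨1, one_mem _, 0, by simp⟩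
    | mul_right z _ y hy ih =>
      obtain ⟨n, hn, k, rfl⟩ := ih
      obtain ⟨_ | x, hx, rfl⟩ := hy
      · exact ⟨n, hn, k + 1, by rw [zpow_add_one, mul_assoc]⟩
      · have hx' : x ≠ b := fun e => hx (congrArg some e)
        refine ⟨n * of (OFr0_gen M hx' (k - 1)), mul_mem hn (of_mem_gn hx'), k, ?_⟩
        rw [map_mul, OFr0_va]
        group
    | mul_inv_cancel z _ y hy ih =>
      obtain ⟨n, hn, k, rfl⟩ := ih
      obtain ⟨_ | x, hx, rfl⟩ := hy
      · exact ⟨n, hn, k - 1, by rw [zpow_sub_one, mul_assoc]⟩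
      · have hx' : x ≠ b := fun e => hx (congrArg some e)
        refine ⟨n * (of (OFr0_gen M hx' (k - 1)))⁻¹, mul_mem hn (inv_mem (of_mem_gn hx')), k, ?_⟩
        rw [map_mul, map_inv, OFr0_va]
        group
  · rintro ⟨n, hn, k, rfl⟩
    have h1 := tt_mem b
    refine mul_mem (gn_map _ (fun y hy => ?_) n hn) (zpow_mem h1 _)
    have h2 : of (some y.1.1.1) ∈ Mg (some b) := of_mem_gn fun e => hy (Option.some.inj e)
    rw [OFr0_va']
    exact mul_mem (mul_mem (zpow_mem h1 _) h2) (inv_mem (zpow_mem h1 _))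

theorem frAt_std {b : X} {M : ℕ} {l : FreeGroup (Xp b M)} (h1 : FrAt l (bot b M))
    (h2 : FrAt l (top b M)) : FrAt (vF b M l) (some b) := by
  obtain ⟨C, hC⟩ := cut_std h1 h2
  have hv : Function.Injective (phG l).v := hC ▸ C.vinj
  have hi : Function.Injective (phG l).i := hC ▸ C.iinj
  intro z hz e
  obtain ⟨n, -, k, rfl⟩ := (mem_mg_some M z).1 hz
  obtain ⟨f, hf⟩ := exists_lift (degT X) (degT_vF l)
  have e1 := hf ((phF b M).va n * tt X ^ k)
  have e2 : degT X ((phF b M).va n) = 1 := degT_vF _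
  rw [e, map_one, map_mul, e2, one_mul, map_zpow, degT_tt] at e1
  have e3 : k = 0 := by simpa using (congrArg Multiplicative.toAdd e1).symm
  rw [e3, zpow_zero, mul_one] at e ⊢
  have e4 : (phG l).v ((phG l).i n) = 1 := e
  rw [(map_eq_one_iff _ hi).1 ((map_eq_one_iff _ hv).1 e4), map_one]

theorem frAt_special {a b : X} (hab : a ≠ b) {M : ℕ} {l : FreeGroup (Xp a M)}
    (h1 : FrAt l (bot a M)) (h2 : FrAt l (top a M)) {r : FreeGroup X} {w : X → ℤ} {h : ℤ}
    (e : vF a M l = alpha w h (FreeGroup.map some r)) (w1 : w b = 1) (w0 : ∀ x, x ≠ b → w x = 0)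
    (hl : l ∈ Gn {p | p.1.1 = a ∨ p.1.1 = b}) (hr : Ess r b) : FrAt r b := by
  classical
  obtain ⟨C, hC⟩ := cut_std h1 h2
  have hv : Function.Injective (phG l).v := hC ▸ C.vinj
  rcases Nat.eq_zero_or_pos M with rfl | hM
  · exfalso
    let ρ : FreeGroup (Option X) →* FreeGroup X :=
      lift fun o => o.elim (of b) fun x => if x = b then 1 else of x
    have e1 : ρ.comp ((alpha w h).toMonoidHom.comp (FreeGroup.map some)) =
        OFr0_cj (of b ^ h) := by
      ext x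
      by_cases hx : x = b
      · simp [alpha_some, ρ, hx, w1, OFr0_cj]
      · simp [alpha_some, ρ, hx, w0 x hx, OFr0_cj]
    have e2 : ρ (vF a 0 l) = of b ^ h * r * (of b ^ h)⁻¹ := by
      rw [e]
      exact DFunLike.congr_fun e1 r
    apply hr (of b ^ h)
    rw [← e2]
    refine gn_map (ρ.comp (vF a 0)) (fun p hp => ?_) l hl
    rcases hp with hp | hp
    · have h3 := p.2 hp
      have h4 : p.1.2 = 0 := by omega
      simpa [ρ, vF, hp, h4, hab] using of_mem_gn (S := {x | x ≠ b}) hab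
    · simp [ρ, vF, hp]
  · intro z hz ez
    let lev : X → Xp a M := fun x => ⟨(x, 0), fun _ => ⟨le_rfl, Int.natCast_nonneg M⟩⟩
    have e1 := OFr0_eq ((alpha w h).toMonoidHom.comp (FreeGroup.map some))
      ((OFr0_cj (tt X ^ h)).comp ((vF a M).comp (FreeGroup.map lev)))
      (fun x hx => by simp [alpha_some, vF, lev, w0 x hx, OFr0_cj]) z hz
    obtain ⟨f, hf⟩ := exists_lift
      ((pr (vF a M l)).comp ((alpha w h).toMonoidHom.comp (FreeGroup.map some))) (r := r) (by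
        change pr _ (alpha w h (FreeGroup.map some r)) = 1
        rw [← e, pr_self])
    have e2 := hf z
    rw [ez, map_one, MonoidHom.comp_apply, e1] at e2
    have e3 : (phG l).v (pr l (FreeGroup.map lev z)) = 1 := by
      change pr _ (vF a M (FreeGroup.map lev z)) = 1
      simpa [OFr0_cj] using e2.symm
    have e4 := h2 _ (gn_map (FreeGroup.map lev) (fun x _ => of_mem_gn fun e' => by
      have : (0 : ℤ) = M := congrArg (fun p : Xp a M => p.1.2) e'
      omega) z hz) ((map_eq_one_iff _ hv).1 e3)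
    have e5 : (FreeGroup.map fun p : Xp a M => p.1.1).comp (FreeGroup.map lev) =
        MonoidHom.id _ := by
      ext x
      simp [lev]
    have e6 := DFunLike.congr_fun e5 z
    rw [MonoidHom.comp_apply, e4, map_one] at e6
    exact e6.symm

theorem frAt_pow {r : FreeGroup X} {b : X} {k : ℤ} (h : r = of b ^ k) : FrAt r b := by
  classical
  obtain ⟨f, hf⟩ := exists_lift (lift fun x => if x = b then 1 else of x) (r := r) (by simp [h])
  intro z hz e
  have e1 := OFr0_eq (lift fun x => if x = b then 1 else of x) (MonoidHom.id _)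
    (fun x hx => by simp [show x ≠ b from hx]) z hz
  rw [← hf, e, map_one] at e1
  exact e1.symm

theorem bgAt_pow {r : FreeGroup X} {b : X} {k : ℤ} (h : r = of b ^ k) (hr : Ess r b)
    (ht : TF (OR r)) : BgAt r b := by
  have hk : k ≠ 0 := fun e => hr 1 (by simp [h, e])
  have h1 : pr r (of b) = 1 :=
    ht _ (isOfFinOrder_iff_zpow_eq_one.2 ⟨k, hk, by rw [← map_zpow, ← h, pr_self]⟩)
  intro g hg
  exfalso
  obtain ⟨z, rfl⟩ := pr_surj r g
  apply hg
  clear hg
  have h2 : ∀ x, pr r (of x) ∈ (Mg b).map (pr r) := fun x => by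
    by_cases hx : x = b
    · rw [hx, h1]
      exact one_mem _
    · exact ⟨_, of_mem_gn hx, rfl⟩
  induction z using FreeGroup.induction_on with
  | C1 => exact one_mem _
  | of x => exact h2 x
  | inv_of x _ => exact inv_mem (h2 x)
  | mul x y hx hy => exact mul_mem hx hy

end Pool.Agent.Work.MP_9d1ffa_al
end

-- merged part: Pool.Agent.Work.MP_9d1ffa_al.OBg0
section
/-! Intersections of a line stabiliser with its conjugates. -/

namespace Pool.Agent.Work.MP_9d1ffa_al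

set_option linter.unusedSectionVars false
set_option linter.unusedVariables false

open FreeGroup hiding map_one map_mul map_inv
open MulAction Pool.Agent.Work.MP_904812_al

theorem Cut.cm_line {Γ V A : Type} [Group Γ] [Group V] [Group A] (C : Cut Γ V A)
    (N : Subgroup A) (hN : N.map C.i = N.map C.j)
    (mal : ∀ g, g ∉ N → ∀ n ∈ N, g⁻¹ * n * g ∈ N → n = 1)
    (hi : CM C.i.range) (hj : CM C.j.range) (deg : Γ →* Multiplicative ℤ)
    (hv : ∀ h, deg (C.v h) = 1) (ht : deg C.t = Multiplicative.ofAdd 1) (M : Subgroup Γ)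
    (hM : ∀ g, g ∈ M ↔ ∃ n ∈ N, ∃ k : ℤ, g = C.va n * C.t ^ k) [IsFreeGroup M] : CM M := by
  have hT := tr_of_isTree C.isTree
  have iso : ∀ (g : Γ) (x y : Γ ⧸ C.v.range),
      (C.T.dist (g • x) (g • y) : ℤ) = C.T.dist x y := fun g x y => by
    rw [dist_smul C.isTree C.act]
  have hva : ∀ n, C.va n = C.v (C.i n) := fun _ => rfl
  have hker : ∀ d ∈ M, deg d = 1 → ∃ n ∈ N, d = C.va n := by
    intro d hd h1
    obtain ⟨n, hn, k, rfl⟩ := (hM d).1 hd
    rw [map_mul, hva, hv, one_mul, map_zpow, ht, ← ofAdd_zsmul, smul_eq_mul, mul_one,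
      ofAdd_eq_one] at h1
    exact ⟨n, hn, by rw [h1, zpow_zero, mul_one]⟩
  have htM : C.t ∈ M := (hM _).2 ⟨1, N.one_mem, 1, by simp⟩
  have hconj : ∀ g d : Γ, deg d = 1 → deg (g⁻¹ * d * g) = 1 := fun g d h => by
    rw [map_mul, map_mul, h, mul_one, ← map_mul, inv_mul_cancel, map_one]
  obtain ⟨P, hP⟩ : ∃ P : Γ → Prop, ∀ g, P g ↔ (g ∉ M → ∀ d ∈ M, ∀ d' ∈ M, deg d = 1 → deg d' = 1 →
      g⁻¹ * d * g ∈ M → g⁻¹ * d' * g ∈ M → d * d' = d' * d) := ⟨_, fun _ => Iff.rfl⟩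
  have move : ∀ m ∈ M, ∀ g, P (m⁻¹ * g) → P g := by
    intro m hm g h
    rw [hP] at h ⊢
    intro hg d hd d' hd' e e' k k'
    have a : ∀ c : Γ, (m⁻¹ * g)⁻¹ * (m⁻¹ * c * m) * (m⁻¹ * g) = g⁻¹ * c * g := fun c => by group
    have := h (fun l => hg (by simpa using M.mul_mem hm l)) (m⁻¹ * d * m)
      (M.mul_mem (M.mul_mem (M.inv_mem hm) hd) hm) (m⁻¹ * d' * m)
      (M.mul_mem (M.mul_mem (M.inv_mem hm) hd') hm) (hconj m d e) (hconj m d' e')
      (by rwa [a]) (by rwa [a])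
    calc d * d' = m * (m⁻¹ * d * m * (m⁻¹ * d' * m)) * m⁻¹ := by group
      _ = m * (m⁻¹ * d' * m * (m⁻¹ * d * m)) * m⁻¹ := by rw [this]
      _ = d' * d := by group
  have loc : ∀ (s : Γ) (h c : V), C.v c • (C.v h * s) • C.o = (C.v h * s) • C.o →
      (C.v (h⁻¹ * c * h) * s) • C.o = s • C.o := fun s h c e => by
    have : C.v (h⁻¹ * c * h) * s = (C.v h)⁻¹ * (C.v c * (C.v h * s)) := by
      simp only [map_mul, map_inv, mul_assoc]
    rw [this, mul_smul, mul_smul, e, ← mul_smul, inv_mul_cancel_left]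
  have key : ∀ k : ℕ, ∀ g : Γ, C.T.dist C.o (g • C.o) = k → P g := by
    intro k
    induction k using Nat.strong_induction_on with
    | _ k ih =>
      intro g hk
      by_cases e0 : g • C.o = C.o
      · rw [hP]
        intro hg d hd d' hd' e e' l l'
        obtain ⟨n, hn, rfl⟩ := hker d hd e
        obtain ⟨n', hn', rfl⟩ := hker d' hd' e'
        obtain ⟨n₁, hn₁, e₁⟩ := hker _ l (hconj g _ e)
        obtain ⟨n₂, hn₂, e₂⟩ := hker _ l' (hconj g _ e')
        obtain ⟨h, rfl⟩ := (C.stab_iff g).1 e0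
        by_cases hh : h ∈ C.i.range
        · obtain ⟨a, rfl⟩ := hh
          have ha : a ∉ N := fun ha => hg ((hM _).2 ⟨a, ha, 0, by rw [zpow_zero, mul_one, hva]⟩)
          rw [← hva, ← map_inv, ← map_mul, ← map_mul] at e₁
          rw [mal a ha n hn (C.vainj e₁ ▸ hn₁), map_one, one_mul, mul_one]
        · rw [hva, hva, ← map_inv, ← map_mul, ← map_mul] at e₁ e₂
          rw [hva, hva, ← map_mul C.v, ← map_mul C.v,
            hi h hh _ ⟨n, rfl⟩ _ ⟨n', rfl⟩ ⟨n₁, (C.vinj e₁).symm⟩ ⟨n₂, (C.vinj e₂).symm⟩]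
      have hpos := hT.pos (Ne.symm e0)
      obtain ⟨x, hx, hx1⟩ := hT.ex_bt C.o (g • C.o) (t := 1) zero_le_one hpos
      have hadj : C.T.Adj C.o x := SimpleGraph.dist_eq_one_iff_adj.1 (by exact_mod_cast hx1)
      have closer : ∀ m ∈ M, x = m • C.o → P g := fun m hm e => by
        refine move m hm g (ih _ ?_ _ rfl)
        have h1 := iso m C.o ((m⁻¹ * g) • C.o)
        rw [← mul_smul, mul_inv_cancel_left, ← e] at h1
        simp only [Bt] at hx
        omega
      have fix : ∀ d ∈ M, deg d = 1 → g⁻¹ * d * g ∈ M → ∃ n ∈ N, d = C.va n ∧ d • x = x := by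
        intro d hd e l
        obtain ⟨n, hn, rfl⟩ := hker d hd e
        obtain ⟨n₁, -, e₁⟩ := hker _ l (hconj g _ e)
        refine ⟨n, hn, rfl, geo_fix hT iso ((C.stab_iff _).2 ⟨_, rfl⟩) ?_ hx⟩
        have : C.va n * g = g * C.va n₁ := by rw [← e₁]; group
        rw [← mul_smul, this, mul_smul, (C.stab_iff (C.va n₁)).2 ⟨_, rfl⟩]
      obtain ⟨h, rfl | rfl⟩ := C.nbr hadj
      · by_cases hh : h ∈ C.i.range
        · exact closer _ htM ((C.edge_iff h).2 hh)
        rw [hP]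
        intro hg d hd d' hd' e e' l l'
        obtain ⟨n, hn, rfl, f⟩ := fix d hd e l
        obtain ⟨n', hn', rfl, f'⟩ := fix d' hd' e' l'
        rw [hva, hva, ← map_mul C.v, ← map_mul C.v, hi h hh _ ⟨n, rfl⟩ _ ⟨n', rfl⟩
          ((C.edge_iff _).1 (loc _ _ _ f)) ((C.edge_iff _).1 (loc _ _ _ f'))]
      · by_cases hh : h ∈ C.j.range
        · exact closer _ (M.inv_mem htM) ((C.edge_iff' h).2 hh)
        rw [hP]
        intro hg d hd d' hd' e e' l l'
        obtain ⟨n, hn, rfl, f⟩ := fix d hd e l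
        obtain ⟨n', hn', rfl, f'⟩ := fix d' hd' e' l'
        have hr : ∀ n ∈ N, C.i n ∈ C.j.range := fun n hn =>
          N.map_le_range C.j (hN ▸ Subgroup.mem_map_of_mem C.i hn)
        rw [hva, hva, ← map_mul C.v, ← map_mul C.v, hj h hh _ (hr n hn) _ (hr n' hn')
          ((C.edge_iff' _).1 (loc _ _ _ f)) ((C.edge_iff' _).1 (loc _ _ _ f'))]
  intro g hg d hd d' hd' l l'
  have := comm_of_ker (F := M) (M.comap ((MulAut.conj g⁻¹).toMonoidHom.comp M.subtype))
    (deg.comp M.subtype) (fun x hx y hy e e' => Subtype.ext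
      ((hP g).1 (key _ g rfl) hg x x.2 y y.2 e e' (by simpa using hx) (by simpa using hy)))
    ⟨d, hd⟩ (by simpa using l) ⟨d', hd'⟩ (by simpa using l')
  exact congrArg Subtype.val this

variable {X : Type}

theorem phG_i_range {b : X} {M : ℕ} (l : FreeGroup (Xp b M)) :
    (phG l).i.range = (Mg (bot b M)).map (pr l) := by
  rw [← range_shf, MonoidHom.map_range]
  rfl

theorem phG_j_range {b : X} {M : ℕ} (l : FreeGroup (Xp b M)) :
    (phG l).j.range = (Mg (top b M)).map (pr l) := by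
  rw [← range_val, MonoidHom.map_range]
  rfl

theorem bgAt_std {b : X} {M : ℕ} {l : FreeGroup (Xp b M)} (h1 : FrAt l (bot b M))
    (h2 : FrAt l (top b M)) (b1 : BgAt l (bot b M)) (b2 : BgAt l (top b M)) :
    BgAt (vF b M l) (some b) := by
  obtain ⟨C, hC⟩ := cut_std h1 h2
  obtain ⟨deg, hdeg⟩ := exists_lift (r := vF b M l) (degT X) (degT_vF l)
  have hinj : Function.Injective ((pr (vF b M l)).comp (Mg (some b)).subtype) :=
    (injective_iff_map_eq_one _).2 fun z hz => Subtype.ext (frAt_std h1 h2 z.1 z.2 hz)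
  have hr : ((pr (vF b M l)).comp (Mg (some b)).subtype).range =
      (Mg (some b)).map (pr (vF b M l)) := by
    rw [← MonoidHom.map_range, Subgroup.range_subtype]
  have : IsFreeGroup ((Mg (some b)).map (pr (vF b M l))) :=
    IsFreeGroup.ofMulEquiv ((MonoidHom.ofInjective hinj).trans (MulEquiv.subgroupCongr hr))
  refine C.cm_line (Nb b M) ?_ (fun g hg n hn h => mal _ hg hn h) ?_ ?_ deg ?_ ?_ _ ?_
  · rw [hC]
    change (Nb b M).map ((pr l).comp (phF b M).i) = (Nb b M).map ((pr l).comp (phF b M).j)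
    rw [← Subgroup.map_map, ← Subgroup.map_map, nb_map]
  · rw [hC, phG_i_range]
    exact b1
  · rw [hC, phG_j_range]
    exact b2
  · rw [hC]
    intro h
    obtain ⟨z, rfl⟩ := pr_surj l h
    exact (hdeg _).trans (degT_vF z)
  · rw [hC]
    exact (hdeg _).trans degT_tt
  · rw [hC]
    intro g
    constructor
    · rintro ⟨z, hz, rfl⟩
      obtain ⟨n, hn, k, rfl⟩ := (mem_mg_some M z).1 hz
      exact ⟨n, hn, k, by rw [map_mul, map_zpow]; rfl⟩
    · rintro ⟨n, hn, k, rfl⟩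
      exact ⟨_, (mem_mg_some M _).2 ⟨n, hn, k, rfl⟩, by rw [map_mul, map_zpow]; rfl⟩

end Pool.Agent.Work.MP_9d1ffa_al
end

-- merged part: Pool.Agent.Work.MP_9d1ffa_al.OFr
section
/-! The Freiheitssatz and the theorem of Bagherzadeh. -/

namespace Pool.Agent.Work.MP_9d1ffa_al

set_option linter.unusedSectionVars false
set_option linter.unusedVariables false

open FreeGroup hiding map_one map_mul map_inv

/-- the isomorphism of presentations given by an automorphism -/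
def Ret.aut {Y : Type} (φ : FreeGroup Y ≃* FreeGroup Y) (z : FreeGroup Y) : Ret (φ z) z :=
  Ret.mk' φ.symm.toMonoidHom φ.toMonoidHom (fun x => by simp) (by simp)

theorem aut_symm_mem {Y : Type} {φ : FreeGroup Y ≃* FreeGroup Y} {y : Y}
    (h : ∀ z, φ z ∈ Mg y ↔ z ∈ Mg y) : ∀ z ∈ Mg y, φ.symm z ∈ Mg y := fun z hz =>
  (h _).1 (by simpa using hz)

theorem ess_aut {Y : Type} {φ : FreeGroup Y ≃* FreeGroup Y} {y : Y} {z : FreeGroup Y}
    (h : ∀ z, φ z ∈ Mg y ↔ z ∈ Mg y) (e : Ess (φ z) y) : Ess z y :=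
  e.of_map φ.toMonoidHom rfl fun x hx => (h x).2 hx

theorem all_or_exists {X : Type} (L : List (X × Bool)) (b : X) :
    (∀ p ∈ L, p.1 = b) ∨ ∃ a, a ≠ b ∧ ∃ s, (a, s) ∈ L := by
  by_cases h : ∀ p ∈ L, p.1 = b
  · exact Or.inl h
  · push Not at h
    obtain ⟨p, h1, h2⟩ := h
    exact Or.inr ⟨p.1, h2, p.2, h1⟩

theorem fr_aux (n : ℕ) : ∀ (X : Type) (L : List (X × Bool)) (b : X), L.length < n →
    Ess (mk L) b → FrAt (mk L) b := by
  induction n with
  | zero => intro X L b h; omega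
  | succ n ih =>
    intro X L₀ b hn hE
    obtain ⟨L, g, hL, e, hl⟩ := exists_cred L₀
    rw [e] at hE ⊢
    have hE' := hE.conj
    refine (Ret.conj _ g).fr (fun z hz => hz) ?_
    have hb := mem_of_ess hE'
    have step : ∀ {b' : X} {M : ℕ} {L' : List (Xp b' M × Bool)}
        {φ : FreeGroup (Xp b' M) ≃* FreeGroup (Xp b' M)} {y : Xp b' M}, L'.length < L.length →
        (∀ z, φ z ∈ Mg y ↔ z ∈ Mg y) → Ess (φ (mk L')) y → FrAt (φ (mk L')) y :=
      fun h1 h2 h3 => (Ret.aut _ _).fr (aut_symm_mem h2) (ih _ _ _ (by omega) (ess_aut h2 h3))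
    rcases all_or_exists L b with h | ⟨a₀, h0, ha₀⟩
    · obtain ⟨k, hk⟩ := mk_eq_zpow h
      exact frAt_pow hk
    rcases choose_w h0 ha₀ with ⟨a, w, h1, h2, h3, h4⟩ | ⟨h1, w, h2, h3, h4⟩
    · obtain ⟨M, h, l, L', φ, k1, rfl, k3, k4, k5, k6, k7, -⟩ := ms hL h1 h2 hb w h3 h4
      refine (Ret.alpha _ w h).fr (Ret.alpha_φ _ w h b) ?_
      rw [← k7]
      exact frAt_std (step k1 k3 k5) (step k1 k4 k6)
    · obtain ⟨M, h, l, L', φ, k1, rfl, k3, k4, k5, k6, k7, k8⟩ :=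
        ms hL h0.symm hb ha₀ w (by omega) h4
      refine frAt_special h0 (step k1 k3 k5) (step k1 k4 k6) k7 h2 h3 ?_ hE'
      exact Subgroup.closure_mono (Set.image_mono fun p hp => hp.elim fun s hs => h1 _ hs) k8

/-- the Freiheitssatz of Magnus -/
theorem freiheit {X : Type} {r : FreeGroup X} {b : X} (h : Ess r b) : FrAt r b := by
  obtain ⟨L, rfl⟩ : ∃ L, mk L = r := Quot.exists_rep r
  exact fr_aux _ X L b (Nat.lt_succ_self _) h

/-- the vertex group of a torsion free one relator group is torsion free -/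
theorem tf_vertex {X : Type} {b : X} {M : ℕ} {l : FreeGroup (Xp b M)} (h1 : Ess l (bot b M))
    (h2 : Ess l (top b M)) (h : TF (OR (vF b M l))) : TF (OR l) := by
  obtain ⟨C, hC⟩ := cut_std (freiheit h1) (freiheit h2)
  have := C.vinj
  rw [hC] at this
  exact h.of_inj _ this

theorem bg_aux (n : ℕ) : ∀ (X : Type) (L : List (X × Bool)) (b : X), L.length < n →
    TF (OR (mk L)) → Ess (mk L) b → BgAt (mk L) b := by
  induction n with
  | zero => intro X L b h; omega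
  | succ n ih =>
    intro X L₀ b hn ht hE
    obtain ⟨L, g, hL, e, hl⟩ := exists_cred L₀
    rw [e] at hE ht ⊢
    have hE' := hE.conj
    have ht' := (Ret.conj' _ g).tf ht
    refine (Ret.conj _ g).bg (fun z hz => hz) (fun z hz => hz) ?_
    have hb := mem_of_ess hE'
    rcases all_or_exists L b with h | ⟨a₀, h0, ha₀⟩
    · obtain ⟨k, hk⟩ := mk_eq_zpow h
      exact bgAt_pow hk hE' ht'
    rcases choose_w h0 ha₀ with ⟨a, w, h1, h2, h3, h4⟩ | ⟨h1, -⟩
    · obtain ⟨M, h, l, L', φ, k1, rfl, k3, k4, k5, k6, k7, -⟩ := ms hL h1 h2 hb w h3 h4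
      have t1 := tf_vertex k5 k6 (k7 ▸ tf_alpha ht' w h)
      have t2 : TF (OR (mk L')) := by
        have := (Ret.aut φ.symm (φ (mk L'))).tf t1
        rwa [φ.symm_apply_apply] at this
      have step : ∀ {y : Xp b M}, (∀ z, φ z ∈ Mg y ↔ z ∈ Mg y) → Ess (φ (mk L')) y →
          BgAt (φ (mk L')) y := fun h2 h3 =>
        (Ret.aut _ _).bg (aut_symm_mem h2) (fun z hz => (h2 z).2 hz)
          (ih _ _ _ (by omega) t2 (ess_aut h2 h3))
      refine (Ret.alpha _ w h).bg (Ret.alpha_φ _ w h b) (Ret.alpha_ρ _ w h b) ?_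
      rw [← k7]
      exact bgAt_std (freiheit k5) (freiheit k6) (step k3 k5) (step k4 k6)
    · exact cm_special h0 (mk_mem_closure h1)

/-- the theorem of Bagherzadeh in the torsion free case -/
theorem bagher {X : Type} {r : FreeGroup X} {b : X} (ht : TF (OR r)) (h : Ess r b) :
    BgAt r b := by
  obtain ⟨L, rfl⟩ : ∃ L, mk L = r := Quot.exists_rep r
  exact bg_aux _ X L b (Nat.lt_succ_self _) ht h

end Pool.Agent.Work.MP_9d1ffa_al
end
end

-- merged part: Pool.Agent.Work.MP_9d1ffa_al.VRe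
section
-- merged part: Pool.Agent.Work.MP_9d1ffa_al.VDefs
section
/-! Graded complexes of finite free modules, written as one square matrix acting on row vectors,
and twisted pairs of such complexes. -/

namespace Pool.Agent.Work.MP_9d1ffa_al.VN

open Matrix

set_option linter.unusedSectionVars false
set_option linter.unusedVariables false

/-- a homogeneous matrix of degree `n` -/
def Hg {S I J : Type} [Zero S] (n : ℤ) (p : I → ℤ) (q : J → ℤ) (f : Matrix I J S) : Prop :=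
  ∀ k l, f k l ≠ 0 → q l = p k + n

/-- a homogeneous vector of degree `k` -/
def Vd {S I : Type} [Zero S] (p : I → ℤ) (k : ℤ) (v : I → S) : Prop := ∀ i, v i ≠ 0 → p i = k

/-- the homogeneous part of a vector -/
def pj {S I : Type} [Zero S] (p : I → ℤ) (k : ℤ) (v : I → S) : I → S :=
  fun i => if p i = k then v i else 0

/-- the homogeneous part of a matrix -/
def hp {S I J : Type} [Zero S] (n : ℤ) (p : I → ℤ) (q : J → ℤ) (f : Matrix I J S) : Matrix I J S :=
  Matrix.of fun k l => if q l = p k + n then f k l else 0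

section Basic

variable {S S' I J K L M : Type} [Ring S] [Ring S'] {n m : ℤ} {p : I → ℤ} {q : J → ℤ} {r : K → ℤ}
  {u : L → ℤ} {f g : Matrix I J S}

theorem hg_zero : Hg n p q (0 : Matrix I J S) := fun _ _ e => (e rfl).elim

theorem hg_one [DecidableEq I] : Hg 0 p p (1 : Matrix I I S) := fun k l e => by
  by_cases h : k = l
  · rw [h, add_zero]
  · exact (e (one_apply_ne h)).elim

theorem Hg.add (hf : Hg n p q f) (hg : Hg n p q g) : Hg n p q (f + g) := fun k l e => by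
  by_cases h : f k l = 0
  · exact hg k l fun e' => e (by rw [Matrix.add_apply, h, e', add_zero])
  · exact hf k l h

theorem Hg.neg (hf : Hg n p q f) : Hg n p q (-f) := fun k l e =>
  hf k l fun e' => e (by rw [Matrix.neg_apply, e', neg_zero])

theorem Hg.sub (hf : Hg n p q f) (hg : Hg n p q g) : Hg n p q (f - g) := by
  rw [sub_eq_add_neg]; exact hf.add hg.neg

theorem Hg.smul {A : Type} [SMulZeroClass A S] (hf : Hg n p q f) (a : A) : Hg n p q (a • f) :=
  fun k l e => hf k l fun e' => e (by rw [Matrix.smul_apply, e', smul_zero])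

theorem Hg.mul [Fintype J] {g : Matrix J K S} {c : ℤ} (hf : Hg n p q f) (hg : Hg m q r g)
    (hc : c = n + m) : Hg c p r (f * g) := fun k l e => by
  obtain ⟨j, -, e⟩ := Finset.exists_ne_zero_of_sum_ne_zero (e : ∑ j, f k j * g j l ≠ 0)
  rw [hg j l (right_ne_zero_of_mul e), hf k j (left_ne_zero_of_mul e), hc, add_assoc]

theorem Hg.map (hf : Hg n p q f) (φ : S → S') (h : φ 0 = 0) : Hg n p q (f.map φ) := fun k l e =>
  hf k l fun e' => e (by rw [map_apply, e', h])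

/-- change of the gradings -/
theorem Hg.of (hf : Hg n p q f) {p' : I → ℤ} {q' : J → ℤ}
    (h : ∀ k l, q l = p k + n → q' l = p' k + m) : Hg m p' q' f := fun k l e => h k l (hf k l e)

theorem Hg.ct [StarRing S] (hf : Hg n p q f) : Hg n (fun l => -q l) (fun k => -p k) fᴴ :=
  fun l k e => by
    have := hf k l fun e' => e (by rw [conjTranspose_apply, e', star_zero])
    simp only
    omega

theorem Hg.submatrix (hf : Hg n p q f) (a : K → I) (b : L → J) :
    Hg n (fun k => p (a k)) (fun l => q (b l)) (f.submatrix a b) := fun k l e => hf _ _ e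

theorem hg_rows {a : Matrix I J S} {b : Matrix K J S} :
    Hg n (Sum.elim p r) q (fromRows a b) ↔ Hg n p q a ∧ Hg n r q b :=
  ⟨fun h => ⟨fun k => h (Sum.inl k), fun k => h (Sum.inr k)⟩, fun h k => by
    cases k
    · exact h.1 _
    · exact h.2 _⟩

theorem hg_cols {a : Matrix I J S} {b : Matrix I K S} :
    Hg n p (Sum.elim q r) (fromCols a b) ↔ Hg n p q a ∧ Hg n p r b :=
  ⟨fun h => ⟨fun k l => h k (Sum.inl l), fun k l => h k (Sum.inr l)⟩, fun h k l => by
    cases l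
    · exact h.1 _ _
    · exact h.2 _ _⟩

theorem hg_blocks {a : Matrix I J S} {b : Matrix I L S} {c : Matrix K J S} {d : Matrix K L S} :
    Hg n (Sum.elim p r) (Sum.elim q u) (fromBlocks a b c d) ↔
      Hg n p q a ∧ Hg n p u b ∧ Hg n r q c ∧ Hg n r u d :=
  ⟨fun h => ⟨fun k l => h (Sum.inl k) (Sum.inl l), fun k l => h (Sum.inl k) (Sum.inr l),
    fun k l => h (Sum.inr k) (Sum.inl l), fun k l => h (Sum.inr k) (Sum.inr l)⟩, fun h k l => by
    rcases k with k | k <;> rcases l with l | l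
    exacts [h.1 _ _, h.2.1 _ _, h.2.2.1 _ _, h.2.2.2 _ _]⟩

theorem hg_hp (f : Matrix I J S) : Hg n p q (hp n p q f) := fun k l e => by
  by_contra h
  exact e (if_neg h)

theorem Hg.hp_eq (hf : Hg n p q f) : hp n p q f = f := by
  ext k l
  by_cases h : q l = p k + n
  · exact if_pos h
  · exact (if_neg h).trans (by_contra fun e => h (hf k l (Ne.symm e)))

theorem hp_add (f g : Matrix I J S) : hp n p q (f + g) = hp n p q f + hp n p q g := by
  ext k l
  by_cases h : q l = p k + n <;> simp [hp, h]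

theorem hp_mul_right [Fintype J] {g : Matrix J K S} {c : ℤ} (f : Matrix I J S) (hg : Hg m q r g)
    (hc : c = n + m) : hp c p r (f * g) = hp n p q f * g := by
  ext k l
  simp only [hp, of_apply, mul_apply]
  split_ifs with h
  · refine Finset.sum_congr rfl fun j _ => ?_
    by_cases e : g j l = 0
    · rw [e, mul_zero, mul_zero]
    · rw [if_pos (by have := hg j l e; omega)]
  · refine (Finset.sum_eq_zero fun j _ => ?_).symm
    by_cases e : g j l = 0
    · rw [e, mul_zero]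
    · rw [if_neg (by have := hg j l e; omega), zero_mul]

theorem hp_mul_left [Fintype J] {c : ℤ} (hf : Hg n p q f) (g : Matrix J K S)
    (hc : c = n + m) : hp c p r (f * g) = f * hp m q r g := by
  ext k l
  simp only [hp, of_apply, mul_apply]
  split_ifs with h
  · refine Finset.sum_congr rfl fun j _ => ?_
    by_cases e : f k j = 0
    · rw [e, zero_mul, zero_mul]
    · rw [if_pos (by have := hf k j e; omega)]
  · refine (Finset.sum_eq_zero fun j _ => ?_).symm
    by_cases e : f k j = 0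
    · rw [e, zero_mul]
    · rw [if_neg (by have := hf k j e; omega), mul_zero]

/-- gradings on finite sets are bounded -/
theorem exists_bound [Finite I] (p : I → ℤ) : ∃ N : ℕ, ∀ i, -(N : ℤ) ≤ p i ∧ p i ≤ N := by
  obtain ⟨N, hN⟩ := (Set.finite_range fun i => (p i).natAbs).bddAbove
  refine ⟨N, fun i => ?_⟩
  have : (p i).natAbs ≤ N := hN ⟨i, rfl⟩
  omega

variable {k : ℤ} {v w : I → S}

theorem vd_zero : Vd p k (0 : I → S) := fun _ e => (e rfl).elim

theorem Vd.add (hv : Vd p k v) (hw : Vd p k w) : Vd p k (v + w) := fun i e => by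
  by_cases h : v i = 0
  · exact hw i fun e' => e (by rw [Pi.add_apply, h, e', add_zero])
  · exact hv i h

theorem Vd.neg (hv : Vd p k v) : Vd p k (-v) := fun i e =>
  hv i fun e' => e (by rw [Pi.neg_apply, e', neg_zero])

theorem Vd.sub (hv : Vd p k v) (hw : Vd p k w) : Vd p k (v - w) := by
  rw [sub_eq_add_neg]; exact hv.add hw.neg

theorem Vd.smul {A : Type} [SMulZeroClass A S] (hv : Vd p k v) (a : A) : Vd p k (a • v) :=
  fun i e => hv i fun e' => e (by rw [Pi.smul_apply, e', smul_zero])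

theorem Vd.vecMul [Fintype I] {c : ℤ} (hv : Vd p k v) (hf : Hg n p q f) (hc : c = k + n) :
    Vd q c (v ᵥ* f) := fun l e => by
  obtain ⟨j, -, e⟩ := Finset.exists_ne_zero_of_sum_ne_zero (e : ∑ j, v j * f j l ≠ 0)
  rw [hf j l (right_ne_zero_of_mul e), hv j (left_ne_zero_of_mul e), hc]

theorem vd_elim {x : I → S} {y : J → S} :
    Vd (Sum.elim p q) k (Sum.elim x y) ↔ Vd p k x ∧ Vd q k y :=
  ⟨fun h => ⟨fun i => h (Sum.inl i), fun i => h (Sum.inr i)⟩, fun h i => by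
    cases i
    · exact h.1 _
    · exact h.2 _⟩

theorem Hg.row (hf : Hg n p q f) (i : I) : Vd q (p i + n) (f i) := fun l e => hf i l e

theorem vd_pj (v : I → S) : Vd p k (pj p k v) := fun i e => by
  by_contra h
  exact e (if_neg h)

theorem Vd.pj_eq (hv : Vd p k v) : pj p k v = v := by
  funext i
  by_cases h : p i = k
  · exact if_pos h
  · exact (if_neg h).trans (by_contra fun e => h (hv i (Ne.symm e)))

theorem pj_add (v w : I → S) : pj p k (v + w) = pj p k v + pj p k w := by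
  funext i
  by_cases h : p i = k <;> simp [pj, h]

theorem pj_sub (v w : I → S) : pj p k (v - w) = pj p k v - pj p k w := by
  funext i
  by_cases h : p i = k <;> simp [pj, h]

theorem pj_vecMul [Fintype I] {c : ℤ} (v : I → S) (hf : Hg n p q f) (hc : c = k + n) :
    pj q c (v ᵥ* f) = pj p k v ᵥ* f := by
  funext l
  simp only [pj, vecMul, dotProduct]
  split_ifs with h
  · refine Finset.sum_congr rfl fun j _ => ?_
    by_cases e : f j l = 0
    · rw [e, mul_zero, mul_zero]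
    · rw [if_pos (by have := hf j l e; omega)]
  · refine (Finset.sum_eq_zero fun j _ => ?_).symm
    by_cases e : f j l = 0
    · rw [e, mul_zero]
    · rw [if_neg (by have := hf j l e; omega), zero_mul]

end Basic

/-- a finite graded complex of free modules -/
structure Cx (R : Type) [Ring R] : Type 1 where
  I : Type
  [fin : Fintype I]
  [dec : DecidableEq I]
  p : I → ℤ
  d : Matrix I I R
  hd : Hg (-1) p p d
  dd : d * d = 0

attribute [instance] Cx.fin Cx.dec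

section Cx

variable {R : Type} [Ring R]

/-- a free module placed in one degree -/
abbrev Cx.free (R : Type) [Ring R] (L : Type) [Fintype L] [DecidableEq L] (a : ℤ) : Cx R where
  I := L
  p _ := a
  d := 0
  hd := hg_zero
  dd := Matrix.mul_zero _

/-- the dual complex -/
abbrev Cx.dual [StarRing R] (X : Cx R) : Cx R where
  I := X.I
  p i := -X.p i
  d := X.dᴴ
  hd := X.hd.ct
  dd := by rw [← conjTranspose_mul, X.dd, conjTranspose_zero]

/-- the suspension -/
abbrev Cx.up (X : Cx R) : Cx R where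
  I := X.I
  p i := X.p i + 1
  d := -X.d
  hd := X.hd.neg.of fun k l e => by omega
  dd := by rw [Matrix.neg_mul, Matrix.mul_neg, neg_neg, X.dd]

/-- change of rings -/
abbrev Cx.map {S : Type} [Ring S] (X : Cx R) (φ : R →+* S) : Cx S where
  I := X.I
  p := X.p
  d := X.d.map φ
  hd := X.hd.map φ φ.map_zero
  dd := by rw [← Matrix.map_mul, X.dd, Matrix.map_zero _ φ.map_zero]

/-- gluing data for an extension with subcomplex `S` and quotient `Q` -/
def Gl (S Q : Cx R) (θ : Matrix Q.I S.I R) : Prop :=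
  Hg (-1) Q.p S.p θ ∧ θ * S.d + Q.d * θ = 0

/-- the extension -/
abbrev Gl.ext {S Q : Cx R} {θ : Matrix Q.I S.I R} (h : Gl S Q θ) : Cx R where
  I := S.I ⊕ Q.I
  p := Sum.elim S.p Q.p
  d := fromBlocks S.d 0 θ Q.d
  hd := hg_blocks.2 ⟨S.hd, hg_zero, h.1, Q.hd⟩
  dd := by simp [fromBlocks_multiply, S.dd, Q.dd, h.2]

/-- a chain map -/
def Ch (X Y : Cx R) (f : Matrix X.I Y.I R) : Prop := Hg 0 X.p Y.p f ∧ X.d * f = f * Y.d

theorem Ch.gl {X Y : Cx R} {f : Matrix X.I Y.I R} (h : Ch X Y f) : Gl Y X.up f :=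
  ⟨h.1.of fun k l e => by simp only; omega, by
    rw [← h.2]
    exact (congrArg _ (Matrix.neg_mul _ _)).trans (add_neg_cancel _)⟩

/-- the mapping cone -/
abbrev Ch.cone {X Y : Cx R} {f : Matrix X.I Y.I R} (h : Ch X Y f) : Cx R := h.gl.ext

theorem ch_one (X : Cx R) : Ch X X 1 := ⟨hg_one, by rw [Matrix.mul_one, Matrix.one_mul]⟩

theorem Ch.mul {X Y Z : Cx R} {f : Matrix X.I Y.I R} {g : Matrix Y.I Z.I R} (hf : Ch X Y f)
    (hg : Ch Y Z g) : Ch X Z (f * g) :=
  ⟨hf.1.mul hg.1 (by simp), by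
    rw [← Matrix.mul_assoc, hf.2, Matrix.mul_assoc, hg.2, Matrix.mul_assoc]⟩

/-- exact in degree `k` -/
def Ex (X : Cx R) (k : ℤ) : Prop := ∀ v, Vd X.p k v → v ᵥ* X.d = 0 → ∃ w, w ᵥ* X.d = v

/-- no homology above `a` -/
def Le (X : Cx R) (a : ℤ) : Prop := ∀ k, a < k → Ex X k

/-- no homology below `a` -/
def Ge (X : Cx R) (a : ℤ) : Prop := ∀ k, k < a → Ex X k

/-- no homology -/
def Acy (X : Cx R) : Prop := ∀ k, Ex X k

theorem Ex.hom {X : Cx R} {k : ℤ} (h : Ex X k) {v : X.I → R} (hv : Vd X.p k v)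
    (h0 : v ᵥ* X.d = 0) : ∃ w, Vd X.p (k + 1) w ∧ w ᵥ* X.d = v := by
  obtain ⟨w, rfl⟩ := h v hv h0
  exact ⟨pj X.p (k + 1) w, vd_pj w, by rw [← pj_vecMul w X.hd (c := k) (by omega), hv.pj_eq]⟩

theorem ex_of_ne {X : Cx R} {k : ℤ} (h : ∀ i, X.p i ≠ k) : Ex X k := fun v hv _ =>
  ⟨0, by
    rw [zero_vecMul]
    funext i
    by_contra e
    exact h i (hv i (Ne.symm e))⟩

theorem Le.mono {X : Cx R} {a b : ℤ} (h : Le X a) (hab : a ≤ b) : Le X b :=
  fun k e => h k (by omega)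

theorem Ge.mono {X : Cx R} {a b : ℤ} (h : Ge X a) (hab : b ≤ a) : Ge X b :=
  fun k e => h k (by omega)

theorem ge_of_le {X : Cx R} {a : ℤ} (h : ∀ i, a ≤ X.p i) : Ge X a := fun k e =>
  ex_of_ne fun i e' => by have := h i; omega

theorem le_of_le {X : Cx R} {a : ℤ} (h : ∀ i, X.p i ≤ a) : Le X a := fun k e =>
  ex_of_ne fun i e' => by have := h i; omega

/-- equal up to a renumbering of the basis and the sign of the differential -/
def Re (X Y : Cx R) : Prop :=
  ∃ (e : X.I ≃ Y.I) (s : ℤˣ), (∀ i, X.p i = Y.p (e i)) ∧ X.d = (s : ℤ) • Y.d.submatrix e e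

/-- the map induces an isomorphism in homology (the cone is acyclic) -/
def Qis {X Y : Cx R} (f : Matrix X.I Y.I R) : Prop :=
  ∀ x y, x ᵥ* X.d = 0 → y ᵥ* Y.d = x ᵥ* f → ∃ a b, a ᵥ* X.d = x ∧ a ᵥ* f + b ᵥ* Y.d = y

/-- the properties of the ring that are used -/
structure Good (R : Type) [Ring R] [StarRing R] : Prop where
  tr : ∀ (X : Cx R) (a : ℤ), ∃ (T : Cx R) (t : Matrix T.I X.I R) (h : Ch T X t),
    (∀ i, a ≤ T.p i) ∧ Le h.cone (a - 1)
  aus : ∀ (X T : Cx R) (t : Matrix T.I X.I R) (h : Ch T X t) (a b : ℤ),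
    Le X.dual a → Ge T b → Le h.cone (b - 1) → Le T.dual a
  fin : ∃ N : ℕ, ∀ (X : Cx R) (a : ℤ), Le X.dual a → Ge X (-a - N)
  sfi : SFI R

end Cx

/-- a flat extension of rings with two bimodules on which the involution acts freely -/
structure Amb (R Λ : Type) [Ring R] [StarRing R] [Ring Λ] [StarRing Λ] where
  ι : R →+* Λ
  ι_star : ∀ r, ι (star r) = star (ι r)
  flat : ∀ (I J K : Type) [Fintype I] [Fintype J] (P : J → Prop) (a : Matrix I J R)
    (b : Matrix J K R), (∀ v, (∀ j, v j ≠ 0 → P j) → v ᵥ* b = 0 → ∃ w, w ᵥ* a = v) →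
    ∀ v : J → Λ, (∀ j, v j ≠ 0 → P j) → v ᵥ* b.map ι = 0 → ∃ w, w ᵥ* a.map ι = v
  π : Λ →+ R
  π_ι : ∀ r, π (ι r) = r
  π_left : ∀ r x, π (ι r * x) = r * π x
  π_right : ∀ r x, π (x * ι r) = π x * r
  B : Bool → AddSubgroup Λ
  B_left : ∀ i r x, x ∈ B i → ι r * x ∈ B i
  B_right : ∀ i r x, x ∈ B i → x * ι r ∈ B i
  B_star : ∀ i x, x ∈ B i → star x ∈ B i
  β : Bool → Λ →+ Λ
  β_mem : ∀ i x, β i x ∈ B i
  β_id : ∀ i x, x ∈ B i → β i x = x
  β_left : ∀ i r x, β i (ι r * x) = ι r * β i x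
  β_right : ∀ i r x, β i (x * ι r) = β i x * ι r
  two : ∀ i (e : ℤˣ) x, x ∈ B i → star x = (e : ℤ) • x → ∃ ω ∈ B i, x = ω + (e : ℤ) • star ω

section Amb

variable {R Λ : Type} [Ring R] [StarRing R] [Ring Λ] [StarRing Λ] (A : Amb R Λ)
  {I J K L : Type}

/-- the image of a matrix -/
def Amb.m (f : Matrix I J R) : Matrix I J Λ := f.map A.ι

theorem Amb.m_apply (f : Matrix I J R) (k : I) (l : J) : A.m f k l = A.ι (f k l) := rfl

theorem Amb.m_mul [Fintype J] (f : Matrix I J R) (g : Matrix J K R) :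
    A.m (f * g) = A.m f * A.m g := Matrix.map_mul

theorem Amb.m_add (f g : Matrix I J R) : A.m (f + g) = A.m f + A.m g :=
  Matrix.map_add _ (map_add _) _ _

theorem Amb.m_sub (f g : Matrix I J R) : A.m (f - g) = A.m f - A.m g :=
  Matrix.map_sub _ (map_sub _) _ _

theorem Amb.m_neg (f : Matrix I J R) : A.m (-f) = -A.m f := Matrix.map_neg _ (map_neg _) _

theorem Amb.m_zero : A.m (0 : Matrix I J R) = 0 := Matrix.map_zero _ (map_zero _)

theorem Amb.m_one [DecidableEq I] : A.m (1 : Matrix I I R) = 1 :=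
  Matrix.map_one _ (map_zero _) (map_one _)

theorem Amb.m_zsmul (n : ℤ) (f : Matrix I J R) : A.m (n • f) = n • A.m f := by
  funext k l
  simp only [A.m_apply, Matrix.smul_apply, map_zsmul]

theorem Amb.m_ct (f : Matrix I J R) : A.m fᴴ = (A.m f)ᴴ := by
  funext k l
  simp only [A.m_apply, conjTranspose_apply, A.ι_star]

theorem Amb.m_blocks (a : Matrix I K R) (b : Matrix I L R) (c : Matrix J K R) (d : Matrix J L R) :
    A.m (fromBlocks a b c d) = fromBlocks (A.m a) (A.m b) (A.m c) (A.m d) :=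
  fromBlocks_map _ _ _ _ _

theorem Amb.m_rows (a : Matrix I K R) (b : Matrix J K R) :
    A.m (fromRows a b) = fromRows (A.m a) (A.m b) := fromRows_map _ _ _

theorem Amb.m_cols (a : Matrix I K R) (b : Matrix I L R) :
    A.m (fromCols a b) = fromCols (A.m a) (A.m b) := fromCols_map _ _ _

theorem Hg.m {n : ℤ} {p : I → ℤ} {q : J → ℤ} {f : Matrix I J R} (h : Hg n p q f) :
    Hg n p q (A.m f) := h.map _ (map_zero _)

theorem Amb.m_dd (X : Cx R) : A.m X.d * A.m X.d = 0 := by rw [← A.m_mul, X.dd, A.m_zero]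

/-- a homogeneous matrix with entries in the bimodule -/
def Bm (i : Bool) (n : ℤ) (p : I → ℤ) (q : J → ℤ) (f : Matrix I J Λ) : Prop :=
  Hg n p q f ∧ ∀ k l, f k l ∈ A.B i

variable {A} {i : Bool} {n m : ℤ} {p : I → ℤ} {q : J → ℤ} {r : K → ℤ} {u : L → ℤ}
  {f g : Matrix I J Λ}

theorem bm_zero : Bm A i n p q (0 : Matrix I J Λ) := ⟨hg_zero, fun _ _ => zero_mem _⟩

theorem Bm.add (hf : Bm A i n p q f) (hg : Bm A i n p q g) : Bm A i n p q (f + g) :=
  ⟨hf.1.add hg.1, fun k l => add_mem (hf.2 k l) (hg.2 k l)⟩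

theorem Bm.neg (hf : Bm A i n p q f) : Bm A i n p q (-f) :=
  ⟨hf.1.neg, fun k l => neg_mem (hf.2 k l)⟩

theorem Bm.sub (hf : Bm A i n p q f) (hg : Bm A i n p q g) : Bm A i n p q (f - g) :=
  ⟨hf.1.sub hg.1, fun k l => sub_mem (hf.2 k l) (hg.2 k l)⟩

theorem Bm.zsmul (hf : Bm A i n p q f) (a : ℤ) : Bm A i n p q (a • f) :=
  ⟨hf.1.smul a, fun k l => zsmul_mem (hf.2 k l) a⟩

theorem Bm.ct (hf : Bm A i n p q f) : Bm A i n (fun l => -q l) (fun k => -p k) fᴴ :=
  ⟨hf.1.ct, fun l k => A.B_star _ _ (hf.2 k l)⟩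

theorem Bm.of (hf : Bm A i n p q f) {p' : I → ℤ} {q' : J → ℤ}
    (h : ∀ k l, q l = p k + n → q' l = p' k + m) : Bm A i m p' q' f := ⟨hf.1.of h, hf.2⟩

theorem Bm.mul_m [Fintype J] {g : Matrix J K R} {c : ℤ} (hf : Bm A i n p q f) (hg : Hg m q r g)
    (hc : c = n + m) : Bm A i c p r (f * A.m g) :=
  ⟨hf.1.mul (hg.m A) hc, fun k l => sum_mem fun j _ => A.B_right _ _ _ (hf.2 k j)⟩

theorem Bm.m_mul [Fintype J] {f : Matrix I J R} {g : Matrix J K Λ} {c : ℤ} (hf : Hg n p q f)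
    (hg : Bm A i m q r g) (hc : c = n + m) : Bm A i c p r (A.m f * g) :=
  ⟨(hf.m A).mul hg.1 hc, fun k l => sum_mem fun j _ => A.B_left _ _ _ (hg.2 j l)⟩

theorem bm_rows {a : Matrix I J Λ} {b : Matrix K J Λ} :
    Bm A i n (Sum.elim p r) q (fromRows a b) ↔ Bm A i n p q a ∧ Bm A i n r q b :=
  ⟨fun h => ⟨⟨(hg_rows.1 h.1).1, fun k => h.2 (Sum.inl k)⟩, (hg_rows.1 h.1).2,
    fun k => h.2 (Sum.inr k)⟩, fun h => ⟨hg_rows.2 ⟨h.1.1, h.2.1⟩, fun k => by
      cases k
      · exact h.1.2 _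
      · exact h.2.2 _⟩⟩

theorem bm_cols {a : Matrix I J Λ} {b : Matrix I K Λ} :
    Bm A i n p (Sum.elim q r) (fromCols a b) ↔ Bm A i n p q a ∧ Bm A i n p r b :=
  ⟨fun h => ⟨⟨(hg_cols.1 h.1).1, fun k l => h.2 k (Sum.inl l)⟩, (hg_cols.1 h.1).2,
    fun k l => h.2 k (Sum.inr l)⟩, fun h => ⟨hg_cols.2 ⟨h.1.1, h.2.1⟩, fun k l => by
      cases l
      · exact h.1.2 _ _
      · exact h.2.2 _ _⟩⟩

theorem bm_blocks {a : Matrix I J Λ} {b : Matrix I L Λ} {c : Matrix K J Λ} {d : Matrix K L Λ} :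
    Bm A i n (Sum.elim p r) (Sum.elim q u) (fromBlocks a b c d) ↔
      Bm A i n p q a ∧ Bm A i n p u b ∧ Bm A i n r q c ∧ Bm A i n r u d := by
  rw [← fromRows_fromCols_eq_fromBlocks, bm_rows, bm_cols, bm_cols, and_assoc]

variable (A)

/-- all chain maps of degree `n` (of either sign) from `X` to the extension of `Y` are null
homotopic -/
def Nu (n : ℤ) (X Y : Cx R) : Prop :=
  ∀ (s : ℤˣ) (f : Matrix X.I Y.I Λ), Hg n X.p Y.p f → A.m X.d * f = (s : ℤ) • (f * A.m Y.d) →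
    ∃ h, Hg (n + 1) X.p Y.p h ∧ f = A.m X.d * h + (s : ℤ) • (h * A.m Y.d)

/-- orthogonality in all degrees `n ≥ 0` -/
def Orth (X Y : Cx R) : Prop := ∀ n, 0 ≤ n → Nu A n X Y

/-- the generators of the upper class -/
def Ug (i : ℤ) (X : Cx R) : Prop := Ge X (-i) ∧ Le X.dual (-i)

/-- the generators of the lower class -/
def Vg (j : ℤ) (X : Cx R) : Prop := Le X (-j - 1) ∧ Ge X.dual (-j)

/-- the lower class -/
def Vc (Y : Cx R) : Prop := ∀ i X, Ug i X → Orth A X Y

/-- the upper class -/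
def Uc (X : Cx R) : Prop := ∀ Y, Vc A Y → Orth A X Y

/-- in the lower class, with dual in the upper class -/
def Wc (Y : Cx R) : Prop := Vc A Y ∧ Uc A Y.dual

/-- the complex has a decomposition -/
def Dec (X : Cx R) : Prop :=
  ∃ (U : Cx R) (t : Matrix U.I X.I R) (h : Ch U X t), Uc A U ∧ Wc A h.cone

/-- a twisted pair of complexes -/
structure Tw (s t : Bool) : Type 1 where
  a : Cx R
  b : Cx R
  ρ : Matrix a.I b.I Λ
  σ : Matrix b.I a.I Λ
  hρ : Bm A s 0 a.p b.p ρ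
  hσ : Bm A t 0 b.p a.p σ
  cρ : A.m a.d * ρ + ρ * A.m b.d = 0
  cσ : A.m b.d * σ + σ * A.m a.d = 0

variable {A} {s t : Bool}

/-- exchange of the two sides -/
abbrev Tw.swap (X : Tw A s t) : Tw A t s := ⟨X.b, X.a, X.σ, X.ρ, X.hσ, X.hρ, X.cσ, X.cρ⟩

/-- a map from a pure complex to the first side -/
structure Pc (X : Tw A s t) : Type 1 where
  T : Cx R
  j : Matrix T.I X.a.I R
  η : Matrix T.I X.b.I Λ
  ch : Ch T X.a j
  hη : Bm A s 1 T.p X.b.p η
  eq : A.m j * X.ρ + η * A.m X.b.d = A.m T.d * η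

/-- the cone of a pure piece -/
abbrev Pc.cone {X : Tw A s t} (P : Pc X) : Tw A s t where
  a := P.ch.cone
  b := X.b
  ρ := fromRows X.ρ P.η
  σ := fromCols X.σ 0
  hρ := bm_rows.2 ⟨X.hρ, P.hη.of fun k l e => by simp only; omega⟩
  hσ := bm_cols.2 ⟨X.hσ, bm_zero⟩
  cρ := by
    have := P.eq
    simp only [A.m_blocks, A.m_zero, A.m_neg, fromBlocks_mul_fromRows, fromRows_mul,
      Matrix.zero_mul, add_zero, Matrix.neg_mul, ← this]
    ext (k | k) l
    · exact congrFun (congrFun X.cρ k) l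
    · simp
  cσ := by
    simp only [A.m_blocks, A.m_zero, A.m_neg, fromCols_mul_fromBlocks, mul_fromCols,
      Matrix.zero_mul, Matrix.mul_zero, add_zero]
    ext k (l | l)
    · exact congrFun (congrFun X.cσ k) l
    · simp

/-- the pair is built from pure pieces, `n` of which lie in the upper class and the others in the
lower class -/
inductive Fl : ∀ {s t : Bool}, ℕ → Tw A s t → Prop
  | base {s t : Bool} (X : Tw A s t) : Acy X.a → Acy X.b → Fl 0 X
  | sw {s t : Bool} (X : Tw A s t) (n : ℕ) : Fl n X.swap → Fl n X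
  | v {s t : Bool} (X : Tw A s t) (P : Pc X) (n : ℕ) : Vc A P.T → Fl n P.cone → Fl n X
  | u {s t : Bool} (X : Tw A s t) (P : Pc X) (n : ℕ) : Uc A P.T → Fl n P.cone → Fl (n + 1) X

/-- a map of twisted pairs that is an isomorphism in homology -/
structure Mp (X Y : Tw A s t) where
  f : Matrix X.a.I Y.a.I R
  g : Matrix X.b.I Y.b.I R
  h : Matrix X.a.I Y.b.I Λ
  k : Matrix X.b.I Y.a.I Λ
  cf : Ch X.a Y.a f
  cg : Ch X.b Y.b g
  hh : Bm A s 1 X.a.p Y.b.p h
  hk : Bm A t 1 X.b.p Y.a.p k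
  eh : A.m X.a.d * h + X.ρ * A.m g = A.m f * Y.ρ + h * A.m Y.b.d
  ek : A.m X.b.d * k + X.σ * A.m f = A.m g * Y.σ + k * A.m Y.a.d
  qf : Qis f
  qg : Qis g

variable (A)

/-- a complex with a quadratic form on it and a quadratic form on its dual -/
structure Sd (ε : ℤˣ) (s t : Bool) : Type 1 where
  C : Cx R
  ψ : Matrix C.I C.I Λ
  φ : Matrix C.I C.I Λ
  hψ : Bm A s 0 C.p C.dual.p ψ
  hφ : Bm A t 0 C.dual.p C.p φ
  cψ : A.m C.d * sy ε ψ + sy ε ψ * A.m C.dᴴ = 0
  cφ : A.m C.dᴴ * sy ε φ + sy ε φ * A.m C.d = 0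

variable {A} {ε : ℤˣ}

/-- the underlying twisted pair -/
abbrev Sd.tw (X : Sd A ε s t) : Tw A s t where
  a := X.C
  b := X.C.dual
  ρ := sy ε X.ψ
  σ := sy ε X.φ
  hρ := X.hψ.add ((X.hψ.ct.of fun k l e => by simp only at e ⊢; omega).zsmul _)
  hσ := X.hφ.add ((X.hφ.ct.of fun k l e => by simp only at e ⊢; omega).zsmul _)
  cρ := X.cψ
  cσ := X.cφ

/-- the total form -/
def Sd.form (X : Sd A ε s t) : Matrix (X.C.I ⊕ X.C.I) (X.C.I ⊕ X.C.I) Λ := fromBlocks X.ψ 1 0 X.φ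

variable (A)

/-- nilpotent along filtrations defined over the small ring -/
def NilC [Fintype I] [Fintype J] (ρ : Matrix I J Λ) (σ : Matrix J I Λ) : Prop :=
  ∃ (Y : ℕ → Submodule R (I → R)) (Y' : ℕ → Submodule R (J → R)) (k : ℕ),
    Y 0 = ⊤ ∧ Y' 0 = ⊤ ∧ Y k = ⊥ ∧ Y' k = ⊥ ∧
    (∀ m, ∀ y ∈ Y m, (A.ι ∘ y) ᵥ* ρ ∈ Submodule.span Λ ((fun z => A.ι ∘ z) '' Y' (m + 1))) ∧
    ∀ m, ∀ y ∈ Y' m, (A.ι ∘ y) ᵥ* σ ∈ Submodule.span Λ ((fun z => A.ι ∘ z) '' Y (m + 1))

end Amb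

end Pool.Agent.Work.MP_9d1ffa_al.VN
end

-- merged part: Pool.Agent.Work.MP_9d1ffa_al.VRe
section
/-! Renumbering, merging of cones, isomorphisms in homology. -/

namespace Pool.Agent.Work.MP_9d1ffa_al.VN

open Matrix

set_option linter.unusedSectionVars false
set_option linter.unusedVariables false

variable {R : Type} [Ring R] {X Y Z X' Y' T U : Cx R} {k : ℤ}

theorem Re.refl (X : Cx R) : Re X X :=
  ⟨Equiv.refl _, 1, fun _ => rfl, by simp⟩

theorem Re.symm (h : Re X Y) : Re Y X := by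
  obtain ⟨e, s, h1, h2⟩ := h
  refine ⟨e.symm, s, fun i => by rw [h1, e.apply_symm_apply], ?_⟩
  ext i j
  rw [h2]
  simp only [Matrix.smul_apply, submatrix_apply, smul_smul, ← Units.val_mul, Int.units_mul_self,
    Units.val_one, one_smul, Equiv.apply_symm_apply]

theorem Re.trans (h : Re X Y) (h' : Re Y Z) : Re X Z := by
  obtain ⟨e, s, h1, h2⟩ := h
  obtain ⟨e', s', h1', h2'⟩ := h'
  refine ⟨e.trans e', s * s', fun i => by rw [h1, h1']; rfl, ?_⟩
  ext i j
  rw [h2, h2']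
  simp only [Matrix.smul_apply, submatrix_apply, smul_smul, Units.val_mul, Equiv.trans_apply]

theorem Re.dual [StarRing R] (h : Re X Y) : Re X.dual Y.dual := by
  obtain ⟨e, s, h1, h2⟩ := h
  refine ⟨e, s, fun i => congrArg Neg.neg (h1 i), ?_⟩
  ext i j
  simp only [h2, conjTranspose_apply, Matrix.smul_apply, submatrix_apply, star_zsmul]

theorem Re.ex (h : Re X Y) (e : Ex X k) : Ex Y k := by
  obtain ⟨f, s, h1, h2⟩ := h
  have key : ∀ w : X.I → R, w ᵥ* X.d = (s : ℤ) • (((w ∘ f.symm) ᵥ* Y.d) ∘ f) := fun w => by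
    rw [h2, vecMul_smul, submatrix_vecMul_equiv]
  intro v hv h0
  obtain ⟨w, hw⟩ := e (v ∘ f) (fun i hi => (h1 i).trans (hv _ hi)) (by
    rw [key, Function.comp_assoc, f.self_comp_symm, Function.comp_id, h0]
    simp)
  refine ⟨(s : ℤ) • (w ∘ f.symm), funext fun i => ?_⟩
  have := congrFun ((key w).symm.trans hw) (f.symm i)
  rw [smul_vecMul]
  simpa using this

theorem re_dual_dual [StarRing R] (X : Cx R) : Re X X.dual.dual :=
  ⟨Equiv.refl _, 1, fun _ => (neg_neg _).symm, by simp⟩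

theorem VRe_split {I J : Type} (v : I ⊕ J → R) : ∃ a b, v = Sum.elim a b :=
  ⟨_, _, (Sum.elim_comp_inl_inr v).symm⟩

theorem VRe_eq {I J : Type} {a c : I → R} {b d : J → R} :
    Sum.elim a b = Sum.elim c d ↔ a = c ∧ b = d :=
  ⟨fun h => ⟨funext fun i => congrFun h (Sum.inl i), funext fun i => congrFun h (Sum.inr i)⟩,
    fun h => by rw [h.1, h.2]⟩

theorem VRe_zero {I J : Type} {a : I → R} {b : J → R} : Sum.elim a b = 0 ↔ a = 0 ∧ b = 0 := by
  rw [← Sum.elim_zero_zero, VRe_eq]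

theorem VRe_blocks {I J K L : Type} [Fintype I] [Fintype J] (x : I → R) (y : J → R)
    (a : Matrix I K R) (b : Matrix I L R) (c : Matrix J K R) (d : Matrix J L R) :
    Sum.elim x y ᵥ* fromBlocks a b c d = Sum.elim (x ᵥ* a + y ᵥ* c) (x ᵥ* b + y ᵥ* d) :=
  vecMul_fromBlocks a b c d _

theorem VRe_add {I J : Type} (a c : I → R) (b d : J → R) :
    Sum.elim a b + Sum.elim c d = Sum.elim (a + c) (b + d) := by
  funext i
  cases i <;> rfl

theorem VRe_neg {I J : Type} (a : I → R) (b : J → R) : -Sum.elim a b = Sum.elim (-a) (-b) := by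
  funext i
  cases i <;> rfl

/-- A map `s = (a, b)` to a cone gives an extension mapping to `X` with the same cone. The
renumbering is `Equiv.sumAssoc` and the sign is `1`. -/
theorem merge {t : Matrix T.I X.I R} (h : Ch T X t) {s : Matrix U.I (X.I ⊕ T.I) R}
    (h' : Ch U h.cone s) : ∃ (g : Gl T U (-s.toCols₂)) (c : Ch g.ext X (fromRows t s.toCols₁)),
      Re c.cone h'.cone := by
  obtain ⟨a, b, rfl⟩ : ∃ a b, s = fromCols a b := ⟨_, _, (fromCols_toCols s).symm⟩
  obtain ⟨h1, h2⟩ := hg_cols.1 h'.1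
  have h3 : U.d * fromCols a b = fromCols a b * fromBlocks X.d 0 t (-T.d) := h'.2
  rw [mul_fromCols, fromCols_mul_fromBlocks, fromCols_ext_iff] at h3
  obtain ⟨h3, h4⟩ := h3
  have g : Gl T U (-b) := ⟨h2.neg.of fun k l e => by simp only at e; omega, by simp [h4]⟩
  have c : Ch g.ext X (fromRows t a) := ⟨hg_rows.2 ⟨h.1, h1⟩, by
    change fromBlocks T.d 0 (-b) U.d * fromRows t a = _
    rw [fromBlocks_mul_fromRows, fromRows_mul, h3, h.2]
    simp⟩
  refine ⟨g, c, (Equiv.sumAssoc _ _ _).symm, 1, ?_, ?_⟩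
  · rintro (i | i | i) <;> rfl
  · ext (i | i | i) (j | j | j) <;> simp

/-- The same for a map `s = (a, b)` to the dual of a cone: the cone of `s` is an extension of the
cone of `a` by `T.up.dual`, with gluing map `fromRows tᴴ b`. -/
theorem merge_dual [StarRing R] {t : Matrix T.I X.I R} (h : Ch T X.dual t)
    {s : Matrix U.I (X.I ⊕ T.I) R} (h' : Ch U h.cone.dual s) :
    ∃ (c : Ch U X s.toCols₁) (θ : Matrix c.cone.I T.up.dual.I R) (g : Gl T.up.dual c.cone θ),
      Re h'.cone g.ext := by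
  obtain ⟨a, b, rfl⟩ : ∃ a b, s = fromCols a b := ⟨_, _, (fromCols_toCols s).symm⟩
  have h1 : Hg 0 U.p X.p a := fun k l e => by
    have := h'.1 k (Sum.inl l) e
    simpa using this
  have h2 : ∀ k l, b k l ≠ 0 → -(T.p l + 1) = U.p k + 0 := fun k l e => h'.1 k (Sum.inr l) e
  have h3 : U.d * fromCols a b = fromCols a b * (fromBlocks X.dᴴ 0 t (-T.d))ᴴ := h'.2
  rw [fromBlocks_conjTranspose, mul_fromCols, fromCols_mul_fromBlocks, fromCols_ext_iff] at h3
  obtain ⟨h3, h4⟩ := h3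
  have h5 : tᴴ * T.dᴴ = X.d * tᴴ := by
    have := congrArg conjTranspose h.2
    simpa [conjTranspose_mul] using this
  have c : Ch U X a := ⟨h1, by simpa using h3⟩
  have g : Gl T.up.dual c.cone (fromRows tᴴ b) := by
    refine ⟨hg_rows.2 ⟨h.1.ct.of fun k l e => ?_, fun k l e => ?_⟩, ?_⟩
    · simp only at e ⊢
      omega
    · have := h2 k l e
      simp only
      omega
    · change fromRows tᴴ b * (-T.d)ᴴ + fromBlocks X.d 0 a (-U.d) * fromRows tᴴ b = 0
      rw [fromBlocks_mul_fromRows, fromRows_mul, Matrix.neg_mul, h4, ← h5]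
      ext (i | i) j <;> simp
  refine ⟨c, _, g, ((Equiv.sumComm _ _).sumCongr (Equiv.refl _)).trans (Equiv.sumAssoc _ _ _), 1,
    ?_, ?_⟩
  · rintro ((i | i) | i)
    exacts [neg_neg _, rfl, rfl]
  · ext ((i | i) | i) ((j | j) | j) <;> simp

theorem acy_cone_one (X : Cx R) : Acy (ch_one X).cone := by
  intro k v _ h0
  obtain ⟨y, x, rfl⟩ := VRe_split v
  rw [VRe_blocks, VRe_zero, vecMul_one] at h0
  refine ⟨Sum.elim 0 y, ?_⟩
  rw [VRe_blocks, eq_neg_of_add_eq_zero_right h0.1]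
  simp [vecMul_neg]

theorem qis_of_inv {f : Matrix X.I Y.I R} (hf : Ch X Y f) (g : Matrix Y.I X.I R) (h1 : f * g = 1)
    (h2 : g * f = 1) : Qis f := by
  intro x y _ hy
  have h3 : g * X.d = Y.d * g := by
    rw [← Matrix.mul_one (g * X.d), ← h1, Matrix.mul_assoc, ← Matrix.mul_assoc X.d, hf.2,
      ← Matrix.mul_assoc, ← Matrix.mul_assoc, h2, Matrix.one_mul]
  refine ⟨y ᵥ* g, 0, ?_, ?_⟩
  · rw [vecMul_vecMul, h3, ← vecMul_vecMul, hy, vecMul_vecMul, h1, vecMul_one]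
  · rw [vecMul_vecMul, h2, vecMul_one, zero_vecMul, add_zero]

theorem qis_one (X : Cx R) : Qis (X := X) (Y := X) 1 :=
  qis_of_inv (ch_one X) 1 (Matrix.mul_one _) (Matrix.mul_one _)

/-- decompose a cycle into homogeneous parts, or use `pj_vecMul` -/
theorem Acy.all (h : Acy X) (v : X.I → R) (hv : v ᵥ* X.d = 0) : ∃ w, w ᵥ* X.d = v := by
  have h1 : ∀ k, ∃ w, w ᵥ* X.d = pj X.p k v := fun k => h k _ (vd_pj v) (by
    rw [← pj_vecMul v X.hd rfl, hv, vd_zero.pj_eq])
  choose w hw using h1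
  refine ⟨∑ k ∈ Finset.univ.image X.p, w k, ?_⟩
  rw [sum_vecMul]
  funext i
  simp [hw, pj, Finset.sum_apply]

theorem Qis.acy {f : Matrix X.I Y.I R} (hf : Ch X Y f) (h : Qis f) (a : Acy X) : Acy Y := by
  intro k v _ hv
  obtain ⟨x, b, h1, h2⟩ := h 0 v (zero_vecMul _) (by rw [hv, zero_vecMul])
  obtain ⟨w, rfl⟩ := a.all x h1
  exact ⟨w ᵥ* f + b, by rw [add_vecMul, vecMul_vecMul, ← hf.2, ← vecMul_vecMul, h2]⟩

/-- the induced map of cones -/
theorem ch_cone {j : Matrix T.I X.I R} (h : Ch T X j) {f : Matrix X.I Y.I R} (hf : Ch X Y f) :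
    Ch h.cone (h.mul hf).cone (fromBlocks f 0 0 1) :=
  ⟨hg_blocks.2 ⟨hf.1, hg_zero, hg_zero, hg_one⟩, by simp [fromBlocks_multiply, hf.2]⟩

theorem Qis.cone {j : Matrix T.I X.I R} (h : Ch T X j) {f : Matrix X.I Y.I R} (hf : Ch X Y f)
    (q : Qis f) : Qis (X := h.cone) (Y := (h.mul hf).cone) (fromBlocks f 0 0 1) := by
  intro x y hx hy
  obtain ⟨x1, x2, rfl⟩ := VRe_split x
  obtain ⟨y1, y2, rfl⟩ := VRe_split y
  simp only [VRe_blocks, VRe_zero, VRe_eq, vecMul_zero, vecMul_one, vecMul_neg, zero_add,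
    add_zero] at hx hy
  obtain ⟨a, b, h1, h2⟩ := q (x1 - y2 ᵥ* j) y1 (by
    rw [sub_vecMul, vecMul_vecMul, ← h.2, ← vecMul_vecMul, ← hx.1, ← hy.2, neg_vecMul,
      sub_eq_add_neg]) (by rw [sub_vecMul, ← hy.1, vecMul_vecMul, add_sub_cancel_right])
  refine ⟨Sum.elim a y2, Sum.elim b 0, ?_, ?_⟩
  · simp [VRe_blocks, h1, vecMul_neg, hy.2]
  · simp [VRe_blocks, VRe_add, h2]

/-- the map from the cone of `t` to the cone of `t * j` -/
theorem ch_split {j : Matrix T.I X.I R} (h : Ch T X j) {t : Matrix U.I T.I R} (ht : Ch U T t) :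
    Ch ht.cone (ht.mul h).cone (fromBlocks j 0 0 1) :=
  ch_cone ht h

/-- the octahedron: the cone of `j` is a subcomplex of the iterated cone -/
theorem ch_oct {j : Matrix T.I X.I R} (h : Ch T X j) {t : Matrix U.I T.I R} (ht : Ch U T t) :
    Ch h.cone (ch_split h ht).cone (fromBlocks (fromCols 1 0) 0 0 (fromCols 1 0)) := by
  refine ⟨hg_blocks.2 ⟨hg_cols.2 ⟨hg_one, hg_zero⟩, hg_zero, hg_zero, ?_⟩, ?_⟩
  · refine (hg_cols.2 ⟨hg_one (p := T.p), hg_zero (q := U.up.p)⟩).of fun k l e => ?_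
    exact (congrArg (· + 1) e).trans (by simp)
  · simp [fromBlocks_multiply, fromBlocks_neg, mul_fromCols, fromCols_mul_fromBlocks]

theorem qis_oct {j : Matrix T.I X.I R} (h : Ch T X j) {t : Matrix U.I T.I R} (ht : Ch U T t) :
    Qis (X := h.cone) (Y := (ch_split h ht).cone)
      (fromBlocks (fromCols 1 0) 0 0 (fromCols 1 0)) := by
  intro x y _ hy
  obtain ⟨x1, x2, rfl⟩ := VRe_split x
  obtain ⟨y, y', rfl⟩ := VRe_split y
  obtain ⟨y1, y2, rfl⟩ := VRe_split y
  obtain ⟨y3, y4, rfl⟩ := VRe_split y'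
  simp only [VRe_blocks, VRe_eq, VRe_add, VRe_neg, vecMul_zero, vecMul_one, vecMul_neg, zero_add,
    add_zero, vecMul_fromCols] at hy
  obtain ⟨⟨h1, h2⟩, h3, -⟩ := hy
  obtain rfl : y2 ᵥ* U.d = y4 := neg_add_eq_zero.1 h2
  refine ⟨Sum.elim y1 (y3 + y2 ᵥ* t), Sum.elim (Sum.elim 0 0) (Sum.elim 0 y2), ?_, ?_⟩
  · simp only [VRe_blocks, VRe_eq, vecMul_zero, vecMul_neg, zero_add, add_vecMul, vecMul_vecMul,
      ← h1, ← h3, ht.2]
    exact ⟨by abel, trivial⟩
  · simp [VRe_blocks, VRe_add, VRe_neg, vecMul_neg, vecMul_fromCols]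

/-- `T.up.dual` is a subcomplex of the dual of the cone -/
theorem ch_sub [StarRing R] {j : Matrix T.I X.I R} (h : Ch T X j) :
    Ch T.up.dual h.cone.dual (fromCols 0 1) := by
  refine ⟨fun k l e => ?_, ?_⟩
  · rcases l with l | l
    · exact (e rfl).elim
    · exact hg_one (p := T.up.dual.p) k l e
  · simp [fromBlocks_conjTranspose, mul_fromCols, fromCols_mul_fromBlocks]

theorem ch_quo [StarRing R] {j : Matrix T.I X.I R} (h : Ch T X j) :
    Ch X.dual (ch_sub h).cone (fromCols (fromCols 1 0) (-jᴴ)) := by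
  refine ⟨hg_cols.2 ⟨fun k l e => ?_, h.1.ct.neg.of fun k l e => ?_⟩, ?_⟩
  · rcases l with l | l
    · exact hg_one (p := X.dual.p) k l e
    · exact (e rfl).elim
  · simp only at e ⊢
    omega
  · have h5 : jᴴ * T.dᴴ = X.dᴴ * jᴴ := by
      rw [← conjTranspose_mul, h.2, conjTranspose_mul]
    simp only [fromBlocks_conjTranspose, mul_fromCols, fromCols_mul_fromBlocks]
    ext i ((l | l) | l) <;> simp [h5]

theorem qis_quo [StarRing R] {j : Matrix T.I X.I R} (h : Ch T X j) :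
    Qis (X := X.dual) (Y := (ch_sub h).cone) (fromCols (fromCols 1 0) (-jᴴ)) := by
  intro x y _ hy
  obtain ⟨y, y3, rfl⟩ := VRe_split y
  obtain ⟨y1, y2, rfl⟩ := VRe_split y
  simp only [fromBlocks_conjTranspose, conjTranspose_zero, VRe_blocks, VRe_eq, VRe_add,
    vecMul_zero, vecMul_one, vecMul_neg, zero_add, add_zero, vecMul_fromCols] at hy
  refine ⟨y1, Sum.elim (Sum.elim 0 0) y2, hy.1.1, ?_⟩
  simp only [fromBlocks_conjTranspose, conjTranspose_zero, VRe_blocks, VRe_eq, VRe_add,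
    vecMul_zero, vecMul_one, vecMul_neg, zero_add, add_zero, vecMul_fromCols, zero_vecMul,
    true_and, and_self]
  rw [← neg_add]
  exact neg_eq_of_add_eq_zero_right hy.1.2

end Pool.Agent.Work.MP_9d1ffa_al.VN
end
end

-- merged part: Pool.Agent.Work.MP_9d1ffa_al.VOr1
section
/-! Formal properties of orthogonality. -/

namespace Pool.Agent.Work.MP_9d1ffa_al.VN

open Matrix

set_option linter.unusedSectionVars false
set_option linter.unusedVariables false

variable {R Λ : Type} [Ring R] [StarRing R] [Ring Λ] [StarRing Λ] {A : Amb R Λ}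
  {X Y X' Y' S Q T W : Cx R} {n : ℤ}

theorem VOr1_nu : Nu A n X Y ↔ ∀ (s : ℤˣ) (f : Matrix X.I Y.I Λ), Hg n X.p Y.p f →
    A.m X.d * f = (s : ℤ) • (f * A.m Y.d) → ∃ h : Matrix X.I Y.I Λ, Hg (n + 1) X.p Y.p h ∧
      f = A.m X.d * h + (s : ℤ) • (h * A.m Y.d) := Iff.rfl

theorem VOr1_ss {M : Type} [AddCommGroup M] (s : ℤˣ) (x : M) : (s : ℤ) • (s : ℤ) • x = x := by
  rw [smul_smul, ← Units.val_mul, Int.units_mul_self, Units.val_one, one_smul]

theorem VOr1_gl {θ : Matrix Q.I S.I R} (g : Gl S Q θ) :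
    A.m Q.d * A.m θ = -(A.m θ * A.m S.d) := by
  rw [← A.m_mul, ← A.m_mul, ← A.m_neg, eq_neg_of_add_eq_zero_right g.2]

theorem VOr1_ch {j : Matrix T.I Y.I R} (c : Ch T Y j) : A.m T.d * A.m j = A.m j * A.m Y.d := by
  rw [← A.m_mul, ← A.m_mul, c.2]

theorem VOr1_cols {θ : Matrix Q.I S.I R} (g : Gl S Q θ) {I : Type} (a : Matrix I S.I Λ)
    (b : Matrix I Q.I Λ) (s : ℤ) : s • (fromCols a b * A.m g.ext.d) =
      fromCols (s • (a * A.m S.d + b * A.m θ)) (s • (b * A.m Q.d)) := by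
  simp only [A.m_blocks, A.m_zero, fromCols_mul_fromBlocks, Matrix.mul_zero, zero_add]
  ext k (l | l) <;> rfl

theorem VOr1_add_cols {I J K : Type} (a a' : Matrix I J Λ) (b b' : Matrix I K Λ) :
    fromCols a b + fromCols a' b' = fromCols (a + a') (b + b') := by
  ext k (l | l) <;> rfl

theorem VOr1_rows {I J K L : Type} [Fintype K] (a : Matrix I K Λ) (b : Matrix J K Λ)
    (d : Matrix K L Λ) (s : ℤ) :
    s • (fromRows a b * d) = fromRows (s • (a * d)) (s • (b * d)) := by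
  rw [fromRows_mul]
  ext (k | k) l <;> rfl

theorem VOr1_add_rows {I J K : Type} (a a' : Matrix I K Λ) (b b' : Matrix J K Λ) :
    fromRows a b + fromRows a' b' = fromRows (a + a') (b + b') := by
  ext (k | k) l <;> rfl

theorem Nu.re (h : Nu A n X Y) (hX : Re X X') (hY : Re Y Y') : Nu A n X' Y' := by
  obtain ⟨e, a, hp, hd⟩ := hX
  obtain ⟨e', b, hp', hd'⟩ := hY
  rw [VOr1_nu] at h ⊢
  intro s f hf ef
  have m1 : A.m X.d = (a : ℤ) • (A.m X'.d).submatrix e e := by rw [hd, A.m_zsmul]; rfl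
  have m2 : A.m Y.d = (b : ℤ) • (A.m Y'.d).submatrix e' e' := by rw [hd', A.m_zsmul]; rfl
  obtain ⟨k, hk, ek⟩ := h (a * s * b) (f.submatrix e e')
    (fun i j h => by rw [hp, hp']; exact hf _ _ h) (by
      rw [m1, m2, Matrix.smul_mul, Matrix.mul_smul, submatrix_mul_equiv, submatrix_mul_equiv, ef,
        Units.val_mul, mul_smul, VOr1_ss, Units.val_mul, mul_smul]
      rfl)
  obtain ⟨k, rfl⟩ : ∃ k' : Matrix X'.I Y'.I Λ, k = k'.submatrix e e' :=
    ⟨k.submatrix e.symm e'.symm, by simp⟩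
  rw [m1, m2, Matrix.smul_mul, Matrix.mul_smul, submatrix_mul_equiv, submatrix_mul_equiv,
    Units.val_mul, mul_smul, VOr1_ss, Units.val_mul, mul_smul, ← smul_add] at ek
  refine ⟨(a : ℤ) • k, Hg.smul (fun i j h => ?_) _, ?_⟩
  · have := hk (e.symm i) (e'.symm j) (by simpa using h)
    rwa [hp, hp', e.apply_symm_apply, e'.apply_symm_apply] at this
  · rw [Matrix.mul_smul, Matrix.smul_mul, smul_comm (s : ℤ), ← smul_add]
    ext i j
    simpa using congrFun (congrFun ek (e.symm i)) (e'.symm j)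

/-- apply `h` to `fᴴ` and take `s • hᴴ` -/
theorem Nu.dual (h : Nu A n X Y) : Nu A n Y.dual X.dual := by
  rw [VOr1_nu] at h ⊢
  intro s f hf e
  simp only [A.m_ct] at e ⊢
  obtain ⟨k, hk, ek⟩ := h s fᴴ (hf.ct.of fun k l e => by simp only at e; omega) (by
    have := congrArg conjTranspose e
    rw [conjTranspose_mul, conjTranspose_zsmul, conjTranspose_mul, conjTranspose_conjTranspose,
      conjTranspose_conjTranspose] at this
    rw [this, VOr1_ss])
  refine ⟨(s : ℤ) • kᴴ, hk.ct.smul _, ?_⟩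
  have := congrArg conjTranspose ek
  rw [conjTranspose_conjTranspose, conjTranspose_add, conjTranspose_zsmul, conjTranspose_mul,
    conjTranspose_mul] at this
  rw [Matrix.mul_smul, Matrix.smul_mul, VOr1_ss, this, add_comm]

theorem nu_up_dual : Nu A n X Y.up.dual ↔ Nu A (n + 1) X Y.dual := by
  have m : A.m Y.up.dual.d = -A.m Y.dual.d := by
    rw [← A.m_neg]
    exact congrArg _ (conjTranspose_neg _)
  rw [VOr1_nu, VOr1_nu]
  constructor
  · intro h s f hf e
    obtain ⟨k, hk, ek⟩ := h (-s) f (hf.of fun k l e => by simp only at e ⊢; omega) (by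
      rw [m, e, Matrix.mul_neg, Units.val_neg, neg_smul_neg])
    rw [m, Matrix.mul_neg, Units.val_neg, neg_smul_neg] at ek
    exact ⟨k, hk.of fun k l e => by simp only at e ⊢; omega, ek⟩
  · intro h s f hf e
    obtain ⟨k, hk, ek⟩ := h (-s) f (hf.of fun k l e => by simp only at e ⊢; omega) (by
      rw [e, m, Matrix.mul_neg, Units.val_neg, neg_smul, smul_neg])
    refine ⟨k, hk.of fun k l e => by simp only at e ⊢; omega, ?_⟩
    rw [m, Matrix.mul_neg, smul_neg, ← neg_smul, ← Units.val_neg]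
    exact ek

/-- the homotopy can be projected to the bimodule with `A.β i` -/
theorem Nu.bm (h : Nu A n X Y) {i : Bool} (s : ℤˣ) {f : Matrix X.I Y.I Λ}
    (hf : Bm A i n X.p Y.p f) (e : A.m X.d * f = (s : ℤ) • (f * A.m Y.d)) :
    ∃ h, Bm A i (n + 1) X.p Y.p h ∧ f = A.m X.d * h + (s : ℤ) • (h * A.m Y.d) := by
  obtain ⟨k, hk, ek⟩ := VOr1_nu.1 h s f hf.1 e
  refine ⟨k.map (A.β i), ⟨hk.map _ (map_zero _), fun a b => A.β_mem _ _⟩, ?_⟩
  ext a b
  rw [← A.β_id i _ (hf.2 a b), congrFun (congrFun ek a) b]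
  simp only [Matrix.add_apply, Matrix.smul_apply, mul_apply, map_add, map_zsmul, map_sum,
    A.m_apply, A.β_left, A.β_right, map_apply]

/-- For `f = (f₁, f₂)` with `f₂ = d h₂ + s h₂ d`, the map `f₁ - s h₂ θ` is a chain map to `S`. -/
theorem Nu.ext_right {θ : Matrix Q.I S.I R} (g : Gl S Q θ) (h : Nu A n W S) (h' : Nu A n W Q) :
    Nu A n W g.ext := by
  rw [VOr1_nu] at h h' ⊢
  intro s f hf e
  obtain ⟨f₁, f₂, rfl⟩ : ∃ f₁ f₂, f = fromCols f₁ f₂ := ⟨_, _, (fromCols_toCols f).symm⟩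
  rw [VOr1_cols, mul_fromCols, fromCols_ext_iff] at e
  obtain ⟨h₂, k₂, e₂⟩ := h' s f₂ (hg_cols.1 hf).2 e.2
  obtain ⟨h₁, k₁, e₁⟩ := h s (f₁ - (s : ℤ) • (h₂ * A.m θ))
    ((hg_cols.1 hf).1.sub ((k₂.mul (g.1.m A) (by omega)).smul _)) (by
      rw [Matrix.mul_sub, e.1, e₂]
      simp only [Matrix.add_mul, Matrix.sub_mul, Matrix.smul_mul, Matrix.mul_smul,
        Matrix.mul_assoc, VOr1_gl g, Matrix.mul_neg]
      module)
  refine ⟨fromCols h₁ h₂, hg_cols.2 ⟨k₁, k₂⟩, ?_⟩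
  rw [VOr1_cols, mul_fromCols, VOr1_add_cols, ← e₂, smul_add, ← add_assoc, ← e₁, sub_add_cancel]

theorem Nu.ext_left {θ : Matrix Q.I S.I R} (g : Gl S Q θ) (h : Nu A n S W) (h' : Nu A n Q W) :
    Nu A n g.ext W := by
  rw [VOr1_nu] at h h' ⊢
  intro s f hf e
  obtain ⟨f₁, f₂, rfl⟩ : ∃ f₁ f₂, f = fromRows f₁ f₂ := ⟨_, _, (fromRows_toRows f).symm⟩
  simp only [VOr1_rows, A.m_blocks, A.m_zero, fromBlocks_mul_fromRows, Matrix.zero_mul, add_zero,
    fromRows_ext_iff] at e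
  obtain ⟨h₁, k₁, e₁⟩ := h s f₁ (hg_rows.1 hf).1 e.1
  obtain ⟨h₂, k₂, e₂⟩ := h' s (f₂ - A.m θ * h₁)
    ((hg_rows.1 hf).2.sub ((g.1.m A).mul k₁ (by omega))) (by
      rw [Matrix.mul_sub, Matrix.sub_mul, smul_sub, ← e.2, ← Matrix.mul_assoc, VOr1_gl g, e₁]
      simp only [Matrix.mul_add, Matrix.mul_smul, Matrix.mul_assoc, Matrix.neg_mul]
      module)
  refine ⟨fromRows h₁ h₂, hg_rows.2 ⟨k₁, k₂⟩, ?_⟩
  simp only [VOr1_rows, A.m_blocks, A.m_zero, fromBlocks_mul_fromRows, Matrix.zero_mul, add_zero,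
    VOr1_add_rows]
  rw [← e₁, add_assoc, ← e₂, add_sub_cancel]

/-- For `f : W → Y`, a null homotopy `(h₁, g)` of `(f, 0)` gives a chain map `g : W → T`. -/
theorem Nu.of_cone {j : Matrix T.I Y.I R} (c : Ch T Y j) (h : Nu A n W c.cone) (h' : Nu A n W T) :
    Nu A n W Y := by
  rw [VOr1_nu] at h h' ⊢
  intro s f hf e
  obtain ⟨k, hk, ek⟩ := h s (fromCols f 0) (hg_cols.2 ⟨hf, hg_zero⟩) (by
    rw [VOr1_cols, mul_fromCols, e]
    simp)
  obtain ⟨h₁, g, rfl⟩ : ∃ f₁ f₂, k = fromCols f₁ f₂ := ⟨_, _, (fromCols_toCols k).symm⟩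
  rw [VOr1_cols, mul_fromCols, VOr1_add_cols, fromCols_ext_iff, A.m_neg, Matrix.mul_neg,
    smul_neg] at ek
  obtain ⟨u, hu, eu⟩ := h' s g ((hg_cols.1 hk).2.of fun k l e => by simp only at e ⊢; omega)
    (add_neg_eq_zero.1 ek.2.symm)
  refine ⟨h₁ + (s : ℤ) • (u * A.m j),
    (hg_cols.1 hk).1.add ((hu.mul (c.1.m A) (by omega)).smul _), ?_⟩
  rw [ek.1, eu]
  simp only [Matrix.add_mul, Matrix.mul_add, Matrix.smul_mul, Matrix.mul_smul, Matrix.mul_assoc,
    VOr1_ch c]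
  module

/-- For `f : W → Q` the map `f θ : W → S` has degree `n - 1` and the opposite sign; a null homotopy
of it lifts `f` to the extension. -/
theorem Nu.of_ext {θ : Matrix Q.I S.I R} (g : Gl S Q θ) (h : Nu A n W g.ext)
    (h' : Nu A (n - 1) W S) : Nu A n W Q := by
  rw [VOr1_nu] at h h' ⊢
  intro s f hf e
  obtain ⟨k, hk, ek⟩ := h' (-s) (f * A.m θ) (hf.mul (g.1.m A) (by omega)) (by
    rw [← Matrix.mul_assoc, e, Matrix.smul_mul, Matrix.mul_assoc, VOr1_gl g, Matrix.mul_neg,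
      Units.val_neg, neg_smul, smul_neg, Matrix.mul_assoc])
  obtain ⟨u, hu, eu⟩ := h s (fromCols ((s : ℤ) • k) f)
    (hg_cols.2 ⟨(hk.of fun k l e => by omega).smul _, hf⟩) (by
      rw [VOr1_cols, mul_fromCols, e, ek, Matrix.mul_smul, Matrix.smul_mul, Units.val_neg,
        neg_smul, add_comm (A.m W.d * k), add_neg_cancel_left])
  obtain ⟨h₁, h₂, rfl⟩ : ∃ f₁ f₂, u = fromCols f₁ f₂ := ⟨_, _, (fromCols_toCols u).symm⟩
  rw [VOr1_cols, mul_fromCols, VOr1_add_cols, fromCols_ext_iff] at eu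
  exact ⟨h₂, (hg_cols.1 hu).2, eu.2⟩

/-- If `t : U → X` and `X → cone t` are null homotopic then `X` is contractible: a null homotopy
`(h₁, g)` of `(1, 0)` gives `1 = d h₁ + h₁ d + g t`, and `t = d k + k d`. Finally project with
`A.π`. -/
theorem contr_of_nu {U : Cx R} {t : Matrix U.I X.I R} (c : Ch U X t) (h : Nu A 0 U X)
    (h' : Nu A 0 X c.cone) : ∃ k : Matrix X.I X.I R, X.d * k + k * X.d = 1 := by
  rw [VOr1_nu] at h h'
  obtain ⟨k, -, ek⟩ := h 1 (A.m t) (c.1.m A) (by rw [VOr1_ch c, Units.val_one, one_smul])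
  obtain ⟨u, -, eu⟩ := h' 1 (fromCols 1 0) (hg_cols.2 ⟨hg_one, hg_zero⟩) (by
    rw [VOr1_cols, mul_fromCols]
    simp)
  obtain ⟨h₁, g, rfl⟩ : ∃ f₁ f₂, u = fromCols f₁ f₂ := ⟨_, _, (fromCols_toCols u).symm⟩
  rw [VOr1_cols, mul_fromCols, VOr1_add_cols, fromCols_ext_iff, A.m_neg, Matrix.mul_neg,
    Units.val_one, one_smul, one_smul] at eu
  rw [Units.val_one, one_smul] at ek
  have e : A.m X.d * (h₁ + g * k) + (h₁ + g * k) * A.m X.d = 1 := by
    rw [eu.1, ek, Matrix.mul_add, ← Matrix.mul_assoc, add_neg_eq_zero.1 eu.2.symm]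
    simp only [Matrix.add_mul, Matrix.mul_add, Matrix.mul_assoc]
    abel
  refine ⟨(h₁ + g * k).map A.π, ?_⟩
  generalize h₁ + g * k = v at e
  rw [← A.m_one] at e
  ext a b
  rw [← A.π_ι ((1 : Matrix X.I X.I R) a b), ← A.m_apply, ← e]
  simp only [Matrix.add_apply, mul_apply, map_add, map_sum, A.m_apply, A.π_left, A.π_right,
    map_apply]

end Pool.Agent.Work.MP_9d1ffa_al.VN
end

-- merged part: Pool.Agent.Work.MP_9d1ffa_al.VFin
section
-- merged part: Pool.Agent.Work.MP_9d1ffa_al.VOr2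
section
/-! Partial contractions and the basic orthogonality. -/

namespace Pool.Agent.Work.MP_9d1ffa_al.VN

open Matrix

set_option linter.unusedSectionVars false
set_option linter.unusedVariables false

theorem VOr2_row {S I J K : Type} [Ring S] [Fintype J] {d : Matrix I J S} {W : Matrix J K S} {i : I}
    (h : ∀ j, d i j ≠ 0 → W j = 0) : (d * W) i = 0 := by
  funext l
  refine (mul_apply ..).trans (Finset.sum_eq_zero fun j _ => ?_)
  by_cases e : d i j = 0
  · rw [e, zero_mul]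
  · rw [h j e, Pi.zero_apply, mul_zero]

section

variable {A R : Type} [CommRing A] [Ring R] [Algebra A R]

/-- exact in degree `k` after inverting `S` -/
def ExS (S : Submonoid A) (X : Cx R) (k : ℤ) : Prop :=
  ∀ v, Vd X.p k v → v ᵥ* X.d = 0 → ∃ s ∈ S, ∃ w, w ᵥ* X.d = s • v

/-- Induction on `b` starting below all degrees (`exists_bound`). Given `s, h` for `b`, the matrix
`e = s • 1 - (d h + h d)` commutes with `d` and its rows of degree `< b` vanish, so its rows of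
degree `b` are cycles: `sᵢ • eᵢ = wᵢ d` with `wᵢ` homogeneous (`pj`). Take `s' = ∏ sᵢ` and
`h' = s' • h + W`, where `W` has the rows `(s' / sᵢ) • wᵢ` in degree `b` and `0` elsewhere. -/
theorem contr (S : Submonoid A) (X : Cx R) (b : ℤ) (h : ∀ k, k < b → ExS S X k) :
    ∃ s ∈ S, ∃ h : Matrix X.I X.I R, Hg 1 X.p X.p h ∧
      ∀ i, X.p i < b → (X.d * h + h * X.d) i = (s • (1 : Matrix X.I X.I R)) i := by
  obtain ⟨N, hN⟩ := exists_bound X.p
  have base : ∀ b : ℤ, b ≤ -N → ∃ s ∈ S, ∃ h : Matrix X.I X.I R, Hg 1 X.p X.p h ∧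
      ∀ i, X.p i < b → (X.d * h + h * X.d) i = (s • (1 : Matrix X.I X.I R)) i := fun b hb =>
    ⟨1, S.one_mem, 0, hg_zero, fun i hi => by have := (hN i).1; omega⟩
  rcases le_total b (-N) with hb | hb
  · exact base b hb
  induction b, hb using Int.leInduction with
  | base => exact base _ le_rfl
  | succ b hb ih =>
    obtain ⟨s, hs, g, hg, e⟩ := ih fun k hk => h k (by omega)
    obtain ⟨E, hE⟩ : ∃ E, E = s • (1 : Matrix X.I X.I R) - (X.d * g + g * X.d) := ⟨_, rfl⟩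
    have hE0 : Hg 0 X.p X.p E := hE ▸
      (hg_one.smul s).sub ((X.hd.mul hg (by simp)).add (hg.mul X.hd (by simp)))
    have hE1 : ∀ i, X.p i < b → E i = 0 := fun i hi => by
      rw [hE]
      exact sub_eq_zero.2 (e i hi).symm
    have hE2 : E * X.d = X.d * E := by
      rw [hE, Matrix.sub_mul, Matrix.mul_sub, Matrix.add_mul, Matrix.mul_add, Matrix.smul_mul,
        Matrix.mul_smul, Matrix.mul_assoc g, ← Matrix.mul_assoc X.d X.d, X.dd, Matrix.mul_assoc]
      simp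
    have key : ∀ i, ∃ t ∈ S, ∃ w, Vd X.p (X.p i + 1) w ∧ (X.p i < b → w = 0) ∧
        (X.p i ≤ b → w ᵥ* X.d = t • E i) := fun i => by
      by_cases hi : X.p i = b
      · have hv : Vd X.p b (E i) := by simpa [hi] using hE0.row i
        obtain ⟨t, ht, w, hw⟩ := h b (by omega) (E i) hv (by
          rw [← mul_apply_eq_vecMul, hE2]
          exact VOr2_row fun j hj => hE1 j (by have := X.hd i j hj; omega))
        refine ⟨t, ht, pj X.p (X.p i + 1) w, vd_pj w, fun h' => by omega, fun _ => ?_⟩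
        rw [← pj_vecMul w X.hd (c := b) (by omega), hw, (hv.smul t).pj_eq]
      · exact ⟨1, S.one_mem, 0, vd_zero, fun _ => rfl, fun h' => by
          rw [hE1 i (by omega), zero_vecMul, smul_zero]⟩
    choose t ht w hw1 hw2 hw3 using key
    obtain ⟨W, hW⟩ : ∃ W : Matrix X.I X.I R, ∀ i, W i = (∏ j ∈ Finset.univ.erase i, t j) • w i :=
      ⟨Matrix.of fun i => (∏ j ∈ Finset.univ.erase i, t j) • w i, fun _ => rfl⟩
    refine ⟨(∏ j, t j) * s, S.mul_mem (S.prod_mem fun j _ => ht j) hs, (∏ j, t j) • g + W,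
      (hg.smul _).add fun i l hl => ((hw1 i).smul _) l (hW i ▸ hl), fun i hi => ?_⟩
    have h1 : (X.d * W) i = 0 := VOr2_row fun j hj => by
      rw [hW, hw2 j (by have := X.hd i j hj; omega), smul_zero]
    have h2 : (W * X.d) i = ((∏ j, t j) • E) i := by
      rw [mul_apply_eq_vecMul, hW, smul_vecMul, hw3 i (by omega), smul_smul,
        Finset.prod_erase_mul _ _ (Finset.mem_univ i)]
      rfl
    have h3 : X.d * ((∏ j, t j) • g + W) + ((∏ j, t j) • g + W) * X.d =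
        ((∏ j, t j) * s) • (1 : Matrix X.I X.I R) + (X.d * W + (W * X.d - (∏ j, t j) • E)) := by
      rw [hE, Matrix.mul_add, Matrix.add_mul, Matrix.smul_mul, Matrix.mul_smul, smul_sub, smul_add,
        smul_smul]
      abel
    rw [h3]
    change _ + ((X.d * W) i + ((W * X.d) i - ((∏ j, t j) • E) i)) = _
    rw [h1, h2, sub_self, add_zero, add_zero]

end

theorem contr_one {R : Type} [Ring R] {X : Cx R} {b : ℤ} (h : Ge X b) :
    ∃ h : Matrix X.I X.I R, Hg 1 X.p X.p h ∧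
      ∀ i, X.p i < b → (X.d * h + h * X.d) i = (1 : Matrix X.I X.I R) i := by
  obtain ⟨s, hs, g, hg, e⟩ := contr (⊥ : Submonoid ℤ) X b fun k hk v hv h0 => by
    obtain ⟨w, hw⟩ := h k hk v hv h0
    exact ⟨1, Submonoid.one_mem _, w, by rw [one_smul, hw]⟩
  rw [Submonoid.mem_bot.1 hs, one_smul] at e
  exact ⟨g, hg, e⟩

variable {R Λ : Type} [Ring R] [StarRing R] [Ring Λ] [StarRing Λ] {A : Amb R Λ}
  {X Y : Cx R}

theorem Ex.ext (A : Amb R Λ) {k : ℤ} (h : Ex X k) {v : X.I → Λ} (hv : Vd X.p k v)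
    (h0 : v ᵥ* A.m X.d = 0) : ∃ w, Vd X.p (k + 1) w ∧ w ᵥ* A.m X.d = v := by
  obtain ⟨w, rfl⟩ : ∃ w, w ᵥ* A.m X.d = v :=
    A.flat X.I X.I X.I (fun j => X.p j = k) X.d X.d h v hv h0
  exact ⟨pj X.p (k + 1) w, vd_pj w, by
    rw [← pj_vecMul w (X.hd.m A) (c := k) (by omega), hv.pj_eq]⟩

theorem VOr2_sub {n : ℤ} (s : ℤˣ) {f W : Matrix X.I Y.I Λ} (hf : Hg n X.p Y.p f)
    (e : A.m X.d * f = (s : ℤ) • (f * A.m Y.d)) (hW : Hg (n + 1) X.p Y.p W) :
    Hg n X.p Y.p (f - (A.m X.d * W + (s : ℤ) • (W * A.m Y.d))) ∧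
      A.m X.d * (f - (A.m X.d * W + (s : ℤ) • (W * A.m Y.d))) =
        (s : ℤ) • ((f - (A.m X.d * W + (s : ℤ) • (W * A.m Y.d))) * A.m Y.d) := by
  refine ⟨hf.sub (((X.hd.m A).mul hW (by omega)).add ((hW.mul (Y.hd.m A) (by omega)).smul _)), ?_⟩
  rw [Matrix.mul_sub, Matrix.sub_mul, Matrix.mul_add, Matrix.add_mul, Matrix.mul_smul,
    Matrix.smul_mul, ← Matrix.mul_assoc, A.m_dd, Matrix.mul_assoc W, A.m_dd, e, smul_sub,
    Matrix.mul_assoc]
  simp

theorem VOr2_add {n : ℤ} (s : ℤˣ) {f W g : Matrix X.I Y.I Λ} (hW : Hg (n + 1) X.p Y.p W)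
    (hg : Hg (n + 1) X.p Y.p g) (e : f - (A.m X.d * W + (s : ℤ) • (W * A.m Y.d)) =
      A.m X.d * g + (s : ℤ) • (g * A.m Y.d)) :
    ∃ h : Matrix X.I Y.I Λ, Hg (n + 1) X.p Y.p h ∧ f = A.m X.d * h + (s : ℤ) • (h * A.m Y.d) := by
  refine ⟨g + W, hg.add hW, ?_⟩
  rw [sub_eq_iff_eq_add.1 e, Matrix.mul_add, Matrix.add_mul, smul_add]
  abel

/-- A chain map whose rows of degree `< a` vanish is null homotopic when the target is exact in
the degrees `≥ a + n`. Downward induction on `a` (for large `a` the map is zero): the rows of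
degree `a` are cycles, `fᵢ = s • wᵢ d`; subtract `d W + s W d`. -/
theorem null_of_vanish {n a : ℤ} (hY : Le Y (a + n - 1)) (s : ℤˣ) (f : Matrix X.I Y.I Λ)
    (hf : Hg n X.p Y.p f) (e : A.m X.d * f = (s : ℤ) • (f * A.m Y.d))
    (h0 : ∀ i, X.p i < a → f i = 0) :
    ∃ h, Hg (n + 1) X.p Y.p h ∧ f = A.m X.d * h + (s : ℤ) • (h * A.m Y.d) := by
  obtain ⟨N, hN⟩ := exists_bound X.p
  have base : ∀ a : ℤ, (N : ℤ) + 1 ≤ a → ∀ f : Matrix X.I Y.I Λ, (∀ i, X.p i < a → f i = 0) →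
      ∃ h : Matrix X.I Y.I Λ, Hg (n + 1) X.p Y.p h ∧
        f = A.m X.d * h + (s : ℤ) • (h * A.m Y.d) := fun a ha f h0 =>
    ⟨0, hg_zero, by
      rw [Matrix.mul_zero, Matrix.zero_mul, smul_zero, add_zero]
      funext i
      exact h0 i (by have := (hN i).2; omega)⟩
  rcases le_total a (N + 1) with ha | ha
  swap
  · exact base a ha f h0
  induction a, ha using Int.leInductionDown generalizing f with
  | base => exact base _ le_rfl f h0
  | pred a ha ih =>
    have hs : ∀ v : Y.I → Λ, (s : ℤ) • (s : ℤ) • v = v := fun v => by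
      rw [smul_smul, ← Units.val_mul, Int.units_mul_self, Units.val_one, one_smul]
    have key : ∀ i, ∃ w, Vd Y.p (X.p i + (n + 1)) w ∧ (X.p i < a - 1 → w = 0) ∧
        (X.p i < a → w ᵥ* A.m Y.d = f i) := fun i => by
      by_cases hi : X.p i = a - 1
      · obtain ⟨w, hw, hw'⟩ := Ex.ext A (hY (X.p i + n) (by omega)) (hf.row i) (by
          have h1 : (A.m X.d * f) i = 0 :=
            VOr2_row fun j hj => h0 j (by have := X.hd.m A i j hj; omega)
          rw [e] at h1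
          rw [← mul_apply_eq_vecMul, ← hs ((f * A.m Y.d) i)]
          exact (congrArg _ h1).trans (smul_zero _))
        exact ⟨w, add_assoc (X.p i) n 1 ▸ hw, fun h' => by omega, fun _ => hw'⟩
      · exact ⟨0, vd_zero, fun _ => rfl, fun h' => by rw [h0 i (by omega), zero_vecMul]⟩
    choose w hw1 hw2 hw3 using key
    obtain ⟨W, hW⟩ : ∃ W : Matrix X.I Y.I Λ, ∀ i, W i = (s : ℤ) • w i :=
      ⟨Matrix.of fun i => (s : ℤ) • w i, fun _ => rfl⟩
    have hWg : Hg (n + 1) X.p Y.p W := fun i l hl => ((hw1 i).smul _) l (hW i ▸ hl)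
    obtain ⟨c1, c2⟩ := VOr2_sub s hf e hWg
    obtain ⟨g, hg, eg⟩ := ih (hY.mono (by omega)) _ c1 c2 fun i hi => by
      have h1 : (A.m X.d * W) i = 0 := VOr2_row fun j hj => by
        rw [hW, hw2 j (by have := X.hd.m A i j hj; omega), smul_zero]
      change f i - ((A.m X.d * W) i + (s : ℤ) • (W * A.m Y.d) i) = 0
      rw [h1, mul_apply_eq_vecMul, hW, smul_vecMul, hs, hw3 i hi, zero_add, sub_self]
    exact VOr2_add s hWg hg eg

/-- with `h` from `contr_one`, the rows of degree `< a` of `f - (d (h f) + s (h f) d)` vanish -/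
theorem orth_basic {a : ℤ} (hX : Ge X a) (hY : Le Y (a - 1)) : Orth A X Y := by
  intro n hn s f hf e
  obtain ⟨g, hg, eg⟩ := contr_one hX
  have hW : Hg (n + 1) X.p Y.p (A.m g * f) := (hg.m A).mul hf (by omega)
  obtain ⟨c1, c2⟩ := VOr2_sub s hf e hW
  obtain ⟨g', hg', eg'⟩ := null_of_vanish (a := a) (hY.mono (by omega)) s _ c1 c2 fun i hi => by
    have h1 : A.m X.d * (A.m g * f) + (s : ℤ) • (A.m g * f * A.m Y.d) =
        A.m (X.d * g + g * X.d) * f := by
      rw [Matrix.mul_assoc, ← Matrix.mul_smul, ← e, A.m_add, A.m_mul, A.m_mul, Matrix.add_mul,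
        Matrix.mul_assoc, Matrix.mul_assoc]
    have h2 : A.m (X.d * g + g * X.d) i = (1 : Matrix X.I X.I Λ) i := by
      rw [← A.m_one]
      funext l
      rw [A.m_apply, A.m_apply, eg i hi]
    rw [h1]
    change f i - (A.m (X.d * g + g * X.d) * f) i = 0
    rw [mul_apply_eq_vecMul, h2, ← mul_apply_eq_vecMul, Matrix.one_mul, sub_self]
  exact VOr2_add s hW hg' eg'

end Pool.Agent.Work.MP_9d1ffa_al.VN
end

-- merged part: Pool.Agent.Work.MP_9d1ffa_al.VCls
section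
/-! The two classes and the decomposition of a complex. -/

namespace Pool.Agent.Work.MP_9d1ffa_al.VN

open Matrix

set_option linter.unusedSectionVars false
set_option linter.unusedVariables false

variable {R Λ : Type} [Ring R] [StarRing R] [Ring Λ] [StarRing Λ] {A : Amb R Λ}
  {X Y T U : Cx R}

theorem Ug.uc {i : ℤ} (h : Ug i X) : Uc A X := fun _ hY => hY i X h

theorem vcls_le_dd {a : ℤ} (h : Le X a) : Le X.dual.dual a := fun k e =>
  (re_dual_dual X).ex (h k e)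

theorem vcls_ge_dd {a : ℤ} (h : Ge X a) : Ge X.dual.dual a := fun k e =>
  (re_dual_dual X).ex (h k e)

theorem vcls_ex_up {k : ℤ} (h : Ex X (k - 1)) : Ex X.up k := fun v hv h0 => by
  obtain ⟨w, hw⟩ := h v (fun i e => by have := hv i e; simp only at this; omega)
    (neg_eq_zero.1 ((vecMul_neg v X.d).symm.trans h0))
  exact ⟨-w, by rw [neg_vecMul_neg, hw]⟩

theorem vcls_ex_up_dual {k : ℤ} (h : Ex X.dual (k + 1)) : Ex X.up.dual k := fun v hv h0 => by
  simp only [conjTranspose_neg] at h0 ⊢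
  obtain ⟨w, hw⟩ := h v (fun i e => by have := hv i e; simp only at this ⊢; omega)
    (neg_eq_zero.1 ((vecMul_neg v X.dᴴ).symm.trans h0))
  exact ⟨-w, by rw [neg_vecMul_neg]; exact hw⟩

theorem vcls_nu_dual {n : ℤ} (h : Nu A n Y.dual X.dual) : Nu A n X Y :=
  h.dual.re (re_dual_dual X).symm (re_dual_dual Y).symm

theorem vcls_orth_dual (h : Wc A Y) (hX : Vc A X) : Orth A X.dual Y := fun n hn =>
  (h.2 X hX n hn).dual.re (Re.refl _) (re_dual_dual Y).symm

/-- For `X` in `Ug i`: if `i ≤ j` use `orth_basic` directly, otherwise use it for the duals. -/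
theorem Vg.vc {j : ℤ} (h : Vg j Y) : Vc A Y := by
  intro i X hX
  rcases le_or_gt i j with e | e
  · exact orth_basic hX.1 (h.1.mono (by omega))
  · exact fun n hn => vcls_nu_dual (orth_basic h.2 (hX.2.mono (by omega)) n hn)

theorem Vg.wc {j : ℤ} (h : Vg j Y) : Wc A Y := by
  exact ⟨h.vc, Ug.uc (i := j) ⟨h.2, vcls_le_dd (h.1.mono (by omega))⟩⟩

theorem Acy.vc (h : Acy Y) : Vc A Y := by
  exact fun i X hX => orth_basic hX.1 fun k _ => h k

/-- an acyclic complex is contractible (`contr_one`), so its dual is acyclic -/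
theorem Acy.dual (h : Acy Y) : Acy Y.dual := by
  obtain ⟨N, hN⟩ := exists_bound Y.p
  obtain ⟨c, -, hc⟩ := contr_one (X := Y) (b := N + 1) fun k _ => h k
  have e : Y.d * c + c * Y.d = 1 := funext fun i => hc i (by have := (hN i).2; omega)
  have e' := congrArg conjTranspose e
  rw [conjTranspose_add, conjTranspose_mul, conjTranspose_mul, conjTranspose_one] at e'
  intro k v _ h0
  refine ⟨v ᵥ* cᴴ, ?_⟩
  have h1 := congrArg (v ᵥ* ·) e'
  simp only [vecMul_add, vecMul_one, ← vecMul_vecMul] at h1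
  rwa [show v ᵥ* Y.dᴴ = 0 from h0, zero_vecMul, add_zero] at h1

theorem Acy.wc (h : Acy Y) : Wc A Y := by
  exact Vg.wc (j := 0) ⟨fun k _ => h k, fun k _ => h.dual k⟩

/-- for `X` in `Ug i` the complex `X.up.dual` is in `Vg i`; use `nu_up_dual` and `Nu.dual` -/
theorem Uc.up_dual (h : Uc A T) : Vc A T.up.dual := by
  intro i X hX n hn
  have hv : Vg i X.up.dual := ⟨fun k e => vcls_ex_up_dual (hX.2 _ (by omega)),
    vcls_ge_dd fun k e => vcls_ex_up (hX.1 _ (by omega))⟩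
  exact nu_up_dual.2 ((nu_up_dual.1 (h _ hv.vc n hn)).dual.re (re_dual_dual X).symm (Re.refl _))

theorem Uc.self (h : Uc A T) (n : ℤ) (hn : 1 ≤ n) : Nu A n T T.dual := by
  have h1 := nu_up_dual.1 (h _ h.up_dual (n - 1) (by omega))
  rwa [sub_add_cancel] at h1

theorem Wc.re (h : Wc A X) (e : Re X Y) : Wc A Y := by
  exact ⟨fun i Z hZ n hn => (h.1 i Z hZ n hn).re (Re.refl _) e,
    fun Z hZ n hn => (h.2 Z hZ n hn).re e.dual (Re.refl _)⟩

/-- use `merge` and `Nu.ext_left` -/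
theorem dec_u {t : Matrix T.I X.I R} (c : Ch T X t) (hT : Uc A T) (h : Dec A c.cone) :
    Dec A X := by
  obtain ⟨U, s, h', hU, hW⟩ := h
  obtain ⟨g, c', e⟩ := merge c h'
  exact ⟨g.ext, _, c', fun Z hZ n hn => Nu.ext_left g (hT Z hZ n hn) (hU Z hZ n hn), hW.re e.symm⟩

/-- Use `merge_dual` and `Nu.of_ext`. Membership of `Y` in `Wc` says `Orth A W Y` for all `W` in
some `Ug i` and for all duals `W` of members of `Vc`. -/
theorem dec_dual {t : Matrix T.I X.I R} (c : Ch T X.dual t) (hT : Wc A T.dual)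
    (h : Dec A c.cone.dual) : Dec A X := by
  obtain ⟨U, s, h', hU, hW⟩ := h
  obtain ⟨c', θ, g, e⟩ := merge_dual c h'
  have hW' := hW.re e
  have key : ∀ (Z : Cx R) (n : ℤ), Nu A n Z g.ext → Nu A n Z T.dual → Nu A n Z c'.cone :=
    fun Z n h1 h2 => Nu.of_ext g h1 (nu_up_dual.2 (by rwa [sub_add_cancel]))
  refine ⟨U, _, c', hU, fun i Z hZ n hn => key Z n (hW'.1 i Z hZ n hn) (hT.1 i Z hZ n hn),
    fun Z hZ n hn => ?_⟩
  exact (key _ n (vcls_orth_dual hW' hZ n hn) (vcls_orth_dual hT hZ n hn)).dual.re (Re.refl _)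
    (re_dual_dual Z).symm

/-- Downward induction on `i` of the statement: `Le X.dual (-i)` implies `Dec A X`. For
`2 i ≥ N` the complex lies in `Ug i` by `hR.fin` (take the identity map). Step: truncate `X` at
`-i`, `t : Z → X`; `Z` is in `Ug i` by `hR.aus`. Let `X'` be the cone, truncate `X'.dual` at `-i`,
`t' : T → X'.dual`; by `hR.aus` (with `a = -i-1`, `b = -i`) `T.dual` is in `Vg i`. The induction
hypothesis applies to the dual of the cone of `t'`. -/
theorem dec_all (hR : Good R) (X : Cx R) : Dec A X := by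
  obtain ⟨N, hN⟩ := hR.fin
  have key : ∀ (n : ℕ) (i : ℤ), i + n = N → ∀ X : Cx R, Le X.dual (-i) → Dec A X := by
    intro n
    induction n with
    | zero =>
      intro i hi X hX
      exact ⟨X, 1, ch_one X, Ug.uc (i := i) ⟨(hN X _ hX).mono (by omega), hX⟩,
        (acy_cone_one X).wc⟩
    | succ n ih =>
      intro i hi X hX
      obtain ⟨Z, t, h, hZ, hc⟩ := hR.tr X (-i)
      obtain ⟨T, t', h', hT, hc'⟩ := hR.tr h.cone.dual (-i)
      refine dec_u h (Ug.uc (i := i) ⟨ge_of_le hZ, hR.aus X Z t h _ _ hX (ge_of_le hZ) hc⟩)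
        (dec_dual h' (Vg.wc (j := i) ⟨hR.aus _ T t' h' _ _ (vcls_le_dd hc) (ge_of_le hT) hc',
          vcls_ge_dd (ge_of_le hT)⟩) (ih (i + 1) (by omega) _ (vcls_le_dd (hc'.mono (by omega)))))
  obtain ⟨M, hM⟩ := exists_bound X.p
  exact key (M + N) (-M) (by omega) X (le_of_le fun i => by have := (hM i).1; simp only; omega)

theorem contr_of_vc (hR : Good R) (h : Vc A X) (h' : Vc A X.dual) :
    ∃ k : Matrix X.I X.I R, X.d * k + k * X.d = 1 := by
  obtain ⟨U, t, c, hU, hW⟩ := dec_all (A := A) hR X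
  exact contr_of_nu c (hU X h 0 le_rfl)
    ((vcls_orth_dual hW h' 0 le_rfl).re (re_dual_dual X).symm (Re.refl _))

end Pool.Agent.Work.MP_9d1ffa_al.VN
end

-- merged part: Pool.Agent.Work.MP_9d1ffa_al.VFl
section
/-! Filtered twisted pairs. -/

namespace Pool.Agent.Work.MP_9d1ffa_al.VN

open Matrix

set_option linter.unusedSectionVars false
set_option linter.unusedVariables false

variable {R Λ : Type} [Ring R] [StarRing R] [Ring Λ] [StarRing Λ] {A : Amb R Λ}
  {s t : Bool} {n : ℕ} {X Y : Tw A s t}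

theorem VFl_perm {S : Type} [Ring S] {X Y : Cx S} (e : X.I ≃ Y.I) (hp : ∀ i, X.p i = Y.p (e i))
    (hd : X.d = Y.d.submatrix e e) :
    Ch X Y ((1 : Matrix Y.I Y.I S).submatrix e (Equiv.refl _)) ∧
      Qis (X := X) (Y := Y) ((1 : Matrix Y.I Y.I S).submatrix e (Equiv.refl _)) := by
  have c : Ch X Y ((1 : Matrix Y.I Y.I S).submatrix e (Equiv.refl _)) := by
    refine ⟨((hg_one (p := Y.p)).submatrix _ _).of fun k l h => ?_, ?_⟩
    · rw [hp]
      exact h
    · rw [mul_submatrix_one, one_submatrix_mul, hd]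
      ext k l
      simp
  refine ⟨c, qis_of_inv c ((1 : Matrix Y.I Y.I S).submatrix (Equiv.refl _) e) ?_ ?_⟩
  · rw [submatrix_mul_equiv, Matrix.mul_one, submatrix_one_equiv]
  · rw [submatrix_mul_equiv, Matrix.mul_one, submatrix_one_equiv]

theorem VFl_m_perm {I J : Type} [DecidableEq J] (e : I → J) :
    A.m ((1 : Matrix J J R).submatrix e (Equiv.refl _)) =
      (1 : Matrix J J Λ).submatrix e (Equiv.refl _) := by
  rw [← A.m_one]
  rfl

theorem VFl_re (X Y : Tw A s t) (e : X.a.I ≃ Y.a.I) (e' : X.b.I ≃ Y.b.I)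
    (hp : ∀ i, X.a.p i = Y.a.p (e i)) (hp' : ∀ i, X.b.p i = Y.b.p (e' i))
    (hd : X.a.d = Y.a.d.submatrix e e) (hd' : X.b.d = Y.b.d.submatrix e' e')
    (hρ : X.ρ = Y.ρ.submatrix e e') (hσ : X.σ = Y.σ.submatrix e' e) : Nonempty (Mp X Y) := by
  refine ⟨⟨_, _, 0, 0, (VFl_perm e hp hd).1, (VFl_perm e' hp' hd').1, bm_zero, bm_zero, ?_, ?_,
    (VFl_perm e hp hd).2, (VFl_perm e' hp' hd').2⟩⟩
  · rw [VFl_m_perm, VFl_m_perm, mul_submatrix_one, one_submatrix_mul, hρ]
    ext k l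
    simp
  · rw [VFl_m_perm, VFl_m_perm, mul_submatrix_one, one_submatrix_mul, hσ]
    ext k l
    simp

theorem VFl_rows_add {S I J K : Type} [Add S] (a a' : Matrix I K S) (b b' : Matrix J K S) :
    fromRows a b + fromRows a' b' = fromRows (a + a') (b + b') := by
  ext (k | k) l <;> rfl

theorem VFl_cols_add {S I J K : Type} [Add S] (a a' : Matrix I J S) (b b' : Matrix I K S) :
    fromCols a b + fromCols a' b' = fromCols (a + a') (b + b') := by
  ext k (l | l) <;> rfl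

/-- exchange of the two sides -/
def Mp.swap (F : Mp X Y) : Mp X.swap Y.swap :=
  ⟨F.g, F.f, F.k, F.h, F.cg, F.cf, F.hk, F.hh, F.ek, F.eh, F.qg, F.qf⟩

/-- The piece `(T, j f, η g + j h)` of `Y`, and the map of cones
`(fromBlocks f 0 0 1, g, fromRows h 0, fromCols k 0)`. -/
theorem Mp.piece (F : Mp X Y) (P : Pc X) : ∃ Q : Pc Y, Q.T = P.T ∧ Nonempty (Mp P.cone Q.cone) := by
  have e1 : A.m (P.j * F.f) * Y.ρ + (P.η * A.m F.g + A.m P.j * F.h) * A.m Y.b.d =
      A.m P.T.d * (P.η * A.m F.g + A.m P.j * F.h) := by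
    have a1 := P.eq
    have a2 := F.eh
    have a3 : A.m X.b.d * A.m F.g = A.m F.g * A.m Y.b.d := by rw [← A.m_mul, ← A.m_mul, F.cg.2]
    have a4 : A.m P.T.d * A.m P.j = A.m P.j * A.m X.a.d := by rw [← A.m_mul, ← A.m_mul, P.ch.2]
    calc _ = A.m P.j * (A.m F.f * Y.ρ + F.h * A.m Y.b.d) + P.η * (A.m F.g * A.m Y.b.d) := by
          simp only [A.m_mul, Matrix.add_mul, Matrix.mul_add, Matrix.mul_assoc]
          abel
      _ = (A.m P.j * X.ρ + P.η * A.m X.b.d) * A.m F.g + A.m P.j * A.m X.a.d * F.h := by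
          rw [← a2, ← a3]
          simp only [Matrix.add_mul, Matrix.mul_add, Matrix.mul_assoc]
          abel
      _ = _ := by
          rw [a1, ← a4]
          simp only [Matrix.mul_add, Matrix.mul_assoc]
  refine ⟨⟨P.T, P.j * F.f, P.η * A.m F.g + A.m P.j * F.h, P.ch.mul F.cf,
    (P.hη.mul_m F.cg.1 (by simp)).add (Bm.m_mul P.ch.1 F.hh (by simp)), e1⟩, rfl,
    ⟨⟨fromBlocks F.f 0 0 1, F.g, fromRows F.h 0, fromCols F.k 0, ch_cone P.ch F.cf, F.cg,
      bm_rows.2 ⟨F.hh, bm_zero⟩, bm_cols.2 ⟨F.hk, bm_zero⟩, ?_, ?_, Qis.cone P.ch F.cf F.qf,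
      F.qg⟩⟩⟩
  · simp only [A.m_blocks, A.m_zero, A.m_neg, A.m_one, fromBlocks_mul_fromRows, fromRows_mul,
      Matrix.zero_mul, Matrix.mul_zero, add_zero, zero_add, Matrix.one_mul, VFl_rows_add, F.eh]
    rw [add_comm (A.m P.j * F.h)]
  · simp only [A.m_blocks, A.m_zero, A.m_neg, A.m_one, fromCols_mul_fromBlocks, mul_fromCols,
      Matrix.zero_mul, Matrix.mul_zero, add_zero, VFl_cols_add, F.ek]

/-- induction on the derivation, generalising `Y` -/
theorem Fl.qis (h : Fl n X) (F : Mp X Y) : Fl n Y := by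
  induction h with
  | base X h1 h2 => exact Fl.base Y (F.qf.acy F.cf h1) (F.qg.acy F.cg h2)
  | sw X n h ih => exact Fl.sw Y n (ih F.swap)
  | v X P n hv h ih =>
    obtain ⟨Q, e, ⟨G⟩⟩ := F.piece P
    exact Fl.v Y Q n (e ▸ hv) (ih G)
  | u X P n hv h ih =>
    obtain ⟨Q, e, ⟨G⟩⟩ := F.piece P
    exact Fl.u Y Q n (e ▸ hv) (ih G)

/-- induction on the derivation (with `n = 0` as a hypothesis), `Acy.vc` and `Nu.of_cone` -/
theorem Fl.vc (h : Fl 0 X) : Vc A X.a ∧ Vc A X.b := by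
  generalize e : 0 = m at h
  induction h with
  | base X h1 h2 => exact ⟨h1.vc, h2.vc⟩
  | sw X n h ih => exact (ih e).symm
  | v X P n hv h ih =>
    obtain ⟨h1, h2⟩ := ih e
    exact ⟨fun i W hW k hk => Nu.of_cone P.ch (h1 i W hW k hk) (hv i W hW k hk), h2⟩
  | u X P n hv h ih => omega

/-- Two pieces on the same side give one piece: with `Q.j = (a, b)` take the extension glued by
`-b`, the map `fromRows P.j a` and the homotopy `fromRows P.η Q.η`. The cones differ by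
`Equiv.sumAssoc` (`qis_of_inv` with a permutation matrix, `h = 0`, `k = 0`). -/
theorem Pc.merge (P : Pc X) (Q : Pc P.cone) : ∃ S : Pc X, Nonempty (Mp Q.cone S.cone) := by
  obtain ⟨g, c, -⟩ := VN.merge P.ch Q.ch
  have e1 : A.m (fromRows P.j Q.j.toCols₁) * X.ρ + fromRows P.η Q.η * A.m X.b.d =
      A.m g.ext.d * fromRows P.η Q.η := by
    have a2 := Q.eq
    rw [← fromCols_toCols Q.j] at a2
    simp only [A.m_cols, fromCols_mul_fromRows] at a2
    simp only [A.m_blocks, A.m_rows, A.m_zero, A.m_neg, fromBlocks_mul_fromRows, fromRows_mul,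
      Matrix.zero_mul, add_zero, VFl_rows_add, P.eq, Matrix.neg_mul, ← a2]
    congr 1
    abel
  refine ⟨⟨g.ext, fromRows P.j Q.j.toCols₁, fromRows P.η Q.η, c, bm_rows.2 ⟨P.hη, Q.hη⟩, e1⟩,
    VFl_re _ _ (Equiv.sumAssoc _ _ _) (Equiv.refl _) ?_ (fun _ => rfl) ?_ rfl ?_ ?_⟩
  · rintro ((i | i) | i) <;> rfl
  · ext ((k | k) | k) ((l | l) | l) <;> simp
  · ext ((k | k) | k) l <;> rfl
  · ext k ((l | l) | l) <;> rfl

/-- A chain map `u : U → S.T` splits a piece into `(U, u j, u η)` and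
`(cone u, fromBlocks j 0 0 1, fromRows η 0)`; see `ch_split`, `ch_oct`, `qis_oct`. -/
theorem Pc.split (S : Pc X) {U : Cx R} {u : Matrix U.I S.T.I R} (c : Ch U S.T u) :
    ∃ (P : Pc X) (Q : Pc P.cone), P.T = U ∧ Q.T = c.cone ∧ Nonempty (Mp S.cone Q.cone) := by
  have e1 : A.m (u * S.j) * X.ρ + A.m u * S.η * A.m X.b.d = A.m U.d * (A.m u * S.η) := by
    rw [A.m_mul, Matrix.mul_assoc, Matrix.mul_assoc, ← Matrix.mul_add, S.eq, ← Matrix.mul_assoc,
      ← Matrix.mul_assoc, ← A.m_mul, ← A.m_mul, c.2]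
  let P : Pc X := ⟨U, u * S.j, A.m u * S.η, c.mul S.ch, Bm.m_mul c.1 S.hη (by simp), e1⟩
  have e2 : A.m (fromBlocks S.j 0 0 (1 : Matrix U.I U.I R)) * fromRows X.ρ (A.m u * S.η) +
      fromRows S.η (0 : Matrix U.I X.b.I Λ) * A.m X.b.d =
      A.m (fromBlocks S.T.d 0 u (-U.d)) * fromRows S.η (0 : Matrix U.I X.b.I Λ) := by
    simp only [A.m_blocks, A.m_zero, A.m_neg, A.m_one, fromBlocks_mul_fromRows, fromRows_mul,
      Matrix.zero_mul, Matrix.mul_zero, add_zero, zero_add, Matrix.one_mul, VFl_rows_add, S.eq]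
  refine ⟨P, ⟨c.cone, fromBlocks S.j 0 0 1, fromRows S.η 0, ch_split S.ch c,
    bm_rows.2 ⟨S.hη, bm_zero⟩, e2⟩, rfl, rfl,
    ⟨⟨fromBlocks (fromCols 1 0) 0 0 (fromCols 1 0), 1, 0, 0, ch_oct S.ch c, ch_one _, bm_zero,
      bm_zero, ?_, ?_, qis_oct S.ch c, qis_one _⟩⟩⟩
  · simp only [A.m_blocks, A.m_cols, A.m_zero, A.m_one, fromBlocks_mul_fromRows,
      fromCols_mul_fromRows, Matrix.zero_mul, Matrix.mul_zero, add_zero, zero_add, Matrix.one_mul,
      Matrix.mul_one]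
  · simp only [A.m_blocks, A.m_cols, A.m_zero, A.m_one, fromCols_mul_fromBlocks, mul_fromCols,
      Matrix.zero_mul, Matrix.mul_zero, add_zero, zero_add, Matrix.one_mul, Matrix.mul_one]

/-- Two pieces on different sides can be exchanged. With `Q.η = (α, β)` the map `β` is a chain map
of degree `0` and sign `-1`, so `β = d h - h d` (`Nu.bm`). The new pieces are
`(Q.T, Q.j, α - h P.j)` and `(P.T, P.j, fromCols P.η 0)`; the map has `f = 1`, `g = 1`,
`h = fromBlocks 0 0 0 h`, `k = 0`. -/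
theorem Pc.diff (P : Pc X) (Q : Pc P.cone.swap) (h : Nu A 0 Q.T P.T) :
    ∃ (Q' : Pc X.swap) (P' : Pc Q'.cone.swap), Q'.T = Q.T ∧ P'.T = P.T ∧
      Nonempty (Mp Q.cone P'.cone.swap) := by
  have b1 := Q.hη
  have b2 := Q.eq
  rw [← fromCols_toCols Q.η] at b1 b2
  obtain ⟨b3, b4⟩ := bm_cols.1 b1
  simp only [A.m_blocks, A.m_zero, A.m_neg, fromCols_mul_fromBlocks, mul_fromCols,
    Matrix.mul_zero, zero_add, VFl_cols_add, Matrix.mul_neg] at b2
  obtain ⟨b5, b6⟩ := fromCols_inj b2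
  obtain ⟨k, hk, ek⟩ := h.bm (i := t) (-1) (f := Q.η.toCols₂)
    (b4.of fun k l e => by simp only at e; omega) (by simpa using b6.symm)
  have a4 : A.m P.T.d * A.m P.j = A.m P.j * A.m X.a.d := by rw [← A.m_mul, ← A.m_mul, P.ch.2]
  simp only [Units.val_neg, Units.val_one, neg_smul, one_smul] at ek
  have e1 : A.m Q.j * X.σ + (Q.η.toCols₁ - k * A.m P.j) * A.m X.a.d =
      A.m Q.T.d * (Q.η.toCols₁ - k * A.m P.j) := by
    rw [Matrix.mul_sub, ← b5, Matrix.sub_mul, Matrix.mul_assoc, ← a4, ek]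
    simp only [Matrix.add_mul, Matrix.neg_mul, Matrix.mul_assoc]
    abel
  let Q' : Pc X.swap := ⟨Q.T, Q.j, Q.η.toCols₁ - k * A.m P.j, Q.ch,
    b3.sub (hk.mul_m P.ch.1 (by simp)), e1⟩
  have e2 : A.m P.j * fromCols X.ρ (0 : Matrix X.a.I Q.T.I Λ) +
      fromCols P.η (0 : Matrix P.T.I Q.T.I Λ) * A.m (fromBlocks X.b.d 0 Q.j (-Q.T.d)) =
      A.m P.T.d * fromCols P.η (0 : Matrix P.T.I Q.T.I Λ) := by
    simp only [A.m_blocks, A.m_zero, A.m_neg, fromCols_mul_fromBlocks, mul_fromCols,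
      Matrix.zero_mul, Matrix.mul_zero, add_zero, VFl_cols_add, P.eq]
  refine ⟨Q', ⟨P.T, P.j, fromCols P.η 0, P.ch, bm_cols.2 ⟨P.hη, bm_zero⟩, e2⟩, rfl, rfl,
    ⟨⟨1, 1, fromBlocks 0 0 0 k, 0, ch_one _, ch_one _,
      bm_blocks.2 ⟨bm_zero, bm_zero, bm_zero, hk.of fun k l e => by simp only; omega⟩, bm_zero,
      ?_, ?_, qis_one _, qis_one _⟩⟩⟩
  · change A.m (fromBlocks X.b.d 0 Q.j (-Q.T.d)) * fromBlocks 0 0 0 k +
      fromRows (fromCols X.σ 0) Q.η * A.m 1 =
      A.m 1 * fromCols (fromRows X.σ (Q.η.toCols₁ - k * A.m P.j)) 0 +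
        fromBlocks 0 0 0 k * A.m (fromBlocks X.a.d 0 P.j (-P.T.d))
    simp only [A.m_blocks, A.m_zero, A.m_neg, A.m_one, fromBlocks_multiply, Matrix.zero_mul,
      Matrix.mul_zero, add_zero, zero_add, Matrix.one_mul, Matrix.mul_one, Matrix.neg_mul,
      Matrix.mul_neg]
    ext (i | i) (l | l)
    · simp
    · simp
    · simp
    · have := congrFun (congrFun ek i) l
      simp at this ⊢
      rw [this]
      abel
  · simp only [A.m_one, Matrix.zero_mul, Matrix.mul_zero, add_zero, zero_add, Matrix.one_mul,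
      Matrix.mul_one]
    ext (i | i) (l | l) <;> rfl

theorem Fl.any (hR : Good R) (P : Pc X) (h : Fl n P.cone) : Fl (n + 1) X := by
  obtain ⟨U, u, c, h1, h2⟩ := dec_all (A := A) hR P.T
  obtain ⟨P₁, Q, e1, e2, ⟨F⟩⟩ := P.split c
  exact Fl.u X P₁ n (e1 ▸ h1) (Fl.v _ Q n (e2 ▸ h2.1) (h.qis F))

/-- A piece of the upper class can be moved to the front. Induction on the derivation; in the case
`Fl.v` use `Pc.merge`, `dec_all`, `Pc.split` for the same side and `Pc.diff` for the other side. -/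
theorem Fl.pull (hR : Good R) (h : Fl (n + 1) X) :
    (∃ P : Pc X, Uc A P.T ∧ Fl n P.cone) ∨ ∃ P : Pc X.swap, Uc A P.T ∧ Fl n P.cone := by
  generalize e : n + 1 = m at h
  induction h with
  | base X h1 h2 => omega
  | sw X n h ih => exact (ih e).symm
  | u X P n hv h ih =>
    obtain rfl := Nat.succ.inj e
    exact Or.inl ⟨P, hv, h⟩
  | v X P m hv h ih =>
    rcases ih e with ⟨Q, hQ, h⟩ | ⟨Q, hQ, h⟩
    · obtain ⟨S, ⟨F⟩⟩ := P.merge Q
      obtain ⟨U, u, c, h1, h2⟩ := dec_all (A := A) hR S.T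
      obtain ⟨P₁, Q₁, e1, e2, ⟨G⟩⟩ := S.split c
      exact Or.inl ⟨P₁, e1 ▸ h1, Fl.v _ Q₁ n (e2 ▸ h2.1) ((h.qis F).qis G)⟩
    · obtain ⟨Q', P', e1, e2, ⟨F⟩⟩ := P.diff Q (hQ _ hv 0 le_rfl)
      exact Or.inr ⟨Q', e1 ▸ hQ, Fl.sw _ n (Fl.v _ P' n (e2 ▸ hv) (Fl.sw _ n (h.qis F)))⟩

end Pool.Agent.Work.MP_9d1ffa_al.VN
end

-- merged part: Pool.Agent.Work.MP_9d1ffa_al.VInit
section
/-! A nilpotent pair is built from pure pieces. -/

namespace Pool.Agent.Work.MP_9d1ffa_al.VN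

open Matrix

set_option linter.unusedSectionVars false
set_option linter.unusedVariables false

variable {R Λ : Type} [Ring R] [StarRing R] [Ring Λ] [StarRing Λ] {A : Amb R Λ}
  {s t : Bool}

/-- both sides are resolutions -/
def Ok (X : Tw A s t) : Prop :=
  (∀ i, 0 ≤ X.a.p i) ∧ (∀ i, 0 ≤ X.b.p i) ∧ Le X.a 0 ∧ Le X.b 0

/-- a strict map that is onto in degree zero -/
def Em (X Y : Tw A s t) (f : Matrix X.a.I Y.a.I R) (g : Matrix X.b.I Y.b.I R) : Prop :=
  Ch X.a Y.a f ∧ Ch X.b Y.b g ∧ A.m f * Y.ρ = X.ρ * A.m g ∧ A.m g * Y.σ = X.σ * A.m f ∧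
    (∀ v, Vd Y.a.p 0 v → ∃ w, Vd X.a.p 0 w ∧ w ᵥ* f = v) ∧
    ∀ v, Vd Y.b.p 0 v → ∃ w, Vd X.b.p 0 w ∧ w ᵥ* g = v

theorem em_one (X : Tw A s t) : Em X X 1 1 :=
  ⟨ch_one _, ch_one _, by rw [A.m_one, A.m_one, Matrix.one_mul, Matrix.mul_one],
    by rw [A.m_one, A.m_one, Matrix.one_mul, Matrix.mul_one],
    fun v hv => ⟨v, hv, vecMul_one v⟩, fun v hv => ⟨v, hv, vecMul_one v⟩⟩

theorem Em.mul {X Y Z : Tw A s t} {f g f' g'} (h : Em X Y f g) (h' : Em Y Z f' g') :
    Em X Z (f * f') (g * g') := by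
  obtain ⟨a1, a2, a3, a4, a5, a6⟩ := h
  obtain ⟨b1, b2, b3, b4, b5, b6⟩ := h'
  refine ⟨a1.mul b1, a2.mul b2, ?_, ?_, fun v hv => ?_, fun v hv => ?_⟩
  · rw [A.m_mul, A.m_mul, Matrix.mul_assoc, b3, ← Matrix.mul_assoc, a3, Matrix.mul_assoc]
  · rw [A.m_mul, A.m_mul, Matrix.mul_assoc, b4, ← Matrix.mul_assoc, a4, Matrix.mul_assoc]
  · obtain ⟨w, hw, rfl⟩ := b5 v hv
    obtain ⟨u, hu, rfl⟩ := a5 w hw
    exact ⟨u, hu, (vecMul_vecMul _ _ _).symm⟩
  · obtain ⟨w, hw, rfl⟩ := b6 v hv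
    obtain ⟨u, hu, rfl⟩ := a6 w hw
    exact ⟨u, hu, (vecMul_vecMul _ _ _).symm⟩

theorem Em.swap {X Y : Tw A s t} {f g} (h : Em X Y f g) : Em X.swap Y.swap g f :=
  ⟨h.2.1, h.1, h.2.2.2.1, h.2.2.1, h.2.2.2.2.2, h.2.2.2.2.1⟩

/-- the inclusion in the cone of a piece placed in degrees `≥ 0` -/
theorem em_cone {X : Tw A s t} (P : Pc X) (h : ∀ i, 0 ≤ P.T.p i) :
    Em X P.cone (fromCols 1 0) 1 := by
  refine ⟨⟨hg_cols.2 ⟨hg_one, hg_zero⟩, ?_⟩, ch_one _, ?_, ?_, fun v hv => ?_,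
    fun v hv => ⟨v, hv, vecMul_one v⟩⟩
  · simp [mul_fromCols, fromCols_mul_fromBlocks]
  · simp [A.m_cols, A.m_one, A.m_zero, fromCols_mul_fromRows]
  · simp [A.m_cols, A.m_one, A.m_zero, mul_fromCols]
  · refine ⟨v ∘ Sum.inl, fun i => hv (Sum.inl i), ?_⟩
    rw [vecMul_fromCols, vecMul_one, vecMul_zero]
    funext i
    rcases i with i | i
    · rfl
    · by_contra e
      have h1 : P.T.p i + 1 = 0 := hv (Sum.inr i) (Ne.symm e)
      have := h i
      omega

theorem VInit_bd {Y Z : Cx R} {L I : Type} [Fintype I] {G : Matrix L I R} {f : Matrix I Y.I R}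
    {f' : Matrix Y.I Z.I R} (h : ∃ V : Matrix L Y.I R, G * f = V * Y.d) (c : Ch Y Z f') :
    ∃ V : Matrix L Z.I R, G * (f * f') = V * Z.d := by
  obtain ⟨V, hV⟩ := h
  exact ⟨V * f', by rw [← Matrix.mul_assoc, hV, Matrix.mul_assoc, c.2, Matrix.mul_assoc]⟩

theorem VInit_proj {X : Tw A s t} {L : Type} {G : Matrix L X.a.I R}
    (hG : Hg 0 (fun _ => 0) X.a.p G) {W : Matrix L X.b.I Λ} (e : A.m G * X.ρ = W * A.m X.b.d) :
    ∃ W', Bm A s 1 (fun _ => 0) X.b.p W' ∧ A.m G * X.ρ = W' * A.m X.b.d := by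
  have h1 : Bm A s 0 (fun _ => 0) X.b.p (A.m G * X.ρ) := Bm.m_mul hG X.hρ (by simp)
  have h2 : A.m G * X.ρ = W.map (A.β s) * A.m X.b.d := by
    ext k l
    rw [← A.β_id s _ (h1.2 k l), e, mul_apply, mul_apply, map_sum]
    exact Finset.sum_congr rfl fun j _ => A.β_right _ _ _
  refine ⟨hp 1 (fun _ => 0) X.b.p (W.map (A.β s)), ⟨hg_hp _, fun k l => ?_⟩, ?_⟩
  · simp only [hp, of_apply]
    split_ifs
    · exact A.β_mem _ _
    · exact zero_mem _
  · rw [← hp_mul_right (c := 0) _ (X.b.hd.m A) (by simp), ← h2, h1.1.hp_eq]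

/-- Killing the rows of `G`. First piece: `Cx.free R L 0` with `j = G` and `η = -W'`, where `W'` is
the projection of `W` (`hp 1`, entrywise `A.β s`). Second piece: the truncation `hR.tr` at `1` of
the first side of the cone; its homotopy exists by `orth_basic` and `Nu.bm` (sign `-1`). Use
`Fl.any` twice. -/
theorem kill (hR : Good R) (X : Tw A s t) (hX : Ok X) {L : Type} [Fintype L] [DecidableEq L]
    (G : Matrix L X.a.I R) (hG : Hg 0 (fun _ => 0) X.a.p G) (W : Matrix L X.b.I Λ)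
    (e : A.m G * X.ρ = W * A.m X.b.d) :
    ∃ (Y : Tw A s t) (f : Matrix X.a.I Y.a.I R) (g : Matrix X.b.I Y.b.I R), Em X Y f g ∧ Ok Y ∧
      (∃ V : Matrix L Y.a.I R, G * f = V * Y.a.d) ∧ ∀ n, Fl n Y → ∃ n', Fl n' X := by
  obtain ⟨W', hW, e'⟩ := VInit_proj hG e
  have h0 : G * X.a.d = 0 := by
    ext k l
    by_contra h
    have h1 : X.a.p l = 0 + -1 := hG.mul X.a.hd (c := -1) (by simp) k l h
    have := hX.1 l
    omega
  let P : Pc X := ⟨Cx.free R L 0, G, -W', ⟨hG, by rw [h0, Matrix.zero_mul]⟩, hW.neg, by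
    rw [e', Matrix.neg_mul, add_neg_cancel, A.m_zero, Matrix.zero_mul]⟩
  obtain ⟨T, j, c, h1, h2⟩ := hR.tr P.cone.a 1
  obtain ⟨η, hη, e2⟩ := (orth_basic (A := A) (ge_of_le h1) hX.2.2.2 0 le_rfl).bm (-1)
    (Bm.m_mul c.1 P.cone.hρ (c := 0) (by simp)) (by
      rw [← Matrix.mul_assoc, ← A.m_mul, c.2, A.m_mul, Matrix.mul_assoc,
        eq_neg_of_add_eq_zero_left P.cone.cρ, Matrix.mul_neg, Matrix.mul_assoc, Units.val_neg,
        Units.val_one, neg_smul, one_smul])
  let Q : Pc P.cone := ⟨T, j, η, c, hη, by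
    rw [e2]
    simp⟩
  have h3 := em_cone P fun _ => le_rfl
  have h4 := em_cone Q fun i => zero_le_one.trans (h1 i)
  refine ⟨Q.cone, _, _, h3.mul h4, ⟨?_, hX.2.1, h2, hX.2.2.2⟩, VInit_bd ⟨fromCols 0 1, ?_⟩ h4.1,
    fun n h => ⟨_, Fl.any hR P (Fl.any hR Q h)⟩⟩
  · rintro ((i | i) | i)
    · exact hX.1 i
    · exact zero_le_one
    · exact add_nonneg (zero_le_one.trans (h1 i)) zero_le_one
  · change G * fromCols 1 0 = fromCols 0 1 * fromBlocks X.a.d 0 G (-0)
    simp [mul_fromCols, fromCols_mul_fromBlocks]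

variable (A) in
/-- nilpotency in terms of generating matrices -/
def Nl {I J : Type} [Fintype I] [Fintype J] (ρ : Matrix I J Λ) (σ : Matrix J I Λ) :
    ℕ → ∀ l m : ℕ, Matrix (Fin l) I R → Matrix (Fin m) J R → Prop
  | 0, _, _, G, H => G = 0 ∧ H = 0
  | k + 1, l, m, G, H => ∃ (l' m' : ℕ) (G' : Matrix (Fin l') I R) (H' : Matrix (Fin m') J R)
      (N : Matrix (Fin l) (Fin m') Λ) (N' : Matrix (Fin m) (Fin l') Λ),
      A.m G * ρ = N * A.m H' ∧ A.m H * σ = N' * A.m G' ∧ Nl ρ σ k l' m' G' H'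

theorem VInit_span {J : Type} {S : Set (J → R)} {l : ℕ} {x : Matrix (Fin l) J Λ}
    (h : ∀ i, x i ∈ Submodule.span Λ ((fun z => A.ι ∘ z) '' S)) :
    ∃ (m : ℕ) (H : Matrix (Fin m) J R) (N : Matrix (Fin l) (Fin m) Λ),
      (∀ i, H i ∈ S) ∧ x = N * A.m H := by
  classical
  choose T h1 h2 using fun i => Submodule.mem_span_finite_of_mem_span (h i)
  have h3 : ∀ u : Finset.univ.biUnion T, ∃ z ∈ S, A.ι ∘ z = u.1 := fun u => by
    obtain ⟨i, -, hi⟩ := Finset.mem_biUnion.1 u.2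
    exact h1 i hi
  choose z hz hz' using h3
  have h4 : ∀ i, ∃ c : Fin (Finset.univ.biUnion T).card → Λ,
      ∑ j, c j • (A.ι ∘ z ((Finset.univ.biUnion T).equivFin.symm j)) = x i := fun i =>
    (Submodule.mem_span_range_iff_exists_fun Λ).1 (Submodule.span_mono (fun u hu => Set.mem_range.2
      ⟨(Finset.univ.biUnion T).equivFin ⟨u, Finset.mem_biUnion.2 ⟨i, Finset.mem_univ _, hu⟩⟩, by
        simp only [Equiv.symm_apply_apply, hz']⟩) (h2 i))
  choose c hc using h4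
  refine ⟨_, of fun j => z ((Finset.univ.biUnion T).equivFin.symm j), of c, fun j => hz _, ?_⟩
  ext i j
  rw [← hc i, Finset.sum_apply]
  rfl

/-- Induction on `j` with `m + j = k`, for all matrices whose rows lie in `Y m` and `Y' m`:
finitely many elements of a span lie in the span of a finite family. -/
theorem NilC.nl {I J : Type} [Fintype I] [Fintype J] {ρ : Matrix I J Λ} {σ : Matrix J I Λ}
    (h : NilC A ρ σ) : ∃ k, ∀ l m G H, Nl A ρ σ k l m G H := by
  obtain ⟨Y, Y', k, h1, h2, h3, h4, h5, h6⟩ := h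
  have key : ∀ j n, n + j = k → ∀ l m (G : Matrix (Fin l) I R) (H : Matrix (Fin m) J R),
      (∀ i, G i ∈ Y n) → (∀ i, H i ∈ Y' n) → Nl A ρ σ j l m G H := by
    intro j
    induction j with
    | zero =>
      rintro n rfl l m G H hG hH
      rw [add_zero] at h3 h4
      rw [h3] at hG
      rw [h4] at hH
      exact ⟨funext hG, funext hH⟩
    | succ j ih =>
      intro n e l m G H hG hH
      obtain ⟨m', H', N, a1, a2⟩ := VInit_span (x := A.m G * ρ) fun i => h5 n _ (hG i)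
      obtain ⟨l', G', N', b1, b2⟩ := VInit_span (x := A.m H * σ) fun i => h6 n _ (hH i)
      exact ⟨l', m', G', H', N, N', a2, b2, ih (n + 1) (by omega) _ _ _ _ b1 a1⟩
  exact ⟨k, fun l m G H => key k 0 (zero_add k) l m G H (fun _ => h1 ▸ trivial)
    fun _ => h2 ▸ trivial⟩

theorem NilC.nilpotent {I J : Type} [Fintype I] [DecidableEq I] [Fintype J] {ρ : Matrix I J Λ}
    {σ : Matrix J I Λ} (h : NilC A ρ σ) : IsNilpotent (ρ * σ) := by
  have key : ∀ k l m G H, Nl A ρ σ k l m G H →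
      A.m G * (ρ * σ) ^ k = 0 ∧ A.m H * σ * (ρ * σ) ^ k = 0 := by
    intro k
    induction k with
    | zero =>
      rintro l m _ _ ⟨rfl, rfl⟩
      simp [A.m_zero]
    | succ k ih =>
      rintro l m G H ⟨l', m', G', H', N, N', e1, e2, h'⟩
      obtain ⟨a, b⟩ := ih _ _ _ _ h'
      constructor
      · rw [pow_succ', ← Matrix.mul_assoc, ← Matrix.mul_assoc, e1, Matrix.mul_assoc N,
          Matrix.mul_assoc N, b, Matrix.mul_zero]
      · rw [pow_succ, e2, Matrix.mul_assoc N', ← Matrix.mul_assoc (A.m G'), a, Matrix.zero_mul,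
          Matrix.mul_zero]
  obtain ⟨k, hk⟩ := h.nl
  refine ⟨k, funext fun i => ?_⟩
  have h1 := congrFun (key k 1 0 ((1 : Matrix I I R).submatrix (fun _ => i) id) 0 (hk _ _ _ _)).1 0
  have h2 : (A.m (1 : Matrix I I R) * (ρ * σ) ^ k : Matrix I I Λ) i = 0 := h1
  rwa [A.m_one, Matrix.one_mul] at h2

theorem VInit_step {X Y : Tw A s t} {f g} (h : Em X Y f g) {L M : Type} [Fintype M]
    {G : Matrix L X.a.I R} {H : Matrix M X.b.I R} {N : Matrix L M Λ} (e : A.m G * X.ρ = N * A.m H)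
    (b : ∃ V : Matrix M Y.b.I R, H * g = V * Y.b.d) :
    ∃ W : Matrix L Y.b.I Λ, A.m (G * f) * Y.ρ = W * A.m Y.b.d := by
  obtain ⟨V, hV⟩ := b
  exact ⟨N * A.m V, by rw [A.m_mul, Matrix.mul_assoc, h.2.2.1, ← Matrix.mul_assoc, e,
    Matrix.mul_assoc, ← A.m_mul, hV, A.m_mul, Matrix.mul_assoc]⟩

/-- Induction on `k`, with a continuation. Apply the induction hypothesis to `G', H'`; in the pair
`Y` it provides, `A.m (G f) ρ` and `A.m (H g) σ` are boundaries, so `kill` applies to `G f` and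
then, on the other side, to `H g`. -/
theorem init_aux (hR : Good R) (X : Tw A s t) (hX : Ok X) (ha : ∀ i, X.a.p i = 0)
    (hb : ∀ i, X.b.p i = 0) (k : ℕ) : ∀ (l m : ℕ) (G : Matrix (Fin l) X.a.I R)
      (H : Matrix (Fin m) X.b.I R), Nl A X.ρ X.σ k l m G H →
      (∀ (Y : Tw A s t) (f : Matrix X.a.I Y.a.I R) (g : Matrix X.b.I Y.b.I R), Em X Y f g → Ok Y →
        (∃ V : Matrix (Fin l) Y.a.I R, G * f = V * Y.a.d) →
        (∃ V : Matrix (Fin m) Y.b.I R, H * g = V * Y.b.d) → ∃ n, Fl n Y) → ∃ n, Fl n X := by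
  induction k with
  | zero =>
    rintro l m _ _ ⟨rfl, rfl⟩ c
    exact c X 1 1 (em_one X) hX ⟨0, by simp⟩ ⟨0, by simp⟩
  | succ k ih =>
    rintro l m G H ⟨l', m', G', H', N, N', e1, e2, h'⟩ c
    refine ih l' m' G' H' h' fun Y f g hE hY b1 b2 => ?_
    have hG : Hg 0 (fun _ => 0) X.a.p G := fun _ j _ => by rw [ha j, add_zero]
    have hH : Hg 0 (fun _ => 0) X.b.p H := fun _ j _ => by rw [hb j, add_zero]
    obtain ⟨W, hW⟩ := VInit_step hE e1 b2
    obtain ⟨Y₁, f₁, g₁, hE₁, hY₁, ⟨V₁, b3⟩, F₁⟩ :=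
      kill hR Y hY (G * f) (hG.mul hE.1.1 (by simp)) W hW
    have hE₁' := hE.mul hE₁
    obtain ⟨W', hW'⟩ := VInit_step hE₁'.swap e2 (VInit_bd b1 hE₁.1)
    obtain ⟨Y₂, g₂, f₂, hE₂, hY₂, ⟨V₂, b4⟩, F₂⟩ :=
      kill hR Y₁.swap ⟨hY₁.2.1, hY₁.1, hY₁.2.2.2, hY₁.2.2.1⟩ (H * (g * g₁))
        (hH.mul hE₁'.2.1.1 (by simp)) W' hW'
    obtain ⟨n, hn⟩ := c Y₂.swap (f * f₁ * f₂) (g * g₁ * g₂) (hE₁'.mul hE₂.swap)
      ⟨hY₂.2.1, hY₂.1, hY₂.2.2.2, hY₂.2.2.1⟩
      (VInit_bd ⟨V₁, by rw [← Matrix.mul_assoc, b3]⟩ hE₂.2.1) ⟨V₂, by rw [← Matrix.mul_assoc, b4]⟩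
    obtain ⟨n', hn'⟩ := F₂ n (Fl.sw _ _ hn)
    exact F₁ n' (Fl.sw _ _ hn')

theorem VInit_acy {X Y : Cx R} {f : Matrix X.I Y.I R} (h1 : ∀ i, 0 ≤ Y.p i) (h2 : Le Y 0)
    (h3 : ∀ v, Vd Y.p 0 v → ∃ w, Vd X.p 0 w ∧ w ᵥ* f = v) {L : Type} [Fintype L] (e : L ≃ X.I)
    (b : ∃ V : Matrix L Y.I R, (1 : Matrix X.I X.I R).submatrix e id * f = V * Y.d) : Acy Y := by
  intro k
  rcases lt_trichotomy k 0 with hk | rfl | hk
  · exact ge_of_le h1 k hk
  · intro v hv _
    obtain ⟨w, -, rfl⟩ := h3 v hv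
    obtain ⟨V, hV⟩ := b
    refine ⟨(w ∘ e) ᵥ* V, ?_⟩
    rw [vecMul_vecMul, ← hV, ← vecMul_vecMul, submatrix_vecMul_equiv]
    simp [Function.comp_assoc]
  · exact h2 k hk

/-- take for `G`, `H` renumbered identity matrices; in the end both sides are acyclic -/
theorem init (hR : Good R) (X : Tw A s t) (ha : ∀ i, X.a.p i = 0) (hb : ∀ i, X.b.p i = 0)
    (h : NilC A X.ρ X.σ) : ∃ n, Fl n X := by
  obtain ⟨k, hk⟩ := h.nl
  exact init_aux hR X ⟨fun i => (ha i).ge, fun i => (hb i).ge, le_of_le fun i => (ha i).le,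
    le_of_le fun i => (hb i).le⟩ ha hb k _ _ _ _ (hk _ _ _ _) fun Y f g hE hY b1 b2 =>
      ⟨0, Fl.base Y (VInit_acy hY.1 hY.2.2.1 hE.2.2.2.2.1 (Fintype.equivFin _).symm b1)
        (VInit_acy hY.2.1 hY.2.2.2 hE.2.2.2.2.2 (Fintype.equivFin _).symm b2)⟩

end Pool.Agent.Work.MP_9d1ffa_al.VN
end

-- merged part: Pool.Agent.Work.MP_9d1ffa_al.VSym
section
/-! Symmetric null homotopies. -/

namespace Pool.Agent.Work.MP_9d1ffa_al.VN

open Matrix

set_option linter.unusedSectionVars false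
set_option linter.unusedVariables false

variable {R Λ : Type} [Ring R] [StarRing R] [Ring Λ] [StarRing Λ] {A : Amb R Λ}
  {I : Type} [Fintype I] [DecidableEq I] {i : Bool} {n : ℤ}

theorem VSym_sq (e : ℤˣ) : (e : ℤ) * e = 1 := by
  rcases Int.units_eq_one_or e with rfl | rfl <;> simp

/-- the boundary operator on matrices -/
def VSym_D (d : Matrix I I Λ) (s : ℤ) : Matrix I I Λ →ₗ[ℤ] Matrix I I Λ :=
  LinearMap.mulLeft ℤ d + s • LinearMap.mulRight ℤ dᴴ

theorem VSym_apply (d : Matrix I I Λ) (s : ℤ) (y : Matrix I I Λ) :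
    VSym_D d s y = d * y + s • (y * dᴴ) := rfl

theorem VSym_ct (d : Matrix I I Λ) {s : ℤ} (hs : s * s = 1) (y : Matrix I I Λ) :
    (VSym_D d s y)ᴴ = s • VSym_D d s yᴴ := by
  rw [VSym_apply, VSym_apply, conjTranspose_add, conjTranspose_zsmul, conjTranspose_mul,
    conjTranspose_mul, conjTranspose_conjTranspose, smul_add, smul_smul, hs, one_smul, add_comm]

theorem VSym_DD {d : Matrix I I Λ} (hd : d * d = 0) (s : ℤ) (y : Matrix I I Λ) :
    VSym_D d s (VSym_D d (-s) y) = 0 := by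
  have hd' : dᴴ * dᴴ = 0 := by rw [← conjTranspose_mul, hd, conjTranspose_zero]
  simp only [VSym_apply, mul_add, add_mul, mul_smul_comm, smul_mul_assoc, ← mul_assoc d d, hd,
    mul_assoc y, hd', mul_assoc d, zero_mul, mul_zero, smul_zero, zero_add, add_zero]
  rw [neg_smul, neg_add_cancel]

/-- Choose a linear order on `I`; take the entries above the diagonal and use `A.two` on the
diagonal (with `0` where the entry is `0`). -/
theorem two_mat (e : ℤˣ) {p q : I → ℤ} {b : Matrix I I Λ} (hb : Bm A i n p q b)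
    (h : bᴴ = (e : ℤ) • b) : ∃ ω, Bm A i n p q ω ∧ b = ω + (e : ℤ) • ωᴴ := by
  have hs : ∀ k l, star (b l k) = (e : ℤ) • b k l := fun k l => congrFun (congrFun h k) l
  have h1 : ∀ k, ∃ w ∈ A.B i, b k k = w + (e : ℤ) • star w ∧ (w ≠ 0 → b k k ≠ 0) := fun k => by
    by_cases h0 : b k k = 0
    · exact ⟨0, zero_mem _, by simp [h0], fun e' => (e' rfl).elim⟩
    · obtain ⟨w, hw, e'⟩ := A.two i e _ (hb.2 k k) (hs k k)
      exact ⟨w, hw, e', fun _ => h0⟩
  choose w hw hw' hw'' using h1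
  let r := Fintype.equivFin I
  refine ⟨Matrix.of fun k l => if r k < r l then b k l else if k = l then w k else 0,
    ⟨fun k l h0 => hb.1 k l ?_, fun k l => ?_⟩, ?_⟩
  · rw [of_apply] at h0
    split_ifs at h0 with h2 h3
    · exact h0
    · exact h3 ▸ hw'' k h0
    · exact (h0 rfl).elim
  · rw [of_apply]
    split_ifs
    exacts [hb.2 k l, hw k, zero_mem _]
  · ext k l
    simp only [Matrix.add_apply, Matrix.smul_apply, conjTranspose_apply, of_apply]
    rcases lt_trichotomy (r k) (r l) with h2 | h2 | h2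
    · have h3 : l ≠ k := fun e' => h2.ne (by rw [e'])
      rw [if_pos h2, if_neg h2.not_gt, if_neg h3, star_zero, smul_zero, add_zero]
    · obtain rfl := r.injective h2
      rw [if_neg (lt_irrefl _), if_pos rfl]
      exact hw' k
    · have h3 : k ≠ l := fun e' => h2.ne (by rw [e'])
      rw [if_pos h2, if_neg h2.not_gt, if_neg h3, zero_add, hs, smul_smul, VSym_sq, one_smul]

theorem eqv_zero (ε : ℤˣ) {b : Matrix I I Λ} (hb : ∀ k l, b k l ∈ A.B i) (h : sy ε b = 0) :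
    Eqv ε 0 b := by
  have h1 : bᴴ = ((-ε : ℤˣ) : ℤ) • b := by
    rw [sy] at h
    rw [Units.val_neg]
    linear_combination (norm := module) (ε : ℤ) • h - VSym_sq ε • bᴴ
  obtain ⟨ω, -, h2⟩ := two_mat (A := A) (i := i) (n := 0) (-ε) (p := fun _ => 0) (q := fun _ => 0)
    ⟨fun _ _ _ => (add_zero _).symm, hb⟩ h1
  exact ⟨ω, by rw [zero_add, h2, Units.val_neg, neg_smul, sub_eq_add_neg]⟩

/-- Write `D s y = d y + s y dᴴ`, so `D s (D (-s) y) = 0` and `(D s y)ᴴ = s D s (yᴴ)`. Downward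
induction on `n` (for large `n` every homogeneous matrix vanishes, `exists_bound`), for all signs.
Choose `y₁` with `D s y₁ = x` (`Nu.bm`); `a = y₁ - s e y₁ᴴ` satisfies `D s a = 0` and
`aᴴ = -s e a`, so `a = D (-s) b` with `bᴴ = e b`; write `b = ω + e ωᴴ` and take
`y = y₁ - D (-s) ω`. -/
theorem sym_null {T : Cx R} (h : ∀ n, 1 ≤ n → Nu A n T T.dual) (hn : 1 ≤ n) (s e : ℤˣ)
    {x : Matrix T.I T.I Λ} (hx : Bm A i n T.p T.dual.p x) (h1 : xᴴ = (e : ℤ) • x)
    (h2 : A.m T.d * x = (s : ℤ) • (x * A.m T.dᴴ)) :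
    ∃ y, Bm A i (n + 1) T.p T.dual.p y ∧ yᴴ = ((s * e : ℤˣ) : ℤ) • y ∧
      x = A.m T.d * y + (s : ℤ) • (y * A.m T.dᴴ) := by
  obtain ⟨N, hN⟩ := exists_bound T.p
  have hm : A.m T.dᴴ = (A.m T.d)ᴴ := A.m_ct _
  have hct : ∀ {m : ℤ} {y : Matrix T.I T.I Λ}, Bm A i m T.p T.dual.p y →
      Bm A i m T.p T.dual.p yᴴ := fun hy => hy.ct.of fun k l e => by simp only at e ⊢; omega
  have key : ∀ (m : ℕ) (n : ℤ), 1 ≤ n → 2 * (N : ℤ) < n + m → ∀ (s e : ℤˣ) (x : Matrix T.I T.I Λ),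
      Bm A i n T.p T.dual.p x → xᴴ = (e : ℤ) • x → VSym_D (A.m T.d) (-s) x = 0 →
      ∃ y, Bm A i (n + 1) T.p T.dual.p y ∧ yᴴ = ((s : ℤ) * e) • y ∧
        x = VSym_D (A.m T.d) s y := by
    intro m
    induction m with
    | zero =>
      intro n _ hlt s e x hx _ _
      refine ⟨0, bm_zero, by simp, ?_⟩
      rw [map_zero]
      ext k l
      by_contra h0
      have := hx.1 k l h0
      have := hN k
      have := hN l
      simp only at *
      omega
    | succ m ih =>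
      intro n hn hlt s e x hx h1 h2
      have hs := VSym_sq s
      have he := VSym_sq e
      have hs' : -(s : ℤ) * -s = 1 := by rw [neg_mul_neg, hs]
      obtain ⟨y, hy, e1⟩ := (h n hn).bm s hx (by
        rw [VSym_apply, neg_smul, add_neg_eq_zero, ← hm] at h2
        exact h2)
      have e2 : x = VSym_D (A.m T.d) s y := by
        rw [VSym_apply, ← hm]
        exact e1
      have e3 := VSym_ct (A.m T.d) hs y
      rw [← e2, h1] at e3
      obtain ⟨b, hb, b1, b2⟩ := ih (n + 1) (by omega) (by omega) (-s) (-(s * e))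
        (y - ((s : ℤ) * e) • yᴴ) (hy.sub ((hct hy).zsmul _))
        (by
          rw [conjTranspose_sub, conjTranspose_zsmul, conjTranspose_conjTranspose]
          push_cast
          linear_combination (norm := module) -((e : ℤ) * e) • hs • yᴴ - he • yᴴ)
        (by
          rw [Units.val_neg, neg_neg, map_sub, map_zsmul, ← e2]
          linear_combination (norm := module) (e : ℤ) • e3 - he • x)
      obtain ⟨ω, hω, e4⟩ := two_mat e hb (by
        rw [b1]
        push_cast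
        linear_combination (norm := module) (e : ℤ) • hs • b)
      rw [e4, map_add, map_zsmul, Units.val_neg] at b2
      refine ⟨y - VSym_D (A.m T.d) (-s) ω, hy.sub ?_, ?_, ?_⟩
      · rw [VSym_apply, ← hm]
        exact (Bm.m_mul T.hd hω (by omega)).add ((hω.mul_m T.dual.hd (by omega)).zsmul _)
      · rw [conjTranspose_sub, VSym_ct _ hs']
        linear_combination (norm := module) -((s : ℤ) * e) • b2 - ((e : ℤ) * e) • hs • yᴴ
          - he • yᴴ - (s : ℤ) • he • VSym_D (A.m T.d) (-s) ωᴴ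
      · rw [map_sub, VSym_DD (A.m_dd T), sub_zero, e2]
  obtain ⟨y, hy, y1, y2⟩ := key (2 * N) n hn (by push_cast; omega) s e x hx h1 (by
    rw [VSym_apply, ← hm, h2, neg_smul, add_neg_cancel])
  exact ⟨y, hy, y1, by rw [y2, VSym_apply, hm]⟩

end Pool.Agent.Work.MP_9d1ffa_al.VN
end

-- merged part: Pool.Agent.Work.MP_9d1ffa_al.VSurg
section
/-! Surgery on a pure piece. -/

namespace Pool.Agent.Work.MP_9d1ffa_al.VN

open Matrix

set_option linter.unusedSectionVars false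
set_option linter.unusedVariables false

variable {R Λ : Type} [Ring R] [StarRing R] [Ring Λ] [StarRing Λ] {A : Amb R Λ}
  {s t : Bool} {ε : ℤˣ}

/-- Adding a dual pair whose second member is isotropic and orthogonal to everything else: conjugate
with the change of basis `e ↦ e - yᴴ u*` and renumber. -/
theorem iso_surg {J T : Type} [Fintype J] [DecidableEq J] [Fintype T] [DecidableEq T]
    (ψ φ : Matrix J J Λ) (η : Matrix T J Λ) (ω : Matrix T T Λ) :
    Iso ε (fromBlocks (fromBlocks ψ 0 η ω) (1 : Matrix (J ⊕ T) (J ⊕ T) Λ) 0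
        (fromBlocks φ 0 0 (0 : Matrix T T Λ)))
      (fromBlocks (fromBlocks ψ (1 : Matrix J J Λ) 0 φ) 0 0
        (fromBlocks ω (1 : Matrix T T Λ) (0 : Matrix T T Λ) 0)) := by
  obtain ⟨Y, hY⟩ : ∃ Y : Matrix (J ⊕ T) (J ⊕ T) Λ, Y = fromBlocks 0 (-ηᴴ) 0 0 := ⟨_, rfl⟩
  have h := iso_conj (ε := ε) (fromBlocks (fromBlocks ψ 0 η ω) (1 : Matrix (J ⊕ T) (J ⊕ T) Λ) 0
    (fromBlocks φ 0 0 (0 : Matrix T T Λ))) (J := (J ⊕ T) ⊕ (J ⊕ T)) (g := fromBlocks 1 Y 0 1)
    (g' := fromBlocks 1 (-Y) 0 1) (by simp [fromBlocks_multiply]) (by simp [fromBlocks_multiply])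
  refine h.trans ((iso_reindex _ (Equiv.sumSumSumComm J J T T)).trans (Iso.of_eqv (Eqv.of_eq ?_)))
  simp only [hY, fromBlocks_multiply, fromBlocks_conjTranspose, conjTranspose_zero,
    conjTranspose_one, conjTranspose_neg, conjTranspose_conjTranspose, Matrix.mul_zero,
    Matrix.zero_mul, Matrix.mul_one, Matrix.one_mul, add_zero, zero_add, fromBlocks_zero,
    fromBlocks_add, add_neg_cancel]
  ext ((k | k) | (k | k)) ((l | l) | (l | l)) <;> simp [one_apply]

/-- Let `c = ε j ηᴴ + η jᴴ`. It has degree `1`, `cᴴ = ε c` and `d c = c dᴴ`, so `sym_null` and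
`Uc.self` give `ζ` with `d ζ + ζ dᴴ = c`, and `two_mat` gives `ω` with `sy ε ω = ζ`. The new object
has the complex `P.ch.cone` and the forms `fromBlocks ψ 0 η ω`, `fromBlocks φ 0 0 0`. On its second
side there is the piece `(T.up.dual, fromCols 0 1, 0)` (`ch_sub`, `Uc.up_dual`), and there is a map
from `P.cone` to the exchanged cone of this piece with `f = 1`, `g` from `ch_quo`,
`h = fromCols 0 (-fromRows (ε • ηᴴ) ζ)`, `k = 0`. Conclude with `Fl.qis`, `Fl.v`, `Fl.sw`. -/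
theorem surgery (X : Sd A ε s t) (P : Pc X.tw) (hP : Uc A P.T) :
    ∃ (X' : Sd A ε s t) (ω : Matrix P.T.I P.T.I Λ), (∀ n, Fl n P.cone → Fl n X'.tw) ∧
      Iso ε X'.form (fromBlocks X.form 0 0
        (fromBlocks ω (1 : Matrix P.T.I P.T.I Λ) (0 : Matrix P.T.I P.T.I Λ) 0)) := by
  have e1 : A.m P.j * sy ε X.ψ + P.η * (A.m X.C.d)ᴴ = A.m P.T.d * P.η := by
    rw [← A.m_ct]; exact P.eq
  have e0 : A.m P.T.d * A.m P.j = A.m P.j * A.m X.C.d := by rw [← A.m_mul, ← A.m_mul, P.ch.2]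
  have e0' : (A.m P.j)ᴴ * (A.m P.T.d)ᴴ = (A.m X.C.d)ᴴ * (A.m P.j)ᴴ := by
    rw [← conjTranspose_mul, e0, conjTranspose_mul]
  have e2 : sy ε X.ψ * (A.m P.j)ᴴ + (ε : ℤ) • (A.m X.C.d * P.ηᴴ) =
      (ε : ℤ) • (P.ηᴴ * (A.m P.T.d)ᴴ) := by
    rw [← conjTranspose_mul, ← e1, conjTranspose_add, conjTranspose_mul, conjTranspose_mul,
      conjTranspose_conjTranspose, sy_ct, smul_add, Matrix.smul_mul, eps_eps]
  have b1 : Bm A s 1 X.C.p P.T.dual.p P.ηᴴ := P.hη.ct.of fun k l e => by simp only at e ⊢; omega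
  obtain ⟨ζ, hζ, z1, z2⟩ := sym_null (i := s) hP.self le_rfl 1 ε
    (x := (ε : ℤ) • (A.m P.j * P.ηᴴ) + P.η * (A.m P.j)ᴴ)
    (((Bm.m_mul P.ch.1 b1 (by simp)).zsmul _).add
      (by rw [← A.m_ct]; exact P.hη.mul_m P.ch.1.ct (by simp)))
    (by rw [conjTranspose_add, ct_zsmul, conjTranspose_mul, conjTranspose_mul,
      conjTranspose_conjTranspose, conjTranspose_conjTranspose, smul_add, eps_eps, add_comm])
    (by
      rw [Units.val_one, one_smul, A.m_ct, Matrix.mul_add, Matrix.add_mul, Matrix.mul_smul,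
        Matrix.smul_mul, ← Matrix.mul_assoc, ← Matrix.mul_assoc, e0, ← e1, Matrix.mul_assoc P.η,
        e0', Matrix.mul_assoc _ P.ηᴴ, ← Matrix.mul_smul, ← Matrix.mul_smul, ← e2, Matrix.mul_add,
        Matrix.add_mul]
      simp only [Matrix.mul_smul, Matrix.mul_assoc]
      abel)
  rw [one_mul] at z1
  rw [Units.val_one, one_smul, A.m_ct] at z2
  obtain ⟨ω, hω, rfl⟩ := two_mat ε hζ z1
  change Bm A s _ _ _ (sy ε ω) at hζ
  change _ = _ * sy ε ω + sy ε ω * _ at z2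
  have c1 : A.m X.C.d * sy ε X.ψ + sy ε X.ψ * (A.m X.C.d)ᴴ = 0 := by rw [← A.m_ct]; exact X.cψ
  have c2 : (A.m X.C.d)ᴴ * sy ε X.φ + sy ε X.φ * A.m X.C.d = 0 := by rw [← A.m_ct]; exact X.cφ
  let X' : Sd A ε s t :=
    { C := P.ch.cone
      ψ := fromBlocks X.ψ 0 P.η ω
      φ := fromBlocks X.φ 0 0 0
      hψ := (bm_blocks.2 ⟨X.hψ, bm_zero,
        P.hη.of (p' := P.T.up.p) fun k l e => by simp only at e ⊢; omega,
        hω.of (q' := P.T.up.dual.p) fun k l e => by simp only at e ⊢; omega⟩).of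
          fun k l e => by cases l <;> exact e
      hφ := (bm_blocks.2 ⟨X.hφ, bm_zero, bm_zero (p := P.T.up.dual.p), bm_zero⟩).of
        fun k l e => by cases k <;> exact e
      cψ := by
        simp only [A.m_ct, A.m_blocks, A.m_zero, A.m_neg, sy_blocks, fromBlocks_conjTranspose,
          fromBlocks_multiply, fromBlocks_add, conjTranspose_zero, conjTranspose_neg, smul_zero,
          Matrix.zero_mul, Matrix.mul_zero, add_zero, zero_add, Matrix.neg_mul, Matrix.mul_neg,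
          Matrix.mul_smul, Matrix.smul_mul]
        rw [← fromBlocks_zero, fromBlocks_inj]
        refine ⟨c1, ?_, ?_, ?_⟩
        · rw [← e2]; abel
        · rw [← e1]; abel
        · rw [← sub_eq_zero.2 z2]; abel
      cφ := by
        simp only [A.m_ct, A.m_blocks, A.m_zero, A.m_neg, sy_blocks, fromBlocks_conjTranspose,
          fromBlocks_multiply, fromBlocks_add, conjTranspose_zero, conjTranspose_neg, smul_zero,
          Matrix.zero_mul, Matrix.mul_zero, add_zero, sy_zero, c2, fromBlocks_zero] }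
  refine ⟨X', ω, fun n h => ?_, iso_surg X.ψ X.φ P.η ω⟩
  let Q : Pc X'.tw.swap :=
    { T := P.T.up.dual
      j := fromCols 0 1
      η := 0
      ch := ch_sub P.ch
      hη := bm_zero
      eq := by
        simp only [X', sy_blocks, A.m_cols, A.m_zero, A.m_one, fromCols_mul_fromBlocks,
          Matrix.zero_mul, Matrix.mul_zero, conjTranspose_zero, smul_zero, add_zero, sy_zero,
          fromCols_zero] }
  let F : Mp P.cone Q.cone.swap :=
    { f := 1
      g := fromCols (fromCols 1 0) (-P.jᴴ)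
      h := fromCols 0 (-fromRows ((ε : ℤ) • P.ηᴴ) (sy ε ω))
      k := 0
      cf := ch_one _
      cg := ch_quo P.ch
      hh := bm_cols.2 ⟨bm_zero, (bm_rows.2
        ⟨(b1.zsmul _).of fun k l e => by simp only [Q] at e ⊢; omega,
          hζ.of fun k l e => by simp only [Q] at e ⊢; omega⟩).neg⟩
      hk := bm_zero
      eh := by
        simp only [Q, X', sy_blocks, A.m_cols, A.m_blocks, A.m_zero, A.m_one, A.m_neg, A.m_ct,
          conjTranspose_zero, smul_zero, add_zero, zero_add, Matrix.one_mul, mul_fromCols,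
          fromCols_mul_fromBlocks, Matrix.mul_zero, Matrix.zero_mul, Matrix.mul_neg,
          Matrix.neg_mul, fromBlocks_mul_fromRows, fromRows_mul, Matrix.mul_one, conjTranspose_neg,
          neg_neg, Matrix.mul_smul, Matrix.smul_mul]
        rw [← e2, ← sub_eq_iff_eq_add'.2 z2]
        ext (k | k) ((l | l) | l) <;> simp
        abel
      ek := by
        simp only [Q, X', sy_blocks, A.m_cols, A.m_blocks, A.m_zero, A.m_one, A.m_neg, A.m_ct,
          conjTranspose_zero, smul_zero, add_zero, zero_add, Matrix.mul_one, sy_zero,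
          Matrix.mul_zero, Matrix.zero_mul, fromCols_mul_fromRows, fromCols_mul_fromBlocks,
          Matrix.one_mul]
      qf := qis_one _
      qg := qis_quo P.ch }
  exact Fl.sw _ n (Fl.v _ Q n hP.up_dual (Fl.sw _ n (h.qis F)))

end Pool.Agent.Work.MP_9d1ffa_al.VN
end

-- merged part: Pool.Agent.Work.MP_9d1ffa_al.VFin
section
/-! The form on a contractible complex is stably hyperbolic. -/

namespace Pool.Agent.Work.MP_9d1ffa_al.VN

open Matrix

set_option linter.unusedSectionVars false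
set_option linter.unusedVariables false

variable {R Λ : Type} [Ring R] [StarRing R] [Ring Λ] [StarRing Λ] {A : Amb R Λ}
  {s t : Bool} {ε : ℤˣ} {I : Type} [Fintype I] [DecidableEq I]

/-- A lagrangian with free image and free complement. As in `z_free` (file USchur): in the basis
`fromRows U U'` the form is equivalent to `fromBlocks 0 b c e`; the lower right block of the
inverse vanishes, so `b + ε cᴴ` is invertible and `z_lag` applies. -/
theorem z_lag_free {ψ μ F : Matrix I I Λ} (h1 : sy ε ψ * μ = 1) (h2 : μ * sy ε ψ = 1)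
    (hF : FreeIdem F) (hF' : FreeIdem (1 - F)) (e1 : Eqv ε 0 (F * ψ * Fᴴ))
    (e2 : (1 - F)ᴴ * μ * (1 - F) = 0) : Z ε ψ := by
  obtain ⟨b, _, _, U, W, a1, a2⟩ := hF
  obtain ⟨b', _, _, U', W', a1', a2'⟩ := hF'
  have u1 : U * F = U := by rw [← a2, ← Matrix.mul_assoc, a1, Matrix.one_mul]
  have u2 : F * W = W := by rw [← a2, Matrix.mul_assoc, a1, Matrix.mul_one]
  have u1' : U' * (1 - F) = U' := by rw [← a2', ← Matrix.mul_assoc, a1', Matrix.one_mul]
  have u2' : (1 - F) * W' = W' := by rw [← a2', Matrix.mul_assoc, a1', Matrix.mul_one]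
  have v1 : U * W' = 0 := by
    rw [← u2', ← Matrix.mul_assoc, Matrix.mul_sub, u1, Matrix.mul_one, sub_self, Matrix.zero_mul]
  have v2 : U' * W = 0 := by
    rw [← u1', Matrix.mul_assoc, Matrix.sub_mul, u2, Matrix.one_mul, sub_self, Matrix.mul_zero]
  have g1 : fromRows U U' * fromCols W W' = 1 := by
    rw [fromRows_mul_fromCols, a1, a1', v1, v2, fromBlocks_one]
  have g2 : fromCols W W' * fromRows U U' = 1 := by
    rw [fromCols_mul_fromRows, a2, a2', add_sub_cancel]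
  have c1 : Eqv ε 0 (U * ψ * Uᴴ) := by
    have h := e1.conj U
    have e : U * (F * ψ * Fᴴ) * Uᴴ = U * F * ψ * (U * F)ᴴ := by
      simp only [conjTranspose_mul, Matrix.mul_assoc]
    rwa [Matrix.mul_zero, Matrix.zero_mul, e, u1] at h
  have s1 : F * sy ε ψ * Fᴴ = 0 := by rw [← sy_conj, ← e1.sy_eq, sy_zero]
  have s2 : U * sy ε ψ * Fᴴ = 0 := by
    rw [← u1, Matrix.mul_assoc U, Matrix.mul_assoc U, s1, Matrix.mul_zero]
  have s3 : W'ᴴ * μ * (1 - F) = 0 := by
    rw [← u2', conjTranspose_mul, Matrix.mul_assoc W'ᴴ, Matrix.mul_assoc W'ᴴ, e2, Matrix.mul_zero]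
  have e : fromRows U U' * ψ * (fromRows U U')ᴴ =
      fromBlocks (U * ψ * Uᴴ) (U * ψ * U'ᴴ) (U' * ψ * Uᴴ) (U' * ψ * U'ᴴ) := by
    rw [fromRows_mul, conjTranspose_fromRows_eq_fromCols_conjTranspose, fromRows_mul_fromCols]
  have hB : U * ψ * U'ᴴ + (ε : ℤ) • (U' * ψ * Uᴴ)ᴴ = U * sy ε ψ * U'ᴴ := by
    simp only [sy, conjTranspose_mul, conjTranspose_conjTranspose, Matrix.mul_add, Matrix.add_mul,
      Matrix.mul_smul, Matrix.smul_mul, Matrix.mul_assoc]
  refine Z.iso (iso_conj _ g1 g2).symm ?_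
  rw [e]
  refine Z.eqv (eqv_blocks c1 (Eqv.refl _) rfl) (z_lag _ _ _ (W'ᴴ * μ * W) ?_ ?_)
  · rw [hB]
    calc U * sy ε ψ * U'ᴴ * (W'ᴴ * μ * W) = U * sy ε ψ * (W' * U')ᴴ * (μ * W) := by
          simp only [conjTranspose_mul, Matrix.mul_assoc]
      _ = U * (sy ε ψ * μ) * W := by
          rw [a2', conjTranspose_sub, conjTranspose_one, Matrix.mul_sub, s2, sub_zero,
            Matrix.mul_one]
          simp only [Matrix.mul_assoc]
      _ = 1 := by rw [h1, Matrix.mul_one, a1]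
  · rw [hB]
    have s4 : W'ᴴ * μ * F = W'ᴴ * μ := by
      rw [Matrix.mul_sub, Matrix.mul_one, sub_eq_zero] at s3
      exact s3.symm
    calc W'ᴴ * μ * W * (U * sy ε ψ * U'ᴴ) = W'ᴴ * μ * (W * U) * (sy ε ψ * U'ᴴ) := by
          simp only [Matrix.mul_assoc]
      _ = W'ᴴ * (μ * sy ε ψ) * U'ᴴ := by
          rw [a2, s4]
          simp only [Matrix.mul_assoc]
      _ = 1 := by rw [h2, Matrix.mul_one, ← conjTranspose_mul, a1', conjTranspose_one]

theorem VFin_pad {J : Type} [Fintype J] [DecidableEq J] {ψ μ F : Matrix I I Λ}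
    (h1 : sy ε ψ * μ = 1) (h2 : μ * sy ε ψ = 1)
    (hF : FreeIdem (fromBlocks F 0 0 (1 : Matrix J J Λ)))
    (hF' : FreeIdem (fromBlocks (1 - F) 0 0 (1 : Matrix J J Λ))) (e1 : Eqv ε 0 (F * ψ * Fᴴ))
    (e2 : (1 - F)ᴴ * μ * (1 - F) = 0) : Z ε ψ := by
  have f1 := USchur_ret hF
    (fromBlocks (1 : Matrix I I Λ) 0 0 (fromRows (1 : Matrix J J Λ) (0 : Matrix J J Λ)))
    (fromBlocks (1 : Matrix I I Λ) 0 0 (fromCols (1 : Matrix J J Λ) (0 : Matrix J J Λ)))
    (by simp [fromBlocks_multiply, fromCols_mul_fromRows])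
  have f2 := USchur_ret hF'
    (fromBlocks (1 : Matrix I I Λ) 0 0 (fromRows (0 : Matrix J J Λ) (1 : Matrix J J Λ)))
    (fromBlocks (1 : Matrix I I Λ) 0 0 (fromCols (0 : Matrix J J Λ) (1 : Matrix J J Λ)))
    (by simp [fromBlocks_multiply, fromCols_mul_fromRows])
  simp only [fromBlocks_multiply, Matrix.mul_zero, Matrix.zero_mul, add_zero, zero_add,
    Matrix.mul_one, Matrix.one_mul, fromRows_mul_fromCols] at f1 f2
  have d : (1 : Matrix (I ⊕ (J ⊕ J)) (I ⊕ (J ⊕ J)) Λ) -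
      fromBlocks F 0 0 (fromBlocks (1 : Matrix J J Λ) 0 0 0) =
      fromBlocks (1 - F) 0 0 (fromBlocks 0 0 0 (1 : Matrix J J Λ)) := by
    rw [sub_eq_iff_eq_add, fromBlocks_add, fromBlocks_add]
    simp
  have hs : sy ε (fromBlocks ψ 0 0 (hypF Λ J)) =
      fromBlocks (sy ε ψ) 0 0 (fromBlocks 0 1 ((ε : ℤ) • (1 : Matrix J J Λ)) 0) := by
    rw [sy_blocks, hypF, sy_blocks, sy_zero]
    simp only [conjTranspose_zero, smul_zero, add_zero, zero_add, conjTranspose_one]
  refine Z.cancel (z_lag_free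
    (μ := fromBlocks μ 0 0 (fromBlocks 0 ((ε : ℤ) • (1 : Matrix J J Λ)) 1 0))
    ?_ ?_ f1 (d ▸ f2) ?_ ?_) (z_hyp J)
  · rw [hs]
    simp only [fromBlocks_multiply, Matrix.mul_zero, Matrix.zero_mul, add_zero, zero_add,
      Matrix.mul_one, Matrix.smul_mul, Matrix.one_mul, eps_eps, h1, fromBlocks_one]
  · rw [hs]
    simp only [fromBlocks_multiply, Matrix.mul_zero, Matrix.zero_mul, add_zero, zero_add,
      Matrix.mul_one, Matrix.smul_mul, Matrix.one_mul, eps_eps, h2, fromBlocks_one]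
  · have e := eqv_blocks (b := 0) (c := 0) (b' := 0) (c' := 0) e1
      (Eqv.refl (0 : Matrix (J ⊕ J) (J ⊕ J) Λ)) rfl
    rw [fromBlocks_zero] at e
    simpa only [fromBlocks_multiply, fromBlocks_conjTranspose, hypF, Matrix.mul_zero,
      Matrix.zero_mul, add_zero, zero_add, conjTranspose_zero, conjTranspose_one, fromBlocks_zero,
      Matrix.mul_one] using e
  · rw [d]
    simp only [fromBlocks_multiply, fromBlocks_conjTranspose, e2, Matrix.mul_zero,
      Matrix.zero_mul, add_zero, zero_add, conjTranspose_zero, conjTranspose_one, fromBlocks_zero,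
      Matrix.mul_one]

/-- the stable version, as `USchur_pad` and `z_split` -/
theorem z_lag_sf {ψ μ F : Matrix I I Λ} (h1 : sy ε ψ * μ = 1) (h2 : μ * sy ε ψ = 1)
    (hF : SFIdem F) (hF' : SFIdem (1 - F)) (e1 : Eqv ε 0 (F * ψ * Fᴴ))
    (e2 : (1 - F)ᴴ * μ * (1 - F) = 0) : Z ε ψ := by
  obtain ⟨a, _, _, hF⟩ := hF
  obtain ⟨a', _, _, hF'⟩ := hF'
  exact VFin_pad h1 h2 (USchur_left hF a') (USchur_right hF' a) e1 e2

theorem sfIdem_m {E : Matrix I I R} (h : SFIdem E) : SFIdem (A.m E) := by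
  obtain ⟨a, _, _, b, _, _, U, W, a1, a2⟩ := h
  refine ⟨a, inferInstance, inferInstance, b, inferInstance, inferInstance, A.m U, A.m W, ?_, ?_⟩
  · rw [← A.m_mul, a1, A.m_one]
  · rw [← A.m_mul, a2, A.m_blocks, A.m_zero, A.m_zero, A.m_one]

theorem VFin_mem {i : Bool} {f : Matrix I I Λ} (hf : ∀ k l, f k l ∈ A.B i) (a : Matrix I I R)
    (k l : I) : (A.m a * f * (A.m a)ᴴ) k l ∈ A.B i := by
  rw [← A.m_ct]
  exact sum_mem fun j _ => A.B_right _ _ _ (sum_mem fun j' _ => A.B_left _ _ _ (hf j' j))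

/-- Let `E = k d` (idempotent, `1 - E = d k`) and `F = fromBlocks E 0 0 (1 - E)ᴴ`. The diagonal
blocks of `F ψ Fᴴ` are conjugates of `d ψ dᴴ` and `dᴴ φ d`, which have zero symmetrisation
(`eqv_zero`). With `δ = fromBlocks d 0 0 (-dᴴ)` one has `δ Φ + Φ δᴴ = 0` for `Φ = sy ε form`, hence
`μ δ + δᴴ μ = 0`, and `1 - F = δ * fromBlocks k 0 0 (-kᴴ)`. -/
theorem z_final (hR : SFI R) (X : Sd A ε s t) (hX : NS ε X.form) (k : Matrix X.C.I X.C.I R)
    (hk : X.C.d * k + k * X.C.d = 1) : Z ε X.form := by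
  obtain ⟨w, hw⟩ := hX
  have h1 : sy ε X.form * (w⁻¹).1 = 1 := by rw [← hw, Units.mul_inv]
  have h2 : (w⁻¹).1 * sy ε X.form = 1 := by rw [← hw, Units.inv_mul]
  generalize (w⁻¹).1 = μ at h1 h2
  have hdk : 1 - k * X.C.d = X.C.d * k := (eq_sub_of_add_eq hk).symm
  have hdkd : X.C.d * k * X.C.d = X.C.d := by
    rw [← hdk, Matrix.sub_mul, Matrix.one_mul, Matrix.mul_assoc, X.C.dd, Matrix.mul_zero, sub_zero]
  have i1 : k * X.C.d * (k * X.C.d) = k * X.C.d := by
    rw [Matrix.mul_assoc, ← Matrix.mul_assoc X.C.d, hdkd]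
  have i2 : X.C.d * k * (X.C.d * k) = X.C.d * k := by rw [← Matrix.mul_assoc, hdkd]
  have i3 : k * X.C.d * (X.C.d * k) = 0 := by
    rw [Matrix.mul_assoc, ← Matrix.mul_assoc X.C.d, X.C.dd, Matrix.zero_mul, Matrix.mul_zero]
  have hE : fromBlocks (k * X.C.d) 0 0 (X.C.d * k)ᴴ * fromBlocks (k * X.C.d) 0 0 (X.C.d * k)ᴴ =
      fromBlocks (k * X.C.d) 0 0 (X.C.d * k)ᴴ := by
    simp only [fromBlocks_multiply, Matrix.mul_zero, Matrix.zero_mul, add_zero, zero_add, i1,
      ← conjTranspose_mul, i2]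
  have hE' : (1 - fromBlocks (k * X.C.d) 0 0 (X.C.d * k)ᴴ) *
      (1 - fromBlocks (k * X.C.d) 0 0 (X.C.d * k)ᴴ) =
      1 - fromBlocks (k * X.C.d) 0 0 (X.C.d * k)ᴴ := by
    rw [Matrix.mul_sub, Matrix.mul_one, Matrix.sub_mul, Matrix.one_mul, hE, sub_self, sub_zero]
  have f1 := sfIdem_m (A := A) (hR _ _ hE)
  have f2 := sfIdem_m (A := A) (hR _ _ hE')
  rw [A.m_sub, A.m_one] at f2
  have dd := A.m_dd X.C
  have dd' : (A.m X.C.d)ᴴ * (A.m X.C.d)ᴴ = 0 := by rw [← conjTranspose_mul, dd, conjTranspose_zero]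
  have cψ := X.cψ
  have cφ := X.cφ
  rw [A.m_ct] at cψ cφ
  refine z_lag_sf h1 h2 f1 f2 ?_ ?_
  · have e : A.m (fromBlocks (k * X.C.d) 0 0 (X.C.d * k)ᴴ) * X.form *
        (A.m (fromBlocks (k * X.C.d) 0 0 (X.C.d * k)ᴴ))ᴴ =
        fromBlocks (A.m (k * X.C.d) * X.ψ * (A.m (k * X.C.d))ᴴ) 0 0
          (A.m (X.C.d * k)ᴴ * X.φ * (A.m (X.C.d * k)ᴴ)ᴴ) := by
      have e0 : A.m (k * X.C.d) * (A.m (X.C.d * k)ᴴ)ᴴ = 0 := by
        rw [A.m_ct, conjTranspose_conjTranspose, ← A.m_mul, i3, A.m_zero]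
      simp only [A.m_blocks, A.m_zero, Sd.form, fromBlocks_multiply, fromBlocks_conjTranspose,
        Matrix.mul_zero, Matrix.zero_mul, add_zero, zero_add, conjTranspose_zero, Matrix.mul_one,
        e0]
    rw [e, ← fromBlocks_zero]
    refine eqv_blocks (eqv_zero ε (VFin_mem X.hψ.2 _) ?_) (eqv_zero ε (VFin_mem X.hφ.2 _) ?_) rfl
    · rw [sy_conj, A.m_mul, conjTranspose_mul, Matrix.mul_assoc (A.m k),
        eq_neg_of_add_eq_zero_left cψ]
      simp only [Matrix.mul_neg, Matrix.neg_mul, Matrix.mul_assoc]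
      rw [← Matrix.mul_assoc (A.m X.C.d)ᴴ, dd', Matrix.zero_mul, Matrix.mul_zero, Matrix.mul_zero,
        neg_zero]
    · rw [sy_conj, A.m_ct, conjTranspose_conjTranspose, A.m_mul, conjTranspose_mul,
        Matrix.mul_assoc (A.m k)ᴴ, eq_neg_of_add_eq_zero_left cφ]
      simp only [Matrix.mul_neg, Matrix.neg_mul, Matrix.mul_assoc]
      rw [← Matrix.mul_assoc (A.m X.C.d), dd, Matrix.zero_mul, Matrix.mul_zero, Matrix.mul_zero,
        neg_zero]
  · have hk' : A.m X.C.d * A.m k + A.m k * A.m X.C.d = 1 := by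
      rw [← A.m_mul, ← A.m_mul, ← A.m_add, hk, A.m_one]
    have hk'' : (A.m X.C.d)ᴴ * (A.m k)ᴴ + (A.m k)ᴴ * (A.m X.C.d)ᴴ = 1 := by
      rw [← conjTranspose_mul, ← conjTranspose_mul, ← conjTranspose_add, add_comm, hk',
        conjTranspose_one]
    have e : 1 - A.m (fromBlocks (k * X.C.d) 0 0 (X.C.d * k)ᴴ) =
        fromBlocks (A.m X.C.d) 0 0 (-(A.m X.C.d)ᴴ) * fromBlocks (A.m k) 0 0 (-(A.m k)ᴴ) := by
      rw [sub_eq_iff_eq_add]
      simp only [A.m_blocks, A.m_zero, A.m_ct, A.m_mul, conjTranspose_mul, fromBlocks_multiply,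
        fromBlocks_add, Matrix.mul_zero, Matrix.zero_mul, add_zero, zero_add, Matrix.neg_mul,
        Matrix.mul_neg, neg_neg, neg_zero, hk', hk'', fromBlocks_one]
    have hs : sy ε X.form = fromBlocks (sy ε X.ψ) 1 ((ε : ℤ) • 1) (sy ε X.φ) := by
      rw [Sd.form, sy_blocks]
      simp only [conjTranspose_zero, smul_zero, add_zero, zero_add, conjTranspose_one]
    have hδ : fromBlocks (A.m X.C.d) 0 0 (-(A.m X.C.d)ᴴ) * sy ε X.form +
        sy ε X.form * (fromBlocks (A.m X.C.d) 0 0 (-(A.m X.C.d)ᴴ))ᴴ = 0 := by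
      rw [hs]
      simp only [fromBlocks_multiply, fromBlocks_conjTranspose, fromBlocks_add, Matrix.mul_zero,
        Matrix.zero_mul, add_zero, zero_add, conjTranspose_zero, conjTranspose_neg,
        conjTranspose_conjTranspose, Matrix.mul_one, Matrix.one_mul, Matrix.neg_mul,
        Matrix.mul_neg, Matrix.mul_smul, Matrix.smul_mul, cψ, add_neg_cancel, smul_neg, smul_zero,
        neg_add_cancel, ← neg_add, cφ, neg_zero, fromBlocks_zero]
    have hδδ : fromBlocks (A.m X.C.d) 0 0 (-(A.m X.C.d)ᴴ) *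
        fromBlocks (A.m X.C.d) 0 0 (-(A.m X.C.d)ᴴ) = 0 := by
      simp only [fromBlocks_multiply, Matrix.mul_zero, Matrix.zero_mul, add_zero, zero_add,
        Matrix.neg_mul, Matrix.mul_neg, neg_neg, neg_zero, dd, dd', fromBlocks_zero]
    rw [e]
    generalize fromBlocks (A.m X.C.d) 0 0 (-(A.m X.C.d)ᴴ) = δ at hδ hδδ ⊢
    generalize fromBlocks (A.m k) 0 0 (-(A.m k)ᴴ) = κ
    have hμ : δᴴ * μ = -(μ * δ) := by
      have h := congrArg (fun z => μ * z * μ) hδ
      simp only [Matrix.mul_add, Matrix.add_mul, Matrix.mul_zero, Matrix.zero_mul] at h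
      rw [Matrix.mul_assoc μ, Matrix.mul_assoc δ, h1, Matrix.mul_one, ← Matrix.mul_assoc μ, h2,
        Matrix.one_mul] at h
      exact eq_neg_of_add_eq_zero_right h
    rw [conjTranspose_mul, Matrix.mul_assoc κᴴ, hμ, Matrix.mul_assoc κᴴ, Matrix.neg_mul,
      Matrix.mul_assoc μ, ← Matrix.mul_assoc δ, hδδ, Matrix.zero_mul, Matrix.mul_zero, neg_zero,
      Matrix.mul_zero]

end Pool.Agent.Work.MP_9d1ffa_al.VN
end
end
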