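import Pool.Agent.Work.MP_9d1ffa_al.OU1
import Pool.Agent.Work.MP_9d1ffa_al.OK1
import Pool.Agent.Work.MP_9d1ffa_al.VFin
import Pool.Agent.Work.MP_9d1ffa_al.WDefs
import Pool.Agent.Work.MP_9d1ffa_al.NilP
import Pool.Agent.Work.MP_9d1ffa_al.UDefs
import Mathlib

-- merged part: Pool.Agent.Work.MP_9d1ffa_al.VLoc
section
-- merged part: Pool.Agent.Work.MP_9d1ffa_al.OK2
section
/-! Half spaces and balls in the Cayley tree of a free group. -/

namespace Pool.Agent.Work.MP_9d1ffa_al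

set_option linter.unusedSectionVars false
set_option linter.unusedVariables false

open FreeGroup

variable {X : Type} [DecidableEq X]

/-- the reduced word starts with the generator `x` -/
def St (x : X) (w : FreeGroup X) : Prop := w ∈ startsWith (x, true)

theorem OK2_st {x : X} {w : FreeGroup X} : St x w ↔ w.toWord.head? = some (x, true) := by
  rw [List.head?_eq_getElem?]
  rfl

theorem OK2_mul (u v : FreeGroup X)
    (h : ∀ p ∈ u.toWord.getLast?, ∀ q ∈ v.toWord.head?, p.1 = q.1 → p.2 = q.2) :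
    (u * v).toWord = u.toWord ++ v.toWord := by
  rw [toWord_mul]
  exact IsReduced.reduce_eq (List.IsChain.append isReduced_toWord isReduced_toWord h)

theorem OK2_left {w : FreeGroup X} {x : X} {b : Bool} {L : List (X × Bool)}
    (h : w.toWord = (x, b) :: L) : ((mk [(x, b)])⁻¹ * w).toWord = L := by
  have h1 : IsReduced ((x, b) :: L) := h ▸ isReduced_toWord
  have h2 : w = mk [(x, b)] * mk L := by rw [mul_mk, List.singleton_append, ← h, mk_toWord]
  rw [h2, inv_mul_cancel_left, toWord_mk]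
  exact IsReduced.reduce_eq (List.IsChain.tail h1)

theorem OK2_right {w : FreeGroup X} {x : X} {L : List (X × Bool)}
    (h : w.toWord = L ++ [(x, false)]) : (w * of x).toWord = L := by
  have h1 : IsReduced (L ++ [(x, false)]) := h ▸ isReduced_toWord
  have h2 : w = mk L * (of x)⁻¹ := by
    rw [of, inv_mk, mul_mk, ← mk_toWord (x := w), h]
    rfl
  rw [h2, inv_mul_cancel_right, toWord_mk]
  exact IsReduced.reduce_eq (List.isChain_append.1 h1).1

theorem OK2_not_st (x : X) (w : FreeGroup X) :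
    St x (of x * w) ↔ w.toWord.head? ≠ some (x, false) := by
  constructor
  · intro h e
    obtain ⟨L, hL⟩ := List.head?_eq_some_iff.1 e
    have h1 : IsReduced ((x, false) :: L) := hL ▸ isReduced_toWord
    have h2 : (of x * w).toWord = L := OK2_left hL
    rw [OK2_st, h2] at h
    obtain ⟨L', rfl⟩ := List.head?_eq_some_iff.1 h
    simpa using (isReduced_cons_cons.1 h1).1
  · intro h
    rw [OK2_st, OK2_mul, toWord_of]
    · rfl
    · rintro p hp ⟨y, b⟩ hq e
      rw [toWord_of] at hp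
      obtain rfl : (x, true) = p := by simpa using hp
      obtain rfl : x = y := e
      cases b
      · exact absurd hq h
      · rfl

theorem OK2_norm {x : X} {u u' : FreeGroup X} (a : St x u) (a' : ¬ St x u') :
    norm (u'⁻¹ * u) = norm u' + norm u := by
  rw [FreeGroup.norm, OK2_mul, List.length_append, toWord_inv, invRev_length]
  · rfl
  · rintro ⟨y, b⟩ hp q hq e
    rw [OK2_st] at a a'
    obtain rfl : (x, true) = q := Option.some.inj (a.symm.trans hq)
    obtain rfl : y = x := e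
    cases b
    · refine absurd ?_ a'
      rw [toWord_inv] at hp
      rcases hL : u'.toWord with _ | ⟨⟨z, c⟩, L⟩
      · simp [hL] at hp
      · rw [hL, invRev_cons] at hp
        simpa [invRev] using hp
    · rfl

/-- the edge from `k` to `k y` crosses the wall of `x` only if it is the edge from `1` to `x` -/
theorem st_mul_iff (x y : X) (k : FreeGroup X) (h : ¬ (k = 1 ∧ y = x)) :
    St x (k * of y) ↔ St x k := by
  rw [OK2_st, OK2_st]
  by_cases e : k.toWord.getLast? = some (y, false)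
  · obtain ⟨L, hL⟩ := List.getLast?_eq_some_iff.1 e
    rw [OK2_right hL, hL]
    cases L <;> simp
  · rw [OK2_mul, toWord_of]
    · rcases hL : k.toWord with _ | ⟨p, L⟩
      · simpa using fun c => h ⟨toWord_eq_nil_iff.1 hL, c⟩
      · simp
    · rintro ⟨z, b⟩ hp q hq c
      rw [toWord_of] at hq
      obtain rfl : (y, true) = q := by simpa using hq
      obtain rfl : z = y := c
      cases b
      · exact absurd hp e
      · rfl

theorem st_one (x : X) : ¬ St x 1 := by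
  simp [OK2_st]

theorem st_of (x : X) : St x (of x) := by
  simp [OK2_st]

open Classical in
/-- the half spaces around the vertex `1` cover all other vertices exactly once -/
theorem st_sum [Fintype X] (w : FreeGroup X) :
    ∑ x, ((if St x w then 1 else 0) + (if St x (of x * w) then 0 else 1) : ℤ) =
      if w = 1 then 0 else 1 := by
  simp only [OK2_not_st]
  simp only [OK2_st, ← toWord_eq_nil_iff]
  rcases w.toWord with _ | ⟨⟨z, b⟩, L⟩
  · simp
  · cases b <;> simp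

theorem st_ball {x : X} {h h' y : FreeGroup X} {N : ℕ} (a : St x h) (a' : ¬ St x h')
    (b : norm (h⁻¹ * y) ≤ N) (b' : norm (h'⁻¹ * y) ≤ N) :
    norm y ≤ N ∧ norm ((of x)⁻¹ * y) ≤ N := by
  by_cases c : St x y
  · have h1 := OK2_norm c a'
    obtain ⟨L, hL⟩ := List.head?_eq_some_iff.1 (OK2_st.1 c)
    have h2 : norm ((of x)⁻¹ * y) = L.length := congrArg List.length (OK2_left hL)
    have h3 : norm y = L.length + 1 := congrArg List.length hL
    omega
  · have h1 := OK2_norm a c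
    rw [← norm_inv_eq, mul_inv_rev, inv_inv] at h1
    have h2 := norm_mul_le (of x)⁻¹ y
    rw [norm_inv_eq, norm_of] at h2
    have h3 : norm h ≠ 0 := fun e => st_one x (norm_eq_zero.1 e ▸ a)
    omega

theorem ball_finite [Finite X] (N : ℕ) : {w : FreeGroup X | norm w ≤ N}.Finite :=
  (List.finite_length_le (X × Bool) N).preimage toWord_injective.injOn

end Pool.Agent.Work.MP_9d1ffa_al
end

-- merged part: Pool.Agent.Work.MP_9d1ffa_al.OK3
section
/-! Finitely generated submodules over a free group times a free abelian group. -/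

namespace Pool.Agent.Work.MP_9d1ffa_al

open Matrix MonoidAlgebra

set_option linter.unusedSectionVars false
set_option linter.unusedVariables false

section Gen

variable {F K I J : Type} [Group F] [Group K]

/-- the group ring element of an element of the first factor -/
noncomputable def OK3s (K : Type) [Group K] (b : F) : ZG (F × K) := single (b, 1) 1

theorem OK3s_mul (a b : F) : OK3s K a * OK3s K b = OK3s K (a * b) := by
  simp [OK3s, single_mul_single]

theorem OK3s_one : OK3s K (1 : F) = 1 := rfl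

theorem OK3_coeff (r : ZG (F × K)) (b f : F) (k : K) :
    (r * OK3s K b).coeff (f, k) = r.coeff (f * b⁻¹, k) := by
  simp [OK3s, coeff_mul_single_apply]

/-- the part of a vector over a set of first coordinates -/
noncomputable def OK3f (T : F → Prop) (z : J → ZG (F × K)) : J → ZG (F × K) :=
  fun j => fil (fun g => T g.1) (z j)

open Classical in
theorem OK3f_coeff (T : F → Prop) (z : J → ZG (F × K)) (j : J) (f : F) (k : K) :
    (OK3f T z j).coeff (f, k) = if T f then (z j).coeff (f, k) else 0 := coeff_fil _ _ _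

theorem OK3_ext {x y : J → ZG (F × K)} (h : ∀ j f k, (x j).coeff (f, k) = (y j).coeff (f, k)) :
    x = y := vec_ext fun j g => h j g.1 g.2

/-- the vectors all of whose homogeneous parts lie in `W` -/
def OK3h (W : Submodule (ZG (F × K)) (J → ZG (F × K))) :
    Submodule (ZG (F × K)) (J → ZG (F × K)) :=
  ind (D := (MonoidHom.inr F K).range)
    { carrier := {y | incV _ y ∈ W}
      zero_mem' := by
        have : incV (MonoidHom.inr F K).range (0 : J → _) = 0 := funext fun j => map_zero _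
        simp only [Set.mem_ofPred_eq, this, zero_mem]
      add_mem' := fun {a b} ha hb => by
        simp only [Set.mem_ofPred_eq, Ind_incV_add]
        exact W.add_mem ha hb
      smul_mem' := fun r y hy => by
        simp only [Set.mem_ofPred_eq, incV_smul]
        exact W.smul_mem _ hy }

theorem OK3h_ff [Fintype J] (hK : FA K) (W : Submodule (ZG (F × K)) (J → ZG (F × K))) :
    ∃ n, FF (ZG (F × K)) n (OK3h W) := by
  obtain ⟨n, ⟨e⟩⟩ := hK
  have hD : FA (MonoidHom.inr F K).range :=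
    ⟨n, ⟨(MonoidHom.ofInjective (f := MonoidHom.inr F K) fun a b h => (Prod.ext_iff.1 h).2).symm.trans
      e⟩⟩
  exact (ff_sub_fa hD _).imp fun m hm => hm.ind

theorem OK3f_eq (c : F × K) (z : J → ZG (F × K)) : OK3f (· = c.1) z =
    (single c (1 : ℤ) : ZG (F × K)) • incV (MonoidHom.inr F K).range (cmpV _ c z) := by
  let : MulAction (F × K) F := MulAction.compHom F (MonoidHom.fst F K)
  have e : ∀ g : F × K, g • (1 : F) = g.1 := fun g => mul_one g.1
  rw [← proj_const (1 : F)]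
  · funext j
    simp only [OK3f, proj, e, AddMonoidHom.coe_mk, ZeroHom.coe_mk]
  · intro g
    rw [e]
    exact ⟨fun h => ⟨g.2, Prod.ext h.symm rfl⟩, fun ⟨k, h⟩ => h ▸ rfl⟩

theorem OK3h_mem {W : Submodule (ZG (F × K)) (J → ZG (F × K))} {z : J → ZG (F × K)} :
    z ∈ OK3h W ↔ ∀ c : F, OK3f (· = c) z ∈ W := by
  refine ⟨fun h c => ?_, fun h c => ?_⟩
  · rw [OK3f_eq (c, (1 : K)) z]
    exact W.smul_mem _ (h _)
  · have := W.smul_mem (single c⁻¹ (1 : ℤ) : ZG (F × K)) (h c.1)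
    rwa [OK3f_eq, smul_smul, single_mul_single, inv_mul_cancel, mul_one, ← one_def,
      one_smul] at this

theorem OK3h_part [Finite J] {W : Submodule (ZG (F × K)) (J → ZG (F × K))} {z : J → ZG (F × K)}
    (h : z ∈ OK3h W) (T : F → Prop) : OK3f T z ∈ W := by
  let : MulAction (F × K) F := MulAction.compHom F (MonoidHom.fst F K)
  have e : ∀ g : F × K, g • (1 : F) = g.1 := fun g => mul_one g.1
  refine mem_of_proj (fun _ => (1 : F)) fun c => ?_
  by_cases hc : T c
  · convert OK3h_mem.1 h c using 1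
    refine OK3_ext fun j f k => ?_
    rw [coeff_proj, e, OK3f_coeff, OK3f_coeff]
    by_cases a : f = c <;> simp [a, hc]
  · convert W.zero_mem using 1
    refine OK3_ext fun j f k => ?_
    rw [coeff_proj, e, OK3f_coeff]
    by_cases a : f = c <;> simp [a, hc]

theorem OK3h_le [Finite J] {W : Submodule (ZG (F × K)) (J → ZG (F × K))} : OK3h W ≤ W :=
  fun z h => by
    convert OK3h_part h fun _ => True using 1
    exact OK3_ext fun j f k => by rw [OK3f_coeff, if_pos trivial]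

variable (B : Finset F)

/-- assembling the positions -/
noncomputable def OK3i : (B × I → ZG (F × K)) →ₗ[ZG (F × K)] (I → ZG (F × K)) where
  toFun z i := ∑ b : B, z (b, i) * OK3s K (b : F)
  map_add' z z' := by funext i; simp [add_mul, Finset.sum_add_distrib]
  map_smul' r z := by funext i; simp [Finset.mul_sum, mul_assoc]

theorem OK3i_apply (z : B × I → ZG (F × K)) (i : I) :
    OK3i B z i = ∑ b : B, z (b, i) * OK3s K (b : F) := rfl

open Classical in
/-- extension by zero -/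
noncomputable def OK3x (z : B × I → ZG (F × K)) (b : F) (i : I) : ZG (F × K) :=
  if h : b ∈ B then z (⟨b, h⟩, i) else 0

theorem OK3x_coe (z : B × I → ZG (F × K)) (b : B) (i : I) : OK3x B z b i = z (b, i) := dif_pos b.2

theorem OK3x_not (z : B × I → ZG (F × K)) {b : F} (h : b ∉ B) (i : I) : OK3x B z b i = 0 :=
  dif_neg h

/-- translation of the positions -/
noncomputable def OK3t (y : F) : (B × I → ZG (F × K)) →ₗ[ZG (F × K)] (B × I → ZG (F × K)) where
  toFun z j := OK3x B z (y * j.1) j.2 * OK3s K y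
  map_add' z z' := by
    funext j
    simp only [OK3x, Pi.add_apply]
    split_ifs <;> simp [add_mul]
  map_smul' r z := by
    funext j
    simp only [OK3x, Pi.smul_apply, RingHom.id_apply, smul_eq_mul]
    split_ifs <;> simp [mul_assoc]

theorem OK3t_apply (y : F) (z : B × I → ZG (F × K)) (b : B) (i : I) :
    OK3t B y z (b, i) = OK3x B z (y * b) i * OK3s K y := rfl

theorem OK3_shift {y : F} {z : B × I → ZG (F × K)} (h : ∀ (b : B) i, y⁻¹ * b ∉ B → z (b, i) = 0)
    (i : I) (φ : F → ZG (F × K)) :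
    ∑ b : B, OK3x B z (y * b) i * φ (y * b) = ∑ b : B, z (b, i) * φ b := by
  have e1 : ∑ b : B, z (b, i) * φ b = ∑ᶠ b, OK3x B z b i * φ b := by
    rw [finsum_eq_sum_of_support_subset (s := B), ← Finset.sum_coe_sort B]
    · simp only [OK3x_coe]
    · intro b hb
      by_contra e
      exact hb (by simp only [OK3x_not B z e, zero_mul])
  rw [e1, ← finsum_comp_equiv (Equiv.mulLeft y), finsum_eq_sum_of_support_subset (s := B),
    ← Finset.sum_coe_sort B]
  · rfl
  · intro b hb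
    by_contra e
    apply hb
    by_cases e' : y * b ∈ B
    · have := h ⟨_, e'⟩ i (by simpa using e)
      simp only [Equiv.coe_mulLeft, (OK3x_coe B z ⟨_, e'⟩ i).trans this, zero_mul]
    · simp only [Equiv.coe_mulLeft, OK3x_not B z e', zero_mul]

theorem OK3i_t {y : F} {z : B × I → ZG (F × K)} (h : ∀ (b : B) i, y⁻¹ * b ∉ B → z (b, i) = 0) :
    OK3i B (OK3t B y z) = OK3i B z := by
  funext i
  rw [OK3i_apply, OK3i_apply, ← OK3_shift B h i]
  simp only [OK3t_apply, mul_assoc, OK3s_mul]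

theorem OK3f_t (y c : F) (z : B × I → ZG (F × K)) :
    OK3f (· = c) (OK3t B y z) = OK3t B y (OK3f (· = c * y⁻¹) z) := by
  refine OK3_ext fun ⟨b, i⟩ f k => ?_
  rw [OK3f_coeff, OK3t_apply, OK3t_apply, OK3_coeff, OK3_coeff]
  by_cases e : y * b ∈ B
  · rw [OK3x_coe B z ⟨_, e⟩, OK3x_coe B _ ⟨_, e⟩, OK3f_coeff]
    by_cases a : f = c <;> simp [a]
  · simp [OK3x_not B _ e]

theorem OK3i_f (c : F) (z : B × I → ZG (F × K)) (i : I) (f : F) (k : K) :
    (OK3i B (OK3f (· = c) z) i).coeff (f, k) = (OK3x B z (c⁻¹ * f) i).coeff (c, k) := by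
  classical
  simp only [OK3i_apply, coeff_sum, Finsupp.finsetSum_apply, OK3_coeff, OK3f_coeff]
  by_cases e : c⁻¹ * f ∈ B
  · rw [Finset.sum_eq_single (⟨_, e⟩ : B), OK3x_coe B z ⟨_, e⟩]
    · simp
    · intro b _ hb
      rw [if_neg]
      rintro rfl
      exact hb (Subtype.ext (by simp))
    · simp
  · rw [OK3x_not B z e, Finset.sum_eq_zero]
    · simp
    · intro b _
      rw [if_neg]
      rintro rfl
      exact e (by simp)

/-- vectors supported on `B` come from homogeneous vectors -/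
theorem OK3_lift {U : Submodule (ZG (F × K)) (I → ZG (F × K))} {u : I → ZG (F × K)} (hu : u ∈ U)
    (h : ∀ i g, (u i).coeff g ≠ 0 → g.1 ∈ B) : ∃ z ∈ OK3h (U.comap (OK3i B)), OK3i B z = u := by
  classical
  let z : B × I → ZG (F × K) := fun j => OK3f (· = (j.1 : F)) u j.2 * OK3s K (j.1 : F)⁻¹
  have hz : OK3i B z = u := OK3_ext fun i f k => by
    simp only [OK3i_apply, z, mul_assoc, OK3s_mul, inv_mul_cancel, OK3s_one, mul_one, coeff_sum,
      Finsupp.finsetSum_apply, OK3f_coeff]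
    by_cases e : f ∈ B
    · rw [Finset.sum_eq_single (⟨_, e⟩ : B)]
      · simp
      · intro b _ hb
        rw [if_neg]
        rintro rfl
        exact hb rfl
      · simp
    · rw [Finset.sum_eq_zero, not_not.1 fun a => e (h i (f, k) a)]
      intro b _
      rw [if_neg]
      rintro rfl
      exact e b.2
  refine ⟨z, OK3h_mem.2 fun c => ?_, hz⟩
  by_cases hc : c = 1
  · have : OK3f (· = c) z = z := OK3_ext fun j f k => by
      simp only [OK3f_coeff, z, OK3_coeff, hc]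
      by_cases a : f = 1 <;> simp [a]
    rw [this, Submodule.mem_comap, hz]
    exact hu
  · have : OK3f (· = c) z = 0 := OK3_ext fun j f k => by
      simp only [OK3f_coeff, z, OK3_coeff]
      by_cases a : f = c <;> simp [a, hc]
    rw [this]
    exact zero_mem _

end Gen

open FreeGroup

section Tree

variable {X K I : Type} [Group K] [Fintype X] [DecidableEq X] (B : Finset (FreeGroup X))

/-- the boundary map of the tree -/
noncomputable def OK3d : (X × B × I → ZG (FreeGroup X × K)) →ₗ[ZG (FreeGroup X × K)]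
    (B × I → ZG (FreeGroup X × K)) :=
  ∑ x : X, (LinearMap.id - OK3t (K := K) (I := I) B (FreeGroup.of x)) ∘ₗ
    LinearMap.funLeft (ZG (FreeGroup X × K)) (ZG (FreeGroup X × K)) (Prod.mk x)

theorem OK3d_eq (w : X × B × I → ZG (FreeGroup X × K)) :
    OK3d B w = ∑ x : X, ((fun j => w (x, j)) - OK3t B (FreeGroup.of x) fun j => w (x, j)) := by
  rw [OK3d, LinearMap.sum_apply]
  rfl

/-- the admissible edge vectors -/
def OK3e (U : Submodule (ZG (FreeGroup X × K)) (I → ZG (FreeGroup X × K))) :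
    Submodule (ZG (FreeGroup X × K)) (X × B × I → ZG (FreeGroup X × K)) where
  carrier := {w | (∀ (x : X) (b : B) i, (FreeGroup.of x)⁻¹ * (b : FreeGroup X) ∉ B →
    w (x, b, i) = 0) ∧
    ∀ x, OK3i B (fun j => w (x, j)) ∈ U}
  zero_mem' := ⟨fun _ _ _ _ => rfl, fun x => by
    have : (fun j => (0 : X × B × I → ZG (FreeGroup X × K)) (x, j)) = 0 := rfl
    rw [this, map_zero]
    exact U.zero_mem⟩
  add_mem' := fun {a b} ha hb => ⟨fun x c i h => by
    rw [Pi.add_apply, ha.1 x c i h, hb.1 x c i h, add_zero], fun x => by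
    have : (fun j => (a + b) (x, j)) = (fun j => a (x, j)) + fun j => b (x, j) := rfl
    rw [this, map_add]
    exact U.add_mem (ha.2 x) (hb.2 x)⟩
  smul_mem' := fun r a ha => ⟨fun x c i h => by
    rw [Pi.smul_apply, ha.1 x c i h, smul_zero], fun x => by
    have : (fun j => (r • a) (x, j)) = r • fun j => a (x, j) := rfl
    rw [this, map_smul]
    exact U.smul_mem _ (ha.2 x)⟩

variable {U : Submodule (ZG (FreeGroup X × K)) (I → ZG (FreeGroup X × K))}

theorem OK3i_d {w : X × B × I → ZG (FreeGroup X × K)} (h : w ∈ OK3e B U) :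
    OK3i B (OK3d B w) = 0 := by
  rw [OK3d_eq, map_sum]
  refine Finset.sum_eq_zero fun x _ => ?_
  rw [map_sub, OK3i_t B (z := fun j => w (x, j)) (h.1 x), sub_self]

theorem OK3d_mem {w : X × B × I → ZG (FreeGroup X × K)} (h : w ∈ OK3h (OK3e B U)) :
    OK3d B w ∈ OK3h (U.comap (OK3i B)) := by
  rw [OK3d_eq]
  refine sum_mem fun x _ => sub_mem (OK3h_mem.2 fun c => (OK3h_mem.1 h c).2 x)
    (OK3h_mem.2 fun c => ?_)
  have := OK3h_mem.1 h (c * (FreeGroup.of x)⁻¹)
  rw [OK3f_t, Submodule.mem_comap, OK3i_t B]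
  · exact this.2 x
  · exact this.1 x

open Classical in
/-- the entries of the contraction -/
noncomputable def OK3l (K : Type) [Group K] (x : X) (b b' : FreeGroup X) : ZG (FreeGroup X × K) :=
  if St x (b * b'⁻¹) then OK3s K (b' * b⁻¹) else 0

/-- the contraction -/
noncomputable def OK3v (z : B × I → ZG (FreeGroup X × K)) (x : X) (b : FreeGroup X) (i : I) :
    ZG (FreeGroup X × K) :=
  ∑ b' : B, z (b', i) * OK3l K x b b'

theorem OK3l_one (x y : X) (b b' : FreeGroup X) :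
    OK3l K x b b' - OK3s K (FreeGroup.of y) * OK3l K x b ((FreeGroup.of y)⁻¹ * b') =
      if b' = b ∧ y = x then -1 else 0 := by
  have e : b * ((FreeGroup.of y)⁻¹ * b')⁻¹ = b * b'⁻¹ * of y := by group
  rw [OK3l, OK3l, e]
  by_cases h : b' = b ∧ y = x
  · obtain ⟨rfl, rfl⟩ := h
    simp [st_one, st_of, OK3s_mul, OK3s_one]
  · have := st_mul_iff x y (b * b'⁻¹) fun a => h ⟨(mul_inv_eq_one.1 a.1).symm, a.2⟩
    rw [if_neg h]
    by_cases a : St x (b * b'⁻¹)
    · rw [if_pos a, if_pos (this.2 a), OK3s_mul, mul_assoc, mul_inv_cancel_left, sub_self]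
    · rw [if_neg a, if_neg fun a' => a (this.1 a'), mul_zero, sub_self]

theorem OK3v_d {w : X × B × I → ZG (FreeGroup X × K)} (h : w ∈ OK3e B U) (x : X) (b : B) (i : I) :
    OK3v B (OK3d B w) x b i = -w (x, b, i) := by
  have e : ∀ y : X, ∑ b' : B, OK3t B (FreeGroup.of y) (fun j => w (y, j)) (b', i) * OK3l K x b b' =
      ∑ b' : B, w (y, b', i) * (OK3s K (FreeGroup.of y) * OK3l K x b ((FreeGroup.of y)⁻¹ * b')) := fun y => by
    rw [← OK3_shift B (z := fun j => w (y, j)) (h.1 y) i fun b₁ => OK3s K (FreeGroup.of y) * OK3l K x b ((FreeGroup.of y)⁻¹ * b₁)]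
    simp only [OK3t_apply, mul_assoc, inv_mul_cancel_left]
  simp only [OK3v, OK3d_eq, Finset.sum_apply, Pi.sub_apply, Finset.sum_mul, sub_mul]
  rw [Finset.sum_comm]
  simp only [Finset.sum_sub_distrib, e]
  simp only [← Finset.sum_sub_distrib, ← mul_sub, OK3l_one]
  rw [Finset.sum_eq_single x, Finset.sum_eq_single b]
  · simp
  · intro b' _ hb
    rw [if_neg fun a => hb (Subtype.ext a.1), mul_zero]
  · simp
  · intro y _ hy
    exact Finset.sum_eq_zero fun b' _ => by rw [if_neg fun a => hy a.2, mul_zero]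
  · simp

theorem OK3_rel {z : B × I → ZG (FreeGroup X × K)} (hz : OK3i B z = 0) (b : FreeGroup X) (i : I) :
    ∑ b' : B, z (b', i) * OK3s K (b' * b⁻¹ : FreeGroup X) = 0 := by
  simp only [← OK3s_mul, ← mul_assoc, ← Finset.sum_mul]
  rw [← OK3i_apply, hz, Pi.zero_apply, zero_mul]

theorem OK3v_zero {N : ℕ} (hB : ∀ b, b ∈ B ↔ norm b ≤ N) {z : B × I → ZG (FreeGroup X × K)}
    (hz : OK3i B z = 0) {x : X} {b : FreeGroup X} (h : ¬ (b ∈ B ∧ (FreeGroup.of x)⁻¹ * b ∈ B)) (i : I) :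
    OK3v B z x b i = 0 := by
  by_cases h1 : ∀ b' : B, St x (b * (b' : FreeGroup X)⁻¹)
  · simp only [OK3v, OK3l, h1, if_true, OK3_rel B hz]
  · obtain ⟨b₂, h2⟩ := not_forall.1 h1
    refine Finset.sum_eq_zero fun b₁ _ => ?_
    rw [OK3l, if_neg, mul_zero]
    intro h3
    apply h
    rw [hB, hB]
    exact st_ball h3 h2 (by simpa using (hB _).1 b₁.2) (by simpa using (hB _).1 b₂.2)

theorem OK3x_v {N : ℕ} (hB : ∀ b, b ∈ B ↔ norm b ≤ N) {z : B × I → ZG (FreeGroup X × K)}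
    (hz : OK3i B z = 0) (x : X) (b : FreeGroup X) (i : I) :
    OK3x B (fun j : B × I => OK3v B z x j.1 j.2) b i = OK3v B z x b i := by
  by_cases e : b ∈ B
  · exact OK3x_coe B _ ⟨b, e⟩ i
  · rw [OK3x_not B _ e, OK3v_zero B hB hz fun a => e a.1]

theorem OK3l_sum (b b' : FreeGroup X) :
    ∑ x : X, (OK3l K x b b' - OK3l K x (FreeGroup.of x * b) b' * OK3s K (FreeGroup.of x)) =
      (1 - Fintype.card X : ℤ) • OK3s K (b' * b⁻¹) - if b' = b then 1 else 0 := by
  classical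
  have e : ∀ x : X, OK3l K x b b' - OK3l K x (FreeGroup.of x * b) b' * OK3s K (FreeGroup.of x) =
      (((if St x (b * b'⁻¹) then 1 else 0) + (if St x (FreeGroup.of x * (b * b'⁻¹)) then 0 else 1) : ℤ) - 1) •
        OK3s K (b' * b⁻¹) := fun x => by
    rw [OK3l, OK3l, mul_assoc]
    by_cases a : St x (b * b'⁻¹) <;> by_cases a' : St x (FreeGroup.of x * (b * b'⁻¹)) <;>
      simp [a, a', OK3s_mul, mul_assoc]
  simp only [e, ← Finset.sum_smul]
  rw [Finset.sum_sub_distrib, st_sum]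
  by_cases h : b' = b
  · simp [h, OK3s_one, sub_smul]
  · rw [if_neg h, if_neg fun a => h (mul_inv_eq_one.1 a).symm]
    simp

theorem OK3d_v {N : ℕ} (hB : ∀ b, b ∈ B ↔ norm b ≤ N) {z : B × I → ZG (FreeGroup X × K)}
    (hz : OK3i B z = 0) : OK3d B (fun j => OK3v B z j.1 j.2.1 j.2.2) = -z := by
  funext ⟨b, i⟩
  simp only [OK3d_eq, Finset.sum_apply, Pi.sub_apply, OK3t_apply, OK3x_v B hB hz]
  simp only [OK3v, Finset.sum_mul, ← Finset.sum_sub_distrib, mul_assoc, ← mul_sub]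
  rw [Finset.sum_comm]
  simp only [← Finset.mul_sum, OK3l_sum]
  simp only [mul_sub, mul_smul_comm, Finset.sum_sub_distrib, ← Finset.smul_sum, OK3_rel B hz]
  rw [Finset.sum_eq_single b]
  · simp
  · intro b' _ hb
    rw [if_neg fun a => hb (Subtype.ext a), mul_zero]
  · simp

theorem OK3v_mem [Finite I] {N : ℕ} (hB : ∀ b, b ∈ B ↔ norm b ≤ N)
    {z : B × I → ZG (FreeGroup X × K)} (hz : OK3i B z = 0) (h : z ∈ OK3h (U.comap (OK3i B))) :
    (fun j : X × B × I => OK3v B z j.1 j.2.1 j.2.2) ∈ OK3h (OK3e B U) := by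
  refine OK3h_mem.2 fun c => ⟨fun x b i hb => ?_, fun x => ?_⟩
  · simp only [OK3f, OK3v_zero B hB hz fun a => hb a.2, map_zero]
  · convert OK3h_part h fun g => St x (c⁻¹ * g) using 1
    rw [Submodule.mem_comap]
    congr! 1
    refine OK3_ext fun i f k => ?_
    have := OK3i_f B c (fun j : B × I => OK3v B z x j.1 j.2) i f k
    rw [OK3x_v B hB hz] at this
    refine this.trans ?_
    simp only [OK3v, OK3i_apply, coeff_sum, Finsupp.finsetSum_apply, OK3_coeff, OK3f_coeff, OK3l]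
    refine Finset.sum_congr rfl fun b' _ => ?_
    rw [mul_assoc c⁻¹]
    split_ifs
    · simp [OK3_coeff, mul_assoc]
    · simp

end Tree

variable {X K I : Type} [Group K] [Fintype I]

theorem ff_of_fg [Finite X] (hK : FA K)
    (U : Submodule (ZG (FreeGroup X × K)) (I → ZG (FreeGroup X × K))) (hU : U.FG) :
    ∃ n, FF (ZG (FreeGroup X × K)) n U := by
  classical
  have := Fintype.ofFinite X
  obtain ⟨S, hS⟩ := hU
  let N : ℕ := S.sup fun u => Finset.univ.sup fun i => (u i).coeff.support.sup fun g => norm g.1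
  let B : Finset (FreeGroup X) := (ball_finite N).toFinset
  have hB : ∀ b, b ∈ B ↔ norm b ≤ N := fun b => Set.Finite.mem_toFinset _
  obtain ⟨n, hn⟩ := OK3h_ff hK (OK3e B U)
  obtain ⟨m, hm⟩ := OK3h_ff hK (U.comap (OK3i B))
  refine FF.coker ((OK3d B).restrict fun w hw => OK3d_mem B hw)
    ((OK3i B).restrict fun z hz => OK3h_le (W := U.comap (OK3i B)) hz) ?_ (fun z => ⟨fun hz => ?_, ?_⟩) ?_ hn hm
  · refine (injective_iff_map_eq_zero _).2 fun w hw => Subtype.ext ?_
    have h0 : OK3d B w.1 = 0 := congrArg Subtype.val hw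
    funext ⟨x, b, i⟩
    have := OK3v_d B (OK3h_le w.2) x b i
    simpa [h0, OK3v] using this
  · have h0 : OK3i B z.1 = 0 := congrArg Subtype.val hz
    refine ⟨-⟨_, OK3v_mem B hB h0 z.2⟩, ?_⟩
    rw [map_neg, neg_eq_iff_eq_neg]
    exact Subtype.ext (OK3d_v B hB h0)
  · rintro ⟨w, rfl⟩
    exact Subtype.ext (OK3i_d B (OK3h_le w.2))
  · have : U ≤ (OK3h (U.comap (OK3i B))).map (OK3i B) := by
      conv_lhs => rw [← hS]
      refine Submodule.span_le.2 fun u hu => OK3_lift B (hS ▸ Submodule.subset_span hu) ?_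
      intro i g hg
      rw [hB]
      exact (Finset.le_sup (f := fun g : FreeGroup X × K => norm g.1)
        (Finsupp.mem_support_iff.2 hg)).trans ((Finset.le_sup (f := fun i =>
          (u i).coeff.support.sup fun g => norm g.1) (Finset.mem_univ i)).trans
          (Finset.le_sup (f := fun u : I → ZG (FreeGroup X × K) => Finset.univ.sup fun i =>
            (u i).coeff.support.sup fun g => norm g.1) hu))
    rintro ⟨u, hu⟩
    obtain ⟨z, hz, rfl⟩ := this hu
    exact ⟨⟨z, hz⟩, rfl⟩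

end Pool.Agent.Work.MP_9d1ffa_al
end

-- merged part: Pool.Agent.Work.MP_9d1ffa_al.ODec
section
/-! Every relator is the image of a surface relator. -/

namespace Pool.Agent.Work.MP_9d1ffa_al

set_option linter.unusedSectionVars false
set_option linter.unusedVariables false

open FreeGroup

variable {X : Type}

theorem ODec_one (z : FreeGroup X) : ∃ S : Finset X, z ∈ Gn (S : Set X) := by
  classical
  induction z using FreeGroup.induction_on with
  | C1 => exact ⟨∅, one_mem _⟩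
  | of x => exact ⟨{x}, Subgroup.subset_closure ⟨x, by simp, rfl⟩⟩
  | inv_of x h =>
    obtain ⟨S, hS⟩ := h
    exact ⟨S, inv_mem hS⟩
  | mul a b ha hb =>
    obtain ⟨S, hS⟩ := ha
    obtain ⟨S', hS'⟩ := hb
    exact ⟨S ∪ S', mul_mem
      (Subgroup.closure_mono (Set.image_mono (by simp)) hS)
      (Subgroup.closure_mono (Set.image_mono (by simp)) hS')⟩

theorem fin_gen (T : Finset (FreeGroup X)) :
    ∃ S : Finset X, ∀ z ∈ T, z ∈ Gn (S : Set X) := by
  classical
  choose F hF using ODec_one (X := X)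
  refine ⟨T.biUnion F, fun z hz => Subgroup.closure_mono (Set.image_mono ?_) (hF z)⟩
  exact Finset.coe_subset.2 (Finset.subset_biUnion_of_mem F hz)

theorem ODec_comm {G : Type} [Group G] {z : G} (hz : z ∈ commutator G) :
    ∃ l : List (G × G), z = (l.map fun p => p.1 * p.2 * p.1⁻¹ * p.2⁻¹).prod := by
  rw [commutator_eq_closure] at hz
  induction hz using Subgroup.closure_induction'' with
  | mem x hx =>
    obtain ⟨a, b, rfl⟩ := hx
    exact ⟨[(a, b)], by simp [commutatorElement_def]⟩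
  | inv_mem x hx =>
    obtain ⟨a, b, rfl⟩ := hx
    exact ⟨[(b, a)], by simp [commutatorElement_def, mul_assoc]⟩
  | one => exact ⟨[], rfl⟩
  | mul x y _ _ hx hy =>
    obtain ⟨l, rfl⟩ := hx
    obtain ⟨l', rfl⟩ := hy
    exact ⟨l ++ l', by simp⟩

theorem ODec_gcd (v : X →₀ ℤ) : ∃ (e : ℕ) (u : X →₀ ℤ) (β : X → ℤ), v = e • u ∧
    Finsupp.linearCombination ℤ β v = e := by
  obtain ⟨β, hβ⟩ := Finset.gcd_eq_sum_mul v.support v
  have h0 : 0 ≤ v.support.gcd v := by
    rw [← Finset.normalize_gcd, ← Int.abs_eq_normalize]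
    exact abs_nonneg _
  obtain ⟨e, he⟩ := Int.eq_ofNat_of_zero_le h0
  refine ⟨e, v.mapRange (· / (e : ℤ)) (Int.zero_ediv _), β, ?_, ?_⟩
  · ext x
    have hd : (e : ℤ) ∣ v x := by
      by_cases hx : x ∈ v.support
      · exact he ▸ Finset.gcd_dvd hx
      · rw [Finsupp.notMem_support_iff.1 hx]
        exact dvd_zero _
    rw [Finsupp.smul_apply, Finsupp.mapRange_apply, nsmul_eq_mul, Int.mul_ediv_cancel' hd]
  · rw [← he, hβ, Finsupp.linearCombination_apply]
    rfl

theorem exists_decomp (r : FreeGroup X) : ∃ (e : ℕ) (c : FreeGroup X)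
    (l : List (FreeGroup X × FreeGroup X)) (χ : FreeGroup X →* Cy), χ r = of () ^ e ∧
      r = c ^ e * (l.map fun p => p.1 * p.2 * p.1⁻¹ * p.2⁻¹).prod := by
  let σ : FreeGroup X →* Multiplicative (X →₀ ℤ) :=
    FreeGroup.lift fun x => Multiplicative.ofAdd (Finsupp.single x 1)
  let τ : Multiplicative (X →₀ ℤ) →* Abelianization (FreeGroup X) :=
    AddMonoidHom.toMultiplicativeLeft (Finsupp.linearCombination ℤ
      fun x => Additive.ofMul (Abelianization.of (of x))).toAddMonoidHom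
  have hτ : τ.comp σ = Abelianization.of := by
    ext x
    simp [σ, τ]
  obtain ⟨e, u, β, hu, hβ⟩ := ODec_gcd (Multiplicative.toAdd (σ r))
  obtain ⟨c, hc⟩ : ∃ c, Abelianization.of c = τ (Multiplicative.ofAdd u) :=
    QuotientGroup.mk_surjective _
  have h1 : (c ^ e)⁻¹ * r ∈ commutator (FreeGroup X) := by
    rw [← Abelianization.ker_of, MonoidHom.mem_ker, _root_.map_mul, _root_.map_inv, _root_.map_pow,
      hc, ← _root_.map_pow, ← ofAdd_nsmul, ← hu, ← hτ]
    simp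
  obtain ⟨l, hl⟩ := ODec_comm h1
  refine ⟨e, c, l, (zpowersHom Cy (of ())).comp
    ((AddMonoidHom.toMultiplicative (Finsupp.linearCombination ℤ β).toAddMonoidHom).comp σ),
    ?_, by rw [← hl, mul_inv_cancel_left]⟩
  change of () ^ (Finsupp.linearCombination ℤ β (Multiplicative.toAdd (σ r))) = _
  rw [hβ, zpow_natCast]

theorem ODec_map {G : Type} [Group G] (c : G) (e : ℕ) (L : List (G × G)) :
    ∃ f : FreeGroup (Option (Fin L.length × Bool)) →* G,
      f (surfRel e L.length) = c ^ e * (L.map fun p => p.1 * p.2 * p.1⁻¹ * p.2⁻¹).prod ∧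
      f (of none) = c ∧ (∀ i, f (of (some (i, false))) = (L.get i).1) ∧
      ∀ i, f (of (some (i, true))) = (L.get i).2 := by
  refine ⟨FreeGroup.lift fun o => o.elim c fun p => if p.2 then (L.get p.1).2 else (L.get p.1).1,
    ?_, by simp, fun i => by simp, fun i => by simp⟩
  rw [surfRel, _root_.map_mul, _root_.map_pow, map_list_prod, List.map_ofFn]
  conv_rhs => rw [← List.ofFn_get L, List.map_ofFn]
  congr 3
  · simp
  · funext i
    simp

theorem exists_surf (r : FreeGroup X) (S : Finset X) : ∃ (e g : ℕ)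
    (f : FreeGroup (Option (Fin (g + 1) × Bool)) →* FreeGroup X)
    (s : FreeGroup X →* FreeGroup (Option (Fin (g + 1) × Bool))) (χ : FreeGroup X →* Cy),
    f (surfRel e (g + 1)) = r ∧ χ r = of () ^ e ∧ (∀ z, f (s (f z)) = f z) ∧
      ∀ x ∈ S, f (s (of x)) = of x := by
  classical
  obtain ⟨e, c, l, χ, hχ, hr⟩ := exists_decomp r
  obtain ⟨S₁, hS₁⟩ := fin_gen (insert c ((l.map Prod.fst).toFinset ∪ (l.map Prod.snd).toFinset))
  have hS₂ : ∀ z ∈ insert c ((l.map Prod.fst).toFinset ∪ (l.map Prod.snd).toFinset),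
      z ∈ Gn ((S ∪ S₁ : Finset X) : Set X) := fun z hz =>
    Subgroup.closure_mono (Set.image_mono (by simp)) (hS₁ z hz)
  have hS : S ⊆ S ∪ S₁ := Finset.subset_union_left
  generalize S ∪ S₁ = S' at hS₂ hS
  let L : List (FreeGroup X × FreeGroup X) := (1, 1) :: (l ++ S'.toList.map fun x => (of x, 1))
  obtain ⟨f, h1, h2, h3, h4⟩ := ODec_map c e L
  let s : FreeGroup X →* FreeGroup (Option (Fin L.length × Bool)) := FreeGroup.lift fun x =>
    if h : ∃ i, (L.get i).1 = of x then of (some (h.choose, false)) else 1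
  have hs : ∀ x ∈ S', f (s (of x)) = of x := fun x hx => by
    have hm : (of x, (1 : FreeGroup X)) ∈ L :=
      List.mem_cons_of_mem _ (List.mem_append_right _
        (List.mem_map.2 ⟨x, Finset.mem_toList.2 hx, rfl⟩))
    obtain ⟨i, hi⟩ := List.get_of_mem hm
    have h : ∃ i, (L.get i).1 = of x := ⟨i, by rw [hi]⟩
    rw [FreeGroup.lift_apply_of, dif_pos h, h3, h.choose_spec]
  have hG : ∀ z ∈ Gn (S' : Set X), f (s z) = z := fun z hz =>
    (Subgroup.closure_le ((f.comp s).eqLocus (MonoidHom.id _))).2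
      (by rintro _ ⟨x, hx, rfl⟩; exact hs x hx) hz
  have hL : ∀ p ∈ L, p.1 ∈ Gn (S' : Set X) ∧ p.2 ∈ Gn (S' : Set X) := fun p hp => by
    rcases List.mem_cons.1 hp with rfl | hp
    · exact ⟨one_mem _, one_mem _⟩
    rcases List.mem_append.1 hp with hp | hp
    · exact ⟨hS₂ _ (Finset.mem_insert_of_mem (Finset.mem_union_left _
        (List.mem_toFinset.2 (List.mem_map_of_mem hp)))),
        hS₂ _ (Finset.mem_insert_of_mem (Finset.mem_union_right _
        (List.mem_toFinset.2 (List.mem_map_of_mem hp))))⟩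
    · obtain ⟨x, hx, rfl⟩ := List.mem_map.1 hp
      exact ⟨Subgroup.subset_closure ⟨x, Finset.mem_toList.1 hx, rfl⟩, one_mem _⟩
  have hf : ∀ z, f z ∈ Gn (S' : Set X) := fun z => by
    induction z using FreeGroup.induction_on with
    | C1 => rw [_root_.map_one]; exact one_mem _
    | of o =>
      rcases o with _ | ⟨i, _ | _⟩
      · rw [h2]
        exact hS₂ c (Finset.mem_insert_self _ _)
      · rw [h3]
        exact (hL _ (List.get_mem _ _)).1
      · rw [h4]
        exact (hL _ (List.get_mem _ _)).2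
    | inv_of o h => rw [_root_.map_inv]; exact inv_mem h
    | mul a b ha hb => rw [_root_.map_mul]; exact mul_mem ha hb
  refine ⟨e, (l ++ S'.toList.map fun x => ((of x, 1) : FreeGroup X × FreeGroup X)).length, f, s, χ,
    h1.trans ?_, hχ, fun z => hG _ (hf z), fun x hx => hs x (hS hx)⟩
  rw [hr]
  have h5 : ((S'.toList.map fun x => ((of x, 1) : FreeGroup X × FreeGroup X)).map
      fun p => p.1 * p.2 * p.1⁻¹ * p.2⁻¹).prod = 1 := by
    refine List.prod_eq_one fun z hz => ?_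
    obtain ⟨p, hp, rfl⟩ := List.mem_map.1 hz
    obtain ⟨x, -, rfl⟩ := List.mem_map.1 hp
    simp
  simp only [L, List.map_cons, List.prod_cons, List.map_append, List.prod_append, h5, mul_one,
    inv_one, one_mul]

/-- a homomorphism to a commutative group sends the surface relator to a power -/
theorem map_surfRel {A : Type} [CommGroup A] (e g : ℕ)
    (f : FreeGroup (Option (Fin g × Bool)) →* A) : f (surfRel e g) = f (of none) ^ e := by
  rw [surfRel, _root_.map_mul, _root_.map_pow, map_list_prod, List.prod_eq_one, mul_one]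
  intro z hz
  obtain ⟨p, hp, rfl⟩ := List.mem_map.1 hz
  obtain ⟨i, rfl⟩ := List.mem_ofFn.1 hp
  simp

end Pool.Agent.Work.MP_9d1ffa_al
end

-- merged part: Pool.Agent.Work.MP_9d1ffa_al.OK4
section
/-! Projective modules over a free group times a free abelian group are stably free. -/

namespace Pool.Agent.Work.MP_9d1ffa_al

open Matrix MonoidAlgebra

set_option linter.unusedSectionVars false
set_option linter.unusedVariables false

variable {X K : Type} [Group K]

theorem sfi_free (hK : FA K) : SFI (ZG (FreeGroup X × K)) := by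
  classical
  intro I _ _ E hE
  obtain ⟨T, hT⟩ := exists_sup_finset E
  obtain ⟨S, hS⟩ := fin_gen (T.image Prod.fst)
  let ι : FreeGroup S →* FreeGroup X := FreeGroup.map Subtype.val
  let ρ : FreeGroup X →* FreeGroup S :=
    FreeGroup.lift fun x => if h : x ∈ S then FreeGroup.of ⟨x, h⟩ else 1
  have key : ∀ z ∈ Gn (S : Set X), ι (ρ z) = z := fun z hz => by
    refine (Subgroup.closure_le ((ι.comp ρ).eqLocus (MonoidHom.id _))).2 ?_ hz
    rintro _ ⟨x, hx, rfl⟩
    have hx' : x ∈ S := hx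
    change ι (ρ (FreeGroup.of x)) = FreeGroup.of x
    simp [ι, ρ, hx']
  have e : mp (ι.prodMap (MonoidHom.id K)) (mp (ρ.prodMap (MonoidHom.id K)) E) = E := by
    rw [mp_mp]
    refine (hT.mp_congr (f' := MonoidHom.id _) fun g hg => ?_).trans (mp_id E)
    exact Prod.ext (key _ (hS _ (Finset.mem_image_of_mem _ hg))) rfl
  have hE' : mp (ρ.prodMap (MonoidHom.id K)) E * mp (ρ.prodMap (MonoidHom.id K)) E =
      mp (ρ.prodMap (MonoidHom.id K)) E := by rw [← mp_mul, hE]
  obtain ⟨n, hn⟩ := ff_of_fg hK (LinearMap.range (mp (ρ.prodMap (MonoidHom.id K)) E).vecMulLinear)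
    (by rw [LinearMap.range_eq_map]; exact Module.Finite.fg_top.map _)
  rw [← e]
  exact SFI.of_ret _ I (sfIdem_of_ff hE' hn)

end Pool.Agent.Work.MP_9d1ffa_al
end

-- merged part: Pool.Agent.Work.MP_9d1ffa_al.VLoc
section
/-! Algebras over a commutative ring: localisation and reduction of complexes in elementary
terms. -/

namespace Pool.Agent.Work.MP_9d1ffa_al.VN

open Matrix

set_option linter.unusedSectionVars false
set_option linter.unusedVariables false

/-- truncations exist -/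
def Trn (R : Type) [Ring R] : Prop :=
  ∀ (X : Cx R) (a : ℤ), ∃ (T : Cx R) (t : Matrix T.I X.I R) (h : Ch T X t),
    (∀ i, a ≤ T.p i) ∧ Le h.cone (a - 1)

/-- flatness in terms of matrices -/
def Flt {R Λ : Type} [Ring R] [Ring Λ] (ι : R →+* Λ) : Prop :=
  ∀ (I J K : Type) [Fintype I] [Fintype J] (P : J → Prop) (a : Matrix I J R)
    (b : Matrix J K R), (∀ v, (∀ j, v j ≠ 0 → P j) → v ᵥ* b = 0 → ∃ w, w ᵥ* a = v) →
    ∀ v : J → Λ, (∀ j, v j ≠ 0 → P j) → v ᵥ* b.map ι = 0 → ∃ w, w ᵥ* a.map ι = v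

/-- finitely generated submodules of free modules are projective -/
def SHer (S : Type) [Ring S] : Prop :=
  ∀ (I : Type) [Fintype I] (U : Submodule S (I → S)), U.FG → Module.Projective S U

/-- exact in degree `k` for column vectors -/
def Cex {S : Type} [Ring S] (X : Cx S) (k : ℤ) : Prop :=
  ∀ v, Vd X.p k v → X.d *ᵥ v = 0 → ∃ w, X.d *ᵥ w = v

variable {A R : Type} [CommRing A] [Ring R] [Algebra A R]

/-- all entries lie in the extended ideal -/
def Im (𝔞 : Ideal A) {I : Type} (v : I → R) : Prop := ∀ i, v i ∈ 𝔞 • (⊤ : Submodule A R)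

/-- exact in degree `k` after localising at `𝔭` and reducing modulo `𝔞` -/
def At (𝔭 𝔞 : Ideal A) (X : Cx R) (k : ℤ) : Prop :=
  ∀ v, Vd X.p k v → Im 𝔞 (v ᵥ* X.d) → ∃ s ∉ 𝔭, ∃ w, Im 𝔞 (s • v - w ᵥ* X.d)

/-- the ideal generated by the first `i` members of a sequence -/
def sp (f : ℕ → A) (i : ℕ) : Ideal A := Ideal.span (f '' Set.Iio i)

variable (R) in
/-- locally at `𝔭` the ideal `𝔭` is generated by a sequence of length `n` that is regular on
`R` -/
def Seq (𝔭 : Ideal A) (n : ℕ) : Prop :=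
  ∃ f : ℕ → A, (∀ i < n, f i ∈ 𝔭) ∧
    (∀ i < n, ∀ r : R, f i • r ∈ sp f i • (⊤ : Submodule A R) →
      ∃ s ∉ 𝔭, s • r ∈ sp f i • (⊤ : Submodule A R)) ∧
    ∀ a ∈ 𝔭, ∃ s ∉ 𝔭, s * a ∈ sp f n

variable (R) in
/-- the fibre at `𝔭` is semihereditary -/
def Fib (𝔭 : Ideal A) : Prop :=
  ∃ (S : Type) (_ : Ring S) (φ : R →+* S), SHer S ∧
    (∀ r, φ r = 0 ↔ r ∈ 𝔭 • (⊤ : Submodule A R)) ∧
    (∀ y : S, ∃ s ∉ 𝔭, ∃ r, φ r = φ (algebraMap A R s) * y) ∧
    ∀ s ∉ 𝔭, ∃ u : S, u * φ (algebraMap A R s) = 1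

variable (A R) in
/-- an algebra with involution over a regular ring, with semihereditary fibres -/
structure Loc [StarRing R] where
  c : A ≃+* A
  cc : ∀ a, c (c a) = a
  star_alg : ∀ a, star (algebraMap A R a) = algebraMap A R (c a)
  noeth : IsNoetherianRing A
  ht : Ideal A → ℕ
  mono : ∀ 𝔮 𝔭 : Ideal A, 𝔮.IsPrime → 𝔭.IsPrime → 𝔮 ≤ 𝔭 → ht 𝔮 ≤ ht 𝔭
  N : ℕ
  bound : ∀ 𝔭 : Ideal A, 𝔭.IsPrime → ht 𝔭 ≤ N
  seq : ∀ 𝔭 : Ideal A, 𝔭.IsPrime → Seq R 𝔭 (ht 𝔭)
  fib : ∀ 𝔭 : Ideal A, 𝔭.IsPrime → Fib R 𝔭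

variable {𝔭 𝔞 𝔟 : Ideal A} {I J : Type} {v w : I → R}

theorem im_zero : Im 𝔞 (0 : I → R) := fun _ => zero_mem _

theorem Im.add (hv : Im 𝔞 v) (hw : Im 𝔞 w) : Im 𝔞 (v + w) := fun i => add_mem (hv i) (hw i)

theorem Im.neg (hv : Im 𝔞 v) : Im 𝔞 (-v) := fun i => neg_mem (hv i)

theorem Im.sub (hv : Im 𝔞 v) (hw : Im 𝔞 w) : Im 𝔞 (v - w) := fun i => sub_mem (hv i) (hw i)

theorem Im.smul (hv : Im 𝔞 v) (a : A) : Im 𝔞 (a • v) := fun i => Submodule.smul_mem _ a (hv i)

theorem im_smul {a : A} (ha : a ∈ 𝔞) (v : I → R) : Im 𝔞 (a • v) := fun i =>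
  Submodule.smul_mem_smul ha Submodule.mem_top

theorem Im.mono (hv : Im 𝔞 v) (h : 𝔞 ≤ 𝔟) : Im 𝔟 v := fun i =>
  Submodule.smul_mono_left h (hv i)

theorem mul_mem_ext {r : R} (h : r ∈ 𝔞 • (⊤ : Submodule A R)) (x : R) :
    r * x ∈ 𝔞 • (⊤ : Submodule A R) ∧ x * r ∈ 𝔞 • (⊤ : Submodule A R) := by
  refine Submodule.smul_induction_on h (fun a ha y _ => ?_) fun y z hy hz => ?_
  · rw [smul_mul_assoc, mul_smul_comm]
    exact ⟨Submodule.smul_mem_smul ha Submodule.mem_top,
      Submodule.smul_mem_smul ha Submodule.mem_top⟩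
  · rw [add_mul, mul_add]
    exact ⟨add_mem hy.1 hz.1, add_mem hy.2 hz.2⟩

theorem Im.vecMul [Fintype I] (hv : Im 𝔞 v) (f : Matrix I J R) : Im 𝔞 (v ᵥ* f) := fun j =>
  sum_mem fun i _ => (mul_mem_ext (hv i) _).1

theorem Im.pj (hv : Im 𝔞 v) (p : I → ℤ) (k : ℤ) : Im 𝔞 (pj p k v) := fun i => by
  unfold VN.pj
  split_ifs
  exacts [hv i, zero_mem _]

theorem im_bot : Im (⊥ : Ideal A) v ↔ v = 0 := by
  simp only [Im, Submodule.bot_smul, Submodule.mem_bot, funext_iff, Pi.zero_apply]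

theorem pj_smul (p : I → ℤ) (k : ℤ) (a : A) (v : I → R) : pj p k (a • v) = a • pj p k v := by
  funext i
  by_cases h : p i = k <;> simp [pj, h]

/-- a common denominator -/
theorem exists_common [Finite I] [𝔭.IsPrime] {C : I → A → Prop}
    (h : ∀ i s t, C i s → C i (t * s)) (h' : ∀ i, ∃ s ∉ 𝔭, C i s) : ∃ s ∉ 𝔭, ∀ i, C i s := by
  classical
  have := Fintype.ofFinite I
  choose s hs hC using h'
  refine ⟨∏ i, s i, prod_mem (S := 𝔭.primeCompl) fun i _ => hs i, fun i => ?_⟩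
  rw [← Finset.prod_erase_mul _ _ (Finset.mem_univ i)]
  exact h _ _ _ (hC i)

theorem at_bot [𝔭.IsPrime] {X : Cx R} {k : ℤ} : At 𝔭 ⊥ X k ↔ ExS 𝔭.primeCompl X k := by
  simp only [At, ExS, im_bot, sub_eq_zero]
  exact forall₃_congr fun v _ _ => exists_congr fun s => and_congr_right fun _ =>
    exists_congr fun w => eq_comm

theorem Ex.at_bot [h𝔭 : 𝔭.IsPrime] {X : Cx R} {k : ℤ} (h : Ex X k) : At 𝔭 ⊥ X k := fun v hv e => by
  obtain ⟨w, hw⟩ := h v hv (im_bot.1 e)
  exact ⟨1, (Ideal.ne_top_iff_one _).1 h𝔭.ne_top, w, im_bot.2 (by rw [one_smul, hw, sub_self])⟩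

/-- the witness can be taken homogeneous -/
theorem At.hom {X : Cx R} {k : ℤ} (h : At 𝔭 𝔞 X k) {v : X.I → R} (hv : Vd X.p k v)
    (e : Im 𝔞 (v ᵥ* X.d)) : ∃ s ∉ 𝔭, ∃ w, Vd X.p (k + 1) w ∧ Im 𝔞 (s • v - w ᵥ* X.d) := by
  obtain ⟨s, hs, w, hw⟩ := h v hv e
  refine ⟨s, hs, pj X.p (k + 1) w, vd_pj w, ?_⟩
  have := hw.pj X.p k
  rwa [pj_sub, pj_smul, hv.pj_eq, pj_vecMul w X.hd (k := k + 1) (by omega)] at this

end Pool.Agent.Work.MP_9d1ffa_al.VN
end

-- merged part: Pool.Agent.Work.MP_9d1ffa_al.VGrp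
section
/-! Group rings as ambient rings; subgroups of a free group times a free abelian group. -/

namespace Pool.Agent.Work.MP_9d1ffa_al.VN

open Matrix

set_option linter.unusedSectionVars false
set_option linter.unusedVariables false

variable {G H : Type} [Group G] [Group H]

/-- the component of an element of the group ring on the coset `c (f H)` -/
noncomputable def VGrp_cp (f : H →* G) (hf : Function.Injective f) (c : G) : ZG G →+ ZG H :=
  MonoidAlgebra.comapDomainAddMonoidHom (fun h : H => c * f h)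
    (fun _ _ h => hf (mul_left_cancel h))

theorem VGrp_coeff_cp (f : H →* G) (hf : Function.Injective f) (c : G) (x : ZG G) (h : H) :
    (VGrp_cp f hf c x).coeff h = x.coeff (c * f h) := rfl

theorem VGrp_gm_single (f : H →* G) (h : H) (n : ℤ) :
    gm f (MonoidAlgebra.single h n) = MonoidAlgebra.single (f h) n := by
  simp [gm]

theorem VGrp_coeff_gm (f : H →* G) (hf : Function.Injective f) (y : ZG H) (h : H) :
    (gm f y).coeff (f h) = y.coeff h :=
  Finsupp.mapDomain_apply (f := f) hf _ _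

theorem VGrp_coeff_gm_not (f : H →* G) (y : ZG H) {g : G} (hg : g ∉ f.range) :
    (gm f y).coeff g = 0 :=
  Finsupp.mapDomain_of_notMem_range (f := f) _ _ (by rintro ⟨d, rfl⟩; exact hg ⟨d, rfl⟩)

theorem VGrp_cp_mul (f : H →* G) (hf : Function.Injective f) (c : G) (x : ZG G) (y : ZG H) :
    VGrp_cp f hf c (x * gm f y) = VGrp_cp f hf c x * y := by
  induction y using MonoidAlgebra.induction_linear with
  | zero => simp
  | add a b ha hb => rw [map_add, mul_add, map_add, ha, hb, mul_add]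
  | single d n =>
    ext e
    rw [VGrp_gm_single, VGrp_coeff_cp, MonoidAlgebra.coeff_mul_single_apply,
      MonoidAlgebra.coeff_mul_single_apply, VGrp_coeff_cp, map_mul f, map_inv f, mul_assoc]

theorem VGrp_mul_cp (f : H →* G) (hf : Function.Injective f) (x : ZG G) (y : ZG H) :
    VGrp_cp f hf 1 (gm f y * x) = y * VGrp_cp f hf 1 x := by
  induction y using MonoidAlgebra.induction_linear with
  | zero => simp
  | add a b ha hb => rw [map_add, add_mul, map_add, ha, hb, add_mul]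
  | single d n =>
    ext e
    rw [VGrp_gm_single, VGrp_coeff_cp, MonoidAlgebra.coeff_single_mul_apply,
      MonoidAlgebra.coeff_single_mul_apply, VGrp_coeff_cp, map_mul f, map_inv f, one_mul, one_mul]

theorem VGrp_proj {I : Type} (f : H →* G) (hf : Function.Injective f) (c : G) (x : I → ZG G) :
    proj (fun _ : I => ((1 : G) : G ⧸ f.range)) (· = (c : G ⧸ f.range)) x =
      (MonoidAlgebra.single c (1 : ℤ) : ZG G) • fun i => gm f (VGrp_cp f hf c (x i)) :=
  vec_ext fun i g => by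
    rw [coeff_proj, coeff_single_smul, one_mul]
    have k : g • ((1 : G) : G ⧸ f.range) = (c : G ⧸ f.range) ↔ c⁻¹ * g ∈ f.range := by
      rw [MulAction.Quotient.smul_coe, smul_eq_mul, mul_one, eq_comm, QuotientGroup.eq]
    by_cases h : c⁻¹ * g ∈ f.range
    · rw [if_pos (k.2 h)]
      obtain ⟨d, hd⟩ := h
      rw [← hd, VGrp_coeff_gm f hf, VGrp_coeff_cp, hd, mul_inv_cancel_left]
    · rw [if_neg (fun e => h (k.1 e))]
      exact (VGrp_coeff_gm_not f _ h).symm

/-- Decompose `v` along the left cosets `c (f H)`: with `cp c x = comapDomain (c * f ·) x` one has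
`cp c (x * gm f y) = cp c x * y` (compare `Ind_cmp_mul`), and `v` is the finite sum over coset
representatives `c` of `single c 1 • gm f (cp c v)`. -/
theorem flt_gm (f : H →* G) (hf : Function.Injective f) : Flt (gm f) := by
  intro I J K _ _ P a b hab v hv hvb
  have key : v ∈ LinearMap.range (Matrix.vecMulLinear (a.map (gm f))) := by
    refine mem_of_proj (fun _ : J => ((1 : G) : G ⧸ f.range)) fun σ => ?_
    obtain ⟨c, rfl⟩ := QuotientGroup.mk_surjective σ
    rw [VGrp_proj f hf]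
    refine Submodule.smul_mem _ _ ?_
    obtain ⟨w, hw⟩ := hab (fun j => VGrp_cp f hf c (v j))
      (fun j e => hv j fun e' => e (by simp only [e', map_zero])) (by
        funext k
        have := congrArg (fun z => VGrp_cp f hf c (z k)) hvb
        simpa only [Matrix.vecMul, dotProduct, map_sum, Matrix.map_apply, VGrp_cp_mul,
          Pi.zero_apply, map_zero] using this)
    refine ⟨fun i => gm f (w i), ?_⟩
    funext j
    have := congrArg (fun z => gm f (z j)) hw
    simpa only [Matrix.vecMulLinear_apply, Matrix.vecMul, dotProduct, map_sum, Matrix.map_apply,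
      map_mul] using this
  obtain ⟨w, hw⟩ := key
  exact ⟨w, hw⟩

/-- elements supported on a set -/
def VGrp_B (S : G → Prop) : AddSubgroup (ZG G) where
  carrier := {x | ∀ g, x.coeff g ≠ 0 → S g}
  zero_mem' g e := by simp at e
  add_mem' {x y} hx hy g e := by
    by_cases h : x.coeff g = 0
    · exact hy g (by simpa [h] using e)
    · exact hx g h
  neg_mem' {x} hx g e := hx g (by simpa using e)

theorem VGrp_fil_left (f : H →* G) (S : G → Prop) (hl : ∀ h g, S g → S (f h * g)) (r : ZG H)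
    (x : ZG G) : fil S (gm f r * x) = gm f r * fil S x := by
  induction r using MonoidAlgebra.induction_linear with
  | zero => simp
  | add a b ha hb => rw [map_add, add_mul, map_add, ha, hb, add_mul]
  | single d n =>
    ext g
    have k : S ((f d)⁻¹ * g) ↔ S g :=
      ⟨fun e => by simpa using hl d _ e, fun e => by simpa using hl d⁻¹ _ e⟩
    rw [VGrp_gm_single, coeff_fil, MonoidAlgebra.coeff_single_mul_apply,
      MonoidAlgebra.coeff_single_mul_apply, coeff_fil]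
    by_cases e : S g
    · rw [if_pos e, if_pos (k.2 e)]
    · rw [if_neg e, if_neg (fun e' => e (k.1 e')), mul_zero]

theorem VGrp_fil_right (f : H →* G) (S : G → Prop) (hr : ∀ h g, S g → S (g * f h)) (r : ZG H)
    (x : ZG G) : fil S (x * gm f r) = fil S x * gm f r := by
  induction r using MonoidAlgebra.induction_linear with
  | zero => simp
  | add a b ha hb => rw [map_add, mul_add, map_add, ha, hb, mul_add]
  | single d n =>
    ext g
    have k : S (g * (f d)⁻¹) ↔ S g :=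
      ⟨fun e => by simpa using hr d _ e, fun e => by simpa using hr d⁻¹ _ e⟩
    rw [VGrp_gm_single, coeff_fil, MonoidAlgebra.coeff_mul_single_apply,
      MonoidAlgebra.coeff_mul_single_apply, coeff_fil]
    by_cases e : S g
    · rw [if_pos e, if_pos (k.2 e)]
    · rw [if_neg e, if_neg (fun e' => e (k.1 e')), zero_mul]

theorem VGrp_fil_mem (S : G → Prop) (x : ZG G) : fil S x ∈ VGrp_B S := fun g e => by
  rw [coeff_fil] at e
  by_contra h
  exact e (if_neg h)

theorem VGrp_fil_id (S : G → Prop) (x : ZG G) (hx : x ∈ VGrp_B S) : fil S x = x := by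
  ext g
  rw [coeff_fil]
  split_ifs with e
  · rfl
  · by_contra e'
    exact e (hx g (Ne.symm e'))

theorem VGrp_two (S : G → Prop) (h2 : ∀ g, S g → g * g ≠ 1) (e : ℤˣ) (x : ZG G)
    (hx : x ∈ VGrp_B S) (hs : star x = (e : ℤ) • x) :
    ∃ ω ∈ VGrp_B S, x = ω + (e : ℤ) • star ω := by
  classical
  let _ : LinearOrder G := linearOrderOfSTO WellOrderingRel
  refine ⟨fil (fun g => g < g⁻¹) x, fun g h => hx g fun h' => h ?_, ?_⟩
  · rw [coeff_fil, h', ite_self]
  · ext g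
    have h1 : x.coeff g⁻¹ = (e : ℤ) * x.coeff g := by
      rw [← coeff_star, hs, MonoidAlgebra.coeff_smul, Finsupp.smul_apply, smul_eq_mul]
    have he : (e : ℤ) * e = 1 := by rw [← Units.val_mul, Int.units_mul_self, Units.val_one]
    rw [MonoidAlgebra.coeff_add, Finsupp.add_apply, MonoidAlgebra.coeff_smul, Finsupp.smul_apply,
      smul_eq_mul, coeff_star, coeff_fil, coeff_fil, inv_inv, h1]
    rcases lt_trichotomy g g⁻¹ with h | h | h
    · rw [if_pos h, if_neg (lt_asymm h), mul_zero, add_zero]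
    · have : x.coeff g = 0 := by
        by_contra h'
        exact h2 g (hx g h') (mul_eq_one_iff_eq_inv.2 h)
      simp [this]
    · rw [if_neg (lt_asymm h), if_pos h, zero_add, ← mul_assoc, he, one_mul]

/-- Take `π = comapDomain f`, `β i = fil (S i)`. For `two` choose a linear order on `G` and let `ω`
be the part of `x` supported on the `g` with `g < g⁻¹`. -/
theorem exists_amb (f : H →* G) (hf : Function.Injective f) (S : Bool → G → Prop)
    (hl : ∀ i h g, S i g → S i (f h * g)) (hr : ∀ i h g, S i g → S i (g * f h))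
    (hi : ∀ i g, S i g → S i g⁻¹) (h2 : ∀ i g, S i g → g * g ≠ 1) :
    ∃ A : Amb (ZG H) (ZG G), A.ι = gm f ∧ ∀ i x, x ∈ A.B i ↔ ∀ g, x.coeff g ≠ 0 → S i g := by
  refine ⟨{
    ι := gm f
    ι_star := mapDomain_star f
    flat := flt_gm f hf
    π := VGrp_cp f hf 1
    π_ι := fun r => by
      ext h
      rw [VGrp_coeff_cp, one_mul, VGrp_coeff_gm f hf]
    π_left := fun r x => VGrp_mul_cp f hf x r
    π_right := fun r x => VGrp_cp_mul f hf 1 x r
    B := fun i => VGrp_B (S i)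
    B_left := fun i r x hx => by
      rw [← VGrp_fil_id _ x hx, ← VGrp_fil_left f _ (hl i)]
      exact VGrp_fil_mem _ _
    B_right := fun i r x hx => by
      rw [← VGrp_fil_id _ x hx, ← VGrp_fil_right f _ (hr i)]
      exact VGrp_fil_mem _ _
    B_star := fun i x hx g e => by
      rw [coeff_star] at e
      simpa using hi i _ (hx _ e)
    β := fun i => fil (S i)
    β_mem := fun i x => VGrp_fil_mem _ x
    β_id := fun i x hx => VGrp_fil_id _ x hx
    β_left := fun i r x => VGrp_fil_left f _ (hl i) r x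
    β_right := fun i r x => VGrp_fil_right f _ (hr i) r x
    two := fun i e x hx hs => VGrp_two (S i) (h2 i) e x hx hs }, rfl, fun i x => Iff.rfl⟩

theorem fa_sub {K : Type} [Group K] (hK : FA K) (D : Subgroup K) : FA D := by
  obtain ⟨n, ⟨e⟩⟩ := hK
  let U : Submodule ℤ (Fin n → ℤ) :=
    AddSubgroup.toIntSubmodule (Subgroup.toAddSubgroup' (D.map (e : K →* Multiplicative (Fin n → ℤ))))
  obtain ⟨m, b⟩ := Submodule.basisOfPid (Pi.basisFun ℤ (Fin n)) U
  let e1 : D ≃* Multiplicative U :=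
    { toFun := fun d => Multiplicative.ofAdd ⟨(e d).toAdd, ⟨d, d.2, rfl⟩⟩
      invFun := fun u => ⟨e.symm (Multiplicative.ofAdd (u.toAdd : Fin n → ℤ)), by
        obtain ⟨d, hd, h⟩ := u.toAdd.2
        have : e.symm (Multiplicative.ofAdd (u.toAdd : Fin n → ℤ)) = d := by
          rw [MulEquiv.symm_apply_eq]
          exact h.symm
        rw [this]
        exact hd⟩
      left_inv := fun d => Subtype.ext (e.symm_apply_apply d)
      right_inv := fun u => by
        apply Multiplicative.toAdd.injective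
        apply Subtype.ext
        exact congrArg Multiplicative.toAdd (e.apply_symm_apply _)
      map_mul' := fun a b => by
        apply Multiplicative.toAdd.injective
        apply Subtype.ext
        exact congrArg Multiplicative.toAdd (map_mul e (a : K) b) }
  exact ⟨m, ⟨e1.trans (AddEquiv.toMultiplicative b.equivFun.toAddEquiv)⟩⟩

/-- The image of `D` in the free group is free (Nielsen and Schreier); lift its generators to `D`.
The kernel is central. -/
theorem sub_free {X K : Type} [Group K] (hK : FA K) (f : H →* FreeGroup X × K)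
    (hf : Function.Injective f) :
    ∃ (Y : Type) (m : ℕ), Nonempty (H ≃* FreeGroup Y × Multiplicative (Fin m → ℤ)) := by
  classical
  have hc : ∀ a b : K, a * b = b * a := by
    obtain ⟨n, ⟨e⟩⟩ := hK
    intro a b
    apply e.injective
    rw [map_mul, map_mul, mul_comm]
  let p : H →* FreeGroup X := (MonoidHom.fst _ _).comp f
  let q : H →* K := (MonoidHom.snd _ _).comp f
  let R := p.range
  let Y := IsFreeGroup.Generators R
  let t : FreeGroup Y ≃* R := (IsFreeGroup.toFreeGroup R).symm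
  choose g hg using fun y : Y => (t (FreeGroup.of y)).2
  let s : FreeGroup Y →* H := FreeGroup.lift g
  have hs : ∀ w, p (s w) = t w := by
    intro w
    have : p.comp s = R.subtype.comp (t : FreeGroup Y →* R) := by
      ext y
      simp only [MonoidHom.comp_apply, s, FreeGroup.lift_apply_of, hg]
      rfl
    exact DFunLike.congr_fun this w
  have hcen : ∀ (k : p.ker) (h : H), h * k = k * h := by
    intro k h
    apply hf
    have hk : (f k).1 = 1 := k.2
    rw [map_mul, map_mul]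
    refine Prod.ext ?_ (hc _ _)
    rw [Prod.fst_mul, Prod.fst_mul, hk, mul_one, one_mul]
  let j : p.ker →* K := q.comp p.ker.subtype
  have hj : Function.Injective j := by
    rw [injective_iff_map_eq_one]
    intro k hk
    apply Subtype.ext
    apply hf
    rw [Subgroup.coe_one, map_one]
    exact Prod.ext k.2 hk
  obtain ⟨m, ⟨e⟩⟩ := fa_sub hK j.range
  let φ : FreeGroup Y × p.ker →* H :=
    s.noncommCoprod p.ker.subtype fun w k => hcen k (s w)
  have hφ : ∀ w k, φ (w, k) = s w * k := fun w k => rfl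
  have hb : Function.Bijective φ := by
    constructor
    · rw [injective_iff_map_eq_one]
      rintro ⟨w, k⟩ h
      rw [hφ] at h
      have h1 : (t w : FreeGroup X) = 1 := by
        have := congrArg p h
        rwa [map_mul, map_one, hs, show p k = 1 from k.2, mul_one] at this
      have h2 : w = 1 := t.injective (by rw [map_one]; exact Subtype.ext h1)
      rw [h2, map_one, one_mul] at h
      exact Prod.ext h2 (Subtype.ext h)
    · intro h
      let w := t.symm ⟨p h, h, rfl⟩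
      have hw : p (s w) = p h := by
        rw [hs]
        exact congrArg Subtype.val (t.apply_symm_apply _)
      refine ⟨(w, ⟨(s w)⁻¹ * h, ?_⟩), ?_⟩
      · rw [MonoidHom.mem_ker, map_mul, map_inv, hw, inv_mul_cancel]
      · rw [hφ, mul_inv_cancel_left]
  exact ⟨Y, m, ⟨(MulEquiv.ofBijective φ hb).symm.trans
    ((MulEquiv.refl _).prodCongr ((MonoidHom.ofInjective hj).trans e))⟩⟩

end Pool.Agent.Work.MP_9d1ffa_al.VN
end
end

-- merged part: Pool.Agent.Work.MP_9d1ffa_al.WLoc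
section
-- merged part: Pool.Agent.Work.MP_9d1ffa_al.OVS
section
/-! Solving the system at the vertex. -/

namespace Pool.Agent.Work.MP_9d1ffa_al

open Matrix MonoidAlgebra

set_option linter.unusedSectionVars false
set_option linter.unusedVariables false

variable {Γ V A : Type} [Group Γ] [Group V] [Group A] {ε : ℤˣ} {I J : Type} [Fintype I]
  [DecidableEq I] [Fintype J] [DecidableEq J]
  {W : Matrix (I ⊕ I) (I ⊕ I) (ZG V)} {θ : Matrix I I (ZG V)} {P Q : Matrix I J (ZG V)}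
  {U : Matrix (J ⊕ J) (J ⊕ J) (ZG A)}

/-- a matrix lies in the span of `Z` if its components along all cosets do -/
theorem coset_span {H G : Type} [Group H] [Group G] (f : H →* G) (hf : Function.Injective f)
    {L M : Type} [Fintype L] [DecidableEq L] [Fintype M] (X : Matrix L M (ZG G))
    (Z : Matrix J M (ZG H))
    (h : ∀ g : G, ∃ k : Matrix L J (ZG H), rs f hf (dg L g * X) = k * Z) :
    ∃ k : Matrix L J (ZG G), X = k * mp f Z := by
  classical
  choose k hk using h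
  obtain ⟨s, hs⟩ := exists_sup_finset X
  refine ⟨∑ c ∈ s.image (QuotientGroup.mk : G → G ⧸ f.range),
    dg L c.out * mp f (k c.out⁻¹), ?_⟩
  rw [Matrix.sum_mul]
  simp only [Matrix.mul_assoc, ← mp_mul, ← hk, mp_rs]
  refine mat_ext fun a b g => ?_
  have h1 : ∀ c : G ⧸ f.range, (∃ x, f x = c.out⁻¹ * g) ↔ c = (g : G ⧸ f.range) := fun c => by
    conv_rhs => rw [← c.out_eq', QuotientGroup.eq]
    rfl
  simp only [Matrix.sum_apply, coeff_sum, Finsupp.finsetSum_apply, coeff_dg_mul, coeff_fm,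
    inv_inv, mul_inv_cancel_left, h1, Finset.sum_ite_eq']
  split_ifs with h2
  · rfl
  · by_contra h3
    exact h2 (Finset.mem_image_of_mem _ (hs a b g h3))

section Aux

variable (C : Cut Γ V A) {L M : Type} [Fintype L] [DecidableEq L] [Fintype M] [DecidableEq M]

theorem OVS_rs_va (X : Matrix L M (ZG Γ)) :
    rs C.va C.vainj X = rs C.i C.iinj (rs C.v C.vinj X) :=
  mat_ext fun k l a => rfl

theorem OVS_rs_conj (X : Matrix L M (ZG Γ)) :
    rs C.va C.vainj (dg L C.t * X * dg M C.t⁻¹) = rs C.j C.jinj (rs C.v C.vinj X) :=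
  mat_ext fun k l a => by
    rw [coeff_rs, coeff_mul_dg, coeff_dg_mul, coeff_rs, coeff_rs, inv_inv, C.va_t,
      inv_mul_cancel_left]

theorem OVS_rs_t (X : Matrix L M (ZG V)) : rs C.v C.vinj (mp C.v X * dg M C.t) = 0 := by
  rw [rs_mp_mul, (sup_dg C.t).rs_zero, Matrix.mul_zero]
  intro x hx
  exact C.npos_v x (hx ▸ C.tpos)

theorem OVS_rs_tinv (X : Matrix L M (ZG V)) : rs C.v C.vinj (mp C.v X * dg M C.t⁻¹) = 0 := by
  rw [rs_mp_mul, (sup_dg C.t⁻¹).rs_zero, Matrix.mul_zero]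
  intro x hx
  refine C.npos_v x⁻¹ ?_
  rw [map_inv, hx, inv_inv]
  exact C.tpos

theorem OVS_npos (X : Matrix L M (ZG V)) : Sup (fun g => ¬ C.pos g) (mp C.v X) :=
  (sup_mp C.v X).mono fun _ ⟨x, hx⟩ => hx ▸ C.npos_v x

theorem OVS_pos_t (X : Matrix L M (ZG V)) : Sup C.pos (dg L C.t * mp C.v X) :=
  (sup_dg C.t).mul (sup_mp C.v X) fun _ _ ha ⟨x, hx⟩ => ha ▸ hx ▸ C.pos_tv x

theorem OVS_fm_nv (X : Matrix L I (ZG Γ)) (B : Matrix I M (ZG V)) :
    fm (fun g => ¬ C.pos g) (X * mp C.v B) = fm (fun g => ¬ C.pos g) X * mp C.v B :=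
  fm_mul_right X (sup_mp C.v B) fun a _ ⟨x, hx⟩ => hx ▸ not_congr (C.right a x)

variable {C} {N : Matrix L I (ZG Γ)} {f : Matrix L I (ZG V)} {s₁ s₂ : Matrix L J (ZG V)}

theorem OVS_pos (hs : IsUnit (C.sys ε W θ P Q)) (h : C.EF ε W θ P Q U)
    (hN : N * C.sys ε W θ P Q = mp C.v f + mp C.v s₁ * dg J C.t * mp C.v Qᴴ +
      (ε : ℤ) • (mp C.v s₂ * dg J C.t⁻¹ * mp C.v Pᴴ)) :
    ∃ k : Matrix L J (ZG A), rs C.i C.iinj (fromCols
      (rs C.v C.vinj N * (W.toBlocks₁₁ * P) - s₁)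
      (rs C.v C.vinj (N * mp C.v (W.toBlocks₁₁ * Q) * dg J C.t⁻¹))) = k * U.toRows₁ := by
  refine h.pos_char hs _ (fm C.pos N) (sup_fm _ _) ?_ ?_
  · have h1 : fm C.pos (mp C.v s₂ * dg J C.t⁻¹) = 0 :=
      ((OVS_npos C s₂).mul (sup_dg C.t⁻¹) (T := fun g => ¬ C.pos g)
        fun a b ha hb => hb ▸ C.npos_tinv ha).fm_zero fun g e => e
    rw [C.key_pos, hN, fm_add, fm_add, fm_zsmul, C.fm_v, C.fm_v, C.fm_t, h1,
      (OVS_npos C f).fm_zero fun g e => e, (OVS_npos C s₁).fm_zero fun g e => e, OVS_rs_va,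
      rs_mp, PH.bd, mul_fromCols, OVS_rs_va, rs_fromCols, rs_mul_mp, ← Matrix.mul_assoc N,
      PH.sig, rs_fromCols, rs_fromCols, mp_fromCols, mp_fromCols, fromCols_mul_fromRows,
      fromCols_mul_fromRows, rs_sub, mp_sub, mp_ct]
    simp only [Matrix.zero_mul, smul_zero, zero_add, add_zero, Matrix.sub_mul, Matrix.mul_neg,
      Matrix.mul_assoc]
    abel
  · rw [PH.bd, mul_fromCols, rs_fromCols, rs_fromCols, toCols₂_fromCols, toCols₂_fromCols,
      ← Matrix.mul_assoc, ← C.fm_v, ← OVS_rs_va, sub_eq_iff_eq_add.1 (C.fm_tinv _).symm, rs_add,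
      rs_mp, (sup_fm _ _).rs_zero (f := C.va) fun x => C.npos_v _, zero_add]

theorem OVS_neg (hs : IsUnit (C.sys ε W θ P Q)) (h : C.EF ε W θ P Q U)
    (hN : N * C.sys ε W θ P Q = mp C.v f + mp C.v s₁ * dg J C.t * mp C.v Qᴴ +
      (ε : ℤ) • (mp C.v s₂ * dg J C.t⁻¹ * mp C.v Pᴴ)) :
    ∃ k : Matrix L J (ZG A), rs C.j C.jinj (fromCols
      (rs C.v C.vinj (N * mp C.v (W.toBlocks₁₁ * P) * dg J C.t))
      (rs C.v C.vinj N * (W.toBlocks₁₁ * Q) - s₂)) = k * U.toRows₂ := by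
  have e1 : rs C.va C.vainj (dg L C.t * N * mp C.v (W.toBlocks₁₁ * P)) =
      rs C.j C.jinj (rs C.v C.vinj (N * mp C.v (W.toBlocks₁₁ * P) * dg J C.t)) := by
    rw [← OVS_rs_conj]
    simp only [Matrix.mul_assoc, dg_mul_inv, Matrix.mul_one]
  have e2 : rs C.va C.vainj (dg L C.t * N * (mp C.v (W.toBlocks₁₁ * Q) * dg J C.t⁻¹)) =
      rs C.j C.jinj (rs C.v C.vinj N * (W.toBlocks₁₁ * Q)) := by
    rw [← rs_mul_mp, ← OVS_rs_conj]
    simp only [Matrix.mul_assoc]
  refine (h.neg_char hs (-rs C.j C.jinj (fromCols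
      (rs C.v C.vinj (N * mp C.v (W.toBlocks₁₁ * P) * dg J C.t))
      (rs C.v C.vinj N * (W.toBlocks₁₁ * Q) - s₂))) (fm (fun g => ¬ C.pos g) (dg L C.t * N))
      (sup_fm _ _) ?_ ?_).elim fun k hk => ⟨-k, by rw [Matrix.neg_mul, ← hk, neg_neg]⟩
  · have h1 : fm (fun g => ¬ C.pos g) (dg L C.t * mp C.v s₁ * dg J C.t) = 0 :=
      ((OVS_pos_t C s₁).mul (sup_dg C.t) (T := C.pos)
        fun a b ha hb => hb ▸ C.up a ha).fm_zero fun g e e' => e' e
    have h2 : fm (fun g => ¬ C.pos g) (dg L C.t * mp C.v s₂ * dg J C.t⁻¹) =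
        mp C.va (rs C.j C.jinj s₂) := by
      have h3 := fm_add_not C.pos (dg L C.t * mp C.v s₂ * dg J C.t⁻¹)
      rw [C.fm_tinv, (OVS_pos_t C s₂).fm_eq, OVS_rs_conj, rs_mp, sub_add, sub_eq_self,
        sub_eq_zero] at h3
      exact h3.symm
    rw [C.key_neg, Matrix.mul_assoc _ N, hN, Matrix.mul_add, Matrix.mul_add, Matrix.mul_smul,
      ← Matrix.mul_assoc, ← Matrix.mul_assoc, ← Matrix.mul_assoc, ← Matrix.mul_assoc,
      fm_add, fm_add, fm_zsmul, OVS_fm_nv C _ Qᴴ, OVS_fm_nv C _ Pᴴ, h1, h2,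
      (OVS_pos_t C f).fm_zero fun g e e' => e' e, PH.bd, mul_fromCols, rs_fromCols, e1, e2,
      PH.sig, rs_fromCols, mp_neg, mp_fromCols, mp_fromCols, Matrix.neg_mul, fromCols_mul_fromRows,
      fromCols_mul_fromRows, rs_sub, mp_sub, mp_ct, mp_ct]
    simp only [Matrix.zero_mul, zero_add, Matrix.sub_mul, Matrix.mul_smul, smul_sub]
    abel
  · rw [PH.bd, mul_fromCols, rs_fromCols, rs_fromCols, fromCols_neg, toCols₁_fromCols,
      toCols₁_fromCols, neg_neg, ← OVS_fm_nv, rs_fm _ fun x => C.npos_v _, e1]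

end Aux

/-- solving the system at the vertex with the boundary conditions coming from the edges -/
theorem Cut.vertex_solve {C : Cut Γ V A} (hs : IsUnit (C.sys ε W θ P Q)) (h : C.EF ε W θ P Q U)
    {L : Type} [Fintype L] [DecidableEq L] (f : Matrix L I (ZG V)) (s₁ s₂ : Matrix L J (ZG V)) :
    ∃ (n : Matrix L I (ZG V)) (k₁ k₂ : Matrix L J (ZG V)),
      n * sysM ε W θ + (ε : ℤ) • (k₁ * mp C.i U.toBlocks₁₂ * Pᴴ) +
        k₂ * mp C.j U.toBlocks₂₁ * Qᴴ = f ∧
      n * (W.toBlocks₁₁ * P) - k₁ * mp C.i U.toBlocks₁₁ = s₁ ∧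
      n * (W.toBlocks₁₁ * Q) - k₂ * mp C.j U.toBlocks₂₂ = s₂ := by
  obtain ⟨μ, hμ⟩ := hs.exists_left_inv
  obtain ⟨N, hN⟩ : ∃ N : Matrix L I (ZG Γ), N * C.sys ε W θ P Q =
      mp C.v f + mp C.v s₁ * dg J C.t * mp C.v Qᴴ +
        (ε : ℤ) • (mp C.v s₂ * dg J C.t⁻¹ * mp C.v Pᴴ) :=
    ⟨(mp C.v f + mp C.v s₁ * dg J C.t * mp C.v Qᴴ +
        (ε : ℤ) • (mp C.v s₂ * dg J C.t⁻¹ * mp C.v Pᴴ)) * μ, by
      rw [Matrix.mul_assoc _ μ, hμ, Matrix.mul_one]⟩
  have hg : ∀ g : V, mp C.v (dg L g) * N * C.sys ε W θ P Q =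
      mp C.v (dg L g * f) + mp C.v (dg L g * s₁) * dg J C.t * mp C.v Qᴴ +
        (ε : ℤ) • (mp C.v (dg L g * s₂) * dg J C.t⁻¹ * mp C.v Pᴴ) := fun g => by
    rw [Matrix.mul_assoc, hN]
    simp only [mp_mul, Matrix.mul_add, Matrix.mul_smul, Matrix.mul_assoc]
  obtain ⟨k₁, hk₁⟩ := coset_span C.i C.iinj (fromCols
      (rs C.v C.vinj N * (W.toBlocks₁₁ * P) - s₁)
      (rs C.v C.vinj (N * mp C.v (W.toBlocks₁₁ * Q) * dg J C.t⁻¹))) U.toRows₁ fun g => by
    have h1 := OVS_pos hs h (hg g)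
    simp only [Matrix.mul_assoc, rs_mp_mul] at h1
    simpa only [mul_fromCols, Matrix.mul_sub, Matrix.mul_assoc] using h1
  obtain ⟨k₂, hk₂⟩ := coset_span C.j C.jinj (fromCols
      (rs C.v C.vinj (N * mp C.v (W.toBlocks₁₁ * P) * dg J C.t))
      (rs C.v C.vinj N * (W.toBlocks₁₁ * Q) - s₂)) U.toRows₂ fun g => by
    have h1 := OVS_neg hs h (hg g)
    simp only [Matrix.mul_assoc, rs_mp_mul] at h1
    simpa only [mul_fromCols, Matrix.mul_sub, Matrix.mul_assoc] using h1
  have a1 : rs C.v C.vinj N * (W.toBlocks₁₁ * P) - s₁ = k₁ * mp C.i U.toBlocks₁₁ :=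
    congrArg toCols₁ hk₁
  have a2 : rs C.v C.vinj (N * mp C.v (W.toBlocks₁₁ * Q) * dg J C.t⁻¹) =
      k₁ * mp C.i U.toBlocks₁₂ := congrArg toCols₂ hk₁
  have a3 : rs C.v C.vinj (N * mp C.v (W.toBlocks₁₁ * P) * dg J C.t) =
      k₂ * mp C.j U.toBlocks₂₁ := congrArg toCols₁ hk₂
  have a4 : rs C.v C.vinj N * (W.toBlocks₁₁ * Q) - s₂ = k₂ * mp C.j U.toBlocks₂₂ :=
    congrArg toCols₂ hk₂
  refine ⟨rs C.v C.vinj N, k₁, k₂, ?_, by rw [← a1, sub_sub_cancel], by rw [← a4, sub_sub_cancel]⟩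
  have h1 := congrArg (rs C.v C.vinj) hN
  rw [PH.sys_eq, Matrix.mul_add, Matrix.mul_add, Matrix.mul_smul, ← mp_ct, ← mp_ct,
    ← Matrix.mul_assoc, ← Matrix.mul_assoc, ← Matrix.mul_assoc, ← Matrix.mul_assoc] at h1
  simp only [rs_add, rs_zsmul, rs_mul_mp, rs_mp, OVS_rs_t, OVS_rs_tinv, Matrix.zero_mul,
    smul_zero, add_zero, a2, a3] at h1
  rw [← h1]
  abel

end Pool.Agent.Work.MP_9d1ffa_al
end

-- merged part: Pool.Agent.Work.MP_9d1ffa_al.OVR
section
/-! The relation at the vertex. -/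

namespace Pool.Agent.Work.MP_9d1ffa_al

open Matrix MonoidAlgebra

set_option linter.unusedSectionVars false
set_option linter.unusedVariables false

section Ring

variable {R : Type} [Ring R] [StarRing R] {ε : ℤˣ} {I J L : Type} [Fintype I]
  [DecidableEq I] [Fintype J] [DecidableEq J] [Fintype L] [DecidableEq L]

theorem OVR_sq {M : Type} [AddCommGroup M] (ε : ℤˣ) (x : M) : (ε : ℤ) • (ε : ℤ) • x = x := by
  rw [smul_smul, ← Units.val_mul, Int.units_mul_self, Units.val_one, one_smul]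

theorem OVR_fA (η : ℤˣ) (X : Matrix (J ⊕ J) (J ⊕ J) R) :
    fA η X * fromBlocks 0 1 ((η : ℤ) • 1) 0 =
      fromBlocks X.toBlocks₁₂ X.toBlocks₁₁ ((η : ℤ) • X.toBlocks₂₂) ((η : ℤ) • X.toBlocks₂₁) := by
  simp only [fA, fromBlocks_multiply, Matrix.mul_zero, Matrix.mul_one, zero_add, add_zero,
    Matrix.mul_smul, OVR_sq]

theorem OVR_fB (ε : ℤˣ) (X : Matrix (J ⊕ J) (J ⊕ J) R) :
    fB X * fromBlocks 0 1 (((-ε : ℤˣ) : ℤ) • 1) 0 =
      fromBlocks ((ε : ℤ) • X.toBlocks₂₁) X.toBlocks₂₂ (((-ε : ℤˣ) : ℤ) • X.toBlocks₁₁)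
        (-X.toBlocks₁₂) := by
  simp only [fB, fromBlocks_multiply, Matrix.mul_zero, Matrix.mul_one, zero_add, add_zero,
    Matrix.mul_smul, Units.val_neg, neg_smul, smul_neg, neg_neg, Matrix.mul_neg]

theorem OVR_row (W : Matrix (I ⊕ I) (I ⊕ I) R) (θ : Matrix I I R) (P Q : Matrix I J R)
    (a b c d a' b' c' d' : Matrix J J R) (n : Matrix L I R) (k₁ k₂ : Matrix L J R) :
    fromCols n (fromCols k₁ k₂) *
      sysM ε (dsum W (dsum (fromBlocks b a b' a') (fromBlocks ((ε : ℤ) • c) d c' d')))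
        (fromBlocks θ (fromCols P Q) 0 0) =
      fromCols (n * sysM ε W θ + (ε : ℤ) • (k₁ * b * Pᴴ) + k₂ * c * Qᴴ)
        (fromCols (n * (W.toBlocks₁₁ * P) - k₁ * a) (n * (W.toBlocks₁₁ * Q) - k₂ * d)) := by
  have e1 : sy ε (fromBlocks θ (fromCols P Q) 0 (0 : Matrix (J ⊕ J) (J ⊕ J) R)) =
      fromBlocks (sy ε θ) (fromCols P Q) (fromRows ((ε : ℤ) • Pᴴ) ((ε : ℤ) • Qᴴ)) 0 := by
    ext (i | i | i) (j | j | j) <;> simp [sy, -zsmul_eq_mul]
  have e2 : sysM ε (dsum W (dsum (fromBlocks b a b' a') (fromBlocks ((ε : ℤ) • c) d c' d')))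
      (fromBlocks θ (fromCols P Q) 0 0) =
      fromBlocks (sysM ε W θ) (fromCols (W.toBlocks₁₁ * P) (W.toBlocks₁₁ * Q))
        (fromRows ((ε : ℤ) • (b * Pᴴ)) (c * Qᴴ)) (fromBlocks (-a) 0 0 (-d)) := by
    rw [sysM, e1, dsum_blocks, dsum_eq, toBlocks_fromBlocks₁₁, toBlocks_fromBlocks₁₂,
      toBlocks_fromBlocks₁₁, toBlocks_fromBlocks₁₂, fromBlocks_multiply]
    simp only [Matrix.zero_mul, Matrix.mul_zero, add_zero, zero_add, mul_fromCols,
      fromBlocks_mul_fromRows, Matrix.mul_smul, Matrix.smul_mul, OVR_sq, smul_zero]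
    ext (i | i | i) (j | j | j) <;> simp [sysM]
  rw [e2, fromCols_mul_fromBlocks, fromCols_mul_fromRows, mul_fromCols, fromCols_mul_fromBlocks]
  simp only [Matrix.mul_zero, add_zero, zero_add, Matrix.mul_neg, Matrix.mul_smul,
    Matrix.mul_assoc, add_assoc]
  congr 1
  ext i (j | j) <;> simp [sub_eq_add_neg]

end Ring

variable {Γ V A : Type} [Group Γ] [Group V] [Group A] {ε : ℤˣ} {I J : Type} [Fintype I]
  [DecidableEq I] [Fintype J] [DecidableEq J]
  {W : Matrix (I ⊕ I) (I ⊕ I) (ZG V)} {θ : Matrix I I (ZG V)} {P Q : Matrix I J (ZG V)}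
  {U : Matrix (J ⊕ J) (J ⊕ J) (ZG A)}

theorem Cut.vr {C : Cut Γ V A} (hW : Uni (-ε) W) (hs : IsUnit (C.sys ε W θ P Q))
    (h : C.EF ε W θ P Q U) :
    ucl (-ε) W = (ε : ℤ) • (m1 (-ε) C.i (ucl (-ε) U) - m1 (-ε) C.j (ucl (-ε) U)) := by
  have hσ : GenU (-ε) (fromBlocks 0 1 (((-ε : ℤˣ) : ℤ) • 1) 0 : Matrix (J ⊕ J) (J ⊕ J) (ZG V)) :=
    genU_swap
  have hi := h.1.mp C.i
  have hj := h.1.mp C.j
  have hA := hi.fA.mul hσ.uni
  have hB := hj.fB.mul hσ.uni
  have hW' := hW.dsum (hA.dsum hB)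
  obtain ⟨n, k₁, k₂, e1, e2, e3⟩ := Cut.vertex_solve hs h (L := I ⊕ (J ⊕ J))
    (toCols₁ (1 : Matrix (I ⊕ (J ⊕ J)) (I ⊕ (J ⊕ J)) (ZG V)))
    (toCols₁ (toCols₂ (1 : Matrix (I ⊕ (J ⊕ J)) (I ⊕ (J ⊕ J)) (ZG V))))
    (toCols₂ (toCols₂ (1 : Matrix (I ⊕ (J ⊕ J)) (I ⊕ (J ⊕ J)) (ZG V))))
  have h0 := ucl_sys hW' (ψ := fromBlocks θ (fromCols P Q) 0 0)
    (C := fromCols n (fromCols k₁ k₂)) (by
      rw [OVR_fA, OVR_fB, OVR_row, mp_toBlocks₁₁, mp_toBlocks₁₂, mp_toBlocks₂₁, mp_toBlocks₂₂,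
        e1, e2, e3, fromCols_toCols, fromCols_toCols])
  rw [ucl_dsum hW (hA.dsum hB), ucl_dsum hA hB, ucl_mul hi.fA hσ.uni, ucl_mul hj.fB hσ.uni,
    ucl_gen hσ, ucl_fA hi, ucl_fB hj, add_zero, add_zero, Units.val_neg, neg_smul, neg_smul,
    neg_neg] at h0
  rw [m1_ucl _ h.1, m1_ucl _ h.1, smul_sub, eq_neg_of_add_eq_zero_left h0]
  abel

end Pool.Agent.Work.MP_9d1ffa_al
end

-- merged part: Pool.Agent.Work.MP_9d1ffa_al.ORL
section
/-! Realisation of edge classes. -/

namespace Pool.Agent.Work.MP_9d1ffa_al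

open Matrix MonoidAlgebra

set_option linter.unusedSectionVars false
set_option linter.unusedVariables false

section ORLalg

variable {R : Type} [Ring R] [StarRing R] {ε : ℤˣ} {I K L M : Type} [Fintype I] [DecidableEq I]
  [Fintype K] [DecidableEq K] [Fintype L] [DecidableEq L] [Fintype M] [DecidableEq M]

theorem ORL_add (a c : Matrix L I R) (b d : Matrix L M R) :
    fromCols a b + fromCols c d = fromCols (a + c) (b + d) := by
  ext i (j | j) <;> rfl

theorem ORL_W₁ (W : Matrix (I ⊕ I) (I ⊕ I) R) :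
    (dsum W (1 : Matrix (M ⊕ M) (M ⊕ M) R)).toBlocks₁₁ = fromBlocks W.toBlocks₁₁ 0 0 1 := by
  rw [dsum_eq, toBlocks_fromBlocks₁₁, ← fromBlocks_one, toBlocks_fromBlocks₁₁]

theorem ORL_W₂ (W : Matrix (I ⊕ I) (I ⊕ I) R) :
    (dsum W (1 : Matrix (M ⊕ M) (M ⊕ M) R)).toBlocks₁₂ = fromBlocks W.toBlocks₁₂ 0 0 0 := by
  rw [dsum_eq, toBlocks_fromBlocks₁₂, ← fromBlocks_one, toBlocks_fromBlocks₁₂]

theorem ORL_row (W : Matrix (I ⊕ I) (I ⊕ I) R) (θ : Matrix (I ⊕ M) (I ⊕ M) R) (y₁ : Matrix L I R)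
    (y₂ : Matrix L M R) : fromCols y₁ y₂ * sysM ε (dsum W (1 : Matrix (M ⊕ M) (M ⊕ M) R)) θ =
      fromCols (y₁ * W.toBlocks₁₁) y₂ * sy ε θ - fromCols (y₁ * W.toBlocks₁₂) 0 := by
  rw [sysM, ORL_W₁, ORL_W₂, Matrix.mul_sub, ← Matrix.mul_assoc, fromCols_mul_fromBlocks,
    fromCols_mul_fromBlocks]
  simp

theorem ORL_row₀ (W : Matrix (I ⊕ I) (I ⊕ I) R) (θ : Matrix (I ⊕ M) (I ⊕ M) R) (y : Matrix L M R) :
    fromCols (0 : Matrix L I R) y * sysM ε (dsum W (1 : Matrix (M ⊕ M) (M ⊕ M) R)) θ =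
      fromCols (0 : Matrix L I R) y * sy ε θ := by
  rw [ORL_row, Matrix.zero_mul, Matrix.zero_mul, fromCols_zero, sub_zero]

theorem ORL_col₀ (W : Matrix (I ⊕ I) (I ⊕ I) R) (y : Matrix M L R) :
    (dsum W (1 : Matrix (M ⊕ M) (M ⊕ M) R)).toBlocks₁₁ * fromRows (0 : Matrix I L R) y =
      fromRows 0 y := by
  rw [ORL_W₁, fromBlocks_mul_fromRows]
  simp

/-- all rows of the form and all sources at the port are values of the system -/
theorem ORL_key {W : Matrix (I ⊕ I) (I ⊕ I) R} (hW : Uni (-ε) W) {θ : Matrix (I ⊕ M) (I ⊕ M) R}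
    {m : Matrix I M R} (h : fromCols W.toBlocks₂₁ m * sy ε θ = fromCols W.toBlocks₂₂ 0)
    (X : Matrix L (I ⊕ M) R) (φ : Matrix L I R) :
    ∃ Y : Matrix L (I ⊕ M) R,
      Y * sysM ε (dsum W (1 : Matrix (M ⊕ M) (M ⊕ M) R)) θ = X * sy ε θ - fromCols φ 0 := by
  obtain ⟨V, -, -, hV⟩ := hW.inv
  have e : fromCols X.toCols₁ φ * V * W = fromCols X.toCols₁ φ := by
    rw [Matrix.mul_assoc, hV, Matrix.mul_one]
  generalize fromCols X.toCols₁ φ * V = Z at e
  rw [← fromCols_toCols Z, ← fromBlocks_toBlocks W, fromCols_mul_fromBlocks,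
    fromCols_ext_iff] at e
  refine ⟨fromCols Z.toCols₁ (X.toCols₂ - Z.toCols₂ * m), ?_⟩
  have h1 := congrArg (Z.toCols₂ * ·) h
  simp only [← Matrix.mul_assoc, mul_fromCols, Matrix.mul_zero] at h1
  have h2 : X = fromCols (Z.toCols₁ * W.toBlocks₁₁) (X.toCols₂ - Z.toCols₂ * m) +
      fromCols (Z.toCols₂ * W.toBlocks₂₁) (Z.toCols₂ * m) := by
    rw [ORL_add, e.1, sub_add_cancel, fromCols_toCols]
  have h3 : (fromCols φ 0 : Matrix L (I ⊕ M) R) = fromCols (Z.toCols₁ * W.toBlocks₁₂) 0 +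
      fromCols (Z.toCols₂ * W.toBlocks₂₂) 0 := by
    rw [ORL_add, e.2, add_zero]
  rw [ORL_row, h3]
  conv_rhs => rw [h2, Matrix.add_mul, h1]
  abel

theorem ORL_box {x₁ φ₁ : Matrix I I R} {x₂ φ₂ : Matrix K K R}
    (h : HasBox ε (fromBlocks x₁ 0 0 x₂) (fromBlocks φ₁ 0 0 φ₂)) :
    ∃ (M : Type) (_ : Fintype M) (_ : DecidableEq M) (θ : Matrix (I ⊕ (K ⊕ M)) (I ⊕ (K ⊕ M)) R)
      (m₁ : Matrix I M R) (m₂ : Matrix K M R) (C : Matrix M (I ⊕ (K ⊕ M)) R) (c₁ : Matrix M I R)
      (c₂ : Matrix M K R), fromCols x₁ (fromCols (0 : Matrix I K R) m₁) * sy ε θ = fromCols φ₁ 0 ∧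
      fromCols (0 : Matrix K I R) (fromCols x₂ m₂) * sy ε θ = fromCols 0 (fromCols φ₂ 0) ∧
      C * sy ε θ = fromCols c₁ (fromCols c₂ 1) := by
  obtain ⟨M, _, _, θ, m, h1, C, c, h2⟩ := h
  have s : ∀ {L : Type} (a : Matrix L I R) (k : Matrix L K R) (d : Matrix L M R),
      (fromCols (fromCols a k) d).submatrix id (Equiv.sumAssoc I K M).symm =
        fromCols a (fromCols k d) := fun a k d => by
    ext i (j | j | j) <;> rfl
  have e : ∀ {L : Type} (Y : Matrix L ((I ⊕ K) ⊕ M) R),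
      Y.submatrix id (Equiv.sumAssoc I K M).symm *
        sy ε (θ.submatrix (Equiv.sumAssoc I K M).symm (Equiv.sumAssoc I K M).symm) =
      (Y * sy ε θ).submatrix id (Equiv.sumAssoc I K M).symm := fun Y =>
    submatrix_mul_equiv Y (sy ε θ) id (Equiv.sumAssoc I K M).symm (Equiv.sumAssoc I K M).symm
  rw [← fromRows_toRows m, ← fromRows_fromCols_eq_fromBlocks, ← fromRows_fromCols_eq_fromBlocks,
    fromCols_fromRows_eq_fromBlocks, ← fromRows_fromCols_eq_fromBlocks, fromRows_mul,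
    ← fromRows_zero, fromCols_fromRows_eq_fromBlocks, ← fromRows_fromCols_eq_fromBlocks,
    fromRows_ext_iff] at h1
  refine ⟨M, inferInstance, inferInstance, _, m.toRows₁, m.toRows₂, _, c.toCols₁, c.toCols₂,
    ?_, ?_, (e C).trans ?_⟩
  · rw [← s, e, h1.1, s, fromCols_zero]
  · rw [← s, e, h1.2, s]
  · rw [h2, ← s, fromCols_toCols]

end ORLalg

variable {Γ V A : Type} [Group Γ] [Group V] [Group A] {ε : ℤˣ} {I J : Type} [Fintype I]
  [DecidableEq I] [Fintype J] [DecidableEq J]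

theorem ORL_unit (D : PH Γ V A) {W : Matrix (I ⊕ I) (I ⊕ I) (ZG V)} (hW : Uni (-ε) W)
    {U : Matrix (J ⊕ J) (J ⊕ J) (ZG A)} (hU : Uni (-ε) U) {θ : Matrix I I (ZG V)}
    {P Q : Matrix I J (ZG V)} (h : Loc D.i D.j ε W θ P Q U) {Y : Matrix I I (ZG V)}
    {a b : Matrix I J (ZG V)} (e : Y * sysM ε W θ + a * Pᴴ + b * Qᴴ = 1) :
    IsUnit (D.sys ε W θ P Q) := by
  obtain ⟨n₁, n₂, h1, h2, h3, h4, h5, h6⟩ := h
  obtain ⟨U', -, -, hU'⟩ := hU.inv
  have r : ∀ n : Matrix J I (ZG V), mp D.v n * D.sys ε W θ P Q = mp D.v (n * sysM ε W θ) +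
      mp D.v (n * (W.toBlocks₁₁ * P)) * dg J D.t * (mp D.v Q)ᴴ +
      (ε : ℤ) • (mp D.v (n * (W.toBlocks₁₁ * Q)) * dg J D.t⁻¹ * (mp D.v P)ᴴ) := fun n => by
    simp only [D.sys_eq, Matrix.mul_add, Matrix.mul_smul, mp_mul D.v n, Matrix.mul_assoc]
  have k1 : fromRows (dg J D.t * mp D.v n₁) (mp D.v n₂) * D.sys ε W θ P Q =
      mp D.va U * D.sig ε P Q := by
    conv_rhs => rw [← fromBlocks_toBlocks U, mp_blocks, PH.sig, fromBlocks_mul_fromRows]
    rw [fromRows_mul, Matrix.mul_assoc, r, r, h1, h2, h3, h4, h5, h6]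
    congr 1
    · rw [mp_zero, Matrix.zero_mul, Matrix.zero_mul, add_zero, mp_neg, mp_mul, mp_ct,
        Matrix.mul_add, Matrix.mul_neg, Matrix.mul_neg, Matrix.mul_smul, Matrix.mul_smul,
        ← Matrix.mul_assoc, ← Matrix.mul_assoc, ← Matrix.mul_assoc, ← Matrix.mul_assoc,
        ← D.mp_va_dg, ← D.mp_va_dg, Matrix.mul_assoc _ (dg J D.t) (dg J D.t⁻¹), dg_mul_inv,
        Matrix.mul_one]
    · rw [mp_zero, Matrix.zero_mul, Matrix.zero_mul, smul_zero, add_zero, mp_neg, mp_zsmul, mp_mul,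
        mp_ct, ← D.mp_va, ← D.mp_va, Matrix.mul_neg, Matrix.mul_smul, Matrix.neg_mul,
        Matrix.neg_mul, Matrix.mul_assoc, add_comm]
  obtain ⟨Z, k2⟩ : ∃ Z : Matrix (J ⊕ J) I (ZG Γ), Z * D.sys ε W θ P Q = D.sig ε P Q :=
    ⟨mp D.va U' * fromRows (dg J D.t * mp D.v n₁) (mp D.v n₂), by
      rw [Matrix.mul_assoc, k1, ← Matrix.mul_assoc, ← mp_mul, hU', mp_one, Matrix.one_mul]⟩
  rw [← fromRows_toRows Z, fromRows_mul, PH.sig, fromRows_ext_iff] at k2
  have kQ : -(dg J D.t⁻¹ * Z.toRows₁) * D.sys ε W θ P Q = (mp D.v Q)ᴴ := by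
    rw [Matrix.neg_mul, Matrix.mul_assoc, k2.1, Matrix.mul_neg, neg_neg, ← Matrix.mul_assoc,
      dg_inv_mul, Matrix.one_mul]
  have kP : ((ε : ℤ) • Z.toRows₂) * D.sys ε W θ P Q = (mp D.v P)ᴴ := by
    rw [Matrix.smul_mul, k2.2, eps_eps]
  have e' := congrArg (mp D.v) e
  rw [mp_add, mp_add, mp_mul, mp_mul, mp_mul, mp_ct, mp_ct, mp_one] at e'
  refine sys_unit (hW.mp D.v) (C := mp D.v Y +
    (mp D.v a - (ε : ℤ) • (mp D.v Y * (mp D.v (W.toBlocks₁₁ * Q) * dg J D.t⁻¹))) *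
      ((ε : ℤ) • Z.toRows₂) +
    (mp D.v b - mp D.v Y * (mp D.v (W.toBlocks₁₁ * P) * dg J D.t)) *
      -(dg J D.t⁻¹ * Z.toRows₁)) ?_
  change _ * D.sys ε W θ P Q = 1
  rw [Matrix.add_mul, Matrix.add_mul, Matrix.mul_assoc, Matrix.mul_assoc, kP, kQ, ← e', D.sys_eq]
  simp only [Matrix.mul_add, Matrix.sub_mul, Matrix.mul_smul, Matrix.smul_mul, Matrix.mul_assoc]
  abel

theorem PH.rl (D : PH Γ V A) {W : Matrix (I ⊕ I) (I ⊕ I) (ZG V)} (hW : Uni (-ε) W)
    {U : Matrix (J ⊕ J) (J ⊕ J) (ZG A)} (hU : Uni (-ε) U)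
    (h : ucl (-ε) W = (ε : ℤ) • (m1 (-ε) D.i (ucl (-ε) U) - m1 (-ε) D.j (ucl (-ε) U))) :
    ∃ (M : Type) (_ : Fintype M) (_ : DecidableEq M) (θ : Matrix (I ⊕ M) (I ⊕ M) (ZG V))
      (P Q : Matrix (I ⊕ M) J (ZG V)),
      IsUnit (D.sys ε (dsum W (1 : Matrix (M ⊕ M) (M ⊕ M) (ZG V))) θ P Q) ∧
      Loc D.i D.j ε (dsum W (1 : Matrix (M ⊕ M) (M ⊕ M) (ZG V))) θ P Q U := by
  have hi := hU.mp D.i
  have hj := hU.mp D.j
  have h0 : ucl (-ε) (dsum W (dsum (fA (-ε) (mp D.i U)) (fB (mp D.j U)))) = 0 := by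
    rw [ucl_dsum hW (hi.fA.dsum hj.fB), ucl_dsum hi.fA hj.fB, ucl_fA hi, ucl_fB hj, h,
      m1_ucl _ hU, m1_ucl _ hU, Units.val_neg, neg_smul, neg_smul, smul_sub]
    abel
  have hb := hasBox_lower (hW.dsum (hi.fA.dsum hj.fB)) h0
  rw [dsum_eq, toBlocks_fromBlocks₂₁, toBlocks_fromBlocks₂₂, dsum_eq, toBlocks_fromBlocks₂₁,
    toBlocks_fromBlocks₂₂, fA, fB, toBlocks_fromBlocks₂₁, toBlocks_fromBlocks₂₂,
    toBlocks_fromBlocks₂₁, toBlocks_fromBlocks₂₂] at hb
  obtain ⟨M, _, _, θ, m₁, m₂, C, c₁, c₂, h1, h2, h3⟩ := ORL_box hb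
  obtain ⟨P, hP⟩ : ∃ P : Matrix (I ⊕ ((J ⊕ J) ⊕ M)) J (ZG V),
      P = fromRows 0 (fromRows (fromRows 1 0) 0) := ⟨_, rfl⟩
  obtain ⟨Q, hQ⟩ : ∃ Q : Matrix (I ⊕ ((J ⊕ J) ⊕ M)) J (ZG V),
      Q = fromRows 0 (fromRows (fromRows 0 1) 0) := ⟨_, rfl⟩
  have cP : Pᴴ = fromCols 0 (fromCols (fromCols 1 0) 0) := by
    simp only [hP, conjTranspose_fromRows_eq_fromCols_conjTranspose, conjTranspose_zero,
      conjTranspose_one]
  have cQ : Qᴴ = fromCols 0 (fromCols (fromCols 0 1) 0) := by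
    simp only [hQ, conjTranspose_fromRows_eq_fromCols_conjTranspose, conjTranspose_zero,
      conjTranspose_one]
  have h4 := congrArg (fromCols (1 : Matrix J J (ZG V)) (0 : Matrix J J (ZG V)) * ·) h2
  have h5 := congrArg (fromCols (0 : Matrix J J (ZG V)) (1 : Matrix J J (ZG V)) * ·) h2
  simp only [← Matrix.mul_assoc, mul_fromCols, Matrix.mul_zero, fromCols_mul_fromBlocks,
    Matrix.one_mul, Matrix.zero_mul, add_zero, zero_add] at h4 h5
  have hL : Loc D.i D.j ε (dsum W (1 : Matrix (((J ⊕ J) ⊕ M) ⊕ ((J ⊕ J) ⊕ M)) _ (ZG V))) θ P Q U := by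
    refine ⟨-fromCols 0 (fromCols (fromCols 0 (-(mp D.j U).toBlocks₁₂)) 
        (fromCols (0 : Matrix J J (ZG V)) (1 : Matrix J J (ZG V)) * m₂)),
      (ε : ℤ) • fromCols 0 (fromCols (fromCols (((-ε : ℤˣ) : ℤ) • (mp D.i U).toBlocks₂₁) 0)
        (fromCols (1 : Matrix J J (ZG V)) (0 : Matrix J J (ZG V)) * m₂)), ?_, ?_, ?_, ?_, ?_, ?_⟩
    · rw [hP, ORL_col₀]
      simp [fromCols_mul_fromRows]
    · rw [hQ, ORL_col₀]
      simp [fromCols_mul_fromRows, mp_toBlocks₁₂]
    · rw [Matrix.neg_mul, ORL_row₀, h5, cQ]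
      simp [mp_toBlocks₁₁]
    · rw [hP, ORL_col₀, Matrix.smul_mul]
      simp only [fromCols_mul_fromRows, mp_toBlocks₂₁, Matrix.mul_zero,
        Matrix.mul_one, add_zero, zero_add, Units.val_neg, neg_smul, smul_neg, eps_eps]
    · rw [hQ, ORL_col₀, Matrix.smul_mul]
      simp [fromCols_mul_fromRows]
    · rw [Matrix.smul_mul, ORL_row₀, h4, cP]
      simp [mp_toBlocks₂₂]
  refine ⟨(J ⊕ J) ⊕ M, inferInstance, inferInstance, θ, P, Q, ?_, hL⟩
  obtain ⟨Y, hY⟩ := ORL_key hW h1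
    (fromRows (0 : Matrix I _ _) (fromRows (0 : Matrix (J ⊕ J) _ _) C))
    (fromRows (-1 : Matrix I I (ZG V)) (fromRows 0 c₁))
  refine ORL_unit D (hW.dsum uni_one) hU hL (Y := Y)
    (a := fromRows 0 (fromRows (fromRows 1 0) (-c₂.toCols₁)))
    (b := fromRows 0 (fromRows (fromRows 0 1) (-c₂.toCols₂))) ?_
  rw [hY, cP, cQ]
  simp only [fromRows_mul, mul_fromCols, h3, Matrix.zero_mul, Matrix.mul_zero, Matrix.mul_one]
  ext (i | (i | i) | i) (j | (j | j) | j) <;> simp [Matrix.one_apply]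

end Pool.Agent.Work.MP_9d1ffa_al
end

-- merged part: Pool.Agent.Work.MP_9d1ffa_al.OHess
section
/-! Changing the quadratic refinement of a form. -/

namespace Pool.Agent.Work.MP_9d1ffa_al

open Matrix MonoidAlgebra

set_option linter.unusedSectionVars false
set_option linter.unusedVariables false

variable {G V : Type} [Group G] [Group V] {ε : ℤˣ} {I : Type} [Fintype I] [DecidableEq I]

theorem eqv_int (h2 : ∀ g : G, g * g = 1 → g = 1) {X : Matrix I I (ZG G)} (hX : sy ε X = 0)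
    (f : V →* G) : ∃ N : Matrix I I (ZG V), sy ε N = 0 ∧ Eqv ε X (mp f N) := by
  classical
  obtain ⟨_, -⟩ := exists_wellFoundedLT (I × I × G)
  have hx : ∀ k l g, (X k l).coeff g + (ε : ℤ) * (X l k).coeff g⁻¹ = 0 := fun k l g => by
    have := congrArg (fun A : Matrix I I (ZG G) => (A k l).coeff g) hX
    simpa only [sy, Matrix.add_apply, Matrix.smul_apply, coeff_add, coeff_smul, Finsupp.add_apply,
      Finsupp.smul_apply, coeff_ct, smul_eq_mul, Matrix.zero_apply, coeff_zero,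
      Finsupp.zero_apply] using this
  refine ⟨diagonal fun k => single 1 ((X k k).coeff 1), ?_, Eqv.symm
    ⟨Matrix.of fun k l => fil (fun g => (k, l, g) < (l, k, g⁻¹)) (X k l), ?_⟩⟩
  · rw [sy, diagonal_conjTranspose, ← diagonal_smul, diagonal_add, ← diagonal_zero]
    congr 1
    funext k
    have := hx k k 1
    rw [inv_one] at this
    rw [Pi.smul_apply, Pi.star_apply, star_single, inv_one, MonoidAlgebra.smul_single,
      ← MonoidAlgebra.single_add, smul_eq_mul, this, MonoidAlgebra.single_zero]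
  · refine mat_ext fun k l g => ?_
    have e1 : (mp f (diagonal fun k => single 1 ((X k k).coeff 1)) k l).coeff g =
        if k = l ∧ g = 1 then (X k l).coeff g else 0 := by
      rw [mp, diagonal_map (map_zero _)]
      by_cases h : k = l
      · subst h
        rw [diagonal_apply_eq, gm_single, map_one]
        by_cases h' : g = 1
        · simp [h']
        · simp [h']
      · simp [h]
    have e2 := hx k l g
    simp only [Matrix.sub_apply, Matrix.add_apply, Matrix.smul_apply, coeff_sub, coeff_add,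
      coeff_smul, Finsupp.sub_apply, Finsupp.add_apply, Finsupp.smul_apply, coeff_ct,
      Matrix.of_apply, coeff_fil, e1, inv_inv, smul_eq_mul]
    rcases lt_trichotomy (k, l, g) (l, k, g⁻¹) with h | h | h
    · rw [if_pos h, if_neg h.not_gt, if_neg (by rintro ⟨rfl, rfl⟩; simp at h)]
      ring
    · have h3 : k = l ∧ g = 1 := ⟨congrArg Prod.fst h,
        h2 g (mul_eq_one_iff_eq_inv.2 (congrArg (fun t => t.2.2) h))⟩
      rw [if_pos h3, if_neg h.not_lt, if_neg h.not_gt]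
      ring
    · rw [if_pos h, if_neg h.not_gt, if_neg (by rintro ⟨rfl, rfl⟩; simp at h)]
      linarith

theorem iso_hess {R : Type} [Ring R] [StarRing R] {ψ D : Matrix I I R} (hψ : NS ε ψ)
    (hD : sy ε D = 0) : ∃ X : Matrix I I R, sy ε X = 0 ∧
      Iso ε (fromBlocks ψ 0 0 (-(ψ - D))) (fromBlocks D 1 0 X) := by
  obtain ⟨μ, h1, h2⟩ := hψ.inv
  have s1 : Iso ε (fromBlocks ψ 0 0 (-(ψ - D))) (fromBlocks D (-sy ε ψ) 0 (-(ψ - D))) := by
    refine (iso_conj _ (g := fromBlocks 1 1 0 1) (g' := fromBlocks 1 (-1) 0 1) ?_ ?_).trans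
      (Iso.of_eqv ?_)
    · simp [fromBlocks_multiply]
    · simp [fromBlocks_multiply]
    · simp only [fromBlocks_multiply, fromBlocks_conjTranspose, conjTranspose_one,
        conjTranspose_zero, Matrix.one_mul, Matrix.mul_one, Matrix.zero_mul, Matrix.mul_zero,
        add_zero, zero_add]
      refine eqv_blocks (Eqv.of_eq (by abel)) (Eqv.refl _) ?_
      rw [conjTranspose_zero, smul_zero, add_zero]
      change sy ε (-(ψ - D)) = _
      rw [sy_neg, sub_eq_add_neg, sy_add, sy_neg, hD, neg_zero, add_zero]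
  obtain ⟨φ, hφ⟩ : ∃ φ, φ = μᴴ * -(ψ - D) * μ := ⟨_, rfl⟩
  have s2 : Iso ε (fromBlocks D (-sy ε ψ) 0 (-(ψ - D))) (fromBlocks D 1 0 φ) := by
    refine (iso_conj _ (g := fromBlocks 1 0 0 (-μᴴ)) (g' := fromBlocks 1 0 0 (-(sy ε ψ)ᴴ)) ?_
      ?_).trans (Iso.of_eqv (Eqv.of_eq ?_))
    · simp [fromBlocks_multiply, ← conjTranspose_mul, h1]
    · simp [fromBlocks_multiply, ← conjTranspose_mul, h2]
    · simp only [fromBlocks_multiply, fromBlocks_conjTranspose, conjTranspose_one,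
        conjTranspose_zero, Matrix.one_mul, Matrix.mul_one, Matrix.zero_mul, Matrix.mul_zero,
        add_zero, zero_add, conjTranspose_neg, conjTranspose_conjTranspose, h1, hφ,
        mul_neg, neg_mul, neg_neg, neg_zero]
  refine ⟨φ * D * φᴴ, by rw [sy_conj, hD, mul_zero, zero_mul], (s1.trans s2).trans ?_⟩
  refine (iso_conj _ (g := fromBlocks 1 0 (-φ) 1) (g' := fromBlocks 1 0 φ 1) ?_ ?_).trans
    (Iso.of_eqv ?_)
  · simp [fromBlocks_multiply]
  · simp [fromBlocks_multiply]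
  · simp only [fromBlocks_multiply, fromBlocks_conjTranspose, conjTranspose_one,
      conjTranspose_zero, Matrix.one_mul, Matrix.mul_one, Matrix.zero_mul, Matrix.mul_zero,
      add_zero, neg_add_cancel]
    refine eqv_blocks (Eqv.refl _) (Eqv.of_eq (by simp)) ?_
    have e : D * φᴴ + (ε : ℤ) • (Dᴴ * φᴴ) = 0 := by
      rw [← smul_mul_assoc, ← add_mul]
      change sy ε D * _ = _
      rw [hD, zero_mul]
    rw [conjTranspose_zero, smul_zero, add_zero, conjTranspose_mul, conjTranspose_neg, mul_neg,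
      mul_neg, smul_neg, add_right_comm, ← neg_add, e, neg_zero, zero_add]

theorem hess (h2 : ∀ g : G, g * g = 1 → g = 1) {ψ D : Matrix I I (ZG G)} (hψ : NS ε ψ)
    (hD : sy ε D = 0) (f : V →* G) : cls ε ψ - cls ε (ψ - D) ∈ (m0 ε f).range := by
  obtain ⟨X, hX, hI⟩ := iso_hess hψ hD
  obtain ⟨N, n1, n2⟩ := eqv_int h2 hD f
  obtain ⟨N', n1', n2'⟩ := eqv_int h2 hX f
  have h1 : NS ε (ψ - D) := by
    unfold NS at hψ ⊢
    rwa [sub_eq_add_neg, sy_add, sy_neg, hD, neg_zero, add_zero]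
  have h3 : NS ε (fromBlocks N 1 0 N') := by
    have := ns_hyp (R := ZG V) (ε := ε) (I := I)
    unfold NS at this ⊢
    rw [hypF, sy_blocks, sy_zero] at this
    rwa [sy_blocks, n1, n1']
  refine ⟨cls ε (fromBlocks N 1 0 N'), ?_⟩
  rw [m0_cls f h3, mp_blocks, mp_one, mp_zero, sub_eq_add_neg, ← cls_neg, ← cls_sum hψ h1.neg,
    cls_iso hI]
  exact (cls_iso (Iso.of_eqv (eqv_blocks n2 n2' rfl))).symm

end Pool.Agent.Work.MP_9d1ffa_al
end

-- merged part: Pool.Agent.Work.MP_9d1ffa_al.OSp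
section
/-! A linear form with trivial edge frame comes from the vertex group. -/

namespace Pool.Agent.Work.MP_9d1ffa_al

open Matrix MonoidAlgebra

set_option linter.unusedSectionVars false
set_option linter.unusedVariables false

open MulAction Pool.Agent.Work.MP_904812_al

variable {Γ V A : Type} [Group Γ] [Group V] [Group A] {ε : ℤˣ} {I J : Type} [Fintype I]
  [DecidableEq I] [Fintype J] [DecidableEq J] {C : Cut Γ V A}

theorem OSp_other {R : Type} [Ring R] [StarRing R] {ψ m : Matrix I I R} (h : sy ε ψ * m = 1) :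
    m * sy ε ψ = 1 := by
  have h3 : (ε : ℤ) • mᴴ * sy ε ψ = 1 := by
    have := congrArg conjTranspose h
    rwa [conjTranspose_mul, sy_ct, conjTranspose_one, Matrix.mul_smul, ← Matrix.smul_mul] at this
  generalize (ε : ℤ) • mᴴ = n at h3
  have h4 : m = n := by
    rw [← Matrix.one_mul m, ← h3, Matrix.mul_assoc, h, Matrix.mul_one]
  rw [h4, h3]

theorem OSp_unsmul {G : Type} [Group G] {S : G → Prop} {L M : Type} {B : Matrix L M (ZG G)}
    (h : Sup S ((ε : ℤ) • B)) : Sup S B := by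
  have := h.zsmul (ε : ℤ)
  rwa [eps_eps] at this

theorem OSp_unneg {G : Type} [Group G] {S : G → Prop} {L M : Type} {B : Matrix L M (ZG G)}
    (h : Sup S (-B)) : Sup S B := by
  have := h.neg
  rwa [neg_neg] at this

/-- with the trivial edge frame the vertex form is nonsingular -/
theorem Cut.vertex_ns {θ : Matrix I I (ZG V)} {P Q : Matrix I J (ZG V)} {μ : Matrix I I (ZG Γ)}
    (h1 : sy ε (C.lin θ P Q) * μ = 1) (h2 : μ * sy ε (C.lin θ P Q) = 1)
    (h : C.EF ε 1 θ P Q 1) :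
    sy ε θ * rs C.v C.vinj μ = 1 ∧ rs C.v C.vinj μ * sy ε θ = 1 ∧
      Sup C.pos (dg J C.t * (mp C.v Q)ᴴ * μ) ∧
      Sup C.pos (dg J C.t * (mp C.v Q)ᴴ * μ * mp C.v Q * dg J C.t⁻¹) ∧
      Sup (fun g => ¬ C.pos g) ((mp C.v P)ᴴ * μ) ∧
      Sup (fun g => ¬ C.pos (g * C.t)) ((mp C.v P)ᴴ * μ * mp C.v P) := by
  obtain ⟨-, Y, hY, s1, s2, s3⟩ := h
  rw [PH.sys_one, mp_one, Matrix.one_mul] at hY
  have hY' : Y = fromRows (-(dg J C.t * (mp C.v Q)ᴴ * μ)) ((ε : ℤ) • ((mp C.v P)ᴴ * μ)) := by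
    rw [← Matrix.mul_one Y, ← h1, ← Matrix.mul_assoc, hY, PH.sig, fromRows_mul, Matrix.neg_mul,
      Matrix.smul_mul]
  have e0 : (1 : Matrix (I ⊕ I) (I ⊕ I) (ZG V)).toBlocks₁₁ = 1 := by
    rw [← fromBlocks_one, toBlocks_fromBlocks₁₁]
  have e1 : (1 : Matrix (J ⊕ J) (J ⊕ J) (ZG A)).toCols₁ = fromRows 1 0 := by
    rw [← fromBlocks_one]
    ext (i | i) j <;> rfl
  have e2 : (1 : Matrix (J ⊕ J) (J ⊕ J) (ZG A)).toCols₂ = fromRows 0 1 := by
    rw [← fromBlocks_one]
    ext (i | i) j <;> rfl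
  rw [e0, Matrix.one_mul] at s2 s3
  rw [e1, mp_fromRows, mp_zero] at s2
  rw [e2, mp_fromRows, mp_zero] at s3
  subst hY'
  have a1 : Sup C.pos (dg J C.t * (mp C.v Q)ᴴ * μ) := OSp_unneg s1.1
  have a3 : Sup (fun g => ¬ C.pos g) ((mp C.v P)ᴴ * μ) := OSp_unsmul s1.2
  have a2 : Sup C.pos (dg J C.t * (mp C.v Q)ᴴ * μ * mp C.v Q * dg J C.t⁻¹) := by
    have := s3.1
    rw [fromRows_mul, fromRows_mul] at this
    have e : (fromRows (-(dg J C.t * (mp C.v Q)ᴴ * μ) * mp C.v Q * dg J C.t⁻¹)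
        (((ε : ℤ) • ((mp C.v P)ᴴ * μ)) * mp C.v Q * dg J C.t⁻¹) -
        fromRows (0 : Matrix J J (ZG Γ)) (mp C.va (1 : Matrix J J (ZG A)))).toRows₁ =
        -(dg J C.t * (mp C.v Q)ᴴ * μ) * mp C.v Q * dg J C.t⁻¹ - 0 := rfl
    rw [e, sub_zero, Matrix.neg_mul, Matrix.neg_mul] at this
    exact OSp_unneg this
  have a4 : Sup (fun g => ¬ C.pos (g * C.t)) ((mp C.v P)ᴴ * μ * mp C.v P) := by
    have := s2.2
    rw [fromRows_mul] at this
    have e : (fromRows (-(dg J C.t * (mp C.v Q)ᴴ * μ) * mp C.v P)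
        (((ε : ℤ) • ((mp C.v P)ᴴ * μ)) * mp C.v P) +
        fromRows (mp C.va (1 : Matrix J J (ZG A))) (0 : Matrix J J (ZG Γ))) =
        fromRows (-(dg J C.t * (mp C.v Q)ᴴ * μ) * mp C.v P + mp C.va (1 : Matrix J J (ZG A)))
          (((ε : ℤ) • ((mp C.v P)ᴴ * μ)) * mp C.v P + 0) := by
      ext (i | i) j <;> rfl
    rw [e, fromRows_mul, toRows₂_fromRows, add_zero, Matrix.smul_mul, Matrix.smul_mul] at this
    intro k l g hg
    refine OSp_unsmul this k l (g * C.t) ?_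
    rwa [coeff_mul_dg, mul_inv_cancel_right]
  have a0 : sy ε θ * rs C.v C.vinj μ = 1 := by
    have := congrArg (rs C.v C.vinj) h1
    have z1 : rs C.v C.vinj (dg J C.t * (mp C.v Q)ᴴ * μ) = 0 := a1.rs_zero C.npos_v
    have z2 : rs C.v C.vinj (dg J C.t⁻¹ * ((mp C.v P)ᴴ * μ)) = 0 := by
      refine ((sup_dg _).mul a3 (T := fun g => ¬ C.pos (C.t * g)) ?_).rs_zero
        fun x hx => hx (C.pos_tv x)
      rintro _ b rfl hb
      rwa [mul_inv_cancel_left]
    rw [PH.sy_lin, Matrix.add_mul, Matrix.add_mul, Matrix.smul_mul, rs_add, rs_add, rs_zsmul,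
      rs_mp_mul, rs_one, Matrix.mul_assoc (mp C.v P), Matrix.mul_assoc (mp C.v P), rs_mp_mul, z1,
      Matrix.mul_assoc (mp C.v Q * _), Matrix.mul_assoc (mp C.v Q), rs_mp_mul, z2,
      Matrix.mul_zero, Matrix.mul_zero, smul_zero, add_zero, add_zero] at this
    exact this
  exact ⟨a0, OSp_other a0, a1, a2, a3, a4⟩

theorem OSp_sy_fm {G : Type} [Group G] {S : G → Prop} (hS : ∀ g, S g⁻¹ ↔ S g)
    (B : Matrix J J (ZG G)) : sy ε (fm S B) = fm S (sy ε B) := by
  rw [sy, sy, fm_add, fm_zsmul, fm_ct]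
  congr 3
  exact funext fun g => propext (hS g)

theorem OSp_conj_fm {G : Type} [Group G] {S T : G → Prop} (t : G) {B : Matrix J J (ZG G)}
    (h : Sup T (dg J t * B * dg J t⁻¹)) : Sup T (dg J t * fm S B * dg J t⁻¹) := fun k l g hg => by
  refine h k l g fun e => hg ?_
  rw [coeff_mul_dg, coeff_dg_mul] at e ⊢
  rw [coeff_fm, e, ite_self]

theorem OSp_sub_fm {G : Type} [Group G] {S T : G → Prop} {B : Matrix J J (ZG G)} (h : Sup T B) :
    Sup (fun g => T g ∧ ¬ S g) (B - fm S B) := by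
  have e : B - fm S B = fm (fun g => ¬ S g) B := by
    rw [sub_eq_iff_eq_add', fm_add_not]
  rw [e]
  exact fun k l g hg => ⟨h.fm _ k l g hg, sup_fm _ _ k l g hg⟩

theorem OSp_sy_hyp {R : Type} [Ring R] [StarRing R] :
    sy ε (hypF R J) = fromBlocks 0 1 ((ε : ℤ) • 1) 0 := by
  rw [hypF, sy_blocks, sy_zero]
  simp only [conjTranspose_zero, smul_zero, add_zero, zero_add, conjTranspose_one]

theorem Cut.Rep.split_one (hU : UNilTree Γ C.T ε) (h2 : ∀ g : Γ, g * g = 1 → g = 1)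
    {x : L0 (ZG Γ) ε} (h : C.Rep ε x (1 : Matrix (J ⊕ J) (J ⊕ J) (ZG A))) :
    x ∈ (m0 ε C.v).range := by
  obtain ⟨I, _, _, θ, P, Q, hns, hef, rfl⟩ := h
  obtain ⟨μ, l1, l2⟩ := hns.inv
  obtain ⟨a0, a0', a1, a2, a3, a4⟩ := Cut.vertex_ns l1 l2 hef
  have b4 : mp C.v (Pᴴ * rs C.v C.vinj μ * P) =
      fm (fun g => ∃ h, C.v h = g) ((mp C.v P)ᴴ * μ * mp C.v P) := by
    rw [← mp_rs (hf := C.vinj), rs_mul_mp, ← mp_ct, rs_mp_mul]
  have b2 : mp C.v (Qᴴ * rs C.v C.vinj μ * Q) =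
      fm (fun g => ∃ h, C.v h = g) ((mp C.v Q)ᴴ * μ * mp C.v Q) := by
    rw [← mp_rs (hf := C.vinj), rs_mul_mp, ← mp_ct, rs_mp_mul]
  generalize rs C.v C.vinj μ = m at a0 a0' b2 b4
  have k1 : sy ε (mp C.v θ) * mp C.v m = 1 := by rw [← mp_sy, ← mp_mul, a0, mp_one]
  have k2 : mp C.v m * sy ε (mp C.v θ) = 1 := by rw [← mp_sy, ← mp_mul, a0', mp_one]
  have nθ : NS ε θ := ns_of_left a0'
  set X : Matrix I (J ⊕ J) (ZG Γ) := fromCols (mp C.v P) (mp C.v Q * dg J C.t⁻¹) with hX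
  have hXc : Xᴴ = fromRows (mp C.v P)ᴴ (dg J C.t * (mp C.v Q)ᴴ) := by
    rw [hX, conjTranspose_fromCols_eq_fromRows_conjTranspose, conjTranspose_mul, dg_ct, inv_inv]
  have hlin : mp C.v θ + X * hypF (ZG Γ) J * Xᴴ = C.lin θ P Q := by
    rw [hXc, hX, hypF, fromCols_mul_fromBlocks, fromCols_mul_fromRows, PH.lin]
    simp only [Matrix.mul_zero, add_zero, zero_add, Matrix.mul_one, Matrix.zero_mul,
      Matrix.mul_assoc]
  set X' : Matrix (J ⊕ J) I (ZG Γ) := sy ε (hypF (ZG Γ) J) * Xᴴ with hX'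
  have hX1 : X' = fromRows (dg J C.t * (mp C.v Q)ᴴ) ((ε : ℤ) • (mp C.v P)ᴴ) := by
    rw [hX', hXc, OSp_sy_hyp, fromBlocks_mul_fromRows]
    simp only [Matrix.zero_mul, add_zero, zero_add, Matrix.one_mul, Matrix.smul_mul]
  have hXX : X * X' = sy ε (C.lin θ P Q) - sy ε (mp C.v θ) := by
    rw [← hlin, sy_add, sy_conj, hX', Matrix.mul_assoc, add_sub_cancel_left]
  have hu : IsUnit (1 + X * (X' * mp C.v m)) := by
    rw [← Matrix.mul_assoc, hXX, Matrix.sub_mul, k1, add_sub_cancel]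
    exact IsUnit.mul hns ⟨⟨_, _, k2, k1⟩, rfl⟩
  have hiso := schur k1 k2 (hypF (ZG Γ) J) X hu
  rw [hlin, ← hX'] at hiso
  set ξ : Matrix (J ⊕ J) (J ⊕ J) (ZG Γ) := X' * mp C.v m * mp C.v θ * (X' * mp C.v m)ᴴ with hξ
  have nξ : NS ε (hypF (ZG Γ) J + ξ) := (NS.iso hiso ((nθ.mp C.v).sum ns_hyp)).right
  have hcls := cls_iso hiso
  rw [cls_sum (nθ.mp C.v) ns_hyp, cls_sum hns nξ, (cls_eq_zero ns_hyp).2 (z_hyp J), add_zero,
    ← m0_cls _ nθ] at hcls
  have hM : sy ε (m * θ * mᴴ) = (ε : ℤ) • m := by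
    rw [sy_conj, a0', Matrix.one_mul, inv_ct a0 a0']
  have hξ1 : ξ = X' * mp C.v (m * θ * mᴴ) * X'ᴴ := by
    rw [hξ, mp_mul, mp_mul, mp_ct, conjTranspose_mul]
    simp only [Matrix.mul_assoc]
  generalize m * θ * mᴴ = M at hM hξ1
  have hξ2 : ξ = fromBlocks (dg J C.t * mp C.v (Qᴴ * M * Q) * dg J C.t⁻¹)
      ((ε : ℤ) • (dg J C.t * mp C.v (Qᴴ * M * P))) ((ε : ℤ) • (mp C.v (Pᴴ * M * Q) * dg J C.t⁻¹))
      (mp C.v (Pᴴ * M * P)) := by
    rw [hξ1, hX1, conjTranspose_fromRows_eq_fromCols_conjTranspose, fromRows_mul,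
      fromRows_mul_fromCols]
    simp only [conjTranspose_mul, conjTranspose_conjTranspose, ct_zsmul, dg_ct, mp_mul, mp_ct,
      Matrix.smul_mul, Matrix.mul_smul, eps_eps, Matrix.mul_assoc]
  have hS : ∀ g : Γ, (∃ a, C.va a = g⁻¹) ↔ ∃ a, C.va a = g := fun g =>
    ⟨fun ⟨a, e⟩ => ⟨a⁻¹, by rw [map_inv, e, inv_inv]⟩, fun ⟨a, e⟩ => ⟨a⁻¹, by rw [map_inv, e]⟩⟩
  set D : Matrix (J ⊕ J) (J ⊕ J) (ZG Γ) :=
    fromBlocks (fm (fun g => ∃ a, C.va a = g) (dg J C.t * mp C.v (Qᴴ * M * Q) * dg J C.t⁻¹)) 0 0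
      (fm (fun g => ∃ a, C.va a = g) (mp C.v (Pᴴ * M * P))) with hD
  have hD0 : sy ε D = 0 := by
    have c1 : sy ε (dg J C.t * mp C.v (Qᴴ * M * Q) * dg J C.t⁻¹) =
        (ε : ℤ) • (dg J C.t * mp C.v (Qᴴ * m * Q) * dg J C.t⁻¹) := by
      rw [← dg_ct, sy_conj, ← mp_sy]
      have := sy_conj (ε := ε) Qᴴ M
      rw [conjTranspose_conjTranspose] at this
      rw [this, hM, Matrix.mul_smul, Matrix.smul_mul, mp_zsmul, Matrix.mul_smul, Matrix.smul_mul]
    have c2 : sy ε (mp C.v (Pᴴ * M * P)) = (ε : ℤ) • mp C.v (Pᴴ * m * P) := by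
      rw [← mp_sy]
      have := sy_conj (ε := ε) Pᴴ M
      rw [conjTranspose_conjTranspose] at this
      rw [this, hM, Matrix.mul_smul, Matrix.smul_mul, mp_zsmul]
    have d1 : Sup C.pos (dg J C.t * mp C.v (Qᴴ * m * Q) * dg J C.t⁻¹) := by
      rw [b2]
      refine OSp_conj_fm _ ?_
      simpa only [Matrix.mul_assoc] using a2
    have d2 : Sup (fun g => ¬ C.pos (g * C.t)) (mp C.v (Pᴴ * m * P)) := by
      rw [b4]
      exact a4.fm _
    rw [hD, sy_blocks, OSp_sy_fm hS, OSp_sy_fm hS, c1, c2, (d1.zsmul _).fm_zero,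
      (d2.zsmul _).fm_zero]
    · simp
    · rintro _ hg ⟨a, rfl⟩
      exact hg (C.pos_vat a)
    · rintro _ hg ⟨a, rfl⟩
      exact C.npos_v _ hg
  have hξD : ξ - D = fromBlocks (dg J C.t * mp C.v (Qᴴ * M * Q) * dg J C.t⁻¹ -
        fm (fun g => ∃ a, C.va a = g) (dg J C.t * mp C.v (Qᴴ * M * Q) * dg J C.t⁻¹))
      ((ε : ℤ) • (dg J C.t * mp C.v (Qᴴ * M * P))) ((ε : ℤ) • (mp C.v (Pᴴ * M * Q) * dg J C.t⁻¹))
      (mp C.v (Pᴴ * M * P) - fm (fun g => ∃ a, C.va a = g) (mp C.v (Pᴴ * M * P))) := by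
    rw [hξ2, hD, sub_eq_add_neg, fromBlocks_neg, fromBlocks_add]
    simp only [← sub_eq_add_neg, sub_zero]
  have hμ : -(X' * μ * X) = fromBlocks (-(dg J C.t * (mp C.v Q)ᴴ * μ * mp C.v P))
      (-(dg J C.t * (mp C.v Q)ᴴ * μ * mp C.v Q * dg J C.t⁻¹))
      (-((ε : ℤ) • ((mp C.v P)ᴴ * μ * mp C.v P)))
      (-((ε : ℤ) • ((mp C.v P)ᴴ * μ * mp C.v Q * dg J C.t⁻¹))) := by
    rw [hX1, hX, fromRows_mul, fromRows_mul_fromCols, fromBlocks_neg]
    simp only [Matrix.smul_mul, Matrix.mul_assoc]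
  have hZ : Z ε (hypF (ZG Γ) J + (ξ - D)) := by
    refine C.z_rest hU _ (-(X' * μ * X)) ?_ ?_ ?_ ?_ ?_ ?_ ?_
    · rw [hξD, toBlocks_fromBlocks₁₁]
      have : Sup (fun g => ∃ h, C.t * C.v h * C.t⁻¹ = g)
          (dg J C.t * mp C.v (Qᴴ * M * Q) * dg J C.t⁻¹) := by
        refine ((sup_dg _).mul (sup_mp _ _) (T := fun g => ∃ h, C.t * C.v h = g) ?_).mul
          (sup_dg _) ?_
        · rintro _ _ rfl ⟨h, rfl⟩
          exact ⟨h, rfl⟩
        · rintro _ _ ⟨h, rfl⟩ rfl
          exact ⟨h, rfl⟩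
      refine (OSp_sub_fm this).mono ?_
      rintro _ ⟨⟨h, rfl⟩, hg⟩
      refine ⟨h, ?_, rfl⟩
      rintro ⟨a, rfl⟩
      exact hg ⟨a, by rw [← C.va_t, mul_inv_cancel_right]⟩
    · rw [hξD, toBlocks_fromBlocks₁₂]
      refine ((sup_dg _).mul (sup_mp _ _) ?_).zsmul _
      rintro _ _ rfl ⟨h, rfl⟩
      exact ⟨h, rfl⟩
    · rw [hξD, toBlocks_fromBlocks₂₁]
      refine ((sup_mp _ _).mul (sup_dg _) ?_).zsmul _
      rintro _ _ ⟨h, rfl⟩ rfl
      exact ⟨h, rfl⟩
    · rw [hξD, toBlocks_fromBlocks₂₂]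
      refine (OSp_sub_fm (sup_mp _ _)).mono ?_
      rintro _ ⟨⟨h, rfl⟩, hg⟩
      refine ⟨h, ?_, rfl⟩
      rintro ⟨a, rfl⟩
      exact hg ⟨a, rfl⟩
    · rw [hμ, ← fromRows_fromCols_eq_fromBlocks, toRows₁_fromRows, sup_fromCols]
      refine ⟨(a1.mul (sup_mp _ _) ?_).neg, a2.neg⟩
      rintro a _ ha ⟨h, rfl⟩
      exact (C.right a h).2 ha
    · rw [hμ, ← fromRows_fromCols_eq_fromBlocks, toRows₂_fromRows, sup_fromCols]
      refine ⟨(a4.zsmul _).neg, (((a3.mul (sup_mp _ _) (T := fun g => ¬ C.pos g) ?_).mul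
        (sup_dg _) ?_).zsmul _).neg⟩
      · rintro a _ ha ⟨h, rfl⟩ e
        exact ha ((C.right a h).1 e)
      · rintro a _ ha rfl
        rwa [inv_mul_cancel_right]
    · have c1 : sy ε (ξ - D) = X' * mp C.v m * X * sy ε (hypF (ZG Γ) J) := by
        rw [sub_eq_add_neg, sy_add, sy_neg, hD0, neg_zero, add_zero, hξ1, sy_conj, ← mp_sy, hM,
          mp_zsmul]
        conv_lhs => rw [hX', conjTranspose_mul, conjTranspose_conjTranspose, sy_ct, ← hX']
        simp only [Matrix.mul_smul, Matrix.smul_mul, eps_eps, Matrix.mul_assoc]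
      have c2 : sy ε (hypF (ZG Γ) J) * fromBlocks 0 ((ε : ℤ) • (1 : Matrix J J (ZG Γ))) 1 0 = 1 := by
        rw [OSp_sy_hyp, fromBlocks_multiply]
        simp only [Matrix.mul_zero, Matrix.zero_mul, add_zero, zero_add, Matrix.mul_one,
          Matrix.smul_mul, Matrix.one_mul, eps_eps, fromBlocks_one]
      have c3 : X' * mp C.v m * X * (X' * μ * X) = X' * mp C.v m * X - X' * μ * X := by
        calc X' * mp C.v m * X * (X' * μ * X) = X' * (mp C.v m * ((X * X') * μ)) * X := by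
              simp only [Matrix.mul_assoc]
          _ = _ := by
              rw [hXX, Matrix.sub_mul, l1, Matrix.mul_sub, Matrix.mul_one, ← Matrix.mul_assoc _ _ μ,
                k2, Matrix.one_mul, Matrix.mul_sub, Matrix.sub_mul]
      rw [c1, Matrix.mul_assoc _ (sy ε (hypF (ZG Γ) J)), c2, Matrix.mul_one, add_mul, mul_add,
        mul_add, one_mul, one_mul, mul_one, mul_neg, c3]
      abel
  have hh := hess h2 nξ hD0 C.v
  rw [add_sub_assoc, (cls_eq_zero hZ.ns).2 hZ, sub_zero] at hh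
  rw [eq_sub_of_add_eq hcls.symm]
  exact sub_mem ⟨_, rfl⟩ hh

end Pool.Agent.Work.MP_9d1ffa_al
end

-- merged part: Pool.Agent.Work.MP_9d1ffa_al.OEd
section
/-! Edge classes. -/

namespace Pool.Agent.Work.MP_9d1ffa_al

open Matrix MonoidAlgebra

set_option linter.unusedSectionVars false
set_option linter.unusedVariables false

variable {Γ V A : Type} [Group Γ] [Group V] [Group A] {ε : ℤˣ} {C : Cut Γ V A}
  {x y : L0 (ZG Γ) ε} {d d' : L1 (ZG A) (-ε)}

/-- `d` is an edge class of `x` -/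
def Cut.Ed (C : Cut Γ V A) (ε : ℤˣ) (x : L0 (ZG Γ) ε) (d : L1 (ZG A) (-ε)) : Prop :=
  ∃ (J : Type) (_ : Fintype J) (_ : DecidableEq J) (U : Matrix (J ⊕ J) (J ⊕ J) (ZG A)),
    C.Rep ε x U ∧ ucl (-ε) U = d

theorem Cut.Ed.add (h : C.Ed ε x d) (h' : C.Ed ε y d') : C.Ed ε (x + y) (d + d') := by
  obtain ⟨J, _, _, U, h1, rfl⟩ := h
  obtain ⟨J', _, _, U', h2, rfl⟩ := h'
  exact ⟨J ⊕ J', inferInstance, inferInstance, dsum U U', h1.add h2, ucl_dsum h1.uni h2.uni⟩

theorem Cut.Ed.neg (h : C.Ed ε x d) : C.Ed ε (-x) (-d) := by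
  obtain ⟨J, _, _, U, h1, rfl⟩ := h
  exact ⟨J, inferInstance, inferInstance, _, h1.neg,
    (uni_neg h1.uni.fA_neg).2.trans (ucl_fA_neg h1.uni)⟩

theorem Cut.Ed.sub (h : C.Ed ε x d) (h' : C.Ed ε y d') : C.Ed ε (x - y) (d - d') := by
  rw [sub_eq_add_neg, sub_eq_add_neg]
  exact h.add h'.neg

/-- linearisation of a system -/
theorem Cut.exists_lin (C : Cut Γ V A) (hA : SFI (ZG A)) {I : Type} [Fintype I] [DecidableEq I]
    {W : Matrix (I ⊕ I) (I ⊕ I) (ZG V)} (hW : Uni (-ε) W) {ψ : Matrix I I (ZG Γ)}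
    (hs : IsUnit (sysM ε (mp C.v W) ψ)) :
    ∃ (N : Type) (_ : Fintype N) (_ : DecidableEq N) (κ : Matrix N N (ZG Γ)) (J : Type)
      (_ : Fintype J) (_ : DecidableEq J) (θ : Matrix (I ⊕ N) (I ⊕ N) (ZG V))
      (P Q : Matrix (I ⊕ N) J (ZG V)) (U : Matrix (J ⊕ J) (J ⊕ J) (ZG A)),
      NS ε κ ∧ Z ε κ ∧ Iso ε (fromBlocks ψ 0 0 κ) (C.lin θ P Q) ∧
      IsUnit (C.sys ε (dsum W (1 : Matrix (N ⊕ N) (N ⊕ N) (ZG V))) θ P Q) ∧
      C.EF ε (dsum W (1 : Matrix (N ⊕ N) (N ⊕ N) (ZG V))) θ P Q U := by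
  obtain ⟨N, _, _, κ, X, J, _, _, θ, P, Q, h1, h2, h3⟩ := PH.linOK_all (ε := ε) C.gen ψ
  have hs' : IsUnit (C.sys ε (dsum W (1 : Matrix (N ⊕ N) (N ⊕ N) (ZG V))) θ P Q) := by
    rw [PH.sys, mp_dsum, mp_one, ← sysM_eqv _ h3]
    exact sys_ext hs h1 X
  obtain ⟨κ', _, _, U, hU⟩ := C.exists_ef hA (hW.dsum uni_one) hs'
  refine ⟨N, inferInstance, inferInstance, κ, J ⊕ κ', inferInstance, inferInstance, θ,
    fromCols P 0, fromCols Q 0, U, h1, h2, ?_, ?_, hU⟩
  · rw [PH.lin_pad]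
    exact (iso_ext ψ κ X).trans (Iso.of_eqv h3)
  · rwa [PH.sys, PH.lin_pad]

theorem Cut.exists_ed (C : Cut Γ V A) (hA : SFI (ZG A)) (x : L0 (ZG Γ) ε) : ∃ d, C.Ed ε x d := by
  obtain ⟨n, ψ, hψ, rfl⟩ := cls_surj x
  obtain ⟨N, _, _, κ, J, _, _, θ, P, Q, U, h1, h2, h3, h4, h5⟩ :=
    C.exists_lin (ε := ε) hA (W := 1) uni_one (ψ := ψ) (by rw [mp_one, sysM_one]; exact hψ)
  rw [dsum_one] at h5
  refine ⟨_, J, inferInstance, inferInstance, U, ⟨_, inferInstance, inferInstance, θ, P, Q,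
    NS.iso h3 (hψ.sum h1), h5, ?_⟩, rfl⟩
  rw [← cls_iso h3, cls_sum hψ h1, (cls_eq_zero h1).2 h2, add_zero]

theorem eps_eq_zero {M : Type} [AddCommGroup M] {a : M} (h : (ε : ℤ) • a = 0) : a = 0 := by
  rw [← eps_eps (ε := ε) a, h, smul_zero]

theorem Cut.Ed.vr (h : C.Ed ε x d) : m1 (-ε) C.i d = m1 (-ε) C.j d := by
  obtain ⟨J, _, _, U, ⟨I, _, _, θ, P, Q, h1, h2, h3⟩, rfl⟩ := h
  have := Cut.vr uni_one (by rw [PH.sys_one]; exact h1) h2
  rw [ucl_one] at this
  exact sub_eq_zero.1 (eps_eq_zero this.symm)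

theorem Cut.Ed.split (hU : UNilTree Γ C.T ε) (h2 : ∀ g : Γ, g * g = 1 → g = 1)
    (h : C.Ed ε x 0) : x ∈ (m0 ε C.v).range := by
  obtain ⟨J, _, _, U, h1, h0⟩ := h
  obtain ⟨J', _, _, k⟩ := h1.norm h0
  exact k.split_one hU h2

/-- a class that dies in the whole group is a difference of the two images of an edge class -/
theorem Cut.ker_v (C : Cut Γ V A) (hA : SFI (ZG A)) {η : ℤˣ} {c : L1 (ZG V) η}
    (h : m1 η C.v c = 0) : ∃ d : L1 (ZG A) η, c = m1 η C.i d - m1 η C.j d := by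
  obtain ⟨ε, rfl⟩ : ∃ ε, η = -ε := ⟨-η, (neg_neg η).symm⟩
  obtain ⟨n, W, hW, rfl⟩ := ucl_surj c
  rw [m1_ucl _ hW] at h
  obtain ⟨M, _, _, ψ, hs⟩ := exists_sys (hW.mp C.v) h
  have hW' : Uni (-ε) (dsum W (1 : Matrix (M ⊕ M) (M ⊕ M) (ZG V))) := hW.dsum uni_one
  obtain ⟨N, _, _, κ, J, _, _, θ, P, Q, U, h1, h2, h3, h4, h5⟩ :=
    C.exists_lin (ε := ε) hA hW' (ψ := ψ) (by rwa [mp_dsum, mp_one])
  have := Cut.vr (hW'.dsum uni_one) h4 h5
  rw [ucl_dsum hW' uni_one, ucl_dsum hW uni_one, ucl_one, ucl_one, add_zero, add_zero] at this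
  exact ⟨(ε : ℤ) • ucl (-ε) U, by rw [this, map_zsmul, map_zsmul, smul_sub]⟩

variable {Γ' V' A' : Type} [Group Γ'] [Group V'] [Group A']

/-- realisation of an edge class by a form defined over another group -/
theorem Cut.realise (C : Cut Γ V A) {D : PH Γ' V' A'} (f : PHom D C.toPH) {I : Type} [Fintype I]
    [DecidableEq I] {W : Matrix (I ⊕ I) (I ⊕ I) (ZG V')} (hW : Uni (-ε) W) (h1 : mp f.fv W = 1)
    (d : L1 (ZG A') (-ε)) (h : ucl (-ε) W = (ε : ℤ) • (m1 (-ε) D.i d - m1 (-ε) D.j d)) :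
    ∃ (M : Type) (_ : Fintype M) (_ : DecidableEq M) (ψ : Matrix (I ⊕ M) (I ⊕ M) (ZG Γ')),
      IsUnit (sysM ε (mp D.v (dsum W (1 : Matrix (M ⊕ M) (M ⊕ M) (ZG V')))) ψ) ∧
      NS ε (mp f.f ψ) ∧ C.Ed ε (cls ε (mp f.f ψ)) (m1 (-ε) f.fa d) := by
  obtain ⟨n, U, hU, rfl⟩ := ucl_surj d
  obtain ⟨M, _, _, θ, P, Q, k1, k2⟩ := D.rl hW hU h
  have e : mp f.fv (dsum W (1 : Matrix (M ⊕ M) (M ⊕ M) (ZG V'))) = 1 := by
    rw [mp_dsum, h1, mp_one, dsum_one]
  have k3 := IsUnit.mp f.f k1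
  rw [f.sys, e, PH.sys_one] at k3
  have k4 := Loc.ef C (hU.mp f.fa) (k2.map f)
  rw [e] at k4
  refine ⟨M, inferInstance, inferInstance, D.lin θ P Q, k1, by rwa [f.lin], Fin n, inferInstance,
    inferInstance, mp f.fa U, ⟨_, inferInstance, inferInstance, _, _, _, k3, k4, by rw [f.lin]⟩,
    (m1_ucl _ hU).symm⟩

/-- realisation by a closed form -/
theorem Cut.realise₀ (C : Cut Γ V A) {D : PH Γ' V' A'} (f : PHom D C.toPH)
    (d : L1 (ZG A') (-ε)) (h : m1 (-ε) D.i d = m1 (-ε) D.j d) :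
    ∃ x : L0 (ZG Γ') ε, C.Ed ε (m0 ε f.f x) (m1 (-ε) f.fa d) := by
  obtain ⟨M, _, _, ψ, k1, k2, k3⟩ := C.realise (ε := ε) f (I := Empty) (W := 1) uni_one (mp_one _) d
    (by rw [ucl_one, h, sub_self, smul_zero])
  rw [dsum_one, mp_one, sysM_one] at k1
  exact ⟨cls ε ψ, by rwa [m0_cls _ k1]⟩

theorem Cut.Ed.map {C' : Cut Γ' V' A'} (f : PHom C.toPH C'.toPH)
    (hp : ∀ g, C'.pos (f.f g) ↔ C.pos g) (h : C.Ed ε x d) :
    C'.Ed ε (m0 ε f.f x) (m1 (-ε) f.fa d) := by
  obtain ⟨J, _, _, U, ⟨I, _, _, θ, P, Q, h1, h2, rfl⟩, rfl⟩ := h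
  have k := h2.map f hp
  rw [mp_one] at k
  refine ⟨J, inferInstance, inferInstance, mp f.fa U, ⟨I, inferInstance, inferInstance, _, _, _,
    ?_, k, ?_⟩, (m1_ucl _ h2.1).symm⟩
  · rw [← f.lin]
    exact h1.mp _
  · rw [m0_cls _ h1, f.lin]

theorem line_ed_unique (hV : SFI (ZG V)) {x : L0 (ZG (V × Multiplicative ℤ)) ε}
    {d d' : L1 (ZG V) (-ε)} (h : (Cut.line V).Ed ε x d) (h' : (Cut.line V).Ed ε x d') :
    d = d' := by
  obtain ⟨J, _, _, U, h1, h2⟩ := h.sub h'
  rw [sub_self] at h1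
  exact sub_eq_zero.1 (h2.symm.trans (h1.line_zero hV))

end Pool.Agent.Work.MP_9d1ffa_al
end

-- merged part: Pool.Agent.Work.MP_9d1ffa_al.OAB
section
/-! Reversible segments in the tree of an HNN extension. -/

namespace Pool.Agent.Work.MP_9d1ffa_al

open Matrix MonoidAlgebra

set_option linter.unusedSectionVars false
set_option linter.unusedVariables false

open MulAction Pool.Agent.Work.MP_904812_al

variable {Γ V A : Type} [Group Γ] [Group V] [Group A]

/-- a torsion free group with a cyclic subgroup of index two is cyclic -/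
theorem cyc_of_index_two {S : Type} [Group S] (hS : TF S) (D : Subgroup S)
    (χ : D →* Multiplicative ℤ) (hχ : Function.Injective χ)
    (hD : ∀ x y, x ∉ D → y ∉ D → x * y ∈ D) :
    ∃ χ' : S →* Multiplicative ℤ, Function.Injective χ' := by
  have cD : ∀ x ∈ D, ∀ y ∈ D, x * y = y * x := fun x hx y hy =>
    congrArg Subtype.val (hχ (a₁ := ⟨x, hx⟩ * ⟨y, hy⟩) (a₂ := ⟨y, hy⟩ * ⟨x, hx⟩)
      (by rw [map_mul, map_mul, mul_comm]))
  have sq : ∀ s : S, s * s ∈ D := fun s => by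
    by_cases h : s ∈ D
    · exact D.mul_mem h h
    · exact hD s s h h
  have nm : ∀ g : S, ∀ d ∈ D, g * d * g⁻¹ ∈ D := fun g d hd => by
    by_cases h : g ∈ D
    · exact D.mul_mem (D.mul_mem h hd) (D.inv_mem h)
    · exact hD _ _ (fun e => h ((D.mul_mem_cancel_right hd).1 e)) fun e => h (D.inv_mem_iff.1 e)
  have : IsCyclic D := isCyclic_of_injective χ hχ
  obtain ⟨d₀, hd₀⟩ := IsCyclic.exists_generator (α := D)
  have gen : ∀ d ∈ D, ∃ k : ℤ, d = (d₀ : S) ^ k := fun d hd => by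
    obtain ⟨k, hk⟩ := Subgroup.mem_zpowers_iff.1 (hd₀ ⟨d, hd⟩)
    exact ⟨k, (congrArg Subtype.val hk).symm⟩
  have c0 : ∀ g : S, g * d₀ = d₀ * g := fun g => by
    by_cases h : g ∈ D
    · exact cD _ h _ d₀.2
    by_cases h0 : (d₀ : S) = 1
    · simp [h0]
    obtain ⟨k, hk⟩ := gen _ (nm g _ d₀.2)
    obtain ⟨l, hl⟩ := gen _ (nm g⁻¹ _ d₀.2)
    have e : (d₀ : S) ^ (k * l) = (d₀ : S) ^ (1 : ℤ) := by
      rw [_root_.zpow_mul, ← hk, conj_zpow, ← hl]
      group
    have inj := injective_zpow_iff_not_isOfFinOrder.2 fun h' => h0 (hS _ h')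
    have kl : k * l = 1 := inj e
    rcases Int.eq_one_or_neg_one_of_mul_eq_one kl with rfl | rfl
    · rw [zpow_one] at hk
      calc g * d₀ = g * d₀ * g⁻¹ * g := by group
        _ = d₀ * g := by rw [hk]
    · exfalso
      obtain ⟨m, hm⟩ := gen _ (sq g)
      have e1 : g * (g * g) * g⁻¹ = (g * g)⁻¹ := by
        rw [hm, ← conj_zpow, hk]
        group
      have e2 : g ^ 4 = 1 := by
        calc g ^ 4 = g * (g * g) * g⁻¹ * (g * g) := by simp [pow_succ, mul_assoc]
          _ = 1 := by rw [e1]; group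
      exact h ((hS g (isOfFinOrder_iff_pow_eq_one.2 ⟨4, by norm_num, e2⟩)) ▸ D.one_mem)
  have c1 : ∀ g : S, ∀ d ∈ D, g * d = d * g := fun g d hd => by
    obtain ⟨k, rfl⟩ := gen d hd
    exact ((show Commute g d₀ from c0 g).zpow_right k).eq
  have c2 : ∀ x y : S, x * y = y * x := fun x y => by
    by_cases h : y ∈ D
    · exact c1 x y h
    by_cases h' : x ∈ D
    · exact (c1 y x h').symm
    have := c1 x _ (hD x y h' h)
    rw [mul_assoc] at this
    exact mul_left_cancel this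
  refine ⟨MonoidHom.mk' (fun s => χ ⟨s * s, sq s⟩) fun x y => ?_, ?_⟩
  · rw [← map_mul]
    congr 1
    refine Subtype.ext ?_
    show x * y * (x * y) = x * x * (y * y)
    rw [mul_assoc, ← mul_assoc y, c2 y x]
    group
  · rw [injective_iff_map_eq_one]
    intro s hs
    have : (⟨s * s, sq s⟩ : D) = 1 := (injective_iff_map_eq_one χ).1 hχ _ hs
    have e : s ^ 2 = 1 := by
      rw [pow_two]
      exact congrArg Subtype.val this
    exact hS s (isOfFinOrder_iff_pow_eq_one.2 ⟨2, by norm_num, e⟩)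

theorem Cut.OAB_local (C : Cut Γ V A) [IsFreeGroup A] (m : A →* V) (hm : Function.Injective m)
    (hc : CM m.range) (s : Γ) (edge : ∀ h, (C.v h * s) • C.o = s • C.o ↔ h ∈ m.range)
    (D : Subgroup Γ) (u : Γ) (h : V) (hne : (u * C.v h * s) • C.o ≠ (u * s) • C.o)
    (f1 : ∀ δ ∈ D, δ • u • C.o = u • C.o) (f2 : ∀ δ ∈ D, δ • (u * s) • C.o = (u * s) • C.o)
    (f3 : ∀ δ ∈ D, δ • (u * C.v h * s) • C.o = (u * C.v h * s) • C.o) :
    ∃ χ : D →* Multiplicative ℤ, Function.Injective χ := by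
  have hh : h ∉ m.range := fun e => hne (by
    rw [mul_assoc, mul_smul, (edge h).2 e, mul_smul])
  let f : A →* Γ := (MulAut.conj u).toMonoidHom.comp (C.v.comp m)
  have fa : ∀ a, f a = u * C.v (m a) * u⁻¹ := fun a => rfl
  have finj : Function.Injective f := (MulAut.conj u).injective.comp (C.vinj.comp hm)
  have key : ∀ δ ∈ D, ∃ a, f a = δ ∧ h⁻¹ * m a * h ∈ m.range := fun δ hδ => by
    obtain ⟨δ', e⟩ := (C.stab_iff (u⁻¹ * δ * u)).1 (by
      rw [mul_smul, mul_smul, f1 δ hδ, inv_smul_smul])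
    obtain ⟨a, rfl⟩ := (edge δ').1 (by
      rw [e, mul_assoc, mul_assoc, mul_smul, mul_smul, f2 δ hδ, mul_smul, inv_smul_smul])
    refine ⟨a, by rw [fa, e]; group, (edge _).1 ?_⟩
    have e' : C.v (h⁻¹ * m a * h) * s = (u * C.v h)⁻¹ * (δ * (u * C.v h * s)) := by
      rw [map_mul, map_mul, e, map_inv]
      group
    rw [e', mul_smul, mul_smul δ, f3 δ hδ, mul_smul, inv_smul_smul]
  obtain ⟨χ, hχ⟩ := cyc_of_comm (D.comap f) fun x hx y hy => by
    obtain ⟨a, ha, ha'⟩ := key _ hx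
    obtain ⟨b, hb, hb'⟩ := key _ hy
    obtain rfl := finj ha
    obtain rfl := finj hb
    apply hm
    rw [map_mul, map_mul]
    exact hc h hh _ ⟨a, rfl⟩ _ ⟨b, rfl⟩ ha' hb'
  have hD : (D.comap f).map f = D :=
    Subgroup.map_comap_eq_self fun δ hδ => (key δ hδ).imp fun a ha => ha.1
  let e : D.comap f ≃* D :=
    (Subgroup.equivMapOfInjective _ f finj).trans (MulEquiv.subgroupCongr hD)
  exact ⟨χ.comp e.symm.toMonoidHom, hχ.comp e.symm.injective⟩

/-- the pointwise stabiliser of a reversible segment is cyclic -/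
theorem Cut.stab_cyc (C : Cut Γ V A) [IsFreeGroup A] (hi : CM C.i.range) (hj : CM C.j.range)
    {a b : Γ ⧸ C.v.range} (hab : a ≠ b) {g : Γ} (h1 : g • a = b) (h2 : g • b = a) :
    ∃ χ : (stabilizer Γ a ⊓ stabilizer Γ b : Subgroup Γ) →* Multiplicative ℤ,
      Function.Injective χ := by
  have htr := tr_of_isTree C.isTree
  set d : Γ ⧸ C.v.range → Γ ⧸ C.v.range → ℤ := fun a b => (C.T.dist a b : ℤ) with hd
  have iso : ∀ (g : Γ) x y, d (g • x) (g • y) = d x y := fun g x y => by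
    simp only [hd]
    rw [dist_smul C.isTree C.act]
  have adj : ∀ x y, d x y = 1 → C.T.Adj x y := fun x y e =>
    SimpleGraph.dist_eq_one_iff_adj.1 (by simp only [hd] at e; exact_mod_cast e)
  have flip : ∀ p, Bt d a p b → Bt d a (g • p) b ∧ d a (g • p) = d a b - d a p := fun p hp => by
    have e1 : d a (g • p) = d b p := by rw [← iso g b p, h2]
    have e2 : d (g • p) b = d p a := by rw [← iso g p a, h1]
    have := htr.symm b p
    have := htr.symm p a
    simp only [Bt] at *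
    omega
  have hpos := htr.pos hab
  have fix : ∀ δ ∈ (stabilizer Γ a ⊓ stabilizer Γ b : Subgroup Γ), ∀ p, Bt d a p b →
      δ • p = p := fun δ hδ p hp => geo_fix htr iso hδ.1 hδ.2 hp
  rcases Int.even_or_odd' (d a b) with ⟨m, hm | hm⟩
  · obtain ⟨c, hc, hc'⟩ := htr.ex_bt a b (t := m) (by omega) (by omega)
    obtain ⟨x, hx, hx'⟩ := htr.ex_bt a b (t := m - 1) (by omega) (by omega)
    have gc : g • c = c := htr.bt_uniq (flip c hc).1 hc (by rw [(flip c hc).2]; omega)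
    have hxy : g • x ≠ x := fun e => by
      have := (flip x hx).2
      rw [e] at this
      omega
    have hcx : C.T.Adj c x := by
      apply adj
      have := (htr.bt_of_le hx hc (by omega)).1
      have := htr.symm c x
      simp only [Bt] at *
      omega
    obtain ⟨γ, rfl⟩ := C.exists_o c
    have h3 := C.act γ⁻¹ _ _ hcx
    rw [inv_smul_smul] at h3
    obtain ⟨h₀, e₀⟩ := (C.stab_iff (γ⁻¹ * g * γ)).1 (by
      rw [mul_smul, mul_smul, gc, inv_smul_smul])
    have main : ∀ (m : A →* V) (hm : Function.Injective m) (hc : CM m.range) (s : Γ)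
        (edge : ∀ h, (C.v h * s) • C.o = s • C.o ↔ h ∈ m.range) (k : V),
        γ⁻¹ • x = (C.v k * s) • C.o →
        ∃ χ : (stabilizer Γ a ⊓ stabilizer Γ b : Subgroup Γ) →* Multiplicative ℤ,
          Function.Injective χ := fun m' hm' hcm s edge k ek => by
      have ex : (γ * C.v k * s) • C.o = x := by
        rw [mul_assoc, mul_smul, ← ek, smul_inv_smul]
      have ey : (γ * C.v k * C.v (k⁻¹ * h₀ * k) * s) • C.o = g • x := by
        rw [← ex, ← mul_smul, map_mul, map_mul, map_inv, e₀]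
        congr 1
        group
      refine C.OAB_local m' hm' hcm s edge _ (γ * C.v k) (k⁻¹ * h₀ * k) (by rwa [ex, ey])
        (fun δ hδ => ?_) (fun δ hδ => ?_) fun δ hδ => ?_
      · rw [mul_smul, (C.stab_iff _).2 ⟨k, rfl⟩]
        exact fix δ hδ _ hc
      · rw [ex]
        exact fix δ hδ _ hx
      · rw [ey]
        exact fix δ hδ _ (flip x hx).1
    obtain ⟨k, ek | ek⟩ := C.nbr h3
    · exact main C.i C.iinj hi _ C.edge_iff k ek
    · exact main C.j C.jinj hj _ C.edge_iff' k ek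
  · exfalso
    obtain ⟨p, hp, hp'⟩ := htr.ex_bt a b (t := m) (by omega) (by omega)
    obtain ⟨hq, hq'⟩ := flip p hp
    obtain ⟨hr, hr'⟩ := flip _ hq
    refine C.noinv g (x := p) (y := g • p) (adj _ _ ?_) rfl (htr.bt_uniq hr hp (by omega))
    have := (htr.bt_of_le hp hq (by omega)).1
    simp only [Bt] at *
    omega

theorem OAB_emb {K : Type} [Group K] (hK : FA K) :
    ∃ (N : ℕ) (j : Multiplicative ℤ × K →* Multiplicative (Fin N → ℤ)), Function.Injective j := by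
  obtain ⟨n, ⟨e⟩⟩ := hK
  refine ⟨n + 1, MonoidHom.mk' (fun x => Multiplicative.ofAdd
    (Fin.cons x.1.toAdd (e x.2).toAdd)) fun x y => ?_, ?_⟩
  · rw [← ofAdd_add]
    congr 1
    funext i
    refine Fin.cases ?_ (fun i => ?_) i <;> simp
  · intro x y hxy
    have h := Fin.cons_injective2 (α := fun _ : Fin (n + 1) => ℤ)
      (Multiplicative.ofAdd.injective hxy)
    exact Prod.ext (Multiplicative.toAdd.injective h.1)
      (e.injective (Multiplicative.toAdd.injective h.2))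

open scoped Pointwise in
theorem Cut.unil_prod (C : Cut Γ V A) [IsFreeGroup A] (hΓ : TF Γ) (hi : CM C.i.range)
    (hj : CM C.j.range) {K : Type} [Group K] (hK : FA K) (ε : ℤˣ) :
    UNilTree (Γ × K) (C.prod K).T ε := by
  refine unilTree_ab (C.prod K).isTree (C.prod K).act fun a b hab ⟨g, g1, g2⟩ => ?_
  have hq : ∀ x y : Γ × K, ((x : (Γ × K) ⧸ (C.prod K).v.range) = (y : Γ × K)) ↔
      ((x.1 : Γ ⧸ C.v.range) = (y.1 : Γ)) := fun x y => by
    rw [QuotientGroup.eq, QuotientGroup.eq]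
    constructor
    · rintro ⟨h, e⟩
      exact ⟨h.1, congrArg Prod.fst e⟩
    · rintro ⟨h, e⟩
      exact ⟨(h, (x⁻¹ * y).2), Prod.ext e rfl⟩
  obtain ⟨a, rfl⟩ := QuotientGroup.mk_surjective a
  obtain ⟨b, rfl⟩ := QuotientGroup.mk_surjective b
  have hs : ∀ g x y : Γ × K, (g • (x : (Γ × K) ⧸ (C.prod K).v.range) = (y : Γ × K)) ↔
      (g.1 • (x.1 : Γ ⧸ C.v.range) = (y.1 : Γ)) := fun g x y => hq (g * x) y
  have hab' : (a.1 : Γ ⧸ C.v.range) ≠ (b.1 : Γ) := fun e => hab ((hq a b).2 e)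
  have hcy := C.stab_cyc hi hj hab' ((hs g a b).1 g1) ((hs g b a).1 g2)
  set S₀ := stabilizer Γ ({(a.1 : Γ ⧸ C.v.range), (b.1 : Γ ⧸ C.v.range)} : Set _) with hS₀
  set D := (stabilizer Γ (a.1 : Γ ⧸ C.v.range) ⊓ stabilizer Γ (b.1 : Γ ⧸ C.v.range) :
    Subgroup Γ) with hD
  obtain ⟨χ, hχ⟩ := hcy
  have mS : ∀ x, x ∈ S₀ ↔ (x • (a.1 : Γ ⧸ C.v.range) = (a.1 : Γ) ∧
      x • (b.1 : Γ ⧸ C.v.range) = (b.1 : Γ)) ∨ (x • (a.1 : Γ ⧸ C.v.range) = (b.1 : Γ) ∧
      x • (b.1 : Γ ⧸ C.v.range) = (a.1 : Γ)) := fun x => by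
    rw [hS₀, mem_stab_pair hab']
    simp only [Prod.smul_mk, Prod.mk.injEq]
  have hle : D ≤ S₀ := fun x hx => (mS x).2 (Or.inl hx)
  obtain ⟨χ', hχ'⟩ := cyc_of_index_two (S := S₀)
    (fun x hx => Subtype.ext (hΓ _ (S₀.subtype.isOfFinOrder hx))) (D.subgroupOf S₀)
    (χ.comp (Subgroup.subgroupOfEquivOfLe hle).toMonoidHom)
    (hχ.comp (Subgroup.subgroupOfEquivOfLe hle).injective) fun x y hx hy => by
      have hx' := ((mS x).1 x.2).resolve_left hx
      have hy' := ((mS y).1 y.2).resolve_left hy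
      refine ⟨?_, ?_⟩
      · show ((x : Γ) * y) • _ = _
        rw [mul_smul, hy'.1, hx'.2]
      · show ((x : Γ) * y) • _ = _
        rw [mul_smul, hy'.2, hx'.1]
  have hm : ∀ x : stabilizer (Γ × K) ({(a : (Γ × K) ⧸ (C.prod K).v.range),
      (b : (Γ × K) ⧸ (C.prod K).v.range)} : Set _), (x : Γ × K).1 ∈ S₀ := fun x => by
    have := (mem_stab_pair hab).1 x.2
    simp only [Prod.smul_mk, Prod.mk.injEq, hs] at this
    exact (mS _).2 this
  obtain ⟨N, j, hj⟩ := OAB_emb hK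
  refine free_ab_of_inj (j.comp (MonoidHom.mk' (fun x => (χ' ⟨_, hm x⟩, (x : Γ × K).2))
    fun x y => Prod.ext (map_mul χ' ⟨_, hm x⟩ ⟨_, hm y⟩) rfl)) (hj.comp fun x y e => ?_)
  have e1 : χ' ⟨_, hm x⟩ = χ' ⟨_, hm y⟩ := congrArg Prod.fst e
  have e2 : (x : Γ × K).2 = (y : Γ × K).2 := (Prod.ext_iff.1 e).2
  exact Subtype.ext (Prod.ext (congrArg Subtype.val (hχ' e1)) e2)

end Pool.Agent.Work.MP_9d1ffa_al
end

-- merged part: Pool.Agent.Work.MP_9d1ffa_al.OOS
section
/-! Splitting theorems for the Wall groups of a free group times a free abelian group. -/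

namespace Pool.Agent.Work.MP_9d1ffa_al

open Matrix MonoidAlgebra

set_option linter.unusedSectionVars false
set_option linter.unusedVariables false

variable {X K G H L : Type} [Group K] [Group G] [Group H] [Group L] {ε η : ℤˣ}

/-- the product of a homomorphism with the identity -/
abbrev px (K : Type) [Group K] (f : G →* H) : G × K →* H × K := f.prodMap (MonoidHom.id K)

theorem px_comp (f : H →* L) (f' : G →* H) : (px K f).comp (px K f') = px K (f.comp f') := rfl

theorem px_id : px K (MonoidHom.id G) = MonoidHom.id _ := rfl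

theorem m1_px (f : H →* L) (f' : G →* H) (x : L1 (ZG (G × K)) η) :
    m1 η (px K f) (m1 η (px K f') x) = m1 η (px K (f.comp f')) x := m1_comp _ _ x

theorem m0_px (f : H →* L) (f' : G →* H) (x : L0 (ZG (G × K)) ε) :
    m0 ε (px K f) (m0 ε (px K f') x) = m0 ε (px K (f.comp f')) x := m0_comp _ _ x

theorem mp_px {I J : Type} (f : H →* L) (f' : G →* H) (x : Matrix I J (ZG (G × K))) :
    mp (px K f) (mp (px K f') x) = mp (px K (f.comp f')) x := mp_mp _ _ x

theorem cm_bot : CM (1 : G →* H).range := by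
  rintro g - d ⟨a, rfl⟩ d' - - -
  simp

/-- the inclusion of the free factor -/
abbrev vl (x₀ : X) : FreeGroup {x // x ≠ x₀} →* FreeGroup X := FreeGroup.map Subtype.val

theorem even_split (hK : FA K) (x₀ : X) (y : L0 (ZG (FreeGroup X × K)) ε) :
    ∃ (y₁ : L0 (ZG (FreeGroup {x // x ≠ x₀} × K)) ε) (y₂ : L0 (ZG (Cy × K)) ε),
      y = m0 ε (px K (vl x₀)) y₁ + m0 ε (px K (cy (FreeGroup.of x₀))) y₂ := by
  obtain ⟨⟨D, pos, a1, a2, a3, a4, a5, a6, a7, a8⟩, rfl : D = _⟩ := cut_free x₀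
  set C : Cut _ _ _ := ⟨phX x₀, pos, a1, a2, a3, a4, a5, a6, a7, a8⟩
  obtain ⟨d, hd⟩ := (C.prod K).exists_ed (sfi_free hK) y
  obtain ⟨y₂, h₂⟩ := (C.prod K).realise₀ (ε := ε) ((phZX x₀).prod K) d rfl
  have e : m1 (-ε) ((phZX x₀).prod K).fa d = d := m1_id d
  rw [e] at h₂
  have h := hd.sub h₂
  rw [sub_self] at h
  obtain ⟨y₁, h₁⟩ := h.split (C.unil_prod tf_free cm_bot cm_bot hK ε) (tf_free.prod hK.tf).two
  exact ⟨y₁, y₂, sub_eq_iff_eq_add.1 h₁.symm⟩

theorem odd_split (hK : FA K) (x₀ : X) (c : L1 (ZG (FreeGroup X × K)) η) :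
    ∃ (c₁ : L1 (ZG (FreeGroup {x // x ≠ x₀} × K)) η) (c₂ : L1 (ZG (Cy × K)) η),
      c = m1 η (px K (vl x₀)) c₁ + m1 η (px K (cy (FreeGroup.of x₀))) c₂ := by
  obtain ⟨ε, rfl⟩ : ∃ ε, η = -ε := ⟨-η, (neg_neg η).symm⟩
  obtain ⟨x, hx⟩ := (Cut.line _).realise₀ (ε := ε) (PHom.line (MonoidHom.id _)) c rfl
  have e1 : m1 (-ε) (PHom.line (MonoidHom.id _)).fa c = c := m1_id c
  have e2 : m0 ε (PHom.line (MonoidHom.id _)).f x = x := m0_id x
  rw [e1, e2] at hx
  obtain ⟨y₁, y₂, hy⟩ := even_split hK.prod_int x₀ (m0 ε MulEquiv.prodAssoc.toMonoidHom x)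
  obtain ⟨c₁, h₁⟩ := (Cut.line _).exists_ed (sfi_free hK)
    (m0 ε MulEquiv.prodAssoc.symm.toMonoidHom y₁)
  obtain ⟨c₂, h₂⟩ := (Cut.line _).exists_ed (sfi_free hK)
    (m0 ε MulEquiv.prodAssoc.symm.toMonoidHom y₂)
  have k := (h₁.map (PHom.line (px K (vl x₀))) fun g => Iff.rfl).add
    (h₂.map (PHom.line (px K (cy (FreeGroup.of x₀)))) fun g => Iff.rfl)
  have e3 := congrArg (m0 ε MulEquiv.prodAssoc.symm.toMonoidHom) hy
  rw [m0_comp, map_add, m0_comp, m0_comp] at e3
  rw [m0_comp, m0_comp] at k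
  have e4 : x = _ := (m0_id x).symm.trans e3
  exact ⟨c₁, c₂, line_ed_unique (sfi_free hK) hx (e4 ▸ k)⟩

/-- the class obtained by substituting a group element -/
noncomputable def ev (u : L1 (ZG (Cy × K)) η) (g : G) : L1 (ZG (G × K)) η :=
  m1 η (px K (cy g)) u

/-- the class vanishes on the trivial group -/
def Red (u : L1 (ZG (Cy × K)) η) : Prop := m1 η (px K (1 : Cy →* Cy)) u = 0

theorem comp_cy (f : G →* H) (g : G) : f.comp (cy g) = cy (f g) := by
  ext
  simp [cy]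

theorem cy_one : cy (1 : G) = 1 := by
  ext
  simp [cy]

theorem cy_of : cy (FreeGroup.of ()) = MonoidHom.id Cy := by
  ext
  simp [cy]

theorem m1_ev (f : G →* H) (u : L1 (ZG (Cy × K)) η) (g : G) :
    m1 η (px K f) (ev u g) = ev u (f g) := by
  rw [ev, m1_px, comp_cy, ev]

theorem ev_of (u : L1 (ZG (Cy × K)) η) : ev u (FreeGroup.of ()) = u := by
  rw [ev, cy_of]
  exact m1_id u

theorem Red.ev_one {u : L1 (ZG (Cy × K)) η} (h : Red u) : ev u (1 : G) = 0 := by
  have := congrArg (m1 η (px K (1 : Cy →* G))) h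
  rwa [m1_px, map_zero, MonoidHom.one_comp, ← cy_one] at this

theorem Red.ev_mul (hK : FA K) {u : L1 (ZG (Cy × K)) η} (h : Red u) (g g' : G) :
    ev u (g * g') = ev u g + ev u g' := by
  obtain ⟨c₁, c₂, hc⟩ := odd_split hK true (ev u (FreeGroup.of false * FreeGroup.of true))
  have key : ∀ a b : G, ev u (a * b) = m1 η (px K (FreeGroup.lift fun _ => a)) c₁ + ev c₂ b := by
    intro a b
    have := congrArg (m1 η (px K (FreeGroup.lift fun s => bif s then b else a))) hc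
    rw [m1_ev, map_add, m1_px, m1_px, comp_cy, map_mul] at this
    simp only [FreeGroup.lift_apply_of, cond_true, cond_false] at this
    have e : (FreeGroup.lift fun s => bif s then b else a).comp (vl true) =
        FreeGroup.lift fun _ => a := by
      ext ⟨_ | _, hx⟩
      · simp
      · exact absurd rfl hx
    rwa [e] at this
  have h1 := key g g'
  have h2 := key g 1
  have h3 := key 1 g'
  have h4 := key 1 1
  rw [mul_one] at h2 h4
  rw [one_mul] at h3
  rw [h.ev_one] at h4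
  rw [h1, h2, h3]
  rw [add_assoc, ← add_assoc (ev c₂ 1), add_comm (ev c₂ 1), ← h4, zero_add]

end Pool.Agent.Work.MP_9d1ffa_al
end

-- merged part: Pool.Agent.Work.MP_9d1ffa_al.WLoc
section
/-! Classes and relations in the Wall groups are defined over finitely generated subgroups. -/

namespace Pool.Agent.Work.MP_9d1ffa_al

open Matrix MonoidAlgebra

set_option linter.unusedSectionVars false
set_option linter.unusedVariables false

variable {G : Type} [Group G] {ε η : ℤˣ} {I J : Type}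

/-- the property holds for all embeddings whose image contains a certain finite set -/
def Big (G : Type) [Group G] (p : ∀ (H : Type) [Group H], (H →* G) → Prop) : Prop :=
  ∃ T : Finset G, ∀ (H : Type) [Group H] (f : H →* G), Function.Injective f →
    (∀ g ∈ T, g ∈ f.range) → p H f

variable {p q : ∀ (H : Type) [Group H], (H →* G) → Prop}

theorem Big.mono (h : Big G p)
    (k : ∀ (H : Type) [Group H] (f : H →* G), Function.Injective f → p H f → q H f) : Big G q := by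
  obtain ⟨T, hT⟩ := h
  exact ⟨T, fun H _ f hf h => k H f hf (hT H f hf h)⟩

theorem Big.and (h : Big G p) (h' : Big G q) : Big G fun H _ f => p H f ∧ q H f := by
  classical
  obtain ⟨T, hT⟩ := h
  obtain ⟨T', hT'⟩ := h'
  exact ⟨T ∪ T', fun H _ f hf h => ⟨hT H f hf fun g hg => h g (Finset.mem_union_left _ hg),
    hT' H f hf fun g hg => h g (Finset.mem_union_right _ hg)⟩⟩

theorem Big.of_forall (h : ∀ (H : Type) [Group H] (f : H →* G), p H f) : Big G p :=
  ⟨∅, fun H _ f _ _ => h H f⟩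

theorem big_mem (g : G) : Big G fun H _ f => ∃ h, f h = g :=
  ⟨{g}, fun H _ f _ h => h g (Finset.mem_singleton_self g)⟩

theorem big_mat [Finite I] [Finite J] (A : Matrix I J (ZG G)) :
    Big G fun H _ f => ∃ A', mp f A' = A := by
  obtain ⟨T, hT⟩ := exists_sup_finset A
  exact ⟨T, fun H _ f hf h => ⟨rs f hf A, (mp_rs A).trans (hT.mono h).fm_eq⟩⟩

theorem Big.prod {K : Type} [Group K] {p : ∀ (H : Type) [Group H], (H →* G × K) → Prop}
    (h : Big (G × K) p) : Big G fun H _ f => p (H × K) (px K f) := by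
  classical
  obtain ⟨T, hT⟩ := h
  refine ⟨T.image Prod.fst, fun H _ f hf h => hT _ _ (hf.prodMap Function.injective_id)
    fun g hg => ?_⟩
  obtain ⟨a, ha⟩ := h _ (Finset.mem_image_of_mem _ hg)
  exact ⟨(a, g.2), Prod.ext ha rfl⟩

theorem big_l0 (x : L0 (ZG G) ε) : Big G fun H _ f => x ∈ (m0 ε f).range := by
  obtain ⟨n, ψ, h, rfl⟩ := cls_surj x
  obtain ⟨μ, -, hμ⟩ := h.inv
  refine ((big_mat ψ).and (big_mat μ)).mono ?_
  rintro H _ f hf ⟨⟨ψ, rfl⟩, μ, rfl⟩
  exact ⟨_, m0_cls f (ns_of_left (C := μ) (mp_inj hf (by rw [mp_mul, mp_sy, hμ, mp_one])))⟩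

variable [Fintype I] [DecidableEq I]

theorem big_uni {U : Matrix (I ⊕ I) (I ⊕ I) (ZG G)} (h : Uni η U) :
    Big G fun H _ f => ∃ U', Uni η U' ∧ mp f U' = U := by
  obtain ⟨V, h1, h2⟩ := OU1_inv h.1
  obtain ⟨χ, h3⟩ := h.2
  refine ((big_mat U).and ((big_mat V).and (big_mat χ))).mono ?_
  rintro H _ f hf ⟨⟨U, rfl⟩, ⟨V, rfl⟩, χ, rfl⟩
  refine ⟨U, ⟨OU1_unit (V := V) (mp_inj hf ?_) (mp_inj hf ?_), χ, mp_inj hf ?_⟩, rfl⟩
  · rw [mp_mul, h1, mp_one]
  · rw [mp_mul, h2, mp_one]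
  · rw [mp_mul, mp_mul, mp_sub, mp_add, mp_zsmul, mp_ct, mp_ct, mp_hyp, h3]

theorem big_l1 (c : L1 (ZG G) η) : Big G fun H _ f => c ∈ (m1 η f).range := by
  obtain ⟨n, U, h, rfl⟩ := ucl_surj c
  refine (big_uni h).mono ?_
  rintro H _ f hf ⟨U, k, rfl⟩
  exact ⟨_, m1_ucl f k⟩

theorem big_ru {U : Matrix (I ⊕ I) (I ⊕ I) (ZG G)} (h : U ∈ RU (ZG G) η I) :
    Big G fun H _ f => ∃ U' ∈ RU (ZG H) η I, mp f U' = U := by
  induction h using Submonoid.closure_induction with
  | mem U hU =>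
    cases hU with
    | gl g g' h1 h2 =>
      refine ((big_mat g).and (big_mat g')).mono ?_
      rintro H _ f hf ⟨⟨g, rfl⟩, g', rfl⟩
      refine ⟨_, (GenU.gl g g' (mp_inj hf ?_) (mp_inj hf ?_)).mem, ?_⟩
      · rw [mp_mul, h1, mp_one]
      · rw [mp_mul, h2, mp_one]
      · rw [mp_blocks, mp_zero, mp_ct]
    | sh χ =>
      refine (big_mat χ).mono ?_
      rintro H _ f hf ⟨χ, rfl⟩
      exact ⟨_, (GenU.sh χ).mem, by rw [mp_blocks, mp_zero, mp_one, mp_sub, mp_zsmul, mp_ct]⟩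
    | sw κ s h =>
      refine (big_mat s).mono ?_
      rintro H _ f hf ⟨s, rfl⟩
      refine ⟨_, (GenU.sw κ s (mp_inj hf ?_)).mem, ?_⟩
      · rw [mp_mul, mp_ct, h, mp_one]
      · rw [mp_blocks, mp_sub, mp_zsmul, mp_mul, mp_ct, mp_one]
  | one => exact Big.of_forall fun H _ f => ⟨1, one_mem _, mp_one f⟩
  | mul U V _ _ h h' =>
    refine (h.and h').mono ?_
    rintro H _ f hf ⟨⟨U, k, rfl⟩, V, k', rfl⟩
    exact ⟨_, mul_mem k k', mp_mul f U V⟩

theorem big_ker {F : Type} [Group F] (π : F →* G) {c : L1 (ZG F) η} (h : m1 η π c = 0) :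
    Big G fun H _ f => ∀ k : F →* H, f.comp k = π → m1 η k c = 0 := by
  obtain ⟨n, U, hU, rfl⟩ := ucl_surj c
  rw [m1_ucl _ hU, ucl_eq_zero (hU.mp π)] at h
  obtain ⟨κ, _, _, h⟩ := h
  refine (big_ru h).mono ?_
  rintro H _ f hf ⟨V, hV, e⟩ k rfl
  rw [m1_ucl _ hU, ucl_eq_zero (hU.mp k)]
  refine ⟨κ, inferInstance, inferInstance, ?_⟩
  rwa [mp_inj hf (B := dsum (mp k U) 1) (e.trans (by rw [mp_dsum, mp_mp, mp_one]))] at hV

end Pool.Agent.Work.MP_9d1ffa_al
end
end

-- merged part: Pool.Agent.Work.MP_9d1ffa_al.WTen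
section
/-! The kernel of a map of tensor products of abelian groups. -/

namespace Pool.Agent.Work.MP_9d1ffa_al

open TensorProduct LinearMap

/-- a finitely generated abelian group has an independent generating family -/
theorem WTen_indep (Q : Type) [AddCommGroup Q] [Module.Finite ℤ Q] :
    ∃ (p : ℕ) (l : Fin p → Q), Submodule.span ℤ (Set.range l) = ⊤ ∧
      ∀ a : Fin p → ℤ, ∑ s, a s • l s = 0 → ∀ s, a s • l s = 0 := by
  obtain ⟨p, π, hπ⟩ := Module.Finite.exists_fin' ℤ Q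
  obtain ⟨n, S⟩ := (ker π).smithNormalForm (Pi.basisFun ℤ (Fin p))
  refine ⟨p, fun s => π (S.bM s), ?_, fun a ha s => ?_⟩
  · rw [show (fun s => π (S.bM s)) = π ∘ S.bM from rfl, Set.range_comp, ← Submodule.map_span,
      S.bM.span_eq, Submodule.map_top, range_eq_top.2 hπ]
  · have hm : ∑ s, a s • S.bM s ∈ ker π := by
      simpa only [mem_ker, map_sum, map_smul] using ha
    have hr : ∀ s, S.bM.repr (∑ s, a s • S.bM s) s = a s := fun s => by
      rw [S.bM.repr_sum_self]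
    by_cases hs : s ∈ Set.range S.f
    · obtain ⟨i, rfl⟩ := hs
      have h1 := S.repr_apply_embedding_eq_repr_smul ⟨_, hm⟩ (i := i)
      rw [hr, map_smul, Finsupp.smul_apply, smul_eq_mul, mul_comm] at h1
      rw [h1, mul_smul, ← map_smul, ← S.snf, (S.bN i).2, smul_zero]
    · have h1 := S.repr_eq_zero_of_notMem_range ⟨_, hm⟩ hs
      rw [hr] at h1
      rw [h1, zero_smul]

theorem WTen_sum {Q N : Type} [AddCommGroup Q] [AddCommGroup N] {p : ℕ} {l : Fin p → Q}
    (h : Submodule.span ℤ (Set.range l) = ⊤) (t : Q ⊗[ℤ] N) :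
    ∃ z : Fin p → N, t = ∑ s, l s ⊗ₜ z s := by
  induction t with
  | zero => exact ⟨0, by simp⟩
  | tmul q n =>
    obtain ⟨c, rfl⟩ := (Submodule.mem_span_range_iff_exists_fun ℤ).1 (h ▸ Submodule.mem_top : q ∈ _)
    exact ⟨fun s => c s • n, by simp only [sum_tmul, smul_tmul]⟩
  | add x y hx hy =>
    obtain ⟨z, rfl⟩ := hx
    obtain ⟨z', rfl⟩ := hy
    exact ⟨z + z', by simp only [Pi.add_apply, tmul_add, Finset.sum_add_distrib]⟩

/-- the kernel is generated by pure tensors of a special form -/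
theorem tensor_ker {L N M : Type} [AddCommGroup L] [AddCommGroup N] [AddCommGroup M]
    (φ : N →ₗ[ℤ] M) (R : AddSubgroup (L ⊗[ℤ] N))
    (hR : ∀ (u : L) (z : N) (e : ℕ) (m : M), φ z = e • m → e • u = 0 → u ⊗ₜ z ∈ R)
    (ξ : L ⊗[ℤ] N) (h : lTensor L φ ξ = 0) : ξ ∈ R := by
  obtain ⟨P, hP, t, rfl⟩ := TensorProduct.exists_of_fg ξ
  have h1 : rTensor M P.subtype (lTensor P φ t) = 0 := by
    rw [← comp_apply, rTensor_comp_lTensor, ← lTensor_comp_rTensor, comp_apply, h]
  obtain ⟨Q, hPQ, hQ, h2⟩ := TensorProduct.eq_zero_of_fg_of_subtype_eq_zero hP h1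
  have := Module.Finite.iff_fg.2 hQ
  obtain ⟨p, l, l1, l2⟩ := WTen_indep Q
  obtain ⟨z, hz⟩ := WTen_sum l1 (rTensor N (Submodule.inclusion hPQ) t)
  have h3 : ∑ s, l s ⊗ₜ[ℤ] φ (z s) = 0 := by
    rw [← comp_apply, rTensor_comp_lTensor, ← lTensor_comp_rTensor, comp_apply, hz] at h2
    simpa only [map_sum, lTensor_tmul] using h2
  obtain ⟨k, a, y, a1, a2⟩ := vanishesTrivially_of_sum_tmul_eq_zero ℤ l1 h3
  rw [← Submodule.subtype_comp_inclusion P Q hPQ, rTensor_comp, comp_apply, hz, map_sum]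
  refine sum_mem fun s _ => ?_
  rw [rTensor_tmul]
  have d : ∀ j, ∃ c : ℤ, a s j = addOrderOf (l s) * c := fun j =>
    addOrderOf_dvd_iff_zsmul_eq_zero.2 (l2 _ (a2 j) s)
  choose c hc using d
  refine hR _ _ (addOrderOf (l s)) (∑ j, c j • y j) ?_ ?_
  · rw [show φ (z s) = _ from a1 s, Finset.smul_sum]
    exact Finset.sum_congr rfl fun j _ => by rw [hc, mul_smul, natCast_zsmul]
  · rw [← map_nsmul, addOrderOf_nsmul_eq_zero, map_zero]

end Pool.Agent.Work.MP_9d1ffa_al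
end

-- merged part: Pool.Agent.Work.MP_9d1ffa_al.OFin
section
-- merged part: Pool.Agent.Work.MP_9d1ffa_al.OStep
section
/-! The inductive step along the hierarchy of one relator groups. -/

namespace Pool.Agent.Work.MP_9d1ffa_al

open Matrix MonoidAlgebra

set_option linter.unusedSectionVars false
set_option linter.unusedVariables false

variable {X Y K : Type} [Group K] {ε η : ℤˣ} {r : FreeGroup X} {r' : FreeGroup Y}

/-- the kernel on odd Wall groups consists of the classes coming from the relator -/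
def II (K : Type) [Group K] (η : ℤˣ) (r : FreeGroup X) : Prop :=
  ∀ c : L1 (ZG (FreeGroup X × K)) η, m1 η (px K (pr r)) c = 0 → ∃ u, Red u ∧ c = ev u r

/-- the class is given by a form over the free group with a boundary condition along the
relator -/
def Cap (ε : ℤˣ) (r : FreeGroup X) (x : L0 (ZG (OR r × K)) ε) : Prop :=
  ∃ (I : Type) (_ : Fintype I) (_ : DecidableEq I) (U : Matrix (I ⊕ I) (I ⊕ I) (ZG (Cy × K)))
    (ψ : Matrix I I (ZG (FreeGroup X × K))), Uni (-ε) U ∧ mp (px K (1 : Cy →* Cy)) U = 1 ∧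
      IsUnit (sysM ε (mp (px K (cy r)) U) ψ) ∧ cls ε (mp (px K (pr r)) ψ) = x

/-- all classes are capped -/
def SS (K : Type) [Group K] (ε : ℤˣ) (r : FreeGroup X) : Prop :=
  ∀ x : L0 (ZG (OR r × K)) ε, Cap ε r x

theorem mp_red {G : Type} [Group G] {I : Type} [DecidableEq I] {U : Matrix I I (ZG (Cy × K))}
    (h : mp (px K (1 : Cy →* Cy)) U = 1) : mp (px K (cy (1 : G))) U = 1 := by
  have := congrArg (mp (px K (1 : Cy →* G))) h
  rwa [mp_px, mp_one, MonoidHom.one_comp, ← cy_one] at this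

theorem cap_ns {G H : Type} [Group G] [Group H] (π : G →* H) {g : G} (hg : π g = 1) {I : Type}
    [Fintype I] [DecidableEq I] {U : Matrix (I ⊕ I) (I ⊕ I) (ZG (Cy × K))}
    {ψ : Matrix I I (ZG (G × K))} (h1 : mp (px K (1 : Cy →* Cy)) U = 1)
    (h2 : IsUnit (sysM ε (mp (px K (cy g)) U) ψ)) : NS ε (mp (px K π) ψ) := by
  have := IsUnit.mp (px K π) h2
  rwa [mp_sysM, mp_px, comp_cy, hg, mp_red h1, sysM_one] at this

theorem Cap.add {x y : L0 (ZG (OR r × K)) ε} (h : Cap ε r x) (h' : Cap ε r y) :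
    Cap ε r (x + y) := by
  obtain ⟨I, _, _, U, ψ, a1, a2, a3, rfl⟩ := h
  obtain ⟨J, _, _, U', ψ', b1, b2, b3, rfl⟩ := h'
  refine ⟨I ⊕ J, inferInstance, inferInstance, dsum U U', fromBlocks ψ 0 0 ψ', a1.dsum b1,
    by rw [mp_dsum, a2, b2, dsum_one], ?_, ?_⟩
  · rw [mp_dsum, sysM_dsum]
    obtain ⟨v, hv⟩ := a3.exists_right_inv
    obtain ⟨w, hw⟩ := a3.exists_left_inv
    obtain ⟨v', hv'⟩ := b3.exists_right_inv
    obtain ⟨w', hw'⟩ := b3.exists_left_inv
    refine isUnit_iff_exists_and_exists.2 ⟨⟨fromBlocks v 0 0 v', ?_⟩, ⟨fromBlocks w 0 0 w', ?_⟩⟩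
    · simp [fromBlocks_multiply, hv, hv']
    · simp [fromBlocks_multiply, hw, hw']
  · rw [mp_blocks, mp_zero, mp_zero,
      cls_sum (cap_ns _ (pr_self r) a2 a3) (cap_ns _ (pr_self r) b2 b3)]

theorem Cap.map (φ : FreeGroup X →* FreeGroup Y) (hφ : φ r = r') (f : OR r →* OR r')
    (hf : ∀ z, f (pr r z) = pr r' (φ z)) {x : L0 (ZG (OR r × K)) ε} (h : Cap ε r x) :
    Cap ε r' (m0 ε (px K f) x) := by
  obtain ⟨I, _, _, U, ψ, a1, a2, a3, rfl⟩ := h
  refine ⟨I, inferInstance, inferInstance, U, mp (px K φ) ψ, a1, a2, ?_, ?_⟩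
  · have := IsUnit.mp (px K φ) a3
    rwa [mp_sysM, mp_px, comp_cy, hφ] at this
  · rw [m0_cls _ (cap_ns _ (pr_self r) a2 a3), mp_px, mp_px,
      show f.comp (pr r) = (pr r').comp φ from MonoidHom.ext hf]

theorem Ret.ii (R : Ret r r') (e : R.φ r = r') (h : II K η r') : II K η r := fun c hc => by
  obtain ⟨f, g, hf, -, -⟩ := R.exists_maps
  obtain ⟨u, h1, h2⟩ := h (m1 η (px K R.φ) c) (by
    rw [m1_px, ← show f.comp (pr r) = (pr r').comp R.φ from MonoidHom.ext hf, ← m1_px, hc,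
      map_zero])
  refine ⟨u, h1, ?_⟩
  have := congrArg (m1 η (px K R.ρ)) h2
  rwa [m1_px, m1_ev, show R.ρ.comp R.φ = MonoidHom.id _ from MonoidHom.ext R.inv, px_id, m1_id,
    (congrArg R.ρ e.symm).trans (R.inv r)] at this

theorem Ret.ss (R : Ret r r') (e : R.φ r = r') (h : SS K ε r') : SS K ε r := fun x => by
  obtain ⟨f, g, -, hg, hi⟩ := R.exists_maps
  have := (h (m0 ε (px K f) x)).map R.ρ ((congrArg R.ρ e.symm).trans (R.inv r)) g hg
  rwa [m0_px, show g.comp f = MonoidHom.id _ from MonoidHom.ext hi, px_id, m0_id] at this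

/-- presentations with a section -/
theorem ss_of_section (s : OR r →* FreeGroup X) (hs : ∀ x, pr r (s x) = x) : SS K ε r := by
  intro x
  obtain ⟨n, ψ, h, rfl⟩ := cls_surj x
  refine ⟨Fin n, inferInstance, inferInstance, 1, mp (px K s) ψ, uni_one, mp_one _, ?_, ?_⟩
  · rw [mp_one, sysM_one]
    exact h.mp _
  · rw [mp_px, show (pr r).comp s = MonoidHom.id _ from MonoidHom.ext hs, px_id, mp_id]

theorem red_zero : Red (0 : L1 (ZG (Cy × K)) η) := map_zero _

theorem base_one : II K η (1 : FreeGroup X) ∧ SS K ε (1 : FreeGroup X) := by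
  obtain ⟨s, hs⟩ := exists_lift (r := (1 : FreeGroup X)) (MonoidHom.id _) rfl
  refine ⟨fun c hc => ⟨0, red_zero, ?_⟩, ss_of_section s fun x => ?_⟩
  · have := congrArg (m1 η (px K s)) hc
    rw [m1_px, show s.comp (pr 1) = MonoidHom.id _ from MonoidHom.ext hs, px_id, m1_id,
      map_zero] at this
    rw [this, ev, map_zero]
  · obtain ⟨z, rfl⟩ := pr_surj _ x
    rw [hs]
    rfl

theorem red_sub (c : L1 (ZG (Cy × K)) η) : Red (c - m1 η (px K (1 : Cy →* Cy)) c) := by
  rw [Red, map_sub, m1_px, MonoidHom.one_comp, sub_self]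

theorem base_of (hK : FA K) (y : X) : II K η (FreeGroup.of y) ∧ SS K ε (FreeGroup.of y) := by
  classical
  let κ : FreeGroup X →* FreeGroup X := FreeGroup.lift fun x => if x = y then 1 else .of x
  obtain ⟨s, hs⟩ := exists_lift (r := FreeGroup.of y) κ (by simp [κ])
  refine ⟨fun c hc => ?_, ss_of_section s fun x => ?_⟩
  · obtain ⟨c₁, c₂, rfl⟩ := odd_split hK y c
    have := congrArg (m1 η (px K s)) hc
    have e : κ.comp (vl y) = vl y := by
      ext ⟨x, hx⟩
      simp [κ, hx]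
    rw [m1_px, show s.comp (pr _) = κ from MonoidHom.ext hs, map_zero, map_add, m1_px, m1_px, e,
      comp_cy, show κ (FreeGroup.of y) = 1 by simp [κ], cy_one, add_eq_zero_iff_eq_neg] at this
    refine ⟨_, red_sub c₂, ?_⟩
    rw [this, ev, map_sub, m1_px, MonoidHom.comp_one, neg_add_eq_sub]
  · obtain ⟨z, rfl⟩ := pr_surj _ x
    rw [hs]
    refine DFunLike.congr_fun (show (pr (FreeGroup.of y)).comp κ = pr _ from ?_) z
    ext x
    by_cases h : x = y
    · simp [κ, h, pr_self]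
    · simp [κ, h]

/-- the automorphism inverting all generators -/
def invAll (X : Type) : FreeGroup X →* FreeGroup X := FreeGroup.lift fun x => (FreeGroup.of x)⁻¹

theorem invAll_inv (z : FreeGroup X) : invAll X (invAll X z) = z :=
  DFunLike.congr_fun (show (invAll X).comp (invAll X) = MonoidHom.id _ by
    ext x; simp [invAll]) z

theorem base_pow (hK : FA K) {y : X} {k : ℤ} (h : TF (OR (FreeGroup.of y ^ k))) :
    II K η (FreeGroup.of y ^ k) ∧ SS K ε (FreeGroup.of y ^ k) := by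
  rcases zpow_of_tf h with rfl | rfl | rfl
  · rw [zpow_zero]
    exact base_one
  · rw [zpow_one]
    exact base_of hK y
  · have e : invAll X (FreeGroup.of y ^ (-1 : ℤ)) = FreeGroup.of y := by simp [invAll]
    exact ⟨(Ret.mk' _ _ invAll_inv e).ii e (base_of (ε := ε) hK y).1,
      (Ret.mk' _ _ invAll_inv e).ss e (base_of (η := η) hK y).2⟩

variable {b : X} {M : ℕ} {l : FreeGroup (Xp b M)}

theorem ii_step (hK : FA K) (h1 : FrAt l (bot b M)) (h2 : FrAt l (top b M)) (h : II K η l) :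
    II K η (vF b M l) := by
  intro c hc
  obtain ⟨⟨D, pos, a1, a2, a3, a4, a5, a6, a7, a8⟩, rfl : D = _⟩ := cut_std h1 h2
  set C : Cut _ _ _ := ⟨phG l, pos, a1, a2, a3, a4, a5, a6, a7, a8⟩
  obtain ⟨c₁, c₂, rfl⟩ := odd_split hK none c
  let δ : FreeGroup (Option X) →* FreeGroup (Option X) :=
    FreeGroup.lift fun o => o.elim (tt X) fun _ => 1
  have d1 : δ.comp (vF b M) = 1 := by
    ext p
    simp [δ, vF]
  obtain ⟨s, hs⟩ := exists_lift (r := vF b M l) δ (DFunLike.congr_fun d1 l)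
  have d2 : δ.comp (vl none) = 1 := by
    ext ⟨_ | x, hx⟩
    · exact absurd rfl hx
    · simp [δ]
  have := congrArg (m1 η (px K s)) hc
  rw [m1_px, show s.comp (pr _) = δ from MonoidHom.ext hs, map_zero, map_add, m1_px, m1_px, d2,
    comp_cy, show δ (FreeGroup.of none) = FreeGroup.of none by simp [δ],
    add_eq_zero_iff_neg_eq] at this
  let lev : FreeGroup {o : Option X // o ≠ none} →* FreeGroup (Xp b M) :=
    FreeGroup.lift fun o => o.1.elim 1 fun x =>
      FreeGroup.of ⟨(x, 0), fun _ => ⟨le_rfl, Int.natCast_nonneg M⟩⟩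
  have d3 : (vF b M).comp lev = vl none := by
    ext ⟨_ | x, hx⟩
    · exact absurd rfl hx
    · simp [lev, vF]
  have e : m1 η (px K (vl none)) c₁ + m1 η (px K (cy (FreeGroup.of none))) c₂ =
      m1 η (px K (vF b M)) (m1 η (px K lev) c₁ - m1 η (px K 1) c₁) := by
    rw [← this, map_sub, m1_px, m1_px, d3, MonoidHom.comp_one, sub_eq_add_neg]
  rw [e] at hc ⊢
  generalize m1 η (px K lev) c₁ - m1 η (px K 1) c₁ = c at hc ⊢
  obtain ⟨d, hd⟩ := (C.prod K).ker_v (sfi_free hK) (c := m1 η (px K (pr l)) c) (by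
    rw [m1_px] at hc
    exact (m1_px (vG l) (pr l) c).trans hc)
  obtain ⟨u, k1, k2⟩ := h (c - (m1 η (px K (phF b M).i) d - m1 η (px K (phF b M).j) d)) (by
    rw [map_sub, map_sub, m1_px, m1_px, hd]
    exact sub_self _)
  refine ⟨u, k1, ?_⟩
  rw [← m1_ev, ← k2, map_sub, map_sub, m1_px, m1_px,
    m1_conj (px K ((vF b M).comp (phF b M).i)) (px K ((vF b M).comp (phF b M).j)) (tt X, 1)
      ((phF b M).prod K).rel, sub_self, sub_zero]

theorem ss_step (hK : FA K) (h1 : FrAt l (bot b M)) (h2 : FrAt l (top b M))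
    (b1 : BgAt l (bot b M)) (b2 : BgAt l (top b M)) (ht : TF (OR (vF b M l)))
    (hi : II K (-ε) l) (hs : SS K ε l) : SS K ε (vF b M l) := by
  intro x
  obtain ⟨⟨D, pos, a1, a2, a3, a4, a5, a6, a7, a8⟩, rfl : D = _⟩ := cut_std h1 h2
  set C : Cut _ _ _ := ⟨phG l, pos, a1, a2, a3, a4, a5, a6, a7, a8⟩
  obtain ⟨d, hd⟩ := (C.prod K).exists_ed (sfi_free hK) x
  obtain ⟨u, k1, k2⟩ := hi (m1 (-ε) (px K (phF b M).i) d - m1 (-ε) (px K (phF b M).j) d) (by
    rw [map_sub, m1_px, m1_px]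
    exact sub_eq_zero.2 hd.vr)
  obtain ⟨n, U, u1, u2, u3⟩ := exists_red (px K (1 : Cy →* Cy)) (fun g => rfl) ((ε : ℤ) • u)
    (by rw [map_zsmul, k1, smul_zero])
  obtain ⟨N, _, _, ψ, p1, p2, p3⟩ := (C.prod K).realise (ε := ε) ((phFG l).prod K)
    (u1.mp (px K (cy l))) (by
      refine (mp_px (pr l) (cy l) U).trans ?_
      rw [comp_cy, pr_self, mp_red u2]) d (by
      rw [← m1_ucl _ u1, u3, map_zsmul]
      exact congrArg _ k2.symm)
  have e : m1 (-ε) ((phFG l).prod K).fa d = d := m1_id d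
  rw [e] at p3
  have q := hd.sub p3
  rw [sub_self] at q
  obtain ⟨y, hy⟩ := q.split (C.unil_prod ht (by rwa [show C.i = (phG l).i from rfl, phG_i_range])
    (by rwa [show C.j = (phG l).j from rfl, phG_j_range]) hK ε) (ht.prod hK.tf).two
  rw [← sub_add_cancel x (cls ε (mp ((phFG l).prod K).f ψ)), ← hy]
  refine ((hs y).map (vF b M) rfl (vG l) fun z => rfl).add ⟨_, inferInstance, inferInstance,
    dsum U (1 : Matrix (N ⊕ N) (N ⊕ N) _), ψ, u1.dsum uni_one,
    by rw [mp_dsum, u2, mp_one, dsum_one], ?_, rfl⟩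
  rw [mp_dsum, mp_one] at p1 ⊢
  rw [← comp_cy, ← mp_px]
  exact p1

end Pool.Agent.Work.MP_9d1ffa_al
end

-- merged part: Pool.Agent.Work.MP_9d1ffa_al.OInd
section
/-! Induction along the hierarchy of one relator groups. -/

namespace Pool.Agent.Work.MP_9d1ffa_al

open Matrix MonoidAlgebra

set_option linter.unusedSectionVars false
set_option linter.unusedVariables false

variable {K : Type} [Group K] {ε : ℤˣ}

theorem main_aux (hK : FA K) (n : ℕ) : ∀ (X : Type) (L : List (X × Bool)), L.length < n →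
    TF (OR (FreeGroup.mk L)) → II K (-ε) (FreeGroup.mk L) ∧ SS K ε (FreeGroup.mk L) := by
  induction n with
  | zero => intro X L h; omega
  | succ n ih =>
    intro X L₀ hn ht
    obtain ⟨L, g, hL, e, hl⟩ := exists_cred L₀
    rw [e] at ht ⊢
    have ht' := (Ret.conj' _ g).tf ht
    have e' : (MulAut.conj g).symm.toMonoidHom (g * FreeGroup.mk L * g⁻¹) = FreeGroup.mk L := by
      simp [mul_assoc]
    suffices h : II K (-ε) (FreeGroup.mk L) ∧ SS K ε (FreeGroup.mk L) from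
      ⟨(Ret.mk' _ (MulAut.conj g).toMonoidHom (fun z => by simp [mul_assoc]) e').ii e' h.1,
        (Ret.mk' _ (MulAut.conj g).toMonoidHom (fun z => by simp [mul_assoc]) e').ss e' h.2⟩
    have step : ∀ (a b : X) (w : X → ℤ), a ≠ b → (∃ s, (a, s) ∈ L) → (∃ s, (b, s) ∈ L) →
        w a ≠ 0 → wdeg w L = 0 → II K (-ε) (FreeGroup.mk L) ∧ SS K ε (FreeGroup.mk L) := by
      intro a b w h1 h2 h3 h4 h5
      obtain ⟨M, h, l, L', φ, k1, rfl, -, -, k5, k6, k7, -⟩ := ms hL h1 h2 h3 w h4 h5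
      have t0 : TF (OR (vF b M (φ (FreeGroup.mk L')))) := k7 ▸ tf_alpha ht' w h
      have t1 := tf_vertex k5 k6 t0
      have t2 : TF (OR (FreeGroup.mk L')) := by
        have := (Ret.aut φ.symm (φ (FreeGroup.mk L'))).tf t1
        rwa [φ.symm_apply_apply] at this
      obtain ⟨i1, i2⟩ := ih _ L' (by omega) t2
      have j1 := (Ret.aut φ _).ii (φ.symm_apply_apply _) i1
      have j2 := (Ret.aut φ _).ss (φ.symm_apply_apply _) i2
      have l1 := ii_step hK (freiheit k5) (freiheit k6) j1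
      have l2 := ss_step hK (freiheit k5) (freiheit k6) (bagher t1 k5) (bagher t1 k6) t0 j1 j2
      rw [k7] at l1 l2
      exact ⟨(Ret.alpha _ w h).ii rfl l1, (Ret.alpha _ w h).ss rfl l2⟩
    cases L with
    | nil => exact base_one
    | cons p L =>
      have hb : ∃ s, (p.1, s) ∈ p :: L := ⟨p.2, List.mem_cons_self⟩
      rcases all_or_exists (p :: L) p.1 with h | ⟨a₀, h0, ha₀⟩
      · obtain ⟨k, hk⟩ := mk_eq_zpow h
        rw [hk] at ht' ⊢
        exact base_pow hK ht'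
      rcases choose_w h0 ha₀ with ⟨a, w, h1, h2, h3, h4⟩ | ⟨h1, w, h2, h3, h4⟩
      · exact step a p.1 w h1 h2 hb h3 h4
      · exact step p.1 a₀ w h0.symm hb ha₀ (by omega) h4

theorem ss_all (hK : FA K) {X : Type} {r : FreeGroup X} (ht : TF (OR r)) : SS K ε r := by
  obtain ⟨L, rfl⟩ : ∃ L, FreeGroup.mk L = r := Quot.exists_rep r
  exact (main_aux hK _ X L (Nat.lt_succ_self _) ht).2

end Pool.Agent.Work.MP_9d1ffa_al
end

-- merged part: Pool.Agent.Work.MP_9d1ffa_al.OFin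
section
/-! Every class in the even Wall group comes from a surface type group. -/

namespace Pool.Agent.Work.MP_9d1ffa_al

open Matrix MonoidAlgebra

set_option linter.unusedSectionVars false
set_option linter.unusedVariables false

variable {X K : Type} [Group K] {ε η : ℤˣ}

/-- substitution as a homomorphism -/
noncomputable def Red.hom (hK : FA K) {u : L1 (ZG (Cy × K)) η} (h : Red u) (G : Type) [Group G] :
    G →* Multiplicative (L1 (ZG (G × K)) η) :=
  MonoidHom.mk' (fun g => Multiplicative.ofAdd (ev u g)) fun a b => by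
    rw [h.ev_mul hK, ofAdd_add]

theorem Red.ev_pow (hK : FA K) {u : L1 (ZG (Cy × K)) η} (h : Red u) {G : Type} [Group G] (g : G)
    (e : ℕ) : ev u (g ^ e) = e • ev u g :=
  congrArg Multiplicative.toAdd (map_pow (h.hom hK G) g e)

theorem Red.ev_surf (hK : FA K) {u : L1 (ZG (Cy × K)) η} (h : Red u) (e g : ℕ) :
    ev u (surfRel e g) = e • ev u (FreeGroup.of none) :=
  congrArg Multiplicative.toAdd (map_surfRel e g (h.hom hK _))

theorem from_surface (hK : FA K) {r : FreeGroup X} (ht : TF (OR r)) (x : L0 (ZG (OR r × K)) ε) :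
    ∃ (e g : ℕ) (f : Surf e (g + 1) →* OR r), x ∈ (m0 ε (px K f)).range := by
  classical
  obtain ⟨I, _, _, U, ψ, a1, a2, a3, rfl⟩ := ss_all hK ht x
  obtain ⟨T, hT⟩ := exists_sup_finset ψ
  obtain ⟨S, hS⟩ := fin_gen (T.image Prod.fst)
  obtain ⟨e, g, f₀, s, χ, b1, b2, b3, b4⟩ := exists_surf r S
  obtain ⟨f, hf⟩ := exists_lift (r := surfRel e (g + 1)) ((pr r).comp f₀)
    (by rw [MonoidHom.comp_apply, b1, pr_self])
  have hf' : f.comp (pr _) = (pr r).comp f₀ := MonoidHom.ext hf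
  refine ⟨e, g, f, ?_⟩
  have hu : Red (ucl (-ε) U) := by rw [Red, m1_ucl _ a1, a2, ucl_one]
  have c1 : ev (ucl (-ε) U) r = 0 := by
    obtain ⟨C, hC⟩ := a3.exists_left_inv
    rw [ev, m1_ucl _ a1]
    exact ucl_sys (a1.mp _) hC
  have c2 : e • ucl (-ε) U = 0 := by
    have := congrArg (m1 (-ε) (px K χ)) c1
    rwa [m1_ev, b2, hu.ev_pow hK, ev_of, map_zero] at this
  have c3 : ucl (-ε) (mp (px K (cy (surfRel e (g + 1)))) U) = 0 := by
    rw [← m1_ucl _ a1, ← ev, hu.ev_surf hK, ev, ← map_nsmul, c2, map_zero]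
  obtain ⟨M, _, _, β, m, hβ⟩ := hasBox_upper (a1.mp _) c3
  have d1 := hβ.mp (px K f₀)
  rw [← mp_toBlocks₁₁, ← mp_toBlocks₁₂, mp_px, comp_cy, b1] at d1
  have d2 := d1.glue a3
  have d3 := hβ.mp (px K (pr (surfRel e (g + 1))))
  rw [← mp_toBlocks₁₁, ← mp_toBlocks₁₂, mp_px, comp_cy, pr_self, mp_red a2, ← fromBlocks_one,
    toBlocks_fromBlocks₁₁, toBlocks_fromBlocks₁₂] at d3
  have d4 := d3.mp (px K f)
  rw [mp_one, mp_zero] at d4
  obtain ⟨n1, -⟩ := d3.triv
  obtain ⟨n2, D, hD, hI⟩ := d4.triv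
  have hψ := cap_ns _ (pr_self r) a2 a3
  have hψ' : NS ε (mp (px K (pr r)) ψ - D) := by
    rw [NS, sub_eq_add_neg, sy_add, sy_neg, hD, neg_zero, add_zero]
    exact hψ
  have e1 : mp (px K f) (mp (px K ((pr _).comp s)) (fromBlocks ψ 0 0 0 - mp (px K f₀) β)) =
      fromBlocks (mp (px K (pr r)) ψ) 0 0 0 - mp (px K f) (mp (px K (pr _)) β) := by
    rw [mp_px, mp_px, hf', ← MonoidHom.comp_assoc, hf', mp_sub, mp_blocks, mp_zero, mp_zero,
      mp_zero, mp_px]
    congr 2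
    · refine hT.mp_congr fun z hz => Prod.ext ?_ rfl
      exact congrArg (pr r) ((Subgroup.closure_le ((f₀.comp s).eqLocus (MonoidHom.id _))).2
        (by rintro _ ⟨x, hx, rfl⟩; exact b4 x hx) (hS _ (Finset.mem_image_of_mem _ hz)))
    · exact congrArg (px K) (MonoidHom.ext fun z => congrArg (pr r) (b3 z))
  have e2 := cls_iso (hI (mp (px K (pr r)) ψ))
  rw [← e1, ← m0_cls _ (d2.mp _), cls_sum hψ' n2.neg, cls_neg, mp_toBlocks₂₂, ← m0_cls _ n1]
    at e2
  rw [← sub_add_cancel (cls ε (mp (px K (pr r)) ψ)) (cls ε (mp (px K (pr r)) ψ - D))]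
  refine add_mem (hess (ht.prod hK.tf).two hψ hD _) ?_
  rw [eq_add_neg_iff_add_eq] at e2
  rw [← e2]
  exact add_mem ⟨_, rfl⟩ ⟨_, rfl⟩

theorem one_relator {r : FreeGroup X} (ht : TF (OR r)) (hK : FA K) {I : Type} [Fintype I]
    [DecidableEq I] {ψ : Matrix I I (ZG (OR r × K))} (hψ : IsUnit (symF ε ψ)) :
    ∃ (e g : ℕ) (f : Surf e (g + 1) →* OR r) (m : ℕ)
      (φ : Matrix (Fin m) (Fin m) (ZG (Surf e (g + 1) × K))), IsUnit (symF ε φ) ∧
      StHyp ε (fromBlocks ψ 0 0 (-pushM (f.prodMap (MonoidHom.id K)) φ)) := by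
  obtain ⟨e, g, f, y, hy⟩ := from_surface hK ht (cls ε ψ)
  obtain ⟨m, φ, hφ, rfl⟩ := cls_surj y
  refine ⟨e, g, f, m, φ, hφ, z_iff.2 ?_⟩
  have h1 : NS ε (-mp (px K f) φ) := (hφ.mp _).neg
  refine (cls_eq_zero (NS.sum hψ h1)).1 ?_
  rw [cls_sum hψ h1, cls_neg, ← m0_cls _ hφ, hy, add_neg_cancel]

end Pool.Agent.Work.MP_9d1ffa_al
end
end

-- merged part: Pool.Agent.Work.MP_9d1ffa_al.WE
section
/-! The first homology part of the assembly map in odd degrees. -/

namespace Pool.Agent.Work.MP_9d1ffa_al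

open Matrix MonoidAlgebra TensorProduct

set_option linter.unusedSectionVars false
set_option linter.unusedVariables false

variable {G H L K : Type} [Group G] [Group H] [Group L] [Group K] {η : ℤˣ}

/-- the abelianisation, written additively -/
abbrev Ab (G : Type) [Group G] : Type := Additive (Abelianization G)

/-- the class of a group element -/
def ab (g : G) : Ab G := Additive.ofMul (Abelianization.of g)

theorem ab_mul (g h : G) : ab (g * h) = ab g + ab h := congrArg Additive.ofMul (map_mul _ g h)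

theorem ab_one : ab (1 : G) = 0 := rfl

theorem ab_inv (g : G) : ab g⁻¹ = -ab g := congrArg Additive.ofMul (map_inv _ g)

theorem ab_zpow (g : G) (n : ℤ) : ab (g ^ n) = n • ab g :=
  congrArg Additive.ofMul (map_zpow Abelianization.of g n)

theorem ab_pow (g : G) (n : ℕ) : ab (g ^ n) = n • ab g :=
  congrArg Additive.ofMul (map_pow Abelianization.of g n)

theorem ab_surj (z : Ab G) : ∃ g, ab g = z := QuotientGroup.mk_surjective z.toMul

theorem ab_eq_zero {g : G} (h : ab g = 0) : g ∈ commutator G :=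
  Abelianization.ker_of G ▸ (h : g ∈ Abelianization.of.ker)

/-- the map induced on abelianisations -/
def abm (f : G →* H) : Ab G →ₗ[ℤ] Ab H :=
  (MonoidHom.toAdditive (Abelianization.map f)).toIntLinearMap

theorem abm_ab (f : G →* H) (g : G) : abm f (ab g) = ab (f g) := rfl

/-- the reduced odd Wall group of the infinite cyclic group -/
noncomputable abbrev Lam (K : Type) [Group K] (η : ℤˣ) : AddSubgroup (L1 (ZG (Cy × K)) η) :=
  (m1 η (px K (1 : Cy →* Cy))).ker

/-- the first homology with coefficients in the reduced group -/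
abbrev Tn (K : Type) [Group K] (η : ℤˣ) (G : Type) [Group G] : Type := Lam K η ⊗[ℤ] Ab G

/-- the induced map on homology -/
noncomputable def tm (f : G →* H) : Tn K η G →ₗ[ℤ] Tn K η H := (abm f).lTensor _

theorem tm_tmul (f : G →* H) (u : Lam K η) (g : G) : tm f (u ⊗ₜ ab g) = u ⊗ₜ ab (f g) := rfl

theorem tn_ind (R : AddSubgroup (Tn K η G)) (h : ∀ u g, u ⊗ₜ ab g ∈ R) (ξ : Tn K η G) : ξ ∈ R := by
  induction ξ using TensorProduct.induction_on with
  | zero => exact zero_mem _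
  | tmul u z =>
    obtain ⟨g, rfl⟩ := ab_surj z
    exact h u g
  | add x y hx hy => exact add_mem hx hy

theorem tn_ext {M : Type} [AddCommGroup M] {a b : Tn K η G →ₗ[ℤ] M}
    (h : ∀ u g, a (u ⊗ₜ ab g) = b (u ⊗ₜ ab g)) (ξ : Tn K η G) : a ξ = b ξ :=
  tn_ind (a.toAddMonoidHom.eqLocus b.toAddMonoidHom) h ξ

theorem tm_comp (f : H →* L) (f' : G →* H) (ξ : Tn K η G) :
    tm f (tm f' ξ) = tm (f.comp f') ξ := 
  tn_ext (a := tm f ∘ₗ tm f') (b := tm (f.comp f')) (fun _ _ => rfl) ξ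

theorem tm_id (ξ : Tn K η G) : tm (MonoidHom.id G) ξ = ξ :=
  tn_ext (a := tm (MonoidHom.id G)) (b := LinearMap.id) (fun _ _ => rfl) ξ

theorem tm_one (ξ : Tn K η G) : tm (1 : G →* H) ξ = 0 :=
  tn_ext (b := 0) (fun u g => by rw [tm_tmul, MonoidHom.one_apply, ab_one, tmul_zero]; rfl) ξ

/-- substitution on the abelianisation -/
noncomputable def evA (hK : FA K) (u : Lam K η) (z : Ab G) : L1 (ZG (G × K)) η :=
  (Abelianization.lift (Red.hom hK u.2 G) z.toMul).toAdd

theorem evA_ab (hK : FA K) (u : Lam K η) (g : G) : evA hK u (ab g) = ev u.1 g := rfl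

/-- the assembly map on first homology -/
noncomputable def asm (hK : FA K) (G : Type) [Group G] : Tn K η G →ₗ[ℤ] L1 (ZG (G × K)) η :=
  TensorProduct.lift (LinearMap.mk₂ ℤ (evA hK)
    (fun u u' z => by
      obtain ⟨g, rfl⟩ := ab_surj z
      exact map_add (m1 η _) u.1 u'.1)
    (fun n u z => by
      obtain ⟨g, rfl⟩ := ab_surj z
      exact map_zsmul (m1 η _) n u.1)
    (fun u z z' => congrArg Multiplicative.toAdd (map_mul _ z.toMul z'.toMul))
    fun n u z => congrArg Multiplicative.toAdd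
      (map_zpow (Abelianization.lift (Red.hom hK u.2 G)) z.toMul n))

theorem asm_tmul (hK : FA K) (u : Lam K η) (g : G) : asm hK G (u ⊗ₜ ab g) = ev u.1 g := rfl

theorem m1_asm (hK : FA K) (f : G →* H) (ξ : Tn K η G) :
    m1 η (px K f) (asm hK G ξ) = asm hK H (tm f ξ) :=
  tn_ext (a := (m1 η (px K f)).toIntLinearMap ∘ₗ asm hK G) (b := asm hK H ∘ₗ tm f)
    (fun u g => m1_ev f u.1 g) ξ

/-- the assembly map is injective on first homology -/
def Inj (hK : FA K) (η : ℤˣ) (G : Type) [Group G] : Prop :=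
  ∀ ξ : Tn K η G, asm hK G ξ = 0 → ξ = 0

variable {hK : FA K}

theorem Inj.tm (h : Inj hK η H) (f : G →* H) {ξ : Tn K η G} (e : asm hK G ξ = 0) : tm f ξ = 0 :=
  h _ (by rw [← m1_asm, e, map_zero])

theorem Inj.ret (h : Inj hK η H) (s : G →* H) (r : H →* G) (e : r.comp s = MonoidHom.id G) :
    Inj hK η G := fun ξ k => by
  rw [← tm_id ξ, ← e, ← tm_comp, h.tm s k, map_zero]

theorem Inj.two (h : Inj hK η H) (h' : Inj hK η L) (p : G →* H) (s : H →* G) (p' : G →* L)
    (s' : L →* G) (e : ∀ g, ab g = ab (s (p g)) + ab (s' (p' g))) : Inj hK η G := fun ξ k => by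
  have := tn_ext (a := LinearMap.id) (b := MP_9d1ffa_al.tm s ∘ₗ MP_9d1ffa_al.tm p +
    MP_9d1ffa_al.tm s' ∘ₗ MP_9d1ffa_al.tm p')
    (fun u g => (congrArg (u ⊗ₜ[ℤ] ·) (e g)).trans (tmul_add _ _ _)) ξ
  simpa [h.tm p k, h'.tm p' k] using this

theorem inj_of_free [Module.Free ℤ (Ab G)] : Inj hK η G := fun ξ k => by
  classical
  let b := Module.Free.chooseBasis ℤ (Ab G)
  refine (equivFinsuppOfBasisRight b).map_eq_zero_iff.1 (Finsupp.ext fun s => Subtype.ext ?_)
  let χ : G →* Cy := MonoidHom.mk' (fun g => FreeGroup.of () ^ b.repr (ab g) s) fun g h => by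
    rw [ab_mul, map_add, Finsupp.add_apply, _root_.zpow_add]
  have key : ∀ ξ : Tn K η G, ((equivFinsuppOfBasisRight b ξ s : Lam K η) : L1 _ η) =
      m1 η (px K χ) (asm hK G ξ) := fun ξ => by
    induction ξ using TensorProduct.induction_on with
    | zero => simp
    | tmul u z =>
      obtain ⟨g, rfl⟩ := ab_surj z
      have e : χ g = FreeGroup.of () ^ b.repr (ab g) s := rfl
      rw [equivFinsuppOfBasisRight_apply_tmul_apply, m1_asm, tm_tmul, e, ab_zpow, tmul_smul,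
        map_smul, asm_tmul, ev_of, AddSubgroup.coe_zsmul]
    | add x y hx hy => rw [map_add, map_add, map_add, Finsupp.add_apply, AddSubgroup.coe_add, hx, hy]
  rw [key, k, map_zero]
  rfl

theorem tn_free (ξ : Tn K η G) : ∃ (X : Type) (_ : Finite X) (π : FreeGroup X →* G)
    (ζ : Tn K η (FreeGroup X)), tm π ζ = ξ := by
  induction ξ using TensorProduct.induction_on with
  | zero => exact ⟨Empty, inferInstance, 1, 0, map_zero _⟩
  | tmul u z =>
    obtain ⟨g, rfl⟩ := ab_surj z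
    exact ⟨Unit, inferInstance, cy g, u ⊗ₜ ab (FreeGroup.of ()), by simp [tm_tmul, cy]⟩
  | add x y hx hy =>
    obtain ⟨X, _, π, ζ, rfl⟩ := hx
    obtain ⟨X', _, π', ζ', rfl⟩ := hy
    refine ⟨X ⊕ X', inferInstance, FreeGroup.lift (Sum.elim (fun x => π (.of x)) fun x => π' (.of x)),
      tm (FreeGroup.map Sum.inl) ζ + tm (FreeGroup.map Sum.inr) ζ', ?_⟩
    rw [map_add, tm_comp, tm_comp]
    congr 2 <;> congr 1 <;> ext x <;> simp

theorem big_all {X : Type} [Finite X] (g : X → G) : Big G fun H _ f => ∀ x, ∃ h, f h = g x := by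
  classical
  have := Fintype.ofFinite X
  exact ⟨Finset.univ.image g, fun H _ f _ h x => h _ (Finset.mem_image_of_mem _ (Finset.mem_univ x))⟩

/-- every finite subset lies in the image of an embedding of a group with the property -/
def Lcl (P : ∀ (H : Type) [Group H], Prop) (G : Type) [Group G] : Prop :=
  ∀ T : Finset G, ∃ (H : Type) (_ : Group H) (f : H →* G), Function.Injective f ∧
    (∀ g ∈ T, g ∈ f.range) ∧ P H

theorem Lcl.big {P : ∀ (H : Type) [Group H], Prop} (h : Lcl P G)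
    {p : ∀ (H : Type) [Group H], (H →* G) → Prop} (k : Big G p) :
    ∃ (H : Type) (_ : Group H) (f : H →* G), Function.Injective f ∧ P H ∧ p H f := by
  obtain ⟨T, hT⟩ := k
  obtain ⟨H, _, f, h1, h2, h3⟩ := h T
  exact ⟨H, inferInstance, f, h1, h3, hT H f h1 h2⟩

theorem Lcl.mono {P Q : ∀ (H : Type) [Group H], Prop} (h : Lcl P G)
    (k : ∀ (H : Type) [Group H], P H → Q H) : Lcl Q G := fun T => by
  obtain ⟨H, _, f, h1, h2, h3⟩ := h T
  exact ⟨H, inferInstance, f, h1, h2, k H h3⟩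

theorem Inj.lcl (h : Lcl (Inj hK η) G) : Inj hK η G := fun ξ e => by
  obtain ⟨X, _, π, ζ, rfl⟩ := tn_free ξ
  rw [← m1_asm] at e
  obtain ⟨H, _, f, -, h1, h2, h3⟩ := h.big ((big_all fun x => π (.of x)).and (big_ker _ e).prod)
  choose k hk using h2
  have e1 : f.comp (FreeGroup.lift k) = π := by
    ext x
    simp [hk]
  have := h3 (px K (FreeGroup.lift k)) (by rw [px_comp, e1])
  rw [m1_asm] at this
  rw [← e1, ← tm_comp, h1 _ this, map_zero]

theorem inj_of_tf (h : IsMulTorsionFree (Abelianization G)) : Inj hK η G := by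
  have h1 : Inj hK η (Abelianization G) := Inj.lcl fun T => by
    let N := Subgroup.closure (T : Set (Abelianization G))
    refine ⟨N, inferInstance, N.subtype, N.subtype_injective,
      fun g hg => ⟨⟨g, Subgroup.subset_closure hg⟩, rfl⟩, ?_⟩
    have : Group.FG N := (Group.fg_iff_subgroup_fg N).2 ⟨T, rfl⟩
    have : Module.Finite ℤ (Additive N) := Module.Finite.iff_addGroup_fg.2 inferInstance
    have : Module.Free ℤ (Ab N) := Module.Free.of_equiv
      (MulEquiv.toAdditive (Abelianization.equivOfComm (H := N))).toIntLinearEquiv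
    exact inj_of_free
  intro ξ e
  have := tn_ext (a := (MonoidHom.toAdditive (Abelianization.lift
    (MonoidHom.id (Abelianization G)))).toIntLinearMap.lTensor _ ∘ₗ tm Abelianization.of)
    (b := LinearMap.id) (fun _ _ => rfl) ξ
  rw [LinearMap.comp_apply, h1.tm _ e, map_zero] at this
  exact this.symm

end Pool.Agent.Work.MP_9d1ffa_al
end

-- merged part: Pool.Agent.Work.MP_9d1ffa_al.VLoss
section
/-! Reduction modulo a regular sequence. -/

namespace Pool.Agent.Work.MP_9d1ffa_al.VN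

open Matrix

set_option linter.unusedSectionVars false
set_option linter.unusedVariables false

variable {A R : Type} [CommRing A] [Ring R] [Algebra A R] {𝔭 𝔞 : Ideal A} [𝔭.IsPrime]
  {X : Cx R} {k a : ℤ} {n : ℕ}

/-- an element of the larger extended ideal -/
theorem im_sup {I : Type} {x : A} {v : I → R} (h : Im (𝔞 ⊔ Ideal.span {x}) v) :
    ∃ u : I → R, Im 𝔞 (v - x • u) := by
  have key : ∀ i, ∃ u : R, v i - x • u ∈ 𝔞 • (⊤ : Submodule A R) := fun i => by
    have hi := h i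
    rw [Submodule.sup_smul, Submodule.mem_sup] at hi
    obtain ⟨y, hy, z, hz, e⟩ := hi
    rw [Submodule.ideal_span_singleton_smul, Submodule.mem_smul_pointwise_iff_exists] at hz
    obtain ⟨u, -, rfl⟩ := hz
    exact ⟨u, by rw [← e, add_sub_cancel_right]; exact hy⟩
  choose u hu using key
  exact ⟨u, hu⟩

theorem sp_zero (f : ℕ → A) : sp f 0 = ⊥ := by
  simp [sp]

theorem sp_succ (f : ℕ → A) (i : ℕ) : sp f (i + 1) = sp f i ⊔ Ideal.span {f i} := by
  unfold sp
  rw [← Ideal.span_union, ← Set.image_singleton, ← Set.image_union]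
  congr 2
  ext j
  simp only [Set.mem_Iio, Set.mem_union, Set.mem_singleton_iff]
  omega

theorem vLoss_nm {s t : A} (hs : s ∉ 𝔭) (ht : t ∉ 𝔭) : s * t ∉ 𝔭 := fun e =>
  (Ideal.IsPrime.mem_or_mem inferInstance e).elim hs ht

theorem vLoss_dd (v : X.I → R) : (v ᵥ* X.d) ᵥ* X.d = 0 := by
  rw [vecMul_vecMul, X.dd, vecMul_zero]

/-- a common denominator for the entries of a vector -/
theorem vLoss_common {I : Type} [Finite I] {v : I → R}
    (h : ∀ i, ∃ s ∉ 𝔭, s • v i ∈ 𝔞 • (⊤ : Submodule A R)) : ∃ s ∉ 𝔭, Im 𝔞 (s • v) :=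
  exists_common (C := fun i s => s • v i ∈ 𝔞 • (⊤ : Submodule A R))
    (fun i s t e => by rw [mul_smul]; exact Submodule.smul_mem _ t e) h

theorem vLoss_hom {s : A} {v w : X.I → R} (hv : Vd X.p k v) (hw : Im 𝔞 (s • v - w ᵥ* X.d)) :
    ∃ w, Vd X.p (k + 1) w ∧ Im 𝔞 (s • v - w ᵥ* X.d) := by
  refine ⟨pj X.p (k + 1) w, vd_pj w, ?_⟩
  have := hw.pj X.p k
  rwa [pj_sub, pj_smul, hv.pj_eq, pj_vecMul w X.hd (k := k + 1) (by omega)] at this

/-- One step. Let `v d = x u` modulo `𝔞` with `u` of degree `k - 1` (`pj`). Then `x (u d) = 0`, so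
`s (u d) = 0` (`exists_common`), `s' s u = w d`, and `s' s v - x w` is a cycle modulo `𝔞`. -/
theorem loss_step {x : A} (hx : ∀ r : R, x • r ∈ 𝔞 • (⊤ : Submodule A R) →
      ∃ s ∉ 𝔭, s • r ∈ 𝔞 • (⊤ : Submodule A R))
    (h : At 𝔭 𝔞 X k) (h' : At 𝔭 𝔞 X (k - 1)) : At 𝔭 (𝔞 ⊔ Ideal.span {x}) X k := by
  intro v hv e
  obtain ⟨u0, hu0⟩ := im_sup e
  have hvd : Vd X.p (k - 1) (v ᵥ* X.d) := hv.vecMul X.hd (by omega)
  have hu := hu0.pj X.p (k - 1)
  rw [pj_sub, pj_smul, hvd.pj_eq] at hu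
  have hud : Vd X.p (k - 1) (pj X.p (k - 1) u0) := vd_pj _
  generalize pj X.p (k - 1) u0 = u at hu hud
  have h1 : Im 𝔞 (x • (u ᵥ* X.d)) := by
    have := (hu.vecMul X.d).neg
    rwa [sub_vecMul, vLoss_dd, smul_vecMul, zero_sub, neg_neg] at this
  obtain ⟨s, hs, h2⟩ := vLoss_common (𝔭 := 𝔭) (v := u ᵥ* X.d) fun i => hx _ (h1 i)
  rw [← smul_vecMul] at h2
  obtain ⟨s', hs', w, hw, h3⟩ := h'.hom (hud.smul s) h2
  rw [sub_add_cancel] at hw
  have h4 : Im 𝔞 (((s' * s) • v - x • w) ᵥ* X.d) := by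
    have := (hu.smul (s' * s)).add (h3.smul x)
    convert this using 1
    rw [sub_vecMul, smul_vecMul, smul_vecMul]
    module
  obtain ⟨t, ht, w', h5⟩ := h _ ((hv.smul _).sub (hw.smul x)) h4
  refine ⟨t * (s' * s), vLoss_nm ht (vLoss_nm hs' hs), w', ?_⟩
  have h6 : Im (𝔞 ⊔ Ideal.span {x}) ((t * x) • w) :=
    im_smul (Ideal.mul_mem_left _ _ (Ideal.mem_sup_right (Ideal.mem_span_singleton_self x))) w
  have := (h5.mono le_sup_left).add h6
  convert this using 1
  module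

theorem vLoss_loc (h2 : ∀ a ∈ 𝔭, ∃ s ∉ 𝔭, s * a ∈ 𝔞) {r : R}
    (hr : r ∈ 𝔭 • (⊤ : Submodule A R)) : ∃ s ∉ 𝔭, s • r ∈ 𝔞 • (⊤ : Submodule A R) := by
  refine Submodule.smul_induction_on hr (fun a ha y _ => ?_) fun y z hy hz => ?_
  · obtain ⟨s, hs, e⟩ := h2 a ha
    exact ⟨s, hs, by rw [← mul_smul]; exact Submodule.smul_mem_smul e Submodule.mem_top⟩
  · obtain ⟨s, hs, e⟩ := hy
    obtain ⟨t, ht, e'⟩ := hz
    refine ⟨s * t, vLoss_nm hs ht, ?_⟩
    have : (s * t) • (y + z) = t • s • y + s • t • z := by module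
    rw [this]
    exact add_mem (Submodule.smul_mem _ _ e) (Submodule.smul_mem _ _ e')

/-- ideals that agree locally give the same notion -/
theorem at_congr (h1 : 𝔞 ≤ 𝔭) (h2 : ∀ a ∈ 𝔭, ∃ s ∉ 𝔭, s * a ∈ 𝔞) :
    At 𝔭 𝔞 X k ↔ At 𝔭 𝔭 X k := by
  constructor
  · intro h v hv e
    obtain ⟨s, hs, h3⟩ := vLoss_common (𝔭 := 𝔭) (𝔞 := 𝔞) fun i => vLoss_loc h2 (e i)
    rw [← smul_vecMul] at h3
    obtain ⟨t, ht, w, h4⟩ := h _ (hv.smul s) h3
    exact ⟨t * s, vLoss_nm ht hs, w, by rw [mul_smul]; exact h4.mono h1⟩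
  · intro h v hv e
    obtain ⟨s, hs, w, h3⟩ := h v hv (e.mono h1)
    obtain ⟨t, ht, h4⟩ := vLoss_common (𝔭 := 𝔭) (𝔞 := 𝔞) fun i => vLoss_loc h2 (h3 i)
    refine ⟨t * s, vLoss_nm ht hs, t • w, ?_⟩
    rwa [mul_smul, smul_vecMul, ← smul_sub]

theorem vLoss_ind {f : ℕ → A}
    (h2 : ∀ i < n, ∀ r : R, f i • r ∈ sp f i • (⊤ : Submodule A R) →
      ∃ s ∉ 𝔭, s • r ∈ sp f i • (⊤ : Submodule A R))
    (h : ∀ j, a < j → At 𝔭 ⊥ X j) (i : ℕ) (hi : i ≤ n) :
    ∀ j : ℤ, a + i < j → At 𝔭 (sp f i) X j := by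
  induction i with
  | zero => intro j hj; rw [sp_zero]; exact h j (by simpa using hj)
  | succ i ih =>
    intro j hj
    rw [sp_succ]
    push_cast at hj
    exact loss_step (h2 i (by omega)) (ih (by omega) j (by omega)) (ih (by omega) _ (by omega))

theorem vLoss_le {f : ℕ → A} (h1 : ∀ i < n, f i ∈ 𝔭) : sp f n ≤ 𝔭 := by
  unfold sp
  rw [Ideal.span_le]
  rintro _ ⟨i, hi, rfl⟩
  exact h1 i hi

/-- induction on `i ≤ n`: `At 𝔭 (sp f i) X j` for `j > a + i` -/
theorem loss (hs : Seq R 𝔭 n) (h : ∀ j, a < j → At 𝔭 ⊥ X j) (j : ℤ) (hj : a + n < j) :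
    At 𝔭 𝔭 X j := by
  obtain ⟨f, h1, h2, h3⟩ := hs
  exact (at_congr (vLoss_le h1) h3).1 (vLoss_ind h2 h n le_rfl j hj)

/-- Induction on `i ≤ n`: there is `v` of degree `k + i` with `v d = 0` modulo `sp f i`, such that
`s v` is never a boundary modulo `sp f i` for `s ∉ 𝔭`, while for every `a ∈ 𝔭` some `s a v`,
`s ∉ 𝔭`, is. Step: `s (f i) v = w d` modulo `sp f i` with `w` homogeneous; take `w`. If
`t w - w' d = (f i) u` then `(f i) (t s v - u d) = 0`, contradiction by regularity. If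
`s₁ a v = w₁ d` then `s₁ a w - s (f i) w₁` is a cycle modulo `sp f i` of degree `k + i + 1`, where
`At 𝔭 (sp f i)` holds as in the proof of `loss`. -/
theorem costalk (hs : Seq R 𝔭 n) (h : ∀ j, k < j → At 𝔭 ⊥ X j) {v : X.I → R} (hv : Vd X.p k v)
    (h0 : v ᵥ* X.d = 0) (h1 : ∀ a : A, (∃ w, w ᵥ* X.d = a • v) ↔ a ∈ 𝔭) :
    ¬ At 𝔭 𝔭 X (k + n) := by
  obtain ⟨f, g1, g2, g3⟩ := hs
  have key : ∀ i ≤ n, ∃ v : X.I → R, Vd X.p (k + i) v ∧ Im (sp f i) (v ᵥ* X.d) ∧
      (∀ s ∉ 𝔭, ∀ w, ¬ Im (sp f i) (s • v - w ᵥ* X.d)) ∧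
      ∀ a ∈ 𝔭, ∃ s ∉ 𝔭, ∃ w, Im (sp f i) ((s * a) • v - w ᵥ* X.d) := by
    intro i
    induction i with
    | zero =>
      intro _
      refine ⟨v, by simpa using hv, by rw [h0]; exact im_zero, fun s hs w e => hs ?_,
        fun a ha => ?_⟩
      · rw [sp_zero, im_bot, sub_eq_zero] at e
        exact (h1 s).1 ⟨w, e.symm⟩
      · obtain ⟨w, e⟩ := (h1 a).2 ha
        exact ⟨1, (Ideal.ne_top_iff_one _).1 (Ideal.IsPrime.ne_top inferInstance), w, by
          rw [one_mul, e, sub_self]; exact im_zero⟩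
    | succ i ih =>
      intro hi
      obtain ⟨v, hv, e0, e1, e2⟩ := ih (by omega)
      obtain ⟨s, hs, w0, hw0⟩ := e2 (f i) (g1 i (by omega))
      obtain ⟨w, hw, e3⟩ := vLoss_hom hv hw0
      have hle : sp f i ≤ sp f (i + 1) := by rw [sp_succ]; exact le_sup_left
      have hf : f i ∈ sp f (i + 1) := by
        rw [sp_succ]; exact Ideal.mem_sup_right (Ideal.mem_span_singleton_self _)
      refine ⟨w, by push_cast; rwa [← add_assoc], ?_, fun t ht w' e => ?_, fun a ha => ?_⟩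
      · have := (im_smul (Ideal.mul_mem_left _ s hf) v).sub (e3.mono hle)
        rwa [sub_sub_cancel] at this
      · rw [sp_succ] at e
        obtain ⟨u, hu⟩ := im_sup e
        have e4 : Im (sp f i) (f i • ((t * s) • v - u ᵥ* X.d)) := by
          have := (hu.vecMul X.d).add (e3.smul t)
          rw [sub_vecMul, sub_vecMul, vLoss_dd, smul_vecMul, smul_vecMul] at this
          convert this using 1
          module
        obtain ⟨r, hr, e5⟩ := vLoss_common (𝔭 := 𝔭) (v := (t * s) • v - u ᵥ* X.d)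
          fun j => g2 i (by omega) _ (e4 j)
        refine e1 (r * (t * s)) (vLoss_nm hr (vLoss_nm ht hs)) (r • u) ?_
        rwa [mul_smul r, smul_vecMul, ← smul_sub]
      · obtain ⟨s₁, hs₁, w2, hw2⟩ := e2 a ha
        obtain ⟨w₁, hw₁, e4⟩ := vLoss_hom hv hw2
        have e5 : Im (sp f i) (((s₁ * a) • w - (s * f i) • w₁) ᵥ* X.d) := by
          have := (e4.smul (s * f i)).sub (e3.smul (s₁ * a))
          convert this using 1
          rw [sub_vecMul, smul_vecMul, smul_vecMul]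
          module
        obtain ⟨t, ht, w'', e6⟩ := vLoss_ind g2 h i (by omega) (k + i + 1) (by omega) _
          ((hw.smul _).sub (hw₁.smul _)) e5
        refine ⟨t * s₁, vLoss_nm ht hs₁, w'', ?_⟩
        have := (e6.mono hle).add (im_smul (Ideal.mul_mem_left _ (t * s) hf) w₁)
        convert this using 1
        module
  intro hA
  obtain ⟨v, hv, e0, e1, -⟩ := key n le_rfl
  obtain ⟨s, hs, w, e⟩ := (at_congr (vLoss_le g1) g3).2 hA v hv e0
  exact e1 s hs w e

end Pool.Agent.Work.MP_9d1ffa_al.VN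
end

-- merged part: Pool.Agent.Work.MP_9d1ffa_al.VGood
section
-- merged part: Pool.Agent.Work.MP_9d1ffa_al.VNak
section
/-! Associated primes and a form of the lemma of Nakayama. -/

namespace Pool.Agent.Work.MP_9d1ffa_al.VN

open Matrix

set_option linter.unusedSectionVars false
set_option linter.unusedVariables false

variable {A R : Type} [CommRing A] [Ring R] [Algebra A R] {X : Cx R} {k : ℤ}

variable (A) in
/-- the scalars that make a vector a boundary -/
def VNak_ann (X : Cx R) (v : X.I → R) : Ideal A where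
  carrier := {a | ∃ w, w ᵥ* X.d = a • v}
  add_mem' := by
    rintro a b ⟨w, hw⟩ ⟨w', hw'⟩
    exact ⟨w + w', by rw [add_vecMul, hw, hw', add_smul]⟩
  zero_mem' := ⟨0, by rw [zero_vecMul, zero_smul]⟩
  smul_mem' := by
    rintro c a ⟨w, hw⟩
    exact ⟨c • w, by rw [smul_vecMul, hw, smul_eq_mul, mul_smul]⟩

/-- the cycles of degree `k` -/
def VNak_Z (X : Cx R) (k : ℤ) : Submodule R (X.I → R) where
  carrier := {v | Vd X.p k v ∧ v ᵥ* X.d = 0}
  add_mem' := by
    rintro a b ⟨h1, h2⟩ ⟨h3, h4⟩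
    exact ⟨h1.add h3, by rw [add_vecMul, h2, h4, add_zero]⟩
  zero_mem' := ⟨vd_zero, zero_vecMul _⟩
  smul_mem' := by
    rintro c a ⟨h1, h2⟩
    exact ⟨h1.smul c, by rw [smul_vecMul, h2, smul_zero]⟩

/-- the abstract form of the argument -/
theorem VNak_zorn {M : Type} [AddCommGroup M] [Module R M] [Module A M] [IsScalarTower A R M]
    (𝔭 : Ideal A) (Z F N₀ : Submodule R M) (hF : F.FG) {s : A} (hs : s ∉ 𝔭)
    (hFZ : F ≤ Z) (hZF : ∀ v ∈ Z, s • v ∈ F) (h1 : N₀ ≤ Z) (h2 : ¬ Z ≤ N₀)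
    (h3 : ∀ t ∉ 𝔭, ∀ v ∈ Z, t • v ∈ N₀ → v ∈ N₀) :
    ∃ (N : Submodule R M) (𝔮 : Ideal A), N₀ ≤ N ∧ ¬ Z ≤ N ∧ 𝔮.IsPrime ∧ 𝔮 ≤ 𝔭 ∧
      (∀ a ∈ 𝔮, ∀ v ∈ Z, a • v ∈ N) ∧ ∀ a ∉ 𝔮, ∀ v ∈ Z, a • v ∈ N → v ∈ N := by
  have : SMulCommClass A R M := IsScalarTower.to_smulCommClass
  let S : Set (Submodule R M) :=
    {N | N ≤ Z ∧ ¬ Z ≤ N ∧ ∀ t ∉ 𝔭, ∀ v ∈ Z, t • v ∈ N → v ∈ N}
  obtain ⟨N, hN, hm⟩ := zorn_le_nonempty₀ S (fun c hc hch y hy => by
    refine ⟨sSup c, ⟨sSup_le fun N hN => (hc hN).1, fun h => ?_, fun t ht v hv h => ?_⟩,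
      fun z hz => le_sSup hz⟩
    · obtain ⟨N, hN, h⟩ := (CompleteLattice.isCompactElement_iff_le_of_directed_sSup_le _ F).1
        ((Submodule.fg_iff_compact F).1 hF) c ⟨y, hy⟩ hch.directedOn (hFZ.trans h)
      exact (hc hN).2.1 fun v hv => (hc hN).2.2 s hs v hv (h (hZF v hv))
    · obtain ⟨N, hN, h⟩ := (Submodule.mem_sSup_of_directed ⟨y, hy⟩ hch.directedOn).1 h
      exact le_sSup (s := c) hN ((hc hN).2.2 t ht v hv h)) N₀ ⟨h1, h2, h3⟩
  obtain ⟨g1, g2, g3⟩ := hm.prop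
  let 𝔮 : Ideal A :=
    { carrier := {a | ∀ v ∈ Z, a • v ∈ N}
      add_mem' := fun {a b} ha hb v hv => by
        rw [add_smul]
        exact add_mem (ha v hv) (hb v hv)
      zero_mem' := fun v hv => by
        rw [zero_smul]
        exact zero_mem _
      smul_mem' := fun c a ha v hv => by
        rw [smul_eq_mul, mul_smul]
        exact N.smul_of_tower_mem c (ha v hv) }
  have key : ∀ a ∉ 𝔮, ∀ v ∈ Z, a • v ∈ N → v ∈ N := by
    intro a ha v hv h
    let N' : Submodule R M :=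
      { carrier := {v | v ∈ Z ∧ a • v ∈ N}
        add_mem' := fun {x y} hx hy => ⟨add_mem hx.1 hy.1, by
          rw [smul_add]
          exact add_mem hx.2 hy.2⟩
        zero_mem' := ⟨zero_mem _, by
          rw [smul_zero]
          exact zero_mem _⟩
        smul_mem' := fun c x hx => ⟨Z.smul_mem c hx.1, by
          rw [smul_comm]
          exact N.smul_mem c hx.2⟩ }
    have hS : N' ∈ S := by
      refine ⟨fun x hx => hx.1, fun h => ha fun x hx => (h hx).2, fun t ht x hx h => ⟨hx, ?_⟩⟩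
      refine g3 t ht _ (Z.smul_of_tower_mem a hx) ?_
      rw [smul_comm]
      exact h.2
    exact hm.le_of_ge hS (fun x hx => ⟨g1 hx, N.smul_of_tower_mem a hx⟩) ⟨hv, h⟩
  refine ⟨N, 𝔮, hN, g2, ⟨?_, fun {a b} hab => ?_⟩, fun a ha => ?_, fun a ha => ha, key⟩
  · rw [Ideal.ne_top_iff_one]
    exact fun h => g2 fun v hv => by simpa using h v hv
  · by_cases ha : a ∈ 𝔮
    · exact Or.inl ha
    · refine Or.inr fun v hv => key a ha _ (Z.smul_of_tower_mem b hv) ?_
      rw [← mul_smul]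
      exact hab v hv
  · by_contra h
    exact g2 fun v hv => g3 a h v hv (ha v hv)

/-- Among the ideals `{a | a • v is a boundary}`, for cycles `v` of degree `k` that are not
boundaries, a maximal one is prime. -/
theorem ass [IsNoetherianRing A] (h : ¬ Ex X k) : ∃ 𝔭 : Ideal A, 𝔭.IsPrime ∧
    ∃ v, Vd X.p k v ∧ v ᵥ* X.d = 0 ∧ ∀ a : A, (∃ w, w ᵥ* X.d = a • v) ↔ a ∈ 𝔭 := by
  simp only [Ex, not_forall] at h
  obtain ⟨v₀, h1, h2, h3⟩ := h
  obtain ⟨𝔭, ⟨v, g1, g2, g3, rfl⟩, hm⟩ := exists_maximal_of_wellFoundedGT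
    (fun I : Ideal A => ∃ v, Vd X.p k v ∧ v ᵥ* X.d = 0 ∧ (¬ ∃ w, w ᵥ* X.d = v) ∧
      I = VNak_ann A X v) ⟨_, v₀, h1, h2, h3, rfl⟩
  refine ⟨VNak_ann A X v, ⟨?_, fun {a b} hab => ?_⟩, v, g1, g2, fun a => Iff.rfl⟩
  · rw [Ideal.ne_top_iff_one]
    rintro ⟨w, hw⟩
    exact g3 ⟨w, by rw [hw, one_smul]⟩
  · by_cases hb : b ∈ VNak_ann A X v
    · exact Or.inr hb
    · refine Or.inl (hm (y := VNak_ann A X (b • v))
        ⟨b • v, g1.smul b, by rw [smul_vecMul, g2, smul_zero], hb, rfl⟩ ?_ ?_)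
      · rintro c ⟨w, hw⟩
        exact ⟨b • w, by rw [smul_vecMul, hw, smul_comm]⟩
      · obtain ⟨w, hw⟩ := hab
        exact ⟨w, by rw [hw, mul_smul]⟩

theorem ex_of_at [IsNoetherianRing A] (h : ∀ 𝔭 : Ideal A, 𝔭.IsPrime → At 𝔭 ⊥ X k) : Ex X k := by
  by_contra hc
  obtain ⟨𝔭, hp, v, h1, h2, h3⟩ := ass (A := A) hc
  obtain ⟨s, hs, w, hw⟩ := h 𝔭 hp v h1 (im_bot.2 h2)
  exact hs ((h3 s).1 ⟨w, (sub_eq_zero.1 (im_bot.1 hw)).symm⟩)

/-- Take `s ∉ 𝔭`, `h` from `contr` and `E = s • 1 - d h`. For `u` of degree `k` the vector `u E`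
is a cycle of degree `k`, and `v E = s • v` for a cycle `v` of degree `k`. Let `Z` be the
`R`-submodule of the cycles of degree `k`, and suppose the claim fails. By the lemma of Zorn there
is a submodule `N`, maximal among those with `N ≤ Z`, `N ≠ Z`, containing the boundaries of degree
`k` and saturated (`t • v ∈ N`, `t ∉ 𝔭`, `v ∈ Z` imply `v ∈ N`); for chains use the finitely many
rows of degree `k` of `E`. Let `𝔮 = {a | a Z ⊆ N}`. Then `𝔮 ≤ 𝔭`, and for `a ∉ 𝔮` maximality gives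
`a • v ∈ N → v ∈ N`, so `𝔮` is prime. For `v ∈ Z`, if `u = t • v - w d` has entries in the
extension of `𝔮` then `s • u = u E ∈ N`, so `v ∈ N`. -/
theorem nak {𝔭 : Ideal A} [𝔭.IsPrime] (h : ∀ j, j < k → At 𝔭 ⊥ X j)
    (h' : ∀ 𝔮 : Ideal A, 𝔮.IsPrime → 𝔮 ≤ 𝔭 → At 𝔮 𝔮 X k) : At 𝔭 ⊥ X k := by
  obtain ⟨s, hs, m, hm, e⟩ := contr 𝔭.primeCompl X k fun j hj => at_bot.1 (h j hj)
  set E : Matrix X.I X.I R := s • (1 : Matrix X.I X.I R) - X.d * m with hE
  have hEd : Hg 0 X.p X.p E := (hg_one.smul s).sub (X.hd.mul hm (by simp))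
  have e1 : ∀ u, Vd X.p k u → u ᵥ* E ∈ VNak_Z X k := by
    intro u hu
    refine ⟨hu.vecMul hEd (by simp), ?_⟩
    have hy : Vd X.p (k - 1) (u ᵥ* X.d) := hu.vecMul X.hd (by omega)
    have a1 : (u ᵥ* X.d) ᵥ* (X.d * m + m * X.d) = (u ᵥ* X.d) ᵥ* (s • (1 : Matrix X.I X.I R)) := by
      rw [vecMul_eq_sum, vecMul_eq_sum (u ᵥ* X.d)]
      refine Finset.sum_congr rfl fun i _ => ?_
      by_cases c : (u ᵥ* X.d) i = 0
      · rw [c, zero_smul, zero_smul]
      · rw [e i (by have := hy i c; omega)]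
    rw [vecMul_add, vecMul_vecMul, ← Matrix.mul_assoc, X.dd, Matrix.zero_mul, vecMul_zero,
      zero_add, vecMul_smul, vecMul_one] at a1
    rw [hE, vecMul_sub, sub_vecMul, vecMul_smul, vecMul_one, smul_vecMul, ← a1, vecMul_vecMul,
      vecMul_vecMul, Matrix.mul_assoc, sub_self]
  have e2 : ∀ v ∈ VNak_Z X k, v ᵥ* E = s • v := by
    intro v hv
    rw [hE, vecMul_sub, vecMul_smul, vecMul_one, ← vecMul_vecMul, hv.2, zero_vecMul, sub_zero]
  have e3 : ∀ i, X.p i = k → E i ∈ VNak_Z X k := by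
    intro i hi
    have := e1 ((1 : Matrix X.I X.I R) i) (by simpa [hi] using (hg_one (S := R) (p := X.p)).row i)
    rwa [show (1 : Matrix X.I X.I R) i ᵥ* E = ((1 : Matrix X.I X.I R) * E) i from rfl, Matrix.one_mul] at this
  by_contra hc
  let N₀ : Submodule R (X.I → R) :=
    { carrier := {v | v ∈ VNak_Z X k ∧ ∃ t ∉ 𝔭, ∃ w, w ᵥ* X.d = t • v}
      add_mem' := by
        rintro x y ⟨hx, t, ht, w, hw⟩ ⟨hy, t', ht', w', hw'⟩
        refine ⟨add_mem hx hy, t * t', 𝔭.primeCompl.mul_mem ht ht', t' • w + t • w', ?_⟩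
        rw [add_vecMul, smul_vecMul, smul_vecMul, hw, hw', smul_add, smul_smul, smul_smul,
          mul_comm t' t]
      zero_mem' := ⟨zero_mem _, s, hs, 0, by rw [zero_vecMul, smul_zero]⟩
      smul_mem' := by
        rintro c x ⟨hx, t, ht, w, hw⟩
        exact ⟨Submodule.smul_mem _ c hx, t, ht, c • w, by rw [smul_vecMul, hw, smul_comm]⟩ }
  obtain ⟨N, 𝔮, g1, g2, g3, g4, g5, g6⟩ := VNak_zorn 𝔭 (VNak_Z X k)
    (Submodule.span R (E.row '' {i | X.p i = k})) N₀
    (Submodule.fg_span ((Set.toFinite _).image _)) hs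
    (Submodule.span_le.2 (by rintro _ ⟨i, hi, rfl⟩; exact e3 i hi))
    (fun v hv => by
      rw [← e2 v hv, vecMul_eq_sum]
      refine sum_mem fun i _ => ?_
      by_cases c : v i = 0
      · rw [c, zero_smul]
        exact zero_mem _
      · exact Submodule.smul_mem _ _ (Submodule.subset_span ⟨i, hv.1 i c, rfl⟩))
    (fun v hv => hv.1)
    (fun hZ => hc fun v hv h0 => by
      obtain ⟨-, t, ht, w, hw⟩ := hZ (show v ∈ VNak_Z X k from ⟨hv, im_bot.1 h0⟩)
      exact ⟨t, ht, w, im_bot.2 (by rw [hw, sub_self])⟩)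
    (by
      rintro t ht v hv ⟨-, t', ht', w, hw⟩
      exact ⟨hv, t' * t, 𝔭.primeCompl.mul_mem ht' ht, w, by rw [hw, mul_smul]⟩)
  refine g2 fun v hv => ?_
  obtain ⟨t, ht, w, hw, hu⟩ := (h' 𝔮 g3 g4).hom hv.1 (by rw [hv.2]; exact im_zero)
  have b1 : w ᵥ* X.d ∈ VNak_Z X k :=
    ⟨hw.vecMul X.hd (by omega), by rw [vecMul_vecMul, X.dd, vecMul_zero]⟩
  have b2 : t • v - w ᵥ* X.d ∈ VNak_Z X k := sub_mem (Submodule.smul_of_tower_mem _ t hv) b1
  have b3 : s • (t • v - w ᵥ* X.d) ∈ N := by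
    rw [← e2 _ b2, vecMul_eq_sum]
    refine sum_mem fun i _ => ?_
    by_cases c : (t • v - w ᵥ* X.d) i = 0
    · rw [c, zero_smul]
      exact zero_mem _
    · have hz := e3 i (b2.1 i c)
      refine Submodule.smul_induction_on (p := fun r => r • E i ∈ N) (hu i)
        (fun a ha y _ => ?_) fun x y hx hy => ?_
      · rw [smul_assoc]
        exact g5 a ha _ (Submodule.smul_mem _ y hz)
      · rw [add_smul]
        exact add_mem hx hy
  have b4 := g6 s (fun a => hs (g4 a)) _ b2 b3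
  have b5 : w ᵥ* X.d ∈ N := g1 ⟨b1, s, hs, s • w, smul_vecMul _ _ _⟩
  exact g6 t ht v hv (by simpa using add_mem b4 b5)

/-- upward induction from below all degrees -/
theorem nak_all {𝔭 : Ideal A} [𝔭.IsPrime] {b : ℤ}
    (h : ∀ 𝔮 : Ideal A, 𝔮.IsPrime → 𝔮 ≤ 𝔭 → ∀ j, j < b → At 𝔮 𝔮 X j) (j : ℤ) (hj : j < b) :
    At 𝔭 ⊥ X j := by
  obtain ⟨N, hN⟩ := exists_bound X.p
  have key : ∀ n : ℕ, ∀ j : ℤ, j < -N + n → j < b → At 𝔭 ⊥ X j := by
    intro n
    induction n with
    | zero =>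
      intro j h1 _
      exact (ex_of_ne fun i e => by have := hN i; omega).at_bot
    | succ n ih =>
      intro j h1 h2
      exact nak (fun j' hj' => ih j' (by omega) (by omega)) fun 𝔮 a b => h 𝔮 a b j h2
  exact key (j + N + 1).toNat j (by omega) hj

end Pool.Agent.Work.MP_9d1ffa_al.VN
end

-- merged part: Pool.Agent.Work.MP_9d1ffa_al.VHer
section
/-! Group algebras of free groups over fields are hereditary. -/

namespace Pool.Agent.Work.MP_9d1ffa_al.VN

open Matrix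

set_option linter.unusedSectionVars false
set_option linter.unusedVariables false

section Free

variable {k S B U P : Type} [Field k] [Ring S] [Algebra k S]
  [AddCommGroup B] [Module k B] [Module S B] [IsScalarTower k S B]
  [AddCommGroup U] [Module k U] [Module S U] [IsScalarTower k S U]
  [AddCommGroup P] [Module k P] [Module S P] [IsScalarTower k S P]

/-- the endomorphism `T` is adapted to the scalar `s` -/
structure VHerGood (j : U →ₗ[S] P) (q : B →ₗ[S] U) (r : P →ₗ[k] U) (s : S)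
    (T : Module.End k (B × P)) : Prop where
  snd : ∀ z, (T z).2 = s • z.2
  fib : ∀ z, q z.1 = r z.2 → q (T z).1 = r (s • z.2)
  sub : ∀ z u, z.2 = j u → (T z).1 = s • z.1

variable {j : U →ₗ[S] P} {q : B →ₗ[S] U} {r : P →ₗ[k] U} {s t : S} {T T' : Module.End k (B × P)}

theorem VHerGood.one : VHerGood j q r 1 1 :=
  ⟨fun z => (one_smul _ _).symm, fun z h => by rwa [one_smul], fun z _ _ => (one_smul _ _).symm⟩

theorem VHerGood.mul (h : VHerGood j q r s T) (h' : VHerGood j q r t T') :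
    VHerGood j q r (s * t) (T * T') where
  snd z := by rw [Module.End.mul_apply, h.snd, h'.snd, mul_smul]
  fib z e := by
    rw [Module.End.mul_apply, h.fib _ (by rw [h'.fib z e, h'.snd]), h'.snd, mul_smul]
  sub z u e := by
    rw [Module.End.mul_apply, h.sub _ (t • u) (by rw [h'.snd, e, map_smul]), h'.sub z u e, mul_smul]

theorem VHerGood.add (h : VHerGood j q r s T) (h' : VHerGood j q r t T') :
    VHerGood j q r (s + t) (T + T') where
  snd z := by rw [LinearMap.add_apply, Prod.snd_add, h.snd, h'.snd, add_smul]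
  fib z e := by
    rw [LinearMap.add_apply, Prod.fst_add, map_add, h.fib z e, h'.fib z e, add_smul, map_add]
  sub z u e := by rw [LinearMap.add_apply, Prod.fst_add, h.sub z u e, h'.sub z u e, add_smul]

theorem VHerGood.smul (h : VHerGood j q r s T) (c : k) : VHerGood j q r (c • s) (c • T) where
  snd z := by rw [LinearMap.smul_apply, Prod.smul_snd, h.snd, smul_assoc]
  fib z e := by
    rw [LinearMap.smul_apply, Prod.smul_fst, LinearMap.map_smul_of_tower, h.fib z e, smul_assoc,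
      map_smul r]
  sub z u e := by rw [LinearMap.smul_apply, Prod.smul_fst, h.sub z u e, smul_assoc]

theorem VHer_unit (hr : ∀ u, r (j u) = u) (σ : U →ₗ[k] B) (hσ : ∀ u, q (σ u) = u)
    (h1 : s * t = 1) (h2 : t * s = 1) : ∃ T : (Module.End k (B × P))ˣ,
      VHerGood j q r s (T : Module.End k (B × P)) ∧
        VHerGood j q r t ((T⁻¹ : (Module.End k (B × P))ˣ) : Module.End k (B × P)) := by
  obtain ⟨T, hT⟩ : ∃ T : Module.End k (B × P),
      ∀ z, T z = (s • z.1 + σ (r (s • z.2) - s • r z.2), s • z.2) :=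
    ⟨LinearMap.prod (Algebra.lsmul k k B s ∘ₗ LinearMap.fst k B P +
      σ ∘ₗ (r ∘ₗ Algebra.lsmul k k P s - Algebra.lsmul k k U s ∘ₗ r) ∘ₗ LinearMap.snd k B P)
      (Algebra.lsmul k k P s ∘ₗ LinearMap.snd k B P), fun _ => rfl⟩
  obtain ⟨T', hT'⟩ : ∃ T : Module.End k (B × P),
      ∀ z, T z = (t • (z.1 - σ (r z.2 - s • r (t • z.2))), t • z.2) :=
    ⟨LinearMap.prod (Algebra.lsmul k k B t ∘ₗ (LinearMap.fst k B P -
      σ ∘ₗ (r - Algebra.lsmul k k U s ∘ₗ r ∘ₗ Algebra.lsmul k k P t) ∘ₗ LinearMap.snd k B P))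
      (Algebra.lsmul k k P t ∘ₗ LinearMap.snd k B P), fun _ => rfl⟩
  refine ⟨⟨T, T', LinearMap.ext fun z => ?_, LinearMap.ext fun z => ?_⟩,
    ⟨fun z => ?_, fun z e => ?_, fun z u e => ?_⟩, ⟨fun z => ?_, fun z e => ?_, fun z u e => ?_⟩⟩
  · rw [Module.End.mul_apply, hT', hT]
    simp only [smul_smul, h1, one_smul, sub_add_cancel, Module.End.one_apply]
  · rw [Module.End.mul_apply, hT, hT']
    simp only [smul_smul, h2, one_smul, add_sub_cancel_right, Module.End.one_apply]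
  · exact congrArg Prod.snd (hT z)
  · change q (T z).1 = _
    rw [hT, map_add, map_smul, hσ, e, add_sub_cancel]
  · change (T z).1 = _
    rw [hT, e, ← map_smul j, hr, hr, sub_self, map_zero, add_zero]
  · exact congrArg Prod.snd (hT' z)
  · change q (T' z).1 = _
    rw [hT', map_smul, map_sub, hσ, e, sub_sub_cancel, smul_smul, h2, one_smul]
  · change (T' z).1 = _
    rw [hT', e, ← map_smul j, hr, hr, smul_smul, h1, one_smul, sub_self, map_zero, sub_zero]

end Free

theorem VHer_sec {k X B U I : Type} [Field k] [Fintype I]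
    [AddCommGroup B] [Module k B] [Module (MonoidAlgebra k (FreeGroup X)) B]
    [IsScalarTower k (MonoidAlgebra k (FreeGroup X)) B]
    [AddCommGroup U] [Module k U] [Module (MonoidAlgebra k (FreeGroup X)) U]
    [IsScalarTower k (MonoidAlgebra k (FreeGroup X)) U]
    (j : U →ₗ[MonoidAlgebra k (FreeGroup X)] (I → MonoidAlgebra k (FreeGroup X)))
    (hj : Function.Injective j) (q : B →ₗ[MonoidAlgebra k (FreeGroup X)] U)
    (hq : Function.Surjective q) :
    ∃ s : U →ₗ[MonoidAlgebra k (FreeGroup X)] B, ∀ u, q (s u) = u := by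
  classical
  obtain ⟨r, hr⟩ := (j.restrictScalars k).exists_leftInverse_of_injective
    (LinearMap.ker_eq_bot.2 hj)
  obtain ⟨σ, hσ⟩ := (q.restrictScalars k).exists_rightInverse_of_surjective
    (LinearMap.range_eq_top.2 hq)
  have hr : ∀ u, r (j u) = u := fun u => LinearMap.congr_fun hr u
  have hσ : ∀ u, q (σ u) = u := fun u => LinearMap.congr_fun hσ u
  choose T hT hT' using fun x : X => VHer_unit (j := j) (q := q) (r := r)
    (s := MonoidAlgebra.of k _ (FreeGroup.of x)) (t := MonoidAlgebra.of k _ (FreeGroup.of x)⁻¹)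
    hr σ hσ (by rw [← map_mul, mul_inv_cancel, map_one]) (by rw [← map_mul, inv_mul_cancel, map_one])
  obtain ⟨Φ, hΦ⟩ : ∃ Φ : MonoidAlgebra k (FreeGroup X) →ₐ[k]
      Module.End k (B × (I → MonoidAlgebra k (FreeGroup X))), ∀ s, VHerGood j q r s (Φ s) := by
    refine ⟨MonoidAlgebra.lift k _ _ ((Units.coeHom _).comp (FreeGroup.lift T)), fun s => ?_⟩
    induction s using MonoidAlgebra.induction_on with
    | of g =>
      rw [MonoidAlgebra.lift_of]
      induction g using FreeGroup.induction_on with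
      | C1 => rw [map_one, map_one]; exact VHerGood.one
      | of x => rw [MonoidHom.comp_apply, FreeGroup.lift_apply_of]; exact hT x
      | inv_of x _ =>
        rw [MonoidHom.comp_apply, map_inv (FreeGroup.lift T), FreeGroup.lift_apply_of]
        exact hT' x
      | mul x y hx hy => rw [map_mul, map_mul]; exact hx.mul hy
    | add x y hx hy => rw [map_add]; exact hx.add hy
    | smul c x hx => rw [map_smul]; exact hx.smul c
  obtain ⟨e, he⟩ : ∃ e : (I → MonoidAlgebra k (FreeGroup X)) →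
      B × (I → MonoidAlgebra k (FreeGroup X)),
      ∀ y, e y = ∑ i, Φ (y i) (σ (r (Pi.single i 1)), Pi.single i 1) := ⟨_, fun _ => rfl⟩
  have hy : ∀ y : I → MonoidAlgebra k (FreeGroup X),
      ∑ i, y i • (Pi.single i 1 : I → MonoidAlgebra k (FreeGroup X)) = y := fun y => by
    funext l
    simp [Finset.sum_apply, Pi.single_apply]
  have e1 : ∀ y, (e y).2 = y := fun y => by
    rw [he, Prod.snd_sum]
    simp only [(hΦ _).snd]
    exact hy y
  have e2 : ∀ y, q (e y).1 = r y := fun y => by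
    rw [he, Prod.fst_sum, map_sum]
    conv_rhs => rw [← hy y, map_sum]
    exact Finset.sum_congr rfl fun i _ => (hΦ _).fib _ (hσ _)
  have e3 : ∀ s y, e (s • y) = Φ s (e y) := fun s y => by
    rw [he, he, map_sum]
    exact Finset.sum_congr rfl fun i _ => by
      rw [Pi.smul_apply, smul_eq_mul, map_mul, Module.End.mul_apply]
  have e4 : ∀ y y', e (y + y') = e y + e y' := fun y y' => by
    rw [he, he, he, ← Finset.sum_add_distrib]
    exact Finset.sum_congr rfl fun i _ => by rw [Pi.add_apply, map_add, LinearMap.add_apply]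
  refine ⟨⟨⟨fun u => (e (j u)).1, fun u u' => ?_⟩, fun s u => ?_⟩, fun u => (e2 _).trans (hr u)⟩
  · rw [map_add, e4, Prod.fst_add]
  · change (e (j (s • u))).1 = s • (e (j u)).1
    rw [map_smul, e3, (hΦ s).sub _ u (e1 _)]

/-- Let `S = k[F]`, `P = I → S`, `r : P → U` a `k`-linear retraction, `q : B → U` an `S`-linear
surjection (from a free module; `Module.Projective.of_lifting_property''` or
`Module.projective_def`), and `σ : U → B` a `k`-linear section of `q`. For a generator `x` let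
`T x (b, y) = (x b + σ (r (x y) - x (r y)), x y)`, a `k`-linear automorphism of `B × P`; extend it
to `ρ : F → Aut (B × P)` with `FreeGroup.lift`. By induction on words: the second component of
`ρ g (b, y)` is `g y`; if `q b = r y` then `q (ρ g (b, y)).1 = r (g y)`; and if `y ∈ U` then
`(ρ g (b, y)).1 = g b`. Define the `k`-linear map `e : P → B × P` by
`e (single g 1 at i) = ρ g (σ (r eᵢ), eᵢ)`; then `e (g y) = ρ g (e y)`, `(e y).2 = y`,
`q (e y).1 = r y`, so `u ↦ (e u).1` is an `S`-linear section of `q`. -/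
theorem sher_free (k X : Type) [Field k] : SHer (MonoidAlgebra k (FreeGroup X)) := by
  intro I _ U _
  refine Module.projective_def.2 ?_
  exact VHer_sec (k := k) U.subtype U.subtype_injective _
    (Finsupp.linearCombination_id_surjective _ _)

variable {S : Type} [Ring S]

theorem VHer_vecMul_hp {I J : Type} [Fintype I] {p : I → ℤ} {q : J → ℤ} {n k : ℤ} {v : I → S}
    (hv : Vd p k v) (f : Matrix I J S) : v ᵥ* hp n p q f = pj q (k + n) (v ᵥ* f) := by
  funext l
  simp only [pj, hp, vecMul, dotProduct, of_apply]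
  split_ifs with h
  · refine Finset.sum_congr rfl fun i _ => ?_
    by_cases e : v i = 0
    · rw [e, zero_mul, zero_mul]
    · rw [if_pos (by rw [hv i e, h])]
  · refine Finset.sum_eq_zero fun i _ => ?_
    by_cases e : v i = 0
    · rw [e, zero_mul]
    · rw [if_neg (by rw [hv i e]; exact h), mul_zero]

/-- a splitting of the image, made homogeneous with `hp 0` -/
theorem SHer.split (hS : SHer S) (X : Cx S) : ∃ E : Matrix X.I X.I S, Hg 0 X.p X.p E ∧
    E * X.d = X.d ∧ ∀ k v, Vd X.p k v → v ᵥ* X.d = 0 → v ᵥ* E = 0 := by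
  have := hS X.I (LinearMap.range X.d.vecMulLinear) (Submodule.fg_range _)
  obtain ⟨s, hs⟩ := Module.projective_lifting_property X.d.vecMulLinear.rangeRestrict
    LinearMap.id X.d.vecMulLinear.surjective_rangeRestrict
  obtain ⟨E, hE⟩ := Matrix.toLinearMapRight'.surjective (s ∘ₗ X.d.vecMulLinear.rangeRestrict)
  have h1 : ∀ v, v ᵥ* E = s (X.d.vecMulLinear.rangeRestrict v) := fun v =>
    LinearMap.congr_fun hE v
  have h2 : E * X.d = X.d := by
    refine Matrix.toLinearMapRight'.injective (LinearMap.ext fun v => ?_)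
    change v ᵥ* (E * X.d) = v ᵥ* X.d
    rw [← vecMul_vecMul, h1]
    exact congrArg Subtype.val (LinearMap.congr_fun hs _)
  refine ⟨hp 0 X.p X.p E, hg_hp E, ?_, fun k v hv h0 => ?_⟩
  · rw [← hp_mul_right E X.hd (c := -1) (by omega), h2, X.hd.hp_eq]
  · have h3 : X.d.vecMulLinear.rangeRestrict v = 0 := Subtype.ext h0
    rw [VHer_vecMul_hp hv, h1, h3, map_zero, vd_zero.pj_eq]

/-- The rows of degree `k - 1` of `1 - E` are cycles, hence boundaries `wᵢ d`; let `W` have these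
rows `wᵢ` (and `0` in other degrees). For a row `i` of degree `k`, `eᵢ - dᵢ W` is a cycle, hence a
boundary, hence orthogonal to the column cycle `v`; so `d (W v) = v`. -/
theorem SHer.col (hS : SHer S) {X : Cx S} {a : ℤ} (h : Le X a) (k : ℤ) (hk : a + 1 < k) :
    Cex X k := by
  intro v hv h0
  obtain ⟨E, hE, hEd, hEz⟩ := hS.split X
  have ex : ∀ i, ∃ w, Vd X.p k w ∧ (X.p i = k - 1 → w ᵥ* X.d = (1 - E) i) ∧
      (X.p i ≠ k - 1 → w = 0) := fun i => by
    by_cases hi : X.p i = k - 1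
    · have h1 : Vd X.p (k - 1) ((1 - E) i) := by
        have := (hg_one.sub hE).row i
        rwa [hi, add_zero] at this
      have h2 : (1 - E) i ᵥ* X.d = 0 := by
        change ((1 - E) * X.d) i = 0
        rw [Matrix.sub_mul, Matrix.one_mul, hEd, sub_self]
        rfl
      obtain ⟨w, hw, e⟩ := (h (k - 1) (by omega)).hom h1 h2
      rw [sub_add_cancel] at hw
      exact ⟨w, hw, fun _ => e, fun h => absurd hi h⟩
    · exact ⟨0, vd_zero, fun h => absurd h hi, fun _ => rfl⟩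
  choose W hW hWd hW0 using ex
  have hWg : Hg 1 X.p X.p (Matrix.of W) := fun i l e => by
    have h1 := hW i l e
    have h2 : X.p i = k - 1 := by
      by_contra hi
      exact e (congrFun (hW0 i hi) l)
    omega
  refine ⟨Matrix.of W *ᵥ v, funext fun i => ?_⟩
  by_cases hi : X.p i = k
  · have h1 : Vd X.p (k - 1) (X.d i) := by
      have := X.hd.row i
      rwa [hi] at this
    have h2 : X.d i ᵥ* X.d = 0 := congrFun X.dd i
    have h3 : X.d i ᵥ* (Matrix.of W * X.d) = X.d i ᵥ* (1 - E) := by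
      funext l
      refine Finset.sum_congr rfl fun j _ => ?_
      by_cases e : X.d i j = 0
      · simp only [e, zero_mul]
      · exact congrArg (X.d i j * ·) (congrFun (hWd j (h1 j e)) l)
    have h4 : Vd X.p k ((1 : Matrix X.I X.I S) i - X.d i ᵥ* Matrix.of W) := by
      refine Vd.sub ?_ (h1.vecMul hWg (by omega))
      have := (hg_one (S := S) (p := X.p)).row i
      rwa [hi, add_zero] at this
    have h5 : ((1 : Matrix X.I X.I S) i - X.d i ᵥ* Matrix.of W) ᵥ* X.d = 0 := by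
      rw [sub_vecMul, vecMul_vecMul, h3, vecMul_sub, vecMul_one, hEz _ _ h1 h2, sub_zero]
      exact sub_eq_zero.2 (congrFun (Matrix.one_mul X.d) i)
    obtain ⟨u, hu⟩ := h k (by omega) _ h4 h5
    have h6 := congrArg (· ⬝ᵥ v) hu
    simp only [← dotProduct_mulVec, h0, dotProduct_zero, sub_dotProduct] at h6
    exact (sub_eq_zero.1 h6.symm).symm.trans (congrFun (one_mulVec v) i)
  · have h1 : v i = 0 := by
      by_contra e
      exact hi (hv i e)
    rw [h1, mulVec_mulVec]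
    refine Finset.sum_eq_zero fun l _ => ?_
    by_contra e
    have h2 := (X.hd.mul hWg (c := 0) (by omega)) i l (left_ne_zero_of_mul e)
    have h3 := hv l (right_ne_zero_of_mul e)
    omega

end Pool.Agent.Work.MP_9d1ffa_al.VN
end

-- merged part: Pool.Agent.Work.MP_9d1ffa_al.VFib
section
/-! Passage to the fibres. -/

namespace Pool.Agent.Work.MP_9d1ffa_al.VN

open Matrix

set_option linter.unusedSectionVars false
set_option linter.unusedVariables false

variable {A R : Type} [CommRing A] [Ring R] [Algebra A R]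

/-- Clear denominators (`exists_common`) to see that `X.map φ` is exact above `a`; apply
`SHer.col` and clear denominators again. -/
theorem Fib.col {𝔭 : Ideal A} [𝔭.IsPrime] (hF : Fib R 𝔭) {X : Cx R} {a : ℤ}
    (h : ∀ j, a < j → At 𝔭 𝔭 X j) (k : ℤ) (hk : a + 1 < k) (v : X.I → R) (hv : Vd X.p k v)
    (h0 : Im 𝔭 (X.d *ᵥ v)) : ∃ s ∉ 𝔭, ∃ w, Im 𝔭 (s • v - X.d *ᵥ w) := by
  obtain ⟨S, _, φ, hS, hker, hden, hunit⟩ := hF
  have hsm : ∀ (s : A) (r : R), φ (s • r) = φ (algebraMap A R s) * φ r := fun s r => by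
    rw [Algebra.smul_def, map_mul]
  have hcom : ∀ (s : A) (r : R), φ r * φ (algebraMap A R s) = φ (algebraMap A R s) * φ r :=
    fun s r => by rw [← map_mul, ← map_mul, Algebra.commutes]
  have den : ∀ y : X.I → S, ∃ s ∉ 𝔭, ∃ r : X.I → R,
      ∀ i, φ (r i) = φ (algebraMap A R s) * y i := fun y => by
    obtain ⟨s, hs, hr⟩ := exists_common (𝔭 := 𝔭)
      (C := fun i s => ∃ r, φ r = φ (algebraMap A R s) * y i)
      (fun i s t ⟨r, hr⟩ => ⟨t • r, by rw [hsm, hr, map_mul, map_mul, mul_assoc]⟩)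
      fun i => hden (y i)
    choose r hr using hr
    exact ⟨s, hs, r, hr⟩
  have hLe : Le (X.map φ) a := fun j hj y hy e => by
    obtain ⟨s, hs, r, hr⟩ := den y
    have hr' : ∀ i, φ (pj X.p j r i) = φ (algebraMap A R s) * y i := fun i => by
      unfold pj
      split_ifs with hi
      · exact hr i
      · have : y i = 0 := by_contra fun e' => hi (hy i e')
        rw [this, map_zero, mul_zero]
    obtain ⟨t, ht, w, hw⟩ := h j hj (pj X.p j r) (vd_pj r) fun l => (hker _).1 (by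
      have e1 : ∑ i, y i * φ (X.d i l) = 0 := congrFun e l
      change φ (∑ i, pj X.p j r i * X.d i l) = 0
      simp only [map_sum, map_mul, hr', mul_assoc]
      rw [← Finset.mul_sum, e1, mul_zero])
    obtain ⟨u, hu⟩ := hunit (t * s) fun e' =>
      (‹𝔭.IsPrime›.mem_or_mem e').elim ht hs
    refine ⟨fun i => u * φ (w i), funext fun l => ?_⟩
    have e2 := (hker _).2 (hw l)
    change φ (t • pj X.p j r l - ∑ i, w i * X.d i l) = 0 at e2
    rw [map_sub, hsm, hr', sub_eq_zero, ← mul_assoc, ← map_mul, ← map_mul, map_sum] at e2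
    change ∑ i, u * φ (w i) * φ (X.d i l) = y l
    simp only [mul_assoc, ← map_mul]
    rw [← Finset.mul_sum, ← e2, ← mul_assoc, hu, one_mul]
  obtain ⟨y, hy⟩ := hS.col hLe k hk (fun i => φ (v i))
    (fun i e => hv i fun e' => e ((congrArg φ e').trans φ.map_zero)) (funext fun i => by
      have e1 := (hker _).2 (h0 i)
      change φ (∑ l, X.d i l * v l) = 0 at e1
      change ∑ l, φ (X.d i l) * φ (v l) = 0
      simpa only [map_sum, map_mul] using e1)
  obtain ⟨s, hs, r, hr⟩ := den y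
  refine ⟨s, hs, r, fun i => (hker _).1 ?_⟩
  have e1 : ∑ l, φ (X.d i l) * y l = φ (v i) := congrFun hy i
  change φ (s • v i - ∑ l, X.d i l * r l) = 0
  rw [map_sub, hsm, map_sum, ← e1, Finset.mul_sum, sub_eq_zero]
  refine Finset.sum_congr rfl fun l _ => ?_
  rw [map_mul, hr, ← mul_assoc, ← mul_assoc, hcom]

variable [StarRing R] (L : Loc A R)

theorem Loc.star_smul (a : A) (r : R) : star (a • r) = L.c a • star r := by
  rw [Algebra.smul_def, star_mul, L.star_alg, Algebra.smul_def, Algebra.commutes]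

theorem Loc.im_star {𝔞 : Ideal A} {I : Type} {v : I → R} (h : Im 𝔞 v) :
    Im (𝔞.comap L.c) (star v) := by
  intro i
  rw [Pi.star_apply]
  refine Submodule.smul_induction_on (h i) (fun a ha y _ => ?_) fun y z hy hz => ?_
  · rw [L.star_smul]
    refine Submodule.smul_mem_smul ?_ Submodule.mem_top
    rw [Ideal.mem_comap, L.cc]
    exact ha
  · rw [star_add]
    exact add_mem hy hz

theorem Loc.comap_comap (𝔞 : Ideal A) : (𝔞.comap L.c).comap L.c = 𝔞 := by
  ext a
  rw [Ideal.mem_comap, Ideal.mem_comap, L.cc]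

/-- apply `Fib.col` to `X.dual` and the column `star v` -/
theorem Loc.her {𝔭 : Ideal A} [𝔭.IsPrime] {X : Cx R} {a : ℤ}
    (h : ∀ j, a < j → At 𝔭 𝔭 X.dual j) (k : ℤ) (hk : k < -a - 1) :
    At (𝔭.comap L.c) (𝔭.comap L.c) X k := by
  intro v hv e
  have e1 := L.im_star e
  rw [L.comap_comap, star_vecMul] at e1
  obtain ⟨s, hs, w, hw⟩ := (L.fib 𝔭 ‹_›).col h (-k) (by omega) (star v)
    (fun i hi => by
      have := hv i fun e' => hi (by rw [Pi.star_apply, e', star_zero])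
      simp only
      omega) e1
  refine ⟨L.c s, by rwa [Ideal.mem_comap, L.cc], star w, ?_⟩
  have e2 := L.im_star hw
  rw [star_sub, star_mulVec, conjTranspose_conjTranspose] at e2
  have e3 : star (s • star v) = L.c s • v := funext fun i => by
    simp only [Pi.star_apply, Pi.smul_apply, L.star_smul, star_star]
  rwa [e3] at e2

/-- If `X` is exact at `c 𝔭` in all degrees then `d h + h d = s` (`contr`), and the conjugate
transpose of this equation shows that the dual is exact at `𝔭`. -/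
theorem Loc.dual_acy {𝔭 : Ideal A} [𝔭.IsPrime] {X : Cx R}
    (h : ∀ j, At (𝔭.comap L.c) ⊥ X j) (k : ℤ) : At 𝔭 ⊥ X.dual k := by
  obtain ⟨N, hN⟩ := exists_bound X.p
  obtain ⟨s, hs, g, -, e⟩ := contr (𝔭.comap L.c).primeCompl X (N + 1) fun j _ => at_bot.1 (h j)
  have e1 : X.d * g + g * X.d = s • (1 : Matrix X.I X.I R) :=
    funext fun i => e i (by have := (hN i).2; omega)
  have e2 : (s • (1 : Matrix X.I X.I R))ᴴ = L.c s • (1 : Matrix X.I X.I R) := by
    funext i j
    rw [conjTranspose_apply, Matrix.smul_apply, Matrix.smul_apply, L.star_smul,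
      ← conjTranspose_apply, conjTranspose_one]
  intro v _ hv
  have h0 : v ᵥ* X.dᴴ = 0 := im_bot.1 hv
  refine ⟨L.c s, hs, v ᵥ* gᴴ, im_bot.2 ?_⟩
  have e3 : v ᵥ* (X.d * g + g * X.d)ᴴ = L.c s • v := by
    rw [e1, e2, vecMul_smul, vecMul_one]
  rw [conjTranspose_add, conjTranspose_mul, conjTranspose_mul, vecMul_add, ← vecMul_vecMul,
    ← vecMul_vecMul, h0, zero_vecMul, add_zero] at e3
  exact sub_eq_zero.2 e3.symm

/-- With `h` from `contr_one`, a row vector `v` of degree `k > -b` for the dual satisfies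
`v = v hᴴ dᴴ + v dᴴ hᴴ`. -/
theorem Ge.at_dual {X : Cx R} {b : ℤ} (h : Ge X b) {𝔭 : Ideal A} [𝔭.IsPrime] (𝔞 : Ideal A) (k : ℤ)
    (hk : -b < k) : At 𝔭 𝔞 X.dual k := by
  obtain ⟨g, hg, e⟩ := contr_one h
  have hM : Hg 0 X.p X.p (X.d * g + g * X.d) :=
    (X.hd.mul hg (by simp)).add (hg.mul X.hd (by simp))
  intro v hv h0
  have hv' : ∀ i, v i ≠ 0 → X.p i < b := fun i hi => by
    have := hv i hi
    simp only at this
    omega
  have e1 : v ᵥ* (X.d * g + g * X.d)ᴴ = v := by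
    funext j
    change ∑ i, v i * star ((X.d * g + g * X.d) j i) = v j
    by_cases hj : X.p j < b
    · have e2 : ∑ i, v i * star ((1 : Matrix X.I X.I R) j i) = (v ᵥ* (1 : Matrix X.I X.I R)ᴴ) j :=
        rfl
      rw [e j hj, e2, conjTranspose_one, vecMul_one]
    · have e2 : v j = 0 := by_contra fun e' => hj (hv' j e')
      rw [e2]
      refine Finset.sum_eq_zero fun i _ => ?_
      by_cases hi : v i = 0
      · rw [hi, zero_mul]
      · have e3 : (X.d * g + g * X.d) j i = 0 := by_contra fun e' => by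
          have := hM j i e'
          have := hv' i hi
          omega
        rw [e3, star_zero, mul_zero]
  rw [conjTranspose_add, conjTranspose_mul, conjTranspose_mul, vecMul_add, ← vecMul_vecMul,
    ← vecMul_vecMul] at e1
  refine ⟨1, (Ideal.ne_top_iff_one _).1 ‹𝔭.IsPrime›.ne_top, v ᵥ* gᴴ, ?_⟩
  have e4 : (1 : A) • v - v ᵥ* gᴴ ᵥ* X.dᴴ = v ᵥ* X.dᴴ ᵥ* gᴴ := by
    rw [one_smul, sub_eq_iff_eq_add']
    exact e1.symm
  exact e4 ▸ h0.vecMul gᴴ

/-- The fibre of a monoid algebra: take the residue field `k` of `𝔭` and the map induced by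
`A → k` on coefficients. -/
theorem fib_free (A X : Type) [CommRing A] (𝔭 : Ideal A) [𝔭.IsPrime] :
    Fib (MonoidAlgebra A (FreeGroup X)) 𝔭 := by
  let f : A →+* FractionRing (A ⧸ 𝔭) :=
    (algebraMap (A ⧸ 𝔭) (FractionRing (A ⧸ 𝔭))).comp (Ideal.Quotient.mk 𝔭)
  have hf : ∀ a, f a = 0 ↔ a ∈ 𝔭 := fun a => by
    rw [← Ideal.Quotient.eq_zero_iff_mem]
    exact map_eq_zero_iff _ (IsFractionRing.injective (A ⧸ 𝔭) (FractionRing (A ⧸ 𝔭)))
  have halg : ∀ s : A, MonoidAlgebra.mapRingHom (FreeGroup X) f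
      (algebraMap A (MonoidAlgebra A (FreeGroup X)) s) = MonoidAlgebra.single 1 (f s) := fun s => by
    rw [MonoidAlgebra.coe_algebraMap, Function.comp_apply, MonoidAlgebra.mapRingHom_single]
    rfl
  refine ⟨MonoidAlgebra (FractionRing (A ⧸ 𝔭)) (FreeGroup X), inferInstance,
    MonoidAlgebra.mapRingHom (FreeGroup X) f, sher_free _ _, fun r => ⟨fun e => ?_, fun e => ?_⟩,
    fun y => ?_, fun s hs => ?_⟩
  · have e1 : ∀ g, r.coeff g ∈ 𝔭 := fun g => (hf _).1 (by
      rw [← MonoidAlgebra.coeff_mapRingHom, e]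
      rfl)
    rw [← MonoidAlgebra.sum_coeff_single r]
    refine sum_mem fun g _ => ?_
    have e2 : MonoidAlgebra.single g (r.coeff g) = r.coeff g • MonoidAlgebra.single g (1 : A) := by
      rw [MonoidAlgebra.smul_single, smul_eq_mul, mul_one]
    rw [e2]
    exact Submodule.smul_mem_smul (e1 g) Submodule.mem_top
  · refine Submodule.smul_induction_on e (fun a ha y _ => ?_) fun y z hy hz => ?_
    · rw [Algebra.smul_def, map_mul, halg, (hf a).2 ha, MonoidAlgebra.single_zero, zero_mul]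
    · rw [map_add, hy, hz, add_zero]
  · induction y using MonoidAlgebra.induction_linear with
    | zero => exact ⟨1, (Ideal.ne_top_iff_one _).1 ‹𝔭.IsPrime›.ne_top, 0, by simp⟩
    | add y z hy hz =>
      obtain ⟨s, hs, r, hr⟩ := hy
      obtain ⟨t, ht, r', hr'⟩ := hz
      refine ⟨s * t, fun e' => (‹𝔭.IsPrime›.mem_or_mem e').elim hs ht, t • r + s • r', ?_⟩
      rw [map_add, Algebra.smul_def, Algebra.smul_def, map_mul, map_mul, hr, hr', ← mul_assoc,
        ← mul_assoc, ← map_mul, ← map_mul, ← map_mul, ← map_mul, mul_comm t s, mul_add]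
    | single g x =>
      obtain ⟨a, b, hb, rfl⟩ := IsFractionRing.div_surjective (A ⧸ 𝔭) x
      obtain ⟨a, rfl⟩ := Ideal.Quotient.mk_surjective a
      obtain ⟨b, rfl⟩ := Ideal.Quotient.mk_surjective b
      have hb' : b ∉ 𝔭 := fun e' =>
        nonZeroDivisors.ne_zero hb (Ideal.Quotient.eq_zero_iff_mem.2 e')
      refine ⟨b, hb', MonoidAlgebra.single g a, ?_⟩
      rw [halg, MonoidAlgebra.mapRingHom_single, MonoidAlgebra.single_mul_single, one_mul]
      congr 1
      exact (mul_div_cancel₀ (f a) fun e' => hb' ((hf b).1 e')).symm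
  · refine ⟨MonoidAlgebra.single 1 (f s)⁻¹, ?_⟩
    rw [halg, MonoidAlgebra.single_mul_single, one_mul,
      inv_mul_cancel₀ fun e' => hs ((hf s).1 e'), MonoidAlgebra.one_def]

omit [StarRing R] in
theorem VFib_map {R' : Type} [Ring R'] [Algebra A R'] (e : R ≃ₐ[A] R') {𝔭 : Ideal A} {r : R}
    (h : r ∈ 𝔭 • (⊤ : Submodule A R)) : e r ∈ 𝔭 • (⊤ : Submodule A R') := by
  refine Submodule.smul_induction_on h (fun a ha y _ => ?_) fun y z hy hz => ?_
  · rw [map_smul]
    exact Submodule.smul_mem_smul ha Submodule.mem_top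
  · rw [map_add]
    exact add_mem hy hz

omit [StarRing R] in
theorem Fib.equiv {R' : Type} [Ring R'] [Algebra A R'] (e : R ≃ₐ[A] R') {𝔭 : Ideal A}
    (h : Fib R' 𝔭) : Fib R 𝔭 := by
  obtain ⟨S, _, φ, hS, hker, hden, hunit⟩ := h
  refine ⟨S, _, φ.comp (e : R →+* R'), hS, fun r => ?_, fun y => ?_, fun s hs => ?_⟩
  · refine (hker (e r)).trans ⟨fun h' => ?_, VFib_map e⟩
    simpa using VFib_map e.symm h'
  · obtain ⟨s, hs, r, hr⟩ := hden y
    exact ⟨s, hs, e.symm r, by simpa using hr⟩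
  · obtain ⟨u, hu⟩ := hunit s hs
    exact ⟨u, by simpa using hu⟩

end Pool.Agent.Work.MP_9d1ffa_al.VN
end

-- merged part: Pool.Agent.Work.MP_9d1ffa_al.VAus
section
/-! The condition of Auslander. -/

namespace Pool.Agent.Work.MP_9d1ffa_al.VN

open Matrix

set_option linter.unusedSectionVars false
set_option linter.unusedVariables false

variable {A R : Type} [CommRing A] [Ring R] [StarRing R] [Algebra A R] (L : Loc A R)
  {X T : Cx R} {a b : ℤ}

theorem Loc.low (h : Le X.dual a) (𝔭 : Ideal A) [h𝔭 : 𝔭.IsPrime] (j : ℤ)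
    (hj : j < -a - L.ht 𝔭 - 1) : At (𝔭.comap L.c) ⊥ X j := by
  refine nak_all (fun 𝔮 h𝔮 hle k hk => ?_) j hj
  have h1 : 𝔮.comap L.c ≤ 𝔭 := (Ideal.comap_mono hle).trans (L.comap_comap 𝔭).le
  have h2 := L.mono _ _ inferInstance h𝔭 h1
  have h3 := L.her (loss (L.seq (𝔮.comap L.c) inferInstance) fun i hi => (h i hi).at_bot) k
    (by omega)
  rwa [L.comap_comap] at h3

theorem Loc.fin (h : Le X.dual a) : Ge X (-a - (L.N + 1 : ℕ)) := fun k hk => by
  have := L.noeth
  refine ex_of_at (A := A) fun 𝔭 h𝔭 => ?_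
  have h1 := L.bound (𝔭.comap L.c) inferInstance
  have h2 := L.low h (𝔭.comap L.c) k (by omega)
  rwa [L.comap_comap] at h2

omit [StarRing R] in
theorem at_cone {𝔭 : Ideal A} {t : Matrix T.I X.I R} (c : Ch T X t) {j : ℤ} (h : At 𝔭 ⊥ X j)
    (h' : Ex T (j - 1)) : At 𝔭 ⊥ c.cone j := fun v hv e => by
  rw [← Sum.elim_comp_inl_inr v] at hv e ⊢
  generalize v ∘ Sum.inl = x at *
  generalize v ∘ Sum.inr = y at *
  obtain ⟨hx, hy⟩ := vd_elim.1 hv
  rw [im_bot, vecMul_fromBlocks] at e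
  have e1 : x ᵥ* X.d + y ᵥ* t = 0 := congrArg (· ∘ Sum.inl) e
  have e2 : x ᵥ* 0 + y ᵥ* (-T.d) = 0 := congrArg (· ∘ Sum.inr) e
  rw [vecMul_zero, zero_add, vecMul_neg, neg_eq_zero] at e2
  obtain ⟨z, hz, rfl⟩ := h'.hom (fun i e => by have := hy i e; simp only at this; omega) e2
  obtain ⟨s, hs, w, hw⟩ := h (x + z ᵥ* t) (hx.add (hz.vecMul c.1 (by omega))) (im_bot.2 (by
    rw [add_vecMul, vecMul_vecMul, ← c.2, ← vecMul_vecMul, e1]))
  rw [im_bot, sub_eq_zero] at hw
  refine ⟨s, hs, Sum.elim w (-(s • z)), im_bot.2 (sub_eq_zero.2 ?_)⟩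
  rw [vecMul_fromBlocks]
  simp only [Sum.elim_comp_inl, Sum.elim_comp_inr, ← hw, vecMul_zero, zero_add, neg_vecMul,
    vecMul_neg, neg_neg, smul_vecMul, smul_add, add_neg_cancel_right]
  funext i
  cases i <;> rfl

theorem at_dual_cone {𝔭 : Ideal A} {t : Matrix T.I X.I R} (c : Ch T X t) {k : ℤ}
    (h : At 𝔭 ⊥ c.cone.dual (k - 1)) (h' : Ex X.dual k) : At 𝔭 ⊥ T.dual k := fun v hv e => by
  rw [im_bot] at e
  have hd : c.cone.dual.d = fromBlocks X.dᴴ tᴴ 0 (-T.dᴴ) := by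
    simp only [fromBlocks_conjTranspose, conjTranspose_zero, conjTranspose_neg]
  obtain ⟨s, hs, w, hw, e'⟩ := h.hom (v := Sum.elim 0 v) (fun i hi => by
    rcases i with i | i
    · exact (hi rfl).elim
    · have := hv i hi
      simp only [Sum.elim_inr] at this ⊢
      omega) (im_bot.2 (by
    rw [hd, vecMul_fromBlocks]
    simp only [Sum.elim_comp_inl, Sum.elim_comp_inr, zero_vecMul, vecMul_zero, zero_add,
      vecMul_neg, e, neg_zero]
    funext i
    cases i <;> rfl))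
  rw [im_bot, sub_eq_zero, hd, vecMul_fromBlocks] at e'
  have e1 : s • (0 : X.I → R) = (w ∘ Sum.inl) ᵥ* X.dᴴ + (w ∘ Sum.inr) ᵥ* 0 :=
    congrArg (· ∘ Sum.inl) e'
  have e2 : s • v = (w ∘ Sum.inl) ᵥ* tᴴ + (w ∘ Sum.inr) ᵥ* (-T.dᴴ) := congrArg (· ∘ Sum.inr) e'
  rw [smul_zero, vecMul_zero, add_zero] at e1
  obtain ⟨x, hx⟩ := h' (w ∘ Sum.inl) (fun i hi => by
    have := hw (Sum.inl i) hi
    simp only [Sum.elim_inl] at this ⊢
    omega) e1.symm
  refine ⟨s, hs, x ᵥ* tᴴ - w ∘ Sum.inr, im_bot.2 (sub_eq_zero.2 ?_)⟩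
  rw [e2, ← hx, sub_vecMul, vecMul_vecMul, vecMul_vecMul, ← conjTranspose_mul,
    ← conjTranspose_mul, c.2, vecMul_neg, sub_eq_add_neg]

include L in
theorem Loc.aus {t : Matrix T.I X.I R} (c : Ch T X t) (h : Le X.dual a) (h1 : Ge T b)
    (h2 : Le c.cone (b - 1)) : Le T.dual a := by
  have := L.noeth
  by_contra hn
  obtain ⟨M, hM⟩ := exists_bound T.p
  obtain ⟨k, ⟨hk, hx⟩, hmax⟩ := Int.exists_greatest_of_bdd
    (P := fun k => a < k ∧ ¬ Ex T.dual k)
    ⟨M, fun k hk => by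
      by_contra e
      exact hk.2 (ex_of_ne fun i e' => by have := hM i; simp only at e'; omega)⟩
    (by simpa only [Le, not_forall, exists_prop] using hn)
  obtain ⟨𝔭, h𝔭, v, hv, e0, e1⟩ := ass (A := A) hx
  have h3 := costalk (L.seq 𝔭 h𝔭) (fun j hj => Ex.at_bot (by
    by_contra e
    have := hmax j ⟨by omega, e⟩
    omega)) hv e0 e1
  by_cases hb : -b < k + L.ht 𝔭
  · exact h3 (h1.at_dual 𝔭 _ hb)
  have h4 : ∀ j, At (𝔭.comap L.c) ⊥ c.cone j := fun j => by
    by_cases hj : b - 1 < j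
    · exact (h2 j hj).at_bot
    · exact at_cone c (L.low h 𝔭 j (by omega)) (h1 _ (by omega))
  obtain ⟨s, hs, w, hw⟩ := at_dual_cone c (L.dual_acy h4 (k - 1)) (h k hk) v hv (im_bot.2 e0)
  exact hs ((e1 s).1 ⟨w, (sub_eq_zero.1 (im_bot.1 hw)).symm⟩)

include L in
theorem Loc.good (h1 : Trn R) (h2 : SFI R) : Good R :=
  ⟨h1, fun X T t c a b => L.aus c, ⟨L.N + 1, fun X a => L.fin⟩, h2⟩

end Pool.Agent.Work.MP_9d1ffa_al.VN
end

-- merged part: Pool.Agent.Work.MP_9d1ffa_al.VReg1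
section
/-! Regular local rings. -/

namespace Pool.Agent.Work.MP_9d1ffa_al.VN

open Matrix

set_option linter.unusedSectionVars false
set_option linter.unusedVariables false

open IsLocalRing

theorem VReg1_nak {B : Type} [CommRing B] [IsLocalRing B] [IsNoetherianRing B] (I : Ideal B)
    (h : I ≤ maximalIdeal B • I) : I = ⊥ :=
  Submodule.eq_bot_of_le_smul_of_le_jacobson_bot _ _ (IsNoetherian.noetherian _) h
    (IsLocalRing.jacobson_eq_maximalIdeal _ bot_ne_top).ge

theorem VReg1_avoid {B : Type} [CommRing B] [IsLocalRing B] [IsNoetherianRing B]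
    (h : ringKrullDim B ≠ 0) :
    ∃ x ∈ maximalIdeal B, x ∉ maximalIdeal B * maximalIdeal B ∧ ∀ p ∈ minimalPrimes B, x ∉ p := by
  classical
  by_contra hc
  push Not at hc
  have hf := minimalPrimes.finite_of_isNoetherianRing B
  have hs : ((maximalIdeal B : Ideal B) : Set B) ⊆
      ⋃ i ∈ ((insert (maximalIdeal B * maximalIdeal B) hf.toFinset : Finset (Ideal B)) :
        Set (Ideal B)), ((id i : Ideal B) : Set B) := by
    intro x hx
    simp only [Set.mem_iUnion, Finset.coe_insert, Set.mem_insert_iff, Set.Finite.coe_toFinset, id,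
      SetLike.mem_coe, exists_prop]
    by_cases h2 : x ∈ maximalIdeal B * maximalIdeal B
    · exact ⟨_, Or.inl rfl, h2⟩
    · obtain ⟨p, hp, hxp⟩ := hc x hx h2
      exact ⟨p, Or.inr hp, hxp⟩
  rw [Ideal.subset_union_prime (maximalIdeal B * maximalIdeal B)
    (maximalIdeal B * maximalIdeal B)] at hs
  · obtain ⟨p, hp, hle⟩ := hs
    apply h
    rw [← IsLocalRing.maximalIdeal_height_eq_ringKrullDim]
    rcases Finset.mem_insert.1 hp with rfl | hp
    · rw [VReg1_nak (maximalIdeal B) hle, Ideal.height_bot]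
      rfl
    · have hp' := hf.mem_toFinset.1 hp
      have : p = maximalIdeal B :=
        ((maximalIdeal.isMaximal B).eq_of_le hp'.isPrime.ne_top hle).symm
      rw [Ideal.height_eq_zero_iff.2 (this ▸ hp')]
      rfl
  · intro i hi h1 _
    exact (hf.mem_toFinset.1 ((Finset.mem_insert.1 hi).resolve_left h1)).isPrime

theorem VReg1_gen {B : Type} [CommRing B] [IsLocalRing B] [DecidableEq B] {s : Finset B}
    (hs : Ideal.span (s : Set B) = maximalIdeal B) {x : B} (hx : x ∈ maximalIdeal B)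
    (hx2 : x ∉ maximalIdeal B * maximalIdeal B) :
    ∃ y ∈ s, maximalIdeal B ≤ Ideal.span ((s.erase y : Finset B) : Set B) ⊔ Ideal.span {x} := by
  have hx' := hx
  rw [← hs] at hx'
  obtain ⟨c, -, hc⟩ := Submodule.mem_span_finset.1 hx'
  have hm : ∀ y ∈ s, y ∈ maximalIdeal B := fun y hy => hs ▸ Ideal.subset_span hy
  have : ∃ y ∈ s, c y ∉ maximalIdeal B := by
    by_contra h
    push Not at h
    exact hx2 (hc ▸ sum_mem fun y hy => Ideal.mul_mem_mul (h y hy) (hm y hy))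
  obtain ⟨y, hy, hu⟩ := this
  obtain ⟨u, hu⟩ := (notMem_maximalIdeal.1 hu).exists_left_inv
  refine ⟨y, hy, ?_⟩
  rw [← hs, Ideal.span_le]
  intro z hz
  by_cases hzy : z = y
  · subst hzy
    rw [← Finset.add_sum_erase _ _ hy] at hc
    have e : z = u * (x - ∑ w ∈ s.erase z, c w • w) := by
      rw [← hc, add_sub_cancel_right, smul_eq_mul, ← mul_assoc, hu, one_mul]
    rw [SetLike.mem_coe]
    refine (congrArg (· ∈ _) e).mpr (Ideal.mul_mem_left _ _ (sub_mem ?_ ?_))
    · exact Ideal.mem_sup_right (Ideal.mem_span_singleton_self x)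
    · exact Ideal.mem_sup_left (sum_mem fun w hw => Submodule.smul_mem _ _ (Ideal.subset_span hw))
  · exact Ideal.mem_sup_left (Ideal.subset_span (Finset.mem_coe.2 (Finset.mem_erase.2 ⟨hzy, hz⟩)))

theorem VReg1_sp_zero {B : Type} [CommRing B] (f : ℕ → B) : sp f 0 = ⊥ := by
  simp [sp]

theorem VReg1_sp_succ {B : Type} [CommRing B] (x : B) (g : ℕ → B) (i : ℕ) :
    sp (fun k => Nat.casesOn k x g : ℕ → B) (i + 1) =
      (sp (fun k => Ideal.Quotient.mk (Ideal.span {x}) (g k)) i).comap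
        (Ideal.Quotient.mk (Ideal.span {x})) := by
  have e : sp (fun k => Ideal.Quotient.mk (Ideal.span {x}) (g k)) i =
      (sp g i).map (Ideal.Quotient.mk (Ideal.span {x})) := by
    rw [sp, sp, Ideal.map_span, Set.image_image]
  rw [e, Ideal.comap_map_of_surjective _ Ideal.Quotient.mk_surjective, ← RingHom.ker_eq_comap_bot,
    Ideal.mk_ker, sp, sp, ← Ideal.span_union]
  congr 1
  ext z
  constructor
  · rintro ⟨k, hk, rfl⟩
    cases k with
    | zero => exact Or.inr rfl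
    | succ k => exact Or.inl ⟨k, Nat.lt_of_succ_lt_succ hk, rfl⟩
  · rintro (⟨k, hk, rfl⟩ | rfl)
    · exact ⟨k + 1, Nat.succ_lt_succ hk, rfl⟩
    · exact ⟨0, Nat.succ_pos i, rfl⟩

/-- Induction on `n`, for all rings. For `n = 0` the ring is a field. Otherwise choose `x` in the
maximal ideal `𝔪` outside `𝔪 ^ 2` and outside all minimal primes (`Ideal.subset_union_prime`,
Nakayama, and the dimension is positive). Write `x` in terms of the generators; one coefficient is
a unit, so the maximal ideal of `B ⧸ (x)` has `n` generators, and its dimension is at least `n`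
(`ringKrullDim_le_ringKrullDim_quotient_add_encard`). By induction `(x)` is prime; a minimal prime
`𝔮 ≤ (x)` satisfies `𝔮 = x 𝔮`, so it is zero. Put `x` in front of lifts of the sequence. -/
theorem reg_seq (n : ℕ) : ∀ (B : Type) [CommRing B] [IsLocalRing B] [IsNoetherianRing B]
    (s : Finset B), s.card ≤ n → Ideal.span (s : Set B) = maximalIdeal B →
    (n : WithBot ℕ∞) ≤ ringKrullDim B →
    ∃ f : ℕ → B, (∀ i ≤ n, (sp f i).IsPrime) ∧ (∀ i < n, f i ∉ sp f i) ∧
      sp f n = maximalIdeal B := by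
  classical
  induction n with
  | zero =>
    intro B _ _ _ s hs hm _
    have h0 : s = ∅ := Finset.card_eq_zero.1 (Nat.le_zero.1 hs)
    have hb : (⊥ : Ideal B) = maximalIdeal B := by
      rw [← hm, h0]; simp
    refine ⟨fun _ => 0, fun i hi => ?_, fun i hi => absurd hi (Nat.not_lt_zero i), ?_⟩
    · rw [Nat.le_zero.1 hi, VReg1_sp_zero, hb]
      infer_instance
    · rw [VReg1_sp_zero, hb]
  | succ n ih =>
    intro B _ _ _ s hs hm hd
    have hd0 : ringKrullDim B ≠ 0 := by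
      intro h
      rw [h] at hd
      norm_cast at hd
    obtain ⟨x, hx, hx2, hxp⟩ := VReg1_avoid hd0
    obtain ⟨y, hy, hle⟩ := VReg1_gen hm hx hx2
    have hne : Ideal.span {x} ≠ ⊤ := by
      rw [Ne, Ideal.span_singleton_eq_top]
      exact (mem_maximalIdeal x).1 hx
    have : Nontrivial (B ⧸ Ideal.span {x}) := Ideal.Quotient.nontrivial_iff.2 hne
    have : IsLocalRing (B ⧸ Ideal.span {x}) :=
      IsLocalRing.of_surjective' (Ideal.Quotient.mk _) Ideal.Quotient.mk_surjective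
    have hmap := map_maximalIdeal_of_surjective (Ideal.Quotient.mk (Ideal.span {x}))
      Ideal.Quotient.mk_surjective
    have hxle : Ideal.span {x} ≤ maximalIdeal B := (Ideal.span_singleton_le_iff_mem _).2 hx
    obtain ⟨f, hf1, hf2, hf3⟩ := ih (B ⧸ Ideal.span {x})
      ((s.erase y).image (Ideal.Quotient.mk (Ideal.span {x})))
      (Finset.card_image_le.trans (by rw [Finset.card_erase_of_mem hy]; omega))
      (by
        rw [Finset.coe_image, ← Ideal.map_span, ← hmap]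
        refine le_antisymm (Ideal.map_mono ?_) ((Ideal.map_mono hle).trans ?_)
        · rw [← hm]
          exact Ideal.span_mono (Finset.coe_subset.2 (Finset.erase_subset _ _))
        · rw [Ideal.map_sup, Ideal.map_quotient_self, sup_bot_eq])
      (by
        have h := hd.trans (ringKrullDim_le_ringKrullDim_quotient_add_encard {x} (by
          rw [Set.singleton_subset_iff, SetLike.mem_coe, ← Ideal.jacobson_bot,
            IsLocalRing.jacobson_eq_maximalIdeal _ bot_ne_top]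
          exact hx))
        rw [Set.encard_singleton, Nat.cast_succ] at h
        exact ENat.WithBot.add_le_add_one_right_iff.1 h)
    choose g hg using fun i => Ideal.Quotient.mk_surjective (f i)
    obtain rfl : f = fun k => Ideal.Quotient.mk (Ideal.span {x}) (g k) := (funext hg).symm
    have hpr : ∀ i ≤ n, (sp (fun k => Nat.casesOn k x g : ℕ → B) (i + 1)).IsPrime := by
      intro i hi
      rw [VReg1_sp_succ]
      have := hf1 i hi
      exact Ideal.comap_isPrime _ _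
    have hx1 : (Ideal.span {x}).IsPrime := by
      have := hpr 0 (Nat.zero_le n)
      rwa [VReg1_sp_succ, VReg1_sp_zero, ← RingHom.ker_eq_comap_bot, Ideal.mk_ker] at this
    obtain ⟨q, hq, hqle⟩ := Ideal.exists_minimalPrimes_le (I := ⊥) (J := Ideal.span {x}) bot_le
    have hxq := hxp q hq
    have hq0 : q = ⊥ := by
      refine VReg1_nak q fun z hz => ?_
      obtain ⟨a, rfl⟩ := Ideal.mem_span_singleton'.1 (hqle hz)
      rw [mul_comm]
      exact Submodule.smul_mem_smul hx ((hq.isPrime.mem_or_mem hz).resolve_right hxq)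
    refine ⟨fun k => Nat.casesOn k x g, fun i hi => ?_, fun i hi => ?_, ?_⟩
    · cases i with
      | zero => rw [VReg1_sp_zero, ← hq0]; exact hq.isPrime
      | succ i => exact hpr i (by omega)
    · cases i with
      | zero => rw [VReg1_sp_zero, ← hq0]; exact hxq
      | succ i => rw [VReg1_sp_succ]; exact hf2 i (by omega)
    · rw [VReg1_sp_succ, hf3, ← hmap, Ideal.comap_map_of_surjective _ Ideal.Quotient.mk_surjective,
        ← RingHom.ker_eq_comap_bot, Ideal.mk_ker, sup_eq_left.2 hxle]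

end Pool.Agent.Work.MP_9d1ffa_al.VN
end

-- merged part: Pool.Agent.Work.MP_9d1ffa_al.VReg2
section
/-! Regular rings, and group rings of free abelian groups. -/

namespace Pool.Agent.Work.MP_9d1ffa_al.VN

open Matrix

set_option linter.unusedSectionVars false
set_option linter.unusedVariables false

theorem VReg2_mem {A R ι : Type} [CommRing A] [AddCommGroup R] [Module A R]
    (b : Module.Basis ι A R) (𝔞 : Ideal A) (r : R) :
    r ∈ 𝔞 • (⊤ : Submodule A R) ↔ ∀ j, b.repr r j ∈ 𝔞 := by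
  constructor
  · intro h j
    refine Submodule.smul_induction_on h (fun a ha y _ => ?_) fun y z hy hz => ?_
    · rw [map_smul, Finsupp.smul_apply, smul_eq_mul]
      exact 𝔞.mul_mem_right _ ha
    · rw [map_add, Finsupp.add_apply]
      exact add_mem hy hz
  · intro h
    rw [← b.linearCombination_repr r, Finsupp.linearCombination_apply]
    exact sum_mem fun j _ => Submodule.smul_mem_smul (h j) Submodule.mem_top

theorem VReg2_seq {A : Type} [CommRing A] [IsRegularRing A] (𝔭 : Ideal A) [𝔭.IsPrime] :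
    ∃ g : ℕ → A, (∀ i < 𝔭.height.toNat, g i ∈ 𝔭) ∧
      (∀ i < 𝔭.height.toNat, ∀ x, g i * x ∈ sp g i → ∃ s ∉ 𝔭, s * x ∈ sp g i) ∧
      ∀ a ∈ 𝔭, ∃ s ∉ 𝔭, s * a ∈ sp g 𝔭.height.toNat := by
  let B := Localization.AtPrime 𝔭
  have hB : IsRegularLocalRing B := inferInstance
  obtain ⟨s, hs, hs'⟩ := Submodule.FG.exists_span_finset_card_eq_spanFinrank
    (IsNoetherian.noetherian (IsLocalRing.maximalIdeal B))
  have h1 : ringKrullDim B = (𝔭.height.toNat : ℕ) := by
    rw [IsLocalization.AtPrime.ringKrullDim_eq_height 𝔭 B]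
    exact congrArg _ (ENat.natCast_toNat 𝔭.height_ne_top_of_isPrime).symm
  have h2 := hB.spanFinrank_maximalIdeal
  rw [h1, ← hs, Nat.cast_inj] at h2
  obtain ⟨f, hp, hn, hm⟩ := reg_seq _ B s h2.le hs' h1.ge
  choose x hx using fun i => IsLocalization.surj 𝔭.primeCompl (f i)
  have hu : ∀ (i) (I : Ideal B), algebraMap A B (x i).1 ∈ I ↔ f i ∈ I := fun i I => by
    rw [← hx i, Ideal.mul_unit_mem_iff_mem _ (IsLocalization.map_units B (x i).2)]
  have he : ∀ i, (sp (fun j => (x j).1) i).map (algebraMap A B) = sp f i := by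
    intro i
    refine le_antisymm ?_ (Ideal.span_le.2 ?_)
    · rw [Ideal.map_le_iff_le_comap]
      refine Ideal.span_le.2 ?_
      rintro _ ⟨j, hj, rfl⟩
      exact (hu j (sp f i)).2 (Ideal.subset_span ⟨j, hj, rfl⟩)
    · rintro _ ⟨j, hj, rfl⟩
      exact (hu j _).1 (Ideal.mem_map_of_mem _ (Ideal.subset_span ⟨j, hj, rfl⟩))
  have hk : ∀ i a, algebraMap A B a ∈ sp f i → ∃ s ∉ 𝔭, s * a ∈ sp (fun j => (x j).1) i := by
    intro i a ha
    rw [← he] at ha
    exact (IsLocalization.algebraMap_mem_map_algebraMap_iff 𝔭.primeCompl B _ a).1 ha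
  refine ⟨fun j => (x j).1, fun i hi => ?_, fun i hi a ha => hk i a ?_, fun a ha => hk _ a ?_⟩
  · rw [← IsLocalization.AtPrime.to_map_mem_maximal_iff B 𝔭, hu, ← hm]
    exact Ideal.subset_span ⟨i, hi, rfl⟩
  · have h3 := Ideal.mem_map_of_mem (algebraMap A B) ha
    rw [he, map_mul] at h3
    exact ((hp i hi.le).mem_or_mem h3).resolve_left fun h => hn i hi ((hu i _).1 h)
  · rw [hm]
    exact (IsLocalization.AtPrime.to_map_mem_maximal_iff B 𝔭 a).2 ha

/-- Apply `reg_seq` to the localisation `B` at `𝔭` (its dimension is the height of `𝔭`) and take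
numerators `g i` of the sequence; the extension of `sp g i` to `B` is `sp f i`. For `R` use
coordinates in a basis and `exists_common`. -/
theorem seq_of_reg {A R : Type} [CommRing A] [IsRegularRing A] [Ring R] [Algebra A R]
    [Module.Free A R] (𝔭 : Ideal A) [𝔭.IsPrime] : Seq R 𝔭 𝔭.height.toNat := by
  obtain ⟨g, h1, h2, h3⟩ := VReg2_seq 𝔭
  refine ⟨g, h1, fun i hi r hr => ?_, h3⟩
  let b := Module.Free.chooseBasis A R
  rw [VReg2_mem b] at hr
  obtain ⟨s, hs, h⟩ := exists_common (𝔭 := 𝔭) (I := (b.repr r).support)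
    (C := fun j s => s * b.repr r j.1 ∈ sp g i)
    (fun j s t h => by
      rw [mul_assoc]
      exact Ideal.mul_mem_left _ _ h)
    (fun j => h2 i hi _ (by
      have := hr j.1
      rwa [map_smul, Finsupp.smul_apply, smul_eq_mul] at this))
  refine ⟨s, hs, (VReg2_mem b _ _).2 fun j => ?_⟩
  rw [map_smul, Finsupp.smul_apply, smul_eq_mul]
  by_cases hj : j ∈ (b.repr r).support
  · exact h ⟨j, hj⟩
  · rw [Finsupp.notMem_support_iff.1 hj, mul_zero]
    exact zero_mem _

theorem reg_loc {A : Type} [CommRing A] [IsRegularRing A] (T : Submonoid A) (S : Type)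
    [CommRing S] [Algebra A S] [IsLocalization T S] : IsRegularRing S := by
  have := IsLocalization.isNoetherianRing T S inferInstance
  refine isRegularRing_iff.2 fun p hp => ?_
  have := IsLocalization.isLocalization_isLocalization_atPrime_isLocalization T
    (Localization.AtPrime p) p
  exact IsRegularLocalRing.of_ringEquiv (IsLocalization.algEquiv
    (p.comap (algebraMap A S)).primeCompl (Localization.AtPrime (p.comap (algebraMap A S)))
    (Localization.AtPrime p)).toRingEquiv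

theorem VReg2_dim {A : Type} [CommRing A] (T : Submonoid A) (S : Type)
    [CommRing S] [Algebra A S] [IsLocalization T S] : ringKrullDim S ≤ ringKrullDim A := by
  refine (ringKrullDim_le_iff_height_le _).2 fun p hp => ?_
  rw [← IsLocalization.height_under T p]
  exact Ideal.height_le_ringKrullDim_of_isPrime

theorem VReg2_free (n : ℕ) : IsRegularRing (AddMonoidAlgebra ℤ (Fin n → ℤ)) ∧
    ringKrullDim (AddMonoidAlgebra ℤ (Fin n → ℤ)) ≤ (n + 1 : ℕ) := by
  induction n with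
  | zero =>
    have e : AddMonoidAlgebra ℤ (Fin 0 → ℤ) ≃+* ℤ := AddMonoidAlgebra.uniqueRingEquiv _
    refine ⟨IsRegularRing.of_ringEquiv e.symm, ?_⟩
    rw [ringKrullDim_eq_of_ringEquiv e]
    exact Ring.krullDimLE_iff.1 (inferInstance : Ring.KrullDimLE 1 ℤ)
  | succ n ih =>
    obtain ⟨h1, h2⟩ := ih
    have e0 : (Fin (n + 1) → ℤ) ≃+ ℤ × (Fin n → ℤ) :=
      (Fin.consLinearEquiv ℤ fun _ : Fin (n + 1) => ℤ).symm.toAddEquiv
    have e : AddMonoidAlgebra ℤ (Fin (n + 1) → ℤ) ≃+*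
        LaurentPolynomial (AddMonoidAlgebra ℤ (Fin n → ℤ)) :=
      (AddMonoidAlgebra.mapDomainRingEquiv ℤ e0).trans AddMonoidAlgebra.curryRingEquiv
    have h3 := reg_loc (Submonoid.powers (Polynomial.X : Polynomial
      (AddMonoidAlgebra ℤ (Fin n → ℤ)))) (LaurentPolynomial (AddMonoidAlgebra ℤ (Fin n → ℤ)))
    refine ⟨IsRegularRing.of_ringEquiv e.symm, ?_⟩
    rw [ringKrullDim_eq_of_ringEquiv e]
    refine (VReg2_dim (Submonoid.powers (Polynomial.X : Polynomial
      (AddMonoidAlgebra ℤ (Fin n → ℤ)))) _).trans ?_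
    rw [Polynomial.ringKrullDim_of_isNoetherianRing, Nat.cast_succ (n + 1)]
    exact add_le_add_left h2 1

/-- induction on the rank with Laurent polynomials, as in `UFd_free` -/
theorem reg_fa {K : Type} [CommGroup K] (hK : FA K) :
    IsRegularRing (ZG K) ∧ ∃ N : ℕ, ringKrullDim (ZG K) ≤ N := by
  obtain ⟨n, ⟨e⟩⟩ := hK
  obtain ⟨h1, h2⟩ := VReg2_free n
  have e' : AddMonoidAlgebra ℤ (Fin n → ℤ) ≃+* ZG K :=
    (AddMonoidAlgebra.toMultiplicativeAlgEquiv ℤ ℤ (Fin n → ℤ)).toRingEquiv.trans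
      (MonoidAlgebra.mapDomainRingEquiv ℤ e.symm)
  exact ⟨IsRegularRing.of_ringEquiv e', n + 1, ringKrullDim_eq_of_ringEquiv e' ▸ h2⟩

theorem ht_mono {A : Type} [CommRing A] [IsNoetherianRing A] {𝔮 𝔭 : Ideal A} [𝔮.IsPrime]
    [𝔭.IsPrime] (h : 𝔮 ≤ 𝔭) : 𝔮.height.toNat ≤ 𝔭.height.toNat :=
  ENat.toNat_le_toNat (Ideal.height_mono h) Ideal.height_ne_top_of_isPrime

theorem ht_le {A : Type} [CommRing A] {N : ℕ} (h : ringKrullDim A ≤ N) (𝔭 : Ideal A)
    [𝔭.IsPrime] : 𝔭.height.toNat ≤ N := by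
  have h1 : (𝔭.height : WithBot ℕ∞) ≤ N := Ideal.height_le_ringKrullDim_of_isPrime.trans h
  exact ENat.toNat_le_of_le_natCast (WithBot.coe_le_coe.1 h1)

end Pool.Agent.Work.MP_9d1ffa_al.VN
end

-- merged part: Pool.Agent.Work.MP_9d1ffa_al.VTr
section
/-! Truncation of complexes over coherent regular rings. -/

namespace Pool.Agent.Work.MP_9d1ffa_al.VN

open Matrix

set_option linter.unusedSectionVars false
set_option linter.unusedVariables false

variable {R : Type} [Ring R]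

/-- finitely generated submodules of free modules have finite free resolutions -/
def Coh (R : Type) [Ring R] : Prop :=
  ∀ (I : Type) [Fintype I] (U : Submodule R (I → R)), U.FG → ∃ n, FF R n U

/-- the cycles of degree `k` -/
def Zc (X : Cx R) (k : ℤ) : Submodule R (X.I → R) where
  carrier := {v | Vd X.p k v ∧ v ᵥ* X.d = 0}
  zero_mem' := ⟨vd_zero, zero_vecMul _⟩
  add_mem' ha hb := ⟨ha.1.add hb.1, by rw [add_vecMul, ha.2, hb.2, add_zero]⟩
  smul_mem' r v h := ⟨h.1.smul r, by rw [smul_vecMul, h.2, smul_zero]⟩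

/-- Schanuel. With `f` from `h.succ`, the pull back `P` of `q` and `f` is an extension of the free
module `F` by `ker f` (`FF.ext`), and `ker q` is the cokernel of a section `Fin k → R` into `P`
(`FF.coker`). -/
theorem ff_ker {F U : Type} [AddCommGroup F] [Module R F] [Module.Free R F] [Module.Finite R F]
    [AddCommGroup U] [Module R U] {n : ℕ} (h : FF R n U) (q : F →ₗ[R] U)
    (hq : Function.Surjective q) : ∃ m, FF R m (LinearMap.ker q) := by
  obtain ⟨k, f, hf, hk⟩ := h.succ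
  obtain ⟨g, hg⟩ := Module.projective_lifting_property q f hq
  have hg2 : ∀ y, q (g y) = f y := fun y => LinearMap.congr_fun hg y
  let D : (F × (Fin k → R)) →ₗ[R] U := q ∘ₗ LinearMap.fst R _ _ - f ∘ₗ LinearMap.snd R _ _
  have hD : ∀ z, z ∈ LinearMap.ker D ↔ q z.1 = f z.2 := fun z => by
    rw [LinearMap.mem_ker]
    exact sub_eq_zero
  have hF : FF R 0 F := ⟨inferInstance, inferInstance⟩
  have hK : FF R 0 (Fin k → R) := ⟨inferInstance, inferInstance⟩
  let i : LinearMap.ker f →ₗ[R] LinearMap.ker D :=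
    (LinearMap.inr R _ _ ∘ₗ (LinearMap.ker f).subtype).codRestrict _ fun y => (hD _).2 (by
      have hy : f y = 0 := y.2
      simp [hy])
  let π : LinearMap.ker D →ₗ[R] F := LinearMap.fst R _ _ ∘ₗ (LinearMap.ker D).subtype
  have hP : FF R n (LinearMap.ker D) := by
    refine FF.ext i π (fun x y hxy => ?_) (fun z => ⟨fun hz => ?_, ?_⟩) (fun x => ?_) hk
      (hF.mono (Nat.zero_le _))
    · exact Subtype.ext (congrArg (fun z : LinearMap.ker D => z.1.2) hxy)
    · have h1 : z.1.1 = 0 := hz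
      have h2 := (hD _).1 z.2
      rw [h1, map_zero] at h2
      exact ⟨⟨z.1.2, h2.symm⟩, Subtype.ext (Prod.ext h1.symm rfl)⟩
    · rintro ⟨x, rfl⟩
      rfl
    · obtain ⟨y, hy⟩ := hf (q x)
      exact ⟨⟨(x, y), (hD _).2 hy.symm⟩, rfl⟩
  let s : (Fin k → R) →ₗ[R] LinearMap.ker D :=
    (g.prod LinearMap.id).codRestrict _ fun y => (hD _).2 (hg2 y)
  let r : LinearMap.ker D →ₗ[R] LinearMap.ker q :=
    ((LinearMap.fst R _ _ - g ∘ₗ LinearMap.snd R _ _) ∘ₗ (LinearMap.ker D).subtype).codRestrict _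
      fun z => by
        have h2 := (hD _).1 z.2
        rw [LinearMap.mem_ker]
        change q (z.1.1 - g z.1.2) = 0
        rw [map_sub, hg2, h2, sub_self]
  refine FF.coker s r (fun x y hxy => ?_) (fun z => ⟨fun hz => ?_, ?_⟩) (fun x => ?_) hK hP
  · exact congrArg (fun z : LinearMap.ker D => z.1.2) hxy
  · have h1 : z.1.1 - g z.1.2 = 0 := congrArg Subtype.val hz
    exact ⟨z.1.2, Subtype.ext (Prod.ext (sub_eq_zero.1 h1).symm rfl)⟩
  · rintro ⟨x, rfl⟩
    exact Subtype.ext (sub_self (g x))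
  · have hx : q x = 0 := x.2
    refine ⟨⟨(x, 0), (hD _).2 (by simp [hx])⟩, Subtype.ext ?_⟩
    change x.1 - g 0 = x.1
    rw [map_zero, sub_zero]

theorem Coh.zc (h : Coh R) (X : Cx R) (k : ℤ) : ∃ n, FF R n (Zc X k) := by
  classical
  let E : Matrix {i // X.p i = k} X.I R := (1 : Matrix X.I X.I R).submatrix Subtype.val id
  have hE : ∀ (w : {i // X.p i = k} → R) (j : {i // X.p i = k}), (w ᵥ* E) j.1 = w j := by
    intro w j
    simp only [E, vecMul, dotProduct, submatrix_apply, id, one_apply, Subtype.val_inj, mul_ite,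
      mul_one, mul_zero, Finset.sum_ite_eq', Finset.mem_univ, if_true]
  have hE' : ∀ (w : {i // X.p i = k} → R) (i : X.I), X.p i ≠ k → (w ᵥ* E) i = 0 := by
    intro w i hi
    refine Finset.sum_eq_zero fun j _ => ?_
    have : j.1 ≠ i := fun e => hi (e ▸ j.2)
    change w j * (1 : Matrix X.I X.I R) j.1 i = 0
    rw [one_apply_ne this, mul_zero]
  let φ := (E * X.d).vecMulLinear
  obtain ⟨n, hn⟩ := h X.I (LinearMap.range φ) (Submodule.fg_range φ)
  obtain ⟨m, hm⟩ := ff_ker hn φ.rangeRestrict φ.surjective_rangeRestrict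
  rw [LinearMap.ker_rangeRestrict] at hm
  let ψ : LinearMap.ker φ →ₗ[R] Zc X k :=
    (E.vecMulLinear ∘ₗ (LinearMap.ker φ).subtype).codRestrict _ fun w =>
      ⟨fun i hi => by_contra fun e => hi (hE' w.1 i e), (vecMul_vecMul w.1 E X.d).trans w.2⟩
  refine ⟨m, hm.equiv (LinearEquiv.ofBijective ψ ⟨fun x y hxy => ?_, fun z => ?_⟩)⟩
  · refine Subtype.ext (funext fun j => ?_)
    rw [← hE x.1 j, ← hE y.1 j]
    exact congrFun (congrArg Subtype.val hxy) j.1
  · have h1 : (fun j : {i // X.p i = k} => z.1 j.1) ᵥ* E = z.1 := by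
      funext i
      by_cases hi : X.p i = k
      · exact hE _ ⟨i, hi⟩
      · rw [hE' _ i hi]
        by_contra e
        exact hi (z.2.1 i (Ne.symm e))
    refine ⟨⟨fun j => z.1 j.1, ?_⟩, Subtype.ext h1⟩
    change _ ᵥ* (E * X.d) = 0
    rw [← vecMul_vecMul, h1, z.2.2]

/-- the statement for one complex and one degree -/
def TrAt (X : Cx R) (a : ℤ) : Prop :=
  ∃ (T : Cx R) (t : Matrix T.I X.I R) (h : Ch T X t), (∀ i, a ≤ T.p i) ∧ Le h.cone (a - 1)

/-- Killing the cycles of degree `a`: use `merge` and `Re.ex`; in degree `a` the second cone has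
the cycles and at least the boundaries of the first one. -/
theorem trAt_step {X : Cx R} {a : ℤ} {L : Type} [Fintype L] [DecidableEq L] {G : Matrix L X.I R}
    (c : Ch (Cx.free R L a) X G) (hG : ∀ v ∈ Zc X a, ∃ w, w ᵥ* G = v)
    (h : TrAt c.cone (a + 1)) : TrAt X a := by
  obtain ⟨T, t, h', h1, h2⟩ := h
  obtain ⟨g, c', e⟩ := merge c h'
  refine ⟨g.ext, _, c', ?_, fun k hk => e.symm.ex ?_⟩
  · rintro (i | i)
    · exact le_refl a
    · exact (Int.le_add_one le_rfl).trans (h1 i)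
  · rcases (show a < k ∨ k = a by omega) with hk | rfl
    · exact h2 k (by omega)
    · intro v hv h0
      obtain ⟨v, z, rfl⟩ := VRe_split v
      obtain ⟨x, y, rfl⟩ := VRe_split v
      have hz : z = 0 := funext fun i => by_contra fun e => by
        have h3 : T.p i + 1 = k := hv (Sum.inr i) e
        have := h1 i
        omega
      have hy : y = 0 := funext fun i => by_contra fun e => by
        have h3 : k + 1 = k := hv (Sum.inl (Sum.inr i)) e
        omega
      subst hz hy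
      simp only [VRe_blocks, VRe_zero, zero_vecMul, add_zero] at h0
      obtain ⟨w, hw⟩ := hG x ⟨fun i => hv (Sum.inl (Sum.inl i)), h0.1.1⟩
      refine ⟨Sum.elim (Sum.elim 0 w) 0, ?_⟩
      simp only [VRe_blocks, zero_vecMul, add_zero, zero_add, hw, vecMul_zero, neg_zero]

/-- the matrix of a map from a finite free module to the cycles -/
theorem VTr_mat {X : Cx R} {m : ℤ} {F : Type} [AddCommGroup F] [Module R F] [Module.Free R F]
    [Module.Finite R F] (f : F →ₗ[R] Zc X m) :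
    ∃ (k : ℕ) (G : Matrix (Fin k) X.I R) (c : Ch (Cx.free R (Fin k) m) X G)
      (e : (Fin k → R) ≃ₗ[R] F), ∀ w, w ᵥ* G = (f (e w)).1 := by
  obtain ⟨k, ⟨e⟩⟩ := UFa_fin (S := R) F
  let G : Matrix (Fin k) X.I R := Matrix.of fun l => (f (e (Pi.single l 1))).1
  refine ⟨k, G, ⟨fun l i hi => ?_, ?_⟩, e, fun w => ?_⟩
  · exact ((f (e (Pi.single l 1))).2.1 i hi).trans (add_zero _).symm
  · rw [Matrix.zero_mul]
    funext l
    exact (f (e (Pi.single l 1))).2.2.symm
  · have h1 : w = ∑ l, w l • (Pi.single l 1 : Fin k → R) := by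
      funext j
      simp [Finset.sum_apply, Pi.single_apply]
    conv_rhs => rw [h1]
    funext i
    simp only [map_sum, map_smul, Submodule.coe_sum, Submodule.coe_smul, Finset.sum_apply,
      Pi.smul_apply, smul_eq_mul]
    rfl

theorem VTr_step {X : Cx R} {m : ℤ} (hX : ∀ i, X.p i ≤ m) {F : Type} [AddCommGroup F]
    [Module R F] [Module.Free R F] [Module.Finite R F] (f : F →ₗ[R] Zc X m)
    (hf : Function.Surjective f)
    (H : ∀ Y : Cx R, (∀ i, Y.p i ≤ m + 1) → (LinearMap.ker f ≃ₗ[R] Zc Y (m + 1)) →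
      TrAt Y (m + 1)) : TrAt X m := by
  obtain ⟨k, G, c, e, hG⟩ := VTr_mat f
  refine trAt_step c (fun v hv => ?_) (H _ ?_ ?_)
  · obtain ⟨y, hy⟩ := hf ⟨v, hv⟩
    exact ⟨e.symm y, by rw [hG, e.apply_symm_apply, hy]⟩
  · rintro (i | i)
    · exact (hX i).trans (Int.le_add_one le_rfl)
    · exact le_refl (m + 1)
  · let E : Matrix (Fin k) (X.I ⊕ Fin k) R := fromCols 0 1
    have hE : ∀ w : Fin k → R, w ᵥ* E = Sum.elim (0 : X.I → R) w := fun w => by
      simp only [E, vecMul_fromCols, vecMul_zero, vecMul_one]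
    let ψ : LinearMap.ker f →ₗ[R] Zc c.cone (m + 1) :=
      (E.vecMulLinear ∘ₗ (e.symm : F →ₗ[R] Fin k → R) ∘ₗ (LinearMap.ker f).subtype).codRestrict _
        fun y => by
          have hy : f y = 0 := y.2
          change e.symm y ᵥ* E ∈ _
          rw [hE]
          refine ⟨vd_elim.2 ⟨vd_zero, fun _ _ => rfl⟩, ?_⟩
          simp only [VRe_blocks, VRe_zero, zero_vecMul, zero_add, hG, e.apply_symm_apply, hy,
            neg_zero, vecMul_zero, and_true]
          rfl
    have hψ : ∀ y, (ψ y).1 = Sum.elim (0 : X.I → R) (e.symm y) := fun y => hE _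
    refine LinearEquiv.ofBijective ψ ⟨fun x y hxy => ?_, fun z => ?_⟩
    · have h1 := congrArg Subtype.val hxy
      rw [hψ, hψ, VRe_eq] at h1
      exact Subtype.ext (e.symm.injective h1.2)
    · obtain ⟨z, hz, h0⟩ := z
      obtain ⟨x, y, rfl⟩ := VRe_split z
      have hx : x = 0 := funext fun i => by_contra fun e => by
        have h3 : X.p i = m + 1 := hz (Sum.inl i) e
        have := hX i
        omega
      subst hx
      simp only [VRe_blocks, VRe_zero, zero_vecMul, zero_add, hG] at h0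
      refine ⟨⟨e y, Subtype.ext h0.1⟩, Subtype.ext ?_⟩
      rw [hψ, e.symm_apply_apply]

theorem VTr_zero {X : Cx R} {m : ℤ} (hX : ∀ i, X.p i ≤ m) (h : ∀ v ∈ Zc X m, v = 0) :
    TrAt X m := by
  have c : Ch (Cx.free R (Fin 0) m) X 0 :=
    ⟨hg_zero, by rw [Matrix.zero_mul, Matrix.zero_mul]⟩
  refine ⟨_, _, c, fun i => le_refl m, fun k hk v hv h0 => ⟨0, ?_⟩⟩
  obtain ⟨x, y, rfl⟩ := VRe_split v
  obtain rfl : y = 0 := Subsingleton.elim _ _
  simp only [VRe_blocks, VRe_zero, zero_vecMul, add_zero] at h0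
  have hx : x = 0 := by
    rcases (show m < k ∨ k = m by omega) with hk | rfl
    · refine funext fun i => by_contra fun e => ?_
      have h3 : X.p i = k := hv (Sum.inl i) e
      have := hX i
      omega
    · exact h x ⟨fun i => hv (Sum.inl i), h0.1⟩
  rw [hx, zero_vecMul, Sum.elim_zero_zero]

theorem VTr_free {X : Cx R} {m : ℤ} (hX : ∀ i, X.p i ≤ m) [Module.Free R (Zc X m)]
    [Module.Finite R (Zc X m)] : TrAt X m := by
  refine VTr_step hX LinearMap.id Function.surjective_id fun Y hY e => VTr_zero hY fun v hv => ?_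
  obtain ⟨y, hy⟩ := e.surjective ⟨v, hv⟩
  obtain rfl : y = 0 := Subtype.ext y.2
  rw [map_zero] at hy
  exact (congrArg Subtype.val hy).symm

/-- Induction on `n`. For a surjection `f` from a finite free module onto `Zc X m`, with matrix
`G`, the cone has degrees `≤ m + 1` and `Zc (cone) (m + 1)` is isomorphic to the kernel of `f`. If
`Zc X m` is zero take the empty complex; if it is free use one step; if it is stably free, a
quotient of a finite free module with finite free kernel, use two steps. -/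
theorem trAt_top (n : ℕ) : ∀ (X : Cx R) (m : ℤ), (∀ i, X.p i ≤ m) → FF R n (Zc X m) →
    TrAt X m := by
  induction n with
  | zero =>
    rintro X m hX ⟨h1, h2⟩
    obtain ⟨N, _, _, _, _, _⟩ := Module.IsStablyFree.exist_free_prod R (Zc X m)
    refine VTr_step hX (LinearMap.fst R (Zc X m) N) LinearMap.fst_surjective fun Y hY e => ?_
    rw [LinearMap.ker_fst] at e
    have e' := (LinearEquiv.ofInjective _ LinearMap.inr_injective).trans e
    have := Module.Free.of_equiv e'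
    have := Module.Finite.equiv e'
    exact VTr_free hY
  | succ n ih =>
    rintro X m hX ⟨k, f, hf, hk⟩
    exact VTr_step hX f hf fun Y hY e => ih Y _ hY (hk.equiv e)

/-- downward induction on `a ≤ M`, for all complexes with degrees `≤ M` -/
theorem Coh.trn (h : Coh R) : Trn R := by
  have key : ∀ (M : ℤ) (j : ℕ) (X : Cx R), (∀ i, X.p i ≤ M) → TrAt X (M - j) := by
    intro M j
    induction j with
    | zero =>
      intro X hX
      obtain ⟨n, hn⟩ := h.zc X M
      simpa using trAt_top n X M hX hn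
    | succ j ih =>
      intro X hX
      obtain ⟨n, hn⟩ := h.zc X (M - (j + 1 : ℕ))
      obtain ⟨k, f, hf, -⟩ := hn.succ
      obtain ⟨k', G, c, e, hG⟩ := VTr_mat f
      refine trAt_step c (fun v hv => ?_) ?_
      · obtain ⟨y, hy⟩ := hf ⟨v, hv⟩
        exact ⟨e.symm y, by rw [hG, e.apply_symm_apply, hy]⟩
      · rw [show M - (j + 1 : ℕ) + 1 = M - j by omega]
        refine ih _ ?_
        rintro (i | i)
        · exact hX i
        · change M - (j + 1 : ℕ) + 1 ≤ M
          omega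
  intro X a
  obtain ⟨N, hN⟩ := exists_bound X.p
  have := key (max (N : ℤ) a) (max (N : ℤ) a - a).toNat X fun i => (hN i).2.trans (le_max_left _ _)
  rwa [show max (N : ℤ) a - ((max (N : ℤ) a - a).toNat : ℤ) = a by omega] at this

/-- truncations are preserved by flat extensions -/
theorem TrAt.map {Λ : Type} [Ring Λ] {ι : R →+* Λ} (hι : Flt ι) {X : Cx R} {a : ℤ}
    (h : TrAt X a) : TrAt (X.map ι) a := by
  obtain ⟨T, t, c, h1, h2⟩ := h
  have c' : Ch (T.map ι) (X.map ι) (t.map ι) := ⟨c.1.map ι ι.map_zero, by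
    change T.d.map ι * t.map ι = t.map ι * X.d.map ι
    rw [← Matrix.map_mul, ← Matrix.map_mul, c.2]⟩
  have e : c'.cone.d = c.cone.d.map ι := by
    ext (i | i) (j | j) <;> simp
  refine ⟨_, _, c', h1, fun k hk v hv h0 => ?_⟩
  rw [e] at h0 ⊢
  exact hι _ _ _ (fun j => c.cone.p j = k) c.cone.d c.cone.d (h2 k hk) v hv h0

end Pool.Agent.Work.MP_9d1ffa_al.VN
end

-- merged part: Pool.Agent.Work.MP_9d1ffa_al.VGood
section
/-! The group ring of a free group times a free abelian group is good. -/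

namespace Pool.Agent.Work.MP_9d1ffa_al.VN

open Matrix MonoidAlgebra

set_option linter.unusedSectionVars false
set_option linter.unusedVariables false

variable {X K : Type}

theorem trn_free [Group K] (hK : FA K) : Trn (ZG (FreeGroup X × K)) := by
  classical
  intro C a
  obtain ⟨T, hT⟩ := exists_sup_finset C.d
  obtain ⟨S, hS⟩ := fin_gen (T.image Prod.fst)
  let ι : FreeGroup S →* FreeGroup X := FreeGroup.map Subtype.val
  let ρ : FreeGroup X →* FreeGroup S :=
    FreeGroup.lift fun x => if h : x ∈ S then FreeGroup.of ⟨x, h⟩ else 1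
  have key : ∀ z ∈ Gn (S : Set X), ι (ρ z) = z := fun z hz => by
    refine (Subgroup.closure_le ((ι.comp ρ).eqLocus (MonoidHom.id _))).2 ?_ hz
    rintro _ ⟨x, hx, rfl⟩
    have hx' : x ∈ S := hx
    change ι (ρ (FreeGroup.of x)) = FreeGroup.of x
    simp [ι, ρ, hx']
  have e : mp (ι.prodMap (MonoidHom.id K)) (mp (ρ.prodMap (MonoidHom.id K)) C.d) = C.d := by
    rw [mp_mp]
    refine (hT.mp_congr (f' := MonoidHom.id _) fun g hg => ?_).trans (mp_id C.d)
    exact Prod.ext (key _ (hS _ (Finset.mem_image_of_mem _ hg))) rfl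
  have hι : Function.Injective (ι.prodMap (MonoidHom.id K)) :=
    (FreeGroup.map_injective Subtype.val_injective).prodMap Function.injective_id
  have h0 : Coh (ZG (FreeGroup S × K)) := fun I _ U hU => ff_of_fg hK U hU
  have h1 : TrAt ((C.map (gm (ρ.prodMap (MonoidHom.id K)))).map
      (gm (ι.prodMap (MonoidHom.id K)))) a := TrAt.map (flt_gm _ hι) (h0.trn _ a)
  have h2 : (C.map (gm (ρ.prodMap (MonoidHom.id K)))).map
      (gm (ι.prodMap (MonoidHom.id K))) = C := by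
    obtain ⟨I, p, d, hd, dd⟩ := C
    simp only [Cx.map, Cx.mk.injEq, heq_eq_eq, true_and]
    exact e
  rwa [h2] at h1

theorem loc_free [CommGroup K] (hK : FA K) : ∃ _ : Algebra (ZG K) (ZG (FreeGroup X × K)),
    Nonempty (Loc (ZG K) (ZG (FreeGroup X × K))) := by
  let e : ZG (FreeGroup X × K) ≃+* MonoidAlgebra (ZG K) (FreeGroup X) := curryRingEquiv
  let alg : Algebra (ZG K) (ZG (FreeGroup X × K)) :=
    (e.symm.toRingHom.comp (algebraMap (ZG K) _)).toAlgebra' fun a x => e.injective (by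
      simp only [map_mul, RingEquiv.toRingHom_eq_coe, RingHom.comp_apply, RingHom.coe_coe,
        RingEquiv.apply_symm_apply]
      exact Algebra.commutes _ _)
  let e' : ZG (FreeGroup X × K) ≃ₐ[ZG K] MonoidAlgebra (ZG K) (FreeGroup X) :=
    AlgEquiv.ofRingEquiv (f := e) fun a => e.apply_symm_apply _
  have hs : ∀ (k : K) (n : ℤ), algebraMap (ZG K) (ZG (FreeGroup X × K)) (.single k n) =
      .single (1, k) n := fun k n => curryRingEquiv_symm_single _ _ _
  obtain ⟨hr, N, hN⟩ := reg_fa hK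
  have hfree : Module.Free (ZG K) (ZG (FreeGroup X × K)) :=
    Module.Free.of_equiv e'.toLinearEquiv.symm
  refine ⟨alg, ⟨⟨mapDomainRingEquiv ℤ (MulEquiv.inv K), fun a => ?_, fun a => ?_, inferInstance,
    fun 𝔭 => 𝔭.height.toNat, fun 𝔮 𝔭 _ _ h => ht_mono h, N, fun 𝔭 _ => ht_le hN 𝔭,
    fun 𝔭 _ => seq_of_reg 𝔭, fun 𝔭 _ => (fib_free _ X 𝔭).equiv e'⟩⟩⟩
  · induction a using MonoidAlgebra.induction_linear with
    | zero => simp
    | add a b ha hb => rw [map_add, map_add, ha, hb]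
    | single k n => simp
  · induction a using MonoidAlgebra.induction_linear with
    | zero => simp
    | add a b ha hb => rw [map_add, star_add, map_add, map_add, ha, hb]
    | single k n => simp [hs, star_single]

theorem good_free [Group K] (hK : FA K) : Good (ZG (FreeGroup X × K)) := by
  obtain ⟨n, ⟨e⟩⟩ := id hK
  let _ : CommGroup K :=
    { ‹Group K› with mul_comm := fun a b => e.injective (by rw [map_mul, map_mul, mul_comm]) }
  obtain ⟨_, ⟨L⟩⟩ := loc_free (X := X) hK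
  exact L.good (trn_free hK) (sfi_free hK)

end Pool.Agent.Work.MP_9d1ffa_al.VN
end
end
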