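import Pool.Agent.Work.MP_9d1ffa_al.Defs

/-! Betweenness in a graph, and intersections of conjugates of a subgroup. -/

namespace Pool.Agent.Work.MP_9d1ffa_al

/-- `x` lies on a geodesic from `a` to `b` -/
def Btw {V : Type} (T : SimpleGraph V) (a x b : V) : Prop :=
  T.dist a x + T.dist x b = T.dist a b

/-- the intersection of the conjugates `g H g⁻¹` for `g` in `S` -/
def CapT {G : Type} [Group G] (H : Subgroup G) (S : Finset G) : Subgroup G :=
  ⨅ g ∈ S, H.map (MulAut.conj g).toMonoidHom

end Pool.Agent.Work.MP_9d1ffa_al
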