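import Pool.Agent.Work.MP_9d1ffa_al.TreeNil
import Pool.Agent.Work.MP_9d1ffa_al.TDefs

/-! Extensions of the infinite cyclic group. -/

namespace Pool.Agent.Work.MP_9d1ffa_al

open Matrix MonoidAlgebra MulAction

set_option linter.unusedSectionVars false
set_option linter.unusedVariables false

open Pool.Agent.Work.MP_904812_al

variable {G : Type} [Group G] {F : Set (Subgroup G)}

/-- the line on which the group acts through `χ` -/
@[ext] structure CycLn (χ : G →* Multiplicative ℤ) where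
  z : ℤ

instance CycLn.act (χ : G →* Multiplicative ℤ) : MulAction G (CycLn χ) where
  smul g a := ⟨(χ g).toAdd + a.z⟩
  one_smul a := by
    change (⟨(χ 1).toAdd + a.z⟩ : CycLn χ) = a
    simp
  mul_smul g h a := by
    change (⟨(χ (g * h)).toAdd + a.z⟩ : CycLn χ) = ⟨(χ g).toAdd + ((χ h).toAdd + a.z)⟩
    simp [add_assoc]

theorem cyc_smul_z (χ : G →* Multiplicative ℤ) (g : G) (a : CycLn χ) :
    (g • a).z = (χ g).toAdd + a.z := rfl

def cycD (χ : G →* Multiplicative ℤ) (a b : CycLn χ) : ℤ := |a.z - b.z|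

theorem cyc_tr (χ : G →* Multiplicative ℤ) : Tr (cycD χ) where
  nonneg x y := abs_nonneg _
  self x := by simp [cycD]
  eq_of {x y} h := CycLn.ext (by unfold cycD at h; grind)
  symm x y := abs_sub_comm _ _
  tri x y z := abs_sub_le _ _ _
  ex_pt x y t h0 h1 := by
    unfold cycD at *
    rcases le_total x.z y.z with h | h
    · exact ⟨⟨x.z + t⟩, by grind, by grind⟩
    · exact ⟨⟨x.z - t⟩, by grind, by grind⟩
  four x y z w := by unfold cycD; grind
  med x y z := by
    unfold cycD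
    exact ⟨⟨max (min x.z y.z) (min (max x.z y.z) z.z)⟩, by grind, by grind, by grind⟩

theorem cyc_stab (χ : G →* Multiplicative ℤ) (v : CycLn χ) : stabilizer G v = χ.ker := by
  ext g
  rw [mem_stabilizer_iff, MonoidHom.mem_ker, CycLn.ext_iff, cyc_smul_z]
  simp

theorem cyc_stab2 (χ : G →* Multiplicative ℤ) (x y : CycLn χ) :
    stabilizer G (x, y) = χ.ker := by
  ext g
  rw [mem_stabilizer_iff, Prod.smul_mk, Prod.mk.injEq, ← mem_stabilizer_iff,
    ← mem_stabilizer_iff, cyc_stab, cyc_stab, and_self]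

/-- fine positions -/
@[ext] structure CycQ (H : Subgroup G) where
  e : Bool
  a : G ⧸ H
  b : G ⧸ H
  l : List (G ⧸ H)

instance CycQ.act (H : Subgroup G) : MulAction G (CycQ H) where
  smul g P := ⟨P.e, g • P.a, g • P.b, P.l.map (g • ·)⟩
  one_smul P := by
    change (⟨P.e, (1 : G) • P.a, (1 : G) • P.b, P.l.map ((1 : G) • ·)⟩ : CycQ H) = P
    simp
  mul_smul g h P := by
    change (⟨P.e, (g * h) • P.a, (g * h) • P.b, P.l.map ((g * h) • ·)⟩ : CycQ H) =
      ⟨P.e, g • h • P.a, g • h • P.b, (P.l.map (h • ·)).map (g • ·)⟩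
    simp [mul_smul]

theorem cyc_smul_def {H : Subgroup G} (g : G) (P : CycQ H) :
    g • P = ⟨P.e, g • P.a, g • P.b, P.l.map (g • ·)⟩ := rfl

noncomputable def cycLev (χ : G →* Multiplicative ℤ) {H : Subgroup G} (a : G ⧸ H) : ℤ :=
  (χ a.out).toAdd

theorem cycLev_mk {χ : G →* Multiplicative ℤ} {H : Subgroup G} (hH : H ≤ χ.ker) (g : G) :
    cycLev χ (g : G ⧸ H) = (χ g).toAdd := by
  obtain ⟨h, hh⟩ := QuotientGroup.mk_out_eq_mul H g
  rw [cycLev, hh, map_mul, MonoidHom.mem_ker.1 (hH h.2), mul_one]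

theorem cycLev_smul {χ : G →* Multiplicative ℤ} {H : Subgroup G} (hH : H ≤ χ.ker) (g : G)
    (a : G ⧸ H) : cycLev χ (g • a) = (χ g).toAdd + cycLev χ a := by
  induction a using QuotientGroup.induction_on with
  | H x =>
    rw [MulAction.Quotient.smul_coe, cycLev_mk hH, cycLev_mk hH, smul_eq_mul, map_mul, toAdd_mul]

def cycSg (e : Bool) (n : ℤ) : ℤ := if e then n else -n

def cycElts {H : Subgroup G} (P : CycQ H) : List (G ⧸ H) := P.a :: P.b :: P.l

def cycMv (χ : G →* Multiplicative ℤ) {H : Subgroup G} (P P' : CycQ H) : Prop :=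
  P.e = P'.e ∧ cycSg P.e (cycLev χ P.a) < cycSg P.e (cycLev χ P'.a) ∧
    cycSg P.e (cycLev χ P.b) < cycSg P.e (cycLev χ P'.b)

def cycHull {H : Subgroup G} (P P' : CycQ H) : CycQ H :=
  ⟨P.e, P.a, P'.b, cycElts P ++ cycElts P'⟩

noncomputable def cycSpan (χ : G →* Multiplicative ℤ) {H : Subgroup G} (P : CycQ H) : ℤ :=
  cycSg P.e (cycLev χ P.b - cycLev χ P.a)

def cycSub (χ : G →* Multiplicative ℤ) {H : Subgroup G} (P P' : CycQ H) : Prop :=
  cycElts P ⊆ cycElts P' ∧ cycSpan χ P < cycSpan χ P'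

theorem cyc_elts_smul {H : Subgroup G} (g : G) (P : CycQ H) :
    cycElts (g • P) = (cycElts P).map (g • ·) := rfl

theorem cyc_fix {H : Subgroup G} (g : G) (P : CycQ H) :
    g • P = P ↔ (cycElts P).map (g • ·) = cycElts P := by
  rw [cyc_smul_def, CycQ.ext_iff]
  simp [cycElts]

theorem cyc_mach {χ : G →* Multiplicative ℤ} {H : Subgroup G} (hH : H ≤ χ.ker) :
    Mach G (cycMv χ (H := H)) cycHull (cycSub χ) where
  inv g a b h := by
    obtain ⟨h1, h2, h3⟩ := h
    simp only [cycMv, cyc_smul_def, cycLev_smul hH]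
    unfold cycSg at *
    grind
  tr a b c h h' := by
    unfold cycMv cycSg at *
    grind
  eqv g a b := by
    refine CycQ.ext rfl rfl rfl ?_
    exact (List.map_append (f := fun x : G ⧸ H => g • x) (l₁ := cycElts a) (l₂ := cycElts b)).symm
  stab a b _ g h := by
    have h1 := congrArg CycQ.l h
    simp only [cyc_smul_def, cycHull, List.map_append] at h1
    obtain ⟨h2, h3⟩ := List.append_inj h1 (List.length_map _)
    exact ⟨(cyc_fix g a).2 h2, (cyc_fix g b).2 h3⟩
  step a b c h h' := by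
    unfold cycMv cycHull cycSg at *
    grind
  subl a b h := by
    refine ⟨fun x hx => ?_, ?_⟩
    · exact List.mem_cons_of_mem _ (List.mem_cons_of_mem _ (List.mem_append_left _ hx))
    · unfold cycMv cycSpan cycHull cycSg at *
      grind
  subr a b h := by
    refine ⟨fun x hx => ?_, ?_⟩
    · exact List.mem_cons_of_mem _ (List.mem_cons_of_mem _ (List.mem_append_right _ hx))
    · unfold cycMv cycSpan cycHull cycSg at *
      grind

open Classical in
noncomputable def cycSet {H : Subgroup G} (P : CycQ H) : Finset G :=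
  (cycElts P).toFinset.image fun a : G ⧸ H => a.out

theorem cyc_mem_set {H : Subgroup G} {P : CycQ H} {g : G} :
    g ∈ cycSet P ↔ ∃ a ∈ cycElts P, a.out = g := by
  simp [cycSet]

theorem cyc_mem_conj {H : Subgroup G} (a : G ⧸ H) (x : G) :
    x ∈ H.map (MulAut.conj a.out).toMonoidHom ↔ x • a = a := by
  conv_rhs => rw [← QuotientGroup.out_eq' a, MulAction.Quotient.smul_coe, eq_comm,
    QuotientGroup.eq, smul_eq_mul]
  rw [Subgroup.mem_map]
  constructor
  · rintro ⟨h, hh, rfl⟩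
    simpa [mul_assoc] using hh
  · intro h
    exact ⟨_, h, by simp [mul_assoc]⟩

theorem cyc_stabQ {H : Subgroup G} (P : CycQ H) : stabilizer G P = CapT H (cycSet P) := by
  ext x
  rw [mem_stabilizer_iff, cyc_fix, CapT]
  simp only [Subgroup.mem_iInf, cyc_mem_set]
  constructor
  · rintro h g ⟨a, ha, rfl⟩
    rw [cyc_mem_conj]
    conv_rhs at h => rw [← List.map_id (cycElts P)]
    exact List.map_inj_left.1 h a ha
  · intro h
    conv_rhs => rw [← List.map_id (cycElts P)]
    exact List.map_inj_left.2 fun a ha => (cyc_mem_conj a x).1 (h _ ⟨a, ha, rfl⟩)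

theorem cyc_main (χ : G →* Multiplicative ℤ) (hχ : Function.Surjective χ) (hK : K0Zero χ.ker)
    (C : Set (Subgroup G)) (hle : ∀ H ∈ C, H ≤ χ.ker)
    (hcof : ∀ Φ : Finset G, (∀ g ∈ Φ, g ∈ χ.ker) → ∃ H ∈ C, ∀ g ∈ Φ, g ∈ H)
    (hchain : ∀ H ∈ C, ∀ S : ℕ → Finset G, (S 0).Nonempty →
      (∀ n, S n ⊆ S (n + 1) ∧ CapT H (S (n + 1)) < CapT H (S n)) →
      (χ '' ⋃ n, (S n : Set G)).Infinite → ∃ n, RC (CapT H (S n)))
    (hN : ∃ L ∈ F, χ.ker ≤ L)
    (haxis : ∀ H ∈ C, ∀ S : Finset G, S.Nonempty → ∀ s : G, χ s ≠ 1 →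
      s ∈ Subgroup.normalizer (CapT H S : Set G) → ¬ RC (CapT H S) →
      ∃ L ∈ F, CapT H S ⊔ Subgroup.zpowers s ≤ L) :
    WhGen F := by
  classical
  intro n α hα
  obtain ⟨I, _, _, y, ν, h1, h2, h3⟩ := tree_nil (F := F) (cyc_tr χ) ⟨0⟩
    (fun g x y => by simp only [cycD, cyc_smul_z]; congr 1; ring)
    (fun g x y h e e' => by
      have a1 := congrArg CycLn.z e
      have a2 := congrArg CycLn.z e'
      rw [cyc_smul_z] at a1 a2
      unfold cycD at h
      grind)
    (fun x y _ => by rw [cyc_stab2]; exact hK)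
    (fun v => by rw [cyc_stab]; exact hN) α hα
  obtain ⟨Φ, hΦ, hfine⟩ := nilP_fine y ν h2
  have hc : ∀ i, ∃ c : G, (χ c).toAdd = (y i).1.z := fun i => by
    obtain ⟨c, hc⟩ := hχ (Multiplicative.ofAdd (y i).1.z)
    exact ⟨c, by rw [hc]; rfl⟩
  choose c hc using hc
  obtain ⟨H, hHC, hH⟩ := hcof (Φ.image fun t => (c t.1)⁻¹ * (t.2.1 * c t.2.2)) (by
    intro g hg
    obtain ⟨t, ht, rfl⟩ := Finset.mem_image.1 hg
    have a1 := congrArg (fun p => p.1.z) (hΦ t ht)
    simp only [Prod.smul_fst, cyc_smul_z] at a1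
    rw [MonoidHom.mem_ker, χ.map_mul, χ.map_mul, χ.map_inv, ← toAdd_eq_zero, toAdd_mul, toAdd_mul,
      toAdd_inv, hc, hc]
    omega)
  have hHk := hle H hHC
  let q : I → CycQ H := fun i => ⟨decide ((y i).1.z < (y i).2.z), c i, c i, []⟩
  have hq : NilP q ν := hfine (CycQ H) q fun t ht => by
    have a1 := congrArg (fun p => p.1.z) (hΦ t ht)
    have a2 := congrArg (fun p => p.2.z) (hΦ t ht)
    simp only [Prod.smul_fst, Prod.smul_snd, cyc_smul_z] at a1 a2
    have a3 : (c t.1 : G ⧸ H) = t.2.1 • (c t.2.2 : G ⧸ H) := by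
      rw [MulAction.Quotient.smul_coe, QuotientGroup.eq, smul_eq_mul]
      exact hH _ (Finset.mem_image_of_mem _ ht)
    rw [cyc_smul_def]
    refine CycQ.ext ?_ a3 a3 rfl
    simp only [q, decide_eq_decide]
    omega
  refine h3 (machine (cyc_mach hHk) ?_ ?_ q ν ?_ hq)
  · intro f hf
    simp only [cyc_stabQ] at hf
    suffices h : ∃ n, RC (CapT H (cycSet (f n))) from h.imp fun n hn => by rw [cyc_stabQ]; exact hn
    refine hchain H hHC (fun n => cycSet (f n)) ⟨_, cyc_mem_set.2 ⟨(f 0).a, List.mem_cons_self, rfl⟩⟩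
      (fun n => ⟨fun g hg => ?_, (hf n).2⟩) fun hfin => ?_
    · obtain ⟨a, ha, rfl⟩ := cyc_mem_set.1 hg
      exact cyc_mem_set.2 ⟨a, (hf n).1.1 ha, rfl⟩
    · obtain ⟨B, hB⟩ := (hfin.image fun t => |t.toAdd|).bddAbove
      have hb : ∀ n, ∀ a ∈ cycElts (f n), |cycLev χ a| ≤ B := fun n a ha =>
        hB ⟨_, ⟨a.out, Set.mem_iUnion.2 ⟨n, cyc_mem_set.2 ⟨a, ha, rfl⟩⟩, rfl⟩, rfl⟩
      have hs : ∀ n, |cycSpan χ (f n)| ≤ 2 * B := fun n => by
        have b1 := hb n (f n).a List.mem_cons_self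
        have b2 := hb n (f n).b (List.mem_cons_of_mem _ List.mem_cons_self)
        unfold cycSpan cycSg
        grind
      have hg : ∀ n : ℕ, cycSpan χ (f 0) + n ≤ cycSpan χ (f n) := fun n => by
        induction n with
        | zero => simp
        | succ n ih =>
          have := (hf n).1.2
          push_cast
          omega
      have b1 := hs 0
      have b2 := hs (4 * B + 1).toNat
      have b3 := hg (4 * B + 1).toNat
      grind
  · intro σ s hs
    rw [cyc_stabQ]
    refine haxis H hHC _ ⟨_, cyc_mem_set.2 ⟨σ.a, List.mem_cons_self, rfl⟩⟩ s fun h => ?_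
    have := hs.2.1
    simp only [cyc_smul_def, cycLev_smul hHk, h, toAdd_one, zero_add] at this
    exact lt_irrefl _ this
  · intro i j g hg
    obtain ⟨a1, a2, a3, a4⟩ := h1 i j g hg
    have a5 := congrArg CycLn.z a1
    have a6 : (g • y j).2.z ≠ (y i).1.z := fun h => a4 (CycLn.ext h)
    simp only [cycD, Prod.smul_fst, Prod.smul_snd, cyc_smul_z] at a2 a3 a5 a6
    simp only [cycMv, cyc_smul_def, q, cycLev_smul hHk, cycLev_mk hHk, hc, cycSg, decide_eq_decide,
      decide_eq_true_eq]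
    grind

end Pool.Agent.Work.MP_9d1ffa_al
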