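import Pool.Agent.Work.MP_9d1ffa_al.TDefs

/-! Groups through which an HNN extension maps to a given group. -/

namespace Pool.Agent.Work.MP_9d1ffa_al

/-- There is a group `H` with a homomorphism `κ` from `D` and an element `t` satisfying the
relations of the HNN extension of `D` along conjugation by `s`, and a compatible homomorphism `π`
to `G` which maps every invertible matrix over the group ring of `H` to a matrix that is stably a
product of matrices in `Gen F`. -/
def LoopTriv {G : Type} [Group G] (F : Set (Subgroup G)) (D : Subgroup G) (s : G) : Prop :=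
  ∃ (H : Type) (_ : Group H) (κ : D →* H) (t : H) (π : H →* G),
    (∀ d : D, π (κ d) = d) ∧ π t = s ∧
    (∀ d d' : D, (d' : G) * s = s * d → κ d' * t = t * κ d) ∧
    ∀ (n : ℕ) (A : Matrix (Fin n) (Fin n) (ZG H)), IsUnit A →
      Triv F (A.map (MonoidAlgebra.mapDomainRingHom ℤ π))

end Pool.Agent.Work.MP_9d1ffa_al
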