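import Pool.Agent.Work.MP_9d1ffa_al.KDefs
import Pool.Agent.Work.MP_9d1ffa_al.ULift
import Pool.Agent.Work.MP_9d1ffa_al.TreeNil

/-! Nilpotent matrices along a loop lift to the HNN extension. -/

namespace Pool.Agent.Work.MP_9d1ffa_al

open Matrix MonoidAlgebra MulAction Pool.Agent.Work.MP_904812_al

set_option linter.unusedSectionVars false
set_option linter.unusedVariables false

variable {G : Type} [Group G] {F : Set (Subgroup G)} {P : Type} [MulAction G P]

theorem loop_triv (σ : P) (s : G) (h : LoopTriv F (stabilizer G σ) s) {J : Type} [Fintype J]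
    [DecidableEq J] (b : Matrix J J (ZG G))
    (hb : MOn (fun _ : J => σ) (fun _ : J => σ) (Orb G σ (s • σ)) b)
    (hn : NilP (fun _ : J => σ) b) : Triv F (1 + b) := by
  classical
  obtain ⟨H, _, κ, t, π, h1, h2, h3, h4⟩ := h
  obtain ⟨X, k, hX, hL⟩ := hn
  let S : G → Prop := fun g => ∃ d d' : stabilizer G σ, g = d * s * d'
  let l : G → H := fun g => if e : S g then κ e.choose * t * κ e.choose_spec.choose else 1
  have hl : ∀ d d' : stabilizer G σ, l (d * s * d') = κ d * t * κ d' := fun d d' => by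
    have e : S (d * s * d') := ⟨d, d', rfl⟩
    have e' := e.choose_spec.choose_spec
    simp only [l, dif_pos e]
    generalize e.choose_spec.choose = y at e' ⊢
    generalize e.choose = x at e' ⊢
    have := h3 (d' * y⁻¹) (d⁻¹ * x) (by
      simp only [Subgroup.coe_mul, Subgroup.coe_inv]
      calc (d : G)⁻¹ * x * s = (d : G)⁻¹ * (x * s * y) * (y : G)⁻¹ := by group
        _ = s * (d' * (y : G)⁻¹) := by rw [← e']; group)
    simp only [map_mul, map_inv] at this
    calc κ x * t * κ y = κ d * ((κ d)⁻¹ * κ x * t) * κ y := by group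
      _ = κ d * t * κ d' := by rw [this]; group
  have hS : ∀ i j g, (b i j).coeff g ≠ 0 → S g := fun i j g e => by
    obtain ⟨γ, f1, f2⟩ := hb i j g e
    exact ⟨⟨γ, f1.symm⟩, ⟨(γ * s)⁻¹ * g, by
      rw [mem_stabilizer_iff, mul_smul, f2, ← mul_smul γ s, inv_smul_smul]⟩,
      (mul_inv_cancel_left _ _).symm⟩
  have hnil : IsNilpotent (b.map (liftL l)) := by
    refine nilpotent_of_filt (fun m => liftT κ (X m)) k (by rw [hX.top, liftT_top])
      (by rw [hX.bot, liftT_bot]) fun m => liftT_step κ (S := S) ?_ ?_ ?_ σ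
        (fun g => mem_stabilizer_iff.symm) (hX.gr _) hS (hL m)
    · rintro d _ ⟨x, y, rfl⟩
      exact ⟨d * x, y, by simp [mul_assoc]⟩
    · rintro d _ ⟨x, y, rfl⟩
      have := hl (d * x) y
      rw [hl, ← mul_assoc, ← mul_assoc, ← mul_assoc, ← mul_assoc, ← map_mul]
      exact this
    · rintro d _ ⟨x, y, rfl⟩
      have := hl x (y * d)
      rw [hl, mul_assoc, mul_assoc (κ x * t), ← map_mul]
      exact this
  have hm : (1 + b.map (liftL l)).map (mapDomainRingHom ℤ π) = 1 + b := by
    rw [Matrix.map_add _ (map_add _), Matrix.map_one _ (map_zero _) (map_one _)]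
    congr 1
    funext i j
    refine zg_induction (C := fun x => mapDomainRingHom ℤ π (liftL l x) = x) (by simp)
      (fun x y hx hy => by rw [map_add, map_add, hx, hy]) ?_ (hS i j)
    rintro _ n ⟨x, y, rfl⟩
    rw [liftL_single, hl]
    simp [h1, h2]
  let e := (Fintype.equivFin J).symm
  obtain ⟨C, c1, c2⟩ := isUnit_iff_exists.1 hnil.isUnit_one_add
  have := (h4 _ ((1 + b.map (liftL l)).submatrix e e) (isUnit_iff_exists.2 ⟨C.submatrix e e,
    by rw [submatrix_mul_equiv, c1, submatrix_one_equiv],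
    by rw [submatrix_mul_equiv, c2, submatrix_one_equiv]⟩)).reindex e.symm
  rwa [← submatrix_map, hm, submatrix_submatrix, e.self_comp_symm, submatrix_id_id] at this

theorem machine2 {mv : P → P → Prop} {hull : P → P → P} {sub : P → P → Prop}
    (M : Mach G mv hull sub)
    (hchain : ∀ f : ℕ → P, (∀ n, sub (f n) (f (n + 1)) ∧
      stabilizer G (f (n + 1)) < stabilizer G (f n)) → ∃ n, RC (stabilizer G (f n)) ∨
        ∀ s : G, mv (f n) (s • f n) → LoopTriv F (stabilizer G (f n)) s)
    (haxis : ∀ (σ : P) (s : G), mv σ (s • σ) →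
      s ∈ Subgroup.normalizer (stabilizer G σ : Set G) →
      RC (stabilizer G σ) ∨ LoopTriv F (stabilizer G σ) s)
    {I : Type} [Fintype I] [DecidableEq I] (p : I → P) (ν : Matrix I I (ZG G))
    (hν : MOn p p mv ν) (hn : NilP p ν) : Triv F (1 + ν) := by
  classical
  let r : P → P → Prop := fun τ σ =>
    sub σ τ ∧ stabilizer G τ < stabilizer G σ ∧ ¬ (RC (stabilizer G σ) ∨
      ∀ s : G, mv σ (s • σ) → LoopTriv F (stabilizer G σ) s)
  have hwf : WellFounded r := by
    rw [wellFounded_iff_isEmpty_descending_chain]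
    refine ⟨fun f => ?_⟩
    obtain ⟨n, hn⟩ := hchain f.1 fun n => ⟨(f.2 n).1, (f.2 n).2.1⟩
    exact (f.2 n).2.2 hn
  have claim : ∀ σ : P, ∀ s : G, mv σ (s • σ) → ∀ (J : Type) [Fintype J] [DecidableEq J]
      (b : Matrix J J (ZG G)), MOn (fun _ : J => σ) (fun _ : J => σ) (Orb G σ (s • σ)) b →
      NilP (fun _ : J => σ) b → Triv F (1 + b) := by
    intro σ
    induction σ using hwf.induction with
    | _ σ ih =>
    intro s hs J _ _ b hb hn
    by_cases hRC : RC (stabilizer G σ) ∨ ∀ s : G, mv σ (s • σ) → LoopTriv F (stabilizer G σ) s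
    · exact hRC.elim (fun h => rc_nil σ h b hn) fun h => loop_triv σ s (h s hs) b hb hn
    by_cases hN : s ∈ Subgroup.normalizer (stabilizer G σ : Set G)
    · exact (haxis σ s hs hN).elim (fun h => rc_nil σ h b hn) fun h => loop_triv σ s h b hb hn
    obtain ⟨L, _, _, c, hc, hcn, himp⟩ := refine_step (F := F) M σ s hs b hb hn
    apply himp
    obtain ⟨τ₀, γ₀, hτ₀, hr⟩ : ∃ (τ₀ : P) (γ₀ : G), hull σ (s • σ) = γ₀ • τ₀ ∧ r τ₀ σ := by
      by_cases hx : ∃ x ∈ stabilizer G σ, x • s • σ ≠ s • σ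
      · obtain ⟨x, hx, hx'⟩ := hx
        refine ⟨hull σ (s • σ), 1, (one_smul _ _).symm, M.subl _ _ hs, ?_, hRC⟩
        refine lt_of_le_of_ne (fun g hg => (M.stab _ _ hs g hg).1) fun e => hx' ?_
        exact (M.stab _ _ hs x (by rw [← e] at hx; exact hx)).2
      · push Not at hx
        have hs' : mv (s⁻¹ • σ) σ := by simpa using M.inv s⁻¹ _ _ hs
        refine ⟨hull (s⁻¹ • σ) σ, s, by rw [← M.eqv, smul_inv_smul], M.subr _ _ hs', ?_, hRC⟩
        refine lt_of_le_of_ne (fun g hg => (M.stab _ _ hs' g hg).2) fun e => hN ?_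
        rw [Subgroup.mem_normalizer_iff]
        intro h
        constructor
        · intro hh
          have h1 : h ∈ stabilizer G (hull (s⁻¹ • σ) σ) := by rw [e]; exact hh
          have h2 := (M.stab _ _ hs' h h1).1
          show (s * h * s⁻¹) • σ = σ
          rw [mul_smul, mul_smul, h2, smul_inv_smul]
        · intro hh
          have h2 := hx _ hh
          show h • σ = σ
          rw [mul_smul, mul_smul, inv_smul_smul, smul_left_cancel_iff] at h2
          exact h2
    refine lazard mv M.inv M.tr _ c hc hcn fun i j g hg a ha han => ?_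
    refine loop_red _ τ₀ ((γ₀⁻¹ * g * γ₀) • τ₀) a (ha.mono ?_) han fun t ht J' _ _ b' hb' hn' => ?_
    · rintro x y ⟨γ, rfl, rfl⟩
      refine ⟨γ * γ₀, by rw [hτ₀, mul_smul], ?_⟩
      rw [hτ₀]
      simp [mul_smul]
    · rw [ht] at hb'
      refine ih τ₀ hr t ?_ J' b' hb' hn'
      rw [← ht]
      have := M.inv γ₀⁻¹ _ _ hg
      rw [hτ₀] at this
      simpa [mul_smul] using this
  refine lazard mv M.inv M.tr p ν hν hn fun i j g hg a ha han => ?_
  refine loop_red p (p i) (g • p j) a ha han fun t ht J' _ _ b' hb' hn' => ?_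
  rw [ht] at hb' hg
  exact claim (p i) t hg J' b' hb' hn'

theorem tree_main2 {V : Type} [MulAction G V] {d : V → V → ℤ} (htr : Tr d) (v₀ : V)
    (iso : ∀ (g : G) x y, d (g • x) (g • y) = d x y)
    (noinv : ∀ (g : G) x y, d x y = 1 → g • x = y → g • y ≠ x)
    (hK : ∀ x y : V, d x y = 1 → K0Zero (stabilizer G (x, y)))
    (hF : ∀ v : V, ∃ H ∈ F, stabilizer G v ≤ H)
    (hchain : ∀ f : ℕ → V × V, (∀ n, subT d (f n) (f (n + 1)) ∧
      stabilizer G (f (n + 1)) < stabilizer G (f n)) → ∃ n, RC (stabilizer G (f n)) ∨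
        ∀ s : G, mvT d (f n) (s • f n) → LoopTriv F (stabilizer G (f n)) s)
    (haxis : ∀ (σ : V × V) (s : G), mvT d σ (s • σ) →
      s ∈ Subgroup.normalizer (stabilizer G σ : Set G) →
      RC (stabilizer G σ) ∨ LoopTriv F (stabilizer G σ) s) :
    WhGen F := by
  intro n α hα
  obtain ⟨I, _, _, y, ν, h1, h2, h3⟩ := tree_nil (F := F) htr v₀ iso noinv hK hF α hα
  exact h3 (machine2 (mach_tree htr iso) hchain haxis y ν
    (h1.mono fun _ _ a => stp_mvT htr a) h2)

end Pool.Agent.Work.MP_9d1ffa_al
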