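import Pool.Agent.Work.MP_9d1ffa_al.Triv
import Pool.Agent.Work.MP_9d1ffa_al.NilP

/-! Elimination: reduction to matrices supported on a single orbit of pairs. -/

namespace Pool.Agent.Work.MP_9d1ffa_al

open Matrix MonoidAlgebra MulAction

set_option linter.unusedSectionVars false
set_option linter.unusedVariables false

variable {G : Type} [Group G] {F : Set (Subgroup G)} {P : Type} [MulAction G P] {I : Type}
  [Fintype I] [DecidableEq I]

theorem LazardLow_zero (X : ℕ → Submodule (ZG G) (I → ZG G)) (w : ℕ) :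
    Low X w (0 : Matrix I I (ZG G)) := fun m x hx => by
  rw [Matrix.vecMul_zero]; exact zero_mem _

theorem LazardLow_add {X : ℕ → Submodule (ZG G) (I → ZG G)} {w : ℕ} {a b : Matrix I I (ZG G)}
    (ha : Low X w a) (hb : Low X w b) : Low X w (a + b) := fun m x hx => by
  rw [Matrix.vecMul_add]; exact add_mem (ha m x hx) (hb m x hx)

theorem LazardLow_neg {X : ℕ → Submodule (ZG G) (I → ZG G)} {w : ℕ} {a : Matrix I I (ZG G)}
    (ha : Low X w a) : Low X w (-a) := fun m x hx => by
  rw [Matrix.vecMul_neg]; exact neg_mem (ha m x hx)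

theorem LazardLow_mul {X : ℕ → Submodule (ZG G) (I → ZG G)} {w w' : ℕ}
    {a b : Matrix I I (ZG G)} (ha : Low X w a) (hb : Low X w' b) : Low X (w + w') (a * b) :=
  fun m x hx => by
    rw [← Matrix.vecMul_vecMul, ← add_assoc]; exact hb _ _ (ha m x hx)

theorem LazardLow_anti {p : I → P} {X : ℕ → Submodule (ZG G) (I → ZG G)} {k : ℕ}
    (hX : Filt p X k) {w w' : ℕ} (h : w ≤ w') {a : Matrix I I (ZG G)} (ha : Low X w' a) :
    Low X w a := fun m x hx => hX.antitone (Nat.add_le_add_left h m) (ha m x hx)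

theorem LazardLow_eq_zero {p : I → P} {X : ℕ → Submodule (ZG G) (I → ZG G)} {k : ℕ}
    (hX : Filt p X k) {w : ℕ} (h : k ≤ w) {a : Matrix I I (ZG G)} (ha : Low X w a) : a = 0 := by
  funext i
  have h1 := ha 0 (Pi.single i 1) (by rw [hX.top]; trivial)
  rw [zero_add, single_vecMul_row] at h1
  have h2 := hX.antitone h h1
  rw [hX.bot] at h2
  exact (Submodule.mem_bot _).1 h2

theorem LazardLow_mfil {p : I → P} {X : ℕ → Submodule (ZG G) (I → ZG G)} {k : ℕ}
    (hX : Filt p X k) {w : ℕ} {a : Matrix I I (ZG G)} (ha : Low X w a) {ρ : P → P → Prop}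
    (hρ : Inv G ρ) : Low X w (mfil p p ρ a) := fun m x hx => by
  obtain ⟨s, hs⟩ := exists_pos_finset p x
  rw [← hs.sum_proj, Matrix.sum_vecMul]
  refine sum_mem fun σ _ => ?_
  rw [(vOn_proj p (· = σ) x).vecMul_mfil hρ]
  exact hX.proj_mem _ _ (ha m _ (hX.gr m σ x hx))

/-- the matrices moving along `mv` and lowering the filtration by `w` -/
def LazardJ (mv : P → P → Prop) (p : I → P) (X : ℕ → Submodule (ZG G) (I → ZG G)) (w : ℕ)
    (a : Matrix I I (ZG G)) : Prop :=
  MOn p p mv a ∧ Low X w a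

section

variable {mv : P → P → Prop} {p : I → P} {X : ℕ → Submodule (ZG G) (I → ZG G)} {k : ℕ}

theorem LazardJ.zero (w : ℕ) : LazardJ mv p X w (0 : Matrix I I (ZG G)) :=
  ⟨mOn_zero _ _ _, LazardLow_zero _ _⟩

theorem LazardJ.add {w : ℕ} {a b : Matrix I I (ZG G)} (ha : LazardJ mv p X w a)
    (hb : LazardJ mv p X w b) : LazardJ mv p X w (a + b) :=
  ⟨ha.1.add hb.1, LazardLow_add ha.2 hb.2⟩

theorem LazardJ.neg {w : ℕ} {a : Matrix I I (ZG G)} (ha : LazardJ mv p X w a) :
    LazardJ mv p X w (-a) :=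
  ⟨ha.1.neg, LazardLow_neg ha.2⟩

theorem LazardJ.mul (hinv : Inv G mv) (htr : ∀ a b c, mv a b → mv b c → mv a c) {w w' : ℕ}
    {a b : Matrix I I (ZG G)} (ha : LazardJ mv p X w a) (hb : LazardJ mv p X w' b) :
    LazardJ mv p X (w + w') (a * b) :=
  ⟨(ha.1.mul hb.1 hinv).mono fun x z ⟨y, h1, h2⟩ => htr x y z h1 h2, LazardLow_mul ha.2 hb.2⟩

theorem LazardJ.anti (hX : Filt p X k) {w w' : ℕ} (h : w ≤ w') {a : Matrix I I (ZG G)}
    (ha : LazardJ mv p X w' a) : LazardJ mv p X w a :=
  ⟨ha.1, LazardLow_anti hX h ha.2⟩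

theorem LazardJ.mfil (hX : Filt p X k) {w : ℕ} {a : Matrix I I (ZG G)}
    (ha : LazardJ mv p X w a) {ρ : P → P → Prop} (hρ : Inv G ρ) :
    LazardJ mv p X w (mfil p p ρ a) :=
  ⟨ha.1.mfil ρ, LazardLow_mfil hX ha.2 hρ⟩

theorem LazardJ.inv (hinv : Inv G mv) (htr : ∀ a b c, mv a b → mv b c → mv a c)
    (hX : Filt p X k) (n : ℕ) : ∀ (w : ℕ), 1 ≤ w → k ≤ w + n → ∀ a : Matrix I I (ZG G),
      LazardJ mv p X w a → ∃ a', LazardJ mv p X w a' ∧ (1 + a) * (1 + a') = 1 := by
  induction n with
  | zero =>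
    intro w hw hk a ha
    have : a = 0 := LazardLow_eq_zero hX (by simpa using hk) ha.2
    exact ⟨0, LazardJ.zero w, by simp [this]⟩
  | succ n ih =>
    intro w hw hk a ha
    have h2 : LazardJ mv p X (w + 1) (-(a * a)) :=
      (LazardJ.anti hX (by omega) (ha.mul hinv htr ha)).neg
    obtain ⟨b, hb, e⟩ := ih (w + 1) (by omega) (by omega) _ h2
    have hb' : LazardJ mv p X w b := hb.anti hX (by omega)
    refine ⟨-a + b + -(a * b), (ha.neg.add hb').add
      (LazardJ.anti hX (by omega) (ha.mul hinv htr hb')).neg, ?_⟩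
    refine Eq.trans ?_ e
    noncomm_ring

end

/-- the number of terms of a matrix -/
def LazardSize (a : Matrix I I (ZG G)) : ℕ := ∑ t : I × I, (a t.1 t.2).coeff.support.card

theorem LazardSize_lt (p : I → P) (ρ : P → P → Prop) (a : Matrix I I (ZG G)) (i j : I) (g : G)
    (hg : (a i j).coeff g ≠ 0) (hρ : ¬ ρ (p i) (g • p j)) :
    LazardSize (mfil p p ρ a) < LazardSize a := by
  classical
  have hsub : ∀ i j, (mfil p p ρ a i j).coeff.support ⊆ (a i j).coeff.support := by
    intro i j g hg
    rw [Finsupp.mem_support_iff] at hg ⊢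
    rw [coeff_mfil] at hg
    intro e
    simp [e] at hg
  refine Finset.sum_lt_sum (fun t _ => Finset.card_le_card (hsub t.1 t.2)) ⟨(i, j), by simp, ?_⟩
  refine Finset.card_lt_card ⟨hsub i j, fun h => ?_⟩
  have := h (Finsupp.mem_support_iff.2 hg)
  rw [Finsupp.mem_support_iff, coeff_mfil] at this
  simp [hρ] at this

theorem lazard (mv : P → P → Prop) (hinv : Inv G mv) (htr : ∀ a b c, mv a b → mv b c → mv a c)
    (p : I → P) (ν : Matrix I I (ZG G)) (hν : MOn p p mv ν) (hn : NilP p ν)
    (h1 : ∀ (i j : I) (g : G), mv (p i) (g • p j) → ∀ a : Matrix I I (ZG G),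
      MOn p p (Orb G (p i) (g • p j)) a → NilP p a → Triv F (1 + a)) :
    Triv F (1 + ν) := by
  obtain ⟨X, k, hX, hL⟩ := hn
  have key : ∀ (n w : ℕ), 1 ≤ w → k ≤ w + n → ∀ a : Matrix I I (ZG G), LazardJ mv p X w a →
      Triv F (1 + a) := by
    intro n
    induction n with
    | zero =>
      intro w hw hk a ha
      have : a = 0 := LazardLow_eq_zero hX (by simpa using hk) ha.2
      rw [this, add_zero]
      exact triv_one
    | succ n ih =>
      intro w hw hk
      have step : ∀ (N : ℕ) (a c : Matrix I I (ZG G)), LazardSize a < N → LazardJ mv p X w a →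
          LazardJ mv p X (w + 1) c → Triv F (1 + a + c) := by
        intro N
        induction N with
        | zero => intro a c h; omega
        | succ N ihN =>
          intro a c hN ha hc
          by_cases h0 : a = 0
          · rw [h0, add_zero]
            exact ih (w + 1) (by omega) (by omega) c hc
          obtain ⟨i, j, g, hg⟩ : ∃ i j g, (a i j).coeff g ≠ 0 := by
            by_contra hne
            push Not at hne
            exact h0 (mat_ext fun i j g => by simpa using hne i j g)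
          have hO := inv_orb (G := G) (p i) (g • p j)
          have hO' : Inv G fun x y => ¬ Orb G (p i) (g • p j) x y :=
            fun γ x y h e => h ((hO.iff γ x y).1 e)
          have ha1 := ha.mfil hX hO
          have ha2 := ha.mfil hX hO'
          have hs := mfil_add_not p p (Orb G (p i) (g • p j)) a
          have hlt := LazardSize_lt p (fun x y => ¬ Orb G (p i) (g • p j) x y) a i j g hg
            (fun h => h ⟨1, by simp, by simp⟩)
          have ht1 := h1 i j g (ha.1 i j g hg) _ (mOn_mfil p p (Orb G (p i) (g • p j)) a)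
            ⟨X, k, hX, LazardLow_anti hX hw ha1.2⟩
          generalize mfil p p (Orb G (p i) (g • p j)) a = a₁ at ha1 hs ht1
          generalize mfil p p (fun x y => ¬ Orb G (p i) (g • p j) x y) a = a₂ at ha2 hs hlt
          obtain ⟨b, hb, e⟩ := LazardJ.inv hinv htr hX k w hw (by omega) a₁ ha1
          have hc' : LazardJ mv p X (w + 1) (c + b * (a₂ + c)) :=
            hc.add (LazardJ.anti hX (by omega)
              (hb.mul hinv htr (ha2.add (hc.anti hX (by omega)))))
          have ht2 := ihN a₂ _ (by omega) ha2 hc'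
          have hm := ht1.mul ht2
          have : (1 + a₁) * (1 + a₂ + (c + b * (a₂ + c))) = 1 + a + c := by
            have e1 : 1 + a₂ + (c + b * (a₂ + c)) = 1 + (1 + b) * (a₂ + c) := by noncomm_ring
            rw [e1, mul_add, ← mul_assoc, e, ← hs]
            noncomm_ring
          rwa [this] at hm
      intro a ha
      have := step _ a 0 (Nat.lt_succ_self _) ha (LazardJ.zero _)
      rwa [add_zero] at this
  exact key k 1 le_rfl (by omega) ν ⟨hν, hL⟩

theorem loop_red (p : I → P) (σ τ : P) (a : Matrix I I (ZG G)) (ha : MOn p p (Orb G σ τ) a)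
    (hn : NilP p a)
    (h : ∀ s : G, τ = s • σ → ∀ (J : Type) [Fintype J] [DecidableEq J] (b : Matrix J J (ZG G)),
      MOn (fun _ : J => σ) (fun _ : J => σ) (Orb G σ τ) b → NilP (fun _ : J => σ) b →
      Triv F (1 + b)) :
    Triv F (1 + a) := by
  classical
  have hsup : ∀ i j, a i j ≠ 0 → (∃ c : G, p i = c • σ) ∧ ∃ c : G, p j = c • τ := by
    intro i j hij
    obtain ⟨g, hg⟩ : ∃ g, (a i j).coeff g ≠ 0 := by
      by_contra hne
      push Not at hne
      exact hij (by ext g; simpa using hne g)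
    obtain ⟨γ, e1, e2⟩ := ha i j g hg
    exact ⟨⟨γ, e1⟩, g⁻¹ * γ, by rw [mul_smul, ← e2, inv_smul_smul]⟩
  by_cases hs : ∃ s : G, τ = s • σ
  swap
  · refine triv_tri (fun i => if ∃ c : G, p i = c • σ then 0 else 1) a fun i j hij => ?_
    obtain ⟨h1, c, h2⟩ := hsup i j hij
    have h3 : ¬ ∃ c : G, p j = c • σ := by
      rintro ⟨d, hd⟩
      exact hs ⟨c⁻¹ * d, by rw [mul_smul, ← hd, h2, inv_smul_smul]⟩
    simp only [if_pos h1, if_neg h3]
    exact Nat.zero_lt_one
  obtain ⟨s, hs⟩ := hs
  let J : Type := {i : I // ∃ c : G, p i = c • σ}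
  have hc : ∀ j : J, ∃ c : G, p j.1 = c • σ := fun j => j.2
  choose c hc using hc
  let u : Matrix I J (ZG G) := Matrix.of fun i j => if i = j.1 then single (c j) 1 else 0
  let w : Matrix J I (ZG G) := Matrix.of fun j i => if i = j.1 then single (c j)⁻¹ 1 else 0
  have hu : MOn p (fun _ : J => σ) Eq u := by
    intro i j g hg
    by_cases e : i = j.1
    · have : g = c j := by
        by_contra e'
        apply hg
        simp [u, e, Ne.symm e']
      rw [e, this, hc]
    · simp [u, e] at hg
  have hw : MOn (fun _ : J => σ) p Eq w := by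
    intro j i g hg
    by_cases e : i = j.1
    · have : g = (c j)⁻¹ := by
        by_contra e'
        apply hg
        simp [w, e, Ne.symm e']
      rw [e, this, hc, inv_smul_smul]
    · simp [w, e] at hg
  have huw : a * u * w = a := by
    funext i l
    rw [Matrix.mul_apply]
    have hau : ∀ j : J, (a * u) i j = a i j.1 * single (c j) 1 := by
      intro j
      rw [Matrix.mul_apply, Finset.sum_eq_single j.1]
      · simp [u]
      · intro b _ hb
        simp [u, hb]
      · simp
    by_cases hl : ∃ c : G, p l = c • σ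
    · rw [Finset.sum_eq_single (⟨l, hl⟩ : J)]
      · rw [hau]
        simp [w, mul_assoc, single_mul_single, ← one_def]
      · intro b _ hb
        have : l ≠ b.1 := fun e => hb (Subtype.ext e.symm)
        simp [w, this]
      · simp
    · have h0 : a i l = 0 := by
        by_contra hne
        obtain ⟨-, d, hd⟩ := hsup i l hne
        exact hl ⟨d * s, by rw [hd, hs, mul_smul]⟩
      rw [h0]
      refine Finset.sum_eq_zero fun b _ => ?_
      have : l ≠ b.1 := fun e => hl (e ▸ b.2)
      simp [w, this]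
  have hau : MOn p (fun _ : J => σ) (Orb G σ τ) (a * u) :=
    (ha.mul hu inv_eq).mono fun x z ⟨y, h1, h2⟩ => h2 ▸ h1
  have hb : MOn (fun _ : J => σ) (fun _ : J => σ) (Orb G σ τ) (w * (a * u)) :=
    (hw.mul hau (inv_orb σ τ)).mono fun x z ⟨y, h1, h2⟩ => h1 ▸ h2
  have hnb : NilP (fun _ : J => σ) (w * (a * u)) :=
    nilP_transfer p (fun _ : J => σ) (fun _ _ => True) Eq (fun _ _ _ _ => trivial) inv_eq
      (a * u) w (fun _ _ _ _ => trivial) hw (fun _ _ _ h1 h2 => h1 ▸ h2)
      (fun _ _ _ _ _ _ h1 h2 => h1.trans h2.symm) (by rwa [huw])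
  have := triv_swap (F := F) (a * u) w (h s hs J _ hb hnb)
  rwa [huw] at this

end Pool.Agent.Work.MP_9d1ffa_al
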