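import Pool.Agent.Work.MP_9d1ffa_al.OU1

-- merged part: Pool.Agent.Work.MP_9d1ffa_al.OU3
section
-- merged part: Pool.Agent.Work.MP_9d1ffa_al.OU2
section
/-! Products of elementary isometries. -/

namespace Pool.Agent.Work.MP_9d1ffa_al

open Matrix MonoidAlgebra

set_option linter.unusedSectionVars false
set_option linter.unusedVariables false

variable {R S : Type} [Ring R] [StarRing R] [Ring S] [StarRing S] {η : ℤˣ} {I J K : Type}
  [Fintype I] [DecidableEq I] [Fintype J] [DecidableEq J] [Fintype K] [DecidableEq K]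

theorem GenU.mem {U : Matrix (I ⊕ I) (I ⊕ I) R} (h : GenU η U) : U ∈ RU R η I :=
  Submonoid.subset_closure h

/-- the square of a swap along an idempotent -/
theorem OU2_sq {e : Matrix I I R} (he : e * e = e) :
    fromBlocks (1 - e) e ((η : ℤ) • e) (1 - e) * fromBlocks (1 - e) e ((η : ℤ) • e) (1 - e) =
      fromBlocks (1 - e + (η : ℤ) • e) 0 0 (1 - e + (η : ℤ) • e) := by
  rw [fromBlocks_multiply]
  simp only [Matrix.mul_sub, Matrix.sub_mul, Matrix.mul_smul, Matrix.smul_mul, Matrix.mul_one,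
    Matrix.one_mul, he, sub_self, sub_zero, smul_zero, add_zero]
  rw [add_comm ((η : ℤ) • e)]

theorem OU2_invol {e : Matrix I I R} (he : e * e = e) :
    (1 - e + (η : ℤ) • e) * (1 - e + (η : ℤ) • e) = 1 := by
  simp only [Matrix.mul_sub, Matrix.sub_mul, Matrix.mul_add, Matrix.add_mul, Matrix.mul_smul,
    Matrix.smul_mul, Matrix.mul_one, Matrix.one_mul, he, sub_self, eps_eps, zero_add]
  abel

theorem OU2_gen_inv {U : Matrix (I ⊕ I) (I ⊕ I) R} (h : GenU η U) :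
    ∃ V ∈ RU R η I, U * V = 1 ∧ V * U = 1 := by
  have hm := h.mem
  cases h with
  | gl g g' h1 h2 =>
    refine ⟨_, (GenU.gl g' g h2 h1).mem, ?_, ?_⟩
    · rw [fromBlocks_multiply, ← conjTranspose_mul, h1]; simp
    · rw [fromBlocks_multiply, ← conjTranspose_mul, h2]; simp
  | sh χ =>
    refine ⟨_, (GenU.sh (-χ)).mem, ?_, ?_⟩
    · rw [fromBlocks_multiply, ← fromBlocks_one]
      simp only [Matrix.mul_one, Matrix.one_mul, Matrix.mul_zero, Matrix.zero_mul, add_zero,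
        zero_add, conjTranspose_neg, smul_neg]
      congr 1; abel
    · rw [fromBlocks_multiply, ← fromBlocks_one]
      simp only [Matrix.mul_one, Matrix.one_mul, Matrix.mul_zero, Matrix.zero_mul, add_zero,
        zero_add, conjTranspose_neg, smul_neg]
      congr 1; abel
  | sw κ s h =>
    have he : sᴴ * s * (sᴴ * s) = sᴴ * s := by
      rw [Matrix.mul_assoc, ← Matrix.mul_assoc s, h, Matrix.one_mul]
    generalize sᴴ * s = e at he hm
    set σ := fromBlocks (1 - e) e ((η : ℤ) • e) (1 - e) with hσ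
    have h4 : σ * σ * (σ * σ) = 1 := by
      rw [hσ, OU2_sq he, fromBlocks_multiply, OU2_invol he]; simp
    refine ⟨σ * (σ * σ), mul_mem hm (mul_mem hm hm), ?_, ?_⟩
    · rw [← h4]; simp only [Matrix.mul_assoc]
    · rw [← h4]; simp only [Matrix.mul_assoc]

theorem OU2_inv {U : Matrix (I ⊕ I) (I ⊕ I) R} (h : U ∈ RU R η I) :
    ∃ V ∈ RU R η I, U * V = 1 ∧ V * U = 1 := by
  induction h using Submonoid.closure_induction with
  | mem U h => exact OU2_gen_inv h
  | one => exact ⟨1, one_mem _, mul_one _, mul_one _⟩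
  | mul U U' _ _ h h' =>
    obtain ⟨V, hV, a, b⟩ := h
    obtain ⟨V', hV', a', b'⟩ := h'
    refine ⟨V' * V, mul_mem hV' hV, ?_, ?_⟩
    · rw [mul_assoc, ← mul_assoc U', a', one_mul, a]
    · rw [mul_assoc, ← mul_assoc V, b, one_mul, b']

theorem ru_inv {U V : Matrix (I ⊕ I) (I ⊕ I) R} (h : U ∈ RU R η I) (h1 : U * V = 1) :
    V ∈ RU R η I := by
  obtain ⟨W, hW, _, b⟩ := OU2_inv h
  have : V = W := by rw [← one_mul V, ← b, mul_assoc, h1, mul_one]
  exact this ▸ hW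

theorem OU2_cancel {U W : Matrix (I ⊕ I) (I ⊕ I) R} (h : U * W ∈ RU R η I) (hW : W ∈ RU R η I) :
    U ∈ RU R η I := by
  obtain ⟨V, hV, a, _⟩ := OU2_inv hW
  have := mul_mem h hV
  rwa [mul_assoc, a, mul_one] at this

theorem OU2_cancel' {U W : Matrix (I ⊕ I) (I ⊕ I) R} (h : W * U ∈ RU R η I) (hW : W ∈ RU R η I) :
    U ∈ RU R η I := by
  obtain ⟨V, hV, _, b⟩ := OU2_inv hW
  have := mul_mem hV h
  rwa [← mul_assoc, b, one_mul] at this

theorem OU2_of_eq {U V : Matrix (I ⊕ I) (I ⊕ I) R} (h : GenU η V) (e : U = V) : U ∈ RU R η I :=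
  e ▸ h.mem

theorem ru_dsum_one {U : Matrix (I ⊕ I) (I ⊕ I) R} (h : U ∈ RU R η I) :
    dsum U (1 : Matrix (J ⊕ J) (J ⊕ J) R) ∈ RU R η (I ⊕ J) := by
  induction h using Submonoid.closure_induction with
  | one => rw [dsum_one]; exact one_mem _
  | mul U U' _ _ h h' =>
    have := mul_mem h h'
    rwa [dsum_mul, mul_one] at this
  | mem U h =>
    rw [← fromBlocks_one]
    cases h with
    | gl g g' h1 h2 =>
      refine OU2_of_eq (GenU.gl (fromBlocks g 0 0 1) (fromBlocks g' 0 0 1) ?_ ?_) ?_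
      · rw [fromBlocks_multiply, h1]; simp
      · rw [fromBlocks_multiply, h2]; simp
      · rw [dsum_blocks, fromBlocks_conjTranspose]; simp
    | sh χ =>
      refine OU2_of_eq (GenU.sh (fromBlocks χ 0 0 0)) ?_
      rw [dsum_blocks, fromBlocks_conjTranspose, fromBlocks_smul, sub_eq_add_neg (fromBlocks _ _ _ _),
        fromBlocks_neg, fromBlocks_add]
      simp [sub_eq_add_neg]
    | sw κ s h =>
      have e : (fromCols s (0 : Matrix κ J R))ᴴ * fromCols s (0 : Matrix κ J R) =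
          fromBlocks (sᴴ * s) 0 0 0 := by
        rw [conjTranspose_fromCols_eq_fromRows_conjTranspose, fromRows_mul_fromCols]; simp
      refine OU2_of_eq (GenU.sw κ (fromCols s (0 : Matrix κ J R)) ?_) ?_
      · rw [conjTranspose_fromCols_eq_fromRows_conjTranspose, fromCols_mul_fromRows, h]; simp
      · rw [dsum_blocks, e, ← fromBlocks_one (l := I) (m := J), sub_eq_add_neg (fromBlocks _ _ _ _),
          fromBlocks_neg, fromBlocks_add, fromBlocks_smul]
        simp [sub_eq_add_neg]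

theorem OU2_sub (a b c d : Matrix I I R) (e : J ≃ I) :
    (fromBlocks a b c d).submatrix (e.sumCongr e) (e.sumCongr e) =
      fromBlocks (a.submatrix e e) (b.submatrix e e) (c.submatrix e e) (d.submatrix e e) := by
  ext (i | i) (j | j) <;> rfl

theorem ru_reindex {U : Matrix (I ⊕ I) (I ⊕ I) R} (h : U ∈ RU R η I) (e : J ≃ I) :
    U.submatrix (e.sumCongr e) (e.sumCongr e) ∈ RU R η J := by
  induction h using Submonoid.closure_induction with
  | one => rw [submatrix_one_equiv]; exact one_mem _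
  | mul U U' _ _ h h' =>
    have := mul_mem h h'
    rwa [submatrix_mul_equiv] at this
  | mem U h =>
    cases h with
    | gl g g' h1 h2 =>
      refine OU2_of_eq (GenU.gl (g.submatrix e e) (g'.submatrix e e) ?_ ?_) ?_
      · rw [submatrix_mul_equiv, h1, submatrix_one_equiv]
      · rw [submatrix_mul_equiv, h2, submatrix_one_equiv]
      · rw [OU2_sub]; rfl
    | sh χ =>
      refine OU2_of_eq (GenU.sh (χ.submatrix e e)) ?_
      rw [OU2_sub, submatrix_one_equiv]; rfl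
    | sw κ s h =>
      have e1 : (s.submatrix id e)ᴴ * s.submatrix id e = (sᴴ * s).submatrix e e := by
        rw [conjTranspose_submatrix]
        exact submatrix_mul_equiv _ _ _ (Equiv.refl κ) _
      refine OU2_of_eq (GenU.sw κ (s.submatrix id e) ?_) ?_
      · rw [conjTranspose_submatrix, submatrix_mul_equiv, h]; rfl
      · rw [OU2_sub, e1, ← submatrix_one_equiv e]; rfl

theorem ru_map (f : R →+* S) (hf : ∀ x, f (star x) = star (f x)) {U : Matrix (I ⊕ I) (I ⊕ I) R}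
    (h : U ∈ RU R η I) : U.map f ∈ RU S η I := by
  have ct : ∀ {A B : Type} (M : Matrix A B R), (M.map f)ᴴ = Mᴴ.map f := fun M =>
    (conjTranspose_map f hf).symm
  have sb : ∀ M N : Matrix I I R, (M - N).map f = M.map f - N.map f := fun M N => by
    ext; simp
  have sm : ∀ M : Matrix I I R, ((η : ℤ) • M).map f = (η : ℤ) • M.map f := fun M => by
    ext; simp only [Matrix.map_apply, Matrix.smul_apply, map_zsmul]
  have on : ∀ {A : Type} [DecidableEq A], (1 : Matrix A A R).map f = 1 :=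
    Matrix.map_one f (map_zero f) (map_one f)
  have ze : (0 : Matrix I I R).map f = 0 := Matrix.map_zero f (map_zero f)
  induction h using Submonoid.closure_induction with
  | one => rw [on]; exact one_mem _
  | mul U U' _ _ h h' => rw [Matrix.map_mul]; exact mul_mem h h'
  | mem U h =>
    cases h with
    | gl g g' h1 h2 =>
      refine OU2_of_eq (GenU.gl (g.map f) (g'.map f) ?_ ?_) ?_
      · rw [← Matrix.map_mul, h1, on]
      · rw [← Matrix.map_mul, h2, on]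
      · rw [fromBlocks_map, ct, ze]
    | sh χ =>
      refine OU2_of_eq (GenU.sh (χ.map f)) ?_
      rw [fromBlocks_map, ct, ze, on, sb, sm]
    | sw κ s h =>
      refine OU2_of_eq (GenU.sw κ (s.map f) ?_) ?_
      · rw [ct, ← Matrix.map_mul, h, on]
      · rw [fromBlocks_map, ct, ← Matrix.map_mul, sb, sm, on]

/-- the lower shears -/
theorem OU2_low {T : Matrix I I R} (h : Eqv η 0 T) :
    (fromBlocks 1 0 T 1 : Matrix (I ⊕ I) (I ⊕ I) R) ∈ RU R η I := by
  obtain ⟨χ, rfl⟩ := h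
  refine OU2_cancel (W := fromBlocks 0 1 ((η : ℤ) • 1) 0) ?_ genU_swap.mem
  have := mul_mem (genU_swap (R := R) (η := η) (I := I)).mem (GenU.sh (η := η) ((η : ℤ) • χ)).mem
  convert this using 1
  simp only [fromBlocks_multiply, Matrix.mul_one, Matrix.one_mul, Matrix.mul_zero, Matrix.zero_mul,
    add_zero, zero_add, Matrix.smul_mul, ct_zsmul, smul_sub, eps_eps]

theorem ru_tu {U : Matrix (I ⊕ I) (I ⊕ I) R} (h : Uni η U) (h0 : U.toBlocks₁₂ = 0) :
    U ∈ RU R η I := by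
  rw [← fromBlocks_toBlocks U, h0] at h ⊢
  generalize U.toBlocks₁₁ = a, U.toBlocks₂₁ = c, U.toBlocks₂₂ = d at h ⊢
  obtain ⟨hu, -, hc, h1⟩ := uni_iff.1 h
  rw [Matrix.zero_mul, smul_zero, add_zero] at h1
  have h2 : d * aᴴ = 1 := by
    rw [← conjTranspose_conjTranspose d, ← conjTranspose_mul, h1, conjTranspose_one]
  obtain ⟨W, hW⟩ := hu.exists_left_inv
  rw [← fromBlocks_toBlocks W, fromBlocks_multiply, ← fromBlocks_one] at hW
  have h3 := (fromBlocks_inj.1 hW).2.2.2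
  rw [Matrix.mul_zero, zero_add] at h3
  have h4 : aᴴ * d = 1 := by
    rw [← Matrix.one_mul aᴴ, ← h3, Matrix.mul_assoc _ d, h2, Matrix.mul_one, h3]
  have h5 : dᴴ * a = 1 := by
    rw [← conjTranspose_conjTranspose a, ← conjTranspose_mul, h4, conjTranspose_one]
  have h6 : Eqv η 0 (aᴴ * c) := by
    have := hc.conj aᴴ
    rwa [Matrix.mul_zero, Matrix.zero_mul, conjTranspose_conjTranspose, Matrix.mul_assoc,
      Matrix.mul_assoc, h5, Matrix.mul_one] at this
  have := mul_mem (GenU.gl (η := η) a dᴴ h1 h5).mem (OU2_low h6)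
  convert this using 1
  simp only [fromBlocks_multiply, Matrix.mul_one, Matrix.mul_zero, Matrix.zero_mul,
    add_zero, zero_add, conjTranspose_conjTranspose, ← Matrix.mul_assoc, h2, Matrix.one_mul]

theorem ru_compl {U : Matrix (I ⊕ I) (I ⊕ I) R} (h : Uni η U) (h0 : IsUnit U.toBlocks₁₂) :
    U ∈ RU R η I := by
  rw [← fromBlocks_toBlocks U] at h ⊢
  generalize U.toBlocks₁₁ = a, U.toBlocks₁₂ = b, U.toBlocks₂₁ = c, U.toBlocks₂₂ = d at h h0 ⊢
  obtain ⟨-, ha, -, -⟩ := uni_iff.1 h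
  obtain ⟨b', h1, h2⟩ := isUnit_iff_exists.1 h0
  have h3 : Eqv η 0 (-(b' * a)) := by
    have := (ha.conj b').neg
    rwa [Matrix.mul_zero, Matrix.zero_mul, neg_zero, Matrix.mul_assoc, Matrix.mul_assoc,
      ← conjTranspose_mul, h2, conjTranspose_one, Matrix.mul_one] at this
  have hW := mul_mem (OU2_low h3) (genU_swap (R := R) (η := η) (I := I)).mem
  refine OU2_cancel (ru_tu (h.mul (Uni.of_mem hW)) ?_) hW
  simp only [fromBlocks_multiply, Matrix.mul_one, Matrix.mul_zero, Matrix.zero_mul,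
    add_zero, zero_add, Matrix.one_mul, toBlocks_fromBlocks₁₂, Matrix.mul_neg, ← Matrix.mul_assoc,
    h1, add_neg_cancel]

theorem OU2_rows {D D' X : Matrix (I ⊕ I) (I ⊕ I) R} (M : Matrix I I R) (h : D * D' = 1)
    (h1 : X.toBlocks₁₁ = M * D.toBlocks₁₁) (h2 : X.toBlocks₁₂ = M * D.toBlocks₁₂) :
    (X * D').toBlocks₁₂ = 0 := by
  rw [← fromBlocks_toBlocks D, ← fromBlocks_toBlocks D', fromBlocks_multiply, ← fromBlocks_one] at h
  rw [← fromBlocks_toBlocks X, ← fromBlocks_toBlocks D', fromBlocks_multiply, toBlocks_fromBlocks₁₂,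
    h1, h2, Matrix.mul_assoc, Matrix.mul_assoc, ← Matrix.mul_add, (fromBlocks_inj.1 h).2.1,
    Matrix.mul_zero]

/-- an element whose upper rows span the antidiagonal -/
theorem OU2_diag : ∃ D ∈ RU R η (I ⊕ I), D.toBlocks₁₁ = fromBlocks 1 1 0 0 ∧
    D.toBlocks₁₂ = fromBlocks 0 0 (-1) 1 := by
  have e : (fromCols (0 : Matrix I I R) (1 : Matrix I I R))ᴴ *
      fromCols (0 : Matrix I I R) (1 : Matrix I I R) = fromBlocks 0 0 0 1 := by
    rw [conjTranspose_fromCols_eq_fromRows_conjTranspose, fromRows_mul_fromCols]; simp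
  have e1 : (1 : Matrix (I ⊕ I) (I ⊕ I) R) - fromBlocks 0 0 0 1 = fromBlocks 1 0 0 0 := by
    rw [sub_eq_iff_eq_add, fromBlocks_add]; simp
  have h1 := (GenU.sw (η := η) I (fromCols (0 : Matrix I I R) (1 : Matrix I I R)) (by
    rw [conjTranspose_fromCols_eq_fromRows_conjTranspose, fromCols_mul_fromRows]; simp)).mem
  have h2 := (GenU.gl (η := η) (fromBlocks 1 1 0 1 : Matrix (I ⊕ I) (I ⊕ I) R)
    (fromBlocks 1 (-1) 0 1) (by simp [fromBlocks_multiply]) (by simp [fromBlocks_multiply])).mem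
  rw [e, e1] at h1
  refine ⟨_, mul_mem h1 h2, ?_, ?_⟩
  · simp [fromBlocks_multiply]
  · simp [fromBlocks_multiply, fromBlocks_conjTranspose]

theorem ru_white {U : Matrix (I ⊕ I) (I ⊕ I) R} (h : Uni η U) :
    dsum U (fA (-1) U) ∈ RU R η (I ⊕ I) := by
  obtain ⟨D, hD, e1, e2⟩ := OU2_diag (R := R) (η := η) (I := I)
  obtain ⟨D', hD', a, -⟩ := OU2_inv hD
  refine OU2_cancel' (OU2_cancel (ru_tu (((Uni.of_mem hD).mul (h.dsum h.fA_neg)).mul
    (Uni.of_mem hD')) (OU2_rows (fA (-1) U) a ?_ ?_)) hD') hD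
  · rw [← fromBlocks_toBlocks D, dsum_eq, fromBlocks_multiply, e1, e2]
    simp [fA, fromBlocks_multiply, fromBlocks_add]
  · rw [← fromBlocks_toBlocks D, dsum_eq, fromBlocks_multiply, e1, e2]
    simp [fA, fromBlocks_multiply, fromBlocks_add]

end Pool.Agent.Work.MP_9d1ffa_al
end

-- merged part: Pool.Agent.Work.MP_9d1ffa_al.OU3
section
/-! Stably elementary isometries form a normal subgroup with abelian quotient. -/

namespace Pool.Agent.Work.MP_9d1ffa_al

open Matrix MonoidAlgebra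

set_option linter.unusedSectionVars false
set_option linter.unusedVariables false

variable {R S : Type} [Ring R] [StarRing R] [Ring S] [StarRing S] {η : ℤˣ} {I J K : Type}
  [Fintype I] [DecidableEq I] [Fintype J] [DecidableEq J] [Fintype K] [DecidableEq K]

theorem OU3_assoc (U : Matrix (I ⊕ I) (I ⊕ I) R) (V : Matrix (J ⊕ J) (J ⊕ J) R)
    (W : Matrix (K ⊕ K) (K ⊕ K) R) : dsum (dsum U V) W = (dsum U (dsum V W)).submatrix
      ((Equiv.sumAssoc I J K).sumCongr (Equiv.sumAssoc I J K))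
      ((Equiv.sumAssoc I J K).sumCongr (Equiv.sumAssoc I J K)) := by
  ext (((i | i) | i) | ((i | i) | i)) (((j | j) | j) | ((j | j) | j)) <;> rfl

theorem OU3_assoc' (U : Matrix (I ⊕ I) (I ⊕ I) R) (V : Matrix (J ⊕ J) (J ⊕ J) R)
    (W : Matrix (K ⊕ K) (K ⊕ K) R) : dsum U (dsum V W) = (dsum (dsum U V) W).submatrix
      ((Equiv.sumAssoc I J K).symm.sumCongr (Equiv.sumAssoc I J K).symm)
      ((Equiv.sumAssoc I J K).symm.sumCongr (Equiv.sumAssoc I J K).symm) := by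
  ext ((i | i | i) | (i | i | i)) ((j | j | j) | (j | j | j)) <;> rfl

theorem OU3_comm (U : Matrix (I ⊕ I) (I ⊕ I) R) (V : Matrix (J ⊕ J) (J ⊕ J) R) :
    dsum V U = (dsum U V).submatrix ((Equiv.sumComm J I).sumCongr (Equiv.sumComm J I))
      ((Equiv.sumComm J I).sumCongr (Equiv.sumComm J I)) := by
  ext ((i | i) | (i | i)) ((j | j) | (j | j)) <;> rfl

theorem OU3_re (U : Matrix (I ⊕ I) (I ⊕ I) R) (W : Matrix (K ⊕ K) (K ⊕ K) R) (e : J ≃ I) :
    dsum (U.submatrix (e.sumCongr e) (e.sumCongr e)) W = (dsum U W).submatrix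
      ((e.sumCongr (Equiv.refl K)).sumCongr (e.sumCongr (Equiv.refl K)))
      ((e.sumCongr (Equiv.refl K)).sumCongr (e.sumCongr (Equiv.refl K))) := by
  ext ((i | i) | (i | i)) ((j | j) | (j | j)) <;> rfl

theorem OU3_re' (U : Matrix (I ⊕ I) (I ⊕ I) R) (W : Matrix (K ⊕ K) (K ⊕ K) R) (e : J ≃ K) :
    dsum U (W.submatrix (e.sumCongr e) (e.sumCongr e)) = (dsum U W).submatrix
      (((Equiv.refl I).sumCongr e).sumCongr ((Equiv.refl I).sumCongr e))
      (((Equiv.refl I).sumCongr e).sumCongr ((Equiv.refl I).sumCongr e)) := by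
  ext ((i | i) | (i | i)) ((j | j) | (j | j)) <;> rfl

theorem OU3_pad {U : Matrix (I ⊕ I) (I ⊕ I) R}
    (h : dsum U (1 : Matrix (J ⊕ J) (J ⊕ J) R) ∈ RU R η (I ⊕ J)) :
    dsum U (1 : Matrix ((J ⊕ K) ⊕ (J ⊕ K)) ((J ⊕ K) ⊕ (J ⊕ K)) R) ∈ RU R η (I ⊕ (J ⊕ K)) := by
  rw [← dsum_one, OU3_assoc']
  exact ru_reindex (ru_dsum_one h) _

theorem OU3_pad' {U : Matrix (I ⊕ I) (I ⊕ I) R}
    (h : dsum U (1 : Matrix (J ⊕ J) (J ⊕ J) R) ∈ RU R η (I ⊕ J)) :
    dsum U (1 : Matrix ((K ⊕ J) ⊕ (K ⊕ J)) ((K ⊕ J) ⊕ (K ⊕ J)) R) ∈ RU R η (I ⊕ (K ⊕ J)) := by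
  rw [← submatrix_one_equiv ((Equiv.sumComm K J).sumCongr (Equiv.sumComm K J)), OU3_re']
  exact ru_reindex (OU3_pad h) _

theorem Nul.of_mem {U : Matrix (I ⊕ I) (I ⊕ I) R} (h : U ∈ RU R η I) : Nul η U := by
  exact ⟨I, inferInstance, inferInstance, ru_dsum_one h⟩

theorem Nul.reindex {U : Matrix (I ⊕ I) (I ⊕ I) R} (h : Nul η U) (e : J ≃ I) :
    Nul η (U.submatrix (e.sumCongr e) (e.sumCongr e)) := by
  obtain ⟨κ, _, _, h⟩ := h
  refine ⟨κ, inferInstance, inferInstance, ?_⟩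
  rw [OU3_re]
  exact ru_reindex h _

theorem Nul.mul {U V : Matrix (I ⊕ I) (I ⊕ I) R} (h : Nul η U) (h' : Nul η V) :
    Nul η (U * V) := by
  obtain ⟨κ, _, _, h⟩ := h
  obtain ⟨κ', _, _, h'⟩ := h'
  refine ⟨κ ⊕ κ', inferInstance, inferInstance, ?_⟩
  have := mul_mem (OU3_pad (K := κ') h) (OU3_pad' (K := κ) h')
  rwa [dsum_mul, Matrix.mul_one] at this

theorem Nul.inv {U V : Matrix (I ⊕ I) (I ⊕ I) R} (h : Nul η U) (h1 : U * V = 1) : Nul η V := by
  obtain ⟨κ, _, _, h⟩ := h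
  exact ⟨κ, inferInstance, inferInstance,
    ru_inv h (by rw [dsum_mul, h1, Matrix.mul_one, dsum_one])⟩

theorem nul_dsum_one {U : Matrix (I ⊕ I) (I ⊕ I) R} :
    Nul η (dsum U (1 : Matrix (J ⊕ J) (J ⊕ J) R)) ↔ Nul η U := by
  constructor
  · rintro ⟨κ, _, _, h⟩
    refine ⟨J ⊕ κ, inferInstance, inferInstance, ?_⟩
    rw [← dsum_one, OU3_assoc']
    exact ru_reindex h _
  · rintro ⟨κ, _, _, h⟩
    refine ⟨κ, inferInstance, inferInstance, ?_⟩
    rw [OU3_assoc, dsum_one]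
    exact ru_reindex (OU3_pad' h) _

theorem Nul.swap {U : Matrix (I ⊕ I) (I ⊕ I) R} {V : Matrix (J ⊕ J) (J ⊕ J) R}
    (h : Nul η (dsum U V)) : Nul η (dsum V U) := by
  rw [OU3_comm]
  exact h.reindex _

theorem Nul.dsum {U : Matrix (I ⊕ I) (I ⊕ I) R} {V : Matrix (J ⊕ J) (J ⊕ J) R} (h : Nul η U)
    (h' : Nul η V) : Nul η (dsum U V) := by
  have := (nul_dsum_one (J := J).2 h).mul (nul_dsum_one (J := I).2 h').swap
  rwa [dsum_mul, Matrix.mul_one, Matrix.one_mul] at this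

theorem Nul.conj {U U' V : Matrix (I ⊕ I) (I ⊕ I) R} (h : Nul η V) (hU : Uni η U)
    (h1 : U * U' = 1) : Nul η (U * V * U') := by
  obtain ⟨κ, _, _, h⟩ := h
  have hU₁ := hU.dsum (uni_one (I := κ))
  obtain ⟨F, -, hF, -⟩ := hU₁.fA_neg.inv
  have hT := ru_white hU₁
  have hT' := ru_inv hT (V := MP_9d1ffa_al.dsum (MP_9d1ffa_al.dsum U' 1) F) (by
    rw [dsum_mul, dsum_mul, h1, hF, Matrix.mul_one, dsum_one, dsum_one])
  have := mul_mem (mul_mem hT (ru_dsum_one h)) hT'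
  simp only [dsum_mul, Matrix.mul_one, hF] at this
  exact nul_dsum_one.1 ⟨_, inferInstance, inferInstance, this⟩

theorem nul_dsum_inv {U V : Matrix (I ⊕ I) (I ⊕ I) R} (hU : Uni η U) (h1 : U * V = 1) :
    Nul η (dsum U V) := by
  have hs : (fromBlocks 0 1 1 0 : Matrix (I ⊕ I) (I ⊕ I) R) * fromBlocks 0 1 1 0 = 1 := by
    simp [fromBlocks_multiply]
  have hσ := Nul.of_mem (GenU.gl (η := η) _ _ hs hs).mem
  have h2 := (hσ.conj (hU.dsum (uni_one (I := I))) (U' := dsum V 1)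
    (by rw [dsum_mul, h1, Matrix.mul_one, dsum_one])).mul hσ
  have e : (fromBlocks (fromBlocks 0 1 1 0) 0 0 (fromBlocks 0 1 1 0)ᴴ :
      Matrix ((I ⊕ I) ⊕ (I ⊕ I)) ((I ⊕ I) ⊕ (I ⊕ I)) R) * dsum V 1 *
      fromBlocks (fromBlocks 0 1 1 0) 0 0 (fromBlocks 0 1 1 0)ᴴ = dsum 1 V := by
    rw [dsum_eq, dsum_eq]
    simp [fromBlocks_multiply, fromBlocks_conjTranspose]
  rwa [Matrix.mul_assoc (dsum U 1), Matrix.mul_assoc (dsum U 1), e, dsum_mul, Matrix.mul_one,
    Matrix.one_mul] at h2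

theorem Nul.cancel {U : Matrix (I ⊕ I) (I ⊕ I) R} {V : Matrix (J ⊕ J) (J ⊕ J) R}
    (h : Nul η (MP_9d1ffa_al.dsum U V)) (h' : Nul η V) (hV : Uni η V) : Nul η U := by
  obtain ⟨V', -, h1, -⟩ := hV.inv
  have := h.mul (nul_dsum_one (J := I).2 (h'.inv h1)).swap
  rw [dsum_mul, Matrix.mul_one, h1] at this
  exact nul_dsum_one.1 this

/-- the block sum and the product agree up to elementary isometries -/
theorem nul_dsum_iff {U V : Matrix (I ⊕ I) (I ⊕ I) R} (hU : Uni η U) (hV : Uni η V) :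
    Nul η (dsum U V) ↔ Nul η (U * V) := by
  obtain ⟨V', hV', h1, h2⟩ := hV.inv
  constructor
  · intro h
    have := h.mul (nul_dsum_inv hV h1)
    rw [dsum_mul, h1] at this
    exact nul_dsum_one.1 this
  · intro h
    have := (nul_dsum_one (J := I).2 h).mul (nul_dsum_inv hV' h2)
    rwa [dsum_mul, Matrix.mul_assoc, h1, Matrix.mul_one, Matrix.one_mul] at this

theorem Nul.map (f : R →+* S) (hf : ∀ x, f (star x) = star (f x)) {U : Matrix (I ⊕ I) (I ⊕ I) R}
    (h : Nul η U) : Nul η (U.map f) := by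
  obtain ⟨κ, _, _, h⟩ := h
  have := ru_map f hf h
  rw [dsum_map, Matrix.map_one _ (map_zero f) (map_one f)] at this
  exact ⟨κ, inferInstance, inferInstance, this⟩

end Pool.Agent.Work.MP_9d1ffa_al
end
end

-- merged part: Pool.Agent.Work.MP_9d1ffa_al.OL1
section
/-! The odd Wall group. -/

namespace Pool.Agent.Work.MP_9d1ffa_al

open Matrix MonoidAlgebra

set_option linter.unusedSectionVars false
set_option linter.unusedVariables false

variable {R S : Type} [Ring R] [StarRing R] [Ring S] [StarRing S] {η : ℤˣ} {I J : Type}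
  [Fintype I] [DecidableEq I] [Fintype J] [DecidableEq J]

/-- an isometry of a standard hyperbolic form, with its inverse -/
structure Un (R : Type) [Ring R] [StarRing R] (η : ℤˣ) where
  n : ℕ
  U : Matrix (Fin n ⊕ Fin n) (Fin n ⊕ Fin n) R
  V : Matrix (Fin n ⊕ Fin n) (Fin n ⊕ Fin n) R
  uni : Uni η U
  inv : U * V = 1

theorem OL1_shuffle {K L : Type} [Fintype K] [DecidableEq K] [Fintype L] [DecidableEq L]
    {A : Matrix (I ⊕ I) (I ⊕ I) R} {B : Matrix (J ⊕ J) (J ⊕ J) R} {C : Matrix (K ⊕ K) (K ⊕ K) R}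
    {D : Matrix (L ⊕ L) (L ⊕ L) R} (h : Nul η (dsum (dsum A B) (dsum C D))) :
    Nul η (dsum (dsum A C) (dsum B D)) := by
  convert h.reindex (Equiv.sumSumSumComm I K J L) using 1
  ext (((i | i) | (i | i)) | ((i | i) | (i | i))) (((j | j) | (j | j)) | ((j | j) | (j | j))) <;>
    rfl

theorem OL1_reindex {I' J' : Type} [Fintype I'] [DecidableEq I'] [Fintype J'] [DecidableEq J']
    (A : Matrix (I ⊕ I) (I ⊕ I) R) (B : Matrix (J ⊕ J) (J ⊕ J) R) (e : I' ≃ I) (f : J' ≃ J) :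
    dsum (A.submatrix (e.sumCongr e) (e.sumCongr e)) (B.submatrix (f.sumCongr f) (f.sumCongr f)) =
      (dsum A B).submatrix ((e.sumCongr f).sumCongr (e.sumCongr f))
        ((e.sumCongr f).sumCongr (e.sumCongr f)) := by
  ext ((i | i) | (i | i)) ((j | j) | (j | j)) <;> rfl

theorem OL1_nul_reindex {A : Matrix (I ⊕ I) (I ⊕ I) R} (e : J ≃ I) :
    Nul η (A.submatrix (e.sumCongr e) (e.sumCongr e)) ↔ Nul η A := by
  refine ⟨fun h => ?_, fun h => h.reindex e⟩
  convert h.reindex e.symm using 1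
  ext (i | i) (j | j) <;> simp

theorem OL1_nul_dsum {I' J' : Type} [Fintype I'] [DecidableEq I'] [Fintype J'] [DecidableEq J']
    (A : Matrix (I ⊕ I) (I ⊕ I) R) (B : Matrix (J ⊕ J) (J ⊕ J) R) (e : I' ≃ I) (f : J' ≃ J) :
    Nul η (dsum (A.submatrix (e.sumCongr e) (e.sumCongr e))
      (B.submatrix (f.sumCongr f) (f.sumCongr f))) ↔ Nul η (dsum A B) := by
  rw [OL1_reindex, OL1_nul_reindex]

theorem OL1_nul_left {I' : Type} [Fintype I'] [DecidableEq I']
    (A : Matrix (I ⊕ I) (I ⊕ I) R) (B : Matrix (J ⊕ J) (J ⊕ J) R) (e : I' ≃ I) :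
    Nul η (dsum (A.submatrix (e.sumCongr e) (e.sumCongr e)) B) ↔ Nul η (dsum A B) := by
  have := OL1_nul_dsum (η := η) A B e (Equiv.refl J)
  rwa [Equiv.sumCongr_refl, Equiv.coe_refl, submatrix_id_id] at this

theorem Un.uniV (a : Un R η) : Uni η a.V := (a.uni.of_inv a.inv).1

theorem Un.inv' (a : Un R η) : a.V * a.U = 1 := (a.uni.of_inv a.inv).2

/-- equivalence up to elementary isometries -/
def unSetoid (R : Type) [Ring R] [StarRing R] (η : ℤˣ) : Setoid (Un R η) where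
  r a b := Nul η (dsum a.U b.V)
  iseqv := by
    refine ⟨fun a => nul_dsum_inv a.uni a.inv, fun {a b} h => ?_, fun {a b c} h h' => ?_⟩
    · exact (h.inv (V := dsum a.V b.U) (by rw [dsum_mul, a.inv, b.inv', dsum_one])).swap
    · exact (OL1_shuffle (h.dsum h'.swap)).cancel (nul_dsum_inv b.uniV b.inv')
        (b.uniV.dsum b.uni)

/-- the odd Wall group -/
def L1 (R : Type) [Ring R] [StarRing R] (η : ℤˣ) : Type := Quotient (unSetoid R η)

/-- an isometry on any finite index set, moved to a standard index set -/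
noncomputable def OL1mk (U V : Matrix (I ⊕ I) (I ⊕ I) R) (h : Uni η U) (h1 : U * V = 1) :
    Un R η where
  n := Fintype.card I
  U := U.submatrix ((Fintype.equivFin I).symm.sumCongr (Fintype.equivFin I).symm)
    ((Fintype.equivFin I).symm.sumCongr (Fintype.equivFin I).symm)
  V := V.submatrix ((Fintype.equivFin I).symm.sumCongr (Fintype.equivFin I).symm)
    ((Fintype.equivFin I).symm.sumCongr (Fintype.equivFin I).symm)
  uni := h.reindex _
  inv := by rw [submatrix_mul_equiv, h1, submatrix_one_equiv]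

/-- the class of an isometry with a given inverse -/
noncomputable def OL1cl (U V : Matrix (I ⊕ I) (I ⊕ I) R) (h : Uni η U) (h1 : U * V = 1) :
    L1 R η :=
  Quotient.mk (unSetoid R η) (OL1mk U V h h1)

theorem OL1mk_rel {U V : Matrix (I ⊕ I) (I ⊕ I) R} {h : Uni η U} {h1 : U * V = 1}
    {U' V' : Matrix (J ⊕ J) (J ⊕ J) R} {h' : Uni η U'} {h1' : U' * V' = 1} :
    (unSetoid R η).r (OL1mk U V h h1) (OL1mk U' V' h' h1') ↔ Nul η (dsum U V') :=
  OL1_nul_dsum U V' (Fintype.equivFin I).symm (Fintype.equivFin J).symm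

theorem OL1cl_eq {U V : Matrix (I ⊕ I) (I ⊕ I) R} {h : Uni η U} {h1 : U * V = 1}
    {U' V' : Matrix (J ⊕ J) (J ⊕ J) R} {h' : Uni η U'} {h1' : U' * V' = 1} :
    OL1cl U V h h1 = OL1cl U' V' h' h1' ↔ Nul η (dsum U V') :=
  Quotient.eq.trans OL1mk_rel

theorem OL1cl_reindex {U V : Matrix (I ⊕ I) (I ⊕ I) R} {h : Uni η U} {h1 : U * V = 1}
    {U' V' : Matrix (J ⊕ J) (J ⊕ J) R} {h' : Uni η U'} {h1' : U' * V' = 1} (e : J ≃ I)
    (he : U' = U.submatrix (e.sumCongr e) (e.sumCongr e)) :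
    OL1cl U' V' h' h1' = OL1cl U V h h1 := by
  subst he
  rw [OL1cl_eq, OL1_nul_left]
  exact nul_dsum_inv h h1

theorem OL1cl_mk (a : Un R η) : OL1cl a.U a.V a.uni a.inv = Quotient.mk (unSetoid R η) a :=
  Quotient.sound ((OL1_nul_left a.U a.V (Fintype.equivFin (Fin a.n)).symm).2
    (nul_dsum_inv a.uni a.inv))

theorem OL1_ind (x : L1 R η) : ∃ (n : ℕ) (U V : Matrix (Fin n ⊕ Fin n) (Fin n ⊕ Fin n) R)
    (h : Uni η U) (h1 : U * V = 1), OL1cl U V h h1 = x := by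
  induction x using Quotient.inductionOn with
  | h a => exact ⟨a.n, a.U, a.V, a.uni, a.inv, OL1cl_mk a⟩

theorem OL1_dsum_inv {U V : Matrix (I ⊕ I) (I ⊕ I) R} (h1 : U * V = 1)
    {U' V' : Matrix (J ⊕ J) (J ⊕ J) R} (h1' : U' * V' = 1) : dsum U U' * dsum V V' = 1 := by
  rw [dsum_mul, h1, h1', dsum_one]

noncomputable instance OL1add : Add (L1 R η) where
  add := Quotient.map₂ (sa := unSetoid R η) (sb := unSetoid R η) (sc := unSetoid R η)
    (fun a b => OL1mk (dsum a.U b.U) (dsum a.V b.V) (a.uni.dsum b.uni) (OL1_dsum_inv a.inv b.inv))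
    fun _ _ h _ _ h' => OL1mk_rel.2 (OL1_shuffle (Nul.dsum h h'))

noncomputable instance OL1neg : Neg (L1 R η) where
  neg := Quotient.map (sa := unSetoid R η) (sb := unSetoid R η)
    (fun a => ⟨a.n, a.V, a.U, a.uniV, a.inv'⟩)
    fun a b h => Nul.inv h (OL1_dsum_inv a.inv b.inv')

noncomputable instance OL1zero : Zero (L1 R η) where
  zero := OL1cl (I := Fin 0) 1 1 uni_one (Matrix.mul_one _)

theorem OL1cl_add {U V : Matrix (I ⊕ I) (I ⊕ I) R} (h : Uni η U) (h1 : U * V = 1)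
    {U' V' : Matrix (J ⊕ J) (J ⊕ J) R} (h' : Uni η U') (h1' : U' * V' = 1) :
    OL1cl U V h h1 + OL1cl U' V' h' h1' =
      OL1cl (dsum U U') (dsum V V') (h.dsum h') (OL1_dsum_inv h1 h1') :=
  OL1cl_reindex ((Fintype.equivFin I).symm.sumCongr (Fintype.equivFin J).symm)
    (OL1_reindex _ _ _ _)

theorem OL1cl_neg {U V : Matrix (I ⊕ I) (I ⊕ I) R} (h : Uni η U) (h1 : U * V = 1) :
    -OL1cl U V h h1 = OL1cl V U (h.of_inv h1).1 (h.of_inv h1).2 := rfl

theorem OL1cl_zero {U V : Matrix (I ⊕ I) (I ⊕ I) R} (h : Uni η U) (h1 : U * V = 1) :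
    OL1cl U V h h1 = 0 ↔ Nul η U :=
  OL1cl_eq.trans nul_dsum_one

theorem OL1_add_comm (x y : L1 R η) : x + y = y + x := by
  obtain ⟨n, U, V, h, h1, rfl⟩ := OL1_ind x
  obtain ⟨n', U', V', h', h1', rfl⟩ := OL1_ind y
  rw [OL1cl_add, OL1cl_add]
  refine OL1cl_reindex (Equiv.sumComm _ _) ?_
  ext ((i | i) | (i | i)) ((j | j) | (j | j)) <;> rfl

theorem OL1_add_assoc (x y z : L1 R η) : x + y + z = x + (y + z) := by
  obtain ⟨n, U, V, h, h1, rfl⟩ := OL1_ind x
  obtain ⟨n', U', V', h', h1', rfl⟩ := OL1_ind y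
  obtain ⟨n'', U'', V'', h'', h1'', rfl⟩ := OL1_ind z
  rw [OL1cl_add, OL1cl_add, OL1cl_add, OL1cl_add]
  refine OL1cl_reindex (Equiv.sumAssoc _ _ _) ?_
  ext (((i | i) | i) | ((i | i) | i)) (((j | j) | j) | ((j | j) | j)) <;> rfl

theorem OL1_zero_add (x : L1 R η) : 0 + x = x := by
  obtain ⟨n, U, V, h, h1, rfl⟩ := OL1_ind x
  refine (OL1cl_add (I := Fin 0) uni_one (Matrix.mul_one _) h h1).trans ?_
  refine OL1cl_reindex (Equiv.emptySum _ _) ?_
  ext ((i | i) | (i | i)) ((j | j) | (j | j)) <;>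
    first | exact i.elim0 | exact j.elim0 | rfl

theorem OL1_neg_add (x : L1 R η) : -x + x = 0 := by
  obtain ⟨n, U, V, h, h1, rfl⟩ := OL1_ind x
  rw [OL1cl_neg, OL1cl_add, OL1cl_zero]
  exact nul_dsum_inv (h.of_inv h1).1 (h.of_inv h1).2

noncomputable instance L1.group : AddCommGroup (L1 R η) :=
  { AddGroup.ofLeftAxioms OL1_add_assoc OL1_zero_add OL1_neg_add with
    add_comm := OL1_add_comm }

open Classical in
/-- the class of an isometry (zero if the matrix is not an isometry) -/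
noncomputable def ucl (η : ℤˣ) (U : Matrix (I ⊕ I) (I ⊕ I) R) : L1 R η :=
  if h : Uni η U then OL1cl U h.inv.choose h h.inv.choose_spec.2.1 else 0

theorem OL1_ucl {U V : Matrix (I ⊕ I) (I ⊕ I) R} (h : Uni η U) (h1 : U * V = 1) :
    ucl η U = OL1cl U V h h1 := by
  rw [ucl, dif_pos h, OL1cl_eq]
  exact nul_dsum_inv h h1

theorem ucl_dsum {U : Matrix (I ⊕ I) (I ⊕ I) R} {V : Matrix (J ⊕ J) (J ⊕ J) R} (hU : Uni η U)
    (hV : Uni η V) : ucl η (dsum U V) = ucl η U + ucl η V := by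
  obtain ⟨U', -, h1, -⟩ := hU.inv
  obtain ⟨V', -, h2, -⟩ := hV.inv
  rw [OL1_ucl hU h1, OL1_ucl hV h2, OL1_ucl (hU.dsum hV) (OL1_dsum_inv h1 h2)]
  exact (OL1cl_add _ _ _ _).symm

theorem ucl_eq_zero {U : Matrix (I ⊕ I) (I ⊕ I) R} (hU : Uni η U) : ucl η U = 0 ↔ Nul η U := by
  obtain ⟨U', -, h1, -⟩ := hU.inv
  rw [OL1_ucl hU h1]
  exact OL1cl_zero _ _

theorem OL1_ucl_inv {U V : Matrix (I ⊕ I) (I ⊕ I) R} (h : Uni η U) (h1 : U * V = 1) :
    ucl η U + ucl η V = 0 := by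
  rw [← ucl_dsum h (h.of_inv h1).1, ucl_eq_zero (h.dsum (h.of_inv h1).1)]
  exact nul_dsum_inv h h1

theorem ucl_mul {U V : Matrix (I ⊕ I) (I ⊕ I) R} (hU : Uni η U) (hV : Uni η V) :
    ucl η (U * V) = ucl η U + ucl η V := by
  obtain ⟨U', hU', h1, h1'⟩ := hU.inv
  obtain ⟨V', hV', h2, h2'⟩ := hV.inv
  -- the class of `U * V` plus the class of `dsum U' V'` vanishes
  have hW : Uni η (V' * U') := hV'.mul hU'
  have h3 : U * V * (V' * U') = 1 := by
    rw [Matrix.mul_assoc, ← Matrix.mul_assoc V, h2, Matrix.one_mul, h1]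
  have h4 : V' * U' * (U * V) = 1 := ((hU.mul hV).of_inv h3).2
  -- `dsum (U * V) V'` is equivalent to `dsum U 1`
  have k1 : ucl η (U * V) + ucl η V' + ucl η U' = 0 := by
    have a1 : Uni η (dsum (U * V) V') := (hU.mul hV).dsum hV'
    have a2 : Uni η (dsum U' (1 : Matrix (I ⊕ I) (I ⊕ I) R)) := hU'.dsum uni_one
    have a3 : ucl η (dsum U' (1 : Matrix (I ⊕ I) (I ⊕ I) R)) = ucl η U' := by
      rw [ucl_dsum hU' uni_one, (ucl_eq_zero uni_one).2 (Nul.of_mem (one_mem _)), add_zero]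
    rw [← ucl_dsum (hU.mul hV) hV', ← a3, add_comm, ← ucl_dsum a2 a1, ucl_eq_zero (a2.dsum a1),
      nul_dsum_iff a2 a1, dsum_mul, ← Matrix.mul_assoc, h1', Matrix.one_mul, Matrix.one_mul]
    exact nul_dsum_inv hV h2
  have k2 := OL1_ucl_inv hU h1
  have k3 := OL1_ucl_inv hV h2
  calc ucl η (U * V) = ucl η (U * V) + (ucl η U + ucl η U') + (ucl η V + ucl η V') := by
        rw [k2, k3, add_zero, add_zero]
    _ = ucl η (U * V) + ucl η V' + ucl η U' + (ucl η U + ucl η V) := by abel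
    _ = ucl η U + ucl η V := by rw [k1, zero_add]

theorem ucl_reindex {U : Matrix (I ⊕ I) (I ⊕ I) R} (hU : Uni η U) (e : J ≃ I) :
    ucl η (U.submatrix (e.sumCongr e) (e.sumCongr e)) = ucl η U := by
  obtain ⟨U', -, h1, -⟩ := hU.inv
  obtain ⟨V', -, h2, -⟩ := (hU.reindex e).inv
  rw [OL1_ucl hU h1, OL1_ucl (hU.reindex e) h2]
  exact OL1cl_reindex e rfl

theorem ucl_surj (x : L1 R η) :
    ∃ (n : ℕ) (U : Matrix (Fin n ⊕ Fin n) (Fin n ⊕ Fin n) R), Uni η U ∧ ucl η U = x := by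
  obtain ⟨n, U, V, h, h1, rfl⟩ := OL1_ind x
  exact ⟨n, U, h, OL1_ucl h h1⟩

theorem OL1_map_inv (f : R →+* S) {U V : Matrix (I ⊕ I) (I ⊕ I) R} (h1 : U * V = 1) :
    U.map f * V.map f = 1 := by
  rw [← Matrix.map_mul, h1, Matrix.map_one f (map_zero f) (map_one f)]

/-- the induced map on classes -/
noncomputable def OL1map (f : R →+* S) (hf : ∀ x, f (star x) = star (f x)) : L1 R η → L1 S η :=
  Quotient.map (sa := unSetoid R η) (sb := unSetoid S η)
    (fun a => ⟨a.n, a.U.map f, a.V.map f, a.uni.map f hf, OL1_map_inv f a.inv⟩)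
    fun a b h => by
      have := Nul.map f hf h
      rwa [dsum_map] at this

theorem OL1map_ucl (f : R →+* S) (hf : ∀ x, f (star x) = star (f x))
    {U : Matrix (I ⊕ I) (I ⊕ I) R} (hU : Uni η U) :
    OL1map f hf (ucl η U) = ucl η (U.map f) := by
  obtain ⟨U', -, h1, -⟩ := hU.inv
  rw [OL1_ucl hU h1, OL1_ucl (hU.map f hf) (OL1_map_inv f h1)]
  rfl

/-- the map induced by a homomorphism of rings with involution -/
noncomputable def L1.map (f : R →+* S) (hf : ∀ x, f (star x) = star (f x)) :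
    L1 R η →+ L1 S η :=
  AddMonoidHom.mk' (OL1map f hf) fun x y => by
    obtain ⟨n, U, hU, rfl⟩ := ucl_surj x
    obtain ⟨m, V, hV, rfl⟩ := ucl_surj y
    rw [← ucl_dsum hU hV, OL1map_ucl f hf hU, OL1map_ucl f hf hV, OL1map_ucl f hf (hU.dsum hV),
      dsum_map, ucl_dsum (hU.map f hf) (hV.map f hf)]

theorem map_ucl (f : R →+* S) (hf : ∀ x, f (star x) = star (f x))
    {U : Matrix (I ⊕ I) (I ⊕ I) R} (hU : Uni η U) :
    L1.map f hf (ucl η U) = ucl η (U.map f) :=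
  OL1map_ucl f hf hU

end Pool.Agent.Work.MP_9d1ffa_al
end
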