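import Pool.Agent.Work.MP_9d1ffa_al.Ct.CZ
import Pool.Agent.Work.MP_9d1ffa_al.Ct.GTop

/-! The vanishing of the Wall groups of the obstruction category passes from the vertex groups and
edge groups to iterated graphs of groups, and holds for all torsion free one relator groups. -/

namespace Pool.Agent.Work.MP_9d1ffa_al.OldControlled

open Pool.Agent.Work.MP_9d1ffa_al

theorem result (B : ∀ (S : Type) [Group S], Prop)
    (hB : ∀ (S : Type) [Group S], B S → (∀ g : S, g * g = 1 → g = 1) ∧ Van S)
    (G : Type) [Group G] (hG : Gr B G) : Van G :=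
  Ct.gr_van (fun _ _ _ _ _ _ _ C ρ _ h1 h2 h3 h4 h5 => Ct.split C ρ h1 h2 h3 h4 h5)
    (fun _ _ _ ρ _ h1 h2 => Ct.van1_of_line ρ h1 h2) hB hG

end Pool.Agent.Work.MP_9d1ffa_al.OldControlled
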