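import Pool.Agent.Work.MP_9d1ffa_al.Cyc

/-! The Whitehead group of an extension of a group by the integers, under a chain condition on
intersections of conjugates of the members of a cofinal family of subgroups of the kernel. -/

namespace Pool.Agent.Work.MP_9d1ffa_al.OldCyclicExtensions

open Pool.Agent.Work.MP_9d1ffa_al

theorem result (G : Type) [Group G] (χ : G →* Multiplicative ℤ) (hχ : Function.Surjective χ)
    (hK : K0Zero χ.ker) (C : Set (Subgroup G)) (hle : ∀ H ∈ C, H ≤ χ.ker)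
    (hcof : ∀ Φ : Finset G, (∀ g ∈ Φ, g ∈ χ.ker) → ∃ H ∈ C, ∀ g ∈ Φ, g ∈ H)
    (hchain : ∀ H ∈ C, ∀ S : ℕ → Finset G, (S 0).Nonempty →
      (∀ n, S n ⊆ S (n + 1) ∧ Cap H (S (n + 1)) < Cap H (S n)) →
      (χ '' ⋃ n, (S n : Set G)).Infinite → ∃ n, RC (Cap H (S n))) :
    WhGen ({χ.ker} ∪
      {L : Subgroup G | ∃ H ∈ C, ∃ (S : Finset G) (s : G), S.Nonempty ∧ χ s ≠ 1 ∧
        s ∈ Subgroup.normalizer (Cap H S : Set G) ∧ ¬ RC (Cap H S) ∧
        L = Cap H S ⊔ Subgroup.zpowers s}) :=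
  cyc_main χ hχ hK C hle hcof hchain ⟨_, Or.inl rfl, le_rfl⟩
    fun H hH S hS s h1 h2 h3 => ⟨_, Or.inr ⟨H, hH, S, s, hS, h1, h2, h3, rfl⟩, le_rfl⟩

end Pool.Agent.Work.MP_9d1ffa_al.OldCyclicExtensions
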