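import Pool.Agent.Work.MP_9d1ffa_al.WGood

/-! For groups with a hierarchy along locally free groups, every class in the even Wall groups of
the product with a free abelian group is a sum of classes induced from the bottom groups of the
hierarchy and from surface type groups. -/

namespace Pool.Agent.Results.MP_9d1ffa_al.Hierarchy

open Pool.Agent.Work.MP_9d1ffa_al Matrix

theorem result (B : ∀ (S : Type) [Group S], Prop)
    (hB : ∀ (S : Type) [Group S], B S →
      (∀ g : S, g * g = 1 → g = 1) ∧ IsMulTorsionFree (Abelianization S))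
    (G : Type) [Group G] (hG : Hier B G) (n : ℕ) (ε : ℤˣ) (I : Type) [Fintype I] [DecidableEq I]
    (ψ : Matrix I I (ZG (G × Multiplicative (Fin n → ℤ)))) (hψ : IsUnit (symF ε ψ)) :
    Induced ε (fun S _ => B S ∨ ∃ e g : ℕ, Nonempty (S ≃* Surf e (g + 1))) ψ :=
  hier_induced hB hG ⟨n, ⟨MulEquiv.refl _⟩⟩ hψ

end Pool.Agent.Results.MP_9d1ffa_al.Hierarchy
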