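import Pool.Agent.Work.MP_9d1ffa_al.LL.FinC
import Pool.Agent.Work.MP_9d1ffa_al.LL.Tl

/-! The even Wall groups of the obstruction category of a group that is virtually solvable by
linear vanish in the fibred sense, relative to the virtually cyclic subgroups and the finitely
generated virtually solvable subgroups that are not virtually nilpotent. -/

namespace Pool.Agent.Work.MP_9d1ffa_al.OldLLinear

open Pool.Agent.Work.MP_9d1ffa_al

theorem result (G X : Type) [Group G] (ρ : G →* Equiv.Perm X) (H : Subgroup G)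
    (hH : H.FiniteIndex) (R : Type) [CommRing R] (n : ℕ) (π : H →* GL (Fin n) R)
    (hπ : Group.IsSolvable π.ker)
    (hc : ∀ L : Subgroup G, (∃ C : Subgroup L, C.FiniteIndex ∧ IsCyclic C) →
      ∃ x, ∀ g ∈ L, ρ g x = x)
    (hs : ∀ L : Subgroup G, L.FG → (∃ S : Subgroup L, S.FiniteIndex ∧ Group.IsSolvable S) →
      (∀ U : Subgroup L, U.FiniteIndex → ¬ Group.IsNilpotent U) → ∃ x, ∀ g ∈ L, ρ g x = x) :
    VanF ρ :=
  Ct.LL.lin_final Ct.LL.coreZ.core G X ρ H hH R n π hπ hc hs

end Pool.Agent.Work.MP_9d1ffa_al.OldLLinear
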