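import Pool.Agent.Work.MP_9d1ffa_al.OFin

/-! Every class in the even Wall groups of a torsion free one relator group times a free abelian
group is induced from a surface type group times the free abelian group. -/

namespace Pool.Agent.Work.MP_9d1ffa_al.OldOneRelator

open Pool.Agent.Work.MP_9d1ffa_al Matrix

theorem result (X : Type) (r : FreeGroup X)
    (htf : ∀ g : PresentedGroup ({r} : Set (FreeGroup X)), IsOfFinOrder g → g = 1)
    (n : ℕ) (ε : ℤˣ) (I : Type) [Fintype I] [DecidableEq I]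
    (ψ : Matrix I I (ZG (PresentedGroup ({r} : Set (FreeGroup X)) × Multiplicative (Fin n → ℤ))))
    (hψ : IsUnit (symF ε ψ)) :
    ∃ (e g : ℕ) (f : Surf e (g + 1) →* PresentedGroup ({r} : Set (FreeGroup X))) (m : ℕ)
      (φ : Matrix (Fin m) (Fin m) (ZG (Surf e (g + 1) × Multiplicative (Fin n → ℤ)))),
      IsUnit (symF ε φ) ∧
        StHyp ε (fromBlocks ψ 0 0 (-pushM (f.prodMap (MonoidHom.id _)) φ)) :=
  one_relator htf ⟨n, ⟨MulEquiv.refl _⟩⟩ hψ

end Pool.Agent.Work.MP_9d1ffa_al.OldOneRelator
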