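import Pool.Agent.Work.MP_9d1ffa_al.Sq.Top

/-! The torsion of contractible twisted complexes over the obstruction category of a group that maps
to a wreath product of a special linear group with a finite group vanishes, relative to the
subgroups that are virtually reducible or have algebraic traces in every coordinate. -/

namespace Pool.Agent.Work.MP_9d1ffa_al.OldRelLinear

open Pool.Agent.Work.MP_9d1ffa_al

theorem result (k E : Type) [Field k] [Field E] [Algebra k E] (n : ℕ) (Q G X : Type) [Group Q]
    [Finite Q] [Group G] (φ : G →* Matrix.SpecialLinearGroup (Fin n) E ≀ᵣ Q)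
    (ρ : G →* Equiv.Perm X)
    (hF : ∀ H H' : Subgroup G, H' ≤ H → H'.relIndex H ≠ 0 → (∀ g ∈ H', (φ g).right = 1) →
      (∀ q, Submodule.span E ((fun g => ((φ g).left q).1) '' (H' : Set G)) ≠ ⊤ ∨
        ∀ g ∈ H', IsAlgebraic k ((φ g).left q).1.trace) → ∃ z, ∀ g ∈ H, ρ g z = z) : VanD ρ :=
  Dg.vanD_wreath k E n Q G X φ ρ hF

end Pool.Agent.Work.MP_9d1ffa_al.OldRelLinear
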