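import Pool.Agent.Work.MP_9d1ffa_al.Rt.LTop

/-! The even Wall groups of the obstruction category of a group acting on a tree vanish, relative to
the subgroups that fix a vertex or act on a line, for all groups over the acting group. -/

namespace Pool.Agent.Work.MP_9d1ffa_al.OldRelTree

open Pool.Agent.Work.MP_9d1ffa_al

theorem result (G V X : Type) [Group G] [MulAction G V] (T : SimpleGraph V) (hT : T.IsTree)
    (act : ∀ (g : G) (a b : V), T.Adj a b → T.Adj (g • a) (g • b))
    (noinv : ∀ (g : G) (a b : V), T.Adj a b → g • a = b → g • b ≠ a)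
    (ρ : G →* Equiv.Perm X) (hF : Fix ρ V) (hC : NoChain ρ T) : VanF ρ :=
  Ct.Rl.vanF_tree hT act noinv hF hC

end Pool.Agent.Work.MP_9d1ffa_al.OldRelTree
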