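import Pool.Agent.Work.MP_9d1ffa_al.Dg.DTop

/-! The torsion of contractible twisted complexes over the obstruction category of a group acting on
a tree vanishes, relative to the vertex stabilisers and the HNN extensions along rays, for all groups
over the acting group and all differential graded coefficient rings. -/

namespace Pool.Agent.Work.MP_9d1ffa_al.OldRelTreeKAll

open Pool.Agent.Work.MP_9d1ffa_al

theorem result (G V X : Type) [Group G] [MulAction G V] (T : SimpleGraph V) (hT : T.IsTree)
    (act : ∀ (g : G) (a b : V), T.Adj a b → T.Adj (g • a) (g • b))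
    (noinv : ∀ (g : G) (a b : V), T.Adj a b → g • a = b → g • b ≠ a)
    (ρ : G →* Equiv.Perm X) (hF : ∀ v : V, ∃ z : X, ∀ g : G, g • v = v → ρ g z = z)
    (hC : NoRayD ρ T) : VanD ρ :=
  Dg.vanD_tree hT act noinv hF hC

end Pool.Agent.Work.MP_9d1ffa_al.OldRelTreeKAll
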