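import Pool.Agent.Work.MP_9d1ffa_al.TreeNil
import Pool.Agent.Work.MP_9d1ffa_al.Walls
import Pool.Agent.Work.MP_9d1ffa_al.TDefs

/-! The Whitehead group of a group acting on a tree with a chain condition on the stabilisers of
segments is generated by the vertex groups and the axis groups. -/

namespace Pool.Agent.Results.MP_9d1ffa_al.StableTrees

open Pool.Agent.Work.MP_9d1ffa_al Pool.Agent.Work.MP_904812_al MulAction

theorem result (G V : Type) [Group G] [MulAction G V] (T : SimpleGraph V) (hT : T.IsTree)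
    (act : ∀ (g : G) (a b : V), T.Adj a b → T.Adj (g • a) (g • b))
    (noinv : ∀ (g : G) (a b : V), T.Adj a b → g • a = b → g • b ≠ a)
    (hK : ∀ a b : V, T.Adj a b → K0Zero (stabilizer G (a, b)))
    (hchain : ∀ a b : ℕ → V,
      (∀ n, a n ≠ b n ∧ Btw T (a (n + 1)) (a n) (b (n + 1)) ∧
        Btw T (a (n + 1)) (b n) (b (n + 1)) ∧
        stabilizer G (a (n + 1), b (n + 1)) < stabilizer G (a n, b n)) →
      ∃ n, RC (stabilizer G (a n, b n))) :
    WhGen ({H : Subgroup G | ∃ v : V, H = stabilizer G v} ∪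
      {H : Subgroup G | ∃ (a b : V) (s : G), a ≠ b ∧ s • a ≠ a ∧ Btw T a (s • a) (s • b) ∧
        Btw T a b (s • b) ∧ s ∈ Subgroup.normalizer (stabilizer G (a, b) : Set G) ∧
        ¬ RC (stabilizer G (a, b)) ∧ H = stabilizer G (a, b) ⊔ Subgroup.zpowers s}) := by
  have adj : ∀ x y : V, (T.dist x y : ℤ) = 1 → T.Adj x y := fun x y e =>
    SimpleGraph.dist_eq_one_iff_adj.1 (by exact_mod_cast e)
  have bt : ∀ x p y : V, Bt (fun a b => (T.dist a b : ℤ)) x p y → Btw T x p y := fun x p y e => by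
    simp only [Bt] at e
    exact_mod_cast e
  obtain ⟨v₀⟩ := hT.connected.nonempty
  refine tree_main (tr_of_isTree hT) v₀ (fun g x y => by rw [dist_smul hT act])
    (fun g x y e => noinv g x y (adj x y e)) (fun x y e => hK x y (adj x y e))
    (fun v => ⟨_, Or.inl ⟨v, rfl⟩, le_rfl⟩) (fun f hf => ?_) (fun σ s h1 h2 h3 => ?_)
  · exact hchain (fun n => (f n).1) (fun n => (f n).2) fun n =>
      ⟨(hf n).1.1, bt _ _ _ (hf n).1.2.1, bt _ _ _ (hf n).1.2.2, (hf n).2⟩
  · exact ⟨_, Or.inr ⟨σ.1, σ.2, s, h1.1, h1.2.2.1.symm, bt _ _ _ h1.2.2.2.1,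
      bt _ _ _ h1.2.2.2.2, h2, h3, rfl⟩, le_rfl⟩

end Pool.Agent.Results.MP_9d1ffa_al.StableTrees
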