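import Pool.Agent.Work.MP_9d1ffa_al.UFin

/-! Vanishing of the unitary nilpotent groups of an action on a tree whose reversible segments
have free abelian stabilisers of finite rank. -/

namespace Pool.Agent.Results.MP_9d1ffa_al.UNilAbelian

open Pool.Agent.Work.MP_9d1ffa_al MulAction
open scoped Pointwise

theorem result (G V : Type) [Group G] [MulAction G V] (T : SimpleGraph V) (hT : T.IsTree)
    (act : ∀ (g : G) (a b : V), T.Adj a b → T.Adj (g • a) (g • b))
    (hab : ∀ a b : V, a ≠ b → (∃ g : G, g • a = b ∧ g • b = a) →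
      ∃ n : ℕ, Nonempty (stabilizer G ({a, b} : Set V) ≃* Multiplicative (Fin n → ℤ)))
    (ε : ℤˣ) : UNilTree G T ε :=
  unilTree_ab hT act hab

end Pool.Agent.Results.MP_9d1ffa_al.UNilAbelian
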