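import Pool.Agent.Work.MP_9d1ffa_al.VTop

/-! Vanishing of the unitary nilpotent groups of an action on a tree whose reversible segments
have pointwise stabilisers that are locally virtually products of a free group and a free abelian
group. -/

namespace Pool.Agent.Work.MP_9d1ffa_al.OldUNilFree

open Pool.Agent.Work.MP_9d1ffa_al MulAction

theorem result (G V : Type) [Group G] [MulAction G V] (T : SimpleGraph V) (hT : T.IsTree)
    (act : ∀ (g : G) (a b : V), T.Adj a b → T.Adj (g • a) (g • b))
    (h2 : ∀ (g : G) (a : V), g * g = 1 → g • a = a)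
    (hfr : ∀ a b : V, a ≠ b → (∃ g : G, g • a = b ∧ g • b = a) →
      ∀ D ≤ stabilizer G (a, b), D.FG →
        FZ D ∨ (RC D ∧ K0Zero D ∧ ∃ H : Subgroup D, H.FiniteIndex ∧ FZ H))
    (ε : ℤˣ) : UNilTree G T ε :=
  unilTree_edge hT act h2 hfr

end Pool.Agent.Work.MP_9d1ffa_al.OldUNilFree
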