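import Pool.Agent.Work.MP_9d1ffa_al.UFin
import Pool.Agent.Work.MP_9d1ffa_al.TDefs
import Pool.Agent.Work.MP_9d1ffa_al.UDefsL

/-! The unitary nilpotent groups of an action on a tree vanish as soon as they vanish for the
amalgamated free products of the stabilisers of two aligned reversible segments. -/

namespace Pool.Agent.Results.MP_9d1ffa_al.UNilLocal

open Pool.Agent.Work.MP_9d1ffa_al Pool.Agent.Work.MP_904812_al MulAction
open scoped Pointwise

theorem result (G V : Type) [Group G] [MulAction G V] (T : SimpleGraph V) (hT : T.IsTree)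
    (act : ∀ (g : G) (a b : V), T.Adj a b → T.Adj (g • a) (g • b)) (ε : ℤˣ)
    (hloc : ∀ a b : Bool → V, (∀ i, a i ≠ b i ∧ ∃ g : G, g • a i = b i ∧ g • b i = a i) →
      Btw T (a false) (a true) (b true) → Btw T (a false) (b false) (b true) →
      ∀ h : ∀ i, (⨅ j, stabilizer G (a j, b j)) ≤ stabilizer G ({a i, b i} : Set V),
        UNilAmalg ε h) :
    UNilTree G T ε := by
  have bt : ∀ x p y : V, Bt (fun a b => (T.dist a b : ℤ)) x p y → Btw T x p y := fun x p y e => by
    simp only [Bt] at e
    exact_mod_cast e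
  refine unilTree_of_loc hT act fun σ τ hm ⟨g, hg⟩ ⟨g', hg'⟩ =>
    locZ_tree (tr_of_isTree hT) (fun g x y => by rw [dist_smul hT act]) hm
      (fun h => unilAm_of_amalg
        (hloc (fun i => (bif i then τ else σ).1) (fun i => (bif i then τ else σ).2) (fun i => ?_)
          (bt _ _ _ hm.2.2.1) (bt _ _ _ hm.2.2.2) h))
  cases i
  · exact ⟨hm.1, g, congrArg Prod.fst hg, congrArg Prod.snd hg⟩
  · exact ⟨hm.2.1, g', congrArg Prod.fst hg', congrArg Prod.snd hg'⟩

end Pool.Agent.Results.MP_9d1ffa_al.UNilLocal
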