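import Pool.Agent.Work.MP_9d1ffa_al.Br.Final
import Pool.Agent.Work.MP_9d1ffa_al.Br.XTop

/-! The Wall groups of the groups in a hierarchy along locally free groups, in particular of all
torsion free one relator groups, fit in the long exact homology sequence of a presentation. -/

namespace Pool.Agent.Work.MP_9d1ffa_al.OldWallGroups

open Pool.Agent.Work.MP_9d1ffa_al

theorem result (B : ∀ (S : Type) [Group S], Prop) (hB : ∀ (S : Type) [Group S], B S → Wall S)
    (G : Type) [Group G] (hG : Hier B G) : WSeq G :=
  (hier_wall closedOn_ev hB hG).2.2

end Pool.Agent.Work.MP_9d1ffa_al.OldWallGroups
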