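import Pool.Agent.Work.MP_9d1ffa_al.WL.BI
import Pool.Agent.Work.MP_9d1ffa_al.WL.Cm

/-! The Whitehead group of `G × ℤ ^ j` vanishes for every torsion free group `G` with a subgroup
of finite index that is linear over a commutative ring modulo a central subgroup. -/

namespace Pool.Agent.Work.MP_9d1ffa_al.OldWhLinear

open Pool.Agent.Work.MP_9d1ffa_al

theorem result (G : Type) [Group G] (tf : ∀ g : G, IsOfFinOrder g → g = 1) (H : Subgroup G)
    (hH : H.FiniteIndex) (R : Type) [CommRing R] (n : ℕ) (ρ : H →* GL (Fin n) R)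
    (hρ : ρ.ker ≤ Subgroup.center H) (j k : ℕ)
    (A : GL (Fin k) (MonoidAlgebra ℤ (G × Multiplicative (Fin j → ℤ)))) :
    ∃ m : ℕ, Matrix.fromBlocks A.1 0 0 1 ∈ Submonoid.closure
      {B : Matrix (Fin k ⊕ Fin m) (Fin k ⊕ Fin m)
          (MonoidAlgebra ℤ (G × Multiplicative (Fin j → ℤ))) |
        (∃ a b r, a ≠ b ∧ B = 1 + Matrix.single a b r) ∨
        ∃ (g : Fin k ⊕ Fin m → G × Multiplicative (Fin j → ℤ)) (ε : Fin k ⊕ Fin m → ℤˣ),
          B = Matrix.diagonal fun a => MonoidAlgebra.single (g a) (ε a : ℤ)} := by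
  obtain ⟨m, h⟩ := WL.whGen_of (WL.whk_central WL.thmC H hH ρ hρ tf) j k A.1 A.isUnit
  refine ⟨m, Submonoid.closure_mono ?_ h⟩
  rintro B (h | h | ⟨H, h, -⟩)
  exacts [Or.inl h, Or.inr h, h.elim]

end Pool.Agent.Work.MP_9d1ffa_al.OldWhLinear
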