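import Pool.Agent.Work.MP_9d1ffa_al.Basic

/-! Formal properties of stably trivial matrices. -/

namespace Pool.Agent.Work.MP_9d1ffa_al

open Matrix MonoidAlgebra MulAction

set_option linter.unusedSectionVars false
set_option linter.unusedVariables false

variable {G : Type} [Group G] {F : Set (Subgroup G)} {ι κ μ : Type} [Fintype ι] [DecidableEq ι]
  [Fintype κ] [DecidableEq κ] [Fintype μ] [DecidableEq μ]

theorem triv0_reindex {A : Matrix ι ι (ZG G)} (h : A ∈ Submonoid.closure (Gen F ι)) (e : κ ≃ ι) :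
    A.submatrix e e ∈ Submonoid.closure (Gen F κ) := by
  induction h using Submonoid.closure_induction with
  | one => rw [submatrix_one_equiv]; exact one_mem _
  | mul A B _ _ hA hB => rw [← submatrix_mul_equiv A B e e e]; exact mul_mem hA hB
  | mem A hA =>
    refine Submonoid.subset_closure ?_
    rcases hA with ⟨i, j, r, hij, rfl⟩ | ⟨g, ε, rfl⟩ | ⟨H, hH, B, hB, rfl⟩
    · refine Or.inl ⟨e.symm i, e.symm j, r, e.symm.injective.ne hij, ?_⟩
      ext a b : 1
      simp only [submatrix_apply, Matrix.add_apply, one_apply, Matrix.single, Matrix.of_apply,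
        e.injective.eq_iff, Equiv.symm_apply_eq]
    · refine Or.inr (Or.inl ⟨g ∘ e, ε ∘ e, ?_⟩)
      rw [submatrix_diagonal_equiv]
      rfl
    · refine Or.inr (Or.inr ⟨H, hH, B.submatrix e e, ?_, rfl⟩)
      obtain ⟨C, h1, h2⟩ := isUnit_iff_exists.1 hB
      exact isUnit_iff_exists.2 ⟨C.submatrix e e,
        by rw [submatrix_mul_equiv, h1, submatrix_one_equiv],
        by rw [submatrix_mul_equiv, h2, submatrix_one_equiv]⟩

theorem triv0_blk_mul {R : Type} [Ring R] (A B : Matrix ι ι R) :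
    fromBlocks A 0 0 (1 : Matrix κ κ R) * fromBlocks B 0 0 (1 : Matrix κ κ R) =
      fromBlocks (A * B) 0 0 (1 : Matrix κ κ R) := by
  simp [fromBlocks_multiply]

theorem triv0_block {A : Matrix ι ι (ZG G)} (h : A ∈ Submonoid.closure (Gen F ι)) :
    fromBlocks A 0 0 (1 : Matrix κ κ (ZG G)) ∈ Submonoid.closure (Gen F (ι ⊕ κ)) := by
  induction h using Submonoid.closure_induction with
  | one => rw [fromBlocks_one]; exact one_mem _
  | mul A B _ _ hA hB => rw [← triv0_blk_mul]; exact mul_mem hA hB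
  | mem A hA =>
    refine Submonoid.subset_closure ?_
    rcases hA with ⟨i, j, r, hij, rfl⟩ | ⟨g, ε, rfl⟩ | ⟨H, hH, B, hB, rfl⟩
    · refine Or.inl ⟨Sum.inl i, Sum.inl j, r, Sum.inl_injective.ne hij, ?_⟩
      ext (a | a) (b | b) : 1 <;> simp [one_apply, Matrix.single]
    · refine Or.inr (Or.inl ⟨Sum.elim g 1, Sum.elim ε 1, ?_⟩)
      rw [← diagonal_one, fromBlocks_diagonal]
      congr 1
      funext a
      rcases a with a | a
      · rfl
      · simp [MonoidAlgebra.one_def]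
    · refine Or.inr (Or.inr ⟨H, hH, fromBlocks B 0 0 1, ?_, ?_⟩)
      · obtain ⟨C, h1, h2⟩ := isUnit_iff_exists.1 hB
        exact isUnit_iff_exists.2 ⟨fromBlocks C 0 0 1,
          by rw [triv0_blk_mul, h1, fromBlocks_one], by rw [triv0_blk_mul, h2, fromBlocks_one]⟩
      · rw [fromBlocks_map, Matrix.map_one _ (map_zero _) (map_one _)]
        simp

theorem triv0_right {A : Matrix ι ι (ZG G)}
    (h : fromBlocks A 0 0 (1 : Matrix κ κ (ZG G)) ∈ Submonoid.closure (Gen F (ι ⊕ κ)))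
    (e : μ ≃ κ) :
    fromBlocks A 0 0 (1 : Matrix μ μ (ZG G)) ∈ Submonoid.closure (Gen F (ι ⊕ μ)) := by
  have := triv0_reindex h (Equiv.sumCongr (Equiv.refl ι) e)
  have e1 : (fromBlocks A 0 0 (1 : Matrix κ κ (ZG G))).submatrix (Equiv.sumCongr (Equiv.refl ι) e)
      (Equiv.sumCongr (Equiv.refl ι) e) = fromBlocks A 0 0 (1 : Matrix μ μ (ZG G)) := by
    ext (a | a) (b | b) : 1 <;> simp [one_apply]
  rwa [e1] at this

theorem triv0_assoc (A : Matrix ι ι (ZG G)) :
    (fromBlocks (fromBlocks A 0 0 (1 : Matrix κ κ (ZG G))) 0 0 (1 : Matrix μ μ (ZG G))).submatrix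
      (Equiv.sumAssoc ι κ μ).symm (Equiv.sumAssoc ι κ μ).symm =
      fromBlocks A 0 0 (1 : Matrix (κ ⊕ μ) (κ ⊕ μ) (ZG G)) := by
  ext (a | a | a) (b | b | b) : 1 <;> simp [one_apply]

theorem triv0_more {A : Matrix ι ι (ZG G)}
    (h : fromBlocks A 0 0 (1 : Matrix κ κ (ZG G)) ∈ Submonoid.closure (Gen F (ι ⊕ κ))) :
    fromBlocks A 0 0 (1 : Matrix (κ ⊕ μ) (κ ⊕ μ) (ZG G)) ∈
      Submonoid.closure (Gen F (ι ⊕ κ ⊕ μ)) := by
  rw [← triv0_assoc]
  exact triv0_reindex (triv0_block h) _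

theorem triv0_of {A : Matrix ι ι (ZG G)}
    (h : fromBlocks A 0 0 (1 : Matrix κ κ (ZG G)) ∈ Submonoid.closure (Gen F (ι ⊕ κ))) :
    Triv F A :=
  ⟨Fintype.card κ, triv0_right h (Fintype.equivFin κ).symm⟩

theorem triv0_inv {A : Matrix ι ι (ZG G)} (h : A ∈ Submonoid.closure (Gen F ι)) :
    ∃ B, A * B = 1 ∧ B * A = 1 ∧ B ∈ Submonoid.closure (Gen F ι) := by
  induction h using Submonoid.closure_induction with
  | one => exact ⟨1, one_mul _, one_mul _, one_mem _⟩
  | mul A B _ _ hA hB =>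
    obtain ⟨A', a1, a2, a3⟩ := hA
    obtain ⟨B', b1, b2, b3⟩ := hB
    refine ⟨B' * A', ?_, ?_, mul_mem b3 a3⟩
    · rw [mul_assoc, ← mul_assoc B, b1, one_mul, a1]
    · rw [mul_assoc, ← mul_assoc A', a2, one_mul, b2]
  | mem A hA =>
    rcases hA with ⟨i, j, r, hij, rfl⟩ | ⟨g, ε, rfl⟩ | ⟨H, hH, B, hB, rfl⟩
    · have key : ∀ r s : ZG G, r + s = 0 →
          (1 + Matrix.single i j r) * (1 + Matrix.single i j s) = (1 : Matrix ι ι (ZG G)) := by
        intro r s hrs
        rw [add_mul, mul_add, mul_add, one_mul, one_mul, mul_one,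
          Matrix.single_mul_single_of_ne _ _ _ _ hij.symm, add_zero, add_assoc,
          ← Matrix.single_add, add_comm s, hrs, Matrix.single_zero, add_zero]
      exact ⟨1 + Matrix.single i j (-r), key _ _ (add_neg_cancel r), key _ _ (neg_add_cancel r),
        Submonoid.subset_closure (Or.inl ⟨i, j, -r, hij, rfl⟩)⟩
    · refine ⟨diagonal fun i => MonoidAlgebra.single (g i)⁻¹ (((ε i)⁻¹ : ℤˣ) : ℤ), ?_, ?_,
        Submonoid.subset_closure (Or.inr (Or.inl ⟨fun i => (g i)⁻¹, fun i => (ε i)⁻¹, rfl⟩))⟩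
      · rw [diagonal_mul_diagonal, ← diagonal_one]
        congr 1
        funext a
        rw [MonoidAlgebra.single_mul_single, mul_inv_cancel, Units.mul_inv, MonoidAlgebra.one_def]
      · rw [diagonal_mul_diagonal, ← diagonal_one]
        congr 1
        funext a
        rw [MonoidAlgebra.single_mul_single, inv_mul_cancel, Units.inv_mul, MonoidAlgebra.one_def]
    · obtain ⟨C, h1, h2⟩ := isUnit_iff_exists.1 hB
      refine ⟨C.map (incl H), ?_, ?_, Submonoid.subset_closure (Or.inr (Or.inr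
        ⟨H, hH, C, isUnit_iff_exists.2 ⟨B, h2, h1⟩, rfl⟩))⟩
      · rw [← Matrix.map_mul, h1, Matrix.map_one _ (map_zero _) (map_one _)]
      · rw [← Matrix.map_mul, h2, Matrix.map_one _ (map_zero _) (map_one _)]

theorem Triv.reindex {A : Matrix ι ι (ZG G)} (hA : Triv F A) (e : κ ≃ ι) :
    Triv F (A.submatrix e e) := by
  obtain ⟨m, h⟩ := hA
  refine ⟨m, ?_⟩
  have := triv0_reindex h (Equiv.sumCongr e (Equiv.refl (Fin m)))
  have e1 : (fromBlocks A 0 0 (1 : Matrix (Fin m) (Fin m) (ZG G))).submatrix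
      (Equiv.sumCongr e (Equiv.refl (Fin m))) (Equiv.sumCongr e (Equiv.refl (Fin m))) =
      fromBlocks (A.submatrix e e) 0 0 1 := by
    ext (a | a) (b | b) : 1 <;> simp [one_apply]
  rwa [e1] at this

theorem triv_of_mem {A : Matrix ι ι (ZG G)} (h : A ∈ Submonoid.closure (Gen F ι)) :
    Triv F A :=
  ⟨0, triv0_block h⟩

theorem triv_one : Triv F (1 : Matrix ι ι (ZG G)) :=
  triv_of_mem (one_mem _)

theorem Triv.mul {A B : Matrix ι ι (ZG G)} (hA : Triv F A) (hB : Triv F B) : Triv F (A * B) := by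
  obtain ⟨m, hA⟩ := hA
  obtain ⟨n, hB⟩ := hB
  refine triv0_of (κ := Fin m ⊕ Fin n) ?_
  rw [← triv0_blk_mul]
  exact mul_mem (triv0_more hA) (triv0_right (triv0_more hB) (Equiv.sumComm _ _))

theorem Triv.inv {A : Matrix ι ι (ZG G)} (hA : Triv F A) :
    ∃ B, A * B = 1 ∧ B * A = 1 ∧ Triv F B := by
  obtain ⟨m, hA⟩ := hA
  obtain ⟨C, h1, h2, h3⟩ := triv0_inv hA
  rw [← fromBlocks_toBlocks C] at h1 h2 h3
  rw [fromBlocks_multiply, ← fromBlocks_one, fromBlocks_inj] at h1 h2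
  simp only [Matrix.zero_mul, Matrix.mul_zero, Matrix.one_mul, Matrix.mul_one, add_zero,
    zero_add] at h1 h2
  refine ⟨C.toBlocks₁₁, h1.1, h2.1, m, ?_⟩
  rwa [h2.2.1, h1.2.2.1, h1.2.2.2] at h3

theorem Triv.isUnit {A : Matrix ι ι (ZG G)} (hA : Triv F A) : IsUnit A :=
  let ⟨B, h1, h2, _⟩ := hA.inv
  isUnit_iff_exists.2 ⟨B, h1, h2⟩

theorem Triv.of_mul_left {A B : Matrix ι ι (ZG G)} (hA : Triv F A) (h : Triv F (A * B)) :
    Triv F B := by
  obtain ⟨C, -, h2, h3⟩ := hA.inv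
  have := h3.mul h
  rwa [← mul_assoc, h2, one_mul] at this

theorem Triv.of_mul_right {A B : Matrix ι ι (ZG G)} (hB : Triv F B) (h : Triv F (A * B)) :
    Triv F A := by
  obtain ⟨C, h1, -, h3⟩ := hB.inv
  have := h.mul h3
  rwa [mul_assoc, h1, mul_one] at this

theorem triv_block_iff {A : Matrix ι ι (ZG G)} :
    Triv F (fromBlocks A 0 0 (1 : Matrix κ κ (ZG G))) ↔ Triv F A := by
  constructor
  · rintro ⟨m, h⟩
    refine triv0_of (κ := κ ⊕ Fin m) ?_
    rw [← triv0_assoc]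
    exact triv0_reindex h _
  · rintro ⟨m, h⟩
    refine ⟨m, ?_⟩
    have h1 := triv0_right (triv0_more (μ := κ) h) (Equiv.sumComm κ (Fin m))
    rw [← triv0_assoc] at h1
    have h2 := triv0_reindex h1 (Equiv.sumAssoc ι κ (Fin m))
    rwa [submatrix_submatrix, Equiv.symm_comp_self, submatrix_id_id] at h2

theorem Triv.mono {F' : Set (Subgroup G)} (hF : F ⊆ F') {A : Matrix ι ι (ZG G)}
    (hA : Triv F A) : Triv F' A := by
  obtain ⟨m, h⟩ := hA
  refine ⟨m, Submonoid.closure_mono ?_ h⟩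
  rintro B (h | h | ⟨H, hH, h⟩)
  · exact Or.inl h
  · exact Or.inr (Or.inl h)
  · exact Or.inr (Or.inr ⟨H, hF hH, h⟩)

theorem WhGen.triv (h : WhGen F) {A : Matrix ι ι (ZG G)} (hA : IsUnit A) : Triv F A := by
  let e := (Fintype.equivFin ι).symm
  obtain ⟨C, h1, h2⟩ := isUnit_iff_exists.1 hA
  have := (h _ (A.submatrix e e) (isUnit_iff_exists.2 ⟨C.submatrix e e,
    by rw [submatrix_mul_equiv, h1, submatrix_one_equiv],
    by rw [submatrix_mul_equiv, h2, submatrix_one_equiv]⟩)).reindex e.symm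
  rwa [submatrix_submatrix, Equiv.self_comp_symm, submatrix_id_id] at this

end Pool.Agent.Work.MP_9d1ffa_al
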